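import Pool.Agent.Lib.MP_100fe7_nt.Levi

/-!
The closed formula for the Deligne periods of `ρ(M)`.
-/

set_option linter.unusedSectionVars false

namespace Pool.Agent.MP100fe7

open Matrix

variable {E : Type} [Field E] [CharZero E] {R : Type} [CommRing R] [Algebra E R] {n k : ℕ} {w : ℤ}
  {κ : Type} [Fintype κ] [DecidableEq κ] (ρ : PolyRep E n κ k) (M : Datum R n w)

/-- the blocks of `C` with index in `T`, extended by the identity -/
def cutT {S : Type} [CommRing S] (C : Matrix (Fin n) (Fin n) S) (T : Finset ℤ) :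
    Matrix (Fin n) (Fin n) S :=
  Matrix.of fun i j => if w - M.p i ∈ T then (if M.p i = M.p j then C i j else 0)
    else if i = j then 1 else 0

/-- the block `a` of `C` -/
def blockOf {S : Type} (C : Matrix (Fin n) (Fin n) S) (a : ℤ) :
    Matrix (Block M a) (Block M a) S :=
  Matrix.of fun i j => C i.1 j.1

theorem cutT_empty {S : Type} [CommRing S] (C : Matrix (Fin n) (Fin n) S) :
    cutT M C ∅ = 1 := by
  ext i j
  simp [cutT, Matrix.one_apply]

theorem cutT_insert {S : Type} [CommRing S] (C : Matrix (Fin n) (Fin n) S) (a : ℤ) (T : Finset ℤ)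
    (ha : a ∉ T) : cutT M C (insert a T) = emb' M a (blockOf M C a) * cutT M C T := by
  ext i j
  rw [Matrix.mul_apply]
  by_cases hi : w - M.p i = a
  · have h1 : ∀ l, emb' M a (blockOf M C a) i l * cutT M C T l j =
        if l = j then (if w - M.p j = a then C i j else 0) else 0 := by
      intro l
      rw [emb'_apply, dif_pos hi]
      by_cases hl : w - M.p l = a
      · rw [dif_pos hl]
        simp only [cutT, blockOf, Matrix.of_apply]
        rw [if_neg (by rw [hl]; exact ha)]
        by_cases hlj : l = j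
        · subst hlj
          rw [if_pos rfl, if_pos rfl, if_pos hl, mul_one]
        · rw [if_neg hlj, if_neg hlj, mul_zero]
      · rw [dif_neg hl, zero_mul]
        by_cases hlj : l = j
        · subst hlj
          rw [if_pos rfl, if_neg hl]
        · rw [if_neg hlj]
    rw [Finset.sum_congr rfl (fun l _ => h1 l), Finset.sum_ite_eq' Finset.univ j]
    simp only [cutT, Matrix.of_apply, Finset.mem_univ, if_true]
    rw [if_pos (by rw [hi]; exact Finset.mem_insert_self _ _)]
    by_cases hj : w - M.p j = a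
    · rw [if_pos hj, if_pos (by omega)]
    · rw [if_neg hj, if_neg (by omega)]
  · have h1 : ∀ l, emb' M a (blockOf M C a) i l * cutT M C T l j =
        if i = l then cutT M C T l j else 0 := by
      intro l
      rw [emb'_apply, dif_neg hi]
      split_ifs <;> simp
    rw [Finset.sum_congr rfl (fun l _ => h1 l), Finset.sum_ite_eq Finset.univ i]
    simp only [cutT, Matrix.of_apply, Finset.mem_univ, if_true, Finset.mem_insert, hi, false_or]

theorem detLo_cutT (C : Matrix (Fin n) (Fin n) R) (T : Finset ℤ) :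
    detLo ρ M (ρ.ev R (fromBlocks 1 0 0 (cutT M C T))) =
      ∏ a ∈ T, detLo ρ M (ρ.ev R (emb M a (blockOf M C a))) := by
  induction T using Finset.induction_on with
  | empty => rw [cutT_empty, fromBlocks_one, ρ.ev_one, detLo_one, Finset.prod_empty]
  | insert a T ha ih =>
    rw [Finset.prod_insert ha, ← ih, cutT_insert M C a T ha]
    have h1 : (fromBlocks 1 0 0 (emb' M a (blockOf M C a) * cutT M C T) :
        Matrix (Idx n) (Idx n) R) = emb M a (blockOf M C a) * fromBlocks 1 0 0 (cutT M C T) := by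
      unfold emb
      rw [fromBlocks_multiply]
      simp
    rw [h1, ρ.ev_mul, detLo_mul ρ M _ _ (ev_emb_levi ρ M a _)]

/-- the lower right block of `M.b` -/
noncomputable def cBlock : Matrix (Fin n) (Fin n) R :=
  Matrix.of fun i j => M.b (Sum.inr i) (Sum.inr j)

theorem levi_b : (Matrix.of fun i j => if M.hodgeIdx i = M.hodgeIdx j then M.b i j else 0) =
    fromBlocks 1 0 0 (cutT M (cBlock M) (lowIndices M)) := by
  ext1 i j
  rw [Matrix.of_apply]
  rcases i with i | i <;> rcases j with j | j
  · rw [fromBlocks_apply₁₁]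
    by_cases h : M.hodgeIdx (Sum.inl i) = M.hodgeIdx (Sum.inl j)
    · rw [if_pos h, M.b_col_inl, M.z_spec]
      · by_cases hij : i = j
        · subst hij
          simp
        · rw [Matrix.one_apply_ne hij, Pi.single_eq_of_ne]
          simpa using hij
      · rw [h]
        simp [Datum.hodgeIdx]
    · rw [if_neg h, Matrix.one_apply_ne]
      rintro rfl
      exact h rfl
  · rw [if_neg]
    · rfl
    · have h1 := M.two_p i
      have h2 := M.two_p j
      simp only [Datum.hodgeIdx, Sum.elim_inl, Sum.elim_inr]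
      omega
  · rw [if_neg]
    · rfl
    · have h1 := M.two_p i
      have h2 := M.two_p j
      simp only [Datum.hodgeIdx, Sum.elim_inl, Sum.elim_inr]
      omega
  · rw [fromBlocks_apply₂₂]
    simp only [cutT, Matrix.of_apply, cBlock, Datum.hodgeIdx, Sum.elim_inr]
    have h1 : w - M.p i ∈ lowIndices M := Finset.mem_image_of_mem _ (Finset.mem_univ i)
    rw [if_pos h1]
    by_cases h : M.p i = M.p j
    · rw [if_pos h, if_pos (by omega)]
    · rw [if_neg h, if_neg (by omega)]

theorem z_unique (a : ℤ) (i : Block M a) (z : Idx n → R) (h1 : z ∈ M.hodge (w - a))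
    (h2 : ∀ j : Idx n, M.hodgeIdx j ≤ w - a → M.comp.mulVec z j = if j = Sum.inl i.1 then 1 else 0) :
    z = M.z i.1 := by
  have hp : M.p i.1 = w - a := by
    have := i.2
    omega
  have h3 : z - M.z i.1 ∈ M.hodge (w - a) := by
    apply Submodule.sub_mem _ h1
    rw [← hp]
    exact M.z_mem i.1
  have h4 : z - M.z i.1 ∈ M.up (w - a + 1) := by
    rw [M.mem_up_iff]
    intro j hj
    rw [mulVec_sub, Pi.sub_apply, h2 j (by omega), M.z_spec i.1 j (by omega)]
    by_cases h : j = Sum.inl i.1
    · subst h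
      simp
    · rw [if_neg h, Pi.single_eq_of_ne h, sub_self]
  have h5 := (M.internal.submodule_iSupIndep) (w - a)
  have h6 : M.up (w - a + 1) ≤ ⨆ j, ⨆ (_ : j ≠ w - a), M.hodge j := by
    unfold Datum.up
    apply iSup₂_le
    intro b hb
    exact le_iSup₂_of_le b (by omega) le_rfl
  have h7 := Submodule.disjoint_def.mp h5 _ h3 (h6 h4)
  exact sub_eq_zero.mp h7

theorem hodgePeriod_eq (a : ℤ) (q : R) (h : IsHodgePeriod M a q) :
    q = (blockOf M (cBlock M) a).det := by
  obtain ⟨z, h1, h2, rfl⟩ := h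
  congr 1
  ext1 i j
  simp only [Matrix.of_apply, blockOf, cBlock]
  rw [M.b_col_inr, z_unique M a j (z j) (h1 j) (h2 j)]

theorem isHodgePeriod_block (a : ℤ) : IsHodgePeriod M a (blockOf M (cBlock M) a).det := by
  refine ⟨fun i => M.z i.1, ?_, ?_, ?_⟩
  · intro i
    have hp : M.p i.1 = w - a := by
      have := i.2
      omega
    rw [← hp]
    exact M.z_mem i.1
  · intro i j hj
    have hp : M.p i.1 = w - a := by
      have := i.2
      omega
    rw [M.z_spec i.1 j (by omega), Pi.single_apply]
  · congr 1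

/-- the determinant of `ρ(b)` on the quotient -/
theorem detLo_b (S : ℤ → ℕ)
    (hS : ∀ a, detLo ρ M (ρ.ev R (emb M a (blockOf M (cBlock M) a))) =
      (blockOf M (cBlock M) a).det ^ S a) :
    detLo ρ M (ρ.ev R M.b) = ∏ a ∈ lowIndices M, (blockOf M (cBlock M) a).det ^ S a := by
  have h1 : detLo ρ M (ρ.ev R M.b) = detLo ρ M (ρ.ev R
      (Matrix.of fun i j => if M.hodgeIdx i = M.hodgeIdx j then M.b i j else 0)) := by
    apply detLo_congr
    · intro s t hst
      exact ρ.ev_parabolic M.hodgeIdx _ M.b_parabolic s t hst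
    · intro s t hst
      apply ρ.ev_parabolic M.hodgeIdx _ _ s t hst
      intro i j hij
      rw [Matrix.of_apply, if_neg (ne_of_lt hij)]
    · intro s t hst
      apply ev_diagBlocks ρ M.hodgeIdx M.b _ M.b_parabolic _ s t hst
      intro i j
      rfl
  rw [h1, levi_b, detLo_cutT]
  exact Finset.prod_congr rfl (fun a _ => hS a)

theorem exists_factor' (h2 : IsUnit (2 : R)) : ∃ (h₁ h₂ : Matrix (Fin n) (Fin n) R),
    IsUnit h₁.det ∧ IsUnit h₂.det ∧ M.comp = M.b * gz R n * fromBlocks h₁ 0 0 h₂ := by
  have hZ := M.isUnit_det_Z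
  have hg := isUnit_det_gz (n := n) h2
  have hZg : IsUnit (M.Z * gz R n).det := by
    rw [det_mul]
    exact hZ.mul hg
  have hcomm : frob R n * (M.Z * gz R n) = (M.Z * gz R n) * frob R n := by
    rw [← Matrix.mul_assoc, M.frob_mul_Z, Matrix.mul_assoc, swapM_mul_gz, ← Matrix.mul_assoc]
  let h := (M.Z * gz R n)⁻¹
  have hcomm' : frob R n * h = h * frob R n := by
    have e1 : h * (frob R n * (M.Z * gz R n)) * h = h * ((M.Z * gz R n) * frob R n) * h := by
      rw [hcomm]
    rw [Matrix.mul_assoc, Matrix.mul_assoc (frob R n), mul_nonsing_inv _ hZg, Matrix.mul_one,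
      ← Matrix.mul_assoc h, nonsing_inv_mul _ hZg, Matrix.one_mul] at e1
    exact e1.symm
  have hblock := block_of_commute h2 h hcomm'
  have hdet : IsUnit h.det := by
    simp only [h]
    rw [det_nonsing_inv]
    exact hZg.ringInverse
  have hdet2 : IsUnit (h.toBlocks₁₁.det * h.toBlocks₂₂.det) := by
    rw [hblock, det_fromBlocks_zero₂₁] at hdet
    exact hdet
  refine ⟨h.toBlocks₁₁, h.toBlocks₂₂, isUnit_of_mul_isUnit_left hdet2,
    isUnit_of_mul_isUnit_right hdet2, ?_⟩
  rw [← hblock]
  unfold Datum.b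
  rw [Matrix.mul_assoc M.comp, Matrix.mul_assoc, mul_nonsing_inv _ hZg, Matrix.mul_one]

theorem isUnit_b : IsUnit M.b.det := by
  unfold Datum.b
  rw [det_mul]
  exact M.comp_unit.mul M.isUnit_det_Z

/-- the size of a quotient projection -/
theorem size_lo [Nontrivial R] {m : ℕ} {B : Matrix (Fin m) κ E} (hB : KerCond ρ M B)
    {B' : Matrix κ (Fin m) E} (e : B * B' = 1) : m = Fintype.card {s // lo ρ M s} := by
  let ψ₀ : Fin (Fintype.card {s // lo ρ M s}) ≃ {s // lo ρ M s} := (Fintype.equivFin _).symm
  have hc : ((1 : Matrix κ κ E).submatrix (fun j => (ψ₀ j).1) id) *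
        ((1 : Matrix κ κ E).submatrix id (fun j => (ψ₀ j).1)) = 1 := by
    rw [← Matrix.submatrix_mul _ _ _ _ _ Function.bijective_id, Matrix.one_mul]
    ext i j
    rw [submatrix_apply, Matrix.one_apply, Matrix.one_apply]
    by_cases h : i = j
    · simp [h]
    · rw [if_neg h, if_neg]
      intro h'
      exact h (ψ₀.injective (Subtype.ext h'))
  have hsz := size_eq ρ M hB (kerCond_coord ρ M ψ₀) e hc
  have := Matrix.square_of_invertible _ _ hsz.2 hsz.1
  simpa using this

/-- The formula for one period, in terms of the factorisation. -/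
theorem period_formula [Nontrivial R] (hmid : NoMiddle ρ M) {ε : E} (hε : ε * ε = 1)
    {h₁ h₂ : Matrix (Fin n) (Fin n) R} (hM : M.comp = M.b * gz R n * fromBlocks h₁ 0 0 h₂)
    (δ₁ δ₂ : Rˣ) (hδ₁ : (δ₁ : R) = h₁.det) (hδ₂ : (δ₂ : R) = h₂.det) (Q : ℤ → Rˣ)
    (hQ : ∀ a ∈ lowIndices M, (Q a : R) = (blockOf M (cBlock M) a).det) (S : ℤ → ℕ)
    (hS : ∀ a, detLo ρ M (ρ.ev R (emb M a (blockOf M (cBlock M) a))) =
      (blockOf M (cBlock M) a).det ^ S a) {x : R} (hx : IsPeriod ρ M ε x) :
    ∃ (A B : ℕ) (e : Eˣ) (u : Rˣ),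
      ((n : E) * A = ∑ s, (degL ρ s : E) * ((1 + ε * ((ρ.sgn s : ℤ) : E)) / 2)) ∧
      n * A + n * B = k * Fintype.card {s // lo ρ M s} ∧ (u : R) = x ∧
      u = Units.map (algebraMap E R).toMonoidHom e * (∏ a ∈ lowIndices M, Q a ^ S a) *
        (δ₁ ^ A * δ₂ ^ B) := by
  obtain ⟨m, A, B, hA, hAr, hB, hK, rfl⟩ := hx
  obtain ⟨B', e₁⟩ := mulVec_surjective_iff_exists_right_inverse.mp hB
  obtain ⟨A', hl, hr⟩ := exists_left ρ hε A hA hAr
  obtain ⟨a, b, hd, hn, hs⟩ := eta_det ρ hε hl hr
  have hX : ∀ s t, ρ.hodgeIdx M s < ρ.hodgeIdx M t → ρ.ev R M.b s t = 0 := by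
    intro s t hst
    exact ρ.ev_parabolic M.hodgeIdx _ M.b_parabolic s t hst
  have p := period_factor ρ M hε hl hr hK e₁ M.b_parabolic hM
  rw [hd R h₁ h₂, ← hδ₁, ← hδ₂, det_quot_eq_detLo ρ M hK e₁ _ hX, detLo_b ρ M S hS] at p
  have hne := det_split_ne_zero ρ M hmid hε hl hr hK
  have hm := size_lo ρ M hK e₁
  refine ⟨a, b, Units.mk0 _ hne, Units.map (algebraMap E R).toMonoidHom (Units.mk0 _ hne) *
    (∏ a ∈ lowIndices M, Q a ^ S a) * (δ₁ ^ a * δ₂ ^ b), hn, ?_, ?_, rfl⟩
  · rw [hs, hm]
  · change _ = (B.map (algebraMap E R) * ρ.ev R M.comp * A.map (algebraMap E R)).det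
    rw [p]
    simp only [Units.val_mul, Units.val_pow_eq_pow_val, Units.coe_prod]
    change algebraMap E R _ * _ * _ = _
    have h3 : ∏ c ∈ lowIndices M, (Q c : R) ^ S c =
        ∏ c ∈ lowIndices M, (blockOf M (cBlock M) c).det ^ S c :=
      Finset.prod_congr rfl (fun c hc => by rw [hQ c hc])
    rw [h3]
    simp only [Units.val_mk0]
    ring

theorem sgn_eq_pow (s : κ) : ρ.sgn s = (-1 : ℤ) ^ (∑ i, ρ.wt s (Sum.inr i)) := by
  unfold PolyRep.sgn
  rw [Finset.prod_pow_eq_pow_sum]

theorem card_signPart (hmid : NoMiddle ρ M) (ε : ℤ) (hε : ε = 1 ∨ ε = -1) :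
    (signPart ρ ε).card = Fintype.card {s // lo ρ M s} := by
  have h := card_sgn_eq ρ M hmid
  unfold signPart
  simp only [← sgn_eq_pow]
  rw [← Fintype.card_subtype]
  rcases hε with rfl | rfl
  · exact h.1
  · exact h.2

theorem half_sum (ε : ℤ) (hε : ε = 1 ∨ ε = -1) (f : κ → ℕ) :
    ∑ s, (f s : E) * ((1 + (ε : E) * ((ρ.sgn s : ℤ) : E)) / 2) =
      ((∑ s ∈ signPart ρ ε, f s : ℕ) : E) := by
  unfold signPart
  simp only [← sgn_eq_pow]
  rw [Finset.sum_filter]
  push_cast
  apply Finset.sum_congr rfl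
  intro s _
  rcases hε with rfl | rfl
  · rcases ρ.sgn_eq s with h | h
    · rw [h, if_pos rfl]
      push_cast
      ring
    · rw [h, if_neg (by norm_num)]
      push_cast
      ring
  · rcases ρ.sgn_eq s with h | h
    · rw [h, if_neg (by norm_num)]
      push_cast
      ring
    · rw [h, if_pos rfl]
      push_cast
      ring

theorem lowPart_sum (hmid : NoMiddle ρ M) (f : κ → ℕ) :
    ∑ s : {s // lo ρ M s}, f s.1 = ∑ s ∈ lowPart ρ M, f s := by
  have h1 : lowPart ρ M = Finset.univ.filter (lo ρ M) := by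
    unfold lowPart
    apply Finset.filter_congr
    intro s _
    have h := hmid s
    unfold lo
    omega
  rw [h1]
  rw [Finset.sum_subtype (Finset.univ.filter (lo ρ M)) (p := lo ρ M) (by intro s; simp)]

theorem degL_add (s : κ) : degL ρ s + ∑ i, ρ.wt s (Sum.inr i) = k := by
  have h := ρ.deg s
  rw [Fintype.sum_sum_type] at h
  exact h

theorem std_lo (i : Fin n) : ¬ lo (std E n) M (Sum.inl i) ∧ lo (std E n) M (Sum.inr i) := by
  have h1 : ∀ s : Idx n, (std E n).hodgeIdx M s = M.hodgeIdx s := by
    intro s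
    unfold PolyRep.hodgeIdx
    rw [Finset.sum_eq_single s]
    · simp [std]
    · intro t _ ht
      simp [std, Pi.single_eq_of_ne ht]
    · simp
  have h2 := M.two_p i
  unfold lo
  rw [h1, h1]
  simp only [Datum.hodgeIdx, Sum.elim_inl, Sum.elim_inr]
  push_cast
  omega

/-- the block exponents of the standard representation -/
theorem std_exponent (S : ℤ → ℕ)
    (hS2 : ∀ a, Fintype.card (Block M a) * S a =
      ∑ s : {s // lo (std E n) M s}, degB (std E n) M a s.1) :
    ∀ a ∈ lowIndices M, S a = 1 := by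
  have hlo := std_lo (E := E) M
  intro a ha
  have h1 := hS2 a
  have h2 : ∑ s : {s // lo (std E n) M s}, degB (std E n) M a s.1 = Fintype.card (Block M a) := by
    have h3 : ∑ s : {s // lo (std E n) M s}, degB (std E n) M a s.1 =
        ∑ i : Fin n, degB (std E n) M a (Sum.inr i) := by
      rw [← Finset.sum_subtype (Finset.univ.filter (lo (std E n) M)) (p := lo (std E n) M)
        (by intro s; simp) (fun s => degB (std E n) M a s)]
      rw [Finset.sum_filter, Fintype.sum_sum_type]
      simp [hlo]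
    rw [h3]
    have h4 : ∀ i : Fin n, degB (std E n) M a (Sum.inr i) = if w - M.p i = a then 1 else 0 := by
      intro i
      unfold degB
      by_cases hi : w - M.p i = a
      · rw [if_pos hi, Finset.sum_eq_single (⟨i, hi⟩ : Block M a)]
        · simp [std]
        · intro j _ hj
          have : (Sum.inr j.1 : Idx n) ≠ Sum.inr i := by
            intro h
            apply hj
            exact Subtype.ext (by simpa using h)
          simp [std, Pi.single_eq_of_ne this]
        · simp
      · rw [if_neg hi]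
        apply Finset.sum_eq_zero
        intro j _
        have : (Sum.inr j.1 : Idx n) ≠ Sum.inr i := by
          intro h
          apply hi
          have h5 : j.1 = i := by simpa using h
          rw [← h5]
          exact j.2
        simp [std, Pi.single_eq_of_ne this]
    rw [Finset.sum_congr rfl (fun i _ => h4 i), Finset.sum_boole, Fintype.card_subtype]
    rfl
  rw [h2] at h1
  have hpos : 0 < Fintype.card (Block M a) := by
    obtain ⟨i, _, hi⟩ := Finset.mem_image.mp ha
    exact Fintype.card_pos_iff.mpr ⟨⟨i, hi⟩⟩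
  have h6 : Fintype.card (Block M a) * S a = Fintype.card (Block M a) * 1 := by
    rw [h1, mul_one]
  exact Nat.eq_of_mul_eq_mul_left hpos h6

/-- the exponents of the standard representation -/
theorem std_formula [Nontrivial R] {ε : ℤ} (hε : ε = 1 ∨ ε = -1)
    {h₁ h₂ : Matrix (Fin n) (Fin n) R} (hM : M.comp = M.b * gz R n * fromBlocks h₁ 0 0 h₂)
    (δ₁ δ₂ : Rˣ) (hδ₁ : (δ₁ : R) = h₁.det) (hδ₂ : (δ₂ : R) = h₂.det) (Q : ℤ → Rˣ)
    (hQ : ∀ a ∈ lowIndices M, (Q a : R) = (blockOf M (cBlock M) a).det)
    {x : R} (hx : IsPeriod (std E n) M (ε : E) x) :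
    ∃ (e : Eˣ) (u : Rˣ), (u : R) = x ∧
      u = Units.map (algebraMap E R).toMonoidHom e * (∏ a ∈ lowIndices M, Q a) *
        (if ε = 1 then δ₁ else δ₂) := by
  choose S hS1 hS2 using fun a => detLo_emb (std E n) M a
  have hεε : (ε : E) * ε = 1 := by
    rcases hε with rfl | rfl <;> norm_num
  obtain ⟨A, B, e, u, hA, hAB, hu, hue⟩ := period_formula (std E n) M (noMiddle_std M) hεε hM
    δ₁ δ₂ hδ₁ hδ₂ Q hQ S (fun a => hS1 a R _) hx
  refine ⟨e, u, hu, ?_⟩
  rw [hue]
  have hlo := std_lo (E := E) M
  have hcard : Fintype.card {s // lo (std E n) M s} = n := by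
    have e1 : {s // lo (std E n) M s} ≃ Fin n :=
      { toFun := fun s => match s with
          | ⟨Sum.inl i, h⟩ => absurd h (hlo i).1
          | ⟨Sum.inr i, _⟩ => i
        invFun := fun i => ⟨Sum.inr i, (hlo i).2⟩
        left_inv := by
          rintro ⟨s | s, hs⟩
          · exact absurd hs (hlo s).1
          · rfl
        right_inv := by
          intro i
          rfl }
    rw [Fintype.card_congr e1, Fintype.card_fin]
  have hS := std_exponent M S hS2
  have hprod : ∏ a ∈ lowIndices M, Q a ^ S a = ∏ a ∈ lowIndices M, Q a :=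
    Finset.prod_congr rfl (fun a ha => by rw [hS a ha, pow_one])
  rw [hprod]
  congr 1
  rcases Nat.eq_zero_or_pos n with h0 | hpos
  · subst h0
    have t₁ : δ₁ = 1 := by
      ext
      rw [hδ₁]
      simp
    have t₂ : δ₂ = 1 := by
      ext
      rw [hδ₂]
      simp
    rw [t₁, t₂]
    simp
  · rw [hcard, one_mul] at hAB
    have hsum : (∑ s ∈ signPart (std E n) ε, degL (std E n) s) = if ε = 1 then n else 0 := by
      unfold signPart
      rw [Finset.sum_filter, Fintype.sum_sum_type]
      have e1 : ∀ i : Fin n, degL (std E n) (Sum.inl i) = 1 := by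
        intro i
        unfold degL
        rw [Finset.sum_eq_single i]
        · simp [std]
        · intro j _ hj
          have : (Sum.inl j : Idx n) ≠ Sum.inl i := by simpa using hj
          simp [std, Pi.single_eq_of_ne this]
        · simp
      have e2 : ∀ i : Fin n, degL (std E n) (Sum.inr i) = 0 := by
        intro i
        unfold degL
        apply Finset.sum_eq_zero
        intro j _
        simp [std]
      have e3 : ∀ i : Fin n, ∑ j, (std E n).wt (Sum.inl i) (Sum.inr j) = 0 := by
        intro i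
        apply Finset.sum_eq_zero
        intro j _
        simp [std]
      simp only [e1, e2, e3, pow_zero, ite_self, Finset.sum_const_zero, add_zero]
      rcases hε with rfl | rfl
      · simp
      · norm_num
    rw [half_sum (std E n) ε hε, hsum] at hA
    rcases hε with rfl | rfl
    · rw [if_pos rfl] at hA ⊢
      have hA' : n * A = n * 1 := by
        have : ((n * A : ℕ) : E) = ((n * 1 : ℕ) : E) := by
          push_cast
          rw [hA, mul_one]
        exact_mod_cast this
      have hA1 : A = 1 := Nat.eq_of_mul_eq_mul_left hpos hA'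
      rw [hA1] at hAB
      have hB0 : B = 0 := by
        have h7 : n * B = 0 := by omega
        rcases Nat.mul_eq_zero.mp h7 with h8 | h8
        · omega
        · exact h8
      rw [hA1, hB0, pow_one, pow_zero, mul_one]
    · rw [if_neg (by norm_num)] at hA ⊢
      have hA' : n * A = 0 := by
        have : ((n * A : ℕ) : E) = ((0 : ℕ) : E) := by
          push_cast
          rw [hA]
          simp
        exact_mod_cast this
      have hA0 : A = 0 := by
        rcases Nat.mul_eq_zero.mp hA' with h8 | h8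
        · omega
        · exact h8
      rw [hA0, mul_zero, zero_add] at hAB
      have hB1 : B = 1 := Nat.eq_of_mul_eq_mul_left hpos (by rw [hAB, mul_one])
      rw [hA0, hB1, pow_one, pow_zero, one_mul]

end Pool.Agent.MP100fe7
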