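import Pool.Agent.Lib.MP_100fe7_nt.Defs

/-!
The signed degree of a Schur polynomial.
-/

set_option linter.unusedSectionVars false

namespace Pool.Agent.MP100fe7

open Matrix Finset

section pairs

variable {N : ℕ} (l : Fin N → ℕ)

/-- number of pairs of the same parity -/
def samePairs : ℕ := ∑ i, ∑ j ∈ Ioi i, if l i % 2 = l j % 2 then 1 else 0

theorem samePairs_eq (e : ℕ) (he : (univ.filter fun j => Even (l j)).card = e) :
    2 * samePairs l + N = e * e + (N - e) * (N - e) := by
  classical
  let c : Fin N → Fin N → ℕ := fun i j => if l i % 2 = l j % 2 then 1 else 0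
  have hsym : ∀ i j, c i j = c j i := by
    intro i j
    simp only [c]
    by_cases h : l i % 2 = l j % 2
    · rw [if_pos h, if_pos h.symm]
    · rw [if_neg h, if_neg (fun h' => h h'.symm)]
  have hodd : (univ.filter fun j => ¬ Even (l j)).card = N - e := by
    have h1 := Finset.card_filter_add_card_filter_not (s := (univ : Finset (Fin N)))
      (fun j => Even (l j))
    rw [he, Finset.card_univ, Fintype.card_fin] at h1
    omega
  have hle : e ≤ N := by
    rw [← he]
    calc _ ≤ (univ : Finset (Fin N)).card := Finset.card_filter_le _ _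
      _ = N := by simp
  have hrow : ∀ i, ∑ j, c i j = if Even (l i) then e else N - e := by
    intro i
    by_cases hi : Even (l i)
    · rw [if_pos hi, ← he, Finset.card_filter]
      apply Finset.sum_congr rfl
      intro j _
      simp only [c]
      have h1 := Nat.even_iff.mp hi
      simp only [Nat.even_iff, h1]
      by_cases hj : l j % 2 = 0
      · simp [hj]
      · have : l j % 2 = 1 := by omega
        simp [this]
    · rw [if_neg hi, ← hodd, Finset.card_filter]
      apply Finset.sum_congr rfl
      intro j _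
      simp only [c]
      have h1 : l i % 2 = 1 := by
        rw [Nat.even_iff] at hi
        omega
      simp only [Nat.even_iff, h1]
      by_cases hj : l j % 2 = 0
      · simp [hj]
      · have : l j % 2 = 1 := by omega
        simp [this]
  have htot : ∑ i, ∑ j, c i j = e * e + (N - e) * (N - e) := by
    rw [Finset.sum_congr rfl (fun i _ => hrow i), Finset.sum_ite, Finset.sum_const,
      Finset.sum_const, he, hodd]
    simp
  have hsplit : ∀ i, ∑ j, c i j = (∑ j ∈ Ioi i, c i j) + (∑ j ∈ Iio i, c i j) + 1 := by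
    intro i
    have h1 : (univ : Finset (Fin N)) = (Ioi i ∪ Iio i) ∪ {i} := by
      ext j
      simp only [mem_univ, mem_union, mem_Ioi, mem_Iio, mem_singleton, true_iff]
      rcases lt_trichotomy i j with h | h | h
      · exact Or.inl (Or.inl h)
      · exact Or.inr h.symm
      · exact Or.inl (Or.inr h)
    rw [h1, Finset.sum_union, Finset.sum_union, Finset.sum_singleton]
    · simp [c]
    · rw [Finset.disjoint_left]
      intro j hj hj'
      rw [mem_Ioi] at hj
      rw [mem_Iio] at hj'
      exact absurd hj (not_lt.mpr hj'.le)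
    · rw [Finset.disjoint_left]
      intro j hj hj'
      rw [mem_singleton] at hj'
      subst hj'
      simp at hj
  have hswap : ∑ i, ∑ j ∈ Iio i, c i j = ∑ i, ∑ j ∈ Ioi i, c i j := by
    rw [Finset.sum_comm' (t' := univ) (s' := fun j => Ioi j)]
    · apply Finset.sum_congr rfl
      intro j _
      apply Finset.sum_congr rfl
      intro i _
      exact hsym i j
    · intro i j
      simp
  have hfin : ∑ i, ∑ j, c i j = 2 * samePairs l + N := by
    rw [Finset.sum_congr rfl (fun i _ => hsplit i), Finset.sum_add_distrib,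
      Finset.sum_add_distrib, hswap]
    simp only [Finset.sum_const, Finset.card_univ, Fintype.card_fin, smul_eq_mul, mul_one]
    unfold samePairs
    ring
  rw [← hfin, htot]

/-- the polynomial `(-X)^a - (-X)^b` is `(X - 1)^c g` -/
theorem factor_pair (a b : ℕ) (h : b < a) : ∃ g : Polynomial ℤ,
    (-Polynomial.X) ^ b - (-Polynomial.X) ^ a =
      (Polynomial.X - 1) ^ (if a % 2 = b % 2 then 1 else 0) * g ∧
    g.eval 1 = -2 * (-1) ^ a * ((if a % 2 = b % 2 then (a - b) / 2 else 1 : ℕ) : ℤ) := by
  by_cases hp : a % 2 = b % 2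
  · simp only [if_pos hp, pow_one]
    obtain ⟨c, hc⟩ : ∃ c, a = b + 2 * c := ⟨(a - b) / 2, by omega⟩
    refine ⟨-((-Polynomial.X) ^ b * ∑ i ∈ range (2 * c), Polynomial.X ^ i), ?_, ?_⟩
    · have h1 : (∑ i ∈ range (2 * c), (Polynomial.X : Polynomial ℤ) ^ i) * (Polynomial.X - 1) =
          Polynomial.X ^ (2 * c) - 1 := geom_sum_mul _ _
      have h2 : (-Polynomial.X : Polynomial ℤ) ^ a = (-Polynomial.X) ^ b * Polynomial.X ^ (2 * c) := by
        rw [hc, pow_add, pow_mul (-Polynomial.X), neg_sq, ← pow_mul]
      rw [h2]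
      linear_combination ((-Polynomial.X : Polynomial ℤ) ^ b) * h1
    · have h3 : (-1 : ℤ) ^ a = (-1) ^ b := by
        rw [hc, pow_add, pow_mul]
        simp
      have h4 : (a - b) / 2 = c := by omega
      rw [h3, h4]
      simp [Polynomial.eval_finsetSum]
      ring
  · simp only [if_neg hp, pow_zero, one_mul]
    refine ⟨_, rfl, ?_⟩
    have h3 : (-1 : ℤ) ^ b = -(-1) ^ a := by
      rcases Nat.even_or_odd a with ha | ha
      · have hb : Odd b := by
          rw [Nat.odd_iff]
          rw [Nat.even_iff] at ha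
          omega
        rw [ha.neg_one_pow, hb.neg_one_pow]
      · have hb : Even b := by
          rw [Nat.even_iff]
          rw [Nat.odd_iff] at ha
          omega
        rw [ha.neg_one_pow, hb.neg_one_pow]
        norm_num
    simp [h3]
    ring

theorem vandermonde_factor (hl : StrictAnti l) : ∃ G : Polynomial ℤ,
    (Matrix.vandermonde fun j => (-Polynomial.X : Polynomial ℤ) ^ l j).det =
      (Polynomial.X - 1) ^ samePairs l * G ∧
    G.eval 1 = (∏ i : Fin N, ∏ _j ∈ Ioi i, (-2 * (-1) ^ l i : ℤ)) *
      ((∏ i, ∏ j ∈ Ioi i, if l i % 2 = l j % 2 then (l i - l j) / 2 else 1 : ℕ) : ℤ) := by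
  have h1 : ∀ i j : Fin N, ∃ g : Polynomial ℤ, i < j →
      ((-Polynomial.X) ^ l j - (-Polynomial.X) ^ l i =
        (Polynomial.X - 1) ^ (if l i % 2 = l j % 2 then 1 else 0) * g ∧
      g.eval 1 = -2 * (-1) ^ l i * ((if l i % 2 = l j % 2 then (l i - l j) / 2 else 1 : ℕ) : ℤ)) := by
    intro i j
    by_cases hij : i < j
    · obtain ⟨g, hg⟩ := factor_pair (l i) (l j) (hl hij)
      exact ⟨g, fun _ => hg⟩
    · exact ⟨0, fun h => absurd h hij⟩
  choose g hg using h1
  refine ⟨∏ i, ∏ j ∈ Ioi i, g i j, ?_, ?_⟩
  · rw [det_vandermonde]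
    unfold samePairs
    rw [← Finset.prod_pow_eq_pow_sum]
    simp only [← Finset.prod_pow_eq_pow_sum]
    rw [← Finset.prod_mul_distrib]
    apply Finset.prod_congr rfl
    intro i _
    rw [← Finset.prod_mul_distrib]
    apply Finset.prod_congr rfl
    intro j hj
    exact (hg i j (mem_Ioi.mp hj)).1
  · rw [Polynomial.eval_prod]
    push_cast
    rw [← Finset.prod_mul_distrib]
    apply Finset.prod_congr rfl
    intro i _
    rw [Polynomial.eval_prod, ← Finset.prod_mul_distrib]
    apply Finset.prod_congr rfl
    intro j hj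
    have h2 := (hg i j (mem_Ioi.mp hj)).2
    rw [h2]
    push_cast
    ring

end pairs

section char

variable {n : ℕ} {κ : Type} [Fintype κ]

/-- the character with the given weights -/
noncomputable def chi (wt : κ → Idx n → ℕ) : MvPolynomial (Idx n) ℤ :=
  ∑ s, ∏ j, MvPolynomial.X j ^ wt s j

/-- `0, 2, …` on the first half, `1, 3, …` on the second half -/
def ehat (n : ℕ) : Idx n → ℕ := Sum.elim (fun i => 2 * (i : ℕ)) (fun i => 2 * (i : ℕ) + 1)

theorem ehat_lt (j : Idx n) : ehat n j < n + n := by
  rcases j with i | i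
  · have := i.2
    simp only [ehat, Sum.elim_inl]
    omega
  · have := i.2
    simp only [ehat, Sum.elim_inr]
    omega

theorem ehat_injective : Function.Injective (ehat n) := by
  intro a b hab
  rcases a with a | a <;> rcases b with b | b <;>
    simp only [ehat, Sum.elim_inl, Sum.elim_inr] at hab
  · congr 1
    ext
    omega
  · omega
  · omega
  · congr 1
    ext
    omega

/-- the corresponding permutation of `Fin (2n)` -/
noncomputable def perm (n : ℕ) : Equiv.Perm (Fin (n + n)) :=
  Equiv.ofBijective (fun i => ⟨ehat n (finSumFinEquiv.symm i), ehat_lt _⟩)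
    (Finite.injective_iff_bijective.mp (by
      intro a b hab
      have h1 : ehat n (finSumFinEquiv.symm a) = ehat n (finSumFinEquiv.symm b) := by
        simpa using congrArg Fin.val hab
      exact finSumFinEquiv.symm.injective (ehat_injective h1)))

theorem perm_val (i : Fin (n + n)) : (perm n i : ℕ) = ehat n (finSumFinEquiv.symm i) := rfl

/-- the evaluation point `(-X)^e` -/
noncomputable def zz (n : ℕ) : Idx n → Polynomial ℤ := fun j => (-Polynomial.X) ^ ehat n j

theorem aeval_alternant (l : Fin (n + n) → ℕ) :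
    MvPolynomial.aeval (zz n) (alternant n l) =
      ((Equiv.Perm.sign (perm n) : ℤ) : Polynomial ℤ) *
        (Matrix.vandermonde fun j => (-Polynomial.X : Polynomial ℤ) ^ l j).det := by
  unfold alternant
  rw [AlgHom.map_det]
  have h1 : (MvPolynomial.aeval (zz n) : MvPolynomial (Idx n) ℤ →ₐ[ℤ] Polynomial ℤ).mapMatrix
      (Matrix.of fun i j : Fin (n + n) =>
        (MvPolynomial.X (finSumFinEquiv.symm i) : MvPolynomial (Idx n) ℤ) ^ l j) =
      ((Matrix.vandermonde fun j => (-Polynomial.X : Polynomial ℤ) ^ l j)ᵀ).submatrix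
        (perm n) id := by
    ext1 i j
    rw [AlgHom.mapMatrix_apply, Matrix.map_apply, Matrix.of_apply, map_pow,
      MvPolynomial.aeval_X, submatrix_apply, transpose_apply, vandermonde_apply, perm_val]
    simp only [zz, id_eq]
    rw [← pow_mul, ← pow_mul, mul_comm]
  rw [h1, det_permute, det_transpose]

theorem alternant_ne_zero (l : Fin (n + n) → ℕ) (hl : StrictAnti l) : alternant n l ≠ 0 := by
  intro h
  have h1 := aeval_alternant l
  rw [h, map_zero] at h1
  obtain ⟨G, hG, hG1⟩ := vandermonde_factor l hl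
  have h2 : (Matrix.vandermonde fun j => (-Polynomial.X : Polynomial ℤ) ^ l j).det = 0 := by
    rcases Int.units_eq_one_or (Equiv.Perm.sign (perm n)) with h3 | h3
    · rw [h3] at h1
      simpa using h1.symm
    · rw [h3] at h1
      simpa using h1.symm
  rw [hG] at h2
  have h3 : G = 0 := by
    rcases mul_eq_zero.mp h2 with h4 | h4
    · exfalso
      have h5 : (Polynomial.X - 1 : Polynomial ℤ) ≠ 0 := by
        have := Polynomial.X_sub_C_ne_zero (1 : ℤ)
        simpa using this
      exact pow_ne_zero _ h5 h4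
    · exact h4
  rw [h3, Polynomial.eval_zero] at hG1
  have h6 : (∏ i : Fin (n + n), ∏ _j ∈ Ioi i, (-2 * (-1) ^ l i : ℤ)) ≠ 0 := by
    apply Finset.prod_ne_zero_iff.mpr
    intro i _
    apply Finset.prod_ne_zero_iff.mpr
    intro j _
    exact mul_ne_zero (by norm_num) (pow_ne_zero _ (by norm_num))
  have h7 : ((∏ i, ∏ j ∈ Ioi i, if l i % 2 = l j % 2 then (l i - l j) / 2 else 1 : ℕ) : ℤ) ≠ 0 := by
    have h8 : (∏ i, ∏ j ∈ Ioi i, if l i % 2 = l j % 2 then (l i - l j) / 2 else 1 : ℕ) ≠ 0 := by
      apply Finset.prod_ne_zero_iff.mpr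
      intro i _
      apply Finset.prod_ne_zero_iff.mpr
      intro j hj
      have h9 := hl (mem_Ioi.mp hj)
      split_ifs with h10
      · omega
      · norm_num
    exact_mod_cast h8
  exact mul_ne_zero h6 h7 hG1.symm

theorem rename_alternant (σ : Equiv.Perm (Idx n)) : ∃ u : ℤˣ, ∀ l : Fin (n + n) → ℕ,
    MvPolynomial.rename σ (alternant n l) = ((u : ℤ) : MvPolynomial (Idx n) ℤ) * alternant n l := by
  let τ : Equiv.Perm (Fin (n + n)) := finSumFinEquiv.symm.trans (σ.trans finSumFinEquiv)
  refine ⟨Equiv.Perm.sign τ, ?_⟩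
  intro l
  unfold alternant
  rw [AlgHom.map_det, ← det_permute]
  congr 1
  ext1 i j
  rw [AlgHom.mapMatrix_apply, Matrix.map_apply, Matrix.of_apply, map_pow,
    MvPolynomial.rename_X, submatrix_apply, Matrix.of_apply]
  simp [τ]

theorem rename_chi (wt : κ → Idx n → ℕ) {l : Fin (n + n) → ℕ} {δ : Fin (n + n) → ℕ}
    (hδ : StrictAnti δ) (h : chi wt * alternant n δ = alternant n l) (σ : Equiv.Perm (Idx n)) :
    MvPolynomial.rename σ (chi wt) = chi wt := by
  obtain ⟨u, hu⟩ := rename_alternant σ
  have h1 := congrArg (MvPolynomial.rename σ) h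
  rw [map_mul, hu, hu, ← h] at h1
  have h2 : (((u : ℤ) : MvPolynomial (Idx n) ℤ) * alternant n δ) ≠ 0 := by
    apply mul_ne_zero _ (alternant_ne_zero δ hδ)
    rcases Int.units_eq_one_or u with rfl | rfl <;> simp
  apply mul_right_cancel₀ h2
  rw [h1]
  ring

/-- the sign of a variable -/
def sgI : Idx n → ℤ := Sum.elim (fun _ => 1) (fun _ => -1)

/-- the sign of a weight -/
def sgW (v : Idx n → ℕ) : ℤ := ∏ j, sgI j ^ v j

/-- the signed first moments -/
def mom (wt : κ → Idx n → ℕ) (j : Idx n) : ℤ := ∑ s, sgW (wt s) * wt s j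

theorem one_add_pow (c : ℤ) (d : ℕ) :
    (1 + (c : DualNumber ℤ) * DualNumber.eps) ^ d =
      1 + ((d * c : ℤ) : DualNumber ℤ) * DualNumber.eps := by
  induction d with
  | zero => simp
  | succ d ih =>
    rw [pow_succ, ih]
    have h : (DualNumber.eps : DualNumber ℤ) * DualNumber.eps = 0 := DualNumber.eps_mul_eps
    push_cast
    linear_combination ((d : DualNumber ℤ) * c * c) * h

theorem prod_one_add (v : Idx n → ℕ) (c : Idx n → ℤ) (t : Finset (Idx n)) :
    ∏ j ∈ t, (1 + (c j : DualNumber ℤ) * DualNumber.eps) ^ v j =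
      1 + ((∑ j ∈ t, v j * c j : ℤ) : DualNumber ℤ) * DualNumber.eps := by
  induction t using Finset.induction_on with
  | empty => simp
  | insert a t ha ih =>
    rw [Finset.prod_insert ha, Finset.sum_insert ha, ih, one_add_pow]
    have h : (DualNumber.eps : DualNumber ℤ) * DualNumber.eps = 0 := DualNumber.eps_mul_eps
    push_cast
    linear_combination ((v a : DualNumber ℤ) * c a * ∑ j ∈ t, (v j : DualNumber ℤ) * c j) * h

theorem chi_point (wt : κ → Idx n → ℕ) (c : Idx n → ℤ) :
    MvPolynomial.aeval (fun j => (sgI j : DualNumber ℤ) * (1 + (c j : DualNumber ℤ) *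
      DualNumber.eps)) (chi wt) =
      ((∑ s, sgW (wt s) : ℤ) : DualNumber ℤ) +
        ((∑ j, c j * mom wt j : ℤ) : DualNumber ℤ) * DualNumber.eps := by
  unfold chi
  rw [map_sum]
  have h1 : ∀ s, MvPolynomial.aeval (fun j => (sgI j : DualNumber ℤ) * (1 + (c j : DualNumber ℤ) *
      DualNumber.eps)) (∏ j, (MvPolynomial.X j : MvPolynomial (Idx n) ℤ) ^ wt s j) =
      ((sgW (wt s) : ℤ) : DualNumber ℤ) +
        ((sgW (wt s) * ∑ j, wt s j * c j : ℤ) : DualNumber ℤ) * DualNumber.eps := by
    intro s
    rw [map_prod]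
    simp only [map_pow, MvPolynomial.aeval_X, mul_pow]
    rw [Finset.prod_mul_distrib, prod_one_add]
    unfold sgW
    push_cast
    ring
  rw [Finset.sum_congr rfl (fun s _ => h1 s), Finset.sum_add_distrib, ← Finset.sum_mul]
  congr 1
  · push_cast
    rfl
  · congr 1
    rw [← Int.cast_sum]
    congr 1
    unfold mom
    simp only [Finset.mul_sum]
    rw [Finset.sum_comm]
    apply Finset.sum_congr rfl
    intro j _
    apply Finset.sum_congr rfl
    intro s _
    ring

theorem dual_ext {a b c d : ℤ} (h : (a : DualNumber ℤ) + (b : DualNumber ℤ) * DualNumber.eps =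
    (c : DualNumber ℤ) + (d : DualNumber ℤ) * DualNumber.eps) : a = c ∧ b = d := by
  have h1 := congrArg TrivSqZeroExt.fst h
  have h2 := congrArg TrivSqZeroExt.snd h
  constructor
  · simpa using h1
  · simpa using h2

theorem mom_perm (wt : κ → Idx n → ℕ) (σ : Equiv.Perm (Idx n))
    (hσ : MvPolynomial.rename σ (chi wt) = chi wt) (hs : ∀ j, (sgI (σ j) : ℤ) = sgI j)
    (j : Idx n) : mom wt (σ j) = mom wt j := by
  have h1 := chi_point wt (Pi.single (σ j) 1)
  rw [← hσ, MvPolynomial.aeval_rename] at h1
  have h2 : ((fun i => (sgI i : DualNumber ℤ) * (1 + ((Pi.single (σ j) 1 : Idx n → ℤ) i :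
      DualNumber ℤ) * DualNumber.eps)) ∘ σ) = fun i => (sgI i : DualNumber ℤ) *
      (1 + ((Pi.single j 1 : Idx n → ℤ) i : DualNumber ℤ) * DualNumber.eps) := by
    funext i
    simp only [Function.comp_apply, hs]
    congr 3
    by_cases hij : i = j
    · subst hij
      simp
    · rw [Pi.single_eq_of_ne hij, Pi.single_eq_of_ne (fun h => hij (σ.injective h))]
  rw [h2, chi_point] at h1
  have h3 := (dual_ext h1).2
  have h4 : ∀ a : Idx n, ∑ i, (Pi.single a 1 : Idx n → ℤ) i * mom wt i = mom wt a := by
    intro a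
    rw [Finset.sum_eq_single a]
    · simp
    · intro b _ hb
      rw [Pi.single_eq_of_ne hb, zero_mul]
    · simp
  rw [h4, h4] at h3
  exact h3.symm

theorem sgI_ehat (j : Idx n) : (-1 : ℤ) ^ ehat n j = sgI j := by
  rcases j with i | i
  · simp [ehat, sgI, pow_mul]
  · simp [ehat, sgI, pow_add, pow_mul]

/-- value and derivative at `1` of the specialised character -/
theorem chi_zz (wt : κ → Idx n → ℕ) :
    (MvPolynomial.aeval (zz n) (chi wt)).eval 1 = ∑ s, sgW (wt s) ∧
    (MvPolynomial.aeval (zz n) (chi wt)).derivative.eval 1 = ∑ j, ehat n j * mom wt j := by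
  have h1 := Polynomial.aeval_add_of_sq_eq_zero (MvPolynomial.aeval (zz n) (chi wt))
    (1 : DualNumber ℤ) DualNumber.eps (by rw [pow_two]; exact DualNumber.eps_mul_eps)
  have h2 : Polynomial.aeval (1 + DualNumber.eps : DualNumber ℤ)
      (MvPolynomial.aeval (zz n) (chi wt)) =
      MvPolynomial.aeval (fun j => (sgI j : DualNumber ℤ) * (1 + ((ehat n j : ℤ) : DualNumber ℤ) *
        DualNumber.eps)) (chi wt) := by
    rw [← AlgHom.comp_apply, MvPolynomial.comp_aeval]
    congr 2
    funext j
    simp only [zz, map_pow, map_neg, Polynomial.aeval_X]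
    rw [neg_pow, ← sgI_ehat]
    have h3 := one_add_pow 1 (ehat n j)
    simp only [Int.cast_one, one_mul, mul_one] at h3
    rw [h3]
    push_cast
    rfl
  rw [h2, chi_point] at h1
  have h4 : ∀ p : Polynomial ℤ, Polynomial.aeval (1 : DualNumber ℤ) p =
      ((p.eval 1 : ℤ) : DualNumber ℤ) := by
    intro p
    have h5 : (1 : DualNumber ℤ) = algebraMap ℤ (DualNumber ℤ) 1 := by simp
    rw [h5, Polynomial.aeval_algebraMap_apply]
    simp [Polynomial.coe_aeval_eq_eval]
  rw [h4, h4] at h1
  have h6 := dual_ext h1
  exact ⟨h6.1.symm, by rw [← h6.2]⟩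

end char

section final

variable {n : ℕ}

theorem betaNumber_strictAnti {lam : Fin (n + n) → ℕ} (h : Antitone lam) :
    StrictAnti (betaNumber lam) := by
  intro i j hij
  have h1 := h hij.le
  have h2 : (i : ℕ) < j := hij
  have h3 := j.2
  simp only [betaNumber]
  omega

theorem evenCount_zero : evenCount (n := n) 0 = n := by
  unfold evenCount
  have h1 : (univ.filter fun j : Fin (n + n) => Even (betaNumber (n := n) 0 j)).card =
      (univ.filter fun j : Fin (n + n) => ¬ Even (betaNumber (n := n) 0 j)).card := by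
    apply Finset.card_bij (fun j _ => Fin.rev j)
    · intro j hj
      simp only [mem_filter, mem_univ, true_and, betaNumber, Pi.zero_apply, zero_add,
        Nat.even_iff] at hj ⊢
      have h3 := j.2
      rw [Fin.val_rev]
      omega
    · intro a _ b _ hab
      exact Fin.rev_injective hab
    · intro j hj
      refine ⟨Fin.rev j, ?_, Fin.rev_rev j⟩
      simp only [mem_filter, mem_univ, true_and, betaNumber, Pi.zero_apply, zero_add,
        Nat.even_iff] at hj ⊢
      have h3 := j.2
      rw [Fin.val_rev]
      omega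
  have h2 := Finset.card_filter_add_card_filter_not (s := (univ : Finset (Fin (n + n))))
    (fun j => Even (betaNumber (n := n) 0 j))
  rw [← h1, Finset.card_univ, Fintype.card_fin] at h2
  omega

theorem evenCount_le (lam : Fin (n + n) → ℕ) : evenCount lam ≤ n + n := by
  unfold evenCount
  calc _ ≤ (univ : Finset (Fin (n + n))).card := Finset.card_filter_le _ _
    _ = n + n := by simp

theorem sum_two_mul (n : ℕ) : ∑ i : Fin n, (2 * (i : ℤ)) = n * (n - 1) := by
  induction n with
  | zero => simp
  | succ n ih =>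
    rw [Fin.sum_univ_castSucc]
    simp only [Fin.val_castSucc, Fin.val_last]
    rw [ih]
    push_cast
    ring

theorem sum_two_mul_add_one (n : ℕ) : ∑ i : Fin n, (2 * (i : ℤ) + 1) = n * n := by
  rw [Finset.sum_add_distrib, sum_two_mul]
  simp
  ring

variable {κ : Type} [Fintype κ]

theorem deriv_eq (wt : κ → Idx n → ℕ) (k : ℕ) (hdeg : ∀ s, ∑ j, wt s j = k)
    (hsym : ∀ σ : Equiv.Perm (Idx n), MvPolynomial.rename σ (chi wt) = chi wt)
    (hzero : ∑ s, sgW (wt s) = 0) :
    ∑ j, (ehat n j : ℤ) * mom wt j = - ∑ i, mom wt (Sum.inl i) := by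
  rcases Nat.eq_zero_or_pos n with h0 | hpos
  · subst h0
    simp
  let i₀ : Fin n := ⟨0, hpos⟩
  have h1 : ∀ i : Fin n, mom wt (Sum.inl i) = mom wt (Sum.inl i₀) := by
    intro i
    have h := mom_perm wt (Equiv.swap (Sum.inl i₀) (Sum.inl i)) (hsym _) (by
      intro j
      by_cases hj : j = Sum.inl i₀
      · subst hj
        simp [sgI]
      · by_cases hj' : j = Sum.inl i
        · subst hj'
          simp [sgI]
        · rw [Equiv.swap_apply_of_ne_of_ne hj hj']) (Sum.inl i₀)
    rwa [Equiv.swap_apply_left] at h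
  have h2 : ∀ i : Fin n, mom wt (Sum.inr i) = mom wt (Sum.inr i₀) := by
    intro i
    have h := mom_perm wt (Equiv.swap (Sum.inr i₀) (Sum.inr i)) (hsym _) (by
      intro j
      by_cases hj : j = Sum.inr i₀
      · subst hj
        simp [sgI]
      · by_cases hj' : j = Sum.inr i
        · subst hj'
          simp [sgI]
        · rw [Equiv.swap_apply_of_ne_of_ne hj hj']) (Sum.inr i₀)
    rwa [Equiv.swap_apply_left] at h
  have h3 : ∑ j, mom wt j = 0 := by
    unfold mom
    rw [Finset.sum_comm]
    have : ∀ s, ∑ j, sgW (wt s) * (wt s j : ℤ) = sgW (wt s) * k := by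
      intro s
      rw [← Finset.mul_sum, ← hdeg s]
      push_cast
      rfl
    rw [Finset.sum_congr rfl (fun s _ => this s), ← Finset.sum_mul, hzero, zero_mul]
  rw [Fintype.sum_sum_type] at h3
  rw [Finset.sum_congr rfl (fun i _ => h1 i), Finset.sum_congr rfl (fun i _ => h2 i)] at h3
  rw [Finset.sum_const, Finset.sum_const, Finset.card_univ, Fintype.card_fin] at h3
  rw [Fintype.sum_sum_type]
  simp only [ehat, Sum.elim_inl, Sum.elim_inr, h1, h2]
  push_cast
  rw [← Finset.sum_mul, ← Finset.sum_mul, sum_two_mul, sum_two_mul_add_one, Finset.sum_const,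
    Finset.card_univ, Fintype.card_fin]
  simp only [nsmul_eq_mul] at h3 ⊢
  linear_combination (n : ℤ) * h3

/-- The signed degree of a Schur polynomial. -/
theorem schur_moment (wt : κ → Idx n → ℕ) (k : ℕ) (hdeg : ∀ s, ∑ j, wt s j = k)
    (lam : Fin (n + n) → ℕ) (hlam : Antitone lam)
    (hchar : chi wt * alternant n (betaNumber 0) = alternant n (betaNumber lam))
    (hzero : ∑ s, sgW (wt s) = 0) :
    ((evenCount lam + 1 = n ∨ evenCount lam = n + 1) →
      (∑ i, mom wt (Sum.inl i)) * halfProd (n := n) 0 =
        -(-1) ^ (∑ i, lam i * (n + n - 1 - i)) * halfProd lam) ∧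
    (¬ (evenCount lam + 1 = n ∨ evenCount lam = n + 1) → ∑ i, mom wt (Sum.inl i) = 0) := by
  have hl := betaNumber_strictAnti hlam
  have hδ : StrictAnti (betaNumber (n := n) 0) := betaNumber_strictAnti (fun _ _ _ => le_rfl)
  have hsym := rename_chi wt hδ hchar
  obtain ⟨f0, f1⟩ := chi_zz wt
  rw [hzero] at f0
  rw [deriv_eq wt k hdeg hsym hzero] at f1
  -- the identity between one variable polynomials
  have h1 := congrArg (MvPolynomial.aeval (zz n)) hchar
  rw [map_mul, aeval_alternant, aeval_alternant] at h1
  set f := MvPolynomial.aeval (zz n) (chi wt) with hf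
  obtain ⟨G, hG, hG1⟩ := vandermonde_factor _ hl
  obtain ⟨D, hD, hD1⟩ := vandermonde_factor _ hδ
  rw [hG, hD] at h1
  have h2 : f * ((Polynomial.X - 1) ^ samePairs (betaNumber (n := n) 0) * D) =
      (Polynomial.X - 1) ^ samePairs (betaNumber lam) * G := by
    rcases Int.units_eq_one_or (Equiv.Perm.sign (perm n)) with h3 | h3
    · rw [h3] at h1
      simpa using h1
    · rw [h3] at h1
      simp only [Units.val_neg, Units.val_one, Int.cast_neg, Int.cast_one, neg_mul, one_mul,
        mul_neg, neg_inj] at h1
      exact h1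
  have c1 := samePairs_eq (betaNumber lam) (evenCount lam) rfl
  have c2 := samePairs_eq (betaNumber (n := n) 0) n evenCount_zero
  have hX : (Polynomial.X - 1 : Polynomial ℤ) ≠ 0 := by
    have := Polynomial.X_sub_C_ne_zero (1 : ℤ)
    simpa using this
  -- common factor
  let sgl : (Fin (n + n) → ℕ) → ℤ := fun l => ∏ i : Fin (n + n), ∏ _j ∈ Ioi i, (-2 * (-1) ^ l i : ℤ)
  have hsgl : ∀ l, sgl l ≠ 0 := by
    intro l
    apply Finset.prod_ne_zero_iff.mpr
    intro i _
    apply Finset.prod_ne_zero_iff.mpr
    intro j _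
    exact mul_ne_zero (by norm_num) (pow_ne_zero _ (by norm_num))
  have hhalf : ∀ {m : Fin (n + n) → ℕ}, StrictAnti (betaNumber m) → halfProd m ≠ 0 := by
    intro m hm
    apply Finset.prod_ne_zero_iff.mpr
    intro i _
    apply Finset.prod_ne_zero_iff.mpr
    intro j hj
    have h9 := hm (mem_Ioi.mp hj)
    split_ifs with h10
    · omega
    · norm_num
  have hD1' : D.eval 1 = sgl (betaNumber 0) * (halfProd (n := n) 0 : ℤ) := hD1
  have hG1' : G.eval 1 = sgl (betaNumber lam) * (halfProd lam : ℤ) := hG1
  have hD0 : D.eval 1 ≠ 0 := by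
    rw [hD1']
    exact mul_ne_zero (hsgl _) (by exact_mod_cast hhalf hδ)
  have hG0 : G.eval 1 ≠ 0 := by
    rw [hG1']
    exact mul_ne_zero (hsgl _) (by exact_mod_cast hhalf hl)
  have hsg : sgl (betaNumber lam) = (-1) ^ (∑ i, lam i * (n + n - 1 - i)) *
      sgl (betaNumber (n := n) 0) := by
    simp only [sgl]
    rw [← Finset.prod_pow_eq_pow_sum, ← Finset.prod_mul_distrib]
    apply Finset.prod_congr rfl
    intro i _
    rw [Finset.prod_const, Finset.prod_const, Fin.card_Ioi, pow_mul, ← mul_pow]
    have : betaNumber lam i = lam i + betaNumber (n := n) 0 i := by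
      simp [betaNumber]
    rw [this, pow_add]
    congr 1
    · ring
  have hle := evenCount_le lam
  -- orders of vanishing
  obtain ⟨c, hc⟩ : ∃ c : ℤ, (evenCount lam : ℤ) = n + c := ⟨evenCount lam - n, by ring⟩
  have c1' : 2 * (samePairs (betaNumber lam) : ℤ) + 2 * n = 2 * n * n + 2 * c * c := by
    have e2 := congrArg (fun x : ℕ => (x : ℤ)) c1
    push_cast at e2
    rw [Nat.cast_sub hle] at e2
    push_cast at e2
    rw [hc] at e2
    linear_combination e2
  have c2' : 2 * (samePairs (betaNumber (n := n) 0) : ℤ) + 2 * n = 2 * n * n := by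
    have e2 := congrArg (fun x : ℕ => (x : ℤ)) c2
    simp only [Nat.add_sub_cancel] at e2
    push_cast at e2
    linear_combination e2
  have hdiff : (samePairs (betaNumber lam) : ℤ) = samePairs (betaNumber (n := n) 0) + c * c := by
    linarith
  have hcancel : ∀ r : ℕ, samePairs (betaNumber lam) = samePairs (betaNumber (n := n) 0) + r →
      f * D = (Polynomial.X - 1) ^ r * G := by
    intro r hr
    have h3 : (Polynomial.X - 1) ^ samePairs (betaNumber (n := n) 0) * (f * D) =
        (Polynomial.X - 1) ^ samePairs (betaNumber (n := n) 0) * ((Polynomial.X - 1) ^ r * G) := by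
      rw [hr, pow_add] at h2
      linear_combination h2
    exact mul_left_cancel₀ (pow_ne_zero _ hX) h3
  constructor
  · intro hcase
    have hcc : c * c = 1 := by
      rcases hcase with h | h
      · have : c = -1 := by omega
        rw [this]
        norm_num
      · have : c = 1 := by omega
        rw [this]
        norm_num
    rw [hcc] at hdiff
    have h4 := hcancel 1 (by exact_mod_cast hdiff)
    have h5 := congrArg (fun p => (Polynomial.derivative p).eval 1) h4
    simp only [Polynomial.derivative_mul, Polynomial.eval_add, Polynomial.eval_mul, pow_one,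
      Polynomial.derivative_sub, Polynomial.derivative_X, Polynomial.derivative_one,
      Polynomial.eval_sub, Polynomial.eval_X, Polynomial.eval_one, sub_self, zero_mul,
      add_zero, sub_zero, one_mul] at h5
    rw [f0, f1, hD1', hG1', hsg, zero_mul, add_zero] at h5
    apply mul_left_cancel₀ (hsgl (betaNumber (n := n) 0))
    linear_combination -h5
  · intro hcase
    have hc1 : c ≠ 1 := by
      intro h
      apply hcase
      right
      omega
    have hc2 : c ≠ -1 := by
      intro h
      apply hcase
      left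
      omega
    by_cases hc0 : c = 0
    · exfalso
      rw [hc0] at hdiff
      have h4 := hcancel 0 (by
        have : (samePairs (betaNumber lam) : ℤ) = samePairs (betaNumber (n := n) 0) := by
          linarith
        have h5 : samePairs (betaNumber lam) = samePairs (betaNumber (n := n) 0) := by
          exact_mod_cast this
        omega)
      rw [pow_zero, one_mul] at h4
      have h5 := congrArg (Polynomial.eval 1) h4
      rw [Polynomial.eval_mul, f0, zero_mul] at h5
      exact hG0 h5.symm
    · have h6 : 2 ≤ c * c := by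
        rcases lt_trichotomy c 0 with h | h | h
        · have : c ≤ -2 := by omega
          nlinarith
        · exact absurd h hc0
        · have : 2 ≤ c := by omega
          nlinarith
      obtain ⟨r, hr⟩ : ∃ r : ℕ, samePairs (betaNumber lam) =
          samePairs (betaNumber (n := n) 0) + (2 + r) := by
        refine ⟨samePairs (betaNumber lam) - samePairs (betaNumber (n := n) 0) - 2, ?_⟩
        have : (samePairs (betaNumber (n := n) 0) : ℤ) + 2 ≤ samePairs (betaNumber lam) := by
          linarith
        have h7 : samePairs (betaNumber (n := n) 0) + 2 ≤ samePairs (betaNumber lam) := by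
          exact_mod_cast this
        omega
      have h4 := hcancel (2 + r) hr
      rw [pow_add, pow_two] at h4
      have h5 := congrArg (fun p => (Polynomial.derivative p).eval 1) h4
      simp only [Polynomial.derivative_mul, Polynomial.eval_add, Polynomial.eval_mul,
        Polynomial.derivative_sub, Polynomial.derivative_X, Polynomial.derivative_one,
        Polynomial.eval_sub, Polynomial.eval_X, Polynomial.eval_one, sub_self, zero_mul,
        add_zero, sub_zero, mul_zero] at h5
      rw [f0, f1, zero_mul, add_zero] at h5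
      rcases mul_eq_zero.mp h5 with h8 | h8
      · linarith
      · exact absurd h8 hD0

end final

end Pool.Agent.MP100fe7
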