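import Pool.Agent.Lib.MP_100fe7_nt.Exist
import Pool.Agent.Lib.MP_100fe7_nt.Schur

/-!
The ratio of the two Deligne periods of a Schur functor of a motive.
-/

set_option linter.unusedSectionVars false

namespace Pool.Agent.MP100fe7

open Matrix TensorProduct

theorem sgW_eq {E : Type} [Field E] {n k : ℕ} {κ : Type} [Fintype κ] [DecidableEq κ]
    (ρ : PolyRep E n κ k) (s : κ) : sgW (ρ.wt s) = ρ.sgn s := by
  unfold sgW PolyRep.sgn
  rw [Fintype.prod_sum_type]
  simp [sgI]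

theorem signedDeg_eq {E : Type} [Field E] {n k : ℕ} {κ : Type} [Fintype κ] [DecidableEq κ]
    (ρ : PolyRep E n κ k) : signedDeg ρ = ∑ i, mom ρ.wt (Sum.inl i) := by
  unfold signedDeg mom
  rw [Finset.sum_comm]
  apply Finset.sum_congr rfl
  intro s _
  rw [← Finset.mul_sum, sgW_eq, mul_comm]
  unfold degL
  push_cast
  rfl

theorem sum_sgn_eq_zero {E : Type} [Field E] [CharZero E] {R : Type} [CommRing R] [Algebra E R]
    {n k : ℕ} {w : ℤ} {κ : Type} [Fintype κ] [DecidableEq κ] (ρ : PolyRep E n κ k)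
    (M : Datum R n w) (hmid : NoMiddle ρ M) : ∑ s, sgW (ρ.wt s) = 0 := by
  have h := card_sgn_eq ρ M hmid
  have h1 : ∀ s, sgW (ρ.wt s) = (if ρ.sgn s = 1 then 1 else 0) - (if ρ.sgn s = -1 then 1 else 0) := by
    intro s
    rw [sgW_eq]
    rcases ρ.sgn_eq s with h2 | h2
    · rw [h2]
      norm_num
    · rw [h2]
      norm_num
  rw [Finset.sum_congr rfl (fun s _ => h1 s), Finset.sum_sub_distrib]
  simp only [Finset.sum_boole]
  rw [← Fintype.card_subtype, ← Fintype.card_subtype, h.1, h.2, sub_self]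

theorem schur_period_ratio {E : Type} [Field E] [CharZero E] {R : Type} [CommRing R] [Nontrivial R]
    [Algebra E R] {n k : ℕ} {w : ℤ} {κ : Type} [Fintype κ] [DecidableEq κ] (ρ : PolyRep E n κ k)
    (M : Datum R n w) (lam : Fin (n + n) → ℕ) (hlam : Antitone lam) (hρ : IsSchur ρ lam)
    (hmid : NoMiddle ρ M) :
    ((∃ x : R, IsPeriod ρ M (1 : E) x) ∧ (∃ y : R, IsPeriod ρ M (-1 : E) y)) ∧
    ∃ K : ℤ,
      ((evenCount lam + 1 = n ∨ evenCount lam = n + 1) →
        K * (n * halfProd (n := n) 0) = -(-1) ^ (∑ i, lam i * (n + n - 1 - i)) * halfProd lam) ∧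
      (¬ (evenCount lam + 1 = n ∨ evenCount lam = n + 1) → K = 0) ∧
      ∀ x y c d : R, IsPeriod ρ M (1 : E) x → IsPeriod ρ M (-1 : E) y →
        IsPeriod (std E n) M (1 : E) c → IsPeriod (std E n) M (-1 : E) d →
        ∃ (x' y' c' d' : Rˣ) (e : Eˣ), (x' : R) = x ∧ (y' : R) = y ∧ (c' : R) = c ∧
          (d' : R) = d ∧ x' / y' = Units.map (algebraMap E R).toMonoidHom e * (c' / d') ^ K := by
  have hex := exists_period (R := R) ρ M hmid
  refine ⟨hex, ?_⟩
  have hzero := sum_sgn_eq_zero ρ M hmid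
  have hmom := schur_moment ρ.wt k ρ.deg lam hlam hρ hzero
  rw [← signedDeg_eq] at hmom
  -- the exponent
  obtain ⟨K, hK⟩ : ∃ K : ℤ, (n : ℤ) * K = signedDeg ρ := by
    obtain ⟨⟨x, hx⟩, ⟨y, hy⟩⟩ := hex
    have h2 : IsUnit (2 : R) := by
      have h : IsUnit (2 : E) := (two_ne_zero).isUnit
      have h' := h.map (algebraMap E R)
      rwa [map_ofNat] at h'
    obtain ⟨b, h₁, h₂, hbu, hb, hu₁, hu₂, hM⟩ := M.exists_factor h2
    obtain ⟨δ₁, hδ₁⟩ := hu₁
    obtain ⟨δ₂, hδ₂⟩ := hu₂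
    obtain ⟨K, -, -, -, hK, -⟩ := ratio_aux ρ M hmid hbu hb hM δ₁ δ₂ hδ₁ hδ₂ hx hy
    exact ⟨K, hK⟩
  rcases Nat.eq_zero_or_pos n with h0 | hpos
  · subst h0
    refine ⟨0, ?_, fun _ => rfl, ?_⟩
    · intro h
      exfalso
      have := evenCount_le lam
      omega
    · intro x y c d hx hy hc hd
      apply ratio ρ M hmid 0 _ hx hy hc hd
      rw [← hK]
      simp
  · refine ⟨K, ?_, ?_, ?_⟩
    · intro h
      have h1 := hmom.1 h
      rw [← h1, ← hK]
      ring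
    · intro h
      have h1 := hmom.2 h
      rw [← hK] at h1
      have hn : (n : ℤ) ≠ 0 := by exact_mod_cast hpos.ne'
      rcases mul_eq_zero.mp h1 with h2 | h2
      · exact absurd h2 hn
      · exact h2
    · intro x y c d hx hy hc hd
      exact ratio ρ M hmid K hK hx hy hc hd

instance nontrivial_tensor (E : Type) [Field E] [NumberField E] : Nontrivial (E ⊗[ℚ] ℂ) := by
  let φ : E →ₐ[ℚ] ℂ := IsAlgClosed.lift
  exact (Algebra.TensorProduct.lift φ (AlgHom.id ℚ ℂ) (fun _ _ => Commute.all _ _)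
    : E ⊗[ℚ] ℂ →ₐ[ℚ] ℂ).toRingHom.domain_nontrivial

end Pool.Agent.MP100fe7
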