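import Pool.Agent.Lib.MP_100fe7_nt.Closed
import Pool.Agent.Lib.MP_100fe7_nt.Final

/-!
The closed formula for the Deligne periods of `ρ(M)`, final form.
-/

set_option linter.unusedSectionVars false

namespace Pool.Agent.MP100fe7

open Matrix

variable {E : Type} [Field E] [CharZero E] {R : Type} [CommRing R] [Nontrivial R] [Algebra E R]
  {n k : ℕ} {w : ℤ}
  {κ : Type} [Fintype κ] [DecidableEq κ] (ρ : PolyRep E n κ k) (M : Datum R n w)

theorem isUnit_hodgePeriod (E : Type) [Field E] [CharZero E] {R : Type} [CommRing R] [Nontrivial R]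
    [Algebra E R] {n : ℕ} {w : ℤ} (M : Datum R n w) (a : ℤ) (ha : a ∈ lowIndices M) :
    IsUnit (blockOf M (cBlock M) a).det := by
  obtain ⟨c, hc⟩ := (exists_period (R := R) (std E n) M (noMiddle_std M)).1
  obtain ⟨m, A, B, hA, hAr, hB, hK, -⟩ := hc
  obtain ⟨B', e₁⟩ := mulVec_surjective_iff_exists_right_inverse.mp hB
  choose S hS1 hS2 using fun a => detLo_emb (std E n) M a
  have hX : ∀ s t, (std E n).hodgeIdx M s < (std E n).hodgeIdx M t →
      (std E n).ev R M.b s t = 0 := by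
    intro s t hst
    exact (std E n).ev_parabolic M.hodgeIdx _ M.b_parabolic s t hst
  have hXY : (std E n).ev R M.b * (std E n).ev R M.b⁻¹ = 1 :=
    (std E n).ev_inv_mul (mul_nonsing_inv _ (isUnit_b M))
  have hβ := isUnit_quot (std E n) M hK e₁ _ _ hX hXY
  rw [det_quot_eq_detLo (std E n) M hK e₁ _ hX, detLo_b (std E n) M S (fun a => hS1 a R _)] at hβ
  have h1 := isUnit_of_dvd_unit (Finset.dvd_prod_of_mem
    (fun a => (blockOf M (cBlock M) a).det ^ S a) ha) hβ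
  rw [std_exponent M S hS2 a ha, pow_one] at h1
  exact h1

theorem exists_hodgePeriod {R : Type} [CommRing R] {n : ℕ} {w : ℤ} (M : Datum R n w) (a : ℤ) :
    ∃ q : R, IsHodgePeriod M a q := ⟨_, isHodgePeriod_block M a⟩

theorem units_rearrange {G H : Type} [CommGroup G] [CommGroup H] (f : H →* G) (e ec ed : H)
    (x c d δ₁ δ₂ : G) (T : Finset ℤ) (Q : ℤ → G) (S : ℤ → ℕ) (A B : ℕ)
    (hx : x = f e * (∏ a ∈ T, Q a ^ S a) * (δ₁ ^ A * δ₂ ^ B))
    (hc : c = f ec * (∏ a ∈ T, Q a) * δ₁) (hd : d = f ed * (∏ a ∈ T, Q a) * δ₂) :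
    x = f (e * (ec ^ A)⁻¹ * (ed ^ B)⁻¹) * c ^ A * d ^ B *
      ∏ a ∈ T, Q a ^ ((S a : ℤ) - A - B) := by
  have h1 : ∏ a ∈ T, Q a ^ ((S a : ℤ) - A - B) =
      (∏ a ∈ T, Q a ^ S a) * ((∏ a ∈ T, Q a) ^ A)⁻¹ * ((∏ a ∈ T, Q a) ^ B)⁻¹ := by
    rw [← Finset.prod_pow, ← Finset.prod_pow, ← Finset.prod_inv_distrib,
      ← Finset.prod_inv_distrib, ← Finset.prod_mul_distrib, ← Finset.prod_mul_distrib]
    apply Finset.prod_congr rfl
    intro a _
    rw [_root_.zpow_sub, _root_.zpow_sub, zpow_natCast, zpow_natCast, zpow_natCast]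
  rw [h1, hx, hc, hd]
  simp only [map_mul, map_inv, map_pow, mul_pow]
  generalize (∏ a ∈ T, Q a ^ S a) = P
  generalize (∏ a ∈ T, Q a) = q
  have : ∀ (p r s t u v z : G), p * z * (r * s) =
      p * t⁻¹ * u⁻¹ * (t * v * r) * (u * q ^ B * s) * (z * v⁻¹ * (q ^ B)⁻¹) := by
    intro p r s t u v z
    have e1 : p * t⁻¹ * u⁻¹ * (t * v * r) * (u * q ^ B * s) * (z * v⁻¹ * (q ^ B)⁻¹) =
        (t * t⁻¹) * (u * u⁻¹) * (v * v⁻¹) * (q ^ B * (q ^ B)⁻¹) * (p * z * (r * s)) := by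
      simp only [mul_comm, mul_assoc, mul_left_comm]
    rw [e1]
    simp
  exact this _ _ _ _ _ _ _

theorem closed_formula (hmid : NoMiddle ρ M) (ε : ℤ) (hε : ε = 1 ∨ ε = -1) :
    (∃ x : R, IsPeriod ρ M (ε : E) x) ∧
    ∃ (A B : ℕ) (S : ℤ → ℕ),
      n * A = ∑ s ∈ signPart ρ ε, ∑ i, ρ.wt s (Sum.inl i) ∧
      n * B = ∑ s ∈ signPart ρ ε, ∑ i, ρ.wt s (Sum.inr i) ∧
      (∀ a, Fintype.card (Block M a) * S a =
        ∑ s ∈ lowPart ρ M, ∑ i : Block M a, ρ.wt s (Sum.inr i.1)) ∧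
      ∀ (x c d : R) (q : ℤ → R), IsPeriod ρ M (ε : E) x →
        IsPeriod (std E n) M (1 : E) c → IsPeriod (std E n) M (-1 : E) d →
        (∀ a ∈ lowIndices M, IsHodgePeriod M a (q a)) →
        ∃ (x' c' d' : Rˣ) (q' : ℤ → Rˣ) (e : Eˣ), (x' : R) = x ∧ (c' : R) = c ∧ (d' : R) = d ∧
          (∀ a ∈ lowIndices M, (q' a : R) = q a) ∧
          x' = Units.map (algebraMap E R).toMonoidHom e * c' ^ A * d' ^ B *
            ∏ a ∈ lowIndices M, q' a ^ ((S a : ℤ) - A - B) := by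
  have hεε : (ε : E) * ε = 1 := by
    rcases hε with rfl | rfl <;> norm_num
  have hex := exists_period_aux (R := R) ρ M hmid ε hε
  refine ⟨hex, ?_⟩
  have h2 : IsUnit (2 : R) := by
    have h : IsUnit (2 : E) := (two_ne_zero).isUnit
    have h' := h.map (algebraMap E R)
    rwa [map_ofNat] at h'
  obtain ⟨h₁, h₂, hu₁, hu₂, hM⟩ := exists_factor' M h2
  obtain ⟨δ₁, hδ₁⟩ := hu₁
  obtain ⟨δ₂, hδ₂⟩ := hu₂
  let Q : ℤ → Rˣ := fun a => if ha : a ∈ lowIndices M then (isUnit_hodgePeriod E M a ha).unit else 1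
  have hQ : ∀ a ∈ lowIndices M, (Q a : R) = (blockOf M (cBlock M) a).det := by
    intro a ha
    simp only [Q, dif_pos ha, IsUnit.unit_spec]
  choose S hS1 hS2 using fun a => detLo_emb ρ M a
  have formula : ∀ x : R, IsPeriod ρ M (ε : E) x → ∃ (A B : ℕ) (e : Eˣ) (u : Rˣ),
      n * A = (∑ s ∈ signPart ρ ε, ∑ i, ρ.wt s (Sum.inl i)) ∧
      n * B = (∑ s ∈ signPart ρ ε, ∑ i, ρ.wt s (Sum.inr i)) ∧ (u : R) = x ∧
      u = Units.map (algebraMap E R).toMonoidHom e * (∏ a ∈ lowIndices M, Q a ^ S a) *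
        (δ₁ ^ A * δ₂ ^ B) := by
    intro x hx
    obtain ⟨A, B, e, u, hA, hAB, hu, hue⟩ := period_formula ρ M hmid hεε hM
      δ₁ δ₂ hδ₁ hδ₂ Q hQ S (fun a => hS1 a R _) hx
    rw [half_sum ρ ε hε] at hA
    have hA' : n * A = ∑ s ∈ signPart ρ ε, degL ρ s := by exact_mod_cast hA
    refine ⟨A, B, e, u, hA', ?_, hu, hue⟩
    have h3 : ∑ s ∈ signPart ρ ε, (degL ρ s + ∑ i, ρ.wt s (Sum.inr i)) =
        k * Fintype.card {s // lo ρ M s} := by
      rw [Finset.sum_congr rfl (fun s _ => degL_add ρ s), Finset.sum_const,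
        card_signPart ρ M hmid ε hε, smul_eq_mul, mul_comm]
    rw [Finset.sum_add_distrib, ← hA', ← hAB] at h3
    omega
  obtain ⟨x₀, hx₀⟩ := hex
  obtain ⟨A, B, e₀, u₀, hA, hB, -, -⟩ := formula x₀ hx₀
  refine ⟨A, B, S, hA, hB, ?_, ?_⟩
  · intro a
    rw [hS2 a, lowPart_sum ρ M hmid (degB ρ M a)]
    rfl
  · intro x c d q hx hc hd hq
    obtain ⟨A', B', e, u, hA', hB', hu, hue⟩ := formula x hx
    have hcc : IsPeriod (std E n) M (((1 : ℤ) : E)) c := by simpa using hc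
    have hdd : IsPeriod (std E n) M (((-1 : ℤ) : E)) d := by simpa using hd
    obtain ⟨ec, uc, huc, huc'⟩ := std_formula M (Or.inl rfl) hM δ₁ δ₂ hδ₁ hδ₂ Q hQ hcc
    obtain ⟨ed, ud, hud, hud'⟩ := std_formula M (Or.inr rfl) hM δ₁ δ₂ hδ₁ hδ₂ Q hQ hdd
    rw [if_pos rfl] at huc'
    rw [if_neg (by norm_num)] at hud'
    have hpow : δ₁ ^ A' * δ₂ ^ B' = δ₁ ^ A * δ₂ ^ B := by
      rcases Nat.eq_zero_or_pos n with h0 | hpos
      · subst h0
        have t₁ : δ₁ = 1 := by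
          ext
          rw [hδ₁]
          simp
        have t₂ : δ₂ = 1 := by
          ext
          rw [hδ₂]
          simp
        rw [t₁, t₂]
        simp
      · have e1 : A' = A := Nat.eq_of_mul_eq_mul_left hpos (by rw [hA', hA])
        have e2 : B' = B := Nat.eq_of_mul_eq_mul_left hpos (by rw [hB', hB])
        rw [e1, e2]
    rw [hpow] at hue
    refine ⟨u, uc, ud, Q, _, hu, huc, hud, ?_,
      units_rearrange (Units.map (algebraMap E R).toMonoidHom) e ec ed u uc ud δ₁ δ₂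
        (lowIndices M) Q S A B hue huc' hud'⟩
    intro a ha
    rw [hQ a ha, hodgePeriod_eq M a (q a) (hq a ha)]

end Pool.Agent.MP100fe7
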