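import Mathlib

/-!
A Hodge decomposition compatible with a filtration: the graded pieces are identified with the Hodge
components.
-/

set_option linter.unusedSectionVars false

namespace Pool.Agent.MP100fe7L

open Matrix

variable {J : Type} [Fintype J] [DecidableEq J] {p : J → ℤ} {X : Matrix J J ℂ}
  {H : ℤ → Submodule ℂ (J → ℂ)}

/-- compatibility of a decomposition and a filtration -/
def FilHodge (p : J → ℤ) (X : Matrix J J ℂ) (H : ℤ → Submodule ℂ (J → ℂ)) : Prop :=
  ∀ (a : ℤ) (y : J → ℂ), y ∈ (⨆ b, ⨆ (_ : a ≤ b), H b).map X.mulVecLin ↔ ∀ j, p j < a → y j = 0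

section

variable (hX : IsUnit X.det) (hf : FilHodge p X H)

include hX in
theorem mulVec_inj {x y : J → ℂ} (h : X *ᵥ x = X *ᵥ y) : x = y := by
  have h1 : X⁻¹ *ᵥ (X *ᵥ x) = X⁻¹ *ᵥ (X *ᵥ y) := by rw [h]
  rwa [mulVec_mulVec, mulVec_mulVec, nonsing_inv_mul _ hX, one_mulVec, one_mulVec] at h1

include hX hf in
theorem mem_up (a : ℤ) (x : J → ℂ) :
    x ∈ (⨆ b, ⨆ (_ : a ≤ b), H b) ↔ ∀ j, p j < a → (X *ᵥ x) j = 0 := by
  rw [← hf a (X *ᵥ x)]
  constructor
  · intro hx
    exact ⟨x, hx, rfl⟩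
  · rintro ⟨x', hx', he⟩
    have : x' = x := mulVec_inj hX he
    rwa [← this]

include hX hf in
theorem hodge_coord {a : ℤ} {x : J → ℂ} (hx : x ∈ H a) {j : J} (hj : p j < a) :
    (X *ᵥ x) j = 0 := by
  have h1 : x ∈ (⨆ b, ⨆ (_ : a ≤ b), H b) := Submodule.mem_iSup_of_mem a
    (Submodule.mem_iSup_of_mem le_rfl hx)
  exact (mem_up hX hf a x).mp h1 j hj

theorem up_le_sup (a : ℤ) : (⨆ b, ⨆ (_ : a ≤ b), H b) ≤ H a ⊔ (⨆ b, ⨆ (_ : a + 1 ≤ b), H b) := by
  apply iSup₂_le
  intro b hb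
  rcases eq_or_lt_of_le hb with h | h
  · subst h
    exact le_sup_left
  · apply le_sup_of_le_right
    exact le_iSup₂_of_le b (by omega) le_rfl

include hX hf in
theorem exists_z (j : J) : ∃ z ∈ H (p j), ∀ k, p k ≤ p j →
    (X *ᵥ z) k = if k = j then 1 else 0 := by
  let x : J → ℂ := X⁻¹ *ᵥ Pi.single j 1
  have hx : X *ᵥ x = Pi.single j 1 := by
    simp only [x]
    rw [mulVec_mulVec, mul_nonsing_inv _ hX, one_mulVec]
  have hmem : x ∈ (⨆ b, ⨆ (_ : p j ≤ b), H b) := by
    rw [mem_up hX hf]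
    intro i hi
    rw [hx]
    apply Pi.single_eq_of_ne
    rintro rfl
    exact lt_irrefl _ hi
  obtain ⟨z, hz, x', hx', hsum⟩ := Submodule.mem_sup.mp (up_le_sup _ hmem)
  refine ⟨z, hz, ?_⟩
  intro i hi
  rw [mem_up hX hf] at hx'
  have h1 := hx' i (by omega)
  have h2 : (X *ᵥ x) i = (X *ᵥ z) i := by
    rw [← hsum, mulVec_add]
    simp [h1]
  rw [← h2, hx, Pi.single_apply]

include hX hf in
theorem z_unique (hint : DirectSum.IsInternal H) {j : J} {z z' : J → ℂ} (hz : z ∈ H (p j))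
    (hz' : z' ∈ H (p j)) (h : ∀ k, p k ≤ p j → (X *ᵥ z) k = (X *ᵥ z') k) : z = z' := by
  have h1 : z - z' ∈ H (p j) := Submodule.sub_mem _ hz hz'
  have h2 : z - z' ∈ (⨆ b, ⨆ (_ : p j + 1 ≤ b), H b) := by
    rw [mem_up hX hf]
    intro k hk
    rw [mulVec_sub, Pi.sub_apply, h k (by omega), sub_self]
  have h3 := hint.submodule_iSupIndep (p j)
  have h4 : (⨆ b, ⨆ (_ : p j + 1 ≤ b), H b) ≤ ⨆ b, ⨆ (_ : b ≠ p j), H b := by
    apply iSup₂_le
    intro b hb
    exact le_iSup₂_of_le b (by omega) le_rfl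
  have h5 := Submodule.disjoint_def.mp h3 _ h1 (h4 h2)
  exact sub_eq_zero.mp h5

end

/-- a block triangular matrix with identity blocks on the diagonal -/
theorem det_unip {b : Matrix J J ℂ} (h1 : ∀ j j', p j < p j' → b j j' = 0)
    (h2 : ∀ j j', p j = p j' → b j j' = if j = j' then 1 else 0) : b.det = 1 := by
  have hb : BlockTriangular b (fun j => - p j) := by
    intro j j' hjj
    simp only [neg_lt_neg_iff] at hjj
    exact h1 j j' hjj
  rw [hb.det]
  apply Finset.prod_eq_one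
  intro a _
  have : b.toSquareBlock (fun j => - p j) a = 1 := by
    ext j j'
    rw [toSquareBlock_def, of_apply, h2 j.1 j'.1 (by have := j.2; have := j'.2; omega),
      Matrix.one_apply]
    simp only [Subtype.ext_iff]
  rw [this, det_one]

theorem det_blocks {b : Matrix J J ℂ} (h1 : ∀ j j', p j < p j' → b j j' = 0) :
    b.det = ∏ a ∈ Finset.univ.image p,
      (b.submatrix (fun j : {j // p j = a} => j.1) (fun j : {j // p j = a} => j.1)).det := by
  have hb : BlockTriangular b (fun j => - p j) := by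
    intro j j' hjj
    simp only [neg_lt_neg_iff] at hjj
    exact h1 j j' hjj
  rw [hb.det]
  have h2 : Finset.univ.image (fun j => - p j) = (Finset.univ.image p).image (fun a => -a) := by
    rw [Finset.image_image]
    rfl
  rw [h2, Finset.prod_image (fun a _ b _ h => neg_injective h)]
  apply Finset.prod_congr rfl
  intro a _
  let e : {j // p j = a} ≃ {j // - p j = -a} := Equiv.subtypeEquivRight (fun j => by
    rw [neg_inj])
  rw [← det_submatrix_equiv_self e]
  rfl

end Pool.Agent.MP100fe7L
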