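import Pool.Agent.Lib.MP_100fe7_nt.CmGal
import Pool.Agent.Lib.MP_100fe7_nt.LFil

/-!
Factorisation of the comparison matrices of one motive at a pair of complex conjugate embeddings.
-/

set_option linter.unusedSectionVars false

namespace Pool.Agent.MP100fe7Cm

open Matrix NumberField MP100fe7L

variable {F : Type} [Field F] [NumberField F] [IsCMField F] {E : Type} [Field E] [NumberField E]

namespace Datum

variable {n : ℕ} {w : ℤ} (M : Datum F E n w) (τ : E →+* ℂ) (φ : F →+* E)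

theorem filHodge : FilHodge (M.p φ) (M.comp τ φ) (M.hodge τ φ) := M.fil_hodge τ φ

/-- the vector of the Hodge component which corresponds to the basis vector `j` -/
noncomputable def z (j : Fin n) : Fin n → ℂ :=
  (exists_z (M.comp_unit τ (bar φ)) (M.filHodge τ (bar φ)) j).choose

theorem z_mem (j : Fin n) : M.z τ φ j ∈ M.hodge τ (bar φ) (M.p (bar φ) j) :=
  (exists_z (M.comp_unit τ (bar φ)) (M.filHodge τ (bar φ)) j).choose_spec.1

theorem z_spec (j k : Fin n) (hk : M.p (bar φ) k ≤ M.p (bar φ) j) :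
    (M.comp τ (bar φ) *ᵥ M.z τ φ j) k = if k = j then 1 else 0 :=
  (exists_z (M.comp_unit τ (bar φ)) (M.filHodge τ (bar φ)) j).choose_spec.2 k hk

/-- the matrix of the vectors `z j` -/
noncomputable def Z : Matrix (Fin n) (Fin n) ℂ := Matrix.of fun k j => M.z τ φ j k

theorem mul_Z (A : Matrix (Fin n) (Fin n) ℂ) (k j : Fin n) :
    (A * M.Z τ φ) k j = (A *ᵥ M.z τ φ j) k := rfl

theorem z_mem' (j : Fin n) : M.z τ φ j ∈ M.hodge τ φ (M.p φ j) := by
  have h1 := M.z_mem τ φ j
  rwa [M.p_bar, M.hodge_bar] at h1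

theorem b'_low (j j' : Fin n) (h : M.p (bar φ) j < M.p (bar φ) j') :
    (M.comp τ (bar φ) * M.Z τ φ) j j' = 0 := by
  rw [mul_Z]
  exact hodge_coord (M.comp_unit τ (bar φ)) (M.filHodge τ (bar φ)) (M.z_mem τ φ j') h

theorem b'_diag (j j' : Fin n) (h : M.p (bar φ) j = M.p (bar φ) j') :
    (M.comp τ (bar φ) * M.Z τ φ) j j' = if j = j' then 1 else 0 := by
  rw [mul_Z]
  exact M.z_spec τ φ j' j h.le

theorem b_low (j j' : Fin n) (h : M.p φ j < M.p φ j') : (M.comp τ φ * M.Z τ φ) j j' = 0 := by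
  rw [mul_Z]
  exact hodge_coord (M.comp_unit τ φ) (M.filHodge τ φ) (M.z_mem' τ φ j') h

theorem det_b' : (M.comp τ (bar φ) * M.Z τ φ).det = 1 :=
  det_unip (M.b'_low τ φ) (M.b'_diag τ φ)

theorem Z_unit : IsUnit (M.Z τ φ).det := by
  have h := M.det_b' τ φ
  rw [det_mul] at h
  exact IsUnit.of_mul_eq_one_right _ h

/-- the matrix of `F_∞` on the graded pieces -/
noncomputable def b : Matrix (Fin n) (Fin n) ℂ := M.comp τ φ * M.Z τ φ

theorem b_unit : IsUnit (M.b τ φ).det := by
  unfold b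
  rw [det_mul]
  exact (M.comp_unit τ φ).mul (M.Z_unit τ φ)

theorem isHodgePeriod_iff (a : ℤ) (q : ℂ) : M.IsHodgePeriod τ φ a q ↔
    q = ((M.b τ φ).submatrix (fun j : M.Block φ a => j.1) (fun j : M.Block φ a => j.1)).det := by
  have hp : ∀ j : M.Block φ a, M.p (bar φ) j.1 = w - a := by
    intro j
    rw [M.p_bar, j.2]
  constructor
  · rintro ⟨z, hz, hk, rfl⟩
    congr 1
    ext i j
    simp only [of_apply, submatrix_apply]
    change _ = (M.comp τ φ *ᵥ M.z τ φ j.1) i.1
    congr 2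
    apply z_unique (M.comp_unit τ (bar φ)) (M.filHodge τ (bar φ)) (M.internal τ (bar φ))
      (j := j.1)
    · rw [hp]
      exact hz j
    · exact M.z_mem τ φ j.1
    · intro k hkj
      have h1 := hk j k (by rw [← hp j]; exact hkj)
      rw [M.z_spec τ φ j.1 k hkj]
      exact h1
  · rintro rfl
    refine ⟨fun j => M.z τ φ j.1, ?_, ?_, rfl⟩
    · intro j
      have h1 := M.z_mem τ φ j.1
      rwa [hp] at h1
    · intro j k hk
      exact M.z_spec τ φ j.1 k (by rw [hp]; exact hk)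

theorem block_unit (a : ℤ) : ((M.b τ φ).submatrix (fun j : M.Block φ a => j.1)
    (fun j : M.Block φ a => j.1)).det ≠ 0 := by
  have h1 := det_blocks (M.b_low τ φ)
  have h2 : (M.b τ φ).det ≠ 0 := (M.b_unit τ φ).ne_zero
  by_cases ha : a ∈ Finset.univ.image (M.p φ)
  · intro h3
    apply h2
    unfold b
    rw [h1]
    exact Finset.prod_eq_zero ha h3
  · haveI : IsEmpty (M.Block φ a) := ⟨fun j => ha (Finset.mem_image.mpr ⟨j.1, Finset.mem_univ _,
      j.2⟩)⟩
    rw [det_isEmpty]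
    exact one_ne_zero

/-- the common right factor of the comparison matrices at `φ` and `bar φ` -/
noncomputable def h : Matrix (Fin n) (Fin n) ℂ := (M.Z τ φ)⁻¹

theorem comp_eq : M.comp τ φ = M.b τ φ * M.h τ φ := by
  unfold b h
  rw [Matrix.mul_assoc, mul_nonsing_inv _ (M.Z_unit τ φ), Matrix.mul_one]

theorem comp_bar_eq : M.comp τ (bar φ) = (M.comp τ (bar φ) * M.Z τ φ) * M.h τ φ := by
  unfold h
  rw [Matrix.mul_assoc, mul_nonsing_inv _ (M.Z_unit τ φ), Matrix.mul_one]

theorem det_h : (M.h τ φ).det = (M.comp τ (bar φ)).det := by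
  have h1 := congrArg Matrix.det (M.comp_bar_eq τ φ)
  rw [det_mul, M.det_b', one_mul] at h1
  exact h1.symm

theorem det_comp : (M.comp τ φ).det = (M.comp τ (bar φ)).det * ∏ a ∈ M.indices φ,
    ((M.b τ φ).submatrix (fun j : M.Block φ a => j.1) (fun j : M.Block φ a => j.1)).det := by
  have h1 := congrArg Matrix.det (M.comp_eq τ φ)
  rw [det_mul, M.det_h, mul_comm, show M.b τ φ = M.comp τ φ * M.Z τ φ from rfl,
    det_blocks (M.b_low τ φ)] at h1
  exact h1

end Datum

end Pool.Agent.MP100fe7Cm
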