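import Mathlib

/-!
Betti - de Rham data of motives over a CM field `F` with coefficients in `E`, algebraic
representations of the `L`-group of `Res_{F/ℚ} ∏ GL(n i)`, and the Deligne periods of the motives
over `ℚ` obtained from them.
-/

namespace Pool.Agent.MP100fe7Cm

open Matrix NumberField

variable (F : Type) [Field F] [NumberField F] (E : Type) [Field E] [NumberField E]

/-- Equality of embeddings is decided classically. -/
noncomputable instance instDecEqEmb : DecidableEq (F →+* E) := Classical.decEq _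

/-- `E` contains the Galois closure of `F`: for every embedding `τ` of `E`, every embedding of `F`
into `ℂ` is of the form `τ ∘ φ`. -/
def Split : Prop := ∀ (τ : E →+* ℂ) (σ : F →+* ℂ), ∃ φ : F →+* E, τ.comp φ = σ

/-- The Galois group of the Galois closure of `F`, as a group of permutations of the embeddings
`F → E`: it is generated by the permutations `g` with `τ ∘ g φ = τ' ∘ φ` for all `φ`, where
`τ, τ' : E → ℂ` are embeddings. -/
def Gal : Subgroup (Equiv.Perm (F →+* E)) :=
  Subgroup.closure {g | ∃ τ τ' : E →+* ℂ, ∀ φ, τ.comp (g φ) = τ'.comp φ}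

variable {F E}

/-- The complex conjugate of the embedding `φ` of the CM field `F`. -/
noncomputable def bar [IsCMField F] (φ : F →+* E) : F →+* E :=
  φ.comp (IsCMField.complexConj F).toRingEquiv.toRingHom

/-- The permutation `g` with `τ ∘ g φ = τ' ∘ φ` for all `φ`. -/
noncomputable def galEquiv (hE : Split F E) (τ τ' : E →+* ℂ) : Equiv.Perm (F →+* E) where
  toFun φ := (hE τ (τ'.comp φ)).choose
  invFun φ := (hE τ' (τ.comp φ)).choose
  left_inv φ := by
    apply RingHom.ext
    intro x
    apply τ'.injective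
    have h1 := (hE τ' (τ.comp (hE τ (τ'.comp φ)).choose)).choose_spec
    have h2 := (hE τ (τ'.comp φ)).choose_spec
    have h3 := RingHom.congr_fun (h1.trans h2) x
    exact h3
  right_inv φ := by
    apply RingHom.ext
    intro x
    apply τ.injective
    have h1 := (hE τ (τ'.comp (hE τ' (τ.comp φ)).choose)).choose_spec
    have h2 := (hE τ' (τ.comp φ)).choose_spec
    have h3 := RingHom.congr_fun (h1.trans h2) x
    exact h3

theorem galEquiv_spec (hE : Split F E) (τ τ' : E →+* ℂ) (φ : F →+* E) :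
    τ.comp (galEquiv hE τ τ' φ) = τ'.comp φ := (hE τ (τ'.comp φ)).choose_spec

/-- The element `g` of the Galois group with `τ ∘ g φ = τ' ∘ φ` for all `φ`. -/
noncomputable def galElt (hE : Split F E) (τ τ' : E →+* ℂ) : Gal F E :=
  ⟨galEquiv hE τ τ', Subgroup.subset_closure ⟨τ, τ', galEquiv_spec hE τ τ'⟩⟩

variable (F E)

/-- The Betti - de Rham data of a motive `M` over the CM field `F` with coefficients in `E`, of rank
`n`, pure of weight `w`. For every embedding `σ : F → ℂ` the Betti realisation `M_σ` is an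
`E`-space with a basis indexed by `Fin n`, and `F_∞ : M_σ → M_{σ bar}` is the identity matrix. For
every embedding `φ : F → E` the `φ`-part `M_{DR, φ}` of the `F ⊗ E`-module `M_DR` is an `E`-space
with a basis adapted to the Hodge filtration: `F^a M_{DR, φ}` is spanned by the vectors `j` with
`p φ j ≥ a`, and the bases of `M_{DR, φ}` and `M_{DR, φ bar}` are numbered so that
`p (bar φ) j = w - p φ j`. For an embedding `τ : E → ℂ` and `σ = τ ∘ φ`, `comp τ φ` is the matrix of
the comparison isomorphism `M_σ ⊗_{E, τ} ℂ → M_{DR, φ} ⊗_{E, τ} ℂ`, and `hodge τ φ a` is the Hodge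
component `M_σ^{a, w-a} ⊆ M_σ ⊗_{E, τ} ℂ`. -/
structure Datum [IsCMField F] (n : ℕ) (w : ℤ) where
  /-- the Hodge indices of the adapted bases of the `M_{DR, φ}` -/
  p : (F →+* E) → Fin n → ℤ
  p_bar : ∀ φ j, p (bar φ) j = w - p φ j
  /-- the matrices of the comparison isomorphism -/
  comp : (E →+* ℂ) → (F →+* E) → Matrix (Fin n) (Fin n) ℂ
  comp_unit : ∀ τ φ, IsUnit (comp τ φ).det
  /-- the Hodge decomposition -/
  hodge : (E →+* ℂ) → (F →+* E) → ℤ → Submodule ℂ (Fin n → ℂ)
  internal : ∀ τ φ, DirectSum.IsInternal (hodge τ φ)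
  hodge_bar : ∀ τ φ a, hodge τ (bar φ) (w - a) = hodge τ φ a
  fil_hodge : ∀ τ φ (a : ℤ) (y : Fin n → ℂ),
    y ∈ (⨆ b, ⨆ (_ : a ≤ b), hodge τ φ b).map (comp τ φ).mulVecLin ↔ ∀ j, p φ j < a → y j = 0

namespace Datum

variable {F E} [IsCMField F] {n : ℕ} {w : ℤ} (M : Datum F E n w)

/-- The basis vectors of `M_{DR, φ}` with Hodge index `a`, i.e. (the index set of) an `E`-basis of
`Gr_F^a M_{DR, φ}`, and of `Gr_F^{w-a} M_{DR, φ bar}`. -/
abbrev Block (φ : F →+* E) (a : ℤ) : Type := {j : Fin n // M.p φ j = a}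

/-- `q` is the determinant of `F_∞ : M_{σ bar}^{w-a, a} → M_σ^{a, w-a}`, `σ = τ ∘ φ`, in the
`E`-bases of `Gr_F^{w-a} M_{DR, φ bar}` and `Gr_F^a M_{DR, φ}`, where the Hodge components are
identified with the graded pieces by the comparison isomorphism: `z j ∈ M_{σ bar}^{w-a, a}` is the
vector whose class in `Gr_F^{w-a}` is that of the basis vector `j`, and `q` is the determinant of
the coordinates of the `F_∞ (z j) = z j` in `Gr_F^a`. -/
def IsHodgePeriod (τ : E →+* ℂ) (φ : F →+* E) (a : ℤ) (q : ℂ) : Prop :=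
  ∃ z : M.Block φ a → Fin n → ℂ,
    (∀ j, z j ∈ M.hodge τ (bar φ) (w - a)) ∧
    (∀ (j : M.Block φ a) (k : Fin n), M.p (bar φ) k ≤ w - a →
      (M.comp τ (bar φ)).mulVec (z j) k = if k = j.1 then 1 else 0) ∧
    q = (Matrix.of fun i j : M.Block φ a => (M.comp τ φ).mulVec (z j) i.1).det

/-- The Hodge indices of `M_{DR, φ}`. -/
def indices (φ : F →+* E) : Finset ℤ := Finset.univ.image (M.p φ)

end Datum

/-- A family of square matrices `A (i, φ)`, one for each `i : ι` and each embedding `φ : F → E`. -/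
abbrev Fam {ι : Type} (n : ι → ℕ) (S : Type) : Type :=
  ∀ q : ι × (F →+* E), Matrix (Fin (n q.1)) (Fin (n q.1)) S

/-- The basis vectors of all the spaces. -/
abbrev Tot {ι : Type} (n : ι → ℕ) : Type := Σ q : ι × (F →+* E), Fin (n q.1)

variable {F E}

/-- The value at a family `A` of matrices over an `E`-algebra `S` of a matrix of polynomials over
`E` in the entries of such a family. -/
noncomputable def evalMat {ι : Type} {n : ι → ℕ} {κ : Type}
    (mat : Matrix κ κ (MvPolynomial (Σ q : ι × (F →+* E), Fin (n q.1) × Fin (n q.1)) E))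
    (S : Type) [CommRing S] [Algebra E S] (A : Fam F E n S) : Matrix κ κ S :=
  mat.map (MvPolynomial.aeval fun t => A t.1 t.2.1 t.2.2)

variable (F E)

/-- An algebraic representation over `E` of `(∏ i, GL(n i)^{Hom(F, E)}) ⋊ Gal F E`, written in a
basis of weight vectors of the first factor. The family `A` acts by `∏ q, det (A q) ^ (-(twist i))`
(`q = (i, φ)`) times the value at `A` of the polynomial matrix `mat`; the family of diagonal
matrices `diag (x_t)` acts by `mat` on the basis vector `s` as `∏ t, x_t ^ (wt s t)`, and `mat` is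
homogeneous of degree `deg i` in the matrices with first index `i`. The element `g` of the Galois
group acts by the matrix `perm g`, and it maps the `φ`-factor to the `g φ`-factor. -/
structure Rep {ι : Type} [Fintype ι] (n : ι → ℕ) (κ : Type) [Fintype κ] [DecidableEq κ] where
  /-- the polynomial matrix -/
  mat : Matrix κ κ (MvPolynomial (Σ q : ι × (F →+* E), Fin (n q.1) × Fin (n q.1)) E)
  /-- exponents of the inverse determinants -/
  twist : ι → ℕ
  /-- the weights of the basis vectors for the polynomial part -/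
  wt : κ → Tot F E n → ℕ
  /-- the degrees of the polynomial part -/
  deg : ι → ℕ
  sum_wt : ∀ s i, ∑ φ : F →+* E, ∑ j, wt s ⟨(i, φ), j⟩ = deg i
  map_mul : ∀ (S : Type) [CommRing S] [Algebra E S] (A B : Fam F E n S),
    evalMat mat S (A * B) = evalMat mat S A * evalMat mat S B
  map_diagonal : ∀ (S : Type) [CommRing S] [Algebra E S] (x : Tot F E n → S),
    evalMat mat S (fun q => diagonal fun j => x ⟨q, j⟩) = diagonal fun s => ∏ t, x t ^ wt s t
  /-- the action of the Galois group -/
  perm : Gal F E →* Matrix κ κ E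
  perm_mul : ∀ (g : Gal F E) (S : Type) [CommRing S] [Algebra E S] (A : Fam F E n S),
    (perm g).map (algebraMap E S) * evalMat mat S (fun q => A (q.1, g.1 q.2)) =
      evalMat mat S A * (perm g).map (algebraMap E S)

namespace Rep

variable {F E} {ι : Type} [Fintype ι] {n : ι → ℕ} {κ : Type} [Fintype κ] [DecidableEq κ]
  (ρ : Rep F E n κ)

/-- The matrix by which a family of invertible matrices acts. -/
noncomputable def ev (S : Type) [CommRing S] [Algebra E S] (A : Fam F E n S) : Matrix κ κ S :=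
  Ring.inverse (∏ q, (A q).det ^ ρ.twist q.1) • evalMat ρ.mat S A

/-- The weight of the basis vector `s`. -/
def weight (s : κ) (t : Tot F E n) : ℤ := (ρ.wt s t : ℤ) - ρ.twist t.1.1

variable [IsCMField F] {w : ι → ℤ} (M : ∀ i, Datum F E (n i) (w i))

/-- The Hodge index of the `s`-th basis vector of the de Rham realisation of `N = ρ(M)`. -/
noncomputable def hodgeIdx (s : κ) : ℤ := ∑ t : Tot F E n, ρ.weight s t * (M t.1.1).p t.1.2 t.2

/-- The weight of the motive `N = ρ(M)`. -/
noncomputable def motWeight (w : ι → ℤ) : ℤ :=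
  ∑ i, ((ρ.deg i : ℤ) - ρ.twist i * n i * Fintype.card (F →+* E)) * w i

/-- `N = ρ(M)` has no classes of type `(k/2, k/2)`, `k` the weight of `N`. -/
def NoMiddle : Prop := ∀ s, 2 * ρ.hodgeIdx M s ≠ ρ.motWeight w

/-- The matrix of `F_∞` on `N_B`: the complex conjugation of `ℂ` gives the element `c` of the Galois
group with `τ₀ ∘ c φ = conj ∘ τ₀ ∘ φ`. -/
noncomputable def frob (hE : Split F E) (τ₀ : E →+* ℂ) : Matrix κ κ E :=
  ρ.perm (galElt hE τ₀ ((starRingEnd ℂ).comp τ₀))

/-- The comparison matrix of `N = ρ(M)` at `τ : E → ℂ`: `M_{σ}`, `σ = τ₀ ∘ φ₀`, is the `φ₀`-factor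
of the Betti side, and the `φ`-factor of the de Rham side, `τ ∘ φ = σ`, so first the element `g` of
the Galois group with `τ ∘ g φ₀ = τ₀ ∘ φ₀` acts, and then the family of the comparison matrices
`comp τ φ` of the `M i`. -/
noncomputable def compN (hE : Split F E) (τ₀ τ : E →+* ℂ) : Matrix κ κ ℂ :=
  letI := τ.toAlgebra
  ρ.ev ℂ (fun q => (M q.1).comp τ q.2) * (ρ.perm (galElt hE τ τ₀)).map τ

/-- `x : Hom(E, ℂ) → ℂ` is a Deligne period `c^+(N)` (for `ε = 1`) or `c^-(N)` (for `ε = -1`) in
`E ⊗ ℂ = ℂ^{Hom(E, ℂ)}`. The motive `N = ρ(M)` over `ℚ` has `N_B = E^κ`, where `M_σ`, `σ = τ₀ ∘ φ`,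
is the `φ`-factor of the family, `N_DR = E^κ`, and `F^a N_DR` is spanned by the basis vectors `s`
with `hodgeIdx s ≥ a`. The columns of `A` are an `E`-basis of `N_B^ε`, the matrix `B` is the
projection of `N_DR` onto `N_DR / F^ε N`, written in an `E`-basis of the quotient, where `F^ε N` is
the step of the Hodge filtration with `dim N_DR / F^ε N = dim N_B^ε`, and `x` is the determinant of
`N_B^ε ⊗ ℂ → (N_DR / F^ε N) ⊗ ℂ` in these `E`-bases. -/
def IsPeriod (hE : Split F E) (τ₀ : E →+* ℂ) (ε : E) (x : (E →+* ℂ) → ℂ) : Prop :=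
  ∃ (a : ℤ) (d : ℕ) (A : Matrix κ (Fin d) E) (B : Matrix (Fin d) κ E),
    Function.Injective A.mulVec ∧
    (∀ v : κ → E, v ∈ Set.range A.mulVec ↔ (ρ.frob hE τ₀).mulVec v = ε • v) ∧
    Function.Surjective B.mulVec ∧
    (∀ v : κ → E, B.mulVec v = 0 ↔ ∀ s, ρ.hodgeIdx M s < a → v s = 0) ∧
    ∀ τ, x τ = (B.map τ * ρ.compN M hE τ₀ τ * A.map τ).det

/-- `u` is the determinant of the element `g` of the Galois group on `N_B^ε`. -/
def IsGalDet (hE : Split F E) (τ₀ : E →+* ℂ) (ε : E) (g : Gal F E) (u : E) : Prop :=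
  ∃ (d : ℕ) (A : Matrix κ (Fin d) E) (V : Matrix (Fin d) (Fin d) E),
    Function.Injective A.mulVec ∧
    (∀ v : κ → E, v ∈ Set.range A.mulVec ↔ (ρ.frob hE τ₀).mulVec v = ε • v) ∧
    ρ.perm g * A = A * V ∧ u = V.det

/-- The basis vectors of `N_DR` with Hodge index `< a`, a basis of `N_DR / F^a N_DR`. -/
noncomputable def lowPart (a : ℤ) : Finset κ := Finset.univ.filter fun s => ρ.hodgeIdx M s < a

/-- `F^a N_DR` is the step `F^ε N` of the Hodge filtration: `N_B^ε` has an `E`-basis with as many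
elements as that of `N_DR / F^a N_DR`. -/
def IsStep (hE : Split F E) (τ₀ : E →+* ℂ) (ε : E) (a : ℤ) : Prop :=
  ∃ A : Matrix κ (Fin (ρ.lowPart M a).card) E, Function.Injective A.mulVec ∧
    ∀ v : κ → E, v ∈ Set.range A.mulVec ↔ (ρ.frob hE τ₀).mulVec v = ε • v

end Rep

end Pool.Agent.MP100fe7Cm
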