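import Pool.Agent.Lib.MP_100fe7_nt.CmSym

/-!
Existence of the periods; the determinants of the Galois elements on the eigenspaces of `F_∞`.
-/

set_option linter.unusedSectionVars false

namespace Pool.Agent.MP100fe7Cm

open Matrix NumberField

section uniq

variable {E : Type} [Field E] [CharZero E] {κ : Type} [Fintype κ] [DecidableEq κ]

/-- the determinant of an endomorphism of the subspace spanned by the columns of `A` is well
defined -/
theorem det_unique {d d' : ℕ} {A : Matrix κ (Fin d) E} {A' : Matrix κ (Fin d') E}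
    (hA : Function.Injective A.mulVec) (hA' : Function.Injective A'.mulVec)
    (h : ∀ v, v ∈ Set.range A.mulVec ↔ v ∈ Set.range A'.mulVec) (X : Matrix κ κ E)
    {V : Matrix (Fin d) (Fin d) E} {V' : Matrix (Fin d') (Fin d') E} (hV : X * A = A * V)
    (hV' : X * A' = A' * V') : V.det = V'.det := by
  obtain ⟨L, hL⟩ := MP100fe7L.exists_left A hA
  obtain ⟨L', hL'⟩ := MP100fe7L.exists_left A' hA'
  have h1 : A * (L * A') = A' := by
    ext s j
    have h2 : A'.mulVec (Pi.single j 1) ∈ Set.range A.mulVec := (h _).mpr ⟨_, rfl⟩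
    obtain ⟨x, hx⟩ := h2
    have h3 : (A * (L * A')).mulVec (Pi.single j 1) = A'.mulVec (Pi.single j 1) := by
      rw [← mulVec_mulVec, ← mulVec_mulVec, ← hx, mulVec_mulVec x, hL, one_mulVec]
    have h4 := congrFun h3 s
    simpa using h4
  have h1' : A' * (L' * A) = A := by
    ext s j
    have h2 : A.mulVec (Pi.single j 1) ∈ Set.range A'.mulVec := (h _).mp ⟨_, rfl⟩
    obtain ⟨x, hx⟩ := h2
    have h3 : (A' * (L' * A)).mulVec (Pi.single j 1) = A.mulVec (Pi.single j 1) := by
      rw [← mulVec_mulVec, ← mulVec_mulVec, ← hx, mulVec_mulVec x, hL', one_mulVec]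
    have h4 := congrFun h3 s
    simpa using h4
  have h5 : (L' * A) * (L * A') = 1 := by
    rw [Matrix.mul_assoc, h1, hL']
  have h6 : (L * A') * (L' * A) = 1 := by
    rw [Matrix.mul_assoc, h1', hL]
  have h7 : V' = (L' * A) * V * (L * A') := by
    have h8 : A' * V' = A' * ((L' * A) * V * (L * A')) := by
      rw [← hV', Matrix.mul_assoc (L' * A), ← Matrix.mul_assoc A', h1', ← Matrix.mul_assoc A, ← hV,
        Matrix.mul_assoc X, h1]
    have h9 := congrArg (fun Y => L' * Y) h8
    simp only [← Matrix.mul_assoc] at h9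
    rw [hL', Matrix.one_mul, Matrix.one_mul] at h9
    rw [h9]
    simp only [Matrix.mul_assoc]
  rw [h7]
  exact (det_conj_of_mul_eq_one h5 h6).symm

end uniq

variable {F : Type} [Field F] [NumberField F] [IsCMField F] {E : Type} [Field E] [NumberField E]
  {ι : Type} [Fintype ι] [DecidableEq ι] {n : ι → ℕ} {κ : Type} [Fintype κ] [DecidableEq κ]
  (ρ : Rep F E n κ) {w : ι → ℤ} (M : ∀ i, Datum F E (n i) (w i)) (hE : Split F E) (τ₀ : E →+* ℂ)

/-- the low part -/
def isLo (a : ℤ) (s : κ) : Prop := ρ.hodgeIdx M s < a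

noncomputable instance (a : ℤ) : DecidablePred (isLo ρ M a) := fun s => by
  unfold isLo
  exact inferInstance

theorem mem_lowPart (a : ℤ) (s : κ) : s ∈ ρ.lowPart M a ↔ isLo ρ M a s := by
  unfold Rep.lowPart isLo
  simp

theorem filter_lo (a : ℤ) : (Finset.univ.filter fun s => isLo ρ M a s) = ρ.lowPart M a := by
  ext s
  rw [mem_lowPart]
  simp

theorem lo_iff (hmid : ρ.NoMiddle M) {s t : κ} (h : ρ.frob hE τ₀ s t ≠ 0) :
    isLo ρ M ((ρ.motWeight w + 1) / 2) s ↔ ¬ isLo ρ M ((ρ.motWeight w + 1) / 2) t := by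
  have h1 := ρ.hodgeIdx_add M hE τ₀ s t h
  have h2 := hmid s
  have h3 := hmid t
  unfold isLo
  omega

section inj

variable {d : ℕ} {A : Matrix κ (Fin d) E} {B : Matrix (Fin d) κ E} {ε : E} (hε : ε * ε = 1)
  (hr : ∀ v : κ → E, v ∈ Set.range A.mulVec ↔ (ρ.frob hE τ₀).mulVec v = ε • v)
  (hA : Function.Injective A.mulVec) (hB : Function.Surjective B.mulVec) {a : ℤ}
  (hker : ∀ v : κ → E, B.mulVec v = 0 ↔ ∀ s, isLo ρ M a s → v s = 0)

include hε in
/-- an eigenvector of `F_∞` supported on the high part vanishes -/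
theorem eigen_zero (ha : ρ.motWeight w < 2 * a) {y : κ → E}
    (hy : (ρ.frob hE τ₀).mulVec y = ε • y) (h0 : ∀ s, isLo ρ M a s → y s = 0) : y = 0 := by
  funext s
  by_cases hs : isLo ρ M a s
  · exact h0 s hs
  · have h1 := congrFun hy s
    have h2 : (ρ.frob hE τ₀).mulVec y s = 0 := by
      simp only [mulVec, dotProduct]
      apply Finset.sum_eq_zero
      intro t _
      by_cases hst : ρ.frob hE τ₀ s t = 0
      · rw [hst, zero_mul]
      · have h3 := ρ.hodgeIdx_add M hE τ₀ s t hst
        have h4 : isLo ρ M a t := by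
          unfold isLo at hs ⊢
          omega
        rw [h0 t h4, mul_zero]
    rw [h2, Pi.smul_apply, smul_eq_mul] at h1
    have h4 : ε * (ε * y s) = 0 := by rw [← h1, mul_zero]
    rwa [← mul_assoc, hε, one_mul] at h4

include hε hr hA hB hker in
theorem det_BA_ne : (B * A).det ≠ 0 := by
  by_cases ha : ρ.motWeight w < 2 * a
  · intro h
    obtain ⟨v, hv, hv0⟩ := Matrix.exists_mulVec_eq_zero_iff.mpr h
    apply hv
    rw [← mulVec_mulVec] at hv0
    have h1 := eigen_zero ρ M hE τ₀ hε ha ((hr _).mp ⟨v, rfl⟩) ((hker _).mp hv0)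
    apply hA
    rw [h1, mulVec_zero]
  · push Not at ha
    have hsurj : Function.Surjective (B * A).mulVec := by
      intro y
      obtain ⟨v, hv⟩ := hB y
      let v' : κ → E := fun s => if isLo ρ M a s then v s else 0
      have h1 : B.mulVec v' = y := by
        rw [← hv, ← sub_eq_zero, ← mulVec_sub, hker]
        intro s hs
        simp only [v', Pi.sub_apply, if_pos hs, sub_self]
      have h2 : B.mulVec ((ρ.frob hE τ₀).mulVec v') = 0 := by
        rw [hker]
        intro s hs
        simp only [mulVec, dotProduct]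
        apply Finset.sum_eq_zero
        intro t _
        by_cases hst : ρ.frob hE τ₀ s t = 0
        · rw [hst, zero_mul]
        · have h3 := ρ.hodgeIdx_add M hE τ₀ s t hst
          have h4 : ¬ isLo ρ M a t := by
            unfold isLo at hs ⊢
            omega
          simp only [v', if_neg h4, mul_zero]
      have h3 : v' + ε • (ρ.frob hE τ₀).mulVec v' ∈ Set.range A.mulVec := by
        rw [hr, mulVec_add, mulVec_smul, mulVec_mulVec, frob_sq, one_mulVec, smul_add, smul_smul,
          hε, one_smul, add_comm]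
      obtain ⟨x, hx⟩ := h3
      refine ⟨x, ?_⟩
      rw [← mulVec_mulVec, hx, mulVec_add, mulVec_smul, h1, h2, smul_zero, add_zero]
    have h4 := Matrix.mulVec_surjective_iff_isUnit.mp hsurj
    exact ((Matrix.isUnit_iff_isUnit_det _).mp h4).ne_zero

end inj

/-- the standard projection to the low part -/
theorem exists_B (a : ℤ) : ∃ B : Matrix (Fin (ρ.lowPart M a).card) κ E,
      Function.Surjective B.mulVec ∧
      (∀ v : κ → E, B.mulVec v = 0 ↔ ∀ s, isLo ρ M a s → v s = 0) := by
  classical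
  let ψ : Fin (ρ.lowPart M a).card ≃ {s // s ∈ ρ.lowPart M a} := (ρ.lowPart M a).equivFin.symm
  let B : Matrix (Fin (ρ.lowPart M a).card) κ E :=
    (1 : Matrix κ κ E).submatrix (fun i => (ψ i).1) id
  have hB : ∀ (v : κ → E) i, B.mulVec v i = v (ψ i).1 := by
    intro v i
    change ∑ s, (1 : Matrix κ κ E) (ψ i).1 s * v s = v (ψ i).1
    rw [Finset.sum_eq_single (ψ i).1]
    · rw [Matrix.one_apply_eq, one_mul]
    · intro s _ hs
      rw [Matrix.one_apply_ne (Ne.symm hs), zero_mul]
    · simp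
  refine ⟨B, ?_, ?_⟩
  · intro y
    refine ⟨fun s => if h : s ∈ ρ.lowPart M a then y (ψ.symm ⟨s, h⟩) else 0, ?_⟩
    funext i
    rw [hB]
    simp only [dif_pos (ψ i).2]
    simp
  · intro v
    constructor
    · intro h s hs
      have h1 := congrFun h (ψ.symm ⟨s, (mem_lowPart ρ M a s).mpr hs⟩)
      rw [hB, Equiv.apply_symm_apply] at h1
      exact h1
    · intro h
      funext i
      rw [hB]
      exact h _ ((mem_lowPart ρ M a _).mp (ψ i).2)

/-- If there are no middle classes, the middle step of the filtration is `F^+ N = F^- N`. -/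
theorem isStep_of_noMiddle (hmid : ρ.NoMiddle M) {ε : E} (hε : ε * ε = 1) :
    ρ.IsStep M hE τ₀ ε ((ρ.motWeight w + 1) / 2) := by
  classical
  set a₀ := (ρ.motWeight w + 1) / 2 with ha₀
  let ψ : Fin (ρ.lowPart M a₀).card ≃ {s // s ∈ ρ.lowPart M a₀} :=
    (ρ.lowPart M a₀).equivFin.symm
  have hψ : ∀ i, isLo ρ M a₀ (ψ i).1 := fun i => (mem_lowPart ρ M a₀ _).mp (ψ i).2
  let C := ρ.frob hE τ₀
  let A : Matrix κ (Fin (ρ.lowPart M a₀).card) E :=
    (1 + ε • C).submatrix id (fun i => (ψ i).1)
  let B : Matrix (Fin (ρ.lowPart M a₀).card) κ E :=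
    (1 : Matrix κ κ E).submatrix (fun i => (ψ i).1) id
  have hB : ∀ (v : κ → E) i, B.mulVec v i = v (ψ i).1 := by
    intro v i
    change ∑ s, (1 : Matrix κ κ E) (ψ i).1 s * v s = v (ψ i).1
    rw [Finset.sum_eq_single (ψ i).1]
    · rw [Matrix.one_apply_eq, one_mul]
    · intro s _ hs
      rw [Matrix.one_apply_ne (Ne.symm hs), zero_mul]
    · simp
  have hBA : B * A = 1 := by
    ext i j
    rw [Matrix.mul_apply]
    change ∑ s, (1 : Matrix κ κ E) (ψ i).1 s * (1 + ε • C) s (ψ j).1 = _
    rw [Finset.sum_eq_single (ψ i).1]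
    · rw [Matrix.one_apply_eq, one_mul, Matrix.add_apply, Matrix.smul_apply]
      have h1 : C (ψ i).1 (ψ j).1 = 0 := by
        by_contra h
        exact ((lo_iff ρ M hE τ₀ hmid h).mp (hψ i)) (hψ j)
      rw [h1, smul_zero, add_zero, Matrix.one_apply, Matrix.one_apply]
      by_cases hij : i = j
      · subst hij
        simp
      · rw [if_neg hij, if_neg]
        intro h
        exact hij (ψ.injective (Subtype.ext h))
    · intro s _ hs
      rw [Matrix.one_apply_ne (Ne.symm hs), zero_mul]
    · simp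
  have hC : C * C = 1 := frob_sq ρ hE τ₀
  have hCA : C * A = ε • A := by
    have h2 : C * (1 + ε • C) = ε • (1 + ε • C) := by
      rw [Matrix.mul_add, Matrix.mul_one, Matrix.mul_smul, hC, smul_add, smul_smul, hε, one_smul,
        add_comm]
    ext s i
    have h3 := congrFun (congrFun h2 s) (ψ i).1
    exact h3
  refine ⟨A, ?_, ?_⟩
  · intro x y hxy
    have h1 : B.mulVec (A.mulVec x) = B.mulVec (A.mulVec y) := by rw [hxy]
    rwa [mulVec_mulVec, mulVec_mulVec, hBA, one_mulVec, one_mulVec] at h1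
  · intro v
    constructor
    · rintro ⟨x, rfl⟩
      rw [mulVec_mulVec, hCA, smul_mulVec]
    · intro hv
      refine ⟨B.mulVec v, ?_⟩
      rw [← sub_eq_zero]
      -- the difference is an eigenvector supported on the high part
      have h5 : (ρ.frob hE τ₀).mulVec (A.mulVec (B.mulVec v) - v) =
          ε • (A.mulVec (B.mulVec v) - v) := by
        rw [mulVec_sub, hv, mulVec_mulVec, hCA, smul_mulVec, smul_sub]
      have h6 : ∀ s, isLo ρ M a₀ s → (A.mulVec (B.mulVec v) - v) s = 0 := by
        intro s hs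
        have h7 : B.mulVec (A.mulVec (B.mulVec v) - v) = 0 := by
          rw [mulVec_sub, mulVec_mulVec, hBA, one_mulVec, sub_self]
        have h8 := congrFun h7 (ψ.symm ⟨s, (mem_lowPart ρ M a₀ s).mpr hs⟩)
        rw [hB, Equiv.apply_symm_apply] at h8
        exact h8
      funext s
      by_cases hs : isLo ρ M a₀ s
      · exact h6 s hs
      · have h1 := congrFun h5 s
        have h2 : (ρ.frob hE τ₀).mulVec (A.mulVec (B.mulVec v) - v) s = 0 := by
          generalize hy : A.mulVec (B.mulVec v) - v = y at h6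
          simp only [mulVec, dotProduct]
          apply Finset.sum_eq_zero
          intro t _
          by_cases hst : ρ.frob hE τ₀ s t = 0
          · rw [hst, zero_mul]
          · have h3 := lo_iff ρ M hE τ₀ hmid hst
            rw [h6 t (by tauto), mul_zero]
        rw [h2, Pi.smul_apply, smul_eq_mul] at h1
        have h4 : ε * (ε * (A.mulVec (B.mulVec v) - v) s) = 0 := by rw [← h1, mul_zero]
        rwa [← mul_assoc, hε, one_mul] at h4

section galdet

variable {d : ℕ} {A : Matrix κ (Fin d) E} {L : Matrix (Fin d) κ E} (hL : L * A = 1) {ε : E}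
  (hε : ε * ε = 1) (hr : ∀ v : κ → E, v ∈ Set.range A.mulVec ↔ (ρ.frob hE τ₀).mulVec v = ε • v)

include hL hε hr in
/-- the Galois elements act on the eigenspace -/
theorem perm_act (g : Gal F E) : ρ.perm g * A = A * (L * ρ.perm g * A) := by
  have h1 := MP100fe7L.eigen_stable (frob_sq ρ hE τ₀) hε hr hL E (ρ.perm g) (by
    have h2 : ρ.perm g * ρ.frob hE τ₀ = ρ.frob hE τ₀ * ρ.perm g := by
      change ρ.perm g * ρ.perm (cElt hE τ₀) = ρ.perm (cElt hE τ₀) * ρ.perm g
      rw [← _root_.map_mul, ← _root_.map_mul, cElt_comm]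
    have h3 : (ρ.frob hE τ₀).map (algebraMap E E) = ρ.frob hE τ₀ := by
      ext i j
      simp
    rw [h3, h2])
  have h3 : A.map (algebraMap E E) = A := by
    ext i j
    simp
  have h4 : L.map (algebraMap E E) = L := by
    ext i j
    simp
  rw [h3, h4] at h1
  exact h1

include hL hε hr in
theorem perm_act_mul (g g' : Gal F E) : L * ρ.perm (g * g') * A =
    (L * ρ.perm g * A) * (L * ρ.perm g' * A) := by
  rw [_root_.map_mul, ← Matrix.mul_assoc, Matrix.mul_assoc _ (ρ.perm g') A,
    perm_act ρ hE τ₀ hL hε hr g', ← Matrix.mul_assoc]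

include hL in
theorem perm_act_one : L * ρ.perm 1 * A = 1 := by
  rw [map_one, Matrix.mul_one, hL]

/-- the action of the Galois group on the eigenspace -/
noncomputable def galAct : Gal F E →* Matrix (Fin d) (Fin d) E where
  toFun g := L * ρ.perm g * A
  map_one' := perm_act_one ρ hL
  map_mul' := perm_act_mul ρ hE τ₀ hL hε hr

include hL hε hr in
theorem galDet_pow (g : Gal F E) : (L * ρ.perm g * A).det ^ Nat.card (Gal F E) = 1 := by
  have h1 : (L * ρ.perm g * A).det = (galAct ρ hE τ₀ hL hε hr g).det := rfl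
  rw [h1, ← det_pow, ← map_pow, pow_card_eq_one', map_one, det_one]

end galdet

/-- The determinant of a Galois element on `N_B^ε` is well defined. -/
theorem isGalDet_unique {ε : E} {g : Gal F E} {u u' : E} (h : ρ.IsGalDet hE τ₀ ε g u)
    (h' : ρ.IsGalDet hE τ₀ ε g u') : u = u' := by
  obtain ⟨d, A, V, hA, hr, hV, rfl⟩ := h
  obtain ⟨d', A', V', hA', hr', hV', rfl⟩ := h'
  exact det_unique hA hA' (fun v => by rw [hr, hr']) _ hV hV'

theorem exists_galDet {ε : E} (hε : ε * ε = 1) {a : ℤ} (h : ρ.IsStep M hE τ₀ ε a)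
    (g : Gal F E) : ∃ u, ρ.IsGalDet hE τ₀ ε g u ∧ u ^ Nat.card (Gal F E) = 1 := by
  obtain ⟨A, hA, hr⟩ := h
  obtain ⟨L, hL⟩ := MP100fe7L.exists_left A hA
  exact ⟨_, ⟨_, A, _, hA, hr, perm_act ρ hE τ₀ hL hε hr g, rfl⟩, galDet_pow ρ hE τ₀ hL hε hr g⟩

end Pool.Agent.MP100fe7Cm
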