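import Pool.Agent.Lib.MP_100fe7_nt.TPer

/-!
Blocks of the factors of the comparison matrix of one motive.
-/

set_option linter.unusedSectionVars false

namespace Pool.Agent.MP100fe7T

open Matrix

section general

variable {κ : Type} [Fintype κ] [DecidableEq κ] {R : Type} [CommRing R]

theorem detP_congr {L L' : κ → Prop} [i₁ : DecidablePred L] [i₂ : DecidablePred L']
    (h : ∀ s, L s ↔ L' s) (X : Matrix κ κ R) : detP L X = detP L' X := by
  have : L = L' := funext fun s => propext (h s)
  subst this
  have hi : i₁ = i₂ := Subsingleton.elim _ _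
  subst hi
  rfl

theorem detP_empty (L : κ → Prop) [DecidablePred L] (hL : ∀ s, ¬ L s) (X : Matrix κ κ R) :
    detP L X = 1 := by
  unfold detP
  haveI : IsEmpty {s // L s} := ⟨fun s => hL s.1 s.2⟩
  exact det_isEmpty

theorem detP_univ (X : Matrix κ κ R) : detP (fun _ => True) X = X.det := by
  unfold detP
  rw [← det_submatrix_equiv_self (Equiv.subtypeUnivEquiv (p := fun _ : κ => True)
    (fun _ => trivial)) X]
  rfl

/-- determinant of a stable block of a triangular matrix -/
theorem detP_blocks (f : κ → ℤ) (X : Matrix κ κ R) (hX : ∀ i j, f i < f j → X i j = 0)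
    (P : ℤ → Prop) [DecidablePred P] :
    detP (fun j => P (f j)) X =
      ∏ c ∈ (Finset.univ.image f).filter P, detP (fun j => f j = c) X := by
  have bt : BlockTriangular (X.submatrix (fun s : {s // P (f s)} => s.1)
      (fun s : {s // P (f s)} => s.1)) (fun s => - f s.1) := by
    intro s t hst
    simp only [neg_lt_neg_iff] at hst
    exact hX s.1 t.1 hst
  have himg : (Finset.univ.image fun s : {s // P (f s)} => - f s.1) =
      ((Finset.univ.image f).filter P).image (fun c => -c) := by
    ext c
    simp only [Finset.mem_image, Finset.mem_univ, true_and, Finset.mem_filter]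
    constructor
    · rintro ⟨s, rfl⟩
      exact ⟨f s.1, ⟨⟨s.1, rfl⟩, s.2⟩, rfl⟩
    · rintro ⟨c', ⟨⟨j, rfl⟩, hP⟩, rfl⟩
      exact ⟨⟨j, hP⟩, rfl⟩
  have h0 : detP (fun j => P (f j)) X = (X.submatrix (fun s : {s // P (f s)} => s.1)
      (fun s : {s // P (f s)} => s.1)).det := rfl
  rw [h0, bt.det, himg, Finset.prod_image (by intro a _ b _ h; exact neg_injective h)]
  apply Finset.prod_congr rfl
  intro c hc
  rw [Finset.mem_filter] at hc
  let e : {j // f j = c} ≃ {s : {s // P (f s)} // - f s.1 = -c} :=
    { toFun := fun j => ⟨⟨j.1, by rw [j.2]; exact hc.2⟩, by rw [j.2]⟩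
      invFun := fun s => ⟨s.1.1, neg_injective s.2⟩
      left_inv := fun j => rfl
      right_inv := fun s => rfl }
  rw [← det_submatrix_equiv_self e]
  rfl

theorem det_blocks (f : κ → ℤ) (X : Matrix κ κ R) (hX : ∀ i j, f i < f j → X i j = 0) :
    X.det = ∏ c ∈ Finset.univ.image f, detP (fun j => f j = c) X := by
  rw [← detP_univ, detP_blocks f X hX (fun _ => True)]
  apply Finset.prod_congr _ (fun _ _ => rfl)
  simp

theorem lo_unique (f : κ → ℤ) (a b : ℤ)
    (h : Fintype.card {s // f s < a} = Fintype.card {s // f s < b}) (s : κ) :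
    f s < a ↔ f s < b := by
  rw [Fintype.card_subtype, Fintype.card_subtype] at h
  rcases le_total a b with hab | hab
  · have hsub : (Finset.univ.filter fun s => f s < a) ⊆ Finset.univ.filter fun s => f s < b := by
      intro t ht
      simp only [Finset.mem_filter, Finset.mem_univ, true_and] at ht ⊢
      omega
    have h1 := Finset.eq_of_subset_of_card_le hsub h.symm.le
    have h2 := Finset.ext_iff.mp h1 s
    simpa using h2
  · have hsub : (Finset.univ.filter fun s => f s < b) ⊆ Finset.univ.filter fun s => f s < a := by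
      intro t ht
      simp only [Finset.mem_filter, Finset.mem_univ, true_and] at ht ⊢
      omega
    have h1 := Finset.eq_of_subset_of_card_le hsub h.le
    have h2 := Finset.ext_iff.mp h1 s
    simpa using h2.symm

end general

section sign

variable {R : Type} [CommRing R] {σ : Shape}

/-- product over the signs -/
theorem prod_sgn_colors (X : Matrix σ.Idx σ.Idx R) (k : ℤ → ℕ) :
    ∏ c ∈ Finset.univ.image σ.sgn, detP (fun j => σ.sgn j = c) X ^ k c =
      detP (fun j => σ.sgn j = 1) X ^ k 1 * detP (fun j => σ.sgn j = -1) X ^ k (-1) := by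
  have hsub : Finset.univ.image σ.sgn ⊆ {1, -1} := by
    intro c hc
    simp only [Finset.mem_image, Finset.mem_univ, true_and] at hc
    obtain ⟨j, rfl⟩ := hc
    rcases sgn_cases j with h | h <;> simp [h]
  rw [Finset.prod_subset hsub, Finset.prod_pair (by norm_num)]
  intro c _ hc
  rw [detP_empty, one_pow]
  intro s hs
  apply hc
  rw [← hs]
  exact Finset.mem_image_of_mem _ (Finset.mem_univ _)

theorem det_sgn (X : Matrix σ.Idx σ.Idx R) (hX : ∀ i j, σ.sgn i ≠ σ.sgn j → X i j = 0) :
    X.det = detP (fun j => σ.sgn j = 1) X * detP (fun j => σ.sgn j = -1) X := by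
  rw [det_blocks σ.sgn X (fun i j hij => hX i j hij.ne)]
  have := prod_sgn_colors X (fun _ => 1)
  simpa only [pow_one] using this

end sign

namespace Datum

variable {R : Type} [CommRing R] {σ : Shape} {w : ℤ} (M : Datum R σ w)

theorem detP_hi (c : ℤ) (hc : w < 2 * c) : detP (fun j => M.hodgeIdx j = c) M.b = 1 := by
  unfold detP
  have : M.b.submatrix (fun s : {j // M.hodgeIdx j = c} => s.1)
      (fun s : {j // M.hodgeIdx j = c} => s.1) = 1 := by
    ext s t
    obtain ⟨s, hs⟩ := s
    obtain ⟨t, ht⟩ := t
    rw [submatrix_apply, b_col]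
    rcases t with (t | t) | t
    · simp only [Sum.elim_inl]
      rw [M.hodgeIdx_hi] at ht
      rw [M.z_spec t s (by rw [hs, ht]; omega)]
      rw [Pi.single_apply, Matrix.one_apply]
      simp
    · exfalso
      rw [M.hodgeIdx_lo] at ht
      have := M.two_p t
      omega
    · exfalso
      rw [M.hodgeIdx_mid] at ht
      have := M.two_mid t
      omega
  rw [this, det_one]

theorem detP_lo (a : ℤ) (ha : 2 * a < w) :
    detP (fun j => M.hodgeIdx j = a) M.b = (M.lowBlock a).det := by
  let f : M.Block a → {j // M.hodgeIdx j = a} := fun i => ⟨Sum.inl (Sum.inr i.1), i.2⟩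
  have hf : Function.Bijective f := by
    constructor
    · intro i j hij
      have h1 := congrArg Subtype.val hij
      simp only [f] at h1
      apply Subtype.ext
      exact Sum.inr_injective (Sum.inl_injective h1)
    · rintro ⟨(j | j) | j, hj⟩
      · exfalso
        rw [M.hodgeIdx_hi] at hj
        have := M.two_p j
        omega
      · exact ⟨⟨j, hj⟩, rfl⟩
      · exfalso
        rw [M.hodgeIdx_mid] at hj
        have := M.two_mid j
        omega
  unfold detP
  rw [← det_submatrix_equiv_self (Equiv.ofBijective f hf)]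
  rfl

/-- the determinant of the middle block -/
noncomputable def beta : R := detP (fun j => 2 * M.hodgeIdx j = w) M.b

theorem image_low : (Finset.univ.image M.hodgeIdx).filter (fun c => 2 * c < w) =
    M.lowIndices := by
  ext c
  simp only [Finset.mem_filter, Finset.mem_image, Finset.mem_univ, true_and, lowIndices]
  constructor
  · rintro ⟨⟨(j | j) | j, rfl⟩, h⟩
    · exfalso
      rw [M.hodgeIdx_hi] at h
      have := M.two_p j
      omega
    · exact ⟨j, rfl⟩
    · exfalso
      rw [M.hodgeIdx_mid] at h
      have := M.two_mid j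
      omega
  · rintro ⟨j, rfl⟩
    refine ⟨⟨Sum.inl (Sum.inr j), rfl⟩, ?_⟩
    have := M.two_p j
    omega

/-- product over the Hodge indices of the powers of block determinants -/
theorem prod_colors (a : ℤ → ℕ) :
    ∏ c ∈ Finset.univ.image M.hodgeIdx, detP (fun j => M.hodgeIdx j = c) M.b ^ a c =
      (∏ c ∈ M.lowIndices, (M.lowBlock c).det ^ a c) * M.beta ^ a (w / 2) := by
  rw [← Finset.prod_filter_mul_prod_filter_not _ (fun c => 2 * c < w), M.image_low]
  congr 1
  · apply Finset.prod_congr rfl
    intro c hc
    rw [← M.image_low, Finset.mem_filter] at hc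
    rw [M.detP_lo c hc.2]
  · by_cases h : ∃ j, 2 * M.hodgeIdx j = w
    · obtain ⟨j, hj⟩ := h
      have hw : w / 2 = M.hodgeIdx j := by omega
      rw [hw, Finset.prod_eq_single (M.hodgeIdx j)]
      · congr 1
        unfold beta
        apply detP_congr
        intro s
        constructor
        · intro h
          rw [h, hj]
        · intro h
          omega
      · intro c hc hne
        rw [Finset.mem_filter] at hc
        have h1 : ¬ 2 * c < w := hc.2
        rw [M.detP_hi c (by omega), one_pow]
      · intro hc
        exfalso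
        apply hc
        rw [Finset.mem_filter]
        refine ⟨Finset.mem_image_of_mem _ (Finset.mem_univ _), ?_⟩
        omega
    · push Not at h
      have hb : M.beta = 1 := detP_empty _ h _
      rw [hb, one_pow]
      apply Finset.prod_eq_one
      intro c hc
      rw [Finset.mem_filter, Finset.mem_image] at hc
      obtain ⟨⟨j, _, rfl⟩, h2⟩ := hc
      have h3 := h j
      rw [M.detP_hi _ (by omega), one_pow]

/-- the determinant of the low part -/
noncomputable def dlow : R := ∏ c ∈ M.lowIndices, (M.lowBlock c).det

theorem det_b : M.b.det = M.dlow * M.beta := by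
  have := M.prod_colors (fun _ => 1)
  simp only [pow_one] at this
  unfold dlow
  rw [← this, det_blocks M.hodgeIdx M.b M.b_parabolic]

theorem detP_low : detP (fun j => 2 * M.hodgeIdx j < w) M.b = M.dlow := by
  rw [detP_blocks M.hodgeIdx M.b M.b_parabolic (fun c => 2 * c < w), M.image_low]
  unfold dlow
  apply Finset.prod_congr rfl
  intro c hc
  rw [← M.image_low, Finset.mem_filter] at hc
  rw [M.detP_lo c hc.2]

theorem detP_lowmid : detP (fun j => 2 * M.hodgeIdx j ≤ w) M.b = M.dlow * M.beta := by
  rw [← det_b, det_blocks M.hodgeIdx M.b M.b_parabolic,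
    detP_blocks M.hodgeIdx M.b M.b_parabolic (fun c => 2 * c ≤ w)]
  apply Finset.prod_filter_of_ne
  intro c _ hc
  by_contra h
  exact hc (M.detP_hi c (by omega))

theorem isUnit_dlow : IsUnit M.dlow := by
  have h := M.isUnit_det_b
  rw [M.det_b] at h
  exact isUnit_of_mul_isUnit_left h

theorem isUnit_beta : IsUnit M.beta := by
  have h := M.isUnit_det_b
  rw [M.det_b] at h
  exact isUnit_of_mul_isUnit_right h

theorem isUnit_lowBlock (a : ℤ) (ha : a ∈ M.lowIndices) : IsUnit (M.lowBlock a).det := by
  have h := M.isUnit_dlow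
  unfold dlow at h
  rw [← Finset.mul_prod_erase _ _ ha] at h
  exact isUnit_of_mul_isUnit_left h

theorem beta_eq_one (hm : σ.m = 0) (hr : σ.r = 0) : M.beta = 1 := by
  apply detP_empty
  rintro ((j | j) | (j | j)) h
  · rw [M.hodgeIdx_hi] at h
    have := M.two_p j
    omega
  · rw [M.hodgeIdx_lo] at h
    have := M.two_p j
    omega
  · exact absurd j.2 (by omega)
  · exact absurd j.2 (by omega)

end Datum

end Pool.Agent.MP100fe7T
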