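import Pool.Agent.Lib.MP_100fe7_nt.CmMain
import Pool.Agent.Lib.MP_100fe7_nt.TBlocks

/-!
The closed formula for the Deligne periods: final form.
-/

set_option linter.unusedSectionVars false

namespace Pool.Agent.MP100fe7Cm

open Matrix NumberField MP100fe7T MP100fe7L

theorem dim_unique {E : Type} [Field E] {κ : Type} [Fintype κ] [DecidableEq κ] {d d' : ℕ}
    {A : Matrix κ (Fin d) E} {A' : Matrix κ (Fin d') E}
    (hA : Function.Injective A.mulVec) (hA' : Function.Injective A'.mulVec)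
    (h : ∀ v, v ∈ Set.range A.mulVec ↔ v ∈ Set.range A'.mulVec) : d = d' := by
  have h1 : LinearMap.range A.mulVecLin = LinearMap.range A'.mulVecLin := by
    ext v
    exact h v
  have h2 : Module.finrank E (LinearMap.range A.mulVecLin) = Module.finrank E (Fin d → E) :=
    LinearMap.finrank_range_of_inj hA
  have h3 : Module.finrank E (LinearMap.range A'.mulVecLin) = Module.finrank E (Fin d' → E) :=
    LinearMap.finrank_range_of_inj hA'
  rw [h1, h3] at h2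
  simpa using h2.symm

variable {F : Type} [Field F] [NumberField F] [IsCMField F] {E : Type} [Field E] [NumberField E]
  {ι : Type} [Fintype ι] [DecidableEq ι] {n : ι → ℕ} {κ : Type} [Fintype κ] [DecidableEq κ]
  (ρ : Rep F E n κ) {w : ι → ℤ} (M : ∀ i, Datum F E (n i) (w i)) (hE : Split F E) (τ₀ : E →+* ℂ)

theorem height_lt {a₀ : ℤ} {s t : κ} (hs : isLo ρ M a₀ s) (ht : ¬ isLo ρ M a₀ t) :
    ρ.toPol.height (idx M) s < ρ.toPol.height (idx M) t := by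
  have key : ∀ s, ρ.hodgeIdx M s = ρ.toPol.height (idx M) s -
      ∑ t : Tot F E n, (ρ.twist t.1.1 : ℤ) * idx M t := by
    intro s
    unfold Rep.hodgeIdx PolRep.height
    rw [← Finset.sum_sub_distrib]
    apply Finset.sum_congr rfl
    intro t _
    unfold Rep.weight
    rw [sub_mul]
    rfl
  unfold isLo at hs ht
  rw [key] at hs ht
  omega

theorem sum_weight_low (a₀ : ℤ) (t : Tot F E n) : ∑ s ∈ ρ.lowPart M a₀, ρ.weight s t =
    ((∑ s with isLo ρ M a₀ s, ρ.wt s t : ℕ) : ℤ) - ρ.twist t.1.1 * (ρ.lowPart M a₀).card := by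
  unfold Rep.weight
  rw [Finset.sum_sub_distrib, Finset.sum_const, nsmul_eq_mul, filter_lo]
  push_cast
  ring

theorem sum_weight_two (a₀ : ℤ) (i : ι) (φ : F →+* E) (j : Fin (n i)) :
    ∑ s ∈ ρ.lowPart M a₀, (ρ.weight s ⟨(i, φ), j⟩ + ρ.weight s ⟨(i, bar φ), j⟩) =
      (mT ρ M a₀ ⟨(i, φ), j⟩ : ℤ) - 2 * ρ.twist i * (ρ.lowPart M a₀).card := by
  rw [Finset.sum_add_distrib, sum_weight_low, sum_weight_low]
  unfold mT
  rw [Finset.sum_add_distrib]
  push_cast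
  unfold barT
  ring

/-- The low part does not depend on the choice of the step of the filtration. -/
theorem low_unique {a₀ a : ℤ} {d : ℕ} {B : Matrix (Fin d) κ E} (hB : Function.Surjective B.mulVec)
    (hker : ∀ v : κ → E, B.mulVec v = 0 ↔ ∀ s, isLo ρ M a s → v s = 0)
    (hd : d = (ρ.lowPart M a₀).card) (s : κ) : isLo ρ M a s ↔ isLo ρ M a₀ s := by
  obtain ⟨ψ, -⟩ := exists_coords_quot (isLo ρ M a) B hB hker
  have h1 := Fintype.card_congr ψ
  rw [Fintype.card_fin] at h1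
  have h2 : Fintype.card {s // isLo ρ M a₀ s} = (ρ.lowPart M a₀).card := by
    rw [Fintype.card_subtype, filter_lo]
  exact lo_unique (fun s => ρ.hodgeIdx M s) a a₀ (by
    have h3 : Fintype.card {s // isLo ρ M a s} = Fintype.card {s // isLo ρ M a₀ s} := by
      rw [h2, ← hd, h1]
    convert h3 <;> exact Iff.rfl) s

/-- The closed formula for the Deligne periods of the motives `N = ρ(M)`. -/
theorem cm_periods (Φ : Finset (F →+* E)) (hΦ : ∀ φ, φ ∈ Φ ↔ bar φ ∉ Φ) :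
    (∀ i τ φ a, ∃ q : ℂ, q ≠ 0 ∧ ∀ q', (M i).IsHodgePeriod τ φ a q' ↔ q' = q) ∧
    (ρ.NoMiddle M → ∀ ε : E, ε = 1 ∨ ε = -1 →
      ρ.IsStep M hE τ₀ ε ((ρ.motWeight w + 1) / 2)) ∧
    ∀ (ε : E) (a₀ : ℤ), ε = 1 ∨ ε = -1 → ρ.IsStep M hE τ₀ ε a₀ →
      (∃ x, ρ.IsPeriod M hE τ₀ ε x) ∧
      ∃ (k : ι → ℤ) (S : ι → (F →+* E) → ℤ → ℤ) (u : (E →+* ℂ) → E),
        (∀ i φ j, k i = ∑ s ∈ ρ.lowPart M a₀,
          (ρ.weight s ⟨(i, φ), j⟩ + ρ.weight s ⟨(i, bar φ), j⟩)) ∧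
        (∀ i φ j, S i φ ((M i).p φ j) = ∑ s ∈ ρ.lowPart M a₀, ρ.weight s ⟨(i, φ), j⟩) ∧
        (∀ τ v, ρ.IsGalDet hE τ₀ ε (galElt hE τ τ₀) v ↔ v = u τ) ∧
        (∀ τ, u τ ^ Nat.card (Gal F E) = 1) ∧
        ∀ x, ρ.IsPeriod M hE τ₀ ε x → (∀ τ, x τ ≠ 0) ∧
          ∃ e : E, e ≠ 0 ∧ ∀ (τ : E →+* ℂ) (q : ι → (F →+* E) → ℤ → ℂ),
            (∀ i, ∀ φ ∈ Φ, ∀ a ∈ (M i).indices φ, (M i).IsHodgePeriod τ φ a (q i φ a)) →
            x τ = τ e * τ (u τ) * ∏ i, ∏ φ ∈ Φ, (((M i).comp τ (bar φ)).det ^ k i *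
              ∏ a ∈ (M i).indices φ, q i φ a ^ S i φ a) := by
  refine ⟨fun i τ φ a => ⟨_, (M i).block_unit τ φ a, fun q' => (M i).isHodgePeriod_iff τ φ a q'⟩,
    ?_, ?_⟩
  · intro hmid ε hε'
    apply isStep_of_noMiddle ρ M hE τ₀ hmid
    rcases hε' with rfl | rfl
    · exact one_mul 1
    · ring
  intro ε a₀ hε' hst
  have hε : ε * ε = 1 := by
    rcases hε' with rfl | rfl
    · exact one_mul 1
    · ring
  obtain ⟨A₀, hA₀, hr₀⟩ := hst
  obtain ⟨B₀, hB₀, hker₀⟩ := exists_B ρ M a₀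
  obtain ⟨L₀, hL₀⟩ := MP100fe7L.exists_left A₀ hA₀
  obtain ⟨a, ha1, ha2⟩ := detP_parabolic ρ.toPol (idx M) (isLo ρ M a₀)
    (fun s t hs ht => height_lt ρ M hs ht)
  classical
  let k : ι → ℤ := fun i => if h : Nonempty (Fin (n i)) ∧ Nonempty (F →+* E) then
    (mT ρ M a₀ ⟨(i, h.2.some), h.1.some⟩ : ℤ) - 2 * ρ.twist i * (ρ.lowPart M a₀).card else 0
  have hk : ∀ i φ j, k i = (mT ρ M a₀ ⟨(i, φ), j⟩ : ℤ) -
      2 * ρ.twist i * (ρ.lowPart M a₀).card := by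
    intro i φ j
    have h : Nonempty (Fin (n i)) ∧ Nonempty (F →+* E) := ⟨⟨j⟩, ⟨φ⟩⟩
    simp only [k, dif_pos h]
    rw [mT_eq ρ M hE τ₀ hL₀ hε hr₀ hA₀ hB₀ hker₀ Φ hΦ i _ φ _ j]
  let S : ι → (F →+* E) → ℤ → ℤ := fun i φ c =>
    (a (i, φ) c : ℤ) - ρ.twist i * (ρ.lowPart M a₀).card
  have hS : ∀ i φ j, S i φ ((M i).p φ j) = ∑ s ∈ ρ.lowPart M a₀, ρ.weight s ⟨(i, φ), j⟩ := by
    intro i φ j
    have h2 : a (i, φ) ((M i).p φ j) = ∑ s with isLo ρ M a₀ s, ρ.wt s ⟨(i, φ), j⟩ :=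
      ha1 (i, φ) j
    simp only [S]
    rw [h2, sum_weight_low]
  choose u hu1 hu2 using fun τ => exists_galDet ρ M hE τ₀ hε ⟨A₀, hA₀, hr₀⟩ (galElt hE τ τ₀)
  refine ⟨⟨_, a₀, _, A₀, B₀, hA₀, hr₀, hB₀, hker₀, fun τ => rfl⟩, k, S, u, ?_, hS, ?_, hu2, ?_⟩
  · intro i φ j
    rw [hk i φ j, sum_weight_two]
  · intro τ v
    constructor
    · intro h
      exact isGalDet_unique ρ hE τ₀ h (hu1 τ)
    · rintro rfl
      exact hu1 τ
  intro x hx
  obtain ⟨a₁, d, A, B, hA, hr, hB, hker₁, hx⟩ := hx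
  obtain ⟨L, hL⟩ := MP100fe7L.exists_left A hA
  have hd : d = (ρ.lowPart M a₀).card := dim_unique hA hA₀ (fun v => by rw [hr, hr₀])
  have hker : ∀ v : κ → E, B.mulVec v = 0 ↔ ∀ s, isLo ρ M a₀ s → v s = 0 := by
    intro v
    have h1 := hker₁ v
    rw [h1]
    have h2 := low_unique ρ M hB hker₁ hd
    constructor
    · intro h s hs
      exact h s ((h2 s).mpr hs)
    · intro h s hs
      exact h s ((h2 s).mp hs)
  obtain ⟨k', hk1, hk2⟩ := exists_k ρ M hE τ₀ hL hε hr hA hB hker Φ hΦ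
  have hu : ∀ τ, (L * ρ.perm (galElt hE τ τ₀) * A).det = u τ := by
    intro τ
    exact isGalDet_unique ρ hE τ₀ ⟨d, A, _, hA, hr, perm_act ρ hE τ₀ hL hε hr _, rfl⟩ (hu1 τ)
  have hkI : ∀ (τ : E →+* ℂ) (q : ι × (F →+* E)), q.2 ∈ Φ →
      dv M τ q ^ ((k' q : ℤ) - 2 * ρ.twist q.1 * d) = dv M τ q ^ k q.1 := by
    intro τ q hq
    obtain ⟨i, φ⟩ := q
    dsimp only at hq ⊢
    rcases Nat.eq_zero_or_pos (n i) with h0 | h0
    · have h1 : dv M τ (i, φ) = 1 := by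
        unfold dv
        haveI : IsEmpty (Fin (n i)) := by
          rw [h0]
          infer_instance
        exact det_isEmpty
      rw [h1, _root_.one_zpow, _root_.one_zpow]
    · rw [hk i φ ⟨0, h0⟩, hk1 i φ ⟨0, h0⟩ hq, hd]
  have hform : ∀ τ, x τ = τ (B * A).det * τ (u τ) * ∏ q ∈ Finset.univ ×ˢ Φ,
      (dv M τ q ^ k q.1 * ∏ c ∈ (M q.1).indices q.2, Qv M τ q c ^ S q.1 q.2 c) := by
    intro τ
    rw [hx τ, main_formula ρ M hE τ₀ Φ hΦ hL hε hr hB hker k' hk2 a ha2 τ, hu τ]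
    congr 1
    apply Finset.prod_congr rfl
    intro q hq
    have hq' : q.2 ∈ Φ := (Finset.mem_product.mp hq).2
    congr 1
    · exact hkI τ q hq'
    · apply Finset.prod_congr rfl
      intro c _
      simp only [S]
      rw [hd]
  have he : (B * A).det ≠ 0 := det_BA_ne ρ M hE τ₀ hε hr hA hB hker
  refine ⟨?_, (B * A).det, he, ?_⟩
  · intro τ
    rw [hform τ]
    apply mul_ne_zero (mul_ne_zero _ _)
    · rw [Finset.prod_ne_zero_iff]
      intro q _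
      apply mul_ne_zero
      · exact zpow_ne_zero _ (dv_ne M τ q)
      · rw [Finset.prod_ne_zero_iff]
        intro c _
        exact zpow_ne_zero _ (Qv_ne M τ q c)
    · exact (map_ne_zero τ).mpr he
    · rw [map_ne_zero τ]
      intro h
      have h1 := hu2 τ
      rw [h, zero_pow Nat.card_pos.ne'] at h1
      exact zero_ne_one h1
  · intro τ q hq
    rw [hform τ, Finset.prod_product]
    congr 1
    apply Finset.prod_congr rfl
    intro i _
    apply Finset.prod_congr rfl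
    intro φ hφ
    congr 1
    apply Finset.prod_congr rfl
    intro c hc
    rw [((M i).isHodgePeriod_iff τ φ c _).mp (hq i φ hφ c hc)]
    rfl

end Pool.Agent.MP100fe7Cm
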