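import Pool.Agent.Lib.MP_100fe7_nt.TEmb

/-!
Determinants of a matrix between coordinate subspaces and quotients, in arbitrary bases.
-/

set_option linter.unusedSectionVars false

namespace Pool.Agent.MP100fe7T

open Matrix

variable {κ : Type} [Fintype κ] [DecidableEq κ]

section coords

variable {E : Type} [Field E] {R : Type} [CommRing R] [Algebra E R] {d : ℕ}

theorem map_mul_map {α β γ : Type} [Fintype β]
    (X : Matrix α β E) (Y : Matrix β γ E) :
    (X * Y).map (algebraMap E R) = X.map (algebraMap E R) * Y.map (algebraMap E R) := by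
  rw [Matrix.map_mul]

/-- coordinates of the subspace -/
theorem exists_coords_sub (sg : κ → Prop) [DecidablePred sg] (A : Matrix κ (Fin d) E)
    (hinj : Function.Injective A.mulVec)
    (hran : ∀ v : κ → E, v ∈ Set.range A.mulVec ↔ ∀ s, ¬ sg s → v s = 0) :
    ∃ (φ : Fin d ≃ {s // sg s}) (G : Matrix (Fin d) (Fin d) E), IsUnit G.det ∧
      A = (1 : Matrix κ κ E).submatrix id (fun i => (φ i).1) * G := by
  have h0 : ∀ s, ¬ sg s → ∀ j, A s j = 0 := by
    intro s hs j
    have h1 : A.mulVec (Pi.single j 1) ∈ Set.range A.mulVec := ⟨_, rfl⟩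
    rw [hran] at h1
    simpa using h1 s hs
  -- the restricted map is bijective
  let A₀ : Matrix {s // sg s} (Fin d) E := A.submatrix Subtype.val id
  have hA₀ : ∀ x s, A₀.mulVec x s = A.mulVec x s.1 := fun x s => rfl
  have hb : Function.Bijective A₀.mulVecLin := by
    constructor
    · intro x y hxy
      apply hinj
      funext s
      by_cases hs : sg s
      · exact congrFun hxy ⟨s, hs⟩
      · simp only [mulVec, dotProduct, h0 s hs, zero_mul, Finset.sum_const_zero]
    · intro y
      have h1 : (fun s => if h : sg s then y ⟨s, h⟩ else 0) ∈ Set.range A.mulVec := by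
        rw [hran]
        intro s hs
        simp [hs]
      obtain ⟨x, hx⟩ := h1
      refine ⟨x, ?_⟩
      funext s
      rw [mulVecLin_apply, hA₀, hx]
      simp [s.2]
  let e := LinearEquiv.ofBijective _ hb
  have hd : d = Fintype.card {s // sg s} := by
    have := e.finrank_eq
    simpa using this
  let φ : Fin d ≃ {s // sg s} := (finCongr hd).trans (Fintype.equivFin _).symm
  refine ⟨φ, A.submatrix (fun i => (φ i).1) id, ?_, ?_⟩
  · rw [← isUnit_iff_isUnit_det, ← mulVec_injective_iff_isUnit]
    intro x y hxy
    apply hb.1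
    funext s
    have h1 := congrFun hxy (φ.symm s)
    simp only [mulVec, dotProduct, submatrix_apply, Equiv.apply_symm_apply, id_eq] at h1
    simpa only [mulVecLin_apply, mulVec, dotProduct, A₀, submatrix_apply, id_eq] using h1
  · ext s j
    rw [Matrix.mul_apply]
    by_cases hs : sg s
    · rw [Finset.sum_eq_single (φ.symm ⟨s, hs⟩)]
      · rw [submatrix_apply, submatrix_apply, Equiv.apply_symm_apply]
        change A s j = (1 : Matrix κ κ E) s s * A s j
        rw [Matrix.one_apply_eq, one_mul]
      · intro k _ hk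
        rw [submatrix_apply, id_eq, Matrix.one_apply_ne, zero_mul]
        intro h
        apply hk
        rw [Equiv.eq_symm_apply]
        exact Subtype.ext h.symm
      · simp
    · rw [h0 s hs]
      symm
      apply Finset.sum_eq_zero
      intro k _
      rw [submatrix_apply, id_eq, Matrix.one_apply_ne, zero_mul]
      intro h
      apply hs
      rw [h]
      exact (φ k).2

/-- coordinates of the quotient -/
theorem exists_coords_quot (lo : κ → Prop) [DecidablePred lo] (B : Matrix (Fin d) κ E)
    (hsurj : Function.Surjective B.mulVec)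
    (hker : ∀ v : κ → E, B.mulVec v = 0 ↔ ∀ s, lo s → v s = 0) :
    ∃ (ψ : Fin d ≃ {s // lo s}) (G : Matrix (Fin d) (Fin d) E), IsUnit G.det ∧
      B = G * (1 : Matrix κ κ E).submatrix (fun i => (ψ i).1) id := by
  have h0 : ∀ s, ¬ lo s → ∀ j, B j s = 0 := by
    intro s hs j
    have h1 := (hker (Pi.single s 1)).mpr (by
      intro t ht
      apply Pi.single_eq_of_ne
      rintro rfl
      exact hs ht)
    have h2 := congrFun h1 j
    simpa using h2
  let B₀ : Matrix (Fin d) {s // lo s} E := B.submatrix id Subtype.val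
  have hB₀ : ∀ v : κ → E, B₀.mulVec (fun s => v s.1) = B.mulVec v := by
    intro v
    funext j
    simp only [mulVec, dotProduct, B₀, submatrix_apply, id_eq]
    rw [← Fintype.sum_subtype_add_sum_subtype lo (fun s => B j s * v s)]
    rw [left_eq_add]
    apply Finset.sum_eq_zero
    intro s _
    rw [h0 s.1 s.2, zero_mul]
  have hb : Function.Bijective B₀.mulVecLin := by
    constructor
    · rw [← LinearMap.ker_eq_bot, LinearMap.ker_eq_bot']
      intro v hv
      have h1 : B.mulVec (fun s => if h : lo s then v ⟨s, h⟩ else 0) = 0 := by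
        rw [← hB₀]
        have : (fun s : {s // lo s} => (if h : lo s.1 then v ⟨s.1, h⟩ else 0)) = v := by
          funext s
          simp [s.2]
        rw [this]
        exact hv
      rw [hker] at h1
      funext s
      have h2 := h1 s.1 s.2
      simpa [s.2] using h2
    · intro y
      obtain ⟨v, hv⟩ := hsurj y
      exact ⟨fun s => v s.1, by rw [mulVecLin_apply, hB₀, hv]⟩
  let e := LinearEquiv.ofBijective _ hb
  have hd : d = Fintype.card {s // lo s} := by
    have := e.finrank_eq
    simpa using this.symm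
  let ψ : Fin d ≃ {s // lo s} := (finCongr hd).trans (Fintype.equivFin _).symm
  refine ⟨ψ, B.submatrix id (fun i => (ψ i).1), ?_, ?_⟩
  · rw [← isUnit_iff_isUnit_det, ← mulVec_injective_iff_isUnit]
    intro x y hxy
    have h1 : (fun s => x (ψ.symm s)) = (fun s => y (ψ.symm s)) := by
      apply hb.1
      funext j
      have h2 := congrFun hxy j
      simp only [mulVec, dotProduct, submatrix_apply, id_eq] at h2
      simp only [mulVecLin_apply, mulVec, dotProduct, B₀, submatrix_apply, id_eq]
      rw [← Equiv.sum_comp ψ, ← Equiv.sum_comp ψ]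
      simpa using h2
    funext i
    have h2 := congrFun h1 (ψ i)
    simpa using h2
  · ext j s
    rw [Matrix.mul_apply]
    by_cases hs : lo s
    · rw [Finset.sum_eq_single (ψ.symm ⟨s, hs⟩)]
      · rw [submatrix_apply, submatrix_apply, Equiv.apply_symm_apply]
        change B j s = B j s * (1 : Matrix κ κ E) s s
        rw [Matrix.one_apply_eq, mul_one]
      · intro k _ hk
        simp only [submatrix_apply, id_eq]
        rw [Matrix.one_apply_ne, mul_zero]
        intro h
        apply hk
        rw [Equiv.eq_symm_apply]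
        exact Subtype.ext h
      · simp
    · rw [h0 s hs]
      symm
      apply Finset.sum_eq_zero
      intro k _
      simp only [submatrix_apply, id_eq]
      rw [Matrix.one_apply_ne, mul_zero]
      intro h
      apply hs
      have h7 : (ψ k).1 = s := h
      rw [← h7]
      exact (ψ k).2

/-- `x` is the determinant of `X` from the coordinate subspace `sg` to the coordinate quotient
`lo`, in some `E`-bases. -/
def IsPer (E : Type) [Field E] {R : Type} [CommRing R] [Algebra E R] (lo sg : κ → Prop)
    (X : Matrix κ κ R) (x : R) : Prop :=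
  ∃ (d : ℕ) (A : Matrix κ (Fin d) E) (B : Matrix (Fin d) κ E),
    Function.Injective A.mulVec ∧
    (∀ v : κ → E, v ∈ Set.range A.mulVec ↔ ∀ s, ¬ sg s → v s = 0) ∧
    Function.Surjective B.mulVec ∧
    (∀ v : κ → E, B.mulVec v = 0 ↔ ∀ s, lo s → v s = 0) ∧
    x = (B.map (algebraMap E R) * X * A.map (algebraMap E R)).det

theorem submatrix_two (X : Matrix κ κ R) (ψ φ : Fin d → κ) :
    ((1 : Matrix κ κ E).submatrix ψ id).map (algebraMap E R) * X *
      ((1 : Matrix κ κ E).submatrix id φ).map (algebraMap E R) = X.submatrix ψ φ := by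
  have h2 : ((1 : Matrix κ κ E).submatrix ψ id).map (algebraMap E R) =
      (1 : Matrix κ κ R).submatrix ψ id := by
    ext i j
    simp [Matrix.one_apply]
  have h3 : ((1 : Matrix κ κ E).submatrix id φ).map (algebraMap E R) =
      (1 : Matrix κ κ R).submatrix id φ := by
    ext i j
    simp [Matrix.one_apply]
  rw [h2, h3]
  have h4 : X = X.submatrix id id := by simp
  conv_lhs => rw [h4]
  rw [← Matrix.submatrix_mul _ _ _ _ _ Function.bijective_id, Matrix.one_mul,
    ← Matrix.submatrix_mul _ _ _ _ _ Function.bijective_id, Matrix.mul_one]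

theorem IsPer.coords {lo sg : κ → Prop} [DecidablePred lo] [DecidablePred sg]
    {X : Matrix κ κ R} {x : R} (h : IsPer E lo sg X x) :
    ∃ (d : ℕ) (ψ : Fin d ≃ {s // lo s}) (φ : Fin d ≃ {s // sg s}) (e : Eˣ),
      x = algebraMap E R e * (X.submatrix (fun i => (ψ i).1) (fun i => (φ i).1)).det := by
  obtain ⟨d, A, B, h1, h2, h3, h4, rfl⟩ := h
  obtain ⟨φ, G, hG, hA⟩ := exists_coords_sub sg A h1 h2
  obtain ⟨ψ, G', hG', hB⟩ := exists_coords_quot lo B h3 h4
  obtain ⟨u, hu⟩ := hG
  obtain ⟨u', hu'⟩ := hG'
  refine ⟨d, ψ, φ, u' * u, ?_⟩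
  rw [hA, hB, map_mul_map, map_mul_map]
  have h5 : G'.map (algebraMap E R) *
      ((1 : Matrix κ κ E).submatrix (fun i => (ψ i).1) id).map (algebraMap E R) * X *
      (((1 : Matrix κ κ E).submatrix id (fun i => (φ i).1)).map (algebraMap E R) *
        G.map (algebraMap E R)) =
      G'.map (algebraMap E R) *
      (((1 : Matrix κ κ E).submatrix (fun i => (ψ i).1) id).map (algebraMap E R) * X *
      ((1 : Matrix κ κ E).submatrix id (fun i => (φ i).1)).map (algebraMap E R)) *
        G.map (algebraMap E R) := by
    simp only [Matrix.mul_assoc]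
  rw [h5, submatrix_two, det_mul, det_mul]
  have h6 : (G'.map (algebraMap E R)).det = algebraMap E R G'.det :=
    (RingHom.map_det (algebraMap E R) G').symm
  have h7 : (G.map (algebraMap E R)).det = algebraMap E R G.det :=
    (RingHom.map_det (algebraMap E R) G).symm
  rw [h6, h7, ← hu, ← hu', Units.val_mul, map_mul]
  ring

theorem isPer_of_coords (lo sg : κ → Prop) [DecidablePred lo] [DecidablePred sg]
    (X : Matrix κ κ R) {d : ℕ} (ψ : Fin d ≃ {s // lo s}) (φ : Fin d ≃ {s // sg s}) :
    IsPer E lo sg X (X.submatrix (fun i => (ψ i).1) (fun i => (φ i).1)).det := by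
  refine ⟨d, (1 : Matrix κ κ E).submatrix id (fun j => (φ j).1),
    (1 : Matrix κ κ E).submatrix (fun j => (ψ j).1) id, ?_, ?_, ?_, ?_, ?_⟩
  · intro x y hxy
    funext j
    have h1 := congrFun hxy (φ j).1
    simp only [mulVec, dotProduct, submatrix_apply, id_eq, Matrix.one_apply] at h1
    have h2 : ∀ (x : Fin d → E),
        ∑ i, (if (φ j).1 = (φ i).1 then (1 : E) else 0) * x i = x j := by
      intro x
      rw [Finset.sum_eq_single j]
      · simp
      · intro i _ hi
        rw [if_neg, zero_mul]
        intro h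
        exact hi (φ.injective (Subtype.ext h)).symm
      · simp
    rw [h2, h2] at h1
    exact h1
  · intro v
    constructor
    · rintro ⟨x, rfl⟩ s hs
      simp only [mulVec, dotProduct, submatrix_apply, id_eq, Matrix.one_apply]
      apply Finset.sum_eq_zero
      intro i _
      rw [if_neg, zero_mul]
      rintro rfl
      exact hs (φ i).2
    · intro hv
      refine ⟨fun i => v (φ i).1, ?_⟩
      funext s
      simp only [mulVec, dotProduct, submatrix_apply, id_eq, Matrix.one_apply]
      by_cases hs : sg s
      · rw [Finset.sum_eq_single (φ.symm ⟨s, hs⟩)]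
        · simp
        · intro i _ hi
          rw [if_neg, zero_mul]
          intro h
          apply hi
          rw [Equiv.eq_symm_apply]
          exact Subtype.ext h.symm
        · simp
      · rw [hv s hs]
        apply Finset.sum_eq_zero
        intro i _
        rw [if_neg, zero_mul]
        rintro rfl
        exact hs (φ i).2
  · intro y
    refine ⟨fun s => if h : lo s then y (ψ.symm ⟨s, h⟩) else 0, ?_⟩
    funext j
    simp only [mulVec, dotProduct, submatrix_apply, id_eq, Matrix.one_apply]
    rw [Finset.sum_eq_single (ψ j).1]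
    · simp [(ψ j).2]
    · intro s _ hs
      rw [if_neg (Ne.symm hs), zero_mul]
    · simp
  · intro v
    constructor
    · intro h s hs
      have h1 := congrFun h (ψ.symm ⟨s, hs⟩)
      simp only [mulVec, dotProduct, submatrix_apply, id_eq, Matrix.one_apply,
        Equiv.apply_symm_apply, Pi.zero_apply] at h1
      rw [Finset.sum_eq_single s] at h1
      · simpa using h1
      · intro t _ ht
        rw [if_neg (Ne.symm ht), zero_mul]
      · simp
    · intro h
      funext j
      simp only [mulVec, dotProduct, submatrix_apply, id_eq, Matrix.one_apply, Pi.zero_apply]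
      apply Finset.sum_eq_zero
      intro s _
      by_cases hs : (ψ j).1 = s
      · rw [h s (by rw [← hs]; exact (ψ j).2), mul_zero]
      · rw [if_neg hs, zero_mul]
  · rw [submatrix_two]

end coords

section mult

variable {R : Type} [CommRing R] {d : ℕ} {lo sg : κ → Prop} [DecidablePred lo] [DecidablePred sg]
  (ψ : Fin d ≃ {s // lo s}) (φ : Fin d ≃ {s // sg s})

theorem submatrix_mul_left (X Y : Matrix κ κ R) (hX : ∀ s t, lo s → ¬ lo t → X s t = 0) :
    (X * Y).submatrix (fun i => (ψ i).1) (fun i => (φ i).1) =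
      X.submatrix (fun i => (ψ i).1) (fun i => (ψ i).1) *
        Y.submatrix (fun i => (ψ i).1) (fun i => (φ i).1) := by
  ext i j
  rw [submatrix_apply, Matrix.mul_apply, Matrix.mul_apply,
    ← Fintype.sum_subtype_add_sum_subtype lo]
  have h1 : ∑ t : {t // ¬ lo t}, X (ψ i).1 t.1 * Y t.1 (φ j).1 = 0 := by
    apply Finset.sum_eq_zero
    intro t _
    rw [hX _ _ (ψ i).2 t.2, zero_mul]
  rw [h1, add_zero, ← Equiv.sum_comp ψ]
  rfl

theorem submatrix_mul_right (X Y : Matrix κ κ R) (hY : ∀ s t, ¬ sg s → sg t → Y s t = 0) :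
    (X * Y).submatrix (fun i => (ψ i).1) (fun i => (φ i).1) =
      X.submatrix (fun i => (ψ i).1) (fun i => (φ i).1) *
        Y.submatrix (fun i => (φ i).1) (fun i => (φ i).1) := by
  ext i j
  rw [submatrix_apply, Matrix.mul_apply, Matrix.mul_apply,
    ← Fintype.sum_subtype_add_sum_subtype sg]
  have h1 : ∑ t : {t // ¬ sg t}, X (ψ i).1 t.1 * Y t.1 (φ j).1 = 0 := by
    apply Finset.sum_eq_zero
    intro t _
    rw [hY _ _ t.2 (φ j).2, mul_zero]
  rw [h1, add_zero, ← Equiv.sum_comp φ]
  rfl

theorem det_submatrix_self (X : Matrix κ κ R) :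
    (X.submatrix (fun i => (ψ i).1) (fun i => (ψ i).1)).det = detP lo X := by
  unfold detP
  have : X.submatrix (fun i => (ψ i).1) (fun i => (ψ i).1) =
      (X.submatrix (fun s : {s // lo s} => s.1) (fun s : {s // lo s} => s.1)).submatrix ψ ψ := rfl
  rw [this, det_submatrix_equiv_self]

/-- the determinant of a product parabolic times anything times block diagonal -/
theorem det_three (X Y Z : Matrix κ κ R) (hX : ∀ s t, lo s → ¬ lo t → X s t = 0)
    (hZ : ∀ s t, ¬ sg s → sg t → Z s t = 0) :
    ((X * Y * Z).submatrix (fun i => (ψ i).1) (fun i => (φ i).1)).det =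
      detP lo X * (Y.submatrix (fun i => (ψ i).1) (fun i => (φ i).1)).det * detP sg Z := by
  rw [submatrix_mul_right ψ φ _ _ hZ, submatrix_mul_left ψ φ _ _ hX, det_mul, det_mul,
    det_submatrix_self ψ, det_submatrix_self φ]

end mult

/-- nonvanishing of the determinant for the split datum -/
theorem det_split_ne_zero {E : Type} [Field E] {d : ℕ} {lo sg : κ → Prop} [DecidablePred lo]
    [DecidablePred sg] (ψ : Fin d ≃ {s // lo s}) (φ : Fin d ≃ {s // sg s})
    (Y Y' N : Matrix κ κ E) (D : κ → E) (ε : E) (hY : Y' * Y = 1)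
    (hNY : N * Y = Y * diagonal D) (hD : ∀ s, sg s → D s = ε)
    (hcut : ∀ y : κ → E, (∀ s, lo s → y s = 0) → N.mulVec y = ε • y → y = 0) :
    (Y.submatrix (fun i => (ψ i).1) (fun i => (φ i).1)).det ≠ 0 := by
  intro hdet
  obtain ⟨x, hx0, hx⟩ := Matrix.exists_mulVec_eq_zero_iff.mpr hdet
  let v : κ → E := fun s => if h : sg s then x (φ.symm ⟨s, h⟩) else 0
  have hv : ∀ i, v (φ i).1 = x i := by
    intro i
    simp [v, (φ i).2]
  have hv0 : ∀ s, ¬ sg s → v s = 0 := by
    intro s hs
    simp [v, hs]
  let y : κ → E := Y.mulVec v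
  have hy : ∀ s, lo s → y s = 0 := by
    intro s hs
    have h1 := congrFun hx (ψ.symm ⟨s, hs⟩)
    simp only [mulVec, dotProduct, submatrix_apply, Equiv.apply_symm_apply, Pi.zero_apply] at h1
    simp only [y, mulVec, dotProduct]
    rw [← Fintype.sum_subtype_add_sum_subtype sg]
    have h2 : ∑ t : {t // ¬ sg t}, Y s t.1 * v t.1 = 0 := by
      apply Finset.sum_eq_zero
      intro t _
      rw [hv0 _ t.2, mul_zero]
    rw [h2, add_zero, ← Equiv.sum_comp φ]
    simpa only [hv] using h1
  have hDv : (diagonal D).mulVec v = ε • v := by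
    funext s
    rw [mulVec_diagonal, Pi.smul_apply, smul_eq_mul]
    by_cases hs : sg s
    · rw [hD s hs]
    · rw [hv0 s hs, mul_zero, mul_zero]
  have hNy : N.mulVec y = ε • y := by
    simp only [y]
    rw [mulVec_mulVec, hNY, ← mulVec_mulVec, hDv, mulVec_smul]
  have hy0 := hcut y hy hNy
  have hvz : v = 0 := by
    have h1 : Y'.mulVec y = v := by
      simp only [y]
      rw [mulVec_mulVec, hY, one_mulVec]
    rw [← h1, hy0, mulVec_zero]
  apply hx0
  funext i
  rw [← hv i, hvz]
  rfl

end Pool.Agent.MP100fe7T
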