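import Pool.Agent.Lib.MP_100fe7_nt.LLevi
import Pool.Agent.Lib.MP_100fe7_nt.TCoord

/-!
The determinant of a parabolic family on the low part; the centraliser of an involution acts on its
eigenspaces.
-/

set_option linter.unusedSectionVars false

namespace Pool.Agent.MP100fe7L

open Matrix MP100fe7T

section parabolic

variable {E : Type} [Field E] {Q : Type} [Fintype Q] [DecidableEq Q] {J : Q → Type}
  [∀ q, Fintype (J q)] [∀ q, DecidableEq (J q)] {κ : Type} [Fintype κ] [DecidableEq κ]
  (ρ : PolRep E J κ)

/-- the height of the basis vector `s` -/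
def PolRep.height (idx : Tot J → ℤ) (s : κ) : ℤ := ∑ t, (ρ.wt s t : ℤ) * idx t

/-- The determinant of `ρ(b)` on the low part, for `b` block triangular. -/
theorem detP_parabolic [CharZero E] (idx : Tot J → ℤ) (lo : κ → Prop) [DecidablePred lo]
    (hlo : ∀ s t, lo s → ¬ lo t → ρ.height idx s < ρ.height idx t) :
    ∃ a : Q → ℤ → ℕ, (∀ q j, a q (idx ⟨q, j⟩) = ∑ s with lo s, ρ.wt s ⟨q, j⟩) ∧
      ∀ (R : Type) [CommRing R] [Algebra E R] (b : Fam J R),
        (∀ q j j', idx ⟨q, j⟩ < idx ⟨q, j'⟩ → b q j j' = 0) →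
        (∀ s t, lo s → ¬ lo t → ρ.pol R b s t = 0) ∧
        detP lo (ρ.pol R b) = ∏ q, ∏ c ∈ colors idx q, (blk idx b q c).det ^ a q c := by
  have hhi : ∀ (S : Type) [CommRing S] [Algebra E S] (l : Fam J S), IsLevi idx l →
      ∀ s t, lo s → ¬ lo t → ρ.pol S l s t = 0 := by
    intro S _ _ l hl s t hs ht
    apply ρ.pol_parabolic idx l _ s t (hlo s t hs ht)
    intro i j j' hjj
    exact hl i j j' (ne_of_lt hjj)
  obtain ⟨a, ha1, ha2⟩ := levi_char ρ lo idx hhi
  refine ⟨a, ha1, ?_⟩
  intro R _ _ b hb
  refine ⟨fun s t hs ht => ρ.pol_parabolic idx b hb s t (hlo s t hs ht), ?_⟩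
  let b' : Fam J R := fun i => Matrix.of fun j j' =>
    if idx ⟨i, j⟩ = idx ⟨i, j'⟩ then b i j j' else 0
  have hb'L : IsLevi idx b' := by
    intro i j j' hne
    simp only [b', of_apply]
    rw [if_neg hne]
  have hb1 : detP lo (ρ.pol R b) = detP lo (ρ.pol R b') := by
    unfold detP
    have bt : ∀ Z : Matrix κ κ R, (∀ s t, ρ.height idx s < ρ.height idx t → Z s t = 0) →
        BlockTriangular (Z.submatrix (fun s : {s // lo s} => s.1)
          (fun s : {s // lo s} => s.1)) (fun s => - ρ.height idx s.1) := by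
      intro Z hZ s t hst
      simp only [neg_lt_neg_iff] at hst
      exact hZ s.1 t.1 hst
    rw [(bt _ (fun s t hst => ρ.pol_parabolic idx b hb s t hst)).det,
      (bt _ (fun s t hst => ρ.pol_parabolic idx b' (fun i j j' hjj =>
        hb'L i j j' (ne_of_lt hjj)) s t hst)).det]
    apply Finset.prod_congr rfl
    intro c _
    congr 1
    ext s t
    simp only [toSquareBlock_def, of_apply, submatrix_apply]
    apply ρ.pol_diagBlocks idx b b' hb (fun i j j' => rfl)
    have h1 := s.2
    have h2 := t.2
    unfold PolRep.height at h1 h2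
    omega
  have hb2 : ∀ i c, blk idx b' i c = blk idx b i c := by
    intro i c
    ext s t
    simp only [blk, submatrix_apply, b', of_apply]
    rw [if_pos (s.2.trans t.2.symm)]
  rw [hb1, ha2 R b' hb'L]
  simp only [hb2]

end parabolic

section low

variable {E : Type} [Field E] {κ : Type} [Fintype κ] [DecidableEq κ] {d : ℕ}

/-- A parabolic matrix acts on the quotient by its low block. -/
theorem det_low (lo : κ → Prop) [DecidablePred lo] (B : Matrix (Fin d) κ E)
    (hsurj : Function.Surjective B.mulVec)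
    (hker : ∀ v : κ → E, B.mulVec v = 0 ↔ ∀ s, lo s → v s = 0) (R : Type) [CommRing R]
    [Algebra E R] (X : Matrix κ κ R) (hX : ∀ s t, lo s → ¬ lo t → X s t = 0)
    (Y : Matrix κ (Fin d) R) :
    (B.map (algebraMap E R) * X * Y).det = detP lo X * (B.map (algebraMap E R) * Y).det := by
  obtain ⟨ψ, G, -, hG⟩ := exists_coords_quot lo B hsurj hker
  have h1 : B.map (algebraMap E R) = G.map (algebraMap E R) *
      (1 : Matrix κ κ R).submatrix (fun i => (ψ i).1) id := by
    rw [hG, Matrix.map_mul]
    congr 1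
    ext i j
    simp [Matrix.one_apply]
  have h2 : (1 : Matrix κ κ R).submatrix (fun i => (ψ i).1) id * X =
      X.submatrix (fun i => (ψ i).1) (fun i => (ψ i).1) *
        (1 : Matrix κ κ R).submatrix (fun i => (ψ i).1) id := by
    ext i t
    rw [Matrix.mul_apply, Matrix.mul_apply, Finset.sum_eq_single (ψ i).1]
    · rw [submatrix_apply, id_eq, Matrix.one_apply_eq, one_mul]
      by_cases ht : lo t
      · rw [Finset.sum_eq_single (ψ.symm ⟨t, ht⟩)]
        · rw [submatrix_apply, submatrix_apply, id_eq, Equiv.apply_symm_apply,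
            Matrix.one_apply_eq, mul_one]
        · intro j _ hj
          rw [submatrix_apply, submatrix_apply, id_eq, Matrix.one_apply_ne, mul_zero]
          intro h
          apply hj
          rw [Equiv.eq_symm_apply]
          exact Subtype.ext h
        · simp
      · rw [hX _ _ (ψ i).2 ht]
        symm
        apply Finset.sum_eq_zero
        intro j _
        rw [submatrix_apply, submatrix_apply, id_eq, Matrix.one_apply_ne, mul_zero]
        intro h
        apply ht
        rw [← h]
        exact (ψ j).2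
    · intro s _ hs
      rw [submatrix_apply, id_eq, Matrix.one_apply_ne (Ne.symm hs), zero_mul]
    · simp
  rw [h1, Matrix.mul_assoc (G.map (algebraMap E R)), h2, ← Matrix.mul_assoc, Matrix.mul_assoc,
    det_mul, det_mul, Matrix.mul_assoc, det_mul, det_submatrix_self ψ]
  ring

end low

section eigen

variable {E : Type} [Field E] [CharZero E] {κ : Type} [Fintype κ] [DecidableEq κ] {d : ℕ}

theorem isUnit_two (S : Type) [CommRing S] [Algebra E S] : IsUnit (2 : S) := by
  have h1 : IsUnit (2 : E) := (two_ne_zero).isUnit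
  have h2 := h1.map (algebraMap E S)
  rwa [map_ofNat] at h2

/-- left inverse -/
theorem exists_left (A : Matrix κ (Fin d) E) (hA : Function.Injective A.mulVec) :
    ∃ L : Matrix (Fin d) κ E, L * A = 1 := by
  obtain ⟨g, hg⟩ := LinearMap.exists_leftInverse_of_injective A.mulVecLin
    (LinearMap.ker_eq_bot.mpr hA)
  refine ⟨LinearMap.toMatrix' g, ?_⟩
  have h1 : LinearMap.toMatrix' (g ∘ₗ A.mulVecLin) = 1 := by
    rw [hg, LinearMap.toMatrix'_id]
  rw [LinearMap.toMatrix'_comp] at h1
  have h2 : LinearMap.toMatrix' A.mulVecLin = A := by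
    rw [← Matrix.toLin'_apply', LinearMap.toMatrix'_toLin']
  rwa [h2] at h1

variable {C : Matrix κ κ E} (hC : C * C = 1) {ε : E} (hε : ε * ε = 1) {A : Matrix κ (Fin d) E}
  (hr : ∀ v : κ → E, v ∈ Set.range A.mulVec ↔ C.mulVec v = ε • v)

include hr in
theorem eigen_mul : C * A = ε • A := by
  ext s j
  have h1 := (hr (A.mulVec (Pi.single j 1))).mp ⟨_, rfl⟩
  rw [mulVec_mulVec] at h1
  have h2 := congrFun h1 s
  simpa using h2

include hC hε hr in
theorem eigen_proj {L : Matrix (Fin d) κ E} (hL : L * A = 1) :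
    A * L * (1 + ε • C) = 1 + ε • C := by
  have h1 : ∀ v : κ → E, C.mulVec v = ε • v → (A * L).mulVec v = v := by
    intro v hv
    obtain ⟨x, rfl⟩ := (hr v).mpr hv
    rw [mulVec_mulVec, Matrix.mul_assoc, hL, Matrix.mul_one]
  have h2 : C * (1 + ε • C) = ε • (1 + ε • C) := by
    rw [Matrix.mul_add, Matrix.mul_one, Matrix.mul_smul, hC, smul_add, smul_smul, hε, one_smul,
      add_comm]
  ext s j
  have h3 : C.mulVec ((1 + ε • C).mulVec (Pi.single j 1)) =
      ε • (1 + ε • C).mulVec (Pi.single j 1) := by
    rw [mulVec_mulVec, h2, smul_mulVec]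
  have h4 := congrFun (h1 _ h3) s
  rw [mulVec_mulVec] at h4
  simpa using h4

include hC hε hr in
/-- The matrices commuting with the involution act on the eigenspace. -/
theorem eigen_stable {L : Matrix (Fin d) κ E} (hL : L * A = 1) (R : Type) [CommRing R]
    [Algebra E R] (X : Matrix κ κ R)
    (hX : X * C.map (algebraMap E R) = C.map (algebraMap E R) * X) :
    X * A.map (algebraMap E R) = A.map (algebraMap E R) *
      (L.map (algebraMap E R) * X * A.map (algebraMap E R)) := by
  have h1 := congrArg (fun Y : Matrix κ κ E => Y.map (algebraMap E R))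
    (eigen_proj hC hε hr hL)
  have h2 := congrArg (fun Y : Matrix κ (Fin d) E => Y.map (algebraMap E R)) (eigen_mul hr)
  simp only [Matrix.map_mul] at h1 h2
  have hsm : ∀ (m : Type) (Y : Matrix κ m E), (ε • Y).map (algebraMap E R) =
      algebraMap E R ε • Y.map (algebraMap E R) := by
    intro m Y
    ext i j
    simp
  have h3 : (1 + ε • C).map (algebraMap E R) =
      1 + algebraMap E R ε • C.map (algebraMap E R) := by
    rw [← hsm, Matrix.map_add (algebraMap E R) (map_add _)]
    congr 1
    exact Matrix.map_one _ (map_zero _) (map_one _)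
  rw [h3] at h1
  rw [hsm] at h2
  have hee : algebraMap E R ε * algebraMap E R ε = 1 := by
    rw [← map_mul, hε, map_one]
  set a := algebraMap E R ε
  set A' := A.map (algebraMap E R)
  set C' := C.map (algebraMap E R)
  set L' := L.map (algebraMap E R)
  have h4 : C' * (X * A') = a • (X * A') := by
    rw [← Matrix.mul_assoc, ← hX, Matrix.mul_assoc, h2, Matrix.mul_smul]
  have h5 : (1 + a • C') * (X * A') = (2 : R) • (X * A') := by
    rw [Matrix.add_mul, Matrix.one_mul, Matrix.smul_mul, h4, smul_smul, hee, one_smul, two_smul]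
  have h6 : A' * L' * ((2 : R) • (X * A')) = (2 : R) • (X * A') := by
    rw [← h5, ← Matrix.mul_assoc, h1]
  rw [Matrix.mul_smul] at h6
  obtain ⟨u, hu⟩ := isUnit_two (E := E) R
  have h7 : A' * L' * (X * A') = X * A' := by
    rw [← hu] at h6
    have h8 := congrArg (fun Y : Matrix κ (Fin d) R => (↑u⁻¹ : R) • Y) h6
    simp only [smul_smul, Units.inv_mul, one_smul] at h8
    exact h8
  rw [← h7]
  simp only [Matrix.mul_assoc]

end eigen

end Pool.Agent.MP100fe7L
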