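import Pool.Agent.Lib.MP_100fe7_nt.CmDefs
import Pool.Agent.Lib.MP_100fe7_nt.LPer

/-!
The Galois group, complex conjugation, and the weights of a representation of the `L`-group.
-/

set_option linter.unusedSectionVars false

namespace Pool.Agent.MP100fe7Cm

open Matrix NumberField

variable {F : Type} [Field F] [NumberField F] {E : Type} [Field E] [NumberField E]

section gal

theorem galElt_spec (hE : Split F E) (τ τ' : E →+* ℂ) (φ : F →+* E) :
    τ.comp ((galElt hE τ τ').1 φ) = τ'.comp φ := galEquiv_spec hE τ τ' φ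

theorem comp_injective (τ : E →+* ℂ) {φ φ' : F →+* E} (h : τ.comp φ = τ.comp φ') : φ = φ' := by
  apply RingHom.ext
  intro x
  apply τ.injective
  exact RingHom.congr_fun h x

/-- The Galois group is transitive. -/
theorem exists_gal (hE : Split F E) (φ φ' : F →+* E) : ∃ g : Gal F E, g.1 φ = φ' := by
  obtain ⟨τ⟩ : Nonempty (E →+* ℂ) := inferInstance
  letI := φ.toAlgebra
  letI : Algebra F ℂ := (τ.comp φ').toAlgebra
  haveI : Algebra.IsAlgebraic F E := by
    haveI : IsScalarTower ℚ F E := IsScalarTower.of_algebraMap_eq' (by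
      apply Subsingleton.elim)
    exact Algebra.IsAlgebraic.tower_top (K := ℚ) F
  let τ' : E →ₐ[F] ℂ := IsAlgClosed.lift
  have h1 : τ'.toRingHom.comp φ = τ.comp φ' := by
    apply RingHom.ext
    intro x
    exact τ'.commutes x
  refine ⟨galElt hE τ τ'.toRingHom, ?_⟩
  apply comp_injective τ
  rw [galElt_spec, h1]

variable [IsCMField F]

theorem comp_bar (τ : E →+* ℂ) (φ : F →+* E) :
    τ.comp (bar φ) = (starRingEnd ℂ).comp (τ.comp φ) := by
  apply RingHom.ext
  intro x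
  exact IsCMField.complexEmbedding_complexConj F (τ.comp φ) x

theorem bar_bar (φ : F →+* E) : bar (bar φ) = φ := by
  obtain ⟨τ⟩ : Nonempty (E →+* ℂ) := inferInstance
  apply comp_injective τ
  rw [comp_bar, comp_bar]
  apply RingHom.ext
  intro x
  simp

theorem bar_ne (φ : F →+* E) : bar φ ≠ φ := by
  obtain ⟨τ⟩ : Nonempty (E →+* ℂ) := inferInstance
  intro h
  have h1 : ¬ ComplexEmbedding.IsReal (τ.comp φ) :=
    InfinitePlace.not_isReal_iff_isComplex.mpr (IsTotallyComplex.isComplex _) ∘ fun h =>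
      ⟨τ.comp φ, h, rfl⟩
  apply h1
  have h2 := comp_bar τ φ
  rw [h] at h2
  exact h2.symm

/-- Complex conjugation as an element of the Galois group. -/
noncomputable def cElt (hE : Split F E) (τ₀ : E →+* ℂ) : Gal F E :=
  galElt hE τ₀ ((starRingEnd ℂ).comp τ₀)

theorem cElt_apply (hE : Split F E) (τ₀ : E →+* ℂ) (φ : F →+* E) :
    (cElt hE τ₀).1 φ = bar φ := by
  apply comp_injective τ₀
  unfold cElt
  rw [galElt_spec, comp_bar]
  rfl

theorem gal_bar (g : Gal F E) (φ : F →+* E) : g.1 (bar φ) = bar (g.1 φ) := by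
  obtain ⟨g, hg⟩ := g
  change g (bar φ) = bar (g φ)
  unfold Gal at hg
  induction hg using Subgroup.closure_induction generalizing φ with
  | mem g hg =>
    obtain ⟨τ, τ', h⟩ := hg
    apply comp_injective τ
    rw [h, comp_bar, comp_bar, h]
  | one => rfl
  | mul g g' _ _ h h' =>
    change g (g' (bar φ)) = bar (g (g' φ))
    rw [h', h]
  | inv g _ h =>
    apply g.injective
    rw [h]
    simp

theorem cElt_sq (hE : Split F E) (τ₀ : E →+* ℂ) : cElt hE τ₀ * cElt hE τ₀ = 1 := by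
  apply Subtype.ext
  apply Equiv.ext
  intro φ
  change (cElt hE τ₀).1 ((cElt hE τ₀).1 φ) = φ
  rw [cElt_apply, cElt_apply, bar_bar]

theorem cElt_comm (hE : Split F E) (τ₀ : E →+* ℂ) (g : Gal F E) :
    cElt hE τ₀ * g = g * cElt hE τ₀ := by
  apply Subtype.ext
  apply Equiv.ext
  intro φ
  change (cElt hE τ₀).1 (g.1 φ) = g.1 ((cElt hE τ₀).1 φ)
  rw [cElt_apply, cElt_apply, gal_bar]

end gal

namespace Rep

variable {ι : Type} [Fintype ι] [DecidableEq ι] {n : ι → ℕ} {κ : Type} [Fintype κ]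
  [DecidableEq κ] (ρ : Rep F E n κ)

/-- the polynomial part -/
noncomputable def toPol : MP100fe7L.PolRep E (fun q : ι × (F →+* E) => Fin (n q.1)) κ where
  mat := ρ.mat
  wt := ρ.wt
  tdeg := ∑ i, ρ.deg i
  sum_wt s := by
    rw [Fintype.sum_sigma, Fintype.sum_prod_type]
    apply Finset.sum_congr rfl
    intro i _
    exact ρ.sum_wt s i
  map_mul := ρ.map_mul
  map_diagonal := ρ.map_diagonal

theorem perm_pol (g : Gal F E) (S : Type) [CommRing S] [Algebra E S] (A : Fam F E n S) :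
    (ρ.perm g).map (algebraMap E S) * ρ.toPol.pol S (fun q => A (q.1, g.1 q.2)) =
      ρ.toPol.pol S A * (ρ.perm g).map (algebraMap E S) := ρ.perm_mul g S A

theorem perm_mul_inv (g : Gal F E) : ρ.perm g * ρ.perm g⁻¹ = 1 := by
  rw [← _root_.map_mul, mul_inv_cancel, map_one]

/-- The matrix of a Galois element relates the weight spaces. -/
theorem wt_perm (g : Gal F E) (s t : κ) (h : ρ.perm g s t ≠ 0) (i : ι) (φ : F →+* E)
    (j : Fin (n i)) : ρ.wt s ⟨(i, g.1 φ), j⟩ = ρ.wt t ⟨(i, φ), j⟩ := by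
  let P := Polynomial E
  let t₀ : Tot F E n := ⟨(i, g.1 φ), j⟩
  let x : Tot F E n → P := Function.update (1 : Tot F E n → P) t₀ Polynomial.X
  have h1 := ρ.perm_pol g P (MP100fe7L.fdiag x)
  have h2 : (fun q : ι × (F →+* E) => (MP100fe7L.fdiag x : Fam F E n P) (q.1, g.1 q.2)) =
      MP100fe7L.fdiag (fun t : Tot F E n => x ⟨(t.1.1, g.1 t.1.2), t.2⟩) := rfl
  rw [h2, ρ.toPol.pol_diag, ρ.toPol.pol_diag] at h1
  have h3 := congrFun (congrFun h1 s) t
  rw [mul_diagonal, diagonal_mul, Matrix.map_apply] at h3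
  have h4 : ∏ q : Tot F E n, x q ^ ρ.toPol.wt s q = Polynomial.X ^ ρ.wt s t₀ := by
    rw [Finset.prod_eq_single t₀]
    · simp only [x, Function.update_self]
      rfl
    · intro q _ hq
      simp only [x]
      rw [Function.update_of_ne hq]
      simp
    · simp
  have h5 : ∏ q : Tot F E n, x ⟨(q.1.1, g.1 q.1.2), q.2⟩ ^ ρ.toPol.wt t q =
      Polynomial.X ^ ρ.wt t ⟨(i, φ), j⟩ := by
    rw [Finset.prod_eq_single (⟨(i, φ), j⟩ : Tot F E n)]
    · have : (⟨(i, g.1 φ), j⟩ : Tot F E n) = t₀ := rfl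
      simp only [x]
      rw [this, Function.update_self]
      rfl
    · rintro ⟨⟨i', φ'⟩, j'⟩ _ hq
      simp only [x]
      rw [Function.update_of_ne]
      · simp
      · intro h'
        apply hq
        simp only [t₀, Sigma.mk.injEq, Prod.mk.injEq] at h'
        obtain ⟨⟨rfl, h6⟩, h7⟩ := h'
        have h8 := g.1.injective h6
        subst h8
        rw [eq_of_heq h7]
    · simp
  rw [h4, h5] at h3
  have h6 : (Polynomial.C (ρ.perm g s t) : P) ≠ 0 := Polynomial.C_ne_zero.mpr h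
  have h7 : (algebraMap E P) (ρ.perm g s t) = Polynomial.C (ρ.perm g s t) := rfl
  rw [h7, mul_comm] at h3
  have h8 := mul_right_cancel₀ h6 h3
  have h9 := congrArg Polynomial.natDegree h8
  simpa using h9.symm

theorem exists_perm (g : Gal F E) : ∃ r : Equiv.Perm κ, ∀ t, ρ.perm g (r t) t ≠ 0 := by
  have h1 : (ρ.perm g).det ≠ 0 := by
    have h2 := congrArg Matrix.det (ρ.perm_mul_inv g)
    rw [det_mul, det_one] at h2
    exact left_ne_zero_of_mul_eq_one h2
  rw [det_apply] at h1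
  obtain ⟨r, -, hr⟩ := Finset.exists_ne_zero_of_sum_ne_zero h1
  refine ⟨r, ?_⟩
  intro t ht
  apply hr
  have h3 : ∏ i, ρ.perm g (r i) i = 0 := Finset.prod_eq_zero (Finset.mem_univ t) ht
  rw [h3, smul_zero]

/-- The sum of all weights at a basis vector does not depend on the embedding. -/
theorem sum_wt_eq (hE : Split F E) (i : ι) (φ φ' : F →+* E) (j : Fin (n i)) :
    ∑ s, ρ.wt s ⟨(i, φ), j⟩ = ∑ s, ρ.wt s ⟨(i, φ'), j⟩ := by
  obtain ⟨g, rfl⟩ := exists_gal hE φ φ'
  obtain ⟨r, hr⟩ := ρ.exists_perm g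
  rw [← Equiv.sum_comp r (fun s => ρ.wt s ⟨(i, g.1 φ), j⟩)]
  apply Finset.sum_congr rfl
  intro s _
  exact (ρ.wt_perm g _ _ (hr s) i φ j).symm

section hodge

variable [IsCMField F] {w : ι → ℤ} (M : ∀ i, Datum F E (n i) (w i))

theorem barEquiv_sum (f : (F →+* E) → ℤ) : ∑ φ, f (bar φ) = ∑ φ, f φ := by
  let e : Equiv.Perm (F →+* E) :=
    { toFun := bar, invFun := bar, left_inv := bar_bar, right_inv := bar_bar }
  exact Equiv.sum_comp e f

theorem hodgeIdx_add (hE : Split F E) (τ₀ : E →+* ℂ) (s t : κ) (h : ρ.frob hE τ₀ s t ≠ 0) :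
    ρ.hodgeIdx M s + ρ.hodgeIdx M t = ρ.motWeight w := by
  have hw : ∀ i φ j, ρ.weight s ⟨(i, bar φ), j⟩ = ρ.weight t ⟨(i, φ), j⟩ := by
    intro i φ j
    unfold weight
    rw [← cElt_apply hE τ₀ φ]
    have := ρ.wt_perm (cElt hE τ₀) s t h i φ j
    rw [this]
  unfold hodgeIdx motWeight
  rw [Fintype.sum_sigma, Fintype.sum_prod_type, Fintype.sum_sigma, Fintype.sum_prod_type,
    ← Finset.sum_add_distrib]
  apply Finset.sum_congr rfl
  intro i _
  rw [← barEquiv_sum, ← Finset.sum_add_distrib]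
  have h1 : ∀ φ : F →+* E, (∑ j, ρ.weight s ⟨(i, bar φ), j⟩ * (M i).p (bar φ) j) +
      ∑ j, ρ.weight t ⟨(i, φ), j⟩ * (M i).p φ j = (∑ j, ρ.weight t ⟨(i, φ), j⟩) * w i := by
    intro φ
    rw [← Finset.sum_add_distrib, Finset.sum_mul]
    apply Finset.sum_congr rfl
    intro j _
    rw [hw, (M i).p_bar]
    ring
  rw [Finset.sum_congr rfl (fun φ _ => h1 φ), ← Finset.sum_mul]
  congr 1
  unfold weight
  have h2 := ρ.sum_wt t i
  rw [← h2]
  push_cast
  simp only [Finset.sum_sub_distrib, Finset.sum_const, Finset.card_univ, Fintype.card_fin,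
    nsmul_eq_mul]
  ring

end hodge

end Rep

end Pool.Agent.MP100fe7Cm
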