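import Pool.Agent.Lib.MP_100fe7_nt.CmExist

/-!
The exponents of the determinant of a symmetric family on the eigenspaces of `F_∞`.
-/

set_option linter.unusedSectionVars false

namespace Pool.Agent.MP100fe7Cm

open Matrix NumberField MP100fe7T

variable {F : Type} [Field F] [NumberField F] [IsCMField F] {E : Type} [Field E] [NumberField E]
  {ι : Type} [Fintype ι] [DecidableEq ι] {n : ι → ℕ} {κ : Type} [Fintype κ] [DecidableEq κ]
  (ρ : Rep F E n κ) {w : ι → ℤ} (M : ∀ i, Datum F E (n i) (w i)) (hE : Split F E) (τ₀ : E →+* ℂ)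

/-- the conjugate index -/
noncomputable def barT (t : Tot F E n) : Tot F E n := ⟨(t.1.1, bar t.1.2), t.2⟩

theorem barT_barT (t : Tot F E n) : barT (barT t) = t := by
  obtain ⟨⟨i, φ⟩, j⟩ := t
  unfold barT
  dsimp only
  rw [bar_bar]

theorem barT_ne (t : Tot F E n) : barT t ≠ t := by
  obtain ⟨⟨i, φ⟩, j⟩ := t
  intro h
  have h1 := congrArg (fun t : Tot F E n => t.1.2) h
  exact bar_ne φ h1

/-- a symmetric function -/
noncomputable def xT (t₀ : Tot F E n) : Tot F E n → Polynomial E :=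
  fun t => if t = t₀ ∨ t = barT t₀ then Polynomial.X else 1

theorem xT_bar (t₀ t : Tot F E n) : xT t₀ (barT t) = xT t₀ t := by
  unfold xT
  have h : (barT t = t₀ ∨ barT t = barT t₀) ↔ (t = t₀ ∨ t = barT t₀) := by
    constructor
    · rintro (h | h)
      · right
        rw [← h, barT_barT]
      · left
        rw [← barT_barT t, h, barT_barT]
    · rintro (h | h)
      · right
        rw [h]
      · left
        rw [h, barT_barT]
  simp only [h]

theorem xT_sym (t₀ : Tot F E n) : IsSym (MP100fe7L.fdiag (xT t₀) : Fam F E n (Polynomial E)) := by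
  intro i φ
  unfold MP100fe7L.fdiag
  congr 1
  funext j
  exact xT_bar t₀ ⟨(i, φ), j⟩

theorem prod_xT (t₀ : Tot F E n) (m : Tot F E n → ℕ) :
    ∏ t, xT t₀ t ^ m t = Polynomial.X ^ (m t₀ + m (barT t₀)) := by
  have h1 : ∏ t ∈ ({t₀, barT t₀} : Finset (Tot F E n)), xT t₀ t ^ m t =
      Polynomial.X ^ (m t₀ + m (barT t₀)) := by
    rw [Finset.prod_pair (barT_ne t₀).symm, pow_add]
    unfold xT
    simp
  rw [← h1]
  symm
  apply Finset.prod_subset (Finset.subset_univ _)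
  intro t _ ht
  rw [Finset.mem_insert, Finset.mem_singleton] at ht
  unfold xT
  rw [if_neg ht, one_pow]

theorem det_xT (i : ι) (φ : F →+* E) (j : Fin (n i)) {Φ : Finset (F →+* E)}
    (hΦ : ∀ φ, φ ∈ Φ ↔ bar φ ∉ Φ) (hφ : φ ∈ Φ) (k : ι × (F →+* E) → ℕ) :
    ∏ q ∈ Finset.univ ×ˢ Φ, ((MP100fe7L.fdiag (xT ⟨(i, φ), j⟩) : Fam F E n (Polynomial E)) q).det ^
      k q = Polynomial.X ^ k (i, φ) := by
  rw [Finset.prod_eq_single (i, φ)]
  · congr 1
    unfold MP100fe7L.fdiag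
    rw [det_diagonal, Finset.prod_eq_single j]
    · unfold xT
      rw [if_pos (Or.inl rfl)]
    · intro j' _ hj'
      unfold xT
      rw [if_neg]
      rintro (h | h)
      · apply hj'
        exact eq_of_heq (Sigma.mk.inj_iff.mp h).2
      · have h1 := congrArg (fun t : Tot F E n => t.1.2) h
        exact bar_ne φ h1.symm
    · simp
  · rintro ⟨i', φ'⟩ hq hne
    have hφ' : φ' ∈ Φ := (Finset.mem_product.mp hq).2
    unfold MP100fe7L.fdiag
    rw [det_diagonal, Finset.prod_eq_one, one_pow]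
    intro j' _
    unfold xT
    rw [if_neg]
    rintro (h | h)
    · exact hne (congrArg (fun t : Tot F E n => t.1) h)
    · have h1 : φ' = bar φ := congrArg (fun t : Tot F E n => t.1.2) h
      rw [h1] at hφ'
      exact ((hΦ φ).mp hφ) hφ'
  · intro h
    exact absurd (Finset.mem_product.mpr ⟨Finset.mem_univ _, hφ⟩) h

section

variable {d : ℕ} {A : Matrix κ (Fin d) E} {B : Matrix (Fin d) κ E} {L : Matrix (Fin d) κ E}
  (hL : L * A = 1) {ε : E} (hε : ε * ε = 1)
  (hr : ∀ v : κ → E, v ∈ Set.range A.mulVec ↔ (ρ.frob hE τ₀).mulVec v = ε • v)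
  (hA : Function.Injective A.mulVec) (hB : Function.Surjective B.mulVec) {a₀ : ℤ}
  (hker : ∀ v : κ → E, B.mulVec v = 0 ↔ ∀ s, isLo ρ M a₀ s → v s = 0)

include hL hε hr hB hker in
/-- The determinant of a parabolic family times a symmetric family. -/
theorem det_formula {S : Type} [CommRing S] [Algebra E S] (b h : Fam F E n S) (hh : IsSym h)
    (hb : ∀ s t, isLo ρ M a₀ s → ¬ isLo ρ M a₀ t → ρ.toPol.pol S b s t = 0) :
    (B.map (algebraMap E S) * ρ.toPol.pol S (b * h) * A.map (algebraMap E S)).det =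
      detP (isLo ρ M a₀) (ρ.toPol.pol S b) * algebraMap E S (B * A).det *
        (act ρ L A S h).det := by
  have h1 := pol_act ρ hE τ₀ hL hε hr h hh
  have h2 : (B.map (algebraMap E S) * A.map (algebraMap E S)).det =
      algebraMap E S (B * A).det := by
    rw [← Matrix.map_mul, RingHom.map_det]
    rfl
  rw [ρ.toPol.pol_mul, ← Matrix.mul_assoc, Matrix.mul_assoc _ (ρ.toPol.pol S h), h1,
    MP100fe7L.det_low (isLo ρ M a₀) B hB hker S _ hb, ← Matrix.mul_assoc, det_mul, h2, mul_assoc]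

/-- the exponent -/
noncomputable def mT (a₀ : ℤ) (t : Tot F E n) : ℕ :=
  ∑ s with isLo ρ M a₀ s, (ρ.wt s t + ρ.wt s (barT t))

theorem mT_bar (t : Tot F E n) : mT ρ M a₀ (barT t) = mT ρ M a₀ t := by
  unfold mT
  simp only [barT_barT, add_comm]

include hL hε hr hA hB hker in
theorem det_act_xT (t₀ : Tot F E n) :
    (act ρ L A (Polynomial E) (MP100fe7L.fdiag (xT t₀))).det =
      Polynomial.X ^ mT ρ M a₀ t₀ := by
  have h1 := det_formula ρ M hE τ₀ hL hε hr hB hker (S := Polynomial E)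
    (MP100fe7L.fdiag (xT t₀)) 1 sym_one (by
      intro s t hs ht
      rw [ρ.toPol.pol_diag, diagonal_apply_ne]
      rintro rfl
      exact ht hs)
  have h2 := det_formula ρ M hE τ₀ hL hε hr hB hker (S := Polynomial E)
    1 (MP100fe7L.fdiag (xT t₀)) (xT_sym t₀) (by
      intro s t hs ht
      rw [ρ.toPol.pol_one, Matrix.one_apply_ne]
      rintro rfl
      exact ht hs)
  rw [mul_one] at h1
  rw [one_mul, h1, act_one ρ hL, det_one, mul_one, ρ.toPol.pol_one, detP_one, one_mul, mul_comm]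
    at h2
  have h3 : algebraMap E (Polynomial E) (B * A).det ≠ 0 := by
    rw [Polynomial.algebraMap_apply, Algebra.algebraMap_self_apply]
    exact Polynomial.C_ne_zero.mpr (det_BA_ne ρ M hE τ₀ hε hr hA hB hker)
  have h4 := mul_left_cancel₀ h3 h2
  rw [ρ.toPol.pol_diag, detP_diagonal] at h4
  have h5 : ∀ s, ∏ t, xT t₀ t ^ ρ.toPol.wt s t =
      Polynomial.X ^ (ρ.wt s t₀ + ρ.wt s (barT t₀)) := fun s => prod_xT t₀ _
  rw [Finset.prod_congr rfl (fun s _ => h5 s), Finset.prod_pow_eq_pow_sum] at h4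
  exact h4.symm

include hL hε hr hA hB hker in
theorem exists_k (Φ : Finset (F →+* E)) (hΦ : ∀ φ, φ ∈ Φ ↔ bar φ ∉ Φ) :
    ∃ k : ι × (F →+* E) → ℕ, (∀ i φ j, φ ∈ Φ → k (i, φ) = mT ρ M a₀ ⟨(i, φ), j⟩) ∧
      ∀ (S : Type) [CommRing S] [Algebra E S] (h : Fam F E n S),
        IsSym h → (act ρ L A S h).det = ∏ q ∈ Finset.univ ×ˢ Φ, (h q).det ^ k q := by
  obtain ⟨k, hk⟩ := sym_char ρ hE τ₀ hL hε hr Φ hΦ
  refine ⟨k, ?_, hk⟩
  intro i φ j hφ
  have h4 := det_act_xT ρ M hE τ₀ hL hε hr hA hB hker ⟨(i, φ), j⟩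
  rw [hk _ _ (xT_sym _), det_xT i φ j hΦ hφ k] at h4
  have h6 := congrArg Polynomial.natDegree h4
  rwa [Polynomial.natDegree_X_pow, Polynomial.natDegree_X_pow] at h6

include hL hε hr in
/-- The determinant on the eigenspace is invariant under the Galois group. -/
theorem det_act_gal {S : Type} [CommRing S] [Algebra E S] (h : Fam F E n S) (hh : IsSym h)
    (g : Gal F E) : (act ρ L A S (fun q => h (q.1, g.1 q.2))).det = (act ρ L A S h).det := by
  have hg : ∀ g : Gal F E, (ρ.perm g).map (algebraMap E S) * A.map (algebraMap E S) =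
      A.map (algebraMap E S) * (L * ρ.perm g * A).map (algebraMap E S) := by
    intro g
    rw [← Matrix.map_mul, ← Matrix.map_mul, ← perm_act ρ hE τ₀ hL hε hr g]
  have h1 := ρ.perm_pol g S h
  have h2 := pol_act ρ hE τ₀ hL hε hr h hh
  have hsym : IsSym (fun q : ι × (F →+* E) => h (q.1, g.1 q.2)) := by
    intro i φ
    simp only
    rw [gal_bar]
    exact hh i _
  have h3 := pol_act ρ hE τ₀ hL hε hr _ hsym
  -- both sides of `perm g * pol (h ∘ g) * A`
  have h4 : A.map (algebraMap E S) * ((L * ρ.perm g * A).map (algebraMap E S) *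
      act ρ L A S (fun q => h (q.1, g.1 q.2))) = A.map (algebraMap E S) *
      (act ρ L A S h * (L * ρ.perm g * A).map (algebraMap E S)) := by
    rw [← Matrix.mul_assoc, ← hg, Matrix.mul_assoc, ← h3, ← Matrix.mul_assoc, h1,
      Matrix.mul_assoc, hg, ← Matrix.mul_assoc, h2, Matrix.mul_assoc]
  have h5 : L.map (algebraMap E S) * A.map (algebraMap E S) = 1 := by
    rw [← Matrix.map_mul, hL]
    exact Matrix.map_one _ (map_zero _) (map_one _)
  have h6 := congrArg (fun Y => L.map (algebraMap E S) * Y) h4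
  simp only [← Matrix.mul_assoc] at h6
  rw [h5, Matrix.one_mul, Matrix.one_mul] at h6
  have h7 := congrArg Matrix.det h6
  rw [det_mul, det_mul, mul_comm] at h7
  have h8 : IsUnit ((L * ρ.perm g * A).map (algebraMap E S)).det := by
    have h9 : (L * ρ.perm g * A) * (L * ρ.perm g⁻¹ * A) = 1 := by
      rw [← perm_act_mul ρ hE τ₀ hL hε hr, mul_inv_cancel, perm_act_one ρ hL]
    have h10 : (L * ρ.perm g * A).map (algebraMap E S) *
        (L * ρ.perm g⁻¹ * A).map (algebraMap E S) = 1 := by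
      rw [← Matrix.map_mul, h9]
      exact Matrix.map_one _ (map_zero _) (map_one _)
    exact Matrix.isUnit_det_of_right_inverse h10
  exact h8.mul_right_cancel h7

include hL hε hr hA hB hker in
theorem mT_gal (i : ι) (φ φ' : F →+* E) (j : Fin (n i)) :
    mT ρ M a₀ ⟨(i, φ), j⟩ = mT ρ M a₀ ⟨(i, φ'), j⟩ := by
  obtain ⟨g, hg⟩ := exists_gal hE φ φ'
  have h1 := det_act_gal ρ hE τ₀ hL hε hr (S := Polynomial E)
    (MP100fe7L.fdiag (xT ⟨(i, φ'), j⟩)) (xT_sym _) g
  have h2 : (fun q : ι × (F →+* E) => (MP100fe7L.fdiag (xT ⟨(i, φ'), j⟩) :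
      Fam F E n (Polynomial E)) (q.1, g.1 q.2)) = MP100fe7L.fdiag (xT ⟨(i, φ), j⟩) := by
    funext q
    obtain ⟨i', ψ⟩ := q
    unfold MP100fe7L.fdiag
    congr 1
    funext j'
    unfold xT
    have h3 : ((⟨(i', g.1 ψ), j'⟩ : Tot F E n) = ⟨(i, φ'), j⟩ ∨
        (⟨(i', g.1 ψ), j'⟩ : Tot F E n) = barT ⟨(i, φ'), j⟩) ↔
        ((⟨(i', ψ), j'⟩ : Tot F E n) = ⟨(i, φ), j⟩ ∨
        (⟨(i', ψ), j'⟩ : Tot F E n) = barT ⟨(i, φ), j⟩) := by
      have key : ∀ χ χ' : F →+* E, g.1 χ = χ' → (((⟨(i', g.1 ψ), j'⟩ : Tot F E n) =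
          ⟨(i, χ'), j⟩) ↔ ((⟨(i', ψ), j'⟩ : Tot F E n) = ⟨(i, χ), j⟩)) := by
        rintro χ _ rfl
        simp only [Sigma.mk.injEq, Prod.mk.injEq, EmbeddingLike.apply_eq_iff_eq]
      have hb : g.1 (bar φ) = bar φ' := by
        rw [gal_bar, hg]
      exact or_congr (key φ φ' hg) (key _ _ hb)
    simp only [h3]
  rw [h2, det_act_xT ρ M hE τ₀ hL hε hr hA hB hker,
    det_act_xT ρ M hE τ₀ hL hε hr hA hB hker] at h1
  have h6 := congrArg Polynomial.natDegree h1
  rwa [Polynomial.natDegree_X_pow, Polynomial.natDegree_X_pow] at h6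

include hL hε hr hA hB hker in
/-- The exponent only depends on the motive. -/
theorem mT_eq (Φ : Finset (F →+* E)) (hΦ : ∀ φ, φ ∈ Φ ↔ bar φ ∉ Φ) (i : ι) (φ φ' : F →+* E)
    (j j' : Fin (n i)) : mT ρ M a₀ ⟨(i, φ), j⟩ = mT ρ M a₀ ⟨(i, φ'), j'⟩ := by
  obtain ⟨k, hk, -⟩ := exists_k ρ M hE τ₀ hL hε hr hA hB hker Φ hΦ
  obtain ⟨ψ, hψ⟩ : ∃ ψ, ψ ∈ Φ := by
    by_cases h : φ ∈ Φ
    · exact ⟨φ, h⟩
    · exact ⟨bar φ, (mem_phi_bar hΦ φ).mpr h⟩
  rw [mT_gal ρ M hE τ₀ hL hε hr hA hB hker i φ ψ j, ← hk i ψ j hψ, hk i ψ j' hψ,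
    mT_gal ρ M hE τ₀ hL hε hr hA hB hker i ψ φ' j']

end

end Pool.Agent.MP100fe7Cm
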