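import Pool.Agent.Lib.MP_100fe7_nt.CmK
import Pool.Agent.Lib.MP_100fe7_nt.CmDatum

/-!
The closed formula for the Deligne periods.
-/

set_option linter.unusedSectionVars false

namespace Pool.Agent.MP100fe7Cm

open Matrix NumberField MP100fe7T MP100fe7L

variable {F : Type} [Field F] [NumberField F] [IsCMField F] {E : Type} [Field E] [NumberField E]
  {ι : Type} [Fintype ι] [DecidableEq ι] {n : ι → ℕ} {κ : Type} [Fintype κ] [DecidableEq κ]
  (ρ : Rep F E n κ) {w : ι → ℤ} (M : ∀ i, Datum F E (n i) (w i)) (hE : Split F E) (τ₀ : E →+* ℂ)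
  (Φ : Finset (F →+* E)) (hΦ : ∀ φ, φ ∈ Φ ↔ bar φ ∉ Φ)

/-- the Hodge indices -/
def idx (t : Tot F E n) : ℤ := (M t.1.1).p t.1.2 t.2

/-- the symmetric factor -/
noncomputable def hFam (τ : E →+* ℂ) : Fam F E n ℂ :=
  fun q => (M q.1).h τ (if q.2 ∈ Φ then q.2 else bar q.2)

/-- the parabolic factor -/
noncomputable def bFam (τ : E →+* ℂ) : Fam F E n ℂ :=
  fun q => (M q.1).comp τ q.2 * (M q.1).Z τ (if q.2 ∈ Φ then q.2 else bar q.2)

theorem comp_fam (τ : E →+* ℂ) :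
    (fun q : ι × (F →+* E) => (M q.1).comp τ q.2) = bFam M Φ τ * hFam M Φ τ := by
  funext q
  simp only [bFam, hFam, Pi.mul_apply, Datum.h]
  rw [Matrix.mul_assoc, mul_nonsing_inv _ ((M q.1).Z_unit τ _), Matrix.mul_one]

include hΦ in
theorem hFam_sym (τ : E →+* ℂ) : IsSym (hFam M Φ τ) := by
  intro i φ
  simp only [hFam]
  by_cases h : φ ∈ Φ
  · rw [if_pos h, if_neg ((hΦ φ).mp h), bar_bar]
  · rw [if_neg h, if_pos ((mem_phi_bar hΦ φ).mpr h)]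

theorem bFam_pos (τ : E →+* ℂ) {q : ι × (F →+* E)} (h : q.2 ∈ Φ) :
    bFam M Φ τ q = (M q.1).b τ q.2 := by
  simp only [bFam, Datum.b, if_pos h]

include hΦ in
theorem exists_bar {q : ι × (F →+* E)} (h : q.2 ∉ Φ) : ∃ φ, φ ∈ Φ ∧ q.2 = bar φ :=
  ⟨bar q.2, (mem_phi_bar hΦ q.2).mpr h, (bar_bar q.2).symm⟩

theorem bFam_neg (τ : E →+* ℂ) (i : ι) {φ : F →+* E} (h : bar φ ∉ Φ) :
    bFam M Φ τ (i, bar φ) = (M i).comp τ (bar φ) * (M i).Z τ φ := by
  simp only [bFam, if_neg h, bar_bar]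

include hΦ in
theorem bFam_low (τ : E →+* ℂ) (q : ι × (F →+* E)) (j j' : Fin (n q.1))
    (hjj : idx M ⟨q, j⟩ < idx M ⟨q, j'⟩) : bFam M Φ τ q j j' = 0 := by
  obtain ⟨i, φ⟩ := q
  by_cases h : φ ∈ Φ
  · rw [bFam_pos M Φ τ (q := (i, φ)) h]
    exact (M i).b_low τ φ j j' hjj
  · obtain ⟨ψ, hψ, h'⟩ := exists_bar Φ hΦ (q := (i, φ)) h
    dsimp only at h'
    subst h'
    rw [bFam_neg M Φ τ i h]
    exact (M i).b'_low τ ψ j j' hjj

include hΦ in
theorem bFam_blk_neg (τ : E →+* ℂ) {q : ι × (F →+* E)} (h : q.2 ∉ Φ) (c : ℤ) :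
    (blk (idx M) (bFam M Φ τ) q c).det = 1 := by
  have h1 : blk (idx M) (bFam M Φ τ) q c = 1 := by
    ext j j'
    simp only [blk, submatrix_apply]
    obtain ⟨i, φ⟩ := q
    obtain ⟨ψ, hψ, h'⟩ := exists_bar Φ hΦ (q := (i, φ)) h
    dsimp only at h'
    subst h'
    rw [bFam_neg M Φ τ i h]
    have h2 := (M i).b'_diag τ ψ j.1 j'.1 (j.2.trans j'.2.symm)
    refine h2.trans ?_
    rw [Matrix.one_apply]
    simp only [Subtype.ext_iff]
  rw [h1, det_one]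

/-- the Hodge period -/
noncomputable def Qv (τ : E →+* ℂ) (q : ι × (F →+* E)) (a : ℤ) : ℂ :=
  (((M q.1).b τ q.2).submatrix (fun j : (M q.1).Block q.2 a => j.1)
    (fun j : (M q.1).Block q.2 a => j.1)).det

theorem Qv_ne (τ : E →+* ℂ) (q : ι × (F →+* E)) (a : ℤ) : Qv M τ q a ≠ 0 :=
  (M q.1).block_unit τ q.2 a

/-- the determinant of the comparison matrix at the conjugate embedding -/
noncomputable def dv (τ : E →+* ℂ) (q : ι × (F →+* E)) : ℂ := ((M q.1).comp τ (bar q.2)).det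

theorem dv_ne (τ : E →+* ℂ) (q : ι × (F →+* E)) : dv M τ q ≠ 0 :=
  ((M q.1).comp_unit τ (bar q.2)).ne_zero

include hΦ in
theorem prod_bar (f : ι × (F →+* E) → ℂ) : ∏ q, f q =
    ∏ q ∈ Finset.univ ×ˢ Φ, (f q * f (q.1, bar q.2)) := by
  rw [Finset.prod_mul_distrib, ← Finset.prod_mul_prod_compl (Finset.univ ×ˢ Φ) f]
  congr 1
  symm
  apply Finset.prod_bij (fun q _ => (q.1, bar q.2))
  · intro q hq
    rw [Finset.mem_compl, Finset.mem_product]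
    rintro ⟨-, h⟩
    exact ((hΦ q.2).mp (Finset.mem_product.mp hq).2) h
  · intro q _ q' _ h
    have h1 := congrArg (fun q : ι × (F →+* E) => (q.1, bar q.2)) h
    simpa only [bar_bar] using h1
  · intro q hq
    refine ⟨(q.1, bar q.2), ?_, ?_⟩
    · rw [Finset.mem_product]
      refine ⟨Finset.mem_univ _, ?_⟩
      rw [mem_phi_bar hΦ]
      intro h
      exact (Finset.mem_compl.mp hq) (Finset.mem_product.mpr ⟨Finset.mem_univ _, h⟩)
    · simp only [bar_bar]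
  · intro q _
    rfl

theorem factor_eq {α : Type} (s : Finset α) {δ : ℂ} (hδ : δ ≠ 0) {Q : α → ℂ}
    (hQ : ∀ a, Q a ≠ 0) (tw d k : ℕ) (e : α → ℕ) :
    (((δ * ∏ a ∈ s, Q a) * δ) ^ tw)⁻¹ ^ d * (∏ a ∈ s, Q a ^ e a) * δ ^ k =
      δ ^ ((k : ℤ) - 2 * tw * d) * ∏ a ∈ s, Q a ^ ((e a : ℤ) - tw * d) := by
  have h1 : δ ^ ((k : ℤ) - 2 * tw * d) = δ ^ k * (δ ^ (2 * tw * d))⁻¹ := by
    rw [zpow_sub₀ hδ, zpow_natCast, div_eq_mul_inv]
    congr 2
  have h2 : ∀ a, Q a ^ ((e a : ℤ) - tw * d) = Q a ^ e a * (Q a ^ (tw * d))⁻¹ := by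
    intro a
    rw [zpow_sub₀ (hQ a), zpow_natCast, div_eq_mul_inv]
    congr 2
  rw [h1, Finset.prod_congr rfl (fun a _ => h2 a), Finset.prod_mul_distrib, Finset.prod_inv_distrib,
    Finset.prod_pow]
  have h3 : (((δ * ∏ a ∈ s, Q a) * δ) ^ tw)⁻¹ ^ d =
      (δ ^ (2 * tw * d))⁻¹ * ((∏ a ∈ s, Q a) ^ (tw * d))⁻¹ := by
    rw [inv_pow, ← pow_mul, ← mul_inv, mul_pow, mul_pow, mul_assoc 2, two_mul, pow_add]
    ring
  rw [h3]
  ring

section

variable {d : ℕ} {A : Matrix κ (Fin d) E} {B : Matrix (Fin d) κ E} {L : Matrix (Fin d) κ E}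
  (hL : L * A = 1) {ε : E} (hε : ε * ε = 1)
  (hr : ∀ v : κ → E, v ∈ Set.range A.mulVec ↔ (ρ.frob hE τ₀).mulVec v = ε • v)
  (hB : Function.Surjective B.mulVec) {a₀ : ℤ}
  (hker : ∀ v : κ → E, B.mulVec v = 0 ↔ ∀ s, isLo ρ M a₀ s → v s = 0)

include hL hε hr hB hker hΦ in
/-- The closed formula, with the exponents of the polynomial part. -/
theorem main_formula (k : ι × (F →+* E) → ℕ)
    (hk : ∀ (S : Type) [CommRing S] [Algebra E S] (h : Fam F E n S),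
      IsSym h → (act ρ L A S h).det = ∏ q ∈ Finset.univ ×ˢ Φ, (h q).det ^ k q)
    (a : ι × (F →+* E) → ℤ → ℕ)
    (ha : ∀ (R : Type) [CommRing R] [Algebra E R] (b : Fam F E n R),
        (∀ q j j', idx M ⟨q, j⟩ < idx M ⟨q, j'⟩ → b q j j' = 0) →
        (∀ s t, isLo ρ M a₀ s → ¬ isLo ρ M a₀ t → ρ.toPol.pol R b s t = 0) ∧
        detP (isLo ρ M a₀) (ρ.toPol.pol R b) =
          ∏ q, ∏ c ∈ colors (idx M) q, (blk (idx M) b q c).det ^ a q c) (τ : E →+* ℂ) :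
    (B.map τ * ρ.compN M hE τ₀ τ * A.map τ).det =
      τ (B * A).det * τ (L * ρ.perm (galElt hE τ τ₀) * A).det *
        ∏ q ∈ Finset.univ ×ˢ Φ, (dv M τ q ^ ((k q : ℤ) - 2 * ρ.twist q.1 * d) *
          ∏ c ∈ (M q.1).indices q.2, Qv M τ q c ^ ((a q c : ℤ) - ρ.twist q.1 * d)) := by
  letI : Algebra E ℂ := τ.toAlgebra
  let g := galElt hE τ τ₀
  let X : Fam F E n ℂ := fun q => (M q.1).comp τ q.2
  let D : ℂ := ∏ q, (X q).det ^ ρ.twist q.1
  have hX : X = bFam M Φ τ * hFam M Φ τ := comp_fam M Φ τ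
  have h1 : ρ.compN M hE τ₀ τ = D⁻¹ • (ρ.toPol.pol ℂ X * (ρ.perm g).map τ) := by
    unfold Rep.compN Rep.ev
    rw [Matrix.smul_mul, Ring.inverse_eq_inv']
    rfl
  have h2 : (ρ.perm g).map τ * A.map τ = A.map τ * (L * ρ.perm g * A).map τ := by
    rw [← Matrix.map_mul, ← Matrix.map_mul, perm_act ρ hE τ₀ hL hε hr g]
  obtain ⟨h3, h4⟩ := ha ℂ (bFam M Φ τ) (bFam_low M Φ hΦ τ)
  have h5 := det_formula ρ M hE τ₀ hL hε hr hB hker (S := ℂ) (bFam M Φ τ) (hFam M Φ τ)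
    (hFam_sym M Φ hΦ τ) h3
  rw [← hX, hk ℂ _ (hFam_sym M Φ hΦ τ), h4] at h5
  have h6 : (B.map τ * ρ.toPol.pol ℂ X * A.map τ).det = _ := h5
  have h7 : (B.map τ * ρ.compN M hE τ₀ τ * A.map τ).det =
      D⁻¹ ^ d * ((B.map τ * ρ.toPol.pol ℂ X * A.map τ).det *
        τ (L * ρ.perm g * A).det) := by
    rw [h1, Matrix.mul_smul, Matrix.smul_mul, det_smul, Fintype.card_fin, ← Matrix.mul_assoc,
      Matrix.mul_assoc _ ((ρ.perm g).map τ), h2, ← Matrix.mul_assoc, det_mul]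
    congr 2
    rw [RingHom.map_det]
    rfl
  have h8 : ∏ q, ∏ c ∈ colors (idx M) q, (blk (idx M) (bFam M Φ τ) q c).det ^ a q c =
      ∏ q ∈ Finset.univ ×ˢ Φ, ∏ c ∈ (M q.1).indices q.2, Qv M τ q c ^ a q c := by
    symm
    apply Finset.prod_subset_one_on_sdiff (Finset.subset_univ _)
    · intro q hq
      have hq' : q.2 ∉ Φ := by
        intro h
        exact (Finset.mem_sdiff.mp hq).2 (Finset.mem_product.mpr ⟨Finset.mem_univ _, h⟩)
      apply Finset.prod_eq_one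
      intro c _
      rw [bFam_blk_neg M Φ hΦ τ hq', one_pow]
    · intro q hq
      have hq' : q.2 ∈ Φ := (Finset.mem_product.mp hq).2
      apply Finset.prod_congr rfl
      intro c _
      congr 1
      unfold Qv blk
      rw [bFam_pos M Φ τ hq']
      rfl
  have h9 : D = ∏ q ∈ Finset.univ ×ˢ Φ,
      ((dv M τ q * ∏ c ∈ (M q.1).indices q.2, Qv M τ q c) * dv M τ q) ^ ρ.twist q.1 := by
    simp only [D]
    rw [prod_bar Φ hΦ]
    apply Finset.prod_congr rfl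
    intro q _
    rw [← mul_pow]
    congr 2
    exact (M q.1).det_comp τ q.2
  have h10 : ∏ q ∈ Finset.univ ×ˢ Φ, (hFam M Φ τ q).det ^ k q =
      ∏ q ∈ Finset.univ ×ˢ Φ, dv M τ q ^ k q := by
    apply Finset.prod_congr rfl
    intro q hq
    have hq' : q.2 ∈ Φ := (Finset.mem_product.mp hq).2
    unfold hFam dv
    rw [if_pos hq', (M q.1).det_h]
  rw [h7, h6, h8, h10, h9, ← Finset.prod_inv_distrib, ← Finset.prod_pow]
  have h11 : ∀ q ∈ Finset.univ ×ˢ Φ, _ = _ := fun q (_ : q ∈ Finset.univ ×ˢ Φ) =>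
    (factor_eq ((M q.1).indices q.2) (dv_ne M τ q) (Qv_ne M τ q) (ρ.twist q.1) d (k q) (a q)).symm
  rw [Finset.prod_congr rfl h11, Finset.prod_mul_distrib, Finset.prod_mul_distrib]
  have h12 : algebraMap E ℂ (B * A).det = τ (B * A).det := rfl
  rw [h12]
  ring

end

end Pool.Agent.MP100fe7Cm
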