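import Pool.Agent.Lib.MP_100fe7_nt.CmGal

/-!
The families invariant under complex conjugation act on the eigenspaces of `F_∞`; the determinant.
-/

set_option linter.unusedSectionVars false

namespace Pool.Agent.MP100fe7Cm

open Matrix NumberField

variable {F : Type} [Field F] [NumberField F] [IsCMField F] {E : Type} [Field E] [NumberField E]
  {ι : Type} [Fintype ι] [DecidableEq ι] {n : ι → ℕ} {κ : Type} [Fintype κ] [DecidableEq κ]

/-- families invariant under complex conjugation -/
def IsSym {S : Type} (h : Fam F E n S) : Prop := ∀ i φ, h (i, bar φ) = h (i, φ)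

/-- one matrix at `(i, φ)` and `(i, bar φ)` -/
noncomputable def symSingle {S : Type} [CommRing S] (i : ι) (φ : F →+* E)
    (A : Matrix (Fin (n i)) (Fin (n i)) S) : Fam F E n S :=
  fun q => if q.2 = φ ∨ q.2 = bar φ then
    (Pi.mulSingle i A : ∀ i, Matrix (Fin (n i)) (Fin (n i)) S) q.1 else 1

theorem symSingle_mul {S : Type} [CommRing S] (i : ι) (φ : F →+* E)
    (A B : Matrix (Fin (n i)) (Fin (n i)) S) :
    (symSingle i φ (A * B) : Fam F E n S) = symSingle i φ A * symSingle i φ B := by
  funext q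
  simp only [symSingle, Pi.mul_apply]
  split_ifs
  · rw [Pi.mulSingle_mul]
    rfl
  · rw [one_mul]

theorem symSingle_one {S : Type} [CommRing S] (i : ι) (φ : F →+* E) :
    (symSingle i φ (1 : Matrix (Fin (n i)) (Fin (n i)) S) : Fam F E n S) = 1 := by
  funext q
  simp only [symSingle, Pi.one_apply, Pi.mulSingle_one]
  split_ifs <;> rfl

theorem symSingle_map {S : Type} [CommRing S] [Algebra E S] {S' : Type} [CommRing S']
    [Algebra E S'] (f : S →ₐ[E] S') (i : ι) (φ : F →+* E)
    (A : Matrix (Fin (n i)) (Fin (n i)) S) :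
    MP100fe7L.Fam.map' (symSingle i φ A : Fam F E n S) f = symSingle i φ (A.map f) := by
  funext q
  simp only [MP100fe7L.Fam.map', symSingle]
  split_ifs
  · obtain ⟨i', φ'⟩ := q
    by_cases h : i' = i
    · subst h
      simp only [Pi.mulSingle_eq_same]
    · simp only [Pi.mulSingle_eq_of_ne h]
      exact Matrix.map_one _ (map_zero _) (map_one _)
  · exact Matrix.map_one _ (map_zero _) (map_one _)

theorem symSingle_sym {S : Type} [CommRing S] (i : ι) (φ : F →+* E)
    (A : Matrix (Fin (n i)) (Fin (n i)) S) : IsSym (symSingle i φ A : Fam F E n S) := by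
  intro i' φ'
  simp only [symSingle]
  have h : (bar φ' = φ ∨ bar φ' = bar φ) ↔ (φ' = φ ∨ φ' = bar φ) := by
    constructor
    · rintro (h | h)
      · right
        rw [← h, bar_bar]
      · left
        rw [← bar_bar φ', h, bar_bar]
    · rintro (h | h)
      · right
        rw [h]
      · left
        rw [h, bar_bar]
  simp only [h]

theorem sym_mul {S : Type} [CommRing S] {h h' : Fam F E n S} (hh : IsSym h) (hh' : IsSym h') :
    IsSym (h * h') := by
  intro i φ
  change h (i, bar φ) * h' (i, bar φ) = h (i, φ) * h' (i, φ)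
  rw [hh, hh']

theorem sym_one {S : Type} [CommRing S] : IsSym (1 : Fam F E n S) := fun _ _ => rfl

variable (ρ : Rep F E n κ) (hE : Split F E) (τ₀ : E →+* ℂ)

theorem frob_sq : ρ.frob hE τ₀ * ρ.frob hE τ₀ = 1 := by
  change ρ.perm (cElt hE τ₀) * ρ.perm (cElt hE τ₀) = 1
  rw [← _root_.map_mul, cElt_sq, map_one]

theorem pol_frob {S : Type} [CommRing S] [Algebra E S] (h : Fam F E n S) (hh : IsSym h) :
    ρ.toPol.pol S h * (ρ.frob hE τ₀).map (algebraMap E S) =
      (ρ.frob hE τ₀).map (algebraMap E S) * ρ.toPol.pol S h := by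
  have h1 := ρ.perm_pol (cElt hE τ₀) S h
  have h2 : (fun q : ι × (F →+* E) => h (q.1, (cElt hE τ₀).1 q.2)) = h := by
    funext q
    obtain ⟨i, φ⟩ := q
    change h (i, (cElt hE τ₀).1 φ) = h (i, φ)
    rw [cElt_apply, hh]
  rw [h2] at h1
  exact h1.symm

section char

variable {d : ℕ} {A : Matrix κ (Fin d) E} {L : Matrix (Fin d) κ E} (hL : L * A = 1) {ε : E}
  (hε : ε * ε = 1) (hr : ∀ v : κ → E, v ∈ Set.range A.mulVec ↔ (ρ.frob hE τ₀).mulVec v = ε • v)

/-- the action on the eigenspace -/
noncomputable def act (L : Matrix (Fin d) κ E) (A : Matrix κ (Fin d) E) (S : Type) [CommRing S]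
    [Algebra E S] (h : Fam F E n S) : Matrix (Fin d) (Fin d) S :=
  L.map (algebraMap E S) * ρ.toPol.pol S h * A.map (algebraMap E S)

include hL hε hr in
theorem pol_act {S : Type} [CommRing S] [Algebra E S] (h : Fam F E n S) (hh : IsSym h) :
    ρ.toPol.pol S h * A.map (algebraMap E S) = A.map (algebraMap E S) * act ρ L A S h :=
  MP100fe7L.eigen_stable (frob_sq ρ hE τ₀) hε hr hL S _ (pol_frob ρ hE τ₀ h hh)

include hL in
theorem act_one (S : Type) [CommRing S] [Algebra E S] : act ρ L A S 1 = 1 := by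
  unfold act
  rw [ρ.toPol.pol_one, Matrix.mul_one, ← Matrix.map_mul, hL]
  exact Matrix.map_one _ (map_zero _) (map_one _)

include hL hε hr in
theorem act_mul {S : Type} [CommRing S] [Algebra E S] (h h' : Fam F E n S) (hh' : IsSym h') :
    act ρ L A S (h * h') = act ρ L A S h * act ρ L A S h' := by
  have h1 := pol_act ρ hE τ₀ hL hε hr h' hh'
  conv_lhs => unfold act
  rw [ρ.toPol.pol_mul, ← Matrix.mul_assoc, Matrix.mul_assoc _ (ρ.toPol.pol S h'), h1,
    ← Matrix.mul_assoc]
  rfl

theorem act_map {S : Type} [CommRing S] [Algebra E S] {S' : Type} [CommRing S'] [Algebra E S']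
    (f : S →ₐ[E] S') (h : Fam F E n S) :
    (act ρ L A S h).map f = act ρ L A S' (MP100fe7L.Fam.map' h f) := by
  have hm : ∀ (a b : Type) (Y : Matrix a b E), (Y.map (algebraMap E S)).map f =
      Y.map (algebraMap E S') := by
    intro a b Y
    ext i j
    simp
  unfold act
  rw [Matrix.map_mul, Matrix.map_mul, hm, hm, ρ.toPol.pol_map]

/-- the multiplicative function of one matrix -/
noncomputable def actFam (i : ι) (φ : F →+* E) : MP100fe7.MulFam E (Fin (n i)) where
  D := fun S _ _ X => (act ρ L A S (symSingle i φ X)).det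
  nat := by
    intro S S' _ _ _ _ f X
    rw [← symSingle_map, ← act_map]
    exact (AlgHom.map_det f _).symm
  mul := by
    intro S _ _ X Y
    rw [symSingle_mul, act_mul ρ hE τ₀ hL hε hr _ _ (symSingle_sym i φ Y), det_mul]
  one := by
    intro S _ _
    rw [symSingle_one, act_one ρ hL, det_one]

/-- part of a symmetric family -/
noncomputable def partS {S : Type} [CommRing S] (h : Fam F E n S)
    (T : Finset (ι × (F →+* E))) : Fam F E n S :=
  fun q => if q ∈ T ∨ (q.1, bar q.2) ∈ T then h q else 1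

theorem partS_sym {S : Type} [CommRing S] (h : Fam F E n S) (hh : IsSym h)
    (T : Finset (ι × (F →+* E))) : IsSym (partS h T) := by
  intro i φ
  simp only [partS, bar_bar]
  rw [hh]
  by_cases h1 : (i, φ) ∈ T
  · rw [if_pos (Or.inr h1), if_pos (Or.inl h1)]
  · by_cases h2 : (i, bar φ) ∈ T
    · rw [if_pos (Or.inl h2), if_pos (Or.inr h2)]
    · rw [if_neg (by tauto), if_neg (by tauto)]

theorem partS_insert {S : Type} [CommRing S] (h : Fam F E n S) (hh : IsSym h)
    (T : Finset (ι × (F →+* E))) (i : ι) (φ : F →+* E) (h1 : (i, φ) ∉ T)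
    (h2 : (i, bar φ) ∉ T) :
    partS h (insert (i, φ) T) = partS h T * symSingle i φ (h (i, φ)) := by
  funext q
  obtain ⟨i', φ'⟩ := q
  simp only [partS, symSingle, Pi.mul_apply, Finset.mem_insert, Prod.mk.injEq]
  by_cases hi : i' = i
  · subst hi
    simp only [true_and, Pi.mulSingle_eq_same]
    by_cases h3 : φ' = φ
    · subst h3
      rw [if_pos (Or.inl (Or.inl rfl)), if_neg (by tauto), if_pos (Or.inl rfl), one_mul]
    · by_cases h4 : φ' = bar φ
      · subst h4
        rw [bar_bar, if_pos (Or.inr (Or.inl rfl)), if_neg (by tauto), if_pos (Or.inr rfl),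
          one_mul, hh]
      · have h5 : bar φ' ≠ φ := by
          intro h6
          apply h4
          rw [← h6, bar_bar]
        rw [if_neg (c := φ' = φ ∨ φ' = bar φ) (by tauto), mul_one]
        simp only [h3, h5, false_or]
  · simp only [hi, false_and, false_or, Pi.mulSingle_eq_of_ne hi]
    simp

theorem mem_phi_bar {Φ : Finset (F →+* E)} (hΦ : ∀ φ, φ ∈ Φ ↔ bar φ ∉ Φ) (φ : F →+* E) :
    bar φ ∈ Φ ↔ φ ∉ Φ := by
  rw [hΦ (bar φ), bar_bar]

include hL hε hr in
/-- The determinant of a symmetric family on the eigenspace. -/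
theorem sym_char (Φ : Finset (F →+* E)) (hΦ : ∀ φ, φ ∈ Φ ↔ bar φ ∉ Φ) :
    ∃ k : ι × (F →+* E) → ℕ, ∀ (S : Type) [CommRing S] [Algebra E S] (h : Fam F E n S),
      IsSym h → (act ρ L A S h).det = ∏ q ∈ Finset.univ ×ˢ Φ, (h q).det ^ k q := by
  choose k hk using fun q : ι × (F →+* E) => (actFam ρ hE τ₀ hL hε hr q.1 q.2).eq_det_pow
  refine ⟨k, ?_⟩
  intro S _ _ h hh
  have key : ∀ T : Finset (ι × (F →+* E)), T ⊆ Finset.univ ×ˢ Φ →
      (act ρ L A S (partS h T)).det = ∏ q ∈ T, (h q).det ^ k q := by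
    intro T
    induction T using Finset.induction_on with
    | empty =>
      intro _
      have : partS h ∅ = 1 := by
        funext q
        simp [partS]
      rw [this, act_one ρ hL, det_one, Finset.prod_empty]
    | insert q T hq ih =>
      intro hT
      obtain ⟨i, φ⟩ := q
      have hsub : T ⊆ Finset.univ ×ˢ Φ := fun x hx => hT (Finset.mem_insert_of_mem hx)
      have hφ : φ ∈ Φ := (Finset.mem_product.mp (hT (Finset.mem_insert_self _ _))).2
      have h2 : (i, bar φ) ∉ T := by
        intro h3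
        have h4 := (Finset.mem_product.mp (hsub h3)).2
        exact ((hΦ φ).mp hφ) h4
      rw [partS_insert h hh T i φ hq h2, act_mul ρ hE τ₀ hL hε hr _ _ (symSingle_sym i φ _),
        det_mul, ih hsub, Finset.prod_insert hq, mul_comm]
      congr 1
      exact hk (i, φ) S (h (i, φ))
  have h1 := key _ (Finset.Subset.refl _)
  have h2 : partS h (Finset.univ ×ˢ Φ) = h := by
    funext q
    obtain ⟨i, φ⟩ := q
    simp only [partS]
    rw [if_pos]
    by_cases hφ : φ ∈ Φ
    · left
      simp [hφ]
    · right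
      simp [mem_phi_bar hΦ, hφ]
  rw [h2] at h1
  exact h1

end char

end Pool.Agent.MP100fe7Cm
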