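import Mathlib

/-!
The Cauchy - Binet formula.
-/

namespace Pool.Agent.MP100fe7Cv

open Matrix Finset

/-- the set of the subsets with `k` elements -/
abbrev Sub (m k : ℕ) : Type := {S : Finset (Fin m) // S.card = k}

/-- the increasing numbering of a subset with `k` elements -/
def em {m k : ℕ} (S : Sub m k) : Fin k ↪o Fin m := S.1.orderEmbOfFin S.2

theorem image_em {m k : ℕ} (S : Sub m k) : Finset.univ.image (em S) = S.1 := by
  ext x
  simp only [em, mem_image, mem_univ, true_and]
  constructor
  · rintro ⟨i, rfl⟩
    exact S.1.orderEmbOfFin_mem S.2 i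
  · intro hx
    have h1 : x ∈ Set.range (S.1.orderEmbOfFin S.2) := by
      rw [Finset.range_orderEmbOfFin]
      exact hx
    exact h1

variable {R : Type*} [CommRing R] {m k : ℕ}

private theorem expand (P : Matrix (Fin k) (Fin m) R) (Q : Matrix (Fin m) (Fin k) R) :
    (P * Q).det = ∑ f : Fin k → Fin m, (P.submatrix id f).det * ∏ j, Q (f j) j := by
  have h1 : (P * Q).det = (detRowAlternating : (Fin k → R) [⋀^Fin k]→ₗ[R] R)
      (fun j => ∑ u : Fin m, Q u j • (fun i => P i u)) := by
    rw [← det_transpose]
    change (detRowAlternating : (Fin k → R) [⋀^Fin k]→ₗ[R] R) ((P * Q)ᵀ) = _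
    congr 1
    funext j i
    simp only [transpose_apply, mul_apply, Finset.sum_apply, Pi.smul_apply, smul_eq_mul]
    exact Finset.sum_congr rfl fun u _ => mul_comm _ _
  rw [h1]
  change (detRowAlternating : (Fin k → R) [⋀^Fin k]→ₗ[R] R).toMultilinearMap _ = _
  rw [MultilinearMap.map_sum]
  apply Finset.sum_congr rfl
  intro f _
  rw [MultilinearMap.map_smul_univ, smul_eq_mul, mul_comm]
  congr 1
  change (Matrix.det (fun j i => P i (f j))) = _
  rw [← det_transpose]
  rfl

private theorem not_inj (P : Matrix (Fin k) (Fin m) R) (f : Fin k → Fin m)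
    (hf : ¬ Function.Injective f) : (P.submatrix id f).det = 0 := by
  simp only [Function.Injective, not_forall] at hf
  obtain ⟨i, j, h, hij⟩ := hf
  exact det_zero_of_column_eq hij fun s => by simp [h]

/-- the Cauchy - Binet formula -/
theorem cauchy_binet (P : Matrix (Fin k) (Fin m) R) (Q : Matrix (Fin m) (Fin k) R) :
    (P * Q).det = ∑ S : Sub m k, (P.submatrix id (em S)).det * (Q.submatrix (em S) id).det := by
  classical
  rw [expand]
  rw [← Finset.sum_filter_add_sum_filter_not Finset.univ (fun f : Fin k → Fin m =>
    Function.Injective f)]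
  rw [Finset.sum_eq_zero (s := Finset.univ.filter fun f : Fin k → Fin m =>
    ¬ Function.Injective f) (by
      intro f hf
      rw [not_inj P f (Finset.mem_filter.mp hf).2, zero_mul]), add_zero]
  have h2 : ∀ S : Sub m k, (P.submatrix id (em S)).det * (Q.submatrix (em S) id).det =
      ∑ σ : Equiv.Perm (Fin k), (P.submatrix id (em S ∘ σ)).det * ∏ j, Q (em S (σ j)) j := by
    intro S
    rw [det_apply (Q.submatrix (em S) id), Finset.mul_sum]
    apply Finset.sum_congr rfl
    intro σ _
    have h3 : (P.submatrix id (em S ∘ σ)).det = Equiv.Perm.sign σ • (P.submatrix id (em S)).det := by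
      have := Matrix.det_permute' σ (P.submatrix id (em S))
      rw [Matrix.submatrix_submatrix] at this
      rw [show (id ∘ id : Fin k → Fin k) = id from rfl] at this
      rw [this, Units.smul_def, zsmul_eq_mul]
    rw [h3]
    simp only [submatrix_apply, id]
    rw [smul_mul_assoc, mul_smul_comm]
  rw [Finset.sum_congr rfl fun S _ => h2 S]
  rw [← Finset.sum_product' Finset.univ Finset.univ (fun (S : Sub m k) (σ : Equiv.Perm (Fin k)) =>
    (P.submatrix id (em S ∘ σ)).det * ∏ j, Q (em S (σ j)) j)]
  symm
  apply Finset.sum_bij (fun (x : Sub m k × Equiv.Perm (Fin k)) _ => (em x.1 ∘ x.2 : Fin k → Fin m))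
  · intro x _
    exact Finset.mem_filter.mpr ⟨Finset.mem_univ _, (em x.1).injective.comp x.2.injective⟩
  · rintro ⟨S, σ⟩ _ ⟨T, τ⟩ _ h
    simp only at h
    have h4 : S = T := by
      apply Subtype.ext
      rw [← image_em S, ← image_em T]
      have h5 : Finset.univ.image (em S ∘ σ) = Finset.univ.image (em T ∘ τ) := by rw [h]
      have h6 : ∀ (S : Sub m k) (σ : Equiv.Perm (Fin k)), Finset.univ.image (em S ∘ σ) =
          Finset.univ.image (em S) := by
        intro S σ
        ext x
        simp only [mem_image, mem_univ, true_and, Function.comp_apply]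
        constructor
        · rintro ⟨i, rfl⟩
          exact ⟨σ i, rfl⟩
        · rintro ⟨i, rfl⟩
          exact ⟨σ.symm i, by simp⟩
      rw [h6, h6] at h5
      exact h5
    subst h4
    have h7 : σ = τ := by
      ext i
      have := congrFun h i
      simp only [Function.comp_apply, EmbeddingLike.apply_eq_iff_eq] at this
      rw [this]
    rw [h7]
  · intro f hf
    have hfi := (Finset.mem_filter.mp hf).2
    let S : Sub m k := ⟨Finset.univ.image f, by
      rw [Finset.card_image_of_injective _ hfi, Finset.card_univ, Fintype.card_fin]⟩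
    have h8 : ∀ i, ∃ j, em S j = f i := by
      intro i
      have : f i ∈ Finset.univ.image (em S) := by
        rw [image_em]
        exact Finset.mem_image_of_mem _ (Finset.mem_univ _)
      obtain ⟨j, -, hj⟩ := Finset.mem_image.mp this
      exact ⟨j, hj⟩
    choose g hg using h8
    have hgi : Function.Injective g := by
      intro i j hij
      apply hfi
      rw [← hg i, ← hg j, hij]
    refine ⟨(S, Equiv.ofBijective g (Finite.injective_iff_bijective.mp hgi)), Finset.mem_univ _, ?_⟩
    funext i
    exact hg i
  · intro x _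
    rfl

end Pool.Agent.MP100fe7Cv
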