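import Pool.Agent.Lib.MP_100fe7_nt.CvK6

/-!
Characters, and the vectors of the sums of the low weights as linear functions of the characters.
-/

set_option linter.unusedSectionVars false

namespace Pool.Agent.MP100fe7K

open MP100fe7T MP100fe7Cv MvPolynomial

section chars

variable {E : Type} [Field E] {ι : Type} [Fintype ι] [DecidableEq ι] {σ : ι → Shape}

/-- The character of the polynomial part of a representation. -/
noncomputable def chT {κ : Type} [Fintype κ] [DecidableEq κ] (ρ : Rep E σ κ) :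
    MvPolynomial (Tot σ) ℤ := ∑ s, monomial (Finsupp.equivFunOnFinite.symm (ρ.wt s)) 1

theorem chT_tensor {κ₁ κ₂ : Type} [Fintype κ₁] [DecidableEq κ₁] [Fintype κ₂]
    [DecidableEq κ₂] (ρ₁ : Rep E σ κ₁) (ρ₂ : Rep E σ κ₂) :
    chT (tensorRep ρ₁ ρ₂) = chT ρ₁ * chT ρ₂ := by
  unfold chT
  rw [Fintype.sum_prod_type, Finset.sum_mul_sum]
  apply Finset.sum_congr rfl
  intro s _
  apply Finset.sum_congr rfl
  intro t _
  rw [monomial_mul, one_mul]
  apply congrArg fun ν => monomial ν (1 : ℤ)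
  ext j
  rfl

theorem prod_X_pow (S : Type) [CommRing S] (x : Tot σ → S) (ν : Tot σ → ℕ) :
    ∏ q, x q ^ ν q = aeval (R := ℤ) x (monomial (Finsupp.equivFunOnFinite.symm ν) 1) := by
  rw [aeval_monomial, map_one, one_mul, Finsupp.prod_fintype _ _ (fun i => by simp)]
  rfl

/-- The character is invariant under the permutations of the bases. -/
theorem chT_perm [CharZero E] {κ : Type} [Fintype κ] [DecidableEq κ] (ρ : Rep E σ κ)
    (π : ∀ i, Equiv.Perm (σ i).Idx) :
    rename (fun q : Tot σ => (⟨q.1, π q.1 q.2⟩ : Tot σ)) (chT ρ) = chT ρ := by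
  classical
  let S := MvPolynomial (Tot σ) E
  let x : Tot σ → S := X
  let x' : Tot σ → S := fun q => X ⟨q.1, π q.1 q.2⟩
  let P : Fam σ S := fun i => (1 : Matrix _ _ S).submatrix (π i) id
  let P' : Fam σ S := fun i => (1 : Matrix _ _ S).submatrix (π i).symm id
  have hPP : P * P' = 1 := by
    funext i
    ext k l
    simp only [Pi.mul_apply, P, P']
    rw [Matrix.mul_apply, Finset.sum_eq_single (π i k)]
    · rw [Matrix.submatrix_apply, Matrix.submatrix_apply, id_eq, Matrix.one_apply_eq, one_mul,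
        Equiv.symm_apply_apply, id_eq]
      rfl
    · intro b _ hb
      rw [Matrix.submatrix_apply, id_eq, Matrix.one_apply_ne (Ne.symm hb), zero_mul]
    · simp
  have h1 : P * fdiag x = fdiag x' * P := by
    funext i
    ext k l
    simp only [Pi.mul_apply, fdiag, P]
    rw [Matrix.mul_diagonal, Matrix.diagonal_mul, Matrix.submatrix_apply, id_eq]
    by_cases hk : π i k = l
    · simp only [x, x']
      rw [hk, Matrix.one_apply_eq, one_mul, mul_one]
    · rw [Matrix.one_apply_ne hk, zero_mul, mul_zero]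
  have h2 : ρ.pol S (fdiag x') = ρ.pol S P * ρ.pol S (fdiag x) * ρ.pol S P' := by
    rw [← ρ.pol_mul, h1, ← ρ.pol_mul, mul_assoc, hPP, mul_one]
  have h3 : (ρ.pol S (fdiag x')).trace = (ρ.pol S (fdiag x)).trace := by
    rw [h2, Matrix.trace_mul_comm, ← Matrix.mul_assoc]
    have h4 : ρ.pol S P' * ρ.pol S P = 1 := by
      have h5 := ρ.pol_inv_mul hPP
      exact mul_eq_one_comm.mp h5
    rw [h4, Matrix.one_mul]
  rw [ρ.pol_diag, ρ.pol_diag, Matrix.trace_diagonal, Matrix.trace_diagonal] at h3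
  have hinj : Function.Injective (MvPolynomial.map (σ := Tot σ) (Int.castRingHom E)) :=
    MvPolynomial.map_injective _ (RingHom.injective_int _)
  apply hinj
  have h6 : ∀ f : MvPolynomial (Tot σ) ℤ, MvPolynomial.map (Int.castRingHom E) f =
      aeval (R := ℤ) x f := by
    intro f
    induction f using MvPolynomial.induction_on with
    | C a => simp [x]
    | add p q hp hq => rw [map_add, map_add, hp, hq]
    | mul_X p n hp => rw [map_mul, map_mul, hp, map_X, aeval_X]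
  rw [h6, h6, aeval_rename]
  have h7 : aeval (R := ℤ) (x ∘ fun q : Tot σ => (⟨q.1, π q.1 q.2⟩ : Tot σ)) (chT ρ) =
      ∑ s, ∏ q, x' q ^ ρ.wt s q := by
    unfold chT
    rw [map_sum]
    apply Finset.sum_congr rfl
    intro s _
    exact (prod_X_pow S x' (ρ.wt s)).symm
  have h8 : aeval (R := ℤ) x (chT ρ) = ∑ s, ∏ q, x q ^ ρ.wt s q := by
    unfold chT
    rw [map_sum]
    apply Finset.sum_congr rfl
    intro s _
    exact (prod_X_pow S x (ρ.wt s)).symm
  rw [h7, h8, h3]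

end chars

variable {E : Type} [Field E] [CharZero E] {R : Type} [CommRing R] [Algebra E R]
  {ι : Type} [Fintype ι] [DecidableEq ι] {σ : ι → Shape} {w : ι → ℤ}
  (M : ∀ i, Datum R (σ i) (w i))

/-- the low weights of multidegree `δ` -/
def phiT (δ : ι → ℕ) (ν : Tot σ → ℤ) : Tot σ → ℤ :=
  if (∀ i, ∑ j, ν ⟨i, j⟩ = (δ i : ℤ)) ∧ ∑ q : Tot σ, ν q * cenI M q.1 q.2 < 0 then ν else 0

/-- the sum of the low weights of multidegree `δ`, as a linear function of the polynomial -/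
noncomputable def VT (δ : ι → ℕ) : MvPolynomial (Tot σ) ℤ →ₗ[ℤ] (Tot σ → ℤ) :=
  (basisMonomials (Tot σ) ℤ).constr ℤ fun ν => phiT M δ fun q => (ν q : ℤ)

theorem VT_monomial (δ : ι → ℕ) (ν : Tot σ →₀ ℕ) :
    VT M δ (monomial ν 1) = phiT M δ fun q => (ν q : ℤ) := by
  have h := (basisMonomials (Tot σ) ℤ).constr_basis ℤ (fun ν => phiT M δ fun q => (ν q : ℤ)) ν
  rw [coe_basisMonomials] at h
  exact h

theorem VT_chT (δ : ι → ℕ) {κ : Type} [Fintype κ] [DecidableEq κ] (ρ : Rep E σ κ) :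
    VT M δ (chT ρ) = ∑ s, phiT M δ fun q => (ρ.wt s q : ℤ) := by
  unfold chT
  rw [map_sum]
  apply Finset.sum_congr rfl
  intro s _
  rw [VT_monomial]
  rfl

theorem VT_eq {κ : Type} [Fintype κ] [DecidableEq κ] (ρ : Rep E σ κ) (h : ∀ i, ρ.twist i = 0) :
    VT M ρ.deg (chT ρ) = Vl ρ M := by
  classical
  rw [VT_chT]
  funext q
  rw [Finset.sum_apply]
  unfold Vl
  have h1 : ∀ s, phiT M ρ.deg (fun q => (ρ.wt s q : ℤ)) q =
      if s ∈ ρ.lowPart M ((ρ.motWeight w + 1) / 2) then ρ.weight s q else 0 := by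
    intro s
    have h2 : ∀ i, ∑ j, (ρ.wt s ⟨i, j⟩ : ℤ) = (ρ.deg i : ℤ) := by
      intro i
      exact_mod_cast ρ.sum_wt s i
    have h3 := mem_low_iff M ρ s
    rw [cenT_eq M ρ h] at h3
    unfold phiT
    by_cases hs : s ∈ ρ.lowPart M ((ρ.motWeight w + 1) / 2)
    · rw [if_pos hs, if_pos ⟨h2, h3.mp hs⟩]
      unfold Rep.weight
      rw [h q.1]
      simp
    · rw [if_neg hs, if_neg fun h4 => hs (h3.mpr h4.2)]
      rfl
  rw [Finset.sum_congr rfl fun s _ => h1 s, Finset.sum_ite_mem, Finset.univ_inter]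

theorem VT_ne {κ : Type} [Fintype κ] [DecidableEq κ] (ρ : Rep E σ κ) {δ : ι → ℕ}
    (h : ρ.deg ≠ δ) : VT M δ (chT ρ) = 0 := by
  rw [VT_chT]
  apply Finset.sum_eq_zero
  intro s _
  unfold phiT
  rw [if_neg]
  rintro ⟨h1, -⟩
  apply h
  funext i
  have h2 : ∑ j, (ρ.wt s ⟨i, j⟩ : ℤ) = (ρ.deg i : ℤ) := by
    exact_mod_cast ρ.sum_wt s i
  have h3 := h1 i
  rw [h2] at h3
  exact_mod_cast h3

/-- Motives without middle classes by parity. -/
theorem nm_parity {κ : Type} [Fintype κ] [DecidableEq κ] (ρ : Rep E σ κ)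
    (htw : ∀ i, ρ.twist i = 0) {j₀ : ι} (hj₀ : NoMid (σ j₀)) {v : ℤ} (hv : 0 < v)
    (hodd : ∀ x, ∃ o : ℤ, Odd o ∧ 2 * (M j₀).p x - w j₀ = v * o) (hd : Odd (ρ.deg j₀))
    (hother : ∀ i, i ≠ j₀ → ρ.deg i = 0 ∨
      ∀ x, ∃ o : ℤ, Even o ∧ 2 * (M i).p x - w i = v * o) : ρ.NoMiddle M := by
  classical
  rw [noMiddle_iff]
  intro s
  have h1 : ∀ q : Tot σ, ∃ o : ℤ, (q.1 = j₀ → Odd o) ∧ (q.1 ≠ j₀ → Even o) ∧
      (ρ.wt s q : ℤ) * (2 * (M q.1).hodgeIdx q.2 - w q.1) = v * ((ρ.wt s q : ℤ) * o) := by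
    rintro ⟨i, j⟩
    by_cases hi : i = j₀
    · subst hi
      obtain ⟨o, ho, h⟩ := cenI_odd M hj₀ hodd j
      refine ⟨o, fun _ => ho, fun h => absurd rfl h, ?_⟩
      unfold cenI at h
      rw [h]
      ring
    · rcases hother i hi with h0 | heven
      · refine ⟨0, fun h => absurd h hi, fun _ => Even.zero, ?_⟩
        have h2 : ρ.wt s ⟨i, j⟩ = 0 := by
          have h3 := ρ.sum_wt s i
          rw [h0] at h3
          exact (Finset.sum_eq_zero_iff.mp h3) j (Finset.mem_univ _)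
        rw [h2]
        simp
      · obtain ⟨o, ho, h⟩ := cenI_even M heven j
        refine ⟨o, fun h => absurd h hi, fun _ => ho, ?_⟩
        unfold cenI at h
        rw [h]
        ring
  choose o ho1 ho2 ho3 using h1
  rw [cenT_eq M ρ htw, Finset.sum_congr rfl fun q _ => ho3 q, ← Finset.mul_sum]
  refine mul_ne_zero hv.ne' ?_
  have h2 : Odd (∑ q : Tot σ, (ρ.wt s q : ℤ) * o q) := by
    rw [Fintype.sum_sigma, ← Finset.add_sum_erase _ _ (Finset.mem_univ j₀)]
    apply Odd.add_even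
    · have h3 : ∑ j, (ρ.wt s ⟨j₀, j⟩ : ℤ) * o ⟨j₀, j⟩ =
          ∑ j, (ρ.wt s ⟨j₀, j⟩ : ℤ) * (o ⟨j₀, j⟩ - 1) + (ρ.deg j₀ : ℤ) := by
        rw [← ρ.sum_wt s j₀]
        push_cast
        rw [← Finset.sum_add_distrib]
        apply Finset.sum_congr rfl
        intro j _
        ring
      rw [h3]
      apply Even.add_odd
      · apply Finset.even_sum
        intro j _
        exact ((ho1 ⟨j₀, j⟩ rfl).sub_odd odd_one).mul_left _
      · exact (Int.odd_coe_nat _).mpr hd
    · apply Finset.even_sum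
      intro i hi
      apply Finset.even_sum
      intro j _
      exact (ho2 ⟨i, j⟩ (Finset.ne_of_mem_erase hi)).mul_left _
  intro h3
  rw [h3] at h2
  exact absurd h2 (by decide)

end Pool.Agent.MP100fe7K
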