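import Pool.Agent.Lib.MP_100fe7_nt.Defs

/-!
Definitions for the closed formula for the Deligne periods of polynomial functors.
-/

namespace Pool.Agent.MP100fe7

open Matrix

/-- The basis vectors of `M_DR` in the second half with Hodge index `a`, i.e. (the index set of) an
`E`-basis of `Gr_F^a M_DR` for `2a < w`. -/
abbrev Block {R : Type} [CommRing R] {n : ℕ} {w : ℤ} (M : Datum R n w) (a : ℤ) : Type :=
  {i : Fin n // w - M.p i = a}

/-- `q` is the determinant of `F_∞ : M^{w-a, a} → M^{a, w-a}` for `2a < w`, in the `E`-bases of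
`Gr_F^{w-a} M_DR` and `Gr_F^a M_DR` given by the adapted basis of `M_DR`, where `M^{b, w-b}` is
identified with `Gr_F^b M_DR ⊗ ℂ` by the comparison isomorphism: `z i ∈ M^{w-a, a}` is the vector
whose class in `Gr_F^{w-a}` is that of the basis vector `i` of the first half, and `q` is the
determinant of the coordinates of `F_∞ (z j)` in `Gr_F^a`. -/
def IsHodgePeriod {R : Type} [CommRing R] {n : ℕ} {w : ℤ} (M : Datum R n w) (a : ℤ) (q : R) :
    Prop :=
  ∃ z : Block M a → Idx n → R,
    (∀ i, z i ∈ M.hodge (w - a)) ∧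
    (∀ (i : Block M a) (j : Idx n), M.hodgeIdx j ≤ w - a →
      M.comp.mulVec (z i) j = if j = Sum.inl i.1 then 1 else 0) ∧
    q = (Matrix.of fun i j : Block M a =>
      M.comp.mulVec ((frob R n).mulVec (z j)) (Sum.inr i.1)).det

/-- The Hodge indices `a < w/2` of `M`. -/
def lowIndices {R : Type} [CommRing R] {n : ℕ} {w : ℤ} (M : Datum R n w) : Finset ℤ :=
  Finset.univ.image fun i : Fin n => w - M.p i

/-- The basis vectors of `ρ(M)_B` on which `F_∞` acts by `ε = ±1`. -/
def signPart {E : Type} [Field E] {n k : ℕ} {κ : Type} [Fintype κ] [DecidableEq κ]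
    (ρ : PolyRep E n κ k) (ε : ℤ) : Finset κ :=
  Finset.univ.filter fun s => (-1 : ℤ) ^ (∑ i, ρ.wt s (Sum.inr i)) = ε

/-- The basis vectors of `ρ(M)_DR` with Hodge index `< kw/2`. -/
def lowPart {E : Type} [Field E] {R : Type} [CommRing R] {n k : ℕ} {w : ℤ} {κ : Type} [Fintype κ]
    [DecidableEq κ] (ρ : PolyRep E n κ k) (M : Datum R n w) : Finset κ :=
  Finset.univ.filter fun s => 2 * ρ.hodgeIdx M s < k * w

end Pool.Agent.MP100fe7
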