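import Pool.Agent.Lib.MP_100fe7_nt.CvExt
import Pool.Agent.Lib.MP_100fe7_nt.Defs2

/-!
Definitions for the group generated by the Deligne periods of all the motives `ρ(M)`, where `ρ` is
an algebraic representation of `GL_{2n}`.
-/

namespace Pool.Agent.MP100fe7Cv

open MP100fe7

section

variable {E : Type} [Field E] {R : Type} [CommRing R] {n k : ℕ} {w : ℤ} {κ : Type} [Fintype κ]
  [DecidableEq κ]

/-- The Hodge index of the `s`-th basis vector of the de Rham realisation of the motive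
`ρ(M) ⊗ det(M)^{⊗ (-m)}`. -/
def twIdx (ρ : PolyRep E n κ k) (m : ℤ) (M : Datum R n w) (s : κ) : ℤ :=
  ρ.hodgeIdx M s - m * ∑ j, M.hodgeIdx j

/-- The weight of the motive `ρ(M) ⊗ det(M)^{⊗ (-m)}`, `ρ` homogeneous of degree `k`. -/
def twWeight (n k : ℕ) (w m : ℤ) : ℤ := (k - m * (2 * n)) * w

/-- The motive `N = ρ(M) ⊗ det(M)^{⊗ (-m)}`, of weight `v`, has no classes of type
`(v/2, v/2)`. -/
def NoMiddleTw (ρ : PolyRep E n κ k) (m : ℤ) (M : Datum R n w) : Prop :=
  ∀ s, 2 * twIdx ρ m M s ≠ twWeight n k w m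

/-- `x` is a Deligne period `c^+(N)` (for `ε = 1`) or `c^-(N)` (for `ε = -1`) of the motive
`N = ρ(M) ⊗ det(M)^{⊗ (-m)}`, of weight `v`: it has `N_B = E^κ` with
`F_∞ = det(F_∞ | M_B)^{-m} ρ(F_∞)`, `N_DR = E^κ`, comparison isomorphism `det(comp)^{-m} ρ(comp)`,
and `F^a N_DR` is spanned by the basis vectors `s` with Hodge index `≥ a`. The columns of `A` are
an `E`-basis of `N^ε`, the matrix `B` is the projection of `N_DR` onto `N_DR / F^± N` written in an
`E`-basis of the quotient, `F^± = F^{[(v+1)/2]}`, and `x` is the determinant of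
`N^ε ⊗ ℂ → (N_DR / F^± N) ⊗ ℂ` in these `E`-bases. -/
def IsPeriodTw [Algebra E R] (ρ : PolyRep E n κ k) (m : ℤ) (M : Datum R n w) (ε : E)
    (x : R) : Prop :=
  ∃ (r : ℕ) (A : Matrix κ (Fin r) E) (B : Matrix (Fin r) κ E),
    Function.Injective A.mulVec ∧
    (∀ v : κ → E, v ∈ Set.range A.mulVec ↔
      ((frob E n).det ^ (-m) • evalMat ρ.mat E (frob E n)).mulVec v = ε • v) ∧
    Function.Surjective B.mulVec ∧
    (∀ v : κ → E, B.mulVec v = 0 ↔ ∀ s, twIdx ρ m M s < (twWeight n k w m + 1) / 2 → v s = 0) ∧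
    x = (B.map (algebraMap E R) * ((M.comp_unit.unit ^ (-m) : Rˣ) : R) • evalMat ρ.mat R M.comp *
      A.map (algebraMap E R)).det

end

section

variable (E : Type) [Field E] {R : Type} [CommRing R] [Algebra E R] {n : ℕ} {w : ℤ}
  (M : Datum R n w)

/-- The Deligne periods `c^+(N)` and `c^-(N)` of all the motives `N = ρ(M) ⊗ det(M)^{⊗ (-m)}`
without classes of type `(v/2, v/2)`, `v` the weight of `N`, for all homogeneous polynomial
representations `ρ` of `GL_{2n}` and all integers `m`, that is, of all the motives `ρ'(M)` for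
algebraic representations `ρ'` of `GL_{2n}` (homogeneous: pure motives). -/
def allPeriods : Set Rˣ :=
  {u | ∃ (k : ℕ) (κ : Type) (_ : Fintype κ) (_ : DecidableEq κ) (ρ : PolyRep E n κ k) (m : ℤ),
    NoMiddleTw ρ m M ∧ (IsPeriodTw ρ m M (1 : E) (u : R) ∨ IsPeriodTw ρ m M (-1 : E) (u : R))}

/-- The periods `c^+(M)`, `c^-(M)` and the Hodge periods `Q_a(M)`, `2a < w`. -/
def basicPeriods : Set Rˣ :=
  {u | IsPeriod (std E n) M (1 : E) (u : R) ∨ IsPeriod (std E n) M (-1 : E) (u : R) ∨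
    ∃ a ∈ lowIndices M, IsHodgePeriod M a (u : R)}

/-- The Deligne periods `c^+(N)` and `c^-(N)` of the motives
`N = Λ^{l_1} M ⊗ Λ^{l_2} M ⊗ … ⊗ Λ^{l_r} M` with `l_1 + l_2 + … + l_r` odd. -/
def tensorPeriods : Set Rˣ :=
  {u | ∃ l : List ℕ, Odd l.sum ∧
    (IsPeriod (extTensor E n l) M (1 : E) (u : R) ∨
      IsPeriod (extTensor E n l) M (-1 : E) (u : R))}

/-- The subgroup of `Rˣ` generated by `E^×` and by `P`. -/
def spanOver (P : Set Rˣ) : Subgroup Rˣ :=
  Subgroup.closure (Set.range (Units.map (algebraMap E R).toMonoidHom) ∪ P)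

end

end Pool.Agent.MP100fe7Cv
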