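import Mathlib

/-!
Betti - de Rham data of motives, polynomial functors and Deligne periods.
-/

namespace Pool.Agent.MP100fe7

open Matrix

/-- Index set of a basis, of cardinality `2n`, cut in two halves. -/
abbrev Idx (n : ℕ) := Fin n ⊕ Fin n

/-- The value at a matrix `A` over an `E`-algebra `S` of a matrix of polynomials over `E` in the
entries of a square matrix of size `2n`. -/
noncomputable def evalMat {E : Type} [Field E] {n : ℕ} {κ : Type}
    (mat : Matrix κ κ (MvPolynomial (Idx n × Idx n) E)) (S : Type) [CommRing S] [Algebra E S]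
    (A : Matrix (Idx n) (Idx n) S) : Matrix κ κ S :=
  mat.map (MvPolynomial.aeval fun q => A q.1 q.2)

/-- A homogeneous polynomial representation of degree `k` of `GL_{2n}` over `E`, written in a basis
of weight vectors: the representing matrix `mat`, with polynomial entries, and for each basis
vector `s` its weight `wt s` (the diagonal matrix `diag (x_j)` acts on it by
`∏_j x_j ^ (wt s j)`). -/
structure PolyRep (E : Type) [Field E] (n : ℕ) (κ : Type) [Fintype κ] [DecidableEq κ] (k : ℕ) where
  /-- the representing matrix -/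
  mat : Matrix κ κ (MvPolynomial (Idx n × Idx n) E)
  /-- the weights of the basis vectors -/
  wt : κ → Idx n → ℕ
  deg : ∀ s, ∑ j, wt s j = k
  map_mul : ∀ (S : Type) [CommRing S] [Algebra E S] (A B : Matrix (Idx n) (Idx n) S),
    evalMat mat S (A * B) = evalMat mat S A * evalMat mat S B
  map_diagonal : ∀ (S : Type) [CommRing S] [Algebra E S] (x : Idx n → S),
    evalMat mat S (diagonal x) = diagonal fun s => ∏ j, x j ^ wt s j

/-- The matrix of `F_∞` in a basis of `M_B` made of a basis of `M^+` and a basis of `M^-`. -/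
def frob (S : Type) [CommRing S] (n : ℕ) : Matrix (Idx n) (Idx n) S :=
  diagonal (Sum.elim (fun _ => 1) (fun _ => -1))

/-- The Betti - de Rham data of a motive of rank `2n`, pure of weight `w`, without classes of type
`(w/2, w/2)`, where `R` is the ring `E ⊗ ℂ`. The `E`-space `M_B` has a basis, indexed by `Idx n`,
made of a basis of `M^+` (first half) and one of `M^-` (second half). The `E`-space `M_DR` has a
basis adapted to the Hodge filtration: `F^a M_DR` is spanned by the basis vectors `j` with
`hodgeIdx j ≥ a`; the vectors of the first half have `hodgeIdx = p j > w/2`, those of the second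
half have `hodgeIdx = w - p j`. `comp` is the matrix of the comparison isomorphism, and `hodge a` is
`M^{a, w-a} ⊆ M_B ⊗ ℂ`. -/
structure Datum (R : Type) [CommRing R] (n : ℕ) (w : ℤ) where
  /-- the Hodge indices `> w/2` of the adapted basis of `M_DR` -/
  p : Fin n → ℤ
  two_p : ∀ j, w < 2 * p j
  /-- the matrix of the comparison isomorphism -/
  comp : Matrix (Idx n) (Idx n) R
  comp_unit : IsUnit comp.det
  /-- the Hodge decomposition `M_B ⊗ ℂ = ⊕ M^{a, w-a}` -/
  hodge : ℤ → Submodule R (Idx n → R)
  internal : DirectSum.IsInternal hodge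
  frob_hodge : ∀ a, (hodge a).map (frob R n).mulVecLin = hodge (w - a)
  fil_hodge : ∀ (a : ℤ) (y : Idx n → R),
    y ∈ (⨆ b, ⨆ (_ : a ≤ b), hodge b).map comp.mulVecLin ↔
      ∀ j, Sum.elim p (fun i => w - p i) j < a → y j = 0

/-- The Hodge index of the `j`-th vector of the adapted basis of `M_DR`. -/
def Datum.hodgeIdx {R : Type} [CommRing R] {n : ℕ} {w : ℤ} (M : Datum R n w) : Idx n → ℤ :=
  Sum.elim M.p (fun i => w - M.p i)

/-- The Hodge index of the `s`-th basis vector of the de Rham realisation of `ρ(M)`. -/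
def PolyRep.hodgeIdx {E : Type} [Field E] {R : Type} [CommRing R] {n k : ℕ} {w : ℤ} {κ : Type}
    [Fintype κ] [DecidableEq κ] (ρ : PolyRep E n κ k) (M : Datum R n w) (s : κ) : ℤ :=
  ∑ j, (ρ.wt s j : ℤ) * M.hodgeIdx j

/-- `ρ(M)` has no classes of type `(kw/2, kw/2)`. -/
def NoMiddle {E : Type} [Field E] {R : Type} [CommRing R] {n k : ℕ} {w : ℤ} {κ : Type}
    [Fintype κ] [DecidableEq κ] (ρ : PolyRep E n κ k) (M : Datum R n w) : Prop :=
  ∀ s, 2 * ρ.hodgeIdx M s ≠ k * w

/-- `x` is a Deligne period `c^+(ρ(M))` (for `ε = 1`) or `c^-(ρ(M))` (for `ε = -1`): the motive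
`N = ρ(M)` has `N_B = E^κ` with `F_∞ = ρ(F_∞)`, `N_DR = E^κ`, comparison isomorphism `ρ(comp)`,
and `F^a N_DR` is spanned by the basis vectors `s` with `hodgeIdx s ≥ a`. The columns of `A` are an
`E`-basis of `N^ε`, the matrix `B` is the projection of `N_DR` onto `N_DR / F^± N` written in an
`E`-basis of the quotient, `F^± = F^{[(kw+1)/2]}`, and `x` is the determinant of
`N^ε ⊗ ℂ → (N_DR / F^± N) ⊗ ℂ` in these `E`-bases. -/
def IsPeriod {E : Type} [Field E] {R : Type} [CommRing R] [Algebra E R] {n k : ℕ} {w : ℤ}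
    {κ : Type} [Fintype κ] [DecidableEq κ] (ρ : PolyRep E n κ k) (M : Datum R n w) (ε : E)
    (x : R) : Prop :=
  ∃ (m : ℕ) (A : Matrix κ (Fin m) E) (B : Matrix (Fin m) κ E),
    Function.Injective A.mulVec ∧
    (∀ v : κ → E, v ∈ Set.range A.mulVec ↔
      (evalMat ρ.mat E (frob E n)).mulVec v = ε • v) ∧
    Function.Surjective B.mulVec ∧
    (∀ v : κ → E, B.mulVec v = 0 ↔ ∀ s, ρ.hodgeIdx M s < (k * w + 1) / 2 → v s = 0) ∧
    x = (B.map (algebraMap E R) * evalMat ρ.mat R M.comp * A.map (algebraMap E R)).det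

/-- The standard representation of `GL_{2n}`: `std(M) = M`. -/
noncomputable def std (E : Type) [Field E] (n : ℕ) : PolyRep E n (Idx n) 1 where
  mat := Matrix.of fun i j => MvPolynomial.X (i, j)
  wt := fun s => Pi.single s 1
  deg := by
    intro s
    simp
  map_mul := by
    intro S _ _ A B
    ext i j
    simp [evalMat, Matrix.mul_apply]
  map_diagonal := by
    intro S _ _ x
    ext i j
    simp only [evalMat, Matrix.map_apply, Matrix.of_apply, MvPolynomial.aeval_X]
    by_cases h : i = j
    · subst h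
      simp only [diagonal_apply_eq]
      rw [Finset.prod_eq_single i]
      · simp
      · intro b _ hb
        simp [Pi.single_eq_of_ne hb]
      · simp
    · simp [h]

/-- The alternant `det (x_i ^ (l_j))` in `2n` variables. -/
noncomputable def alternant (n : ℕ) (l : Fin (n + n) → ℕ) : MvPolynomial (Idx n) ℤ :=
  (Matrix.of fun i j : Fin (n + n) => MvPolynomial.X (finSumFinEquiv.symm i) ^ l j).det

/-- The exponents `λ_j + 2n - 1 - j`, `0 ≤ j < 2n`. -/
def betaNumber {n : ℕ} (lam : Fin (n + n) → ℕ) (j : Fin (n + n)) : ℕ :=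
  lam j + (n + n - 1 - j)

/-- The character of `ρ` is the Schur polynomial `s_λ` in `2n` variables: the trace of `diag(x)`
times the alternant with exponents `2n-1, …, 1, 0` is the alternant with exponents
`λ_j + 2n - 1 - j`. -/
def IsSchur {E : Type} [Field E] {n k : ℕ} {κ : Type} [Fintype κ] [DecidableEq κ]
    (ρ : PolyRep E n κ k) (lam : Fin (n + n) → ℕ) : Prop :=
  (∑ s, ∏ j, (MvPolynomial.X j : MvPolynomial (Idx n) ℤ) ^ ρ.wt s j) *
    alternant n (betaNumber 0) = alternant n (betaNumber lam)

/-- number of even exponents `λ_j + 2n - 1 - j` -/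
def evenCount {n : ℕ} (lam : Fin (n + n) → ℕ) : ℕ :=
  (Finset.univ.filter fun j => Even (betaNumber lam j)).card

/-- the product of the half differences `(l_i - l_j)/2`, `i < j`, over the pairs of exponents
`l_j = λ_j + 2n - 1 - j` of the same parity -/
def halfProd {n : ℕ} (lam : Fin (n + n) → ℕ) : ℕ :=
  ∏ i, ∏ j ∈ Finset.Ioi i, if betaNumber lam i % 2 = betaNumber lam j % 2 then
    (betaNumber lam i - betaNumber lam j) / 2 else 1

end Pool.Agent.MP100fe7
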