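import Pool.Agent.Lib.MP_100fe7_nt.CvCB
import Pool.Agent.Lib.MP_100fe7_nt.Defs

/-!
Exterior powers and tensor products of polynomial representations.
-/

namespace Pool.Agent.MP100fe7Cv

open Matrix Finset MP100fe7

variable (E : Type) [Field E] (n : ℕ)

/-- the increasing numbering of a subset of `Idx n` with `k` elements, `Idx n = Fin (n + n)` -/
def emI {n k : ℕ} (S : Sub (n + n) k) (i : Fin k) : Idx n := finSumFinEquiv.symm (em S i)

theorem emI_inj {n k : ℕ} (S : Sub (n + n) k) : Function.Injective (emI S) :=
  finSumFinEquiv.symm.injective.comp (em S).injective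

/-- The `k`-th exterior power of the standard representation of `GL_{2n}`: in the basis of the
exterior products of `k` basis vectors the representing matrix is the matrix of the `k × k`
minors. -/
noncomputable def ext (k : ℕ) : PolyRep E n (Sub (n + n) k) k where
  mat := Matrix.of fun S T =>
    (Matrix.of fun i j : Fin k => (MvPolynomial.X (emI S i, emI T j) :
      MvPolynomial (Idx n × Idx n) E)).det
  wt := fun S j => if finSumFinEquiv j ∈ S.1 then 1 else 0
  deg := by
    intro S
    rw [← Finset.card_filter]
    have h1 : (Finset.univ.filter fun j : Idx n => finSumFinEquiv j ∈ S.1).card =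
        (S.1.map finSumFinEquiv.symm.toEmbedding).card := by
      congr 1
      ext j
      simp
    rw [h1, Finset.card_map, S.2]
  map_mul := by
    intro R _ _ A B
    ext S T
    have h0 : ∀ (C : Matrix (Idx n) (Idx n) R) (S T : Sub (n + n) k),
        (evalMat (Matrix.of fun S T =>
          (Matrix.of fun i j : Fin k => (MvPolynomial.X (emI S i, emI T j) :
            MvPolynomial (Idx n × Idx n) E)).det) R C) S T =
        (C.submatrix (emI S) (emI T)).det := by
      intro C S T
      simp only [evalMat, Matrix.map_apply, Matrix.of_apply]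
      rw [AlgHom.map_det]
      congr 1
      ext i j
      simp [AlgHom.mapMatrix_apply, Matrix.map_apply]
    rw [h0, Matrix.mul_apply]
    simp only [h0]
    have h1 : (A * B).submatrix (emI S) (emI T) =
        (A.submatrix (emI S) finSumFinEquiv.symm) * (B.submatrix finSumFinEquiv.symm (emI T)) := by
      rw [Matrix.submatrix_mul_equiv]
    rw [h1, cauchy_binet]
    rfl
  map_diagonal := by
    intro R _ _ x
    ext S T
    simp only [evalMat, Matrix.map_apply, Matrix.of_apply]
    rw [AlgHom.map_det]
    by_cases h : S = T
    · subst h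
      rw [diagonal_apply_eq]
      have h1 : (MvPolynomial.aeval fun q : Idx n × Idx n => (diagonal x : Matrix _ _ R) q.1 q.2 :
          MvPolynomial (Idx n × Idx n) E →ₐ[E] R).mapMatrix (Matrix.of fun i j : Fin k =>
            (MvPolynomial.X (emI S i, emI S j) : MvPolynomial (Idx n × Idx n) E)) =
          diagonal fun i => x (emI S i) := by
        ext i j
        simp only [AlgHom.mapMatrix_apply, Matrix.map_apply, Matrix.of_apply,
          MvPolynomial.aeval_X]
        by_cases hij : i = j
        · subst hij
          simp
        · rw [diagonal_apply_ne _ hij, diagonal_apply_ne _ fun h => hij (emI_inj S h)]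
      rw [h1, det_diagonal]
      have h2 : ∏ j, x j ^ (if finSumFinEquiv j ∈ S.1 then 1 else 0) =
          ∏ j ∈ Finset.univ.filter (fun j : Idx n => finSumFinEquiv j ∈ S.1), x j := by
        rw [Finset.prod_filter]
        apply Finset.prod_congr rfl
        intro j _
        split_ifs <;> simp
      rw [h2]
      have h3 : Finset.univ.filter (fun j : Idx n => finSumFinEquiv j ∈ S.1) =
          Finset.univ.image (emI S) := by
        ext j
        simp only [mem_filter, mem_univ, true_and, mem_image, emI]
        constructor
        · intro hj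
          rw [← image_em S] at hj
          obtain ⟨i, -, hi⟩ := Finset.mem_image.mp hj
          exact ⟨i, by rw [hi]; simp⟩
        · rintro ⟨i, rfl⟩
          rw [← image_em S]
          simp
      rw [h3, Finset.prod_image fun a _ b _ hab => emI_inj S hab]
    · rw [diagonal_apply_ne _ h]
      have h4 : ∃ i, ∀ j, emI S i ≠ emI T j := by
        by_contra hc
        push Not at hc
        apply h
        apply Subtype.ext
        apply Finset.eq_of_subset_of_card_le
        · intro y hy
          rw [← image_em S] at hy
          obtain ⟨i, -, rfl⟩ := Finset.mem_image.mp hy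
          obtain ⟨j, hj⟩ := hc i
          have h5 := finSumFinEquiv.symm.injective hj
          rw [h5, ← image_em T]
          exact Finset.mem_image_of_mem _ (Finset.mem_univ _)
        · rw [S.2, T.2]
      obtain ⟨i, hi⟩ := h4
      apply det_eq_zero_of_row_eq_zero i
      intro j
      simp only [AlgHom.mapMatrix_apply, Matrix.map_apply, Matrix.of_apply, MvPolynomial.aeval_X]
      exact diagonal_apply_ne _ (hi j)

/-- The trivial representation. -/
noncomputable def one : PolyRep E n Unit 0 where
  mat := 1
  wt := fun _ _ => 0
  deg := by simp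
  map_mul := by
    intro R _ _ A B
    simp [evalMat]
  map_diagonal := by
    intro R _ _ x
    ext i j
    simp [evalMat]

variable {E n}

/-- The tensor product of two representations. -/
noncomputable def tensor {κ₁ κ₂ : Type} [Fintype κ₁] [DecidableEq κ₁] [Fintype κ₂]
    [DecidableEq κ₂] {k₁ k₂ : ℕ} (ρ₁ : PolyRep E n κ₁ k₁) (ρ₂ : PolyRep E n κ₂ k₂) :
    PolyRep E n (κ₁ × κ₂) (k₁ + k₂) where
  mat := kroneckerMap (· * ·) ρ₁.mat ρ₂.mat
  wt := fun s j => ρ₁.wt s.1 j + ρ₂.wt s.2 j
  deg := by
    intro s
    rw [Finset.sum_add_distrib, ρ₁.deg, ρ₂.deg]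
  map_mul := by
    intro R _ _ A B
    have h0 : ∀ C : Matrix (Idx n) (Idx n) R, evalMat (kroneckerMap (· * ·) ρ₁.mat ρ₂.mat) R C =
        kroneckerMap (· * ·) (evalMat ρ₁.mat R C) (evalMat ρ₂.mat R C) := by
      intro C
      ext i j
      simp [evalMat, kroneckerMap_apply]
    rw [h0, h0, h0, ρ₁.map_mul, ρ₂.map_mul]
    exact mul_kronecker_mul _ _ _ _
  map_diagonal := by
    intro R _ _ x
    have h0 : ∀ C : Matrix (Idx n) (Idx n) R, evalMat (kroneckerMap (· * ·) ρ₁.mat ρ₂.mat) R C =
        kroneckerMap (· * ·) (evalMat ρ₁.mat R C) (evalMat ρ₂.mat R C) := by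
      intro C
      ext i j
      simp [evalMat, kroneckerMap_apply]
    rw [h0, ρ₁.map_diagonal, ρ₂.map_diagonal]
    ext ⟨a, b⟩ ⟨c, d⟩
    simp only [kroneckerMap_apply, diagonal_apply, Prod.mk.injEq]
    by_cases h1 : a = c
    · by_cases h2 : b = d
      · simp only [h1, h2, if_true, and_self]
        rw [← Finset.prod_mul_distrib]
        apply Finset.prod_congr rfl
        intro j _
        rw [pow_add]
      · simp [h2]
    · simp [h1]

/-- The index set of the basis of a tensor product of exterior powers. -/
def EIdx (n : ℕ) : List ℕ → Type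
  | [] => Unit
  | k :: l => Sub (n + n) k × EIdx n l

instance instFintypeEIdx (n : ℕ) : ∀ l : List ℕ, Fintype (EIdx n l)
  | [] => inferInstanceAs (Fintype Unit)
  | k :: l => by
    letI := instFintypeEIdx n l
    exact inferInstanceAs (Fintype (Sub (n + n) k × EIdx n l))

instance instDecEqEIdx (n : ℕ) : ∀ l : List ℕ, DecidableEq (EIdx n l)
  | [] => inferInstanceAs (DecidableEq Unit)
  | k :: l => by
    letI := instDecEqEIdx n l
    exact inferInstanceAs (DecidableEq (Sub (n + n) k × EIdx n l))

/-- The tensor product of the exterior powers of the standard representation of `GL_{2n}` of the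
degrees in the list `l`. -/
noncomputable def extTensor (E : Type) [Field E] (n : ℕ) :
    ∀ l : List ℕ, PolyRep E n (EIdx n l) l.sum
  | [] => one E n
  | k :: l => tensor (ext E n k) (extTensor E n l)

end Pool.Agent.MP100fe7Cv
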