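import Pool.Agent.Lib.MP_100fe7_nt.TFinal
import Pool.Agent.Lib.MP_100fe7_nt.CvExt

/-!
Operations on representations of a product of general linear groups: projections, reindexing,
tensor products, composition with polynomial functors.
-/

set_option linter.unusedSectionVars false

namespace Pool.Agent.MP100fe7Cv

open Matrix MP100fe7T

variable {E : Type} [Field E] {ι : Type} [Fintype ι] [DecidableEq ι] {σ : ι → Shape}

/-- The representation of the product of the groups `GL(σ i)` on the `i`-th space: the motive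
`M_i`. -/
noncomputable def projRep (E : Type) [Field E] {ι : Type} [Fintype ι] [DecidableEq ι]
    (σ : ι → Shape) (i : ι) : Rep E σ (σ i).Idx where
  mat := Matrix.of fun a b => MvPolynomial.X ⟨i, (a, b)⟩
  twist := fun _ => 0
  wt := fun s q => if q = ⟨i, s⟩ then 1 else 0
  deg := fun i' => if i' = i then 1 else 0
  sum_wt := by
    intro s i'
    by_cases h : i' = i
    · subst h
      rw [if_pos rfl, Finset.sum_eq_single s]
      · rw [if_pos rfl]
      · intro t _ ht
        rw [if_neg]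
        intro h
        apply ht
        exact eq_of_heq (Sigma.mk.inj h).2
      · simp
    · rw [if_neg h]
      apply Finset.sum_eq_zero
      intro t _
      rw [if_neg]
      intro h'
      exact h (Sigma.mk.inj h').1
  map_mul := by
    intro S _ _ A B
    ext a b
    simp only [evalMat, Matrix.map_apply, Matrix.of_apply, MvPolynomial.aeval_X, Pi.mul_apply,
      Matrix.mul_apply]
  map_diagonal := by
    intro S _ _ x
    ext a b
    simp only [evalMat, Matrix.map_apply, Matrix.of_apply, MvPolynomial.aeval_X]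
    by_cases h : a = b
    · subst h
      rw [diagonal_apply_eq, diagonal_apply_eq, Finset.prod_eq_single (⟨i, a⟩ : Tot σ)]
      · rw [if_pos rfl, pow_one]
      · intro q _ hq
        rw [if_neg hq, pow_zero]
      · simp
    · rw [diagonal_apply_ne _ h, diagonal_apply_ne _ h]

/-- The same representation with another numbering of the basis. -/
noncomputable def reindexRep {κ κ' : Type} [Fintype κ] [DecidableEq κ] [Fintype κ']
    [DecidableEq κ'] (ρ : Rep E σ κ) (f : κ' ≃ κ) : Rep E σ κ' where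
  mat := ρ.mat.submatrix f f
  twist := ρ.twist
  wt := fun s => ρ.wt (f s)
  deg := ρ.deg
  sum_wt := fun s i => ρ.sum_wt (f s) i
  map_mul := by
    intro S _ _ A B
    have h : ∀ C : Fam σ S, evalMat (ρ.mat.submatrix f f) S C =
        (evalMat ρ.mat S C).submatrix f f := fun C => rfl
    rw [h, h, h, ρ.map_mul, Matrix.submatrix_mul_equiv]
  map_diagonal := by
    intro S _ _ x
    have h : evalMat (ρ.mat.submatrix f f) S (fun i => diagonal fun j => x ⟨i, j⟩) =
        (evalMat ρ.mat S (fun i => diagonal fun j => x ⟨i, j⟩)).submatrix f f := rfl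
    rw [h, ρ.map_diagonal]
    ext a b
    rw [submatrix_apply, diagonal_apply, diagonal_apply]
    simp only [f.injective.eq_iff]

/-- The tensor product of two representations. -/
noncomputable def tensorRep {κ₁ κ₂ : Type} [Fintype κ₁] [DecidableEq κ₁] [Fintype κ₂]
    [DecidableEq κ₂] (ρ₁ : Rep E σ κ₁) (ρ₂ : Rep E σ κ₂) : Rep E σ (κ₁ × κ₂) where
  mat := kroneckerMap (· * ·) ρ₁.mat ρ₂.mat
  twist := fun i => ρ₁.twist i + ρ₂.twist i
  wt := fun s q => ρ₁.wt s.1 q + ρ₂.wt s.2 q
  deg := fun i => ρ₁.deg i + ρ₂.deg i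
  sum_wt := by
    intro s i
    rw [Finset.sum_add_distrib, ρ₁.sum_wt, ρ₂.sum_wt]
  map_mul := by
    intro S _ _ A B
    have h0 : ∀ C : Fam σ S, evalMat (kroneckerMap (· * ·) ρ₁.mat ρ₂.mat) S C =
        kroneckerMap (· * ·) (evalMat ρ₁.mat S C) (evalMat ρ₂.mat S C) := by
      intro C
      ext i j
      simp [evalMat, kroneckerMap_apply]
    rw [h0, h0, h0, ρ₁.map_mul, ρ₂.map_mul]
    exact mul_kronecker_mul _ _ _ _
  map_diagonal := by
    intro S _ _ x
    have h0 : ∀ C : Fam σ S, evalMat (kroneckerMap (· * ·) ρ₁.mat ρ₂.mat) S C =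
        kroneckerMap (· * ·) (evalMat ρ₁.mat S C) (evalMat ρ₂.mat S C) := by
      intro C
      ext i j
      simp [evalMat, kroneckerMap_apply]
    rw [h0, ρ₁.map_diagonal, ρ₂.map_diagonal]
    ext ⟨a, b⟩ ⟨c, d⟩
    simp only [kroneckerMap_apply, diagonal_apply, Prod.mk.injEq]
    by_cases h1 : a = c
    · by_cases h2 : b = d
      · simp only [h1, h2, if_true, and_self]
        rw [← Finset.prod_mul_distrib]
        apply Finset.prod_congr rfl
        intro j _
        rw [pow_add]
      · simp [h2]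
    · simp [h1]

/-- The composition of a polynomial functor with a polynomial representation of dimension `2N`. -/
noncomputable def compRep {N k : ℕ} {κ : Type} [Fintype κ] [DecidableEq κ]
    (ρ : MP100fe7.PolyRep E N κ k) (τ : Rep E σ (MP100fe7.Idx N)) : Rep E σ κ where
  mat := ρ.mat.map (MvPolynomial.aeval fun q => τ.mat q.1 q.2)
  twist := fun i => k * τ.twist i
  wt := fun s q => ∑ j, ρ.wt s j * τ.wt j q
  deg := fun i => k * τ.deg i
  sum_wt := by
    intro s i
    rw [Finset.sum_comm]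
    simp only [← Finset.mul_sum, τ.sum_wt]
    rw [← Finset.sum_mul, ρ.deg]
  map_mul := by
    intro S _ _ A B
    have h0 : ∀ C : Fam σ S, evalMat (ρ.mat.map (MvPolynomial.aeval fun q => τ.mat q.1 q.2)) S C =
        MP100fe7.evalMat ρ.mat S (evalMat τ.mat S C) := by
      intro C
      ext s t
      simp only [evalMat, MP100fe7.evalMat, Matrix.map_apply]
      rw [← AlgHom.comp_apply, MvPolynomial.comp_aeval]
    rw [h0, h0, h0, τ.map_mul, ρ.map_mul]
  map_diagonal := by
    intro S _ _ x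
    have h0 : ∀ C : Fam σ S, evalMat (ρ.mat.map (MvPolynomial.aeval fun q => τ.mat q.1 q.2)) S C =
        MP100fe7.evalMat ρ.mat S (evalMat τ.mat S C) := by
      intro C
      ext s t
      simp only [evalMat, MP100fe7.evalMat, Matrix.map_apply]
      rw [← AlgHom.comp_apply, MvPolynomial.comp_aeval]
    rw [h0, τ.map_diagonal, ρ.map_diagonal]
    congr 1
    funext s
    simp only [← Finset.prod_pow]
    rw [Finset.prod_comm]
    apply Finset.prod_congr rfl
    intro q _
    simp only [← pow_mul]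
    rw [Finset.prod_pow_eq_pow_sum]
    congr 1
    apply Finset.sum_congr rfl
    intro j _
    rw [mul_comm]

section hodge

variable {R : Type} [CommRing R] {w : ι → ℤ} (M : ∀ i, Datum R (σ i) (w i))

/-- twice the centred Hodge indices of `ρ(M)` -/
def cenT {κ : Type} [Fintype κ] [DecidableEq κ] (ρ : Rep E σ κ) (s : κ) : ℤ :=
  2 * ρ.hodgeIdx M s - ρ.motWeight w

theorem cenT_eq {κ : Type} [Fintype κ] [DecidableEq κ] (ρ : Rep E σ κ) (h : ∀ i, ρ.twist i = 0)
    (s : κ) : cenT M ρ s = ∑ q : Tot σ, (ρ.wt s q : ℤ) * (2 * (M q.1).hodgeIdx q.2 - w q.1) := by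
  have h1 : ρ.motWeight w = ∑ q : Tot σ, (ρ.wt s q : ℤ) * w q.1 := by
    rw [ρ.sum_wt_tot s w]
    unfold Rep.motWeight
    apply Finset.sum_congr rfl
    intro i _
    rw [h i]
    simp
  unfold cenT Rep.hodgeIdx
  rw [h1, Finset.mul_sum, ← Finset.sum_sub_distrib]
  apply Finset.sum_congr rfl
  intro q _
  unfold Rep.weight
  rw [h q.1]
  push_cast
  ring

theorem cenT_proj (i : ι) (s : (σ i).Idx) :
    cenT M (projRep E σ i) s = 2 * (M i).hodgeIdx s - w i := by
  rw [cenT_eq M _ (fun _ => rfl), Finset.sum_eq_single (⟨i, s⟩ : Tot σ)]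
  · simp [projRep]
  · intro q _ hq
    simp only [projRep]
    rw [if_neg hq]
    simp
  · simp

theorem cenT_reindex {κ κ' : Type} [Fintype κ] [DecidableEq κ] [Fintype κ']
    [DecidableEq κ'] (ρ : Rep E σ κ) (f : κ' ≃ κ) (s : κ') :
    cenT M (reindexRep ρ f) s = cenT M ρ (f s) := rfl

theorem cenT_tensor {κ₁ κ₂ : Type} [Fintype κ₁] [DecidableEq κ₁] [Fintype κ₂]
    [DecidableEq κ₂] (ρ₁ : Rep E σ κ₁) (ρ₂ : Rep E σ κ₂) (h₁ : ∀ i, ρ₁.twist i = 0)
    (h₂ : ∀ i, ρ₂.twist i = 0) (s : κ₁ × κ₂) :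
    cenT M (tensorRep ρ₁ ρ₂) s = cenT M ρ₁ s.1 + cenT M ρ₂ s.2 := by
  rw [cenT_eq M _ (fun i => by change ρ₁.twist i + ρ₂.twist i = 0; rw [h₁, h₂]),
    cenT_eq M _ h₁, cenT_eq M _ h₂, ← Finset.sum_add_distrib]
  apply Finset.sum_congr rfl
  intro q _
  change ((ρ₁.wt s.1 q + ρ₂.wt s.2 q : ℕ) : ℤ) * _ = _
  push_cast
  ring

theorem cenT_comp {N k : ℕ} {κ : Type} [Fintype κ] [DecidableEq κ]
    (ρ : MP100fe7.PolyRep E N κ k) (τ : Rep E σ (MP100fe7.Idx N)) (h : ∀ i, τ.twist i = 0)
    (s : κ) : cenT M (compRep ρ τ) s = ∑ j, cenT M τ j * (ρ.wt s j : ℤ) := by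
  rw [cenT_eq M _ (fun i => by change k * τ.twist i = 0; rw [h, mul_zero])]
  have h1 : ∀ j, cenT M τ j * (ρ.wt s j : ℤ) = ∑ q : Tot σ,
      ((ρ.wt s j : ℤ) * (τ.wt j q : ℤ)) * (2 * (M q.1).hodgeIdx q.2 - w q.1) := by
    intro j
    rw [cenT_eq M _ h, Finset.sum_mul]
    apply Finset.sum_congr rfl
    intro q _
    ring
  rw [Finset.sum_congr rfl fun j _ => h1 j, Finset.sum_comm]
  apply Finset.sum_congr rfl
  intro q _
  rw [← Finset.sum_mul]
  congr 1
  change ((∑ j, ρ.wt s j * τ.wt j q : ℕ) : ℤ) = _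
  push_cast
  rfl

end hodge

end Pool.Agent.MP100fe7Cv
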