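import Pool.Agent.Lib.MP_100fe7_nt.CvExt
import Pool.Agent.Lib.MP_100fe7_nt.CvR

/-!
Exterior powers of the motives of a family, and tensor products of exterior powers.
-/

namespace Pool.Agent.MP100fe7Cv

open Matrix MP100fe7T

variable {ι : Type} [Fintype ι] [DecidableEq ι] {σ : ι → Shape}

/-- The numbering of the basis of a motive. -/
def numIdx (s : Shape) : s.Idx ≃ Fin ((s.n + s.n) + (s.m + s.r)) :=
  (Equiv.sumCongr finSumFinEquiv finSumFinEquiv).trans finSumFinEquiv

/-- The `a`-th element, in increasing order, of a subset with `k` elements of the basis of the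
`i`-th motive. -/
def emT {σ : ι → Shape} {i : ι} {k : ℕ} (S : Sub ((σ i).n + (σ i).n + ((σ i).m + (σ i).r)) k)
    (a : Fin k) : (σ i).Idx := (numIdx (σ i)).symm (em S a)

theorem emT_inj {i : ι} {k : ℕ} (S : Sub ((σ i).n + (σ i).n + ((σ i).m + (σ i).r)) k) :
    Function.Injective (emT S) :=
  (numIdx (σ i)).symm.injective.comp (em S).injective

theorem prod_emT {i : ι} {k : ℕ} (S : Sub ((σ i).n + (σ i).n + ((σ i).m + (σ i).r)) k)
    {R : Type} [CommRing R] (f : (σ i).Idx → R) :
    ∏ a, f (emT S a) = ∏ y ∈ S.1, f ((numIdx (σ i)).symm y) := by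
  conv_rhs => rw [← image_em S]
  rw [Finset.prod_image fun a _ b _ hab => (em S).injective hab]
  rfl

/-- The matrix of the `k × k` minors of the generic matrix of the `i`-th motive. -/
noncomputable def extMat (E : Type) [Field E] {ι : Type} (σ : ι → Shape) (i : ι) (k : ℕ) :
    Matrix (Sub ((σ i).n + (σ i).n + ((σ i).m + (σ i).r)) k)
      (Sub ((σ i).n + (σ i).n + ((σ i).m + (σ i).r)) k)
      (MvPolynomial (Σ i, (σ i).Idx × (σ i).Idx) E) :=
  Matrix.of fun S T => (Matrix.of fun a b : Fin k =>
    (MvPolynomial.X ⟨i, (emT S a, emT T b)⟩ :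
      MvPolynomial (Σ i, (σ i).Idx × (σ i).Idx) E)).det

/-- The weights of the exterior products of `k` basis vectors of the `i`-th motive. -/
def extWt {ι : Type} [DecidableEq ι] (σ : ι → Shape) (i : ι) (k : ℕ)
    (S : Sub ((σ i).n + (σ i).n + ((σ i).m + (σ i).r)) k) (q : Tot σ) : ℕ :=
  ∑ y ∈ S.1, if q = ⟨i, (numIdx (σ i)).symm y⟩ then 1 else 0

theorem extMat_eval (E : Type) [Field E] {ι : Type} (σ : ι → Shape) (i : ι) (k : ℕ) {R : Type}
    [CommRing R] [Algebra E R] (C : Fam σ R)
    (S T : Sub ((σ i).n + (σ i).n + ((σ i).m + (σ i).r)) k) :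
    MP100fe7T.evalMat (extMat E σ i k) R C S T = ((C i).submatrix (emT S) (emT T)).det := by
  simp only [MP100fe7T.evalMat, extMat, Matrix.map_apply, Matrix.of_apply]
  rw [AlgHom.map_det]
  congr 1
  ext a b
  simp [AlgHom.mapMatrix_apply, Matrix.map_apply]

theorem extWt_sum {ι : Type} [DecidableEq ι] (σ : ι → Shape) (i : ι) (k : ℕ)
    (S : Sub ((σ i).n + (σ i).n + ((σ i).m + (σ i).r)) k) (i' : ι) :
    ∑ j, extWt σ i k S ⟨i', j⟩ = if i' = i then k else 0 := by
  unfold extWt
  rw [Finset.sum_comm]
  by_cases h : i' = i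
  · subst h
    rw [if_pos rfl, Finset.sum_congr rfl (g := fun _ => 1), Finset.sum_const, S.2, smul_eq_mul,
      mul_one]
    intro y _
    rw [Finset.sum_eq_single ((numIdx (σ i')).symm y)]
    · rw [if_pos rfl]
    · intro j _ hj
      rw [if_neg]
      intro h'
      exact hj (eq_of_heq (Sigma.mk.inj h').2)
    · simp
  · rw [if_neg h]
    apply Finset.sum_eq_zero
    intro y _
    apply Finset.sum_eq_zero
    intro j _
    rw [if_neg]
    intro h'
    exact h (Sigma.mk.inj h').1

theorem extMat_mul (E : Type) [Field E] {ι : Type} (σ : ι → Shape) (i : ι) (k : ℕ) (R : Type)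
    [CommRing R] [Algebra E R] (A B : Fam σ R) :
    MP100fe7T.evalMat (extMat E σ i k) R (A * B) =
      MP100fe7T.evalMat (extMat E σ i k) R A * MP100fe7T.evalMat (extMat E σ i k) R B := by
  ext S T
  rw [extMat_eval, Matrix.mul_apply]
  simp only [extMat_eval]
  have h1 : ((A * B) i).submatrix (emT S) (emT T) =
      ((A i).submatrix (emT S) (numIdx (σ i)).symm) *
        ((B i).submatrix (numIdx (σ i)).symm (emT T)) := by
    rw [Matrix.submatrix_mul_equiv]
    rfl
  rw [h1, cauchy_binet]
  rfl

theorem extMat_diagonal (E : Type) [Field E] {ι : Type} [Fintype ι] [DecidableEq ι] (σ : ι → Shape)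
    (i : ι) (k : ℕ) (R : Type) [CommRing R] [Algebra E R] (x : Tot σ → R) :
    MP100fe7T.evalMat (extMat E σ i k) R (fun i => diagonal fun j => x ⟨i, j⟩) =
      diagonal fun S => ∏ q, x q ^ extWt σ i k S q := by
  ext S T
  rw [extMat_eval]
  by_cases h : S = T
  · subst h
    rw [diagonal_apply_eq]
    have h1 : (diagonal fun j => x ⟨i, j⟩ : Matrix (σ i).Idx (σ i).Idx R).submatrix (emT S) (emT S) =
        diagonal fun a => x ⟨i, emT S a⟩ := by
      ext a b
      rw [Matrix.submatrix_apply]
      by_cases hab : a = b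
      · subst hab
        rw [diagonal_apply_eq, diagonal_apply_eq]
      · rw [diagonal_apply_ne _ hab, diagonal_apply_ne _ fun h => hab (emT_inj S h)]
    rw [h1, det_diagonal, prod_emT S (fun j => x ⟨i, j⟩)]
    unfold extWt
    simp only [← Finset.prod_pow_eq_pow_sum]
    rw [Finset.prod_comm]
    apply Finset.prod_congr rfl
    intro y _
    rw [Finset.prod_eq_single (⟨i, (numIdx (σ i)).symm y⟩ : Tot σ)]
    · rw [if_pos rfl, pow_one]
    · intro q _ hq
      rw [if_neg hq, pow_zero]
    · simp
  · rw [diagonal_apply_ne _ h]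
    have h4 : ∃ a, ∀ b, emT S a ≠ emT T b := by
      by_contra hc
      push Not at hc
      apply h
      apply Subtype.ext
      apply Finset.eq_of_subset_of_card_le
      · intro y hy
        rw [← image_em S] at hy
        obtain ⟨a, -, rfl⟩ := Finset.mem_image.mp hy
        obtain ⟨b, hb⟩ := hc a
        have h5 := (numIdx (σ i)).symm.injective hb
        rw [h5, ← image_em T]
        exact Finset.mem_image_of_mem _ (Finset.mem_univ _)
      · rw [S.2, T.2]
    obtain ⟨a, ha⟩ := h4
    apply det_eq_zero_of_row_eq_zero a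
    intro b
    rw [Matrix.submatrix_apply]
    exact diagonal_apply_ne (fun j => x ⟨i, j⟩) (ha b)

/-- The `k`-th exterior power of the `i`-th motive: in the basis of the exterior products of `k`
basis vectors the representing matrix is the matrix of the `k × k` minors. -/
noncomputable def extRep (E : Type) [Field E] {ι : Type} [Fintype ι] [DecidableEq ι]
    (σ : ι → Shape) (i : ι) (k : ℕ) :
    Rep E σ (Sub ((σ i).n + (σ i).n + ((σ i).m + (σ i).r)) k) where
  mat := extMat E σ i k
  twist := fun _ => 0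
  wt := extWt σ i k
  deg := fun i' => if i' = i then k else 0
  sum_wt := extWt_sum σ i k
  map_mul := fun R _ _ => extMat_mul E σ i k R
  map_diagonal := fun R _ _ => extMat_diagonal E σ i k R

/-- The index set of the basis of a tensor product of exterior powers of the motives: for every
member `(i, k)` of the list a subset with `k` elements of the basis of the `i`-th motive. -/
def TIdx {ι : Type} (σ : ι → Shape) (L : List (ι × ℕ)) : Type :=
  ∀ a : Fin L.length, Sub ((σ (L.get a).1).n + (σ (L.get a).1).n +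
    ((σ (L.get a).1).m + (σ (L.get a).1).r)) (L.get a).2

instance instFintypeTIdx {ι : Type} (σ : ι → Shape) (L : List (ι × ℕ)) : Fintype (TIdx σ L) :=
  inferInstanceAs (Fintype (∀ a : Fin L.length, Sub ((σ (L.get a).1).n + (σ (L.get a).1).n +
    ((σ (L.get a).1).m + (σ (L.get a).1).r)) (L.get a).2))

instance instDecEqTIdx {ι : Type} (σ : ι → Shape) (L : List (ι × ℕ)) : DecidableEq (TIdx σ L) :=
  inferInstanceAs (DecidableEq (∀ a : Fin L.length, Sub ((σ (L.get a).1).n + (σ (L.get a).1).n +
    ((σ (L.get a).1).m + (σ (L.get a).1).r)) (L.get a).2))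

/-- The matrix of the tensor product of the exterior powers: the products of the minors. -/
noncomputable def tenMat (E : Type) [Field E] {ι : Type} (σ : ι → Shape) (L : List (ι × ℕ)) :
    Matrix (TIdx σ L) (TIdx σ L) (MvPolynomial (Σ i, (σ i).Idx × (σ i).Idx) E) :=
  Matrix.of fun S T => ∏ a, extMat E σ (L.get a).1 (L.get a).2 (S a) (T a)

/-- The weights of the tensor product of the exterior powers. -/
def tenWt {ι : Type} [DecidableEq ι] (σ : ι → Shape) (L : List (ι × ℕ)) (S : TIdx σ L)
    (q : Tot σ) : ℕ :=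
  ∑ a, extWt σ (L.get a).1 (L.get a).2 (S a) q

theorem tenMat_eval (E : Type) [Field E] {ι : Type} (σ : ι → Shape) (L : List (ι × ℕ)) {R : Type}
    [CommRing R] [Algebra E R] (C : Fam σ R) (S T : TIdx σ L) :
    MP100fe7T.evalMat (tenMat E σ L) R C S T =
      ∏ a, MP100fe7T.evalMat (extMat E σ (L.get a).1 (L.get a).2) R C (S a) (T a) := by
  simp only [MP100fe7T.evalMat, tenMat, Matrix.map_apply, Matrix.of_apply, map_prod]

theorem tenWt_sum {ι : Type} [DecidableEq ι] (σ : ι → Shape) (L : List (ι × ℕ)) (S : TIdx σ L)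
    (i : ι) : ∑ j, tenWt σ L S ⟨i, j⟩ =
      ∑ a : Fin L.length, if i = (L.get a).1 then (L.get a).2 else 0 := by
  unfold tenWt
  rw [Finset.sum_comm]
  exact Finset.sum_congr rfl fun a _ => extWt_sum σ _ _ (S a) i

theorem tenMat_mul (E : Type) [Field E] {ι : Type} (σ : ι → Shape) (L : List (ι × ℕ)) (R : Type)
    [CommRing R] [Algebra E R] (A B : Fam σ R) :
    MP100fe7T.evalMat (tenMat E σ L) R (A * B) =
      MP100fe7T.evalMat (tenMat E σ L) R A * MP100fe7T.evalMat (tenMat E σ L) R B := by
  ext S T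
  rw [tenMat_eval, Matrix.mul_apply]
  simp only [tenMat_eval, extMat_mul, Matrix.mul_apply]
  rw [Finset.prod_univ_sum, Fintype.piFinset_univ]
  exact Finset.sum_congr rfl fun U _ => Finset.prod_mul_distrib

theorem tenMat_diagonal (E : Type) [Field E] {ι : Type} [Fintype ι] [DecidableEq ι] (σ : ι → Shape)
    (L : List (ι × ℕ)) (R : Type) [CommRing R] [Algebra E R] (x : Tot σ → R) :
    MP100fe7T.evalMat (tenMat E σ L) R (fun i => diagonal fun j => x ⟨i, j⟩) =
      diagonal fun S => ∏ q, x q ^ tenWt σ L S q := by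
  ext S T
  rw [tenMat_eval]
  simp only [extMat_diagonal]
  by_cases h : S = T
  · subst h
    rw [diagonal_apply_eq]
    simp only [diagonal_apply_eq, tenWt, ← Finset.prod_pow_eq_pow_sum]
    rw [Finset.prod_comm]
  · rw [diagonal_apply_ne _ h]
    obtain ⟨a, ha⟩ := Function.ne_iff.mp h
    exact Finset.prod_eq_zero (Finset.mem_univ a) (diagonal_apply_ne _ ha)

/-- The tensor product of the exterior powers `Λ^k M_i`, `(i, k)` in the list `L`. -/
noncomputable def tensorExt (E : Type) [Field E] {ι : Type} [Fintype ι] [DecidableEq ι]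
    (σ : ι → Shape) (L : List (ι × ℕ)) : Rep E σ (TIdx σ L) where
  mat := tenMat E σ L
  twist := fun _ => 0
  wt := tenWt σ L
  deg := fun i => ∑ a : Fin L.length, if i = (L.get a).1 then (L.get a).2 else 0
  sum_wt := tenWt_sum σ L
  map_mul := fun R _ _ => tenMat_mul E σ L R
  map_diagonal := fun R _ _ => tenMat_diagonal E σ L R

theorem tensorExt_twist (E : Type) [Field E] (L : List (ι × ℕ)) (i : ι) :
    (tensorExt E σ L).twist i = 0 := rfl

end Pool.Agent.MP100fe7Cv
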