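import Pool.Agent.Lib.MP_100fe7_nt.CvTwo

/-!
Polynomials in finitely many finite sets of variables which are symmetric in each of them: they are
integral combinations of products of elementary symmetric polynomials of the sets.
-/

namespace Pool.Agent.MP100fe7Cv

open MvPolynomial

/-- one set is separated: the coefficients inherit the symmetries -/
theorem two_step {α β : Type} [Fintype α] (G : Set (Equiv.Perm β))
    (f : MvPolynomial (α ⊕ β) ℤ) (h1 : ∀ e : Equiv.Perm α, rename (Sum.map e id) f = f)
    (h2 : ∀ e ∈ G, rename (Sum.map id e) f = f) :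
    f ∈ Submodule.span ℤ {g | ∃ (l : List ℕ) (c : MvPolynomial β ℤ),
      (∀ e ∈ G, rename e c = c) ∧
        g = rename Sum.inl ((l.map (esymm α ℤ)).prod) * rename Sum.inr c} := by
  classical
  obtain ⟨g, hg⟩ : ∃ g, g = sumAlgEquiv ℤ α β f := ⟨_, rfl⟩
  have hsym : g.IsSymmetric := by
    intro e
    rw [hg, ← two_left, h1]
  have hmap : ∀ e ∈ G,
      map (rename e : MvPolynomial β ℤ →ₐ[ℤ] MvPolynomial β ℤ).toRingHom g = g := by
    intro e he
    rw [hg, ← two_right, h2 e he]
  obtain ⟨P, hP⟩ := esymmAlgHom_surjective (σ := α) (MvPolynomial β ℤ) (n := Fintype.card α)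
    le_rfl ⟨g, hsym⟩
  have hgP : g = (aeval fun i : Fin (Fintype.card α) =>
      esymm α (MvPolynomial β ℤ) (i + 1)) P := by
    rw [← esymmAlgHom_apply, hP]
  -- the coefficients of `P` are invariant
  have hc : ∀ (t : Fin (Fintype.card α) →₀ ℕ), ∀ e ∈ G, rename e (coeff t P) = coeff t P := by
    intro t e he
    obtain ⟨φ, hφ⟩ : ∃ φ, φ = (rename e : MvPolynomial β ℤ →ₐ[ℤ] MvPolynomial β ℤ).toRingHom :=
      ⟨_, rfl⟩
    have h3 : map φ ((aeval fun i : Fin (Fintype.card α) =>
        esymm α (MvPolynomial β ℤ) (i + 1)) P) =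
        (aeval fun i : Fin (Fintype.card α) => esymm α (MvPolynomial β ℤ) (i + 1)) (map φ P) := by
      have h4 : ((map φ).comp (aeval fun i : Fin (Fintype.card α) =>
          esymm α (MvPolynomial β ℤ) (i + 1)).toRingHom) =
          ((aeval fun i : Fin (Fintype.card α) =>
            esymm α (MvPolynomial β ℤ) (i + 1)).toRingHom.comp (map φ)) := by
        apply MvPolynomial.ringHom_ext
        · intro r
          simp
        · intro i
          simp [map_esymm]
      exact RingHom.congr_fun h4 P
    have h5 : map φ P = P := by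
      apply esymmAlgHom_injective (σ := α) (MvPolynomial β ℤ) (n := Fintype.card α) le_rfl
      apply Subtype.ext
      have h6 := hmap e he
      rw [← hφ, hgP, h3] at h6
      have h7 := esymmAlgHom_apply (σ := α) (n := Fintype.card α) (map φ P)
      have h8 := esymmAlgHom_apply (σ := α) (n := Fintype.card α) P
      exact h7.trans (h6.trans h8.symm)
    have h9 : coeff t (map φ P) = coeff t P := by rw [h5]
    rw [coeff_map, hφ] at h9
    exact h9
  -- the expansion
  have hf : f = ∑ t ∈ P.support, (sumAlgEquiv ℤ α β).symm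
      ((aeval fun i : Fin (Fintype.card α) => esymm α (MvPolynomial β ℤ) (i + 1))
        (monomial t (coeff t P))) := by
    rw [← map_sum, ← map_sum, ← P.as_sum, ← hgP, hg, AlgEquiv.symm_apply_apply]
  rw [hf]
  apply Submodule.sum_mem
  intro t _
  obtain ⟨l, hl⟩ := two_list (β := α) (MvPolynomial β ℤ) t
  have h3 : (sumAlgEquiv ℤ α β).symm
      ((aeval fun i : Fin (Fintype.card α) => esymm α (MvPolynomial β ℤ) (i + 1))
        (monomial t (coeff t P))) =
      rename Sum.inl ((l.map (esymm α ℤ)).prod) * rename Sum.inr (coeff t P) := by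
    rw [AlgEquiv.symm_apply_eq, map_mul, two_inr, two_inl_list, ← hl]
    have h4 : monomial t (coeff t P) = (coeff t P) • (monomial t (1 : MvPolynomial β ℤ)) := by
      rw [smul_monomial, smul_eq_mul, mul_one]
    rw [h4, map_smul, smul_eq_C_mul, mul_comm]
  rw [h3]
  exact Submodule.subset_span ⟨l, coeff t P, hc t, rfl⟩

/-- the products of elementary symmetric polynomials of the sets -/
def famGen {ι : Type} (α : ι → Type) [∀ i, Fintype (α i)] : Set (MvPolynomial (Σ i, α i) ℤ) :=
  {g | ∃ L : List (ι × ℕ), g =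
    (L.map fun t => rename (Sigma.mk t.1) (esymm (α t.1) ℤ t.2)).prod}

/-- the symmetries of the family -/
def famPerm {ι : Type} {α : ι → Type} (π : ∀ i, Equiv.Perm (α i)) (q : Σ i, α i) : Σ i, α i :=
  ⟨q.1, π q.1 q.2⟩

/-- the statement for one index type -/
def FamP (ι : Type) : Prop :=
  ∀ (α : ι → Type) [∀ i, Fintype (α i)] (f : MvPolynomial (Σ i, α i) ℤ),
    (∀ π : ∀ i, Equiv.Perm (α i), rename (famPerm π) f = f) →
      f ∈ Submodule.span ℤ (famGen α)

theorem famP_of_equiv {ι ι' : Type} (e : ι ≃ ι') (h : FamP ι) : FamP ι' := by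
  intro α _ f hf
  obtain ⟨s, hs⟩ : ∃ s : (Σ i, α (e i)) ≃ Σ i, α i, ∀ i a, s ⟨i, a⟩ = ⟨e i, a⟩ :=
    ⟨Equiv.sigmaCongrLeft e, fun _ _ => rfl⟩
  have h1 : rename s.symm f ∈ Submodule.span ℤ (famGen fun i => α (e i)) := by
    apply h (fun i => α (e i))
    intro π
    have h2 : famPerm π ∘ s.symm = s.symm ∘ famPerm ((Equiv.piCongrLeft
        (fun i' => Equiv.Perm (α i')) e) π) := by
      funext q
      obtain ⟨q', rfl⟩ := s.surjective q
      obtain ⟨i, a⟩ := q'
      rw [Function.comp_apply, Function.comp_apply, Equiv.symm_apply_apply, Equiv.eq_symm_apply,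
        hs i a]
      unfold famPerm
      rw [hs]
      have h3 := Equiv.piCongrLeft_apply_apply (fun i' => Equiv.Perm (α i')) e π i
      show (⟨e i, π i a⟩ : Σ i, α i) = ⟨e i, (Equiv.piCongrLeft
        (fun i' => Equiv.Perm (α i')) e) π (e i) a⟩
      rw [h3]
    rw [rename_rename, h2, ← rename_rename, hf]
  have h2 : f = rename s (rename s.symm f) := by
    rw [rename_rename, Equiv.self_comp_symm, rename_id_apply]
  rw [h2]
  have h3 := Submodule.mem_map_of_mem (f := (rename s :
    MvPolynomial (Σ i, α (e i)) ℤ →ₐ[ℤ] _).toLinearMap) h1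
  rw [Submodule.map_span] at h3
  refine Submodule.span_mono ?_ h3
  rintro _ ⟨_, ⟨L, rfl⟩, rfl⟩
  refine ⟨L.map fun t => (e t.1, t.2), ?_⟩
  rw [AlgHom.toLinearMap_apply, map_list_prod, List.map_map, List.map_map]
  congr 1
  apply List.map_congr_left
  intro t _
  rw [Function.comp_apply, Function.comp_apply, rename_rename]
  have h4 : (s : (Σ i, α (e i)) → Σ i, α i) ∘ (@Sigma.mk ι (fun i => α (e i)) t.1) =
      Sigma.mk (e t.1) := by
    funext a
    exact hs t.1 a
  rw [h4]

theorem famP_empty : FamP PEmpty := by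
  intro α _ f _
  have h1 : f = (coeff 0 f) • (1 : MvPolynomial (Σ i : PEmpty, α i) ℤ) := by
    rw [smul_eq_C_mul, mul_one]
    exact eq_C_of_isEmpty f
  rw [h1]
  exact Submodule.smul_mem _ _ (Submodule.subset_span ⟨[], rfl⟩)

/-- the first set is separated -/
def optEquiv {ι : Type} (α : Option ι → Type) :
    (Σ i, α i) ≃ α none ⊕ Σ i : ι, α (some i) where
  toFun q := match q with
    | ⟨none, a⟩ => Sum.inl a
    | ⟨some i, a⟩ => Sum.inr ⟨i, a⟩
  invFun q := match q with
    | Sum.inl a => ⟨none, a⟩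
    | Sum.inr ⟨i, a⟩ => ⟨some i, a⟩
  left_inv q := by
    obtain ⟨i, a⟩ := q
    cases i <;> rfl
  right_inv q := by
    rcases q with a | ⟨i, a⟩ <;> rfl

theorem famP_option {ι : Type} (h : FamP ι) : FamP (Option ι) := by
  intro α _ f hf
  obtain ⟨s, hs⟩ : ∃ s, s = optEquiv α := ⟨_, rfl⟩
  obtain ⟨G, hG⟩ : ∃ G : Set (Equiv.Perm (Σ i : ι, α (some i))), G =
      {e : Equiv.Perm (Σ i : ι, α (some i)) | ∃ π : ∀ i : ι, Equiv.Perm (α (some i)),
        ⇑e = famPerm π} := ⟨_, rfl⟩
  have h1 : rename s f ∈ Submodule.span ℤ {g | ∃ (l : List ℕ)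
      (c : MvPolynomial (Σ i : ι, α (some i)) ℤ), (∀ e ∈ G, rename e c = c) ∧
        g = rename Sum.inl ((l.map (esymm (α none) ℤ)).prod) * rename Sum.inr c} := by
    apply two_step G
    · intro e
      have h2 : Sum.map e id ∘ s = s ∘ famPerm (α := α)
          (fun i => match i with
            | none => e
            | some i => Equiv.refl _) := by
        funext q
        obtain ⟨i, a⟩ := q
        rw [hs]
        cases i <;> rfl
      rw [rename_rename, h2, ← rename_rename, hf]
    · intro e he
      rw [hG] at he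
      obtain ⟨π, hπ⟩ := he
      have h2 : Sum.map id e ∘ s = s ∘ famPerm (α := α)
          (fun i => match i with
            | none => Equiv.refl _
            | some i => π i) := by
        funext q
        obtain ⟨i, a⟩ := q
        rw [hs, hπ]
        cases i <;> rfl
      rw [rename_rename, h2, ← rename_rename, hf]
  have h2 : f = rename s.symm (rename s f) := by
    rw [rename_rename, Equiv.symm_comp_self, rename_id_apply]
  rw [h2]
  have h3 := Submodule.mem_map_of_mem (f := (rename s.symm :
    MvPolynomial (α none ⊕ Σ i : ι, α (some i)) ℤ →ₐ[ℤ] _).toLinearMap) h1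
  rw [Submodule.map_span] at h3
  refine (Submodule.span_le (p := Submodule.span ℤ (famGen α))).2 ?_ h3
  rintro _ ⟨_, ⟨l, c, hc, rfl⟩, rfl⟩
  have h4 : c ∈ Submodule.span ℤ (famGen fun i : ι => α (some i)) := by
    apply h (fun i => α (some i))
    intro π
    have h5 := hc (Equiv.sigmaCongrRight π) (by rw [hG]; exact ⟨π, rfl⟩)
    exact h5
  rw [SetLike.mem_coe, AlgHom.toLinearMap_apply, map_mul]
  have h6 : (s.symm : (α none ⊕ Σ i : ι, α (some i)) → Σ i, α i) ∘ Sum.inl =
      Sigma.mk none := by
    funext a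
    rw [hs]
    rfl
  have h7 : ∀ i : ι, ((s.symm : (α none ⊕ Σ i : ι, α (some i)) → Σ i, α i) ∘ Sum.inr) ∘
      (@Sigma.mk ι (fun i => α (some i)) i) = Sigma.mk (some i) := by
    intro i
    funext a
    rw [hs]
    rfl
  clear hc
  induction h4 using Submodule.span_induction with
  | mem x hx =>
    obtain ⟨L, rfl⟩ := hx
    apply Submodule.subset_span
    refine ⟨l.map (fun k => (none, k)) ++ L.map (fun t => (some t.1, t.2)), ?_⟩
    rw [List.map_append, List.prod_append, List.map_map, List.map_map, rename_rename,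
      rename_rename, h6, map_list_prod, map_list_prod, List.map_map, List.map_map]
    congr 1
    congr 1
    apply List.map_congr_left
    intro t _
    rw [Function.comp_apply, Function.comp_apply, rename_rename, h7]
  | zero =>
    rw [map_zero, map_zero, mul_zero]
    exact Submodule.zero_mem _
  | add x y _ _ hx hy =>
    rw [map_add, map_add, mul_add]
    exact Submodule.add_mem _ hx hy
  | smul a x _ hx =>
    rw [map_smul, map_smul, mul_smul_comm]
    exact Submodule.smul_mem _ _ hx

theorem famP_all (ι : Type) [Fintype ι] : FamP ι :=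
  Fintype.induction_empty_option (P := fun ι _ => FamP ι)
    (fun _ _ _ e h => famP_of_equiv e h) famP_empty (fun _ _ h => famP_option h) ι

theorem family_sets {ι : Type} [Fintype ι] [DecidableEq ι] (α : ι → Type) [∀ i, Fintype (α i)]
    [∀ i, DecidableEq (α i)] (f : MvPolynomial (Σ i, α i) ℤ)
    (h : ∀ π : ∀ i, Equiv.Perm (α i),
      rename (fun q : Σ i, α i => (⟨q.1, π q.1 q.2⟩ : Σ i, α i)) f = f) :
    f ∈ Submodule.span ℤ {g | ∃ L : List (ι × ℕ),
      g = (L.map fun t => rename (Sigma.mk t.1) (esymm (α t.1) ℤ t.2)).prod} :=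
  famP_all ι α f h

end Pool.Agent.MP100fe7Cv
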