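import Pool.Agent.Lib.MP_100fe7_nt.CvSym
import Pool.Agent.Lib.MP_100fe7_nt.Closed2

/-!
The exponents of the closed formula as linear functionals of the character.
-/

set_option linter.unusedSectionVars false

namespace Pool.Agent.MP100fe7Cv

open Finset MP100fe7

/-- the centred Hodge indices -/
def cen {n : ℕ} (w : ℤ) (p : Fin n → ℤ) : Ix n → ℤ :=
  Sum.elim (fun i => 2 * p i - w) (fun i => w - 2 * p i)

theorem cen_swap {n : ℕ} (w : ℤ) (p : Fin n → ℤ) (j : Ix n) :
    cen w p (Sum.swap j) = - cen w p j := by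
  rcases j with i | i <;> simp [cen]

theorem cen_odd {n : ℕ} {w : ℤ} (hw : Odd w) (p : Fin n → ℤ) (j : Ix n) : Odd (cen w p j) := by
  obtain ⟨t, rfl⟩ := hw
  rcases j with i | i
  · exact ⟨p i - t - 1, by simp only [cen, Sum.elim_inl]; ring⟩
  · exact ⟨t - p i, by simp only [cen, Sum.elim_inr]; ring⟩

section

variable {E : Type} [Field E] {R : Type} [CommRing R] {n k : ℕ} {w : ℤ}
  {κ : Type} [Fintype κ] [DecidableEq κ] (ρ : PolyRep E n κ k) (M : Datum R n w)

theorem deg_cast (s : κ) : ∑ j, (ρ.wt s j : ℤ) = (k : ℤ) := by exact_mod_cast ρ.deg s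

theorem hodge_cen (s : κ) : 2 * ρ.hodgeIdx M s - k * w =
    ∑ j, cen w M.p j * (ρ.wt s j : ℤ) := by
  rw [← deg_cast ρ s]
  unfold PolyRep.hodgeIdx
  rw [Finset.mul_sum, Finset.sum_mul, ← Finset.sum_sub_distrib]
  apply Finset.sum_congr rfl
  intro j _
  rcases j with i | i
  · simp only [Datum.hodgeIdx, cen, Sum.elim_inl]
    ring
  · simp only [Datum.hodgeIdx, cen, Sum.elim_inr]
    ring

theorem noMiddle_of_odd (hk : Odd k) (hw : Odd w) : NoMiddle ρ M := by
  intro s h
  have h1 : Odd ((k : ℤ) * w) := ((Int.odd_coe_nat k).mpr hk).mul hw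
  rw [← h] at h1
  exact (Int.not_even_iff_odd.mpr h1) (even_two_mul _)

theorem mem_lowPart_iff (s : κ) : s ∈ lowPart ρ M ↔ ∑ j, cen w M.p j * (ρ.wt s j : ℤ) < 0 := by
  rw [← hodge_cen]
  unfold lowPart
  rw [Finset.mem_filter]
  constructor
  · rintro ⟨-, h⟩
    linarith
  · intro h
    exact ⟨Finset.mem_univ _, by linarith⟩

theorem sum_block (a : ℤ) (ha : a ∈ lowIndices M) (f : Ix n → ℤ) :
    ∑ j ∈ Finset.univ.filter (fun j => cen w M.p j = 2 * a - w), f j =
      ∑ i : Block M a, f (Sum.inr i.1) := by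
  obtain ⟨i₀, -, hi₀⟩ := Finset.mem_image.mp ha
  have hp₀ := M.two_p i₀
  rw [Finset.sum_filter, Fintype.sum_sum_type, Finset.sum_eq_zero, zero_add]
  · rw [← Finset.sum_filter, ← Finset.sum_subtype (Finset.univ.filter
      fun i : Fin n => w - M.p i = a) (p := fun i : Fin n => w - M.p i = a) (by intro s; simp)
      (fun i => f (Sum.inr i))]
    apply Finset.sum_congr _ fun _ _ => rfl
    apply Finset.filter_congr
    intro i _
    simp only [cen, Sum.elim_inr]
    constructor
    · intro h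
      omega
    · intro h
      omega
  · intro i _
    rw [if_neg]
    have := M.two_p i
    simp only [cen, Sum.elim_inl]
    omega

theorem mult_block (a : ℤ) (ha : a ∈ lowIndices M) :
    mult (cen w M.p) (2 * a - w) = Fintype.card (Block M a) := by
  have h := sum_block M a ha fun _ => 1
  rw [Finset.sum_const, Finset.sum_const] at h
  unfold mult
  simpa using h

theorem low_neg (a : ℤ) (ha : a ∈ lowIndices M) : 2 * a - w < 0 := by
  obtain ⟨i₀, -, hi₀⟩ := Finset.mem_image.mp ha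
  have hp₀ := M.two_p i₀
  omega

theorem Th_eq (hk : Odd k) {A B : ℕ} {S : ℤ → ℕ}
    (hAB : n * A + n * B = k * (lowPart ρ M).card)
    (hS : ∀ a, Fintype.card (Block M a) * S a =
        ∑ s ∈ lowPart ρ M, ∑ i : Block M a, ρ.wt s (Sum.inr i.1)) (a : ℤ)
    (ha : a ∈ lowIndices M) :
    Th (cen w M.p) (2 * a - w) (chr ρ) =
      n * Fintype.card (Block M a) * ((S a : ℤ) - A - B) := by
  have hneg := low_neg M a ha
  rw [Th_chr]
  have h1 : ∀ s, theta (cen w M.p) (2 * a - w) (fun j => (ρ.wt s j : ℤ)) =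
      if s ∈ lowPart ρ M then lin (cen w M.p) (2 * a - w) (fun j => (ρ.wt s j : ℤ)) else 0 := by
    intro s
    unfold theta
    have h2 : Odd (∑ j, (ρ.wt s j : ℤ)) := by
      rw [deg_cast ρ s]
      exact (Int.odd_coe_nat k).mpr hk
    by_cases hs : s ∈ lowPart ρ M
    · rw [if_pos hs, if_pos ⟨hneg, h2, (mem_lowPart_iff ρ M s).mp hs⟩]
    · rw [if_neg hs, if_neg]
      rintro ⟨-, -, h⟩
      exact hs ((mem_lowPart_iff ρ M s).mpr h)
  rw [Finset.sum_congr rfl fun s _ => h1 s, ← Finset.sum_filter]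
  have h2 : (Finset.univ.filter fun s => s ∈ lowPart ρ M) = lowPart ρ M := by
    ext s
    simp
  rw [h2]
  have h3 : ∀ s, lin (cen w M.p) (2 * a - w) (fun j => (ρ.wt s j : ℤ)) =
      n * (∑ i : Block M a, (ρ.wt s (Sum.inr i.1) : ℤ)) - Fintype.card (Block M a) * k := by
    intro s
    unfold lin
    rw [sum_block M a ha, mult_block M a ha]
    rw [deg_cast ρ s]
  rw [Finset.sum_congr rfl fun s _ => h3 s, Finset.sum_sub_distrib, ← Finset.mul_sum,
    Finset.sum_const, nsmul_eq_mul]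
  have h4 : (∑ s ∈ lowPart ρ M, ∑ i : Block M a, (ρ.wt s (Sum.inr i.1) : ℤ)) =
      Fintype.card (Block M a) * S a := by
    exact_mod_cast (hS a).symm
  rw [h4]
  have h5 : (n : ℤ) * A + n * B = k * ((lowPart ρ M).card : ℤ) := by exact_mod_cast hAB
  linear_combination (Fintype.card (Block M a) : ℤ) * h5

end

end Pool.Agent.MP100fe7Cv
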