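import Pool.Agent.Lib.MP_100fe7_nt.CvChr
import Pool.Agent.Lib.MP_100fe7_nt.CvExtT

/-!
The Deligne periods of the tensor products of exterior powers generate the group.
-/

set_option linter.unusedSectionVars false

namespace Pool.Agent.MP100fe7K

open MP100fe7T MP100fe7Cv MvPolynomial

section chars

variable {E : Type} [Field E] {ι : Type} [Fintype ι] [DecidableEq ι] {σ : ι → Shape}

/-- subsets of the basis and of the set of the numbers -/
def subEqT (s : Shape) (k : ℕ) : Sub ((s.n + s.n) + (s.m + s.r)) k ≃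
    {T : Finset s.Idx // T.card = k} where
  toFun S := ⟨S.1.map (numIdx s).symm.toEmbedding, by rw [Finset.card_map, S.2]⟩
  invFun T := ⟨T.1.map (numIdx s).toEmbedding, by rw [Finset.card_map, T.2]⟩
  left_inv S := by
    apply Subtype.ext
    ext x
    simp
  right_inv T := by
    apply Subtype.ext
    ext x
    simp

theorem chT_ext (i : ι) (k : ℕ) : chT (extRep E σ i k) =
    rename (Sigma.mk i) (esymm (σ i).Idx ℤ k) := by
  unfold chT
  rw [esymm_eq_sum_subtype, map_sum]
  apply Fintype.sum_equiv (subEqT (σ i) k)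
  intro S
  rw [map_prod]
  simp only [rename_X]
  rw [monomial_eq, C_1, one_mul, Finsupp.prod_fintype _ _ (fun i => by simp)]
  change ∏ q : Tot σ, (X q : MvPolynomial (Tot σ) ℤ) ^ (∑ y ∈ S.1,
    if q = ⟨i, (numIdx (σ i)).symm y⟩ then 1 else 0) =
      ∏ t ∈ S.1.map (numIdx (σ i)).symm.toEmbedding, X ⟨i, t⟩
  rw [Finset.prod_map]
  simp only [← Finset.prod_pow_eq_pow_sum]
  rw [Finset.prod_comm]
  apply Finset.prod_congr rfl
  intro y _
  rw [Finset.prod_eq_single (⟨i, (numIdx (σ i)).symm y⟩ : Tot σ)]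
  · rw [if_pos rfl, pow_one]
    rfl
  · intro q _ hq
    rw [if_neg hq, pow_zero]
  · simp

theorem chT_tensorExt (L : List (ι × ℕ)) : chT (tensorExt E σ L) =
    (L.map fun t => rename (Sigma.mk t.1) (esymm (σ t.1).Idx ℤ t.2)).prod := by
  have h1 : (L.map fun t => rename (Sigma.mk t.1) (esymm (σ t.1).Idx ℤ t.2)).prod =
      ∏ a : Fin L.length, chT (extRep E σ (L.get a).1 (L.get a).2) := by
    simp only [chT_ext]
    exact (Fin.prod_univ_fun_getElem L fun t : ι × ℕ =>
      (rename (Sigma.mk t.1) (esymm (σ t.1).Idx ℤ t.2) : MvPolynomial (Tot σ) ℤ)).symm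
  rw [h1]
  unfold chT
  rw [Finset.prod_univ_sum, Fintype.piFinset_univ]
  apply Finset.sum_congr rfl
  intro S _
  have h2 : ∀ (s : Finset (Fin L.length)),
      ∏ a ∈ s, monomial (Finsupp.equivFunOnFinite.symm
        ((extRep E σ (L.get a).1 (L.get a).2).wt (S a))) (1 : ℤ) =
      monomial (Finsupp.equivFunOnFinite.symm fun q : Tot σ =>
        ∑ a ∈ s, (extRep E σ (L.get a).1 (L.get a).2).wt (S a) q) 1 := by
    classical
    intro s
    induction s using Finset.induction_on with
    | empty =>
      rw [Finset.prod_empty]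
      have : (Finsupp.equivFunOnFinite.symm fun q : Tot σ => ∑ a ∈ (∅ : Finset (Fin L.length)),
          (extRep E σ (L.get a).1 (L.get a).2).wt (S a) q) = 0 := by
        ext q
        rfl
      rw [this]
      rfl
    | insert a s ha ih =>
      rw [Finset.prod_insert ha, ih, monomial_mul, one_mul]
      apply congrArg fun ν => monomial ν (1 : ℤ)
      ext q
      change _ = ∑ a ∈ insert a s, (extRep E σ (L.get a).1 (L.get a).2).wt (S a) q
      rw [Finset.sum_insert ha]
      rfl
  rw [h2]
  rfl

end chars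

end Pool.Agent.MP100fe7K
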