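import Pool.Agent.Lib.MP_100fe7_nt.CvKDefs
import Pool.Agent.Lib.MP_100fe7_nt.CvExtT

/-!
Definitions: the Deligne periods of the tensor products of exterior powers of the motives of a
family, and monomials in them.
-/

namespace Pool.Agent.MP100fe7K

open Pool.Agent.MP100fe7T Pool.Agent.MP100fe7Cv

section

variable (E : Type) [Field E] {R : Type} [CommRing R] [Algebra E R] {ι : Type} [Fintype ι]
  [DecidableEq ι] {σ : ι → Shape} {w : ι → ℤ} (M : ∀ i, Datum R (σ i) (w i))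

/-- The Deligne periods `c^+(N)` and `c^-(N)` of the tensor products
`N = Λ^{k_1} M_{i_1} ⊗ … ⊗ Λ^{k_r} M_{i_r}` without middle classes. -/
def tensorPeriods : Set Rˣ :=
  {u | ∃ L : List (ι × ℕ), (tensorExt E σ L).NoMiddle M ∧
    ((tensorExt E σ L).IsPeriod M (1 : E) (u : R) ∨
      (tensorExt E σ L).IsPeriod M (-1 : E) (u : R))}

/-- `u` is in `E^× ∏ c^ε(N_L)^{k (L, ε)}`, where `N_L` is the tensor product of the exterior powers
`Λ^k M_i`, `(i, k) ∈ L`; the product is over finitely many `(L, ε)`, `ε = ±1`, and these `N_L` have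
no middle classes. -/
def IsMonomial (k : (List (ι × ℕ) × ℤ) →₀ ℤ) (u : Rˣ) : Prop :=
  (∀ t ∈ k.support, (t.2 = 1 ∨ t.2 = -1) ∧ (tensorExt E σ t.1).NoMiddle M) ∧
  ∀ X : List (ι × ℕ) × ℤ → Rˣ,
    (∀ t ∈ k.support, (tensorExt E σ t.1).IsPeriod M ((t.2 : ℤ) : E) (X t : R)) →
    ∃ e : Eˣ, u = Units.map (algebraMap E R).toMonoidHom e * ∏ t ∈ k.support, X t ^ k t

end

end Pool.Agent.MP100fe7K
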