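import Pool.Agent.Lib.MP_100fe7_nt.CvK6

/-!
The exponents only depend on the types.
-/

set_option linter.unusedSectionVars false

namespace Pool.Agent.MP100fe7K

open MP100fe7T MP100fe7Cv

variable {E : Type} [Field E] [CharZero E] {E' : Type} [Field E'] [CharZero E']
  {R R' : Type} [CommRing R] [Algebra E R] [CommRing R']
  {ι : Type} [Fintype ι] [DecidableEq ι] {σ : ι → Shape} {w : ι → ℤ}
  (M : ∀ i, Datum R (σ i) (w i)) (M' : ∀ i, Datum R' (σ i) (w i))

/-- the sums of the weights over the sign part -/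
def Vs {κ : Type} [Fintype κ] [DecidableEq κ] (ρ : Rep E σ κ) (ε : ℤ) (q : Tot σ) : ℤ :=
  ∑ s ∈ ρ.signPart ε, ρ.weight s q

/-- The monomial does not depend on the choice of the exponents. -/
theorem fac_unique {κ κ' : Type} [Fintype κ] [DecidableEq κ] [Fintype κ'] [DecidableEq κ']
    {ρ : Rep E σ κ} {ρ' : Rep E' σ κ'} {ε : ℤ} (hs : Vs ρ ε = Vs ρ' ε)
    (hl : Vl ρ M = Vl ρ' M') (hp : ∀ i, (M i).p = (M' i).p) {A B A' B' : ι → ℤ}
    {S S' : ι → ℤ → ℤ} (h : IsExp ρ M ε A B S) (h' : IsExp ρ' M' ε A' B' S') {𝔾 : Type*}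
    [CommGroup 𝔾] (c d D : ι → 𝔾) (q : ι → ℤ → 𝔾)
    (h1 : ∀ i, NoMid (σ i) → (σ i).n = 0 → c i = 1 ∧ d i = 1) (i : ι) :
    fac M c d D q A B S i = fac M' c d D q A' B' S' i := by
  have hA : ∀ j, (σ i).sgn j = 1 → A i = A' i := fun j hj => by
    rw [h.pos i j hj, h'.pos i j hj]
    exact congrFun hs ⟨i, j⟩
  have hB : ∀ j, (σ i).sgn j = -1 → B i = B' i := fun j hj => by
    rw [h.neg i j hj, h'.neg i j hj]
    exact congrFun hs ⟨i, j⟩
  have hlow : (M i).lowIndices = (M' i).lowIndices := by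
    unfold Datum.lowIndices
    rw [hp i]
  have hS : ∀ a ∈ (M' i).lowIndices, S i a = S' i a := by
    intro a ha
    obtain ⟨x, -, rfl⟩ := Finset.mem_image.mp ha
    rw [h'.low, ← hl, ← h.low, hp i]
  unfold fac
  rw [hlow]
  by_cases hi : (σ i).m = 0 ∧ (σ i).r = 0
  · rw [if_pos hi, if_pos hi]
    by_cases hn : (σ i).n = 0
    · obtain ⟨e1, e2⟩ := h1 i hi hn
      have e3 : (M' i).lowIndices = ∅ := by
        unfold Datum.lowIndices
        rw [Finset.image_eq_empty, Finset.univ_eq_empty_iff]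
        exact ⟨fun x => by
          have := x.2
          omega⟩
      rw [e1, e2, e3]
      simp
    · have x : Fin (σ i).n := ⟨0, Nat.pos_of_ne_zero hn⟩
      rw [hA (Sum.inl (Sum.inl x)) rfl, hB (Sum.inl (Sum.inr x)) rfl]
      congr 1
      apply Finset.prod_congr rfl
      intro a ha
      rw [hS a ha]
  · rw [if_neg hi, if_neg hi]
    have hAA : A i = A' i := by
      obtain ⟨y⟩ := exists_mid (s := σ i) hi
      rcases sgn_cases (s := σ i) (Sum.inr y) with hy | hy
      · exact hA _ hy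
      · rw [h.mid i hi, h'.mid i hi]
        exact hB _ hy
    rw [hAA]
    congr 1
    apply Finset.prod_congr rfl
    intro a ha
    rw [hS a ha]

theorem period_one (M : ∀ i, Datum R (σ i) (w i)) (c d : ι → Rˣ)
    (hcd : ∀ i, NoMid (σ i) → (M i).IsPeriod (1 : E) (c i : R) ∧
      (M i).IsPeriod (-1 : E) (d i : R)) (i : ι) (hi : NoMid (σ i)) (hn : (σ i).n = 0) :
    c i = 1 ∧ d i = 1 := by
  have he : ∀ j : (σ i).Idx, False := by
    rintro ((x | x) | (y | y))
    · have := x.2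
      omega
    · have := x.2
      omega
    · have h1 := y.2
      have h2 := hi.1
      omega
    · have h1 := y.2
      have h2 := hi.2
      omega
  obtain ⟨h1, h2⟩ := hcd i hi
  rw [← Int.cast_one (R := E)] at h1 h2
  rw [← Int.cast_neg] at h2
  exact ⟨Units.ext (period_empty (M i) 1 (fun j => (he j).elim) h1),
    Units.ext (period_empty (M i) (-1) (fun j => (he j).elim) h2)⟩

theorem noMiddle_congr_p {κ : Type} [Fintype κ] [DecidableEq κ] (ρ : Rep E σ κ)
    (hp : ∀ i, (M i).p = (M' i).p) : ρ.hodgeIdx M = ρ.hodgeIdx M' := by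
  funext s
  unfold Rep.hodgeIdx
  apply Finset.sum_congr rfl
  intro q _
  unfold Datum.hodgeIdx
  rw [hp q.1]

theorem Vl_congr {κ : Type} [Fintype κ] [DecidableEq κ] (ρ : Rep E σ κ)
    (hp : ∀ i, (M i).p = (M' i).p) : Vl ρ M = Vl ρ M' := by
  funext q
  unfold Vl Rep.lowPart
  rw [noMiddle_congr_p M M' ρ hp]

section reindex

variable {κ κ' : Type} [Fintype κ] [DecidableEq κ] [Fintype κ'] [DecidableEq κ']
  (ρ : Rep E σ κ) (ρ' : Rep E σ κ') (f : κ' ≃ κ) (hwt : ∀ s, ρ'.wt s = ρ.wt (f s))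
  (htw : ρ'.twist = ρ.twist) (hdeg : ρ'.deg = ρ.deg)

include hwt htw in
theorem weight_reindex (s : κ') : ρ'.weight s = ρ.weight (f s) := by
  funext q
  unfold Rep.weight
  rw [hwt, htw]

include hwt htw in
theorem hodgeIdx_reindex (s : κ') : ρ'.hodgeIdx M s = ρ.hodgeIdx M (f s) := by
  unfold Rep.hodgeIdx
  rw [weight_reindex ρ ρ' f hwt htw]

include htw hdeg in
theorem motWeight_reindex : ρ'.motWeight w = ρ.motWeight w := by
  unfold Rep.motWeight
  rw [htw, hdeg]

include hwt htw hdeg in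
theorem noMiddle_reindex (h : ρ.NoMiddle M) : ρ'.NoMiddle M := by
  intro s
  rw [hodgeIdx_reindex M ρ ρ' f hwt htw, motWeight_reindex ρ ρ' htw hdeg]
  exact h (f s)

include hwt htw hdeg in
theorem Vl_reindex : Vl ρ' M = Vl ρ M := by
  funext q
  unfold Vl
  apply Finset.sum_equiv f
  · intro s
    unfold Rep.lowPart
    rw [Finset.mem_filter, Finset.mem_filter, hodgeIdx_reindex M ρ ρ' f hwt htw,
      motWeight_reindex ρ ρ' htw hdeg]
    simp
  · intro s _
    rw [weight_reindex ρ ρ' f hwt htw]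

include hwt htw in
theorem Vs_reindex (ε : ℤ) : Vs ρ' ε = Vs ρ ε := by
  funext q
  unfold Vs
  apply Finset.sum_equiv f
  · intro s
    unfold Rep.signPart Rep.sgn
    rw [Finset.mem_filter, Finset.mem_filter, hwt, htw]
    simp
  · intro s _
    rw [weight_reindex ρ ρ' f hwt htw]

include hwt htw hdeg in
/-- Isomorphic representations have the same periods. -/
theorem period_reindex (hmid : ρ.NoMiddle M) {ε : ℤ} (hε : ε = 1 ∨ ε = -1) {x x' : R}
    (hx : ρ.IsPeriod M (ε : E) x) (hx' : ρ'.IsPeriod M (ε : E) x') :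
    ∃ e : Eˣ, x = algebraMap E R e * x' := by
  obtain ⟨c, d, D, q, hcd, hD, hq⟩ := exists_units (E := E) M
  obtain ⟨A, B, S, h1, h2⟩ := nm_formula ρ M hmid hε
  obtain ⟨A', B', S', h1', h2'⟩ := nm_formula ρ' M
    (noMiddle_reindex M ρ ρ' f hwt htw hdeg hmid) hε
  obtain ⟨e, he⟩ := h2 x c d D q hx hcd hD hq
  obtain ⟨e', he'⟩ := h2' x' c d D q hx' hcd hD hq
  have h3 : ∏ i, fac M c d D q A B S i = ∏ i, fac M c d D q A' B' S' i :=
    Finset.prod_congr rfl fun i _ => fac_unique M M (Vs_reindex ρ ρ' f hwt htw ε).symm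
      (Vl_reindex M ρ ρ' f hwt htw hdeg).symm (fun _ => rfl) h1 h1' c d D q
      (period_one M c d hcd) i
  refine ⟨e * e'⁻¹, ?_⟩
  have h4 : (cst E R e * ∏ i, fac M c d D q A B S i : Rˣ) =
      cst E R (e * e'⁻¹) * (cst E R e' * ∏ i, fac M c d D q A' B' S' i) := by
    rw [h3, map_mul, map_inv]
    group
  rw [he, he', h4, Units.val_mul]
  rfl

end reindex

end Pool.Agent.MP100fe7K
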