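import Pool.Agent.Lib.MP_100fe7_nt.CvGen
import Pool.Agent.Lib.MP_100fe7_nt.CvUniq
import Pool.Agent.Lib.MP_100fe7_nt.CvFam
import Pool.Agent.Lib.MP_100fe7_nt.CvKDefs2

/-!
The Deligne periods of the tensor products of exterior powers generate the group.
-/

set_option linter.unusedSectionVars false

namespace Pool.Agent.MP100fe7K

open MP100fe7T MP100fe7Cv MvPolynomial

variable {E : Type} [Field E] [CharZero E] {R : Type} [CommRing R] [Algebra E R]
  {ι : Type} [Fintype ι] [DecidableEq ι] {σ : ι → Shape} {w : ι → ℤ}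
  (M : ∀ i, Datum R (σ i) (w i))

/-- The vectors of the tensor products of exterior powers without middle classes. -/
def extVec (E : Type) [Field E] [CharZero E] {R : Type} [CommRing R] [Algebra E R]
    {ι : Type} [Fintype ι] [DecidableEq ι] {σ : ι → Shape} {w : ι → ℤ}
    (M : ∀ i, Datum R (σ i) (w i)) : AddSubgroup (Tot σ → ℤ) :=
  AddSubgroup.closure {W | ∃ L : List (ι × ℕ), (tensorExt E σ L).NoMiddle M ∧
    W = Vl (tensorExt E σ L) M}

/-- the symmetric polynomials are combinations of products of elementary ones -/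
def Fam0 (σ : ι → Shape) : Prop := ∀ f : MvPolynomial (Tot σ) ℤ,
  (∀ π : ∀ i, Equiv.Perm (σ i).Idx,
    rename (fun q : Tot σ => (⟨q.1, π q.1 q.2⟩ : Tot σ)) f = f) →
  f ∈ Submodule.span ℤ {g | ∃ L : List (ι × ℕ),
    g = (L.map fun t => rename (Sigma.mk t.1) (esymm (σ t.1).Idx ℤ t.2)).prod}

theorem fam0 (σ : ι → Shape) : Fam0 σ := fun f h =>
  family_sets (fun i => (σ i).Idx) f h

theorem vl_mem_ext (hfam : Fam0 σ) {κ : Type} [Fintype κ] [DecidableEq κ] (ρ : Rep E σ κ)
    (htw : ∀ i, ρ.twist i = 0)
    (hnm : ∀ L, (tensorExt E σ L).deg = ρ.deg → (tensorExt E σ L).NoMiddle M) :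
    Vl ρ M ∈ extVec E M := by
  rw [← VT_eq M ρ htw]
  have h := hfam (chT ρ) (chT_perm ρ)
  generalize chT ρ = f at h
  induction h using Submodule.span_induction with
  | mem x hx =>
    obtain ⟨L, rfl⟩ := hx
    rw [← chT_tensorExt (E := E)]
    by_cases hL : (tensorExt E σ L).deg = ρ.deg
    · rw [← hL, VT_eq M _ (tensorExt_twist E L)]
      exact AddSubgroup.subset_closure ⟨L, hnm L hL, rfl⟩
    · rw [VT_ne M _ hL]
      exact AddSubgroup.zero_mem _
  | zero =>
    rw [map_zero]
    exact AddSubgroup.zero_mem _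
  | add x y _ _ hx hy =>
    rw [map_add]
    exact AddSubgroup.add_mem _ hx hy
  | smul a x _ hx =>
    rw [map_smul]
    exact AddSubgroup.zsmul_mem _ hx a

theorem hasCons_extVec (hfam : Fam0 σ) : HasCons E M (extVec E M) where
  one := by
    intro i hi v hv hodd N ψ l hl
    apply vl_mem_ext M hfam
    · intro i'
      exact Nat.mul_zero _
    · intro L hL
      have hdeg : ∀ i', (tensorExt E σ L).deg i' = l.sum * (if i' = i then 1 else 0) := by
        intro i'
        rw [hL]
        rfl
      refine nm_parity M _ (tensorExt_twist E L) hi hv hodd ?_ fun i' hi' => Or.inl ?_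
      · rw [hdeg, if_pos rfl, mul_one]
        exact hl
      · rw [hdeg, if_neg hi', mul_zero]
  two := by
    intro i₁ j₀ hne hj₀ v hv hodd heven l' hl' N ψ l hl
    apply vl_mem_ext M hfam
    · intro i'
      change l.sum * ((lamRep E hj₀ l').twist i' + 0) = 0
      rw [lamRep_twist, add_zero, mul_zero]
    · intro L hL
      have hdeg : ∀ i', (tensorExt E σ L).deg i' =
          l.sum * (l' * (if i' = j₀ then 1 else 0) + (if i' = i₁ then 1 else 0)) := by
        intro i'
        rw [hL]
        rfl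
      refine nm_parity M _ (tensorExt_twist E L) hj₀ hv hodd ?_ fun i' hi' => ?_
      · rw [hdeg, if_pos rfl, if_neg hne.symm, mul_one, add_zero]
        exact hl.mul hl'
      · by_cases h : i' = i₁
        · subst h
          exact Or.inr heven
        · left
          rw [hdeg, if_neg hi', if_neg h]
          simp
  det := by
    intro i₁ j₀ hne hj₀ v hv hodd heven l hl
    apply vl_mem_ext M hfam
    · intro i'
      change (lamRep E hj₀ l).twist i' + 0 = 0
      rw [lamRep_twist]
    · intro L hL
      have hdeg : ∀ i', (tensorExt E σ L).deg i' = l * (if i' = j₀ then 1 else 0) +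
          (if i' = i₁ then Fintype.card (σ i').Idx else 0) := by
        intro i'
        rw [hL]
        rfl
      refine nm_parity M _ (tensorExt_twist E L) hj₀ hv hodd ?_ fun i' hi' => ?_
      · rw [hdeg, if_pos rfl, if_neg hne.symm, mul_one, add_zero]
        exact hl
      · by_cases h : i' = i₁
        · subst h
          exact Or.inr heven
        · left
          rw [hdeg, if_neg hi', if_neg h]
          simp

/-- the only subset -/
def oneSub {σ : ι → Shape} {i : ι} (s : TIdx σ [(i, 1)]) :
    Sub ((σ i).n + (σ i).n + ((σ i).m + (σ i).r)) 1 := s ⟨0, Nat.zero_lt_one⟩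

/-- `M_i = Λ^1 M_i` -/
def projEquiv (σ : ι → Shape) (i : ι) : TIdx σ [(i, 1)] ≃ (σ i).Idx where
  toFun s := emT (oneSub s) 0
  invFun x := fun
    | ⟨0, _⟩ => ⟨{numIdx (σ i) x}, Finset.card_singleton _⟩
  left_inv s := by
    funext a
    obtain rfl : a = ⟨0, Nat.zero_lt_one⟩ := Subsingleton.elim (α := Fin 1) _ _
    obtain ⟨y, hy⟩ := Finset.card_eq_one.mp (oneSub s).2
    apply Subtype.ext
    change ({numIdx (σ i) (emT (oneSub s) 0)} : Finset _) = (oneSub s).1
    rw [hy]
    congr 1
    unfold emT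
    rw [Equiv.apply_symm_apply]
    have h := image_em (oneSub s)
    have h2 : em (oneSub s) 0 ∈ Finset.univ.image (em (oneSub s)) :=
      Finset.mem_image_of_mem _ (Finset.mem_univ _)
    rw [h, hy] at h2
    exact Finset.mem_singleton.mp h2
  right_inv x := by
    change emT (⟨{numIdx (σ i) x}, Finset.card_singleton _⟩ : Sub _ 1) 0 = x
    unfold emT
    rw [Equiv.symm_apply_eq]
    have h := image_em (⟨{numIdx (σ i) x}, Finset.card_singleton _⟩ : Sub _ 1)
    have h2 : em (⟨{numIdx (σ i) x}, Finset.card_singleton _⟩ : Sub _ 1) 0 ∈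
        Finset.univ.image (em (⟨{numIdx (σ i) x}, Finset.card_singleton _⟩ : Sub _ 1)) :=
      Finset.mem_image_of_mem _ (Finset.mem_univ _)
    rw [h] at h2
    exact Finset.mem_singleton.mp h2

theorem wt_projEquiv (i : ι) (s : TIdx σ [(i, 1)]) :
    (tensorExt E σ [(i, 1)]).wt s = (projRep E σ i).wt (projEquiv σ i s) := by
  funext q
  change ∑ a : Fin 1, extWt σ ([(i, 1)].get a).1 ([(i, 1)].get a).2 (s a) q =
    if q = ⟨i, emT (oneSub s) 0⟩ then 1 else 0
  rw [Fin.sum_univ_one]
  change (∑ y ∈ (oneSub s).1, if q = ⟨i, (numIdx (σ i)).symm y⟩ then 1 else 0) = _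
  conv_lhs => rw [← image_em (oneSub s)]
  rw [Finset.sum_image fun a _ b _ hab => (em (oneSub s)).injective hab, Fin.sum_univ_one]
  rfl

theorem deg_one (i i' : ι) : (tensorExt E σ [(i, 1)]).deg i' = if i' = i then 1 else 0 := by
  change ∑ a : Fin 1, (if i' = ([(i, 1)].get a).1 then ([(i, 1)].get a).2 else 0) = _
  rw [Fin.sum_univ_one]
  rfl

theorem nm_tensor_one (i : ι) (hi : NoMid (σ i)) :
    (tensorExt E σ [(i, 1)]).NoMiddle M := by
  apply noMiddle_reindex M (projRep E σ i) _ (projEquiv σ i) (wt_projEquiv i)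
  · funext i'
    exact tensorExt_twist E _ i'
  · funext i'
    exact deg_one i i'
  · exact noMiddle_proj M i hi

theorem period_mem_tensor (i : ι) (hi : NoMid (σ i)) {ε : ℤ} (hε : ε = 1 ∨ ε = -1) (u : Rˣ)
    (hu : (M i).IsPeriod (ε : E) (u : R)) : u ∈ spanOver E (tensorPeriods E M) := by
  obtain ⟨x, hx⟩ := Rep.exists_period (E := E) (tensorExt E σ [(i, 1)]) M _ ε
    (Rep.isStep_of_noMiddle _ M (nm_tensor_one (E := E) M i hi) hε)
  obtain ⟨X, rfl⟩ := isUnit_period M _ (nm_tensor_one (E := E) M i hi) hε hx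
  obtain ⟨e, he⟩ := period_reindex M (projRep E σ i) (tensorExt E σ [(i, 1)]) (projEquiv σ i)
    (wt_projEquiv i) (by
      funext i'
      exact tensorExt_twist E _ i') (by
      funext i'
      exact deg_one i i') (noMiddle_proj M i hi) hε (isPeriod_proj M i hu) hx
  have h : u = cst E R e * X := by
    apply Units.ext
    rw [he]
    rfl
  rw [h]
  refine mul_mem (cst_mem _ e) (mem_of _ ⟨[(i, 1)], nm_tensor_one M i hi, ?_⟩)
  rcases hε with rfl | rfl
  · left
    rwa [Int.cast_one] at hx
  · right
    rwa [Int.cast_neg, Int.cast_one] at hx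

/-- The Deligne periods of the tensor products of exterior powers generate the group. -/
theorem groups_eq_tensor (hfam : Fam0 σ) (hgood : ∀ i, Good σ w (fun i => (M i).p) i) :
    spanOver E (tensorPeriods E M) = spanOver E (basicPeriods E M) := by
  apply le_antisymm
  · refine le_trans (span_le ?_) (all_le_basic M)
    rintro u ⟨L, hL, hu⟩
    exact mem_of _ ⟨_, _, _, tensorExt E σ L, hL, hu⟩
  · refine basic_le M hgood (tensorPeriods E M) ?_ (extVec E M) (hasCons_extVec M hfam) ?_
    · intro i hi u hu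
      rcases hu with hu | hu
      · exact period_mem_tensor M i hi (ε := 1) (Or.inl rfl) u (by rwa [Int.cast_one])
      · exact period_mem_tensor M i hi (ε := -1) (Or.inr rfl) u
          (by rwa [Int.cast_neg, Int.cast_one])
    · intro c d D q hcd hD hq
      apply inG_closure
      rintro W ⟨L, hL, rfl⟩
      exact inG_all M hcd hD hq _ _ hL fun u hu => ⟨L, hL, Or.inl hu⟩

end Pool.Agent.MP100fe7K
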