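import Pool.Agent.Lib.MP_100fe7_nt.CvTwist

/-!
The group generated by all Deligne periods of the motives `ρ(M)`.
-/

set_option linter.unusedSectionVars false

namespace Pool.Agent.MP100fe7Cv

open Finset MP100fe7

theorem cst_mem {E : Type} [Field E] {R : Type} [CommRing R] [Algebra E R] (P : Set Rˣ) (e : Eˣ) :
    cst E R e ∈ spanOver E P := Subgroup.subset_closure (Or.inl ⟨e, rfl⟩)

theorem mem_of {E : Type} [Field E] {R : Type} [CommRing R] [Algebra E R] (P : Set Rˣ) {u : Rˣ}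
    (hu : u ∈ P) : u ∈ spanOver E P := Subgroup.subset_closure (Or.inr hu)

theorem span_le {E : Type} [Field E] {R : Type} [CommRing R] [Algebra E R] {P Q : Set Rˣ}
    (h : ∀ u ∈ P, u ∈ spanOver E Q) : spanOver E P ≤ spanOver E Q := by
  unfold spanOver
  rw [Subgroup.closure_le]
  rintro u (⟨e, rfl⟩ | hu)
  · exact Subgroup.subset_closure (Or.inl ⟨e, rfl⟩)
  · exact h u hu

section

variable {E : Type} [Field E] [CharZero E] {R : Type} [CommRing R] [Nontrivial R] [Algebra E R]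
  {n : ℕ} {w : ℤ} (M : Datum R n w)

/-- units for the periods -/
theorem exists_units : ∃ (c d : Rˣ) (q : ℤ → Rˣ), IsPeriod (std E n) M (1 : E) (c : R) ∧
    IsPeriod (std E n) M (-1 : E) (d : R) ∧ ∀ a ∈ lowIndices M, IsHodgePeriod M a (q a : R) := by
  obtain ⟨c, hc⟩ := (exists_period (R := R) (std E n) M (noMiddle_std M)).1
  obtain ⟨d, hd⟩ := (exists_period (R := R) (std E n) M (noMiddle_std M)).2
  have hc1 : IsPeriod (std E n) M (((1 : ℤ) : E)) c := by simpa using hc
  have hd1 : IsPeriod (std E n) M (((-1 : ℤ) : E)) d := by simpa using hd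
  obtain ⟨c', rfl⟩ := isUnit_period (std E n) M (noMiddle_std M) 1 (Or.inl rfl) hc1
  obtain ⟨d', rfl⟩ := isUnit_period (std E n) M (noMiddle_std M) (-1) (Or.inr rfl) hd1
  have hu : ∀ a : ℤ, ∃ u : Rˣ, a ∈ lowIndices M → IsHodgePeriod M a (u : R) := by
    intro a
    by_cases ha : a ∈ lowIndices M
    · obtain ⟨z, hz⟩ := exists_hodgePeriod M a
      obtain ⟨u, rfl⟩ := isUnit_hodge E M ha hz
      exact ⟨u, fun _ => hz⟩
    · exact ⟨1, fun h => absurd h ha⟩
  choose q hq using hu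
  exact ⟨c', d', q, hc, hd, hq⟩

theorem poly_mem {k : ℕ} {κ : Type} [Fintype κ] [DecidableEq κ] (ρ : PolyRep E n κ k)
    (hmid : NoMiddle ρ M) (ε : ℤ) (hε : ε = 1 ∨ ε = -1) {u : Rˣ}
    (hu : IsPeriod ρ M (ε : E) (u : R)) : u ∈ spanOver E (basicPeriods E M) := by
  obtain ⟨c, d, q, hc, hd, hq⟩ := exists_units (E := E) M
  obtain ⟨A, B, S, -, -, -, -, h⟩ := closed_units (R := R) ρ M hmid ε hε
  obtain ⟨e, he⟩ := h u c d q hu hc hd hq
  rw [he]
  refine mul_mem (mul_mem (mul_mem (cst_mem _ e) (pow_mem (mem_of _ (Or.inl hc)) _))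
    (pow_mem (mem_of _ (Or.inr (Or.inl hd))) _)) ?_
  apply Subgroup.prod_mem
  intro a ha
  exact zpow_mem (mem_of (basicPeriods E M) (Or.inr (Or.inr ⟨a, ha, hq a ha⟩))) _

theorem comp_mem : M.comp_unit.unit ∈ spanOver E (basicPeriods E M) := by
  obtain ⟨c, d, q, e, hc, hd, hq, he⟩ := det_comp (E := E) M
  rw [he]
  refine mul_mem (mul_mem (mul_mem (cst_mem _ e) (mem_of _ (Or.inl hc)))
    (mem_of _ (Or.inr (Or.inl hd)))) (inv_mem ?_)
  apply Subgroup.prod_mem
  intro a ha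
  exact mem_of (basicPeriods E M) (Or.inr (Or.inr ⟨a, ha, hq a ha⟩))

theorem all_le_basic : spanOver E (allPeriods E M) ≤ spanOver E (basicPeriods E M) := by
  apply span_le
  rintro u ⟨k, κ, _, _, ρ, m, hmid, hu⟩
  have h0 : ∃ ε : ℤ, (ε = 1 ∨ ε = -1) ∧ IsPeriodTw ρ m M (ε : E) (u : R) := by
    rcases hu with hu | hu
    · exact ⟨1, Or.inl rfl, by simpa using hu⟩
    · exact ⟨-1, Or.inr rfl, by simpa using hu⟩
  obtain ⟨ε, hε, hu⟩ := h0
  obtain ⟨c, hc, hcE⟩ := det_frob E n m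
  have h1 : c * ε = 1 ∨ c * ε = -1 := by
    rcases hc with rfl | rfl <;> rcases hε with rfl | rfl <;> simp
  obtain ⟨y, hy, hxy⟩ := (isPeriodTw_iff ρ m M hc hcE ε _).mp hu
  have hmid' := (noMiddleTw_iff ρ m M).mp hmid
  obtain ⟨y', rfl⟩ := isUnit_period ρ M hmid' _ h1 hy
  have h2 : u = (M.comp_unit.unit ^ (-m)) ^ (Fintype.card {s // lo ρ M s}) * y' := by
    apply Units.ext
    rw [hxy, Units.val_mul, Units.val_pow_eq_pow_val]
  rw [h2]
  exact mul_mem (pow_mem (zpow_mem (comp_mem M) _) _) (poly_mem M ρ hmid' _ h1 hy)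

/-- the periods of `ρ(M)` are among the periods of twists -/
theorem isPeriodTw_zero {k : ℕ} {κ : Type} [Fintype κ] [DecidableEq κ] (ρ : PolyRep E n κ k)
    (ε : ℤ) {x : R} (hx : IsPeriod ρ M (ε : E) x) : IsPeriodTw ρ 0 M (ε : E) x := by
  have h1 : (frob E n).det ^ (-(0 : ℤ)) = ((1 : ℤ) : E) := by simp
  rw [isPeriodTw_iff ρ 0 M (Or.inl rfl) h1]
  exact ⟨x, by rwa [one_mul], by simp⟩

theorem tensor_le_all (hw : Odd w) :
    spanOver E (tensorPeriods E M) ≤ spanOver E (allPeriods E M) := by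
  apply span_le
  rintro u ⟨l, hl, hu⟩
  refine mem_of _ ⟨l.sum, EIdx n l, _, _, extTensor E n l, 0,
    (noMiddleTw_iff _ _ M).mpr (noMiddle_of_odd _ M hl hw), ?_⟩
  rcases hu with hu | hu
  · left
    have h := isPeriodTw_zero M (extTensor E n l) 1 (x := (u : R)) (by simpa using hu)
    simpa using h
  · right
    have h := isPeriodTw_zero M (extTensor E n l) (-1) (x := (u : R)) (by simpa using hu)
    simpa using h

theorem period_congr {k k' : ℕ} {κ κ' : Type} [Fintype κ] [DecidableEq κ] [Fintype κ']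
    [DecidableEq κ'] (ρ : PolyRep E n κ k) (ρ' : PolyRep E n κ' k') (f : κ ≃ κ')
    (hf : ∀ s, ρ'.wt (f s) = ρ.wt s) (hn : 0 < n) (hmid : NoMiddle ρ M) (hmid' : NoMiddle ρ' M)
    (ε : ℤ) (hε : ε = 1 ∨ ε = -1) {x y : Rˣ} (hx : IsPeriod ρ M (ε : E) (x : R))
    (hy : IsPeriod ρ' M (ε : E) (y : R)) : ∃ e : Eˣ, x = cst E R e * y := by
  obtain ⟨c, d, q, hc, hd, hq⟩ := exists_units (E := E) M
  obtain ⟨A, B, S, hA, hB, hS, -, h⟩ := closed_units (R := R) ρ M hmid ε hε
  obtain ⟨A', B', S', hA', hB', hS', -, h'⟩ := closed_units (R := R) ρ' M hmid' ε hε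
  have hsig : ∀ g : (Ix n → ℕ) → ℕ, ∑ s ∈ signPart ρ ε, g (ρ.wt s) =
      ∑ s ∈ signPart ρ' ε, g (ρ'.wt s) := by
    intro g
    apply Finset.sum_equiv f
    · intro s
      unfold signPart
      simp only [Finset.mem_filter, Finset.mem_univ, true_and]
      rw [hf s]
    · intro s _
      rw [hf s]
  have hlow : ∀ g : (Ix n → ℕ) → ℕ, ∑ s ∈ lowPart ρ M, g (ρ.wt s) =
      ∑ s ∈ lowPart ρ' M, g (ρ'.wt s) := by
    intro g
    apply Finset.sum_equiv f
    · intro s
      rw [mem_lowPart_iff, mem_lowPart_iff, hf s]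
    · intro s _
      rw [hf s]
  have eA : A = A' := Nat.eq_of_mul_eq_mul_left hn (by
    rw [hA, hA']
    exact hsig fun v => ∑ i, v (Sum.inl i))
  have eB : B = B' := Nat.eq_of_mul_eq_mul_left hn (by
    rw [hB, hB']
    exact hsig fun v => ∑ i, v (Sum.inr i))
  have eS : ∀ a ∈ lowIndices M, S a = S' a := by
    intro a ha
    have hcard : 0 < Fintype.card (Block M a) := by
      obtain ⟨i, _, hi⟩ := Finset.mem_image.mp ha
      exact Fintype.card_pos_iff.mpr ⟨(⟨i, hi⟩ : Block M a)⟩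
    apply Nat.eq_of_mul_eq_mul_left hcard
    rw [hS, hS']
    exact hlow fun v => ∑ i : Block M a, v (Sum.inr i.1)
  obtain ⟨e, he⟩ := h x c d q hx hc hd hq
  obtain ⟨e', he'⟩ := h' y c d q hy hc hd hq
  refine ⟨e * e'⁻¹, ?_⟩
  rw [he, he', ← eA, ← eB]
  have h1 : ∏ a ∈ lowIndices M, q a ^ ((S' a : ℤ) - A - B) =
      ∏ a ∈ lowIndices M, q a ^ ((S a : ℤ) - A - B) :=
    Finset.prod_congr rfl fun a ha => by rw [eS a ha]
  rw [h1, map_mul, map_inv]
  have h2 : ∀ e e' a b c : Rˣ, e * a * b * c = e * e'⁻¹ * (e' * a * b * c) := by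
    intro e e' a b c
    rw [mul_assoc e' a b, mul_assoc e' (a * b) c, mul_assoc e e'⁻¹, inv_mul_cancel_left,
      mul_assoc e a b, mul_assoc e (a * b) c]
  exact h2 _ _ _ _ _

/-- basis vectors of `M` and of `Λ^1 M` -/
noncomputable def oneEquiv (n : ℕ) : Idx n ≃ EIdx n [1] :=
  Equiv.ofBijective (fun j => ((⟨{finSumFinEquiv j}, Finset.card_singleton _⟩ : Sub (n + n) 1), ()))
    ⟨fun i j h => by
      have h1 := congrArg (fun t : Sub (n + n) 1 × Unit => t.1.1) h
      exact finSumFinEquiv.injective (Finset.singleton_injective h1), fun t => by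
      obtain ⟨S, u⟩ := (t : Sub (n + n) 1 × Unit)
      obtain ⟨a, ha⟩ := Finset.card_eq_one.mp S.2
      refine ⟨finSumFinEquiv.symm a, ?_⟩
      apply Prod.ext
      · apply Subtype.ext
        change {finSumFinEquiv (finSumFinEquiv.symm a)} = S.1
        rw [ha, Equiv.apply_symm_apply]
      · rfl⟩

theorem wt_oneEquiv (j : Idx n) : (extTensor E n [1]).wt (oneEquiv n j) = (std E n).wt j := by
  funext i
  change (if finSumFinEquiv i ∈ ({finSumFinEquiv j} : Finset (Fin (n + n))) then 1 else 0) + 0 =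
    (Pi.single j 1 : Idx n → ℕ) i
  rw [add_zero, Pi.single_apply]
  by_cases h : i = j
  · rw [if_pos h, if_pos (Finset.mem_singleton.mpr (by rw [h]))]
  · rw [if_neg h, if_neg fun h' => h (finSumFinEquiv.injective (Finset.mem_singleton.mp h'))]

theorem period_zero {w : ℤ} (M : Datum R 0 w) {ε : E} {x : R} (hx : IsPeriod (std E 0) M ε x) :
    x = 1 := by
  obtain ⟨m, A, B, hA, -, -, -, rfl⟩ := hx
  have h1 : Subsingleton (Fin m → E) := hA.subsingleton
  have h2 : m = 0 := by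
    by_contra h
    have h3 : (fun _ : Fin m => (1 : E)) = fun _ => 0 := Subsingleton.elim _ _
    exact one_ne_zero (congrFun h3 ⟨0, Nat.pos_of_ne_zero h⟩)
  subst h2
  exact Matrix.det_isEmpty

theorem std_mem (hw : Odd w) (ε : ℤ) (hε : ε = 1 ∨ ε = -1) {u : Rˣ}
    (hu : IsPeriod (std E n) M (ε : E) (u : R)) : u ∈ spanOver E (tensorPeriods E M) := by
  rcases Nat.eq_zero_or_pos n with h0 | hn
  · subst h0
    have h1 : u = 1 := Units.ext (period_zero M hu)
    rw [h1]
    exact one_mem _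
  · have hodd : Odd ([1] : List ℕ).sum := by simp
    have hmid := noMiddle_of_odd (extTensor E n [1]) M hodd hw
    obtain ⟨y, hy⟩ := exists_period_aux (R := R) (extTensor E n [1]) M hmid ε hε
    obtain ⟨y', rfl⟩ := isUnit_period (extTensor E n [1]) M hmid ε hε hy
    obtain ⟨e, he⟩ := period_congr M (std E n) (extTensor E n [1]) (oneEquiv n) wt_oneEquiv hn
      (noMiddle_std M) hmid ε hε hu hy
    rw [he]
    refine mul_mem (cst_mem _ e) (mem_of _ ⟨[1], hodd, ?_⟩)
    rcases hε with rfl | rfl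
    · exact Or.inl (by simpa using hy)
    · exact Or.inr (by simpa using hy)

theorem basic_le_tensor (hw : Odd w) :
    spanOver E (basicPeriods E M) ≤ spanOver E (tensorPeriods E M) := by
  apply span_le
  have h1 : ∀ u : Rˣ, IsPeriod (std E n) M (1 : E) (u : R) →
      u ∈ spanOver E (tensorPeriods E M) := by
    intro u hu
    exact std_mem M hw 1 (Or.inl rfl) (by simpa using hu)
  have h2 : ∀ u : Rˣ, IsPeriod (std E n) M (-1 : E) (u : R) →
      u ∈ spanOver E (tensorPeriods E M) := by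
    intro u hu
    exact std_mem M hw (-1) (Or.inr rfl) (by simpa using hu)
  rintro u (hu | hu | ⟨a, ha, hu⟩)
  · exact h1 u hu
  · exact h2 u hu
  · obtain ⟨i₀, -, hi₀⟩ := Finset.mem_image.mp ha
    obtain ⟨L, m, hL, h⟩ := hodge_monomial hw M.p M.two_p i₀
    obtain ⟨x, y, h⟩ := h (fun _ => 1) fun _ => Or.inl rfl
    obtain ⟨c, d, q, hc, hd, hq⟩ := exists_units (E := E) M
    have hX : ∀ l : List ℕ, ∃ X : Rˣ, l ∈ L → IsPeriod (extTensor E n l) M (1 : E) (X : R) := by
      intro l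
      by_cases hl : l ∈ L
      · have hmid := noMiddle_of_odd (extTensor E n l) M (hL l hl) hw
        obtain ⟨z, hz⟩ := (exists_period (R := R) (extTensor E n l) M hmid).1
        obtain ⟨X, rfl⟩ := isUnit_period (extTensor E n l) M hmid 1 (Or.inl rfl)
          (by simpa using hz)
        exact ⟨X, fun _ => hz⟩
      · exact ⟨1, fun h => absurd h hl⟩
    choose X hX using hX
    obtain ⟨e, he⟩ := h E R M rfl c d u X hc hd (by rw [hi₀]; exact hu) (by simpa using hX)
    rw [he]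
    refine mul_mem (mul_mem (mul_mem (cst_mem _ e) (zpow_mem (h1 c hc) _))
      (zpow_mem (h2 d hd) _)) ?_
    apply Subgroup.prod_mem
    intro l hl
    exact zpow_mem (mem_of (tensorPeriods E M) ⟨l, hL l hl, Or.inl (hX l hl)⟩) _

theorem groups_eq (hw : Odd w) :
    spanOver E (allPeriods E M) = spanOver E (basicPeriods E M) ∧
      spanOver E (allPeriods E M) = spanOver E (tensorPeriods E M) :=
  And.intro (le_antisymm (all_le_basic M) ((basic_le_tensor M hw).trans (tensor_le_all M hw)))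
    (le_antisymm ((all_le_basic M).trans (basic_le_tensor M hw)) (tensor_le_all M hw))

end

end Pool.Agent.MP100fe7Cv
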