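import Pool.Agent.Lib.MP_100fe7_nt.CvSym

/-!
The sums of the low weights of symmetric polynomials of odd degree: the lattice which they generate.
-/

namespace Pool.Agent.MP100fe7Cv

open Finset MvPolynomial MP100fe7

section wall

variable {n : ℕ} {lam : Ix n → ℤ} {j₀ : Ix n} {v : ℤ → ℤ} (hodd : ∀ j, Odd (lam j))
  (hsw : ∀ j, lam (Sum.swap j) = - lam j)
  (hv : ∀ α ∈ arr lam j₀, (lv lam v α = 0 ↔ ∀ f : ℤ → ℤ, lam j₀ * ∑ j, lam j * f (α j) =
        qv lam α * ∑ j, lam j * f (al lam j₀ j)) ∧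
      (lv lam v α ≠ 0 → ∀ j, |lam j| < |lv lam v α|))
  (hev : Even (∑ j, v (al lam j₀ j)))

/-- the coordinates of a weight, if it is low and of odd degree -/
def phi (lam : Ix n → ℤ) (ν : Ix n → ℤ) (j : Ix n) : ℤ :=
  if Odd (∑ j, ν j) ∧ ∑ j, lam j * ν j < 0 then ν j else 0

include hodd hev in
theorem phi_wgt {α : Ix n → ℤ} (hα : α ∈ arr lam j₀) (a c : ℤ) (hc : Odd c) (j : Ix n) :
    phi lam (wgt v a c α) j =
      if a * lv lam v α + c * qv lam α < 0 then a * v (α j) + c * ei (α j) else 0 := by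
  obtain ⟨i, hi⟩ := exists_pos lam j₀ hodd hα
  have h1 : ∑ j, wgt v a c α j = a * ∑ j, v (al lam j₀ j) + c := by
    unfold wgt
    rw [Finset.sum_add_distrib, ← Finset.mul_sum, ← Finset.mul_sum, sum_ei hi,
      sum_arr lam j₀ hα v, mul_one]
  have h2 : Odd (∑ j, wgt v a c α j) := by
    rw [h1]
    exact (hev.mul_left a).add_odd hc
  have h3 : ∑ j, lam j * wgt v a c α j = a * lv lam v α + c * qv lam α := by
    rw [← sum_lam_ei]
    unfold wgt lv
    rw [Finset.mul_sum, Finset.mul_sum, ← Finset.sum_add_distrib]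
    apply Finset.sum_congr rfl
    intro j _
    ring
  unfold phi
  rw [h3]
  simp only [h2, true_and]
  rfl

include hodd hv hev in
theorem four' {α : Ix n → ℤ} (hα : α ∈ arr lam j₀) (j : Ix n) :
    2 * phi lam (wgt v 1 1 α) j - phi lam (wgt v 2 1 α) j +
      2 * phi lam (wgt v 1 (-1) α) j - phi lam (wgt v 2 (-1) α) j =
      if lv lam v α = 0 then (if α j = 0 then (if lam j < 0 then 1 else -1) else 0) else 0 := by
  obtain ⟨i, hi⟩ := exists_pos lam j₀ hodd hα
  have hq := qv_eq lam hi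
  have hq0 : qv lam α ≠ 0 := by
    rw [hq]
    exact lam_ne lam hodd i
  rw [phi_wgt hodd hev hα 1 1 odd_one, phi_wgt hodd hev hα 2 1 odd_one,
    phi_wgt hodd hev hα 1 (-1) (by decide), phi_wgt hodd hev hα 2 (-1) (by decide)]
  have he : (if α j = 0 then (if lam j < 0 then (1 : ℤ) else -1) else 0) =
      if qv lam α < 0 then ei (α j) else - ei (α j) := by
    unfold ei
    by_cases h1 : α j = 0
    · rw [if_pos h1, if_pos h1, hq, ← (hi j).mp h1]
    · rw [if_neg h1, if_neg h1, neg_zero, ite_self]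
  rw [he]
  set L := lv lam v α with hL
  set q := qv lam α with hqd
  set T := v (α j)
  set e := ei (α j)
  by_cases h0 : L = 0
  · rw [if_pos h0, h0]
    rcases lt_or_gt_of_ne hq0 with h | h
    · rw [if_pos (by linarith), if_pos (by linarith), if_neg (by linarith), if_neg (by linarith),
        if_pos h]
      ring
    · rw [if_neg (by linarith), if_neg (by linarith), if_pos (by linarith), if_pos (by linarith),
        if_neg (by linarith)]
      ring
  · rw [if_neg h0]
    have h1 := ((hv α hα).2 h0) i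
    rw [← hq] at h1
    rcases lt_or_gt_of_ne h0 with h | h
    · rw [abs_of_neg h] at h1
      obtain ⟨h2, h3⟩ := abs_lt.mp h1
      rw [if_pos (by linarith), if_pos (by linarith), if_pos (by linarith), if_pos (by linarith)]
      ring
    · rw [abs_of_pos h] at h1
      obtain ⟨h2, h3⟩ := abs_lt.mp h1
      rw [if_neg (by linarith), if_neg (by linarith), if_neg (by linarith), if_neg (by linarith)]
      ring

/-- the number of arrangements on the wall with the mark at `j` -/
noncomputable def cn (lam : Ix n → ℤ) (j₀ : Ix n) (v : ℤ → ℤ) (j : Ix n) : ℕ :=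
  ((wall lam j₀ v).filter fun α => α j = 0).card

include hodd hv hev in
theorem wall_sum' (j : Ix n) : ∑ α ∈ arr lam j₀,
    (2 * phi lam (wgt v 1 1 α) j - phi lam (wgt v 2 1 α) j +
      2 * phi lam (wgt v 1 (-1) α) j - phi lam (wgt v 2 (-1) α) j) =
      if lam j < 0 then (cn lam j₀ v j : ℤ) else - cn lam j₀ v j := by
  rw [Finset.sum_congr rfl fun α hα => four' hodd hv hev hα j, ← Finset.sum_filter]
  change ∑ α ∈ wall lam j₀ v, _ = _
  rw [← Finset.sum_filter, Finset.sum_const, nsmul_eq_mul]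
  change (cn lam j₀ v j : ℤ) * _ = _
  by_cases h : lam j < 0
  · rw [if_pos h, if_pos h, mul_one]
  · rw [if_neg h, if_neg h, mul_neg, mul_one]

theorem cn_congr {i j : Ix n} (hji : lam j = lam i) : cn lam j₀ v j = cn lam j₀ v i := by
  classical
  have hsw : ∀ k, lam (Equiv.swap j i k) = lam k := by
    intro k
    by_cases h3 : k = j
    · rw [h3, Equiv.swap_apply_left, hji]
    · by_cases h4 : k = i
      · rw [h4, Equiv.swap_apply_right, hji]
      · rw [Equiv.swap_apply_of_ne_of_ne h3 h4]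
  have hw : ∀ α ∈ wall lam j₀ v, (fun k => α (Equiv.swap j i k)) ∈ wall lam j₀ v := by
    intro α hα
    obtain ⟨h5, h6⟩ := Finset.mem_filter.mp hα
    refine Finset.mem_filter.mpr ⟨arr_comp lam j₀ h5 _, ?_⟩
    unfold lv at h6 ⊢
    rw [← h6, ← Equiv.sum_comp (Equiv.swap j i) fun k => lam k * v (α k)]
    apply Finset.sum_congr rfl
    intro k _
    rw [hsw]
  unfold cn
  apply Finset.card_bij fun α _ => fun k => α (Equiv.swap j i k)
  · intro α hα
    obtain ⟨h5, h6⟩ := Finset.mem_filter.mp hα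
    refine Finset.mem_filter.mpr ⟨hw α h5, ?_⟩
    change α (Equiv.swap j i i) = 0
    rw [Equiv.swap_apply_right, h6]
  · intro α _ β _ h
    funext k
    have := congrFun h (Equiv.swap j i k)
    simpa using this
  · intro α hα
    obtain ⟨h5, h6⟩ := Finset.mem_filter.mp hα
    refine ⟨fun k => α (Equiv.swap j i k), Finset.mem_filter.mpr ⟨hw α h5, ?_⟩, ?_⟩
    · change α (Equiv.swap j i j) = 0
      rw [Equiv.swap_apply_left, h6]
    · funext k
      change α (Equiv.swap j i (Equiv.swap j i k)) = α k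
      rw [Equiv.swap_apply_self]

include hsw in
theorem cn_swap (j : Ix n) : cn lam j₀ v (Sum.swap j) = cn lam j₀ v j := by
  unfold cn
  apply Finset.card_bij fun α _ => fun k => α (Sum.swap k)
  · intro α hα
    obtain ⟨h5, h6⟩ := Finset.mem_filter.mp hα
    exact Finset.mem_filter.mpr ⟨mirror_wall hsw h5, h6⟩
  · intro α _ β _ h
    funext k
    have := congrFun h (Sum.swap k)
    simpa using this
  · intro α hα
    obtain ⟨h5, h6⟩ := Finset.mem_filter.mp hα
    refine ⟨fun k => α (Sum.swap k), Finset.mem_filter.mpr ⟨mirror_wall hsw h5, ?_⟩, ?_⟩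
    · change α (Sum.swap (Sum.swap j)) = 0
      rw [Sum.swap_swap, h6]
    · funext k
      exact congrArg α (Sum.swap_swap k)

include hodd hv in
theorem cn_zero {j : Ix n} (hj : lam j₀ ^ 2 < lam j ^ 2) : cn lam j₀ v j = 0 := by
  unfold cn
  rw [Finset.card_eq_zero, Finset.filter_eq_empty_iff]
  intro α hα h0
  obtain ⟨h1, h2⟩ := Finset.mem_filter.mp hα
  obtain ⟨i, hi⟩ := exists_pos lam j₀ hodd h1
  have h3 := sq_le hodd h1 (((hv α h1).1).mp h2)
  rw [qv_eq lam hi, ← (hi j).mp h0] at h3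
  linarith

include hodd hv in
theorem cn_top : cn lam j₀ v j₀ = 1 := by
  classical
  unfold cn
  rw [Finset.card_eq_one]
  refine ⟨at' lam j₀, ?_⟩
  ext α
  rw [Finset.mem_filter, Finset.mem_singleton]
  constructor
  · rintro ⟨h1, h0⟩
    obtain ⟨h2, h3⟩ := Finset.mem_filter.mp h1
    obtain ⟨i, hi⟩ := exists_pos lam j₀ hodd h2
    have hq : qv lam α = lam j₀ := by rw [qv_eq lam hi, ← (hi j₀).mp h0]
    have hij := (hi j₀).mp h0
    funext j
    unfold at'
    by_cases hj : j = j₀
    · rw [if_pos hj, hj, h0]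
    · rw [if_neg hj]
      exact eq_of_top hodd h2 (((hv α h2).1).mp h3) hq j fun h => hj (((hi j).mp h).trans hij.symm)
  · rintro rfl
    have hq : qv lam (at' lam j₀) = lam j₀ := qv_eq lam (at_zero hodd j₀)
    have hm := at_mem (lam := lam) (j₀ := j₀) (j := j₀) rfl
    refine ⟨Finset.mem_filter.mpr ⟨hm, ?_⟩, (at_zero hodd j₀ j₀).mpr rfl⟩
    rw [(hv _ hm).1]
    intro f
    rw [hq]
    rfl

end wall

variable {n : ℕ} (lam : Ix n → ℤ)

/-- the sum of the low weights of odd degree, as a linear function of the polynomial -/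
noncomputable def Vv : MvPolynomial (Ix n) ℤ →ₗ[ℤ] (Ix n → ℤ) :=
  (basisMonomials (Ix n) ℤ).constr ℤ fun ν => phi lam fun j => (ν j : ℤ)

theorem Vv_monomial (ν : Ix n →₀ ℕ) : Vv lam (monomial ν 1) = phi lam fun j => (ν j : ℤ) := by
  have h := (basisMonomials (Ix n) ℤ).constr_basis ℤ (fun ν => phi lam fun j => (ν j : ℤ)) ν
  rw [coe_basisMonomials] at h
  exact h

theorem Vv_chr {E : Type} [Field E] {k : ℕ} {κ : Type} [Fintype κ] [DecidableEq κ]
    (ρ : PolyRep E n κ k) : Vv lam (chr ρ) = ∑ s, phi lam fun j => (ρ.wt s j : ℤ) := by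
  unfold chr
  rw [map_sum]
  apply Finset.sum_congr rfl
  intro s _
  rw [Vv_monomial]
  rfl

theorem Vv_even (l : List ℕ) (hl : ¬ Odd l.sum) : Vv lam (pr n l) = 0 := by
  rw [pr, ← chr_extTensor (E := ℚ), Vv_chr]
  apply Finset.sum_eq_zero
  intro s _
  funext j
  unfold phi
  rw [if_neg]
  · rfl
  rintro ⟨h, -⟩
  apply hl
  have h1 : (∑ j, (((extTensor ℚ n l).wt s j : ℕ) : ℤ)) = (l.sum : ℤ) := by
    rw [← Nat.cast_sum]
    congr 1
    exact (extTensor ℚ n l).deg s
  rw [h1] at h
  exact_mod_cast h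

/-- the lattice of the sums of the low weights -/
noncomputable def Hv : Submodule ℤ (Ix n → ℤ) :=
  Submodule.span ℤ (Set.range fun l : OddL => Vv lam (pr n l.1))

theorem Vv_pr_mem (l : List ℕ) : Vv lam (pr n l) ∈ Hv lam := by
  by_cases hl : Odd l.sum
  · exact Submodule.subset_span ⟨⟨l, hl⟩, rfl⟩
  · rw [Vv_even lam l hl]
    exact Submodule.zero_mem _

theorem Vv_symm {g : MvPolynomial (Ix n) ℤ} (hg : g.IsSymmetric) : Vv lam g ∈ Hv lam := by
  obtain ⟨P, hP⟩ := esymmAlgHom_surjective (σ := Ix n) ℤ (n := Fintype.card (Ix n)) le_rfl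
    ⟨g, hg⟩
  have h1 : g = (aeval fun i : Fin (Fintype.card (Ix n)) => esymm (Ix n) ℤ (i + 1)) P := by
    rw [← esymmAlgHom_apply, hP]
  rw [h1, P.as_sum, map_sum, map_sum]
  apply Submodule.sum_mem
  intro t _
  obtain ⟨l, hl⟩ := exists_list (n := n) t
  have h2 : monomial t (coeff t P) = (coeff t P) • (monomial t (1 : ℤ)) := by
    rw [smul_monomial, smul_eq_mul, mul_one]
  rw [h2, map_smul, map_smul, hl]
  exact Submodule.smul_mem _ _ (Vv_pr_mem lam l)

theorem Vv_gz (j₀ : Ix n) (v : ℤ → ℤ) (a c : ℤ)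
    (h : ∀ α ∈ arr lam j₀, ∀ j, 0 ≤ wgt v a c α j) (j : Ix n) :
    Vv lam (gz lam j₀ v a c) j = ∑ α ∈ arr lam j₀, phi lam (wgt v a c α) j := by
  unfold gz
  rw [map_sum, Finset.sum_apply]
  apply Finset.sum_congr rfl
  intro α hα
  rw [Vv_monomial]
  congr 1
  funext j
  exact Int.toNat_of_nonneg (h α hα j)

/-- the sum of the low weights of the wall polynomial -/
theorem cn_mem (hodd : ∀ j, Odd (lam j)) (hsw : ∀ j, lam (Sum.swap j) = - lam j) (j₀ : Ix n) :
    ∃ W : Ix n → ℕ, (∀ j, lam j₀ ^ 2 < lam j ^ 2 → W j = 0) ∧ W j₀ = 1 ∧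
      (∀ i j, lam j = lam i → W j = W i) ∧ (∀ j, W (Sum.swap j) = W j) ∧
      (fun j => if lam j < 0 then (W j : ℤ) else - W j) ∈ Hv lam := by
  have hsum : ∑ j, lam j = 0 := by
    have h1 : ∑ j, lam j = ∑ j, - lam j := by
      rw [← Equiv.sum_comp (Equiv.sumComm (Fin n) (Fin n)) lam]
      apply Finset.sum_congr rfl
      intro j _
      rw [Equiv.sumComm_apply, hsw]
    rw [Finset.sum_neg_distrib] at h1
    linarith
  obtain ⟨v, h1, hev, hv⟩ := exists_good lam j₀ hsum
  refine ⟨cn lam j₀ v, fun j hj => cn_zero hodd hv hj, cn_top hodd hv, fun i j h => cn_congr h,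
    fun j => cn_swap hsw j, ?_⟩
  have hval : ∀ α ∈ arr lam j₀, ∀ j, 1 ≤ v (α j) := by
    intro α hα j
    rw [mem_arr] at hα
    obtain ⟨σ, rfl⟩ := hα
    exact h1 (σ j)
  have hnn : ∀ a c : ℤ, 1 ≤ a → -1 ≤ c → ∀ α ∈ arr lam j₀, ∀ j, 0 ≤ wgt v a c α j := by
    intro a c ha hc α hα j
    have h2 := hval α hα j
    unfold wgt ei
    split_ifs
    · nlinarith
    · nlinarith
  have h3 : (fun j => if lam j < 0 then (cn lam j₀ v j : ℤ) else - cn lam j₀ v j) =
      Vv lam (2 • gz lam j₀ v 1 1 - gz lam j₀ v 2 1 + 2 • gz lam j₀ v 1 (-1) -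
        gz lam j₀ v 2 (-1)) := by
    funext j
    rw [← wall_sum' hodd hv hev j]
    simp only [map_sub, map_add, map_nsmul, Pi.sub_apply, Pi.add_apply, Pi.smul_apply]
    rw [Vv_gz lam j₀ v 1 1 (hnn 1 1 le_rfl (by norm_num)),
      Vv_gz lam j₀ v 2 1 (hnn 2 1 (by norm_num) (by norm_num)),
      Vv_gz lam j₀ v 1 (-1) (hnn 1 (-1) le_rfl le_rfl),
      Vv_gz lam j₀ v 2 (-1) (hnn 2 (-1) (by norm_num) le_rfl)]
    rw [Finset.sum_sub_distrib, Finset.sum_add_distrib, Finset.sum_sub_distrib, ← Finset.mul_sum,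
      ← Finset.mul_sum]
    simp only [nsmul_eq_mul, Nat.cast_ofNat]
  rw [h3]
  apply Vv_symm
  refine IsSymmetric.sub (IsSymmetric.add (IsSymmetric.sub ?_ (gz_symm lam j₀ v 2 1)) ?_)
    (gz_symm lam j₀ v 2 (-1))
  · rw [two_nsmul]
    exact (gz_symm lam j₀ v 1 1).add (gz_symm lam j₀ v 1 1)
  · rw [two_nsmul]
    exact (gz_symm lam j₀ v 1 (-1)).add (gz_symm lam j₀ v 1 (-1))

/-- the difference of the indicators of the values `b` and `-b` -/
def uv (b : ℤ) (j : Ix n) : ℤ := (if lam j = b then 1 else 0) - (if lam j = -b then 1 else 0)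

/-- the differences of the indicators are in the lattice -/
theorem unit_mem (hodd : ∀ j, Odd (lam j)) (hsw : ∀ j, lam (Sum.swap j) = - lam j) :
    ∀ (N : ℕ) (j₀ : Ix n), lam j₀ < 0 → (lam j₀).natAbs ≤ N → uv lam (lam j₀) ∈ Hv lam := by
  classical
  intro N
  induction N with
  | zero =>
    intro j₀ h1 h2
    omega
  | succ N ih =>
    intro j₀ h1 h2
    obtain ⟨W, hW1, hW2, hW3, hW5, hW4⟩ := cn_mem lam hodd hsw j₀
    let B : Finset ℤ := (Finset.univ.image lam).filter fun b => b < 0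
    let w : ℤ → ℕ := fun b => if h : ∃ j, lam j = b then W h.choose else 0
    have hw : ∀ j, w (lam j) = W j := by
      intro j
      have h : ∃ i, lam i = lam j := ⟨j, rfl⟩
      simp only [w, dif_pos h]
      exact hW3 _ _ h.choose_spec
    have hB : ∀ j, lam j < 0 → lam j ∈ B := fun j hj =>
      Finset.mem_filter.mpr ⟨Finset.mem_image_of_mem lam (Finset.mem_univ j), hj⟩
    have h3 : (fun j => if lam j < 0 then (W j : ℤ) else - W j) =
        ∑ b ∈ B, (w b : ℤ) • uv lam b := by
      funext j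
      rw [Finset.sum_apply]
      by_cases hj : lam j < 0
      · rw [if_pos hj, Finset.sum_eq_single (lam j)]
        · rw [hw]
          unfold uv
          rw [Pi.smul_apply, if_pos rfl, if_neg (by omega), smul_eq_mul]
          ring
        · intro b hb hbj
          have hb0 := (Finset.mem_filter.mp hb).2
          unfold uv
          rw [Pi.smul_apply, if_neg (fun h => hbj h.symm), if_neg (by omega)]
          simp
        · intro h
          exact absurd (hB j hj) h
      · have h0 := lam_ne lam hodd j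
        have hs : lam (Sum.swap j) < 0 := by
          rw [hsw]
          omega
        rw [if_neg hj, Finset.sum_eq_single (lam (Sum.swap j))]
        · rw [hw, hW5]
          unfold uv
          rw [Pi.smul_apply, hsw, if_neg (by omega), if_pos (by omega), smul_eq_mul]
          ring
        · intro b hb hbj
          have hb0 := (Finset.mem_filter.mp hb).2
          rw [hsw] at hbj
          unfold uv
          rw [Pi.smul_apply, if_neg (by omega), if_neg (fun h => hbj (by omega))]
          simp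
        · intro h
          exact absurd (hB _ hs) h
    rw [h3, ← Finset.add_sum_erase B _ (hB j₀ h1), hw, hW2, Nat.cast_one, one_smul] at hW4
    have h6 : ∑ b ∈ B.erase (lam j₀), (w b : ℤ) • uv lam b ∈ Hv lam := by
      apply Submodule.sum_mem
      intro b hb
      obtain ⟨hne, hbB⟩ := Finset.mem_erase.mp hb
      obtain ⟨h7, h8⟩ := Finset.mem_filter.mp hbB
      obtain ⟨j, -, rfl⟩ := Finset.mem_image.mp h7
      by_cases h9 : lam j₀ ^ 2 < lam j ^ 2
      · rw [hw, hW1 _ h9]
        simp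
      · have h10 : (lam j).natAbs < (lam j₀).natAbs := by
          rw [← Int.natAbs_lt_iff_sq_lt] at h9
          rcases lt_or_ge (lam j).natAbs (lam j₀).natAbs with h | h
          · exact h
          · exfalso
            have : (lam j).natAbs = (lam j₀).natAbs := le_antisymm (not_lt.mp h9) h
            apply hne
            omega
        exact Submodule.smul_mem _ _ (ih j h8 (by omega))
    have h13 := Submodule.sub_mem _ hW4 h6
    rwa [add_sub_cancel_right] at h13

/-- integers which express the difference of the indicators of `lam i₀` and `-lam i₀` -/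
theorem exists_unit (hodd : ∀ j, Odd (lam j)) (hsw : ∀ j, lam (Sum.swap j) = - lam j)
    (j₀ : Ix n) (h0 : lam j₀ < 0) :
    ∃ c : OddL →₀ ℤ, ∀ j, ∑ l ∈ c.support, c l * Vv lam (pr n l.1) j = uv lam (lam j₀) j := by
  obtain ⟨c, hc⟩ := (Finsupp.mem_span_range_iff_exists_finsupp).mp
    (unit_mem lam hodd hsw _ j₀ h0 le_rfl)
  refine ⟨c, fun j => ?_⟩
  have h2 := congrFun hc j
  rw [Finsupp.sum, Finset.sum_apply] at h2
  exact h2

end Pool.Agent.MP100fe7Cv
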