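import Pool.Agent.Lib.MP_100fe7_nt.CvNM
import Pool.Agent.Lib.MP_100fe7_nt.CvR
import Pool.Agent.Lib.MP_100fe7_nt.CvV

/-!
The vectors of the sums of the low weights, and the monomials attached to them.
-/

set_option linter.unusedSectionVars false

namespace Pool.Agent.MP100fe7K

open MP100fe7T MP100fe7Cv

variable {E : Type} [Field E] [CharZero E] {R : Type} [CommRing R] [Algebra E R]
  {ι : Type} [Fintype ι] [DecidableEq ι] {σ : ι → Shape} {w : ι → ℤ}
  (M : ∀ i, Datum R (σ i) (w i))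

/-- Exponents whose sums are those of the vector `W`. -/
structure IsExpV (W : Tot σ → ℤ) (A B : ι → ℤ) (S : ι → ℤ → ℤ) : Prop where
  free : ∀ i, NoMid (σ i) → ((σ i).n : ℤ) * (A i + B i) = ∑ j, W ⟨i, j⟩
  mid : ∀ i, ¬ NoMid (σ i) → (Fintype.card (σ i).Idx : ℤ) * A i = ∑ j, W ⟨i, j⟩
  low : ∀ i x, S i (w i - (M i).p x) = W ⟨i, Sum.inl (Sum.inr x)⟩

theorem sgn_cases {s : Shape} (j : s.Idx) : s.sgn j = 1 ∨ s.sgn j = -1 := by
  rcases j with (j | j) | (j | j)
  · exact Or.inl rfl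
  · exact Or.inr rfl
  · exact Or.inl rfl
  · exact Or.inr rfl

theorem sum_free {s : Shape} (h : NoMid s) (f : s.Idx → ℤ) :
    ∑ j, f j = ∑ x, f (Sum.inl (Sum.inl x)) + ∑ x, f (Sum.inl (Sum.inr x)) := by
  rw [Fintype.sum_sum_type, Fintype.sum_sum_type]
  rw [show ∑ y : Fin s.m ⊕ Fin s.r, f (Sum.inr y) = 0 from ?_, add_zero]
  apply Finset.sum_eq_zero
  rintro (y | y) _
  · exfalso
    have h1 := y.2
    have h2 := h.1
    omega
  · exfalso
    have h1 := y.2
    have h2 := h.2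
    omega

theorem sum_Vl {κ : Type} [Fintype κ] [DecidableEq κ] (ρ : Rep E σ κ) (i : ι) :
    ∑ j, Vl ρ M ⟨i, j⟩ = ((ρ.lowPart M ((ρ.motWeight w + 1) / 2)).card : ℤ) *
      ((ρ.deg i : ℤ) - ρ.twist i * Fintype.card (σ i).Idx) := by
  unfold Vl
  rw [Finset.sum_comm]
  simp only [sum_weight_idx]
  rw [Finset.sum_const, nsmul_eq_mul]

theorem IsExp.vec {κ : Type} [Fintype κ] [DecidableEq κ] {ρ : Rep E σ κ} (hmid : ρ.NoMiddle M)
    {ε : ℤ} (hε : ε = 1 ∨ ε = -1) {A B : ι → ℤ} {S : ι → ℤ → ℤ} (h : IsExp ρ M ε A B S) :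
    IsExpV M (Vl ρ M) A B S := by
  have hs : ∀ i, ∑ j, ∑ s ∈ ρ.signPart ε, ρ.weight s ⟨i, j⟩ = ∑ j, Vl ρ M ⟨i, j⟩ := by
    intro i
    rw [sum_Vl, ← card_sign_eq ρ M hmid hε, Finset.sum_comm]
    simp only [sum_weight_idx]
    rw [Finset.sum_const, nsmul_eq_mul]
  refine ⟨fun i hi => ?_, fun i hi => ?_, h.low⟩
  · rw [← hs, sum_free hi, mul_add]
    congr 1
    · rw [Finset.sum_congr rfl fun x _ => (h.pos i (Sum.inl (Sum.inl x)) rfl).symm]
      simp
    · rw [Finset.sum_congr rfl fun x _ => (h.neg i (Sum.inl (Sum.inr x)) rfl).symm]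
      simp
  · rw [← hs]
    have h1 : ∀ j, ∑ s ∈ ρ.signPart ε, ρ.weight s ⟨i, j⟩ = A i := by
      intro j
      rcases sgn_cases j with hj | hj
      · exact (h.pos i j hj).symm
      · rw [← h.neg i j hj, h.mid i hi]
    rw [Finset.sum_congr rfl fun j _ => h1 j, Finset.sum_const, Finset.card_univ, nsmul_eq_mul]

section abs

variable {𝔾 : Type*} [CommGroup 𝔾] (c d D : ι → 𝔾) (q : ι → ℤ → 𝔾) (G : Subgroup 𝔾)

/-- The monomial attached to the vector `W` belongs to `G`. -/
def InG (W : Tot σ → ℤ) : Prop :=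
  ∃ (A B : ι → ℤ) (S : ι → ℤ → ℤ), IsExpV M W A B S ∧ ∏ i, fac M c d D q A B S i ∈ G

theorem fac_zero (i : ι) : fac M c d D q 0 0 0 i = 1 := by
  unfold fac
  simp

theorem fac_add (A B A' B' : ι → ℤ) (S S' : ι → ℤ → ℤ) (i : ι) :
    fac M c d D q (A + A') (B + B') (S + S') i =
      fac M c d D q A B S i * fac M c d D q A' B' S' i := by
  unfold fac
  simp only [Pi.add_apply]
  split_ifs
  · rw [zpow_add, zpow_add]
    have h : ∏ a ∈ (M i).lowIndices, q i a ^ (S i a + S' i a - (A i + A' i) - (B i + B' i)) =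
        (∏ a ∈ (M i).lowIndices, q i a ^ (S i a - A i - B i)) *
          ∏ a ∈ (M i).lowIndices, q i a ^ (S' i a - A' i - B' i) := by
      rw [← Finset.prod_mul_distrib]
      apply Finset.prod_congr rfl
      intro a _
      rw [← zpow_add]
      congr 1
      ring
    rw [h]
    ac_rfl
  · rw [zpow_add]
    have h : ∏ a ∈ (M i).lowIndices, q i a ^ (S i a + S' i a - (A i + A' i)) =
        (∏ a ∈ (M i).lowIndices, q i a ^ (S i a - A i)) *
          ∏ a ∈ (M i).lowIndices, q i a ^ (S' i a - A' i) := by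
      rw [← Finset.prod_mul_distrib]
      apply Finset.prod_congr rfl
      intro a _
      rw [← zpow_add]
      congr 1
      ring
    rw [h]
    ac_rfl

theorem fac_neg (A B : ι → ℤ) (S : ι → ℤ → ℤ) (i : ι) :
    fac M c d D q (-A) (-B) (-S) i = (fac M c d D q A B S i)⁻¹ := by
  have h := fac_add M c d D q (-A) (-B) A B (-S) S i
  rw [neg_add_cancel, neg_add_cancel, neg_add_cancel, fac_zero] at h
  exact eq_inv_of_mul_eq_one_left h.symm

theorem inG_zero : InG M c d D q G 0 := by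
  refine ⟨0, 0, 0, ⟨?_, ?_, ?_⟩, ?_⟩
  · intro i _
    simp
  · intro i _
    simp
  · intro i x
    rfl
  · rw [Finset.prod_eq_one fun i _ => fac_zero M c d D q i]
    exact one_mem G

theorem inG_add {W W' : Tot σ → ℤ} (h : InG M c d D q G W) (h' : InG M c d D q G W') :
    InG M c d D q G (W + W') := by
  obtain ⟨A, B, S, h1, h2⟩ := h
  obtain ⟨A', B', S', h1', h2'⟩ := h'
  refine ⟨A + A', B + B', S + S', ⟨?_, ?_, ?_⟩, ?_⟩
  · intro i hi
    simp only [Pi.add_apply]
    rw [Finset.sum_add_distrib, ← h1.free i hi, ← h1'.free i hi]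
    ring
  · intro i hi
    simp only [Pi.add_apply]
    rw [Finset.sum_add_distrib, ← h1.mid i hi, ← h1'.mid i hi]
    ring
  · intro i x
    simp only [Pi.add_apply]
    rw [h1.low, h1'.low]
  · rw [Finset.prod_congr rfl fun i _ => fac_add M c d D q A B A' B' S S' i,
      Finset.prod_mul_distrib]
    exact mul_mem h2 h2'

theorem inG_neg {W : Tot σ → ℤ} (h : InG M c d D q G W) : InG M c d D q G (-W) := by
  obtain ⟨A, B, S, h1, h2⟩ := h
  refine ⟨-A, -B, -S, ⟨?_, ?_, ?_⟩, ?_⟩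
  · intro i hi
    simp only [Pi.neg_apply]
    rw [Finset.sum_neg_distrib, ← h1.free i hi]
    ring
  · intro i hi
    simp only [Pi.neg_apply]
    rw [Finset.sum_neg_distrib, ← h1.mid i hi]
    ring
  · intro i x
    simp only [Pi.neg_apply]
    rw [h1.low]
  · rw [Finset.prod_congr rfl fun i _ => fac_neg M c d D q A B S i, Finset.prod_inv_distrib]
    exact inv_mem h2

theorem inG_closure {𝒲 : Set (Tot σ → ℤ)} (h : ∀ W ∈ 𝒲, InG M c d D q G W) :
    ∀ W ∈ AddSubgroup.closure 𝒲, InG M c d D q G W := by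
  intro W hW
  induction hW using AddSubgroup.closure_induction with
  | mem x hx => exact h x hx
  | zero => exact inG_zero M c d D q G
  | add x y _ _ hx hy => exact inG_add M c d D q G hx hy
  | neg x _ hx => exact inG_neg M c d D q G hx

/-- A vector with vanishing sums gives a product of Hodge periods. -/
theorem prod_mem (hc : ∀ i, NoMid (σ i) → c i ∈ G ∧ d i ∈ G) {W : Tot σ → ℤ}
    (hW : InG M c d D q G W) (h0 : ∀ i, ∑ j, W ⟨i, j⟩ = 0) :
    ∃ ex : ι → ℤ → ℤ, (∀ i x, ex i (w i - (M i).p x) = W ⟨i, Sum.inl (Sum.inr x)⟩) ∧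
      ∏ i, ∏ a ∈ (M i).lowIndices, q i a ^ ex i a ∈ G := by
  obtain ⟨A, B, S, h1, h2⟩ := hW
  refine ⟨S, h1.low, ?_⟩
  have h3 : ∀ i, ∃ u ∈ G, fac M c d D q A B S i = u * ∏ a ∈ (M i).lowIndices, q i a ^ S i a := by
    intro i
    unfold fac
    by_cases hi : (σ i).m = 0 ∧ (σ i).r = 0
    · rw [if_pos hi]
      refine ⟨c i ^ A i * d i ^ B i, mul_mem (zpow_mem (hc i hi).1 _) (zpow_mem (hc i hi).2 _), ?_⟩
      congr 1
      apply Finset.prod_congr rfl
      intro a ha
      obtain ⟨x, -, -⟩ := Finset.mem_image.mp ha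
      have hn : ((σ i).n : ℤ) ≠ 0 := by exact_mod_cast (Fin.pos x).ne'
      have h4 := h1.free i hi
      rw [h0 i] at h4
      have h5 := (mul_eq_zero.mp h4).resolve_left hn
      congr 1
      linarith
    · rw [if_neg hi]
      have hA : A i = 0 := by
        have h4 := h1.mid i hi
        rw [h0 i] at h4
        refine (mul_eq_zero.mp h4).resolve_left ?_
        obtain ⟨y⟩ := exists_mid (s := σ i) hi
        have : 0 < Fintype.card (σ i).Idx := Fintype.card_pos_iff.mpr ⟨Sum.inr y⟩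
        exact_mod_cast this.ne'
      refine ⟨1, one_mem G, ?_⟩
      rw [hA, zpow_zero]
      simp only [sub_zero]
  choose u hu h4 using h3
  rw [Finset.prod_congr rfl fun i _ => h4 i, Finset.prod_mul_distrib] at h2
  exact (Subgroup.mul_mem_cancel_left G (Subgroup.prod_mem _ fun i _ => hu i)).mp h2

end abs

theorem mem_low_iff {κ : Type} [Fintype κ] [DecidableEq κ] (ρ : Rep E σ κ) (s : κ) :
    s ∈ ρ.lowPart M ((ρ.motWeight w + 1) / 2) ↔ cenT M ρ s < 0 := by
  unfold Rep.lowPart cenT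
  rw [Finset.mem_filter]
  constructor
  · rintro ⟨-, h⟩
    omega
  · intro h
    exact ⟨Finset.mem_univ _, by omega⟩

theorem noMiddle_iff {κ : Type} [Fintype κ] [DecidableEq κ] (ρ : Rep E σ κ) :
    ρ.NoMiddle M ↔ ∀ s, cenT M ρ s ≠ 0 := by
  unfold Rep.NoMiddle cenT
  constructor
  · intro h s h'
    exact h s (by omega)
  · intro h s h'
    exact h s (by omega)

section key

variable {N : ℕ} (τ : Rep E σ (MP100fe7.Idx N)) (hτ : ∀ i, τ.twist i = 0)

include hτ in
theorem motWeight_comp {k : ℕ} {κ : Type} [Fintype κ] [DecidableEq κ]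
    (ρ : MP100fe7.PolyRep E N κ k) :
    (compRep ρ τ).motWeight w = k * τ.motWeight w := by
  unfold Rep.motWeight
  rw [Finset.mul_sum]
  apply Finset.sum_congr rfl
  intro i _
  change (((k * τ.deg i : ℕ) : ℤ) - ((k * τ.twist i : ℕ) : ℤ) * _) * _ = _
  rw [hτ i]
  push_cast
  ring

include hτ in
theorem weight_comp {k : ℕ} {κ : Type} [Fintype κ] [DecidableEq κ]
    (ρ : MP100fe7.PolyRep E N κ k) (s : κ) (q : Tot σ) :
    (compRep ρ τ).weight s q = ∑ j, (ρ.wt s j : ℤ) * (τ.wt j q : ℤ) := by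
  unfold Rep.weight
  change ((∑ j, ρ.wt s j * τ.wt j q : ℕ) : ℤ) - ((k * τ.twist q.1 : ℕ) : ℤ) = _
  rw [hτ q.1]
  push_cast
  ring

variable {v : ℤ} (hv : 0 < v) {o : MP100fe7.Idx N → ℤ} (ho : ∀ j, Odd (o j))
  (hcen : ∀ j, cenT M τ j = v * o j)

include hτ hcen in
theorem cen_comp {k : ℕ} {κ : Type} [Fintype κ] [DecidableEq κ]
    (ρ : MP100fe7.PolyRep E N κ k) (s : κ) :
    cenT M (compRep ρ τ) s = v * ∑ j, o j * (ρ.wt s j : ℤ) := by
  rw [cenT_comp M _ τ hτ, Finset.mul_sum]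
  apply Finset.sum_congr rfl
  intro j _
  rw [hcen]
  ring

include ho in
theorem odd_sum {k : ℕ} (hk : Odd k) {κ : Type} [Fintype κ] [DecidableEq κ]
    (ρ : MP100fe7.PolyRep E N κ k) (s : κ) : Odd (∑ j, o j * (ρ.wt s j : ℤ)) := by
  have h1 : Odd (∑ j, (ρ.wt s j : ℤ)) := by
    have : ∑ j, (ρ.wt s j : ℤ) = (k : ℤ) := by exact_mod_cast ρ.deg s
    rw [this]
    exact (Int.odd_coe_nat _).mpr hk
  have h2 : Even (∑ j, (o j - 1) * (ρ.wt s j : ℤ)) := by
    apply Finset.even_sum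
    intro j _
    obtain ⟨t, ht⟩ := ho j
    exact ⟨t * ρ.wt s j, by rw [ht]; ring⟩
  have h3 : ∑ j, o j * (ρ.wt s j : ℤ) = ∑ j, (o j - 1) * (ρ.wt s j : ℤ) +
      ∑ j, (ρ.wt s j : ℤ) := by
    rw [← Finset.sum_add_distrib]
    apply Finset.sum_congr rfl
    intro j _
    ring
  rw [h3]
  exact h2.add_odd h1

include hτ hv ho hcen in
theorem noMiddle_comp {k : ℕ} (hk : Odd k) {κ : Type} [Fintype κ] [DecidableEq κ]
    (ρ : MP100fe7.PolyRep E N κ k) : (compRep ρ τ).NoMiddle M := by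
  rw [noMiddle_iff]
  intro s
  rw [cen_comp M τ hτ hcen]
  refine mul_ne_zero hv.ne' ?_
  intro h0
  have := odd_sum ho hk ρ s
  rw [h0] at this
  exact absurd this (by decide)

include hτ hv hcen in
/-- the sums of the low weights -/
theorem Vv_low (l : List ℕ) (hl : Odd l.sum) (j : Ix N) :
    Vv o (pr N l) j = ∑ s ∈ (compRep (extTensor E N l) τ).lowPart M
      (((compRep (extTensor E N l) τ).motWeight w + 1) / 2), ((extTensor E N l).wt s j : ℤ) := by
  have h1 : pr N l = chr (extTensor E N l) := (chr_extTensor (E := E) l).symm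
  rw [h1, Vv_chr, Finset.sum_apply]
  have h2 : ∀ s, phi o (fun j => ((extTensor E N l).wt s j : ℤ)) j =
      if s ∈ (compRep (extTensor E N l) τ).lowPart M
      (((compRep (extTensor E N l) τ).motWeight w + 1) / 2) then ((extTensor E N l).wt s j : ℤ)
      else 0 := by
    intro s
    unfold phi
    have h3 : Odd (∑ j, ((extTensor E N l).wt s j : ℤ)) := by
      have : ∑ j, ((extTensor E N l).wt s j : ℤ) = (l.sum : ℤ) := by
        exact_mod_cast (extTensor E N l).deg s
      rw [this]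
      exact (Int.odd_coe_nat _).mpr hl
    have h4 := mem_low_iff M (compRep (extTensor E N l) τ) s
    rw [cen_comp M τ hτ hcen] at h4
    have h5 : v * ∑ j, o j * ((extTensor E N l).wt s j : ℤ) < 0 ↔
        ∑ j, o j * ((extTensor E N l).wt s j : ℤ) < 0 := by
      constructor
      · intro h
        by_contra h'
        push Not at h'
        have := mul_nonneg hv.le h'
        linarith
      · intro h
        exact mul_neg_of_pos_of_neg hv h
    rw [h5] at h4
    by_cases hs : s ∈ (compRep (extTensor E N l) τ).lowPart M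
      (((compRep (extTensor E N l) τ).motWeight w + 1) / 2)
    · rw [if_pos hs, if_pos ⟨h3, h4.mp hs⟩]
    · rw [if_neg hs, if_neg fun h => hs (h4.mpr h.2)]
  rw [Finset.sum_congr rfl fun s _ => h2 s, Finset.sum_ite_mem, Finset.univ_inter]

include hτ hv ho hcen in
/-- The vector attached to a value of the centred Hodge indices of `τ(M)`. -/
theorem key (hsw : ∀ j, o (Sum.swap j) = - o j) (j₀ : Ix N) (h0 : o j₀ < 0) :
    (fun q : Tot σ => ∑ j, uv o (o j₀) j * (τ.wt j q : ℤ)) ∈ AddSubgroup.closure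
      {W | ∃ l : List ℕ, Odd l.sum ∧ W = Vl (compRep (extTensor E N l) τ) M} := by
  classical
  obtain ⟨k, hk⟩ := exists_unit o ho hsw j₀ h0
  have h1 : (fun q : Tot σ => ∑ j, uv o (o j₀) j * (τ.wt j q : ℤ)) =
      ∑ l ∈ k.support, k l • Vl (compRep (extTensor E N l.1) τ) M := by
    funext q
    rw [Finset.sum_apply]
    simp only [Pi.smul_apply, smul_eq_mul]
    have h2 : ∀ l : OddL, k l * Vl (compRep (extTensor E N l.1) τ) M q =
        ∑ j, (k l * Vv o (pr N l.1) j) * (τ.wt j q : ℤ) := by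
      intro l
      unfold Vl
      simp only [weight_comp τ hτ]
      rw [Finset.sum_comm, Finset.mul_sum]
      apply Finset.sum_congr rfl
      intro j _
      rw [Vv_low M τ hτ hv hcen l.1 l.2 j, ← Finset.sum_mul]
      ring
    rw [Finset.sum_congr rfl fun l _ => h2 l, Finset.sum_comm]
    apply Finset.sum_congr rfl
    intro j _
    rw [← Finset.sum_mul, hk]
  rw [h1]
  refine AddSubgroup.sum_mem _ fun l _ => AddSubgroup.zsmul_mem _ ?_ _
  apply AddSubgroup.subset_closure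
  exact ⟨l.1, l.2, rfl⟩

end key

end Pool.Agent.MP100fe7K
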