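import Pool.Agent.Lib.MP_100fe7_nt.CvK

/-!
The Hodge periods of the motives all of whose differences `p - (w - p)` are odd multiples of one
integer.
-/

set_option linter.unusedSectionVars false

namespace Pool.Agent.MP100fe7K

open MP100fe7T MP100fe7Cv

/-- numbering of a set with a sign changing involution -/
theorem exists_pairing {κ : Type} [Fintype κ] (f : κ → ℤ) (hf : ∀ s, f s ≠ 0) (inv : κ → κ)
    (h1 : ∀ s, inv (inv s) = s) (h2 : ∀ s, f (inv s) = - f s) :
    ∃ (N : ℕ) (ψ : MP100fe7.Idx N ≃ κ), ∀ j, f (ψ (Sum.swap j)) = - f (ψ j) := by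
  classical
  let e : Fin (Fintype.card {s // 0 < f s}) ≃ {s // 0 < f s} := (Fintype.equivFin _).symm
  let g : MP100fe7.Idx (Fintype.card {s // 0 < f s}) → κ :=
    Sum.elim (fun t => (e t).1) (fun t => inv (e t).1)
  have hinj : Function.Injective inv := fun s t h => by rw [← h1 s, h, h1]
  have hg : Function.Bijective g := by
    constructor
    · rintro (s | s) (t | t) h
      · have h3 : (e s).1 = (e t).1 := h
        rw [e.injective (Subtype.ext h3)]
      · exfalso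
        have h3 : (e s).1 = inv (e t).1 := h
        have h4 := (e s).2
        have h5 := (e t).2
        rw [h3, h2] at h4
        omega
      · exfalso
        have h3 : inv (e s).1 = (e t).1 := h
        have h4 := (e t).2
        have h5 := (e s).2
        rw [← h3, h2] at h4
        omega
      · have h3 : inv (e s).1 = inv (e t).1 := h
        rw [e.injective (Subtype.ext (hinj h3))]
    · intro s
      rcases lt_or_gt_of_ne (hf s) with h | h
      · refine ⟨Sum.inr (e.symm ⟨inv s, by rw [h2]; omega⟩), ?_⟩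
        change inv (e (e.symm ⟨inv s, _⟩)).1 = s
        rw [Equiv.apply_symm_apply, h1]
      · refine ⟨Sum.inl (e.symm ⟨s, h⟩), ?_⟩
        change (e (e.symm ⟨s, h⟩)).1 = s
        rw [Equiv.apply_symm_apply]
  refine ⟨_, Equiv.ofBijective g hg, ?_⟩
  rintro (t | t)
  · change f (inv (e t).1) = - f (e t).1
    rw [h2]
  · change f (e t).1 = - f (inv (e t).1)
    rw [h2, neg_neg]

variable {E : Type} [Field E] [CharZero E] {R : Type} [CommRing R] [Algebra E R]
  {ι : Type} [Fintype ι] [DecidableEq ι] {σ : ι → Shape} {w : ι → ℤ}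
  (M : ∀ i, Datum R (σ i) (w i))

/-- The vector attached to a value of the centred Hodge indices of `τ(M)`. -/
def kv {κ : Type} [Fintype κ] [DecidableEq κ] (τ : Rep E σ κ) (s₀ : κ) (q : Tot σ) : ℤ :=
  ∑ s, ((if cenT M τ s = cenT M τ s₀ then 1 else 0) -
    (if cenT M τ s = - cenT M τ s₀ then 1 else 0)) * (τ.wt s q : ℤ)

theorem kv_mem {κ : Type} [Fintype κ] [DecidableEq κ] (τ : Rep E σ κ)
    (hτ : ∀ i, τ.twist i = 0) {v : ℤ} (hv : 0 < v)
    (hodd : ∀ s, ∃ o : ℤ, Odd o ∧ cenT M τ s = v * o)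
    (inv : κ → κ) (hi1 : ∀ s, inv (inv s) = s) (hi2 : ∀ s, cenT M τ (inv s) = - cenT M τ s)
    (s₀ : κ) (h0 : cenT M τ s₀ < 0) (H : AddSubgroup (Tot σ → ℤ))
    (hH : ∀ (N : ℕ) (ψ : MP100fe7.Idx N ≃ κ) (l : List ℕ), Odd l.sum →
      Vl (compRep (extTensor E N l) (reindexRep τ ψ)) M ∈ H) :
    kv M τ s₀ ∈ H := by
  have hne : ∀ s, cenT M τ s ≠ 0 := by
    intro s h
    obtain ⟨o, ho, h3⟩ := hodd s
    rw [h] at h3
    rcases mul_eq_zero.mp h3.symm with h4 | h4
    · exact hv.ne' h4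
    · rw [h4] at ho
      exact absurd ho (by decide)
  choose o ho hcen using hodd
  obtain ⟨N, ψ, hψ⟩ := exists_pairing (cenT M τ) hne inv hi1 hi2
  have hcan : ∀ a b : ℤ, v * a = v * b ↔ a = b := fun a b =>
    ⟨fun h => mul_left_cancel₀ hv.ne' h, fun h => by rw [h]⟩
  have hsw : ∀ j, o (ψ (Sum.swap j)) = - o (ψ j) := by
    intro j
    rw [← hcan, ← hcen, hψ, hcen]
    ring
  have hneg : o (ψ (ψ.symm s₀)) < 0 := by
    rw [Equiv.apply_symm_apply]
    rw [hcen] at h0
    by_contra h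
    push Not at h
    have := mul_nonneg hv.le h
    linarith
  have h := key M (reindexRep τ ψ) hτ hv (o := fun j => o (ψ j)) (fun j => ho (ψ j))
    (fun j => hcen (ψ j)) hsw (ψ.symm s₀) hneg
  have h1 : (fun q : Tot σ => ∑ j, uv (fun j => o (ψ j)) (o (ψ (ψ.symm s₀))) j *
      ((reindexRep τ ψ).wt j q : ℤ)) = kv M τ s₀ := by
    funext q
    unfold kv
    rw [← Equiv.sum_comp ψ, Equiv.apply_symm_apply]
    apply Finset.sum_congr rfl
    intro j _
    unfold uv
    have e1 : (cenT M τ (ψ j) = cenT M τ s₀) ↔ o (ψ j) = o s₀ := by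
      rw [hcen, hcen, hcan]
    have e2 : (cenT M τ (ψ j) = - cenT M τ s₀) ↔ o (ψ j) = - o s₀ := by
      rw [hcen, hcen, ← hcan (o (ψ j)) (- o s₀), mul_neg]
    simp only [e1, e2]
    rfl
  rw [h1] at h
  refine (AddSubgroup.closure_le H).mpr ?_ h
  rintro W ⟨l, hl, rfl⟩
  exact hH N ψ l hl

theorem kv_sum {κ : Type} [Fintype κ] [DecidableEq κ] (τ : Rep E σ κ)
    (inv : κ → κ) (hi1 : ∀ s, inv (inv s) = s) (hi2 : ∀ s, cenT M τ (inv s) = - cenT M τ s)
    (s₀ : κ) (i : ι) : ∑ j, kv M τ s₀ ⟨i, j⟩ = 0 := by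
  unfold kv
  rw [Finset.sum_comm]
  have h1 : ∀ s, ∑ j, ((if cenT M τ s = cenT M τ s₀ then (1 : ℤ) else 0) -
      (if cenT M τ s = - cenT M τ s₀ then 1 else 0)) * (τ.wt s ⟨i, j⟩ : ℤ) =
      ((if cenT M τ s = cenT M τ s₀ then 1 else 0) -
        (if cenT M τ s = - cenT M τ s₀ then 1 else 0)) * τ.deg i := by
    intro s
    rw [← Finset.mul_sum]
    congr 1
    exact_mod_cast τ.sum_wt s i
  rw [Finset.sum_congr rfl fun s _ => h1 s, ← Finset.sum_mul]
  have h2 : ∑ s, ((if cenT M τ s = cenT M τ s₀ then (1 : ℤ) else 0) -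
      (if cenT M τ s = - cenT M τ s₀ then 1 else 0)) =
      - ∑ s, ((if cenT M τ s = cenT M τ s₀ then (1 : ℤ) else 0) -
      (if cenT M τ s = - cenT M τ s₀ then 1 else 0)) := by
    let e : κ ≃ κ := ⟨inv, inv, hi1, hi1⟩
    conv_lhs => rw [← Equiv.sum_comp e]
    rw [← Finset.sum_neg_distrib]
    apply Finset.sum_congr rfl
    intro s _
    have e0 : cenT M τ (e s) = - cenT M τ s := hi2 s
    have e1 : (cenT M τ (e s) = cenT M τ s₀) ↔ cenT M τ s = - cenT M τ s₀ := by
      rw [e0]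
      constructor <;> intro h <;> linarith
    have e2 : (cenT M τ (e s) = - cenT M τ s₀) ↔ cenT M τ s = cenT M τ s₀ := by
      rw [e0]
      constructor <;> intro h <;> linarith
    simp only [e1, e2]
    ring
  have h3 : ∑ s, ((if cenT M τ s = cenT M τ s₀ then (1 : ℤ) else 0) -
      (if cenT M τ s = - cenT M τ s₀ then 1 else 0)) = 0 := by linarith
  rw [h3, zero_mul]

/-- the involution of the basis of a motive -/
def invIdx {s : Shape} : s.Idx → s.Idx
  | Sum.inl x => Sum.inl (Sum.swap x)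
  | Sum.inr y => Sum.inr y

theorem invIdx_invIdx {s : Shape} (x : s.Idx) : invIdx (invIdx x) = x := by
  rcases x with x | y
  · simp only [invIdx, Sum.swap_swap]
  · rfl

/-- twice the centred Hodge indices of a motive -/
def cenI (i : ι) (x : (σ i).Idx) : ℤ := 2 * (M i).hodgeIdx x - w i

theorem cenI_mid (i : ι) (y : Fin (σ i).m ⊕ Fin (σ i).r) : cenI M i (Sum.inr y) = 0 := by
  have h := (M i).two_mid y
  unfold cenI
  rw [Datum.hodgeIdx_mid]
  omega

theorem cenI_inv (i : ι) (x : (σ i).Idx) : cenI M i (invIdx x) = - cenI M i x := by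
  rcases x with (x | x) | y
  · change 2 * (w i - (M i).p x) - w i = - (2 * (M i).p x - w i)
    ring
  · change 2 * (M i).p x - w i = - (2 * (w i - (M i).p x) - w i)
    ring
  · change cenI M i (Sum.inr y) = _
    rw [cenI_mid, neg_zero]

theorem cenI_low (i : ι) (x : Fin (σ i).n) :
    cenI M i (Sum.inl (Sum.inr x)) = w i - 2 * (M i).p x := by
  change 2 * (w i - (M i).p x) - w i = _
  ring

theorem motWeight_proj (i : ι) : (projRep E σ i).motWeight w = w i := by
  unfold Rep.motWeight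
  rw [Finset.sum_eq_single i]
  · change (((if i = i then 1 else 0 : ℕ) : ℤ) - ((0 : ℕ) : ℤ) * _) * w i = w i
    simp
  · intro j _ hj
    change (((if j = i then 1 else 0 : ℕ) : ℤ) - ((0 : ℕ) : ℤ) * _) * w j = 0
    rw [if_neg hj]
    simp
  · simp

theorem wt_proj (i i' : ι) (s : (σ i).Idx) (t : (σ i').Idx) :
    ((projRep E σ i).wt s ⟨i', t⟩ : ℤ) = if (⟨i', t⟩ : Tot σ) = ⟨i, s⟩ then 1 else 0 := by
  change ((if (⟨i', t⟩ : Tot σ) = ⟨i, s⟩ then 1 else 0 : ℕ) : ℤ) = _
  split_ifs <;> rfl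

theorem sum_wt_proj_same (i : ι) (t : (σ i).Idx) (f : (σ i).Idx → ℤ) :
    ∑ s, f s * ((projRep E σ i).wt s ⟨i, t⟩ : ℤ) = f t := by
  rw [Finset.sum_eq_single t]
  · rw [wt_proj, if_pos rfl, mul_one]
  · intro s _ hs
    rw [wt_proj, if_neg, mul_zero]
    intro h
    exact hs (eq_of_heq (Sigma.mk.inj h).2).symm
  · simp

theorem wt_proj_ne {i i' : ι} (h : i' ≠ i) (s : (σ i).Idx) (t : (σ i').Idx) :
    ((projRep E σ i).wt s ⟨i', t⟩ : ℤ) = 0 := by
  rw [wt_proj, if_neg]
  intro h'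
  exact h (Sigma.mk.inj h').1

section cases

variable {𝔾 : Type*} [CommGroup 𝔾] (c d D : ι → 𝔾) (q : ι → ℤ → 𝔾) (G : Subgroup 𝔾)
  (hc : ∀ i, NoMid (σ i) → c i ∈ G ∧ d i ∈ G) (H : AddSubgroup (Tot σ → ℤ))
  (hall : ∀ W ∈ H, InG M c d D q G W)

theorem cenI_odd {i : ι} (hi : NoMid (σ i)) {v : ℤ}
    (hodd : ∀ x, ∃ o : ℤ, Odd o ∧ 2 * (M i).p x - w i = v * o) (s : (σ i).Idx) :
    ∃ o : ℤ, Odd o ∧ cenI M i s = v * o := by
  rcases s with (x | x) | (y | y)
  · exact hodd x
  · obtain ⟨o, ho, h⟩ := hodd x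
    refine ⟨-o, ho.neg, ?_⟩
    rw [cenI_low]
    linarith
  · exfalso
    have h1 := y.2
    have h2 := hi.1
    omega
  · exfalso
    have h1 := y.2
    have h2 := hi.2
    omega

include hc hall in
/-- the Hodge periods of a motive all of whose differences are odd multiples of `v` -/
theorem odd_case (i₀ : ι) (hi₀ : NoMid (σ i₀)) {v : ℤ} (hv : 0 < v)
    (hodd : ∀ x, ∃ o : ℤ, Odd o ∧ 2 * (M i₀).p x - w i₀ = v * o)
    (hH : ∀ (N : ℕ) (ψ : MP100fe7.Idx N ≃ (σ i₀).Idx) (l : List ℕ), Odd l.sum →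
      Vl (compRep (extTensor E N l) (reindexRep (projRep E σ i₀) ψ)) M ∈ H)
    (a₀ : ℤ) (ha₀ : a₀ ∈ (M i₀).lowIndices) :
    q i₀ a₀ ∈ G := by
  classical
  obtain ⟨x₀, -, rfl⟩ := Finset.mem_image.mp ha₀
  have hp₀ := (M i₀).two_p x₀
  have hcen : ∀ s, cenT M (projRep E σ i₀) s = cenI M i₀ s := fun s => cenT_proj M i₀ s
  have hkv := kv_mem M (projRep E σ i₀) (fun _ => rfl) hv
    (fun s => by rw [hcen]; exact cenI_odd M hi₀ hodd s)
    invIdx invIdx_invIdx (fun s => by rw [hcen, hcen]; exact cenI_inv M i₀ s)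
    (Sum.inl (Sum.inr x₀)) (by rw [hcen, cenI_low]; omega) H hH
  obtain ⟨ex, hex, h⟩ := prod_mem M c d D q G hc (hall _ hkv) (fun i =>
    kv_sum M _ invIdx invIdx_invIdx (fun s => by rw [hcen, hcen]; exact cenI_inv M i₀ s) _ i)
  have h1 : ∀ i x, ex i (w i - (M i).p x) =
      if i = i₀ ∧ w i - (M i).p x = w i₀ - (M i₀).p x₀ then 1 else 0 := by
    intro i x
    rw [hex]
    unfold kv
    by_cases hi : i = i₀
    · subst hi
      rw [sum_wt_proj_same, hcen, hcen, cenI_low, cenI_low]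
      have hp := (M i).two_p x
      by_cases h1 : w i - (M i).p x = w i - (M i).p x₀
      · rw [if_pos (by omega), if_neg (by omega), if_pos ⟨rfl, h1⟩]
        rfl
      · rw [if_neg (by omega), if_neg (by omega), if_neg (fun h' => h1 h'.2)]
        rfl
    · rw [if_neg (fun h' => hi h'.1)]
      apply Finset.sum_eq_zero
      intro s _
      rw [wt_proj_ne hi, mul_zero]
  rw [Finset.prod_eq_single i₀] at h
  · rw [Finset.prod_eq_single (w i₀ - (M i₀).p x₀)] at h
    · rwa [h1, if_pos ⟨rfl, rfl⟩, zpow_one] at h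
    · intro a ha hne
      obtain ⟨x, -, rfl⟩ := Finset.mem_image.mp ha
      rw [h1, if_neg (fun h' => hne h'.2), zpow_zero]
    · intro h'
      exact absurd ha₀ h'
  · intro i _ hi
    apply Finset.prod_eq_one
    intro a ha
    obtain ⟨x, -, rfl⟩ := Finset.mem_image.mp ha
    rw [h1, if_neg (fun h' => hi h'.1), zpow_zero]
  · simp

end cases

end Pool.Agent.MP100fe7K
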