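import Pool.Agent.Lib.MP_100fe7_nt.CvK2

/-!
The Hodge periods and the determinants of the motives all of whose differences `p - (w - p)` are
even multiples of `v`, with the help of a motive for which they are odd multiples of `v`.
-/

set_option linter.unusedSectionVars false

namespace Pool.Agent.MP100fe7K

open MP100fe7T MP100fe7Cv

section comb

variable {m l : ℕ} (f : Fin m → ℤ)

/-- the sum of the values of `f` on a subset -/
def sm (S : Sub m l) : ℤ := ∑ y ∈ S.1, f y

theorem sm_lt (θ : ℤ) (hl : (Finset.univ.filter fun y => f y ≤ θ).card = l) (S : Sub m l)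
    (hS : S ≠ ⟨Finset.univ.filter fun y => f y ≤ θ, hl⟩) :
    sm f ⟨Finset.univ.filter fun y => f y ≤ θ, hl⟩ < sm f S := by
  classical
  have hmem : ∀ y, y ∈ (Finset.univ.filter fun y => f y ≤ θ) ↔ f y ≤ θ := by
    intro y
    simp
  revert hS
  unfold sm
  dsimp only
  generalize hT : (Finset.univ.filter fun y => f y ≤ θ) = T at *
  intro hS
  have h1 : (S.1 \ T).card = (T \ S.1).card := Finset.card_sdiff_comm (by rw [S.2, hl])
  have h2 : (T \ S.1).Nonempty := by
    rw [Finset.nonempty_iff_ne_empty]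
    intro h
    rw [h, Finset.card_empty] at h1
    apply hS
    apply Subtype.ext
    exact Finset.Subset.antisymm
      (Finset.sdiff_eq_empty_iff_subset.mp (Finset.card_eq_zero.mp h1))
      (Finset.sdiff_eq_empty_iff_subset.mp h)
  have h3 : ∑ y ∈ T \ S.1, f y ≤ ((T \ S.1).card : ℤ) * θ := by
    have := Finset.sum_le_card_nsmul (T \ S.1) f θ
      (fun y hy => (hmem y).mp (Finset.mem_sdiff.mp hy).1)
    rwa [nsmul_eq_mul] at this
  have h4 : ((S.1 \ T).card : ℤ) * (θ + 1) ≤ ∑ y ∈ S.1 \ T, f y := by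
    have := Finset.card_nsmul_le_sum (S.1 \ T) f (θ + 1)
      (fun y hy => by
        have h := (Finset.mem_sdiff.mp hy).2
        rw [hmem] at h
        omega)
    rwa [nsmul_eq_mul] at this
  have h5 : ∑ y ∈ S.1, f y = ∑ y ∈ S.1 ∩ T, f y + ∑ y ∈ S.1 \ T, f y :=
    (Finset.sum_inter_add_sum_sdiff _ _ _).symm
  have h6 : ∑ y ∈ T, f y = ∑ y ∈ T ∩ S.1, f y + ∑ y ∈ T \ S.1, f y :=
    (Finset.sum_inter_add_sum_sdiff _ _ _).symm
  have h7 : 0 < ((T \ S.1).card : ℤ) := by exact_mod_cast Finset.card_pos.mpr h2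
  rw [h1] at h4
  rw [h5, h6, Finset.inter_comm S.1 T]
  nlinarith

/-- the image of a subset under an involution -/
def invS (e : Fin m ≃ Fin m) (S : Sub m l) : Sub m l :=
  ⟨S.1.map e.toEmbedding, by rw [Finset.card_map, S.2]⟩

theorem invS_invS (e : Fin m ≃ Fin m) (he : ∀ y, e (e y) = y) (S : Sub m l) :
    invS e (invS e S) = S := by
  apply Subtype.ext
  change (S.1.map e.toEmbedding).map e.toEmbedding = S.1
  rw [Finset.map_map]
  have h : e.toEmbedding.trans e.toEmbedding = Function.Embedding.refl _ := by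
    ext y
    change ((e (e y) : Fin m) : ℕ) = y
    rw [he]
  rw [h, Finset.map_refl]

theorem sm_invS (e : Fin m ≃ Fin m) (he : ∀ y, f (e y) = - f y) (S : Sub m l) :
    sm f (invS e S) = - sm f S := by
  unfold sm
  change ∑ y ∈ S.1.map e.toEmbedding, f y = _
  rw [Finset.sum_map, ← Finset.sum_neg_distrib]
  exact Finset.sum_congr rfl fun y _ => he y

end comb

/-- the exchange of the two halves -/
def swE (n : ℕ) : Fin (n + n) ≃ Fin (n + n) :=
  finSumFinEquiv.symm.trans ((Equiv.sumComm _ _).trans finSumFinEquiv)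

theorem swE_swE {n : ℕ} (y : Fin (n + n)) : swE n (swE n y) = y := by
  unfold swE
  simp

variable {E : Type} [Field E] [CharZero E] {R : Type} [CommRing R] [Algebra E R]
  {ι : Type} [Fintype ι] [DecidableEq ι] {σ : ι → Shape} {w : ι → ℤ}
  (M : ∀ i, Datum R (σ i) (w i))

/-- twice the centred Hodge indices of the two halves of the basis -/
def fcen (i : ι) (y : Fin ((σ i).n + (σ i).n)) : ℤ :=
  cenI M i (Sum.inl (finSumFinEquiv.symm y))

theorem fcen_swE (i : ι) (y : Fin ((σ i).n + (σ i).n)) :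
    fcen M i (swE _ y) = - fcen M i y := by
  unfold fcen swE
  rw [← cenI_inv M]
  simp [invIdx]

theorem exists_theta (i : ι) (a₁ : ℤ) (h : Odd (Fintype.card ((M i).Block a₁))) :
    ∃ θ : ℤ, θ < 0 ∧ Odd (Finset.univ.filter fun y => fcen M i y ≤ θ).card := by
  classical
  have hne : ∃ x : Fin (σ i).n, w i - (M i).p x = a₁ := by
    by_contra hcon
    push Not at hcon
    haveI : IsEmpty ((M i).Block a₁) := ⟨fun x => hcon x.1 x.2⟩
    rw [Fintype.card_eq_zero] at h
    exact absurd h (by decide)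
  obtain ⟨x₁, hx₁⟩ := hne
  have hp := (M i).two_p x₁
  have hcard : (Finset.univ.filter fun y => fcen M i y = 2 * a₁ - w i).card =
      Fintype.card ((M i).Block a₁) := by
    rw [Fintype.card_subtype]
    symm
    apply Finset.card_bij (fun x _ => finSumFinEquiv (Sum.inr x))
    · intro x hx
      rw [Finset.mem_filter] at hx ⊢
      refine ⟨Finset.mem_univ _, ?_⟩
      unfold fcen
      rw [Equiv.symm_apply_apply]
      change 2 * (w i - (M i).p x) - w i = _
      rw [hx.2]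
    · intro x _ x' _ hxx
      exact Sum.inr_injective (finSumFinEquiv.injective hxx)
    · intro y hy
      rw [Finset.mem_filter] at hy
      obtain ⟨z, rfl⟩ := finSumFinEquiv.surjective y
      have h3 := hy.2
      unfold fcen at h3
      rw [Equiv.symm_apply_apply] at h3
      rcases z with x | x
      · exfalso
        change 2 * (M i).p x - w i = _ at h3
        have := (M i).two_p x
        omega
      · refine ⟨x, ?_, rfl⟩
        rw [Finset.mem_filter]
        change 2 * (w i - (M i).p x) - w i = _ at h3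
        exact ⟨Finset.mem_univ _, by omega⟩
  have hsplit : (Finset.univ.filter fun y => fcen M i y ≤ 2 * a₁ - w i).card =
      (Finset.univ.filter fun y => fcen M i y ≤ 2 * a₁ - w i - 1).card +
        (Finset.univ.filter fun y => fcen M i y = 2 * a₁ - w i).card := by
    rw [← Finset.card_union_of_disjoint]
    · congr 1
      ext y
      simp only [Finset.mem_union, Finset.mem_filter, Finset.mem_univ, true_and]
      omega
    · rw [Finset.disjoint_left]
      intro y hy hy'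
      simp only [Finset.mem_filter, Finset.mem_univ, true_and] at hy hy'
      omega
  rw [hcard] at hsplit
  rcases Nat.even_or_odd (Finset.univ.filter fun y => fcen M i y ≤ 2 * a₁ - w i).card
    with h1 | h1
  · refine ⟨2 * a₁ - w i - 1, by omega, ?_⟩
    rw [hsplit] at h1
    rcases Nat.even_or_odd (Finset.univ.filter fun y => fcen M i y ≤ 2 * a₁ - w i - 1).card
      with h2 | h2
    · exact absurd h1 (Nat.not_even_iff_odd.mpr (h2.add_odd h))
    · exact h2
  · exact ⟨2 * a₁ - w i, by omega, h1⟩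

theorem inl_bij {s : Shape} (h : NoMid s) :
    Function.Bijective (Sum.inl : MP100fe7.Idx s.n → s.Idx) := by
  refine ⟨Sum.inl_injective, ?_⟩
  rintro (x | (y | y))
  · exact ⟨x, rfl⟩
  · exfalso
    have h1 := y.2
    have h2 := h.1
    omega
  · exfalso
    have h1 := y.2
    have h2 := h.2
    omega

section lam

variable (E) {i : ι} (hi : NoMid (σ i)) (l : ℕ)

/-- the exterior powers of a motive without middle part -/
noncomputable def lamRep : Rep E σ (Sub ((σ i).n + (σ i).n) l) :=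
  compRep (MP100fe7Cv.ext E (σ i).n l)
    (reindexRep (projRep E σ i) (Equiv.ofBijective _ (inl_bij hi)))

theorem lamRep_twist (i' : ι) : (lamRep E hi l).twist i' = 0 := Nat.mul_zero _

theorem cenT_lam (S : Sub ((σ i).n + (σ i).n) l) :
    cenT M (lamRep E hi l) S = sm (fcen M i) S := by
  classical
  unfold lamRep
  rw [cenT_comp M _ _ (fun _ => rfl)]
  have h1 : ∀ j : MP100fe7.Idx (σ i).n,
      cenT M (reindexRep (projRep E σ i) (Equiv.ofBijective _ (inl_bij hi))) j *
        ((MP100fe7Cv.ext E (σ i).n l).wt S j : ℤ) =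
      if finSumFinEquiv j ∈ S.1 then fcen M i (finSumFinEquiv j) else 0 := by
    intro j
    rw [cenT_reindex]
    change cenT M (projRep E σ i) (Sum.inl j) *
      ((if finSumFinEquiv j ∈ S.1 then 1 else 0 : ℕ) : ℤ) = _
    rw [cenT_proj]
    unfold fcen cenI
    rw [Equiv.symm_apply_apply]
    split_ifs <;> simp
  rw [Finset.sum_congr rfl fun j _ => h1 j,
    Equiv.sum_comp finSumFinEquiv (fun y => if y ∈ S.1 then fcen M i y else 0),
    Finset.sum_ite_mem, Finset.univ_inter]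
  rfl

theorem wt_lam_ne {i' : ι} (h : i' ≠ i) (S : Sub ((σ i).n + (σ i).n) l) (t : (σ i').Idx) :
    (lamRep E hi l).wt S ⟨i', t⟩ = 0 := by
  change ∑ j, (MP100fe7Cv.ext E (σ i).n l).wt S j *
    (if (⟨i', t⟩ : Tot σ) = ⟨i, Sum.inl j⟩ then 1 else 0) = 0
  apply Finset.sum_eq_zero
  intro j _
  rw [if_neg, mul_zero]
  intro h'
  exact h (Sigma.mk.inj h').1

end lam

theorem sm_odd {m l : ℕ} {f : Fin m → ℤ} {v : ℤ} (hf : ∀ y, ∃ o : ℤ, Odd o ∧ f y = v * o)
    (hl : Odd l) (S : Sub m l) : ∃ o : ℤ, Odd o ∧ sm f S = v * o := by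
  choose o ho h using hf
  refine ⟨∑ y ∈ S.1, o y, ?_, ?_⟩
  · have h2 : Even (∑ y ∈ S.1, (o y - 1)) := by
      apply Finset.even_sum
      intro y _
      exact (ho y).sub_odd odd_one
    have h3 : ∑ y ∈ S.1, o y = ∑ y ∈ S.1, (o y - 1) + (l : ℤ) := by
      rw [Finset.sum_sub_distrib, Finset.sum_const, S.2]
      simp
    rw [h3]
    exact h2.add_odd ((Int.odd_coe_nat _).mpr hl)
  · unfold sm
    rw [Finset.mul_sum]
    exact Finset.sum_congr rfl fun y _ => h y

section cases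

variable {𝔾 : Type*} [CommGroup 𝔾] (c d D : ι → 𝔾) (q : ι → ℤ → 𝔾) (G : Subgroup 𝔾)
  (hc : ∀ i, NoMid (σ i) → c i ∈ G ∧ d i ∈ G) (H : AddSubgroup (Tot σ → ℤ))
  (hall : ∀ W ∈ H, InG M c d D q G W)

theorem fcen_odd {i : ι} {v : ℤ}
    (hodd : ∀ x, ∃ o : ℤ, Odd o ∧ 2 * (M i).p x - w i = v * o) (y : Fin ((σ i).n + (σ i).n)) :
    ∃ o : ℤ, Odd o ∧ fcen M i y = v * o := by
  unfold fcen
  rcases finSumFinEquiv.symm y with x | x
  · exact hodd x
  · obtain ⟨o, ho, h⟩ := hodd x
    refine ⟨-o, ho.neg, ?_⟩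
    rw [cenI_low]
    linarith

theorem cenI_even {i : ι} {v : ℤ}
    (heven : ∀ x, ∃ o : ℤ, Even o ∧ 2 * (M i).p x - w i = v * o) (s : (σ i).Idx) :
    ∃ o : ℤ, Even o ∧ cenI M i s = v * o := by
  rcases s with (x | x) | y
  · exact heven x
  · obtain ⟨o, ho, h⟩ := heven x
    refine ⟨-o, ho.neg, ?_⟩
    rw [cenI_low]
    linarith
  · exact ⟨0, Even.zero, by rw [cenI_mid, mul_zero]⟩

include hc hall in
/-- the Hodge periods of a motive all of whose differences are even multiples of `v` -/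
theorem even_case (i₁ j₀ : ι) (hne : i₁ ≠ j₀) (hj₀ : NoMid (σ j₀)) {v : ℤ} (hv : 0 < v)
    (hodd : ∀ x, ∃ o : ℤ, Odd o ∧ 2 * (M j₀).p x - w j₀ = v * o)
    (heven : ∀ x, ∃ o : ℤ, Even o ∧ 2 * (M i₁).p x - w i₁ = v * o) (a₁ : ℤ)
    (hblk : Odd (Fintype.card ((M j₀).Block a₁)))
    (hH : ∀ l', Odd l' → ∀ (N : ℕ)
      (ψ : MP100fe7.Idx N ≃ Sub ((σ j₀).n + (σ j₀).n) l' × (σ i₁).Idx) (l : List ℕ), Odd l.sum →
      Vl (compRep (extTensor E N l)
        (reindexRep (tensorRep (lamRep E hj₀ l') (projRep E σ i₁)) ψ)) M ∈ H)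
    (hqj : ∀ a ∈ (M j₀).lowIndices, q j₀ a ∈ G)
    (N : ℕ) : ∀ a₀ ∈ (M i₁).lowIndices, ((M i₁).lowIndices.filter fun a => a < a₀).card = N →
      q i₁ a₀ ∈ G := by
  classical
  induction N using Nat.strong_induction_on with
  | _ N IH =>
  intro a₀ ha₀ hN
  obtain ⟨θ, hθ, hl⟩ := exists_theta M j₀ a₁ hblk
  obtain ⟨l, hcard⟩ : ∃ l, (Finset.univ.filter fun y => fcen M j₀ y ≤ θ).card = l := ⟨_, rfl⟩
  rw [hcard] at hl
  obtain ⟨x₀, -, rfl⟩ := Finset.mem_image.mp ha₀
  have hp₀ := (M i₁).two_p x₀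
  obtain ⟨S₁, hS₁⟩ : ∃ S₁ : Sub ((σ j₀).n + (σ j₀).n) l,
      S₁ = ⟨Finset.univ.filter fun y => fcen M j₀ y ≤ θ, hcard⟩ := ⟨_, rfl⟩
  have hmin : ∀ S : Sub ((σ j₀).n + (σ j₀).n) l, S ≠ S₁ →
      sm (fcen M j₀) S₁ < sm (fcen M j₀) S := by
    intro S hS
    rw [hS₁] at hS ⊢
    exact sm_lt _ θ hcard S hS
  have hmin' : ∀ S : Sub ((σ j₀).n + (σ j₀).n) l, sm (fcen M j₀) S₁ ≤ sm (fcen M j₀) S := by
    intro S
    by_cases h : S = S₁
    · rw [h]
    · exact (hmin S h).le
  have hmax : ∀ S : Sub ((σ j₀).n + (σ j₀).n) l, sm (fcen M j₀) S ≤ - sm (fcen M j₀) S₁ := by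
    intro S
    have h := hmin' (invS (swE _) S)
    rw [sm_invS _ _ (fcen_swE M j₀)] at h
    linarith
  have hneg : sm (fcen M j₀) S₁ ≤ 0 := by
    have h1 := hmin' S₁
    have h2 := hmax S₁
    linarith
  have htw : ∀ i, (tensorRep (lamRep E hj₀ l) (projRep E σ i₁)).twist i = 0 := by
    intro i
    change (lamRep E hj₀ l).twist i + 0 = 0
    rw [lamRep_twist]
  have hcen : ∀ s, cenT M (tensorRep (lamRep E hj₀ l) (projRep E σ i₁)) s =
      sm (fcen M j₀) s.1 + cenI M i₁ s.2 := by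
    intro s
    rw [cenT_tensor M _ _ (lamRep_twist E hj₀ l) (fun _ => rfl), cenT_lam E M hj₀ l,
      cenT_proj]
    rfl
  have hinv : ∀ s : Sub ((σ j₀).n + (σ j₀).n) l × (σ i₁).Idx,
      cenT M (tensorRep (lamRep E hj₀ l) (projRep E σ i₁)) (invS (swE _) s.1, invIdx s.2) =
      - cenT M (tensorRep (lamRep E hj₀ l) (projRep E σ i₁)) s := by
    intro s
    rw [hcen, hcen]
    change sm (fcen M j₀) (invS (swE _) s.1) + cenI M i₁ (invIdx s.2) = _
    rw [sm_invS _ _ (fcen_swE M j₀), cenI_inv M]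
    ring
  have hwt : ∀ (s : Sub ((σ j₀).n + (σ j₀).n) l × (σ i₁).Idx) (i : ι) (t : (σ i).Idx),
      i ≠ j₀ → ((tensorRep (lamRep E hj₀ l) (projRep E σ i₁)).wt s ⟨i, t⟩ : ℤ) =
        ((projRep E σ i₁).wt s.2 ⟨i, t⟩ : ℤ) := by
    intro s i t hi
    change (((lamRep E hj₀ l).wt s.1 ⟨i, t⟩ + (projRep E σ i₁).wt s.2 ⟨i, t⟩ : ℕ) : ℤ) = _
    rw [wt_lam_ne E hj₀ l hi, zero_add]
  have hkv := kv_mem M (tensorRep (lamRep E hj₀ l) (projRep E σ i₁)) htw hv
    (fun s => by
      obtain ⟨o, ho, h1⟩ := sm_odd (fcen_odd M hodd) hl s.1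
      obtain ⟨o', ho', h2⟩ := cenI_even M heven s.2
      exact ⟨o + o', ho.add_even ho', by rw [hcen, h1, h2]; ring⟩)
    (fun s => (invS (swE _) s.1, invIdx s.2))
    (fun s => by
      change (invS (swE _) (invS (swE _) s.1), invIdx (invIdx s.2)) = s
      rw [invS_invS _ swE_swE, invIdx_invIdx])
    hinv (S₁, Sum.inl (Sum.inr x₀)) (by
      rw [hcen]
      change sm (fcen M j₀) S₁ + cenI M i₁ (Sum.inl (Sum.inr x₀)) < 0
      rw [cenI_low]
      linarith) H (hH l hl)
  obtain ⟨ex, hex, h⟩ := prod_mem M c d D q G hc (hall _ hkv) (fun i =>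
    kv_sum M _ (fun s => (invS (swE _) s.1, invIdx s.2))
    (fun s => by
      change (invS (swE _) (invS (swE _) s.1), invIdx (invIdx s.2)) = s
      rw [invS_invS _ swE_swE, invIdx_invIdx])
    hinv _ i)
  have hex₁ : ∀ x, w i₁ - (M i₁).p x₀ ≤ w i₁ - (M i₁).p x → ex i₁ (w i₁ - (M i₁).p x) =
      if w i₁ - (M i₁).p x = w i₁ - (M i₁).p x₀ then 1 else 0 := by
    intro x hle
    have hp := (M i₁).two_p x
    rw [hex]
    unfold kv
    rw [Fintype.sum_prod_type]
    have h1 : ∀ S : Sub ((σ j₀).n + (σ j₀).n) l,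
        ∑ y, ((if cenT M (tensorRep (lamRep E hj₀ l) (projRep E σ i₁)) (S, y) =
          cenT M (tensorRep (lamRep E hj₀ l) (projRep E σ i₁))
            (S₁, Sum.inl (Sum.inr x₀)) then (1 : ℤ) else 0) -
        (if cenT M (tensorRep (lamRep E hj₀ l) (projRep E σ i₁)) (S, y) =
          - cenT M (tensorRep (lamRep E hj₀ l) (projRep E σ i₁))
            (S₁, Sum.inl (Sum.inr x₀)) then 1 else 0)) *
          ((tensorRep (lamRep E hj₀ l) (projRep E σ i₁)).wt (S, y)
            ⟨i₁, Sum.inl (Sum.inr x)⟩ : ℤ) =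
        if S = S₁ then (if w i₁ - (M i₁).p x = w i₁ - (M i₁).p x₀ then 1 else 0) else 0 := by
      intro S
      simp only [hwt _ i₁ _ hne]
      rw [sum_wt_proj_same i₁ (Sum.inl (Sum.inr x)) (fun y =>
        (if cenT M (tensorRep (lamRep E hj₀ l) (projRep E σ i₁)) (S, y) =
          cenT M (tensorRep (lamRep E hj₀ l) (projRep E σ i₁))
            (S₁, Sum.inl (Sum.inr x₀)) then (1 : ℤ) else 0) -
        (if cenT M (tensorRep (lamRep E hj₀ l) (projRep E σ i₁)) (S, y) =
          - cenT M (tensorRep (lamRep E hj₀ l) (projRep E σ i₁))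
            (S₁, Sum.inl (Sum.inr x₀)) then 1 else 0))]
      simp only [hcen, cenI_low]
      have h2 := hmax S
      rw [if_neg (c := sm (fcen M j₀) S + (w i₁ - 2 * (M i₁).p x) =
        -(sm (fcen M j₀) S₁ + (w i₁ - 2 * (M i₁).p x₀))) (by omega), sub_zero]
      by_cases hS : S = S₁
      · rw [if_pos hS, hS]
        by_cases h3 : w i₁ - (M i₁).p x = w i₁ - (M i₁).p x₀
        · rw [if_pos h3, if_pos (by omega)]
        · rw [if_neg h3, if_neg (by omega)]
      · rw [if_neg hS]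
        have h3 := hmin S hS
        rw [if_neg (by omega)]
    rw [Finset.sum_congr rfl fun S _ => h1 S, Finset.sum_ite_eq' Finset.univ S₁,
      if_pos (Finset.mem_univ _)]
  have hex₂ : ∀ i x, i ≠ i₁ → i ≠ j₀ → ex i (w i - (M i).p x) = 0 := by
    intro i x hi hi'
    rw [hex]
    apply Finset.sum_eq_zero
    intro s _
    rw [hwt s i _ hi', wt_proj_ne hi, mul_zero]
  -- the product
  rw [← Finset.mul_prod_erase Finset.univ _ (Finset.mem_univ j₀)] at h
  have h1 : ∏ a ∈ (M j₀).lowIndices, q j₀ a ^ ex j₀ a ∈ G :=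
    Subgroup.prod_mem _ fun a ha => zpow_mem (hqj a ha) _
  have h2 := (Subgroup.mul_mem_cancel_left G h1).mp h
  rw [Finset.prod_eq_single_of_mem i₁ (Finset.mem_erase.mpr ⟨hne, Finset.mem_univ _⟩)] at h2
  · rw [← Finset.mul_prod_erase _ _ ha₀] at h2
    have h3 : ∏ a ∈ (M i₁).lowIndices.erase (w i₁ - (M i₁).p x₀), q i₁ a ^ ex i₁ a ∈ G := by
      refine Subgroup.prod_mem _ fun a ha => ?_
      obtain ⟨ha1, ha2⟩ := Finset.mem_erase.mp ha
      rcases lt_or_gt_of_ne ha1 with h4 | h4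
      · refine zpow_mem (IH _ ?_ a ha2 rfl) _
        rw [← hN]
        apply Finset.card_lt_card
        rw [Finset.ssubset_iff_of_subset]
        · refine ⟨a, ?_, ?_⟩
          · rw [Finset.mem_filter]
            exact ⟨ha2, h4⟩
          · rw [Finset.mem_filter]
            rintro ⟨-, h5⟩
            exact lt_irrefl _ h5
        · intro b hb
          rw [Finset.mem_filter] at hb ⊢
          exact ⟨hb.1, hb.2.trans h4⟩
      · obtain ⟨x, -, rfl⟩ := Finset.mem_image.mp ha2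
        rw [hex₁ x h4.le, if_neg ha1, zpow_zero]
        exact one_mem _
    have h4 := (Subgroup.mul_mem_cancel_right G h3).mp h2
    rwa [hex₁ x₀ le_rfl, if_pos rfl, zpow_one] at h4
  · intro i hi hi'
    apply Finset.prod_eq_one
    intro a ha
    obtain ⟨x, -, rfl⟩ := Finset.mem_image.mp ha
    rw [hex₂ i x hi' (Finset.ne_of_mem_erase hi), zpow_zero]

end cases

end Pool.Agent.MP100fe7K
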