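import Pool.Agent.Lib.MP_100fe7_nt.CvK3

/-!
The determinants of the motives with middle classes, and the main theorem in an abstract group.
-/

set_option linter.unusedSectionVars false

namespace Pool.Agent.MP100fe7K

open MP100fe7T MP100fe7Cv

variable {E : Type} [Field E] {R : Type} [CommRing R] [Algebra E R]
  {ι : Type} [Fintype ι] [DecidableEq ι] {σ : ι → Shape} {w : ι → ℤ}

/-- The determinant of the `i`-th motive. -/
noncomputable def detRep (E : Type) [Field E] {ι : Type} [Fintype ι] [DecidableEq ι]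
    (σ : ι → Shape) (i : ι) : Rep E σ Unit where
  mat := Matrix.of fun _ _ => (Matrix.of fun a b : (σ i).Idx =>
    (MvPolynomial.X ⟨i, (a, b)⟩ : MvPolynomial (Σ i, (σ i).Idx × (σ i).Idx) E)).det
  twist := fun _ => 0
  wt := fun _ q => if q.1 = i then 1 else 0
  deg := fun i' => if i' = i then Fintype.card (σ i').Idx else 0
  sum_wt := by
    intro _ i'
    by_cases h : i' = i
    · simp [h]
    · simp [h]
  map_mul := by
    intro S _ _ A B
    have h0 : ∀ (C : Fam σ S) (s t : Unit), (evalMat (Matrix.of fun _ _ => (Matrix.of fun a b :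
        (σ i).Idx => (MvPolynomial.X ⟨i, (a, b)⟩ :
          MvPolynomial (Σ i, (σ i).Idx × (σ i).Idx) E)).det) S C : Matrix Unit Unit S) s t =
        (C i).det := by
      intro C s t
      simp only [evalMat, Matrix.map_apply, Matrix.of_apply]
      rw [AlgHom.map_det]
      congr 1
      ext a b
      simp [AlgHom.mapMatrix_apply, Matrix.map_apply]
    ext s t
    rw [Matrix.mul_apply, h0, Finset.sum_congr rfl fun x _ => by rw [h0, h0]]
    simp [Pi.mul_apply, Matrix.det_mul]
  map_diagonal := by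
    intro S _ _ x
    have h0 : ∀ (C : Fam σ S) (s t : Unit), (evalMat (Matrix.of fun _ _ => (Matrix.of fun a b :
        (σ i).Idx => (MvPolynomial.X ⟨i, (a, b)⟩ :
          MvPolynomial (Σ i, (σ i).Idx × (σ i).Idx) E)).det) S C : Matrix Unit Unit S) s t =
        (C i).det := by
      intro C s t
      simp only [evalMat, Matrix.map_apply, Matrix.of_apply]
      rw [AlgHom.map_det]
      congr 1
      ext a b
      simp [AlgHom.mapMatrix_apply, Matrix.map_apply]
    ext s t
    rw [h0, Matrix.det_diagonal, Matrix.diagonal_apply, if_pos (Subsingleton.elim s t),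
      Fintype.prod_sigma, Finset.prod_eq_single i]
    · apply Finset.prod_congr rfl
      intro j _
      simp
    · intro i' _ hi'
      apply Finset.prod_eq_one
      intro j _
      simp [hi']
    · simp

variable [CharZero E] (M : ∀ i, Datum R (σ i) (w i))

theorem sum_cenI (i : ι) : ∑ j, cenI M i j = 0 := by
  have h : ∑ j, cenI M i j = - ∑ j, cenI M i j := by
    let e : (σ i).Idx ≃ (σ i).Idx := ⟨invIdx, invIdx, invIdx_invIdx, invIdx_invIdx⟩
    conv_lhs => rw [← Equiv.sum_comp e]
    rw [← Finset.sum_neg_distrib]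
    exact Finset.sum_congr rfl fun j _ => cenI_inv M i j
  linarith

theorem cenT_det (i : ι) (s : Unit) : cenT M (detRep E σ i) s = 0 := by
  rw [cenT_eq M _ (fun _ => rfl), Fintype.sum_sigma, Finset.sum_eq_single i]
  · rw [← sum_cenI M i]
    apply Finset.sum_congr rfl
    intro j _
    change ((if i = i then 1 else 0 : ℕ) : ℤ) * _ = _
    rw [if_pos rfl]
    unfold cenI
    push_cast
    ring
  · intro i' _ hi'
    apply Finset.sum_eq_zero
    intro j _
    change ((if i' = i then 1 else 0 : ℕ) : ℤ) * _ = _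
    rw [if_neg hi']
    push_cast
    ring
  · simp

theorem card_low_sub {i : ι} {v : ℤ} (hv : 0 < v)
    (hodd : ∀ x, ∃ o : ℤ, Odd o ∧ 2 * (M i).p x - w i = v * o) {l : ℕ} (hl : Odd l) :
    2 * (Finset.univ.filter fun S : Sub ((σ i).n + (σ i).n) l => sm (fcen M i) S < 0).card =
      ((σ i).n + (σ i).n).choose l := by
  classical
  have hne : ∀ S : Sub ((σ i).n + (σ i).n) l, sm (fcen M i) S ≠ 0 := by
    intro S h
    obtain ⟨o, ho, h3⟩ := sm_odd (fcen_odd M hodd) hl S
    rw [h] at h3
    rcases mul_eq_zero.mp h3.symm with h4 | h4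
    · exact hv.ne' h4
    · rw [h4] at ho
      exact absurd ho (by decide)
  have h1 : (Finset.univ.filter fun S : Sub ((σ i).n + (σ i).n) l => sm (fcen M i) S < 0).card =
      (Finset.univ.filter fun S : Sub ((σ i).n + (σ i).n) l => 0 < sm (fcen M i) S).card := by
    apply Finset.card_bij (fun S _ => invS (swE _) S)
    · intro S hS
      rw [Finset.mem_filter] at hS ⊢
      refine ⟨Finset.mem_univ _, ?_⟩
      rw [sm_invS _ _ (fcen_swE M i)]
      linarith [hS.2]
    · intro S _ T _ h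
      rw [← invS_invS (swE _) swE_swE S, h, invS_invS _ swE_swE]
    · intro S hS
      rw [Finset.mem_filter] at hS
      refine ⟨invS (swE _) S, ?_, invS_invS _ swE_swE S⟩
      rw [Finset.mem_filter]
      refine ⟨Finset.mem_univ _, ?_⟩
      rw [sm_invS _ _ (fcen_swE M i)]
      linarith [hS.2]
  have h2 : (Finset.univ.filter fun S : Sub ((σ i).n + (σ i).n) l => sm (fcen M i) S < 0).card +
      (Finset.univ.filter fun S : Sub ((σ i).n + (σ i).n) l => 0 < sm (fcen M i) S).card =
      Fintype.card (Sub ((σ i).n + (σ i).n) l) := by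
    rw [← Finset.card_union_of_disjoint, ← Finset.card_univ]
    · congr 1
      ext S
      simp only [Finset.mem_union, Finset.mem_filter, Finset.mem_univ, true_and, iff_true]
      exact lt_or_gt_of_ne (hne S)
    · rw [Finset.disjoint_left]
      intro S hS hS'
      rw [Finset.mem_filter] at hS hS'
      linarith [hS.2, hS'.2]
  have h3 : Fintype.card (Sub ((σ i).n + (σ i).n) l) = ((σ i).n + (σ i).n).choose l := by
    rw [Fintype.card_finset_len, Fintype.card_fin]
  rw [two_mul]
  nth_rewrite 2 [h1]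
  rw [h2, h3]

/-- the sum of the binomial coefficients with odd index -/
theorem sum_odd_choose (m : ℕ) (hm : m ≠ 0) :
    2 * ∑ l ∈ Finset.range (m + 1) with Odd l, (m.choose l : ℤ) = 2 ^ m := by
  have h1 : ∑ l ∈ Finset.range (m + 1), (m.choose l : ℤ) = 2 ^ m := by
    exact_mod_cast Nat.sum_range_choose m
  have h2 := Int.alternating_sum_range_choose_of_ne hm
  have h3 : ∀ l, (2 : ℤ) * (if Odd l then (m.choose l : ℤ) else 0) =
      (m.choose l : ℤ) - (-1) ^ l * (m.choose l : ℤ) := by
    intro l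
    rcases Nat.even_or_odd l with h | h
    · rw [if_neg (Nat.not_odd_iff_even.mpr h), h.neg_one_pow]
      ring
    · rw [if_pos h, h.neg_one_pow]
      ring
  rw [Finset.sum_filter, Finset.mul_sum, Finset.sum_congr rfl fun l _ => h3 l,
    Finset.sum_sub_distrib, h1, h2, sub_zero]

section abs

variable {𝔾 : Type*} [CommGroup 𝔾] (c d D : ι → 𝔾) (q : ι → ℤ → 𝔾) (G : Subgroup 𝔾)
  (hc : ∀ i, NoMid (σ i) → c i ∈ G ∧ d i ∈ G)

include hc in
/-- powers of a determinant -/
theorem det_pow_mem {W : Tot σ → ℤ} (hW : InG M c d D q G W) (i₁ j₀ : ι) (h : ℤ)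
    (hi₁ : ¬ NoMid (σ i₁)) (hj₀ : NoMid (σ j₀)) (hqj : ∀ a ∈ (M j₀).lowIndices, q j₀ a ∈ G)
    (h1 : ∀ j, W ⟨i₁, j⟩ = h) (h2 : ∀ i, i ≠ i₁ → i ≠ j₀ → ∀ j, W ⟨i, j⟩ = 0) :
    D i₁ ^ h ∈ G := by
  classical
  obtain ⟨A, B, S, hE, hG⟩ := hW
  have h3 : ∀ i, i ≠ i₁ → fac M c d D q A B S i ∈ G := by
    intro i hi
    unfold fac
    by_cases hm : (σ i).m = 0 ∧ (σ i).r = 0
    · rw [if_pos hm]
      refine mul_mem (mul_mem (zpow_mem (hc i hm).1 _) (zpow_mem (hc i hm).2 _)) ?_
      refine Subgroup.prod_mem _ fun a ha => ?_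
      by_cases hj : i = j₀
      · subst hj
        exact zpow_mem (hqj a ha) _
      · obtain ⟨x, -, rfl⟩ := Finset.mem_image.mp ha
        have hn : ((σ i).n : ℤ) ≠ 0 := by exact_mod_cast (Fin.pos x).ne'
        have h4 := hE.free i hm
        rw [Finset.sum_eq_zero fun j _ => h2 i hi hj j] at h4
        have h5 := (mul_eq_zero.mp h4).resolve_left hn
        have h6 : S i (w i - (M i).p x) - A i - B i = 0 := by
          rw [hE.low, h2 i hi hj]
          linarith
        rw [h6, zpow_zero]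
        exact one_mem G
    · have hj : i ≠ j₀ := by
        rintro rfl
        exact hm hj₀
      rw [if_neg hm]
      have hA : A i = 0 := by
        have h4 := hE.mid i hm
        rw [Finset.sum_eq_zero fun j _ => h2 i hi hj j] at h4
        refine (mul_eq_zero.mp h4).resolve_left ?_
        obtain ⟨y⟩ := exists_mid (s := σ i) hm
        have : 0 < Fintype.card (σ i).Idx := Fintype.card_pos_iff.mpr ⟨Sum.inr y⟩
        exact_mod_cast this.ne'
      rw [hA, zpow_zero, one_mul]
      refine Subgroup.prod_mem _ fun a ha => ?_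
      obtain ⟨x, -, rfl⟩ := Finset.mem_image.mp ha
      rw [hE.low, h2 i hi hj, sub_zero, zpow_zero]
      exact one_mem G
  rw [← Finset.mul_prod_erase Finset.univ _ (Finset.mem_univ i₁)] at hG
  have h4 := (Subgroup.mul_mem_cancel_right G (Subgroup.prod_mem _ fun i hi =>
    h3 i (Finset.ne_of_mem_erase hi))).mp hG
  unfold fac at h4
  have hm : ¬ ((σ i₁).m = 0 ∧ (σ i₁).r = 0) := hi₁
  rw [if_neg hm] at h4
  have hA : A i₁ = h := by
    have h5 := hE.mid i₁ hi₁
    rw [Finset.sum_congr rfl fun j _ => h1 j, Finset.sum_const, Finset.card_univ,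
      nsmul_eq_mul] at h5
    obtain ⟨y⟩ := exists_mid (s := σ i₁) hi₁
    have : 0 < Fintype.card (σ i₁).Idx := Fintype.card_pos_iff.mpr ⟨Sum.inr y⟩
    exact mul_left_cancel₀ (by exact_mod_cast this.ne') h5
  rw [hA, Finset.prod_eq_one, mul_one] at h4
  · exact h4
  · intro a ha
    obtain ⟨x, -, rfl⟩ := Finset.mem_image.mp ha
    rw [hE.low, h1, sub_self, zpow_zero]

variable (H : AddSubgroup (Tot σ → ℤ)) (hall : ∀ W ∈ H, InG M c d D q G W)

include hc hall in
/-- the determinant of a motive with middle classes -/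
theorem det_case (i₁ j₀ : ι) (hi₁ : ¬ NoMid (σ i₁)) (hj₀ : NoMid (σ j₀)) {v : ℤ} (hv : 0 < v)
    (hodd : ∀ x, ∃ o : ℤ, Odd o ∧ 2 * (M j₀).p x - w j₀ = v * o) (hn : Odd (σ j₀).n)
    (hH : ∀ l, Odd l → Vl (tensorRep (lamRep E hj₀ l) (detRep E σ i₁)) M ∈ H)
    (hqj : ∀ a ∈ (M j₀).lowIndices, q j₀ a ∈ G) : D i₁ ∈ G := by
  classical
  have hne : i₁ ≠ j₀ := by
    rintro rfl
    exact hi₁ hj₀
  have hcen : ∀ l s, cenT M (tensorRep (lamRep E hj₀ l) (detRep E σ i₁)) s =
      sm (fcen M j₀) s.1 := by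
    intro l s
    rw [cenT_tensor M _ _ (lamRep_twist E hj₀ l) (fun _ => rfl), cenT_lam E M hj₀ l, cenT_det,
      add_zero]
  set h : ℕ → ℕ := fun l =>
    (Finset.univ.filter fun S : Sub ((σ j₀).n + (σ j₀).n) l => sm (fcen M j₀) S < 0).card with hh
  have h1 : ∀ l, Odd l → D i₁ ^ (h l : ℤ) ∈ G := by
    intro l hl
    have hcard : ((tensorRep (lamRep E hj₀ l) (detRep E σ i₁)).lowPart M
        (((tensorRep (lamRep E hj₀ l) (detRep E σ i₁)).motWeight w + 1) / 2)).card = h l := by
      apply Finset.card_bij (fun s _ => s.1)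
      · intro s hs
        rw [mem_low_iff, hcen] at hs
        rw [Finset.mem_filter]
        exact ⟨Finset.mem_univ _, hs⟩
      · intro s _ t _ hst
        exact Prod.ext hst (Subsingleton.elim _ _)
      · intro S hS
        rw [Finset.mem_filter] at hS
        refine ⟨(S, ()), ?_, rfl⟩
        rw [mem_low_iff, hcen]
        exact hS.2
    have hwt : ∀ (s : Sub ((σ j₀).n + (σ j₀).n) l × Unit) (i : ι) (t : (σ i).Idx), i ≠ j₀ →
        (tensorRep (lamRep E hj₀ l) (detRep E σ i₁)).weight s ⟨i, t⟩ = if i = i₁ then 1 else 0 := by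
      intro s i t hi
      unfold Rep.weight
      change (((lamRep E hj₀ l).wt s.1 ⟨i, t⟩ + (if i = i₁ then 1 else 0) : ℕ) : ℤ) -
        (((lamRep E hj₀ l).twist i + 0 : ℕ) : ℤ) = _
      rw [wt_lam_ne E hj₀ l hi, lamRep_twist]
      split_ifs <;> simp
    refine det_pow_mem M c d D q G hc (hall _ (hH l hl)) i₁ j₀ (h l) hi₁ hj₀ hqj ?_ ?_
    · intro j
      unfold Vl
      rw [Finset.sum_congr rfl fun s _ => hwt s i₁ j hne, if_pos rfl, Finset.sum_const, hcard]
      simp
    · intro i hi hi' j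
      unfold Vl
      rw [Finset.sum_congr rfl fun s _ => hwt s i j hi', if_neg hi]
      simp
  -- the exponents
  obtain ⟨n, hnn⟩ : ∃ n, (σ j₀).n = n := ⟨_, rfl⟩
  rw [hnn] at hn
  have hn0 : n ≠ 0 := by
    rintro rfl
    exact absurd hn (by decide)
  have h2 : ∀ l, Odd l → 2 * h l = (n + n).choose l := by
    intro l hl
    exact (card_low_sub M hv hodd hl).trans (by rw [hnn])
  have h3 : D i₁ ^ (n : ℤ) ∈ G := by
    have h4 := h2 1 odd_one
    rw [Nat.choose_one_right] at h4
    have h5 : h 1 = n := by omega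
    have h6 := h1 1 odd_one
    rwa [h5] at h6
  have h4 : D i₁ ^ (∑ l ∈ Finset.range (n + n + 1) with Odd l, (h l : ℤ)) ∈ G := by
    have h5 : D i₁ ^ (∑ l ∈ Finset.range (n + n + 1) with Odd l, (h l : ℤ)) =
        ∏ l ∈ Finset.range (n + n + 1) with Odd l, D i₁ ^ (h l : ℤ) := by
      induction (Finset.range (n + n + 1)).filter (fun l => Odd l) using Finset.induction_on with
      | empty => simp
      | insert b s hb ih => rw [Finset.prod_insert hb, Finset.sum_insert hb, zpow_add, ih]
    rw [h5]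
    exact Subgroup.prod_mem _ fun l hl => h1 l (Finset.mem_filter.mp hl).2
  have h5 : 4 * ∑ l ∈ Finset.range (n + n + 1) with Odd l, (h l : ℤ) = 4 ^ n := by
    have h6 := sum_odd_choose (n + n) (by omega)
    have h7 : ∑ l ∈ Finset.range (n + n + 1) with Odd l, ((n + n).choose l : ℤ) =
        2 * ∑ l ∈ Finset.range (n + n + 1) with Odd l, (h l : ℤ) := by
      rw [Finset.mul_sum]
      apply Finset.sum_congr rfl
      intro l hl
      rw [← h2 l (Finset.mem_filter.mp hl).2]
      push_cast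
      rfl
    rw [h7] at h6
    have h8 : (2 : ℤ) ^ (n + n) = 4 ^ n := by
      rw [← two_mul, pow_mul]
      norm_num
    rw [h8] at h6
    linarith
  have h6 : ∑ l ∈ Finset.range (n + n + 1) with Odd l, (h l : ℤ) = 4 ^ (n - 1) := by
    obtain ⟨k, rfl⟩ : ∃ k, n = k + 1 := ⟨n - 1, by omega⟩
    rw [Nat.add_sub_cancel]
    rw [pow_succ] at h5
    linarith
  rw [h6] at h4
  have h7 : IsCoprime (n : ℤ) (4 ^ (n - 1)) := by
    apply IsCoprime.pow_right
    have : Nat.Coprime n 4 := by
      have h8 : Nat.Coprime n 2 := Nat.coprime_two_right.mpr hn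
      exact h8.mul_right h8
    exact_mod_cast Nat.isCoprime_iff_coprime.mpr this
  obtain ⟨a, b, hab⟩ := h7
  have h8 : D i₁ = (D i₁ ^ (n : ℤ)) ^ a * (D i₁ ^ ((4 : ℤ) ^ (n - 1))) ^ b := by
    rw [← zpow_mul, ← zpow_mul, ← zpow_add]
    conv_lhs => rw [← zpow_one (D i₁), ← hab]
    congr 1
    ring
  rw [h8]
  exact mul_mem (zpow_mem h3 _) (zpow_mem h4 _)

end abs

end Pool.Agent.MP100fe7K
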