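import Pool.Agent.Lib.MP_100fe7_nt.CvK4

/-!
The main theorem in an abstract group, and the group generated by the Deligne periods of the
motives `ρ(M)` without middle classes.
-/

set_option linter.unusedSectionVars false

namespace Pool.Agent.MP100fe7K

open MP100fe7T MP100fe7Cv

variable {E : Type} [Field E] [CharZero E] {R : Type} [CommRing R] [Algebra E R]
  {ι : Type} [Fintype ι] [DecidableEq ι] {σ : ι → Shape} {w : ι → ℤ}
  (M : ∀ i, Datum R (σ i) (w i))

/-- The group `H` contains the vectors of the constructions which are used. -/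
structure HasCons (E : Type) [Field E] [CharZero E] {R : Type} [CommRing R] [Algebra E R]
    {ι : Type} [Fintype ι] [DecidableEq ι] {σ : ι → Shape} {w : ι → ℤ}
    (M : ∀ i, Datum R (σ i) (w i)) (H : AddSubgroup (Tot σ → ℤ)) : Prop where
  one : ∀ (i : ι), NoMid (σ i) → ∀ v : ℤ, 0 < v →
    (∀ x, ∃ o : ℤ, Odd o ∧ 2 * (M i).p x - w i = v * o) →
    ∀ (N : ℕ) (ψ : MP100fe7.Idx N ≃ (σ i).Idx) (l : List ℕ), Odd l.sum →
      Vl (compRep (extTensor E N l) (reindexRep (projRep E σ i) ψ)) M ∈ H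
  two : ∀ (i₁ j₀ : ι), i₁ ≠ j₀ → ∀ (hj₀ : NoMid (σ j₀)) (v : ℤ), 0 < v →
    (∀ x, ∃ o : ℤ, Odd o ∧ 2 * (M j₀).p x - w j₀ = v * o) →
    (∀ x, ∃ o : ℤ, Even o ∧ 2 * (M i₁).p x - w i₁ = v * o) →
    ∀ l', Odd l' → ∀ (N : ℕ)
      (ψ : MP100fe7.Idx N ≃ Sub ((σ j₀).n + (σ j₀).n) l' × (σ i₁).Idx) (l : List ℕ), Odd l.sum →
      Vl (compRep (extTensor E N l)
        (reindexRep (tensorRep (lamRep E hj₀ l') (projRep E σ i₁)) ψ)) M ∈ H
  det : ∀ (i₁ j₀ : ι), i₁ ≠ j₀ → ∀ (hj₀ : NoMid (σ j₀)) (v : ℤ), 0 < v →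
    (∀ x, ∃ o : ℤ, Odd o ∧ 2 * (M j₀).p x - w j₀ = v * o) →
    (∀ x, ∃ o : ℤ, Even o ∧ 2 * (M i₁).p x - w i₁ = v * o) →
    ∀ l, Odd l → Vl (tensorRep (lamRep E hj₀ l) (detRep E σ i₁)) M ∈ H

theorem exists_odd_block (j : ι) (h : Odd (σ j).n) :
    ∃ a, Odd (Fintype.card ((M j).Block a)) := by
  classical
  by_contra hcon
  push Not at hcon
  have h1 : (σ j).n = ∑ a ∈ (M j).lowIndices, Fintype.card ((M j).Block a) := by
    have h2 := Finset.card_eq_sum_card_image (fun x : Fin (σ j).n => w j - (M j).p x) Finset.univ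
    rw [Finset.card_univ, Fintype.card_fin] at h2
    refine h2.trans ?_
    apply Finset.sum_congr rfl
    intro a _
    rw [Fintype.card_subtype]
  have h3 : Even (σ j).n := by
    rw [h1]
    apply Finset.even_sum
    intro a _
    exact Nat.not_odd_iff_even.mp (hcon a)
  exact (Nat.not_even_iff_odd.mpr h) h3

section abs

variable {𝔾 : Type*} [CommGroup 𝔾] (c d D : ι → 𝔾) (q : ι → ℤ → 𝔾) (G : Subgroup 𝔾)
  (hc : ∀ i, NoMid (σ i) → c i ∈ G ∧ d i ∈ G) (H : AddSubgroup (Tot σ → ℤ))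
  (hall : ∀ W ∈ H, InG M c d D q G W) (hH : HasCons E M H)

include hc hall hH in
theorem main_abs (hgood : ∀ i, Good σ w (fun i => (M i).p) i) :
    (∀ i, ∀ a ∈ (M i).lowIndices, q i a ∈ G) ∧ ∀ i, ¬ NoMid (σ i) → D i ∈ G := by
  classical
  have hpos : ∀ (i : ι) (v : ℕ) (x : Fin (σ i).n), OddDist v (w i) (M i).p → (0 : ℤ) < v := by
    intro i v x h
    obtain ⟨o, -, ho⟩ := h x
    have h1 := (M i).two_p x
    by_contra h2
    have h3 : (v : ℤ) = 0 := by omega
    rw [h3, zero_mul] at ho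
    omega
  have ha : ∀ i, NoMid (σ i) → ∀ v : ℕ, OddDist v (w i) (M i).p →
      ∀ a ∈ (M i).lowIndices, q i a ∈ G := by
    intro i hi v hv a ha
    obtain ⟨x, -, -⟩ := Finset.mem_image.mp ha
    exact odd_case M c d D q G hc H hall i hi (hpos i v x hv) hv
      (hH.one i hi v (hpos i v x hv) hv) a ha
  have hb : ∀ (i j : ι) (v : ℕ), NoMid (σ j) → OddDist v (w j) (M j).p →
      EvenDist v (w i) (M i).p → (Odd (σ j).n ∨ NoMid (σ i) ∧ ∃ a : ℤ,
        Odd (Fintype.card {x : Fin (σ j).n // (M j).p x = a})) →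
      (∀ a ∈ (M i).lowIndices, q i a ∈ G) ∧ (¬ NoMid (σ i) → D i ∈ G) := by
    intro i j v hj hodd heven hcond
    have hblk : ∃ a, Odd (Fintype.card ((M j).Block a)) := by
      rcases hcond with h | ⟨-, a, h⟩
      · exact exists_odd_block M j h
      · refine ⟨w j - a, ?_⟩
        rwa [Fintype.card_congr (Equiv.subtypeEquivRight (q := fun x => (M j).p x = a)
          (fun x => by constructor <;> intro h <;> omega))]
    obtain ⟨a₁, ha₁⟩ := hblk
    have hne0 : Nonempty ((M j).Block a₁) := by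
      by_contra hcon
      rw [not_nonempty_iff] at hcon
      rw [Fintype.card_eq_zero] at ha₁
      exact absurd ha₁ (by decide)
    obtain ⟨⟨x₁, -⟩⟩ := hne0
    have hv := hpos j v x₁ hodd
    have hne : i ≠ j := by
      rintro rfl
      obtain ⟨o, ho, h1⟩ := hodd x₁
      obtain ⟨o', ho', h2⟩ := heven x₁
      have h3 : o = o' := mul_left_cancel₀ hv.ne' (h1.symm.trans h2)
      rw [h3] at ho
      exact (Int.not_even_iff_odd.mpr ho) ho'
    have hqj := ha j hj v hodd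
    refine ⟨fun a ha' => ?_, fun hi => ?_⟩
    · exact even_case M c d D q G hc H hall i j hne hj hv hodd heven a₁ ha₁
        (hH.two i j hne hj v hv hodd heven) hqj _ a ha' rfl
    · rcases hcond with h | ⟨h, -⟩
      · exact det_case M c d D q G hc H hall i j hi hj hv hodd h
          (hH.det i j hne hj v hv hodd heven) hqj
      · exact absurd h hi
  refine ⟨fun i => ?_, fun i => ?_⟩
  · rcases hgood i with ⟨hi, v, hv⟩ | ⟨j, v, hj, hodd, heven, hcond⟩
    · exact ha i hi v hv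
    · exact (hb i j v hj hodd heven hcond).1
  · rcases hgood i with ⟨hi, v, hv⟩ | ⟨j, v, hj, hodd, heven, hcond⟩
    · exact fun h => absurd hi h
    · exact (hb i j v hj hodd heven hcond).2

end abs

theorem noMiddle_one (i : ι) (hi : NoMid (σ i)) (v : ℤ) (hv : 0 < v)
    (hodd : ∀ x, ∃ o : ℤ, Odd o ∧ 2 * (M i).p x - w i = v * o) (N : ℕ)
    (ψ : MP100fe7.Idx N ≃ (σ i).Idx) (l : List ℕ) (hl : Odd l.sum) :
    (compRep (extTensor E N l) (reindexRep (projRep E σ i) ψ)).NoMiddle M := by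
  have h : ∀ j, ∃ o : ℤ, Odd o ∧ cenT M (reindexRep (projRep E σ i) ψ) j = v * o := by
    intro j
    obtain ⟨o, ho, h1⟩ := cenI_odd M hi hodd (ψ j)
    exact ⟨o, ho, by rw [cenT_reindex, cenT_proj]; exact h1⟩
  choose o ho hcen using h
  exact noMiddle_comp M _ (fun _ => rfl) hv ho hcen hl _

theorem noMiddle_two (i₁ j₀ : ι) (hj₀ : NoMid (σ j₀)) (v : ℤ) (hv : 0 < v)
    (hodd : ∀ x, ∃ o : ℤ, Odd o ∧ 2 * (M j₀).p x - w j₀ = v * o)
    (heven : ∀ x, ∃ o : ℤ, Even o ∧ 2 * (M i₁).p x - w i₁ = v * o) (l' : ℕ) (hl' : Odd l')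
    (N : ℕ) (ψ : MP100fe7.Idx N ≃ Sub ((σ j₀).n + (σ j₀).n) l' × (σ i₁).Idx) (l : List ℕ)
    (hl : Odd l.sum) :
    (compRep (extTensor E N l)
      (reindexRep (tensorRep (lamRep E hj₀ l') (projRep E σ i₁)) ψ)).NoMiddle M := by
  have htw : ∀ i, (tensorRep (lamRep E hj₀ l') (projRep E σ i₁)).twist i = 0 := by
    intro i
    change (lamRep E hj₀ l').twist i + 0 = 0
    rw [lamRep_twist]
  have h : ∀ j, ∃ o : ℤ, Odd o ∧ cenT M
      (reindexRep (tensorRep (lamRep E hj₀ l') (projRep E σ i₁)) ψ) j = v * o := by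
    intro j
    obtain ⟨o, ho, h1⟩ := sm_odd (fcen_odd M hodd) hl' (ψ j).1
    obtain ⟨o', ho', h2⟩ := cenI_even M heven (ψ j).2
    refine ⟨o + o', ho.add_even ho', ?_⟩
    rw [cenT_reindex, cenT_tensor M _ _ (lamRep_twist E hj₀ l') (fun _ => rfl),
      cenT_lam E M hj₀ l', cenT_proj, mul_add, ← h1, ← h2]
    rfl
  choose o ho hcen using h
  exact noMiddle_comp M _ htw hv ho hcen hl _

theorem noMiddle_det (i₁ j₀ : ι) (hj₀ : NoMid (σ j₀)) (v : ℤ) (hv : 0 < v)
    (hodd : ∀ x, ∃ o : ℤ, Odd o ∧ 2 * (M j₀).p x - w j₀ = v * o) (l : ℕ) (hl : Odd l) :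
    (tensorRep (lamRep E hj₀ l) (detRep E σ i₁)).NoMiddle M := by
  rw [noMiddle_iff]
  intro s
  rw [cenT_tensor M _ _ (lamRep_twist E hj₀ l) (fun _ => rfl), cenT_lam E M hj₀ l, cenT_det,
    add_zero]
  obtain ⟨o, ho, h1⟩ := sm_odd (fcen_odd M hodd) hl s.1
  rw [h1]
  refine mul_ne_zero hv.ne' ?_
  rintro rfl
  exact absurd ho (by decide)

/-! ### The periods of the motives themselves -/

theorem ev_proj (S : Type) [CommRing S] [Algebra E S] (i : ι) (A : Fam σ S) :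
    (projRep E σ i).ev S A = A i := by
  unfold Rep.ev
  have h : ∏ i', (A i').det ^ (projRep E σ i).twist i' = 1 := Finset.prod_eq_one fun i' _ =>
    pow_zero _
  rw [h, Ring.inverse_one, one_smul]
  ext a b
  simp only [evalMat, Matrix.map_apply, projRep, Matrix.of_apply, MvPolynomial.aeval_X]

theorem hodgeIdx_proj (i : ι) (s : (σ i).Idx) :
    (projRep E σ i).hodgeIdx M s = (M i).hodgeIdx s := by
  have h := cenT_proj (E := E) M i s
  unfold cenT at h
  rw [motWeight_proj] at h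
  omega

theorem isPeriod_proj (i : ι) {ε : E} {x : R} (h : (M i).IsPeriod ε x) :
    (projRep E σ i).IsPeriod M ε x := by
  obtain ⟨a, d, A, B, h1, h2, h3, h4, h5⟩ := h
  refine ⟨a, d, A, B, h1, ?_, h3, ?_, ?_⟩
  · intro v
    rw [h2, ev_proj]
  · intro v
    simp only [hodgeIdx_proj]
    exact h4 v
  · rw [h5, ev_proj]

theorem noMiddle_proj (i : ι) (hi : NoMid (σ i)) : (projRep E σ i).NoMiddle M := by
  rw [noMiddle_iff]
  intro s
  rw [cenT_proj]
  rcases s with (x | x) | (y | y)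
  · have h := (M i).two_p x
    change 2 * (M i).p x - w i ≠ 0
    omega
  · have h := (M i).two_p x
    change 2 * (w i - (M i).p x) - w i ≠ 0
    omega
  · exfalso
    have h1 := y.2
    have h2 := hi.1
    omega
  · exfalso
    have h1 := y.2
    have h2 := hi.2
    omega

theorem isUnit_scalar {s : Shape} {w : ℤ} (M : Datum R s w) (hsc : s.m = 0 ∨ s.r = 0) {c d : R}
    (hc : M.IsPeriod (1 : E) c) (hd : M.IsPeriod (-1 : E) d) : IsUnit c ∧ IsUnit d := by
  have h2 : IsUnit (2 : R) := Rep.isUnit_two (E := E) R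
  obtain ⟨h, hhu, hh, hM⟩ := M.exists_factor h2
  obtain ⟨bu, hbu⟩ := M.isUnit_beta
  have hpm : IsUnit (detP (fun j => s.sgn j = 1) h * detP (fun j => s.sgn j = -1) h) := by
    rw [← det_sgn h hh]
    exact hhu
  obtain ⟨pu, hpu⟩ := isUnit_of_mul_isUnit_left hpm
  obtain ⟨mu, hmu⟩ := isUnit_of_mul_isUnit_right hpm
  have hqu : ∀ y, ∃ u : Rˣ, y ∈ M.lowIndices → (u : R) = (M.lowBlock y).det := by
    intro y
    by_cases hy : y ∈ M.lowIndices
    · obtain ⟨u, hu⟩ := M.isUnit_lowBlock y hy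
      exact ⟨u, fun _ => hu⟩
    · exact ⟨1, fun h => absurd h hy⟩
  choose qu hqu using hqu
  have hQ : ((∏ y ∈ M.lowIndices, qu y : Rˣ) : R) = M.dlow := by
    rw [Units.coe_prod]
    unfold Datum.dlow
    apply Finset.prod_congr rfl
    intro y hy
    exact hqu y hy
  obtain ⟨c', d', b1, b2, hc', hd', -⟩ := scalar_periods (E := E) M h hh hM
    (∏ y ∈ M.lowIndices, qu y) bu pu mu hQ hbu hpu hmu hsc 1 1 1 (fun _ => rfl) (fun _ => rfl)
    hc hd
  exact ⟨⟨c', hc'⟩, ⟨d', hd'⟩⟩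

/-- The basic periods exist and are units. -/
theorem exists_units : ∃ (c d D : ι → Rˣ) (q : ι → ℤ → Rˣ),
    (∀ i, NoMid (σ i) → (M i).IsPeriod (1 : E) (c i : R) ∧ (M i).IsPeriod (-1 : E) (d i : R)) ∧
    (∀ i, (D i : R) = (M i).comp.det) ∧
    ∀ i, ∀ a ∈ (M i).lowIndices, (M i).IsHodgePeriod a (q i a : R) := by
  have h1 : ∀ i, ∃ u v : Rˣ, NoMid (σ i) →
      (M i).IsPeriod (1 : E) (u : R) ∧ (M i).IsPeriod (-1 : E) (v : R) := by
    intro i
    by_cases hi : NoMid (σ i)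
    · obtain ⟨c, d, hc, hd⟩ := exists_scalar (E := E) (M i) (Or.inl hi.1)
      obtain ⟨⟨c', hc'⟩, ⟨d', hd'⟩⟩ := isUnit_scalar (M i) (Or.inl hi.1) hc hd
      refine ⟨c', d', fun _ => ?_⟩
      rw [hc', hd']
      exact ⟨hc, hd⟩
    · exact ⟨1, 1, fun h => absurd h hi⟩
  choose c d hcd using h1
  have h3 : ∀ i a, ∃ u : Rˣ, a ∈ (M i).lowIndices → (M i).IsHodgePeriod a (u : R) := by
    intro i a
    by_cases ha : a ∈ (M i).lowIndices
    · obtain ⟨u, hu⟩ := (M i).isUnit_lowBlock a ha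
      refine ⟨u, fun _ => ?_⟩
      rw [hu]
      exact (M i).isHodgePeriod_block a
    · exact ⟨1, fun h => absurd h ha⟩
  choose q hq using h3
  exact ⟨c, d, fun i => (M i).comp_unit.unit, q, hcd, fun i => rfl, hq⟩

/-- The Deligne periods of the `ρ(M)` without middle classes are units. -/
theorem isUnit_period {κ : Type} [Fintype κ] [DecidableEq κ] (ρ : Rep E σ κ)
    (hmid : ρ.NoMiddle M) {ε : ℤ} (hε : ε = 1 ∨ ε = -1) {x : R} (hx : ρ.IsPeriod M (ε : E) x) :
    IsUnit x := by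
  obtain ⟨c, d, D, q, hcd, hD, hq⟩ := exists_units (E := E) M
  obtain ⟨A, B, S, -, h⟩ := nm_formula ρ M hmid hε
  obtain ⟨e, he⟩ := h x c d D q hx hcd hD hq
  rw [he]
  exact Units.isUnit _

end Pool.Agent.MP100fe7K
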