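import Pool.Agent.Lib.MP_100fe7_nt.CvK5

/-!
The group generated by the Deligne periods of the motives `ρ(M)` without middle classes.
-/

set_option linter.unusedSectionVars false

namespace Pool.Agent.MP100fe7K

open MP100fe7T MP100fe7Cv

variable {E : Type} [Field E] [CharZero E] {R : Type} [CommRing R] [Algebra E R]
  {ι : Type} [Fintype ι] [DecidableEq ι] {σ : ι → Shape} {w : ι → ℤ}
  (M : ∀ i, Datum R (σ i) (w i))

theorem cst_mem (P : Set Rˣ) (e : Eˣ) :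
    cst E R e ∈ spanOver E P := Subgroup.subset_closure (Or.inl ⟨e, rfl⟩)

theorem mem_of (P : Set Rˣ) {u : Rˣ} (hu : u ∈ P) : u ∈ spanOver E P :=
  Subgroup.subset_closure (Or.inr hu)

theorem span_le {P Q : Set Rˣ} (h : ∀ u ∈ P, u ∈ spanOver E Q) :
    spanOver E P ≤ spanOver E Q := by
  unfold spanOver
  rw [Subgroup.closure_le]
  rintro u (⟨e, rfl⟩ | hu)
  · exact Subgroup.subset_closure (Or.inl ⟨e, rfl⟩)
  · exact h u hu

theorem fac_mem {G : Subgroup Rˣ} {c d D : ι → Rˣ} {q : ι → ℤ → Rˣ}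
    (hc : ∀ i, NoMid (σ i) → c i ∈ G ∧ d i ∈ G) (hD : ∀ i, D i ∈ G)
    (hq : ∀ i, ∀ a ∈ (M i).lowIndices, q i a ∈ G) (A B : ι → ℤ) (S : ι → ℤ → ℤ) (i : ι) :
    fac M c d D q A B S i ∈ G := by
  unfold fac
  split_ifs with h
  · exact mul_mem (mul_mem (zpow_mem (hc i h).1 _) (zpow_mem (hc i h).2 _))
      (Subgroup.prod_mem _ fun a ha => zpow_mem (hq i a ha) _)
  · exact mul_mem (zpow_mem (hD i) _) (Subgroup.prod_mem _ fun a ha => zpow_mem (hq i a ha) _)

/-- All Deligne periods are monomials in the basic periods. -/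
theorem all_le_basic : spanOver E (allPeriods E M) ≤ spanOver E (basicPeriods E M) := by
  obtain ⟨c, d, D, q, hcd, hD, hq⟩ := exists_units (E := E) M
  apply span_le
  rintro u ⟨κ, _, _, ρ, hmid, hu⟩
  have h1 : ∃ ε : ℤ, (ε = 1 ∨ ε = -1) ∧ ρ.IsPeriod M (ε : E) (u : R) := by
    rcases hu with hu | hu
    · exact ⟨1, Or.inl rfl, by rwa [Int.cast_one]⟩
    · exact ⟨-1, Or.inr rfl, by rwa [Int.cast_neg, Int.cast_one]⟩
  obtain ⟨ε, hε, hu⟩ := h1
  obtain ⟨A, B, S, -, h⟩ := nm_formula ρ M hmid hε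
  obtain ⟨e, he⟩ := h u c d D q hu hcd hD hq
  rw [Units.ext he]
  refine mul_mem (cst_mem _ e) (Subgroup.prod_mem _ fun i _ => fac_mem M ?_ ?_ ?_ A B S i)
  · exact fun i hi => ⟨mem_of _ ⟨i, Or.inr (Or.inr ⟨hi, Or.inl (hcd i hi).1⟩)⟩,
      mem_of _ ⟨i, Or.inr (Or.inr ⟨hi, Or.inr (hcd i hi).2⟩)⟩⟩
  · exact fun i => mem_of _ ⟨i, Or.inl (hD i)⟩
  · exact fun i a ha => mem_of _ ⟨i, Or.inr (Or.inl ⟨a, ha, hq i a ha⟩)⟩

theorem inG_all {c d D : ι → Rˣ} {q : ι → ℤ → Rˣ}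
    (hcd : ∀ i, NoMid (σ i) → (M i).IsPeriod (1 : E) (c i : R) ∧
      (M i).IsPeriod (-1 : E) (d i : R))
    (hD : ∀ i, (D i : R) = (M i).comp.det)
    (hq : ∀ i, ∀ a ∈ (M i).lowIndices, (M i).IsHodgePeriod a (q i a : R))
    (P : Set Rˣ) {κ : Type} [Fintype κ] [DecidableEq κ] (ρ : Rep E σ κ) (hmid : ρ.NoMiddle M)
    (hP : ∀ u : Rˣ, ρ.IsPeriod M (1 : E) (u : R) → u ∈ P) :
    InG M c d D q (spanOver E P) (Vl ρ M) := by
  obtain ⟨A, B, S, hE, h⟩ := nm_formula ρ M hmid (ε := 1) (Or.inl rfl)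
  refine ⟨A, B, S, hE.vec M hmid (Or.inl rfl), ?_⟩
  obtain ⟨x, hx⟩ := Rep.exists_period (E := E) ρ M _ 1
    (Rep.isStep_of_noMiddle ρ M hmid (Or.inl rfl))
  obtain ⟨e, he⟩ := h x c d D q hx hcd hD hq
  rw [he, Int.cast_one] at hx
  exact (Subgroup.mul_mem_cancel_left _ (cst_mem P e)).mp (mem_of P (hP _ hx))

/-- Under the condition `Good` the basic periods are monomials in Deligne periods. -/
theorem basic_le (hgood : ∀ i, Good σ w (fun i => (M i).p) i) (P : Set Rˣ)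
    (hP : ∀ i, NoMid (σ i) → ∀ u : Rˣ, (M i).IsPeriod (1 : E) (u : R) ∨
      (M i).IsPeriod (-1 : E) (u : R) → u ∈ spanOver E P)
    (H : AddSubgroup (Tot σ → ℤ)) (hH : HasCons E M H)
    (hall : ∀ (c d D : ι → Rˣ) (q : ι → ℤ → Rˣ), (∀ i, NoMid (σ i) →
      (M i).IsPeriod (1 : E) (c i : R) ∧ (M i).IsPeriod (-1 : E) (d i : R)) →
      (∀ i, (D i : R) = (M i).comp.det) →
      (∀ i, ∀ a ∈ (M i).lowIndices, (M i).IsHodgePeriod a (q i a : R)) →
      ∀ W ∈ H, InG M c d D q (spanOver E P) W) :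
    spanOver E (basicPeriods E M) ≤ spanOver E P := by
  obtain ⟨c, d, D, q, hcd, hD, hq⟩ := exists_units (E := E) M
  have hc : ∀ i, NoMid (σ i) → c i ∈ spanOver E P ∧ d i ∈ spanOver E P := fun i hi =>
    ⟨hP i hi _ (Or.inl (hcd i hi).1), hP i hi _ (Or.inr (hcd i hi).2)⟩
  obtain ⟨h1, h2⟩ := main_abs M c d D q (spanOver E P) hc H (hall c d D q hcd hD hq) hH hgood
  have h3 : ∀ i, D i ∈ spanOver E P := by
    intro i
    by_cases hi : NoMid (σ i)
    · have h4 := det_relation (E := E) (M i) (Or.inl hi.1) (c i) (d i) (D i) (q i) (hcd i hi).1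
        (hcd i hi).2 (hD i) (hq i)
      obtain ⟨e, he⟩ := exists_of_cls_eq E h4
      have h5 : D i = (cst E R e)⁻¹ * (c i * d i) * (∏ a ∈ (M i).lowIndices, q i a)⁻¹ := by
        rw [he]
        unfold cst
        rw [inv_mul_cancel_left, mul_inv_cancel_right]
      rw [h5]
      exact mul_mem (mul_mem (inv_mem (cst_mem P e)) (mul_mem (hc i hi).1 (hc i hi).2))
        (inv_mem (Subgroup.prod_mem _ fun a ha => h1 i a ha))
    · exact h2 i hi
  apply span_le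
  rintro u ⟨i, hu | ⟨a, ha, hu⟩ | ⟨hi, hu⟩⟩
  · have : u = D i := Units.ext (hu.trans (hD i).symm)
    rw [this]
    exact h3 i
  · have : u = q i a := Units.ext (((M i).hodgePeriod_eq a _ hu).trans
      ((M i).hodgePeriod_eq a _ (hq i a ha)).symm)
    rw [this]
    exact h1 i a ha
  · exact hP i hi u hu

/-- The vectors of all the `ρ(M)` without middle classes. -/
def allVec (E : Type) [Field E] [CharZero E] {R : Type} [CommRing R] [Algebra E R]
    {ι : Type} [Fintype ι] [DecidableEq ι] {σ : ι → Shape} {w : ι → ℤ}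
    (M : ∀ i, Datum R (σ i) (w i)) : AddSubgroup (Tot σ → ℤ) :=
  AddSubgroup.closure {W | ∃ (κ : Type) (_ : Fintype κ) (_ : DecidableEq κ) (ρ : Rep E σ κ),
    ρ.NoMiddle M ∧ W = Vl ρ M}

theorem hasCons_allVec : HasCons E M (allVec E M) where
  one := fun i hi v hv hodd N ψ l hl => AddSubgroup.subset_closure
    ⟨_, _, _, _, noMiddle_one M i hi v hv hodd N ψ l hl, rfl⟩
  two := fun i₁ j₀ _ hj₀ v hv hodd heven l' hl' N ψ l hl => AddSubgroup.subset_closure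
    ⟨_, _, _, _, noMiddle_two M i₁ j₀ hj₀ v hv hodd heven l' hl' N ψ l hl, rfl⟩
  det := fun i₁ j₀ _ hj₀ v hv hodd _ l hl => AddSubgroup.subset_closure
    ⟨_, _, _, _, noMiddle_det M i₁ j₀ hj₀ v hv hodd l hl, rfl⟩

/-- The group generated by the Deligne periods. -/
theorem groups_eq (hgood : ∀ i, Good σ w (fun i => (M i).p) i) :
    spanOver E (allPeriods E M) = spanOver E (basicPeriods E M) := by
  refine le_antisymm (all_le_basic M) (basic_le M hgood (allPeriods E M) ?_ (allVec E M)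
    (hasCons_allVec M) ?_)
  · intro i hi u hu
    exact mem_of _ ⟨_, _, _, projRep E σ i, noMiddle_proj M i hi,
      hu.imp (isPeriod_proj M i) (isPeriod_proj M i)⟩
  · intro c d D q hcd hD hq
    apply inG_closure
    rintro W ⟨κ, _, _, ρ, hmid, rfl⟩
    exact inG_all M hcd hD hq _ ρ hmid fun u hu => ⟨κ, _, _, ρ, hmid, Or.inl hu⟩

end Pool.Agent.MP100fe7K
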