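import Pool.Agent.Lib.MP_100fe7_nt.TDefs

/-!
Definitions for the group generated by the Deligne periods of all the motives `ρ(M_1, …, M_t)`.
-/

namespace Pool.Agent.MP100fe7K

open Pool.Agent.MP100fe7T

/-- The motives of this shape, pure of weight `w`, have no classes of type `(w/2, w/2)`. -/
def NoMid (s : Shape) : Prop := s.m = 0 ∧ s.r = 0

/-- The differences `p - (w - p) = 2p - w` are odd multiples of `v`, for the Hodge indices
`p > w/2`. -/
def OddDist (v : ℕ) (w : ℤ) {n : ℕ} (p : Fin n → ℤ) : Prop :=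
  ∀ x, ∃ o : ℤ, Odd o ∧ 2 * p x - w = v * o

/-- The differences `p - (w - p) = 2p - w` are even multiples of `v`, for the Hodge indices
`p > w/2`. -/
def EvenDist (v : ℕ) (w : ℤ) {n : ℕ} (p : Fin n → ℤ) : Prop :=
  ∀ x, ∃ o : ℤ, Even o ∧ 2 * p x - w = v * o

/-- The condition on the `i`-th motive of a family: either it has no middle classes and all the
differences `p - (w - p)` are odd multiples of one integer `v`; or there is a motive `M_j` of the
family without middle classes for which they are odd multiples of an integer `v`, for `M_i` they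
are even multiples of `v`, and the rank `2n` of `M_j` is `2` modulo `4` or `M_i` has no middle
classes and some Hodge number `h^{a, w_j - a}` of `M_j` is odd. -/
def Good {ι : Type} (σ : ι → Shape) (w : ι → ℤ) (p : ∀ i, Fin (σ i).n → ℤ) (i : ι) : Prop :=
  (NoMid (σ i) ∧ ∃ v : ℕ, OddDist v (w i) (p i)) ∨
  ∃ (j : ι) (v : ℕ), NoMid (σ j) ∧ OddDist v (w j) (p j) ∧ EvenDist v (w i) (p i) ∧
    (Odd (σ j).n ∨
      NoMid (σ i) ∧ ∃ a : ℤ, Odd (Fintype.card {x : Fin (σ j).n // p j x = a}))

section

variable (E : Type) [Field E] {R : Type} [CommRing R] [Algebra E R] {ι : Type} [Fintype ι]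
  {σ : ι → Shape} {w : ι → ℤ} (M : ∀ i, Datum R (σ i) (w i))

/-- The Deligne periods `c^+(N)` and `c^-(N)` of all the motives `N = ρ(M)` without middle
classes, for all algebraic representations `ρ` of the product of the groups `GL(M_i)`, homogeneous
in each factor. -/
def allPeriods : Set Rˣ :=
  {u | ∃ (κ : Type) (_ : Fintype κ) (_ : DecidableEq κ) (ρ : Rep E σ κ), ρ.NoMiddle M ∧
    (ρ.IsPeriod M (1 : E) (u : R) ∨ ρ.IsPeriod M (-1 : E) (u : R))}

/-- The determinants of the comparison isomorphisms, the Hodge periods `Q_a(M_i)`, and the periods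
`c^+(M_i)`, `c^-(M_i)` of the `M_i` without middle classes. -/
def basicPeriods : Set Rˣ :=
  {u | ∃ i, (u : R) = (M i).comp.det ∨ (∃ a ∈ (M i).lowIndices, (M i).IsHodgePeriod a (u : R)) ∨
    NoMid (σ i) ∧ ((M i).IsPeriod (1 : E) (u : R) ∨ (M i).IsPeriod (-1 : E) (u : R))}

/-- The subgroup of `Rˣ` generated by `E^×` and by `P`. -/
def spanOver (P : Set Rˣ) : Subgroup Rˣ :=
  Subgroup.closure (Set.range (Units.map (algebraMap E R).toMonoidHom) ∪ P)

end

end Pool.Agent.MP100fe7K
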