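import Pool.Agent.Lib.MP_100fe7_nt.CvUnif

/-!
The final form of the theorem on the group generated by the Deligne periods of all the motives
`ρ(M_1, …, M_t)` without middle classes.
-/

set_option linter.unusedSectionVars false

namespace Pool.Agent.MP100fe7K

open MP100fe7T MP100fe7Cv

variable {ι : Type} [Fintype ι] [DecidableEq ι] {σ : ι → Shape} {w : ι → ℤ}

theorem uniform_hodge {p : ∀ i, Fin (σ i).n → ℤ} (hgood : ∀ i, Good σ w p i) (i : ι)
    (x : Fin (σ i).n) : ∃ k : (List (ι × ℕ) × ℤ) →₀ ℤ,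
      ∀ (E : Type) [Field E] [CharZero E] (R : Type) [CommRing R] [Algebra E R]
        (M : ∀ i, Datum R (σ i) (w i)), (∀ i, (M i).p = p i) →
        ∀ u : Rˣ, (M i).IsHodgePeriod (w i - p i x) (u : R) → IsMonomial E M k u := by
  by_cases h : Nonempty (Inst σ w p)
  · obtain ⟨J₀⟩ := h
    obtain ⟨kq, kD, h1, h2, h3⟩ := uniform hgood J₀
    refine ⟨kq i (w i - p i x), fun E _ _ R _ _ M hp u hu => ?_⟩
    let J : Inst σ w p := ⟨E, inferInstance, inferInstance, R, inferInstance, inferInstance, M, hp⟩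
    obtain ⟨h4, h5, h6⟩ := h3 J
    refine ⟨fun t ht => ⟨h1 i _ t ht, h4 i _ t ht⟩, fun X hX => ?_⟩
    refine (h6 X).1 i (w i - p i x) ?_ hX u hu
    refine Finset.mem_image.mpr ⟨x, Finset.mem_univ _, ?_⟩
    rw [J.hp i]
  · refine ⟨0, fun E _ _ R _ _ M hp u hu => ?_⟩
    exact absurd ⟨⟨E, inferInstance, inferInstance, R, inferInstance, inferInstance, M, hp⟩⟩ h

theorem uniform_det {p : ∀ i, Fin (σ i).n → ℤ} (hgood : ∀ i, Good σ w p i) (i : ι) :
    ∃ k : (List (ι × ℕ) × ℤ) →₀ ℤ,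
      ∀ (E : Type) [Field E] [CharZero E] (R : Type) [CommRing R] [Algebra E R]
        (M : ∀ i, Datum R (σ i) (w i)), (∀ i, (M i).p = p i) →
        ∀ u : Rˣ, (u : R) = (M i).comp.det → IsMonomial E M k u := by
  by_cases h : Nonempty (Inst σ w p)
  · obtain ⟨J₀⟩ := h
    obtain ⟨kq, kD, h1, h2, h3⟩ := uniform hgood J₀
    refine ⟨kD i, fun E _ _ R _ _ M hp u hu => ?_⟩
    let J : Inst σ w p := ⟨E, inferInstance, inferInstance, R, inferInstance, inferInstance, M, hp⟩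
    obtain ⟨h4, h5, h6⟩ := h3 J
    exact ⟨fun t ht => ⟨h2 i t ht, h5 i t ht⟩, fun X hX => (h6 X).2 i hX u hu⟩
  · refine ⟨0, fun E _ _ R _ _ M hp u hu => ?_⟩
    exact absurd ⟨⟨E, inferInstance, inferInstance, R, inferInstance, inferInstance, M, hp⟩⟩ h

theorem unit_facts {E : Type} [Field E] [CharZero E] {R : Type} [CommRing R] [Algebra E R]
    (M : ∀ i, Datum R (σ i) (w i)) (i : ι) (hi : NoMid (σ i)) {ε : ℤ} (hε : ε = 1 ∨ ε = -1) :
    (∃ x : R, (M i).IsPeriod (ε : E) x) ∧ ∀ x : R, (M i).IsPeriod (ε : E) x → IsUnit x := by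
  constructor
  · obtain ⟨c, d, h1, h2⟩ := exists_scalar (E := E) (M i) (Or.inl hi.1)
    rcases hε with rfl | rfl
    · exact ⟨c, by rwa [Int.cast_one]⟩
    · exact ⟨d, by rwa [Int.cast_neg, Int.cast_one]⟩
  · intro x hx
    exact isUnit_period M (projRep E σ i) (noMiddle_proj M i hi) hε (isPeriod_proj M i hx)

end Pool.Agent.MP100fe7K
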