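import Pool.Agent.Lib.MP_100fe7_nt.CvFinal

/-!
The Hodge periods as monomials in the Deligne periods of tensor products of exterior powers.
-/

set_option linter.unusedSectionVars false

namespace Pool.Agent.MP100fe7Cv

open Finset MP100fe7

section units

variable {E : Type} [Field E] [CharZero E] {R : Type} [CommRing R] [Nontrivial R] [Algebra E R]
  {n k : ℕ} {w : ℤ}
  {κ : Type} [Fintype κ] [DecidableEq κ] (ρ : PolyRep E n κ k) (M : Datum R n w)

/-- the units of `R` which come from `E` -/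
noncomputable def cst (E R : Type) [Field E] [CommRing R] [Algebra E R] : Eˣ →* Rˣ :=
  Units.map (algebraMap E R).toMonoidHom

theorem isUnit_hodge (E : Type) [Field E] [CharZero E] {R : Type} [CommRing R] [Nontrivial R]
    [Algebra E R] {n : ℕ} {w : ℤ} (M : Datum R n w) {a : ℤ} (ha : a ∈ lowIndices M) {q : R}
    (hq : IsHodgePeriod M a q) : IsUnit q := by
  rw [hodgePeriod_eq M a q hq]
  exact isUnit_hodgePeriod E M a ha

theorem isUnit_period (hmid : NoMiddle ρ M) (ε : ℤ) (hε : ε = 1 ∨ ε = -1) {x : R}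
    (hx : IsPeriod ρ M (ε : E) x) : IsUnit x := by
  obtain ⟨-, A, B, S, -, -, -, h⟩ := closed_formula ρ M hmid ε hε
  obtain ⟨c, hc⟩ := (exists_period (R := R) (std E n) M (noMiddle_std M)).1
  obtain ⟨d, hd⟩ := (exists_period (R := R) (std E n) M (noMiddle_std M)).2
  choose q hq using fun a => exists_hodgePeriod M a
  obtain ⟨x', -, -, -, -, hx', -⟩ := h x c d q hx hc hd fun a _ => hq a
  exact ⟨x', hx'⟩

theorem card_low (hmid : NoMiddle ρ M) (ε : ℤ) (hε : ε = 1 ∨ ε = -1) :
    (signPart ρ ε).card = (lowPart ρ M).card := by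
  rw [card_signPart ρ M hmid ε hε]
  have h := lowPart_sum ρ M hmid fun _ => 1
  simpa using h

theorem closed_units (hmid : NoMiddle ρ M) (ε : ℤ) (hε : ε = 1 ∨ ε = -1) :
    ∃ (A B : ℕ) (S : ℤ → ℕ),
      n * A = ∑ s ∈ signPart ρ ε, ∑ i, ρ.wt s (Sum.inl i) ∧
      n * B = ∑ s ∈ signPart ρ ε, ∑ i, ρ.wt s (Sum.inr i) ∧
      (∀ a, Fintype.card (Block M a) * S a =
        ∑ s ∈ lowPart ρ M, ∑ i : Block M a, ρ.wt s (Sum.inr i.1)) ∧
      n * A + n * B = k * (lowPart ρ M).card ∧
      ∀ (x c d : Rˣ) (q : ℤ → Rˣ), IsPeriod ρ M (ε : E) (x : R) →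
        IsPeriod (std E n) M (1 : E) (c : R) → IsPeriod (std E n) M (-1 : E) (d : R) →
        (∀ a ∈ lowIndices M, IsHodgePeriod M a (q a : R)) →
        ∃ e : Eˣ, x = cst E R e * c ^ A * d ^ B *
            ∏ a ∈ lowIndices M, q a ^ ((S a : ℤ) - A - B) := by
  obtain ⟨-, A, B, S, hA, hB, hS, h⟩ := closed_formula (R := R) ρ M hmid ε hε
  refine ⟨A, B, S, hA, hB, hS, ?_, ?_⟩
  · rw [hA, hB, ← Finset.sum_add_distrib, ← card_low ρ M hmid ε hε]
    have h1 : ∀ s, ∑ i, ρ.wt s (Sum.inl i) + ∑ i, ρ.wt s (Sum.inr i) = k := by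
      intro s
      rw [← Fintype.sum_sum_type (fun j => ρ.wt s j)]
      exact ρ.deg s
    rw [Finset.sum_congr rfl fun s _ => h1 s, Finset.sum_const, smul_eq_mul, mul_comm]
  · intro x c d q hx hc hd hq
    obtain ⟨x', c', d', q', e, hx', hc', hd', hq', he⟩ :=
      h x c d (fun a => (q a : R)) hx hc hd hq
    have e1 : x' = x := Units.ext hx'
    have e2 : c' = c := Units.ext hc'
    have e3 : d' = d := Units.ext hd'
    refine ⟨e, ?_⟩
    rw [e1, e2, e3] at he
    rw [he]
    congr 1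
    apply Finset.prod_congr rfl
    intro a ha
    rw [show q' a = q a from Units.ext (hq' a ha)]

end units

/-! ### Uniform exponents -/

theorem wt_ext (E : Type) [Field E] (n : ℕ) : ∀ l : List ℕ,
    (extTensor E n l).wt = (extTensor ℚ n l).wt
  | [] => rfl
  | k :: l => by
    have ih := wt_ext E n l
    funext s j
    change (ext E n k).wt s.1 j + (extTensor E n l).wt s.2 j =
      (ext ℚ n k).wt s.1 j + (extTensor ℚ n l).wt s.2 j
    rw [ih]
    rfl

theorem signPart_ext (E : Type) [Field E] (n : ℕ) (l : List ℕ) (ε : ℤ) :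
    signPart (extTensor E n l) ε = signPart (extTensor ℚ n l) ε := by
  unfold signPart
  rw [wt_ext E n l]

/-- the exponents of `c^+(M)` in the formula for `c^±` of a tensor product of exterior powers -/
noncomputable def expA (n : ℕ) (l : List ℕ) (ε : ℤ) : ℕ :=
  (∑ s ∈ signPart (extTensor ℚ n l) ε, ∑ i, (extTensor ℚ n l).wt s (Sum.inl i)) / n

/-- the exponents of `c^-(M)` in the formula for `c^±` of a tensor product of exterior powers -/
noncomputable def expB (n : ℕ) (l : List ℕ) (ε : ℤ) : ℕ :=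
  (∑ s ∈ signPart (extTensor ℚ n l) ε, ∑ i, (extTensor ℚ n l).wt s (Sum.inr i)) / n

theorem exists_combination {n : ℕ} {w : ℤ} (hw : Odd w) (p : Fin n → ℤ)
    (hp : ∀ i, w < 2 * p i) (i₀ : Fin n) :
    ∃ c : OddL →₀ ℤ, ∀ b : ℤ, (c.sum fun l t => t * Th (cen w p) b (pr n l.1)) =
      if b = w - 2 * p i₀ then (n : ℤ) * mult (cen w p) b else 0 := by
  have hp₀ := hp i₀
  have h1 := single_mem (cen w p) (cen_odd hw p) (cen_swap w p) _ (Sum.inr i₀)
    (by simp only [cen, Sum.elim_inr]; omega) le_rfl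
  obtain ⟨c, hc⟩ := (Finsupp.mem_span_range_iff_exists_finsupp).mp h1
  refine ⟨c, fun b => ?_⟩
  have h2 := congrFun hc b
  rw [Finsupp.sum, Finset.sum_apply] at h2
  have h3 : cen w p (Sum.inr i₀) = w - 2 * p i₀ := rfl
  rw [Finsupp.sum]
  rw [show (∑ l ∈ c.support, c l * Th (cen w p) b (pr n l.1)) =
    ∑ l ∈ c.support, (c l • Thv (cen w p) (pr n l.1)) b from rfl, h2, h3]
  by_cases hb : b = w - 2 * p i₀
  · subst hb
    rw [if_pos rfl, Pi.single_eq_same]
  · rw [if_neg hb, Pi.single_eq_of_ne hb]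

section main

variable {n : ℕ} {w : ℤ}

/-- the exponents for one tensor product of exterior powers -/
theorem ext_formula (E : Type) [Field E] [CharZero E] {R : Type} [CommRing R] [Nontrivial R]
    [Algebra E R] (hn : 0 < n) (hw : Odd w) (M : Datum R n w) (l : List ℕ) (hl : Odd l.sum)
    (ε : ℤ) (hε : ε = 1 ∨ ε = -1) :
    ∃ T : ℤ → ℤ, (∀ a ∈ lowIndices M, Th (cen w M.p) (2 * a - w) (pr n l) =
        n * Fintype.card (Block M a) * T a) ∧
      ∀ (x c d : Rˣ) (q : ℤ → Rˣ), IsPeriod (extTensor E n l) M (ε : E) (x : R) →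
        IsPeriod (std E n) M (1 : E) (c : R) → IsPeriod (std E n) M (-1 : E) (d : R) →
        (∀ a ∈ lowIndices M, IsHodgePeriod M a (q a : R)) →
        ∃ e : Eˣ, x = cst E R e * c ^ (expA n l ε : ℤ) * d ^ (expB n l ε : ℤ) *
            ∏ a ∈ lowIndices M, q a ^ T a := by
  have hmid := noMiddle_of_odd (extTensor E n l) M hl hw
  obtain ⟨A, B, S, hA, hB, hS, hAB, h⟩ := closed_units (R := R) (extTensor E n l) M hmid ε hε
  rw [signPart_ext, wt_ext] at hA hB
  have eA : expA n l ε = A := by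
    unfold expA
    rw [← hA, Nat.mul_div_cancel_left A hn]
  have eB : expB n l ε = B := by
    unfold expB
    rw [← hB, Nat.mul_div_cancel_left B hn]
  refine ⟨fun a => (S a : ℤ) - A - B, ?_, ?_⟩
  · intro a ha
    rw [pr, ← chr_extTensor (E := E)]
    exact Th_eq (extTensor E n l) M hl hAB hS a ha
  · intro x c d q hx hc hd hq
    obtain ⟨e, he⟩ := h x c d q hx hc hd hq
    refine ⟨e, ?_⟩
    rw [he, eA, eB, zpow_natCast, zpow_natCast]

/-- every Hodge period is a monomial in Deligne periods, with uniform exponents -/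
theorem hodge_monomial (hw : Odd w) (p : Fin n → ℤ) (hp : ∀ i, w < 2 * p i) (i₀ : Fin n) :
    ∃ (L : Finset (List ℕ)) (m : List ℕ → ℤ), (∀ l ∈ L, Odd l.sum) ∧
      ∀ ε : List ℕ → ℤ, (∀ l, ε l = 1 ∨ ε l = -1) → ∃ x y : ℤ,
      ∀ (E : Type) [Field E] [CharZero E] (R : Type) [CommRing R] [Nontrivial R]
        [Algebra E R] (M : Datum R n w), M.p = p →
        ∀ (c d q : Rˣ) (X : List ℕ → Rˣ), IsPeriod (std E n) M (1 : E) (c : R) →
        IsPeriod (std E n) M (-1 : E) (d : R) → IsHodgePeriod M (w - p i₀) (q : R) →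
        (∀ l ∈ L, IsPeriod (extTensor E n l) M ((ε l : ℤ) : E) (X l : R)) →
        ∃ e : Eˣ, q = cst E R e * c ^ x * d ^ y * ∏ l ∈ L, X l ^ m l := by
  classical
  have hn : 0 < n := Fin.pos i₀
  obtain ⟨k, hk⟩ := exists_combination hw p hp i₀
  refine ⟨k.support.map (Function.Embedding.subtype _), fun l => if h : Odd l.sum then
    k ⟨l, h⟩ else 0, ?_, ?_⟩
  · intro l hl
    obtain ⟨l', -, rfl⟩ := Finset.mem_map.mp hl
    exact l'.2
  · intro ε hε
    refine ⟨-∑ l ∈ k.support, (expA n l.1 (ε l.1) : ℤ) * k l,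
      -∑ l ∈ k.support, (expB n l.1 (ε l.1) : ℤ) * k l, ?_⟩
    intro E _ _ R _ _ _ M hM c d q X hc hd hq hX
    subst hM
    choose T hT1 hT2 using fun l : OddL => ext_formula E (R := R) hn hw M l.1 l.2 (ε l.1)
      (hε l.1)
    have hu : ∀ a : ℤ, ∃ u : Rˣ, a ∈ lowIndices M → IsHodgePeriod M a (u : R) := by
      intro a
      by_cases ha : a ∈ lowIndices M
      · obtain ⟨z, hz⟩ := exists_hodgePeriod M a
        obtain ⟨u, rfl⟩ := isUnit_hodge E M ha hz
        exact ⟨u, fun _ => hz⟩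
      · exact ⟨1, fun h => absurd h ha⟩
    choose Q hQ using hu
    have ha₀ : w - M.p i₀ ∈ lowIndices M := Finset.mem_image_of_mem _ (Finset.mem_univ i₀)
    have hq0 : Q (w - M.p i₀) = q := by
      apply Units.ext
      rw [hodgePeriod_eq M _ _ (hQ _ ha₀), hodgePeriod_eq M _ _ hq]
    have hXs : ∀ l : OddL, ∃ e : Eˣ, l ∈ k.support → X l.1 = cst E R e *
        c ^ (expA n l.1 (ε l.1) : ℤ) * d ^ (expB n l.1 (ε l.1) : ℤ) *
          ∏ a ∈ lowIndices M, Q a ^ T l a := by
      intro l
      by_cases hl : l ∈ k.support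
      · obtain ⟨e, he⟩ := hT2 l (X l.1) c d Q (hX l.1 (Finset.mem_map_of_mem _ hl)) hc hd
          (fun a ha => hQ a ha)
        exact ⟨e, fun _ => he⟩
      · exact ⟨1, fun h => absurd h hl⟩
    choose e he using hXs
    have hsum : ∀ a ∈ lowIndices M, ∑ l ∈ k.support, T l a * k l =
        if a = w - M.p i₀ then 1 else 0 := by
      intro a ha
      have h1 := hk (2 * a - w)
      rw [Finsupp.sum, mult_block M a ha] at h1
      have hcard : (Fintype.card (Block M a) : ℤ) ≠ 0 := by
        obtain ⟨i, _, hi⟩ := Finset.mem_image.mp ha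
        exact_mod_cast (Fintype.card_pos_iff.mpr ⟨(⟨i, hi⟩ : Block M a)⟩).ne'
      have hn' : (n : ℤ) ≠ 0 := by exact_mod_cast hn.ne'
      have h2 : (n : ℤ) * Fintype.card (Block M a) * (∑ l ∈ k.support, T l a * k l) =
          (n : ℤ) * Fintype.card (Block M a) * (if a = w - M.p i₀ then 1 else 0) := by
        rw [Finset.mul_sum]
        have h3 : ∀ l : OddL, (n : ℤ) * Fintype.card (Block M a) * (T l a * k l) =
            k l * Th (cen w M.p) (2 * a - w) (pr n l.1) := by
          intro l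
          rw [hT1 l a ha]
          ring
        rw [Finset.sum_congr rfl fun l _ => h3 l, h1]
        by_cases h4 : a = w - M.p i₀
        · rw [if_pos h4, if_pos (by omega), mul_one]
        · rw [if_neg h4, if_neg (by omega), mul_zero]
      exact mul_left_cancel₀ (mul_ne_zero hn' hcard) h2
    refine ⟨(∏ l ∈ k.support, e l ^ k l)⁻¹, ?_⟩
    rw [Finset.prod_map]
    have h5 : ∏ l ∈ k.support, X ((Function.Embedding.subtype _) l) ^
        (if h : Odd ((Function.Embedding.subtype _ l : List ℕ)).sum then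
          k ⟨(Function.Embedding.subtype _) l, h⟩ else 0) =
        ∏ l ∈ k.support, (cst E R (e l ^ k l) * c ^ ((expA n l.1 (ε l.1) : ℤ) * k l) *
          d ^ ((expB n l.1 (ε l.1) : ℤ) * k l) * ∏ a ∈ lowIndices M, Q a ^ (T l a * k l)) := by
      apply Finset.prod_congr rfl
      intro l hl
      have h10 : X ((Function.Embedding.subtype _) l) ^
          (if h : Odd ((Function.Embedding.subtype _ l : List ℕ)).sum then
            k ⟨(Function.Embedding.subtype _) l, h⟩ else 0) = X l.1 ^ k l :=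
        congrArg (fun t => X l.1 ^ t) (dif_pos l.2)
      rw [h10, he l hl, mul_zpow, mul_zpow, mul_zpow, ← Finset.prod_zpow, map_zpow, zpow_mul, zpow_mul]
      congr 1
      apply Finset.prod_congr rfl
      intro a _
      rw [zpow_mul]
    rw [h5, Finset.prod_mul_distrib, Finset.prod_mul_distrib, Finset.prod_mul_distrib,
      Finset.prod_comm]
    have h6 : ∏ a ∈ lowIndices M, ∏ l ∈ k.support, Q a ^ (T l a * k l) = q := by
      have h7 : ∀ a ∈ lowIndices M, ∏ l ∈ k.support, Q a ^ (T l a * k l) =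
          if a = w - M.p i₀ then q else 1 := by
        intro a ha
        have h8 : ∏ l ∈ k.support, Q a ^ (T l a * k l) =
            Q a ^ (∑ l ∈ k.support, T l a * k l) := by
          induction k.support using Finset.induction_on with
          | empty => simp
          | insert b s hb ih => rw [Finset.prod_insert hb, Finset.sum_insert hb, zpow_add, ih]
        rw [h8, hsum a ha]
        by_cases h9 : a = w - M.p i₀
        · rw [if_pos h9, if_pos h9, zpow_one, h9, hq0]
        · rw [if_neg h9, if_neg h9, zpow_zero]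
      rw [Finset.prod_congr rfl h7, Finset.prod_ite_eq' (lowIndices M) (w - M.p i₀), if_pos ha₀]
    have hz : ∀ (u : Rˣ) (f : OddL → ℤ), ∏ l ∈ k.support, u ^ f l =
        u ^ (∑ l ∈ k.support, f l) := by
      intro u f
      induction k.support using Finset.induction_on with
      | empty => simp
      | insert b s hb ih => rw [Finset.prod_insert hb, Finset.sum_insert hb, zpow_add, ih]
    have h11 : ∀ P C D q : Rˣ, q = P⁻¹ * C⁻¹ * D⁻¹ * (P * C * D * q) := by
      intro P C D q
      rw [show P⁻¹ * C⁻¹ * D⁻¹ = (P * C * D)⁻¹ by rw [mul_inv, mul_inv], inv_mul_cancel_left]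
    rw [h6, hz c, hz d, map_inv, map_prod, zpow_neg, zpow_neg]
    exact h11 _ _ _ _

end main

end Pool.Agent.MP100fe7Cv
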