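import Pool.Agent.Lib.MP_100fe7_nt.TRatio2
import Pool.Agent.Lib.MP_100fe7_nt.CvKDefs

/-!
The closed formula for the Deligne periods of a `ρ(M)` without middle classes.
-/

set_option linter.unusedSectionVars false

namespace Pool.Agent.MP100fe7K

open Matrix MP100fe7T

variable {E : Type} [Field E] [CharZero E] {ι : Type} [Fintype ι] [DecidableEq ι]
  {σ : ι → Shape} {κ : Type} [Fintype κ] [DecidableEq κ] (ρ : Rep E σ κ)

/-- The sum of the weights does not depend on the basis vector. -/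
theorem total_const (i : ι) (j j' : (σ i).Idx) :
    ∑ s, ρ.wt s ⟨i, j⟩ = ∑ s, ρ.wt s ⟨i, j'⟩ := by
  classical
  let π : ∀ i', Equiv.Perm (σ i').Idx := Function.update (fun _ => 1) i (Equiv.swap j j')
  have hπi : π i = Equiv.swap j j' := by simp [π]
  have hπn : ∀ i', i' ≠ i → π i' = 1 := fun i' h => by simp [π, Function.update_of_ne h]
  have hπ : ∀ i' k, π i' (π i' k) = k := by
    intro i' k
    by_cases h : i' = i
    · subst h
      rw [hπi, Equiv.swap_apply_self]
    · rw [hπn i' h]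
      rfl
  let P : Fam σ E := fun i' => (1 : Matrix _ _ E).submatrix (π i') id
  let x : Tot σ → E := fun q => if q = ⟨i, j⟩ then 2 else 1
  let x' : Tot σ → E := fun q => if q = ⟨i, j'⟩ then 2 else 1
  have hx : ∀ i' k, x' ⟨i', k⟩ = x ⟨i', π i' k⟩ := by
    intro i' k
    by_cases h : i' = i
    · subst h
      have e1 : ((⟨i', k⟩ : Tot σ) = ⟨i', j'⟩) ↔ k = j' := by
        constructor
        · intro h
          exact eq_of_heq (Sigma.mk.inj h).2
        · rintro rfl
          rfl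
      have e2 : ((⟨i', π i' k⟩ : Tot σ) = ⟨i', j⟩) ↔ k = j' := by
        constructor
        · intro h
          have h2 := eq_of_heq (Sigma.mk.inj h).2
          rw [← hπ i' k, h2, hπi, Equiv.swap_apply_left]
        · rintro rfl
          rw [hπi, Equiv.swap_apply_right]
      simp only [x, x', e1, e2]
    · simp only [x, x']
      rw [if_neg, if_neg]
      · intro h'
        exact h (Sigma.mk.inj h').1
      · intro h'
        exact h (Sigma.mk.inj h').1
  have h1 : P * fdiag x = fdiag x' * P := by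
    funext i'
    ext k l
    simp only [Pi.mul_apply, fdiag, P]
    rw [mul_diagonal, diagonal_mul, submatrix_apply, id_eq, hx]
    by_cases hk : π i' k = l
    · rw [hk]
      ring
    · rw [Matrix.one_apply_ne hk, zero_mul, mul_zero]
  have hPP : P * P = 1 := by
    funext i'
    ext k l
    simp only [Pi.mul_apply, P]
    rw [Matrix.mul_apply, Finset.sum_eq_single (π i' k)]
    · rw [submatrix_apply, submatrix_apply, id_eq, Matrix.one_apply_eq, one_mul, hπ, id_eq]
      rfl
    · intro b _ hb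
      rw [submatrix_apply, id_eq, Matrix.one_apply_ne (Ne.symm hb), zero_mul]
    · simp
  have hdet : (ρ.pol E P).det ≠ 0 := by
    have h := congrArg det (ρ.pol_inv_mul hPP)
    rw [det_mul, det_one] at h
    intro h0
    rw [h0, zero_mul] at h
    exact zero_ne_one h
  have h2 := congrArg det (congrArg (ρ.pol E) h1)
  rw [ρ.pol_mul, ρ.pol_mul, ρ.pol_diag, ρ.pol_diag, det_mul, det_mul, det_diagonal, det_diagonal,
    mul_comm] at h2
  have h3 := mul_right_cancel₀ hdet h2
  have h4 : ∀ (j : (σ i).Idx) (s : κ), ∏ q : Tot σ, (if q = ⟨i, j⟩ then (2 : E) else 1) ^ ρ.wt s q =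
      2 ^ ρ.wt s ⟨i, j⟩ := by
    intro j s
    rw [Finset.prod_eq_single (⟨i, j⟩ : Tot σ)]
    · rw [if_pos rfl]
    · intro q _ hq
      rw [if_neg hq, one_pow]
    · simp
  simp only [x, x', h4] at h3
  rw [Finset.prod_pow_eq_pow_sum, Finset.prod_pow_eq_pow_sum] at h3
  have h5 : ((2 ^ (∑ s, ρ.wt s ⟨i, j⟩) : ℕ) : E) = ((2 ^ (∑ s, ρ.wt s ⟨i, j'⟩) : ℕ) : E) := by
    push_cast
    exact h3
  exact Nat.pow_right_injective (le_refl 2) (Nat.cast_injective h5)

variable {R : Type} [CommRing R] [Algebra E R] {w : ι → ℤ} (M : ∀ i, Datum R (σ i) (w i))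

/-- the sums of the low weights -/
def Vl (q : Tot σ) : ℤ := ∑ s ∈ ρ.lowPart M ((ρ.motWeight w + 1) / 2), ρ.weight s q

theorem card_sign_eq (hmid : ρ.NoMiddle M) {ε : ℤ} (hε : ε = 1 ∨ ε = -1) :
    (ρ.signPart ε).card = (ρ.lowPart M ((ρ.motWeight w + 1) / 2)).card :=
  (Rep.isStep_of_noMiddle ρ M hmid hε).symm

theorem sum_weight_idx (s : κ) (i : ι) : ∑ j, ρ.weight s ⟨i, j⟩ =
    (ρ.deg i : ℤ) - ρ.twist i * Fintype.card (σ i).Idx := by
  change ∑ j, ((ρ.wt s ⟨i, j⟩ : ℤ) - ρ.twist i) = _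
  rw [Finset.sum_sub_distrib, Finset.sum_const, Finset.card_univ, nsmul_eq_mul]
  have h := ρ.sum_wt s i
  rw [← h]
  push_cast
  ring

theorem mid_sum (hmid : ρ.NoMiddle M) {ε : ℤ} (hε : ε = 1 ∨ ε = -1) (i : ι)
    (y : Fin (σ i).m ⊕ Fin (σ i).r) :
    ∑ s ∈ ρ.signPart ε, ρ.weight s ⟨i, Sum.inr y⟩ = Vl ρ M ⟨i, Sum.inr y⟩ := by
  have hst := Rep.isStep_of_noMiddle ρ M hmid hε
  have hcard : Fintype.card {s // ρ.height (hiT M) s <
      (ρ.motWeight w + 1) / 2 + ρ.shift M} = Fintype.card {s // ρ.sgP s = ρ.tau * ε} := by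
    rw [← ρ.card_signPart, ← ρ.card_lowPart]
    exact hst
  have hcut := cut_of_card ρ M _ (ρ.tau * ε) (ρ.tau_mul_cases hε) hcard
  have e3 := stab_mid ρ (fun s => ρ.height (hiT M) s < (ρ.motWeight w + 1) / 2 + ρ.shift M)
    (ρ.tau * ε) hcut (d := Fintype.card {s // ρ.height (hiT M) s <
      (ρ.motWeight w + 1) / 2 + ρ.shift M})
      (Fintype.equivFin _).symm ((finCongr hcard).trans (Fintype.equivFin _).symm) i y
  unfold Vl Rep.weight
  rw [Finset.sum_sub_distrib, Finset.sum_sub_distrib, Finset.sum_const, Finset.sum_const,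
    card_sign_eq ρ M hmid hε]
  congr 1
  have e4 : ρ.signPart ε = Finset.univ.filter fun s => ρ.sgP s = ρ.tau * ε := by
    unfold Rep.signPart
    apply Finset.filter_congr
    intro s _
    exact ρ.sgn_eq_iff ε s
  have e5 : ρ.lowPart M ((ρ.motWeight w + 1) / 2) = Finset.univ.filter fun s =>
      ρ.height (hiT M) s < (ρ.motWeight w + 1) / 2 + ρ.shift M := by
    unfold Rep.lowPart
    apply Finset.filter_congr
    intro s _
    rw [ρ.hodgeIdx_eq M]
    omega
  rw [e4, e5]
  exact_mod_cast e3.symm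

theorem sign_sum_const (hmid : ρ.NoMiddle M) {ε : ℤ} (hε : ε = 1 ∨ ε = -1) (i : ι)
    (j j' : (σ i).Idx) (h : (σ i).sgn j = (σ i).sgn j') :
    ∑ s ∈ ρ.signPart ε, ρ.weight s ⟨i, j⟩ = ∑ s ∈ ρ.signPart ε, ρ.weight s ⟨i, j'⟩ := by
  obtain ⟨A, B, S, hA, hB, -⟩ := closed_formula ρ M ε hε _ (Rep.isStep_of_noMiddle ρ M hmid hε)
  have h1 : (σ i).sgn j = 1 ∨ (σ i).sgn j = -1 := by
    rcases j with (j | j) | (j | j)
    · exact Or.inl rfl
    · exact Or.inr rfl
    · exact Or.inl rfl
    · exact Or.inr rfl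
  rcases h1 with h1 | h1
  · rw [← hA i j h1, ← hA i j' (h.symm.trans h1)]
  · rw [← hB i j h1, ← hB i j' (h.symm.trans h1)]

theorem sum_sign_all (q : Tot σ) : ∑ s, ρ.weight s q =
    ∑ s ∈ ρ.signPart 1, ρ.weight s q + ∑ s ∈ ρ.signPart (-1), ρ.weight s q := by
  rw [← Finset.sum_union]
  · apply Finset.sum_congr _ (fun _ _ => rfl)
    ext s
    simp only [Finset.mem_univ, Finset.mem_union, Rep.signPart, Finset.mem_filter, true_and,
      true_iff]
    rw [ρ.sgn_eq_iff, ρ.sgn_eq_iff]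
    rcases ρ.tau_cases with h | h <;> rcases ρ.sgP_cases s with h' | h' <;> rw [h, h'] <;> simp
  · rw [Finset.disjoint_left]
    intro s hs hs'
    simp only [Rep.signPart, Finset.mem_filter] at hs hs'
    rw [hs.2] at hs'
    exact absurd hs'.2 (by decide)

/-- All the sums of the weights of a motive with middle classes over the sign parts are the same. -/
theorem nm_balance (hmid : ρ.NoMiddle M) {ε : ℤ} (hε : ε = 1 ∨ ε = -1) (i : ι)
    (y : Fin (σ i).m ⊕ Fin (σ i).r) (j : (σ i).Idx) :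
    ∑ s ∈ ρ.signPart ε, ρ.weight s ⟨i, j⟩ = Vl ρ M ⟨i, Sum.inr y⟩ := by
  classical
  by_cases hj : (σ i).sgn j = (σ i).sgn (Sum.inr y)
  · rw [sign_sum_const ρ M hmid hε i j _ hj, mid_sum ρ M hmid hε]
  · set K := Vl ρ M ⟨i, Sum.inr y⟩ with hK
    set f : ℤ → ℤ := fun ε => ∑ s ∈ ρ.signPart ε, ρ.weight s ⟨i, j⟩ with hf
    have hsg : ∀ j' : (σ i).Idx, (σ i).sgn j' = 1 ∨ (σ i).sgn j' = -1 := by
      rintro ((j | j) | (j | j))
      · exact Or.inl rfl
      · exact Or.inr rfl
      · exact Or.inl rfl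
      · exact Or.inr rfl
    have h1 : ∀ ε, ε = 1 ∨ ε = -1 → ∀ j', ∑ s ∈ ρ.signPart ε, ρ.weight s ⟨i, j'⟩ =
        if (σ i).sgn j' = (σ i).sgn j then f ε else K := by
      intro ε hε j'
      by_cases h : (σ i).sgn j' = (σ i).sgn j
      · rw [if_pos h, sign_sum_const ρ M hmid hε i j' j h]
      · rw [if_neg h, hK, ← mid_sum ρ M hmid hε]
        apply sign_sum_const ρ M hmid hε
        rcases hsg j' with h2 | h2 <;> rcases hsg j with h3 | h3 <;>
          rcases hsg (Sum.inr y) with h4 | h4 <;> rw [h2, h4] <;>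
          simp only [h2, h3, h4] at h hj <;> simp_all
    have h2 : ∀ ε, ε = 1 ∨ ε = -1 → ∑ j' : (σ i).Idx,
        (if (σ i).sgn j' = (σ i).sgn j then f ε else K) =
        ((ρ.lowPart M ((ρ.motWeight w + 1) / 2)).card : ℤ) *
          ((ρ.deg i : ℤ) - ρ.twist i * Fintype.card (σ i).Idx) := by
      intro ε hε
      rw [← card_sign_eq ρ M hmid hε, ← Finset.sum_congr rfl fun j' _ => h1 ε hε j',
        Finset.sum_comm]
      simp only [sum_weight_idx]
      rw [Finset.sum_const, nsmul_eq_mul]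
    have h3 := (h2 1 (Or.inl rfl)).trans (h2 (-1) (Or.inr rfl)).symm
    rw [← sub_eq_zero, ← Finset.sum_sub_distrib] at h3
    have h4 : ∀ j' : (σ i).Idx, ((if (σ i).sgn j' = (σ i).sgn j then f 1 else K) -
        (if (σ i).sgn j' = (σ i).sgn j then f (-1) else K)) =
        if (σ i).sgn j' = (σ i).sgn j then f 1 - f (-1) else 0 := by
      intro j'
      split_ifs
      · rfl
      · ring
    rw [Finset.sum_congr rfl fun j' _ => h4 j', ← Finset.sum_filter, Finset.sum_const,
      nsmul_eq_mul] at h3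
    have h5 : ((Finset.univ.filter fun j' => (σ i).sgn j' = (σ i).sgn j).card : ℤ) ≠ 0 := by
      have : (Finset.univ.filter fun j' => (σ i).sgn j' = (σ i).sgn j).Nonempty :=
        ⟨j, by simp⟩
      exact_mod_cast this.card_pos.ne'
    have h6 : f 1 = f (-1) := by
      have := (mul_eq_zero.mp h3).resolve_left h5
      linarith
    have h7 : ∑ s, ρ.weight s ⟨i, j⟩ = ∑ s, ρ.weight s ⟨i, Sum.inr y⟩ := by
      unfold Rep.weight
      rw [Finset.sum_sub_distrib, Finset.sum_sub_distrib]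
      congr 1
      exact_mod_cast total_const ρ i j (Sum.inr y)
    rw [sum_sign_all, sum_sign_all, mid_sum ρ M hmid (Or.inl rfl),
      mid_sum ρ M hmid (Or.inr rfl)] at h7
    change f 1 + f (-1) = K + K at h7
    change f ε = K
    rcases hε with rfl | rfl <;> linarith

/-- the units of `R` which come from `E` -/
noncomputable def cst (E R : Type) [Field E] [CommRing R] [Algebra E R] : Eˣ →* Rˣ :=
  Units.map (algebraMap E R).toMonoidHom

/-- periods of rank zero -/
theorem period_empty {s : Shape} {w : ℤ} (M : Datum R s w) (ε : ℤ) (hε : ∀ j, s.sgn j ≠ ε) {x : R}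
    (hx : M.IsPeriod (ε : E) x) : x = 1 := by
  obtain ⟨a, d, A, B, h1, h2, h3, h4, h5⟩ := hx
  have hd : d = 0 := by
    by_contra hd
    have hz : ∀ v, A.mulVec v = 0 := by
      intro v
      have h := (h2 (A.mulVec v)).mp ⟨v, rfl⟩
      funext j
      have h6 := congrFun h j
      unfold frob at h6
      rw [mulVec_diagonal, Pi.smul_apply, smul_eq_mul] at h6
      have h7 : ((s.sgn j - ε : ℤ) : E) * A.mulVec v j = 0 := by
        push_cast
        linear_combination h6
      rcases mul_eq_zero.mp h7 with h8 | h8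
      · exfalso
        apply hε j
        have := Int.cast_eq_zero.mp h8
        omega
      · exact h8
    have h9 : (1 : Fin d → E) = 0 := h1 ((hz 1).trans (hz 0).symm)
    have := congrFun h9 ⟨0, Nat.pos_of_ne_zero hd⟩
    exact one_ne_zero this
  subst hd
  rw [h5, det_fin_zero]

/-- the relation `c^+ c^- = D ∏ Q_a` for a motive with scalar middle part -/
theorem det_relation {s : Shape} {w : ℤ} (M : Datum R s w) (hsc : s.m = 0 ∨ s.r = 0)
    (c d D : Rˣ) (q : ℤ → Rˣ) (hc : M.IsPeriod (1 : E) (c : R)) (hd : M.IsPeriod (-1 : E) (d : R))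
    (hD : (D : R) = M.comp.det) (hq : ∀ a ∈ M.lowIndices, M.IsHodgePeriod a (q a : R)) :
    cls E (c * d) = cls E (D * ∏ a ∈ M.lowIndices, q a) := by
  have h2 : IsUnit (2 : R) := Rep.isUnit_two (E := E) R
  obtain ⟨h, hhu, hh, hM⟩ := M.exists_factor h2
  obtain ⟨bu, hbu⟩ := M.isUnit_beta
  have hpm : IsUnit (detP (fun j => s.sgn j = 1) h * detP (fun j => s.sgn j = -1) h) := by
    rw [← det_sgn h hh]
    exact hhu
  obtain ⟨pu, hpu⟩ := isUnit_of_mul_isUnit_left hpm
  obtain ⟨mu, hmu⟩ := isUnit_of_mul_isUnit_right hpm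
  have hQ : ((∏ y ∈ M.lowIndices, q y : Rˣ) : R) = M.dlow := by
    rw [Units.coe_prod]
    unfold Datum.dlow
    apply Finset.prod_congr rfl
    intro y hy
    exact M.hodgePeriod_eq y _ (hq y hy)
  have e0 : (gz R s).det = algebraMap E R (gz E s).det := by
    rw [← gz_map (E := E)]
    exact (RingHom.map_det (algebraMap E R) _).symm
  have hDc : cls E D = cls E (∏ y ∈ M.lowIndices, q y) * cls E bu * (cls E pu * cls E mu) := by
    have e1 : (D : R) = algebraMap E R (Units.mk0 _ (det_gz_ne (E := E) s) : Eˣ) *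
        (((∏ y ∈ M.lowIndices, q y) * bu * (pu * mu) : Rˣ) : R) := by
      rw [hD, hM, det_mul, det_mul, M.det_b, det_sgn h hh, e0, Units.val_mul, Units.val_mul,
        Units.val_mul, hQ, hbu, hpu, hmu, Units.val_mk0]
      ring
    rw [cls_eq_of_val E _ e1, map_mul, map_mul, map_mul]
  obtain ⟨c', d', b1, b2, hc', hd', u1, -, u3, u4⟩ := scalar_periods (E := E) M h hh hM
    (∏ y ∈ M.lowIndices, q y) bu pu mu hQ hbu hpu hmu hsc 1 1 1 (fun _ => rfl) (fun _ => rfl)
    hc hd
  have e2 : c' = c := Units.ext hc'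
  have e3 : d' = d := Units.ext hd'
  rw [map_mul, ← e2, ← e3, u3, u4, map_mul, hDc, u1]
  ac_rfl

/-- The exponents in the closed formula for a `ρ(M)` without middle classes. -/
structure IsExp (ε : ℤ) (A B : ι → ℤ) (S : ι → ℤ → ℤ) : Prop where
  pos : ∀ i j, (σ i).sgn j = 1 → A i = ∑ s ∈ ρ.signPart ε, ρ.weight s ⟨i, j⟩
  neg : ∀ i j, (σ i).sgn j = -1 → B i = ∑ s ∈ ρ.signPart ε, ρ.weight s ⟨i, j⟩
  low : ∀ i x, S i (w i - (M i).p x) = Vl ρ M ⟨i, Sum.inl (Sum.inr x)⟩
  mid : ∀ i, ¬ NoMid (σ i) → A i = B i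

/-- the part of the monomial which belongs to the `i`-th motive -/
def fac {G : Type*} [CommGroup G] (c d D : ι → G) (q : ι → ℤ → G) (A B : ι → ℤ) (S : ι → ℤ → ℤ)
    (i : ι) : G :=
  if (σ i).m = 0 ∧ (σ i).r = 0 then
    c i ^ A i * d i ^ B i * ∏ a ∈ (M i).lowIndices, q i a ^ (S i a - A i - B i)
  else D i ^ A i * ∏ a ∈ (M i).lowIndices, q i a ^ (S i a - A i)

theorem exists_mid {s : Shape} (h : ¬ NoMid s) : Nonempty (Fin s.m ⊕ Fin s.r) := by
  by_cases hm : s.m = 0
  · have hr : s.r ≠ 0 := fun h' => h ⟨hm, h'⟩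
    exact ⟨Sum.inr ⟨0, Nat.pos_of_ne_zero hr⟩⟩
  · exact ⟨Sum.inl ⟨0, Nat.pos_of_ne_zero hm⟩⟩

theorem exists_scalar {s : Shape} {w : ℤ} (M : Datum R s w) (hsc : s.m = 0 ∨ s.r = 0) :
    ∃ c d : R, M.IsPeriod (1 : E) c ∧ M.IsPeriod (-1 : E) d := by
  have h : ∀ ε : ℤ, ε = 1 ∨ ε = -1 →
      ((∀ j, s.sgn (Sum.inr j) ≠ ε) ∨ ∀ j, s.sgn (Sum.inr j) = ε) := by
    intro ε hε
    rcases hsc with h0 | h0 <;> rcases hε with rfl | rfl
    · left
      rintro (j | j)
      · exact absurd j.2 (by omega)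
      · change (-1 : ℤ) ≠ 1
        decide
    · right
      rintro (j | j)
      · exact absurd j.2 (by omega)
      · rfl
    · right
      rintro (j | j)
      · rfl
      · exact absurd j.2 (by omega)
    · left
      rintro (j | j)
      · change (1 : ℤ) ≠ -1
        decide
      · exact absurd j.2 (by omega)
  obtain ⟨c, hc⟩ := M.exists_period (E := E) (ε := 1) (Or.inl rfl) (h 1 (Or.inl rfl))
  obtain ⟨d, hd⟩ := M.exists_period (E := E) (ε := -1) (Or.inr rfl) (h (-1) (Or.inr rfl))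
  refine ⟨c, d, ?_, ?_⟩
  · rwa [Int.cast_one] at hc
  · rwa [Int.cast_neg, Int.cast_one] at hd

/-- The closed formula for a `ρ(M)` without middle classes. -/
theorem nm_formula (hmid : ρ.NoMiddle M) {ε : ℤ} (hε : ε = 1 ∨ ε = -1) :
    ∃ (A B : ι → ℤ) (S : ι → ℤ → ℤ), IsExp ρ M ε A B S ∧
      ∀ (x : R) (c d D : ι → Rˣ) (q : ι → ℤ → Rˣ), ρ.IsPeriod M (ε : E) x →
        (∀ i, NoMid (σ i) → (M i).IsPeriod (1 : E) (c i : R) ∧
          (M i).IsPeriod (-1 : E) (d i : R)) →
        (∀ i, (D i : R) = (M i).comp.det) →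
        (∀ i, ∀ a ∈ (M i).lowIndices, (M i).IsHodgePeriod a (q i a : R)) →
        ∃ e : Eˣ, x = ((cst E R e * ∏ i, fac M c d D q A B S i : Rˣ) : R) := by
  classical
  obtain ⟨A', B', S', hA, hB, hS, hAB, h⟩ := closed_formula ρ M ε hε _
    (Rep.isStep_of_noMiddle ρ M hmid hε)
  have hy : ∀ i, ∃ K : ℤ, ¬ NoMid (σ i) →
      ∀ j, ∑ s ∈ ρ.signPart ε, ρ.weight s ⟨i, j⟩ = K := by
    intro i
    by_cases hi : NoMid (σ i)
    · exact ⟨0, fun h => absurd hi h⟩
    · obtain ⟨y⟩ := exists_mid hi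
      exact ⟨_, fun _ j => nm_balance ρ M hmid hε i y j⟩
  choose K hK using hy
  refine ⟨fun i => if NoMid (σ i) then A' i else K i, fun i => if NoMid (σ i) then B' i else K i,
    S', ⟨?_, ?_, ?_, ?_⟩, ?_⟩
  · intro i j hj
    by_cases hi : NoMid (σ i)
    · simp only [if_pos hi]
      exact hA i j hj
    · simp only [if_neg hi]
      exact (hK i hi j).symm
  · intro i j hj
    by_cases hi : NoMid (σ i)
    · simp only [if_pos hi]
      exact hB i j hj
    · simp only [if_neg hi]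
      exact (hK i hi j).symm
  · exact hS
  · intro i hi
    simp only [if_neg hi]
  intro x c d D q hx hcd hD hq
  have hex : ∀ i, ∃ c₁ d₁ : R, ((σ i).m = 0 ∨ (σ i).r = 0 →
      (M i).IsPeriod (1 : E) c₁ ∧ (M i).IsPeriod (-1 : E) d₁) ∧
      (NoMid (σ i) → c₁ = c i ∧ d₁ = d i) := by
    intro i
    by_cases hi : NoMid (σ i)
    · exact ⟨c i, d i, fun _ => hcd i hi, fun _ => ⟨rfl, rfl⟩⟩
    · by_cases hsc : (σ i).m = 0 ∨ (σ i).r = 0
      · obtain ⟨c₁, d₁, h1⟩ := exists_scalar (E := E) (M i) hsc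
        exact ⟨c₁, d₁, fun _ => h1, fun h => absurd h hi⟩
      · exact ⟨0, 0, fun h => absurd h hsc, fun h => absurd h hi⟩
  choose c₁ d₁ hcd₁ hcd₂ using hex
  obtain ⟨x', c', d', D', q', e, hx', hcd', hD', hq', he⟩ := h x c₁ d₁ (fun i a => q i a) hx
    hcd₁ hq
  have hDD : ∀ i, D' i = D i := fun i => Units.ext ((hD' i).trans (hD i).symm)
  have hqq : ∀ i, ∀ a ∈ (M i).lowIndices, q' i a = q i a := fun i a ha => Units.ext (hq' i a ha)
  have hfin : cls E x' = cls E (∏ i, fac M c d D q (fun i => if NoMid (σ i) then A' i else K i)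
      (fun i => if NoMid (σ i) then B' i else K i) S' i) := by
    rw [he, map_mul, cls_eq_of_val E (u := Units.map (algebraMap E R).toMonoidHom e) (v := 1) e
      (by simp), map_one, one_mul, map_prod, map_prod]
    apply Finset.prod_congr rfl
    intro i _
    unfold fac
    beta_reduce
    by_cases hi : NoMid (σ i)
    · have hi' : (σ i).m = 0 ∧ (σ i).r = 0 := hi
      have e1 : c' i = c i := Units.ext ((hcd' i (Or.inl hi'.1)).1.trans (hcd₂ i hi).1)
      have e2 : d' i = d i := Units.ext ((hcd' i (Or.inl hi'.1)).2.trans (hcd₂ i hi).2)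
      rw [if_pos (Or.inl hi'.1), if_pos hi', if_pos hi, if_pos hi, e1, e2]
      congr 2
      apply Finset.prod_congr rfl
      intro a ha
      rw [hqq i a ha]
    · have hi' : ¬ ((σ i).m = 0 ∧ (σ i).r = 0) := hi
      rw [if_neg hi', if_neg hi]
      by_cases hsc : (σ i).m = 0 ∨ (σ i).r = 0
      · rw [if_pos hsc]
        have h1 := det_relation (E := E) (M i) hsc (c' i) (d' i) (D i) (q i)
          (by rw [(hcd' i hsc).1]; exact (hcd₁ i hsc).1)
          (by rw [(hcd' i hsc).2]; exact (hcd₁ i hsc).2) (hD i) (hq i)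
        have h2 : c' i ^ A' i = c' i ^ K i := by
          by_cases hj : ∃ j, (σ i).sgn j = 1
          · obtain ⟨j, hj⟩ := hj
            rw [hA i j hj, hK i hi j]
          · have : c' i = 1 := by
              apply Units.ext
              rw [(hcd' i hsc).1]
              have h3 := (hcd₁ i hsc).1
              rw [← Int.cast_one (R := E)] at h3
              exact period_empty (M i) 1 (fun j hj' => hj ⟨j, hj'⟩) h3
            rw [this, _root_.one_zpow, _root_.one_zpow]
        have h3 : d' i ^ B' i = d' i ^ K i := by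
          by_cases hj : ∃ j, (σ i).sgn j = -1
          · obtain ⟨j, hj⟩ := hj
            rw [hB i j hj, hK i hi j]
          · have : d' i = 1 := by
              apply Units.ext
              rw [(hcd' i hsc).2]
              have h3 := (hcd₁ i hsc).2
              rw [← Int.cast_one (R := E), ← Int.cast_neg] at h3
              exact period_empty (M i) (-1) (fun j hj' => hj ⟨j, hj'⟩) h3
            rw [this, _root_.one_zpow, _root_.one_zpow]
        have h4 : ∏ a ∈ (M i).lowIndices, q' i a ^ (S' i a - A' i - B' i) =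
            ∏ a ∈ (M i).lowIndices, q i a ^ (S' i a - K i - K i) := by
          apply Finset.prod_congr rfl
          intro a ha
          rw [hqq i a ha]
          obtain ⟨x₀, -, -⟩ := Finset.mem_image.mp ha
          rw [hA i (Sum.inl (Sum.inl x₀)) rfl, hB i (Sum.inl (Sum.inr x₀)) rfl, hK i hi, hK i hi]
        rw [h2, h3, h4, ← mul_zpow, map_mul, map_zpow, h1, ← map_zpow, ← map_mul]
        congr 1
        rw [mul_zpow, mul_assoc, ← Finset.prod_zpow, ← Finset.prod_mul_distrib]
        congr 1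
        apply Finset.prod_congr rfl
        intro a _
        rw [← _root_.zpow_add]
        congr 1
        ring
      · rw [if_neg hsc]
        push Not at hsc
        have h1 : A' i = K i := by
          rw [hA i (Sum.inr (Sum.inl ⟨0, Nat.pos_of_ne_zero hsc.1⟩)) rfl, hK i hi]
        rw [h1, hDD]
        congr 2
        apply Finset.prod_congr rfl
        intro a ha
        rw [hqq i a ha]
  obtain ⟨e', he'⟩ := exists_of_cls_eq E hfin
  exact ⟨e', by rw [← hx', he']; rfl⟩

end Pool.Agent.MP100fe7K
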