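import Pool.Agent.Lib.MP_100fe7_nt.TDefs

/-!
Realisation: the invariants of a motive (Deligne periods, determinant, Hodge periods) take arbitrary
independent values. The datum is the sum of planes spanned by `v = α e⁺ + β e⁻` and
`F_∞ v = α e⁺ - β e⁻`, and of lines.
-/

namespace Pool.Agent.MP100fe7Cv

open Matrix MP100fe7T

namespace Real

section coord

variable {I : Type} [Fintype I] [DecidableEq I] {R : Type} [CommRing R] (f : I → ℤ)

/-- the vectors supported on the indices `j` with `f j` in `s` -/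
def coord (s : Set ℤ) : Submodule R (I → R) where
  carrier := {x | ∀ j, f j ∉ s → x j = 0}
  add_mem' := by
    intro x y hx hy j hj
    rw [Pi.add_apply, hx j hj, hy j hj, add_zero]
  zero_mem' := fun _ _ => rfl
  smul_mem' := by
    intro c x hx j hj
    rw [Pi.smul_apply, hx j hj, smul_zero]

theorem mem_coord {s : Set ℤ} {x : I → R} : x ∈ coord (R := R) f s ↔ ∀ j, f j ∉ s → x j = 0 :=
  Iff.rfl

theorem single_mem {s : Set ℤ} {j : I} (h : f j ∈ s) (c : R) :
    Pi.single j c ∈ coord (R := R) f s := by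
  intro k hk
  rw [Pi.single_apply, if_neg]
  rintro rfl
  exact hk h

theorem sup_coord (s : Set ℤ) :
    (⨆ b, ⨆ (_ : b ∈ s), coord (R := R) f {b}) = coord f s := by
  apply le_antisymm
  · apply iSup_le
    intro b
    apply iSup_le
    intro hb x hx j hj
    apply hx j
    rintro (rfl : f j = b)
    exact hj hb
  · intro x hx
    rw [← Finset.univ_sum_single x]
    apply Submodule.sum_mem
    intro j _
    by_cases hj : f j ∈ s
    · refine Submodule.mem_iSup_of_mem (f j) (Submodule.mem_iSup_of_mem hj ?_)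
      exact single_mem (R := R) f (s := {f j}) rfl _
    · rw [hx j hj, Pi.single_zero]
      exact Submodule.zero_mem _

theorem internal_coord : DirectSum.IsInternal fun a : ℤ => coord (R := R) f {a} := by
  rw [DirectSum.isInternal_submodule_iff_iSupIndep_and_iSup_eq_top]
  constructor
  · intro a
    rw [disjoint_iff_inf_le]
    intro x hx
    obtain ⟨h1, h2⟩ := hx
    have h3 : x ∈ coord (R := R) f {b | b ≠ a} := by
      rw [← sup_coord]
      exact h2
    rw [Submodule.mem_bot]
    funext j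
    by_cases hj : f j = a
    · exact h3 j fun h => h hj
    · exact h1 j hj
  · have h1 := sup_coord (R := R) f Set.univ
    have h2 : coord (R := R) f Set.univ = ⊤ := by
      rw [eq_top_iff]
      intro x _ j hj
      exact absurd (Set.mem_univ _) hj
    rw [← h2, ← h1]
    simp

end coord

section datum

variable {R : Type} [CommRing R] {τ : Shape}

/-- the columns are the vectors of the Hodge decomposition -/
def matP (α β : Fin τ.n → Rˣ) : Matrix τ.Idx τ.Idx R :=
  fromBlocks (fromBlocks (diagonal fun j => (α j : R)) (diagonal fun j => (α j : R))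
    (diagonal fun j => (β j : R)) (diagonal fun j => -(β j : R))) 0 0 1

/-- the inverse of `matP`, `h` is the inverse of `2` -/
def matQ (h : R) (α β : Fin τ.n → Rˣ) : Matrix τ.Idx τ.Idx R :=
  fromBlocks (fromBlocks (diagonal fun j => h * ((α j)⁻¹ : Rˣ)) (diagonal fun j => h * ((β j)⁻¹ : Rˣ))
    (diagonal fun j => h * ((α j)⁻¹ : Rˣ)) (diagonal fun j => -(h * ((β j)⁻¹ : Rˣ)))) 0 0 1

theorem P_mul_Q {h : R} (hh : h * 2 = 1) (α β : Fin τ.n → Rˣ) : matP α β * matQ h α β = 1 := by
  unfold matP matQ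
  rw [fromBlocks_multiply, fromBlocks_multiply]
  simp only [diagonal_mul_diagonal, diagonal_add, Matrix.zero_mul, Matrix.mul_zero, add_zero,
    Matrix.mul_one, zero_add]
  have h1 : ∀ u : Rˣ, (u : R) * (h * ((u⁻¹ : Rˣ) : R)) = h := by
    intro u
    rw [mul_left_comm, Units.mul_inv, mul_one]
  have h2 : h + h = 1 := by
    rw [← hh]
    ring
  have e1 : (diagonal fun j => (α j : R) * (h * ((α j)⁻¹ : Rˣ)) + (α j : R) * (h * ((α j)⁻¹ : Rˣ))) =
      (1 : Matrix (Fin τ.n) (Fin τ.n) R) := by
    rw [← diagonal_one]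
    congr 1
    funext j
    rw [h1, h2]
  have e2 : (diagonal fun j => (α j : R) * (h * ((β j)⁻¹ : Rˣ)) +
      (α j : R) * (-(h * ((β j)⁻¹ : Rˣ)))) = (0 : Matrix (Fin τ.n) (Fin τ.n) R) := by
    rw [← diagonal_zero]
    congr 1
    funext j
    ring
  have e3 : (diagonal fun j => (β j : R) * (h * ((α j)⁻¹ : Rˣ)) +
      (-(β j : R)) * (h * ((α j)⁻¹ : Rˣ))) = (0 : Matrix (Fin τ.n) (Fin τ.n) R) := by
    rw [← diagonal_zero]
    congr 1
    funext j
    ring
  have e4 : (diagonal fun j => (β j : R) * (h * ((β j)⁻¹ : Rˣ)) +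
      (-(β j : R)) * (-(h * ((β j)⁻¹ : Rˣ)))) = (1 : Matrix (Fin τ.n) (Fin τ.n) R) := by
    rw [← diagonal_one]
    congr 1
    funext j
    rw [neg_mul_neg, h1, h2]
  rw [e1, e2, e3, e4, fromBlocks_one, fromBlocks_one]

theorem Q_mul_P {h : R} (hh : h * 2 = 1) (α β : Fin τ.n → Rˣ) : matQ h α β * matP α β = 1 :=
  mul_eq_one_comm.1 (P_mul_Q hh α β)

/-- the diagonal of the graded comparison -/
def dg (q : Fin τ.n → Rˣ) (g : Fin τ.m ⊕ Fin τ.r → Rˣ) : τ.Idx → Rˣ :=
  Sum.elim (Sum.elim (fun _ => 1) q) g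

/-- the comparison matrix -/
def matC (h : R) (α β q : Fin τ.n → Rˣ) (g : Fin τ.m ⊕ Fin τ.r → Rˣ) : Matrix τ.Idx τ.Idx R :=
  (diagonal fun j => (dg q g j : R)) * matQ h α β

/-- `F_∞` in the basis of the columns of `matP` -/
def swp (τ : Shape) (x : τ.Idx → R) : τ.Idx → R :=
  Sum.elim (Sum.elim (fun j => x (Sum.inl (Sum.inr j))) (fun j => x (Sum.inl (Sum.inl j))))
    (fun k => ((τ.sgn (Sum.inr k) : ℤ) : R) * x (Sum.inr k))

theorem P_mulVec_inl_inl (α β : Fin τ.n → Rˣ) (x : τ.Idx → R) (j : Fin τ.n) :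
    (matP α β).mulVec x (Sum.inl (Sum.inl j)) =
      α j * x (Sum.inl (Sum.inl j)) + α j * x (Sum.inl (Sum.inr j)) := by
  simp [matP, Matrix.mulVec, dotProduct, diagonal_apply]

theorem P_mulVec_inl_inr (α β : Fin τ.n → Rˣ) (x : τ.Idx → R) (j : Fin τ.n) :
    (matP α β).mulVec x (Sum.inl (Sum.inr j)) =
      β j * x (Sum.inl (Sum.inl j)) - β j * x (Sum.inl (Sum.inr j)) := by
  simp [matP, Matrix.mulVec, dotProduct, diagonal_apply, sub_eq_add_neg]

theorem P_mulVec_inr (α β : Fin τ.n → Rˣ) (x : τ.Idx → R) (k : Fin τ.m ⊕ Fin τ.r) :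
    (matP α β).mulVec x (Sum.inr k) = x (Sum.inr k) := by
  simp [matP, Matrix.mulVec, dotProduct, Matrix.one_apply]

theorem frob_P (α β : Fin τ.n → Rˣ) (x : τ.Idx → R) :
    (frob R τ).mulVec ((matP α β).mulVec x) = (matP α β).mulVec (swp τ x) := by
  funext i
  unfold frob
  rw [Matrix.mulVec_diagonal]
  rcases i with (j | j) | k
  · rw [P_mulVec_inl_inl, P_mulVec_inl_inl]
    simp [Shape.sgn, swp]
    ring
  · rw [P_mulVec_inl_inr, P_mulVec_inl_inr]
    simp [Shape.sgn, swp]
  · rw [P_mulVec_inr, P_mulVec_inr]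
    simp [swp]

theorem swp_swp (x : τ.Idx → R) : swp τ (swp τ x) = x := by
  funext i
  rcases i with (j | j) | k
  · rfl
  · rfl
  · rcases k with k | k <;> simp [swp, Shape.sgn]

theorem C_mul_P {h : R} (hh : h * 2 = 1) (α β q : Fin τ.n → Rˣ) (g : Fin τ.m ⊕ Fin τ.r → Rˣ) :
    matC h α β q g * matP α β = diagonal fun j => (dg q g j : R) := by
  unfold matC
  rw [Matrix.mul_assoc, Q_mul_P hh, Matrix.mul_one]

theorem C_mulVec_P {h : R} (hh : h * 2 = 1) (α β q : Fin τ.n → Rˣ) (g : Fin τ.m ⊕ Fin τ.r → Rˣ)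
    (x : τ.Idx → R) (j : τ.Idx) :
    (matC h α β q g).mulVec ((matP α β).mulVec x) j = (dg q g j : R) * x j := by
  rw [Matrix.mulVec_mulVec, C_mul_P hh, Matrix.mulVec_diagonal]

/-- the isomorphism given by `matP` -/
noncomputable def eP {h : R} (hh : h * 2 = 1) (α β : Fin τ.n → Rˣ) : (τ.Idx → R) ≃ₗ[R] (τ.Idx → R) :=
  LinearEquiv.ofLinearMap (matP α β).mulVecLin (matQ h α β).mulVecLin
    (by
      rw [← Matrix.mulVecLin_mul, P_mul_Q hh, Matrix.mulVecLin_one])
    (by
      rw [← Matrix.mulVecLin_mul, Q_mul_P hh, Matrix.mulVecLin_one])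

theorem swp_mem {w : ℤ} {p : Fin τ.n → ℤ} (even_w : ∀ _ : Fin τ.m ⊕ Fin τ.r, Even w) {a : ℤ}
    {x : τ.Idx → R} (hx : x ∈ coord (R := R) (hodgeIndex (σ := τ) w p) {a}) :
    swp τ x ∈ coord (R := R) (hodgeIndex (σ := τ) w p) {w - a} := by
  intro j hj
  rcases j with (j | j) | k
  · refine hx _ fun h => hj ?_
    change w - p j = a at h
    change p j = w - a
    omega
  · refine hx _ fun h => hj ?_
    change p j = a at h
    change w - p j = w - a
    omega
  · have h1 : x (Sum.inr k) = 0 := by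
      refine hx _ fun h => hj ?_
      obtain ⟨c, hc⟩ := even_w k
      change w / 2 = a at h
      change w / 2 = w - a
      omega
    change _ * x (Sum.inr k) = 0
    rw [h1, mul_zero]

/-- The realisation. -/
noncomputable def datum (w : ℤ) (p : Fin τ.n → ℤ) (two_p : ∀ j, w < 2 * p j)
    (even_w : ∀ _ : Fin τ.m ⊕ Fin τ.r, Even w) (h : Rˣ) (hh : (h : R) * 2 = 1)
    (α β q : Fin τ.n → Rˣ) (g : Fin τ.m ⊕ Fin τ.r → Rˣ) : Datum R τ w where
  p := p
  two_p := two_p
  even_w := even_w
  comp := matC h α β q g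
  comp_unit := by
    have h1 := congrArg Matrix.det (C_mul_P hh α β q g)
    rw [Matrix.det_mul, Matrix.det_diagonal] at h1
    have h2 : IsUnit ((matC (h : R) α β q g).det * (matP α β).det) := by
      rw [h1, ← Units.coe_prod]
      exact Units.isUnit _
    exact isUnit_of_mul_isUnit_left h2
  hodge a := (coord (R := R) (hodgeIndex (σ := τ) w p) {a}).map (matP α β).mulVecLin
  internal := by
    rw [DirectSum.isInternal_submodule_iff_iSupIndep_and_iSup_eq_top]
    have h0 := internal_coord (R := R) (hodgeIndex (σ := τ) w p)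
    rw [DirectSum.isInternal_submodule_iff_iSupIndep_and_iSup_eq_top] at h0
    constructor
    · exact (iSupIndep_map_orderIso_iff (Submodule.orderIsoMapComap (eP hh α β))).2 h0.1
    · rw [← Submodule.map_iSup, h0.2, Submodule.map_top]
      exact LinearEquiv.range (eP hh α β)
  frob_hodge a := by
    ext y
    simp only [Submodule.mem_map, Matrix.mulVecLin_apply]
    constructor
    · rintro ⟨_, ⟨x, hx, rfl⟩, rfl⟩
      exact ⟨swp τ x, swp_mem even_w hx, (frob_P α β x).symm⟩
    · rintro ⟨x, hx, rfl⟩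
      refine ⟨_, ⟨swp τ x, ?_, rfl⟩, ?_⟩
      · have h1 := swp_mem even_w hx
        rwa [sub_sub_cancel] at h1
      · rw [frob_P, swp_swp]
  middle a ha := by
    refine ⟨fun k => (matP α β).mulVec (Pi.single (Sum.inr k) 1), ?_, ?_⟩
    · intro k
      rw [frob_P, ← Matrix.mulVec_smul]
      congr 1
      funext j
      rw [Pi.smul_apply, smul_eq_mul]
      rcases j with (j | j) | k'
      · change Pi.single (M := fun _ : τ.Idx => R) (Sum.inr k) 1 (Sum.inl (Sum.inr j)) = _
        rw [Pi.single_apply, Pi.single_apply, if_neg Sum.inl_ne_inr, if_neg Sum.inl_ne_inr, mul_zero]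
      · change Pi.single (M := fun _ : τ.Idx => R) (Sum.inr k) 1 (Sum.inl (Sum.inl j)) = _
        rw [Pi.single_apply, Pi.single_apply, if_neg Sum.inl_ne_inr, if_neg Sum.inl_ne_inr, mul_zero]
      · change ((τ.sgn (Sum.inr k') : ℤ) : R) * Pi.single (M := fun _ : τ.Idx => R) (Sum.inr k) 1
          (Sum.inr k') = _
        by_cases hk : k' = k
        · rw [hk]
        · have h1 : (Sum.inr k' : τ.Idx) ≠ Sum.inr k := fun h => hk (Sum.inr_injective h)
          rw [Pi.single_apply, if_neg h1, mul_zero, mul_zero]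
    · apply le_antisymm
      · rw [Submodule.span_le]
        rintro _ ⟨k, rfl⟩
        refine ⟨Pi.single (Sum.inr k) 1, ?_, rfl⟩
        refine single_mem (R := R) (hodgeIndex (σ := τ) w p) (s := {a}) ?_ _
        change w / 2 = a
        omega
      · rintro _ ⟨x, hx, rfl⟩
        have h1 : x = ∑ k : Fin τ.m ⊕ Fin τ.r, x (Sum.inr k) • Pi.single (Sum.inr k : τ.Idx) (1 : R) := by
          funext j
          rw [Finset.sum_apply]
          rcases j with j | k
          · have h2 : x (Sum.inl j) = 0 := by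
              refine hx _ fun h => ?_
              rcases j with j | j
              · change p j = a at h
                have := two_p j
                omega
              · change w - p j = a at h
                have := two_p j
                omega
            rw [h2]
            symm
            apply Finset.sum_eq_zero
            intro k _
            rw [Pi.smul_apply, Pi.single_apply, if_neg Sum.inl_ne_inr, smul_zero]
          · rw [Finset.sum_eq_single k]
            · rw [Pi.smul_apply, Pi.single_eq_same, smul_eq_mul, mul_one]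
            · intro k' _ hk
              have h3 : (Sum.inr k : τ.Idx) ≠ Sum.inr k' := fun h => hk (Sum.inr_injective h).symm
              rw [Pi.smul_apply, Pi.single_apply, if_neg h3, smul_zero]
            · intro h
              exact absurd (Finset.mem_univ _) h
        rw [h1, map_sum]
        apply Submodule.sum_mem
        intro k _
        rw [map_smul]
        exact Submodule.smul_mem _ _ (Submodule.subset_span ⟨k, rfl⟩)
  fil_hodge a y := by
    have h1 : (⨆ b, ⨆ (_ : a ≤ b), (coord (R := R) (hodgeIndex (σ := τ) w p) {b}).map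
        (matP α β).mulVecLin) = (coord (R := R) (hodgeIndex (σ := τ) w p) (Set.Ici a)).map
        (matP α β).mulVecLin := by
      rw [← sup_coord]
      simp only [Submodule.map_iSup, Set.mem_Ici]
    rw [h1]
    constructor
    · rintro ⟨_, ⟨x, hx, rfl⟩, rfl⟩ j hj
      rw [Matrix.mulVecLin_apply, Matrix.mulVecLin_apply, C_mulVec_P hh,
        hx j (by rw [Set.mem_Ici]; exact not_le.2 hj), mul_zero]
    · intro hy
      refine ⟨_, ⟨fun j => (((dg q g j)⁻¹ : Rˣ) : R) * y j, ?_, rfl⟩, ?_⟩
      · intro j hj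
        rw [Set.mem_Ici, not_le] at hj
        change _ * y j = 0
        rw [hy j hj, mul_zero]
      · funext j
        rw [Matrix.mulVecLin_apply, Matrix.mulVecLin_apply, C_mulVec_P hh, ← mul_assoc,
          Units.mul_inv, one_mul]

end datum


section values

variable {E R : Type} [Field E] [CommRing R] [Algebra E R] {τ : Shape}

/-- The Hodge periods of the realisation. -/
theorem isHodgePeriod_datum (w : ℤ) (p : Fin τ.n → ℤ) (two_p : ∀ j, w < 2 * p j)
    (even_w : ∀ _ : Fin τ.m ⊕ Fin τ.r, Even w) (h : Rˣ) (hh : (h : R) * 2 = 1)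
    (α β q : Fin τ.n → Rˣ) (g : Fin τ.m ⊕ Fin τ.r → Rˣ) (a : ℤ) :
    (datum w p two_p even_w h hh α β q g).IsHodgePeriod a
      (∏ i : {i : Fin τ.n // w - p i = a}, (q i.1 : R)) := by
  refine ⟨fun i => (matP α β).mulVec (Pi.single (Sum.inl (Sum.inl i.1)) 1), ?_, ?_, ?_⟩
  · intro i
    refine ⟨Pi.single (Sum.inl (Sum.inl i.1)) 1, ?_, rfl⟩
    refine single_mem (R := R) (hodgeIndex (σ := τ) w p) (s := {w - a}) ?_ _
    have h1 := i.2
    change p i.1 = w - a
    change w - p i.1 = a at h1
    omega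
  · intro i j _
    change (matC (h : R) α β q g).mulVec _ j = _
    rw [C_mulVec_P hh, Pi.single_apply]
    by_cases hj : j = Sum.inl (Sum.inl i.1)
    · rw [if_pos hj, mul_one, hj]
      rfl
    · rw [if_neg hj, mul_zero]
  · have h1 : (Matrix.of fun i j : (datum w p two_p even_w h hh α β q g).Block a =>
        (datum w p two_p even_w h hh α β q g).comp.mulVec ((frob R τ).mulVec
          ((matP α β).mulVec (Pi.single (Sum.inl (Sum.inl j.1)) 1))) (Sum.inl (Sum.inr i.1))) =
        diagonal fun i => (q i.1 : R) := by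
      ext i j
      rw [Matrix.of_apply, frob_P]
      change (matC (h : R) α β q g).mulVec _ _ = _
      rw [C_mulVec_P hh]
      change (q i.1 : R) * Pi.single (M := fun _ : τ.Idx => R) (Sum.inl (Sum.inl j.1)) 1
        (Sum.inl (Sum.inl i.1)) = _
      by_cases hij : i = j
      · rw [hij, Pi.single_eq_same, mul_one, diagonal_apply_eq]
      · have h2 : (Sum.inl (Sum.inl i.1) : τ.Idx) ≠ Sum.inl (Sum.inl j.1) := by
          intro h3
          exact hij (Subtype.ext (Sum.inl_injective (Sum.inl_injective h3)))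
        rw [Pi.single_apply, if_neg h2, mul_zero, diagonal_apply_ne _ hij]
    rw [h1, det_diagonal]
    rfl

/-- A Deligne period of a motive without middle part. -/
theorem isPeriod_aux [CharZero E] {w : ℤ} (M : Datum R τ w) (hmid : IsEmpty (Fin τ.m ⊕ Fin τ.r))
    (e e' : Fin τ.n → τ.Idx) (he : Function.Injective e) (hc : ∀ i, (∃ j, i = e j) ∨ ∃ j, i = e' j)
    (ε : E) (hε : ε ≠ 0) (h1 : ∀ j, ((τ.sgn (e j) : ℤ) : E) = ε)
    (h2 : ∀ j, ((τ.sgn (e' j) : ℤ) : E) = -ε) :
    M.IsPeriod ε (M.comp.submatrix (fun i => Sum.inl (Sum.inr i)) e).det := by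
  have hd : ∀ i j, e i ≠ e' j := by
    intro i j h3
    have h4 := h1 i
    rw [h3, h2 j] at h4
    exact hε (self_eq_neg.1 h4.symm)
  refine ⟨(w + 1) / 2, τ.n, Matrix.of fun i j => if i = e j then 1 else 0,
    Matrix.of fun i j => if j = Sum.inl (Sum.inr i) then 1 else 0, ?_, ?_, ?_, ?_, ?_⟩
  · intro c c' hcc
    funext j
    have h3 := congrFun hcc (e j)
    simpa [Matrix.mulVec, dotProduct, he.eq_iff] using h3
  · intro v
    have hA : ∀ c : Fin τ.n → E, (∀ j, (Matrix.of fun (i : τ.Idx) j => if i = e j then (1 : E) else 0).mulVec c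
        (e j) = c j) ∧ ∀ j, (Matrix.of fun (i : τ.Idx) j => if i = e j then (1 : E) else 0).mulVec c
        (e' j) = 0 := by
      intro c
      constructor
      · intro j
        simp [Matrix.mulVec, dotProduct, he.eq_iff]
      · intro j
        simp only [Matrix.mulVec, dotProduct, Matrix.of_apply]
        apply Finset.sum_eq_zero
        intro k _
        rw [if_neg fun h => hd k j h.symm, zero_mul]
    constructor
    · rintro ⟨c, rfl⟩
      funext i
      unfold frob
      rw [Matrix.mulVec_diagonal, Pi.smul_apply, smul_eq_mul]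
      rcases hc i with ⟨j, rfl⟩ | ⟨j, rfl⟩
      · rw [h1]
      · rw [(hA c).2 j, mul_zero, mul_zero]
    · intro hv
      refine ⟨fun j => v (e j), ?_⟩
      funext i
      rcases hc i with ⟨j, rfl⟩ | ⟨j, rfl⟩
      · rw [(hA _).1 j]
      · rw [(hA _).2 j]
        have h3 := congrFun hv (e' j)
        unfold frob at h3
        rw [Matrix.mulVec_diagonal, Pi.smul_apply, smul_eq_mul, h2] at h3
        have h4 : (2 * ε) * v (e' j) = 0 := by linear_combination -h3
        have h5 : (2 * ε) ≠ 0 := mul_ne_zero two_ne_zero hε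
        exact ((mul_eq_zero.1 h4).resolve_left h5).symm
  · intro c
    refine ⟨Sum.elim (Sum.elim 0 c) 0, ?_⟩
    funext i
    simp [Matrix.mulVec, dotProduct]
  · intro v
    have hB : ∀ i, (Matrix.of fun (i : Fin τ.n) (j : τ.Idx) => if j = Sum.inl (Sum.inr i) then (1 : E)
        else 0).mulVec v i = v (Sum.inl (Sum.inr i)) := by
      intro i
      simp [Matrix.mulVec, dotProduct]
    constructor
    · intro hv j hj
      rcases j with (j | j) | k
      · change M.p j < _ at hj
        have := M.two_p j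
        omega
      · rw [← hB, hv]
        rfl
      · exact (hmid.false k).elim
    · intro hv
      funext i
      rw [hB]
      refine hv _ ?_
      change w - M.p i < _
      have := M.two_p i
      omega
  · congr 1
    ext i j
    rw [Matrix.mul_apply]
    simp only [Matrix.map_apply, Matrix.of_apply, Matrix.submatrix_apply]
    rw [Finset.sum_eq_single (e j)]
    · rw [if_pos rfl, map_one, mul_one, Matrix.mul_apply, Finset.sum_eq_single (Sum.inl (Sum.inr i))]
      · simp
      · intro k _ hk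
        simp [hk]
      · intro h3
        exact absurd (Finset.mem_univ _) h3
    · intro k _ hk
      rw [if_neg hk, map_zero, mul_zero]
    · intro h3
      exact absurd (Finset.mem_univ _) h3

/-- The entries of the comparison matrix in the second half. -/
theorem C_left {h : R} (α β q : Fin τ.n → Rˣ) (g : Fin τ.m ⊕ Fin τ.r → Rˣ) :
    (matC h α β q g).submatrix (fun i => Sum.inl (Sum.inr i)) (fun i => Sum.inl (Sum.inl i)) =
      diagonal fun j => (q j : R) * (h * ((α j)⁻¹ : Rˣ)) := by
  ext i j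
  rw [Matrix.submatrix_apply]
  unfold matC
  rw [Matrix.diagonal_mul]
  change (q i : R) * (diagonal fun j => h * (((α j)⁻¹ : Rˣ) : R)) i j = _
  by_cases hij : i = j
  · rw [hij, diagonal_apply_eq, diagonal_apply_eq]
  · rw [diagonal_apply_ne _ hij, diagonal_apply_ne _ hij, mul_zero]

theorem C_right {h : R} (α β q : Fin τ.n → Rˣ) (g : Fin τ.m ⊕ Fin τ.r → Rˣ) :
    (matC h α β q g).submatrix (fun i => Sum.inl (Sum.inr i)) (fun i => Sum.inl (Sum.inr i)) =
      diagonal fun j => (q j : R) * -(h * ((β j)⁻¹ : Rˣ)) := by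
  ext i j
  rw [Matrix.submatrix_apply]
  unfold matC
  rw [Matrix.diagonal_mul]
  change (q i : R) * (diagonal fun j => -(h * (((β j)⁻¹ : Rˣ) : R))) i j = _
  by_cases hij : i = j
  · rw [hij, diagonal_apply_eq, diagonal_apply_eq]
  · rw [diagonal_apply_ne _ hij, diagonal_apply_ne _ hij, mul_zero]

/-- One half. -/
theorem exists_half (E R : Type) [Field E] [CharZero E] [CommRing R] [Algebra E R] :
    ∃ h : Rˣ, (h : R) * 2 = 1 := by
  refine ⟨Units.map (algebraMap E R : E →* R) (Units.mk0 (2⁻¹ : E) (inv_ne_zero two_ne_zero)), ?_⟩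
  change algebraMap E R (2⁻¹ : E) * 2 = 1
  rw [← map_ofNat (algebraMap E R) 2, ← map_mul, inv_mul_cancel₀ two_ne_zero, map_one]

/-- Units with given products over the blocks. -/
theorem exists_blocks {n : ℕ} (f : Fin n → ℤ) (z : ℤ → Rˣ) :
    ∃ q : Fin n → Rˣ, ∀ j, ∏ i : {i : Fin n // f i = f j}, (q i.1 : R) = z (f j) := by
  classical
  have hex : ∀ i, ∃ k, f k = f i := fun i => ⟨i, rfl⟩
  have hch : ∀ a, (∃ k, f k = a) → ∃ k, f k = a ∧ ∀ i, f i = a → (hex i).choose = k := by
    rintro a ⟨k, rfl⟩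
    refine ⟨(hex k).choose, (hex k).choose_spec, fun i hi => ?_⟩
    congr 1
    rw [hi]
  refine ⟨fun i => if i = (hex i).choose then z (f i) else 1, fun j => ?_⟩
  obtain ⟨k, hk, hk'⟩ := hch (f j) ⟨j, rfl⟩
  rw [Finset.prod_eq_single ⟨k, hk⟩]
  · change ((if k = (hex k).choose then z (f k) else 1 : Rˣ) : R) = _
    rw [if_pos (hk' k hk).symm, hk]
  · rintro ⟨i, hi⟩ _ hik
    change ((if i = (hex i).choose then z (f i) else 1 : Rˣ) : R) = _
    rw [if_neg, Units.val_one]
    intro h1
    rw [hk' i hi] at h1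
    exact hik (Subtype.ext h1)
  · intro h1
    exact absurd (Finset.mem_univ _) h1

/-- A product with one free factor. -/
theorem prod_update {n : ℕ} (hn : 0 < n) (x : Rˣ) :
    ∏ j : Fin n, (if j = ⟨0, hn⟩ then (x : R) else 1) = x := by
  rw [Finset.prod_ite_eq' Finset.univ (⟨0, hn⟩ : Fin n) fun _ => (x : R),
    if_pos (Finset.mem_univ _)]

/-- **Realisation without middle classes**: the two Deligne periods and the Hodge periods of a
motive with given Hodge indices can be any units. -/
theorem exists_datum_ends (E : Type) [Field E] [CharZero E] [Algebra E R] {w : ℤ}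
    (p : Fin τ.n → ℤ) (two_p : ∀ j, w < 2 * p j) (hmid : τ.m + τ.r = 0) (hn : 0 < τ.n)
    (x y : Rˣ) (z : ℤ → Rˣ) :
    ∃ M : Datum R τ w, M.p = p ∧ M.IsPeriod (1 : E) (x : R) ∧ M.IsPeriod (-1 : E) (y : R) ∧
      ∀ a ∈ M.lowIndices, M.IsHodgePeriod a (z a : R) := by
  obtain ⟨h, hh⟩ := exists_half E R
  obtain ⟨q, hq⟩ := exists_blocks (R := R) (fun i => w - p i) z
  have he : IsEmpty (Fin τ.m ⊕ Fin τ.r) := by
    refine ⟨fun k => ?_⟩
    rcases k with k | k
    · have := k.2
      omega
    · have := k.2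
      omega
  let α : Fin τ.n → Rˣ := fun j => q j * h * (if j = ⟨0, hn⟩ then x⁻¹ else 1)
  let β : Fin τ.n → Rˣ := fun j => -(q j * h * (if j = ⟨0, hn⟩ then y⁻¹ else 1))
  have hα : ∀ j, (q j : R) * (h * ((α j)⁻¹ : Rˣ)) = if j = ⟨0, hn⟩ then (x : R) else 1 := by
    intro j
    have h1 : q j * (h * (α j)⁻¹) = if j = ⟨0, hn⟩ then x else 1 := by
      change q j * (h * (q j * h * (if j = ⟨0, hn⟩ then x⁻¹ else 1))⁻¹) = _
      split_ifs
      · rw [mul_inv, inv_inv, ← mul_assoc, ← mul_assoc, mul_inv_cancel, one_mul]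
      · rw [mul_one, ← mul_assoc, mul_inv_cancel]
    rw [← Units.val_mul, ← Units.val_mul, h1]
    split_ifs <;> rfl
  have hβ : ∀ j, (q j : R) * -(h * ((β j)⁻¹ : Rˣ)) = if j = ⟨0, hn⟩ then (y : R) else 1 := by
    intro j
    have h1 : q j * (h * (-(β j))⁻¹) = if j = ⟨0, hn⟩ then y else 1 := by
      change q j * (h * (- -(q j * h * (if j = ⟨0, hn⟩ then y⁻¹ else 1)))⁻¹) = _
      rw [neg_neg]
      split_ifs
      · rw [mul_inv, inv_inv, ← mul_assoc, ← mul_assoc, mul_inv_cancel, one_mul]
      · rw [mul_one, ← mul_assoc, mul_inv_cancel]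
    have h2 : -((h : R) * ((β j)⁻¹ : Rˣ)) = (h : R) * (((-(β j))⁻¹ : Rˣ) : R) := by
      have h3 : (-(β j))⁻¹ = -(β j)⁻¹ := inv_neg
      rw [h3, Units.val_neg, mul_neg]
    rw [h2, ← Units.val_mul, ← Units.val_mul, h1]
    split_ifs <;> rfl
  refine ⟨datum w p two_p (fun k => (he.false k).elim) h hh α β q 1, rfl, ?_, ?_, ?_⟩
  · have h1 := isPeriod_aux (E := E) (datum w p two_p (fun k => (he.false k).elim) h hh α β q 1) he
      (fun i => Sum.inl (Sum.inl i)) (fun i => Sum.inl (Sum.inr i))
      (fun i j hij => Sum.inl_injective (Sum.inl_injective hij)) (fun i => ?_) 1 one_ne_zero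
      (fun j => by simp [Shape.sgn]) (fun j => by simp [Shape.sgn])
    · have h2 : (datum w p two_p (fun k => (he.false k).elim) h hh α β q 1).comp.submatrix
          (fun i => Sum.inl (Sum.inr i)) (fun i => Sum.inl (Sum.inl i)) =
          diagonal fun j => if j = ⟨0, hn⟩ then (x : R) else 1 := by
        rw [← funext hα]
        exact C_left α β q 1
      rw [h2, det_diagonal, prod_update] at h1
      exact h1
    · rcases i with (i | i) | k
      · exact Or.inl ⟨i, rfl⟩
      · exact Or.inr ⟨i, rfl⟩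
      · exact (he.false k).elim
  · have h1 := isPeriod_aux (E := E) (datum w p two_p (fun k => (he.false k).elim) h hh α β q 1) he
      (fun i => Sum.inl (Sum.inr i)) (fun i => Sum.inl (Sum.inl i))
      (fun i j hij => Sum.inr_injective (Sum.inl_injective hij)) (fun i => ?_) (-1)
      (neg_ne_zero.2 one_ne_zero) (fun j => by simp [Shape.sgn]) (fun j => by simp [Shape.sgn])
    · have h2 : (datum w p two_p (fun k => (he.false k).elim) h hh α β q 1).comp.submatrix
          (fun i => Sum.inl (Sum.inr i)) (fun i => Sum.inl (Sum.inr i)) =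
          diagonal fun j => if j = ⟨0, hn⟩ then (y : R) else 1 := by
        rw [← funext hβ]
        exact C_right α β q 1
      rw [h2, det_diagonal, prod_update] at h1
      exact h1
    · rcases i with (i | i) | k
      · exact Or.inr ⟨i, rfl⟩
      · exact Or.inl ⟨i, rfl⟩
      · exact (he.false k).elim
  · intro a ha
    unfold Datum.lowIndices at ha
    rw [Finset.mem_image] at ha
    obtain ⟨j, -, rfl⟩ := ha
    have h1 := isHodgePeriod_datum w p two_p (fun k => (he.false k).elim) h hh α β q 1 (w - p j)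
    rw [hq j] at h1
    exact h1

/-- **Realisation with middle classes**: the determinant of the comparison and the Hodge periods
of a motive with given Hodge indices can be any units. -/
theorem exists_datum_det (E : Type) [Field E] [CharZero E] [Algebra E R] {w : ℤ}
    (p : Fin τ.n → ℤ) (two_p : ∀ j, w < 2 * p j) (hw : Even w) (hmid : 0 < τ.m + τ.r)
    (D : Rˣ) (z : ℤ → Rˣ) :
    ∃ M : Datum R τ w, M.p = p ∧ M.comp.det = D ∧
      ∀ a ∈ M.lowIndices, M.IsHodgePeriod a (z a : R) := by
  obtain ⟨h, hh⟩ := exists_half E R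
  obtain ⟨q, hq⟩ := exists_blocks (R := R) (fun i => w - p i) z
  obtain ⟨k₀⟩ : Nonempty (Fin τ.m ⊕ Fin τ.r) := by
    rcases Nat.eq_zero_or_pos τ.m with h0 | h0
    · exact ⟨Sum.inr ⟨0, by omega⟩⟩
    · exact ⟨Sum.inl ⟨0, h0⟩⟩
  have hu := (datum (R := R) (τ := τ) w p two_p (fun _ => hw) h hh 1 1 q 1).comp_unit
  obtain ⟨u, hu⟩ := hu
  have h1 : ∀ v : Rˣ, (matC (τ := τ) (h : R) 1 1 q (Pi.mulSingle k₀ v)).det =
      v * (matC (τ := τ) (h : R) 1 1 q 1).det := by
    intro v
    unfold matC
    rw [det_mul, det_mul, det_diagonal, det_diagonal, Fintype.prod_sum_type,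
      Fintype.prod_sum_type (f := fun j => (dg q (1 : Fin τ.m ⊕ Fin τ.r → Rˣ) j : R))]
    have h2 : ∏ k, (dg (τ := τ) q (Pi.mulSingle k₀ v) (Sum.inr k) : R) = v := by
      change ∏ k, ((Pi.mulSingle k₀ v : Fin τ.m ⊕ Fin τ.r → Rˣ) k : R) = v
      rw [Finset.prod_eq_single k₀]
      · rw [Pi.mulSingle_eq_same]
      · intro k _ hk
        rw [Pi.mulSingle_eq_of_ne hk, Units.val_one]
      · intro h3
        exact absurd (Finset.mem_univ _) h3
    have h3 : ∏ k, (dg (τ := τ) q (1 : Fin τ.m ⊕ Fin τ.r → Rˣ) (Sum.inr k) : R) = 1 :=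
      Finset.prod_eq_one fun k _ => rfl
    rw [h2, h3, mul_one]
    have h4 : ∏ i, (dg (τ := τ) q (Pi.mulSingle k₀ v) (Sum.inl i) : R) =
        ∏ i, (dg (τ := τ) q (1 : Fin τ.m ⊕ Fin τ.r → Rˣ) (Sum.inl i) : R) := rfl
    rw [h4]
    ring
  refine ⟨datum w p two_p (fun _ => hw) h hh 1 1 q (Pi.mulSingle k₀ (D * u⁻¹)), rfl, ?_, ?_⟩
  · change (matC (τ := τ) (h : R) 1 1 q (Pi.mulSingle k₀ (D * u⁻¹))).det = _
    rw [h1]
    change (u : R) = (matC (τ := τ) (h : R) 1 1 q 1).det at hu
    rw [← hu, Units.val_mul, mul_assoc, Units.inv_mul, mul_one]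
  · intro a ha
    unfold Datum.lowIndices at ha
    rw [Finset.mem_image] at ha
    obtain ⟨j, -, rfl⟩ := ha
    have h2 := isHodgePeriod_datum w p two_p (fun _ => hw) h hh 1 1 q (Pi.mulSingle k₀ (D * u⁻¹))
      (w - p j)
    rw [hq j] at h2
    exact h2

end values

end Real

end Pool.Agent.MP100fe7Cv
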