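import Pool.Agent.Lib.MP_100fe7_nt.CvReal
import Pool.Agent.Lib.MP_100fe7_nt.CvKDefs

/-!
Realisation for families: the generators of the group of basic periods take arbitrary independent
values.
-/

namespace Pool.Agent.MP100fe7K

open Pool.Agent.MP100fe7T Pool.Agent.MP100fe7Cv

variable {R : Type} [CommRing R]

/-- The motive of rank zero. -/
theorem exists_datum_zero (E : Type) [Field E] [CharZero E] [Algebra E R] {τ : Shape} {w : ℤ}
    (p : Fin τ.n → ℤ) (two_p : ∀ j, w < 2 * p j) (hmid : τ.m + τ.r = 0) :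
    ∃ M : Datum R τ w, M.p = p := by
  obtain ⟨h, hh⟩ := Real.exists_half E R
  have he : IsEmpty (Fin τ.m ⊕ Fin τ.r) := by
    refine ⟨fun k => ?_⟩
    rcases k with k | k
    · have := k.2
      omega
    · have := k.2
      omega
  exact ⟨Real.datum w p two_p (fun k => (he.false k).elim) h hh 1 1 1 1, rfl⟩

/-- **Realisation.** For given ranks, weights and Hodge indices, the Deligne periods of the motives
without middle classes, the determinants of the comparison of the motives with middle classes, and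
the Hodge periods take arbitrary values in `Rˣ`. -/
theorem exists_family (E : Type) [Field E] [CharZero E] [Algebra E R] {ι : Type} (σ : ι → Shape)
    (w : ι → ℤ) (p : ∀ i, Fin (σ i).n → ℤ) (hp : ∀ i j, w i < 2 * p i j)
    (hw : ∀ i, ¬ NoMid (σ i) → Even (w i)) (x y D : ι → Rˣ) (z : ι → ℤ → Rˣ) :
    ∃ M : ∀ i, Datum R (σ i) (w i), (∀ i, (M i).p = p i) ∧ ∀ i,
      (NoMid (σ i) → 0 < (σ i).n →
        (M i).IsPeriod (1 : E) (x i : R) ∧ (M i).IsPeriod (-1 : E) (y i : R)) ∧
      (¬ NoMid (σ i) → (M i).comp.det = D i) ∧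
      ∀ a ∈ (M i).lowIndices, (M i).IsHodgePeriod a (z i a : R) := by
  have key : ∀ i, ∃ M : Datum R (σ i) (w i), M.p = p i ∧
      (NoMid (σ i) → 0 < (σ i).n → M.IsPeriod (1 : E) (x i : R) ∧ M.IsPeriod (-1 : E) (y i : R)) ∧
      (¬ NoMid (σ i) → M.comp.det = D i) ∧
      ∀ a ∈ M.lowIndices, M.IsHodgePeriod a (z i a : R) := by
    intro i
    by_cases h : NoMid (σ i)
    · have h0 : (σ i).m + (σ i).r = 0 := by
        rw [h.1, h.2]
      rcases Nat.eq_zero_or_pos (σ i).n with hn | hn
      · obtain ⟨M, hM⟩ := exists_datum_zero (R := R) E (p i) (hp i) h0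
        refine ⟨M, hM, fun _ h1 => absurd hn h1.ne', fun h1 => absurd h h1, fun a ha => ?_⟩
        unfold Datum.lowIndices at ha
        obtain ⟨j, -, -⟩ := Finset.mem_image.1 ha
        have := j.2
        omega
      · obtain ⟨M, h1, h2, h3, h4⟩ := Real.exists_datum_ends (R := R) E (p i) (hp i) h0 hn (x i)
          (y i) (z i)
        exact ⟨M, h1, fun _ _ => ⟨h2, h3⟩, fun h5 => absurd h h5, h4⟩
    · have h0 : 0 < (σ i).m + (σ i).r := by
        by_contra h1
        exact h ⟨by omega, by omega⟩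
      obtain ⟨M, h1, h2, h3⟩ := Real.exists_datum_det (R := R) E (p i) (hp i) (hw i h) h0 (D i)
        (z i)
      exact ⟨M, h1, fun h5 => absurd h5 h, fun _ => h2, h3⟩
  choose M hM using key
  exact ⟨M, fun i => (hM i).1, fun i => (hM i).2⟩

end Pool.Agent.MP100fe7K
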