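import Pool.Agent.Lib.MP_100fe7_nt.CvWall

/-!
The wall lemma, second part: the sum over the arrangements.
-/

namespace Pool.Agent.MP100fe7Cv

open Finset

variable {n : ℕ} {lam : Ix n → ℤ} {j₀ : Ix n} {v : ℤ → ℤ} (hodd : ∀ j, Odd (lam j))
  (hsw : ∀ j, lam (Sum.swap j) = - lam j)
  (hv : ∀ α ∈ arr lam j₀, (lv lam v α = 0 ↔ ∀ f : ℤ → ℤ, lam j₀ * ∑ j, lam j * f (α j) =
        qv lam α * ∑ j, lam j * f (al lam j₀ j)) ∧
      (lv lam v α ≠ 0 → ∀ j, |lam j| < |lv lam v α|))
  (hev : Even (∑ j, v (al lam j₀ j)))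

/-- the indicator of the mark -/
def ei (c : ℤ) : ℤ := if c = 0 then 1 else 0

theorem sum_ei {α : Ix n → ℤ} {i : Ix n} (hi : ∀ j, α j = 0 ↔ j = i) : ∑ j, ei (α j) = 1 := by
  unfold ei
  simp only [hi]
  simp

theorem sum_lam_ei (α : Ix n → ℤ) : ∑ j, lam j * ei (α j) = qv lam α := by
  unfold ei qv
  apply Finset.sum_congr rfl
  intro j _
  split_ifs <;> ring

/-- the weight which multiplies the values of an arrangement by `a` and adds `c` times the
indicator of the mark -/
def wgt (v : ℤ → ℤ) (a c : ℤ) (α : Ix n → ℤ) (j : Ix n) : ℤ := a * v (α j) + c * ei (α j)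

theorem lin_wgt (b a c : ℤ) (α : Ix n → ℤ) : lin lam b (wgt v a c α) =
    a * lin lam b (fun j => v (α j)) + c * lin lam b (fun j => ei (α j)) := by
  rw [← lin_smul, ← lin_smul, ← lin_add]
  rfl

include hodd hev in
theorem theta_wgt {α : Ix n → ℤ} (hα : α ∈ arr lam j₀) {b : ℤ} (hb : b < 0) (a c : ℤ)
    (hc : Odd c) : theta lam b (wgt v a c α) =
      if a * lv lam v α + c * qv lam α < 0 then
        a * lin lam b (fun j => v (α j)) + c * lin lam b (fun j => ei (α j)) else 0 := by
  obtain ⟨i, hi⟩ := exists_pos lam j₀ hodd hα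
  have h1 : ∑ j, wgt v a c α j = a * ∑ j, v (al lam j₀ j) + c := by
    unfold wgt
    rw [Finset.sum_add_distrib, ← Finset.mul_sum, ← Finset.mul_sum, sum_ei hi,
      sum_arr lam j₀ hα v, mul_one]
  have h2 : Odd (∑ j, wgt v a c α j) := by
    rw [h1]
    exact (hev.mul_left a).add_odd hc
  have h3 : ∑ j, lam j * wgt v a c α j = a * lv lam v α + c * qv lam α := by
    rw [← sum_lam_ei]
    unfold wgt lv
    rw [Finset.mul_sum, Finset.mul_sum, ← Finset.sum_add_distrib]
    apply Finset.sum_congr rfl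
    intro j _
    ring
  unfold theta
  rw [h3, lin_wgt]
  simp only [hb, h2, true_and]

include hodd hv hev in
theorem four {α : Ix n → ℤ} (hα : α ∈ arr lam j₀) {b : ℤ} (hb : b < 0) :
    2 * theta lam b (wgt v 1 1 α) - theta lam b (wgt v 2 1 α) +
      2 * theta lam b (wgt v 1 (-1) α) - theta lam b (wgt v 2 (-1) α) =
      if lv lam v α = 0 then (if qv lam α < 0 then lin lam b (fun j => ei (α j))
        else - lin lam b (fun j => ei (α j))) else 0 := by
  obtain ⟨i, hi⟩ := exists_pos lam j₀ hodd hα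
  have hq := qv_eq lam hi
  have hq0 : qv lam α ≠ 0 := by
    rw [hq]
    exact lam_ne lam hodd i
  rw [theta_wgt hodd hev hα hb 1 1 odd_one, theta_wgt hodd hev hα hb 2 1 odd_one,
    theta_wgt hodd hev hα hb 1 (-1) (by decide), theta_wgt hodd hev hα hb 2 (-1) (by decide)]
  set L := lv lam v α with hL
  set q := qv lam α with hqd
  set T := lin lam b (fun j => v (α j))
  set e := lin lam b (fun j => ei (α j))
  by_cases h0 : L = 0
  · rw [if_pos h0, h0]
    rcases lt_or_gt_of_ne hq0 with h | h
    · rw [if_pos (by linarith), if_pos (by linarith), if_neg (by linarith), if_neg (by linarith),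
        if_pos h]
      ring
    · rw [if_neg (by linarith), if_neg (by linarith), if_pos (by linarith), if_pos (by linarith),
        if_neg (by linarith)]
      ring
  · rw [if_neg h0]
    have h1 := ((hv α hα).2 h0) i
    rw [← hq] at h1
    rcases lt_or_gt_of_ne h0 with h | h
    · rw [abs_of_neg h] at h1
      obtain ⟨h2, h3⟩ := abs_lt.mp h1
      rw [if_pos (by linarith), if_pos (by linarith), if_pos (by linarith), if_pos (by linarith)]
      ring
    · rw [abs_of_pos h] at h1
      obtain ⟨h2, h3⟩ := abs_lt.mp h1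
      rw [if_neg (by linarith), if_neg (by linarith), if_neg (by linarith), if_neg (by linarith)]
      ring

include hsw in
theorem mirror_lv (v : ℤ → ℤ) (α : Ix n → ℤ) : lv lam v (fun j => α (Sum.swap j)) =
    - lv lam v α := by
  unfold lv
  rw [← Equiv.sum_comp (Equiv.sumComm (Fin n) (Fin n)) fun k => lam k * v (α (Sum.swap k)),
    ← Finset.sum_neg_distrib]
  apply Finset.sum_congr rfl
  intro j _
  rw [Equiv.sumComm_apply, Sum.swap_swap, hsw]
  ring

include hsw in
theorem mirror_qv (α : Ix n → ℤ) : qv lam (fun j => α (Sum.swap j)) = - qv lam α := by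
  unfold qv
  rw [← Equiv.sum_comp (Equiv.sumComm (Fin n) (Fin n))
    fun k => (if α (Sum.swap k) = 0 then lam k else 0), ← Finset.sum_neg_distrib]
  apply Finset.sum_congr rfl
  intro j _
  rw [Equiv.sumComm_apply, Sum.swap_swap, hsw]
  split_ifs <;> ring

include hsw in
theorem mirror_wall {α : Ix n → ℤ} (hα : α ∈ wall lam j₀ v) :
    (fun j => α (Sum.swap j)) ∈ wall lam j₀ v := by
  obtain ⟨h1, h2⟩ := Finset.mem_filter.mp hα
  refine Finset.mem_filter.mpr ⟨arr_comp lam j₀ h1 (Equiv.sumComm (Fin n) (Fin n)), ?_⟩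
  rw [mirror_lv hsw, h2, neg_zero]

include hodd hsw in
theorem sum_sign : ∑ α ∈ wall lam j₀ v, (if qv lam α < 0 then (1 : ℤ) else -1) = 0 := by
  have h1 : ∑ α ∈ wall lam j₀ v, (if qv lam α < 0 then (1 : ℤ) else -1) =
      ∑ α ∈ wall lam j₀ v, - (if qv lam α < 0 then (1 : ℤ) else -1) := by
    apply Finset.sum_bij fun α _ => fun j => α (Sum.swap j)
    · intro α hα
      exact mirror_wall hsw hα
    · intro α _ β _ h
      funext j
      have := congrFun h (Sum.swap j)
      simpa using this
    · intro α hα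
      refine ⟨fun j => α (Sum.swap j), mirror_wall hsw hα, ?_⟩
      funext j
      exact congrArg α (Sum.swap_swap j)
    · intro α hα
      rw [mirror_qv hsw]
      obtain ⟨i, hi⟩ := exists_pos lam j₀ hodd (Finset.mem_filter.mp hα).1
      have h2 : qv lam α ≠ 0 := by
        rw [qv_eq lam hi]
        exact lam_ne lam hodd i
      rcases lt_or_gt_of_ne h2 with h | h
      · rw [if_pos h, if_neg (by linarith), neg_neg]
      · rw [if_neg (by linarith), if_pos (by linarith)]
  rw [Finset.sum_neg_distrib] at h1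
  linarith

include hodd hsw hv hev in
theorem wall_sum {b : ℤ} (hb : b < 0) : ∑ α ∈ arr lam j₀,
    (2 * theta lam b (wgt v 1 1 α) - theta lam b (wgt v 2 1 α) +
      2 * theta lam b (wgt v 1 (-1) α) - theta lam b (wgt v 2 (-1) α)) =
      n * wc lam j₀ v b := by
  rw [Finset.sum_congr rfl fun α hα => four hodd hv hev hα hb, ← Finset.sum_filter]
  change ∑ α ∈ wall lam j₀ v, _ = _
  have h1 : ∀ α ∈ wall lam j₀ v, (if qv lam α < 0 then lin lam b (fun j => ei (α j))
        else - lin lam b (fun j => ei (α j))) =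
      (n : ℤ) * (if qv lam α = b then 1 else 0) -
        mult lam b * (if qv lam α < 0 then (1 : ℤ) else -1) := by
    intro α hα
    obtain ⟨i, hi⟩ := exists_pos lam j₀ hodd (Finset.mem_filter.mp hα).1
    have hq := qv_eq lam hi
    have h2 : lin lam b (fun j => ei (α j)) =
        (n : ℤ) * (if qv lam α = b then 1 else 0) - mult lam b := by
      unfold lin
      rw [sum_ei hi, mul_one, hq]
      congr 2
      unfold ei
      simp only [hi]
      rw [Finset.sum_ite_eq']
      simp
    rw [h2]
    by_cases h3 : qv lam α < 0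
    · rw [if_pos h3, if_pos h3]
      ring
    · rw [if_neg h3, if_neg h3]
      have h4 : qv lam α ≠ b := by
        intro h5
        rw [h5] at h3
        exact h3 hb
      rw [if_neg h4]
      ring
  rw [Finset.sum_congr rfl h1, Finset.sum_sub_distrib, ← Finset.mul_sum, ← Finset.mul_sum,
    sum_sign hodd hsw, mul_zero, sub_zero]
  congr 1
  unfold wc
  rw [Finset.card_filter]
  push_cast
  rfl

end Pool.Agent.MP100fe7Cv
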