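import Pool.Agent.Lib.MP_100fe7_nt.CvExt
import Pool.Agent.Lib.MP_100fe7_nt.CvWall2

/-!
Characters of tensor products of exterior powers, and the exponents of the Hodge periods as linear
functionals of the character.
-/

namespace Pool.Agent.MP100fe7Cv

open MvPolynomial Finset MP100fe7

section chars

variable {E : Type} [Field E] {n : ℕ}

/-- the character -/
noncomputable def chr {k : ℕ} {κ : Type} [Fintype κ] [DecidableEq κ] (ρ : PolyRep E n κ k) :
    MvPolynomial (Ix n) ℤ := ∑ s, monomial (Finsupp.equivFunOnFinite.symm (ρ.wt s)) 1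

theorem chr_tensor {κ₁ κ₂ : Type} [Fintype κ₁] [DecidableEq κ₁] [Fintype κ₂]
    [DecidableEq κ₂] {k₁ k₂ : ℕ} (ρ₁ : PolyRep E n κ₁ k₁) (ρ₂ : PolyRep E n κ₂ k₂) :
    chr (tensor ρ₁ ρ₂) = chr ρ₁ * chr ρ₂ := by
  unfold chr
  rw [Fintype.sum_prod_type, Finset.sum_mul_sum]
  apply Finset.sum_congr rfl
  intro s _
  apply Finset.sum_congr rfl
  intro t _
  rw [monomial_mul, one_mul]
  apply congrArg fun ν => monomial ν (1 : ℤ)
  ext j
  rfl

theorem chr_one : chr (one E n) = 1 := by
  unfold chr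
  rw [Fintype.sum_unique]
  have : Finsupp.equivFunOnFinite.symm ((one E n).wt default) = 0 := by
    ext j
    rfl
  rw [this]
  rfl

/-- subsets of `Idx n` and of `Fin (n + n)` -/
def subEquiv (n k : ℕ) : Sub (n + n) k ≃ {s : Finset (Ix n) // s.card = k} where
  toFun S := ⟨S.1.map finSumFinEquiv.symm.toEmbedding, by rw [Finset.card_map, S.2]⟩
  invFun T := ⟨T.1.map finSumFinEquiv.toEmbedding, by rw [Finset.card_map, T.2]⟩
  left_inv S := by
    apply Subtype.ext
    ext x
    simp
  right_inv T := by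
    apply Subtype.ext
    ext x
    simp

theorem chr_ext (k : ℕ) : chr (ext E n k) = esymm (Ix n) ℤ k := by
  unfold chr
  rw [esymm_eq_sum_subtype]
  apply Fintype.sum_equiv (subEquiv n k)
  intro S
  have h1 : (subEquiv n k S).1 = Finset.univ.filter fun j : Ix n => finSumFinEquiv j ∈ S.1 := by
    ext j
    simp [subEquiv]
  rw [h1, Finset.prod_filter, monomial_eq, C_1, one_mul, Finsupp.prod_fintype _ _ (fun i => by simp)]
  apply Finset.prod_congr rfl
  intro j _
  have h2 : (Finsupp.equivFunOnFinite.symm ((ext E n k).wt S)) j =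
      if finSumFinEquiv j ∈ S.1 then 1 else 0 := rfl
  rw [h2]
  split_ifs
  · rw [pow_one]
  · rw [pow_zero]

theorem chr_extTensor : ∀ l : List ℕ, chr (extTensor E n l) =
    (l.map (esymm (Ix n) ℤ)).prod
  | [] => chr_one
  | k :: l => by
    rw [List.map_cons, List.prod_cons, ← chr_extTensor l, ← chr_ext (E := E) k]
    exact chr_tensor _ _

end chars

variable {n : ℕ} (lam : Ix n → ℤ)

/-- the exponents as linear functionals -/
noncomputable def Th (b : ℤ) : MvPolynomial (Ix n) ℤ →ₗ[ℤ] ℤ :=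
  (basisMonomials (Ix n) ℤ).constr ℤ fun ν => theta lam b fun j => (ν j : ℤ)

theorem Th_monomial (b : ℤ) (ν : Ix n →₀ ℕ) :
    Th lam b (monomial ν 1) = theta lam b fun j => (ν j : ℤ) := by
  have h := (basisMonomials (Ix n) ℤ).constr_basis ℤ (fun ν => theta lam b fun j => (ν j : ℤ)) ν
  rw [coe_basisMonomials] at h
  exact h

/-- all the exponents -/
noncomputable def Thv : MvPolynomial (Ix n) ℤ →ₗ[ℤ] (ℤ → ℤ) := LinearMap.pi fun b => Th lam b

theorem Thv_apply (g : MvPolynomial (Ix n) ℤ) (b : ℤ) : Thv lam g b = Th lam b g := rfl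

theorem Th_chr {E : Type} [Field E] {k : ℕ} {κ : Type} [Fintype κ] [DecidableEq κ]
    (ρ : PolyRep E n κ k) (b : ℤ) :
    Th lam b (chr ρ) = ∑ s, theta lam b fun j => (ρ.wt s j : ℤ) := by
  unfold chr
  rw [map_sum]
  apply Finset.sum_congr rfl
  intro s _
  rw [Th_monomial]
  rfl

/-- the product of elementary symmetric polynomials -/
noncomputable def pr (n : ℕ) (l : List ℕ) : MvPolynomial (Ix n) ℤ :=
  (l.map (esymm (Ix n) ℤ)).prod

theorem Thv_even (l : List ℕ) (hl : ¬ Odd l.sum) : Thv lam (pr n l) = 0 := by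
  funext b
  rw [Thv_apply, pr, ← chr_extTensor (E := ℚ), Th_chr]
  apply Finset.sum_eq_zero
  intro s _
  unfold theta
  rw [if_neg]
  rintro ⟨-, h, -⟩
  apply hl
  have h1 : (∑ j, (((extTensor ℚ n l).wt s j : ℕ) : ℤ)) = (l.sum : ℤ) := by
    rw [← Nat.cast_sum]
    congr 1
    exact (extTensor ℚ n l).deg s
  rw [h1] at h
  exact_mod_cast h

/-- lists with odd sum -/
abbrev OddL : Type := {l : List ℕ // Odd l.sum}

/-- the lattice of the exponents -/
noncomputable def Hs : Submodule ℤ (ℤ → ℤ) :=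
  Submodule.span ℤ (Set.range fun l : OddL => Thv lam (pr n l.1))

theorem Thv_pr_mem (l : List ℕ) : Thv lam (pr n l) ∈ Hs lam := by
  by_cases hl : Odd l.sum
  · exact Submodule.subset_span ⟨⟨l, hl⟩, rfl⟩
  · rw [Thv_even lam l hl]
    exact Submodule.zero_mem _

/-- the list of a monomial -/
theorem exists_list {m : ℕ} (t : Fin m →₀ ℕ) : ∃ l : List ℕ,
    (aeval (fun i : Fin m => esymm (Ix n) ℤ (i + 1))) (monomial t (1 : ℤ)) = pr n l := by
  induction t using Finsupp.induction_linear with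
  | zero => exact ⟨[], by simp [pr]⟩
  | add f g hf hg =>
    obtain ⟨l₁, h₁⟩ := hf
    obtain ⟨l₂, h₂⟩ := hg
    refine ⟨l₁ ++ l₂, ?_⟩
    have h3 : (monomial (f + g) (1 : ℤ) : MvPolynomial (Fin m) ℤ) =
        monomial f 1 * monomial g 1 := by
      rw [monomial_mul, one_mul]
    rw [h3, map_mul, h₁, h₂]
    unfold pr
    rw [List.map_append, List.prod_append]
  | single i a =>
    refine ⟨List.replicate a ((i : ℕ) + 1), ?_⟩
    rw [← X_pow_eq_monomial, map_pow, aeval_X]
    unfold pr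
    rw [List.map_replicate, List.prod_replicate]

theorem Thv_symm {g : MvPolynomial (Ix n) ℤ} (hg : g.IsSymmetric) : Thv lam g ∈ Hs lam := by
  obtain ⟨P, hP⟩ := esymmAlgHom_surjective (σ := Ix n) ℤ (n := Fintype.card (Ix n)) le_rfl
    ⟨g, hg⟩
  have h1 : g = (aeval fun i : Fin (Fintype.card (Ix n)) => esymm (Ix n) ℤ (i + 1)) P := by
    rw [← esymmAlgHom_apply, hP]
  rw [h1, P.as_sum, map_sum, map_sum]
  apply Submodule.sum_mem
  intro t _
  obtain ⟨l, hl⟩ := exists_list (n := n) t
  have h2 : monomial t (coeff t P) = (coeff t P) • (monomial t (1 : ℤ)) := by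
    rw [smul_monomial, smul_eq_mul, mul_one]
  rw [h2, map_smul, map_smul, hl]
  exact Submodule.smul_mem _ _ (Thv_pr_mem lam l)

section gz

variable (j₀ : Ix n) (v : ℤ → ℤ)

/-- the symmetric sum of monomials over the arrangements -/
noncomputable def gz (a c : ℤ) : MvPolynomial (Ix n) ℤ :=
  ∑ α ∈ arr lam j₀, monomial (Finsupp.equivFunOnFinite.symm fun j => (wgt v a c α j).toNat) 1

theorem gz_symm (a c : ℤ) : (gz lam j₀ v a c).IsSymmetric := by
  intro e
  unfold gz
  rw [map_sum]
  apply Finset.sum_bij fun α _ => fun j => α (e.symm j)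
  · intro α hα
    exact arr_comp lam j₀ hα e.symm
  · intro α _ β _ h
    funext j
    have := congrFun h (e j)
    simpa using this
  · intro α hα
    refine ⟨fun j => α (e j), arr_comp lam j₀ hα e, ?_⟩
    funext j
    exact congrArg α (e.apply_symm_apply j)
  · intro α hα
    rw [rename_monomial]
    apply congrArg fun ν => monomial ν (1 : ℤ)
    ext j
    rw [Finsupp.mapDomain_equiv_apply]
    rfl

theorem Th_gz (b a c : ℤ) (h : ∀ α ∈ arr lam j₀, ∀ j, 0 ≤ wgt v a c α j) :
    Th lam b (gz lam j₀ v a c) = ∑ α ∈ arr lam j₀, theta lam b (wgt v a c α) := by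
  unfold gz
  rw [map_sum]
  apply Finset.sum_congr rfl
  intro α hα
  rw [Th_monomial]
  congr 1
  funext j
  exact Int.toNat_of_nonneg (h α hα j)

end gz

theorem theta_nonneg {b : ℤ} (hb : ¬ b < 0) (ν : Ix n → ℤ) : theta lam b ν = 0 := by
  unfold theta
  rw [if_neg fun h => hb h.1]

/-- the exponents of the wall sum are in the lattice -/
theorem wc_mem (hodd : ∀ j, Odd (lam j)) (hsw : ∀ j, lam (Sum.swap j) = - lam j) (j₀ : Ix n) :
    ∃ W : ℤ → ℕ, (∀ b, lam j₀ ^ 2 < b ^ 2 → W b = 0) ∧ W (lam j₀) = mult lam (lam j₀) ∧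
      (∀ b, mult lam b ∣ W b) ∧ (fun b : ℤ => if b < 0 then (n : ℤ) * W b else 0) ∈ Hs lam := by
  have hsum : ∑ j, lam j = 0 := by
    have h1 : ∑ j, lam j = ∑ j, - lam j := by
      rw [← Equiv.sum_comp (Equiv.sumComm (Fin n) (Fin n)) lam]
      apply Finset.sum_congr rfl
      intro j _
      rw [Equiv.sumComm_apply, hsw]
    rw [Finset.sum_neg_distrib] at h1
    linarith
  obtain ⟨v, h1, hev, hv⟩ := exists_good lam j₀ hsum
  refine ⟨wc lam j₀ v, fun b hb => wc_zero hodd hv hb, wc_top hodd hv, wc_dvd hodd, ?_⟩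
  have hval : ∀ α ∈ arr lam j₀, ∀ j, 1 ≤ v (α j) := by
    intro α hα j
    rw [mem_arr] at hα
    obtain ⟨σ, rfl⟩ := hα
    exact h1 (σ j)
  have hnn : ∀ a c : ℤ, 1 ≤ a → -1 ≤ c → ∀ α ∈ arr lam j₀, ∀ j, 0 ≤ wgt v a c α j := by
    intro a c ha hc α hα j
    have h2 := hval α hα j
    unfold wgt ei
    split_ifs
    · nlinarith
    · nlinarith
  have h3 : (fun b : ℤ => if b < 0 then (n : ℤ) * wc lam j₀ v b else 0) =
      Thv lam (2 • gz lam j₀ v 1 1 - gz lam j₀ v 2 1 + 2 • gz lam j₀ v 1 (-1) -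
        gz lam j₀ v 2 (-1)) := by
    funext b
    rw [Thv_apply]
    simp only [map_sub, map_add, map_nsmul]
    rw [Th_gz lam j₀ v b 1 1 (hnn 1 1 le_rfl (by norm_num)),
      Th_gz lam j₀ v b 2 1 (hnn 2 1 (by norm_num) (by norm_num)),
      Th_gz lam j₀ v b 1 (-1) (hnn 1 (-1) le_rfl le_rfl),
      Th_gz lam j₀ v b 2 (-1) (hnn 2 (-1) (by norm_num) le_rfl)]
    by_cases hb : b < 0
    · rw [if_pos hb, ← wall_sum hodd hsw hv hev hb, Finset.sum_sub_distrib,
        Finset.sum_add_distrib, Finset.sum_sub_distrib, ← Finset.mul_sum, ← Finset.mul_sum]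
      simp only [nsmul_eq_mul, Nat.cast_ofNat]
    · rw [if_neg hb]
      simp only [theta_nonneg lam hb, Finset.sum_const_zero, smul_zero, sub_zero, add_zero]
  rw [h3]
  apply Thv_symm
  refine IsSymmetric.sub (IsSymmetric.add (IsSymmetric.sub ?_ (gz_symm lam j₀ v 2 1)) ?_)
    (gz_symm lam j₀ v 2 (-1))
  · rw [two_nsmul]
    exact (gz_symm lam j₀ v 1 1).add (gz_symm lam j₀ v 1 1)
  · rw [two_nsmul]
    exact (gz_symm lam j₀ v 1 (-1)).add (gz_symm lam j₀ v 1 (-1))

/-- every unit vector is in the lattice -/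
theorem single_mem (hodd : ∀ j, Odd (lam j)) (hsw : ∀ j, lam (Sum.swap j) = - lam j) :
    ∀ (N : ℕ) (j₀ : Ix n), lam j₀ < 0 → (lam j₀).natAbs ≤ N →
      (Pi.single (lam j₀) ((n : ℤ) * mult lam (lam j₀)) : ℤ → ℤ) ∈ Hs lam := by
  intro N
  induction N with
  | zero =>
    intro j₀ h1 h2
    omega
  | succ N ih =>
    intro j₀ h1 h2
    obtain ⟨W, hW1, hW2, hW3, hW4⟩ := wc_mem lam hodd hsw j₀
    let B : Finset ℤ := (Finset.univ.image lam).filter fun b => b < 0
    have h3 : (fun b : ℤ => if b < 0 then (n : ℤ) * W b else 0) =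
        ∑ b ∈ B, (Pi.single b ((n : ℤ) * W b) : ℤ → ℤ) := by
      funext b
      rw [Finset.sum_apply]
      by_cases hb : b ∈ B
      · rw [Finset.sum_eq_single b]
        · rw [Pi.single_eq_same, if_pos (Finset.mem_filter.mp hb).2]
        · intro c _ hc
          exact Pi.single_eq_of_ne hc.symm _
        · intro h
          exact absurd hb h
      · rw [Finset.sum_eq_zero fun c hc => Pi.single_eq_of_ne (by
          rintro rfl
          exact hb hc) _]
        by_cases hb0 : b < 0
        · have h4 : mult lam b = 0 := by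
            unfold mult
            rw [Finset.card_eq_zero, Finset.filter_eq_empty_iff]
            intro j _ hj
            apply hb
            exact Finset.mem_filter.mpr ⟨hj ▸ Finset.mem_image_of_mem lam (Finset.mem_univ j), hb0⟩
          have h5 := hW3 b
          rw [h4, zero_dvd_iff] at h5
          rw [h5]
          simp
        · rw [if_neg hb0]
    have hj : lam j₀ ∈ B := Finset.mem_filter.mpr
      ⟨Finset.mem_image_of_mem lam (Finset.mem_univ j₀), h1⟩
    rw [h3, ← Finset.add_sum_erase B _ hj, hW2] at hW4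
    have h6 : ∑ b ∈ B.erase (lam j₀), (Pi.single b ((n : ℤ) * W b) : ℤ → ℤ) ∈ Hs lam := by
      apply Submodule.sum_mem
      intro b hb
      obtain ⟨hne, hbB⟩ := Finset.mem_erase.mp hb
      obtain ⟨h7, h8⟩ := Finset.mem_filter.mp hbB
      obtain ⟨j, -, rfl⟩ := Finset.mem_image.mp h7
      by_cases h9 : lam j₀ ^ 2 < lam j ^ 2
      · rw [hW1 _ h9]
        simp
      · have h10 : (lam j).natAbs < (lam j₀).natAbs := by
          rw [← Int.natAbs_lt_iff_sq_lt] at h9
          rcases lt_or_ge (lam j).natAbs (lam j₀).natAbs with h | h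
          · exact h
          · exfalso
            have : (lam j).natAbs = (lam j₀).natAbs := le_antisymm (not_lt.mp h9) h
            apply hne
            omega
        have h11 := ih j h8 (by omega)
        obtain ⟨t, ht⟩ := hW3 (lam j)
        have h12 : (Pi.single (lam j) ((n : ℤ) * W (lam j)) : ℤ → ℤ) =
            (t : ℤ) • (Pi.single (lam j) ((n : ℤ) * mult lam (lam j)) : ℤ → ℤ) := by
          rw [← Pi.single_smul, ht]
          congr 1
          push_cast
          simp only [smul_eq_mul]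
          ring
        rw [h12]
        exact Submodule.smul_mem _ _ h11
    have h13 := Submodule.sub_mem _ hW4 h6
    rwa [add_sub_cancel_right] at h13

end Pool.Agent.MP100fe7Cv
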