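import Pool.Agent.Lib.MP_100fe7_nt.CvDefs
import Pool.Agent.Lib.MP_100fe7_nt.CvMain

/-!
Twists by powers of the determinant.
-/

set_option linter.unusedSectionVars false

namespace Pool.Agent.MP100fe7Cv

open Finset MP100fe7

variable {E : Type} [Field E] [CharZero E] {R : Type} [CommRing R] [Nontrivial R] [Algebra E R]
  {n k : ℕ} {w : ℤ} {κ : Type} [Fintype κ] [DecidableEq κ] (ρ : PolyRep E n κ k) (m : ℤ)
  (M : Datum R n w)

theorem sum_hodgeIdx : ∑ j, M.hodgeIdx j = n * w := by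
  rw [Fintype.sum_sum_type]
  simp only [Datum.hodgeIdx, Sum.elim_inl, Sum.elim_inr]
  rw [← Finset.sum_add_distrib]
  have h : ∀ i, M.p i + (w - M.p i) = w := fun i => by ring
  rw [Finset.sum_congr rfl fun i _ => h i]
  simp

theorem twIdx_eq (s : κ) : twIdx ρ m M s = ρ.hodgeIdx M s - m * (n * w) := by
  unfold twIdx
  rw [sum_hodgeIdx]

theorem twWeight_eq : twWeight n k w m = k * w - 2 * (m * (n * w)) := by
  unfold twWeight
  ring

theorem noMiddleTw_iff : NoMiddleTw ρ m M ↔ NoMiddle ρ M := by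
  unfold NoMiddleTw NoMiddle
  apply forall_congr'
  intro s
  rw [twIdx_eq, twWeight_eq, not_iff_not]
  constructor
  · intro h
    linarith
  · intro h
    linarith

theorem low_iff (s : κ) : twIdx ρ m M s < (twWeight n k w m + 1) / 2 ↔
    ρ.hodgeIdx M s < (k * w + 1) / 2 := by
  rw [twIdx_eq, twWeight_eq]
  generalize m * (n * w) = t
  generalize (k : ℤ) * w = v
  omega

/-- the action of `F_∞` on `det(M)^{⊗ (-m)}` -/
theorem det_frob (E : Type) [Field E] (n : ℕ) (m : ℤ) :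
    ∃ c : ℤ, (c = 1 ∨ c = -1) ∧ (frob E n).det ^ (-m) = (c : E) := by
  have h1 : (frob E n).det = (-1) ^ n := by
    unfold frob
    rw [Matrix.det_diagonal, Fintype.prod_sum_type]
    simp
  rw [h1]
  have h2 : ((-1 : E) ^ n) ^ (-m) = (-1 : E) ^ (n * (-m) : ℤ) := by
    rw [zpow_mul, zpow_natCast]
  rw [h2]
  rcases Int.even_or_odd (n * (-m) : ℤ) with h | h
  · exact ⟨1, Or.inl rfl, by rw [h.neg_one_zpow, Int.cast_one]⟩
  · exact ⟨-1, Or.inr rfl, by rw [h.neg_one_zpow, Int.cast_neg, Int.cast_one]⟩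

theorem eig_iff {c : ℤ} (hc : c = 1 ∨ c = -1) (X : Matrix κ κ E) (ε : ℤ) (v : κ → E) :
    ((c : E) • X).mulVec v = (ε : E) • v ↔ X.mulVec v = ((c * ε : ℤ) : E) • v := by
  have h1 : ((c : E) • X).mulVec v = (c : E) • X.mulVec v := Matrix.smul_mulVec _ _ _
  rw [h1]
  rcases hc with rfl | rfl
  · simp
  · constructor
    · intro h
      push_cast at h ⊢
      rw [neg_one_smul] at h
      rw [neg_one_mul, neg_smul, ← h, neg_neg]
    · intro h
      rw [h]
      push_cast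
      rw [smul_smul]
      congr 1
      ring

theorem det_twist {r : ℕ} (A : Matrix κ (Fin r) R) (B : Matrix (Fin r) κ R) (X : Matrix κ κ R)
    (u : R) : (B * u • X * A).det = u ^ r * (B * X * A).det := by
  rw [Matrix.mul_smul, Matrix.smul_mul, Matrix.det_smul, Fintype.card_fin]

theorem kerCond_iff {r : ℕ} (B : Matrix (Fin r) κ E) :
    (∀ v : κ → E, B.mulVec v = 0 ↔ ∀ s, twIdx ρ m M s < (twWeight n k w m + 1) / 2 → v s = 0) ↔
      KerCond ρ M B := by
  unfold KerCond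
  apply forall_congr'
  intro v
  have h : (∀ s, twIdx ρ m M s < (twWeight n k w m + 1) / 2 → v s = 0) ↔
      ∀ s, ρ.hodgeIdx M s < (k * w + 1) / 2 → v s = 0 := by
    apply forall_congr'
    intro s
    rw [low_iff]
  rw [h]

/-- periods of twists -/
theorem isPeriodTw_iff {c : ℤ} (hc : c = 1 ∨ c = -1) (hcE : (frob E n).det ^ (-m) = (c : E))
    (ε : ℤ) (x : R) : IsPeriodTw ρ m M (ε : E) x ↔
      ∃ y : R, IsPeriod ρ M ((c * ε : ℤ) : E) y ∧
        x = ((M.comp_unit.unit ^ (-m) : Rˣ) : R) ^ (Fintype.card {s // lo ρ M s}) * y := by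
  constructor
  · rintro ⟨r, A, B, hA, hAr, hB, hK, rfl⟩
    rw [kerCond_iff] at hK
    obtain ⟨B', e₁⟩ := Matrix.mulVec_surjective_iff_exists_right_inverse.mp hB
    have hr := size_lo (R := R) ρ M hK e₁
    refine ⟨_, ⟨r, A, B, hA, ?_, hB, hK, rfl⟩, ?_⟩
    · intro v
      rw [hAr, hcE, eig_iff hc]
    · rw [det_twist, ← hr]
  · rintro ⟨y, ⟨r, A, B, hA, hAr, hB, hK, rfl⟩, rfl⟩
    obtain ⟨B', e₁⟩ := Matrix.mulVec_surjective_iff_exists_right_inverse.mp hB
    have hr := size_lo (R := R) ρ M hK e₁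
    refine ⟨r, A, B, hA, ?_, hB, (kerCond_iff ρ m M B).mpr hK, ?_⟩
    · intro v
      rw [hAr, hcE, eig_iff hc]
    · rw [det_twist, ← hr]

theorem exists_periodTw (hmid : NoMiddleTw ρ m M) (ε : ℤ) (hε : ε = 1 ∨ ε = -1) :
    ∃ x : R, IsPeriodTw ρ m M (ε : E) x := by
  obtain ⟨c, hc, hcE⟩ := det_frob E n m
  have h1 : c * ε = 1 ∨ c * ε = -1 := by
    rcases hc with rfl | rfl <;> rcases hε with rfl | rfl <;> simp
  obtain ⟨y, hy⟩ := exists_period_aux (R := R) ρ M ((noMiddleTw_iff ρ m M).mp hmid) _ h1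
  exact ⟨_, (isPeriodTw_iff ρ m M hc hcE ε _).mpr ⟨y, hy, rfl⟩⟩

theorem isUnit_periodTw (hmid : NoMiddleTw ρ m M) (ε : ℤ) (hε : ε = 1 ∨ ε = -1) {x : R}
    (hx : IsPeriodTw ρ m M (ε : E) x) : IsUnit x := by
  obtain ⟨c, hc, hcE⟩ := det_frob E n m
  have h1 : c * ε = 1 ∨ c * ε = -1 := by
    rcases hc with rfl | rfl <;> rcases hε with rfl | rfl <;> simp
  obtain ⟨y, hy, rfl⟩ := (isPeriodTw_iff ρ m M hc hcE ε _).mp hx
  exact ((M.comp_unit.unit ^ (-m) : Rˣ).isUnit.pow _).mul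
    (isUnit_period ρ M ((noMiddleTw_iff ρ m M).mp hmid) _ h1 hy)

section detb

variable {R : Type} [CommRing R] {n : ℕ} {w : ℤ} (M : Datum R n w)

theorem det_emb' (a : ℤ) (A : Matrix (Block M a) (Block M a) R) : (emb' M a A).det = A.det := by
  unfold emb'
  rw [Matrix.det_submatrix_equiv_self, Matrix.det_fromBlocks_zero₂₁, Matrix.det_one, mul_one]

theorem det_cutT (C : Matrix (Fin n) (Fin n) R) (T : Finset ℤ) :
    (cutT M C T).det = ∏ a ∈ T, (blockOf M C a).det := by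
  induction T using Finset.induction_on with
  | empty => rw [cutT_empty, Matrix.det_one, Finset.prod_empty]
  | insert a T ha ih =>
    rw [Finset.prod_insert ha, ← ih, cutT_insert M C a T ha, Matrix.det_mul, det_emb']

theorem det_b : M.b.det = ∏ a ∈ lowIndices M, (blockOf M (cBlock M) a).det := by
  have h1 : M.b.BlockTriangular fun i => -M.hodgeIdx i := by
    intro i j hij
    exact M.b_parabolic i j (by linarith)
  have h2 : (Matrix.of fun i j => if M.hodgeIdx i = M.hodgeIdx j then M.b i j else 0 :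
      Matrix (Idx n) (Idx n) R).BlockTriangular fun i => -M.hodgeIdx i := by
    intro i j hij
    rw [Matrix.of_apply, if_neg]
    intro h
    change -M.hodgeIdx j < -M.hodgeIdx i at hij
    rw [h] at hij
    exact lt_irrefl _ hij
  have h3 : M.b.det = (Matrix.of fun i j => if M.hodgeIdx i = M.hodgeIdx j then M.b i j else 0 :
      Matrix (Idx n) (Idx n) R).det := by
    rw [h1.det, h2.det]
    apply Finset.prod_congr rfl
    intro a _
    congr 1
    ext1 i j
    have e1 := i.2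
    have e2 := j.2
    have e3 : -M.hodgeIdx i.1 = -M.hodgeIdx j.1 := by rw [e1, e2]
    change M.b i.1 j.1 = if M.hodgeIdx i.1 = M.hodgeIdx j.1 then M.b i.1 j.1 else 0
    rw [if_pos (neg_inj.mp e3)]
  rw [h3, levi_b, Matrix.det_fromBlocks_zero₂₁, Matrix.det_one, one_mul, det_cutT]

theorem det_gz (S : Type) [CommRing S] (n : ℕ) : (MP100fe7.gz S n).det = (-2) ^ n := by
  unfold MP100fe7.gz
  rw [Matrix.det_fromBlocks_one₁₁]
  have h : (-1 : Matrix (Fin n) (Fin n) S) - 1 * 1 = (-2 : S) • 1 := by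
    rw [neg_smul, two_smul, mul_one]
    abel
  rw [h, Matrix.det_smul, Matrix.det_one, mul_one, Fintype.card_fin]

end detb

/-- the determinant of the comparison isomorphism -/
theorem det_comp : ∃ (c d : Rˣ) (q : ℤ → Rˣ) (e : Eˣ), IsPeriod (std E n) M (1 : E) (c : R) ∧
    IsPeriod (std E n) M (-1 : E) (d : R) ∧ (∀ a ∈ lowIndices M, IsHodgePeriod M a (q a : R)) ∧
    M.comp_unit.unit = cst E R e * c * d * (∏ a ∈ lowIndices M, q a)⁻¹ := by
  have h2 : IsUnit (2 : R) := by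
    have h : IsUnit (2 : E) := (two_ne_zero).isUnit
    have h' := h.map (algebraMap E R)
    rwa [map_ofNat] at h'
  obtain ⟨h₁, h₂, hu₁, hu₂, hM⟩ := exists_factor' M h2
  obtain ⟨δ₁, hδ₁⟩ := hu₁
  obtain ⟨δ₂, hδ₂⟩ := hu₂
  let Q : ℤ → Rˣ := fun a => if ha : a ∈ lowIndices M then (isUnit_hodgePeriod E M a ha).unit else 1
  have hQ : ∀ a ∈ lowIndices M, (Q a : R) = (blockOf M (cBlock M) a).det := by
    intro a ha
    simp only [Q, dif_pos ha, IsUnit.unit_spec]
  obtain ⟨c, hc⟩ := (exists_period (R := R) (std E n) M (noMiddle_std M)).1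
  obtain ⟨d, hd⟩ := (exists_period (R := R) (std E n) M (noMiddle_std M)).2
  have hcc : IsPeriod (std E n) M (((1 : ℤ) : E)) c := by simpa using hc
  have hdd : IsPeriod (std E n) M (((-1 : ℤ) : E)) d := by simpa using hd
  obtain ⟨ec, uc, rfl, huc'⟩ := std_formula M (Or.inl rfl) hM δ₁ δ₂ hδ₁ hδ₂ Q hQ hcc
  obtain ⟨ed, ud, rfl, hud'⟩ := std_formula M (Or.inr rfl) hM δ₁ δ₂ hδ₁ hδ₂ Q hQ hdd
  rw [if_pos rfl] at huc'
  rw [if_neg (by norm_num)] at hud'
  have hne : ((-2 : E)) ^ n ≠ 0 := pow_ne_zero _ (neg_ne_zero.mpr two_ne_zero)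
  have h3 : M.comp_unit.unit = cst E R (Units.mk0 _ hne) * (∏ a ∈ lowIndices M, Q a) *
      (δ₁ * δ₂) := by
    apply Units.ext
    rw [IsUnit.unit_spec, Units.val_mul, Units.val_mul, Units.val_mul, hδ₁, hδ₂, Units.coe_prod,
      Finset.prod_congr rfl fun a ha => hQ a ha, ← det_b]
    have h4 : ((cst E R (Units.mk0 _ hne) : Rˣ) : R) = (-2) ^ n := by
      change algebraMap E R ((-2) ^ n) = _
      rw [map_pow, map_neg, map_ofNat]
    rw [h4]
    have h5 := congrArg Matrix.det hM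
    rw [Matrix.det_mul, Matrix.det_mul, det_gz, Matrix.det_fromBlocks_zero₂₁] at h5
    rw [h5]
    ring
  refine ⟨uc, ud, Q, Units.mk0 _ hne * ec⁻¹ * ed⁻¹, hc, hd, ?_, ?_⟩
  · intro a ha
    rw [hQ a ha]
    exact isHodgePeriod_block M a
  · rw [h3, huc', hud']
    simp only [map_mul, map_inv]
    change _ = _ * (cst E R ec)⁻¹ * (cst E R ed)⁻¹ * (cst E R ec * _ * δ₁) *
      (cst E R ed * _ * δ₂) * _
    generalize (∏ a ∈ lowIndices M, Q a) = P
    generalize cst E R ec = x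
    generalize cst E R ed = y
    generalize cst E R (Units.mk0 _ hne) = z
    have h6 : z * x⁻¹ * y⁻¹ * (x * P * δ₁) * (y * P * δ₂) * P⁻¹ =
        (x * x⁻¹) * (y * y⁻¹) * (P * P⁻¹) * (z * P * (δ₁ * δ₂)) := by
      simp only [mul_comm, mul_assoc, mul_left_comm]
    rw [h6]
    simp

end Pool.Agent.MP100fe7Cv
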