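import Mathlib

/-!
Polynomials in two sets of variables which are symmetric in each of them: they are integral
combinations of the products of elementary symmetric polynomials of the two sets.
-/

namespace Pool.Agent.MP100fe7Cv

open MvPolynomial

section one

variable {β : Type} [Fintype β]

theorem two_list (R : Type) [CommRing R] {m : ℕ} (t : Fin m →₀ ℕ) : ∃ l : List ℕ,
    (aeval (fun i : Fin m => esymm β R (i + 1))) (monomial t (1 : R)) =
      (l.map (esymm β R)).prod := by
  induction t using Finsupp.induction_linear with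
  | zero => exact ⟨[], by simp⟩
  | add f g hf hg =>
    obtain ⟨l₁, h₁⟩ := hf
    obtain ⟨l₂, h₂⟩ := hg
    refine ⟨l₁ ++ l₂, ?_⟩
    have h3 : (monomial (f + g) (1 : R) : MvPolynomial (Fin m) R) =
        monomial f 1 * monomial g 1 := by
      rw [monomial_mul, one_mul]
    rw [h3, map_mul, h₁, h₂, List.map_append, List.prod_append]
  | single i a =>
    refine ⟨List.replicate a ((i : ℕ) + 1), ?_⟩
    rw [← X_pow_eq_monomial, map_pow, aeval_X, List.map_replicate, List.prod_replicate]

/-- one set of variables -/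
theorem one_set (g : MvPolynomial β ℤ) (hg : g.IsSymmetric) :
    g ∈ Submodule.span ℤ {g | ∃ l : List ℕ, g = (l.map (esymm β ℤ)).prod} := by
  obtain ⟨P, hP⟩ := esymmAlgHom_surjective (σ := β) ℤ (n := Fintype.card β) le_rfl ⟨g, hg⟩
  have h1 : g = (aeval fun i : Fin (Fintype.card β) => esymm β ℤ (i + 1)) P := by
    rw [← esymmAlgHom_apply, hP]
  rw [h1, P.as_sum, map_sum]
  apply Submodule.sum_mem
  intro t _
  obtain ⟨l, hl⟩ := two_list (β := β) ℤ t
  have h2 : monomial t (coeff t P) = (coeff t P) • (monomial t (1 : ℤ)) := by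
    rw [smul_monomial, smul_eq_mul, mul_one]
  rw [h2, map_smul, hl]
  exact Submodule.smul_mem _ _ (Submodule.subset_span ⟨l, rfl⟩)

end one

section two

variable {α β : Type}

theorem two_left (e : Equiv.Perm α) (f : MvPolynomial (α ⊕ β) ℤ) :
    sumAlgEquiv ℤ α β (rename (Sum.map e id) f) = rename e (sumAlgEquiv ℤ α β f) := by
  have h : ((sumAlgEquiv ℤ α β).toAlgHom.comp (rename (Sum.map e id))) =
      (((rename e : MvPolynomial α (MvPolynomial β ℤ) →ₐ[MvPolynomial β ℤ] _).restrictScalars
        ℤ).comp (sumAlgEquiv ℤ α β).toAlgHom) := by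
    apply MvPolynomial.algHom_ext
    intro x
    rcases x with a | b
    · simp
    · simp
  exact DFunLike.congr_fun h f

theorem two_right (e : Equiv.Perm β) (f : MvPolynomial (α ⊕ β) ℤ) :
    sumAlgEquiv ℤ α β (rename (Sum.map id e) f) =
      map (rename e : MvPolynomial β ℤ →ₐ[ℤ] MvPolynomial β ℤ).toRingHom
        (sumAlgEquiv ℤ α β f) := by
  have h : ((sumAlgEquiv ℤ α β).toAlgHom.comp (rename (Sum.map id e))) =
      ((mapAlgHom (rename e : MvPolynomial β ℤ →ₐ[ℤ] MvPolynomial β ℤ)).comp
        (sumAlgEquiv ℤ α β).toAlgHom) := by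
    apply MvPolynomial.algHom_ext
    intro x
    rcases x with a | b
    · simp
    · simp
  exact DFunLike.congr_fun h f

theorem two_inr (p : MvPolynomial β ℤ) :
    sumAlgEquiv ℤ α β (rename Sum.inr p) = C p := by
  have h := DFunLike.congr_fun (sumAlgEquiv_comp_rename_inr (R := ℤ) (S₁ := α) (S₂ := β)) p
  exact h

theorem two_inl (q : MvPolynomial α ℤ) :
    sumAlgEquiv ℤ α β (rename Sum.inl q) = map (algebraMap ℤ (MvPolynomial β ℤ)) q := by
  have h := DFunLike.congr_fun (sumAlgEquiv_comp_rename_inl (R := ℤ) (S₁ := α) (S₂ := β)) q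
  exact h

theorem two_inl_list [Fintype α] (l : List ℕ) :
    sumAlgEquiv ℤ α β (rename Sum.inl ((l.map (esymm α ℤ)).prod)) =
      (l.map (esymm α (MvPolynomial β ℤ))).prod := by
  rw [two_inl, map_list_prod, List.map_map]
  congr 1
  apply List.map_congr_left
  intro k _
  exact map_esymm α ℤ k (algebraMap ℤ (MvPolynomial β ℤ))

theorem two_sets [Fintype α] [Fintype β] [DecidableEq α] [DecidableEq β]
    (f : MvPolynomial (α ⊕ β) ℤ) (h1 : ∀ e : Equiv.Perm α, rename (Sum.map e id) f = f)
    (h2 : ∀ e : Equiv.Perm β, rename (Sum.map id e) f = f) :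
    f ∈ Submodule.span ℤ {g | ∃ l l' : List ℕ, g = rename Sum.inl ((l.map (esymm α ℤ)).prod) *
      rename Sum.inr ((l'.map (esymm β ℤ)).prod)} := by
  obtain ⟨g, hg⟩ : ∃ g, g = sumAlgEquiv ℤ α β f := ⟨_, rfl⟩
  have hsym : g.IsSymmetric := by
    intro e
    rw [hg, ← two_left, h1]
  have hmap : ∀ e : Equiv.Perm β,
      map (rename e : MvPolynomial β ℤ →ₐ[ℤ] MvPolynomial β ℤ).toRingHom g = g := by
    intro e
    rw [hg, ← two_right, h2]
  obtain ⟨P, hP⟩ := esymmAlgHom_surjective (σ := α) (MvPolynomial β ℤ) (n := Fintype.card α)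
    le_rfl ⟨g, hsym⟩
  have hgP : g = (aeval fun i : Fin (Fintype.card α) =>
      esymm α (MvPolynomial β ℤ) (i + 1)) P := by
    rw [← esymmAlgHom_apply, hP]
  -- the coefficients of `P` are symmetric
  have hc : ∀ (t : Fin (Fintype.card α) →₀ ℕ), (coeff t P).IsSymmetric := by
    intro t e
    obtain ⟨φ, hφ⟩ : ∃ φ, φ = (rename e : MvPolynomial β ℤ →ₐ[ℤ] MvPolynomial β ℤ).toRingHom :=
      ⟨_, rfl⟩
    have h3 : map φ ((aeval fun i : Fin (Fintype.card α) =>
        esymm α (MvPolynomial β ℤ) (i + 1)) P) =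
        (aeval fun i : Fin (Fintype.card α) => esymm α (MvPolynomial β ℤ) (i + 1)) (map φ P) := by
      have h4 : ((map φ).comp (aeval fun i : Fin (Fintype.card α) =>
          esymm α (MvPolynomial β ℤ) (i + 1)).toRingHom) =
          ((aeval fun i : Fin (Fintype.card α) =>
            esymm α (MvPolynomial β ℤ) (i + 1)).toRingHom.comp (map φ)) := by
        apply MvPolynomial.ringHom_ext
        · intro r
          simp
        · intro i
          simp [map_esymm]
      exact RingHom.congr_fun h4 P
    have h5 : map φ P = P := by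
      apply esymmAlgHom_injective (σ := α) (MvPolynomial β ℤ) (n := Fintype.card α) le_rfl
      apply Subtype.ext
      have h6 := hmap e
      rw [← hφ, hgP, h3] at h6
      have h7 := esymmAlgHom_apply (σ := α) (n := Fintype.card α) (map φ P)
      have h8 := esymmAlgHom_apply (σ := α) (n := Fintype.card α) P
      exact h7.trans (h6.trans h8.symm)
    have h9 : coeff t (map φ P) = coeff t P := by rw [h5]
    rw [coeff_map, hφ] at h9
    exact h9
  -- the expansion
  have hf : f = ∑ t ∈ P.support, (sumAlgEquiv ℤ α β).symm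
      ((aeval fun i : Fin (Fintype.card α) => esymm α (MvPolynomial β ℤ) (i + 1))
        (monomial t (coeff t P))) := by
    rw [← map_sum, ← map_sum, ← P.as_sum, ← hgP, hg, AlgEquiv.symm_apply_apply]
  rw [hf]
  apply Submodule.sum_mem
  intro t _
  obtain ⟨l, hl⟩ := two_list (β := α) (MvPolynomial β ℤ) t
  have h3 : (sumAlgEquiv ℤ α β).symm
      ((aeval fun i : Fin (Fintype.card α) => esymm α (MvPolynomial β ℤ) (i + 1))
        (monomial t (coeff t P))) =
      rename Sum.inl ((l.map (esymm α ℤ)).prod) * rename Sum.inr (coeff t P) := by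
    rw [AlgEquiv.symm_apply_eq, map_mul, two_inr, two_inl_list, ← hl]
    have h4 : monomial t (coeff t P) = (coeff t P) • (monomial t (1 : MvPolynomial β ℤ)) := by
      rw [smul_monomial, smul_eq_mul, mul_one]
    rw [h4, map_smul, smul_eq_C_mul, mul_comm]
  rw [h3]
  -- the coefficient
  have h5 := one_set (coeff t P) (hc t)
  generalize coeff t P = p at h5 ⊢
  induction h5 using Submodule.span_induction with
  | mem x hx =>
    obtain ⟨l', rfl⟩ := hx
    exact Submodule.subset_span ⟨l, l', rfl⟩
  | zero =>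
    rw [map_zero, mul_zero]
    exact Submodule.zero_mem _
  | add x y _ _ hx hy =>
    rw [map_add, mul_add]
    exact Submodule.add_mem _ hx hy
  | smul a x _ hx =>
    rw [map_smul, mul_smul_comm]
    exact Submodule.smul_mem _ _ hx

end two

end Pool.Agent.MP100fe7Cv
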