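import Pool.Agent.Lib.MP_100fe7_nt.CvGen2

/-!
The exponents are uniform: they only depend on the Hodge types.
-/

set_option linter.unusedSectionVars false

namespace Pool.Agent.MP100fe7K

open MP100fe7T MP100fe7Cv

section cross

variable {E : Type} [Field E] [CharZero E] {E' : Type} [Field E'] [CharZero E']
  {R R' : Type} [CommRing R] [CommRing R']
  {ι : Type} [Fintype ι] [DecidableEq ι] {σ : ι → Shape} {w : ι → ℤ}
  (M : ∀ i, Datum R (σ i) (w i)) (M' : ∀ i, Datum R' (σ i) (w i))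
  {κ : Type} [Fintype κ] [DecidableEq κ] (ρ : Rep E σ κ) (ρ' : Rep E' σ κ)
  (hwt : ρ.wt = ρ'.wt) (htw : ρ.twist = ρ'.twist) (hdeg : ρ.deg = ρ'.deg)
  (hp : ∀ i, (M i).p = (M' i).p)

include hwt htw in
theorem weight_cross : ρ.weight = ρ'.weight := by
  funext s q
  unfold Rep.weight
  rw [hwt, htw]

include hwt htw hp in
theorem hodgeIdx_cross : ρ.hodgeIdx M = ρ'.hodgeIdx M' := by
  funext s
  unfold Rep.hodgeIdx
  rw [weight_cross ρ ρ' hwt htw]
  apply Finset.sum_congr rfl
  intro q _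
  unfold Datum.hodgeIdx
  rw [hp q.1]

include htw hdeg in
theorem motWeight_cross : ρ.motWeight w = ρ'.motWeight w := by
  unfold Rep.motWeight
  rw [htw, hdeg]

include hwt htw hdeg hp in
theorem noMiddle_cross : ρ.NoMiddle M ↔ ρ'.NoMiddle M' := by
  unfold Rep.NoMiddle
  rw [hodgeIdx_cross M M' ρ ρ' hwt htw hp, motWeight_cross ρ ρ' htw hdeg]

include hwt htw hdeg hp in
theorem Vl_cross : Vl ρ M = Vl ρ' M' := by
  funext q
  unfold Vl Rep.lowPart
  rw [hodgeIdx_cross M M' ρ ρ' hwt htw hp, motWeight_cross ρ ρ' htw hdeg,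
    weight_cross ρ ρ' hwt htw]

include hwt htw in
theorem Vs_cross (ε : ℤ) : Vs ρ ε = Vs ρ' ε := by
  funext q
  unfold Vs Rep.signPart Rep.sgn
  rw [weight_cross ρ ρ' hwt htw, hwt, htw]

theorem tensorExt_wt (E E' : Type) [Field E] [Field E'] {ι : Type} [Fintype ι] [DecidableEq ι]
    (σ : ι → Shape) (L : List (ι × ℕ)) : (tensorExt E σ L).wt = (tensorExt E' σ L).wt := rfl

theorem tensorExt_deg (E E' : Type) [Field E] [Field E'] {ι : Type} [Fintype ι] [DecidableEq ι]
    (σ : ι → Shape) (L : List (ι × ℕ)) : (tensorExt E σ L).deg = (tensorExt E' σ L).deg := rfl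

theorem tensorExt_tw (E E' : Type) [Field E] [Field E'] {ι : Type} [Fintype ι] [DecidableEq ι]
    (σ : ι → Shape) (L : List (ι × ℕ)) : (tensorExt E σ L).twist = (tensorExt E' σ L).twist := by
  funext i
  rw [tensorExt_twist, tensorExt_twist]

end cross

/-- All the data with given Hodge indices. -/
structure Inst {ι : Type} (σ : ι → Shape) (w : ι → ℤ) (p : ∀ i, Fin (σ i).n → ℤ) where
  /-- the field of coefficients -/
  E : Type
  fE : Field E
  cE : CharZero E
  /-- the ring of periods -/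
  R : Type
  cR : CommRing R
  aR : Algebra E R
  /-- the motives -/
  M : ∀ i, Datum R (σ i) (w i)
  hp : ∀ i, (M i).p = p i

attribute [instance] Inst.fE Inst.cE Inst.cR Inst.aR

theorem fac_map {R : Type} [CommRing R] {ι : Type} [Fintype ι] [DecidableEq ι] {σ : ι → Shape}
    {w : ι → ℤ} (M : ∀ i, Datum R (σ i) (w i)) {𝔾 𝔾' : Type*} [CommGroup 𝔾] [CommGroup 𝔾']
    (φ : 𝔾 →* 𝔾') (c d D : ι → 𝔾) (q : ι → ℤ → 𝔾) (A B : ι → ℤ) (S : ι → ℤ → ℤ) (i : ι) :
    φ (fac M c d D q A B S i) =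
      fac M (fun i => φ (c i)) (fun i => φ (d i)) (fun i => φ (D i)) (fun i a => φ (q i a))
        A B S i := by
  unfold fac
  split_ifs
  · rw [map_mul, map_mul, map_zpow, map_zpow, map_prod]
    simp only [map_zpow]
  · rw [map_mul, map_zpow, map_prod]
    simp only [map_zpow]

section main

variable {ι : Type} [Fintype ι] [DecidableEq ι] {σ : ι → Shape} {w : ι → ℤ}
  {p : ∀ i, Fin (σ i).n → ℤ}

/-- The monomial formula for the basic periods, with exponents which only depend on the Hodge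
types. -/
theorem uniform (hgood : ∀ i, Good σ w p i) (J₀ : Inst σ w p) :
    ∃ (kq : ι → ℤ → (List (ι × ℕ) × ℤ) →₀ ℤ) (kD : ι → (List (ι × ℕ) × ℤ) →₀ ℤ),
      (∀ i a, ∀ t ∈ (kq i a).support, t.2 = 1 ∨ t.2 = -1) ∧
      (∀ i, ∀ t ∈ (kD i).support, t.2 = 1 ∨ t.2 = -1) ∧
      ∀ J : Inst σ w p,
        (∀ i a, ∀ t ∈ (kq i a).support, (tensorExt J.E σ t.1).NoMiddle J.M) ∧
        (∀ i, ∀ t ∈ (kD i).support, (tensorExt J.E σ t.1).NoMiddle J.M) ∧
        ∀ X : List (ι × ℕ) × ℤ → J.Rˣ,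
          (∀ i, ∀ a ∈ (J.M i).lowIndices, (∀ t ∈ (kq i a).support,
            (tensorExt J.E σ t.1).IsPeriod J.M ((t.2 : ℤ) : J.E) (X t : J.R)) →
            ∀ u : J.Rˣ, (J.M i).IsHodgePeriod a (u : J.R) → ∃ e : J.Eˣ,
              u = Units.map (algebraMap J.E J.R).toMonoidHom e *
                ∏ t ∈ (kq i a).support, X t ^ kq i a t) ∧
          (∀ i, (∀ t ∈ (kD i).support,
            (tensorExt J.E σ t.1).IsPeriod J.M ((t.2 : ℤ) : J.E) (X t : J.R)) →
            ∀ u : J.Rˣ, (u : J.R) = (J.M i).comp.det → ∃ e : J.Eˣ,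
              u = Units.map (algebraMap J.E J.R).toMonoidHom e *
                ∏ t ∈ (kD i).support, X t ^ kD i t) := by
  classical
  -- the basic periods
  choose c d D q hcd hD hq using fun J : Inst σ w p => exists_units (E := J.E) J.M
  have hNM : ∀ (J : Inst σ w p) (L : List (ι × ℕ)),
      (tensorExt J.E σ L).NoMiddle J.M ↔ (tensorExt J₀.E σ L).NoMiddle J₀.M := fun J L =>
    noMiddle_cross J.M J₀.M _ _ (tensorExt_wt J.E J₀.E σ L) (tensorExt_tw J.E J₀.E σ L)
      (tensorExt_deg J.E J₀.E σ L) (fun i => (J.hp i).trans (J₀.hp i).symm)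
  have hx : ∀ (J : Inst σ w p) (t : List (ι × ℕ) × ℤ), ∃ x : J.Rˣ,
      (tensorExt J₀.E σ t.1).NoMiddle J₀.M → (t.2 = 1 ∨ t.2 = -1) →
      (tensorExt J.E σ t.1).IsPeriod J.M ((t.2 : ℤ) : J.E) (x : J.R) := by
    intro J t
    by_cases h : (tensorExt J₀.E σ t.1).NoMiddle J₀.M ∧ (t.2 = 1 ∨ t.2 = -1)
    · have h1 := (hNM J t.1).mpr h.1
      obtain ⟨x, hx⟩ := Rep.exists_period (E := J.E) (tensorExt J.E σ t.1) J.M _ t.2
        (Rep.isStep_of_noMiddle _ J.M h1 h.2)
      obtain ⟨u, rfl⟩ := isUnit_period J.M _ h1 h.2 hx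
      exact ⟨u, fun _ _ => hx⟩
    · exact ⟨1, fun h1 h2 => absurd ⟨h1, h2⟩ h⟩
  choose x hx using hx
  -- uniqueness of the periods
  have huniq : ∀ (J : Inst σ w p) (t : List (ι × ℕ) × ℤ),
      (tensorExt J₀.E σ t.1).NoMiddle J₀.M → (t.2 = 1 ∨ t.2 = -1) → ∀ X : J.Rˣ,
      (tensorExt J.E σ t.1).IsPeriod J.M ((t.2 : ℤ) : J.E) (X : J.R) →
      cls J.E (x J t) = cls J.E X := by
    intro J t h1 h2 X hX
    obtain ⟨e, he⟩ := period_reindex J.M (tensorExt J.E σ t.1) (tensorExt J.E σ t.1)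
      (Equiv.refl _) (fun _ => rfl) rfl rfl ((hNM J t.1).mpr h1) h2 (hx J t h1 h2) hX
    exact cls_eq_of_val J.E e he
  let 𝔾 := ∀ J : Inst σ w p, Cl J.E J.R
  let X : List (ι × ℕ) × ℤ → 𝔾 := fun t J => cls J.E (x J t)
  let P : List (ι × ℕ) × ℤ → Prop := fun t =>
    (tensorExt J₀.E σ t.1).NoMiddle J₀.M ∧ (t.2 = 1 ∨ t.2 = -1)
  let G : Subgroup 𝔾 := Subgroup.closure (X '' {t | P t})
  let c' : ι → 𝔾 := fun i J => cls J.E (c J i)
  let d' : ι → 𝔾 := fun i J => cls J.E (d J i)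
  let D' : ι → 𝔾 := fun i J => cls J.E (D J i)
  let q' : ι → ℤ → 𝔾 := fun i a J => cls J.E (q J i a)
  have hone : ∀ (i : ι), NoMid (σ i) → ∀ (ε : ℤ), (ε = 1 ∨ ε = -1) →
      ∀ u : ∀ J : Inst σ w p, J.Rˣ,
      (∀ J : Inst σ w p, (J.M i).IsPeriod ((ε : ℤ) : J.E) (u J : J.R)) →
      (fun J => cls J.E (u J) : 𝔾) ∈ G := by
    intro i hi ε hε u hu
    have h1 : (fun J => cls J.E (u J) : 𝔾) = X ([(i, 1)], ε) := by
      funext J
      have hn := nm_tensor_one (E := J₀.E) J₀.M i hi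
      obtain ⟨e, he⟩ := period_reindex J.M (projRep J.E σ i) (tensorExt J.E σ [(i, 1)])
        (projEquiv σ i) (wt_projEquiv i) (by
          funext i'
          exact tensorExt_twist J.E _ i') (by
          funext i'
          change (if i' = i then 1 else 0) + 0 = _
          rw [add_zero]
          rfl) (noMiddle_proj J.M i hi) hε (isPeriod_proj J.M i (hu J))
          (hx J ([(i, 1)], ε) hn hε)
      exact cls_eq_of_val J.E e he
    rw [h1]
    exact Subgroup.subset_closure ⟨_, ⟨nm_tensor_one J₀.M i hi, hε⟩, rfl⟩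
  have hc : ∀ i, NoMid (σ i) → c' i ∈ G ∧ d' i ∈ G := by
    intro i hi
    refine ⟨hone i hi 1 (Or.inl rfl) (fun J => c J i) fun J => ?_,
      hone i hi (-1) (Or.inr rfl) (fun J => d J i) fun J => ?_⟩
    · rw [Int.cast_one]
      exact (hcd J i hi).1
    · rw [Int.cast_neg, Int.cast_one]
      exact (hcd J i hi).2
  have hall : ∀ W ∈ extVec J₀.E J₀.M, InG J₀.M c' d' D' q' G W := by
    apply inG_closure
    rintro W ⟨L, hL, rfl⟩
    obtain ⟨A, B, S, hE, -⟩ := nm_formula (tensorExt J₀.E σ L) J₀.M hL (ε := 1) (Or.inl rfl)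
    refine ⟨A, B, S, hE.vec J₀.M hL (Or.inl rfl), ?_⟩
    have h1 : ∏ i, fac J₀.M c' d' D' q' A B S i = X (L, 1) := by
      funext J
      have h2 : (∏ i, fac J₀.M c' d' D' q' A B S i : 𝔾) J = ∏ i, fac J₀.M
          (fun i => cls J.E (c J i)) (fun i => cls J.E (d J i)) (fun i => cls J.E (D J i))
          (fun i a => cls J.E (q J i a)) A B S i := by
        refine (map_prod (Pi.evalMonoidHom (fun J : Inst σ w p => Cl J.E J.R) J) _ _).trans ?_
        apply Finset.prod_congr rfl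
        intro i _
        exact fac_map J₀.M (Pi.evalMonoidHom (fun J : Inst σ w p => Cl J.E J.R) J) c' d' D' q'
          A B S i
      rw [h2]
      have hLJ := (hNM J L).mpr hL
      obtain ⟨A₁, B₁, S₁, hE₁, hf⟩ := nm_formula (tensorExt J.E σ L) J.M hLJ (ε := 1)
        (Or.inl rfl)
      obtain ⟨e, he⟩ := hf (x J (L, 1)) (c J) (d J) (D J) (q J) (hx J (L, 1) hL (Or.inl rfl))
        (hcd J) (hD J) (hq J)
      have h4 : cls J.E (x J (L, 1)) =
          cls J.E (∏ i, fac J.M (c J) (d J) (D J) (q J) A₁ B₁ S₁ i) :=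
        cls_eq_of_val J.E e (by rw [he]; rfl)
      change _ = cls J.E (x J (L, 1))
      rw [h4, map_prod]
      apply Finset.prod_congr rfl
      intro i _
      rw [fac_map]
      refine fac_unique J₀.M J.M (Vs_cross _ _ (tensorExt_wt J₀.E J.E σ L)
        (tensorExt_tw J₀.E J.E σ L) 1) (Vl_cross J₀.M J.M _ _ (tensorExt_wt J₀.E J.E σ L)
        (tensorExt_tw J₀.E J.E σ L) (tensorExt_deg J₀.E J.E σ L)
        (fun i => (J₀.hp i).trans (J.hp i).symm))
        (fun i => (J₀.hp i).trans (J.hp i).symm) hE hE₁ _ _ _ _ ?_ i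
      intro i hi hn
      obtain ⟨e1, e2⟩ := period_one J.M (c J) (d J) (hcd J) i hi hn
      rw [e1, e2]
      exact ⟨map_one _, map_one _⟩
    rw [h1]
    exact Subgroup.subset_closure ⟨_, ⟨hL, Or.inl rfl⟩, rfl⟩
  have hgood' : ∀ i, Good σ w (fun i => (J₀.M i).p) i := by
    intro i
    have : (fun i => (J₀.M i).p) = p := funext fun i => J₀.hp i
    rw [this]
    exact hgood i
  obtain ⟨h1, h2⟩ := main_abs J₀.M c' d' D' q' G hc (extVec J₀.E J₀.M) hall
    (hasCons_extVec J₀.M (fam0 σ)) hgood'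
  have hlow : ∀ (J : Inst σ w p) i, (J.M i).lowIndices = (J₀.M i).lowIndices := by
    intro J i
    unfold Datum.lowIndices
    rw [J.hp i, J₀.hp i]
  have h3 : ∀ i, D' i ∈ G := by
    intro i
    by_cases hi : NoMid (σ i)
    · have h4 : D' i = c' i * d' i * (∏ a ∈ (J₀.M i).lowIndices, q' i a)⁻¹ := by
        rw [eq_mul_inv_iff_mul_eq]
        funext J
        have h5 := det_relation (E := J.E) (J.M i) (Or.inl hi.1) (c J i) (d J i) (D J i) (q J i)
          (hcd J i hi).1 (hcd J i hi).2 (hD J i) (hq J i)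
        rw [map_mul, map_mul, map_prod, hlow J i] at h5
        have h6 : (D' i * ∏ a ∈ (J₀.M i).lowIndices, q' i a : 𝔾) J =
            D' i J * ∏ a ∈ (J₀.M i).lowIndices, q' i a J := by
          rw [Pi.mul_apply, Finset.prod_apply]
        rw [h6]
        exact h5.symm
      rw [h4]
      exact mul_mem (mul_mem (hc i hi).1 (hc i hi).2)
        (inv_mem (Subgroup.prod_mem _ fun a ha => h1 i a ha))
    · exact h2 i hi
  -- words
  have hword : ∀ g ∈ G, ∃ k : (List (ι × ℕ) × ℤ) →₀ ℤ, (∀ t ∈ k.support, P t) ∧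
      g = k.prod fun t m => X t ^ m := by
    intro g hg
    induction hg using Subgroup.closure_induction with
    | mem g hg =>
      obtain ⟨t, ht, rfl⟩ := hg
      refine ⟨Finsupp.single t 1, ?_, ?_⟩
      · intro t' ht'
        have := Finsupp.support_single_subset ht'
        rw [Finset.mem_singleton] at this
        rw [this]
        exact ht
      · rw [Finsupp.prod_single_index (zpow_zero _), zpow_one]
    | one => exact ⟨0, by simp, by simp⟩
    | mul g g' _ _ hg hg' =>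
      obtain ⟨k, hk, rfl⟩ := hg
      obtain ⟨k', hk', rfl⟩ := hg'
      refine ⟨k + k', ?_, ?_⟩
      · intro t ht
        rcases Finset.mem_union.mp (Finsupp.support_add ht) with h | h
        · exact hk t h
        · exact hk' t h
      · rw [Finsupp.prod_add_index' (fun t => zpow_zero _) (fun t a b => zpow_add _ _ _)]
    | inv g _ hg =>
      obtain ⟨k, hk, rfl⟩ := hg
      refine ⟨-k, ?_, ?_⟩
      · intro t ht
        rw [Finsupp.support_neg] at ht
        exact hk t ht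
      · rw [Finsupp.prod_neg_index (fun t => zpow_zero _)]
        unfold Finsupp.prod
        rw [← Finset.prod_inv_distrib]
        apply Finset.prod_congr rfl
        intro t _
        exact (zpow_neg _ _).symm
  have hwq : ∀ i a, ∃ k : (List (ι × ℕ) × ℤ) →₀ ℤ, (∀ t ∈ k.support, P t) ∧
      (a ∈ (J₀.M i).lowIndices → q' i a = k.prod fun t m => X t ^ m) := by
    intro i a
    by_cases ha : a ∈ (J₀.M i).lowIndices
    · obtain ⟨k, hk, h⟩ := hword _ (h1 i a ha)
      exact ⟨k, hk, fun _ => h⟩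
    · exact ⟨0, by simp, fun h => absurd h ha⟩
  choose kq hkq hkq' using hwq
  choose kD hkD hkD' using fun i => hword _ (h3 i)
  refine ⟨kq, kD, fun i a t ht => (hkq i a t ht).2, fun i t ht => (hkD i t ht).2, fun J =>
    ⟨fun i a t ht => (hNM J t.1).mpr (hkq i a t ht).1,
      fun i t ht => (hNM J t.1).mpr (hkD i t ht).1, fun X₁ => ⟨?_, ?_⟩⟩⟩
  · intro i a ha hX u hu
    have h4 := congrFun (hkq' i a (by rwa [← hlow J i])) J
    have h5 : u = q J i a := Units.ext (((J.M i).hodgePeriod_eq a _ hu).trans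
      ((J.M i).hodgePeriod_eq a _ (hq J i a ha)).symm)
    apply exists_of_cls_eq J.E
    rw [h5]
    change cls J.E (q J i a) = _
    refine h4.trans ?_
    unfold Finsupp.prod
    rw [Finset.prod_apply, map_prod]
    apply Finset.prod_congr rfl
    intro t ht
    rw [map_zpow, ← huniq J t (hkq i a t ht).1 (hkq i a t ht).2 (X₁ t) (hX t ht)]
    rfl
  · intro i hX u hu
    have h4 := congrFun (hkD' i) J
    have h5 : u = D J i := Units.ext (hu.trans (hD J i).symm)
    apply exists_of_cls_eq J.E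
    rw [h5]
    refine h4.trans ?_
    unfold Finsupp.prod
    rw [Finset.prod_apply, map_prod]
    apply Finset.prod_congr rfl
    intro t ht
    rw [map_zpow, ← huniq J t (hkD i t ht).1 (hkD i t ht).2 (X₁ t) (hX t ht)]
    rfl

end main

end Pool.Agent.MP100fe7K
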