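import Mathlib

/-!
The wall lemma: a symmetric sum of monomials of odd degree which isolates one Hodge index.
-/

namespace Pool.Agent.MP100fe7Cv

open Finset

/-- the index set `Fin n ⊕ Fin n` -/
abbrev Ix (n : ℕ) := Fin n ⊕ Fin n

section avoid

/-- An integral linear form which does not vanish at finitely many nonzero vectors. -/
theorem avoid (S : Finset (ℤ →₀ ℤ)) (hS : ∀ x ∈ S, x ≠ 0) :
    ∃ u : ℤ → ℤ, ∀ x ∈ S, (Finsupp.linearCombination ℤ u) x ≠ 0 := by
  classical
  induction S using Finset.induction_on with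
  | empty => exact ⟨0, by simp⟩
  | insert x S hx ih =>
    obtain ⟨u, hu⟩ := ih fun y hy => hS y (Finset.mem_insert_of_mem hy)
    by_cases h : (Finsupp.linearCombination ℤ u) x ≠ 0
    · refine ⟨u, ?_⟩
      intro y hy
      rcases Finset.mem_insert.mp hy with rfl | hy
      · exact h
      · exact hu y hy
    · push Not at h
      have hx0 := hS x (Finset.mem_insert_self _ _)
      obtain ⟨c, hc⟩ := Finsupp.ne_iff.mp hx0
      rw [Finsupp.zero_apply] at hc
      let N : ℤ := (∑ y ∈ S, |y c|) + 1
      refine ⟨fun d => N * u d + if d = c then 1 else 0, ?_⟩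
      have key : ∀ y : ℤ →₀ ℤ, (Finsupp.linearCombination ℤ
          (fun d => N * u d + if d = c then (1 : ℤ) else 0)) y =
          N * (Finsupp.linearCombination ℤ u) y + y c := by
        intro y
        induction y using Finsupp.induction_linear with
        | zero => simp
        | add f g hf hg =>
          rw [map_add, map_add, hf, hg, Finsupp.add_apply]
          ring
        | single a b =>
          simp only [Finsupp.linearCombination_single, smul_eq_mul, Finsupp.single_apply]
          by_cases hac : a = c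
          · simp only [hac, if_true]
            ring
          · simp only [hac, if_false]
            ring
      intro y hy
      rw [key]
      rcases Finset.mem_insert.mp hy with rfl | hy
      · rw [h, mul_zero, zero_add]
        exact hc
      · intro h0
        have h1 : N * (Finsupp.linearCombination ℤ u) y = - y c := by linarith
        have h2 : |y c| < N := by
          have : |y c| ≤ ∑ y ∈ S, |y c| :=
            Finset.single_le_sum (f := fun y : ℤ →₀ ℤ => |y c|) (fun _ _ => abs_nonneg _) hy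
          change |y c| < (∑ y ∈ S, |y c|) + 1
          linarith
        have h3 : 1 ≤ |(Finsupp.linearCombination ℤ u) y| := Int.one_le_abs (hu y hy)
        have h4 : |N * (Finsupp.linearCombination ℤ u) y| = |y c| := by rw [h1, abs_neg]
        rw [abs_mul] at h4
        have h5 : 0 ≤ N := le_trans (abs_nonneg _) h2.le
        rw [abs_of_nonneg h5] at h4
        nlinarith

end avoid

variable {n : ℕ} (lam : Ix n → ℤ)

/-- the multiplicity of the value `b` -/
def mult (b : ℤ) : ℕ := (Finset.univ.filter fun j => lam j = b).card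

/-- the linear form which counts a weight at the indices with the value `b` -/
def lin (b : ℤ) (ν : Ix n → ℤ) : ℤ :=
  n * (∑ j ∈ Finset.univ.filter fun j => lam j = b, ν j) - mult lam b * ∑ j, ν j

/-- the contribution of a weight to the exponent at the value `b` -/
def theta (b : ℤ) (ν : Ix n → ℤ) : ℤ :=
  if b < 0 ∧ Odd (∑ j, ν j) ∧ ∑ j, lam j * ν j < 0 then lin lam b ν else 0

theorem lin_add (b : ℤ) (ν μ : Ix n → ℤ) : lin lam b (fun j => ν j + μ j) =
    lin lam b ν + lin lam b μ := by
  unfold lin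
  rw [Finset.sum_add_distrib, Finset.sum_add_distrib]
  ring

theorem lin_smul (b : ℤ) (c : ℤ) (ν : Ix n → ℤ) : lin lam b (fun j => c * ν j) =
    c * lin lam b ν := by
  unfold lin
  rw [← Finset.mul_sum, ← Finset.mul_sum]
  ring

variable (j₀ : Ix n)

/-- the basic arrangement -/
def al (j : Ix n) : ℤ := if j = j₀ then 0 else lam j

/-- the arrangements -/
noncomputable def arr : Finset (Ix n → ℤ) := by
  classical
  exact Finset.univ.image fun σ : Equiv.Perm (Ix n) => fun j => al lam j₀ (σ j)

theorem mem_arr (α : Ix n → ℤ) : α ∈ arr lam j₀ ↔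
    ∃ σ : Equiv.Perm (Ix n), (fun j => al lam j₀ (σ j)) = α := by
  classical
  unfold arr
  simp

theorem arr_comp {α : Ix n → ℤ} (h : α ∈ arr lam j₀) (τ : Equiv.Perm (Ix n)) :
    (fun j => α (τ j)) ∈ arr lam j₀ := by
  rw [mem_arr] at h ⊢
  obtain ⟨σ, rfl⟩ := h
  exact ⟨τ.trans σ, rfl⟩

theorem sum_arr {α : Ix n → ℤ} (h : α ∈ arr lam j₀) (f : ℤ → ℤ) :
    ∑ j, f (α j) = ∑ j, f (al lam j₀ j) := by
  rw [mem_arr] at h
  obtain ⟨σ, rfl⟩ := h
  exact Equiv.sum_comp σ fun j => f (al lam j₀ j)

variable (hodd : ∀ j, Odd (lam j))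

include hodd in
theorem lam_ne (j : Ix n) : lam j ≠ 0 := by
  intro h
  have := hodd j
  rw [h] at this
  exact absurd this (by decide)

/-- the value at the mark `0` of an arrangement -/
def qv (α : Ix n → ℤ) : ℤ := ∑ j, if α j = 0 then lam j else 0

include hodd in
theorem exists_pos {α : Ix n → ℤ} (h : α ∈ arr lam j₀) : ∃ i, ∀ j, α j = 0 ↔ j = i := by
  rw [mem_arr] at h
  obtain ⟨σ, rfl⟩ := h
  refine ⟨σ.symm j₀, ?_⟩
  intro j
  simp only [al]
  constructor
  · intro hj
    by_contra hne
    have : σ j ≠ j₀ := by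
      intro h1
      apply hne
      rw [← h1]
      simp
    rw [if_neg this] at hj
    exact lam_ne lam hodd _ hj
  · rintro rfl
    simp

theorem qv_eq {α : Ix n → ℤ} {i : Ix n} (h : ∀ j, α j = 0 ↔ j = i) : qv lam α = lam i := by
  unfold qv
  simp only [h]
  simp

/-- the linear form of an arrangement -/
def lv (v : ℤ → ℤ) (α : Ix n → ℤ) : ℤ := ∑ j, lam j * v (α j)

/-- the good point on the wall -/
theorem exists_good (hsum : ∑ j, lam j = 0) : ∃ v : ℤ → ℤ, (∀ j, 1 ≤ v (al lam j₀ j)) ∧
    Even (∑ j, v (al lam j₀ j)) ∧ ∀ α ∈ arr lam j₀,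
      (lv lam v α = 0 ↔ ∀ f : ℤ → ℤ, lam j₀ * ∑ j, lam j * f (α j) =
        qv lam α * ∑ j, lam j * f (al lam j₀ j)) ∧
      (lv lam v α ≠ 0 → ∀ j, |lam j| < |lv lam v α|) := by
  classical
  let x : (Ix n → ℤ) → (ℤ →₀ ℤ) := fun α =>
    lam j₀ • (∑ j, Finsupp.single (α j) (lam j)) -
      qv lam α • (∑ j, Finsupp.single (al lam j₀ j) (lam j))
  have hx : ∀ (α : Ix n → ℤ) (f : ℤ → ℤ), (Finsupp.linearCombination ℤ f) (x α) =
      lam j₀ * (∑ j, lam j * f (α j)) - qv lam α * ∑ j, lam j * f (al lam j₀ j) := by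
    intro α f
    simp only [x, map_sub, map_smul, map_sum, Finsupp.linearCombination_single, smul_eq_mul]
  obtain ⟨u, hu⟩ := avoid ((arr lam j₀).image x |>.filter fun y => y ≠ 0)
    fun y hy => (Finset.mem_filter.mp hy).2
  let U : ℤ := ∑ j, lam j * u (al lam j₀ j)
  let N : ℤ := 2 * ((∑ j, |lam j|) + 1)
  let v₁ : ℤ → ℤ := fun c => lam j₀ * u c - if c = 0 then U else 0
  let M : ℤ := (∑ j, |N * v₁ (al lam j₀ j)|) + 1
  let v : ℤ → ℤ := fun c => N * v₁ c + M
  have h1 : ∀ α, lv lam v₁ α = (Finsupp.linearCombination ℤ u) (x α) := by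
    intro α
    rw [hx]
    unfold lv
    have h2 : ∀ j, lam j * v₁ (α j) = lam j₀ * (lam j * u (α j)) -
        (if α j = 0 then lam j else 0) * U := by
      intro j
      simp only [v₁]
      split_ifs <;> ring
    rw [Finset.sum_congr rfl fun j _ => h2 j, Finset.sum_sub_distrib, ← Finset.mul_sum,
      ← Finset.sum_mul]
    rfl
  have h3 : ∀ α, lv lam v α = N * lv lam v₁ α := by
    intro α
    unfold lv
    simp only [v]
    rw [Finset.mul_sum]
    have h4 : ∀ j, lam j * (N * v₁ (α j) + M) = N * (lam j * v₁ (α j)) + lam j * M := by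
      intro j
      ring
    rw [Finset.sum_congr rfl fun j _ => h4 j, Finset.sum_add_distrib, ← Finset.sum_mul, hsum,
      zero_mul, add_zero]
  have hN : 0 < N := by
    have : 0 ≤ ∑ j, |lam j| := Finset.sum_nonneg fun j _ => abs_nonneg _
    simp only [N]
    linarith
  refine ⟨v, ?_, ?_, ?_⟩
  · intro j
    have h5 : |N * v₁ (al lam j₀ j)| ≤ ∑ j, |N * v₁ (al lam j₀ j)| :=
      Finset.single_le_sum (f := fun j => |N * v₁ (al lam j₀ j)|) (fun _ _ => abs_nonneg _)
        (Finset.mem_univ j)
    have h6 := neg_abs_le (N * v₁ (al lam j₀ j))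
    simp only [v, M]
    linarith
  · simp only [v]
    rw [Finset.sum_add_distrib, ← Finset.mul_sum, Finset.sum_const]
    have h7 : (Finset.univ : Finset (Ix n)).card = 2 * n := by
      rw [Finset.card_univ, Fintype.card_sum, Fintype.card_fin]
      ring
    rw [h7]
    refine Even.add ?_ ?_
    · simp only [N]
      rw [mul_assoc]
      exact even_two_mul _
    · rw [nsmul_eq_mul, Nat.cast_mul, mul_assoc]
      exact even_two_mul _
  · intro α hα
    refine ⟨⟨?_, ?_⟩, ?_⟩
    · intro h0 f
      rw [h3] at h0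
      have h8 : lv lam v₁ α = 0 := by
        rcases mul_eq_zero.mp h0 with h | h
        · exact absurd h hN.ne'
        · exact h
      rw [h1] at h8
      have h9 : x α = 0 := by
        by_contra hne
        exact hu (x α) (Finset.mem_filter.mpr ⟨Finset.mem_image_of_mem x hα, hne⟩) h8
      have h10 := hx α f
      rw [h9, map_zero] at h10
      linarith
    · intro h0
      rw [h3, h1, hx, h0 u, sub_self, mul_zero]
    · intro h0 j
      rw [h3] at h0 ⊢
      have h8 : lv lam v₁ α ≠ 0 := right_ne_zero_of_mul h0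
      have h9 : 1 ≤ |lv lam v₁ α| := Int.one_le_abs h8
      rw [abs_mul, abs_of_pos hN]
      have h10 : |lam j| ≤ ∑ j, |lam j| :=
        Finset.single_le_sum (f := fun j => |lam j|) (fun _ _ => abs_nonneg _) (Finset.mem_univ j)
      have h11 : |lam j| < N := by
        simp only [N]
        have := abs_nonneg (lam j)
        linarith
      nlinarith

section wall

variable {lam j₀} {v : ℤ → ℤ}
  (hv : ∀ α ∈ arr lam j₀, (lv lam v α = 0 ↔ ∀ f : ℤ → ℤ, lam j₀ * ∑ j, lam j * f (α j) =
        qv lam α * ∑ j, lam j * f (al lam j₀ j)) ∧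
      (lv lam v α ≠ 0 → ∀ j, |lam j| < |lv lam v α|))

include hodd in
theorem norm_id {α : Ix n → ℤ} (hα : α ∈ arr lam j₀)
    (h : ∀ f : ℤ → ℤ, lam j₀ * ∑ j, lam j * f (α j) =
        qv lam α * ∑ j, lam j * f (al lam j₀ j)) :
    ∑ j, (lam j₀ * lam j - qv lam α * (if α j = 0 then lam j₀ else α j)) ^ 2 =
      (lam j₀ ^ 2 - qv lam α ^ 2) * ∑ j, lam j ^ 2 := by
  have h1 := h fun c => if c = 0 then lam j₀ else c
  have h2 := sum_arr lam j₀ hα fun c => (if c = 0 then lam j₀ else c) ^ 2
  have h3 : ∀ j, (if al lam j₀ j = 0 then lam j₀ else al lam j₀ j) = lam j := by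
    intro j
    unfold al
    by_cases hj : j = j₀
    · subst hj
      simp
    · simp only [if_neg hj, if_neg (lam_ne lam hodd j)]
  simp only [h3] at h1 h2
  have h4 : ∀ j, (lam j₀ * lam j - qv lam α * (if α j = 0 then lam j₀ else α j)) ^ 2 =
      lam j₀ ^ 2 * lam j ^ 2 - 2 * qv lam α * (lam j₀ * (lam j * (if α j = 0 then lam j₀ else α j)))
        + qv lam α ^ 2 * (if α j = 0 then lam j₀ else α j) ^ 2 := by
    intro j
    ring
  rw [Finset.sum_congr rfl fun j _ => h4 j, Finset.sum_add_distrib, Finset.sum_sub_distrib,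
    ← Finset.mul_sum, ← Finset.mul_sum, ← Finset.mul_sum, ← Finset.mul_sum, h1, h2]
  have h5 : ∀ j, lam j * lam j = lam j ^ 2 := fun j => by ring
  simp only [h5]
  ring

include hodd in
theorem sum_sq_pos (hj : Nonempty (Ix n)) : 0 < ∑ j, lam j ^ 2 := by
  obtain ⟨j⟩ := hj
  apply Finset.sum_pos' (fun _ _ => sq_nonneg _)
  exact ⟨j, Finset.mem_univ _, by have := lam_ne lam hodd j; positivity⟩

include hodd in
theorem sq_le {α : Ix n → ℤ} (hα : α ∈ arr lam j₀)
    (h : ∀ f : ℤ → ℤ, lam j₀ * ∑ j, lam j * f (α j) =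
        qv lam α * ∑ j, lam j * f (al lam j₀ j)) : qv lam α ^ 2 ≤ lam j₀ ^ 2 := by
  have h1 := norm_id hodd hα h
  have h2 : 0 ≤ ∑ j, (lam j₀ * lam j - qv lam α * (if α j = 0 then lam j₀ else α j)) ^ 2 :=
    Finset.sum_nonneg fun _ _ => sq_nonneg _
  have h3 := sum_sq_pos hodd ⟨j₀⟩
  rw [h1] at h2
  by_contra hlt
  push Not at hlt
  nlinarith

include hodd in
theorem eq_of_top {α : Ix n → ℤ} (hα : α ∈ arr lam j₀)
    (h : ∀ f : ℤ → ℤ, lam j₀ * ∑ j, lam j * f (α j) =
        qv lam α * ∑ j, lam j * f (al lam j₀ j)) (hq : qv lam α = lam j₀) (j : Ix n)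
    (hj : α j ≠ 0) : α j = lam j := by
  have h1 := norm_id hodd hα h
  rw [hq, sub_self, zero_mul] at h1
  have h2 := (Finset.sum_eq_zero_iff_of_nonneg (fun _ _ => sq_nonneg _)).mp h1 j
    (Finset.mem_univ _)
  rw [if_neg hj, ← mul_sub] at h2
  have h3 := pow_eq_zero_iff (two_ne_zero) |>.mp h2
  rcases mul_eq_zero.mp h3 with h4 | h4
  · exact absurd h4 (lam_ne lam hodd j₀)
  · linarith

/-- the arrangements on the wall -/
noncomputable def wall (lam : Ix n → ℤ) (j₀ : Ix n) (v : ℤ → ℤ) : Finset (Ix n → ℤ) :=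
  (arr lam j₀).filter fun α => lv lam v α = 0

/-- the number of arrangements on the wall with a given value at the mark -/
noncomputable def wc (lam : Ix n → ℤ) (j₀ : Ix n) (v : ℤ → ℤ) (b : ℤ) : ℕ :=
  ((wall lam j₀ v).filter fun α => qv lam α = b).card

include hodd hv in
theorem wc_zero {b : ℤ} (hb : lam j₀ ^ 2 < b ^ 2) : wc lam j₀ v b = 0 := by
  unfold wc
  rw [Finset.card_eq_zero, Finset.filter_eq_empty_iff]
  intro α hα hq
  obtain ⟨h1, h2⟩ := Finset.mem_filter.mp hα
  have h3 := sq_le hodd h1 (((hv α h1).1).mp h2)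
  rw [hq] at h3
  linarith

/-- the arrangement with the mark at `j` -/
def at' (lam : Ix n → ℤ) (j i : Ix n) : ℤ := if i = j then 0 else lam i

theorem at_mem {j : Ix n} (hj : lam j = lam j₀) : at' lam j ∈ arr lam j₀ := by
  classical
  rw [mem_arr]
  refine ⟨Equiv.swap j j₀, ?_⟩
  funext i
  unfold al at'
  by_cases h1 : i = j
  · subst h1
    simp
  · by_cases h2 : i = j₀
    · subst h2
      rw [Equiv.swap_apply_right, if_neg (fun h => h1 h.symm), if_neg h1, hj]
    · rw [Equiv.swap_apply_of_ne_of_ne h1 h2, if_neg h2, if_neg h1]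

include hodd in
theorem at_zero (j i : Ix n) : at' lam j i = 0 ↔ i = j := by
  unfold at'
  by_cases h : i = j
  · simp [h]
  · simp [h, lam_ne lam hodd i]

theorem at_sum {j : Ix n} (hj : lam j = lam j₀) (f : ℤ → ℤ) :
    ∑ i, lam i * f (at' lam j i) = ∑ i, lam i * f (al lam j₀ i) := by
  classical
  have h1 : ∀ j' : Ix n, ∑ i, lam i * f (at' lam j' i) =
      ∑ i, lam i * f (lam i) + lam j' * (f 0 - f (lam j')) := by
    intro j'
    rw [← Finset.add_sum_erase Finset.univ (fun i => lam i * f (at' lam j' i))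
      (Finset.mem_univ j'), ← Finset.add_sum_erase Finset.univ (fun i => lam i * f (lam i))
      (Finset.mem_univ j')]
    have h2 : ∀ i ∈ Finset.univ.erase j', lam i * f (at' lam j' i) = lam i * f (lam i) := by
      intro i hi
      unfold at'
      rw [if_neg (Finset.ne_of_mem_erase hi)]
    rw [Finset.sum_congr rfl h2]
    unfold at'
    rw [if_pos rfl]
    ring
  have h3 : al lam j₀ = at' lam j₀ := rfl
  rw [h3, h1 j, h1 j₀, hj]

include hodd hv in
theorem wc_top : wc lam j₀ v (lam j₀) = mult lam (lam j₀) := by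
  classical
  symm
  unfold wc mult
  apply Finset.card_bij fun j _ => at' lam j
  · intro j hj
    have hj' := (Finset.mem_filter.mp hj).2
    have hq : qv lam (at' lam j) = lam j₀ := by
      rw [qv_eq lam (at_zero hodd j), hj']
    have hm := at_mem hj'
    refine Finset.mem_filter.mpr ⟨Finset.mem_filter.mpr ⟨hm, ?_⟩, hq⟩
    rw [(hv _ hm).1]
    intro f
    rw [hq, at_sum hj']
  · intro j hj j' hj' h
    have h1 := (at_zero hodd j j).mpr rfl
    rw [h] at h1
    exact (at_zero hodd j' j).mp h1
  · intro α hα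
    obtain ⟨h1, hq⟩ := Finset.mem_filter.mp hα
    obtain ⟨h2, h3⟩ := Finset.mem_filter.mp h1
    obtain ⟨i, hi⟩ := exists_pos lam j₀ hodd h2
    refine ⟨i, Finset.mem_filter.mpr ⟨Finset.mem_univ _, ?_⟩, ?_⟩
    · rw [← qv_eq lam hi, hq]
    · funext j
      unfold at'
      by_cases hj : j = i
      · rw [if_pos hj, (hi j).mpr hj]
      · rw [if_neg hj]
        exact (eq_of_top hodd h2 (((hv α h2).1).mp h3) hq j fun h => hj ((hi j).mp h)).symm

include hodd in
theorem wc_dvd (b : ℤ) : mult lam b ∣ wc lam j₀ v b := by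
  classical
  have h1 : wc lam j₀ v b = ∑ j ∈ Finset.univ.filter fun j => lam j = b,
      ((wall lam j₀ v).filter fun α => α j = 0).card := by
    unfold wc
    rw [← Finset.card_biUnion]
    · congr 1
      ext α
      simp only [Finset.mem_filter, Finset.mem_biUnion, Finset.mem_univ, true_and]
      constructor
      · rintro ⟨hα, hq⟩
        obtain ⟨i, hi⟩ := exists_pos lam j₀ hodd (Finset.mem_filter.mp hα).1
        exact ⟨i, by rw [← qv_eq lam hi, hq], hα, (hi i).mpr rfl⟩
      · rintro ⟨j, hj, hα, h0⟩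
        obtain ⟨i, hi⟩ := exists_pos lam j₀ hodd (Finset.mem_filter.mp hα).1
        refine ⟨hα, ?_⟩
        rw [qv_eq lam hi, ← (hi j).mp h0, hj]
    · intro j _ j' _ hne
      rw [Function.onFun, Finset.disjoint_left]
      intro α hα hα'
      obtain ⟨i, hi⟩ := exists_pos lam j₀ hodd
        (Finset.mem_filter.mp (Finset.mem_filter.mp hα).1).1
      apply hne
      rw [(hi j).mp (Finset.mem_filter.mp hα).2, (hi j').mp (Finset.mem_filter.mp hα').2]
  rw [h1]
  by_cases hb : (Finset.univ.filter fun j => lam j = b).Nonempty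
  · obtain ⟨i, hi⟩ := hb
    have h2 : ∀ j ∈ Finset.univ.filter fun j => lam j = b,
        ((wall lam j₀ v).filter fun α => α j = 0).card =
          ((wall lam j₀ v).filter fun α => α i = 0).card := by
      intro j hj
      have hji : lam j = lam i := by
        rw [(Finset.mem_filter.mp hj).2, (Finset.mem_filter.mp hi).2]
      have hsw : ∀ k, lam (Equiv.swap j i k) = lam k := by
        intro k
        by_cases h3 : k = j
        · rw [h3, Equiv.swap_apply_left, hji]
        · by_cases h4 : k = i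
          · rw [h4, Equiv.swap_apply_right, hji]
          · rw [Equiv.swap_apply_of_ne_of_ne h3 h4]
      have hw : ∀ α ∈ wall lam j₀ v, (fun k => α (Equiv.swap j i k)) ∈ wall lam j₀ v := by
        intro α hα
        obtain ⟨h5, h6⟩ := Finset.mem_filter.mp hα
        refine Finset.mem_filter.mpr ⟨arr_comp lam j₀ h5 _, ?_⟩
        unfold lv at h6 ⊢
        rw [← h6, ← Equiv.sum_comp (Equiv.swap j i) fun k => lam k * v (α k)]
        apply Finset.sum_congr rfl
        intro k _
        rw [hsw]
      apply Finset.card_bij fun α _ => fun k => α (Equiv.swap j i k)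
      · intro α hα
        obtain ⟨h5, h6⟩ := Finset.mem_filter.mp hα
        refine Finset.mem_filter.mpr ⟨hw α h5, ?_⟩
        change α (Equiv.swap j i i) = 0
        rw [Equiv.swap_apply_right, h6]
      · intro α _ β _ h
        funext k
        have := congrFun h (Equiv.swap j i k)
        simpa using this
      · intro α hα
        obtain ⟨h5, h6⟩ := Finset.mem_filter.mp hα
        refine ⟨fun k => α (Equiv.swap j i k), Finset.mem_filter.mpr ⟨hw α h5, ?_⟩, ?_⟩
        · change α (Equiv.swap j i j) = 0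
          rw [Equiv.swap_apply_left, h6]
        · funext k
          change α (Equiv.swap j i (Equiv.swap j i k)) = α k
          rw [Equiv.swap_apply_self]
    rw [Finset.sum_const_nat h2]
    exact Dvd.intro _ rfl
  · rw [Finset.not_nonempty_iff_eq_empty] at hb
    rw [hb, Finset.sum_empty]
    exact dvd_zero _

end wall

end Pool.Agent.MP100fe7Cv
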