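import Pool.Agent.Lib.MP_100fe7_nt.Defs

/-!
Definitions for polarised motives of odd weight: symplectic bases, representations of `GSp_{2n}`.
-/

namespace Pool.Agent.MP100fe7

open Matrix

/-- The standard alternating form, pairing the two halves of the index set. -/
def symJ (S : Type) [CommRing S] (n : ℕ) : Matrix (Idx n) (Idx n) S := fromBlocks 0 1 (-1) 0

/-- `A` is a symplectic similitude, i.e. an `S`-point of `GSp_{2n}`. -/
def IsSymp {S : Type} [CommRing S] {n : ℕ} (A : Matrix (Idx n) (Idx n) S) : Prop :=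
  ∃ ν : Sˣ, Aᵀ * symJ S n * A = (ν : S) • symJ S n

/-- An algebraic representation over `E` of the group `GSp_{2n}` with matrix entries given by
polynomials in the entries of a matrix, homogeneous of degree `k`, written in a basis of weight
vectors: `mat` is the representing matrix, and an element `diag (x_j)` of the torus acts on the
basis vector `s` by `∏_j x_j ^ (wt s j)`. -/
structure SympRep (E : Type) [Field E] (n : ℕ) (κ : Type) [Fintype κ] [DecidableEq κ]
    (k : ℕ) where
  /-- the representing matrix -/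
  mat : Matrix κ κ (MvPolynomial (Idx n × Idx n) E)
  /-- the weights of the basis vectors -/
  wt : κ → Idx n → ℕ
  deg : ∀ s, ∑ j, wt s j = k
  map_mul : ∀ (S : Type) [CommRing S] [Algebra E S] (A B : Matrix (Idx n) (Idx n) S),
    IsSymp A → IsSymp B → evalMat mat S (A * B) = evalMat mat S A * evalMat mat S B
  map_diagonal : ∀ (S : Type) [CommRing S] [Algebra E S] (x : Idx n → S), IsSymp (diagonal x) →
    evalMat mat S (diagonal x) = diagonal fun s => ∏ j, x j ^ wt s j

/-- The Hodge index of the `s`-th basis vector of the de Rham realisation of `ρ(M)`. -/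
def SympRep.hodgeIdx {E : Type} [Field E] {R : Type} [CommRing R] {n k : ℕ} {w : ℤ} {κ : Type}
    [Fintype κ] [DecidableEq κ] (ρ : SympRep E n κ k) (M : Datum R n w) (s : κ) : ℤ :=
  ∑ j, (ρ.wt s j : ℤ) * M.hodgeIdx j

/-- `x` is a Deligne period `c^+(ρ(M))` (for `ε = 1`) or `c^-(ρ(M))` (for `ε = -1`), where the
bases of `M_B` and `M_DR` in the datum `M` are symplectic: the motive `N = ρ(M)` has `N_B = E^κ`
with `F_∞ = ρ(F_∞)`, `N_DR = E^κ`, comparison isomorphism `ρ(comp)`, and `F^a N_DR` is spanned by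
the basis vectors `s` with `hodgeIdx s ≥ a`. The columns of `A` are an `E`-basis of `N^ε`, the
matrix `B` is the projection of `N_DR` onto `N_DR / F^± N` written in an `E`-basis of the quotient,
`F^± = F^{[(kw+1)/2]}`, and `x` is the determinant of `N^ε ⊗ ℂ → (N_DR / F^± N) ⊗ ℂ`. -/
def IsSympPeriod {E : Type} [Field E] {R : Type} [CommRing R] [Algebra E R] {n k : ℕ} {w : ℤ}
    {κ : Type} [Fintype κ] [DecidableEq κ] (ρ : SympRep E n κ k) (M : Datum R n w) (ε : E)
    (x : R) : Prop :=
  ∃ (m : ℕ) (A : Matrix κ (Fin m) E) (B : Matrix (Fin m) κ E),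
    Function.Injective A.mulVec ∧
    (∀ v : κ → E, v ∈ Set.range A.mulVec ↔
      (evalMat ρ.mat E (frob E n)).mulVec v = ε • v) ∧
    Function.Surjective B.mulVec ∧
    (∀ v : κ → E, B.mulVec v = 0 ↔ ∀ s, ρ.hodgeIdx M s < (k * w + 1) / 2 → v s = 0) ∧
    x = (B.map (algebraMap E R) * evalMat ρ.mat R M.comp * A.map (algebraMap E R)).det

/-- The exponents `λ_i + n - i`, `0 ≤ i < n` (that is `λ_i + n + 1 - i` for `1 ≤ i ≤ n`). -/
def betaC {n : ℕ} (lam : Fin n → ℕ) (i : Fin n) : ℕ := lam i + (n - i)

/-- The alternant `det (x_i ^ (l_j) - x_i ^ (-l_j))` of the root system of type `C_n`. -/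
def alternantC {S : Type} [CommRing S] {n : ℕ} (l : Fin n → ℕ) (x : Fin n → Sˣ) : S :=
  (Matrix.of fun i j : Fin n => ((x i ^ l j : Sˣ) : S) - ((x i ^ (-(l j : ℤ)) : Sˣ) : S)).det

/-- The restriction of `ρ` to `Sp_{2n}` has the character of the irreducible representation of
highest weight `λ` (Weyl's formula): the trace of `diag (x, x⁻¹)` times the alternant with
exponents `n, …, 1` is the alternant with exponents `λ_i + n + 1 - i`. -/
def IsSympIrr {E : Type} [Field E] {n k : ℕ} {κ : Type} [Fintype κ] [DecidableEq κ]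
    (ρ : SympRep E n κ k) (lam : Fin n → ℕ) : Prop :=
  ∀ (S : Type) [CommRing S] (x : Fin n → Sˣ),
    (∑ s, ∏ i, ((x i ^ ((ρ.wt s (Sum.inl i) : ℤ) - ρ.wt s (Sum.inr i)) : Sˣ) : S)) *
      alternantC (betaC 0) x = alternantC (betaC lam) x

/-- number of odd exponents `λ_i + n + 1 - i` -/
def oddC {n : ℕ} (lam : Fin n → ℕ) : ℕ := (Finset.univ.filter fun i => Odd (betaC lam i)).card

/-- number of even exponents `λ_i + n + 1 - i` -/
def evenC {n : ℕ} (lam : Fin n → ℕ) : ℕ := (Finset.univ.filter fun i => Even (betaC lam i)).card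

/-- the product of the `(l_i ^ 2 - l_j ^ 2)/4`, `i < j`, over the pairs of exponents
`l_i = λ_i + n + 1 - i` of the same parity, and of the `l_i / 2` over the even exponents -/
def halfProdC {n : ℕ} (lam : Fin n → ℕ) : ℕ :=
  ∏ i, ((if Even (betaC lam i) then betaC lam i / 2 else 1) *
    ∏ j ∈ Finset.Ioi i, if betaC lam i % 2 = betaC lam j % 2 then
      (betaC lam i + betaC lam j) / 2 * ((betaC lam i - betaC lam j) / 2) else 1)

end Pool.Agent.MP100fe7
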