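import Pool.Agent.Lib.MP_100fe7_nt.Ratio

/-!
Existence of the periods of `ρ(M)`, and the final form of the ratio formula.
-/

set_option linter.unusedSectionVars false

namespace Pool.Agent.MP100fe7

open Matrix

variable {E : Type} [Field E] [CharZero E] {R : Type} [CommRing R] [Algebra E R]
  {n k : ℕ} {w : ℤ}
  {κ : Type} [Fintype κ] [DecidableEq κ] (ρ : PolyRep E n κ k) (M : Datum R n w)

/-- extension by zero -/
def ext0 (p : κ → Prop) [DecidablePred p] (x : {s // p s} → E) (s : κ) : E :=
  if h : p s then x ⟨s, h⟩ else 0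

theorem ext0_apply (p : κ → Prop) [DecidablePred p] (x : {s // p s} → E) (s : {s // p s}) :
    ext0 p x s.1 = x s := by
  simp [ext0, s.2]

theorem card_le_aux (p q : κ → Prop) [DecidablePred p] [DecidablePred q] (N N' : Matrix κ κ E)
    (hN : N' * N = 1)
    (h : ∀ x : {s // p s} → E, (∀ s, q s → (N.mulVec (ext0 p x)) s = 0) →
      N.mulVec (ext0 p x) = 0) :
    Fintype.card {s // p s} ≤ Fintype.card {s // q s} := by
  let f : ({s // p s} → E) →ₗ[E] ({s // q s} → E) :=
    { toFun := fun x s => (N.mulVec (ext0 p x)) s.1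
      map_add' := by
        intro x y
        funext s
        have : ext0 p (x + y) = ext0 p x + ext0 p y := by
          funext t
          unfold ext0
          by_cases ht : p t <;> simp [ht]
        rw [this, mulVec_add]
        rfl
      map_smul' := by
        intro c x
        funext s
        have : ext0 p (c • x) = c • ext0 p x := by
          funext t
          unfold ext0
          by_cases ht : p t <;> simp [ht]
        rw [this, mulVec_smul]
        rfl }
  have hinj : Function.Injective f := by
    rw [injective_iff_map_eq_zero]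
    intro x hx
    have h1 := h x (by
      intro s hs
      exact congrFun hx ⟨s, hs⟩)
    have h2 : ext0 p x = 0 := by
      have h3 : N'.mulVec (N.mulVec (ext0 p x)) = ext0 p x := by
        rw [mulVec_mulVec, hN, one_mulVec]
      rw [← h3, h1, mulVec_zero]
    funext s
    rw [← ext0_apply p x s, h2]
    rfl
  have h4 := LinearMap.finrank_le_finrank_of_injective hinj
  simpa using h4

/-- the lower part of the de Rham basis of `ρ(M)` -/
def lo (s : κ) : Prop := ρ.hodgeIdx M s < (k * w + 1) / 2

instance : DecidablePred (lo ρ M) := fun s => by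
  unfold lo
  infer_instance

theorem card_hi_le (hmid : NoMiddle ρ M) :
    Fintype.card {s // ¬ lo ρ M s} ≤ Fintype.card {s // lo ρ M s} := by
  apply card_le_aux (fun s => ¬ lo ρ M s) (lo ρ M) (ρ.ev E (swapM E n)) (ρ.ev E (swapM E n))
    (ρ.ev_inv_mul swapM_mul_swapM)
  intro x hx
  funext s
  by_cases hs : lo ρ M s
  · exact hx s hs
  · simp only [mulVec, dotProduct, Pi.zero_apply]
    apply Finset.sum_eq_zero
    intro t _
    by_contra hne
    have h1 := left_ne_zero_of_mul hne
    have h2 := right_ne_zero_of_mul hne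
    have h3 : ¬ lo ρ M t := by
      intro h
      apply h2
      simp [ext0, h]
    have h4 := ρ.ev_swap M.hodgeIdx w (by intro i; simp [Datum.hodgeIdx]) s t h1
    have h5 := hmid s
    unfold lo at hs h3
    unfold PolyRep.hodgeIdx at hs h3 h5
    omega

theorem card_lo_le :
    Fintype.card {s // lo ρ M s} ≤ Fintype.card {s // ¬ lo ρ M s} := by
  apply card_le_aux (lo ρ M) (fun s => ¬ lo ρ M s) (ρ.ev E (swapM E n)) (ρ.ev E (swapM E n))
    (ρ.ev_inv_mul swapM_mul_swapM)
  intro x hx
  funext s
  by_cases hs : lo ρ M s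
  · simp only [mulVec, dotProduct, Pi.zero_apply]
    apply Finset.sum_eq_zero
    intro t _
    by_contra hne
    have h1 := left_ne_zero_of_mul hne
    have h2 := right_ne_zero_of_mul hne
    have h3 : lo ρ M t := by
      by_contra h
      apply h2
      simp [ext0, h]
    have h4 := ρ.ev_swap M.hodgeIdx w (by intro i; simp [Datum.hodgeIdx]) s t h1
    unfold lo at hs h3
    unfold PolyRep.hodgeIdx at hs h3
    omega
  · exact hx s hs

theorem card_sgn_le (hmid : NoMiddle ρ M) (z : ℤ) (hz : z * z = 1) :
    Fintype.card {s // ρ.sgn s = z} ≤ Fintype.card {s // lo ρ M s} := by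
  have h2 : IsUnit (2 : E) := (two_ne_zero).isUnit
  have hg := isUnit_det_gz (n := n) h2
  apply card_le_aux (fun s => ρ.sgn s = z) (lo ρ M) (ρ.ev E (gz E n)) (ρ.ev E (gz E n)⁻¹)
    (ρ.ev_inv_mul (nonsing_inv_mul _ hg))
  intro x hx
  have hε : (z : E) * (z : E) = 1 := by exact_mod_cast congrArg (fun y : ℤ => (y : E)) hz
  apply eq_zero_of_swap ρ M hmid hε
  · exact hx
  · rw [mulVec_mulVec, ← ρ.ev_mul, swapM_mul_gz, ρ.ev_mul, ← mulVec_mulVec, ← mulVec_smul]
    congr 1
    rw [ρ.ev_frob]
    funext s
    rw [mulVec_diagonal]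
    simp only [Pi.smul_apply, smul_eq_mul]
    by_cases hs : ρ.sgn s = z
    · rw [hs]
    · simp [ext0, hs]

theorem card_sgn_eq (hmid : NoMiddle ρ M) :
    Fintype.card {s // ρ.sgn s = 1} = Fintype.card {s // lo ρ M s} ∧
    Fintype.card {s // ρ.sgn s = -1} = Fintype.card {s // lo ρ M s} := by
  have h1 := card_sgn_le ρ M hmid 1 (by norm_num)
  have h2 := card_sgn_le ρ M hmid (-1) (by norm_num)
  have h3 := card_hi_le ρ M hmid
  have h4 := card_lo_le ρ M
  have h5 : Fintype.card {s // ρ.sgn s = 1} + Fintype.card {s // ρ.sgn s = -1} =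
      Fintype.card κ := by
    have e1 := Fintype.card_congr (Equiv.sumCompl (fun s => ρ.sgn s = 1))
    rw [Fintype.card_sum] at e1
    rw [← e1]
    congr 1
    apply Fintype.card_congr
    apply Equiv.subtypeEquivRight
    intro s
    rcases ρ.sgn_eq s with h | h
    · rw [h]
      norm_num
    · rw [h]
      norm_num
  have h6 : Fintype.card {s // lo ρ M s} + Fintype.card {s // ¬ lo ρ M s} = Fintype.card κ := by
    have e1 := Fintype.card_congr (Equiv.sumCompl (lo ρ M))
    rw [Fintype.card_sum] at e1
    exact e1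
  omega

theorem exists_period_aux (hmid : NoMiddle ρ M) (z : ℤ) (hz : z = 1 ∨ z = -1) :
    ∃ x : R, IsPeriod ρ M (z : E) x := by
  have hc : Fintype.card {s // ρ.sgn s = z} = Fintype.card {s // lo ρ M s} := by
    rcases hz with rfl | rfl
    · exact (card_sgn_eq ρ M hmid).1
    · exact (card_sgn_eq ρ M hmid).2
  let φ : Fin (Fintype.card {s // lo ρ M s}) ≃ {s // ρ.sgn s = z} :=
    (finCongr hc.symm).trans (Fintype.equivFin _).symm
  let ψ : Fin (Fintype.card {s // lo ρ M s}) ≃ {s // lo ρ M s} := (Fintype.equivFin _).symm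
  refine ⟨_, Fintype.card {s // lo ρ M s},
    (1 : Matrix κ κ E).submatrix id (fun j => (φ j).1),
    (1 : Matrix κ κ E).submatrix (fun j => (ψ j).1) id, ?_, ?_, ?_, ?_, rfl⟩
  · -- injective
    intro x y hxy
    funext j
    have h1 := congrFun hxy (φ j).1
    simp only [mulVec, dotProduct, submatrix_apply, id_eq, Matrix.one_apply] at h1
    have h2 : ∀ (x : Fin (Fintype.card {s // lo ρ M s}) → E),
        ∑ i, (if (φ j).1 = (φ i).1 then (1 : E) else 0) * x i = x j := by
      intro x
      rw [Finset.sum_eq_single j]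
      · simp
      · intro i _ hi
        rw [if_neg, zero_mul]
        intro h
        exact hi (φ.injective (Subtype.ext h)).symm
      · simp
    rw [h2, h2] at h1
    exact h1
  · -- range
    intro v
    have hfrob : evalMat ρ.mat E (frob E n) = diagonal fun s => ((ρ.sgn s : ℤ) : E) :=
      ρ.ev_frob E
    rw [hfrob]
    constructor
    · rintro ⟨x, rfl⟩
      funext s
      rw [mulVec_diagonal]
      simp only [mulVec, dotProduct, submatrix_apply, id_eq, Matrix.one_apply, Pi.smul_apply,
        smul_eq_mul]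
      by_cases hs : ρ.sgn s = z
      · rw [hs]
      · have h0 : ∑ i, (if s = (φ i).1 then (1 : E) else 0) * x i = 0 := by
          apply Finset.sum_eq_zero
          intro i _
          rw [if_neg, zero_mul]
          rintro rfl
          exact hs (φ i).2
        rw [h0, mul_zero, mul_zero]
    · intro hv
      refine ⟨fun i => v (φ i).1, ?_⟩
      funext s
      simp only [mulVec, dotProduct, submatrix_apply, id_eq, Matrix.one_apply]
      by_cases hs : ρ.sgn s = z
      · rw [Finset.sum_eq_single (φ.symm ⟨s, hs⟩)]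
        · simp
        · intro i _ hi
          rw [if_neg, zero_mul]
          intro h
          apply hi
          rw [Equiv.eq_symm_apply]
          exact Subtype.ext h.symm
        · simp
      · have h0 : ∑ i, (if s = (φ i).1 then (1 : E) else 0) * v (φ i).1 = 0 := by
          apply Finset.sum_eq_zero
          intro i _
          rw [if_neg, zero_mul]
          rintro rfl
          exact hs (φ i).2
        rw [h0]
        have h1 := congrFun hv s
        rw [mulVec_diagonal] at h1
        simp only [Pi.smul_apply, smul_eq_mul] at h1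
        have h2 : (((ρ.sgn s : ℤ) : E) - z) * v s = 0 := by
          rw [sub_mul, h1, sub_self]
        rcases mul_eq_zero.mp h2 with h3 | h3
        · exfalso
          apply hs
          rw [sub_eq_zero] at h3
          exact_mod_cast h3
        · exact h3.symm
  · -- surjective
    intro y
    refine ⟨ext0 (lo ρ M) (fun s => y (ψ.symm s)), ?_⟩
    funext j
    simp only [mulVec, dotProduct, submatrix_apply, id_eq, Matrix.one_apply]
    rw [Finset.sum_eq_single (ψ j).1]
    · rw [if_pos rfl, one_mul, ext0_apply]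
      simp
    · intro s _ hs
      rw [if_neg (Ne.symm hs), zero_mul]
    · simp
  · -- kernel
    intro v
    constructor
    · intro h s hs
      have h1 := congrFun h (ψ.symm ⟨s, hs⟩)
      simp only [mulVec, dotProduct, submatrix_apply, id_eq, Matrix.one_apply,
        Equiv.apply_symm_apply, Pi.zero_apply] at h1
      rw [Finset.sum_eq_single s] at h1
      · simpa using h1
      · intro t _ ht
        rw [if_neg (Ne.symm ht), zero_mul]
      · simp
    · intro h
      funext j
      simp only [mulVec, dotProduct, submatrix_apply, id_eq, Matrix.one_apply, Pi.zero_apply]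
      apply Finset.sum_eq_zero
      intro s _
      by_cases hs : (ψ j).1 = s
      · rw [h s (by rw [← hs]; exact (ψ j).2), mul_zero]
      · rw [if_neg hs, zero_mul]

/-- The periods `c^+` and `c^-` of `ρ(M)` exist. -/
theorem exists_period (hmid : NoMiddle ρ M) :
    (∃ x : R, IsPeriod ρ M (1 : E) x) ∧ (∃ x : R, IsPeriod ρ M (-1 : E) x) := by
  constructor
  · have := exists_period_aux (R := R) ρ M hmid 1 (Or.inl rfl)
    simpa using this
  · have := exists_period_aux (R := R) ρ M hmid (-1) (Or.inr rfl)
    simpa using this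

theorem noMiddle_std : NoMiddle (std E n) M := by
  intro s
  have h1 : (std E n).hodgeIdx M s = M.hodgeIdx s := by
    unfold PolyRep.hodgeIdx
    rw [Finset.sum_eq_single s]
    · simp [std]
    · intro t _ ht
      simp [std, Pi.single_eq_of_ne ht]
    · simp
  rw [h1]
  rcases s with i | i
  · have := M.two_p i
    simp only [Datum.hodgeIdx, Sum.elim_inl]
    push_cast
    omega
  · have := M.two_p i
    simp only [Datum.hodgeIdx, Sum.elim_inr]
    push_cast
    omega

theorem signedDeg_std : signedDeg (std E n) = n := by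
  unfold signedDeg
  rw [Fintype.sum_sum_type]
  have h1 : ∀ i : Fin n, (degL (std E n) (Sum.inl i) : ℤ) * (std E n).sgn (Sum.inl i) = 1 := by
    intro i
    have e1 : degL (std E n) (Sum.inl i) = 1 := by
      unfold degL
      rw [Finset.sum_eq_single i]
      · simp [std]
      · intro j _ hj
        have : (Sum.inl j : Idx n) ≠ Sum.inl i := by simpa using hj
        simp [std, Pi.single_eq_of_ne this]
      · simp
    have e2 : (std E n).sgn (Sum.inl i) = 1 := by
      unfold PolyRep.sgn
      apply Finset.prod_eq_one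
      intro j _
      simp [std]
    rw [e1, e2]
    norm_num
  have h2 : ∀ i : Fin n, (degL (std E n) (Sum.inr i) : ℤ) * (std E n).sgn (Sum.inr i) = 0 := by
    intro i
    have e1 : degL (std E n) (Sum.inr i) = 0 := by
      unfold degL
      apply Finset.sum_eq_zero
      intro j _
      simp [std]
    rw [e1]
    norm_num
  rw [Finset.sum_congr rfl (fun i _ => h1 i), Finset.sum_congr rfl (fun i _ => h2 i)]
  simp

/-- The ratio formula. -/
theorem ratio [Nontrivial R] (hmid : NoMiddle ρ M) (K : ℤ) (hK : (n : ℤ) * K = signedDeg ρ)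
    {x y c d : R} (hx : IsPeriod ρ M (1 : E) x) (hy : IsPeriod ρ M (-1 : E) y)
    (hc : IsPeriod (std E n) M (1 : E) c) (hd : IsPeriod (std E n) M (-1 : E) d) :
    ∃ (x' y' c' d' : Rˣ) (e : Eˣ), (x' : R) = x ∧ (y' : R) = y ∧ (c' : R) = c ∧ (d' : R) = d ∧
      x' / y' = Units.map (algebraMap E R).toMonoidHom e * (c' / d') ^ K := by
  have h2 : IsUnit (2 : R) := by
    have h : IsUnit (2 : E) := (two_ne_zero).isUnit
    have h' := h.map (algebraMap E R)
    rwa [map_ofNat] at h'
  obtain ⟨b, h₁, h₂, hbu, hb, hu₁, hu₂, hM⟩ := M.exists_factor h2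
  obtain ⟨δ₁, hδ₁⟩ := hu₁
  obtain ⟨δ₂, hδ₂⟩ := hu₂
  obtain ⟨K₁, u₁, v₁, e₁, hK₁, hu₁, hv₁, hr₁⟩ :=
    ratio_aux ρ M hmid hbu hb hM δ₁ δ₂ hδ₁ hδ₂ hx hy
  obtain ⟨K₂, u₂, v₂, e₂, hK₂, hu₂, hv₂, hr₂⟩ :=
    ratio_aux (std E n) M (noMiddle_std M) hbu hb hM δ₁ δ₂ hδ₁ hδ₂ hc hd
  rw [signedDeg_std] at hK₂
  refine ⟨u₁, v₁, u₂, v₂, e₁ * (e₂ ^ K)⁻¹, hu₁, hv₁, hu₂, hv₂, ?_⟩
  rcases Nat.eq_zero_or_pos n with h0 | hpos
  · subst h0
    have t₁ : δ₁ = 1 := by
      ext
      rw [hδ₁]
      simp
    have t₂ : δ₂ = 1 := by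
      ext
      rw [hδ₂]
      simp
    rw [hr₁, hr₂, t₁, t₂]
    simp only [div_self', _root_.one_zpow, mul_one]
    rw [map_mul, map_inv, map_zpow, mul_assoc, inv_mul_cancel, mul_one]
  · have hn : (n : ℤ) ≠ 0 := by exact_mod_cast hpos.ne'
    have q₁ : K₁ = K := by
      have : (n : ℤ) * K₁ = n * K := by rw [hK₁, hK]
      exact mul_left_cancel₀ hn this
    have q₂ : K₂ = 1 := by
      have : (n : ℤ) * K₂ = n * 1 := by rw [hK₂, mul_one]
      exact mul_left_cancel₀ hn this
    rw [q₁] at hr₁
    rw [q₂, zpow_one] at hr₂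
    rw [hr₁, hr₂, mul_zpow, map_mul, map_inv, map_zpow]
    rw [mul_assoc, inv_mul_cancel_left]

end Pool.Agent.MP100fe7
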