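import Pool.Agent.Lib.MP_100fe7_nt.Defs

/-!
Factorisation of the comparison matrix.
-/

set_option linter.unusedSectionVars false

namespace Pool.Agent.MP100fe7

open Matrix

/-- exchange of the two halves -/
def swapM (S : Type) [CommRing S] (n : ℕ) : Matrix (Idx n) (Idx n) S := fromBlocks 0 1 1 0

/-- the comparison matrix of the split datum -/
def gz (S : Type) [CommRing S] (n : ℕ) : Matrix (Idx n) (Idx n) S := fromBlocks 1 1 1 (-1)

section basic

variable {S : Type} [CommRing S] {n : ℕ}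

theorem frob_eq : frob S n = fromBlocks 1 0 0 (-1) := by
  unfold frob
  ext i j
  rcases i with i | i <;> rcases j with j | j <;>
    simp [diagonal_apply, Matrix.one_apply]
  by_cases h : i = j
  · simp [h]
  · simp [h]

theorem frob_mul_frob : frob S n * frob S n = 1 := by
  rw [frob_eq, fromBlocks_multiply]
  simp

theorem swapM_mul_gz : swapM S n * gz S n = gz S n * frob S n := by
  rw [frob_eq]
  unfold swapM gz
  rw [fromBlocks_multiply, fromBlocks_multiply]
  simp

theorem swapM_mul_swapM : swapM S n * swapM S n = 1 := by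
  unfold swapM
  rw [fromBlocks_multiply]
  simp

theorem gz_mul_gz : gz S n * gz S n = (2 : S) • 1 := by
  unfold gz
  rw [fromBlocks_multiply]
  simp only [Matrix.mul_one, Matrix.mul_neg, neg_neg]
  rw [← fromBlocks_one, fromBlocks_smul]
  congr 1
  · rw [two_smul]
  · simp
  · simp
  · rw [two_smul]

theorem isUnit_det_gz (h2 : IsUnit (2 : S)) : IsUnit (gz S n).det := by
  have h1 := congrArg Matrix.det (gz_mul_gz (S := S) (n := n))
  rw [det_mul, det_smul, det_one, mul_one] at h1
  have h3 : IsUnit ((gz S n).det * (gz S n).det) := by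
    rw [h1]
    exact h2.pow _
  exact isUnit_of_mul_isUnit_left h3

theorem frob_mulVec_frob_mulVec (v : Idx n → S) :
    (frob S n).mulVec ((frob S n).mulVec v) = v := by
  rw [mulVec_mulVec, frob_mul_frob, one_mulVec]

/-- a matrix commuting with `F_∞` is block diagonal -/
theorem block_of_commute (h2 : IsUnit (2 : S)) (h : Matrix (Idx n) (Idx n) S)
    (hc : frob S n * h = h * frob S n) :
    h = fromBlocks h.toBlocks₁₁ 0 0 h.toBlocks₂₂ := by
  have h12 : h.toBlocks₁₂ = 0 := by
    ext i j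
    have e := congrFun (congrFun hc (Sum.inl i)) (Sum.inr j)
    unfold frob at e
    rw [diagonal_mul, mul_diagonal] at e
    simp only [Sum.elim_inl, Sum.elim_inr, one_mul, mul_neg, mul_one] at e
    have e2 : 2 * h (Sum.inl i) (Sum.inr j) = 2 * 0 := by
      linear_combination e
    exact h2.mul_left_cancel e2
  have h21 : h.toBlocks₂₁ = 0 := by
    ext i j
    have e := congrFun (congrFun hc (Sum.inr i)) (Sum.inl j)
    unfold frob at e
    rw [diagonal_mul, mul_diagonal] at e
    simp only [Sum.elim_inl, Sum.elim_inr, neg_mul, one_mul, mul_one] at e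
    have e2 : 2 * h (Sum.inr i) (Sum.inl j) = 2 * 0 := by
      linear_combination -e
    exact h2.mul_left_cancel e2
  conv_lhs => rw [← fromBlocks_toBlocks h, h12, h21]

end basic

namespace Datum

variable {R : Type} [CommRing R] {n : ℕ} {w : ℤ} (M : Datum R n w)

/-- `⨁_{b ≥ a} M^{b, w-b}` -/
def up (a : ℤ) : Submodule R (Idx n → R) := ⨆ b, ⨆ (_ : a ≤ b), M.hodge b

theorem comp_injective : Function.Injective M.comp.mulVec := by
  intro x y hxy
  have h1 : M.comp⁻¹ *ᵥ (M.comp *ᵥ x) = M.comp⁻¹ *ᵥ (M.comp *ᵥ y) := by rw [hxy]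
  rwa [mulVec_mulVec, mulVec_mulVec, nonsing_inv_mul _ M.comp_unit, one_mulVec, one_mulVec] at h1

theorem mem_up_iff (a : ℤ) (x : Idx n → R) :
    x ∈ M.up a ↔ ∀ j, M.hodgeIdx j < a → (M.comp *ᵥ x) j = 0 := by
  have h := M.fil_hodge a (M.comp *ᵥ x)
  unfold up hodgeIdx
  rw [← h]
  constructor
  · intro hx
    exact ⟨x, hx, rfl⟩
  · rintro ⟨x', hx', he⟩
    have : x' = x := M.comp_injective he
    rwa [← this]

theorem hodge_le_up {a b : ℤ} (h : a ≤ b) : M.hodge b ≤ M.up a := by
  unfold up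
  exact le_iSup₂_of_le b h le_rfl

theorem up_le (a : ℤ) : M.up a ≤ M.hodge a ⊔ M.up (a + 1) := by
  unfold up
  apply iSup₂_le
  intro b hb
  rcases eq_or_lt_of_le hb with h | h
  · subst h
    exact le_sup_left
  · apply le_sup_of_le_right
    exact le_iSup₂_of_le b (by omega) le_rfl

theorem exists_z (j : Fin n) : ∃ z ∈ M.hodge (M.p j), ∀ i, M.hodgeIdx i < M.p j + 1 →
    (M.comp *ᵥ z) i = (Pi.single (Sum.inl j) 1 : Idx n → R) i := by
  let x : Idx n → R := M.comp⁻¹ *ᵥ Pi.single (Sum.inl j) 1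
  have hx : M.comp *ᵥ x = Pi.single (Sum.inl j) 1 := by
    simp only [x]
    rw [mulVec_mulVec, mul_nonsing_inv _ M.comp_unit, one_mulVec]
  have hmem : x ∈ M.up (M.p j) := by
    rw [mem_up_iff]
    intro i hi
    rw [hx]
    apply Pi.single_eq_of_ne
    rintro rfl
    simp [hodgeIdx] at hi
  obtain ⟨z, hz, x', hx', hsum⟩ := Submodule.mem_sup.mp (M.up_le _ hmem)
  refine ⟨z, hz, ?_⟩
  intro i hi
  rw [mem_up_iff] at hx'
  have h1 := hx' i hi
  rw [← hx, ← hsum, mulVec_add]
  simp [h1]

/-- the vectors `z_j` -/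
noncomputable def z (j : Fin n) : Idx n → R := (M.exists_z j).choose

theorem z_mem (j : Fin n) : M.z j ∈ M.hodge (M.p j) := (M.exists_z j).choose_spec.1

theorem z_spec (j : Fin n) (i : Idx n) (hi : M.hodgeIdx i < M.p j + 1) :
    (M.comp *ᵥ M.z j) i = (Pi.single (Sum.inl j) 1 : Idx n → R) i :=
  (M.exists_z j).choose_spec.2 i hi

/-- the matrix with columns `z_j`, `F z_j` -/
noncomputable def Z : Matrix (Idx n) (Idx n) R :=
  (Matrix.of (Sum.elim M.z (fun j => (frob R n) *ᵥ M.z j)))ᵀ

theorem frob_mul_Z : frob R n * M.Z = M.Z * swapM R n := by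
  have hcol : ∀ (A : Matrix (Idx n) (Idx n) R) (i j : Idx n), (A * M.Z) i j =
      (A *ᵥ (fun k => M.Z k j)) i := by
    intro A i j
    rfl
  ext i j
  rw [hcol]
  rcases j with j | j
  · have h1 : (fun k => M.Z k (Sum.inl j)) = M.z j := by
      ext k
      simp [Z]
    rw [h1]
    simp only [Matrix.mul_apply, Fintype.sum_sum_type, swapM, fromBlocks_apply₁₁,
      fromBlocks_apply₂₁, Matrix.zero_apply, mul_zero, Finset.sum_const_zero, zero_add,
      Matrix.one_apply, mul_ite, mul_one]
    rw [Finset.sum_ite_eq' Finset.univ j]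
    simp [Z]
  · have h1 : (fun k => M.Z k (Sum.inr j)) = frob R n *ᵥ M.z j := by
      ext k
      simp [Z]
    rw [h1, frob_mulVec_frob_mulVec]
    simp only [Matrix.mul_apply, Fintype.sum_sum_type, swapM, fromBlocks_apply₁₂,
      fromBlocks_apply₂₂, Matrix.zero_apply, mul_zero, Finset.sum_const_zero, add_zero,
      Matrix.one_apply, mul_ite, mul_one]
    rw [Finset.sum_ite_eq' Finset.univ j]
    simp [Z]

/-- the parabolic factor -/
noncomputable def b : Matrix (Idx n) (Idx n) R := M.comp * M.Z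

theorem b_col_inl (j : Fin n) (i : Idx n) : M.b i (Sum.inl j) = (M.comp *ᵥ M.z j) i := by
  have h1 : (fun k => M.Z k (Sum.inl j)) = M.z j := by
    ext k
    simp [Z]
  rw [← h1]
  rfl

theorem b_col_inr (j : Fin n) (i : Idx n) :
    M.b i (Sum.inr j) = (M.comp *ᵥ ((frob R n) *ᵥ M.z j)) i := by
  have h1 : (fun k => M.Z k (Sum.inr j)) = frob R n *ᵥ M.z j := by
    ext k
    simp [Z]
  rw [← h1]
  rfl

theorem frob_z_mem (j : Fin n) : frob R n *ᵥ M.z j ∈ M.hodge (w - M.p j) := by
  rw [← M.frob_hodge]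
  exact ⟨M.z j, M.z_mem j, rfl⟩

theorem b_parabolic (i j : Idx n) (hij : M.hodgeIdx i < M.hodgeIdx j) : M.b i j = 0 := by
  rcases j with j | j
  · rw [b_col_inl]
    have h1 : M.z j ∈ M.up (M.p j) := M.hodge_le_up le_rfl (M.z_mem j)
    rw [mem_up_iff] at h1
    exact h1 i (by simpa [hodgeIdx] using hij)
  · rw [b_col_inr]
    have h1 : frob R n *ᵥ M.z j ∈ M.up (w - M.p j) := M.hodge_le_up le_rfl (M.frob_z_mem j)
    rw [mem_up_iff] at h1
    exact h1 i (by simpa [hodgeIdx] using hij)

/-- the range of `Z` -/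
noncomputable def V : Submodule R (Idx n → R) := LinearMap.range M.Z.mulVecLin

theorem frob_mem_V {x : Idx n → R} (hx : x ∈ M.V) : frob R n *ᵥ x ∈ M.V := by
  obtain ⟨y, rfl⟩ := hx
  refine ⟨swapM R n *ᵥ y, ?_⟩
  simp only [mulVecLin_apply, mulVec_mulVec]
  rw [frob_mul_Z]

theorem z_mem_V (j : Fin n) : M.z j ∈ M.V := by
  refine ⟨Pi.single (Sum.inl j) 1, ?_⟩
  ext k
  simp [Z]

theorem single_mem_aux (B : ℤ) (hB : ∀ j, M.p j ≤ B) : ∀ N : ℕ, ∀ j : Fin n,
    B - M.p j ≤ N → M.comp⁻¹ *ᵥ (Pi.single (Sum.inl j) 1 : Idx n → R) ∈ M.V := by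
  intro N
  induction N using Nat.strong_induction_on with
  | _ N ih =>
    intro j hj
    -- `e_j = comp z_j + y`, `y` supported on indices with larger Hodge index
    let y : Idx n → R := Pi.single (Sum.inl j) 1 - M.comp *ᵥ M.z j
    have hy : ∀ i, M.hodgeIdx i < M.p j + 1 → y i = 0 := by
      intro i hi
      simp only [y, Pi.sub_apply]
      rw [M.z_spec j i hi, sub_self]
    have hyV : M.comp⁻¹ *ᵥ y ∈ M.V := by
      have hdec : y = ∑ i, y i • (Pi.single i 1 : Idx n → R) := by
        exact pi_eq_sum_univ' y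
      rw [hdec, mulVec_sum]
      apply Submodule.sum_mem
      intro i _
      rw [mulVec_smul]
      by_cases hi : M.hodgeIdx i < M.p j + 1
      · rw [hy i hi, zero_smul]
        exact Submodule.zero_mem _
      · apply Submodule.smul_mem
        rcases i with i | i
        · have hi' : M.p j + 1 ≤ M.p i := by
            simpa [hodgeIdx] using hi
          have h1 := hB i
          have h2 := hB j
          apply ih (B - M.p i).toNat
          · omega
          · omega
        · exfalso
          have h1 : ¬ (w - M.p i < M.p j + 1) := by simpa [hodgeIdx] using hi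
          have h2 := M.two_p i
          have h3 := M.two_p j
          omega
    have hfin : (Pi.single (Sum.inl j) 1 : Idx n → R) = M.comp *ᵥ M.z j + y := by
      simp [y]
    rw [hfin, mulVec_add, mulVec_mulVec, nonsing_inv_mul _ M.comp_unit, one_mulVec]
    exact Submodule.add_mem _ (M.z_mem_V j) hyV

theorem up_le_V {a : ℤ} (ha : w < 2 * a) : M.up a ≤ M.V := by
  intro x hx
  rw [mem_up_iff] at hx
  obtain ⟨B, hB⟩ : ∃ B : ℤ, ∀ j, M.p j ≤ B := by
    rcases isEmpty_or_nonempty (Fin n) with h | h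
    · exact ⟨0, fun j => (h.false j).elim⟩
    · exact ⟨Finset.univ.sup' Finset.univ_nonempty M.p,
        fun j => Finset.le_sup' M.p (Finset.mem_univ j)⟩
  have h1 : x = M.comp⁻¹ *ᵥ (M.comp *ᵥ x) := by
    rw [mulVec_mulVec, nonsing_inv_mul _ M.comp_unit, one_mulVec]
  rw [h1]
  have hdec : M.comp *ᵥ x = ∑ i, (M.comp *ᵥ x) i • (Pi.single i 1 : Idx n → R) :=
    pi_eq_sum_univ' _
  rw [hdec, mulVec_sum]
  apply Submodule.sum_mem
  intro i _
  rw [mulVec_smul]
  rcases i with i | i
  · apply Submodule.smul_mem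
    exact M.single_mem_aux B hB (B - M.p i).toNat i (by have := hB i; omega)
  · rw [hx (Sum.inr i), zero_smul]
    · exact Submodule.zero_mem _
    · have := M.two_p i
      simp only [hodgeIdx, Sum.elim_inr]
      omega

theorem hodge_le_V (a : ℤ) : M.hodge a ≤ M.V := by
  rcases lt_trichotomy w (2 * a) with h | h | h
  · exact le_trans (M.hodge_le_up le_rfl) (M.up_le_V h)
  · -- middle: zero
    have h1 : M.up a ≤ M.up (a + 1) := by
      intro x hx
      rw [mem_up_iff] at hx ⊢
      intro j hj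
      apply hx j
      rcases j with j | j
      · have := M.two_p j
        simp only [hodgeIdx, Sum.elim_inl] at hj ⊢
        omega
      · have := M.two_p j
        simp only [hodgeIdx, Sum.elim_inr] at hj ⊢
        omega
    have h2 : M.hodge a ≤ M.up (a + 1) := le_trans (M.hodge_le_up le_rfl) h1
    exact le_trans h2 (M.up_le_V (by omega))
  · intro x hx
    have h1 : frob R n *ᵥ x ∈ M.hodge (w - a) := by
      rw [← M.frob_hodge]
      exact ⟨x, hx, rfl⟩
    have h2 : frob R n *ᵥ x ∈ M.V :=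
      M.up_le_V (a := w - a) (by omega) (M.hodge_le_up le_rfl h1)
    have h3 := M.frob_mem_V h2
    rwa [frob_mulVec_frob_mulVec] at h3

theorem V_eq_top : M.V = ⊤ := by
  rw [eq_top_iff, ← M.internal.submodule_iSup_eq_top]
  exact iSup_le M.hodge_le_V

theorem isUnit_det_Z : IsUnit M.Z.det := by
  rw [← isUnit_iff_isUnit_det, ← mulVec_surjective_iff_isUnit]
  intro y
  have h1 : y ∈ M.V := by
    rw [V_eq_top]
    trivial
  exact h1

/-- Factorisation of the comparison matrix: parabolic times split times block diagonal. -/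
theorem exists_factor (h2 : IsUnit (2 : R)) : ∃ (b : Matrix (Idx n) (Idx n) R)
    (h₁ h₂ : Matrix (Fin n) (Fin n) R), IsUnit b.det ∧
    (∀ i j, M.hodgeIdx i < M.hodgeIdx j → b i j = 0) ∧ IsUnit h₁.det ∧ IsUnit h₂.det ∧
    M.comp = b * gz R n * fromBlocks h₁ 0 0 h₂ := by
  have hZ := M.isUnit_det_Z
  have hg := isUnit_det_gz (n := n) h2
  have hZg : IsUnit (M.Z * gz R n).det := by
    rw [det_mul]
    exact hZ.mul hg
  have hcomm : frob R n * (M.Z * gz R n) = (M.Z * gz R n) * frob R n := by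
    rw [← Matrix.mul_assoc, frob_mul_Z, Matrix.mul_assoc, swapM_mul_gz, ← Matrix.mul_assoc]
  let h := (M.Z * gz R n)⁻¹
  have hcomm' : frob R n * h = h * frob R n := by
    have e1 : h * (frob R n * (M.Z * gz R n)) * h = h * ((M.Z * gz R n) * frob R n) * h := by
      rw [hcomm]
    rw [Matrix.mul_assoc, Matrix.mul_assoc (frob R n), mul_nonsing_inv _ hZg, Matrix.mul_one,
      ← Matrix.mul_assoc h, nonsing_inv_mul _ hZg, Matrix.one_mul] at e1
    exact e1.symm
  have hblock := block_of_commute h2 h hcomm'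
  have hdet : IsUnit h.det := by
    simp only [h]
    rw [det_nonsing_inv]
    exact hZg.ringInverse
  have hdet2 : IsUnit (h.toBlocks₁₁.det * h.toBlocks₂₂.det) := by
    rw [hblock, det_fromBlocks_zero₂₁] at hdet
    exact hdet
  refine ⟨M.b, h.toBlocks₁₁, h.toBlocks₂₂, ?_, M.b_parabolic, isUnit_of_mul_isUnit_left hdet2,
    isUnit_of_mul_isUnit_right hdet2, ?_⟩
  · unfold b
    rw [det_mul]
    exact M.comp_unit.mul hZ
  · rw [← hblock]
    unfold b
    rw [Matrix.mul_assoc M.comp, Matrix.mul_assoc, mul_nonsing_inv _ hZg, Matrix.mul_one]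

end Datum

end Pool.Agent.MP100fe7
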