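import Pool.Agent.Lib.MP_100fe7_nt.GDefs

/-!
Families of endomorphisms of realisations in all tensor constructions on a motive, the Deligne
periods of the direct summands cut out by them, the criterion, and the number of components.
-/

namespace Pool.Agent.MP100fe7G

open Matrix

/-- A set of pairs of endomorphisms (of the Betti and of the de Rham realisation) of every tensor
construction `T = ⊕_{j < k} M^{⊗ a j} ⊗ (M^∨)^{⊗ b j}` on `M`. -/
abbrev Fam (n : Type) (E : Type) : Type :=
  ∀ (k : ℕ) (a b : Fin k → ℕ), Set (TMat n a b E × TMat n a b E)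

/-- A pair `pr` of matrices on a tensor construction `T = ⊕_{j < k} M^{⊗ a j} ⊗ (M^∨)^{⊗ b j}`
(the Betti and de Rham component of a projector onto a direct summand `N` of `T`), a sign `ε`
(`0`, `1` or `-1`) and an integer `r`. -/
structure Summand (n : Type) (E : Type) where
  /-- the number of terms of the tensor construction -/
  k : ℕ
  /-- the exponents of `M` -/
  a : Fin k → ℕ
  /-- the exponents of the dual of `M` -/
  b : Fin k → ℕ
  /-- the components of the projector -/
  pr : TMat n a b E × TMat n a b E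
  /-- the sign -/
  ε : ℤ
  /-- the step of the Hodge filtration -/
  r : ℤ

/-- The Lie algebra over `E` of the stabiliser of the Betti components of all members of `S`. -/
def lieF {E : Type} [Field E] {n : Type} [Fintype n] [DecidableEq n] (wt : n → ℤ) (S : Fam n E) :
    Submodule E (Matrix n n E) :=
  ⨅ k : ℕ, ⨅ a : Fin k → ℕ, ⨅ b : Fin k → ℕ, lieB wt (S k a b)

/-- The group of the complex points, with respect to the embedding `τ : E → ℂ`, of the stabiliser
in `∏_w GL(M_w)` of the Betti components of all members of `S`: the pairs `(g, g⁻¹)`. -/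
def groupF {E : Type} [Field E] {n : Type} [Fintype n] [DecidableEq n] (wt : n → ℤ) (S : Fam n E)
    (τ : E →+* ℂ) : Set (Matrix n n ℂ × Matrix n n ℂ) :=
  {g | ∀ (k : ℕ) (a b : Fin k → ℕ), g ∈ group wt (S k a b) τ}

/-- The set `G` of pairs of matrices has at most `c` irreducible components: if the products of any
two of `c + 1` polynomials in the entries vanish on `G`, one of the polynomials vanishes on `G`. -/
def CompLe {n : Type} (c : ℕ) (G : Set (Matrix n n ℂ × Matrix n n ℂ)) : Prop :=
  ∀ p : Fin (c + 1) → MvPolynomial ((n × n) ⊕ (n × n)) ℂ,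
    (∀ i j, i ≠ j → ∀ g ∈ G,
      (p i * p j).eval (Sum.elim (fun i => g.1 i.1 i.2) fun i => g.2 i.1 i.2) = 0) →
    ∃ i, ∀ g ∈ G, (p i).eval (Sum.elim (fun i => g.1 i.1 i.2) fun i => g.2 i.1 i.2) = 0

namespace Datum

variable {E R : Type} [Field E] [CommRing R] [Algebra E R] {n : Type} [Fintype n] [DecidableEq n]
  (M : Datum E R n) (S : Fam n E)

/-- `c` is the determinant of `N^ε ⊗ ℂ → (N_DR / F^r N_DR) ⊗ ℂ` in `E`-bases, where `N` is the
direct summand cut out by the projector `p.pr`, which belongs to `S`. -/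
def IsPer (p : Summand n E) (c : R) : Prop :=
  p.pr ∈ S p.k p.a p.b ∧ p.pr.1 * p.pr.1 = p.pr.1 ∧ (p.ε = 0 ∨ p.ε = 1 ∨ p.ε = -1) ∧
    M.IsPeriod p.pr.1 p.pr.2 p.ε p.r c

/-- The criterion: the characters of `𝔨` and of `𝔭` given by `∑ i, m i * trace (· | N_i^{ε i})` and
by `∑ i, m i * trace (· | N_{i, DR} / F^{r i})` are zero, where `𝔨` and `𝔭` are defined by all
members of the family `S`. -/
def CritF {I : Type} [Fintype I] (p : I → Summand n E) (m : I → ℤ) : Prop :=
  (∀ Y : Matrix n n E, (∀ (k : ℕ) (a b : Fin k → ℕ), InK M.wt M.frob (S k a b) Y) →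
    ∑ i, (m i : E) * traceK M.frob (p i).pr.1 (p i).ε Y = 0) ∧
    ∀ Z : Matrix n n E, (∀ (k : ℕ) (a b : Fin k → ℕ), InP M.wt M.idx (S k a b) Z) →
      ∑ i, (m i : E) * traceP M.idx (p i).pr.2 (p i).r Z = 0

/-- The space `[𝔨, 𝔨] + x⁻¹ [𝔭, 𝔭] x` over `ℂ`, where `x` is the image of the comparison matrix
under `τ`, and `𝔨` and `𝔭` are defined by all members of the family `S`. -/
def brF (τ : R →+* ℂ) : Submodule ℂ (Matrix n n ℂ) :=
  Submodule.span ℂ
    ({X | ∃ Y Y' : Matrix n n E,
        (∀ (k : ℕ) (a b : Fin k → ℕ), InK M.wt M.frob (S k a b) Y) ∧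
        (∀ (k : ℕ) (a b : Fin k → ℕ), InK M.wt M.frob (S k a b) Y') ∧
        X = (Y * Y' - Y' * Y).map (τ.comp (algebraMap E R))} ∪
      {X | ∃ Z Z' : Matrix n n E,
        (∀ (k : ℕ) (a b : Fin k → ℕ), InP M.wt M.idx (S k a b) Z) ∧
        (∀ (k : ℕ) (a b : Fin k → ℕ), InP M.wt M.idx (S k a b) Z') ∧
        X = M.comp⁻¹.map τ * (Z * Z' - Z' * Z).map (τ.comp (algebraMap E R)) * M.comp.map τ})

/-- The group generated by all Deligne periods (which are units) of the direct summands, cut out by
members of `S`, of all tensor constructions. -/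
def perGroup : Subgroup Rˣ := Subgroup.closure {u | ∃ p, M.IsPer S p (u : R)}

end Datum

open TensorProduct

namespace Datum

variable {E : Type} [Field E] [NumberField E] {n : Type} [Fintype n] [DecidableEq n]
  (M : Datum E (E ⊗[ℚ] ℂ) n) (S : Fam n E)

/-- The unit `x` of `E ⊗ ℂ` is algebraic and, whenever the stabiliser `G` of the Betti components of
the members of `S` has at most `c` components (for one embedding), `x` is a root of a nonzero
polynomial over `E` of degree at most `c`, and `x` is in `Eˣ` if `c = 1`. -/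
def SmallAlg (x : (E ⊗[ℚ] ℂ)ˣ) : Prop :=
  IsAlgebraic ℚ (x : E ⊗[ℚ] ℂ) ∧ ∀ c : ℕ,
    (∃ τ : (E ⊗[ℚ] ℂ) →+* ℂ, CompLe c (groupF M.wt S (τ.comp (algebraMap E (E ⊗[ℚ] ℂ))))) →
      (∃ q : Polynomial E, q ≠ 0 ∧ q.natDegree ≤ c ∧
        Polynomial.aeval (x : E ⊗[ℚ] ℂ) q = 0) ∧
      (c = 1 → ∃ e : Eˣ, x = Units.map (algebraMap E (E ⊗[ℚ] ℂ)).toMonoidHom e)

/-- For one embedding, the field generated by `E` and the entries of the comparison matrix has
transcendence degree equal to the dimension of the stabiliser of the Betti components of the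
members of `S`. -/
def TrMax : Prop :=
  ∃ τ : (E ⊗[ℚ] ℂ) →+* ℂ, Algebra.trdeg ℚ (IntermediateField.adjoin ℚ
    (Set.range (τ.comp (algebraMap E (E ⊗[ℚ] ℂ))) ∪ {z | ∃ i j, z = τ (M.comp i j)})) =
      Module.finrank E (lieF M.wt S)

end Datum

end Pool.Agent.MP100fe7G
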