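import Pool.Agent.Lib.MP_100fe7_nt.G8Trace
import Pool.Agent.Lib.MP_100fe7_nt.G8Defs

/-!
The direct sum of finitely many tensor constructions.
-/

set_option linter.unusedSectionVars false

namespace Pool.Agent.MP100fe7G

open Matrix

section comb

variable {F : Type} [Fintype F] [DecidableEq F] {kk : F → ℕ} {n : Type} [Fintype n]
  [DecidableEq n]

/-- The exponents of the direct sum. -/
abbrev cA (aa : ∀ x : F, Fin (kk x) → ℕ) : (Σ x : F, Fin (kk x)) → ℕ := fun y => aa y.1 y.2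

variable (aa bb : ∀ x : F, Fin (kk x) → ℕ)

/-- The inclusion of the basis of a summand. -/
def inc (x : F) (s : TIdx n (aa x) (bb x)) : TIdx n (cA aa) (cA bb) := ⟨⟨x, s.1⟩, s.2⟩

theorem inc_injective (x : F) : Function.Injective (inc (n := n) aa bb x) := by
  rintro ⟨j, u⟩ ⟨k, v⟩ h
  simp only [inc, Sigma.mk.injEq, true_and] at h
  obtain ⟨h1, h2⟩ := h
  have h3 : j = k := by
    have := eq_of_heq (by simpa using h1)
    exact this
  subst h3
  exact congrArg _ (eq_of_heq h2)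

variable (n) in
/-- The matrix of the inclusion. -/
def emb (S : Type*) [CommRing S] (x : F) :
    Matrix (TIdx n (cA aa) (cA bb)) (TIdx n (aa x) (bb x)) S :=
  Matrix.of fun s t => if s = inc aa bb x t then 1 else 0

variable {S : Type*} [CommRing S] (x : F)

theorem emb_mul {κ : Type*} (X : Matrix (TIdx n (aa x) (bb x)) κ S) (s : TIdx n (aa x) (bb x))
    (t : κ) : (emb n aa bb S x * X) (inc aa bb x s) t = X s t := by
  rw [mul_apply, Finset.sum_eq_single s]
  · simp [emb]
  · intro w _ hw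
    have h1 : inc aa bb x s ≠ inc aa bb x w := fun h => hw (inc_injective aa bb x h).symm
    simp [emb, h1]
  · intro h
    exact absurd (Finset.mem_univ s) h

theorem emb_mul_zero {κ : Type*} (X : Matrix (TIdx n (aa x) (bb x)) κ S)
    (s : TIdx n (cA aa) (cA bb)) (hs : ∀ w, s ≠ inc aa bb x w) (t : κ) :
    (emb n aa bb S x * X) s t = 0 := by
  rw [mul_apply]
  refine Finset.sum_eq_zero fun w _ => ?_
  simp [emb, hs w]

theorem mul_emb {κ : Type*} (X : Matrix κ (TIdx n (cA aa) (cA bb)) S) (s : κ)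
    (t : TIdx n (aa x) (bb x)) : (X * emb n aa bb S x) s t = X s (inc aa bb x t) := by
  rw [mul_apply, Finset.sum_eq_single (inc aa bb x t)]
  · simp [emb]
  · intro w _ hw
    simp [emb, hw]
  · intro h
    exact absurd (Finset.mem_univ _) h

theorem embT_mul_emb : (emb n aa bb S x)ᵀ * emb n aa bb S x = 1 := by
  refine Matrix.ext fun s t => ?_
  rw [mul_emb, transpose_apply, one_apply]
  by_cases h : s = t
  · subst h
    simp [emb]
  · have h1 : inc aa bb x t ≠ inc aa bb x s := fun e => h (inc_injective aa bb x e).symm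
    simp [emb, h, h1]

theorem emb_map {S' : Type*} [CommRing S'] (φ : S →+* S') :
    (emb n aa bb S x).map φ = emb n aa bb S' x := by
  ext s t
  simp [emb, apply_ite φ]

theorem emb_transpose_map {S' : Type*} [CommRing S'] (φ : S →+* S') :
    ((emb n aa bb S x)ᵀ).map φ = (emb n aa bb S' x)ᵀ := by
  rw [transpose_map, emb_map]

/-- entries of the tensor construction -/
theorem tens_inc (X Y : Matrix n n S) (s t : TIdx n (aa x) (bb x)) :
    tens (cA aa) (cA bb) X Y (inc aa bb x s) (inc aa bb x t) = tens (aa x) (bb x) X Y s t := by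
  obtain ⟨j, u⟩ := s
  obtain ⟨k, v⟩ := t
  rcases eq_or_ne j k with h | h
  · subst h
    rw [tens_same]
    exact tens_same (a := cA aa) (b := cA bb) X Y ⟨x, j⟩ u v
  · rw [tens_ne X Y h]
    refine tens_ne (a := cA aa) (b := cA bb) X Y (j := ⟨x, j⟩) (k := ⟨x, k⟩) ?_ u v
    intro h1
    simp only [Sigma.mk.injEq, heq_eq_eq, true_and] at h1
    exact h h1

theorem tens_inc_zero (X Y : Matrix n n S) (s : TIdx n (cA aa) (cA bb))
    (hs : ∀ w, s ≠ inc aa bb x w) (t : TIdx n (aa x) (bb x)) :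
    tens (cA aa) (cA bb) X Y s (inc aa bb x t) = 0 ∧
      tens (cA aa) (cA bb) X Y (inc aa bb x t) s = 0 := by
  obtain ⟨⟨x', j⟩, u⟩ := s
  obtain ⟨k, v⟩ := t
  have h1 : (⟨x', j⟩ : Σ x : F, Fin (kk x)) ≠ ⟨x, k⟩ := by
    intro h
    have hx : x' = x := congrArg Sigma.fst h
    subst hx
    exact hs ⟨j, u⟩ rfl
  exact ⟨tens_ne (a := cA aa) (b := cA bb) X Y h1 u v,
    tens_ne (a := cA aa) (b := cA bb) X Y (Ne.symm h1) v u⟩

/-- A matrix on the direct sum which restricts to a matrix on a summand. -/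
def Compat (X' : Matrix (TIdx n (cA aa) (cA bb)) (TIdx n (cA aa) (cA bb)) S)
    (X : Matrix (TIdx n (aa x) (bb x)) (TIdx n (aa x) (bb x)) S) : Prop :=
  (∀ s t, X' (inc aa bb x s) (inc aa bb x t) = X s t) ∧
    ∀ s, (∀ w, s ≠ inc aa bb x w) → ∀ t, X' s (inc aa bb x t) = 0 ∧ X' (inc aa bb x t) s = 0

variable {aa bb x}

theorem Compat.mul_emb {X' : Matrix (TIdx n (cA aa) (cA bb)) (TIdx n (cA aa) (cA bb)) S}
    {X : Matrix (TIdx n (aa x) (bb x)) (TIdx n (aa x) (bb x)) S} (h : Compat aa bb x X' X) :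
    X' * emb n aa bb S x = emb n aa bb S x * X := by
  refine Matrix.ext fun s t => ?_
  rw [MP100fe7G.mul_emb]
  by_cases hs : ∃ w, s = inc aa bb x w
  · obtain ⟨w, rfl⟩ := hs
    rw [emb_mul, h.1]
  · push Not at hs
    rw [emb_mul_zero _ _ _ _ _ hs, (h.2 s hs t).1]

theorem Compat.transpose {X' : Matrix (TIdx n (cA aa) (cA bb)) (TIdx n (cA aa) (cA bb)) S}
    {X : Matrix (TIdx n (aa x) (bb x)) (TIdx n (aa x) (bb x)) S} (h : Compat aa bb x X' X) :
    Compat aa bb x X'ᵀ Xᵀ :=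
  ⟨fun s t => h.1 t s, fun s hs t => ⟨(h.2 s hs t).2, (h.2 s hs t).1⟩⟩

theorem Compat.embT_mul {X' : Matrix (TIdx n (cA aa) (cA bb)) (TIdx n (cA aa) (cA bb)) S}
    {X : Matrix (TIdx n (aa x) (bb x)) (TIdx n (aa x) (bb x)) S} (h : Compat aa bb x X' X) :
    (emb n aa bb S x)ᵀ * X' = X * (emb n aa bb S x)ᵀ := by
  have h1 := congrArg Matrix.transpose h.transpose.mul_emb
  rw [transpose_mul, transpose_mul, transpose_transpose, transpose_transpose] at h1
  exact h1

variable (aa bb x)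

theorem compat_tens (X Y : Matrix n n S) :
    Compat aa bb x (tens (cA aa) (cA bb) X Y) (tens (aa x) (bb x) X Y) :=
  ⟨fun s t => tens_inc aa bb x X Y s t, fun s hs t => tens_inc_zero aa bb x X Y s hs t⟩

theorem compat_lie (X : Matrix n n S) :
    Compat aa bb x (lie (cA aa) (cA bb) X) (lie (aa x) (bb x) X) := by
  have h := compat_tens aa bb x (dual 1 X) (dual 1 (-X))
  refine ⟨fun s t => ?_, fun s hs t => ⟨?_, ?_⟩⟩
  · exact congrArg TrivSqZeroExt.snd (h.1 s t)
  · exact congrArg TrivSqZeroExt.snd (h.2 s hs t).1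
  · exact congrArg TrivSqZeroExt.snd (h.2 s hs t).2

/-- The extension of a matrix on a summand by zero. -/
def ext (s : Matrix (TIdx n (aa x) (bb x)) (TIdx n (aa x) (bb x)) S) :
    Matrix (TIdx n (cA aa) (cA bb)) (TIdx n (cA aa) (cA bb)) S :=
  emb n aa bb S x * s * (emb n aa bb S x)ᵀ

theorem ext_map {S' : Type*} [CommRing S'] (φ : S →+* S')
    (s : Matrix (TIdx n (aa x) (bb x)) (TIdx n (aa x) (bb x)) S) :
    (ext aa bb x s).map φ = ext aa bb x (s.map φ) := by
  unfold ext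
  rw [Matrix.map_mul, Matrix.map_mul, emb_map, emb_transpose_map]

theorem ext_mul (s t : Matrix (TIdx n (aa x) (bb x)) (TIdx n (aa x) (bb x)) S) :
    ext aa bb x s * ext aa bb x t = ext aa bb x (s * t) := by
  unfold ext
  calc emb n aa bb S x * s * (emb n aa bb S x)ᵀ * (emb n aa bb S x * t * (emb n aa bb S x)ᵀ) =
      emb n aa bb S x * s * ((emb n aa bb S x)ᵀ * emb n aa bb S x) * t * (emb n aa bb S x)ᵀ := by
        simp only [Matrix.mul_assoc]
    _ = _ := by
        rw [embT_mul_emb, Matrix.mul_one]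
        simp only [Matrix.mul_assoc]

theorem ext_apply (X : Matrix (TIdx n (aa x) (bb x)) (TIdx n (aa x) (bb x)) S)
    (s t : TIdx n (aa x) (bb x)) :
    ext aa bb x X (inc aa bb x s) (inc aa bb x t) = X s t := by
  unfold ext
  rw [Matrix.mul_assoc, emb_mul]
  have h1 := emb_mul aa bb x Xᵀ t s
  rw [transpose_apply] at h1
  rw [← h1, ← transpose_apply (emb n aa bb S x * Xᵀ), transpose_mul, transpose_transpose]

theorem ext_zero (X : Matrix (TIdx n (aa x) (bb x)) (TIdx n (aa x) (bb x)) S)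
    (s : TIdx n (cA aa) (cA bb)) (hs : ∀ w, s ≠ inc aa bb x w) (t : TIdx n (cA aa) (cA bb)) :
    ext aa bb x X s t = 0 ∧ ext aa bb x X t s = 0 := by
  unfold ext
  constructor
  · rw [Matrix.mul_assoc]
    exact emb_mul_zero aa bb x _ s hs t
  · rw [← transpose_apply (emb n aa bb S x * X * (emb n aa bb S x)ᵀ), transpose_mul,
      transpose_transpose]
    exact emb_mul_zero aa bb x _ s hs t

theorem compat_ext (X : Matrix (TIdx n (aa x) (bb x)) (TIdx n (aa x) (bb x)) S) :
    Compat aa bb x (ext aa bb x X) X :=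
  ⟨fun s t => ext_apply aa bb x X s t, fun s hs _ => ext_zero aa bb x X s hs _⟩

variable {aa bb x}

theorem Compat.mul_ext {X' : Matrix (TIdx n (cA aa) (cA bb)) (TIdx n (cA aa) (cA bb)) S}
    {X : Matrix (TIdx n (aa x) (bb x)) (TIdx n (aa x) (bb x)) S} (h : Compat aa bb x X' X)
    (s : Matrix (TIdx n (aa x) (bb x)) (TIdx n (aa x) (bb x)) S) :
    X' * ext aa bb x s = ext aa bb x (X * s) := by
  unfold ext
  rw [← Matrix.mul_assoc, ← Matrix.mul_assoc, h.mul_emb, ← Matrix.mul_assoc]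

theorem Compat.ext_mul {X' : Matrix (TIdx n (cA aa) (cA bb)) (TIdx n (cA aa) (cA bb)) S}
    {X : Matrix (TIdx n (aa x) (bb x)) (TIdx n (aa x) (bb x)) S} (h : Compat aa bb x X' X)
    (s : Matrix (TIdx n (aa x) (bb x)) (TIdx n (aa x) (bb x)) S) :
    ext aa bb x s * X' = ext aa bb x (s * X) := by
  unfold ext
  rw [Matrix.mul_assoc, h.embT_mul, ← Matrix.mul_assoc, ← Matrix.mul_assoc]

variable (aa bb x)

theorem ext_injective {X Y : Matrix (TIdx n (aa x) (bb x)) (TIdx n (aa x) (bb x)) S}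
    (h : ext aa bb x X = ext aa bb x Y) : X = Y := by
  refine Matrix.ext fun s t => ?_
  rw [← ext_apply aa bb x X, ← ext_apply aa bb x Y, h]

theorem trace_ext (X : Matrix (TIdx n (aa x) (bb x)) (TIdx n (aa x) (bb x)) S) :
    (ext aa bb x X).trace = X.trace := by
  unfold ext
  rw [Matrix.trace_mul_comm, ← Matrix.mul_assoc, embT_mul_emb, Matrix.one_mul]

end comb

end Pool.Agent.MP100fe7G
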