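import Pool.Agent.Lib.MP_100fe7_nt.GPart

/-!
The eigenvalues of `lie X` on a tensor construction are integral combinations of the diagonal
entries of a triangular form of `X`.
-/

set_option linter.unusedSectionVars false

namespace Pool.Agent.MP100fe7G

open Matrix

/-- Triangular form of an endomorphism over an algebraically closed field. -/
theorem exists_tri_basis {K : Type} [Field K] [IsAlgClosed K] (d : ℕ) :
    ∀ (V : Type) [AddCommGroup V] [Module K V] [FiniteDimensional K V]
      (_ : Module.finrank K V = d) (f : Module.End K V),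
      ∃ b : Module.Basis (Fin d) K V, ∀ i j, j < i → b.repr (f (b i)) j = 0 := by
  induction d with
  | zero =>
    intro V _ _ _ hd f
    exact ⟨Module.finBasisOfFinrankEq K V hd, fun i => i.elim0⟩
  | succ d ih =>
    intro V _ _ _ hd f
    -- an eigenvector of the dual map
    have hV : Nontrivial (Module.Dual K V) := by
      apply Module.nontrivial_of_finrank_pos (R := K)
      rw [Subspace.dual_finrank_eq, hd]
      exact Nat.succ_pos d
    obtain ⟨μ, hμ⟩ := Module.End.exists_eigenvalue (Module.Dual.transpose (R := K) f : Module.End K (Module.Dual K V))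
    obtain ⟨φ, hφ⟩ := hμ.exists_hasEigenvector
    have hφ0 : φ ≠ 0 := hφ.2
    have hφf : ∀ v, φ (f v) = μ * φ v := by
      intro v
      have h1 := hφ.apply_eq_smul
      exact LinearMap.congr_fun h1 v
    set W := LinearMap.ker φ with hW
    have hWf : ∀ w ∈ W, f w ∈ W := by
      intro w hw
      have h1 : φ w = 0 := hw
      show φ (f w) = 0
      rw [hφf, h1, mul_zero]
    obtain ⟨y, hy⟩ : ∃ y, φ y ≠ 0 := by
      by_contra h
      push Not at h
      exact hφ0 (LinearMap.ext h)
    have hdW : Module.finrank K W = d := by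
      have h1 : Module.finrank K W + 1 = Module.finrank K V :=
        Module.Dual.finrank_ker_add_one_of_ne_zero hφ0
      rw [hd] at h1
      exact Nat.succ_injective h1
    set g : Module.End K W := f.restrict hWf with hg
    obtain ⟨b, hb⟩ := ih W hdW g
    have hli : ∀ c : K, ∀ x ∈ W, c • y + x = 0 → c = 0 := by
      intro c x hx h
      have h1 := congrArg φ h
      rw [map_add, map_smul, LinearMap.mem_ker.mp hx, add_zero, map_zero, smul_eq_mul] at h1
      exact (mul_eq_zero.mp h1).resolve_right hy
    have hsp : ∀ z : V, ∃ c : K, z + c • y ∈ W := by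
      intro z
      refine ⟨-(φ z / φ y), ?_⟩
      rw [hW, LinearMap.mem_ker, map_add, map_smul, smul_eq_mul]
      field_simp
      ring
    set B := Module.Basis.mkFinCons y b hli hsp with hB
    have hB0 : B 0 = y := by
      rw [hB, Module.Basis.coe_mkFinCons, Fin.cons_zero]
    have hBs : ∀ i : Fin d, B i.succ = (b i : V) := by
      intro i
      rw [hB, Module.Basis.coe_mkFinCons, Fin.cons_succ]
      rfl
    have hrepr : ∀ (w : W) (j : Fin (d + 1)), B.repr (w : V) j =
        Fin.cases 0 (fun j' => b.repr w j') j := by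
      intro w j
      have h1 : (w : V) = ∑ i, b.repr w i • B i.succ := by
        conv_lhs => rw [← b.sum_repr w]
        rw [Submodule.coe_sum]
        refine Finset.sum_congr rfl fun i _ => ?_
        rw [Submodule.coe_smul, hBs]
      rw [h1, map_sum, Finset.sum_apply']
      simp only [map_smul, Module.Basis.repr_self, Finsupp.smul_single, smul_eq_mul, mul_one]
      refine Fin.cases ?_ (fun j' => ?_) j
      · simp
      · simp [Finsupp.single_apply]
    refine ⟨B, ?_⟩
    intro i j hij
    induction i using Fin.cases with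
    | zero => exact absurd hij (Fin.not_lt_zero j)
    | succ i =>
      rw [hBs]
      have h2 : f (b i : V) = ((g (b i) : W) : V) := rfl
      rw [h2, hrepr]
      induction j using Fin.cases with
      | zero => rfl
      | succ j =>
        exact hb i j (Fin.succ_lt_succ_iff.mp hij)

/-- Triangular form of a matrix over an algebraically closed field. -/
theorem exists_tri {K : Type} [Field K] [IsAlgClosed K] {n : Type} [Fintype n] [DecidableEq n]
    (X : Matrix n n K) : ∃ (P Q : Matrix n n K) (h : n → ℤ), Q * P = 1 ∧ Function.Injective h ∧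
      ∀ i j, h i < h j → (Q * X * P) i j = 0 := by
  have hd : Module.finrank K (n → K) = Fintype.card n := Module.finrank_fintype_fun_eq_card K
  obtain ⟨b, hb⟩ := exists_tri_basis (K := K) (Fintype.card n) (n → K) hd (Matrix.toLin' X)
  let e : n ≃ Fin (Fintype.card n) := Fintype.equivFin n
  set b' : Module.Basis n K (n → K) := b.reindex e.symm with hb'
  refine ⟨(Pi.basisFun K n).toMatrix b', b'.toMatrix (Pi.basisFun K n),
    fun i => ((e i : ℕ) : ℤ), Module.Basis.toMatrix_mul_toMatrix_flip _ _, ?_, ?_⟩
  · intro i j hij
    have h1 : ((e i : ℕ) : ℤ) = ((e j : ℕ) : ℤ) := hij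
    exact e.injective (Fin.ext (by exact_mod_cast h1))
  · intro i j hij
    have h1 : b'.toMatrix (Pi.basisFun K n) * X * (Pi.basisFun K n).toMatrix b' =
        LinearMap.toMatrix b' b' (Matrix.toLin' X) := by
      have h2 : X = LinearMap.toMatrix (Pi.basisFun K n) (Pi.basisFun K n) (Matrix.toLin' X) := by
        rw [LinearMap.toMatrix_eq_toMatrix', LinearMap.toMatrix'_toLin']
      conv_lhs => rw [h2]
      rw [basis_toMatrix_mul_linearMap_toMatrix_mul_basis_toMatrix]
    rw [h1, LinearMap.toMatrix_apply]
    have h3 : b' j = b (e j) := by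
      rw [hb', Module.Basis.reindex_apply, Equiv.symm_symm]
    rw [h3, hb', Module.Basis.repr_reindex_apply, Equiv.symm_symm]
    apply hb
    have h4 : ((e i : ℕ) : ℤ) < ((e j : ℕ) : ℤ) := hij
    exact Fin.lt_def.mpr (by exact_mod_cast h4)

section lie

variable {K : Type} [Field K] {n J : Type} [Fintype n] [DecidableEq n] [Fintype J] [DecidableEq J]
  {a b : J → ℕ}

theorem lie_single_cast (i j : n) : lie a b (single i j (1 : K)) =
    (lie a b (single i j (1 : ℤ))).map (Int.castRingHom K) := by
  rw [← lie_map]
  congr 1
  ext k l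
  simp [single_apply, apply_ite (Int.cast : ℤ → K)]

theorem lie_single_diag (i : n) (s t : TIdx n a b) :
    lie a b (single i i (1 : ℤ)) s t =
      if s = t then wsum (fun j => if j = i then 1 else 0) s else 0 := by
  have h0 := lie_diag (S := ℤ) (a := a) (b := b) (fun j => if j = i then 1 else 0)
  have h1 : (diagonal fun j => ((if j = i then (1 : ℤ) else 0 : ℤ) : ℤ)) = single i i (1 : ℤ) := by
    ext k l
    by_cases hkl : k = l
    · subst hkl
      simp [single_apply, eq_comm]
    · rw [diagonal_apply_ne _ hkl, single_apply, if_neg]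
      rintro ⟨rfl, rfl⟩
      exact hkl rfl
  simp only [Int.cast_id] at h0 h1
  rw [h1] at h0
  rw [h0, diagonal_apply]

/-- The differential of a triangular matrix is triangular, with diagonal entries integral
combinations of the diagonal entries. -/
theorem lie_tri {U : Matrix n n K} {h : n → ℤ} (hh : Function.Injective h)
    (hU : ∀ i j, h i < h j → U i j = 0) (s t : TIdx n a b) :
    (s ≠ t → ¬ wsum h t < wsum h s → lie a b U s t = 0) ∧
      lie a b U s s = ∑ i, wsum (fun j => if j = i then 1 else 0) s • U i i := by
  have hoff : ∀ i j, i ≠ j → ¬ wsum h t < wsum h s →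
      U i j * lie a b (single i j (1 : K)) s t = 0 := by
    intro i j hij hlt
    by_cases h1 : h i < h j
    · rw [hU i j h1, zero_mul]
    · have h2 : h i ≠ h j := fun e => hij (hh e)
      have h3 : wsum h s - wsum h t ≠ h i - h j := by omega
      rw [lie_single_cast, map_apply, lie_single_int h i j s t h3, map_zero, mul_zero]
  constructor
  · intro hst hlt
    rw [lie_eq_sum, Matrix.sum_apply]
    refine Finset.sum_eq_zero fun i _ => ?_
    rw [Matrix.sum_apply]
    refine Finset.sum_eq_zero fun j _ => ?_
    rw [Matrix.smul_apply, smul_eq_mul]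
    by_cases hij : i = j
    · subst hij
      rw [lie_single_cast, map_apply, lie_single_diag, if_neg hst, map_zero, mul_zero]
    · exact hoff i j hij hlt
  · rw [lie_eq_sum, Matrix.sum_apply]
    refine Finset.sum_congr rfl fun i _ => ?_
    rw [Matrix.sum_apply, Finset.sum_eq_single i]
    · rw [Matrix.smul_apply, smul_eq_mul, lie_single_cast, map_apply, lie_single_diag, if_pos rfl,
        zsmul_eq_mul, mul_comm]
      rfl
    · intro j _ hj
      rw [Matrix.smul_apply, smul_eq_mul]
      have h2 : h i ≠ h j := fun e => hj (hh e).symm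
      have h3 : wsum h s - wsum h s ≠ h i - h j := by omega
      rw [lie_single_cast, map_apply, lie_single_int h i j s s h3, map_zero, mul_zero]
    · intro h1
      exact absurd (Finset.mem_univ i) h1

/-- The eigenvalues of `lie X` are in the group generated by the diagonal entries of a triangular
form of `X`. -/
theorem eig_lie {X P Q : Matrix n n K} {h : n → ℤ} (hQP : Q * P = 1)
    (hh : Function.Injective h) (hU : ∀ i j, h i < h j → (Q * X * P) i j = 0)
    (L : AddSubgroup K) (hL : ∀ i, (Q * X * P) i i ∈ L) {v : TIdx n a b → K} (hv : v ≠ 0) {μ : K}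
    (hμ : (lie a b X).mulVec v = μ • v) : μ ∈ L := by
  set U := Q * X * P with hUdef
  set w := (tens a b Q P).mulVec v with hw
  have hinv : tens a b P Q * tens a b Q P = 1 := tens_inv (mul_eq_one_comm.mp hQP)
  have hv' : (tens a b P Q).mulVec w = v := by
    rw [hw, mulVec_mulVec, hinv, one_mulVec]
  have hw0 : w ≠ 0 := by
    intro h0
    rw [h0, mulVec_zero] at hv'
    exact hv hv'.symm
  have hwμ : (lie a b U).mulVec w = μ • w := by
    rw [hUdef, ← lie_conj hQP, ← mulVec_mulVec, ← mulVec_mulVec, hv', hμ, mulVec_smul]
  -- choose a minimal index in the support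
  classical
  obtain ⟨s₀, hs₀⟩ : ∃ s, w s ≠ 0 := by
    by_contra h1
    push Not at h1
    exact hw0 (funext h1)
  obtain ⟨s, hs, hmin⟩ := Finset.exists_min_image (Finset.univ.filter fun s => w s ≠ 0)
    (fun s => wsum h s) ⟨s₀, by simp [hs₀]⟩
  rw [Finset.mem_filter] at hs
  have h1 := congrFun hwμ s
  rw [mulVec, dotProduct, Finset.sum_eq_single s, Pi.smul_apply, smul_eq_mul] at h1
  · have h2 : lie a b U s s = μ := mul_right_cancel₀ hs.2 h1
    rw [← h2, (lie_tri hh hU s s).2]
    exact sum_mem fun i _ => zsmul_mem (hL i) _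
  · intro t _ hts
    by_cases h2 : w t = 0
    · rw [h2, mul_zero]
    · have h3 := hmin t (by simp [h2])
      rw [(lie_tri hh hU s t).1 (Ne.symm hts) (by omega), zero_mul]
  · intro h2
    exact absurd (Finset.mem_univ s) h2

end lie

/-- The trace of a matrix all of whose eigenvalues are in a group is in the group. -/
theorem trace_mem {K : Type} [Field K] [IsAlgClosed K] {m : Type} [Fintype m] [DecidableEq m]
    (B : Matrix m m K) (L : AddSubgroup K)
    (h : ∀ (μ : K) (v : m → K), v ≠ 0 → B.mulVec v = μ • v → μ ∈ L) : B.trace ∈ L := by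
  rw [Matrix.trace_eq_sum_roots_charpoly]
  refine multiset_sum_mem _ fun μ hμ => ?_
  have h1 := (Polynomial.mem_roots (Matrix.charpoly_monic B).ne_zero).mp hμ
  rw [Polynomial.IsRoot.def, Matrix.eval_charpoly] at h1
  obtain ⟨v, hv, hv'⟩ := Matrix.exists_mulVec_eq_zero_iff.mpr h1
  refine h μ v hv ?_
  rw [sub_mulVec] at hv'
  have h2 := sub_eq_zero.mp hv'
  rw [← h2]
  simp

end Pool.Agent.MP100fe7G
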