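import Pool.Agent.Lib.MP_100fe7_nt.G8Gen

/-!
Finite generation of the group of all Deligne periods, modulo the products which satisfy the
criterion.
-/

set_option linter.unusedSectionVars false

namespace Pool.Agent.MP100fe7G

open Matrix

/-- A subgroup of a torsion-free group with `m` generators is free with at most `m` generators. -/
theorem exists_gens {A ι : Type} [AddCommGroup A] [Module.IsTorsionFree ℤ A] [Fintype ι]
    (g : ι → A) (N : Submodule ℤ A) (hN : N ≤ Submodule.span ℤ (Set.range g)) :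
    ∃ s, s ≤ Fintype.card ι ∧ ∃ w : Fin s → A, (∀ i, w i ∈ N) ∧
      (∀ m : Fin s → ℤ, ∑ i, m i • w i = 0 → m = 0) ∧
      ∀ x ∈ N, ∃ m : Fin s → ℤ, x = ∑ i, m i • w i := by
  have h1 : Module.Finite ℤ (Submodule.span ℤ (Set.range g)) :=
    Module.Finite.span_of_finite ℤ (Set.finite_range g)
  set N' := N.comap (Submodule.span ℤ (Set.range g)).subtype with hN'
  have h2 : Module.Free ℤ N' := inferInstance
  have h3 : Module.Finite ℤ N' := inferInstance
  have h4 : Module.finrank ℤ N' ≤ Fintype.card ι := by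
    refine (Submodule.finrank_le N').trans ?_
    exact finrank_range_le_card (R := ℤ) (b := g)
  let b := Module.finBasis ℤ N'
  refine ⟨Module.finrank ℤ N', h4, fun i => ((b i : Submodule.span ℤ (Set.range g)) : A),
    fun i => (b i).2, ?_, ?_⟩
  · intro m hm
    have h5 : ∑ i, m i • b i = 0 := by
      apply Subtype.ext
      apply Subtype.ext
      simp only [Submodule.coe_sum, Submodule.coe_smul]
      exact hm
    funext i
    exact Fintype.linearIndependent_iff.mp b.linearIndependent m h5 i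
  intro x hx
  refine ⟨fun i => b.repr ⟨⟨x, hN hx⟩, hx⟩ i, ?_⟩
  have h5 := congrArg (fun z : N' => ((z : Submodule.span ℤ (Set.range g)) : A))
    (b.sum_repr ⟨⟨x, hN hx⟩, hx⟩)
  simp only [Submodule.coe_sum, Submodule.coe_smul] at h5
  exact h5.symm

section

variable {E R : Type} [Field E] [CharZero E] [Countable E] [CommRing R] [Algebra E R] {n : Type}
  [Fintype n] [DecidableEq n] (M : Datum E R n) (S : Fam n E)

/-- The pairs of a period and the values of its characters at `Y₀` and `Z₀`. -/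
def perPairs (Y₀ Z₀ : Matrix n n ℂ) [Algebra E ℂ] : Set (Rˣ × Multiplicative (ℂ × ℂ)) :=
  {z | ∃ p : Summand n E, M.IsPer S p (z.1 : R) ∧ z.2 = Multiplicative.ofAdd
    (traceK M.frob p.pr.1 p.ε Y₀, traceP M.idx p.pr.2 p.r Z₀)}

theorem mem_closure_pairs {Y₀ Z₀ : Matrix n n ℂ} [Algebra E ℂ]
    {z : Rˣ × Multiplicative (ℂ × ℂ)} (hz : z ∈ Subgroup.closure (perPairs M S Y₀ Z₀)) :
    ∃ (I : Type) (_ : Fintype I) (p : I → Summand n E) (m : I → ℤ) (u : I → Rˣ),
      (∀ i, M.IsPer S (p i) (u i : R)) ∧ z.1 = ∏ i, u i ^ m i ∧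
      (Multiplicative.toAdd z.2).1 = ∑ i, (m i : ℂ) * traceK M.frob (p i).pr.1 (p i).ε Y₀ ∧
      (Multiplicative.toAdd z.2).2 = ∑ i, (m i : ℂ) * traceP M.idx (p i).pr.2 (p i).r Z₀ := by
  induction hz using Subgroup.closure_induction with
  | mem z hz =>
    obtain ⟨p, hp, h2⟩ := hz
    refine ⟨Unit, inferInstance, fun _ => p, fun _ => 1, fun _ => z.1, fun _ => hp, ?_, ?_, ?_⟩
    · simp
    · rw [h2]
      simp
    · rw [h2]
      simp
  | one =>
    exact ⟨Empty, inferInstance, fun i => i.elim, fun i => i.elim, fun i => i.elim,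
      fun i => i.elim, by simp, by simp, by simp⟩
  | mul x y _ _ hx hy =>
    obtain ⟨I, _, p, m, u, h1, h2, h3, h4⟩ := hx
    obtain ⟨I', _, p', m', u', h1', h2', h3', h4'⟩ := hy
    refine ⟨I ⊕ I', inferInstance, Sum.elim p p', Sum.elim m m', Sum.elim u u', ?_, ?_, ?_, ?_⟩
    · rintro (i | i)
      · exact h1 i
      · exact h1' i
    · rw [Fintype.prod_sum_type, Prod.fst_mul, h2, h2']
      simp
    · rw [Fintype.sum_sum_type, Prod.snd_mul, toAdd_mul, Prod.fst_add, h3, h3']
      rfl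
    · rw [Fintype.sum_sum_type, Prod.snd_mul, toAdd_mul, Prod.snd_add, h4, h4']
      rfl
  | inv x _ hx =>
    obtain ⟨I, _, p, m, u, h1, h2, h3, h4⟩ := hx
    refine ⟨I, inferInstance, p, fun i => -m i, u, h1, ?_, ?_, ?_⟩
    · rw [Prod.fst_inv, h2, ← Finset.prod_inv_distrib]
      refine Finset.prod_congr rfl fun i _ => ?_
      rw [_root_.zpow_neg]
    · rw [Prod.snd_inv, toAdd_inv, Prod.fst_neg, h3, ← Finset.sum_neg_distrib]
      refine Finset.sum_congr rfl fun i _ => ?_
      push_cast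
      ring
    · rw [Prod.snd_inv, toAdd_inv, Prod.snd_neg, h4, ← Finset.sum_neg_distrib]
      refine Finset.sum_congr rfl fun i _ => ?_
      push_cast
      ring

/-- The group of all Deligne periods is generated by `2 dim M` elements modulo the products which
satisfy the criterion. -/
theorem finite_generation [Algebra E ℂ] (hS : ∀ k a b, ∀ s ∈ S k a b, M.IsMor s.1 s.2)
    (hS2 : ∀ k a b, ∀ s ∈ S k a b, s.1 * s.1 = s.1 → s.2 * s.2 = s.2)
    (Good : Rˣ → Prop)
    (hGood : ∀ (I : Type) [Fintype I] (p : I → Summand n E) (m : I → ℤ) (u : I → Rˣ),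
      (∀ i, M.IsPer S (p i) (u i : R)) → M.CritF S p m → Good (∏ i, u i ^ m i)) :
    ∃ (s : ℕ) (v : Fin s → Rˣ) (I : Fin s → Type) (_ : ∀ j, Fintype (I j))
      (p : ∀ j, I j → Summand n E) (e : ∀ j, I j → ℤ) (u : ∀ j, I j → Rˣ),
      s ≤ 2 * Fintype.card n ∧ (∀ i, v i ∈ M.perGroup S) ∧
      (∀ j i, M.IsPer S (p j i) (u j i : R)) ∧ (∀ j, v j = ∏ i, u j i ^ e j i) ∧
      (∀ u ∈ M.perGroup S, ∃ m : Fin s → ℤ, Good (u * ∏ i, v i ^ m i)) ∧
      ∀ m : Fin s → ℤ,
        (∀ Y : Matrix n n E, (∀ (k : ℕ) (a b : Fin k → ℕ), InK M.wt M.frob (S k a b) Y) →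
          ∑ j, (m j : E) * ∑ i, (e j i : E) * traceK M.frob (p j i).pr.1 (p j i).ε Y = 0) →
        (∀ Z : Matrix n n E, (∀ (k : ℕ) (a b : Fin k → ℕ), InP M.wt M.idx (S k a b) Z) →
          ∑ j, (m j : E) * ∑ i, (e j i : E) * traceP M.idx (p j i).pr.2 (p j i).r Z = 0) →
        m = 0 := by
  have hunc : Uncountable ℂ := by
    rw [← not_countable_iff]
    intro h
    exact not_countable_complex (Set.countable_univ_iff.mpr h)
  obtain ⟨Y₀, hY₀, hYg⟩ := exists_genK (Ω := ℂ) M.wt M.frob S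
  obtain ⟨Z₀, hZ₀, hZg⟩ := exists_genP (Ω := ℂ) M.wt M.idx S
  obtain ⟨P, Q, h, hQP, hh, hU⟩ := exists_tri Y₀
  obtain ⟨P', Q', h', hQP', hh', hU'⟩ := exists_tri Z₀
  set g : n ⊕ n → ℂ × ℂ := Sum.elim (fun i => ((Q * Y₀ * P) i i, 0))
    (fun i => (0, (Q' * Z₀ * P') i i)) with hg
  set LK : AddSubgroup ℂ := AddSubgroup.closure (Set.range fun i => (Q * Y₀ * P) i i) with hLK
  set LP : AddSubgroup ℂ := AddSubgroup.closure (Set.range fun i => (Q' * Z₀ * P') i i) with hLP
  have hKeig : ∀ (k : ℕ) (a b : Fin k → ℕ), EigIn (lie a b Y₀) LK := fun k a b μ v hv hμ =>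
    eig_lie hQP hh hU LK (fun i => AddSubgroup.subset_closure ⟨i, rfl⟩) hv hμ
  have hPeig : ∀ (k : ℕ) (a b : Fin k → ℕ), EigIn (lie a b Z₀) LP := fun k a b μ v hv hμ =>
    eig_lie hQP' hh' hU' LP (fun i => AddSubgroup.subset_closure ⟨i, rfl⟩) hv hμ
  -- the values of the characters
  have hval : ∀ z ∈ perPairs M S Y₀ Z₀,
      Multiplicative.toAdd z.2 ∈ Submodule.span ℤ (Set.range g) := by
    rintro ⟨u, l⟩ ⟨p, ⟨hp1, hp2, hp3, -⟩, h2⟩
    have hm := hS _ _ _ _ hp1
    have h3 : traceK M.frob p.pr.1 p.ε Y₀ ∈ LK :=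
      traceK_mem (hY₀ _ _ _) M.frob_sq hp1 hp2 hm.2.1 hp3 (hKeig _ _ _)
    have h4 : traceP M.idx p.pr.2 p.r Z₀ ∈ LP :=
      traceP_mem (hZ₀ _ _ _) hp1 (hS2 _ _ _ _ hp1 hp2) hm.2.2.2 p.r (hPeig _ _ _)
    have h5 : ∀ x ∈ LK, ((x, 0) : ℂ × ℂ) ∈ Submodule.span ℤ (Set.range g) := by
      intro x hx
      induction hx using AddSubgroup.closure_induction with
      | mem x hx =>
        obtain ⟨i, rfl⟩ := hx
        exact Submodule.subset_span ⟨Sum.inl i, rfl⟩
      | zero => exact zero_mem _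
      | add x y _ _ hx hy =>
        have := add_mem hx hy
        simpa using this
      | neg x _ hx =>
        have := neg_mem hx
        simpa using this
    have h6 : ∀ x ∈ LP, ((0, x) : ℂ × ℂ) ∈ Submodule.span ℤ (Set.range g) := by
      intro x hx
      induction hx using AddSubgroup.closure_induction with
      | mem x hx =>
        obtain ⟨i, rfl⟩ := hx
        exact Submodule.subset_span ⟨Sum.inr i, rfl⟩
      | zero => exact zero_mem _
      | add x y _ _ hx hy =>
        have := add_mem hx hy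
        simpa using this
      | neg x _ hx =>
        have := neg_mem hx
        simpa using this
    have h7 := add_mem (h5 _ h3) (h6 _ h4)
    rw [Prod.mk_add_mk, add_zero, zero_add] at h7
    show Multiplicative.toAdd l ∈ _
    have h8 : l = Multiplicative.ofAdd
      (traceK M.frob p.pr.1 p.ε Y₀, traceP M.idx p.pr.2 p.r Z₀) := h2
    rw [h8, toAdd_ofAdd]
    exact h7
  set H := Subgroup.closure (perPairs M S Y₀ Z₀) with hH
  -- the group of values
  let N : Submodule ℤ (ℂ × ℂ) := AddSubgroup.toIntSubmodule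
    (Subgroup.toAddSubgroup' (H.map (MonoidHom.snd Rˣ (Multiplicative (ℂ × ℂ)))))
  have hNmem : ∀ x : ℂ × ℂ, x ∈ N ↔ ∃ z ∈ H, Multiplicative.toAdd z.2 = x := by
    intro x
    constructor
    · rintro ⟨z, hz, hzx⟩
      exact ⟨z, hz, hzx⟩
    · rintro ⟨z, hz, hzx⟩
      exact ⟨z, hz, hzx⟩
  have hspan : ∀ z ∈ H, Multiplicative.toAdd z.2 ∈ Submodule.span ℤ (Set.range g) := by
    intro z hz
    induction hz using Subgroup.closure_induction with
    | mem z hz => exact hval z hz
    | one => exact zero_mem _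
    | mul x y _ _ hx hy => exact add_mem hx hy
    | inv x _ hx => exact neg_mem hx
  have hNle : N ≤ Submodule.span ℤ (Set.range g) := by
    intro x hx
    obtain ⟨z, hz, rfl⟩ := (hNmem x).mp hx
    exact hspan z hz
  obtain ⟨s, hs, w, hw, hfree, hgen⟩ := exists_gens g N hNle
  choose z hzH hzw using fun i => (hNmem _).mp (hw i)
  have hfst : ∀ z ∈ H, z.1 ∈ M.perGroup S := by
    intro z hz
    induction hz using Subgroup.closure_induction with
    | mem z hz =>
      obtain ⟨p, hp, -⟩ := hz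
      exact Subgroup.subset_closure ⟨p, hp⟩
    | one => exact one_mem _
    | mul x y _ _ hx hy => exact mul_mem hx hy
    | inv x _ hx => exact inv_mem hx
  have hlift : ∀ u ∈ M.perGroup S, ∃ l, (u, l) ∈ H := by
    intro u hu
    induction hu using Subgroup.closure_induction with
    | mem u hu =>
      obtain ⟨p, hp⟩ := hu
      exact ⟨_, Subgroup.subset_closure ⟨p, hp, rfl⟩⟩
    | one => exact ⟨1, one_mem _⟩
    | mul x y _ _ hx hy =>
      obtain ⟨l, hl⟩ := hx
      obtain ⟨l', hl'⟩ := hy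
      exact ⟨l * l', mul_mem hl hl'⟩
    | inv x _ hx =>
      obtain ⟨l, hl⟩ := hx
      exact ⟨l⁻¹, inv_mem hl⟩
  choose I inst p e u hu hv hvK hvP using fun j => mem_closure_pairs M S (hzH j)
  refine ⟨s, fun i => (z i).1, I, inst, p, e, u, ?_, fun i => hfst _ (hzH i), hu, hv, ?_, ?_⟩
  · rw [Fintype.card_sum] at hs
    omega
  · intro u hu
    obtain ⟨l, hl⟩ := hlift u hu
    obtain ⟨m, hm⟩ := hgen (Multiplicative.toAdd l) ((hNmem _).mpr ⟨_, hl, rfl⟩)
    refine ⟨fun i => -m i, ?_⟩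
    have h1 : (u, l) * ∏ i, (z i) ^ (-m i) ∈ H :=
      mul_mem hl (prod_mem fun i _ => zpow_mem (hzH i) _)
    have h2 : Multiplicative.toAdd (((u, l) * ∏ i, (z i) ^ (-m i)).2) = 0 := by
      rw [Prod.snd_mul, toAdd_mul, Prod.snd_prod, toAdd_prod, hm]
      have h3 : ∀ i, Multiplicative.toAdd ((z i ^ (-m i)).2) = -(m i • w i) := by
        intro i
        rw [Prod.pow_snd, toAdd_zpow, hzw, neg_smul]
      rw [Finset.sum_congr rfl fun i _ => h3 i, Finset.sum_neg_distrib, add_neg_cancel]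
    obtain ⟨I, _, p, m', u', hu', h3, h4, h5⟩ := mem_closure_pairs M S h1
    have h6 : ((u, l) * ∏ i, (z i) ^ (-m i)).1 = u * ∏ i, (z i).1 ^ (-m i) := by
      rw [Prod.fst_mul, Prod.fst_prod]
      rfl
    rw [← h6, h3]
    refine hGood I p m' u' hu' ⟨?_, ?_⟩
    · intro Y hY
      obtain ⟨c, hc⟩ := hYg Y hY
      have h7 : ∑ i, (m' i : ℂ) * traceK M.frob (p i).pr.1 (p i).ε Y₀ = 0 := by
        rw [← h4, h2]
        rfl
      rw [← hc]
      have h8 := congrArg c h7
      rw [map_sum, map_zero] at h8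
      rw [← h8]
      refine Finset.sum_congr rfl fun i _ => ?_
      rw [traceK_functional, ← zsmul_eq_mul, ← zsmul_eq_mul, map_zsmul]
    · intro Z hZ
      obtain ⟨c, hc⟩ := hZg Z hZ
      have h7 : ∑ i, (m' i : ℂ) * traceP M.idx (p i).pr.2 (p i).r Z₀ = 0 := by
        rw [← h5, h2]
        rfl
      rw [← hc]
      have h8 := congrArg c h7
      rw [map_sum, map_zero] at h8
      rw [← h8]
      refine Finset.sum_congr rfl fun i _ => ?_
      rw [traceP_functional, ← zsmul_eq_mul, ← zsmul_eq_mul, map_zsmul]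
  · intro m hmK hmP
    apply hfree
    refine Prod.ext ?_ ?_
    · rw [Prod.fst_sum, Prod.fst_zero, ← Module.forall_dual_apply_eq_zero_iff E]
      intro c
      have h8 := hmK (Y₀.map c) fun k a b => (hY₀ k a b).functional c
      rw [← h8, map_sum]
      refine Finset.sum_congr rfl fun j _ => ?_
      rw [Prod.smul_fst, map_zsmul, ← hzw, hvK, map_sum, zsmul_eq_mul]
      congr 1
      refine Finset.sum_congr rfl fun i _ => ?_
      rw [traceK_functional, ← zsmul_eq_mul, ← zsmul_eq_mul, map_zsmul]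
    · rw [Prod.snd_sum, Prod.snd_zero, ← Module.forall_dual_apply_eq_zero_iff E]
      intro c
      have h8 := hmP (Z₀.map c) fun k a b => (hZ₀ k a b).functional c
      rw [← h8, map_sum]
      refine Finset.sum_congr rfl fun j _ => ?_
      rw [Prod.smul_snd, map_zsmul, ← hzw, hvP, map_sum, zsmul_eq_mul]
      congr 1
      refine Finset.sum_congr rfl fun i _ => ?_
      rw [traceP_functional, ← zsmul_eq_mul, ← zsmul_eq_mul, map_zsmul]

end

end Pool.Agent.MP100fe7G
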