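import Mathlib

/-!
Derivations of fields of characteristic zero.
-/

namespace Pool.Agent.MP100fe7G

open scoped IntermediateField.algebraAdjoinAdjoin in
private theorem etale_adjoin {K L ι : Type} [Field K] [CharZero K] [Field L] [Algebra K L]
    (v : ι → L) (hv : IsTranscendenceBasis K v) :
    Algebra.FormallyEtale (Algebra.adjoin K (Set.range v)) L := by
  have h1 : Algebra.FormallyEtale (Algebra.adjoin K (Set.range v))
      (IntermediateField.adjoin K (Set.range v)) := .of_isLocalization (nonZeroDivisors _)
  have := hv.isAlgebraic_field
  have h2 : Algebra.FormallyEtale (IntermediateField.adjoin K (Set.range v)) L :=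
    Algebra.FormallyEtale.of_isSeparable _ L
  exact .comp _ (IntermediateField.adjoin K (Set.range v)) _

private theorem etale_mv {K L ι : Type} [Field K] [CharZero K] [Field L] [Algebra K L]
    (v : ι → L) (hv : IsTranscendenceBasis K v) :
    letI := (MvPolynomial.aeval (R := K) v).toRingHom.toAlgebra
    Algebra.FormallyEtale (MvPolynomial ι K) L := by
  let _ := (MvPolynomial.aeval (R := K) v).toRingHom.toAlgebra
  let _ := (hv.1.aevalEquiv).toRingHom.toAlgebra
  have h3 : IsScalarTower (MvPolynomial ι K) (Algebra.adjoin K (Set.range v)) L := by
    refine IsScalarTower.of_algebraMap_eq fun x => ?_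
    exact (hv.1.algebraMap_aevalEquiv x).symm
  have h1 := etale_adjoin v hv
  have h2 : Algebra.FormallyEtale (MvPolynomial ι K) (Algebra.adjoin K (Set.range v)) := by
    have e : MvPolynomial ι K ≃ₐ[MvPolynomial ι K] (Algebra.adjoin K (Set.range v)) :=
      AlgEquiv.ofBijective (Algebra.ofId _ _) (hv.1.aevalEquiv).bijective
    exact .of_equiv e
  exact .comp _ (Algebra.adjoin K (Set.range v)) _

/-- A derivation of a field extension `L / K` of characteristic zero is determined by its values on
a transcendence basis, and these values are arbitrary. Proof: `L` is formally étale over the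
polynomial ring `MvPolynomial ι K` (localisation, then algebraic separable), so
`L ⊗ Ω[MvPolynomial ι K / K] ≃ Ω[L / K]` (`KaehlerDifferential.isBaseChange_of_formallyEtale`, or
`tensorKaehlerEquivOfFormallyEtale`), and derivations `L → P` are linear maps on `Ω[L / K]`; for
`MvPolynomial ι K` use `MvPolynomial.mkDerivation`. (Alternatively lift algebra homomorphisms to
`DualNumber P` by `Algebra.FormallyEtale`.) See `Mathlib.RingTheory.Smooth.Field`. -/
theorem derivation_bijective {K L P ι : Type} [Field K] [CharZero K] [Field L] [Algebra K L]
    [Field P] [Algebra K P] [Algebra L P] [IsScalarTower K L P] (v : ι → L)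
    (hv : IsTranscendenceBasis K v) :
    Function.Bijective fun (D : Derivation K L P) (i : ι) => D (v i) := by
  let _ := (MvPolynomial.aeval (R := K) v).toRingHom.toAlgebra
  have h1 : Algebra.FormallyEtale (MvPolynomial ι K) L := etale_mv v hv
  have h2 : IsScalarTower K (MvPolynomial ι K) L := by
    refine IsScalarTower.of_algebraMap_eq fun x => ?_
    simp [RingHom.algebraMap_toAlgebra]
  let b := (KaehlerDifferential.mvPolynomialBasis K ι).baseChange L
  let b' : Module.Basis ι L (Ω[L⁄K]) :=
    b.map (KaehlerDifferential.tensorKaehlerEquivOfFormallyEtale K (MvPolynomial ι K) L)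
  have hb : ∀ i, b' i = KaehlerDifferential.D K L (v i) := by
    intro i
    simp [b', b, RingHom.algebraMap_toAlgebra]
  have key : (fun (D : Derivation K L P) (i : ι) => D (v i)) =
      (b'.constr L).symm ∘ (Derivation.liftKaehlerDifferential) := by
    funext D i
    simp [Module.Basis.constr, hb]
  rw [key]
  refine (b'.constr L).symm.bijective.comp ?_
  exact (KaehlerDifferential.linearMapEquivDerivation K L (M := P)).symm.bijective

/-- An element killed by all derivations is algebraic (extend it to a transcendence basis
otherwise, and use `derivation_bijective` with `P = L`). -/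
theorem isAlgebraic_of_derivation {K L : Type} [Field K] [CharZero K] [Field L] [Algebra K L]
    (c : L) (h : ∀ D : Derivation K L L, D c = 0) : IsAlgebraic K c := by
  by_contra hc
  have h1 : AlgebraicIndepOn K id ({c} : Set L) :=
    algebraicIndependent_unique_type_iff.mpr hc
  obtain ⟨t, ht, hs⟩ := exists_isTranscendenceBasis_superset h1
  obtain ⟨D, hD⟩ := (derivation_bijective (P := L) ((↑) : t → L) hs).2 fun _ => 1
  have h2 := congrFun hD ⟨c, ht rfl⟩
  simp only [h D] at h2
  exact zero_ne_one h2

end Pool.Agent.MP100fe7G
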