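import Pool.Agent.Lib.MP_100fe7_nt.GSpec
import Pool.Agent.Lib.MP_100fe7_nt.GField

/-!
If the transcendence degree of the field of periods is the dimension of the group, every element
of the Lie algebra is a logarithmic derivative of the point `x`.
-/

namespace Pool.Agent.MP100fe7G

open Matrix

/-- An element algebraic over `ℚ` is killed by the derivations (`Derivation.map_aeval` and the
minimal polynomial). -/
theorem der_algebraic {L P : Type} [Field L] [CharZero L] [Field P] [CharZero P] [Algebra L P]
    (D : Derivation ℚ L P) (c : L) (hc : IsAlgebraic ℚ c) : D c = 0 := by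
  have h1 := D.map_aeval (minpoly ℚ c) c
  rw [minpoly.aeval, map_zero] at h1
  have h2 : (Polynomial.aeval c) (Polynomial.derivative (minpoly ℚ c)) ≠ 0 :=
    (minpoly.irreducible hc.isIntegral).separable.aeval_derivative_ne_zero (minpoly.aeval ℚ c)
  have h3 : algebraMap L P ((Polynomial.aeval c) (Polynomial.derivative (minpoly ℚ c))) * D c
      = 0 := by
    rw [← Algebra.smul_def]
    exact h1.symm
  rcases mul_eq_zero.1 h3 with h4 | h4
  · exact absurd ((map_eq_zero _).1 h4) h2
  · exact h4

/-- the elements killed by a derivation form a field -/
private def kerField {L : Type} [Field L] [CharZero L] (D : Derivation ℚ L L) :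
    IntermediateField ℚ L where
  carrier := {z | D z = 0}
  mul_mem' := fun {a b} ha hb => by
    simp only [Set.mem_setOf_eq] at *
    rw [Derivation.leibniz, ha, hb, smul_zero, smul_zero, add_zero]
  add_mem' := fun {a b} ha hb => by
    simp only [Set.mem_setOf_eq] at *
    rw [map_add, ha, hb, add_zero]
  algebraMap_mem' := fun r => D.map_algebraMap r
  inv_mem' := fun a ha => by
    simp only [Set.mem_setOf_eq] at *
    rw [Derivation.leibniz_inv, ha, smul_zero]

/-- a `ℚ`-derivation as a derivation over a number field -/
private noncomputable def toE {E L : Type} [Field E] [NumberField E] [Field L] [CharZero L]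
    [Algebra E L] (D : Derivation ℚ L L) : Derivation E L L :=
  Derivation.mk'
    { toFun := D
      map_add' := fun a b => map_add D a b
      map_smul' := fun e z => by
        have h1 : D (algebraMap E L e) = 0 := by
          refine der_algebraic D _ ?_
          exact (Algebra.IsAlgebraic.isAlgebraic (R := ℚ) e).algebraMap
        rw [Algebra.smul_def, Derivation.leibniz, h1, smul_zero, add_zero, RingHom.id_apply,
          smul_eq_mul, ← Algebra.smul_def] }
    (fun a b => by
      show D (a * b) = a • D b + b • D a
      exact D.leibniz a b)

private theorem toE_apply {E L : Type} [Field E] [NumberField E] [Field L] [CharZero L]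
    [Algebra E L] (D : Derivation ℚ L L) (z : L) : toE (E := E) D z = D z := rfl

/-- Proof: `Derivation ℚ L L → (ι → L)` is bijective for a transcendence basis `ι`
(`derivation_bijective`), so `Derivation ℚ L L` has dimension `trdeg`; `D ↦ y * x.map D` is
`L`-linear, with values in the `L`-space of the `X` with `InLie wt (Prod.fst '' S) X` (`inLie_der`;
`D` is an `E`-derivation because the elements of `E` are algebraic over `ℚ`), injective by `hgen`
(the elements killed by `D` form a field); the space of the `X` with `InLie` over `L` is spanned by
the images of a basis of `lieB wt S` (`exists_coords` of `GSpec` with `InLie.functional`), so its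
dimension is at most `finrank E (lieB wt S)`; hence the map is onto. -/
theorem surj_of_trdeg {E : Type} [Field E] [NumberField E] {n J : Type} [Fintype n]
    [DecidableEq n] [Fintype J] [DecidableEq J] {a b : J → ℕ} {wt : n → ℤ}
    {S : Set (TMat n a b E × TMat n a b E)} {L : Type} [Field L] [CharZero L] [Algebra E L]
    {x y : Matrix n n L} (hx : IsPt wt S x y)
    (hgen : IntermediateField.adjoin ℚ (Set.range (algebraMap E L) ∪ {z | ∃ i j, z = x i j}) = ⊤)
    (htr : Algebra.trdeg ℚ L = Module.finrank E (lieB wt S)) (X : Matrix n n L)
    (hX : InLie wt (Prod.fst '' S) X) : ∃ D : Derivation E L L, y * x.map D = X := by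
  obtain ⟨ι, v, hv⟩ := exists_isTranscendenceBasis' ℚ L
  have hcard : Cardinal.mk ι = (Module.finrank E (lieB wt S) : Cardinal) := by
    rw [← htr]; exact hv.cardinalMk_eq_trdeg
  have hfin : Finite ι := by
    rw [← Cardinal.mk_lt_aleph0_iff, hcard]
    exact Cardinal.natCast_lt_aleph0
  let _ := Fintype.ofFinite ι
  have hcard' : Fintype.card ι = Module.finrank E (lieB wt S) := by
    rw [Cardinal.mk_fintype] at hcard
    exact_mod_cast hcard
  -- the space of derivations
  let Θ : Derivation ℚ L L →ₗ[L] (ι → L) :=
    { toFun := fun D i => D (v i)
      map_add' := fun D D' => by funext i; simp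
      map_smul' := fun c D => by funext i; simp }
  have hΘ : Function.Bijective Θ := derivation_bijective (P := L) v hv
  let e : Derivation ℚ L L ≃ₗ[L] (ι → L) := LinearEquiv.ofBijective Θ hΘ
  have hfd : Module.Finite L (Derivation ℚ L L) := Module.Finite.equiv e.symm
  have hdim : Module.finrank L (Derivation ℚ L L) = Module.finrank E (lieB wt S) := by
    rw [e.finrank_eq, Module.finrank_fintype_fun_eq_card, hcard']
  -- the logarithmic derivative
  let Φ : Derivation ℚ L L →ₗ[L] Matrix n n L :=
    { toFun := fun D => y * x.map D
      map_add' := fun D D' => by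
        rw [← Matrix.mul_add]
        congr 1
      map_smul' := fun c D => by
        rw [RingHom.id_apply, ← Matrix.mul_smul]
        congr 1 }
  have hxy : x * y = 1 := hx.1
  have hinj : Function.Injective Φ := by
    rw [injective_iff_map_eq_zero]
    intro D hD
    have h1 : y * x.map D = 0 := hD
    have h2 : x.map D = 0 := by
      calc x.map D = x * y * x.map D := by rw [hxy, Matrix.one_mul]
        _ = x * (y * x.map D) := by rw [Matrix.mul_assoc]
        _ = 0 := by rw [h1, Matrix.mul_zero]
    have h3 : (⊤ : IntermediateField ℚ L) ≤ kerField D := by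
      rw [← hgen, IntermediateField.adjoin_le_iff]
      rintro z (⟨c, rfl⟩ | ⟨i, j, rfl⟩)
      · show D _ = 0
        exact der_algebraic D _ (Algebra.IsAlgebraic.isAlgebraic (R := ℚ) c).algebraMap
      · show D _ = 0
        exact congrFun (congrFun h2 i) j
    ext z
    exact h3 (IntermediateField.mem_top (x := z))
  -- the Lie algebra over `L`
  have hfdE : Module.Finite E (lieB wt S) := inferInstance
  let bW := Module.finBasis E (lieB wt S)
  obtain ⟨c, hc⟩ := exists_coords (lieB wt S) bW
  set U : Submodule L (Matrix n n L) := Submodule.span L
    (Set.range fun i => ((bW i : Matrix n n E).map (algebraMap E L))) with hU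
  have hUdim : Module.finrank L U ≤ Module.finrank E (lieB wt S) := by
    have := finrank_range_le_card (R := L)
      (fun i => ((bW i : Matrix n n E).map (algebraMap E L)))
    rw [Fintype.card_fin] at this
    exact this
  have hmem : ∀ Z : Matrix n n L, InLie wt (Prod.fst '' S) Z → Z ∈ U := by
    intro Z hZ
    rw [hc L Z (fun φ => hZ.functional φ)]
    exact Submodule.sum_mem _ fun i _ => Submodule.smul_mem _ _ (Submodule.subset_span ⟨i, rfl⟩)
  have hrange : LinearMap.range Φ ≤ U := by
    rintro _ ⟨D, rfl⟩
    refine hmem _ ?_
    have h1 := inLie_der (P := L) hx (toE (E := E) D)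
    have h2 : y.map (algebraMap L L) * x.map (toE (E := E) D) = y * x.map D := by
      have e1 : y.map (algebraMap L L) = y := by ext i j; simp
      have e2 : x.map (toE (E := E) D) = x.map D := by ext i j; rfl
      rw [e1, e2]
    rw [h2] at h1
    exact h1
  have heq : LinearMap.range Φ = U := by
    refine Submodule.eq_of_le_of_finrank_le hrange ?_
    rw [LinearMap.finrank_range_of_inj hinj, hdim]
    exact hUdim
  have hXU : X ∈ LinearMap.range Φ := heq ▸ hmem X hX
  obtain ⟨D, hD⟩ := hXU
  refine ⟨toE D, ?_⟩
  rw [← hD]
  rfl

end Pool.Agent.MP100fe7G
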