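import Pool.Agent.Lib.MP_100fe7_nt.GDec

/-!
Linear algebra of one period: the action of `𝔨` and `𝔭` in the bases of `N^ε` and of
`N_DR / F^r N_DR`.
-/

namespace Pool.Agent.MP100fe7G

open Matrix

section fields

variable {E : Type} [Field E] {n J : Type} [Fintype n] [DecidableEq n] [Fintype J] [DecidableEq J]
  {a b : J → ℕ} {d : ℕ}

/-- A left inverse of the matrix of a basis of `N^ε`. -/
theorem per_left [CharZero E] {e T : TMat n a b E} {ε : ℤ} (hε : ε = 0 ∨ ε = 1 ∨ ε = -1)
    (he : e * e = e) (hT : T * T = 1) (hTe : T * e = e * T) (A : Matrix (TIdx n a b) (Fin d) E)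
    (hinj : Function.Injective A.mulVec)
    (hA : ∀ v, v ∈ Set.range A.mulVec ↔
      e.mulVec v = v ∧ (ε = 0 ∨ T.mulVec v = ((ε : ℤ) : E) • v)) :
    ∃ C : Matrix (Fin d) (TIdx n a b) E, C * A = 1 ∧
      (2 : E) • (A * C) = e * (((2 - ε ^ 2 : ℤ) : E) • (1 : TMat n a b E) + ((ε : ℤ) : E) • T) := by
  set Q : TMat n a b E := e * (((2 - ε ^ 2 : ℤ) : E) • (1 : TMat n a b E) + ((ε : ℤ) : E) • T)
    with hQ
  have h2 : (2 : E) ≠ 0 := two_ne_zero
  -- every vector `Q v` is in the range of `A`
  have hQr : ∀ v, ∃ w, A.mulVec w = ((2 : E)⁻¹ • Q).mulVec v := by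
    intro v
    have : ((2 : E)⁻¹ • Q).mulVec v ∈ Set.range A.mulVec := by
      rw [hA]
      constructor
      · rw [Matrix.mulVec_mulVec, Matrix.mul_smul, hQ, ← Matrix.mul_assoc, he]
      · rcases hε with h | h | h
        · exact Or.inl h
        · right
          rw [Matrix.mulVec_mulVec, Matrix.mul_smul, ← Matrix.smul_mulVec]
          congr 1
          rw [smul_comm]
          congr 1
          rw [hQ, h, ← Matrix.mul_assoc, hTe, Matrix.mul_assoc, Matrix.mul_add]
          simp [hT, add_comm]
        · right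
          rw [Matrix.mulVec_mulVec, Matrix.mul_smul, ← Matrix.smul_mulVec]
          congr 1
          rw [smul_comm]
          congr 1
          rw [hQ, h, ← Matrix.mul_assoc, hTe, Matrix.mul_assoc, Matrix.mul_add]
          simp [hT, Matrix.mul_add]
          abel
    exact this
  choose w hw using hQr
  have hQA : Q * A = (2 : E) • A := by
    ext s j
    have h1 : A.mulVec (Pi.single j 1) ∈ Set.range A.mulVec := ⟨_, rfl⟩
    rw [hA] at h1
    have h3 : Q.mulVec (A.mulVec (Pi.single j 1)) = (2 : E) • A.mulVec (Pi.single j 1) := by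
      rw [hQ, ← Matrix.mulVec_mulVec, Matrix.add_mulVec, Matrix.smul_mulVec, Matrix.smul_mulVec,
        Matrix.one_mulVec]
      rcases hε with h | h | h
      · rw [h]
        simp only [Int.cast_zero, zero_smul, add_zero]
        rw [Matrix.mulVec_smul, h1.1]
        norm_num
      · rcases h1.2 with h4 | h4
        · omega
        · rw [h4, h, smul_smul, ← add_smul, Matrix.mulVec_smul, h1.1]
          norm_num
      · rcases h1.2 with h4 | h4
        · omega
        · rw [h4, h, smul_smul, ← add_smul, Matrix.mulVec_smul, h1.1]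
          norm_num
    have h5 := congrFun h3 s
    rw [Matrix.mulVec_mulVec, Matrix.mulVec_single_one, Matrix.mulVec_single_one] at h5
    simpa [Matrix.col_apply] using h5
  have hAC : A * (Matrix.of fun i s => w (Pi.single s 1) i) = (2 : E)⁻¹ • Q := by
    ext s t
    have h1 := congrFun (hw (Pi.single t 1)) s
    rw [Matrix.mulVec_single_one] at h1
    simpa [Matrix.mul_apply, Matrix.mulVec, dotProduct, Matrix.col_apply] using h1
  refine ⟨Matrix.of fun i s => w (Pi.single s 1) i, ?_, ?_⟩
  · have h1 : A * ((Matrix.of fun i s => w (Pi.single s 1) i) * A) =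
        A * (1 : Matrix (Fin d) (Fin d) E) := by
      rw [← Matrix.mul_assoc, hAC, Matrix.smul_mul, hQA, smul_smul, inv_mul_cancel₀ h2, one_smul,
        Matrix.mul_one]
    ext i j
    have h3 := hinj (a₁ := (((Matrix.of fun i s => w (Pi.single s 1) i) * A)).mulVec
      (Pi.single j 1)) (a₂ := (1 : Matrix (Fin d) (Fin d) E).mulVec (Pi.single j 1))
      (by rw [Matrix.mulVec_mulVec, Matrix.mulVec_mulVec, h1])
    rw [Matrix.mulVec_single_one, Matrix.mulVec_single_one] at h3
    exact congrFun h3 i
  · rw [hAC, smul_smul, mul_inv_cancel₀ h2, one_smul]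

/-- A right inverse of the matrix of the projection onto `N_DR / F^r N_DR`. -/
theorem per_right {f : TMat n a b E} {h : TIdx n a b → ℤ} {r : ℤ} (hf : f * f = f)
    (hfil : ∀ i j, h i < h j → f i j = 0) (B : Matrix (Fin d) (TIdx n a b) E)
    (hsurj : Function.Surjective B.mulVec)
    (hB : ∀ v, B.mulVec v = 0 ↔ ∀ s, h s < r → f.mulVec v s = 0) :
    ∃ C : Matrix (TIdx n a b) (Fin d) E, B * C = 1 ∧
      C * B = diagonal (fun s => if h s < r then (1 : E) else 0) * f ∧ B * f = B ∧
      B * diagonal (fun s => if h s < r then (1 : E) else 0) = B := by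
  set D : TMat n a b E := diagonal (fun s => if h s < r then (1 : E) else 0) with hD
  have hker : ∀ X : TMat n a b E, (∀ s t, h s < r → (f * X) s t = 0) → B * X = 0 := by
    intro X hX
    ext i t
    have h1 : B.mulVec (X.mulVec (Pi.single t 1)) = 0 := by
      rw [hB]
      intro s hs
      rw [Matrix.mulVec_mulVec, Matrix.mulVec_single_one]
      exact hX s t hs
    rw [Matrix.mulVec_mulVec, Matrix.mulVec_single_one] at h1
    exact congrFun h1 i
  have hBf : B * f = B := by
    have h1 := hker (1 - f) (by
      intro s t _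
      rw [Matrix.mul_sub, hf, Matrix.mul_one, sub_self]
      rfl)
    rw [Matrix.mul_sub, Matrix.mul_one, sub_eq_zero] at h1
    exact h1.symm
  have hBD : B * D = B := by
    have h1 := hker (1 - D) (by
      intro s t hs
      rw [Matrix.mul_sub, Matrix.mul_one, Matrix.sub_apply, hD, mul_diagonal]
      by_cases ht : h t < r
      · simp [ht]
      · rw [hfil s t (by omega)]
        simp)
    rw [Matrix.mul_sub, Matrix.mul_one, sub_eq_zero] at h1
    exact h1.symm
  choose w hw using hsurj
  set B' : Matrix (TIdx n a b) (Fin d) E := Matrix.of fun s i => w (Pi.single i 1) s with hB'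
  have hBB' : B * B' = 1 := by
    ext i j
    have h1 := congrFun (hw (Pi.single j 1)) i
    rw [Pi.single_apply] at h1
    rw [Matrix.one_apply]
    exact h1
  have hDf : D * f = D * f * B' * B := by
    have h1 : ∀ s t, h s < r → (f * ((1 : TMat n a b E) - B' * B)) s t = 0 := by
      intro s t hs
      have h2 : B.mulVec (((1 : TMat n a b E) - B' * B).mulVec (Pi.single t 1)) = 0 := by
        rw [Matrix.mulVec_mulVec, Matrix.mul_sub, ← Matrix.mul_assoc, hBB', Matrix.mul_one,
          Matrix.one_mul, sub_self, Matrix.zero_mulVec]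
      rw [hB] at h2
      have h3 := h2 s hs
      rw [Matrix.mulVec_mulVec, Matrix.mulVec_single_one] at h3
      exact h3
    have h4 : D * (f * ((1 : TMat n a b E) - B' * B)) = 0 := by
      ext s t
      rw [hD, diagonal_mul]
      split_ifs with hs
      · rw [h1 s t hs]
        simp
      · simp
    rw [Matrix.mul_sub, Matrix.mul_one, Matrix.mul_sub, sub_eq_zero] at h4
    exact h4.trans (by simp only [Matrix.mul_assoc])
  refine ⟨D * f * B', ?_, ?_, hBf, hBD⟩
  · rw [← Matrix.mul_assoc, ← Matrix.mul_assoc, hBD, hBf, hBB']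
  · exact hDf.symm

end fields

section rings

theorem two_cancel (E : Type*) {P : Type*} [Field E] [CharZero E] [CommRing P] [Algebra E P]
    {N : Type*} [AddCommGroup N] [Module P N] {x y : N}
    (h : (2 : P) • x = (2 : P) • y) : x = y := by
  have h1 := congrArg (fun z => algebraMap E P (2 : E)⁻¹ • z) h
  have h2 : algebraMap E P (2 : E)⁻¹ * (2 : P) = 1 := by
    rw [← map_ofNat (algebraMap E P) 2, ← map_mul, inv_mul_cancel₀ (two_ne_zero), map_one]
  simpa only [smul_smul, h2, one_smul] using h1

variable {E P : Type} [Field E] [CharZero E] [CommRing P] [Algebra E P] {n J : Type} [Fintype n]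
  [DecidableEq n] [Fintype J] [DecidableEq J] {a b : J → ℕ} {d : ℕ} {wt idx : n → ℤ}
  {S : Set (TMat n a b E × TMat n a b E)} {frob : Matrix n n E}

/-- The action of `𝔨` in a basis of `N^ε`. -/
theorem per_K {e : TMat n a b E} {ε : ℤ} {A : Matrix (TIdx n a b) (Fin d) E}
    {C : Matrix (Fin d) (TIdx n a b) E} (hCA : C * A = 1)
    (hAC : (2 : E) • (A * C) = e * (((2 - ε ^ 2 : ℤ) : E) • (1 : TMat n a b E) +
      ((ε : ℤ) : E) • tens a b frob frob)) (hF : frob * frob = 1) {Y : Matrix n n P}
    (hY : InK wt frob S Y) (he : e ∈ Prod.fst '' S) :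
    lie a b Y * A.map (algebraMap E P) = A.map (algebraMap E P) *
        (C.map (algebraMap E P) * lie a b Y * A.map (algebraMap E P)) ∧
      2 * (C.map (algebraMap E P) * lie a b Y * A.map (algebraMap E P)).trace =
        traceK frob e ε Y := by
  set φ := algebraMap E P with hφ
  set Q : TMat n a b E := e * (((2 - ε ^ 2 : ℤ) : E) • (1 : TMat n a b E) +
      ((ε : ℤ) : E) • tens a b frob frob) with hQ
  have hF' : frob.map φ * frob.map φ = 1 := by
    rw [← Matrix.map_mul, hF, Matrix.map_one _ (map_zero _) (map_one _)]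
  have hT : lie a b Y * (tens a b frob frob).map φ = (tens a b frob frob).map φ * lie a b Y := by
    rw [tens_map]
    have h1 := lie_conj (a := a) (b := b) hF' Y
    have h2 : frob.map φ * Y * frob.map φ = Y := by
      rw [← hY.2, Matrix.mul_assoc, hF', Matrix.mul_one]
    rw [h2] at h1
    have h3 : tens a b (frob.map φ) (frob.map φ) * tens a b (frob.map φ) (frob.map φ) = 1 :=
      tens_inv hF'
    calc lie a b Y * tens a b (frob.map φ) (frob.map φ)
        = tens a b (frob.map φ) (frob.map φ) * lie a b Y *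
            (tens a b (frob.map φ) (frob.map φ) * tens a b (frob.map φ) (frob.map φ)) := by
          rw [← Matrix.mul_assoc, h1]
      _ = _ := by rw [h3, Matrix.mul_one]
  have hYQ : lie a b Y * Q.map φ = Q.map φ * lie a b Y := by
    have h1 : Q.map φ = e.map φ * ((φ ((2 - ε ^ 2 : ℤ) : E)) • (1 : TMat n a b P) +
        φ ((ε : ℤ) : E) • (tens a b frob frob).map φ) := by
      rw [hQ, Matrix.map_mul]
      congr 1
      refine Matrix.ext fun s t => ?_
      by_cases hst : s = t
      · subst hst
        simp
      · simp [hst]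
    rw [h1, ← Matrix.mul_assoc, hY.1.2 e he, Matrix.mul_assoc, Matrix.mul_assoc, Matrix.mul_add,
      Matrix.add_mul, Matrix.mul_smul, Matrix.mul_smul, Matrix.smul_mul, Matrix.smul_mul, hT,
      Matrix.mul_one, Matrix.one_mul]
  have hACP : (2 : P) • (A.map φ * C.map φ) = Q.map φ := by
    rw [← hAC, ← Matrix.map_mul]
    refine Matrix.ext fun s t => ?_
    rw [Matrix.smul_apply, map_apply, map_apply, Matrix.smul_apply, smul_eq_mul, smul_eq_mul,
      map_mul, map_ofNat]
  have hCAP : C.map φ * A.map φ = 1 := by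
    rw [← Matrix.map_mul, hCA, Matrix.map_one _ (map_zero _) (map_one _)]
  constructor
  · apply two_cancel E (P := P)
    calc (2 : P) • (lie a b Y * A.map φ)
        = lie a b Y * ((2 : P) • (A.map φ * C.map φ)) * A.map φ := by
          rw [Matrix.mul_smul, Matrix.smul_mul, Matrix.mul_assoc, Matrix.mul_assoc, hCAP,
            Matrix.mul_one]
      _ = ((2 : P) • (A.map φ * C.map φ)) * lie a b Y * A.map φ := by rw [hACP, hYQ]
      _ = _ := by
          rw [Matrix.smul_mul, Matrix.smul_mul]
          simp only [Matrix.mul_assoc]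
  · unfold traceK
    rw [← hQ, ← hACP, Matrix.mul_smul, Matrix.trace_smul, smul_eq_mul, Matrix.mul_assoc,
      Matrix.trace_mul_comm, Matrix.mul_assoc]

omit [CharZero E] in
/-- The action of `𝔭` in a basis of `N_DR / F^r N_DR`. -/
theorem per_P {f : TMat n a b E} {r : ℤ} {B : Matrix (Fin d) (TIdx n a b) E}
    {C : Matrix (TIdx n a b) (Fin d) E}
    (hCB : C * B = diagonal (fun s => if wsum idx s < r then (1 : E) else 0) * f)
    (hBf : B * f = B) (hBD : B * diagonal (fun s => if wsum idx s < r then (1 : E) else 0) = B)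
    {Z : Matrix n n P} (hZ : InP wt idx S Z) (hf : f ∈ Prod.snd '' S) :
    B.map (algebraMap E P) * lie a b Z = B.map (algebraMap E P) * lie a b Z *
        C.map (algebraMap E P) * B.map (algebraMap E P) ∧
      (B.map (algebraMap E P) * lie a b Z * C.map (algebraMap E P)).trace =
        traceP idx f r Z := by
  set φ := algebraMap E P with hφ
  set D : TMat n a b E := diagonal (fun s => if wsum idx s < r then (1 : E) else 0) with hD
  have hCBP : C.map φ * B.map φ = D.map φ * f.map φ := by
    rw [← Matrix.map_mul, hCB, Matrix.map_mul]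
  have hBfP : B.map φ * f.map φ = B.map φ := by rw [← Matrix.map_mul, hBf]
  have hBDP : B.map φ * D.map φ = B.map φ := by
    calc B.map φ * D.map φ = (B * D).map φ := Matrix.map_mul.symm
      _ = B.map φ := congrArg (fun X => X.map φ) hBD
  have hDP : D.map φ = diagonal (fun s => if wsum idx s < r then (1 : P) else 0) := by
    rw [hD, diagonal_map (map_zero φ)]
    congr 1
    funext s
    split_ifs <;> simp
  have hcom : lie a b Z * f.map φ = f.map φ * lie a b Z := hZ.1.2 f hf
  have h1 : D.map φ * lie a b Z * (1 - D.map φ) = 0 := by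
    refine Matrix.ext fun s t => ?_
    rw [Matrix.mul_sub, Matrix.mul_one, hDP, Matrix.sub_apply, mul_diagonal, diagonal_mul]
    by_cases hs : wsum idx s < r
    · by_cases ht : wsum idx t < r
      · simp [hs, ht]
      · rw [lie_filt idx hZ.2 s t (by omega)]
        simp
    · simp [hs]
  have h2 : B.map φ * lie a b Z * D.map φ = B.map φ * lie a b Z := by
    have h3 : B.map φ * (D.map φ * lie a b Z * (1 - D.map φ)) = 0 := by rw [h1, Matrix.mul_zero]
    rw [Matrix.mul_sub, Matrix.mul_sub, Matrix.mul_one, ← Matrix.mul_assoc, ← Matrix.mul_assoc,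
      ← Matrix.mul_assoc, hBDP, sub_eq_zero] at h3
    exact h3.symm
  constructor
  · rw [Matrix.mul_assoc _ (C.map φ), hCBP, ← Matrix.mul_assoc, h2, Matrix.mul_assoc, hcom,
      ← Matrix.mul_assoc, hBfP]
  · rw [Matrix.mul_assoc, Matrix.trace_mul_comm, Matrix.mul_assoc, hCBP, Matrix.trace_mul_comm,
      Matrix.mul_assoc, ← hcom, hDP, traceP, Matrix.trace, Finset.sum_filter]
    refine Finset.sum_congr rfl fun s _ => ?_
    rw [Matrix.diag_apply, diagonal_mul]
    split_ifs
    · rw [one_mul]
    · rw [zero_mul]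

end rings

end Pool.Agent.MP100fe7G
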