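import Pool.Agent.Lib.MP_100fe7_nt.GUnit2
import Pool.Agent.Lib.MP_100fe7_nt.GPer

/-!
Existence of the Deligne periods `c^+(N)`, `c^-(N)` of the direct summands `N` without middle type,
and their unit property.
-/

namespace Pool.Agent.MP100fe7G

open Matrix

/-- a matrix whose columns are a basis of a subspace -/
private theorem exists_cols {E κ : Type} [Field E] [Fintype κ] [DecidableEq κ]
    (U : Submodule E (κ → E)) : ∃ (d : ℕ) (A : Matrix κ (Fin d) E),
      Function.Injective A.mulVec ∧ ∀ v, v ∈ Set.range A.mulVec ↔ v ∈ U := by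
  let b := Module.finBasis E U
  let g : (Fin (Module.finrank E U) → E) →ₗ[E] (κ → E) :=
    U.subtype ∘ₗ b.equivFun.symm.toLinearMap
  have hg : ∀ w, (LinearMap.toMatrix' g).mulVec w = g w := by
    intro w
    rw [← Matrix.toLin'_apply, Matrix.toLin'_toMatrix']
  refine ⟨_, LinearMap.toMatrix' g, ?_, ?_⟩
  · intro w w' h
    rw [hg, hg] at h
    exact b.equivFun.symm.injective (Subtype.coe_injective h)
  · intro v
    constructor
    · rintro ⟨w, rfl⟩
      rw [hg]
      exact (b.equivFun.symm w).2
    · intro hv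
      refine ⟨b.equivFun ⟨v, hv⟩, ?_⟩
      rw [hg]
      show ((b.equivFun.symm (b.equivFun ⟨v, hv⟩) : U) : κ → E) = v
      rw [LinearEquiv.symm_apply_apply]

/-- a matrix of the projection onto a quotient -/
private theorem exists_rows {E κ : Type} [Field E] [Fintype κ] [DecidableEq κ]
    (K : Submodule E (κ → E)) : ∃ (d : ℕ) (B : Matrix (Fin d) κ E),
      Function.Surjective B.mulVec ∧ ∀ v, B.mulVec v = 0 ↔ v ∈ K := by
  let b := Module.finBasis E ((κ → E) ⧸ K)
  let g : (κ → E) →ₗ[E] (Fin (Module.finrank E ((κ → E) ⧸ K)) → E) :=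
    b.equivFun.toLinearMap ∘ₗ K.mkQ
  have hg : ∀ w, (LinearMap.toMatrix' g).mulVec w = g w := by
    intro w
    rw [← Matrix.toLin'_apply, Matrix.toLin'_toMatrix']
  refine ⟨_, LinearMap.toMatrix' g, ?_, ?_⟩
  · intro w
    obtain ⟨v, hv⟩ := K.mkQ_surjective (b.equivFun.symm w)
    refine ⟨v, ?_⟩
    rw [hg]
    show b.equivFun (K.mkQ v) = w
    rw [hv, LinearEquiv.apply_symm_apply]
  · intro v
    rw [hg]
    show b.equivFun (K.mkQ v) = 0 ↔ v ∈ K
    rw [LinearEquiv.map_eq_zero_iff, Submodule.mkQ_apply, Submodule.Quotient.mk_eq_zero]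

section

variable {E R : Type} [Field E] [CharZero E] [CommRing R] [Nontrivial R] [Algebra E R]
  {n J : Type} [Fintype n] [DecidableEq n] [Fintype J] [DecidableEq J] {a b : J → ℕ}
  (M : Datum E R n) {e f : TMat n a b E}

private theorem period_bij (hm : M.IsMor e f) (he : e * e = e) {k : ℤ} (hk : M.IsPure e k)
    (hmid : M.NoMiddle f k) {ε : ℤ} (hε : ε = 1 ∨ ε = -1) {d d' : ℕ}
    (A : Matrix (TIdx n a b) (Fin d) E) (B : Matrix (Fin d') (TIdx n a b) E)
    (hinj : Function.Injective A.mulVec)
    (hA : ∀ v, v ∈ Set.range A.mulVec ↔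
      e.mulVec v = v ∧ (ε = 0 ∨ (tens a b M.frob M.frob).mulVec v = ((ε : ℤ) : E) • v))
    (hsurj : Function.Surjective B.mulVec)
    (hB : ∀ v, B.mulVec v = 0 ↔ ∀ s, wsum M.idx s < (k + 1) / 2 → f.mulVec v s = 0) :
    Function.Bijective (B.map (algebraMap E R) * tens a b M.comp M.comp⁻¹ *
      A.map (algebraMap E R)).mulVec := by
  have hff : f * f = f := idem_dR M hm he
  have hTT : tens a b M.frob M.frob * tens a b M.frob M.frob = 1 := tens_inv M.frob_sq
  obtain ⟨C, hCA, hAC⟩ := per_left (Or.inr hε) he hTT hm.2.1 A hinj hA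
  obtain ⟨C', hBC', hC'B, hBf, hBD⟩ := per_right (h := wsum M.idx) hff hm.2.2.2 B hsurj hB
  set φ := algebraMap E R with hφ
  set T := tens a b M.comp M.comp⁻¹ with hT
  set D : TMat n a b E := diagonal (fun s => if wsum M.idx s < (k + 1) / 2 then (1 : E) else 0)
    with hD
  have hTe : T * e.map φ = f.map φ * T := hm.1
  have hDP : D.map φ = diagonal (fun s => if wsum M.idx s < (k + 1) / 2 then (1 : R) else 0) := by
    rw [hD, diagonal_map (map_zero φ)]
    congr 1
    funext s
    split_ifs <;> simp
  -- the columns of `A`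
  have hcol : ∀ j, A.mulVec (Pi.single j 1) ∈ Set.range A.mulVec := fun j => ⟨_, rfl⟩
  have heA : e * A = A := by
    ext s j
    have h1 := ((hA _).1 (hcol j)).1
    rw [Matrix.mulVec_mulVec, Matrix.mulVec_single_one, Matrix.mulVec_single_one] at h1
    exact congrFun h1 s
  have hε0 : ε ≠ 0 := by rcases hε with rfl | rfl <;> decide
  have hFA : tens a b M.frob M.frob * A = ((ε : ℤ) : E) • A := by
    ext s j
    have h1 := (((hA _).1 (hcol j)).2).resolve_left hε0
    rw [Matrix.mulVec_mulVec, Matrix.mulVec_single_one, Matrix.mulVec_single_one] at h1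
    exact congrFun h1 s
  have heA' : e.map φ * A.map φ = A.map φ := by rw [← Matrix.map_mul, heA]
  have hFA' : (tens a b M.frob M.frob).map φ * A.map φ = ((ε : ℤ) : R) • A.map φ := by
    rw [← Matrix.map_mul, hFA]
    refine Matrix.ext fun s j => ?_
    rw [map_apply, Matrix.smul_apply, Matrix.smul_apply, map_apply, smul_eq_mul, smul_eq_mul,
      map_mul, map_intCast]
  have hCA' : C.map φ * A.map φ = 1 := by
    rw [← Matrix.map_mul, hCA, Matrix.map_one _ (map_zero _) (map_one _)]
  have hBC'' : B.map φ * C'.map φ = 1 := by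
    rw [← Matrix.map_mul, hBC', Matrix.map_one _ (map_zero _) (map_one _)]
  have hC'B' : C'.map φ * B.map φ = D.map φ * f.map φ := by
    rw [← Matrix.map_mul, hC'B, Matrix.map_mul]
  have hBf' : B.map φ * f.map φ = B.map φ := by rw [← Matrix.map_mul, hBf]
  have hBD' : B.map φ * D.map φ = B.map φ := by
    calc B.map φ * D.map φ = (B * D).map φ := Matrix.map_mul.symm
      _ = B.map φ := congrArg (fun X => X.map φ) hBD
  have hff' : f.map φ * f.map φ = f.map φ := by rw [← Matrix.map_mul, hff]
  constructor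
  · -- injectivity
    have hlin : ∀ w : Fin d → R, (B.map φ * T * A.map φ).mulVec w = 0 → w = 0 := by
      intro w hw
      set v := (A.map φ).mulVec w with hv
      have h1 : (e.map φ).mulVec v = v := by rw [hv, Matrix.mulVec_mulVec, heA']
      have h2 : ((tens a b M.frob M.frob).map φ).mulVec v = ((ε : ℤ) : R) • v := by
        rw [hv, Matrix.mulVec_mulVec, hFA', Matrix.smul_mulVec]
      have h3 : (B.map φ).mulVec (T.mulVec v) = 0 := by
        rw [hv, Matrix.mulVec_mulVec, Matrix.mulVec_mulVec]
        exact hw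
      have h4 : (D.map φ).mulVec (T.mulVec v) = 0 := by
        have h5 : (f.map φ).mulVec (T.mulVec v) = T.mulVec v := by
          rw [Matrix.mulVec_mulVec, ← hTe, ← Matrix.mulVec_mulVec, h1]
        calc (D.map φ).mulVec (T.mulVec v) = (D.map φ).mulVec ((f.map φ).mulVec (T.mulVec v)) := by
              rw [h5]
          _ = (C'.map φ).mulVec ((B.map φ).mulVec (T.mulVec v)) := by
              rw [Matrix.mulVec_mulVec _ (D.map φ), ← hC'B', ← Matrix.mulVec_mulVec]
          _ = 0 := by rw [h3, Matrix.mulVec_zero]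
      have h6 : v = 0 := by
        refine period_inj M hm he hk hmid hε v h1 h2 fun s hs => ?_
        have h7 := congrFun h4 s
        rw [hDP, Matrix.mulVec_diagonal, if_pos hs, one_mul] at h7
        exact h7
      have h8 : w = (C.map φ).mulVec v := by
        rw [hv, Matrix.mulVec_mulVec, hCA', Matrix.one_mulVec]
      rw [h8, h6, Matrix.mulVec_zero]
    intro w w' h
    have h1 := hlin (w - w') (by rw [Matrix.mulVec_sub, sub_eq_zero]; exact h)
    exact sub_eq_zero.1 h1
  · -- surjectivity
    intro c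
    set z := (f.map φ).mulVec ((C'.map φ).mulVec c) with hz
    have hfz : (f.map φ).mulVec z = z := by
      rw [hz, Matrix.mulVec_mulVec, hff']
    obtain ⟨v, hv1, hv2, hv3⟩ := period_surj M hm he hk hε z hfz
    have h1 : (B.map φ).mulVec (T.mulVec v) = c := by
      have h2 : (B.map φ).mulVec (T.mulVec v - z) = 0 := by
        rw [← hBD', ← Matrix.mulVec_mulVec]
        have h3 : (D.map φ).mulVec (T.mulVec v - z) = 0 := by
          funext s
          rw [hDP, Matrix.mulVec_diagonal]
          by_cases hs : wsum M.idx s < (k + 1) / 2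
          · rw [if_pos hs, one_mul]
            exact hv3 s hs
          · rw [if_neg hs, zero_mul]
            rfl
        rw [h3, Matrix.mulVec_zero]
      rw [Matrix.mulVec_sub, sub_eq_zero] at h2
      rw [h2, hz, Matrix.mulVec_mulVec, hBf', Matrix.mulVec_mulVec, hBC'', Matrix.one_mulVec]
    have h4 : (A.map φ).mulVec ((C.map φ).mulVec v) = v := by
      apply two_cancel E (P := R)
      have h5 : (2 : R) • (A.map φ * C.map φ) = e.map φ * ((((2 - ε ^ 2 : ℤ) : R)) •
          (1 : TMat n a b R) + ((ε : ℤ) : R) • (tens a b M.frob M.frob).map φ) := by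
        have h6 : (e * (((2 - ε ^ 2 : ℤ) : E) • (1 : TMat n a b E) +
            ((ε : ℤ) : E) • tens a b M.frob M.frob)).map φ = e.map φ * ((((2 - ε ^ 2 : ℤ) : R)) •
          (1 : TMat n a b R) + ((ε : ℤ) : R) • (tens a b M.frob M.frob).map φ) := by
          rw [Matrix.map_mul]
          congr 1
          refine Matrix.ext fun s t => ?_
          by_cases hst : s = t
          · subst hst
            simp [map_ofNat φ 2]
          · simp [hst]
        rw [← h6, ← hAC, ← Matrix.map_mul]
        refine Matrix.ext fun s t => ?_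
        rw [Matrix.smul_apply, map_apply, map_apply, Matrix.smul_apply, smul_eq_mul, smul_eq_mul,
          map_mul, map_ofNat]
      rw [Matrix.mulVec_mulVec, ← Matrix.smul_mulVec, h5, ← Matrix.mulVec_mulVec,
        Matrix.add_mulVec, Matrix.smul_mulVec, Matrix.smul_mulVec, Matrix.one_mulVec, hv2,
        smul_smul, ← add_smul, Matrix.mulVec_smul, hv1]
      congr 1
      rcases hε with rfl | rfl <;> norm_num
    refine ⟨(C.map φ).mulVec v, ?_⟩
    rw [← Matrix.mulVec_mulVec, h4, ← Matrix.mulVec_mulVec, h1]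

/-- The Deligne periods `c^±(N)` exist and are units. Existence: take a basis of
`{v | e v = v ∧ T(F) v = ε v}` and of the quotient of `TIdx n a b → E` by
`{v | f v ∈ F^r}` (columns of `A`, rows of `B`). A vector of the base change to `R` of the first
space is `A * w` (`per_left` gives `A * C` = projector; likewise `per_right` for `B`), so by
`period_inj` and `period_surj` the matrix `B * 𝓣 * A` over `R` is injective and surjective on
vectors; so it is square (`R` is commutative and nontrivial) and its determinant is a unit. -/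
theorem period_exists (hm : M.IsMor e f) (he : e * e = e) {k : ℤ} (hk : M.IsPure e k)
    (hmid : M.NoMiddle f k) {ε : ℤ} (hε : ε = 1 ∨ ε = -1) :
    (∃ c, M.IsPeriod e f ε ((k + 1) / 2) c) ∧
      ∀ c, M.IsPeriod e f ε ((k + 1) / 2) c → IsUnit c := by
  have hε0 : ε ≠ 0 := by rcases hε with rfl | rfl <;> decide
  constructor
  · obtain ⟨d, A, hinj, hA⟩ := exists_cols
      ({ carrier := {v | e.mulVec v = v ∧ (tens a b M.frob M.frob).mulVec v = ((ε : ℤ) : E) • v}
         zero_mem' := ⟨Matrix.mulVec_zero _, by rw [Matrix.mulVec_zero, smul_zero]⟩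
         add_mem' := fun {v w} hv hw => ⟨by rw [Matrix.mulVec_add, hv.1, hw.1],
           by rw [Matrix.mulVec_add, hv.2, hw.2, smul_add]⟩
         smul_mem' := fun c v hv => ⟨by rw [Matrix.mulVec_smul, hv.1],
           by rw [Matrix.mulVec_smul, hv.2, smul_comm]⟩ } : Submodule E (TIdx n a b → E))
    have hA' : ∀ v, v ∈ Set.range A.mulVec ↔
        e.mulVec v = v ∧ (ε = 0 ∨ (tens a b M.frob M.frob).mulVec v = ((ε : ℤ) : E) • v) := by
      intro v
      rw [hA v]
      constructor
      · intro h
        exact ⟨h.1, Or.inr h.2⟩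
      · intro h
        exact ⟨h.1, h.2.resolve_left hε0⟩
    obtain ⟨d', B, hsurj, hB⟩ := exists_rows
      ({ carrier := {v | ∀ s, wsum M.idx s < (k + 1) / 2 → f.mulVec v s = 0}
         zero_mem' := fun s _ => by rw [Matrix.mulVec_zero]; rfl
         add_mem' := fun {v w} hv hw s hs => by
           rw [Matrix.mulVec_add, Pi.add_apply, hv s hs, hw s hs, add_zero]
         smul_mem' := fun c v hv s hs => by
           rw [Matrix.mulVec_smul, Pi.smul_apply, hv s hs, smul_zero] } :
        Submodule E (TIdx n a b → E))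
    have hB' : ∀ v, B.mulVec v = 0 ↔ ∀ s, wsum M.idx s < (k + 1) / 2 → f.mulVec v s = 0 := hB
    have hbij := period_bij M hm he hk hmid hε A B hinj hA' hsurj hB'
    have hcard : d = d' := by
      have h1 := card_eq_of_linearEquiv R (LinearEquiv.ofBijective
        (B.map (algebraMap E R) * tens a b M.comp M.comp⁻¹ * A.map (algebraMap E R)).mulVecLin
        hbij)
      simpa using h1
    subst hcard
    exact ⟨_, d, A, B, hinj, hA', hsurj, hB', rfl⟩
  · rintro c ⟨d, A, B, hinj, hA, hsurj, hB, rfl⟩
    have hbij := period_bij M hm he hk hmid hε A B hinj hA hsurj hB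
    rw [← Matrix.isUnit_iff_isUnit_det]
    exact Matrix.mulVec_surjective_iff_isUnit.1 hbij.2

end

end Pool.Agent.MP100fe7G
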