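import Pool.Agent.Lib.MP_100fe7_nt.GMain
import Pool.Agent.Lib.MP_100fe7_nt.GUnit3
import Pool.Agent.Lib.MP_100fe7_nt.GConv

/-!
The theorem on multiplicative relations between Deligne periods: assembly.
-/

namespace Pool.Agent.MP100fe7G

open Matrix MvPolynomial TensorProduct

theorem exists_homs_fin (E : Type) [Field E] [NumberField E] :
    ∃ (I : Type) (_ : Fintype I) (φ : I → (E ⊗[ℚ] ℂ) →+* ℂ),
      ∀ x y, (∀ i, φ i x = φ i y) → x = y := by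
  have h0 : Algebra.FormallyUnramified ℚ E := Algebra.FormallyUnramified.of_isSeparable ℚ E
  have h1 : IsReduced (ℂ ⊗[ℚ] E) :=
    Algebra.FormallyUnramified.isReduced_of_field ℂ (ℂ ⊗[ℚ] E)
  set R := ℂ ⊗[ℚ] E with hR
  have hart : IsArtinianRing R := IsArtinianRing.of_finite ℂ R
  have hlift : ∀ m : MaximalSpectrum R, ∃ f : R →+* ℂ, ∀ x, f x = 0 ↔ x ∈ m.asIdeal := by
    intro m
    have hm : m.asIdeal.IsMaximal := m.isMaximal
    let _ : Field (R ⧸ m.asIdeal) := Ideal.Quotient.field m.asIdeal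
    have hfin : Module.Finite ℂ (R ⧸ m.asIdeal) := inferInstance
    have halg : Algebra.IsAlgebraic ℂ (R ⧸ m.asIdeal) := Algebra.IsAlgebraic.of_finite ℂ _
    let g : (R ⧸ m.asIdeal) →ₐ[ℂ] ℂ := IsAlgClosed.lift
    refine ⟨g.toRingHom.comp (Ideal.Quotient.mk m.asIdeal), ?_⟩
    intro x
    rw [← Ideal.Quotient.eq_zero_iff_mem]
    simp
  choose f hf using hlift
  have hfin : Finite (MaximalSpectrum R) := inferInstance
  let e : E ⊗[ℚ] ℂ ≃ₐ[ℚ] ℂ ⊗[ℚ] E := Algebra.TensorProduct.comm ℚ E ℂ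
  refine ⟨MaximalSpectrum R, Fintype.ofFinite _, fun i => (f i).comp e.toRingEquiv.toRingHom, ?_⟩
  intro x y hxy
  apply e.injective
  rw [← sub_eq_zero]
  have h2 : e x - e y ∈ nilradical R := by
    rw [← Ring.jacobson_eq_nilradical_of_krullDimLE_zero, Ring.jacobson_eq_sInf_isMaximal,
      Submodule.mem_sInf]
    intro m hm
    have h3 : f ⟨m, hm⟩ (e x) = f ⟨m, hm⟩ (e y) := hxy ⟨m, hm⟩
    exact (hf ⟨m, hm⟩ (e x - e y)).mp (by rw [map_sub, h3, sub_self])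
  rw [nilradical_eq_zero] at h2
  exact h2

theorem algebraic_of_homs {E : Type} [Field E] [NumberField E] (c : E ⊗[ℚ] ℂ)
    (h : ∀ τ : (E ⊗[ℚ] ℂ) →+* ℂ, IsAlgebraic ℚ (τ c)) : IsAlgebraic ℚ c := by
  obtain ⟨I, _, φ, hφ⟩ := exists_homs_fin E
  choose p hp using fun i => h (φ i)
  refine ⟨∏ i, p i, Finset.prod_ne_zero_iff.mpr fun i _ => (hp i).1, ?_⟩
  apply hφ
  intro i
  have h1 : ∀ q : Polynomial ℚ, φ i (Polynomial.aeval c q) = Polynomial.aeval (φ i c) q := by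
    intro q
    exact (Polynomial.aeval_algHom_apply (φ i).toRatAlgHom c q).symm
  rw [h1, map_prod, map_zero]
  exact Finset.prod_eq_zero (Finset.mem_univ i) (hp i).2

section

variable {E R : Type} [Field E] [CharZero E] [CommRing R] [Nontrivial R] [Algebra E R]
  {n J : Type} [Fintype n] [DecidableEq n] [Fintype J] [DecidableEq J] {a b : J → ℕ}
  (M : Datum E R n) {S : Set (TMat n a b E × TMat n a b E)}

theorem dec_comp [Algebra E ℂ] [Algebra R ℂ] [IsScalarTower E R ℂ]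
    (hS : ∀ s ∈ S, M.IsMor s.1 s.2) :
    Dec M.wt M.idx M.frob S (M.comp.map (algebraMap R ℂ)) (M.comp⁻¹.map (algebraMap R ℂ)) := by
  obtain ⟨q, q', u, u', hf⟩ := exists_frame M
  have hf2 := hf.map (algebraMap R ℂ)
  rw [map_map_alg] at hf2
  intro X hX
  exact decompose (isPt_comp M hS).map hf2 M.frob_sq M.frob_wt (fun s hs => (hS s hs).2.1)
    (fun s hs => (hS s hs).2.2.1) (fun s hs => (hS s hs).2.2.2) X hX

variable {I : Type} [Fintype I] {N : I → TMat n a b E × TMat n a b E} {ε r : I → ℤ} {u : I → Rˣ}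

/-- The bases of the periods. -/
theorem exists_bases (hS : ∀ s ∈ S, M.IsMor s.1 s.2) (hN : ∀ i, N i ∈ S)
    (hid : ∀ i, (N i).1 * (N i).1 = (N i).1) (hε : ∀ i, ε i = 0 ∨ ε i = 1 ∨ ε i = -1)
    (hu : ∀ i, M.IsPeriod (N i).1 (N i).2 (ε i) (r i) (u i : R)) :
    ∃ (d : I → ℕ) (A : ∀ i, Matrix (TIdx n a b) (Fin (d i)) E)
      (B : ∀ i, Matrix (Fin (d i)) (TIdx n a b) E) (C : ∀ i, Matrix (Fin (d i)) (TIdx n a b) E)
      (C' : ∀ i, Matrix (TIdx n a b) (Fin (d i)) E),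
      (∀ i, PerBasis M.idx M.frob (N i).1 (N i).2 (ε i) (r i) (A i) (B i) (C i) (C' i)) ∧
      ∀ i, (u i : R) = perVal (A i) (B i) M.comp M.comp⁻¹ := by
  choose d A B h1 h2 h3 h4 h5 using hu
  have h6 : ∀ i, ∃ C C', PerBasis M.idx M.frob (N i).1 (N i).2 (ε i) (r i) (A i) (B i) C C' := by
    intro i
    have hm := hS _ (hN i)
    exact exists_perBasis (hε i) (hid i) (idem_dR M hm (hid i)) M.frob_sq hm.2.1 hm.2.2.2 (A i)
      (B i) (h1 i) (h2 i) (h3 i) (h4 i)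
  choose C C' h7 using h6
  exact ⟨d, A, B, C, C', h7, h5⟩

end

section main

variable {E : Type} [Field E] [NumberField E] {n J : Type} [Fintype n] [DecidableEq n] [Fintype J]
  [DecidableEq J] {a b : J → ℕ} (M : Datum E (E ⊗[ℚ] ℂ) n)
  {S : Set (TMat n a b E × TMat n a b E)} {I : Type} [Fintype I]
  {N : I → TMat n a b E × TMat n a b E} {ε r m : I → ℤ} {u : I → (E ⊗[ℚ] ℂ)ˣ}

/-- The criterion implies algebraicity. -/
theorem algebraic_of_crit (hS : ∀ s ∈ S, M.IsMor s.1 s.2) (hN : ∀ i, N i ∈ S)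
    (hid : ∀ i, (N i).1 * (N i).1 = (N i).1) (hε : ∀ i, ε i = 0 ∨ ε i = 1 ∨ ε i = -1)
    (hu : ∀ i, M.IsPeriod (N i).1 (N i).2 (ε i) (r i) (u i : E ⊗[ℚ] ℂ))
    (hcrit : M.Crit S N ε r m) : IsAlgebraic ℚ ((∏ i, u i ^ m i : (E ⊗[ℚ] ℂ)ˣ) : E ⊗[ℚ] ℂ) := by
  obtain ⟨d, A, B, C, C', hP, hval⟩ := exists_bases M hS hN hid hε hu
  apply algebraic_of_homs
  intro τ
  letI : Algebra (E ⊗[ℚ] ℂ) ℂ := τ.toAlgebra
  letI : Algebra E ℂ := (τ.comp (algebraMap E (E ⊗[ℚ] ℂ))).toAlgebra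
  haveI : IsScalarTower E (E ⊗[ℚ] ℂ) ℂ := IsScalarTower.of_algebraMap_eq fun _ => rfl
  have h1 := dec_comp M hS
  have h2 : IsPt M.wt S (M.comp.map (algebraMap (E ⊗[ℚ] ℂ) ℂ))
      (M.comp⁻¹.map (algebraMap (E ⊗[ℚ] ℂ) ℂ)) := (isPt_comp M hS).map
  have h3 : ∀ i, ((Units.map τ.toMonoidHom (u i) : ℂˣ) : ℂ) = perVal (A i) (B i)
      (M.comp.map (algebraMap (E ⊗[ℚ] ℂ) ℂ)) (M.comp⁻¹.map (algebraMap (E ⊗[ℚ] ℂ) ℂ)) := by
    intro i
    have h4 := perVal_map (IsScalarTower.toAlgHom E (E ⊗[ℚ] ℂ) ℂ) (A i) (B i) M.comp M.comp⁻¹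
    rw [← hval i] at h4
    exact h4.symm
  have h5 := prod_algebraic (m := m) h2 M.frob_sq hN hP (fun i => Units.map τ.toMonoidHom (u i))
    h3 h1 hcrit.1 hcrit.2
  have h6 : ((∏ i, (Units.map τ.toMonoidHom (u i)) ^ m i : ℂˣ) : ℂ) =
      τ ((∏ i, u i ^ m i : (E ⊗[ℚ] ℂ)ˣ) : E ⊗[ℚ] ℂ) := by
    have h7 : (∏ i, (Units.map τ.toMonoidHom (u i)) ^ m i : ℂˣ) =
        Units.map τ.toMonoidHom (∏ i, u i ^ m i) := by
      rw [map_prod]
      refine Finset.prod_congr rfl fun i _ => ?_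
      rw [map_zpow]
    rw [h7]
    rfl
  rw [h6] at h5
  exact h5.restrictScalars ℚ

/-- If the group is connected, the criterion implies rationality. -/
theorem rational_of_crit (hS : ∀ s ∈ S, M.IsMor s.1 s.2) (hN : ∀ i, N i ∈ S)
    (hid : ∀ i, (N i).1 * (N i).1 = (N i).1) (hε : ∀ i, ε i = 0 ∨ ε i = 1 ∨ ε i = -1)
    (hu : ∀ i, M.IsPeriod (N i).1 (N i).2 (ε i) (r i) (u i : E ⊗[ℚ] ℂ))
    (hcrit : M.Crit S N ε r m) (τ₀ : (E ⊗[ℚ] ℂ) →+* ℂ)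
    (hconn : IsConn M.wt S (τ₀.comp (algebraMap E (E ⊗[ℚ] ℂ)))) :
    ∃ e : Eˣ, ∏ i, u i ^ m i = Units.map (algebraMap E (E ⊗[ℚ] ℂ)).toMonoidHom e := by
  obtain ⟨d, A, B, C, C', hP, hval⟩ := exists_bases M hS hN hid hε hu
  have key : ∃ e : E, ∀ (Ω : Type) [Field Ω] [Algebra E Ω] (t : Var n → Ω),
      (∀ j ∈ eqs M.wt S, aeval t j = 0) →
        aeval t (numPoly m A B - MvPolynomial.C e * denPoly m A B) = 0 := by
    letI : Algebra (E ⊗[ℚ] ℂ) ℂ := τ₀.toAlgebra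
    letI : Algebra E ℂ := (τ₀.comp (algebraMap E (E ⊗[ℚ] ℂ))).toAlgebra
    haveI : IsScalarTower E (E ⊗[ℚ] ℂ) ℂ := IsScalarTower.of_algebraMap_eq fun _ => rfl
    have h1 := dec_comp M hS
    have h2 : IsPt M.wt S (M.comp.map (algebraMap (E ⊗[ℚ] ℂ) ℂ))
        (M.comp⁻¹.map (algebraMap (E ⊗[ℚ] ℂ) ℂ)) := (isPt_comp M hS).map
    have h3 : ∀ i, perVal (A i) (B i) (M.comp.map (algebraMap (E ⊗[ℚ] ℂ) ℂ))
        (M.comp⁻¹.map (algebraMap (E ⊗[ℚ] ℂ) ℂ)) ≠ 0 := by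
      intro i
      have h4 := perVal_map (IsScalarTower.toAlgHom E (E ⊗[ℚ] ℂ) ℂ) (A i) (B i) M.comp M.comp⁻¹
      rw [← hval i] at h4
      have h5 : (IsScalarTower.toAlgHom E (E ⊗[ℚ] ℂ) ℂ) (u i : E ⊗[ℚ] ℂ) ≠ 0 :=
        ((u i).isUnit.map τ₀).ne_zero
      rw [← h4] at h5
      exact h5
    obtain ⟨e, he⟩ := exists_const (m := m) h2 M.frob_sq hN hP h3 h1 hconn hcrit.1 hcrit.2
    refine ⟨e, ?_⟩
    intro Ω _ _ t ht
    exact vanish_transfer (eqs M.wt S) _ he t ht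
  obtain ⟨e, he⟩ := key
  obtain ⟨I', _, φ, hφ⟩ := exists_homs_fin E
  have hce : ((∏ i, u i ^ m i : (E ⊗[ℚ] ℂ)ˣ) : E ⊗[ℚ] ℂ) = algebraMap E (E ⊗[ℚ] ℂ) e := by
    apply hφ
    intro i'
    set τ := φ i' with hτ
    letI : Algebra (E ⊗[ℚ] ℂ) ℂ := τ.toAlgebra
    letI : Algebra E ℂ := (τ.comp (algebraMap E (E ⊗[ℚ] ℂ))).toAlgebra
    haveI : IsScalarTower E (E ⊗[ℚ] ℂ) ℂ := IsScalarTower.of_algebraMap_eq fun _ => rfl
    set t : Var n → ℂ := coord (M.comp.map (algebraMap (E ⊗[ℚ] ℂ) ℂ))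
        (M.comp⁻¹.map (algebraMap (E ⊗[ℚ] ℂ) ℂ)) with ht
    have h2 : IsPt M.wt S (M.comp.map (algebraMap (E ⊗[ℚ] ℂ) ℂ))
        (M.comp⁻¹.map (algebraMap (E ⊗[ℚ] ℂ) ℂ)) := (isPt_comp M hS).map
    have hJ : ∀ j ∈ eqs M.wt S, aeval t j = 0 := by
      rw [← isPt_iff]
      exact h2
    have h3 : ∀ i, ((Units.map τ.toMonoidHom (u i) : ℂˣ) : ℂ) = perVal (A i) (B i)
        (matX t) (matY t) := by
      intro i
      have h4 := perVal_map (IsScalarTower.toAlgHom E (E ⊗[ℚ] ℂ) ℂ) (A i) (B i) M.comp M.comp⁻¹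
      rw [← hval i] at h4
      exact h4.symm
    have h5 := prod_mul_den (m := m) (A := A) (B := B) t (fun i => Units.map τ.toMonoidHom (u i))
      h3
    have h6 : ((∏ i, (Units.map τ.toMonoidHom (u i)) ^ m i : ℂˣ) : ℂ) =
        τ ((∏ i, u i ^ m i : (E ⊗[ℚ] ℂ)ˣ) : E ⊗[ℚ] ℂ) := by
      have h7 : (∏ i, (Units.map τ.toMonoidHom (u i)) ^ m i : ℂˣ) =
          Units.map τ.toMonoidHom (∏ i, u i ^ m i) := by
        rw [map_prod]
        refine Finset.prod_congr rfl fun i _ => ?_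
        rw [map_zpow]
      rw [h7]
      rfl
    have h8 := he ℂ t hJ
    have h9 : aeval t (denPoly m A B) ≠ 0 := by
      unfold denPoly
      rw [map_prod]
      refine Finset.prod_ne_zero_iff.mpr fun i _ => ?_
      rw [map_pow, aeval_perPoly, ← h3 i]
      exact pow_ne_zero _ (Units.ne_zero _)
    rw [map_sub, map_mul, aeval_C, sub_eq_zero, ← h5, h6] at h8
    exact mul_right_cancel₀ h9 h8
  have he0 : e ≠ 0 := by
    rintro rfl
    rw [map_zero] at hce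
    exact (∏ i, u i ^ m i : (E ⊗[ℚ] ℂ)ˣ).isUnit.ne_zero hce
  exact ⟨Units.mk0 e he0, Units.ext hce⟩

end main

end Pool.Agent.MP100fe7G
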