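import Pool.Agent.Lib.MP_100fe7_nt.G9Comp
import Pool.Agent.Lib.MP_100fe7_nt.G8Defs
import Pool.Agent.Lib.MP_100fe7_nt.GFinal

/-!
The degree of a product of periods which satisfies the criterion, if the group has a bounded number
of irreducible components.
-/

set_option linter.unusedSectionVars false

namespace Pool.Agent.MP100fe7G

open Matrix MvPolynomial TensorProduct

private theorem g9_block_inv {ι P : Type*} [Fintype ι] [DecidableEq ι] [CommRing P] (h : ι → ℤ)
    (X Y : Matrix ι ι P) (hXY : X * Y = 1) (hX : ∀ i j, h i ≠ h j → X i j = 0) (i j : ι)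
    (hij : h i ≠ h j) : Y i j = 0 := by
  have hYX : Y * X = 1 := mul_eq_one_comm.mp hXY
  set D : Matrix ι ι P := diagonal (fun k => if h k = h j then 1 else 0) with hD
  have h1 : X * D = D * X := by
    ext a b
    rw [hD, mul_diagonal, diagonal_mul]
    by_cases hab : h a = h b
    · rw [hab, mul_comm]
    · rw [hX a b hab, zero_mul, mul_zero]
  have h2 : Y * D = D * Y := by
    calc Y * D = Y * D * (X * Y) := by rw [hXY, Matrix.mul_one]
      _ = Y * (D * X) * Y := by simp only [Matrix.mul_assoc]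
      _ = Y * (X * D) * Y := by rw [h1]
      _ = (Y * X) * D * Y := by simp only [Matrix.mul_assoc]
      _ = D * Y := by rw [hYX, Matrix.one_mul]
  have h3 := congrFun (congrFun h2 i) j
  rw [hD, mul_diagonal, diagonal_mul, if_pos rfl, mul_one, if_neg hij, zero_mul] at h3
  exact h3

/-- the linear substitution `x = x₀ g`, `y = h y₀` -/
private noncomputable def g9Sub {n : Type} [Fintype n] (x₀ y₀ : Matrix n n ℂ) :
    Var n → MvPolynomial (Var n) ℂ :=
  Sum.elim (fun i => ∑ k, C (x₀ i.1 k) * X (Sum.inl (k, i.2)))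
    fun i => ∑ k, X (Sum.inr (i.1, k)) * C (y₀ k i.2)

private theorem g9_eval_sub {n : Type} [Fintype n] [DecidableEq n] (x₀ y₀ g h : Matrix n n ℂ)
    (p : MvPolynomial (Var n) ℂ) :
    eval (coord g h) (bind₁ (g9Sub x₀ y₀) p) = eval (coord (x₀ * g) (h * y₀)) p := by
  have h1 : (fun v => eval (coord g h) (g9Sub x₀ y₀ v)) = coord (x₀ * g) (h * y₀) := by
    funext v
    rcases v with ⟨i, j⟩ | ⟨i, j⟩
    · simp [g9Sub, coord, Matrix.mul_apply]
    · simp [g9Sub, coord, Matrix.mul_apply]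
  rw [← h1]
  have h2 := MvPolynomial.aeval_bind₁ (coord g h) (g9Sub x₀ y₀) p (R := ℂ)
  exact h2

/-- The torsor has at most as many irreducible components as the group, if it has a point. -/
theorem comp_torsor {E : Type} [Field E] {n J : Type} [Fintype n] [DecidableEq n] [Fintype J]
    [DecidableEq J] {a b : J → ℕ} [Algebra E ℂ] (wt : n → ℤ)
    (S : Set (TMat n a b E × TMat n a b E)) (c : ℕ)
    (hconn : CompLe c (group wt S (algebraMap E ℂ)))
    (x₀ y₀ : Matrix n n ℂ) (h₀ : IsPt wt S x₀ y₀) (p : Fin (c + 1) → MvPolynomial (Var n) ℂ)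
    (hpq : ∀ i j, i ≠ j → ∀ t : Var n → ℂ, (∀ j ∈ eqs wt S, aeval t j = 0) →
      eval t (p i * p j) = 0) :
    ∃ i, ∀ t : Var n → ℂ, (∀ j ∈ eqs wt S, aeval t j = 0) → eval t (p i) = 0 := by
  have hxy : x₀ * y₀ = 1 := h₀.1
  have hyx : y₀ * x₀ = 1 := mul_eq_one_comm.mp hxy
  -- the points of the torsor from the group
  have hto : ∀ g ∈ group wt S (algebraMap E ℂ), ∀ j ∈ eqs wt S,
      aeval (coord (x₀ * g.1) (g.2 * y₀)) j = 0 := by
    intro g hg
    rw [← isPt_iff wt S (coord (x₀ * g.1) (g.2 * y₀))]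
    obtain ⟨hg1, hg2, hg3⟩ := hg
    have hg2' := g9_block_inv wt g.1 g.2 hg1 hg2
    show IsPt wt S (x₀ * g.1) (g.2 * y₀)
    refine ⟨?_, block_mul h₀.2.1 hg2, block_mul hg2' h₀.2.2.1, fun s hs => ?_⟩
    · calc x₀ * g.1 * (g.2 * y₀) = x₀ * (g.1 * g.2) * y₀ := by simp only [Matrix.mul_assoc]
        _ = 1 := by rw [hg1, Matrix.mul_one, hxy]
    · rw [tens_mul, Matrix.mul_assoc]
      have h1 : tens a b g.1 g.2 * s.1.map (algebraMap E ℂ) =
          s.1.map (algebraMap E ℂ) * tens a b g.1 g.2 := hg3 s hs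
      rw [h1, ← Matrix.mul_assoc, h₀.2.2.2 s hs, Matrix.mul_assoc]
  -- the elements of the group from the torsor
  have hfrom : ∀ t : Var n → ℂ, (∀ j ∈ eqs wt S, aeval t j = 0) →
      (y₀ * matX t, matY t * x₀) ∈ group wt S (algebraMap E ℂ) := by
    intro t ht
    obtain ⟨h1, h2, h3, h4⟩ := (isPt_iff wt S t).2 ht
    refine ⟨?_, block_mul h₀.2.2.1 h2, fun s hs => ?_⟩
    · show y₀ * matX t * (matY t * x₀) = 1
      calc y₀ * matX t * (matY t * x₀) = y₀ * (matX t * matY t) * x₀ := by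
            simp only [Matrix.mul_assoc]
        _ = 1 := by rw [h1, Matrix.mul_one, hyx]
    · show tens a b (y₀ * matX t) (matY t * x₀) * s.1.map (algebraMap E ℂ) =
        s.1.map (algebraMap E ℂ) * tens a b (y₀ * matX t) (matY t * x₀)
      rw [tens_mul, Matrix.mul_assoc, h4 s hs, ← Matrix.mul_assoc, h₀.tens_y hs,
        Matrix.mul_assoc]
  have hback : ∀ (r : MvPolynomial (Var n) ℂ), (∀ g ∈ group wt S (algebraMap E ℂ),
      eval (coord g.1 g.2) (bind₁ (g9Sub x₀ y₀) r) = 0) →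
      ∀ t : Var n → ℂ, (∀ j ∈ eqs wt S, aeval t j = 0) → eval t r = 0 := by
    intro r hr t ht
    have h1 := hr _ (hfrom t ht)
    rw [g9_eval_sub] at h1
    have e1 : x₀ * (y₀ * matX t) = matX t := by
      rw [← Matrix.mul_assoc, hxy, Matrix.one_mul]
    have e2 : matY t * x₀ * y₀ = matY t := by
      rw [Matrix.mul_assoc, hxy, Matrix.mul_one]
    rw [e1, e2, coord_mat] at h1
    exact h1
  obtain ⟨i, hi⟩ := hconn (fun i => bind₁ (g9Sub x₀ y₀) (p i)) (fun i j hij g hg => by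
    rw [← map_mul]
    have h1 := g9_eval_sub x₀ y₀ g.1 g.2 (p i * p j)
    exact h1.trans (hpq i j hij _ (hto g hg)))
  exact ⟨i, hback (p i) hi⟩

section main

variable {E : Type} [Field E] [NumberField E] {n J : Type} [Fintype n] [DecidableEq n] [Fintype J]
  [DecidableEq J] {a b : J → ℕ} (M : Datum E (E ⊗[ℚ] ℂ) n)
  {S : Set (TMat n a b E × TMat n a b E)} {I : Type} [Fintype I]
  {N : I → TMat n a b E × TMat n a b E} {ε r m : I → ℤ} {u : I → (E ⊗[ℚ] ℂ)ˣ}

/-- If the group has at most `c` irreducible components, a product which satisfies the criterion is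
a root of a nonzero polynomial over `E` of degree at most `c`. -/
theorem degree_of_crit (hS : ∀ s ∈ S, M.IsMor s.1 s.2) (hN : ∀ i, N i ∈ S)
    (hid : ∀ i, (N i).1 * (N i).1 = (N i).1) (hε : ∀ i, ε i = 0 ∨ ε i = 1 ∨ ε i = -1)
    (hu : ∀ i, M.IsPeriod (N i).1 (N i).2 (ε i) (r i) (u i : E ⊗[ℚ] ℂ))
    (hcrit : M.Crit S N ε r m) (τ₀ : (E ⊗[ℚ] ℂ) →+* ℂ) (c : ℕ)
    (hconn : CompLe c (group M.wt S (τ₀.comp (algebraMap E (E ⊗[ℚ] ℂ))))) :
    ∃ q : Polynomial E, q ≠ 0 ∧ q.natDegree ≤ c ∧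
      Polynomial.aeval ((∏ i, u i ^ m i : (E ⊗[ℚ] ℂ)ˣ) : E ⊗[ℚ] ℂ) q = 0 := by
  obtain ⟨d, A, B, C, C', hP, hval⟩ := exists_bases M hS hN hid hε hu
  obtain ⟨I', _, φ, hφ⟩ := exists_homs_fin E
  -- the comparison points
  set t : I' → Var n → ℂ := fun i => coord (M.comp.map (φ i)) (M.comp⁻¹.map (φ i)) with ht
  set alg : I' → Algebra E ℂ := fun i => ((φ i).comp (algebraMap E (E ⊗[ℚ] ℂ))).toAlgebra
    with halgdef
  set P : I' → Ideal (MvPolynomial (Var n) E) := fun i =>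
    letI := alg i
    RingHom.ker (aeval (t i) : MvPolynomial (Var n) E →ₐ[E] ℂ) with hPdef
  have hcompare : ∀ i', (∀ p : MvPolynomial (Var n) E, letI := alg i'; p ∈ P i' ↔
      aeval (t i') p = 0) := by
    intro i' p
    rfl
  -- facts on the comparison points
  have hfacts : ∀ i', letI := alg i'
      letI : Algebra (E ⊗[ℚ] ℂ) ℂ := (φ i').toAlgebra
      (∀ j ∈ eqs M.wt S, aeval (t i') j = 0) ∧
      (∀ i, φ i' (u i : E ⊗[ℚ] ℂ) = perVal (A i) (B i) (matX (t i')) (matY (t i'))) ∧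
      Dec M.wt M.idx M.frob S (matX (t i')) (matY (t i')) := by
    intro i'
    let _ := alg i'
    let _ : Algebra (E ⊗[ℚ] ℂ) ℂ := (φ i').toAlgebra
    have : IsScalarTower E (E ⊗[ℚ] ℂ) ℂ := IsScalarTower.of_algebraMap_eq fun _ => rfl
    refine ⟨?_, ?_, ?_⟩
    · rw [← isPt_iff]
      exact (isPt_comp M hS).map (P := ℂ)
    · intro i
      have h4 := perVal_map (IsScalarTower.toAlgHom E (E ⊗[ℚ] ℂ) ℂ) (A i) (B i) M.comp M.comp⁻¹
      rw [← hval i] at h4
      exact h4.symm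
    · exact dec_comp M hS
  obtain ⟨q, hq0, hqc, hq⟩ : ∃ q : Polynomial E, q ≠ 0 ∧ q.natDegree ≤ c ∧
      ∀ i', ∀ (K : Type) [Field K] [Algebra E K] (t : Var n → K),
        (∀ p ∈ P i', aeval t p = 0) → aeval t (denPoly m A B) ≠ 0 →
        Polynomial.aeval (aeval t (numPoly m A B) / aeval t (denPoly m A B)) q = 0 := by
    let _ : Algebra (E ⊗[ℚ] ℂ) ℂ := τ₀.toAlgebra
    let _ : Algebra E ℂ := (τ₀.comp (algebraMap E (E ⊗[ℚ] ℂ))).toAlgebra
    have : IsScalarTower E (E ⊗[ℚ] ℂ) ℂ := IsScalarTower.of_algebraMap_eq fun _ => rfl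
    have h2 : IsPt M.wt S (M.comp.map (algebraMap (E ⊗[ℚ] ℂ) ℂ))
        (M.comp⁻¹.map (algebraMap (E ⊗[ℚ] ℂ) ℂ)) := (isPt_comp M hS).map
    refine comp_degree (Ω := ℂ) (eqs M.wt S) c
      (fun p hp => comp_torsor M.wt S c hconn _ _ h2 p hp) P ?_ ?_ (numPoly m A B)
      (denPoly m A B) ?_
    · intro i'
      let _ := alg i'
      exact RingHom.ker_isPrime _
    · intro i' j hj
      exact (hfacts i').1 j hj
    · intro i' L _ _ η hηJ hηP
      have hxη : IsPt M.wt S (matX η) (matY η) := (isPt_iff M.wt S η).mpr hηJ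
      have hneη : ∀ i, perVal (A i) (B i) (matX η) (matY η) ≠ 0 := by
        intro i h
        rw [← aeval_perPoly] at h
        have h3 := hηP _ h
        let _ := alg i'
        have h4 : aeval (t i') (perPoly (A i) (B i)) = 0 := h3
        rw [aeval_perPoly, ← (hfacts i').2.1 i] at h4
        exact ((u i).isUnit.map (φ i')).ne_zero h4
      have hdη : Dec M.wt M.idx M.frob S (matX η) (matY η) := by
        let _ := alg i'
        have hx' : IsPt M.wt S (matX (t i')) (matY (t i')) :=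
          (isPt_iff M.wt S (t i')).mpr (hfacts i').1
        refine dec_specialize hxη hx' (fun p hp => ?_) (hfacts i').2.2
        rw [coord_mat] at hp ⊢
        exact hηP p hp
      set w : I → Lˣ := fun i => Units.mk0 _ (hneη i) with hw
      have halg := prod_algebraic (m := m) hxη M.frob_sq hN hP w (fun i => rfl) hdη hcrit.1
        hcrit.2
      have hmul := prod_mul_den (m := m) (A := A) (B := B) η w (fun i => rfl)
      have hden : aeval η (denPoly m A B) ≠ 0 := by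
        unfold denPoly
        rw [map_prod]
        refine Finset.prod_ne_zero_iff.mpr fun i _ => ?_
        rw [map_pow, aeval_perPoly]
        exact pow_ne_zero _ (hneη i)
      refine ⟨hden, ?_⟩
      rw [← hmul, mul_div_cancel_right₀ _ hden]
      exact halg
  refine ⟨q, hq0, hqc, ?_⟩
  apply hφ
  intro i'
  let _ : Algebra (E ⊗[ℚ] ℂ) ℂ := (φ i').toAlgebra
  let _ : Algebra E ℂ := ((φ i').comp (algebraMap E (E ⊗[ℚ] ℂ))).toAlgebra
  have : IsScalarTower E (E ⊗[ℚ] ℂ) ℂ := IsScalarTower.of_algebraMap_eq fun _ => rfl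
  obtain ⟨h1, h2, -⟩ := hfacts i'
  have h5 := prod_mul_den (m := m) (A := A) (B := B) (t i')
    (fun i => Units.map (φ i').toMonoidHom (u i)) h2
  have h6 : ((∏ i, (Units.map (φ i').toMonoidHom (u i)) ^ m i : ℂˣ) : ℂ) =
      φ i' ((∏ i, u i ^ m i : (E ⊗[ℚ] ℂ)ˣ) : E ⊗[ℚ] ℂ) := by
    have h7 : (∏ i, (Units.map (φ i').toMonoidHom (u i)) ^ m i : ℂˣ) =
        Units.map (φ i').toMonoidHom (∏ i, u i ^ m i) := by
      rw [map_prod]
      refine Finset.prod_congr rfl fun i _ => ?_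
      rw [map_zpow]
    rw [h7]
    rfl
  have h9 : aeval (t i') (denPoly m A B) ≠ 0 := by
    unfold denPoly
    rw [map_prod]
    refine Finset.prod_ne_zero_iff.mpr fun i _ => ?_
    rw [map_pow, aeval_perPoly, ← h2 i]
    exact pow_ne_zero _ ((u i).isUnit.map (φ i')).ne_zero
  have h10 := hq i' ℂ (t i') (fun p hp => hp) h9
  rw [← h5, mul_div_cancel_right₀ _ h9, h6] at h10
  have h11 : φ i' (Polynomial.aeval ((∏ i, u i ^ m i : (E ⊗[ℚ] ℂ)ˣ) : E ⊗[ℚ] ℂ) q) =
      Polynomial.aeval (φ i' ((∏ i, u i ^ m i : (E ⊗[ℚ] ℂ)ˣ) : E ⊗[ℚ] ℂ)) q :=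
    (Polynomial.aeval_algebraMap_apply ℂ _ q).symm
  rw [h11, h10, map_zero]

end main

end Pool.Agent.MP100fe7G
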