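import Pool.Agent.Lib.MP_100fe7_nt.G8Sum
import Pool.Agent.Lib.MP_100fe7_nt.G8Grp
import Pool.Agent.Lib.MP_100fe7_nt.G9Deg

/-!
Reduction of a family of endomorphisms of all tensor constructions to one tensor construction.
-/

set_option linter.unusedSectionVars false

namespace Pool.Agent.MP100fe7G

open Matrix MvPolynomial TensorProduct

/-- An intersection of subspaces of a finite dimensional space is a finite intersection. -/
theorem exists_finset_inf {K V ι : Type} [Field K] [AddCommGroup V] [Module K V]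
    [FiniteDimensional K V] (W : ι → Submodule K V) :
    ∃ F : Finset ι, ∀ i, (⨅ j ∈ F, W j) ≤ W i := by
  classical
  obtain ⟨M₀, ⟨F, rfl⟩, hmin⟩ := (wellFounded_lt (α := Submodule K V)).has_min
    (Set.range fun F : Finset ι => ⨅ j ∈ F, W j) ⟨_, ⟨∅, rfl⟩⟩
  refine ⟨F, fun i => ?_⟩
  have h1 : (⨅ j ∈ insert i F, W j) = W i ⊓ ⨅ j ∈ F, W j := by
    rw [Finset.iInf_insert]
  have h2 : ¬ (⨅ j ∈ insert i F, W j) < ⨅ j ∈ F, W j := hmin _ ⟨insert i F, rfl⟩
  rw [h1] at h2
  have h3 : W i ⊓ (⨅ j ∈ F, W j) = ⨅ j ∈ F, W j := by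
    by_contra h4
    exact h2 (lt_of_le_of_ne inf_le_right h4)
  rw [← h3]
  exact inf_le_left

/-- A sum of ideals of a Noetherian ring is a finite sum. -/
theorem exists_finset_sup {A ι : Type} [CommRing A] [IsNoetherianRing A] (W : ι → Ideal A) :
    ∃ F : Finset ι, ∀ i, W i ≤ ⨆ j ∈ F, W j := by
  classical
  obtain ⟨M₀, ⟨F, rfl⟩, hmax⟩ := (wellFounded_gt (α := Ideal A)).has_min
    (Set.range fun F : Finset ι => ⨆ j ∈ F, W j) ⟨_, ⟨∅, rfl⟩⟩
  refine ⟨F, fun i => ?_⟩
  have h1 : (⨆ j ∈ insert i F, W j) = W i ⊔ ⨆ j ∈ F, W j := by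
    rw [Finset.iSup_insert]
  have h2 : ¬ (⨆ j ∈ insert i F, W j) > ⨆ j ∈ F, W j := hmax _ ⟨insert i F, rfl⟩
  rw [h1] at h2
  have h3 : W i ⊔ (⨆ j ∈ F, W j) = ⨆ j ∈ F, W j := by
    by_contra h4
    exact h2 (lt_of_le_of_ne le_sup_right (Ne.symm h4))
  rw [← h3]
  exact le_sup_left

/-- The index set of the tensor constructions. -/
abbrev Cons : Type := Σ k : ℕ, (Fin k → ℕ) × (Fin k → ℕ)

section fam

variable {E : Type} [Field E] {n : Type} [Fintype n] [DecidableEq n] (wt idx : n → ℤ)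
  (frob : Matrix n n E) (S : Fam n E)

/-- `𝔨` for one tensor construction. -/
def subK1 (x : Cons) : Submodule E (Matrix n n E) where
  carrier := {Y | InK wt frob (S x.1 x.2.1 x.2.2) Y}
  zero_mem' := inK_zero
  add_mem' := fun {X Y} hX hY => by
    have h1 := InK.comb (P := E) Finset.univ (fun _ : Bool => (1 : E))
      (fun i => if i then X else Y) (fun i _ => by
        cases i
        · exact hY
        · exact hX)
    simpa using h1
  smul_mem' := fun c X hX => by
    have h1 := InK.comb (P := E) Finset.univ (fun _ : Unit => c) (fun _ => X) (fun _ _ => hX)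
    simpa using h1

/-- `𝔭` for one tensor construction. -/
def subP1 (x : Cons) : Submodule E (Matrix n n E) where
  carrier := {Z | InP wt idx (S x.1 x.2.1 x.2.2) Z}
  zero_mem' := inP_zero
  add_mem' := fun {X Y} hX hY => by
    have h1 := InP.comb (P := E) Finset.univ (fun _ : Bool => (1 : E))
      (fun i => if i then X else Y) (fun i _ => by
        cases i
        · exact hY
        · exact hX)
    simpa using h1
  smul_mem' := fun c X hX => by
    have h1 := InP.comb (P := E) Finset.univ (fun _ : Unit => c) (fun _ => X) (fun _ _ => hX)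
    simpa using h1

private theorem g8_block_inv {ι P : Type*} [Fintype ι] [DecidableEq ι] [CommRing P] (h : ι → ℤ)
    (X Y : Matrix ι ι P) (hXY : X * Y = 1) (hX : ∀ i j, h i ≠ h j → X i j = 0) (i j : ι)
    (hij : h i ≠ h j) : Y i j = 0 := by
  have hYX : Y * X = 1 := mul_eq_one_comm.mp hXY
  set D : Matrix ι ι P := diagonal (fun k => if h k = h j then 1 else 0) with hD
  have h1 : X * D = D * X := by
    ext a b
    rw [hD, mul_diagonal, diagonal_mul]
    by_cases hab : h a = h b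
    · rw [hab, mul_comm]
    · rw [hX a b hab, zero_mul, mul_zero]
  have h2 : Y * D = D * Y := by
    calc Y * D = Y * D * (X * Y) := by rw [hXY, Matrix.mul_one]
      _ = Y * (D * X) * Y := by simp only [Matrix.mul_assoc]
      _ = Y * (X * D) * Y := by rw [h1]
      _ = (Y * X) * D * Y := by simp only [Matrix.mul_assoc]
      _ = D * Y := by rw [hYX, Matrix.one_mul]
  have h3 := congrFun (congrFun h2 i) j
  rw [hD, mul_diagonal, diagonal_mul, if_pos rfl, mul_one, if_neg hij, zero_mul] at h3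
  exact h3

/-- The group of one tensor construction is the zero set of polynomials over `E`. -/
theorem group_iff {J : Type} [Fintype J] [DecidableEq J] {a b : J → ℕ}
    (S₁ : Set (TMat n a b E × TMat n a b E)) [Algebra E ℂ] (g : Matrix n n ℂ × Matrix n n ℂ) :
    g ∈ group wt S₁ (algebraMap E ℂ) ↔
      ∀ p ∈ eqs wt ((fun s : TMat n a b E × TMat n a b E => (s.1, s.1)) '' S₁),
        aeval (coord g.1 g.2) p = 0 := by
  rw [← isPt_iff]
  constructor
  · rintro ⟨h1, h2, h3⟩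
    refine ⟨h1, h2, g8_block_inv wt g.1 g.2 h1 h2, ?_⟩
    rintro _ ⟨s, hs, rfl⟩
    exact h3 s hs
  · rintro ⟨h1, h2, -, h3⟩
    exact ⟨h1, h2, fun s hs => h3 _ ⟨s, hs, rfl⟩⟩

/-- The finite set of tensor constructions which determines everything. -/
theorem exists_cons (I : Type) [Fintype I] (p : I → Summand n E) :
    ∃ F : Finset Cons, F.Nonempty ∧ (∀ i, (⟨(p i).k, (p i).a, (p i).b⟩ : Cons) ∈ F) ∧
      (∀ Y : Matrix n n E, (∀ x ∈ F, InK wt frob (S x.1 x.2.1 x.2.2) Y) →
        ∀ (k : ℕ) (a b : Fin k → ℕ), InK wt frob (S k a b) Y) ∧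
      (∀ Z : Matrix n n E, (∀ x ∈ F, InP wt idx (S x.1 x.2.1 x.2.2) Z) →
        ∀ (k : ℕ) (a b : Fin k → ℕ), InP wt idx (S k a b) Z) ∧
      (∀ X : Matrix n n E, (∀ x ∈ F, X ∈ lieB wt (S x.1 x.2.1 x.2.2)) →
        ∀ (k : ℕ) (a b : Fin k → ℕ), X ∈ lieB wt (S k a b)) ∧
      ∀ (τ : E →+* ℂ) (g : Matrix n n ℂ × Matrix n n ℂ),
        (∀ x ∈ F, g ∈ group wt (S x.1 x.2.1 x.2.2) τ) → g ∈ groupF wt S τ := by
  classical
  obtain ⟨F1, h1⟩ := exists_finset_inf (subK1 wt frob S)
  obtain ⟨F2, h2⟩ := exists_finset_inf (subP1 wt idx S)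
  obtain ⟨F3, h3⟩ := exists_finset_inf fun x : Cons => lieB wt (S x.1 x.2.1 x.2.2)
  obtain ⟨F4, h4⟩ := exists_finset_sup fun x : Cons => Ideal.span
    (eqs wt ((fun s : TMat n x.2.1 x.2.2 E × TMat n x.2.1 x.2.2 E => (s.1, s.1)) ''
      S x.1 x.2.1 x.2.2))
  set F5 : Finset Cons := Finset.univ.image fun i => (⟨(p i).k, (p i).a, (p i).b⟩ : Cons)
    with hF5
  refine ⟨insert ⟨0, Fin.elim0, Fin.elim0⟩ (F1 ∪ F2 ∪ F3 ∪ F4 ∪ F5),
    Finset.insert_nonempty _ _, ?_, ?_, ?_, ?_, ?_⟩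
  · intro i
    have h5 : (⟨(p i).k, (p i).a, (p i).b⟩ : Cons) ∈ F5 :=
      Finset.mem_image_of_mem _ (Finset.mem_univ i)
    simp [h5]
  · intro Y hY k a b
    refine h1 ⟨k, a, b⟩ ?_
    rw [Submodule.mem_iInf]
    intro x
    rw [Submodule.mem_iInf]
    intro hx
    exact hY x (by simp [hx])
  · intro Z hZ k a b
    refine h2 ⟨k, a, b⟩ ?_
    rw [Submodule.mem_iInf]
    intro x
    rw [Submodule.mem_iInf]
    intro hx
    exact hZ x (by simp [hx])
  · intro X hX k a b
    refine h3 ⟨k, a, b⟩ ?_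
    rw [Submodule.mem_iInf]
    intro x
    rw [Submodule.mem_iInf]
    intro hx
    exact hX x (by simp [hx])
  · intro τ g hg k a b
    let _ : Algebra E ℂ := τ.toAlgebra
    have h5 : (⨆ j ∈ F4, Ideal.span (eqs wt ((fun s : TMat n j.2.1 j.2.2 E × TMat n j.2.1 j.2.2 E =>
        (s.1, s.1)) '' S j.1 j.2.1 j.2.2))) ≤
        RingHom.ker (aeval (coord g.1 g.2) : MvPolynomial (Var n) E →ₐ[E] ℂ) := by
      refine iSup₂_le fun x hx => ?_
      rw [Ideal.span_le]
      intro q hq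
      have h6 := (group_iff wt (S x.1 x.2.1 x.2.2) g).mp (hg x (by simp [hx]))
      exact h6 q hq
    refine (group_iff wt (S k a b) g).mpr fun q hq => ?_
    exact h5 (h4 ⟨k, a, b⟩ (Ideal.subset_span hq))

end fam

end Pool.Agent.MP100fe7G
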