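import Pool.Agent.Lib.MP_100fe7_nt.G8Form
import Pool.Agent.Lib.MP_100fe7_nt.G8Grp

/-!
A bound for the rank of the group of all Deligne periods.
-/

set_option linter.unusedSectionVars false

namespace Pool.Agent.MP100fe7G

open Matrix

section lin

variable {E : Type} [Field E] {n J : Type} [Fintype n] [DecidableEq n] [Fintype J]
  [DecidableEq J] {a b : J → ℕ} {P : Type} [CommRing P] [Algebra E P]

/-- `traceK` as a linear map. -/
def traceKL (frob : Matrix n n E) (e : TMat n a b E) (ε : ℤ) : Matrix n n P →ₗ[P] P where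
  toFun := traceK frob e ε
  map_add' X Y := by
    unfold traceK
    rw [lie_add, Matrix.add_mul, Matrix.trace_add]
  map_smul' c X := by
    unfold traceK
    rw [lie_smul, Matrix.smul_mul, Matrix.trace_smul]
    rfl

/-- `traceP` as a linear map. -/
def traceKP (idx : n → ℤ) (f : TMat n a b E) (r : ℤ) : Matrix n n P →ₗ[P] P where
  toFun := traceP idx f r
  map_add' X Y := by
    unfold traceP
    rw [lie_add, Matrix.add_mul, ← Finset.sum_add_distrib]
    rfl
  map_smul' c X := by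
    unfold traceP
    rw [lie_smul, Matrix.smul_mul, Finset.smul_sum]
    rfl

end lin

/-- Linear functionals with given values on a linearly independent family. -/
theorem exists_functional {K V W : Type} [Field K] [AddCommGroup V] [Module K V] [AddCommGroup W]
    [Module K W] {d : ℕ} {t : Fin d → V} (ht : LinearIndependent K t) (x : Fin d → W) :
    ∃ c : V →ₗ[K] W, ∀ i, c (t i) = x i := by
  obtain ⟨c, hc⟩ := LinearMap.exists_extend ((Module.Basis.span ht).constr K x)
  refine ⟨c, fun i => ?_⟩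
  have h1 := LinearMap.congr_fun hc ⟨t i, Submodule.subset_span ⟨i, rfl⟩⟩
  rw [LinearMap.comp_apply, Submodule.subtype_apply] at h1
  rw [h1]
  have h2 : (⟨t i, Submodule.subset_span ⟨i, rfl⟩⟩ : Submodule.span K (Set.range t)) =
      Module.Basis.span ht i := by
    apply Subtype.ext
    rw [Module.Basis.span_apply]
  rw [h2, Module.Basis.constr_basis]

section rank

variable {E R : Type} [Field E] [CharZero E] [CommRing R] [Nontrivial R] [Algebra E R]
  {n : Type} [Fintype n] [DecidableEq n] (M : Datum E R n) (S : Fam n E)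

/-- The relation between the two characters of a period. -/
theorem rel_zero {J : Type} [Fintype J] [DecidableEq J] {a b : J → ℕ} [Algebra E ℂ] [Algebra R ℂ]
    [IsScalarTower E R ℂ] {S : Set (TMat n a b E × TMat n a b E)}
    (hS : ∀ s ∈ S, M.IsMor s.1 s.2) {N : TMat n a b E × TMat n a b E} (hN : N ∈ S)
    (hid : N.1 * N.1 = N.1) (hid2 : N.2 * N.2 = N.2) {ε r : ℤ} (hε : ε = 0 ∨ ε = 1 ∨ ε = -1)
    {c : R} (hc : M.IsPeriod N.1 N.2 ε r c) (hc0 : algebraMap R ℂ c ≠ 0) {Y Z : Matrix n n ℂ}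
    (hY : InK M.wt M.frob S Y) (hZ : InP M.wt M.idx S Z)
    (h : Y + M.comp⁻¹.map (algebraMap R ℂ) * Z * M.comp.map (algebraMap R ℂ) = 0) :
    traceK M.frob N.1 ε Y + 2 * traceP M.idx N.2 r Z = 0 := by
  have hm := hS N hN
  obtain ⟨d, A, B, h1, h2, h3, h4, h5⟩ := hc
  obtain ⟨C, C', hP⟩ := exists_perBasis hε hid hid2 M.frob_sq hm.2.1 hm.2.2.2 A B h1 h2 h3 h4
  have hpt : IsPt M.wt S (M.comp.map (algebraMap R ℂ)) (M.comp⁻¹.map (algebraMap R ℂ)) :=
    (isPt_comp M hS).map
  have hmapid : ∀ z : Matrix n n ℂ, z.map (algebraMap ℂ ℂ) = z := fun z => by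
    ext i j
    simp
  have hder := period_der hpt M.frob_sq (0 : Derivation E ℂ ℂ) hN hP hY hZ (by
    rw [hmapid, hmapid, h]
    have h6 : (M.comp.map (algebraMap R ℂ)).map (0 : Derivation E ℂ ℂ) = 0 := by
      ext i j
      simp
    rw [h6, Matrix.mul_zero])
  have hval : perVal A B (M.comp.map (algebraMap R ℂ)) (M.comp⁻¹.map (algebraMap R ℂ)) =
      algebraMap R ℂ c := by
    have h6 := perVal_map (IsScalarTower.toAlgHom E R ℂ) A B M.comp M.comp⁻¹
    rw [h5]
    exact h6
  rw [hval] at hder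
  simp only [Derivation.coe_zero, Pi.zero_apply, mul_zero, Algebra.algebraMap_self,
    RingHom.id_apply] at hder
  exact (mul_eq_zero.mp hder.symm).resolve_left hc0

variable {M S}

/-- The bound for the rank. -/
theorem rank_bound [Countable E] [Algebra E ℂ] [Algebra R ℂ] [IsScalarTower E R ℂ]
    (hS : ∀ k a b, ∀ s ∈ S k a b, M.IsMor s.1 s.2)
    (hS2 : ∀ k a b, ∀ s ∈ S k a b, s.1 * s.1 = s.1 → s.2 * s.2 = s.2) {s : ℕ}
    {I : Fin s → Type} [∀ j, Fintype (I j)] {p : ∀ j, I j → Summand n E} {e : ∀ j, I j → ℤ}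
    {u : ∀ j, I j → Rˣ} (hu : ∀ j i, M.IsPer S (p j i) (u j i : R))
    (hfree : ∀ m : Fin s → ℤ,
        (∀ Y : Matrix n n E, (∀ (k : ℕ) (a b : Fin k → ℕ), InK M.wt M.frob (S k a b) Y) →
          ∑ j, (m j : E) * ∑ i, (e j i : E) * traceK M.frob (p j i).pr.1 (p j i).ε Y = 0) →
        (∀ Z : Matrix n n E, (∀ (k : ℕ) (a b : Fin k → ℕ), InP M.wt M.idx (S k a b) Z) →
          ∑ j, (m j : E) * ∑ i, (e j i : E) * traceP M.idx (p j i).pr.2 (p j i).r Z = 0) →
        m = 0) :
    s + Module.finrank ℂ (M.brF S (algebraMap R ℂ)) ≤ Module.finrank E (lieF M.wt S) := by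
  classical
  have hunc : Uncountable ℂ := by
    rw [← not_countable_iff]
    intro h
    exact not_countable_complex (Set.countable_univ_iff.mpr h)
  set x := M.comp.map (algebraMap R ℂ) with hx
  set y := M.comp⁻¹.map (algebraMap R ℂ) with hy
  -- the functionals
  let f : Fin s → (Matrix n n ℂ × Matrix n n ℂ) →ₗ[ℂ] ℂ := fun j =>
    ∑ i, ((e j i : ℤ) : ℂ) • ((traceKL M.frob (p j i).pr.1 (p j i).ε).comp
      (LinearMap.fst ℂ (Matrix n n ℂ) (Matrix n n ℂ)) +
      (2 : ℂ) • (traceKP M.idx (p j i).pr.2 (p j i).r).comp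
        (LinearMap.snd ℂ (Matrix n n ℂ) (Matrix n n ℂ)))
  have hf : ∀ j Y Z, f j (Y, Z) = ∑ i, (e j i : ℂ) * (traceK M.frob (p j i).pr.1 (p j i).ε Y +
      2 * traceP M.idx (p j i).pr.2 (p j i).r Z) := by
    intro j Y Z
    simp only [f, LinearMap.sum_apply, LinearMap.smul_apply, LinearMap.add_apply,
      LinearMap.comp_apply, LinearMap.fst_apply, LinearMap.snd_apply, smul_eq_mul]
    rfl
  -- independence over ℂ
  have hind : ∀ c : Fin s → ℂ, (∀ Y Z : Matrix n n ℂ,
      (∀ (k : ℕ) (a b : Fin k → ℕ), InK M.wt M.frob (S k a b) Y) →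
      (∀ (k : ℕ) (a b : Fin k → ℕ), InP M.wt M.idx (S k a b) Z) →
        ∑ j, c j * f j (Y, Z) = 0) → c = 0 := by
    intro c hc
    obtain ⟨Y₀, hY₀, hYg⟩ := exists_genK (Ω := ℂ) M.wt M.frob S
    obtain ⟨Z₀, hZ₀, hZg⟩ := exists_genP (Ω := ℂ) M.wt M.idx S
    set w : Fin s → ℂ × ℂ := fun j =>
      (∑ i, (e j i : ℂ) * traceK M.frob (p j i).pr.1 (p j i).ε Y₀,
        ∑ i, (e j i : ℂ) * traceP M.idx (p j i).pr.2 (p j i).r Z₀) with hw
    have hwZ : LinearIndependent ℤ w := by
      rw [Fintype.linearIndependent_iff]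
      intro m hm
      have h1 := congrArg Prod.fst hm
      have h2 := congrArg Prod.snd hm
      rw [Prod.fst_sum, Prod.fst_zero] at h1
      rw [Prod.snd_sum, Prod.snd_zero] at h2
      have h3 := hfree m (fun Y hY => by
        obtain ⟨c', hc'⟩ := hYg Y hY
        have h4 := congrArg c' h1
        rw [map_sum, map_zero] at h4
        rw [← h4, ← hc']
        refine Finset.sum_congr rfl fun j _ => ?_
        rw [Prod.smul_fst, map_zsmul, map_sum, zsmul_eq_mul]
        congr 1
        refine Finset.sum_congr rfl fun i _ => ?_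
        rw [traceK_functional, ← zsmul_eq_mul, ← zsmul_eq_mul, map_zsmul]) (fun Z hZ => by
        obtain ⟨c', hc'⟩ := hZg Z hZ
        have h4 := congrArg c' h2
        rw [map_sum, map_zero] at h4
        rw [← h4, ← hc']
        refine Finset.sum_congr rfl fun j _ => ?_
        rw [Prod.smul_snd, map_zsmul, map_sum, zsmul_eq_mul]
        congr 1
        refine Finset.sum_congr rfl fun i _ => ?_
        rw [traceP_functional, ← zsmul_eq_mul, ← zsmul_eq_mul, map_zsmul])
      exact fun i => congrFun h3 i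
    have hwQ : LinearIndependent ℚ w := (LinearIndependent.iff_fractionRing ℤ ℚ).mp hwZ
    funext j₀
    obtain ⟨ψ, hψ⟩ := exists_functional hwQ (fun j => if j = j₀ then (1 : ℂ) else 0)
    let φ1 : ℂ →+ ℂ := ψ.toAddMonoidHom.comp (AddMonoidHom.inl ℂ ℂ)
    let φ2 : ℂ →+ ℂ := (AddMonoidHom.mulLeft (2⁻¹ : ℂ)).comp
      (ψ.toAddMonoidHom.comp (AddMonoidHom.inr ℂ ℂ))
    obtain ⟨Y, hY, hYt⟩ := exists_repK S M.frob_sq hY₀ φ1
    obtain ⟨Z, hZ, hZt⟩ := exists_repP S hZ₀ φ2
    have hfj : ∀ j, f j (Y, Z) = ψ (w j) := by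
      intro j
      have h1 : w j = ((w j).1, (0 : ℂ)) + ((0 : ℂ), (w j).2) := by
        rw [Prod.mk_add_mk, add_zero, zero_add]
      rw [h1, map_add, hf]
      have h2 : ψ ((w j).1, (0 : ℂ)) = φ1 (w j).1 := rfl
      have h3 : ψ ((0 : ℂ), (w j).2) = 2 * φ2 (w j).2 := by
        show _ = 2 * (2⁻¹ * ψ ((0 : ℂ), (w j).2))
        rw [mul_inv_cancel_left₀ two_ne_zero]
      rw [h2, h3]
      simp only [hw]
      rw [map_sum, map_sum, Finset.mul_sum, ← Finset.sum_add_distrib]
      refine Finset.sum_congr rfl fun i _ => ?_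
      obtain ⟨hp1, hp2, hp3, -⟩ := hu j i
      have hm := hS _ _ _ _ hp1
      rw [hYt _ _ _ _ hp1 hp2 hm.2.1 _ hp3, hZt _ _ _ _ hp1 (hS2 _ _ _ _ hp1 hp2) hm.2.2.2,
        ← zsmul_eq_mul, ← zsmul_eq_mul, ← zsmul_eq_mul, map_zsmul, map_zsmul, zsmul_eq_mul,
        zsmul_eq_mul, zsmul_eq_mul]
      ring
    have h1 := hc Y Z hY hZ
    rw [Finset.sum_eq_single j₀] at h1
    · rw [hfj, hψ, if_pos rfl, mul_one] at h1
      exact h1
    · intro j _ hj
      rw [hfj, hψ, if_neg hj, mul_zero]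
    · intro h2
      exact absurd (Finset.mem_univ j₀) h2
  -- the space of pairs
  let KP : Submodule ℂ (Matrix n n ℂ × Matrix n n ℂ) :=
    { carrier := {v | (∀ (k : ℕ) (a b : Fin k → ℕ), InK M.wt M.frob (S k a b) v.1) ∧
        ∀ (k : ℕ) (a b : Fin k → ℕ), InP M.wt M.idx (S k a b) v.2}
      zero_mem' := ⟨fun _ _ _ => inK_zero, fun _ _ _ => inP_zero⟩
      add_mem' := fun {v w} hv hw => ⟨fun k a b => by
          have h1 := InK.comb (P := ℂ) Finset.univ (fun _ : Bool => (1 : ℂ))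
            (fun i => if i then v.1 else w.1) (fun i _ => by
              cases i
              · exact hw.1 k a b
              · exact hv.1 k a b)
          simpa using h1, fun k a b => by
          have h1 := InP.comb (P := ℂ) Finset.univ (fun _ : Bool => (1 : ℂ))
            (fun i => if i then v.2 else w.2) (fun i _ => by
              cases i
              · exact hw.2 k a b
              · exact hv.2 k a b)
          simpa using h1⟩
      smul_mem' := fun c v hv => ⟨fun k a b => by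
          have h1 := InK.comb (P := ℂ) Finset.univ (fun _ : Unit => c) (fun _ => v.1)
            (fun _ _ => hv.1 k a b)
          simpa using h1, fun k a b => by
          have h1 := InP.comb (P := ℂ) Finset.univ (fun _ : Unit => c) (fun _ => v.2)
            (fun _ _ => hv.2 k a b)
          simpa using h1⟩ }
  let Φ : KP →ₗ[ℂ] Matrix n n ℂ :=
    ((LinearMap.fst ℂ (Matrix n n ℂ) (Matrix n n ℂ)) +
      ((LinearMap.mulLeft ℂ y).comp (LinearMap.mulRight ℂ x)).comp
        (LinearMap.snd ℂ (Matrix n n ℂ) (Matrix n n ℂ))).comp KP.subtype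
  have hΦ : ∀ v : KP, Φ v = (v : Matrix n n ℂ × Matrix n n ℂ).1 +
      y * (v : Matrix n n ℂ × Matrix n n ℂ).2 * x := fun v => by
    show _ + y * (_ * x) = _
    rw [← Matrix.mul_assoc]
    rfl
  have hvan : ∀ j, ∀ v ∈ LinearMap.ker Φ, (f j).domRestrict KP v = 0 := by
    rintro j ⟨⟨Y, Z⟩, hY, hZ⟩ hv
    rw [LinearMap.mem_ker, hΦ] at hv
    show f j (Y, Z) = 0
    rw [hf]
    refine Finset.sum_eq_zero fun i _ => ?_
    obtain ⟨hp1, hp2, hp3, hp4⟩ := hu j i
    rw [rel_zero M (fun s hs => hS _ _ _ s hs) hp1 hp2 (hS2 _ _ _ _ hp1 hp2) hp3 hp4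
      (((u j i).isUnit.map (algebraMap R ℂ)).ne_zero) (hY _ _ _) (hZ _ _ _) hv, mul_zero]
  have hg : ∀ j, ∃ g : Module.Dual ℂ (Matrix n n ℂ), ∀ v, g (Φ v) = (f j).domRestrict KP v := by
    intro j
    have h1 : (f j).domRestrict KP ∈ LinearMap.range Φ.dualMap := by
      rw [LinearMap.range_dualMap_eq_dualAnnihilator_ker, Submodule.mem_dualAnnihilator]
      exact hvan j
    obtain ⟨g, hg⟩ := h1
    exact ⟨g, fun v => LinearMap.congr_fun hg v⟩
  choose g hg using hg
  set G₀ := LinearMap.range Φ with hG₀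
  -- the brackets
  have hbr : M.brF S (algebraMap R ℂ) ≤ G₀ ∧
      ∀ j, ∀ X ∈ M.brF S (algebraMap R ℂ), g j X = 0 := by
    have hgen : ∀ X ∈ ({X | ∃ Y Y' : Matrix n n E,
        (∀ (k : ℕ) (a b : Fin k → ℕ), InK M.wt M.frob (S k a b) Y) ∧
        (∀ (k : ℕ) (a b : Fin k → ℕ), InK M.wt M.frob (S k a b) Y') ∧
        X = (Y * Y' - Y' * Y).map ((algebraMap R ℂ).comp (algebraMap E R))} ∪
      {X | ∃ Z Z' : Matrix n n E,
        (∀ (k : ℕ) (a b : Fin k → ℕ), InP M.wt M.idx (S k a b) Z) ∧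
        (∀ (k : ℕ) (a b : Fin k → ℕ), InP M.wt M.idx (S k a b) Z') ∧
        X = M.comp⁻¹.map (algebraMap R ℂ) *
          (Z * Z' - Z' * Z).map ((algebraMap R ℂ).comp (algebraMap E R)) *
          M.comp.map (algebraMap R ℂ)} : Set (Matrix n n ℂ)),
        ∃ v : KP, X = Φ v ∧ ∀ j, (f j).domRestrict KP v = 0 := by
      have hcomp : (algebraMap R ℂ).comp (algebraMap E R) = algebraMap E ℂ :=
        (IsScalarTower.algebraMap_eq E R ℂ).symm
      rintro X (⟨Y, Y', hY, hY', rfl⟩ | ⟨Z, Z', hZ, hZ', rfl⟩)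
      · rw [hcomp]
        refine ⟨⟨((Y * Y' - Y' * Y).map (algebraMap E ℂ), 0),
          fun k a b => ((hY k a b).bracket (hY' k a b)).base, fun _ _ _ => inP_zero⟩, ?_, ?_⟩
        · rw [hΦ]
          simp
        · intro j
          show f j (_, _) = 0
          rw [hf]
          refine Finset.sum_eq_zero fun i _ => ?_
          obtain ⟨hp1, hp2, hp3, -⟩ := hu j i
          have hm := hS _ _ _ _ hp1
          rw [traceK_base, traceK_bracket M.frob_sq hp1 hp2 hm.2.1 hp3 (hY _ _ _) (hY' _ _ _),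
            traceP_zero, map_zero]
          simp
      · rw [hcomp]
        refine ⟨⟨(0, (Z * Z' - Z' * Z).map (algebraMap E ℂ)),
          fun _ _ _ => inK_zero, fun k a b => ((hZ k a b).bracket (hZ' k a b)).base⟩, ?_, ?_⟩
        · rw [hΦ]
          dsimp only
          rw [zero_add]
        · intro j
          show f j (_, _) = 0
          rw [hf]
          refine Finset.sum_eq_zero fun i _ => ?_
          obtain ⟨hp1, hp2, hp3, -⟩ := hu j i
          have hm := hS _ _ _ _ hp1
          rw [traceP_base, traceP_bracket hp1 (hS2 _ _ _ _ hp1 hp2) hm.2.2.2 _ (hZ _ _ _)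
            (hZ' _ _ _), traceK_zero, map_zero]
          simp
    constructor
    · refine Submodule.span_le.mpr fun X hX => ?_
      obtain ⟨v, rfl, -⟩ := hgen X hX
      exact ⟨v, rfl⟩
    · intro j X hX
      induction hX using Submodule.span_induction with
      | mem X hX =>
        obtain ⟨v, rfl, hv⟩ := hgen X hX
        rw [hg, hv]
      | zero => exact map_zero _
      | add X Y _ _ h1 h2 => rw [map_add, h1, h2, add_zero]
      | smul c X _ h1 => rw [map_smul, h1, smul_zero]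
  obtain ⟨hble, hbv⟩ := hbr
  set bb := (M.brF S (algebraMap R ℂ)).comap G₀.subtype with hbb
  let h : Fin s → Module.Dual ℂ (G₀ ⧸ bb) := fun j =>
    bb.liftQ ((g j).comp G₀.subtype) fun X hX => hbv j _ hX
  have hli : LinearIndependent ℂ h := by
    rw [Fintype.linearIndependent_iff]
    intro c hc
    have h1 := hind c (fun Y Z hY hZ => by
      let v : KP := ⟨(Y, Z), hY, hZ⟩
      have h2 := LinearMap.congr_fun hc (bb.mkQ ⟨Φ v, ⟨v, rfl⟩⟩)
      rw [LinearMap.sum_apply] at h2
      rw [LinearMap.zero_apply] at h2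
      rw [← h2]
      refine Finset.sum_congr rfl fun j _ => ?_
      rw [LinearMap.smul_apply, smul_eq_mul]
      congr 1
      show f j (Y, Z) = g j (Φ v)
      rw [hg]
      rfl)
    exact fun i => congrFun h1 i
  have h1 : s ≤ Module.finrank ℂ (G₀ ⧸ bb) := by
    have h2 := hli.fintype_card_le_finrank
    rw [Fintype.card_fin, Subspace.dual_finrank_eq] at h2
    exact h2
  have h2 : Module.finrank ℂ (G₀ ⧸ bb) + Module.finrank ℂ bb = Module.finrank ℂ G₀ :=
    Submodule.finrank_quotient_add_finrank bb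
  have h3 : Module.finrank ℂ bb = Module.finrank ℂ (M.brF S (algebraMap R ℂ)) :=
    (Submodule.comapSubtypeEquivOfLe hble).finrank_eq
  have h4 : Module.finrank ℂ G₀ ≤ Module.finrank E (lieF M.wt S) := by
    let bL := Module.finBasis E (lieF M.wt S)
    obtain ⟨c, hc⟩ := exists_coords (lieF M.wt S) bL
    have h5 : G₀ ≤ Submodule.span ℂ (Set.range fun i =>
        (bL i : Matrix n n E).map (algebraMap E ℂ)) := by
      rintro X ⟨⟨⟨Y, Z⟩, hY, hZ⟩, rfl⟩
      rw [hΦ]
      dsimp only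
      have h6 : ∀ φ : ℂ →ₗ[E] E, (Y + y * Z * x).map φ ∈ lieF M.wt S := by
        intro φ
        unfold lieF
        simp only [Submodule.mem_iInf]
        intro k a b
        have hpt : IsPt M.wt (S k a b) x y := (isPt_comp M (hS k a b)).map
        exact ((hY k a b).1.add (InLie.conj hpt (hZ k a b).1)).functional φ
      rw [hc ℂ _ h6]
      exact sum_mem fun i _ => Submodule.smul_mem _ _ (Submodule.subset_span ⟨i, rfl⟩)
    refine (Submodule.finrank_mono h5).trans ?_
    have h7 := finrank_range_le_card (R := ℂ)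
      (b := fun i : Fin (Module.finrank E (lieF M.wt S)) =>
        (bL i : Matrix n n E).map (algebraMap E ℂ))
    rw [Fintype.card_fin] at h7
    exact h7
  omega

/-- The bound for the rank, for any embedding. -/
theorem rank_bound_hom [Countable E] (hS : ∀ k a b, ∀ s ∈ S k a b, M.IsMor s.1 s.2)
    (hS2 : ∀ k a b, ∀ s ∈ S k a b, s.1 * s.1 = s.1 → s.2 * s.2 = s.2) {s : ℕ}
    {I : Fin s → Type} [∀ j, Fintype (I j)] {p : ∀ j, I j → Summand n E} {e : ∀ j, I j → ℤ}
    {u : ∀ j, I j → Rˣ} (hu : ∀ j i, M.IsPer S (p j i) (u j i : R))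
    (hfree : ∀ m : Fin s → ℤ,
        (∀ Y : Matrix n n E, (∀ (k : ℕ) (a b : Fin k → ℕ), InK M.wt M.frob (S k a b) Y) →
          ∑ j, (m j : E) * ∑ i, (e j i : E) * traceK M.frob (p j i).pr.1 (p j i).ε Y = 0) →
        (∀ Z : Matrix n n E, (∀ (k : ℕ) (a b : Fin k → ℕ), InP M.wt M.idx (S k a b) Z) →
          ∑ j, (m j : E) * ∑ i, (e j i : E) * traceP M.idx (p j i).pr.2 (p j i).r Z = 0) →
        m = 0) (τ : R →+* ℂ) :
    s + Module.finrank ℂ (M.brF S τ) ≤ Module.finrank E (lieF M.wt S) := by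
  let _ : Algebra R ℂ := τ.toAlgebra
  let _ : Algebra E ℂ := (τ.comp (algebraMap E R)).toAlgebra
  have _ : IsScalarTower E R ℂ := IsScalarTower.of_algebraMap_eq' rfl
  exact rank_bound hS hS2 hu hfree

end rank

end Pool.Agent.MP100fe7G
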