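import Pool.Agent.Lib.MP_100fe7_nt.G8Fam
import Pool.Agent.Lib.MP_100fe7_nt.G8Rk

/-!
Multiplicative relations between the Deligne periods of the summands of all tensor constructions:
assembly.
-/

set_option linter.unusedSectionVars false

namespace Pool.Agent.MP100fe7G

open Matrix MvPolynomial TensorProduct

/-- Reduction to one tensor construction. -/
theorem fam_reduce {E R : Type} [Field E] [CommRing R] [Algebra E R] {n : Type} [Fintype n]
    [DecidableEq n] (M : Datum E R n) (S : Fam n E) (hS : ∀ k a b, ∀ s ∈ S k a b, M.IsMor s.1 s.2)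
    {I : Type} [Fintype I] (p : I → Summand n E) (m : I → ℤ) (u : I → R)
    (h : ∀ i, M.IsPer S (p i) (u i)) :
    ∃ (J : Type) (_ : Fintype J) (_ : DecidableEq J) (a b : J → ℕ)
      (S' : Set (TMat n a b E × TMat n a b E)) (N : I → TMat n a b E × TMat n a b E),
      (∀ s ∈ S', M.IsMor s.1 s.2) ∧ (∀ i, N i ∈ S') ∧ (∀ i, (N i).1 * (N i).1 = (N i).1) ∧
      (∀ i, M.IsPeriod (N i).1 (N i).2 (p i).ε (p i).r (u i)) ∧
      (M.Crit S' N (fun i => (p i).ε) (fun i => (p i).r) m ↔ M.CritF S p m) ∧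
      (∀ τ, group M.wt S' τ = groupF M.wt S τ) ∧ lieB M.wt S' = lieF M.wt S := by
  classical
  obtain ⟨F, hne, hmem, hK, hP, hL, hG⟩ := exists_cons M.wt M.idx M.frob S I p
  let FT : Type := {x : Cons // x ∈ F}
  have hneT : Nonempty FT := by
    obtain ⟨x, hx⟩ := hne
    exact ⟨⟨x, hx⟩⟩
  let kk : FT → ℕ := fun x => x.1.1
  let aa : ∀ x : FT, Fin (kk x) → ℕ := fun x => x.1.2.1
  let bb : ∀ x : FT, Fin (kk x) → ℕ := fun x => x.1.2.2
  let SS : ∀ x : FT, Set (TMat n (aa x) (bb x) E × TMat n (aa x) (bb x) E) :=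
    fun x => S x.1.1 x.1.2.1 x.1.2.2
  let xx : I → FT := fun i => ⟨⟨(p i).k, (p i).a, (p i).b⟩, hmem i⟩
  have h1 : ∀ i, ∃ N : TMat n (cA aa) (cA bb) E × TMat n (cA aa) (cA bb) E,
      N ∈ sumS aa bb SS ∧ N.1 * N.1 = N.1 ∧ M.IsPeriod N.1 N.2 (p i).ε (p i).r (u i) ∧
      (∀ Y : Matrix n n E, traceK M.frob N.1 (p i).ε Y =
        traceK M.frob (p i).pr.1 (p i).ε Y) ∧
      ∀ Z : Matrix n n E, traceP M.idx N.2 (p i).r Z = traceP M.idx (p i).pr.2 (p i).r Z := by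
    intro i
    obtain ⟨h2, h3, h4, h5⟩ := h i
    refine ⟨(ext aa bb (xx i) (p i).pr.1, ext aa bb (xx i) (p i).pr.2),
      ⟨xx i, (p i).pr, h2, rfl⟩, ?_, isPeriod_ext M (xx i) h5, fun Y => traceK_ext (xx i) _ _ Y,
      fun Z => traceP_ext (xx i) _ _ Z⟩
    show ext aa bb (xx i) (p i).pr.1 * ext aa bb (xx i) (p i).pr.1 = _
    rw [ext_mul]
    exact congrArg _ h3
  choose N hN hid hper htK htP using h1
  refine ⟨Σ x : FT, Fin (kk x), inferInstance, inferInstance, cA aa, cA bb, sumS aa bb SS, N,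
    isMor_sum M fun x s hs => hS _ _ _ s hs, hN, hid, hper, ?_, ?_, ?_⟩
  · have hK' : ∀ Y : Matrix n n E, InK M.wt M.frob (sumS aa bb SS) Y ↔
        ∀ (k : ℕ) (a b : Fin k → ℕ), InK M.wt M.frob (S k a b) Y := by
      intro Y
      rw [inK_sum]
      exact ⟨fun h => hK Y fun x hx => h ⟨x, hx⟩, fun h x => h _ _ _⟩
    have hP' : ∀ Z : Matrix n n E, InP M.wt M.idx (sumS aa bb SS) Z ↔
        ∀ (k : ℕ) (a b : Fin k → ℕ), InP M.wt M.idx (S k a b) Z := by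
      intro Z
      rw [inP_sum]
      exact ⟨fun h => hP Z fun x hx => h ⟨x, hx⟩, fun h x => h _ _ _⟩
    constructor
    · rintro ⟨h2, h3⟩
      refine ⟨fun Y hY => ?_, fun Z hZ => ?_⟩
      · have h4 := h2 Y ((hK' Y).mpr hY)
        simp only [htK] at h4
        exact h4
      · have h4 := h3 Z ((hP' Z).mpr hZ)
        simp only [htP] at h4
        exact h4
    · rintro ⟨h2, h3⟩
      refine ⟨fun Y hY => ?_, fun Z hZ => ?_⟩
      · have h4 := h2 Y ((hK' Y).mp hY)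
        simp only [htK]
        exact h4
      · have h4 := h3 Z ((hP' Z).mp hZ)
        simp only [htP]
        exact h4
  · intro τ
    ext g
    rw [group_sum]
    exact ⟨fun h => hG τ g fun x hx => h ⟨x, hx⟩, fun h x => h _ _ _⟩
  · ext X
    have h2 : X ∈ lieB M.wt (sumS aa bb SS) ↔ ∀ x : FT, X ∈ lieB M.wt (SS x) := inLieB_sum X
    rw [h2]
    unfold lieF
    simp only [Submodule.mem_iInf]
    exact ⟨fun h => hL X fun x hx => h ⟨x, hx⟩, fun h x => h _ _ _⟩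

section main

variable {E : Type} [Field E] [NumberField E] {n : Type} [Fintype n] [DecidableEq n]
  (M : Datum E (E ⊗[ℚ] ℂ) n) (S : Fam n E) {I : Type} [Fintype I] {p : I → Summand n E}
  {m : I → ℤ} {u : I → (E ⊗[ℚ] ℂ)ˣ}

theorem fam_algebraic (hS : ∀ k a b, ∀ s ∈ S k a b, M.IsMor s.1 s.2)
    (h : ∀ i, M.IsPer S (p i) (u i : E ⊗[ℚ] ℂ)) (hcrit : M.CritF S p m) :
    IsAlgebraic ℚ ((∏ i, u i ^ m i : (E ⊗[ℚ] ℂ)ˣ) : E ⊗[ℚ] ℂ) := by
  obtain ⟨J, _, _, a, b, S', N, h1, h2, h3, h4, h5, -, -⟩ :=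
    fam_reduce M S hS p m (fun i => (u i : E ⊗[ℚ] ℂ)) h
  exact algebraic_of_crit M h1 h2 h3 (fun i => (h i).2.2.1) h4 (h5.mpr hcrit)

theorem fam_degree (hS : ∀ k a b, ∀ s ∈ S k a b, M.IsMor s.1 s.2)
    (h : ∀ i, M.IsPer S (p i) (u i : E ⊗[ℚ] ℂ)) (hcrit : M.CritF S p m) (c : ℕ)
    (τ : (E ⊗[ℚ] ℂ) →+* ℂ)
    (hc : CompLe c (groupF M.wt S (τ.comp (algebraMap E (E ⊗[ℚ] ℂ))))) :
    ∃ q : Polynomial E, q ≠ 0 ∧ q.natDegree ≤ c ∧
      Polynomial.aeval ((∏ i, u i ^ m i : (E ⊗[ℚ] ℂ)ˣ) : E ⊗[ℚ] ℂ) q = 0 := by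
  obtain ⟨J, _, _, a, b, S', N, h1, h2, h3, h4, h5, h6, -⟩ :=
    fam_reduce M S hS p m (fun i => (u i : E ⊗[ℚ] ℂ)) h
  exact degree_of_crit M h1 h2 h3 (fun i => (h i).2.2.1) h4 (h5.mpr hcrit) τ c
    (by rw [h6]; exact hc)

theorem fam_crit (hS : ∀ k a b, ∀ s ∈ S k a b, M.IsMor s.1 s.2)
    (h : ∀ i, M.IsPer S (p i) (u i : E ⊗[ℚ] ℂ)) (τ : (E ⊗[ℚ] ℂ) →+* ℂ)
    (htr : Algebra.trdeg ℚ (IntermediateField.adjoin ℚ
      (Set.range (τ.comp (algebraMap E (E ⊗[ℚ] ℂ))) ∪ {z | ∃ i j, z = τ (M.comp i j)})) =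
        Module.finrank E (lieF M.wt S))
    (halg : IsAlgebraic ℚ ((∏ i, u i ^ m i : (E ⊗[ℚ] ℂ)ˣ) : E ⊗[ℚ] ℂ)) : M.CritF S p m := by
  obtain ⟨J, _, _, a, b, S', N, h1, h2, h3, h4, h5, -, h7⟩ :=
    fam_reduce M S hS p m (fun i => (u i : E ⊗[ℚ] ℂ)) h
  exact h5.mp (crit_of_algebraic M h1 h2 h3 (fun i => (h i).2.2.1) h4 τ (by rw [h7]; exact htr)
    halg)

/-- A unit which is a root of a nonzero polynomial of degree at most one is in the base field. -/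
theorem unit_of_linear {R : Type} [CommRing R] [Nontrivial R] [Algebra E R] {x : Rˣ}
    {q : Polynomial E} (hq : q ≠ 0) (hd : q.natDegree ≤ 1)
    (h : Polynomial.aeval (x : R) q = 0) :
    ∃ e : Eˣ, x = Units.map (algebraMap E R).toMonoidHom e := by
  obtain ⟨a, b, rfl⟩ := Polynomial.exists_eq_X_add_C_of_natDegree_le_one hd
  rw [map_add, map_mul, Polynomial.aeval_C, Polynomial.aeval_C, Polynomial.aeval_X] at h
  have ha : a ≠ 0 := by
    rintro rfl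
    rw [map_zero, zero_mul, zero_add] at h
    have hb : b = 0 := (map_eq_zero_iff _ (algebraMap E R).injective).mp h
    rw [hb] at hq
    simp at hq
  have hx : (x : R) = algebraMap E R (-b / a) := by
    have h1 : algebraMap E R a * (x : R) = algebraMap E R a * algebraMap E R (-b / a) := by
      rw [← map_mul, mul_div_cancel₀ _ ha, map_neg]
      exact eq_neg_of_add_eq_zero_left h
    exact ((IsUnit.mk0 a ha).map (algebraMap E R)).mul_left_cancel h1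
  have hne : -b / a ≠ 0 := by
    intro h0
    rw [h0, map_zero] at hx
    exact x.ne_zero hx
  exact ⟨Units.mk0 _ hne, Units.ext hx⟩

/-- The products which satisfy the criterion. -/
theorem fam_small (hS : ∀ k a b, ∀ s ∈ S k a b, M.IsMor s.1 s.2)
    (h : ∀ i, M.IsPer S (p i) (u i : E ⊗[ℚ] ℂ)) (hcrit : M.CritF S p m) :
    M.SmallAlg S (∏ i, u i ^ m i) := by
  refine ⟨fam_algebraic M S hS h hcrit, fun c ⟨τ, hτ⟩ => ?_⟩
  have h1 := fam_degree M S hS h hcrit c τ hτ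
  refine ⟨h1, fun hc => ?_⟩
  have _ : Nontrivial (E ⊗[ℚ] ℂ) := RingHom.domain_nontrivial τ
  subst hc
  obtain ⟨q, hq, hd, hx⟩ := h1
  exact unit_of_linear hq hd hx

/-- The group of all periods is finitely generated modulo algebraic elements. -/
theorem fam_generated (hS : ∀ k a b, ∀ s ∈ S k a b, M.IsMor s.1 s.2) :
    ∃ (s : ℕ) (v : Fin s → (E ⊗[ℚ] ℂ)ˣ), s ≤ 2 * Fintype.card n ∧
      (∀ τ : (E ⊗[ℚ] ℂ) →+* ℂ,
        s + Module.finrank ℂ (M.brF S τ) ≤ Module.finrank E (lieF M.wt S)) ∧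
      (∀ i, v i ∈ M.perGroup S) ∧
      (∀ u ∈ M.perGroup S, ∃ m : Fin s → ℤ, M.SmallAlg S (u * ∏ i, v i ^ m i)) ∧
      (M.TrMax S → ∀ m : Fin s → ℤ,
        IsAlgebraic ℚ ((∏ i, v i ^ m i : (E ⊗[ℚ] ℂ)ˣ) : E ⊗[ℚ] ℂ) → m = 0) := by
  obtain ⟨I', _, φ, hφ⟩ := exists_homs_fin E
  have hI' : Nonempty I' := by
    by_contra h0
    rw [not_nonempty_iff] at h0
    exact one_ne_zero (hφ (1 : E ⊗[ℚ] ℂ) 0 fun i => h0.elim i)
  obtain ⟨i₀⟩ := hI'
  let _ : Algebra E ℂ := ((φ i₀).comp (algebraMap E (E ⊗[ℚ] ℂ))).toAlgebra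
  have hcount : Countable E := (Module.finBasis ℚ E).equivFun.toEquiv.injective.countable
  obtain ⟨s, v, I, _, p, e, u, h1, h2, h3, h4, h5, h6⟩ := finite_generation M S hS
    (fun k a b t ht hid => idem_dR M (hS k a b t ht) hid) (fun x => M.SmallAlg S x)
    (fun I _ p m u hu hcrit => fam_small M S hS hu hcrit)
  refine ⟨s, v, h1, fun τ => ?_, h2, h5, fun ⟨τ, hτ⟩ m hm => ?_⟩
  · have _ : Nontrivial (E ⊗[ℚ] ℂ) := RingHom.domain_nontrivial τ
    exact rank_bound_hom hS (fun k a b t ht hid => idem_dR M (hS k a b t ht) hid) h3 h6 τ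
  · let p' : (Σ j, I j) → Summand n E := fun x => p x.1 x.2
    let u' : (Σ j, I j) → (E ⊗[ℚ] ℂ)ˣ := fun x => u x.1 x.2
    let m' : (Σ j, I j) → ℤ := fun x => e x.1 x.2 * m x.1
    have h7 : ∏ j, v j ^ m j = ∏ x, u' x ^ m' x := by
      rw [Fintype.prod_sigma]
      refine Finset.prod_congr rfl fun j _ => ?_
      rw [h4, ← Finset.prod_zpow]
      refine Finset.prod_congr rfl fun i _ => ?_
      exact (_root_.zpow_mul _ _ _).symm
    rw [h7] at hm
    have h8 := fam_crit M S hS (p := p') (m := m') (u := u') (fun x => h3 x.1 x.2) τ hτ hm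
    refine h6 m (fun Y hY => ?_) (fun Z hZ => ?_)
    · rw [← h8.1 Y hY, Fintype.sum_sigma]
      refine Finset.sum_congr rfl fun j _ => ?_
      rw [Finset.mul_sum]
      refine Finset.sum_congr rfl fun i _ => ?_
      show _ = ((e j i * m j : ℤ) : E) * _
      push_cast
      ring
    · rw [← h8.2 Z hZ, Fintype.sum_sigma]
      refine Finset.sum_congr rfl fun j _ => ?_
      rw [Finset.mul_sum]
      refine Finset.sum_congr rfl fun i _ => ?_
      show _ = ((e j i * m j : ℤ) : E) * _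
      push_cast
      ring

end main

end Pool.Agent.MP100fe7G
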