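import Pool.Agent.Lib.MP_100fe7_nt.GFinal

/-!
The converse: if the transcendence degree of the field of periods is the dimension of the group, the
criterion is necessary.
-/

set_option linter.unusedSectionVars false

namespace Pool.Agent.MP100fe7G

open Matrix MvPolynomial TensorProduct

section base

variable {E : Type} [Field E] {n J : Type} [Fintype n] [DecidableEq n] [Fintype J]
  [DecidableEq J] {a b : J → ℕ} {wt idx : n → ℤ} {frob : Matrix n n E}
  {S : Set (TMat n a b E × TMat n a b E)} {L : Type} [CommRing L] [Algebra E L]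

theorem InLie.base {S : Set (TMat n a b E)} {X : Matrix n n E} (hX : InLie wt S X) :
    InLie wt S (X.map (algebraMap E L)) := by
  refine ⟨fun i j hij => by rw [map_apply, hX.1 i j hij, map_zero], fun s hs => ?_⟩
  have h1 := congrArg (fun X => X.map (algebraMap E L)) (hX.2 s hs)
  rw [lie_map]
  simpa only [Matrix.map_mul, map_id_alg] using h1

theorem InK.base {Y : Matrix n n E} (hY : InK wt frob S Y) :
    InK wt frob S (Y.map (algebraMap E L)) := by
  refine ⟨hY.1.base, ?_⟩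
  have h1 := congrArg (fun X => X.map (algebraMap E L)) hY.2
  simpa only [Matrix.map_mul, map_id_alg] using h1

theorem InP.base {Z : Matrix n n E} (hZ : InP wt idx S Z) :
    InP wt idx S (Z.map (algebraMap E L)) :=
  ⟨hZ.1.base, fun i j hij => by rw [map_apply, hZ.2 i j hij, map_zero]⟩

theorem inK_zero : InK wt frob S (0 : Matrix n n L) :=
  ⟨⟨fun _ _ _ => rfl, fun s _ => by rw [lie_zero, zero_mul, mul_zero]⟩, by
    rw [zero_mul, mul_zero]⟩

theorem inP_zero : InP wt idx S (0 : Matrix n n L) :=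
  ⟨⟨fun _ _ _ => rfl, fun s _ => by rw [lie_zero, zero_mul, mul_zero]⟩, fun _ _ _ => rfl⟩

theorem traceK_base (e : TMat n a b E) (ε : ℤ) (Y : Matrix n n E) :
    traceK frob e ε (Y.map (algebraMap E L)) = algebraMap E L (traceK frob e ε Y) := by
  unfold traceK
  rw [lie_map, map_id_alg, ← Matrix.map_mul, Matrix.trace, Matrix.trace, map_sum]
  rfl

theorem traceP_base (f : TMat n a b E) (r : ℤ) (Z : Matrix n n E) :
    traceP idx f r (Z.map (algebraMap E L)) = algebraMap E L (traceP idx f r Z) := by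
  unfold traceP
  rw [lie_map, map_id_alg, ← Matrix.map_mul, map_sum]
  rfl

theorem traceK_zero (e : TMat n a b E) (ε : ℤ) : traceK frob e ε (0 : Matrix n n L) = 0 := by
  unfold traceK
  rw [lie_zero, zero_mul, Matrix.trace_zero]

theorem traceP_zero (f : TMat n a b E) (r : ℤ) : traceP idx f r (0 : Matrix n n L) = 0 := by
  unfold traceP
  rw [lie_zero, zero_mul]
  simp

end base

section conv

variable {E : Type} [Field E] [CharZero E] {n J : Type} [Fintype n] [DecidableEq n] [Fintype J]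
  [DecidableEq J] {a b : J → ℕ} {wt idx : n → ℤ} {frob : Matrix n n E}
  {S : Set (TMat n a b E × TMat n a b E)} {I : Type} [Fintype I]
  {N : I → TMat n a b E × TMat n a b E} {ε r m : I → ℤ} {d : I → ℕ}
  {A : ∀ i, Matrix (TIdx n a b) (Fin (d i)) E} {B : ∀ i, Matrix (Fin (d i)) (TIdx n a b) E}
  {C : ∀ i, Matrix (Fin (d i)) (TIdx n a b) E} {C' : ∀ i, Matrix (TIdx n a b) (Fin (d i)) E}

theorem crit_of_surj {L : Type} [Field L] [Algebra E L] {x y : Matrix n n L}
    (hx : IsPt wt S x y) (hF : frob * frob = 1) (hN : ∀ i, N i ∈ S)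
    (hP : ∀ i, PerBasis idx frob (N i).1 (N i).2 (ε i) (r i) (A i) (B i) (C i) (C' i))
    (u : I → Lˣ) (hu : ∀ i, (u i : L) = perVal (A i) (B i) x y)
    (hsurj : ∀ X : Matrix n n L, InLie wt (Prod.fst '' S) X →
      ∃ D : Derivation E L L, y * x.map D = X)
    (hD : ∀ D : Derivation E L L, D ((∏ i, u i ^ m i : Lˣ) : L) = 0) :
    (∀ Y : Matrix n n E, InK wt frob S Y → ∑ i, (m i : E) * traceK frob (N i).1 (ε i) Y = 0) ∧
    ∀ Z : Matrix n n E, InP wt idx S Z → ∑ i, (m i : E) * traceP idx (N i).2 (r i) Z = 0 := by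
  have hid : ∀ z : Matrix n n L, z.map (algebraMap L L) = z := fun z => by
    ext i j
    simp
  have hchar : CharZero L := charZero_of_injective_algebraMap (algebraMap E L).injective
  have key : ∀ Y Z : Matrix n n L, InK wt frob S Y → InP wt idx S Z →
      ∑ i, (m i : L) * (traceK frob (N i).1 (ε i) Y + 2 * traceP idx (N i).2 (r i) Z) = 0 := by
    intro Y Z hY hZ
    obtain ⟨D, hDX⟩ := hsurj (Y + y * Z * x) (hY.1.add (InLie.conj hx hZ.1))
    have h2 : ∀ i, 2 * D (u i : L) = algebraMap L L (u i : L) *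
        (traceK frob (N i).1 (ε i) Y + 2 * traceP idx (N i).2 (r i) Z) := by
      intro i
      rw [hu i]
      apply period_der hx hF D (hN i) (hP i) hY hZ
      rw [hid, hid]
      exact hDX
    have h3 := der_prod D u m _ h2
    rw [hD D, mul_zero] at h3
    rcases mul_eq_zero.mp h3.symm with h4 | h4
    · exact absurd h4 ((∏ i, u i ^ m i : Lˣ).isUnit.map (algebraMap L L)).ne_zero
    · exact h4
  constructor
  · intro Y hY
    have h1 := key _ 0 (hY.base (L := L)) inP_zero
    simp only [traceP_zero, traceK_base, mul_zero, add_zero] at h1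
    have h2 : algebraMap E L (∑ i, (m i : E) * traceK frob (N i).1 (ε i) Y) = 0 := by
      rw [← h1, map_sum]
      refine Finset.sum_congr rfl fun i _ => ?_
      rw [map_mul, map_intCast]
    exact (map_eq_zero _).mp h2
  · intro Z hZ
    have h1 := key 0 _ inK_zero (hZ.base (L := L))
    simp only [traceK_zero, traceP_base, zero_add] at h1
    have h2 : algebraMap E L (2 * ∑ i, (m i : E) * traceP idx (N i).2 (r i) Z) = 0 := by
      rw [← h1, Finset.mul_sum, map_sum]
      refine Finset.sum_congr rfl fun i _ => ?_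
      rw [map_mul, map_mul, map_intCast, map_ofNat]
      ring
    rcases mul_eq_zero.mp ((map_eq_zero _).mp h2) with h3 | h3
    · exact absurd h3 two_ne_zero
    · exact h3

end conv

/-- A set of generators of a field, seen in the field. -/
theorem gen_top (T : Set ℂ) (T' : Set (IntermediateField.adjoin ℚ T))
    (h : ∀ z ∈ T, ∃ w ∈ T', (w : ℂ) = z) :
    @IntermediateField.adjoin ℚ _ (IntermediateField.adjoin ℚ T) _ DivisionRing.toRatAlgebra T' =
      ⊤ := by
  rw [eq_top_iff]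
  rintro ⟨z, hz⟩ -
  induction hz using IntermediateField.adjoin_induction with
  | mem z hz =>
    obtain ⟨w, hw, rfl⟩ := h z hz
    exact @IntermediateField.subset_adjoin ℚ _ (IntermediateField.adjoin ℚ T) _
      DivisionRing.toRatAlgebra T' _ hw
  | algebraMap q =>
    have h1 := @IntermediateField.algebraMap_mem ℚ (IntermediateField.adjoin ℚ T) _ _
      DivisionRing.toRatAlgebra (@IntermediateField.adjoin ℚ _ (IntermediateField.adjoin ℚ T) _
        DivisionRing.toRatAlgebra T') q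
    convert h1 using 1
    apply Subtype.ext
    simp
  | add x y hx hy h1 h2 => exact add_mem h1 h2
  | inv x hx h1 => exact inv_mem h1
  | mul x y hx hy h1 h2 => exact mul_mem h1 h2

section main

variable {E : Type} [Field E] [NumberField E] {n J : Type} [Fintype n] [DecidableEq n] [Fintype J]
  [DecidableEq J] {a b : J → ℕ} (M : Datum E (E ⊗[ℚ] ℂ) n)
  {S : Set (TMat n a b E × TMat n a b E)} {I : Type} [Fintype I]
  {N : I → TMat n a b E × TMat n a b E} {ε r m : I → ℤ} {u : I → (E ⊗[ℚ] ℂ)ˣ}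

/-- The converse. -/
theorem crit_of_algebraic (hS : ∀ s ∈ S, M.IsMor s.1 s.2) (hN : ∀ i, N i ∈ S)
    (hid : ∀ i, (N i).1 * (N i).1 = (N i).1) (hε : ∀ i, ε i = 0 ∨ ε i = 1 ∨ ε i = -1)
    (hu : ∀ i, M.IsPeriod (N i).1 (N i).2 (ε i) (r i) (u i : E ⊗[ℚ] ℂ))
    (τ : (E ⊗[ℚ] ℂ) →+* ℂ)
    (htr : Algebra.trdeg ℚ (IntermediateField.adjoin ℚ
      (Set.range (τ.comp (algebraMap E (E ⊗[ℚ] ℂ))) ∪ {z | ∃ i j, z = τ (M.comp i j)})) =
        Module.finrank E (lieB M.wt S))
    (halg : IsAlgebraic ℚ ((∏ i, u i ^ m i : (E ⊗[ℚ] ℂ)ˣ) : E ⊗[ℚ] ℂ)) : M.Crit S N ε r m := by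
  obtain ⟨d, A, B, C, C', hP, hval⟩ := exists_bases M hS hN hid hε hu
  set T : Set ℂ := Set.range (τ.comp (algebraMap E (E ⊗[ℚ] ℂ))) ∪
    {z | ∃ i j, z = τ (M.comp i j)} with hT
  set K := IntermediateField.adjoin ℚ T with hK
  let σ : E →+* K := (τ.comp (algebraMap E (E ⊗[ℚ] ℂ))).codRestrict K
    fun e => IntermediateField.subset_adjoin ℚ T (Or.inl ⟨e, rfl⟩)
  let _ : Algebra E K := σ.toAlgebra
  let _ : Algebra (E ⊗[ℚ] ℂ) ℂ := τ.toAlgebra
  let _ : Algebra E ℂ := (τ.comp (algebraMap E (E ⊗[ℚ] ℂ))).toAlgebra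
  have : IsScalarTower E (E ⊗[ℚ] ℂ) ℂ := IsScalarTower.of_algebraMap_eq fun _ => rfl
  have : IsScalarTower E K ℂ := IsScalarTower.of_algebraMap_eq fun _ => rfl
  set xτ := M.comp.map (algebraMap (E ⊗[ℚ] ℂ) ℂ) with hxτ
  set yτ := M.comp⁻¹.map (algebraMap (E ⊗[ℚ] ℂ) ℂ) with hyτ
  have hpt : IsPt M.wt S xτ yτ := (isPt_comp M hS).map
  set x : Matrix n n K := Matrix.of fun i j =>
    ⟨τ (M.comp i j), IntermediateField.subset_adjoin ℚ T (Or.inr ⟨i, j, rfl⟩)⟩ with hx
  have hxmap : x.map (algebraMap K ℂ) = xτ := rfl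
  have hdet : x.det ≠ 0 := by
    intro h
    have h1 : (algebraMap K ℂ) x.det = xτ.det := by
      rw [← hxmap]
      exact RingHom.map_det _ _
    rw [h, map_zero] at h1
    have h2 := congrArg Matrix.det hpt.1
    rw [Matrix.det_mul, ← h1, zero_mul, Matrix.det_one] at h2
    exact zero_ne_one h2
  have hxx : x * x⁻¹ = 1 := Matrix.mul_nonsing_inv x (isUnit_iff_ne_zero.mpr hdet)
  have hymap : x⁻¹.map (algebraMap K ℂ) = yτ := by
    have h1 : xτ * x⁻¹.map (algebraMap K ℂ) = 1 := by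
      rw [← hxmap, ← Matrix.map_mul, hxx, Matrix.map_one _ (map_zero _) (map_one _)]
    calc x⁻¹.map (algebraMap K ℂ) = (yτ * xτ) * x⁻¹.map (algebraMap K ℂ) := by
          rw [hpt.yx, Matrix.one_mul]
      _ = yτ := by rw [Matrix.mul_assoc, h1, Matrix.mul_one]
  have hinj : ∀ {ι κ : Type} (X Y : Matrix ι κ K),
      X.map (algebraMap K ℂ) = Y.map (algebraMap K ℂ) → X = Y := by
    intro ι κ X Y h
    ext i j
    exact congrFun (congrFun h i) j
  have hptK : IsPt M.wt S x x⁻¹ := by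
    refine ⟨hxx, ?_, ?_, ?_⟩
    · intro i j hij
      have h1 := hpt.2.1 i j hij
      rw [← hxmap, map_apply] at h1
      exact (map_eq_zero _).mp h1
    · intro i j hij
      have h1 := hpt.2.2.1 i j hij
      rw [← hymap, map_apply] at h1
      exact (map_eq_zero _).mp h1
    · intro s hs
      apply hinj
      have h1 := hpt.2.2.2 s hs
      rw [Matrix.map_mul, Matrix.map_mul, tens_map, hxmap, hymap, map_map_alg, map_map_alg]
      exact h1
  have hgen : @IntermediateField.adjoin ℚ _ K _ DivisionRing.toRatAlgebra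
      (Set.range (algebraMap E K) ∪ {z | ∃ i j, z = x i j}) = ⊤ := by
    refine gen_top T _ ?_
    rintro z (⟨e, rfl⟩ | ⟨i, j, rfl⟩)
    · exact ⟨_, Or.inl ⟨e, rfl⟩, rfl⟩
    · exact ⟨_, Or.inr ⟨i, j, rfl⟩, rfl⟩
  have hvalK : ∀ i, algebraMap K ℂ (perVal (A i) (B i) x x⁻¹) = τ (u i : E ⊗[ℚ] ℂ) := by
    intro i
    have h4 := perVal_map (IsScalarTower.toAlgHom E K ℂ) (A i) (B i) x x⁻¹
    have h5 := perVal_map (IsScalarTower.toAlgHom E (E ⊗[ℚ] ℂ) ℂ) (A i) (B i) M.comp M.comp⁻¹
    rw [← hval i] at h5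
    have h6 : perVal (A i) (B i) xτ yτ = τ (u i : E ⊗[ℚ] ℂ) := h5
    rw [← h6, ← hxmap, ← hymap]
    exact h4.symm
  have hne : ∀ i, perVal (A i) (B i) x x⁻¹ ≠ 0 := by
    intro i h
    have h1 := hvalK i
    rw [h, map_zero] at h1
    exact ((u i).isUnit.map τ).ne_zero h1.symm
  set v : I → Kˣ := fun i => Units.mk0 _ (hne i) with hv
  have hc : algebraMap K ℂ ((∏ i, v i ^ m i : Kˣ) : K) =
      τ ((∏ i, u i ^ m i : (E ⊗[ℚ] ℂ)ˣ) : E ⊗[ℚ] ℂ) := by
    have h1 : Units.map (algebraMap K ℂ).toMonoidHom (∏ i, v i ^ m i) =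
        Units.map τ.toMonoidHom (∏ i, u i ^ m i) := by
      rw [map_prod, map_prod]
      refine Finset.prod_congr rfl fun i _ => ?_
      rw [map_zpow, map_zpow]
      congr 1
      exact Units.ext (hvalK i)
    exact congrArg Units.val h1
  have halgK : IsAlgebraic ℚ ((∏ i, v i ^ m i : Kˣ) : K) := by
    have h1 : IsAlgebraic ℚ (τ ((∏ i, u i ^ m i : (E ⊗[ℚ] ℂ)ˣ) : E ⊗[ℚ] ℂ)) :=
      halg.algHom τ.toRatAlgHom
    rw [← hc] at h1
    exact (isAlgebraic_algebraMap_iff (algebraMap K ℂ).injective).mp h1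
  refine crit_of_surj hptK M.frob_sq hN hP v (fun i => rfl)
    (fun X hX => surj_of_trdeg hptK hgen htr X hX) ?_
  intro D
  have h1 := der_algebraic (D.restrictScalars ℚ) _ halgK
  exact h1

end main

end Pool.Agent.MP100fe7G
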