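import Pool.Agent.Lib.MP_100fe7_nt.G8Trace
import Pool.Agent.Lib.MP_100fe7_nt.G8Defs
import Pool.Agent.Lib.MP_100fe7_nt.GFinal2

/-!
Generic elements of `𝔨` and `𝔭` over the complex numbers.
-/

set_option linter.unusedSectionVars false

namespace Pool.Agent.MP100fe7G

open Matrix

/-- An uncountable field has a linearly independent family of every finite length over a countable
subfield. -/
theorem exists_indep (E Ω : Type) [Field E] [Field Ω] [Algebra E Ω] [Countable E] [Uncountable Ω]
    (d : ℕ) : ∃ t : Fin d → Ω, LinearIndependent E t := by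
  have h1 : ¬ Module.Finite E Ω := by
    intro h
    let e := (Module.finBasis E Ω).equivFun
    have h2 : Countable Ω := e.toEquiv.injective.countable
    exact not_countable h2
  let b := Module.Basis.ofVectorSpace E Ω
  have h2 : Infinite (Module.Basis.ofVectorSpaceIndex E Ω) := by
    rw [← not_finite_iff_infinite]
    intro h
    exact h1 (Module.Finite.of_basis b)
  let g : ℕ ↪ Module.Basis.ofVectorSpaceIndex E Ω := Infinite.natEmbedding _
  refine ⟨fun i => b (g i), ?_⟩
  exact b.linearIndependent.comp (fun i : Fin d => g i) fun i j hij =>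
    Fin.ext (g.injective hij)

/-- The coordinate functionals of a linearly independent family. -/
theorem exists_dual {E Ω : Type} [Field E] [Field Ω] [Algebra E Ω] {d : ℕ} {t : Fin d → Ω}
    (ht : LinearIndependent E t) (x : Fin d → E) : ∃ c : Ω →ₗ[E] E, ∀ i, c (t i) = x i := by
  obtain ⟨c, hc⟩ := LinearMap.exists_extend ((Module.Basis.span ht).constr E x)
  refine ⟨c, fun i => ?_⟩
  have h1 := LinearMap.congr_fun hc ⟨t i, Submodule.subset_span ⟨i, rfl⟩⟩
  rw [LinearMap.comp_apply, Submodule.subtype_apply] at h1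
  rw [h1]
  have h2 : (⟨t i, Submodule.subset_span ⟨i, rfl⟩⟩ : Submodule.span E (Set.range t)) =
      Module.Basis.span ht i := by
    apply Subtype.ext
    rw [Module.Basis.span_apply]
  rw [h2, Module.Basis.constr_basis]

/-- A generic combination of a basis of `W`. -/
theorem exists_gen {E Ω : Type} [Field E] [Field Ω] [Algebra E Ω] [Countable E] [Uncountable Ω]
    {n : Type} [Fintype n] [DecidableEq n] (W : Submodule E (Matrix n n E)) :
    ∃ (d : ℕ) (y : Fin d → Matrix n n E) (t : Fin d → Ω), (∀ i, y i ∈ W) ∧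
      ∀ x ∈ W, ∃ c : Ω →ₗ[E] E, (∑ i, t i • (y i).map (algebraMap E Ω)).map c = x := by
  let b := Module.finBasis E W
  obtain ⟨t, ht⟩ := exists_indep E Ω (Module.finrank E W)
  refine ⟨Module.finrank E W, fun i => (b i : Matrix n n E), t, fun i => (b i).2, ?_⟩
  intro x hx
  obtain ⟨c, hc⟩ := exists_dual ht (b.repr ⟨x, hx⟩)
  refine ⟨c, ?_⟩
  have h1 := congrArg (fun z : W => (z : Matrix n n E)) (b.sum_repr ⟨x, hx⟩)
  simp only [Submodule.coe_sum, Submodule.coe_smul] at h1
  rw [← h1]
  refine Matrix.ext fun k l => ?_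
  rw [map_apply, Matrix.sum_apply, Matrix.sum_apply, map_sum]
  refine Finset.sum_congr rfl fun i _ => ?_
  rw [Matrix.smul_apply, Matrix.smul_apply, map_apply, smul_eq_mul, smul_eq_mul,
    mul_comm (t i), ← Algebra.smul_def, map_smul, hc, smul_eq_mul, mul_comm]

section

variable {E : Type} [Field E] {n J : Type} [Fintype n] [DecidableEq n] [Fintype J]
  [DecidableEq J] {a b : J → ℕ} {wt idx : n → ℤ} {frob : Matrix n n E} {P : Type} [CommRing P]
  [Algebra E P]

theorem InLie.comb {S : Set (TMat n a b E)} {ι : Type*} (s : Finset ι) (c : ι → P)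
    (X : ι → Matrix n n P) (hX : ∀ i ∈ s, InLie wt S (X i)) :
    InLie wt S (∑ i ∈ s, c i • X i) := by
  refine ⟨fun k l hkl => ?_, fun u hu => ?_⟩
  · rw [Matrix.sum_apply]
    refine Finset.sum_eq_zero fun i hi => ?_
    rw [Matrix.smul_apply, (hX i hi).1 k l hkl, smul_zero]
  · rw [lie_sum, Finset.sum_mul, Finset.mul_sum]
    refine Finset.sum_congr rfl fun i hi => ?_
    rw [lie_smul, Matrix.smul_mul, Matrix.mul_smul, (hX i hi).2 u hu]

theorem InK.comb {S : Set (TMat n a b E × TMat n a b E)} {ι : Type*} (s : Finset ι) (c : ι → P)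
    (X : ι → Matrix n n P) (hX : ∀ i ∈ s, InK wt frob S (X i)) :
    InK wt frob S (∑ i ∈ s, c i • X i) := by
  refine ⟨InLie.comb s c X fun i hi => (hX i hi).1, ?_⟩
  rw [Finset.sum_mul, Finset.mul_sum]
  refine Finset.sum_congr rfl fun i hi => ?_
  rw [Matrix.smul_mul, Matrix.mul_smul, (hX i hi).2]

theorem InP.comb {S : Set (TMat n a b E × TMat n a b E)} {ι : Type*} (s : Finset ι) (c : ι → P)
    (X : ι → Matrix n n P) (hX : ∀ i ∈ s, InP wt idx S (X i)) :
    InP wt idx S (∑ i ∈ s, c i • X i) := by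
  refine ⟨InLie.comb s c X fun i hi => (hX i hi).1, fun k l hkl => ?_⟩
  rw [Matrix.sum_apply]
  refine Finset.sum_eq_zero fun i hi => ?_
  rw [Matrix.smul_apply, (hX i hi).2 k l hkl, smul_zero]

end

section fam

variable {E : Type} [Field E] {n : Type} [Fintype n] [DecidableEq n]

/-- `𝔨` over `E` for a family. -/
def subK (wt : n → ℤ) (frob : Matrix n n E) (S : Fam n E) : Submodule E (Matrix n n E) where
  carrier := {Y | ∀ (k : ℕ) (a b : Fin k → ℕ), InK wt frob (S k a b) Y}
  zero_mem' := fun _ _ _ => inK_zero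
  add_mem' := fun {X Y} hX hY k a b => by
    have h1 := InK.comb (P := E) Finset.univ (fun _ : Bool => (1 : E))
      (fun i => if i then X else Y) (fun i _ => by
        cases i
        · exact hY k a b
        · exact hX k a b)
    simpa using h1
  smul_mem' := fun c X hX k a b => by
    have h1 := InK.comb (P := E) Finset.univ (fun _ : Unit => c) (fun _ => X)
      (fun _ _ => hX k a b)
    simpa using h1

/-- `𝔭` over `E` for a family. -/
def subP (wt idx : n → ℤ) (S : Fam n E) : Submodule E (Matrix n n E) where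
  carrier := {Z | ∀ (k : ℕ) (a b : Fin k → ℕ), InP wt idx (S k a b) Z}
  zero_mem' := fun _ _ _ => inP_zero
  add_mem' := fun {X Y} hX hY k a b => by
    have h1 := InP.comb (P := E) Finset.univ (fun _ : Bool => (1 : E))
      (fun i => if i then X else Y) (fun i _ => by
        cases i
        · exact hY k a b
        · exact hX k a b)
    simpa using h1
  smul_mem' := fun c X hX k a b => by
    have h1 := InP.comb (P := E) Finset.univ (fun _ : Unit => c) (fun _ => X)
      (fun _ _ => hX k a b)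
    simpa using h1

variable {Ω : Type} [Field Ω] [Algebra E Ω] [Countable E] [Uncountable Ω]

/-- A generic element of `𝔨`. -/
theorem exists_genK (wt : n → ℤ) (frob : Matrix n n E) (S : Fam n E) :
    ∃ Y₀ : Matrix n n Ω, (∀ (k : ℕ) (a b : Fin k → ℕ), InK wt frob (S k a b) Y₀) ∧
      ∀ Y : Matrix n n E, (∀ (k : ℕ) (a b : Fin k → ℕ), InK wt frob (S k a b) Y) →
        ∃ c : Ω →ₗ[E] E, Y₀.map c = Y := by
  obtain ⟨d, y, t, hy, h⟩ := exists_gen (Ω := Ω) (subK wt frob S)
  refine ⟨_, fun k a b => ?_, fun Y hY => h Y hY⟩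
  exact InK.comb _ _ _ fun i _ => (hy i k a b).base

/-- A generic element of `𝔭`. -/
theorem exists_genP (wt idx : n → ℤ) (S : Fam n E) :
    ∃ Z₀ : Matrix n n Ω, (∀ (k : ℕ) (a b : Fin k → ℕ), InP wt idx (S k a b) Z₀) ∧
      ∀ Z : Matrix n n E, (∀ (k : ℕ) (a b : Fin k → ℕ), InP wt idx (S k a b) Z) →
        ∃ c : Ω →ₗ[E] E, Z₀.map c = Z := by
  obtain ⟨d, y, t, hy, h⟩ := exists_gen (Ω := Ω) (subP wt idx S)
  refine ⟨_, fun k a b => ?_, fun Y hY => h Y hY⟩
  exact InP.comb _ _ _ fun i _ => (hy i k a b).base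

end fam

end Pool.Agent.MP100fe7G
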