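import Pool.Agent.Lib.MP_100fe7_nt.G8Rep
import Pool.Agent.Lib.MP_100fe7_nt.G8Gen

/-!
The traces of the criterion as traces of multiplicative maps; brackets; replicas in `𝔨` and `𝔭`.
-/

set_option linter.unusedSectionVars false

namespace Pool.Agent.MP100fe7G

open Matrix

/-- Block diagonal matrices. -/
def blockAlg {ι K : Type} [Fintype ι] [DecidableEq ι] [Field K] (h : ι → ℤ) :
    Subalgebra K (Matrix ι ι K) where
  carrier := {A | ∀ i j, h i ≠ h j → A i j = 0}
  mul_mem' := fun hA hB => block_mul hA hB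
  add_mem' := fun {A B} hA hB i j hij => by rw [Matrix.add_apply, hA i j hij, hB i j hij, add_zero]
  algebraMap_mem' := fun c i j hij => by
    have : i ≠ j := fun e => hij (by rw [e])
    rw [algebraMap_matrix_apply, if_neg this]

/-- Filtered matrices. -/
def filtAlg {ι K : Type} [Fintype ι] [DecidableEq ι] [Field K] (h : ι → ℤ) :
    Subalgebra K (Matrix ι ι K) where
  carrier := {A | ∀ i j, h i < h j → A i j = 0}
  mul_mem' := fun hA hB => filt_mul hA hB
  add_mem' := fun {A B} hA hB i j hij => by rw [Matrix.add_apply, hA i j hij, hB i j hij, add_zero]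
  algebraMap_mem' := fun c i j hij => by
    have : i ≠ j := fun e => by
      rw [e] at hij
      exact lt_irrefl _ hij
    rw [algebraMap_matrix_apply, if_neg this]

section

variable {E : Type} [Field E] {n J : Type} [Fintype n] [DecidableEq n] [Fintype J]
  [DecidableEq J] {a b : J → ℕ} {wt idx : n → ℤ} {frob : Matrix n n E}
  {S : Set (TMat n a b E × TMat n a b E)} {Ω : Type} [Field Ω] [Algebra E Ω]

theorem inK_comm_frob {Y : Matrix n n Ω} (hY : InK wt frob S Y) (hF : frob * frob = 1) :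
    lie a b Y * (tens a b frob frob).map (algebraMap E Ω) =
      (tens a b frob frob).map (algebraMap E Ω) * lie a b Y := by
  set F := frob.map (algebraMap E Ω) with hFdef
  have hFF : F * F = 1 := by
    rw [hFdef, ← Matrix.map_mul, hF, Matrix.map_one _ (map_zero _) (map_one _)]
  have h1 : (tens a b frob frob).map (algebraMap E Ω) = tens a b F F := by
    rw [tens_map]
  have h2 := lie_conj (a := a) (b := b) hFF Y
  have h3 : F * Y * F = Y := by
    rw [← hY.2, Matrix.mul_assoc, hFF, Matrix.mul_one]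
  have h4 : tens a b F F * tens a b F F = 1 := tens_inv hFF
  rw [h3] at h2
  rw [h1]
  calc lie a b Y * tens a b F F = (tens a b F F * lie a b Y * tens a b F F) * tens a b F F := by
        rw [h2]
    _ = tens a b F F * lie a b Y := by rw [Matrix.mul_assoc, h4, Matrix.mul_one]

/-- `traceK` is twice the trace of a multiplicative map. -/
theorem traceK_form [CharZero Ω] (hF : frob * frob = 1)
    {N : TMat n a b E × TMat n a b E} (hN : N ∈ S) (hid : N.1 * N.1 = N.1)
    (hc : tens a b frob frob * N.1 = N.1 * tens a b frob frob) {ε : ℤ}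
    (hε : ε = 0 ∨ ε = 1 ∨ ε = -1) :
    ∃ B : TMat n a b Ω, B * B = B ∧
      (∀ Y : Matrix n n Ω, InK wt frob S Y → Commute (lie a b Y) B) ∧
      ∀ Y : Matrix n n Ω, traceK frob N.1 ε Y = 2 * (lie a b Y * B).trace := by
  set T := tens a b frob frob with hT
  have hTT : T * T = 1 := tens_inv hF
  set q : TMat n a b E := N.1 * (((2 - ε ^ 2 : ℤ) : E) • (1 : TMat n a b E) +
    ((ε : ℤ) : E) • T) with hq
  have hqq : q * q = (2 : E) • q := by
    have h1 : (((2 - ε ^ 2 : ℤ) : E) • (1 : TMat n a b E) + ((ε : ℤ) : E) • T) * N.1 =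
        N.1 * (((2 - ε ^ 2 : ℤ) : E) • (1 : TMat n a b E) + ((ε : ℤ) : E) • T) := by
      rw [Matrix.add_mul, Matrix.mul_add, Matrix.smul_mul, Matrix.mul_smul, Matrix.smul_mul,
        Matrix.mul_smul, Matrix.one_mul, Matrix.mul_one, hc]
    have h2 : (((2 - ε ^ 2 : ℤ) : E) • (1 : TMat n a b E) + ((ε : ℤ) : E) • T) *
        (((2 - ε ^ 2 : ℤ) : E) • (1 : TMat n a b E) + ((ε : ℤ) : E) • T) =
        (2 : E) • (((2 - ε ^ 2 : ℤ) : E) • (1 : TMat n a b E) + ((ε : ℤ) : E) • T) := by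
      rw [Matrix.add_mul, Matrix.mul_add, Matrix.mul_add]
      simp only [Matrix.smul_mul, Matrix.mul_smul, Matrix.one_mul, Matrix.mul_one, hTT, smul_add,
        smul_smul]
      rcases hε with rfl | rfl | rfl
      · norm_num
      · norm_num
        module
      · norm_num
        module
    rw [hq, Matrix.mul_assoc, ← Matrix.mul_assoc _ N.1, h1, Matrix.mul_assoc, h2, Matrix.mul_smul,
      Matrix.mul_smul, ← Matrix.mul_assoc, hid]
  have hmap : q.map (algebraMap E Ω) = N.1.map (algebraMap E Ω) *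
      ((((2 - ε ^ 2 : ℤ) : E) • (1 : TMat n a b E) + ((ε : ℤ) : E) • T).map (algebraMap E Ω)) := by
    rw [hq, Matrix.map_mul]
  have hmap2 : (((2 - ε ^ 2 : ℤ) : E) • (1 : TMat n a b E) + ((ε : ℤ) : E) • T).map
      (algebraMap E Ω) = (((2 - ε ^ 2 : ℤ) : Ω) • (1 : TMat n a b Ω) +
        ((ε : ℤ) : Ω) • T.map (algebraMap E Ω)) := by
    rw [Matrix.map_add _ (fun _ _ => map_add _ _ _)]
    congr 1
    · rw [Matrix.map_smul' _ _ _ (fun _ _ => map_mul _ _ _), map_intCast,
        Matrix.map_one _ (map_zero _) (map_one _)]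
    · rw [Matrix.map_smul' _ _ _ (fun _ _ => map_mul _ _ _), map_intCast]
  have h2 : (2 : Ω) ≠ 0 := two_ne_zero
  refine ⟨(2 : Ω)⁻¹ • q.map (algebraMap E Ω), ?_, fun Y hY => ?_, fun Y => ?_⟩
  · rw [Matrix.smul_mul, Matrix.mul_smul, ← Matrix.map_mul, hqq,
      Matrix.map_smul' _ _ _ (fun _ _ => map_mul _ _ _), map_ofNat, smul_smul, smul_smul]
    congr 1
    field_simp
  · have hce : lie a b Y * N.1.map (algebraMap E Ω) = N.1.map (algebraMap E Ω) * lie a b Y :=
      hY.1.2 _ ⟨N, hN, rfl⟩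
    have h3 : Commute (lie a b Y) (q.map (algebraMap E Ω)) := by
      show lie a b Y * _ = _ * lie a b Y
      rw [hmap, hmap2, ← Matrix.mul_assoc, hce, Matrix.mul_assoc, Matrix.mul_assoc]
      congr 1
      rw [Matrix.mul_add, Matrix.add_mul, Matrix.mul_smul, Matrix.smul_mul, Matrix.mul_smul,
        Matrix.smul_mul, Matrix.mul_one, Matrix.one_mul, inK_comm_frob hY hF]
    exact h3.smul_right _
  · unfold traceK
    rw [Matrix.mul_smul, Matrix.trace_smul, smul_eq_mul, mul_inv_cancel_left₀ h2]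

/-- `traceP` is the trace of a multiplicative map. -/
theorem traceP_form {N : TMat n a b E × TMat n a b E} (hN : N ∈ S) (hid : N.2 * N.2 = N.2)
    (hfil : ∀ i j, wsum idx i < wsum idx j → N.2 i j = 0) (r : ℤ) :
    ∃ ρ : TMat n a b Ω →ₗ[Ω] TMat n a b Ω,
      (∀ x y : TMat n a b Ω, x ∈ filtAlg (K := Ω) (wsum (a := a) (b := b) idx) →
        Commute y (N.2.map (algebraMap E Ω)) → ρ (x * y) = ρ x * ρ y) ∧
      ∀ Z : Matrix n n Ω, traceP idx N.2 r Z = (ρ (lie a b Z)).trace := by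
  set D : TMat n a b Ω := diagonal fun s => if wsum idx s < r then 1 else 0 with hD
  set F := N.2.map (algebraMap E Ω) with hFdef
  have hFF : F * F = F := by
    rw [hFdef, ← Matrix.map_mul, hid]
  have hFfil : F ∈ filtAlg (K := Ω) (wsum (a := a) (b := b) idx) := fun i j hij => by
    rw [hFdef, map_apply, hfil i j hij, map_zero]
  have hDX : ∀ X ∈ filtAlg (K := Ω) (wsum (a := a) (b := b) idx), D * X * D = D * X := by
    intro X hX
    refine Matrix.ext fun s t => ?_
    rw [hD, mul_diagonal, diagonal_mul]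
    by_cases hs : wsum idx s < r
    · by_cases ht : wsum idx t < r
      · rw [if_pos ht, mul_one]
      · rw [hX s t (by omega)]
        simp
    · rw [if_neg hs]
      simp
  refine ⟨(LinearMap.mulLeft Ω D).comp (LinearMap.mulRight Ω F), fun x y hx hy => ?_,
    fun Z => ?_⟩
  · show D * (x * y * F) = D * (x * F) * (D * (y * F))
    have h1 : D * (x * F) * D = D * (x * F) := hDX _ (mul_mem hx hFfil)
    calc D * (x * y * F) = D * (x * (y * (F * F))) := by
          rw [hFF]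
          simp only [Matrix.mul_assoc]
      _ = D * (x * ((y * F) * F)) := by simp only [Matrix.mul_assoc]
      _ = D * (x * ((F * y) * F)) := by rw [hy.eq]
      _ = D * (x * F) * (y * F) := by simp only [Matrix.mul_assoc]
      _ = D * (x * F) * D * (y * F) := by rw [h1]
      _ = D * (x * F) * (D * (y * F)) := by simp only [Matrix.mul_assoc]
  · unfold traceP
    show _ = (D * (lie a b Z * F)).trace
    rw [Matrix.trace, Finset.sum_filter]
    refine Finset.sum_congr rfl fun s _ => ?_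
    rw [diag_apply, hD, diagonal_mul]
    split_ifs
    · rw [one_mul]
    · rw [zero_mul]

theorem InLie.bracket {T : Set (TMat n a b E)} {X Y : Matrix n n Ω} (hX : InLie wt T X)
    (hY : InLie wt T Y) : InLie wt T (X * Y - Y * X) := by
  refine ⟨fun i j hij => ?_, fun s hs => ?_⟩
  · rw [Matrix.sub_apply, block_mul hX.1 hY.1 i j hij, block_mul hY.1 hX.1 i j hij, sub_zero]
  · rw [lie_bracket, Matrix.sub_mul, Matrix.mul_sub]
    have h1 := hX.2 s hs
    have h2 := hY.2 s hs
    rw [Matrix.mul_assoc, h2, ← Matrix.mul_assoc, h1, Matrix.mul_assoc (lie a b Y), h1,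
      ← Matrix.mul_assoc (lie a b Y), h2]
    simp only [Matrix.mul_assoc]

theorem InK.bracket {X Y : Matrix n n Ω} (hX : InK wt frob S X) (hY : InK wt frob S Y) :
    InK wt frob S (X * Y - Y * X) := by
  refine ⟨hX.1.bracket hY.1, ?_⟩
  rw [Matrix.sub_mul, Matrix.mul_sub, Matrix.mul_assoc, hY.2, ← Matrix.mul_assoc, hX.2,
    Matrix.mul_assoc Y, hX.2, ← Matrix.mul_assoc Y, hY.2]
  simp only [Matrix.mul_assoc]

theorem InP.bracket {X Y : Matrix n n Ω} (hX : InP wt idx S X) (hY : InP wt idx S Y) :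
    InP wt idx S (X * Y - Y * X) := by
  refine ⟨hX.1.bracket hY.1, fun i j hij => ?_⟩
  rw [Matrix.sub_apply, filt_mul hX.2 hY.2 i j hij, filt_mul hY.2 hX.2 i j hij, sub_zero]

theorem traceK_bracket [CharZero Ω] (hF : frob * frob = 1)
    {N : TMat n a b E × TMat n a b E} (hN : N ∈ S) (hid : N.1 * N.1 = N.1)
    (hc : tens a b frob frob * N.1 = N.1 * tens a b frob frob) {ε : ℤ}
    (hε : ε = 0 ∨ ε = 1 ∨ ε = -1) {X Y : Matrix n n Ω} (hX : InK wt frob S X)
    (hY : InK wt frob S Y) : traceK frob N.1 ε (X * Y - Y * X) = 0 := by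
  obtain ⟨B, hB, hcomm, hform⟩ := traceK_form (Ω := Ω) (wt := wt) (S := S) hF hN hid hc hε
  rw [hform, lie_bracket, Matrix.sub_mul, Matrix.trace_sub]
  have h1 : (lie a b Y * lie a b X * B).trace = (lie a b X * lie a b Y * B).trace := by
    rw [Matrix.mul_assoc, Matrix.trace_mul_comm, Matrix.mul_assoc, ← (hcomm Y hY).eq,
      ← Matrix.mul_assoc]
  rw [h1, sub_self, mul_zero]

theorem inP_lie_filt {Z : Matrix n n Ω} (hZ : InP wt idx S Z) :
    lie a b Z ∈ filtAlg (K := Ω) (wsum (a := a) (b := b) idx) :=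
  fun i j hij => lie_filt idx hZ.2 i j hij

theorem traceP_bracket {N : TMat n a b E × TMat n a b E} (hN : N ∈ S) (hid : N.2 * N.2 = N.2)
    (hfil : ∀ i j, wsum idx i < wsum idx j → N.2 i j = 0) (r : ℤ) {X Y : Matrix n n Ω}
    (hX : InP wt idx S X) (hY : InP wt idx S Y) : traceP idx N.2 r (X * Y - Y * X) = 0 := by
  obtain ⟨ρ, hρ, hform⟩ := traceP_form (Ω := Ω) (S := S) hN hid hfil r
  have hcX : Commute (lie a b X) (N.2.map (algebraMap E Ω)) := hX.1.2 _ ⟨N, hN, rfl⟩
  have hcY : Commute (lie a b Y) (N.2.map (algebraMap E Ω)) := hY.1.2 _ ⟨N, hN, rfl⟩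
  rw [hform, lie_bracket, map_sub, hρ _ _ (inP_lie_filt hX) hcY, hρ _ _ (inP_lie_filt hY) hcX,
    Matrix.trace_sub, Matrix.trace_mul_comm, sub_self]

end

section replica

variable {E : Type} [Field E] {n : Type} [Fintype n] [DecidableEq n] {wt idx : n → ℤ}
  {frob : Matrix n n E} (S : Fam n E) {Ω : Type} [Field Ω] [IsAlgClosed Ω] [CharZero Ω]
  [Algebra E Ω]

theorem exists_repK (hF : frob * frob = 1) {Y₀ : Matrix n n Ω}
    (hY₀ : ∀ (k : ℕ) (a b : Fin k → ℕ), InK wt frob (S k a b) Y₀) (φ : Ω →+ Ω) :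
    ∃ Y : Matrix n n Ω, (∀ (k : ℕ) (a b : Fin k → ℕ), InK wt frob (S k a b) Y) ∧
      ∀ (k : ℕ) (a b : Fin k → ℕ), ∀ N ∈ S k a b, N.1 * N.1 = N.1 →
        tens a b frob frob * N.1 = N.1 * tens a b frob frob → ∀ ε : ℤ,
        (ε = 0 ∨ ε = 1 ∨ ε = -1) → traceK frob N.1 ε Y = φ (traceK frob N.1 ε Y₀) := by
  obtain ⟨Y, hYmem, hY⟩ := exists_replica Y₀ φ
  refine ⟨Y, fun k a b => ⟨⟨?_, ?_⟩, ?_⟩, ?_⟩
  · have h1 : Y₀ ∈ blockAlg (K := Ω) wt := (hY₀ k a b).1.1
    exact Algebra.adjoin_le (Set.singleton_subset_iff.mpr h1) hYmem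
  · intro s hs
    have h1 : Commute (s.map (algebraMap E Ω)) (lie a b Y₀) := ((hY₀ k a b).1.2 s hs).symm
    exact (Algebra.commute_of_mem_adjoin_singleton_of_commute (hY _ a b).1 h1).symm
  · have h1 : Commute (frob.map (algebraMap E Ω)) Y₀ := (hY₀ k a b).2.symm
    exact (Algebra.commute_of_mem_adjoin_singleton_of_commute hYmem h1).symm
  · intro k a b N hN hid hc ε hε
    obtain ⟨B, hB, hcomm, hform⟩ :=
      traceK_form (Ω := Ω) (wt := wt) (S := S k a b) hF hN hid hc hε
    have hcB : Commute B (lie a b Y₀) := (hcomm Y₀ (hY₀ k a b)).symm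
    have h1 := (hY _ a b).2 (LinearMap.mulRight Ω B) (fun x _ y hy => by
      have h2 : Commute B y := Algebra.commute_of_mem_adjoin_singleton_of_commute hy hcB
      show x * y * B = x * B * (y * B)
      calc x * y * B = x * (y * (B * B)) := by rw [hB, Matrix.mul_assoc]
        _ = x * ((B * y) * B) := by rw [h2.eq]; simp only [Matrix.mul_assoc]
        _ = x * B * (y * B) := by simp only [Matrix.mul_assoc])
    have h3 : (lie a b Y * B).trace = φ ((lie a b Y₀ * B).trace) := h1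
    rw [hform, hform, h3, two_mul, two_mul, map_add]

theorem exists_repP {Z₀ : Matrix n n Ω}
    (hZ₀ : ∀ (k : ℕ) (a b : Fin k → ℕ), InP wt idx (S k a b) Z₀) (φ : Ω →+ Ω) :
    ∃ Z : Matrix n n Ω, (∀ (k : ℕ) (a b : Fin k → ℕ), InP wt idx (S k a b) Z) ∧
      ∀ (k : ℕ) (a b : Fin k → ℕ), ∀ N ∈ S k a b, N.2 * N.2 = N.2 →
        (∀ i j, wsum idx i < wsum idx j → N.2 i j = 0) → ∀ r : ℤ,
        traceP idx N.2 r Z = φ (traceP idx N.2 r Z₀) := by
  obtain ⟨Z, hZmem, hZ⟩ := exists_replica Z₀ φ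
  refine ⟨Z, fun k a b => ⟨⟨?_, ?_⟩, ?_⟩, ?_⟩
  · have h1 : Z₀ ∈ blockAlg (K := Ω) wt := (hZ₀ k a b).1.1
    exact Algebra.adjoin_le (Set.singleton_subset_iff.mpr h1) hZmem
  · intro s hs
    have h1 : Commute (s.map (algebraMap E Ω)) (lie a b Z₀) := ((hZ₀ k a b).1.2 s hs).symm
    exact (Algebra.commute_of_mem_adjoin_singleton_of_commute (hZ _ a b).1 h1).symm
  · have h1 : Z₀ ∈ filtAlg (K := Ω) idx := (hZ₀ k a b).2
    exact Algebra.adjoin_le (Set.singleton_subset_iff.mpr h1) hZmem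
  · intro k a b N hN hid hfil r
    obtain ⟨ρ, hρ, hform⟩ := traceP_form (Ω := Ω) (S := S k a b) hN hid hfil r
    have hcF : Commute (N.2.map (algebraMap E Ω)) (lie a b Z₀) :=
      ((hZ₀ k a b).1.2 _ ⟨N, hN, rfl⟩).symm
    have hfilt : Algebra.adjoin Ω {lie a b Z₀} ≤ filtAlg (K := Ω) (wsum (a := a) (b := b) idx) :=
      Algebra.adjoin_le (Set.singleton_subset_iff.mpr (inP_lie_filt (hZ₀ k a b)))
    have h1 := (hZ _ a b).2 ρ (fun x hx y hy => hρ x y (hfilt hx)
      (Algebra.commute_of_mem_adjoin_singleton_of_commute hy hcF).symm)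
    rw [hform, hform, h1]

end replica

end Pool.Agent.MP100fe7G
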