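import Pool.Agent.Lib.MP_100fe7_nt.G8Trace

/-!
Jordan decomposition of matrices and additive functions of the semisimple part.
-/

set_option linter.unusedSectionVars false

namespace Pool.Agent.MP100fe7G

open Matrix

section

variable {K : Type} [Field K] {m : Type} [Fintype m] [DecidableEq m]

/-- Functions of a diagonal matrix are polynomials in it. -/
theorem diagonal_mem_adjoin (d : m → K) (g : K → K) :
    diagonal (fun i => g (d i)) ∈ Algebra.adjoin K {diagonal d} := by
  classical
  set p : Polynomial K := Lagrange.interpolate (Finset.univ.image d) id g with hp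
  have h1 : ∀ i, p.eval (d i) = g (d i) := by
    intro i
    rw [hp]
    exact Lagrange.eval_interpolate_at_node g (Function.injective_id.injOn)
      (Finset.mem_image_of_mem d (Finset.mem_univ i))
  have h2 : diagonal (fun i => g (d i)) = Polynomial.aeval (diagonal d) p := by
    have h3 := Polynomial.aeval_algHom_apply (Matrix.diagonalAlgHom K (n := m) (α := K)) d p
    have h4 : (Matrix.diagonalAlgHom K (n := m) (α := K)) d = diagonal d := rfl
    rw [h4] at h3
    rw [h3]
    show diagonal _ = diagonal (Polynomial.aeval d p)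
    congr 1
    funext i
    rw [← h1 i]
    have h5 := Polynomial.aeval_algHom_apply (Pi.evalAlgHom K (fun _ : m => K) i) d p
    have h6 : (Pi.evalAlgHom K (fun _ : m => K) i) d = d i := rfl
    rw [h6, Polynomial.coe_aeval_eq_eval] at h5
    exact h5
  rw [h2]
  exact Polynomial.aeval_mem_adjoin_singleton K (diagonal d)

/-- Conjugation as an algebra homomorphism. -/
def conjHom {P Q : Matrix m m K} (hQP : Q * P = 1) : Matrix m m K →ₐ[K] Matrix m m K where
  toFun A := P * A * Q
  map_one' := by rw [Matrix.mul_one, mul_eq_one_comm.mp hQP]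
  map_mul' A B := by
    calc P * (A * B) * Q = P * A * (Q * P) * B * Q := by
          rw [hQP]
          simp only [Matrix.mul_assoc, Matrix.one_mul]
      _ = P * A * Q * (P * B * Q) := by simp only [Matrix.mul_assoc]
  map_zero' := by rw [Matrix.mul_zero, Matrix.zero_mul]
  map_add' A B := by rw [Matrix.mul_add, Matrix.add_mul]
  commutes' c := by
    rw [Algebra.algebraMap_eq_smul_one, Matrix.mul_smul, Matrix.mul_one, Matrix.smul_mul,
      mul_eq_one_comm.mp hQP]

theorem conj_mem_adjoin {P Q : Matrix m m K} (hQP : Q * P = 1) (d : m → K) (g : K → K) :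
    P * diagonal (fun i => g (d i)) * Q ∈ Algebra.adjoin K {P * diagonal d * Q} := by
  have h1 := diagonal_mem_adjoin d g
  have h2 : (conjHom hQP) (diagonal (fun i => g (d i))) ∈
      (Algebra.adjoin K {diagonal d}).map (conjHom hQP) := Subalgebra.mem_map.mpr ⟨_, h1, rfl⟩
  rw [AlgHom.map_adjoin, Set.image_singleton] at h2
  exact h2

variable (K m) in
/-- Matrices as endomorphisms. -/
abbrev toEnd : Matrix m m K ≃ₐ[K] Module.End K (m → K) := Matrix.toLinAlgEquiv'

/-- A diagonalisable matrix is semisimple. -/
theorem isSemisimple_conj {P Q : Matrix m m K} (hQP : Q * P = 1) (d : m → K) :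
    Module.End.IsSemisimple (toEnd K m (P * diagonal d * Q)) := by
  classical
  set p : Polynomial K := ∏ c ∈ Finset.univ.image d, (Polynomial.X - Polynomial.C c) with hp
  have hsq : Squarefree p := by
    rw [hp]
    exact (Polynomial.separable_prod_X_sub_C_iff'.mpr (Function.injective_id.injOn)).squarefree
  refine Module.End.isSemisimple_of_squarefree_aeval_eq_zero hsq ?_
  have h1 : Polynomial.aeval (diagonal d) p = 0 := by
    have h3 := Polynomial.aeval_algHom_apply (Matrix.diagonalAlgHom K (n := m) (α := K)) d p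
    have h4 : (Matrix.diagonalAlgHom K (n := m) (α := K)) d = diagonal d := rfl
    rw [h4] at h3
    rw [h3]
    have h7 : Polynomial.aeval d p = 0 := by
      funext i
      have h5 := Polynomial.aeval_algHom_apply (Pi.evalAlgHom K (fun _ : m => K) i) d p
      have h6 : (Pi.evalAlgHom K (fun _ : m => K) i) d = d i := rfl
      rw [h6, Polynomial.coe_aeval_eq_eval] at h5
      have h8 : Polynomial.eval (d i) p = 0 := by
        rw [hp, Polynomial.eval_prod]
        exact Finset.prod_eq_zero (Finset.mem_image_of_mem d (Finset.mem_univ i)) (by simp)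
      rw [h8] at h5
      exact h5.symm
    rw [h7, map_zero]
  have h2 := Polynomial.aeval_algHom_apply (conjHom hQP) (diagonal d) p
  rw [h1, map_zero] at h2
  have h3 := Polynomial.aeval_algHom_apply
    (toEnd K m).toAlgHom (P * diagonal d * Q) p
  have h4 : Polynomial.aeval (P * diagonal d * Q) p = 0 := h2
  rw [h4, map_zero] at h3
  exact h3

/-- A semisimple matrix over an algebraically closed field is diagonalisable. -/
theorem exists_diag [IsAlgClosed K] {D : Matrix m m K}
    (hD : Module.End.IsSemisimple (toEnd K m D)) :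
    ∃ (P Q : Matrix m m K) (d : m → K), Q * P = 1 ∧ D = P * diagonal d * Q := by
  classical
  set f : Module.End K (m → K) := toEnd K m D with hf
  have htop : (⨆ μ, f.eigenspace μ) = ⊤ := hD.iSup_eigenspace_eq_top
  set s : Set (m → K) := {v | ∃ μ, v ∈ f.eigenspace μ} with hs
  have hspan : Submodule.span K s = ⊤ := by
    rw [eq_top_iff, ← htop]
    refine iSup_le fun μ => ?_
    intro v hv
    exact Submodule.subset_span ⟨μ, hv⟩
  obtain ⟨b, hbs, hbspan, hbli⟩ := exists_linearIndependent K s
  rw [hspan] at hbspan
  let B : Module.Basis b K (m → K) := Module.Basis.mk hbli (by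
    rw [Subtype.range_coe, hbspan])
  let e : m ≃ b := (Pi.basisFun K m).indexEquiv B
  set B' : Module.Basis m K (m → K) := B.reindex e.symm with hB'
  have hB'v : ∀ i, ∃ μ, B' i ∈ f.eigenspace μ := by
    intro i
    have h1 : B' i = (e i : m → K) := by
      rw [hB', Module.Basis.reindex_apply, Equiv.symm_symm, Module.Basis.mk_apply]
    rw [h1]
    exact hbs (e i).2
  choose d hd using hB'v
  refine ⟨(Pi.basisFun K m).toMatrix B', B'.toMatrix (Pi.basisFun K m), d,
    Module.Basis.toMatrix_mul_toMatrix_flip _ _, ?_⟩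
  have h1 : B'.toMatrix (Pi.basisFun K m) * D * (Pi.basisFun K m).toMatrix B' = diagonal d := by
    have h2 : D = LinearMap.toMatrix (Pi.basisFun K m) (Pi.basisFun K m) f := by
      rw [LinearMap.toMatrix_eq_toMatrix', hf]
      exact (LinearMap.toMatrix'_toLin' D).symm
    conv_lhs => rw [h2]
    rw [basis_toMatrix_mul_linearMap_toMatrix_mul_basis_toMatrix]
    refine Matrix.ext fun i j => ?_
    rw [LinearMap.toMatrix_apply, Module.End.mem_eigenspace_iff.mp (hd j), map_smul,
      Module.Basis.repr_self, Finsupp.smul_single, smul_eq_mul, mul_one, diagonal_apply,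
      Finsupp.single_apply]
    by_cases hij : i = j
    · subst hij
      simp
    · rw [if_neg hij, if_neg (Ne.symm hij)]
  have h3 : (Pi.basisFun K m).toMatrix B' * B'.toMatrix (Pi.basisFun K m) = 1 :=
    Module.Basis.toMatrix_mul_toMatrix_flip _ _
  rw [← h1]
  calc D = ((Pi.basisFun K m).toMatrix B' * B'.toMatrix (Pi.basisFun K m)) * D *
        ((Pi.basisFun K m).toMatrix B' * B'.toMatrix (Pi.basisFun K m)) := by
        rw [h3, Matrix.one_mul, Matrix.mul_one]
    _ = _ := by simp only [Matrix.mul_assoc]

/-- Jordan decomposition. -/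
theorem exists_jordan [IsAlgClosed K] [CharZero K] (A : Matrix m m K) :
    ∃ (D N P Q : Matrix m m K) (d : m → K), A = D + N ∧ D ∈ Algebra.adjoin K {A} ∧
      IsNilpotent N ∧ Q * P = 1 ∧ D = P * diagonal d * Q := by
  obtain ⟨N', hN'mem, D', hD'mem, hnil, hss, hsum⟩ :=
    Module.End.exists_isNilpotent_isSemisimple (K := K) (f := toEnd K m A)
  let e : Matrix m m K ≃ₐ[K] Module.End K (m → K) := toEnd K m
  have h1 : e.symm D' ∈ Algebra.adjoin K {A} := by
    have h2 : e.symm D' ∈ (Algebra.adjoin K {e A}).map e.symm.toAlgHom :=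
      Subalgebra.mem_map.mpr ⟨D', hD'mem, rfl⟩
    rw [AlgHom.map_adjoin, Set.image_singleton] at h2
    have h3 : e.symm.toAlgHom (e A) = A := e.symm_apply_apply A
    rw [h3] at h2
    exact h2
  have h4 : Module.End.IsSemisimple (toEnd K m (e.symm D')) := by
    have h5 : toEnd K m (e.symm D') = D' :=
      e.apply_symm_apply D'
    rw [h5]
    exact hss
  obtain ⟨P, Q, d, hQP, hd⟩ := exists_diag h4
  refine ⟨e.symm D', e.symm N', P, Q, d, ?_, h1, ?_, hQP, hd⟩
  · rw [← map_add, add_comm, ← hsum]
    exact (e.symm_apply_apply A).symm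
  · exact hnil.map e.symm

/-- Uniqueness of the semisimple part. -/
theorem mem_adjoin_of_jordan [IsAlgClosed K] [CharZero K] {A D N P Q : Matrix m m K} {d : m → K}
    (hA : A = D + N) (hN : IsNilpotent N) (hQP : Q * P = 1) (hD : D = P * diagonal d * Q)
    (hc : Commute D N) : D ∈ Algebra.adjoin K {A} := by
  let e : Matrix m m K ≃ₐ[K] Module.End K (m → K) := toEnd K m
  obtain ⟨N', hN'mem, D', hD'mem, hnil, hss, hsum⟩ :=
    Module.End.exists_isNilpotent_isSemisimple (K := K) (f := e A)
  have hss2 : (e D).IsSemisimple := by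
    rw [hD]
    exact isSemisimple_conj hQP d
  have hc' : Commute N' D' :=
    (Algebra.commute_of_mem_adjoin_singleton_of_commute hN'mem
      ((Algebra.commute_of_mem_adjoin_self hD'mem).symm)).symm
  have h1 : e N + e D = N' + D' := by
    rw [← hsum, hA, map_add, add_comm]
  obtain ⟨-, h2⟩ := Module.End.isNilpotent_isSemisimple_unique (hN.map e) hss2 hnil hss
    ((hc.map e).symm) hc' h1
  have h3 : e.symm D' ∈ Algebra.adjoin K {A} := by
    have h2 : e.symm D' ∈ (Algebra.adjoin K {e A}).map e.symm.toAlgHom :=
      Subalgebra.mem_map.mpr ⟨D', hD'mem, rfl⟩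
    rw [AlgHom.map_adjoin, Set.image_singleton] at h2
    have h3 : e.symm.toAlgHom (e A) = A := e.symm_apply_apply A
    rw [h3] at h2
    exact h2
  rw [← h2] at h3
  have h4 : e.symm (e D) = D := e.symm_apply_apply D
  rw [h4] at h3
  exact h3

/-- A matrix without nonzero eigenvalues is nilpotent. -/
theorem nilpotent_of_eig [IsAlgClosed K] {B : Matrix m m K} (h : EigIn B ⊥) : IsNilpotent B := by
  have hr : ∀ μ ∈ B.charpoly.roots, μ = 0 := by
    intro μ hμ
    have h1 := (Polynomial.mem_roots (Matrix.charpoly_monic B).ne_zero).mp hμ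
    rw [Polynomial.IsRoot.def, Matrix.eval_charpoly] at h1
    obtain ⟨v, hv, hv'⟩ := Matrix.exists_mulVec_eq_zero_iff.mpr h1
    refine AddSubgroup.mem_bot.mp (h μ v hv ?_)
    rw [sub_mulVec] at hv'
    rw [← sub_eq_zero.mp hv']
    simp
  have hsp : B.charpoly.Splits := IsAlgClosed.splits _
  have h1 : B.charpoly = Polynomial.X ^ Multiset.card B.charpoly.roots := by
    conv_lhs => rw [hsp.eq_prod_roots_of_monic (Matrix.charpoly_monic B)]
    rw [Multiset.eq_replicate_card.mpr hr, Multiset.map_replicate, Multiset.prod_replicate,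
      Multiset.card_replicate]
    simp
  refine ⟨Multiset.card B.charpoly.roots, ?_⟩
  have h2 := Matrix.aeval_self_charpoly B
  rw [h1, map_pow, Polynomial.aeval_X] at h2
  exact h2

/-- The diagonal entries of a nilpotent triangular matrix are zero. -/
theorem diag_zero_of_nilpotent {U : Matrix m m K} {h : m → ℤ} (hh : Function.Injective h)
    (hU : ∀ i j, h i < h j → U i j = 0) (hn : IsNilpotent U) (i : m) : U i i = 0 := by
  have hpow : ∀ k : ℕ, (∀ i j, h i < h j → (U ^ k) i j = 0) ∧ (U ^ k) i i = (U i i) ^ k := by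
    intro k
    induction k with
    | zero =>
      refine ⟨fun i j hij => ?_, by simp⟩
      have : i ≠ j := by
        rintro rfl
        omega
      simp [this]
    | succ k ih =>
      refine ⟨fun i j hij => ?_, ?_⟩
      · rw [pow_succ, mul_apply]
        refine Finset.sum_eq_zero fun l _ => ?_
        by_cases h1 : h i < h l
        · rw [ih.1 i l h1, zero_mul]
        · rw [hU l j (by omega), mul_zero]
      · rw [pow_succ, mul_apply, Finset.sum_eq_single i, ih.2, pow_succ]
        · intro l _ hl
          have h2 : h i ≠ h l := fun e => hl (hh e).symm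
          by_cases h1 : h i < h l
          · rw [ih.1 i l h1, zero_mul]
          · rw [hU l i (by omega), mul_zero]
        · intro h3
          exact absurd (Finset.mem_univ i) h3
  obtain ⟨k, hk⟩ := hn
  have h1 := (hpow k).2
  rw [hk] at h1
  rw [Matrix.zero_apply] at h1
  exact eq_zero_of_pow_eq_zero h1.symm

end

end Pool.Agent.MP100fe7G
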