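import Pool.Agent.Lib.MP_100fe7_nt.G8Jor

/-!
Replicas of a matrix in the tensor constructions.
-/

set_option linter.unusedSectionVars false

namespace Pool.Agent.MP100fe7G

open Matrix

theorem adjoin_singleton_le {K : Type} [Field K] {A : Type} [Ring A] [Algebra K A] {x y : A}
    (h : x ∈ Algebra.adjoin K {y}) : Algebra.adjoin K {x} ≤ Algebra.adjoin K {y} :=
  Algebra.adjoin_le (Set.singleton_subset_iff.mpr h)

section trace

variable {K : Type} [Field K] {m : Type} [Fintype m] [DecidableEq m]

/-- The trace of an idempotent matrix is an integer. -/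
theorem trace_idem [IsAlgClosed K] {B : Matrix m m K} (h : B * B = B) :
    ∃ c : ℤ, B.trace = c := by
  have h1 := trace_mem B (Int.castAddHom K).range fun μ v hv hμ => by
    have h2 : μ • μ • v = μ • v := by
      rw [← hμ, ← mulVec_smul, ← hμ, mulVec_mulVec, h]
    by_cases h0 : μ = 0
    · exact ⟨0, by simp [h0]⟩
    · have h3 : μ • v = v := smul_right_injective _ h0 h2
      have h4 : (μ - 1) • v = 0 := by rw [sub_smul, one_smul, h3, sub_self]
      have h5 : μ = 1 := sub_eq_zero.mp ((smul_eq_zero.mp h4).resolve_right hv)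
      exact ⟨1, by simp [h5]⟩
  obtain ⟨c, hc⟩ := h1
  exact ⟨c, hc.symm⟩

theorem trace_nilp {B : Matrix m m K} (h : IsNilpotent B) : B.trace = 0 :=
  (Matrix.isNilpotent_trace_of_isNilpotent h).eq_zero

/-- The trace of an additive function of the semisimple part. -/
theorem trace_replica [IsAlgClosed K] {D N P Q : Matrix m m K} {d : m → K}
    (hN : IsNilpotent N) (hQP : Q * P = 1) (hD : D = P * diagonal d * Q)
    (A : Subalgebra K (Matrix m m K)) (hDA : D ∈ A) (hNA : N ∈ A)
    (ρ : Matrix m m K →ₗ[K] Matrix m m K)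
    (hρ : ∀ x ∈ A, ∀ y ∈ A, ρ (x * y) = ρ x * ρ y) (φ : K →+ K) :
    (ρ (P * diagonal (fun i => φ (d i)) * Q)).trace = φ ((ρ (D + N)).trace) := by
  classical
  -- the nilpotent part
  have hN0 : (ρ N).trace = 0 := by
    obtain ⟨k, hk⟩ := hN
    have h1 : ∀ j : ℕ, ρ (N ^ (j + 1)) = (ρ N) ^ (j + 1) := by
      intro j
      induction j with
      | zero => simp
      | succ j ih =>
        rw [pow_succ, hρ _ (pow_mem hNA _) _ hNA, ih, ← pow_succ]
    refine trace_nilp ⟨k + 1, ?_⟩
    rw [← h1, pow_succ, hk, zero_mul, map_zero]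
  -- the spectral projectors
  set Pr : K → Matrix m m K := fun μ => P * diagonal (fun i => if d i = μ then 1 else 0) * Q
    with hPr
  have hPrA : ∀ μ, Pr μ ∈ A := by
    intro μ
    have h1 := conj_mem_adjoin hQP d (fun x => if x = μ then 1 else 0)
    rw [← hD] at h1
    exact Algebra.adjoin_le (Set.singleton_subset_iff.mpr hDA) h1
  have hPrPr : ∀ μ, Pr μ * Pr μ = Pr μ := by
    intro μ
    rw [hPr]
    calc P * diagonal (fun i => if d i = μ then (1 : K) else 0) * Q *
          (P * diagonal (fun i => if d i = μ then (1 : K) else 0) * Q) =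
        P * (diagonal (fun i => if d i = μ then (1 : K) else 0) * (Q * P) *
          diagonal (fun i => if d i = μ then (1 : K) else 0)) * Q := by
          simp only [Matrix.mul_assoc]
      _ = _ := by
          rw [hQP, Matrix.mul_one, diagonal_mul_diagonal]
          have h1 : (fun i => (if d i = μ then (1 : K) else 0) * if d i = μ then 1 else 0) =
              fun i => if d i = μ then (1 : K) else 0 := by
            funext i
            split_ifs <;> simp
          rw [h1]
  have hint : ∀ μ, ∃ c : ℤ, (ρ (Pr μ)).trace = c := fun μ =>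
    trace_idem (by rw [← hρ _ (hPrA μ) _ (hPrA μ), hPrPr])
  choose c hc using hint
  have hsum : ∀ g : K → K, P * diagonal (fun i => g (d i)) * Q =
      ∑ μ ∈ Finset.univ.image d, g μ • Pr μ := by
    intro g
    have h1 : diagonal (fun i => g (d i)) = ∑ μ ∈ Finset.univ.image d,
        g μ • diagonal (fun i => if d i = μ then (1 : K) else 0) := by
      refine Matrix.ext fun i j => ?_
      rw [Matrix.sum_apply]
      by_cases hij : i = j
      · subst hij
        rw [diagonal_apply_eq, Finset.sum_eq_single (d i)]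
        · rw [Matrix.smul_apply, diagonal_apply_eq, if_pos rfl, smul_eq_mul, mul_one]
        · intro μ _ hμ
          rw [Matrix.smul_apply, diagonal_apply_eq, if_neg (Ne.symm hμ), smul_zero]
        · intro h2
          exact absurd (Finset.mem_image_of_mem d (Finset.mem_univ i)) h2
      · rw [diagonal_apply_ne _ hij, Finset.sum_eq_zero]
        intro μ _
        rw [Matrix.smul_apply, diagonal_apply_ne _ hij, smul_zero]
    rw [h1, Finset.mul_sum, Finset.sum_mul]
    refine Finset.sum_congr rfl fun μ _ => ?_
    rw [Matrix.mul_smul, Matrix.smul_mul]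
  have htr : ∀ g : K → K, (ρ (P * diagonal (fun i => g (d i)) * Q)).trace =
      ∑ μ ∈ Finset.univ.image d, g μ * c μ := by
    intro g
    rw [hsum g, map_sum, Matrix.trace_sum]
    refine Finset.sum_congr rfl fun μ _ => ?_
    rw [map_smul, Matrix.trace_smul, hc, smul_eq_mul]
  have h1 := htr φ
  have h2 := htr id
  simp only [id] at h2
  rw [h1, map_add, Matrix.trace_add, hN0, add_zero, hD, h2, map_sum]
  refine Finset.sum_congr rfl fun μ _ => ?_
  rw [mul_comm (φ μ), mul_comm μ, ← zsmul_eq_mul, ← zsmul_eq_mul, map_zsmul]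

end trace

section lie

variable {K : Type} [Field K] {n : Type} [Fintype n] [DecidableEq n]

/-- The differential of a diagonal matrix. -/
theorem lie_diagonal {J : Type} [Fintype J] [DecidableEq J] {a b : J → ℕ} (l : n → K) :
    lie a b (diagonal l) =
      diagonal fun s => ∑ i, wsum (fun j => if j = i then 1 else 0) s • l i := by
  have h1 : diagonal l = ∑ i, l i • single i i (1 : K) := by
    refine Matrix.ext fun i j => ?_
    rw [Matrix.sum_apply]
    by_cases hij : i = j
    · subst hij
      rw [diagonal_apply_eq, Finset.sum_eq_single i]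
      · simp
      · intro k _ hk
        simp [hk]
      · intro h2
        exact absurd (Finset.mem_univ i) h2
    · rw [diagonal_apply_ne _ hij, Finset.sum_eq_zero]
      intro k _
      rw [Matrix.smul_apply, single_apply, if_neg, smul_zero]
      rintro ⟨rfl, rfl⟩
      exact hij rfl
  rw [h1, lie_sum]
  refine Matrix.ext fun s t => ?_
  rw [Matrix.sum_apply]
  by_cases hst : s = t
  · subst hst
    rw [diagonal_apply_eq]
    refine Finset.sum_congr rfl fun i _ => ?_
    rw [lie_smul, Matrix.smul_apply, lie_single_cast, map_apply, lie_single_diag, if_pos rfl,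
      smul_eq_mul, zsmul_eq_mul, mul_comm]
    rfl
  · rw [diagonal_apply_ne _ hst]
    refine Finset.sum_eq_zero fun i _ => ?_
    rw [lie_smul, Matrix.smul_apply, lie_single_cast, map_apply, lie_single_diag, if_neg hst,
      map_zero, smul_zero]

theorem lie_nilpotent [IsAlgClosed K] {J : Type} [Fintype J] [DecidableEq J] {a b : J → ℕ}
    {N : Matrix n n K} (hN : IsNilpotent N) : IsNilpotent (lie a b N) := by
  obtain ⟨P, Q, h, hQP, hh, hU⟩ := exists_tri N
  have hn : IsNilpotent (Q * N * P) := by
    obtain ⟨k, hk⟩ := hN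
    refine ⟨k, ?_⟩
    have h1 : Q * N * P = conjHom (mul_eq_one_comm.mp hQP) N := rfl
    rw [h1, ← map_pow, hk, map_zero]
  refine nilpotent_of_eig fun μ v hv hμ => ?_
  refine eig_lie hQP hh hU ⊥ (fun i => ?_) hv hμ
  rw [diag_zero_of_nilpotent hh hU hn i]
  exact zero_mem _

/-- The replica of `X` attached to an additive map `φ`. -/
theorem exists_replica [IsAlgClosed K] [CharZero K] (X : Matrix n n K) (φ : K →+ K) :
    ∃ X' ∈ Algebra.adjoin K {X}, ∀ (J : Type) [Fintype J] [DecidableEq J] (a b : J → ℕ),
      lie a b X' ∈ Algebra.adjoin K {lie a b X} ∧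
      ∀ ρ : Matrix (TIdx n a b) (TIdx n a b) K →ₗ[K] Matrix (TIdx n a b) (TIdx n a b) K,
        (∀ x ∈ Algebra.adjoin K {lie a b X}, ∀ y ∈ Algebra.adjoin K {lie a b X},
          ρ (x * y) = ρ x * ρ y) →
        (ρ (lie a b X')).trace = φ ((ρ (lie a b X)).trace) := by
  obtain ⟨D, N, P, Q, l, hX, hDmem, hN, hQP, hD⟩ := exists_jordan X
  have hPQ : P * Q = 1 := mul_eq_one_comm.mp hQP
  have hmem : P * diagonal (fun i => φ (l i)) * Q ∈ Algebra.adjoin K {D} := by
    rw [hD]
    exact conj_mem_adjoin hQP l φ
  refine ⟨P * diagonal (fun i => φ (l i)) * Q, adjoin_singleton_le hDmem hmem, ?_⟩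
  intro J _ _ a b
  have hcDN : Commute D N := by
    have h1 : Commute D X := (Algebra.commute_of_mem_adjoin_self hDmem).symm
    have h2 : N = X - D := by rw [hX]; abel
    rw [h2]
    exact h1.sub_right (Commute.refl D)
  have hQP' : tens a b Q P * tens a b P Q = 1 := tens_inv hQP
  set d : TIdx n a b → K := fun s => ∑ i, wsum (fun j => if j = i then 1 else 0) s • l i with hd
  have hlD : lie a b D = tens a b P Q * diagonal d * tens a b Q P := by
    rw [hD, ← lie_conj hPQ, lie_diagonal]
  have hlX' : lie a b (P * diagonal (fun i => φ (l i)) * Q) =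
      tens a b P Q * diagonal (fun s => φ (d s)) * tens a b Q P := by
    rw [← lie_conj hPQ, lie_diagonal]
    congr 3
    funext s
    rw [hd, map_sum]
    refine Finset.sum_congr rfl fun i _ => ?_
    rw [map_zsmul]
  have hlX : lie a b X = lie a b D + lie a b N := by rw [hX, lie_add]
  have hcl : Commute (lie a b D) (lie a b N) := by
    have h1 := lie_bracket (a := a) (b := b) D N
    rw [hcDN.eq, sub_self, lie_zero] at h1
    exact (sub_eq_zero.mp h1.symm)
  have hlN : IsNilpotent (lie a b N) := lie_nilpotent hN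
  have hlDmem : lie a b D ∈ Algebra.adjoin K {lie a b X} :=
    mem_adjoin_of_jordan hlX hlN hQP' hlD hcl
  have hlNmem : lie a b N ∈ Algebra.adjoin K {lie a b X} := by
    have h1 : lie a b N = lie a b X - lie a b D := by rw [hlX]; abel
    rw [h1]
    exact sub_mem (Algebra.self_mem_adjoin_singleton K _) hlDmem
  refine ⟨?_, fun ρ hρ => ?_⟩
  · have h1 := conj_mem_adjoin hQP' d φ
    rw [← hlD] at h1
    rw [hlX']
    exact adjoin_singleton_le hlDmem h1
  · rw [hlX', hlX]
    exact trace_replica hlN hQP' hlD _ hlDmem hlNmem ρ hρ φ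

end lie

end Pool.Agent.MP100fe7G
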