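import Pool.Agent.Lib.MP_100fe7_nt.G8Comb
import Pool.Agent.Lib.MP_100fe7_nt.GFinal2

/-!
Morphisms, Lie algebras, traces and periods on a direct sum of tensor constructions.
-/

set_option linter.unusedSectionVars false

namespace Pool.Agent.MP100fe7G

open Matrix

section sum

variable {F : Type} [Fintype F] [DecidableEq F] {kk : F → ℕ} {n : Type} [Fintype n]
  [DecidableEq n] (aa bb : ∀ x : F, Fin (kk x) → ℕ) {E : Type} [Field E]
  (SS : ∀ x : F, Set (TMat n (aa x) (bb x) E × TMat n (aa x) (bb x) E))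

/-- The endomorphisms of the direct sum. -/
def sumS : Set (TMat n (cA aa) (cA bb) E × TMat n (cA aa) (cA bb) E) :=
  {s | ∃ x, ∃ t ∈ SS x, s = (ext aa bb x t.1, ext aa bb x t.2)}

variable {aa bb} {SS} {wt idx : n → ℤ} {frob : Matrix n n E} {P : Type} [CommRing P] [Algebra E P]

theorem inLie_sum [Nonempty F]
    (pr : ∀ x, TMat n (aa x) (bb x) E × TMat n (aa x) (bb x) E → TMat n (aa x) (bb x) E)
    (pr' : TMat n (cA aa) (cA bb) E × TMat n (cA aa) (cA bb) E → TMat n (cA aa) (cA bb) E)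
    (hpr : ∀ x (t : TMat n (aa x) (bb x) E × TMat n (aa x) (bb x) E),
      pr' (ext aa bb x t.1, ext aa bb x t.2) = ext aa bb x (pr x t)) (X : Matrix n n P) :
    InLie wt (pr' '' sumS aa bb SS) X ↔ ∀ x, InLie wt (pr x '' SS x) X := by
  constructor
  · intro h x
    refine ⟨h.1, ?_⟩
    rintro s ⟨t, ht, rfl⟩
    have h1 := h.2 _ ⟨_, ⟨x, t, ht, rfl⟩, rfl⟩
    rw [hpr, ext_map, (compat_lie aa bb x X).mul_ext, (compat_lie aa bb x X).ext_mul] at h1
    exact ext_injective aa bb x h1
  · intro h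
    obtain ⟨x₀⟩ := ‹Nonempty F›
    refine ⟨(h x₀).1, ?_⟩
    rintro s ⟨_, ⟨x, t, ht, rfl⟩, rfl⟩
    rw [hpr, ext_map, (compat_lie aa bb x X).mul_ext, (compat_lie aa bb x X).ext_mul,
      (h x).2 _ ⟨t, ht, rfl⟩]

theorem inLieB_sum [Nonempty F] (X : Matrix n n P) :
    InLie wt (Prod.fst '' sumS aa bb SS) X ↔ ∀ x, InLie wt (Prod.fst '' SS x) X :=
  inLie_sum (fun _ t => t.1) (fun t => t.1) (fun _ _ => rfl) X

theorem inLieD_sum [Nonempty F] (X : Matrix n n P) :
    InLie wt (Prod.snd '' sumS aa bb SS) X ↔ ∀ x, InLie wt (Prod.snd '' SS x) X :=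
  inLie_sum (fun _ t => t.2) (fun t => t.2) (fun _ _ => rfl) X

theorem inK_sum [Nonempty F] (Y : Matrix n n P) :
    InK wt frob (sumS aa bb SS) Y ↔ ∀ x, InK wt frob (SS x) Y := by
  unfold InK
  rw [inLieB_sum]
  constructor
  · exact fun h x => ⟨h.1 x, h.2⟩
  · intro h
    obtain ⟨x₀⟩ := ‹Nonempty F›
    exact ⟨fun x => (h x).1, (h x₀).2⟩

theorem inP_sum [Nonempty F] (Z : Matrix n n P) :
    InP wt idx (sumS aa bb SS) Z ↔ ∀ x, InP wt idx (SS x) Z := by
  unfold InP
  rw [inLieD_sum]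
  constructor
  · exact fun h x => ⟨h.1 x, h.2⟩
  · intro h
    obtain ⟨x₀⟩ := ‹Nonempty F›
    exact ⟨fun x => (h x).1, (h x₀).2⟩

theorem group_sum [Nonempty F] (τ : E →+* ℂ) (g : Matrix n n ℂ × Matrix n n ℂ) :
    g ∈ group wt (sumS aa bb SS) τ ↔ ∀ x, g ∈ group wt (SS x) τ := by
  constructor
  · intro h x
    refine ⟨h.1, h.2.1, fun t ht => ?_⟩
    have h1 := h.2.2 _ ⟨x, t, ht, rfl⟩
    dsimp only at h1
    rw [ext_map, (compat_tens aa bb x g.1 g.2).mul_ext, (compat_tens aa bb x g.1 g.2).ext_mul]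
      at h1
    exact ext_injective aa bb x h1
  · intro h
    obtain ⟨x₀⟩ := ‹Nonempty F›
    refine ⟨(h x₀).1, (h x₀).2.1, ?_⟩
    rintro _ ⟨x, t, ht, rfl⟩
    dsimp only
    rw [ext_map, (compat_tens aa bb x g.1 g.2).mul_ext, (compat_tens aa bb x g.1 g.2).ext_mul,
      (h x).2.2 t ht]

theorem traceK_ext (x : F) (e : TMat n (aa x) (bb x) E) (ε : ℤ) (Y : Matrix n n P) :
    traceK frob (ext aa bb x e) ε Y = traceK frob e ε Y := by
  unfold traceK
  have h1 : ext aa bb x e * (((2 - ε ^ 2 : ℤ) : E) • (1 : TMat n (cA aa) (cA bb) E) +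
      ((ε : ℤ) : E) • tens (cA aa) (cA bb) frob frob) =
      ext aa bb x (e * (((2 - ε ^ 2 : ℤ) : E) • (1 : TMat n (aa x) (bb x) E) +
        ((ε : ℤ) : E) • tens (aa x) (bb x) frob frob)) := by
    rw [Matrix.mul_add, Matrix.mul_smul, Matrix.mul_smul, Matrix.mul_one,
      (compat_tens aa bb x frob frob).ext_mul, Matrix.mul_add, Matrix.mul_smul, Matrix.mul_smul,
      Matrix.mul_one]
    unfold ext
    rw [Matrix.mul_add, Matrix.add_mul, Matrix.mul_smul, Matrix.mul_smul, Matrix.smul_mul,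
      Matrix.smul_mul]
  rw [h1, ext_map, (compat_lie aa bb x Y).mul_ext, trace_ext]

theorem traceP_ext (x : F) (f : TMat n (aa x) (bb x) E) (r : ℤ) (Z : Matrix n n P) :
    traceP idx (ext aa bb x f) r Z = traceP idx f r Z := by
  unfold traceP
  rw [ext_map, (compat_lie aa bb x Z).mul_ext]
  set W := lie (aa x) (bb x) Z * f.map (algebraMap E P) with hW
  rw [Finset.sum_filter, Finset.sum_filter]
  symm
  refine Finset.sum_of_injOn (inc aa bb x) (fun s _ t _ h => inc_injective aa bb x h)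
    (fun _ _ => Finset.mem_coe.mpr (Finset.mem_univ _)) ?_ ?_
  · intro s _ hs
    have h1 : ∀ w, s ≠ inc aa bb x w := by
      intro w hw
      exact hs ⟨w, Finset.mem_coe.mpr (Finset.mem_univ _), hw.symm⟩
    rw [(ext_zero aa bb x W s h1 s).1]
    simp
  · intro s _
    rw [ext_apply]
    rfl

section datum

variable {R : Type} [CommRing R] [Algebra E R] (M : Datum E R n)

theorem isMor_sum (h : ∀ x, ∀ s ∈ SS x, M.IsMor s.1 s.2) :
    ∀ s ∈ sumS aa bb SS, M.IsMor s.1 s.2 := by
  rintro _ ⟨x, t, ht, rfl⟩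
  obtain ⟨h1, h2, h3, h4⟩ := h x t ht
  have hent : ∀ (φ : n → ℤ) (X : TMat n (aa x) (bb x) E) (rel : ℤ → ℤ → Prop),
      (∀ i j, rel (wsum φ i) (wsum φ j) → X i j = 0) →
      ∀ i j, rel (wsum φ i) (wsum φ j) → ext aa bb x X i j = 0 := by
    intro φ X rel hX i j hij
    by_cases hi : ∃ w, i = inc aa bb x w
    · by_cases hj : ∃ w, j = inc aa bb x w
      · obtain ⟨w, rfl⟩ := hi
        obtain ⟨w', rfl⟩ := hj
        rw [ext_apply]
        exact hX w w' hij
      · push Not at hj
        exact (ext_zero aa bb x X j hj i).2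
    · push Not at hi
      exact (ext_zero aa bb x X i hi j).1
  refine ⟨?_, ?_, ?_, ?_⟩
  · dsimp only
    rw [ext_map, ext_map, (compat_tens aa bb x _ _).mul_ext, (compat_tens aa bb x _ _).ext_mul, h1]
  · dsimp only
    rw [(compat_tens aa bb x _ _).mul_ext, (compat_tens aa bb x _ _).ext_mul, h2]
  · exact hent M.wt t.1 (fun a b => a ≠ b) h3
  · exact hent M.idx t.2 (fun a b => a < b) h4

theorem isPeriod_ext (x : F) {e f : TMat n (aa x) (bb x) E} {ε r : ℤ} {c : R}
    (h : M.IsPeriod e f ε r c) : M.IsPeriod (ext aa bb x e) (ext aa bb x f) ε r c := by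
  obtain ⟨d, A, B, hA, hAr, hB, hBr, hc⟩ := h
  have hTe : (emb n aa bb E x)ᵀ * emb n aa bb E x = 1 := embT_mul_emb aa bb x
  have hTe' : ∀ v, (emb n aa bb E x)ᵀ.mulVec ((emb n aa bb E x).mulVec v) = v := fun v => by
    rw [mulVec_mulVec, hTe, one_mulVec]
  have hinj : Function.Injective (emb n aa bb E x).mulVec := fun v w hvw => by
    rw [← hTe' v, hvw, hTe']
  have hext : ∀ (X : TMat n (aa x) (bb x) E) v, (ext aa bb x X).mulVec v =
      (emb n aa bb E x).mulVec (X.mulVec ((emb n aa bb E x)ᵀ.mulVec v)) := by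
    intro X v
    unfold ext
    rw [mulVec_mulVec, mulVec_mulVec]
  have htens : ∀ v, (tens (cA aa) (cA bb) M.frob M.frob).mulVec ((emb n aa bb E x).mulVec v) =
      (emb n aa bb E x).mulVec ((tens (aa x) (bb x) M.frob M.frob).mulVec v) := by
    intro v
    rw [mulVec_mulVec, (compat_tens aa bb x _ _).mul_emb, ← mulVec_mulVec]
  refine ⟨d, emb n aa bb E x * A, B * (emb n aa bb E x)ᵀ, ?_, ?_, ?_, ?_, ?_⟩
  · intro v w hvw
    rw [← mulVec_mulVec, ← mulVec_mulVec] at hvw
    exact hA (hinj hvw)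
  · intro v
    constructor
    · rintro ⟨w, rfl⟩
      obtain ⟨h1, h2⟩ := (hAr (A.mulVec w)).mp ⟨w, rfl⟩
      rw [← mulVec_mulVec]
      refine ⟨by rw [hext, hTe', h1], ?_⟩
      rcases h2 with h2 | h2
      · exact Or.inl h2
      · right
        rw [htens, h2, mulVec_smul]
    · rintro ⟨h1, h2⟩
      rw [hext] at h1
      set z := (emb n aa bb E x)ᵀ.mulVec v with hz
      have h3 : e.mulVec z = z := by
        have h4 := congrArg (fun y => (emb n aa bb E x)ᵀ.mulVec y) h1
        rw [hTe'] at h4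
        exact h4
      have h5 : (emb n aa bb E x).mulVec z = v := by
        rw [← h3]
        exact h1
      obtain ⟨w, hw⟩ := (hAr z).mpr ⟨h3, by
        rcases h2 with h2 | h2
        · exact Or.inl h2
        · right
          rw [← h5, htens, ← mulVec_smul] at h2
          exact hinj h2⟩
      refine ⟨w, ?_⟩
      rw [← mulVec_mulVec, hw, h5]
  · intro v
    obtain ⟨w, hw⟩ := hB v
    refine ⟨(emb n aa bb E x).mulVec w, ?_⟩
    rw [← mulVec_mulVec, hTe', hw]
  · intro v
    rw [← mulVec_mulVec, hBr, hext]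
    have hval : ∀ (w : TIdx n (aa x) (bb x) → E) s,
        (emb n aa bb E x).mulVec w (inc aa bb x s) = w s := by
      intro w s
      rw [mulVec, dotProduct, Finset.sum_eq_single s]
      · simp [emb]
      · intro t _ hts
        have h1 : inc aa bb x s ≠ inc aa bb x t := fun e => hts (inc_injective aa bb x e).symm
        simp [emb, h1]
      · intro h
        exact absurd (Finset.mem_univ s) h
    constructor
    · intro h s' hs'
      by_cases hs : ∃ w, s' = inc aa bb x w
      · obtain ⟨w, rfl⟩ := hs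
        rw [hval]
        exact h w hs'
      · push Not at hs
        rw [mulVec, dotProduct]
        refine Finset.sum_eq_zero fun t _ => ?_
        simp [emb, hs t]
    · intro h s hs
      have h1 := h (inc aa bb x s) hs
      rw [hval] at h1
      exact h1
  · rw [hc, Matrix.map_mul, Matrix.map_mul, emb_map, emb_transpose_map]
    congr 1
    calc B.map (algebraMap E R) * tens (aa x) (bb x) M.comp M.comp⁻¹ * A.map (algebraMap E R) =
        B.map (algebraMap E R) * tens (aa x) (bb x) M.comp M.comp⁻¹ *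
          ((emb n aa bb R x)ᵀ * emb n aa bb R x) * A.map (algebraMap E R) := by
          rw [embT_mul_emb, Matrix.mul_one]
      _ = B.map (algebraMap E R) * (tens (aa x) (bb x) M.comp M.comp⁻¹ * (emb n aa bb R x)ᵀ) *
          emb n aa bb R x * A.map (algebraMap E R) := by
          simp only [Matrix.mul_assoc]
      _ = _ := by
          rw [← (compat_tens aa bb x M.comp M.comp⁻¹).embT_mul]
          simp only [Matrix.mul_assoc]

end datum

end sum

end Pool.Agent.MP100fe7G
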