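import Pool.Agent.Lib.MP_100fe7_nt.GTens

/-!
Betti - de Rham data of motives, morphisms between tensor constructions, Deligne periods of the
direct summands, and the criterion for multiplicative relations between these periods.
-/

namespace Pool.Agent.MP100fe7G

open Matrix

/-- The Betti - de Rham data of a finite direct sum `M = ⊕ M_w` of pure motives, where `R` is the
ring `E ⊗ ℂ`. The `E`-space `M_B` has a basis indexed by `n`, the vector `j` lying in the summand of
weight `wt j`, and `frob` is the matrix of `F_∞`. The `E`-space `M_DR` has a basis with the same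
index set and the same weights, adapted to the Hodge filtration: `F^a M_DR` is spanned by the vectors
`j` with `idx j ≥ a`. `comp` is the matrix of the comparison isomorphism, and `hodge p q` is
`M^{p, q} ⊆ M_B ⊗ ℂ`. -/
structure Datum (E R : Type) [Field E] [CommRing R] [Algebra E R] (n : Type) [Fintype n]
    [DecidableEq n] where
  /-- the weights of the basis vectors -/
  wt : n → ℤ
  /-- the Hodge indices of the basis vectors of `M_DR` -/
  idx : n → ℤ
  /-- the matrix of `F_∞` -/
  frob : Matrix n n E
  frob_sq : frob * frob = 1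
  frob_wt : ∀ i j, wt i ≠ wt j → frob i j = 0
  /-- the matrix of the comparison isomorphism -/
  comp : Matrix n n R
  comp_unit : IsUnit comp.det
  comp_wt : ∀ i j, wt i ≠ wt j → comp i j = 0
  /-- the Hodge decomposition `M_B ⊗ ℂ = ⊕ M^{p, q}` -/
  hodge : ℤ → ℤ → Submodule R (n → R)
  internal : DirectSum.IsInternal fun s : ℤ × ℤ => hodge s.1 s.2
  hodge_wt : ∀ p q, ∀ v ∈ hodge p q, ∀ j, wt j ≠ p + q → v j = 0
  frob_hodge : ∀ p q, (hodge p q).map (frob.map (algebraMap E R)).mulVecLin = hodge q p
  fil_hodge : ∀ (a : ℤ) (y : n → R),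
    y ∈ (⨆ p, ⨆ (_ : a ≤ p), ⨆ q, hodge p q).map comp.mulVecLin ↔ ∀ j, idx j < a → y j = 0

/-- The square matrices over `S` indexed by the basis of the tensor construction
`T = ⊕_j M^{⊗ a j} ⊗ (M^∨)^{⊗ b j}`. -/
abbrev TMat (n : Type) {J : Type} (a b : J → ℕ) (S : Type*) : Type _ :=
  Matrix (TIdx n a b) (TIdx n a b) S

section point

variable {E : Type} [Field E] {n J : Type} [Fintype n] [DecidableEq n] [Fintype J] [DecidableEq J]
  {a b : J → ℕ}

/-- `x`, with inverse `y`, is a `P`-valued point of the torsor of the isomorphisms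
`M_B → M_DR` which respect the weights and the pairs in `S`: they are block diagonal and
`T(x) s_B = s_DR T(x)` for all `(s_B, s_DR)` in `S`. -/
def IsPt (wt : n → ℤ) (S : Set (TMat n a b E × TMat n a b E)) {P : Type*} [CommRing P]
    [Algebra E P] (x y : Matrix n n P) : Prop :=
  x * y = 1 ∧ (∀ i j, wt i ≠ wt j → x i j = 0) ∧ (∀ i j, wt i ≠ wt j → y i j = 0) ∧
    ∀ s ∈ S, tens a b x y * s.1.map (algebraMap E P) = s.2.map (algebraMap E P) * tens a b x y

/-- `X` is in the Lie algebra, over the `E`-algebra `P`, of the stabiliser of a set `S` of matrices: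
it is block diagonal for the weights and its action `lie X` on the tensor construction commutes with
the elements of `S`. -/
def InLie (wt : n → ℤ) (S : Set (TMat n a b E)) {P : Type*} [CommRing P] [Algebra E P]
    (X : Matrix n n P) : Prop :=
  (∀ i j, wt i ≠ wt j → X i j = 0) ∧
    ∀ s ∈ S, lie a b X * s.map (algebraMap E P) = s.map (algebraMap E P) * lie a b X

/-- `Y` is in the Lie algebra `𝔨` of the centraliser of `F_∞` in the stabiliser of the Betti
components of `S`. -/
def InK (wt : n → ℤ) (frob : Matrix n n E) (S : Set (TMat n a b E × TMat n a b E)) {P : Type*}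
    [CommRing P] [Algebra E P] (Y : Matrix n n P) : Prop :=
  InLie wt (Prod.fst '' S) Y ∧ Y * frob.map (algebraMap E P) = frob.map (algebraMap E P) * Y

/-- `Z` is in the Lie algebra `𝔭` of the stabiliser of the Hodge filtration in the stabiliser of the
de Rham components of `S`. -/
def InP (wt idx : n → ℤ) (S : Set (TMat n a b E × TMat n a b E)) {P : Type*}
    [CommRing P] [Algebra E P] (Z : Matrix n n P) : Prop :=
  InLie wt (Prod.snd '' S) Z ∧ ∀ i j, idx i < idx j → Z i j = 0

/-- Twice the trace of `lie Y` on `N^ε`, where `N` is the direct summand of the tensor construction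
with Betti projector `e`, and `N^ε` is the `ε`-eigenspace of `F_∞` on `N_B` if `ε = ±1`, and
`N^0 = N_B`: the matrix `e * ((2 - ε ^ 2) + ε T(F_∞))` is twice the projector onto `N^ε`. -/
def traceK (frob : Matrix n n E) (e : TMat n a b E) (ε : ℤ) {P : Type*} [CommRing P] [Algebra E P]
    (Y : Matrix n n P) : P :=
  (lie a b Y * (e * (((2 - ε ^ 2 : ℤ) : E) • (1 : TMat n a b E) +
    ((ε : ℤ) : E) • tens a b frob frob)).map (algebraMap E P)).trace

/-- The trace of `lie Z` on `N_DR / F^r N_DR`, where `N` is the direct summand of the tensor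
construction with de Rham projector `f`. -/
def traceP (idx : n → ℤ) (f : TMat n a b E) (r : ℤ) {P : Type*} [CommRing P] [Algebra E P]
    (Z : Matrix n n P) : P :=
  ∑ s with wsum idx s < r, (lie a b Z * f.map (algebraMap E P)) s s

end point

namespace Datum

variable {E R : Type} [Field E] [CommRing R] [Algebra E R] {n J : Type} [Fintype n] [DecidableEq n]
  [Fintype J] [DecidableEq J] {a b : J → ℕ} (M : Datum E R n)

/-- The pair `(s, t)` of matrices over `E` is (the Betti and de Rham component of) an endomorphism of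
the realisations of the tensor construction `T = ⊕_j M^{⊗ a j} ⊗ (M^∨)^{⊗ b j}`: it is compatible
with the comparison isomorphism, with `F_∞`, with the weights and with the Hodge filtration. -/
def IsMor (s t : TMat n a b E) : Prop :=
  tens a b M.comp M.comp⁻¹ * s.map (algebraMap E R) =
      t.map (algebraMap E R) * tens a b M.comp M.comp⁻¹ ∧
    tens a b M.frob M.frob * s = s * tens a b M.frob M.frob ∧
    (∀ i j, wsum M.wt i ≠ wsum M.wt j → s i j = 0) ∧
    ∀ i j, wsum M.idx i < wsum M.idx j → t i j = 0

/-- `c` is the determinant of `N^ε ⊗ ℂ → (N_DR / F^r N_DR) ⊗ ℂ` in `E`-bases of `N^ε` and of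
`N_DR / F^r N_DR`, where `N` is the direct summand of the tensor construction `T` cut out by the
projector `(e, f)`, and `N^ε` is the `ε`-eigenspace of `F_∞` on `N_B` if `ε = ±1`, and `N^0 = N_B`.
The columns of `A` are a basis of `N^ε`, and `B` is the projection of `N_DR` onto
`N_DR / F^r N_DR` in a basis of the quotient, extended to `T_DR` by zero on the kernel of `f`. -/
def IsPeriod (e f : TMat n a b E) (ε r : ℤ) (c : R) : Prop :=
  ∃ (d : ℕ) (A : Matrix (TIdx n a b) (Fin d) E) (B : Matrix (Fin d) (TIdx n a b) E),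
    Function.Injective A.mulVec ∧
    (∀ v, v ∈ Set.range A.mulVec ↔
      e.mulVec v = v ∧ (ε = 0 ∨ (tens a b M.frob M.frob).mulVec v = ((ε : ℤ) : E) • v)) ∧
    Function.Surjective B.mulVec ∧
    (∀ v, B.mulVec v = 0 ↔ ∀ s, wsum M.idx s < r → f.mulVec v s = 0) ∧
    c = (B.map (algebraMap E R) * tens a b M.comp M.comp⁻¹ * A.map (algebraMap E R)).det

/-- The direct summand `N` with projector `(e, f)` is pure of weight `k`. -/
def IsPure (e : TMat n a b E) (k : ℤ) : Prop :=
  ∀ s t, wsum M.wt s ≠ k ∨ wsum M.wt t ≠ k → e s t = 0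

/-- The direct summand `N` with projector `(e, f)`, pure of weight `k`, has no classes of type
`(k/2, k/2)`. -/
def NoMiddle (f : TMat n a b E) (k : ℤ) : Prop :=
  ∀ v, f.mulVec v = v → (∀ s, 2 * wsum M.idx s < k → v s = 0) → ∀ s, 2 * wsum M.idx s ≤ k → v s = 0

variable {I : Type} [Fintype I]

/-- The criterion: the characters of `𝔨` and of `𝔭` given by `∑ i, m i * trace (· | N_i^{ε i})` and
by `∑ i, m i * trace (· | N_{i, DR} / F^{r i})` are zero. -/
def Crit (S : Set (TMat n a b E × TMat n a b E)) (N : I → TMat n a b E × TMat n a b E)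
    (ε r m : I → ℤ) : Prop :=
  (∀ Y : Matrix n n E, InK M.wt M.frob S Y → ∑ i, (m i : E) * traceK M.frob (N i).1 (ε i) Y = 0) ∧
    ∀ Z : Matrix n n E, InP M.wt M.idx S Z → ∑ i, (m i : E) * traceP M.idx (N i).2 (r i) Z = 0

end Datum

/-- The Lie algebra over `E` of the stabiliser of the Betti components of `S`. -/
def lieB {E : Type} [Field E] {n J : Type} [Fintype n] [DecidableEq n] [Fintype J] [DecidableEq J]
    {a b : J → ℕ} (wt : n → ℤ) (S : Set (TMat n a b E × TMat n a b E)) :
    Submodule E (Matrix n n E) where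
  carrier := {X | InLie wt (Prod.fst '' S) X}
  zero_mem' := ⟨fun _ _ _ => rfl, fun s _ => by rw [lie_zero, zero_mul, mul_zero]⟩
  add_mem' := fun {X Y} hX hY => ⟨fun i j h => by rw [Matrix.add_apply, hX.1 i j h, hY.1 i j h,
    add_zero], fun s hs => by rw [lie_add, Matrix.add_mul, Matrix.mul_add, hX.2 s hs, hY.2 s hs]⟩
  smul_mem' := fun c X hX => ⟨fun i j h => by rw [Matrix.smul_apply, hX.1 i j h, smul_zero],
    fun s hs => by rw [lie_smul, Matrix.smul_mul, Matrix.mul_smul, hX.2 s hs]⟩

/-- The group of the complex points, with respect to the embedding `τ : E → ℂ`, of the stabiliser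
in `∏_w GL(M_w)` of the Betti components of `S`: the pairs `(g, g⁻¹)`. -/
def group {E : Type} [Field E] {n J : Type} [Fintype n] [DecidableEq n] [Fintype J]
    [DecidableEq J] {a b : J → ℕ} (wt : n → ℤ) (S : Set (TMat n a b E × TMat n a b E))
    (τ : E →+* ℂ) : Set (Matrix n n ℂ × Matrix n n ℂ) :=
  {g | g.1 * g.2 = 1 ∧ (∀ i j, wt i ≠ wt j → g.1 i j = 0) ∧
    ∀ s ∈ S, tens a b g.1 g.2 * s.1.map τ = s.1.map τ * tens a b g.1 g.2}

/-- The group `group wt S τ` is irreducible (that is, connected): if the product of two polynomials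
in the entries of `g` and `g⁻¹` vanishes on it, one of them vanishes on it. -/
def IsConn {E : Type} [Field E] {n J : Type} [Fintype n] [DecidableEq n] [Fintype J]
    [DecidableEq J] {a b : J → ℕ} (wt : n → ℤ) (S : Set (TMat n a b E × TMat n a b E))
    (τ : E →+* ℂ) : Prop :=
  ∀ p q : MvPolynomial ((n × n) ⊕ (n × n)) ℂ,
    (∀ g ∈ group wt S τ,
      (p * q).eval (Sum.elim (fun i => g.1 i.1 i.2) fun i => g.2 i.1 i.2) = 0) →
    (∀ g ∈ group wt S τ, p.eval (Sum.elim (fun i => g.1 i.1 i.2) fun i => g.2 i.1 i.2) = 0) ∨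
    ∀ g ∈ group wt S τ, q.eval (Sum.elim (fun i => g.1 i.1 i.2) fun i => g.2 i.1 i.2) = 0

end Pool.Agent.MP100fe7G
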