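import Pool.Agent.Lib.MP_100fe7_nt.G8Eig
import Pool.Agent.Lib.MP_100fe7_nt.GDefs

/-!
The traces of the criterion are in every group which contains the eigenvalues.
-/

set_option linter.unusedSectionVars false

namespace Pool.Agent.MP100fe7G

open Matrix

/-- All eigenvalues of `A` are in `L`. -/
def EigIn {K : Type} [Field K] {m : Type} [Fintype m] (A : Matrix m m K) (L : AddSubgroup K) :
    Prop :=
  ∀ (μ : K) (v : m → K), v ≠ 0 → A.mulVec v = μ • v → μ ∈ L

section

variable {K : Type} [Field K] {m : Type} [Fintype m] [DecidableEq m]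

theorem EigIn.transpose {A : Matrix m m K} {L : AddSubgroup K} (h : EigIn A L) : EigIn Aᵀ L := by
  intro μ v hv hμ
  have h1 : (Matrix.scalar m μ - Aᵀ).det = 0 := by
    refine Matrix.exists_mulVec_eq_zero_iff.mp ⟨v, hv, ?_⟩
    rw [sub_mulVec, hμ, sub_eq_zero]
    simp
  have h2 : (Matrix.scalar m μ - A).det = 0 := by
    rw [← Matrix.det_transpose, Matrix.transpose_sub]
    have h3 : (Matrix.scalar m μ)ᵀ = Matrix.scalar m μ := by
      simp [Matrix.scalar_apply, Matrix.diagonal_transpose]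
    rw [h3]
    exact h1
  obtain ⟨w, hw, hw'⟩ := Matrix.exists_mulVec_eq_zero_iff.mpr h2
  refine h μ w hw ?_
  rw [sub_mulVec] at hw'
  rw [← sub_eq_zero.mp hw']
  simp

theorem trace_mul_mem [IsAlgClosed K] [CharZero K] {A Q : Matrix m m K} {L : AddSubgroup K}
    (h : EigIn A L) (hAQ : A * Q = Q * A) (hQ : Q * Q = (2 : K) • Q) : (A * Q).trace ∈ L := by
  refine trace_mem _ L fun μ v hv hμ => ?_
  by_cases h0 : μ = 0
  · rw [h0]
    exact zero_mem L
  · have h1 : μ • Q.mulVec v = μ • ((2 : K) • v) := by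
      rw [← mulVec_smul, ← hμ, mulVec_mulVec, ← Matrix.mul_assoc, ← hAQ, Matrix.mul_assoc, hQ,
        Matrix.mul_smul, smul_mulVec, hμ, smul_comm]
    have h2 : Q.mulVec v = (2 : K) • v := smul_right_injective _ h0 h1
    have h3 : A.mulVec v = (μ / 2) • v := by
      have h4 : (2 : K) • A.mulVec v = μ • v := by
        rw [← mulVec_smul, ← h2, mulVec_mulVec, hμ]
      have h5 : (2 : K) ≠ 0 := two_ne_zero
      calc A.mulVec v = (2 : K)⁻¹ • ((2 : K) • A.mulVec v) := by rw [smul_smul, inv_mul_cancel₀ h5, one_smul]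
        _ = (μ / 2) • v := by rw [h4, smul_smul, div_eq_mul_inv, mul_comm]
    have h6 := h _ v hv h3
    have h7 : μ = μ / 2 + μ / 2 := by ring
    rw [h7]
    exact add_mem h6 h6

theorem trace_quot_mem [IsAlgClosed K] {A F D : Matrix m m K} {L : AddSubgroup K}
    (h : EigIn A L) (hAF : A * F = F * A) (hF : F * F = F)
    (hDA : D * (A * F) = D * (A * F) * D) : (D * (A * F)).trace ∈ L := by
  rw [← Matrix.trace_transpose]
  refine trace_mem _ L fun μ v hv hμ => ?_
  rw [mulVec_transpose] at hμ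
  by_cases h0 : μ = 0
  · rw [h0]
    exact zero_mem L
  · have h1 : μ • vecMul v D = μ • v := by
      rw [← hμ, ← smul_vecMul, ← hμ, vecMul_vecMul, ← hDA]
    have h2 : vecMul v D = v := smul_right_injective _ h0 h1
    have h3 : vecMul v (A * F) = μ • v := by
      rw [← vecMul_vecMul, h2] at hμ
      exact hμ
    have h4 : μ • vecMul v F = μ • v := by
      rw [← smul_vecMul, ← h3, vecMul_vecMul, Matrix.mul_assoc, hF]
    have h5 : vecMul v F = v := smul_right_injective _ h0 h4
    have h6 : vecMul v A = μ • v := by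
      rw [hAF, ← vecMul_vecMul, h5] at h3
      exact h3
    exact h.transpose μ v hv (by rw [mulVec_transpose, h6])

end

section

variable {E : Type} [Field E] {n J : Type} [Fintype n] [DecidableEq n] [Fintype J]
  [DecidableEq J] {a b : J → ℕ} {wt idx : n → ℤ} {frob : Matrix n n E}
  {S : Set (TMat n a b E × TMat n a b E)} {Ω : Type} [Field Ω] [IsAlgClosed Ω] [CharZero Ω]
  [Algebra E Ω]

theorem traceK_mem {Y : Matrix n n Ω} (hY : InK wt frob S Y) (hF : frob * frob = 1)
    {N : TMat n a b E × TMat n a b E} (hN : N ∈ S) (hid : N.1 * N.1 = N.1)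
    (hc : tens a b frob frob * N.1 = N.1 * tens a b frob frob) {ε : ℤ}
    (hε : ε = 0 ∨ ε = 1 ∨ ε = -1) {L : AddSubgroup Ω} (hL : EigIn (lie a b Y) L) :
    traceK frob N.1 ε Y ∈ L := by
  unfold traceK
  set T := tens a b frob frob with hT
  have hTT : T * T = 1 := tens_inv hF
  set q : TMat n a b E := N.1 * (((2 - ε ^ 2 : ℤ) : E) • (1 : TMat n a b E) +
    ((ε : ℤ) : E) • T) with hq
  have hqq : q * q = (2 : E) • q := by
    have h1 : (((2 - ε ^ 2 : ℤ) : E) • (1 : TMat n a b E) + ((ε : ℤ) : E) • T) * N.1 =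
        N.1 * (((2 - ε ^ 2 : ℤ) : E) • (1 : TMat n a b E) + ((ε : ℤ) : E) • T) := by
      rw [Matrix.add_mul, Matrix.mul_add, Matrix.smul_mul, Matrix.mul_smul, Matrix.smul_mul,
        Matrix.mul_smul, Matrix.one_mul, Matrix.mul_one, hc]
    have h2 : (((2 - ε ^ 2 : ℤ) : E) • (1 : TMat n a b E) + ((ε : ℤ) : E) • T) *
        (((2 - ε ^ 2 : ℤ) : E) • (1 : TMat n a b E) + ((ε : ℤ) : E) • T) =
        (2 : E) • (((2 - ε ^ 2 : ℤ) : E) • (1 : TMat n a b E) + ((ε : ℤ) : E) • T) := by
      rw [Matrix.add_mul, Matrix.mul_add, Matrix.mul_add]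
      simp only [Matrix.smul_mul, Matrix.mul_smul, Matrix.one_mul, Matrix.mul_one, hTT, smul_add,
        smul_smul]
      rcases hε with rfl | rfl | rfl
      · norm_num
      · norm_num
        module
      · norm_num
        module
    rw [hq, Matrix.mul_assoc, ← Matrix.mul_assoc _ N.1, h1, Matrix.mul_assoc, h2, Matrix.mul_smul,
      Matrix.mul_smul, ← Matrix.mul_assoc, hid]
  have hcT : lie a b Y * T.map (algebraMap E Ω) = T.map (algebraMap E Ω) * lie a b Y := by
    set F := frob.map (algebraMap E Ω) with hFdef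
    have hFF : F * F = 1 := by
      rw [hFdef, ← Matrix.map_mul, hF, Matrix.map_one _ (map_zero _) (map_one _)]
    have h1 : T.map (algebraMap E Ω) = tens a b F F := by
      rw [hT, tens_map]
    have h2 := lie_conj (a := a) (b := b) hFF Y
    have h3 : F * Y * F = Y := by
      rw [← hY.2, Matrix.mul_assoc, hFF, Matrix.mul_one]
    have h4 : tens a b F F * tens a b F F = 1 := tens_inv hFF
    rw [h3] at h2
    rw [h1]
    calc lie a b Y * tens a b F F = (tens a b F F * lie a b Y * tens a b F F) * tens a b F F := by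
          rw [h2]
      _ = tens a b F F * lie a b Y := by rw [Matrix.mul_assoc, h4, Matrix.mul_one]
  have hce : lie a b Y * N.1.map (algebraMap E Ω) = N.1.map (algebraMap E Ω) * lie a b Y :=
    hY.1.2 _ ⟨N, hN, rfl⟩
  have hmap : q.map (algebraMap E Ω) = N.1.map (algebraMap E Ω) *
      ((((2 - ε ^ 2 : ℤ) : E) • (1 : TMat n a b E) + ((ε : ℤ) : E) • T).map (algebraMap E Ω)) := by
    rw [hq, Matrix.map_mul]
  have hmap2 : (((2 - ε ^ 2 : ℤ) : E) • (1 : TMat n a b E) + ((ε : ℤ) : E) • T).map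
      (algebraMap E Ω) = (((2 - ε ^ 2 : ℤ) : Ω) • (1 : TMat n a b Ω) +
        ((ε : ℤ) : Ω) • T.map (algebraMap E Ω)) := by
    rw [Matrix.map_add _ (fun _ _ => map_add _ _ _)]
    congr 1
    · rw [Matrix.map_smul' _ _ _ (fun _ _ => map_mul _ _ _), map_intCast,
        Matrix.map_one _ (map_zero _) (map_one _)]
    · rw [Matrix.map_smul' _ _ _ (fun _ _ => map_mul _ _ _), map_intCast]
  refine trace_mul_mem hL ?_ ?_
  · rw [hmap, hmap2, ← Matrix.mul_assoc, hce, Matrix.mul_assoc, Matrix.mul_assoc]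
    congr 1
    rw [Matrix.mul_add, Matrix.add_mul, Matrix.mul_smul, Matrix.smul_mul, Matrix.mul_smul,
      Matrix.smul_mul, Matrix.mul_one, Matrix.one_mul, hcT]
  · rw [← Matrix.map_mul, hqq, Matrix.map_smul' _ _ _ (fun _ _ => map_mul _ _ _), map_ofNat]

theorem traceP_mem {Z : Matrix n n Ω} (hZ : InP wt idx S Z)
    {N : TMat n a b E × TMat n a b E} (hN : N ∈ S) (hid : N.2 * N.2 = N.2)
    (hfil : ∀ i j, wsum idx i < wsum idx j → N.2 i j = 0) (r : ℤ) {L : AddSubgroup Ω}
    (hL : EigIn (lie a b Z) L) : traceP idx N.2 r Z ∈ L := by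
  unfold traceP
  set D : TMat n a b Ω := diagonal fun s => if wsum idx s < r then 1 else 0 with hD
  set F := N.2.map (algebraMap E Ω) with hFdef
  have hFF : F * F = F := by
    rw [hFdef, ← Matrix.map_mul, hid]
  have hfilX : ∀ s t, wsum idx s < wsum idx t → (lie a b Z * F) s t = 0 := by
    intro s t hst
    rw [mul_apply]
    refine Finset.sum_eq_zero fun k _ => ?_
    by_cases h1 : wsum idx s < wsum idx k
    · rw [lie_filt idx hZ.2 s k h1, zero_mul]
    · rw [hFdef, map_apply, hfil k t (by omega), map_zero, mul_zero]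
  have hcF : lie a b Z * F = F * lie a b Z := hZ.1.2 _ ⟨N, hN, rfl⟩
  have h1 := trace_quot_mem (D := D) hL hcF hFF (by
    refine Matrix.ext fun s t => ?_
    rw [hD, mul_diagonal, diagonal_mul]
    by_cases hs : wsum idx s < r
    · by_cases ht : wsum idx t < r
      · rw [if_pos ht, mul_one]
      · rw [hfilX s t (by omega)]
        simp
    · rw [if_neg hs]
      simp)
  have h2 : ∑ s with wsum idx s < r, (lie a b Z * F) s s = (D * (lie a b Z * F)).trace := by
    rw [Matrix.trace, Finset.sum_filter]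
    refine Finset.sum_congr rfl fun s _ => ?_
    rw [diag_apply, hD, diagonal_mul]
    split_ifs <;> simp
  rw [h2]
  exact h1

end

end Pool.Agent.MP100fe7G
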