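import Pool.Agent.Lib.MP_100fe7_nt.G9Point

/-!
Degrees of constants on a variety with a bounded number of irreducible components.
-/

set_option linter.unusedSectionVars false

namespace Pool.Agent.MP100fe7G

open MvPolynomial

/-- The data attached to a prime ideal `Q` at whose generic point `A / B` is algebraic: the minimal
polynomial of `A / B`. -/
theorem prime_data {E V Ω : Type} [Field E] [CharZero E] [Finite V] [Field Ω] [IsAlgClosed Ω]
    [Algebra E Ω] (Q : Ideal (MvPolynomial V E)) (hQ : Q.IsPrime) (A B : MvPolynomial V E)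
    (h : ∀ (L : Type) [Field L] [Algebra E L] (η : V → L), (∀ p, aeval η p = 0 ↔ p ∈ Q) →
      aeval η B ≠ 0 ∧ IsAlgebraic E (aeval η A / aeval η B)) :
    B ∉ Q ∧ ∃ μ : Polynomial E, μ.Monic ∧ (μ.aroots Ω).Nodup ∧
      (∀ (K : Type) [Field K] [Algebra E K] (t : V → K), (∀ p ∈ Q, aeval t p = 0) →
        aeval t B ≠ 0 → Polynomial.aeval (aeval t A / aeval t B) μ = 0) ∧
      ∀ z ∈ μ.aroots Ω, ∀ C : MvPolynomial V E, C ∉ Q → ∃ t : V → Ω,
        (∀ p ∈ Q, aeval t p = 0) ∧ aeval t C ≠ 0 ∧ aeval t A = z * aeval t B := by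
  obtain ⟨L, _, _, η, hη⟩ := exists_gen_point Q hQ
  obtain ⟨hB, halg⟩ := h L η hη
  have hint : IsIntegral E (aeval η A / aeval η B) := halg.isIntegral
  refine ⟨fun h1 => hB ((hη B).mpr h1), minpoly E (aeval η A / aeval η B), minpoly.monic hint,
    ?_, ?_, ?_⟩
  · rw [Polynomial.nodup_aroots_iff_of_splits (minpoly.ne_zero hint) (IsAlgClosed.splits _)]
    exact (minpoly.irreducible hint).separable
  · intro K _ _ t ht hBt
    set μ := minpoly E (aeval η A / aeval η B) with hμ
    set G : MvPolynomial V E := ∑ k ∈ Finset.range (μ.natDegree + 1),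
      C (μ.coeff k) * A ^ k * B ^ (μ.natDegree - k) with hG
    have hGt : ∀ {K' : Type} [Field K'] [Algebra E K'] (t : V → K'), aeval t B ≠ 0 →
        aeval t G = aeval t B ^ μ.natDegree *
          Polynomial.aeval (aeval t A / aeval t B) μ := by
      intro K' _ _ t hB'
      rw [← hom_value μ _ _ hB', hG, map_sum]
      refine Finset.sum_congr rfl fun k _ => ?_
      rw [map_mul, map_mul, map_pow, map_pow]
      rw [algHom_C]
    have h1 : aeval η G = 0 := by
      rw [hGt η hB, hμ, minpoly.aeval, mul_zero]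
    have h2 := ht G ((hη G).mp h1)
    rw [hGt t hBt] at h2
    exact (mul_eq_zero.mp h2).resolve_left (pow_ne_zero _ hBt)
  · intro z hz C hC
    have hC' : aeval η C ≠ 0 := fun h1 => hC ((hη C).mp h1)
    obtain ⟨t, h1, h2, h3⟩ := exists_point η hint hz A B C hC'
      (by rw [div_mul_cancel₀ _ hB])
    exact ⟨t, fun p hp => h1 p ((hη p).mpr hp), h2, h3⟩

/-- Let the common zeros in `Ω` of a set `J` of polynomials over `E` have at most `c` irreducible
components over `Ω`. If `A / B` is algebraic over `E` at all points which specialise to one of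
finitely many points (given by their prime ideals `P i`), its values at these points are roots
of one nonzero polynomial over `E` of degree at most `c`. -/
theorem comp_degree {E V Ω : Type} [Field E] [CharZero E] [Finite V] [Field Ω] [IsAlgClosed Ω]
    [Algebra E Ω] (J : Set (MvPolynomial V E)) (c : ℕ)
    (hcomp : ∀ p : Fin (c + 1) → MvPolynomial V Ω,
      (∀ i j, i ≠ j → ∀ t : V → Ω, (∀ j ∈ J, aeval t j = 0) → eval t (p i * p j) = 0) →
      ∃ i, ∀ t : V → Ω, (∀ j ∈ J, aeval t j = 0) → eval t (p i) = 0)
    {ι : Type} [Finite ι] (P : ι → Ideal (MvPolynomial V E)) (hP : ∀ i, (P i).IsPrime)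
    (hJP : ∀ i, J ⊆ P i) (A B : MvPolynomial V E)
    (halg : ∀ i, ∀ (L : Type) [Field L] [Algebra E L] (η : V → L),
      (∀ j ∈ J, aeval η j = 0) → (∀ p, aeval η p = 0 → p ∈ P i) →
        aeval η B ≠ 0 ∧ IsAlgebraic E (aeval η A / aeval η B)) :
    ∃ q : Polynomial E, q ≠ 0 ∧ q.natDegree ≤ c ∧ ∀ i, ∀ (K : Type) [Field K] [Algebra E K]
      (t : V → K), (∀ p ∈ P i, aeval t p = 0) → aeval t B ≠ 0 →
        Polynomial.aeval (aeval t A / aeval t B) q = 0 := by
  classical
  have := Fintype.ofFinite ι
  set I : Ideal (MvPolynomial V E) := Ideal.span J with hI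
  have hex : ∀ i, ∃ Q ∈ I.minimalPrimes, Q ≤ P i := fun i => by
    have := hP i
    exact Ideal.exists_minimalPrimes_le (Ideal.span_le.mpr (hJP i))
  choose Q hQmin hQP using hex
  -- the finite set of minimal primes below the given primes
  set s : Finset (Ideal (MvPolynomial V E)) := Finset.univ.image Q with hs
  have hsmin : ∀ R : s, (R : Ideal (MvPolynomial V E)) ∈ I.minimalPrimes := by
    rintro ⟨R, hR⟩
    rw [hs, Finset.mem_image] at hR
    obtain ⟨i, -, rfl⟩ := hR
    exact hQmin i
  have hdata : ∀ R : s, B ∉ (R : Ideal (MvPolynomial V E)) ∧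
      ∃ μ : Polynomial E, μ.Monic ∧ (μ.aroots Ω).Nodup ∧
      (∀ (K : Type) [Field K] [Algebra E K] (t : V → K),
        (∀ p ∈ (R : Ideal (MvPolynomial V E)), aeval t p = 0) →
        aeval t B ≠ 0 → Polynomial.aeval (aeval t A / aeval t B) μ = 0) ∧
      ∀ z ∈ μ.aroots Ω, ∀ C : MvPolynomial V E, C ∉ (R : Ideal (MvPolynomial V E)) →
        ∃ t : V → Ω, (∀ p ∈ (R : Ideal (MvPolynomial V E)), aeval t p = 0) ∧ aeval t C ≠ 0 ∧
          aeval t A = z * aeval t B := by
    rintro ⟨R, hR⟩
    have hR' := hR
    rw [hs, Finset.mem_image] at hR'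
    obtain ⟨i, -, hi⟩ := hR'
    refine prime_data R (hsmin ⟨R, hR⟩).1.1 A B fun L _ _ η hη => ?_
    refine halg i L η (fun j hj => ?_) fun p hp => ?_
    · exact (hη j).mpr ((hsmin ⟨R, hR⟩).1.2 (Ideal.subset_span hj))
    · have h1 := (hη p).mp hp
      rw [← hi] at h1
      exact hQP i h1
  choose hBR μ hmon hnod hroot hpt using hdata
  choose h hhR hhP using fun R : s => exists_sep I (R : Ideal (MvPolynomial V E)) (hsmin R)
  refine ⟨∏ R : s, μ R, ?_, ?_, ?_⟩
  · exact (Polynomial.monic_prod_of_monic _ _ fun R _ => hmon R).ne_zero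
  · rw [Polynomial.natDegree_prod_of_monic _ _ fun R _ => hmon R]
    by_contra hcon
    push Not at hcon
    -- the pairs of a minimal prime and a root
    have hcard : Fintype.card (Σ R : s, ((μ R).aroots Ω).toFinset) =
        ∑ R : s, (μ R).natDegree := by
      rw [Fintype.card_sigma]
      refine Finset.sum_congr rfl fun R _ => ?_
      rw [Fintype.card_coe, Multiset.toFinset_card_of_nodup (hnod R)]
      have hsp : ((μ R).map (algebraMap E Ω)).Splits := IsAlgClosed.splits _
      rw [Polynomial.aroots_def, ← hsp.natDegree_eq_card_roots, Polynomial.natDegree_map]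
    have hle : Fintype.card (Fin (c + 1)) ≤
        Fintype.card (Σ R : s, ((μ R).aroots Ω).toFinset) := by
      rw [hcard, Fintype.card_fin]
      exact hcon
    obtain ⟨e⟩ := Function.Embedding.nonempty_of_card_le hle
    set g : (Σ R : s, ((μ R).aroots Ω).toFinset) → MvPolynomial V Ω := fun x =>
      map (algebraMap E Ω) (h x.1 * B) *
        ∏ w ∈ ((μ x.1).aroots Ω).toFinset.erase (x.2 : Ω),
          (map (algebraMap E Ω) A - C w * map (algebraMap E Ω) B) with hg
    have hgt : ∀ x (t : V → Ω), eval t (g x) = aeval t (h x.1) * aeval t B *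
        ∏ w ∈ ((μ x.1).aroots Ω).toFinset.erase (x.2 : Ω), (aeval t A - w * aeval t B) := by
      intro x t
      have h1 : ∀ p : MvPolynomial V E, eval t (map (algebraMap E Ω) p) = aeval t p := fun p => by
        rw [eval_map, aeval_def]
      rw [hg]
      simp only [map_mul, map_prod, map_sub, h1, eval_C]
    obtain ⟨i, hi⟩ := hcomp (fun i => g (e i)) (by
      intro i j hij t ht
      show eval t (g (e i) * g (e j)) = 0
      have hxy : e i ≠ e j := fun h1 => hij (e.injective h1)
      generalize e i = x at hxy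
      generalize e j = y at hxy
      rw [map_mul, hgt, hgt]
      -- the minimal prime below the point
      have hker : (RingHom.ker (aeval t : MvPolynomial V E →ₐ[E] Ω)).IsPrime :=
        RingHom.ker_isPrime _
      obtain ⟨R, hR, hRt⟩ := Ideal.exists_minimalPrimes_le (I := I)
        (J := RingHom.ker (aeval t : MvPolynomial V E →ₐ[E] Ω))
        (Ideal.span_le.mpr fun j hj => ht j hj)
      by_cases hx : R = (x.1 : Ideal (MvPolynomial V E))
      · by_cases hy : R = (y.1 : Ideal (MvPolynomial V E))
        · have hxy1 : x.1 = y.1 := Subtype.ext (hx.symm.trans hy)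
          obtain ⟨x1, x2⟩ := x
          obtain ⟨y1, y2⟩ := y
          dsimp only at hxy1 hx hy
          subst hxy1
          have hne : (x2 : Ω) ≠ y2 := by
            intro h1
            exact hxy (by rw [Subtype.ext h1])
          dsimp only
          by_cases hBt : aeval t B = 0
          · rw [hBt]
            ring
          · have h1 := hroot x1 Ω t (fun p hp => by
              rw [← hx] at hp
              exact hRt hp) hBt
            have h2 : aeval t A / aeval t B ∈ ((μ x1).aroots Ω).toFinset := by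
              rw [Multiset.mem_toFinset, Polynomial.mem_aroots]
              exact ⟨(hmon x1).ne_zero, h1⟩
            have h3 : aeval t A - aeval t A / aeval t B * aeval t B = 0 := by
              rw [div_mul_cancel₀ _ hBt, sub_self]
            by_cases h4 : aeval t A / aeval t B = x2
            · have h5 : ∏ w ∈ ((μ x1).aroots Ω).toFinset.erase (y2 : Ω),
                  (aeval t A - w * aeval t B) = 0 :=
                Finset.prod_eq_zero (Finset.mem_erase.mpr ⟨by rw [h4]; exact hne, h2⟩) h3
              rw [h5]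
              ring
            · have h5 : ∏ w ∈ ((μ x1).aroots Ω).toFinset.erase (x2 : Ω),
                  (aeval t A - w * aeval t B) = 0 :=
                Finset.prod_eq_zero (Finset.mem_erase.mpr ⟨h4, h2⟩) h3
              rw [h5]
              ring
        · have h1 : aeval t (h y.1) = 0 := hRt (hhP y.1 R hR hy)
          rw [h1]
          ring
      · have h1 : aeval t (h x.1) = 0 := hRt (hhP x.1 R hR hx)
        rw [h1]
        ring)
    -- a point at which `g (e i)` does not vanish
    set x := e i with hx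
    have hxp : ((x.1 : s) : Ideal (MvPolynomial V E)).IsPrime := (hsmin x.1).1.1
    have hxz : (x.2 : Ω) ∈ (μ x.1).aroots Ω := Multiset.mem_toFinset.mp x.2.2
    obtain ⟨t, h1, h2, h3⟩ := hpt x.1 _ hxz (h x.1 * B) (fun h1 => by
      rcases hxp.mem_or_mem h1 with h2 | h2
      · exact hhR x.1 h2
      · exact hBR x.1 h2)
    have h4 := hi t fun j hj => h1 j ((hsmin x.1).1.2 (Ideal.subset_span hj))
    have h4' : eval t (g x) = 0 := h4
    rw [hgt, ← map_mul] at h4'
    have h5 := (mul_eq_zero.mp h4').resolve_left h2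
    obtain ⟨w, hw, hw0⟩ := Finset.prod_eq_zero_iff.mp h5
    rw [h3, ← sub_mul] at hw0
    rw [map_mul] at h2
    rcases mul_eq_zero.mp hw0 with h6 | h6
    · exact (Finset.mem_erase.mp hw).1 (sub_eq_zero.mp h6).symm
    · exact h2 (by rw [h6, mul_zero])
  · intro i K _ _ t ht hBt
    rw [map_prod]
    refine Finset.prod_eq_zero (Finset.mem_univ ⟨Q i, Finset.mem_image_of_mem Q
      (Finset.mem_univ i)⟩) ?_
    exact hroot _ K t (fun p hp => ht p (hQP i hp)) hBt

end Pool.Agent.MP100fe7G
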