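import Pool.Agent.Lib.MP_100fe7_nt.GNull

/-!
Points of the closure of a point of an affine variety with a prescribed value of an algebraic
quotient; elements separating the minimal primes.
-/

set_option linter.unusedSectionVars false

namespace Pool.Agent.MP100fe7G

open MvPolynomial

/-- Let `η` be a point with values in `L` at which `C ≠ 0` and `A = c B` with `c` integral over `E`.
For every conjugate `z` of `c` in `Ω` there is a specialisation `t` of `η` with values in `Ω` at
which `C ≠ 0` and `A = z B`. -/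
theorem exists_point {E Ω V L : Type} [Field E] [Finite V] [Field Ω] [IsAlgClosed Ω]
    [Algebra E Ω] [Field L] [Algebra E L] (η : V → L) {c : L} (hint : IsIntegral E c) {z : Ω}
    (hz : z ∈ (minpoly E c).aroots Ω) (A B C : MvPolynomial V E) (hC : aeval η C ≠ 0)
    (hAc : aeval η A = c * aeval η B) :
    ∃ t : V → Ω, (∀ p : MvPolynomial V E, aeval η p = 0 → aeval t p = 0) ∧ aeval t C ≠ 0 ∧
      aeval t A = z * aeval t B := by
  classical
  let φ₀ : IntermediateField.adjoin E {c} →ₐ[E] Ω :=
    (IntermediateField.algHomAdjoinIntegralEquiv E hint).symm ⟨z, hz⟩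
  have hφ₀ : φ₀ (IntermediateField.AdjoinSimple.gen E c) = z :=
    IntermediateField.algHomAdjoinIntegralEquiv_symm_apply_gen E hint ⟨z, hz⟩
  let _ : Algebra (IntermediateField.adjoin E {c}) Ω := φ₀.toRingHom.toAlgebra
  obtain ⟨S, hS⟩ : ∃ S : Set L, S = Set.range η ∪ {(aeval η C)⁻¹} := ⟨_, rfl⟩
  have hSf : S.Finite := by
    rw [hS]
    exact (Set.finite_range η).union (Set.finite_singleton _)
  let R := Algebra.adjoin (IntermediateField.adjoin E {c}) S
  have : Algebra.FiniteType (IntermediateField.adjoin E {c}) R := by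
    rw [← Subalgebra.fg_iff_finiteType]
    have h1 := Subalgebra.fg_adjoin_finset (R := IntermediateField.adjoin E {c}) hSf.toFinset
    rw [Set.Finite.coe_toFinset] at h1
    exact h1
  obtain ⟨φ⟩ := exists_algHom (IntermediateField.adjoin E {c}) R Ω
  have hηR : ∀ v, η v ∈ R := fun v => Algebra.subset_adjoin (by
    rw [hS]
    exact Or.inl ⟨v, rfl⟩)
  have hbR : (aeval η C)⁻¹ ∈ R := Algebra.subset_adjoin (by
    rw [hS]
    exact Or.inr rfl)
  obtain ⟨η', hη'⟩ : ∃ η' : V → R, η' = fun v => ⟨η v, hηR v⟩ := ⟨_, rfl⟩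
  obtain ⟨t, ht⟩ : ∃ t : V → Ω, t = fun v => φ (η' v) := ⟨_, rfl⟩
  have hval : ∀ p : MvPolynomial V E, ((aeval η' p : R) : L) = aeval η p := by
    intro p
    have h1 := map_aeval η' (algebraMap R L) p
    rw [aeval_def, aeval_def]
    induction p using MvPolynomial.induction_on with
    | C a =>
      rw [eval₂_C, eval₂_C]
      rfl
    | add p q hp hq =>
      rw [eval₂_add, eval₂_add, ← hp (map_aeval η' (algebraMap R L) p),
        ← hq (map_aeval η' (algebraMap R L) q)]
      rfl
    | mul_X p v hp =>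
      rw [eval₂_mul, eval₂_mul, eval₂_X, eval₂_X, ← hp (map_aeval η' (algebraMap R L) p), hη']
      rfl
  have hφE : ∀ a : E, φ (algebraMap E R a) = algebraMap E Ω a := by
    intro a
    have h1 : algebraMap E R a = algebraMap (IntermediateField.adjoin E {c}) R
        (algebraMap E (IntermediateField.adjoin E {c}) a) := rfl
    rw [h1, AlgHom.commutes]
    exact φ₀.commutes a
  have hφ : ∀ p : MvPolynomial V E, φ (aeval η' p) = aeval t p := by
    intro p
    rw [aeval_def, aeval_def]
    induction p using MvPolynomial.induction_on with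
    | C a => rw [eval₂_C, eval₂_C, hφE]
    | add p q hp hq => rw [eval₂_add, eval₂_add, map_add, hp, hq]
    | mul_X p v hp => rw [eval₂_mul, eval₂_mul, eval₂_X, eval₂_X, map_mul, hp, ht]
  refine ⟨t, ?_, ?_, ?_⟩
  · intro p hp
    have h2 : aeval η' p = 0 := by
      apply Subtype.ext
      rw [hval, hp]
      rfl
    rw [← hφ, h2, map_zero]
  · intro h0
    have h1 : aeval η' C * (⟨(aeval η C)⁻¹, hbR⟩ : R) = 1 := by
      apply Subtype.ext
      show ((aeval η' C : R) : L) * (aeval η C)⁻¹ = 1
      rw [hval, mul_inv_cancel₀ hC]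
    have h2 := congrArg φ h1
    rw [map_mul, hφ, h0, zero_mul, map_one] at h2
    exact zero_ne_one h2
  · have h1 : aeval η' A = algebraMap (IntermediateField.adjoin E {c}) R
        (IntermediateField.AdjoinSimple.gen E c) * aeval η' B := by
      apply Subtype.ext
      show ((aeval η' A : R) : L) = c * ((aeval η' B : R) : L)
      rw [hval, hval, hAc]
    rw [← hφ, h1, map_mul, hφ, AlgHom.commutes]
    congr 1

/-- The generic point of a prime ideal. -/
theorem exists_gen_point {E V : Type} [Field E] (Q : Ideal (MvPolynomial V E)) (hQ : Q.IsPrime) :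
    ∃ (L : Type) (_ : Field L) (_ : Algebra E L) (η : V → L), ∀ p : MvPolynomial V E,
      aeval η p = 0 ↔ p ∈ Q := by
  refine ⟨FractionRing (MvPolynomial V E ⧸ Q), inferInstance, inferInstance,
    fun v => algebraMap (MvPolynomial V E ⧸ Q) _ (Ideal.Quotient.mk Q (X v)), fun p => ?_⟩
  have h1 : aeval (fun v => algebraMap (MvPolynomial V E ⧸ Q)
      (FractionRing (MvPolynomial V E ⧸ Q)) (Ideal.Quotient.mk Q (X v))) p =
      algebraMap (MvPolynomial V E ⧸ Q) _ (Ideal.Quotient.mk Q p) := by
    have h2 : aeval (fun v => algebraMap (MvPolynomial V E ⧸ Q)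
        (FractionRing (MvPolynomial V E ⧸ Q)) (Ideal.Quotient.mk Q (X v))) =
        (IsScalarTower.toAlgHom E (MvPolynomial V E ⧸ Q)
          (FractionRing (MvPolynomial V E ⧸ Q))).comp (Ideal.Quotient.mkₐ E Q) := by
      apply MvPolynomial.algHom_ext
      intro v
      simp
    rw [h2]
    rfl
  rw [h1, ← Ideal.Quotient.eq_zero_iff_mem]
  exact (map_eq_zero_iff _ (IsFractionRing.injective (MvPolynomial V E ⧸ Q)
    (FractionRing (MvPolynomial V E ⧸ Q))))

/-- An element of all other minimal primes which is not in a given one. -/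
theorem exists_sep {A : Type} [CommRing A] [IsNoetherianRing A] (I Q : Ideal A)
    (hQ : Q ∈ I.minimalPrimes) : ∃ h : A, h ∉ Q ∧ ∀ P ∈ I.minimalPrimes, P ≠ Q → h ∈ P := by
  classical
  have hfin : I.minimalPrimes.Finite := Ideal.finite_minimalPrimes_of_isNoetherianRing A I
  have hQp : Q.IsPrime := hQ.1.1
  have h1 : ∀ P ∈ I.minimalPrimes, P ≠ Q → ∃ x, x ∈ P ∧ x ∉ Q := by
    intro P hP hPQ
    by_contra hcon
    push Not at hcon
    have h2 : P ≤ Q := fun x hx => hcon x hx
    have h3 : Q ≤ P := hQ.2 hP.1 h2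
    exact hPQ (le_antisymm h2 h3)
  set s := hfin.toFinset.filter fun P => P ≠ Q with hs
  have h2 : ∀ P : s, ∃ x, x ∈ (P : Ideal A) ∧ x ∉ Q := by
    rintro ⟨P, hP⟩
    rw [hs, Finset.mem_filter, Set.Finite.mem_toFinset] at hP
    exact h1 P hP.1 hP.2
  choose x hx hxQ using h2
  refine ⟨∏ P ∈ s.attach, x P, ?_, ?_⟩
  · intro h3
    obtain ⟨P, -, hP⟩ := (Ideal.IsPrime.prod_mem_iff (hp := hQp)).mp h3
    exact hxQ P hP
  · intro P hP hPQ
    have hPs : P ∈ s := by
      rw [hs, Finset.mem_filter, Set.Finite.mem_toFinset]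
      exact ⟨hP, hPQ⟩
    exact Ideal.mem_of_dvd P (Finset.dvd_prod_of_mem x (Finset.mem_attach s ⟨P, hPs⟩))
      (hx ⟨P, hPs⟩)

/-- The homogenised value of a polynomial at a quotient. -/
theorem hom_value {E K : Type} [Field E] [Field K] [Algebra E K] (μ : Polynomial E)
    (x y : K) (hy : y ≠ 0) :
    ∑ k ∈ Finset.range (μ.natDegree + 1),
      algebraMap E K (μ.coeff k) * x ^ k * y ^ (μ.natDegree - k) =
      y ^ μ.natDegree * Polynomial.aeval (x / y) μ := by
  rw [Polynomial.aeval_eq_sum_range, Finset.mul_sum]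
  refine Finset.sum_congr rfl fun k hk => ?_
  rw [Finset.mem_range] at hk
  have e : μ.natDegree = (μ.natDegree - k) + k := by omega
  have e2 : y ^ μ.natDegree = y ^ (μ.natDegree - k) * y ^ k := by
    conv_lhs => rw [e, pow_add]
  rw [e2, Algebra.smul_def, div_pow]
  field_simp

end Pool.Agent.MP100fe7G
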