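import Pool.Agent.Lib.MP_100fe7_nt.GPart

/-!
The decomposition `𝔤 = 𝔨 + x⁻¹ 𝔭 x` at a point `x` of the torsor with a Hodge frame.
-/

namespace Pool.Agent.MP100fe7G

open Matrix

/-- A Hodge frame at `x`: a basis (the columns of `q`) of `M_B ⊗ P` adapted to the Hodge
decomposition, such that `u = x q` is compatible with the Hodge filtration. -/
structure Frame {n P : Type*} [Fintype n] [DecidableEq n] [CommRing P] (wt idx : n → ℤ)
    (F x q q' u u' : Matrix n n P) : Prop where
  qq : q * q' = 1
  uu : u * u' = 1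
  u_eq : u = x * q
  u_filt : ∀ i j, idx i < idx j → u i j = 0
  u_filt' : ∀ i j, idx i < idx j → u' i j = 0
  q_wt : ∀ i j, wt i ≠ wt j → q i j = 0
  q_wt' : ∀ i j, wt i ≠ wt j → q' i j = 0
  swap : ∀ i j, idx i + idx j ≠ wt i ∨ wt i ≠ wt j → (q' * F * q) i j = 0

section basic

variable {ι P : Type*} [Fintype ι] [CommRing P]

theorem filt_mul {h : ι → ℤ} {X Y : Matrix ι ι P} (hX : ∀ i j, h i < h j → X i j = 0)
    (hY : ∀ i j, h i < h j → Y i j = 0) (i j : ι) (hij : h i < h j) : (X * Y) i j = 0 := by
  rw [Matrix.mul_apply]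
  refine Finset.sum_eq_zero fun k _ => ?_
  by_cases h1 : h i < h k
  · rw [hX i k h1, zero_mul]
  · rw [hY k j (by omega), mul_zero]

theorem block_mul {h : ι → ℤ} {X Y : Matrix ι ι P} (hX : ∀ i j, h i ≠ h j → X i j = 0)
    (hY : ∀ i j, h i ≠ h j → Y i j = 0) (i j : ι) (hij : h i ≠ h j) : (X * Y) i j = 0 := by
  rw [Matrix.mul_apply]
  refine Finset.sum_eq_zero fun k _ => ?_
  by_cases h1 : h i = h k
  · rw [hY k j (by omega), mul_zero]
  · rw [hX i k h1, zero_mul]

/-- Conjugation by a matrix `Φ` exchanging the indices `p` and `w - p`. -/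
theorem swap_conj {wt idx : ι → ℤ} {Φ X : Matrix ι ι P}
    (hΦ : ∀ i j, idx i + idx j ≠ wt i ∨ wt i ≠ wt j → Φ i j = 0)
    (hX : ∀ i j, wt i ≠ wt j → X i j = 0) (C D : ℤ → Prop)
    (hCD : ∀ r, ¬ C r → D (-r)) (hD : ∀ i j, D (idx i - idx j) → X i j = 0)
    (i j : ι) (hij : ¬ C (idx i - idx j)) : (Φ * X * Φ) i j = 0 := by
  rw [Matrix.mul_apply]
  refine Finset.sum_eq_zero fun l _ => ?_
  rw [Matrix.mul_apply]
  by_cases h1 : idx l + idx j ≠ wt l ∨ wt l ≠ wt j
  · rw [hΦ l j h1, mul_zero]
  · rw [not_or, not_not, not_not] at h1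
    rw [Finset.sum_eq_zero fun k _ => ?_, zero_mul]
    by_cases h2 : idx i + idx k ≠ wt i ∨ wt i ≠ wt k
    · rw [hΦ i k h2, zero_mul]
    · rw [not_or, not_not, not_not] at h2
      by_cases h3 : wt k ≠ wt l
      · rw [hX k l h3, mul_zero]
      · rw [not_not] at h3
        rw [hD k l, mul_zero]
        have h4 : idx k - idx l = -(idx i - idx j) := by omega
        rw [h4]
        exact hCD _ hij

end basic

section frame

variable {P : Type*} [CommRing P] {n J : Type} [Fintype n] [DecidableEq n] [Fintype J]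
  [DecidableEq J] {a b : J → ℕ} {wt idx : n → ℤ} {F x q q' u u' : Matrix n n P}

theorem Frame.map {P' : Type*} [CommRing P'] (φ : P →+* P') (h : Frame wt idx F x q q' u u') :
    Frame wt idx (F.map φ) (x.map φ) (q.map φ) (q'.map φ) (u.map φ) (u'.map φ) where
  qq := by rw [← Matrix.map_mul, h.qq, Matrix.map_one φ (map_zero φ) (map_one φ)]
  uu := by rw [← Matrix.map_mul, h.uu, Matrix.map_one φ (map_zero φ) (map_one φ)]
  u_eq := by rw [← Matrix.map_mul, h.u_eq]
  u_filt i j hij := by rw [map_apply, h.u_filt i j hij, map_zero]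
  u_filt' i j hij := by rw [map_apply, h.u_filt' i j hij, map_zero]
  q_wt i j hij := by rw [map_apply, h.q_wt i j hij, map_zero]
  q_wt' i j hij := by rw [map_apply, h.q_wt' i j hij, map_zero]
  swap i j hij := by rw [← Matrix.map_mul, ← Matrix.map_mul, map_apply, h.swap i j hij, map_zero]

theorem tens_swap {Φ Ψ : Matrix n n P}
    (hΦ : ∀ i j, idx i + idx j ≠ wt i ∨ wt i ≠ wt j → Φ i j = 0)
    (hΨ : ∀ i j, idx i + idx j ≠ wt i ∨ wt i ≠ wt j → Ψ i j = 0) (s t : TIdx n a b)
    (hst : wsum idx s + wsum idx t ≠ wsum wt s ∨ wsum wt s ≠ wsum wt t) :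
    tens a b Φ Ψ s t = 0 := by
  obtain ⟨j, u, u'⟩ := s
  obtain ⟨k, v, v'⟩ := t
  rcases eq_or_ne j k with hjk | hjk
  · subst hjk
    rw [tens_same]
    dsimp only
    by_cases h1 : ∃ i, idx (u i) + idx (v i) ≠ wt (u i) ∨ wt (u i) ≠ wt (v i)
    · obtain ⟨i, hi⟩ := h1
      rw [Finset.prod_eq_zero (Finset.mem_univ i) (hΦ _ _ hi), zero_mul]
    · by_cases h2 : ∃ i, idx (v' i) + idx (u' i) ≠ wt (v' i) ∨ wt (v' i) ≠ wt (u' i)
      · obtain ⟨i, hi⟩ := h2
        rw [Finset.prod_eq_zero (f := fun i => Ψ (v' i) (u' i)) (Finset.mem_univ i) (hΨ _ _ hi),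
          mul_zero]
      · exfalso
        push Not at h1 h2
        have e1 : ∑ i, wt (u i) = ∑ i, idx (u i) + ∑ i, idx (v i) := by
          rw [← Finset.sum_add_distrib]
          exact Finset.sum_congr rfl fun i _ => (h1 i).1.symm
        have e2 : ∑ i, wt (u i) = ∑ i, wt (v i) := Finset.sum_congr rfl fun i _ => (h1 i).2
        have e3 : ∑ i, wt (v' i) = ∑ i, idx (v' i) + ∑ i, idx (u' i) := by
          rw [← Finset.sum_add_distrib]
          exact Finset.sum_congr rfl fun i _ => (h2 i).1.symm
        have e4 : ∑ i, wt (v' i) = ∑ i, wt (u' i) := Finset.sum_congr rfl fun i _ => (h2 i).2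
        simp only [wsum] at hst
        rcases hst with h | h <;> omega
  · exact tens_ne _ _ hjk _ _

variable {E : Type} [Field E] [Algebra E P] {S : Set (TMat n a b E × TMat n a b E)}
  {y : Matrix n n P} {frob : Matrix n n E}

theorem IsPt.yx (h : IsPt wt S x y) : y * x = 1 := mul_eq_one_comm.mp h.1

theorem IsPt.tens_y (h : IsPt wt S x y) {s : TMat n a b E × TMat n a b E} (hs : s ∈ S) :
    tens a b y x * s.2.map (algebraMap E P) = s.1.map (algebraMap E P) * tens a b y x := by
  have h1 := h.2.2.2 s hs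
  have h2 : tens a b y x * tens a b x y = 1 := tens_inv h.yx
  have h3 : tens a b x y * tens a b y x = 1 := tens_inv h.1
  calc tens a b y x * s.2.map (algebraMap E P)
      = tens a b y x * (s.2.map (algebraMap E P) * tens a b x y) * tens a b y x := by
        rw [Matrix.mul_assoc, Matrix.mul_assoc, h3, Matrix.mul_one]
    _ = s.1.map (algebraMap E P) * tens a b y x := by
        rw [← h1, ← Matrix.mul_assoc, h2, Matrix.one_mul]

/-- The Lie algebra is transported by the points of the torsor. -/
theorem InLie.conj (h : IsPt wt S x y) {Z : Matrix n n P} (hZ : InLie wt (Prod.snd '' S) Z) :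
    InLie wt (Prod.fst '' S) (y * Z * x) := by
  refine ⟨block_mul (block_mul h.2.2.1 hZ.1) h.2.1, ?_⟩
  rintro _ ⟨s, hs, rfl⟩
  rw [← lie_conj h.yx, Matrix.mul_assoc, h.2.2.2 s hs, ← Matrix.mul_assoc, Matrix.mul_assoc _ _ (s.2.map _),
    hZ.2 s.2 ⟨s, hs, rfl⟩, ← Matrix.mul_assoc, h.tens_y hs]
  simp only [Matrix.mul_assoc]

theorem InLie.conj' (h : IsPt wt S x y) {X : Matrix n n P} (hX : InLie wt (Prod.fst '' S) X) :
    InLie wt (Prod.snd '' S) (x * X * y) := by
  refine ⟨block_mul (block_mul h.2.1 hX.1) h.2.2.1, ?_⟩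
  rintro _ ⟨s, hs, rfl⟩
  rw [← lie_conj h.1, Matrix.mul_assoc, h.tens_y hs, ← Matrix.mul_assoc, Matrix.mul_assoc _ _ (s.1.map _),
    hX.2 s.1 ⟨s, hs, rfl⟩, ← Matrix.mul_assoc, h.2.2.2 s hs]
  simp only [Matrix.mul_assoc]

theorem InLie.add {S : Set (TMat n a b E)} {X Y : Matrix n n P} (hX : InLie wt S X)
    (hY : InLie wt S Y) : InLie wt S (X + Y) :=
  ⟨fun i j h => by rw [Matrix.add_apply, hX.1 i j h, hY.1 i j h, add_zero],
    fun s hs => by rw [lie_add, Matrix.add_mul, Matrix.mul_add, hX.2 s hs, hY.2 s hs]⟩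

theorem InLie.sub {S : Set (TMat n a b E)} {X Y : Matrix n n P} (hX : InLie wt S X)
    (hY : InLie wt S Y) : InLie wt S (X - Y) :=
  ⟨fun i j h => by rw [Matrix.sub_apply, hX.1 i j h, hY.1 i j h, sub_zero],
    fun s hs => by rw [lie_sub, Matrix.sub_mul, Matrix.mul_sub, hX.2 s hs, hY.2 s hs]⟩

/-- In a Hodge frame, a morphism has degree zero. -/
theorem mor_degree (hx : IsPt wt S x y)
    (hf : Frame wt idx (frob.map (algebraMap E P)) x q q' u u') (hF : frob * frob = 1)
    {s : TMat n a b E × TMat n a b E} (hs : s ∈ S)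
    (h1 : tens a b frob frob * s.1 = s.1 * tens a b frob frob)
    (h2 : ∀ i j, wsum wt i ≠ wsum wt j → s.1 i j = 0)
    (h3 : ∀ i j, wsum idx i < wsum idx j → s.2 i j = 0) (i j : TIdx n a b)
    (hij : wsum idx i ≠ wsum idx j) :
    (tens a b q' q * s.1.map (algebraMap E P) * tens a b q q') i j = 0 := by
  set F := frob.map (algebraMap E P) with hFdef
  set σ := tens a b q' q * s.1.map (algebraMap E P) * tens a b q q' with hσ
  have hqq' : q' * q = 1 := mul_eq_one_comm.mp hf.qq
  have hu' : u' = q' * y := by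
    have e1 : u * (q' * y) = 1 := by
      rw [hf.u_eq, Matrix.mul_assoc, ← Matrix.mul_assoc q, hf.qq, Matrix.one_mul, hx.1]
    have e2 : u' * u = 1 := mul_eq_one_comm.mp hf.uu
    calc u' = u' * (u * (q' * y)) := by rw [e1, Matrix.mul_one]
      _ = q' * y := by rw [← Matrix.mul_assoc, e2, Matrix.one_mul]
  have hσ2 : σ = tens a b u' u * s.2.map (algebraMap E P) * tens a b u u' := by
    rw [hu', hf.u_eq, tens_mul, tens_mul, hσ]
    rw [show tens a b q' q * tens a b y x * s.2.map (algebraMap E P) *
      (tens a b x y * tens a b q q') = tens a b q' q * (tens a b y x * s.2.map (algebraMap E P) *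
        tens a b x y) * tens a b q q' by simp only [Matrix.mul_assoc]]
    rw [hx.tens_y hs, Matrix.mul_assoc (s.1.map _), tens_inv hx.yx, Matrix.mul_one]
  have hfilt : ∀ k l, wsum idx k < wsum idx l → σ k l = 0 := by
    rw [hσ2]
    refine filt_mul (filt_mul (tens_filt idx hf.u_filt' hf.u_filt) ?_)
      (tens_filt idx hf.u_filt hf.u_filt')
    intro k l hkl
    rw [map_apply, h3 k l hkl, map_zero]
  have hblock : ∀ k l, wsum wt k ≠ wsum wt l → σ k l = 0 := by
    refine block_mul (block_mul (tens_block wt hf.q_wt' hf.q_wt) ?_)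
      (tens_block wt hf.q_wt hf.q_wt')
    intro k l hkl
    rw [map_apply, h2 k l hkl, map_zero]
  set Φ := tens a b (q' * F * q) (q' * F * q) with hΦ
  have hFF : F * F = 1 := by
    rw [hFdef, ← Matrix.map_mul, hF, Matrix.map_one _ (map_zero _) (map_one _)]
  have hΦ1 : Φ = tens a b q' q * tens a b F F * tens a b q q' := by
    rw [hΦ, ← tens_mul, ← tens_mul]
    simp only [Matrix.mul_assoc]
  have hTF : tens a b F F * s.1.map (algebraMap E P) = s.1.map (algebraMap E P) * tens a b F F := by
    have := congrArg (fun X => X.map (algebraMap E P)) h1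
    simpa only [Matrix.map_mul, tens_map] using this
  have hΦσ : σ = Φ * σ * Φ := by
    have e1 : tens a b q q' * tens a b q' q = 1 := tens_inv hf.qq
    have e2 : tens a b F F * tens a b F F = 1 := tens_inv hFF
    rw [hΦ1, hσ]
    calc tens a b q' q * s.1.map (algebraMap E P) * tens a b q q'
        = tens a b q' q * (s.1.map (algebraMap E P) * (tens a b F F * tens a b F F)) *
            tens a b q q' := by rw [e2, Matrix.mul_one]
      _ = tens a b q' q * (tens a b F F * s.1.map (algebraMap E P) * tens a b F F) *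
            tens a b q q' := by rw [← Matrix.mul_assoc (s.1.map _), hTF]
      _ = tens a b q' q * tens a b F F * (tens a b q q' * tens a b q' q) *
            s.1.map (algebraMap E P) * (tens a b q q' * tens a b q' q) * tens a b F F *
            tens a b q q' := by
          rw [e1]
          simp only [Matrix.mul_one, Matrix.mul_assoc]
      _ = _ := by simp only [Matrix.mul_assoc]
  rcases lt_or_gt_of_ne hij with h4 | h4
  · exact hfilt i j h4
  · rw [hΦσ]
    exact swap_conj (wt := wsum wt) (idx := wsum idx) (fun k l hkl => tens_swap hf.swap hf.swap k l hkl) hblock (fun r => r ≤ 0)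
      (fun r => r < 0) (fun r hr => by omega) (fun k l hkl => hfilt k l (by omega)) i j (by omega)

/-- The decomposition `𝔤 = 𝔨 + x⁻¹ 𝔭 x`. -/
theorem decompose (hx : IsPt wt S x y)
    (hf : Frame wt idx (frob.map (algebraMap E P)) x q q' u u') (hF : frob * frob = 1)
    (hFwt : ∀ i j, wt i ≠ wt j → frob i j = 0)
    (hS1 : ∀ s ∈ S, tens a b frob frob * s.1 = s.1 * tens a b frob frob)
    (hS2 : ∀ s ∈ S, ∀ i j, wsum wt i ≠ wsum wt j → s.1 i j = 0)
    (hS3 : ∀ s ∈ S, ∀ i j, wsum idx i < wsum idx j → s.2 i j = 0)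
    (X : Matrix n n P) (hX : InLie wt (Prod.fst '' S) X) :
    ∃ Y Z : Matrix n n P, InK wt frob S Y ∧ InP wt idx S Z ∧ X = Y + y * Z * x := by
  set F := frob.map (algebraMap E P) with hFdef
  have hFF : F * F = 1 := by
    rw [hFdef, ← Matrix.map_mul, hF, Matrix.map_one _ (map_zero _) (map_one _)]
  have hFb : ∀ i j, wt i ≠ wt j → F i j = 0 := by
    intro i j hij
    rw [hFdef, map_apply, hFwt i j hij, map_zero]
  have hqq' : q' * q = 1 := mul_eq_one_comm.mp hf.qq
  have hu' : u' = q' * y := by
    have e1 : u * (q' * y) = 1 := by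
      rw [hf.u_eq, Matrix.mul_assoc, ← Matrix.mul_assoc q, hf.qq, Matrix.one_mul, hx.1]
    have e2 : u' * u = 1 := mul_eq_one_comm.mp hf.uu
    calc u' = u' * (u * (q' * y)) := by rw [e1, Matrix.mul_one]
      _ = q' * y := by rw [← Matrix.mul_assoc, e2, Matrix.one_mul]
  have e1 : tens a b q q' * tens a b q' q = 1 := tens_inv hf.qq
  have e1' : tens a b q' q * tens a b q q' = 1 := tens_inv hqq'
  set X' := q' * X * q with hX'
  have hX'b : ∀ i j, wt i ≠ wt j → X' i j = 0 := block_mul (block_mul hf.q_wt' hX.1) hf.q_wt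
  -- the parts of X
  have hpart : ∀ (C : ℤ → Prop) [DecidablePred C],
      InLie wt (Prod.fst '' S) (q * part idx C X' * q') := by
    intro C _
    refine ⟨block_mul (block_mul hf.q_wt ?_) hf.q_wt', ?_⟩
    · intro i j hij
      rw [part_apply, hX'b i j hij, ite_self]
    · rintro _ ⟨s, hs, rfl⟩
      set σ := tens a b q' q * s.1.map (algebraMap E P) * tens a b q q' with hσ
      have hσ0 := mor_degree hx hf hF hs (hS1 s hs) (hS2 s hs) (hS3 s hs)
      have hsσ : s.1.map (algebraMap E P) = tens a b q q' * σ * tens a b q' q := by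
        rw [hσ]
        calc s.1.map (algebraMap E P) = (tens a b q q' * tens a b q' q) *
              s.1.map (algebraMap E P) * (tens a b q q' * tens a b q' q) := by
              rw [e1, Matrix.mul_one, Matrix.one_mul]
          _ = _ := by simp only [Matrix.mul_assoc]
      have hcomm : lie a b X' * σ = σ * lie a b X' := by
        rw [hX', ← lie_conj hqq', hσ]
        calc tens a b q' q * lie a b X * tens a b q q' *
              (tens a b q' q * s.1.map (algebraMap E P) * tens a b q q')
            = tens a b q' q * lie a b X * (tens a b q q' * tens a b q' q) *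
              s.1.map (algebraMap E P) * tens a b q q' := by simp only [Matrix.mul_assoc]
          _ = tens a b q' q * (lie a b X * s.1.map (algebraMap E P)) * tens a b q q' := by
              rw [e1]
              simp only [Matrix.mul_one, Matrix.mul_assoc]
          _ = tens a b q' q * (s.1.map (algebraMap E P) * lie a b X) * tens a b q q' := by
              rw [hX.2 s.1 ⟨s, hs, rfl⟩]
          _ = tens a b q' q * s.1.map (algebraMap E P) * (tens a b q q' * tens a b q' q) *
                lie a b X * tens a b q q' := by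
              rw [e1]
              simp only [Matrix.mul_one, Matrix.mul_assoc]
          _ = _ := by simp only [Matrix.mul_assoc]
      have hcomm2 : part (wsum idx) C (lie a b X') * σ = σ * part (wsum idx) C (lie a b X') := by
        rw [← part_mul_zero _ _ _ _ hσ0, hcomm, part_zero_mul _ _ _ _ hσ0]
      rw [← lie_conj hf.qq, lie_part, hsσ]
      calc tens a b q q' * part (wsum idx) C (lie a b X') * tens a b q' q *
            (tens a b q q' * σ * tens a b q' q)
          = tens a b q q' * part (wsum idx) C (lie a b X') * (tens a b q' q * tens a b q q') * σ *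
            tens a b q' q := by simp only [Matrix.mul_assoc]
        _ = tens a b q q' * (part (wsum idx) C (lie a b X') * σ) * tens a b q' q := by
            rw [e1']
            simp only [Matrix.mul_one, Matrix.mul_assoc]
        _ = tens a b q q' * (σ * part (wsum idx) C (lie a b X')) * tens a b q' q := by
            rw [hcomm2]
        _ = tens a b q q' * σ * (tens a b q' q * tens a b q q') *
              part (wsum idx) C (lie a b X') * tens a b q' q := by
            rw [e1']
            simp only [Matrix.mul_one, Matrix.mul_assoc]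
        _ = _ := by simp only [Matrix.mul_assoc]
  set X1 := q * part idx (fun r => 0 ≤ r) X' * q' with hX1
  set X2 := q * part idx (fun r => ¬ 0 ≤ r) X' * q' with hX2
  have hsum : X = X1 + X2 := by
    rw [hX1, hX2, ← Matrix.add_mul, ← Matrix.mul_add, part_add_not, hX']
    calc X = (q * q') * X * (q * q') := by rw [hf.qq, Matrix.one_mul, Matrix.mul_one]
      _ = _ := by simp only [Matrix.mul_assoc]
  have hF2 : InLie wt (Prod.fst '' S) (F * X2 * F) := by
    refine ⟨block_mul (block_mul hFb (hpart _).1) hFb, ?_⟩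
    rintro _ ⟨s, hs, rfl⟩
    have hTF : tens a b F F * s.1.map (algebraMap E P) =
        s.1.map (algebraMap E P) * tens a b F F := by
      have := congrArg (fun X => X.map (algebraMap E P)) (hS1 s hs)
      simpa only [Matrix.map_mul, tens_map] using this
    rw [← lie_conj hFF]
    calc tens a b F F * lie a b X2 * tens a b F F * s.1.map (algebraMap E P)
        = tens a b F F * (lie a b X2 * s.1.map (algebraMap E P)) * tens a b F F := by
          rw [Matrix.mul_assoc, hTF]
          simp only [Matrix.mul_assoc]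
      _ = tens a b F F * s.1.map (algebraMap E P) * lie a b X2 * tens a b F F := by
          have h5 : lie a b X2 * s.1.map (algebraMap E P) =
              s.1.map (algebraMap E P) * lie a b X2 := (hpart _).2 s.1 ⟨s, hs, rfl⟩
          rw [h5]
          simp only [Matrix.mul_assoc]
      _ = _ := by
          rw [hTF]
          simp only [Matrix.mul_assoc]
  refine ⟨X2 + F * X2 * F, x * (X1 - F * X2 * F) * y, ⟨(hpart _).add hF2, ?_⟩,
    ⟨InLie.conj' hx ((hpart _).sub hF2), ?_⟩, ?_⟩
  · calc (X2 + F * X2 * F) * F = X2 * F + F * X2 * (F * F) := by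
          rw [Matrix.add_mul, Matrix.mul_assoc (F * X2)]
      _ = F * F * X2 * F + F * X2 := by
          rw [hFF, Matrix.mul_one, Matrix.one_mul]
      _ = F * (X2 + F * X2 * F) := by
          rw [Matrix.mul_add, add_comm]
          simp only [Matrix.mul_assoc]
  · have h1 : x * (X1 - F * X2 * F) * y = u * part idx (fun r => 0 ≤ r) X' * u' -
        u * ((q' * F * q) * part idx (fun r => ¬ 0 ≤ r) X' * (q' * F * q)) * u' := by
      rw [Matrix.mul_sub, Matrix.sub_mul, hu', hf.u_eq, hX1, hX2]
      congr 1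
      · simp only [Matrix.mul_assoc]
      · calc x * (F * (q * part idx (fun r => ¬ 0 ≤ r) X' * q') * F) * y
            = x * ((q * q') * F * (q * part idx (fun r => ¬ 0 ≤ r) X' * q') * F * (q * q')) * y := by
              rw [hf.qq, Matrix.one_mul, Matrix.mul_one]
          _ = _ := by simp only [Matrix.mul_assoc]
    intro i j hij
    rw [h1, Matrix.sub_apply]
    rw [filt_mul (filt_mul hf.u_filt ?_) hf.u_filt' i j hij,
      filt_mul (filt_mul hf.u_filt ?_) hf.u_filt' i j hij, sub_zero]
    · intro k l hkl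
      refine swap_conj hf.swap ?_ (fun r => 0 ≤ r) (fun r => 0 ≤ r) (fun r hr => by omega) ?_ k l
        (by omega)
      · intro i j h
        rw [part_apply, hX'b i j h, ite_self]
      · intro i j h
        rw [part_apply, if_neg (not_not.mpr h)]
    · intro k l hkl
      rw [part_apply, if_neg (by omega)]
  · have h2 : y * (x * (X1 - F * X2 * F) * y) * x = X1 - F * X2 * F := by
      calc y * (x * (X1 - F * X2 * F) * y) * x = (y * x) * (X1 - F * X2 * F) * (y * x) := by
            simp only [Matrix.mul_assoc]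
        _ = _ := by rw [hx.yx, Matrix.one_mul, Matrix.mul_one]
    rw [h2, hsum]
    abel

end frame

end Pool.Agent.MP100fe7G
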