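import Pool.Agent.Lib.MP_100fe7_nt.GPer

/-!
Derivations and periods: at a point `x` of the torsor, `x⁻¹ D x` is in the Lie algebra, and the
logarithmic derivative of a period is a sum of two traces.
-/

namespace Pool.Agent.MP100fe7G

open Matrix

section der

variable {E L P : Type} [Field E] [CommRing L] [Algebra E L] [CommRing P] [Algebra E P]
  [Algebra L P] [IsScalarTower E L P] {n J : Type} [Fintype n] [DecidableEq n] [Fintype J]
  [DecidableEq J] {a b : J → ℕ}

/-- The ring homomorphism `z ↦ z + t D z`. -/
def derHom (D : Derivation E L P) : L →+* DualNumber P where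
  toFun z := TrivSqZeroExt.inl (algebraMap L P z) + TrivSqZeroExt.inr (D z)
  map_one' := by
    apply TrivSqZeroExt.ext
    · simp
    · simp
  map_zero' := by
    apply TrivSqZeroExt.ext
    · simp
    · simp
  map_mul' x y := by
    have h1 : D (x * y) = algebraMap L P x * D y + algebraMap L P y * D x := by
      rw [Derivation.leibniz, Algebra.smul_def, Algebra.smul_def]
    apply TrivSqZeroExt.ext
    · simp
    · rw [h1]
      simp
      ring
  map_add' x y := by
    apply TrivSqZeroExt.ext
    · simp
    · simp

omit [IsScalarTower E L P] in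
theorem map_derHom (D : Derivation E L P) {ι κ : Type*} (x : Matrix ι κ L) :
    x.map (derHom D) = dual (x.map (algebraMap L P)) (x.map D) := rfl

theorem mul_map_der (D : Derivation E L P) {ι κ μ : Type*} [Fintype κ] (x : Matrix ι κ L)
    (y : Matrix κ μ L) : (x * y).map D = x.map (algebraMap L P) * y.map D +
      x.map D * y.map (algebraMap L P) := by
  have h1 : (x * y).map (derHom D) = x.map (derHom D) * y.map (derHom D) := Matrix.map_mul
  rw [map_derHom, map_derHom, map_derHom, dual_mul] at h1
  have h2 := congrArg (fun X => X.map TrivSqZeroExt.snd) h1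
  simpa only [dual_snd] using h2

/-- The derivative of the tensor construction. -/
theorem tens_der (D : Derivation E L P) {x y : Matrix n n L} (h : x * y = 1) :
    (tens a b x y).map D = (tens a b x y).map (algebraMap L P) *
      lie a b (y.map (algebraMap L P) * x.map D) := by
  set φ := algebraMap L P with hφ
  have hx : x.map φ * y.map φ = 1 := by
    rw [← Matrix.map_mul, h, Matrix.map_one _ (map_zero _) (map_one _)]
  have hy : y.map φ * x.map φ = 1 := mul_eq_one_comm.mp hx
  set X := y.map φ * x.map D with hX
  have e1 : x.map (derHom D) = dual (x.map φ) 0 * dual 1 X := by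
    rw [map_derHom, dual_mul, Matrix.mul_one, Matrix.zero_mul, add_zero, hX, ← Matrix.mul_assoc,
      hx, Matrix.one_mul]
  have e2 : y.map (derHom D) = dual 1 (-X) * dual (y.map φ) 0 := by
    have h1 : x.map (derHom D) * y.map (derHom D) = 1 := by
      rw [← Matrix.map_mul, h, Matrix.map_one _ (map_zero _) (map_one _)]
    have h2 : (dual 1 (-X) * dual (y.map φ) 0) * x.map (derHom D) = 1 := by
      rw [e1, dual_mul, dual_mul, dual_mul, ← dual_one]
      congr 1
      · simp [hy]
      · simp only [Matrix.mul_zero, zero_add, Matrix.one_mul, Matrix.zero_mul, add_zero,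
          Matrix.mul_one, Matrix.neg_mul]
        rw [← Matrix.mul_assoc, hy, Matrix.one_mul, Matrix.mul_assoc, hy, Matrix.mul_one,
          add_neg_cancel]
    calc y.map (derHom D) = ((dual 1 (-X) * dual (y.map φ) 0) * x.map (derHom D)) *
          y.map (derHom D) := by rw [h2, Matrix.one_mul]
      _ = _ := by rw [Matrix.mul_assoc, h1, Matrix.mul_one]
  have h3 := tens_map (a := a) (b := b) (derHom D) x y
  have hi : tens a b (dual (x.map φ) 0) (dual (y.map φ) 0) =
      dual (tens a b (x.map φ) (y.map φ)) 0 := by
    have := tens_map (a := a) (b := b) (TrivSqZeroExt.inlHom P P) (x.map φ) (y.map φ)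
    have e : ∀ (ι κ : Type) (z : Matrix ι κ P), z.map (TrivSqZeroExt.inlHom P P) = dual z 0 := by
      intro ι κ z
      refine Matrix.ext fun i j => ?_
      simp [dual]
    rw [e, e, e] at this
    exact this.symm
  rw [e1, e2, tens_mul, tens_dual, hi, dual_mul, map_derHom] at h3
  have h4 := congrArg (fun X => X.map TrivSqZeroExt.snd) h3
  simp only [dual_snd] at h4
  rw [h4, tens_map]
  simp

theorem map_map_alg {ι κ : Type*} (s : Matrix ι κ E) :
    (s.map (algebraMap E L)).map (algebraMap L P) = s.map (algebraMap E P) := by
  ext i j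
  simp [← IsScalarTower.algebraMap_apply]

omit [IsScalarTower E L P] in
theorem map_map_der {ι κ : Type*} (D : Derivation E L P) (s : Matrix ι κ E) :
    (s.map (algebraMap E L)).map D = 0 := by
  ext i j
  simp

variable {wt idx : n → ℤ} {frob : Matrix n n E} {S : Set (TMat n a b E × TMat n a b E)}
  {x y : Matrix n n L}

theorem IsPt.map (h : IsPt wt S x y) :
    IsPt wt S (x.map (algebraMap L P)) (y.map (algebraMap L P)) := by
  refine ⟨?_, ?_, ?_, ?_⟩
  · rw [← Matrix.map_mul, h.1, Matrix.map_one _ (map_zero _) (map_one _)]
  · intro i j hij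
    rw [map_apply, h.2.1 i j hij, map_zero]
  · intro i j hij
    rw [map_apply, h.2.2.1 i j hij, map_zero]
  · intro s hs
    have h1 := congrArg (fun X => X.map (algebraMap L P)) (h.2.2.2 s hs)
    simpa only [Matrix.map_mul, tens_map, map_map_alg] using h1

/-- The logarithmic derivative of the point `x` is in the Lie algebra. -/
theorem inLie_der (h : IsPt wt S x y) (D : Derivation E L P) :
    InLie wt (Prod.fst '' S) (y.map (algebraMap L P) * x.map D) := by
  refine ⟨block_mul ?_ ?_, ?_⟩
  · intro i j hij
    rw [map_apply, h.2.2.1 i j hij, map_zero]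
  · intro i j hij
    rw [map_apply, h.2.1 i j hij, map_zero]
  · rintro _ ⟨s, hs, rfl⟩
    have h1 := congrArg (fun X => X.map D) (h.2.2.2 s hs)
    simp only [mul_map_der, map_map_der, map_map_alg, Matrix.mul_zero, zero_add,
      Matrix.zero_mul, add_zero] at h1
    rw [tens_der D h.1] at h1
    set T := (tens a b x y).map (algebraMap L P) with hT
    set X := y.map (algebraMap L P) * x.map D with hX
    have h2 : T * s.1.map (algebraMap E P) = s.2.map (algebraMap E P) * T := by
      have h3 := congrArg (fun X => X.map (algebraMap L P)) (h.2.2.2 s hs)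
      simpa only [Matrix.map_mul, map_map_alg] using h3
    have h4 : (tens a b y x).map (algebraMap L P) * T = 1 := by
      rw [hT, ← Matrix.map_mul, tens_inv h.yx, Matrix.map_one _ (map_zero _) (map_one _)]
    rw [Matrix.mul_assoc, ← Matrix.mul_assoc (s.2.map _), ← h2, Matrix.mul_assoc] at h1
    have h5 := congrArg (fun X => (tens a b y x).map (algebraMap L P) * X) h1
    simpa only [← Matrix.mul_assoc, h4, Matrix.one_mul] using h5

/-- The derivative of a determinant. -/
theorem det_der (D : Derivation E L P) {d : ℕ} (M : Matrix (Fin d) (Fin d) L)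
    (U V : Matrix (Fin d) (Fin d) P)
    (h : M.map D = M.map (algebraMap L P) * U + V * M.map (algebraMap L P)) :
    D M.det = algebraMap L P M.det * (U.trace + V.trace) := by
  set φ := algebraMap L P with hφ
  have hdet : ∀ X : Matrix (Fin d) (Fin d) P, (dual 1 X).det =
      TrivSqZeroExt.inl 1 + TrivSqZeroExt.inr X.trace := by
    intro X
    have h1 : dual 1 X = 1 + (DualNumber.eps : DualNumber P) •
        X.map (TrivSqZeroExt.inlHom P P) := by
      refine Matrix.ext fun i j => ?_
      rw [Matrix.add_apply, Matrix.smul_apply]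
      by_cases hij : i = j
      · subst hij
        apply TrivSqZeroExt.ext <;> simp [dual]
      · apply TrivSqZeroExt.ext <;> simp [dual, hij]
    have h2 : (X.map (TrivSqZeroExt.inlHom P P)).trace = TrivSqZeroExt.inl X.trace := by
      rw [Matrix.trace, Matrix.trace]
      exact (map_sum (TrivSqZeroExt.inlHom P P) _ _).symm
    rw [h1, Matrix.det_one_add_smul, h2, pow_two, DualNumber.eps_mul_eps, mul_zero, add_zero]
    apply TrivSqZeroExt.ext <;> simp
  have h1 : M.map (derHom D) = dual 1 V * dual (M.map φ) 0 * dual 1 U := by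
    rw [map_derHom, h, dual_mul, dual_mul]
    congr 1
    · simp [hφ]
    · simp
  have h2 : (M.map (derHom D)).det = derHom D M.det := ((derHom D).map_det M).symm
  have h3 : (dual (M.map φ) 0).det = TrivSqZeroExt.inl (φ M.det) := by
    have e : dual (M.map φ) 0 = (M.map φ).map (TrivSqZeroExt.inlHom P P) := by
      refine Matrix.ext fun i j => ?_
      simp [dual]
    rw [e, ← RingHom.mapMatrix_apply, ← RingHom.map_det, ← RingHom.mapMatrix_apply,
      ← RingHom.map_det]
    rfl
  rw [h1, Matrix.det_mul, Matrix.det_mul, hdet, hdet, h3] at h2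
  have h4 := congrArg TrivSqZeroExt.snd h2
  have h5 : TrivSqZeroExt.snd (derHom D M.det) = D M.det := by
    show TrivSqZeroExt.snd (TrivSqZeroExt.inl (algebraMap L P M.det) +
      TrivSqZeroExt.inr (D M.det) : DualNumber P) = D M.det
    simp
  rw [h5] at h4
  rw [← h4]
  simp
  ring

end der

end Pool.Agent.MP100fe7G
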