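import Pool.Agent.Lib.MP_100fe7_nt.GProd

/-!
The equations of the torsor, its generic point, and the transfer of irreducibility.
-/

namespace Pool.Agent.MP100fe7G

open Matrix MvPolynomial

/-- The index set of the coordinates `(x, y)`. -/
abbrev Var (n : Type) : Type := (n × n) ⊕ (n × n)

/-- The coordinates of a pair of matrices. -/
def coord {n L : Type} (x y : Matrix n n L) : Var n → L :=
  Sum.elim (fun i => x i.1 i.2) fun i => y i.1 i.2

/-- The matrix of the first coordinates. -/
def matX {n L : Type} (t : Var n → L) : Matrix n n L := Matrix.of fun i j => t (Sum.inl (i, j))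

/-- The matrix of the second coordinates. -/
def matY {n L : Type} (t : Var n → L) : Matrix n n L := Matrix.of fun i j => t (Sum.inr (i, j))

theorem coord_mat {n L : Type} (t : Var n → L) : coord (matX t) (matY t) = t := by
  funext i
  rcases i with i | i <;> rfl

section eqs

variable {E : Type} [Field E] {n J : Type} [Fintype n] [DecidableEq n] [Fintype J] [DecidableEq J]
  {a b : J → ℕ}

/-- The matrix of the variables `x`. -/
noncomputable def gx (E : Type) [Field E] (n : Type) : Matrix n n (MvPolynomial (Var n) E) :=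
  matX MvPolynomial.X

/-- The matrix of the variables `y`. -/
noncomputable def gy (E : Type) [Field E] (n : Type) : Matrix n n (MvPolynomial (Var n) E) :=
  matY MvPolynomial.X

/-- The equations of the torsor. -/
def eqs (wt : n → ℤ) (S : Set (TMat n a b E × TMat n a b E)) : Set (MvPolynomial (Var n) E) :=
  {p | (∃ i j, p = (gx E n * gy E n - 1) i j) ∨ (∃ i j, wt i ≠ wt j ∧ p = gx E n i j) ∨
    (∃ i j, wt i ≠ wt j ∧ p = gy E n i j) ∨
    ∃ s ∈ S, ∃ i j, p =
      (tens a b (gx E n) (gy E n) * s.1.map (algebraMap E (MvPolynomial (Var n) E)) -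
        s.2.map (algebraMap E (MvPolynomial (Var n) E)) * tens a b (gx E n) (gy E n)) i j}

variable {L : Type} [CommRing L] [Algebra E L]

omit [Fintype n] [DecidableEq n] in
theorem gx_map (t : Var n → L) : (gx E n).map (aeval t) = matX t := by
  ext i j
  simp [gx, matX]

omit [Fintype n] [DecidableEq n] in
theorem gy_map (t : Var n → L) : (gy E n).map (aeval t) = matY t := by
  ext i j
  simp [gy, matY]

theorem isPt_iff (wt : n → ℤ) (S : Set (TMat n a b E × TMat n a b E)) (t : Var n → L) :
    IsPt wt S (matX t) (matY t) ↔ ∀ p ∈ eqs wt S, aeval t p = 0 := by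
  have hm : ∀ {ι : Type} (X Y : Matrix ι ι (MvPolynomial (Var n) E)) (i j : ι),
      aeval t ((X - Y) i j) = X.map (aeval t) i j - Y.map (aeval t) i j := by
    intro ι X Y i j
    simp
  have h1 : ∀ i j, aeval t ((gx E n * gy E n - 1) i j) = (matX t * matY t) i j -
      (1 : Matrix n n L) i j := by
    intro i j
    rw [hm, Matrix.map_mul, gx_map, gy_map, Matrix.map_one _ (map_zero _) (map_one _)]
  have h2 : ∀ s : TMat n a b E × TMat n a b E, ∀ i j,
      aeval t ((tens a b (gx E n) (gy E n) *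
        s.1.map (algebraMap E (MvPolynomial (Var n) E)) -
        s.2.map (algebraMap E (MvPolynomial (Var n) E)) * tens a b (gx E n) (gy E n)) i j) =
      (tens a b (matX t) (matY t) * s.1.map (algebraMap E L)) i j -
        (s.2.map (algebraMap E L) * tens a b (matX t) (matY t)) i j := by
    intro s i j
    have h3 : ∀ X : TMat n a b E, (X.map (algebraMap E (MvPolynomial (Var n) E))).map (aeval t) =
        X.map (algebraMap E L) := by
      intro X
      ext i j
      simp
    have h4 : (tens a b (gx E n) (gy E n)).map (aeval t) = tens a b (matX t) (matY t) := by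
      rw [← gx_map (E := E) t, ← gy_map (E := E) t]
      exact tens_map (aeval t : MvPolynomial (Var n) E →ₐ[E] L).toRingHom _ _
    rw [hm, Matrix.map_mul, Matrix.map_mul, h3, h3, h4]
  constructor
  · intro h p hp
    rcases hp with ⟨i, j, rfl⟩ | ⟨i, j, hij, rfl⟩ | ⟨i, j, hij, rfl⟩ | ⟨s, hs, i, j, rfl⟩
    · rw [h1, h.1, sub_self]
    · have := h.2.1 i j hij
      rwa [← gx_map (E := E)] at this
    · have := h.2.2.1 i j hij
      rwa [← gy_map (E := E)] at this
    · rw [h2, h.2.2.2 s hs, sub_self]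
  · intro h
    refine ⟨?_, ?_, ?_, ?_⟩
    · refine Matrix.ext fun i j => ?_
      have := h _ (Or.inl ⟨i, j, rfl⟩)
      rw [h1, sub_eq_zero] at this
      exact this
    · intro i j hij
      have := h _ (Or.inr (Or.inl ⟨i, j, hij, rfl⟩))
      rw [← gx_map (E := E)]
      exact this
    · intro i j hij
      have := h _ (Or.inr (Or.inr (Or.inl ⟨i, j, hij, rfl⟩)))
      rw [← gy_map (E := E)]
      exact this
    · intro s hs
      refine Matrix.ext fun i j => ?_
      have := h _ (Or.inr (Or.inr (Or.inr ⟨s, hs, i, j, rfl⟩)))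
      rw [h2, sub_eq_zero] at this
      exact this

/-- The polynomial whose value at a point `x` of the torsor is the value of a period. -/
noncomputable def perPoly {d : ℕ} (A : Matrix (TIdx n a b) (Fin d) E)
    (B : Matrix (Fin d) (TIdx n a b) E) : MvPolynomial (Var n) E :=
  perVal A B (gx E n) (gy E n)

theorem aeval_perPoly [CharZero E] {d : ℕ} (A : Matrix (TIdx n a b) (Fin d) E)
    (B : Matrix (Fin d) (TIdx n a b) E) (t : Var n → L) :
    aeval t (perPoly A B) = perVal A B (matX t) (matY t) := by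
  rw [perPoly, ← gx_map (E := E) t, ← gy_map (E := E) t]
  exact (perVal_map (aeval t) A B (gx E n) (gy E n)).symm

end eqs

private theorem geqs_block_inv {ι P : Type*} [Fintype ι] [DecidableEq ι] [CommRing P] (h : ι → ℤ)
    (X Y : Matrix ι ι P) (hXY : X * Y = 1) (hX : ∀ i j, h i ≠ h j → X i j = 0) (i j : ι)
    (hij : h i ≠ h j) : Y i j = 0 := by
  have hYX : Y * X = 1 := mul_eq_one_comm.mp hXY
  set D : Matrix ι ι P := diagonal (fun k => if h k = h j then 1 else 0) with hD
  have h1 : X * D = D * X := by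
    ext a b
    rw [hD, mul_diagonal, diagonal_mul]
    by_cases hab : h a = h b
    · rw [hab, mul_comm]
    · rw [hX a b hab, zero_mul, mul_zero]
  have h2 : Y * D = D * Y := by
    calc Y * D = Y * D * (X * Y) := by rw [hXY, Matrix.mul_one]
      _ = Y * (D * X) * Y := by simp only [Matrix.mul_assoc]
      _ = Y * (X * D) * Y := by rw [h1]
      _ = (Y * X) * D * Y := by simp only [Matrix.mul_assoc]
      _ = D * Y := by rw [hYX, Matrix.one_mul]
  have h3 := congrFun (congrFun h2 i) j
  rw [hD, mul_diagonal, diagonal_mul, if_pos rfl, mul_one, if_neg hij, zero_mul] at h3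
  exact h3

/-- the linear substitution `x = x₀ g`, `y = h y₀` -/
private noncomputable def geqsSub {n : Type} [Fintype n] (x₀ y₀ : Matrix n n ℂ) :
    Var n → MvPolynomial (Var n) ℂ :=
  Sum.elim (fun i => ∑ k, C (x₀ i.1 k) * X (Sum.inl (k, i.2)))
    fun i => ∑ k, X (Sum.inr (i.1, k)) * C (y₀ k i.2)

private theorem geqs_eval_sub {n : Type} [Fintype n] [DecidableEq n] (x₀ y₀ g h : Matrix n n ℂ)
    (p : MvPolynomial (Var n) ℂ) :
    eval (coord g h) (bind₁ (geqsSub x₀ y₀) p) = eval (coord (x₀ * g) (h * y₀)) p := by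
  have h1 : (fun v => eval (coord g h) (geqsSub x₀ y₀ v)) = coord (x₀ * g) (h * y₀) := by
    funext v
    rcases v with ⟨i, j⟩ | ⟨i, j⟩
    · simp [geqsSub, coord, Matrix.mul_apply]
    · simp [geqsSub, coord, Matrix.mul_apply]
  rw [← h1]
  have h2 := MvPolynomial.aeval_bind₁ (coord g h) (geqsSub x₀ y₀) p (R := ℂ)
  exact h2

/-- Irreducibility of the group gives irreducibility of the torsor, if it has a point `(x₀, y₀)`:
the points of the torsor are the `(x₀ g, g⁻¹ y₀)`, `g` in the group; substitute these linear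
expressions in the polynomials. -/
theorem irred_torsor {E : Type} [Field E] {n J : Type} [Fintype n] [DecidableEq n] [Fintype J]
    [DecidableEq J] {a b : J → ℕ} [Algebra E ℂ] (wt : n → ℤ)
    (S : Set (TMat n a b E × TMat n a b E)) (hconn : IsConn wt S (algebraMap E ℂ))
    (x₀ y₀ : Matrix n n ℂ) (h₀ : IsPt wt S x₀ y₀) (p q : MvPolynomial (Var n) ℂ)
    (hpq : ∀ t : Var n → ℂ, (∀ j ∈ eqs wt S, aeval t j = 0) → eval t (p * q) = 0) :
    (∀ t : Var n → ℂ, (∀ j ∈ eqs wt S, aeval t j = 0) → eval t p = 0) ∨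
      ∀ t : Var n → ℂ, (∀ j ∈ eqs wt S, aeval t j = 0) → eval t q = 0 := by
  have hxy : x₀ * y₀ = 1 := h₀.1
  have hyx : y₀ * x₀ = 1 := mul_eq_one_comm.mp hxy
  -- the points of the torsor from the group
  have hto : ∀ g ∈ group wt S (algebraMap E ℂ), ∀ j ∈ eqs wt S,
      aeval (coord (x₀ * g.1) (g.2 * y₀)) j = 0 := by
    intro g hg
    rw [← isPt_iff wt S (coord (x₀ * g.1) (g.2 * y₀))]
    obtain ⟨hg1, hg2, hg3⟩ := hg
    have hg2' := geqs_block_inv wt g.1 g.2 hg1 hg2
    show IsPt wt S (x₀ * g.1) (g.2 * y₀)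
    refine ⟨?_, block_mul h₀.2.1 hg2, block_mul hg2' h₀.2.2.1, fun s hs => ?_⟩
    · calc x₀ * g.1 * (g.2 * y₀) = x₀ * (g.1 * g.2) * y₀ := by simp only [Matrix.mul_assoc]
        _ = 1 := by rw [hg1, Matrix.mul_one, hxy]
    · rw [tens_mul, Matrix.mul_assoc]
      have h1 : tens a b g.1 g.2 * s.1.map (algebraMap E ℂ) =
          s.1.map (algebraMap E ℂ) * tens a b g.1 g.2 := hg3 s hs
      rw [h1, ← Matrix.mul_assoc, h₀.2.2.2 s hs, Matrix.mul_assoc]
  -- the elements of the group from the torsor
  have hfrom : ∀ t : Var n → ℂ, (∀ j ∈ eqs wt S, aeval t j = 0) →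
      (y₀ * matX t, matY t * x₀) ∈ group wt S (algebraMap E ℂ) := by
    intro t ht
    obtain ⟨h1, h2, h3, h4⟩ := (isPt_iff wt S t).2 ht
    refine ⟨?_, block_mul h₀.2.2.1 h2, fun s hs => ?_⟩
    · show y₀ * matX t * (matY t * x₀) = 1
      calc y₀ * matX t * (matY t * x₀) = y₀ * (matX t * matY t) * x₀ := by
            simp only [Matrix.mul_assoc]
        _ = 1 := by rw [h1, Matrix.mul_one, hyx]
    · show tens a b (y₀ * matX t) (matY t * x₀) * s.1.map (algebraMap E ℂ) =
        s.1.map (algebraMap E ℂ) * tens a b (y₀ * matX t) (matY t * x₀)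
      rw [tens_mul, Matrix.mul_assoc, h4 s hs, ← Matrix.mul_assoc, h₀.tens_y hs,
        Matrix.mul_assoc]
  have hback : ∀ (r : MvPolynomial (Var n) ℂ), (∀ g ∈ group wt S (algebraMap E ℂ),
      eval (coord g.1 g.2) (bind₁ (geqsSub x₀ y₀) r) = 0) →
      ∀ t : Var n → ℂ, (∀ j ∈ eqs wt S, aeval t j = 0) → eval t r = 0 := by
    intro r hr t ht
    have h1 := hr _ (hfrom t ht)
    rw [geqs_eval_sub] at h1
    have e1 : x₀ * (y₀ * matX t) = matX t := by
      rw [← Matrix.mul_assoc, hxy, Matrix.one_mul]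
    have e2 : matY t * x₀ * y₀ = matY t := by
      rw [Matrix.mul_assoc, hxy, Matrix.mul_one]
    rw [e1, e2, coord_mat] at h1
    exact h1
  rcases hconn (bind₁ (geqsSub x₀ y₀) p) (bind₁ (geqsSub x₀ y₀) q) (fun g hg => by
    rw [← map_mul]
    have h1 := geqs_eval_sub x₀ y₀ g.1 g.2 (p * q)
    exact h1.trans (hpq _ (hto g hg))) with h | h
  · exact Or.inl (hback p h)
  · exact Or.inr (hback q h)

end Pool.Agent.MP100fe7G
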