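import Mathlib

/-!
Generic points of irreducible sets.
-/

namespace Pool.Agent.MP100fe7G

open MvPolynomial

/-- Let `T` be the set of common zeros in `Ω` of a set `J` of polynomials over `E`. If `T` is not
empty and is irreducible over `Ω` it has a generic point over `E`: the class of the variables in
the field of fractions of `MvPolynomial V E ⧸ I`, where `I` is the (prime) ideal of the polynomials
over `E` vanishing on `T`. -/
theorem exists_generic {E Ω V : Type} [Field E] [Field Ω] [Algebra E Ω]
    (J : Set (MvPolynomial V E)) (t₀ : V → Ω) (ht₀ : ∀ j ∈ J, aeval t₀ j = 0)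
    (hirr : ∀ p q : MvPolynomial V Ω,
      (∀ t : V → Ω, (∀ j ∈ J, aeval t j = 0) → eval t (p * q) = 0) →
      (∀ t : V → Ω, (∀ j ∈ J, aeval t j = 0) → eval t p = 0) ∨
        ∀ t : V → Ω, (∀ j ∈ J, aeval t j = 0) → eval t q = 0) :
    ∃ (L : Type) (_ : Field L) (_ : Algebra E L) (η : V → L), ∀ p : MvPolynomial V E,
      aeval η p = 0 ↔ ∀ t : V → Ω, (∀ j ∈ J, aeval t j = 0) → aeval t p = 0 := by
  let I : Ideal (MvPolynomial V E) :=
    { carrier := {p | ∀ t : V → Ω, (∀ j ∈ J, aeval t j = 0) → aeval t p = 0}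
      add_mem' := fun {a b} ha hb t ht => by rw [map_add, ha t ht, hb t ht, add_zero]
      zero_mem' := fun t _ => map_zero _
      smul_mem' := fun c x hx t ht => by rw [smul_eq_mul, map_mul, hx t ht, mul_zero] }
  have hI : ∀ p, p ∈ I ↔ ∀ t : V → Ω, (∀ j ∈ J, aeval t j = 0) → aeval t p = 0 :=
    fun p => Iff.rfl
  have hmap : ∀ (t : V → Ω) (p : MvPolynomial V E),
      eval t (MvPolynomial.map (algebraMap E Ω) p) = aeval t p := fun t p => by
    rw [eval_map, aeval_def]
  have hprime : I.IsPrime := by
    refine ⟨?_, ?_⟩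
    · intro h
      have h1 : (1 : MvPolynomial V E) ∈ I := by rw [h]; trivial
      have h2 := (hI 1).1 h1 t₀ ht₀
      rw [map_one] at h2
      exact one_ne_zero h2
    · intro p q hpq
      rcases hirr (MvPolynomial.map (algebraMap E Ω) p) (MvPolynomial.map (algebraMap E Ω) q)
        (fun t ht => by
          rw [← map_mul, hmap]
          exact (hI _).1 hpq t ht) with h | h
      · left
        exact (hI p).2 fun t ht => by rw [← hmap]; exact h t ht
      · right
        exact (hI q).2 fun t ht => by rw [← hmap]; exact h t ht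
  refine ⟨FractionRing (MvPolynomial V E ⧸ I), inferInstance, inferInstance,
    fun v => algebraMap (MvPolynomial V E ⧸ I) _ (Ideal.Quotient.mk I (X v)), fun p => ?_⟩
  have h1 : aeval (fun v => algebraMap (MvPolynomial V E ⧸ I)
      (FractionRing (MvPolynomial V E ⧸ I)) (Ideal.Quotient.mk I (X v))) p =
      algebraMap (MvPolynomial V E ⧸ I) _ (Ideal.Quotient.mk I p) := by
    have h2 : aeval (fun v => algebraMap (MvPolynomial V E ⧸ I)
        (FractionRing (MvPolynomial V E ⧸ I)) (Ideal.Quotient.mk I (X v))) =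
        (IsScalarTower.toAlgHom E (MvPolynomial V E ⧸ I)
          (FractionRing (MvPolynomial V E ⧸ I))).comp (Ideal.Quotient.mkₐ E I) := by
      apply MvPolynomial.algHom_ext
      intro v
      simp
    rw [h2]
    rfl
  rw [h1, ← hI, ← Ideal.Quotient.eq_zero_iff_mem]
  exact (map_eq_zero_iff _ (IsFractionRing.injective (MvPolynomial V E ⧸ I)
    (FractionRing (MvPolynomial V E ⧸ I))))

end Pool.Agent.MP100fe7G
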