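import Mathlib

/-!
Points of affine varieties over algebraically closed fields, and rationality of constants.
-/

namespace Pool.Agent.MP100fe7G

open MvPolynomial

/-- Weak Nullstellensatz: a nonzero algebra of finite type over a field `K` has a `K`-algebra
homomorphism to every algebraically closed extension of `K` (divide by a maximal ideal, Zariski's
lemma `finite_of_finite_type_of_isJacobsonRing`, `IsAlgClosed.lift`). -/
theorem exists_algHom (K B Ω : Type) [Field K] [CommRing B] [Nontrivial B] [Algebra K B]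
    [Algebra.FiniteType K B] [Field Ω] [IsAlgClosed Ω] [Algebra K Ω] : Nonempty (B →ₐ[K] Ω) := by
  obtain ⟨m, hm⟩ := Ideal.exists_maximal B
  let _ : Field (B ⧸ m) := Ideal.Quotient.field m
  have h1 : Algebra.FiniteType K (B ⧸ m) := inferInstance
  have h2 : Module.Finite K (B ⧸ m) := finite_of_finite_type_of_isJacobsonRing K (B ⧸ m)
  have h3 : Algebra.IsAlgebraic K (B ⧸ m) := inferInstance
  exact ⟨(IsAlgClosed.lift : (B ⧸ m) →ₐ[K] Ω).comp (Ideal.Quotient.mkₐ K m)⟩

/-- A polynomial over `E` which vanishes on the common zeros in `Ω'` of a set `J` of polynomials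
over `E` vanishes on the common zeros in every other field `Ω`. Proof: if `p (t) ≠ 0`, apply
`exists_algHom` to the subalgebra `E[t, p(t)⁻¹]` of `Ω` and to `Ω'`. -/
theorem vanish_transfer {E Ω Ω' V : Type} [Field E] [Finite V] [Field Ω] [Algebra E Ω] [Field Ω']
    [IsAlgClosed Ω'] [Algebra E Ω'] (J : Set (MvPolynomial V E)) (p : MvPolynomial V E)
    (h : ∀ t : V → Ω', (∀ j ∈ J, aeval t j = 0) → aeval t p = 0) (t : V → Ω)
    (ht : ∀ j ∈ J, aeval t j = 0) : aeval t p = 0 := by
  by_contra hp
  let B := Algebra.adjoin E (Set.range t ∪ {(aeval t p)⁻¹})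
  have hB : Algebra.FiniteType E B := by
    have hfin : (Set.range t ∪ {(aeval t p)⁻¹}).Finite := (Set.finite_range t).union (Set.finite_singleton _)
    exact (Subalgebra.fg_iff_finiteType _).1 (Subalgebra.fg_def.2 ⟨_, hfin, rfl⟩)
  obtain ⟨φ⟩ := exists_algHom E B Ω'
  let tB : V → B := fun v => ⟨t v, Algebra.subset_adjoin (Or.inl ⟨v, rfl⟩)⟩
  let iB : B := ⟨(aeval t p)⁻¹, Algebra.subset_adjoin (Or.inr rfl)⟩
  have hval : ∀ q : MvPolynomial V E, ((aeval tB q : B) : Ω) = aeval t q := by
    intro q
    exact MvPolynomial.comp_aeval_apply tB B.val q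
  have h1 := h (fun v => φ (tB v)) (by
    intro j hj
    have h2 : aeval (fun v => φ (tB v)) j = φ (aeval tB j) :=
      (MvPolynomial.comp_aeval_apply tB φ j).symm
    have h3 : aeval tB j = 0 := Subtype.ext ((hval j).trans (ht j hj))
    rw [h2, h3, map_zero])
  have h2 : aeval (fun v => φ (tB v)) p = φ (aeval tB p) :=
    (MvPolynomial.comp_aeval_apply tB φ p).symm
  have h3 : aeval tB p * iB = 1 := by
    apply Subtype.ext
    change ((aeval tB p : B) : Ω) * (aeval t p)⁻¹ = 1
    rw [hval p, mul_inv_cancel₀ hp]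
  have h4 := congrArg φ h3
  rw [map_mul, ← h2, h1, zero_mul, map_one] at h4
  exact zero_ne_one h4

private theorem gnull_hom {E K : Type} [Field E] [Field K] [Algebra E K] (μ : Polynomial E)
    (x y : K) (hy : y ≠ 0) :
    ∑ k ∈ Finset.range (μ.natDegree + 1),
      algebraMap E K (μ.coeff k) * x ^ k * y ^ (μ.natDegree - k) =
      y ^ μ.natDegree * Polynomial.aeval (x / y) μ := by
  rw [Polynomial.aeval_eq_sum_range, Finset.mul_sum]
  refine Finset.sum_congr rfl fun k hk => ?_
  rw [Finset.mem_range] at hk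
  have e : μ.natDegree = (μ.natDegree - k) + k := by omega
  have e2 : y ^ μ.natDegree = y ^ (μ.natDegree - k) * y ^ k := by
    conv_lhs => rw [e, pow_add]
  rw [e2, Algebra.smul_def, div_pow]
  field_simp

private theorem gnull_hom_zero {E K : Type} [Field E] [Field K] [Algebra E K]
    (μ : Polynomial E) (hμ : μ.Monic) (x : K) :
    ∑ k ∈ Finset.range (μ.natDegree + 1),
      algebraMap E K (μ.coeff k) * x ^ k * (0 : K) ^ (μ.natDegree - k) = x ^ μ.natDegree := by
  rw [Finset.sum_range_succ, Finset.sum_eq_zero]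
  · rw [Nat.sub_self, pow_zero, mul_one, hμ.coeff_natDegree, map_one, one_mul, zero_add]
  · intro k hk
    rw [Finset.mem_range] at hk
    rw [zero_pow (by omega), mul_zero]

private theorem gnull_prod {E Ω : Type} [Field E] [Field Ω] [IsAlgClosed Ω] [Algebra E Ω]
    (μ : Polynomial E) (hμ : μ.Monic) (x y : Ω) :
    ((μ.aroots Ω).map fun e => x - e * y).prod =
      ∑ k ∈ Finset.range (μ.natDegree + 1),
        algebraMap E Ω (μ.coeff k) * x ^ k * y ^ (μ.natDegree - k) := by
  have hsp : (μ.map (algebraMap E Ω)).Splits := IsAlgClosed.splits _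
  have hcard : (μ.aroots Ω).card = μ.natDegree := by
    rw [Polynomial.aroots_def, ← hsp.natDegree_eq_card_roots, Polynomial.natDegree_map]
  by_cases hy : y = 0
  · subst hy
    rw [gnull_hom_zero μ hμ]
    simp only [mul_zero, sub_zero]
    rw [Multiset.map_const', Multiset.prod_replicate, hcard]
  · rw [gnull_hom μ x y hy, hsp.aeval_eq_prod_aroots_of_monic hμ]
    have e1 : (μ.aroots Ω).map (fun e => x - e * y) =
        (μ.aroots Ω).map (fun e => y * (x / y - e)) := by
      refine Multiset.map_congr rfl fun e _ => ?_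
      field_simp
    rw [e1, Multiset.prod_map_mul, Multiset.map_const', Multiset.prod_replicate, hcard]

/-- Rationality of constants. Let `T` be the set of common zeros in `Ω` of a set `J` of polynomials
over `E`, irreducible over `Ω` (`hirr`), and `η` a generic point of `T`, with values in a field `L`
(`hη`). If `A (η) / B (η)` is algebraic over `E`, it is in `E`.
Proof: let `μ` be the minimal polynomial of `c = A (η) / B (η)`, of degree `d`, and
`G = ∑ μ_k A ^ k B ^ (d - k)`; `G (η) = 0`, so `G` vanishes on `T`; over `Ω`,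
`G = ∏ (A - e_k B)` over the roots `e_k` of `μ`, so by irreducibility (and as `T` is not empty) some
`A - e_k B` vanishes on `T`. If `d ≥ 2` there is another root `e_l ≠ e_k`. By `exists_algHom` over
the field `E⟮c⟯`, with `c ↦ e_l`, applied to the subalgebra of `L` generated over `E⟮c⟯` by the
`η v` and `B (η)⁻¹`, there is `t` in `T` with `B (t) ≠ 0` and `A (t) = e_l B (t)`, which contradicts
`A (t) = e_k B (t)`. So `d = 1`. -/
theorem exists_rational {E Ω V L : Type} [Field E] [CharZero E] [Finite V] [Field Ω]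
    [IsAlgClosed Ω] [Algebra E Ω] [Field L] [Algebra E L] (J : Set (MvPolynomial V E))
    (hirr : ∀ p q : MvPolynomial V Ω,
      (∀ t : V → Ω, (∀ j ∈ J, aeval t j = 0) → eval t (p * q) = 0) →
      (∀ t : V → Ω, (∀ j ∈ J, aeval t j = 0) → eval t p = 0) ∨
        ∀ t : V → Ω, (∀ j ∈ J, aeval t j = 0) → eval t q = 0)
    (η : V → L) (hη : ∀ p : MvPolynomial V E,
      aeval η p = 0 ↔ ∀ t : V → Ω, (∀ j ∈ J, aeval t j = 0) → aeval t p = 0)
    (A B : MvPolynomial V E) (hB : aeval η B ≠ 0)
    (hc : IsAlgebraic E (aeval η A / aeval η B)) :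
    ∃ e : E, aeval η A = algebraMap E L e * aeval η B := by
  classical
  obtain ⟨c, hcd⟩ : ∃ c, c = aeval η A / aeval η B := ⟨_, rfl⟩
  rw [← hcd] at hc
  have hint : IsIntegral E c := hc.isIntegral
  have hAc : aeval η A = c * aeval η B := by
    rw [hcd, div_mul_cancel₀ _ hB]
  -- it suffices that the degree is one
  suffices hdeg : (minpoly E c).natDegree = 1 by
    obtain ⟨e, he⟩ := minpoly.natDegree_eq_one_iff.mp hdeg
    refine ⟨e, ?_⟩
    rw [he, hAc]
  -- the zero set is not empty
  have hT : ∃ t : V → Ω, ∀ j ∈ J, aeval t j = 0 := by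
    by_contra hne
    have h1 : aeval η (1 : MvPolynomial V E) = 0 :=
      (hη 1).mpr fun t ht => absurd ⟨t, ht⟩ hne
    rw [map_one] at h1
    exact one_ne_zero h1
  obtain ⟨μ, hμd⟩ : ∃ μ, μ = minpoly E c := ⟨_, rfl⟩
  have hμ : μ.Monic := by
    rw [hμd]
    exact minpoly.monic hint
  have hμc : Polynomial.aeval c μ = 0 := by
    rw [hμd]
    exact minpoly.aeval E c
  obtain ⟨G, hG⟩ : ∃ G : MvPolynomial V E, G = ∑ k ∈ Finset.range (μ.natDegree + 1),
      C (μ.coeff k) * A ^ k * B ^ (μ.natDegree - k) := ⟨_, rfl⟩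
  have hGt : ∀ t : V → Ω, aeval t G = ∑ k ∈ Finset.range (μ.natDegree + 1),
      algebraMap E Ω (μ.coeff k) * (aeval t A) ^ k * (aeval t B) ^ (μ.natDegree - k) := by
    intro t
    rw [hG, map_sum]
    refine Finset.sum_congr rfl fun k _ => ?_
    rw [map_mul, map_mul, map_pow, map_pow]
    rw [algHom_C]
  have hGη : aeval η G = 0 := by
    have h1 : aeval η G = ∑ k ∈ Finset.range (μ.natDegree + 1),
        algebraMap E L (μ.coeff k) * (aeval η A) ^ k * (aeval η B) ^ (μ.natDegree - k) := by
      rw [hG, map_sum]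
      refine Finset.sum_congr rfl fun k _ => ?_
      rw [map_mul, map_mul, map_pow, map_pow]
      rw [algHom_C]
    rw [h1, gnull_hom μ _ _ hB, ← hcd, hμc, mul_zero]
  have hGT : ∀ t : V → Ω, (∀ j ∈ J, aeval t j = 0) → aeval t G = 0 := (hη G).mp hGη
  -- the product over the roots
  obtain ⟨A', hA'⟩ : ∃ A', A' = map (algebraMap E Ω) A := ⟨_, rfl⟩
  obtain ⟨B', hB'⟩ : ∃ B', B' = map (algebraMap E Ω) B := ⟨_, rfl⟩
  have hAe : ∀ t : V → Ω, eval t A' = aeval t A := by
    intro t
    rw [hA', eval_map, aeval_def]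
  have hBe : ∀ t : V → Ω, eval t B' = aeval t B := by
    intro t
    rw [hB', eval_map, aeval_def]
  have hfac : ∀ s : Multiset Ω, (∀ t : V → Ω, (∀ j ∈ J, aeval t j = 0) →
      eval t (s.map fun e => A' - C e * B').prod = 0) → ∃ e ∈ s, ∀ t : V → Ω,
        (∀ j ∈ J, aeval t j = 0) → eval t (A' - C e * B') = 0 := by
    intro s
    induction s using Multiset.induction_on with
    | empty =>
      intro h
      obtain ⟨t, ht⟩ := hT
      have := h t ht
      simp at this
    | cons e s ih =>
      intro h
      rw [Multiset.map_cons, Multiset.prod_cons] at h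
      rcases hirr _ _ h with h1 | h1
      · exact ⟨e, Multiset.mem_cons_self e s, h1⟩
      · obtain ⟨e', he', h2⟩ := ih h1
        exact ⟨e', Multiset.mem_cons_of_mem he', h2⟩
  obtain ⟨e, heR, he⟩ := hfac (μ.aroots Ω) (by
    intro t ht
    have h1 : eval t ((μ.aroots Ω).map fun e => A' - C e * B').prod =
        ((μ.aroots Ω).map fun e => aeval t A - e * aeval t B).prod := by
      rw [map_multiset_prod, Multiset.map_map]
      congr 1
      refine Multiset.map_congr rfl fun e _ => ?_
      rw [Function.comp_apply, map_sub, map_mul, eval_C, hAe, hBe]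
    rw [h1, gnull_prod μ hμ, ← hGt]
    exact hGT t ht)
  have he' : ∀ t : V → Ω, (∀ j ∈ J, aeval t j = 0) → aeval t A = e * aeval t B := by
    intro t ht
    have h1 := he t ht
    rw [map_sub, map_mul, eval_C, hAe, hBe, sub_eq_zero] at h1
    exact h1
  -- all roots are equal to `e`
  have hall : ∀ e' ∈ μ.aroots Ω, e' = e := by
    intro e' he'R
    rw [hμd] at he'R
    let φ₀ : IntermediateField.adjoin E {c} →ₐ[E] Ω :=
      (IntermediateField.algHomAdjoinIntegralEquiv E hint).symm ⟨e', he'R⟩
    have hφ₀ : φ₀ (IntermediateField.AdjoinSimple.gen E c) = e' :=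
      IntermediateField.algHomAdjoinIntegralEquiv_symm_apply_gen E hint ⟨e', he'R⟩
    letI : Algebra (IntermediateField.adjoin E {c}) Ω := φ₀.toRingHom.toAlgebra
    obtain ⟨S, hS⟩ : ∃ S : Set L, S = Set.range η ∪ {(aeval η B)⁻¹} := ⟨_, rfl⟩
    have hSf : S.Finite := by
      rw [hS]
      exact (Set.finite_range η).union (Set.finite_singleton _)
    let R := Algebra.adjoin (IntermediateField.adjoin E {c}) S
    haveI : Algebra.FiniteType (IntermediateField.adjoin E {c}) R := by
      rw [← Subalgebra.fg_iff_finiteType]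
      have h1 := Subalgebra.fg_adjoin_finset (R := IntermediateField.adjoin E {c}) hSf.toFinset
      rw [Set.Finite.coe_toFinset] at h1
      exact h1
    obtain ⟨φ⟩ := exists_algHom (IntermediateField.adjoin E {c}) R Ω
    have hηR : ∀ v, η v ∈ R := fun v => Algebra.subset_adjoin (by
      rw [hS]
      exact Or.inl ⟨v, rfl⟩)
    have hbR : (aeval η B)⁻¹ ∈ R := Algebra.subset_adjoin (by
      rw [hS]
      exact Or.inr rfl)
    obtain ⟨η', hη'⟩ : ∃ η' : V → R, η' = fun v => ⟨η v, hηR v⟩ := ⟨_, rfl⟩
    obtain ⟨t, ht⟩ : ∃ t : V → Ω, t = fun v => φ (η' v) := ⟨_, rfl⟩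
    -- evaluation of polynomials over `E`
    have hval : ∀ p : MvPolynomial V E, ((aeval η' p : R) : L) = aeval η p := by
      intro p
      have h1 := map_aeval η' (algebraMap R L) p
      rw [aeval_def, aeval_def]
      induction p using MvPolynomial.induction_on with
      | C a =>
        rw [eval₂_C, eval₂_C]
        rfl
      | add p q hp hq =>
        rw [eval₂_add, eval₂_add, ← hp (map_aeval η' (algebraMap R L) p),
          ← hq (map_aeval η' (algebraMap R L) q)]
        rfl
      | mul_X p v hp =>
        rw [eval₂_mul, eval₂_mul, eval₂_X, eval₂_X, ← hp (map_aeval η' (algebraMap R L) p), hη']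
        rfl
    have hφE : ∀ a : E, φ (algebraMap E R a) = algebraMap E Ω a := by
      intro a
      have h1 : algebraMap E R a = algebraMap (IntermediateField.adjoin E {c}) R
          (algebraMap E (IntermediateField.adjoin E {c}) a) := rfl
      rw [h1, AlgHom.commutes]
      exact φ₀.commutes a
    have hφ : ∀ p : MvPolynomial V E, φ (aeval η' p) = aeval t p := by
      intro p
      rw [aeval_def, aeval_def]
      induction p using MvPolynomial.induction_on with
      | C a => rw [eval₂_C, eval₂_C, hφE]
      | add p q hp hq => rw [eval₂_add, eval₂_add, map_add, hp, hq]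
      | mul_X p v hp => rw [eval₂_mul, eval₂_mul, eval₂_X, eval₂_X, map_mul, hp, ht]
    have htT : ∀ j ∈ J, aeval t j = 0 := by
      intro j hj
      have h1 : aeval η j = 0 := (hη j).mpr fun t' ht' => ht' j hj
      have h2 : aeval η' j = 0 := by
        apply Subtype.ext
        rw [hval, h1]
        rfl
      rw [← hφ, h2, map_zero]
    have hBt : aeval t B ≠ 0 := by
      intro h0
      have h1 : aeval η' B * (⟨(aeval η B)⁻¹, hbR⟩ : R) = 1 := by
        apply Subtype.ext
        show ((aeval η' B : R) : L) * (aeval η B)⁻¹ = 1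
        rw [hval, mul_inv_cancel₀ hB]
      have h2 := congrArg φ h1
      rw [map_mul, hφ, h0, zero_mul, map_one] at h2
      exact zero_ne_one h2
    have hAt : aeval t A = e' * aeval t B := by
      have h1 : aeval η' A = algebraMap (IntermediateField.adjoin E {c}) R
          (IntermediateField.AdjoinSimple.gen E c) * aeval η' B := by
        apply Subtype.ext
        show ((aeval η' A : R) : L) = c * ((aeval η' B : R) : L)
        rw [hval, hval, hAc]
      rw [← hφ, h1, map_mul, hφ, AlgHom.commutes]
      congr 1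
    have h1 := he' t htT
    rw [hAt] at h1
    exact mul_right_cancel₀ hBt h1
  -- so the degree is one
  have hsep : μ.Separable := by
    rw [hμd]
    exact (minpoly.irreducible hint).separable
  have hnd : (μ.aroots Ω).Nodup := by
    rw [Polynomial.nodup_aroots_iff_of_splits hμ.ne_zero (IsAlgClosed.splits _)]
    exact hsep
  have hcard : (μ.aroots Ω).card = μ.natDegree := by
    have hsp : (μ.map (algebraMap E Ω)).Splits := IsAlgClosed.splits _
    rw [Polynomial.aroots_def, ← hsp.natDegree_eq_card_roots, Polynomial.natDegree_map]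
  have hrep : μ.aroots Ω = Multiset.replicate (μ.aroots Ω).card e :=
    Multiset.eq_replicate_card.mpr hall
  have hle : (μ.aroots Ω).card ≤ 1 := by
    rw [hrep] at hnd
    exact Multiset.nodup_iff_count_le_one.mp hnd e |> fun h => by
      rwa [Multiset.count_replicate_self] at h
  have hpos : 0 < μ.natDegree := by
    rw [hμd]
    exact minpoly.natDegree_pos hint
  rw [← hμd]
  omega

end Pool.Agent.MP100fe7G
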