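import Pool.Agent.Lib.MP_100fe7_nt.GSpec
import Pool.Agent.Lib.MP_100fe7_nt.GField
import Pool.Agent.Lib.MP_100fe7_nt.GNull
import Pool.Agent.Lib.MP_100fe7_nt.GGenPt

/-!
Products of periods satisfying the criterion: algebraicity, constancy on the torsor.
-/

namespace Pool.Agent.MP100fe7G

open Matrix MvPolynomial

section alg

variable {E : Type} [Field E] [CharZero E] {n J : Type} [Fintype n] [DecidableEq n] [Fintype J]
  [DecidableEq J] {a b : J → ℕ} {wt idx : n → ℤ} {frob : Matrix n n E}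
  {S : Set (TMat n a b E × TMat n a b E)} {I : Type} [Fintype I]
  {N : I → TMat n a b E × TMat n a b E} {ε r m : I → ℤ} {d : I → ℕ}
  {A : ∀ i, Matrix (TIdx n a b) (Fin (d i)) E} {B : ∀ i, Matrix (Fin (d i)) (TIdx n a b) E}
  {C : ∀ i, Matrix (Fin (d i)) (TIdx n a b) E} {C' : ∀ i, Matrix (TIdx n a b) (Fin (d i)) E}

/-- The derivative of a product of periods which satisfies the criterion. -/
theorem prod_der_zero {L : Type} [Field L] [Algebra E L] {x y : Matrix n n L}
    (hx : IsPt wt S x y) (hF : frob * frob = 1) (hN : ∀ i, N i ∈ S)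
    (hP : ∀ i, PerBasis idx frob (N i).1 (N i).2 (ε i) (r i) (A i) (B i) (C i) (C' i))
    (u : I → Lˣ) (hu : ∀ i, (u i : L) = perVal (A i) (B i) x y) (D : Derivation E L L)
    (hdec : Dec wt idx frob S x y)
    (hK : ∀ Y : Matrix n n E, InK wt frob S Y → ∑ i, (m i : E) * traceK frob (N i).1 (ε i) Y = 0)
    (hPc : ∀ Z : Matrix n n E, InP wt idx S Z → ∑ i, (m i : E) * traceP idx (N i).2 (r i) Z = 0) :
    D ((∏ i, u i ^ m i : Lˣ) : L) = 0 := by
  have hid : ∀ z : Matrix n n L, z.map (algebraMap L L) = z := fun z => by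
    ext i j
    simp
  have h1 := inLie_der (P := L) hx D
  rw [hid] at h1
  obtain ⟨Y, Z, hY, hZ, hX⟩ := hdec _ h1
  have h2 : ∀ i, 2 * D (u i : L) = algebraMap L L (u i : L) *
      (traceK frob (N i).1 (ε i) Y + 2 * traceP idx (N i).2 (r i) Z) := by
    intro i
    rw [hu i]
    apply period_der hx hF D (hN i) (hP i) hY hZ
    rw [hid, hid]
    exact hX
  have h3 := der_prod D u m _ h2
  have h4 : ∑ i, (m i : L) * (traceK frob (N i).1 (ε i) Y + 2 * traceP idx (N i).2 (r i) Z) =
      (∑ i, (m i : L) * traceK frob (N i).1 (ε i) Y) +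
        2 * ∑ i, (m i : L) * traceP idx (N i).2 (r i) Z := by
    rw [Finset.mul_sum, ← Finset.sum_add_distrib]
    refine Finset.sum_congr rfl fun i _ => ?_
    ring
  rw [h4, base_K hK hY, base_P hPc hZ, mul_zero, add_zero, mul_zero] at h3
  have h5 : (2 : L) ≠ 0 := by
    have := charZero_of_injective_algebraMap (algebraMap E L).injective
    exact two_ne_zero
  rcases mul_eq_zero.mp h3 with h6 | h6
  · exact absurd h6 h5
  · exact h6

/-- A product of periods which satisfies the criterion is algebraic over `E`. -/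
theorem prod_algebraic {L : Type} [Field L] [Algebra E L] {x y : Matrix n n L}
    (hx : IsPt wt S x y) (hF : frob * frob = 1) (hN : ∀ i, N i ∈ S)
    (hP : ∀ i, PerBasis idx frob (N i).1 (N i).2 (ε i) (r i) (A i) (B i) (C i) (C' i))
    (u : I → Lˣ) (hu : ∀ i, (u i : L) = perVal (A i) (B i) x y)
    (hdec : Dec wt idx frob S x y)
    (hK : ∀ Y : Matrix n n E, InK wt frob S Y → ∑ i, (m i : E) * traceK frob (N i).1 (ε i) Y = 0)
    (hPc : ∀ Z : Matrix n n E, InP wt idx S Z → ∑ i, (m i : E) * traceP idx (N i).2 (r i) Z = 0) :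
    IsAlgebraic E ((∏ i, u i ^ m i : Lˣ) : L) :=
  isAlgebraic_of_derivation _ fun D => prod_der_zero hx hF hN hP u hu D hdec hK hPc

/-- The product of the periods with positive exponents. -/
noncomputable def numPoly (m : I → ℤ) (A : ∀ i, Matrix (TIdx n a b) (Fin (d i)) E)
    (B : ∀ i, Matrix (Fin (d i)) (TIdx n a b) E) : MvPolynomial (Var n) E :=
  ∏ i, perPoly (A i) (B i) ^ (m i).toNat

/-- The product of the periods with negative exponents. -/
noncomputable def denPoly (m : I → ℤ) (A : ∀ i, Matrix (TIdx n a b) (Fin (d i)) E)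
    (B : ∀ i, Matrix (Fin (d i)) (TIdx n a b) E) : MvPolynomial (Var n) E :=
  ∏ i, perPoly (A i) (B i) ^ (-m i).toNat

theorem prod_mul_den {L : Type} [CommRing L] [Algebra E L] (t : Var n → L) (u : I → Lˣ)
    (hu : ∀ i, (u i : L) = perVal (A i) (B i) (matX t) (matY t)) :
    ((∏ i, u i ^ m i : Lˣ) : L) * aeval t (denPoly m A B) = aeval t (numPoly m A B) := by
  unfold numPoly denPoly
  rw [map_prod, map_prod, Units.coe_prod, ← Finset.prod_mul_distrib]
  refine Finset.prod_congr rfl fun i _ => ?_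
  rw [map_pow, map_pow, aeval_perPoly, ← hu i, ← Units.val_pow_eq_pow_val,
    ← Units.val_pow_eq_pow_val, ← Units.val_mul]
  congr 1
  rw [← zpow_natCast, ← zpow_natCast, ← _root_.zpow_add]
  congr 1
  omega

/-- Constancy on the torsor. -/
theorem exists_const [Algebra E ℂ] {x₀ y₀ : Matrix n n ℂ} (hx : IsPt wt S x₀ y₀)
    (hF : frob * frob = 1) (hN : ∀ i, N i ∈ S)
    (hP : ∀ i, PerBasis idx frob (N i).1 (N i).2 (ε i) (r i) (A i) (B i) (C i) (C' i))
    (hne : ∀ i, perVal (A i) (B i) x₀ y₀ ≠ 0)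
    (hdec : Dec wt idx frob S x₀ y₀) (hconn : IsConn wt S (algebraMap E ℂ))
    (hK : ∀ Y : Matrix n n E, InK wt frob S Y → ∑ i, (m i : E) * traceK frob (N i).1 (ε i) Y = 0)
    (hPc : ∀ Z : Matrix n n E, InP wt idx S Z → ∑ i, (m i : E) * traceP idx (N i).2 (r i) Z = 0) :
    ∃ e : E, ∀ t : Var n → ℂ, (∀ j ∈ eqs wt S, aeval t j = 0) →
      aeval t (numPoly m A B - MvPolynomial.C e * denPoly m A B) = 0 := by
  have hirr := irred_torsor wt S hconn x₀ y₀ hx
  have ht₀ : ∀ j ∈ eqs wt S, aeval (coord x₀ y₀) j = 0 := by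
    rw [← isPt_iff]
    exact hx
  obtain ⟨L, _, _, η, hη⟩ := exists_generic (eqs wt S) (coord x₀ y₀) ht₀ hirr
  have hηJ : ∀ j ∈ eqs wt S, aeval η j = 0 := by
    intro j hj
    rw [hη]
    intro t ht
    exact ht j hj
  have hxη : IsPt wt S (matX η) (matY η) := (isPt_iff wt S η).mpr hηJ
  have hspec : ∀ p : MvPolynomial (Var n) E, aeval (coord (matX η) (matY η)) p = 0 →
      aeval (coord x₀ y₀) p = 0 := by
    intro p hp
    rw [coord_mat, hη] at hp
    exact hp _ ht₀
  have hdη : Dec wt idx frob S (matX η) (matY η) := dec_specialize hxη hx hspec hdec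
  have hneη : ∀ i, perVal (A i) (B i) (matX η) (matY η) ≠ 0 := by
    intro i h
    rw [← aeval_perPoly, hη] at h
    have h2 := h _ ht₀
    rw [aeval_perPoly] at h2
    exact hne i h2
  set u : I → Lˣ := fun i => Units.mk0 _ (hneη i) with hu
  have halg := prod_algebraic (m := m) hxη hF hN hP u (fun i => rfl) hdη hK hPc
  have hmul := prod_mul_den (m := m) (A := A) (B := B) η u (fun i => rfl)
  have hden : aeval η (denPoly m A B) ≠ 0 := by
    unfold denPoly
    rw [map_prod]
    refine Finset.prod_ne_zero_iff.mpr fun i _ => ?_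
    rw [map_pow, aeval_perPoly]
    exact pow_ne_zero _ (hneη i)
  have hquot : aeval η (numPoly m A B) / aeval η (denPoly m A B) =
      ((∏ i, u i ^ m i : Lˣ) : L) := by
    rw [← hmul, mul_div_cancel_right₀ _ hden]
  obtain ⟨e, he⟩ := exists_rational (eqs wt S) hirr η hη (numPoly m A B) (denPoly m A B) hden
    (by rw [hquot]; exact halg)
  refine ⟨e, ?_⟩
  rw [← hη, map_sub, map_mul, aeval_C, he, sub_self]

end alg

end Pool.Agent.MP100fe7G
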