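import Pool.Agent.Lib.MP_100fe7_nt.GDec

/-!
Existence of Hodge frames.
-/

namespace Pool.Agent.MP100fe7G

open Matrix

private theorem filt_pow {ι P : Type*} [Fintype ι] [DecidableEq ι] [CommRing P] (h : ι → ℤ)
    (N : Matrix ι ι P) (hN : ∀ i j, h i ≤ h j → N i j = 0) (k : ℕ) :
    ∀ i j, h i < h j + k → (N ^ k) i j = 0 := by
  induction k with
  | zero =>
    intro i j hij
    have hne : i ≠ j := by
      rintro rfl
      simp at hij
    rw [pow_zero, Matrix.one_apply_ne hne]
  | succ k ih =>
    intro i j hij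
    rw [pow_succ, Matrix.mul_apply]
    refine Finset.sum_eq_zero fun l _ => ?_
    by_cases h1 : h l ≤ h j
    · rw [hN l j h1, mul_zero]
    · rw [ih i l (by push_cast at hij; omega), zero_mul]

/-- A matrix `1 + N` with `N` strictly filtered (`N i j = 0` unless `h i > h j`) has a filtered
inverse: `N` is nilpotent, and `∑ (-N) ^ k` is filtered. -/
theorem exists_filt_inv {ι P : Type*} [Fintype ι] [DecidableEq ι] [CommRing P] (h : ι → ℤ)
    (u : Matrix ι ι P) (hu : ∀ i j, h i ≤ h j → u i j = if i = j then 1 else 0) :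
    ∃ u' : Matrix ι ι P, u * u' = 1 ∧ ∀ i j, h i < h j → u' i j = 0 := by
  have hN : ∀ i j, h i ≤ h j → (1 - u) i j = 0 := by
    intro i j hij
    rw [Matrix.sub_apply, hu i j hij, Matrix.one_apply, sub_self]
  have hp := filt_pow h (1 - u) hN
  set K : ℕ := ∑ i, ∑ j, ((h i - h j).toNat + 1) with hK
  have hK0 : (1 - u) ^ K = 0 := by
    ext i j
    rw [Matrix.zero_apply]
    refine hp K i j ?_
    have h1 : (h i - h j).toNat + 1 ≤ K := by
      rw [hK]
      refine le_trans ?_ (Finset.single_le_sum (f := fun i => ∑ j, ((h i - h j).toNat + 1))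
        (fun i _ => Nat.zero_le _) (Finset.mem_univ i))
      exact Finset.single_le_sum (f := fun j => (h i - h j).toNat + 1)
        (fun j _ => Nat.zero_le _) (Finset.mem_univ j)
    omega
  refine ⟨∑ k ∈ Finset.range K, (1 - u) ^ k, ?_, ?_⟩
  · have h1 := mul_neg_geom_sum (1 - u) K
    rw [sub_sub_cancel, hK0, sub_zero] at h1
    exact h1
  · intro i j hij
    rw [Matrix.sum_apply]
    refine Finset.sum_eq_zero fun k _ => hp k i j ?_
    omega

/-- the inverse of a block diagonal matrix is block diagonal -/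
private theorem block_inv {ι P : Type*} [Fintype ι] [DecidableEq ι] [CommRing P] (h : ι → ℤ)
    (X Y : Matrix ι ι P) (hXY : X * Y = 1) (hX : ∀ i j, h i ≠ h j → X i j = 0) (i j : ι)
    (hij : h i ≠ h j) : Y i j = 0 := by
  have hYX : Y * X = 1 := mul_eq_one_comm.mp hXY
  set D : Matrix ι ι P := diagonal (fun k => if h k = h j then 1 else 0) with hD
  have h1 : X * D = D * X := by
    ext a b
    rw [hD, mul_diagonal, diagonal_mul]
    by_cases hab : h a = h b
    · rw [hab, mul_comm]
    · rw [hX a b hab, zero_mul, mul_zero]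
  have h2 : Y * D = D * Y := by
    calc Y * D = Y * D * (X * Y) := by rw [hXY, Matrix.mul_one]
      _ = Y * (D * X) * Y := by simp only [Matrix.mul_assoc]
      _ = Y * (X * D) * Y := by rw [h1]
      _ = (Y * X) * D * Y := by simp only [Matrix.mul_assoc]
      _ = D * Y := by rw [hYX, Matrix.one_mul]
  have h3 := congrFun (congrFun h2 i) j
  rw [hD, mul_diagonal, diagonal_mul, if_pos rfl, mul_one, if_neg hij, zero_mul] at h3
  exact h3

/-- the projections of an internal direct sum -/
private theorem exists_proj {R ι n : Type*} [CommRing R] [DecidableEq ι] [Fintype n]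
    [DecidableEq n] (H : ι → Submodule R (n → R)) (h : DirectSum.IsInternal H) :
    ∃ (π : ι → (n → R) →ₗ[R] (n → R)) (S : Finset ι), (∀ s v, π s v ∈ H s) ∧
      (∀ s, ∀ v ∈ H s, π s v = v) ∧ (∀ s t, s ≠ t → ∀ v ∈ H s, π t v = 0) ∧
      ∀ v, ∑ s ∈ S, π s v = v := by
  have hb : Function.Bijective (DirectSum.coeLinearMap H) := h
  set e := LinearEquiv.ofBijective (DirectSum.coeLinearMap H) hb with he
  set π : ι → (n → R) →ₗ[R] (n → R) := fun s =>
    (H s).subtype ∘ₗ (DirectSum.component R ι (fun i => H i) s) ∘ₗ e.symm.toLinearMap with hπ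
  have hsym : ∀ s, ∀ v, ∀ hv : v ∈ H s, e.symm v = DirectSum.lof R ι (fun i => H i) s ⟨v, hv⟩ := by
    intro s v hv
    rw [LinearEquiv.symm_apply_eq]
    show v = DirectSum.coeLinearMap H (DirectSum.lof R ι (fun i => H i) s ⟨v, hv⟩)
    rw [DirectSum.lof_eq_of, DirectSum.coeLinearMap_of]
  have h1 : ∀ s v, π s v ∈ H s := fun s v => Subtype.coe_prop _
  have h2 : ∀ s, ∀ v ∈ H s, π s v = v := by
    intro s v hv
    show ((DirectSum.component R ι (fun i => H i) s (e.symm v) : H s) : n → R) = v
    rw [hsym s v hv, DirectSum.component.lof_self]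
  have h3 : ∀ s t, s ≠ t → ∀ v ∈ H s, π t v = 0 := by
    intro s t hst v hv
    show ((DirectSum.component R ι (fun i => H i) t (e.symm v) : H t) : n → R) = 0
    rw [hsym s v hv, DirectSum.component.of, dif_neg hst]
    rfl
  have h4 : ∀ v : n → R, ∃ S0 : Finset ι, ∀ T : Finset ι, S0 ⊆ T → ∑ s ∈ T, π s v = v := by
    intro v
    have hv : v ∈ ⨆ s, H s := by
      rw [h.submodule_iSup_eq_top]
      exact Submodule.mem_top
    refine Submodule.iSup_induction H (motive := fun v => ∃ S0 : Finset ι, ∀ T : Finset ι,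
      S0 ⊆ T → ∑ s ∈ T, π s v = v) hv ?_ ?_ ?_
    · intro s x hx
      refine ⟨{s}, fun T hT => ?_⟩
      rw [Finset.sum_eq_single s]
      · exact h2 s x hx
      · intro t _ hts
        exact h3 s t hts.symm x hx
      · intro hs
        exact absurd (hT (Finset.mem_singleton_self s)) hs
    · exact ⟨∅, fun T _ => by simp only [map_zero, Finset.sum_const_zero]⟩
    · rintro x y ⟨Sx, hx⟩ ⟨Sy, hy⟩
      refine ⟨Sx ∪ Sy, fun T hT => ?_⟩
      simp only [map_add]
      rw [Finset.sum_add_distrib, hx T (Finset.union_subset_left hT),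
        hy T (Finset.union_subset_right hT)]
  choose S0 hS0 using h4
  set S : Finset ι := Finset.univ.biUnion fun j : n => S0 (Pi.single j 1) with hS
  refine ⟨π, S, h1, h2, h3, fun v => ?_⟩
  have h5 : ∑ s ∈ S, π s = LinearMap.id := by
    refine LinearMap.pi_ext' fun j => LinearMap.ext_ring ?_
    have h6 := hS0 (Pi.single j 1) S (Finset.subset_biUnion_of_mem
      (fun j : n => S0 (Pi.single j 1)) (Finset.mem_univ j))
    simpa [LinearMap.sum_apply] using h6
  have h7 := congrArg (fun L => L v) h5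
  simpa [LinearMap.sum_apply] using h7

/-- A basis of `M_B ⊗ ℂ` adapted to the Hodge decomposition. For each `j` let `v` be the element of
`⨁_{p ≥ idx j} hodge p q` with `comp v = e_j` (`fil_hodge`), and `y_j` its component in
`hodge (idx j) (wt j - idx j)`. As `comp` is block diagonal, `v` is in the span of the basis vectors
of weight `wt j`, so (by `hodge_wt` and directness) its components in `hodge p q` with
`p + q ≠ wt j` are zero; hence `comp y_j - e_j` is in `comp (⨁_{p > idx j} hodge p q)`, i.e. (by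
`fil_hodge`) its coordinates of index `≤ idx j` are zero. `q` is the matrix with columns `y_j`,
`u = comp * q`; use `exists_filt_inv` for `u'`, `q' = u' * comp`. `q'` is block diagonal since the
inverse of a block diagonal matrix is. For `swap`: `F y_j ∈ hodge (wt j - idx j) (idx j)`, and the
coordinates in the basis `y_i` of an element of `hodge p r` are zero unless
`(idx i, wt i - idx i) = (p, r)` (directness). -/
theorem exists_frame {E R : Type} [Field E] [CommRing R] [Algebra E R] {n : Type} [Fintype n]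
    [DecidableEq n] (M : Datum E R n) :
    ∃ q q' u u' : Matrix n n R,
      Frame M.wt M.idx (M.frob.map (algebraMap E R)) M.comp q q' u u' := by
  classical
  obtain ⟨π, S, h1, h2, h3, h4⟩ := exists_proj (fun s : ℤ × ℤ => M.hodge s.1 s.2) M.internal
  -- the filtration
  have hfil : ∀ (a : ℤ) (v : n → R), v ∈ (⨆ p, ⨆ (_ : a ≤ p), ⨆ q, M.hodge p q) ↔
      ∀ s : ℤ × ℤ, s.1 < a → π s v = 0 := by
    intro a v
    constructor
    · intro hv s hs
      have hle : (⨆ p, ⨆ (_ : a ≤ p), ⨆ q, M.hodge p q) ≤ LinearMap.ker (π s) := by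
        refine iSup_le fun p => iSup_le fun hp => iSup_le fun q => ?_
        intro x hx
        rw [LinearMap.mem_ker]
        refine h3 (p, q) s ?_ x hx
        rintro rfl
        exact absurd hs (not_lt.2 hp)
      exact LinearMap.mem_ker.1 (hle hv)
    · intro hv
      rw [← h4 v]
      refine Submodule.sum_mem _ fun s _ => ?_
      by_cases hs : s.1 < a
      · rw [hv s hs]
        exact Submodule.zero_mem _
      · have hle : M.hodge s.1 s.2 ≤ ⨆ p, ⨆ (_ : a ≤ p), ⨆ q, M.hodge p q := by
          refine le_iSup_of_le s.1 (le_iSup_of_le (not_lt.1 hs) ?_)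
          exact le_iSup (fun q => M.hodge s.1 q) s.2
        exact hle (h1 s v)
  -- the vectors
  have hv : ∀ j, ∃ v : n → R, (∀ s : ℤ × ℤ, s.1 < M.idx j → π s v = 0) ∧
      M.comp.mulVec v = Pi.single j 1 := by
    intro j
    have h5 : (Pi.single j 1 : n → R) ∈
        (⨆ p, ⨆ (_ : M.idx j ≤ p), ⨆ q, M.hodge p q).map M.comp.mulVecLin := by
      rw [M.fil_hodge]
      intro i hi
      refine Pi.single_eq_of_ne ?_ _
      rintro rfl
      exact lt_irrefl _ hi
    obtain ⟨v, hv1, hv2⟩ := Submodule.mem_map.1 h5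
    exact ⟨v, (hfil _ v).1 hv1, hv2⟩
  choose v hv1 hv2 using hv
  have hcc : M.comp * M.comp⁻¹ = 1 := Matrix.mul_nonsing_inv _ M.comp_unit
  have hcc' : M.comp⁻¹ * M.comp = 1 := Matrix.nonsing_inv_mul _ M.comp_unit
  -- weights
  have hvw : ∀ j i, M.wt i ≠ M.wt j → v j i = 0 := by
    intro j i hij
    have e1 : v j = M.comp⁻¹.mulVec (Pi.single j 1) := by
      rw [← hv2 j, Matrix.mulVec_mulVec, hcc', Matrix.one_mulVec]
    rw [e1, Matrix.mulVec_single_one]
    exact block_inv M.wt M.comp M.comp⁻¹ hcc M.comp_wt i j hij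
  have hvπ : ∀ j, ∀ s : ℤ × ℤ, s.1 + s.2 ≠ M.wt j → π s (v j) = 0 := by
    intro j s hs
    have e1 : v j = ∑ t ∈ S, if t.1 + t.2 = M.wt j then π t (v j) else 0 := by
      funext i
      rw [Finset.sum_apply]
      by_cases hi : M.wt i = M.wt j
      · conv_lhs => rw [← h4 (v j)]
        rw [Finset.sum_apply]
        refine Finset.sum_congr rfl fun t _ => ?_
        by_cases ht : t.1 + t.2 = M.wt j
        · rw [if_pos ht]
        · rw [if_neg ht]
          exact M.hodge_wt _ _ _ (h1 t (v j)) i (by rw [hi]; exact fun h => ht h.symm)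
      · rw [hvw j i hi]
        refine (Finset.sum_eq_zero fun t _ => ?_).symm
        by_cases ht : t.1 + t.2 = M.wt j
        · rw [if_pos ht]
          exact M.hodge_wt _ _ _ (h1 t (v j)) i (by rw [ht]; exact hi)
        · rw [if_neg ht]
          rfl
    rw [e1, map_sum]
    refine Finset.sum_eq_zero fun t _ => ?_
    by_cases ht : t.1 + t.2 = M.wt j
    · rw [if_pos ht]
      refine h3 t s ?_ _ (h1 t _)
      rintro rfl
      exact hs ht
    · rw [if_neg ht, map_zero]
  set y : n → n → R := fun j => π (M.idx j, M.wt j - M.idx j) (v j) with hy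
  have hyH : ∀ j, y j ∈ M.hodge (M.idx j) (M.wt j - M.idx j) := fun j =>
    h1 (M.idx j, M.wt j - M.idx j) (v j)
  have hyπ : ∀ j, ∀ s : ℤ × ℤ, (M.idx j, M.wt j - M.idx j) ≠ s → π s (y j) = 0 := fun j s hs =>
    h3 (M.idx j, M.wt j - M.idx j) s hs (y j) (hyH j)
  have hdiff : ∀ j, ∀ s : ℤ × ℤ, s.1 < M.idx j + 1 → π s (v j - y j) = 0 := by
    intro j s hs
    rw [map_sub]
    by_cases h5 : (M.idx j, M.wt j - M.idx j) = s
    · rw [← h5, h2 (M.idx j, M.wt j - M.idx j) (y j) (hyH j), sub_self]
    · rw [hyπ j s h5, sub_zero]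
      by_cases h6 : s.1 < M.idx j
      · exact hv1 j s h6
      · refine hvπ j s fun h7 => h5 ?_
        refine Prod.ext ?_ ?_
        · show M.idx j = s.1
          omega
        · show M.wt j - M.idx j = s.2
          omega
  set q : Matrix n n R := Matrix.of fun i j => y j i with hq
  have hqcol : ∀ (X : Matrix n n R) (i j : n), (X * q) i j = X.mulVec (y j) i := fun X i j => rfl
  set u : Matrix n n R := M.comp * q with hu
  have hu1 : ∀ i j, M.idx i ≤ M.idx j → u i j = if i = j then 1 else 0 := by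
    intro i j hij
    have h5 : M.comp.mulVecLin (v j - y j) ∈
        (⨆ p, ⨆ (_ : M.idx j + 1 ≤ p), ⨆ q, M.hodge p q).map M.comp.mulVecLin :=
      Submodule.mem_map_of_mem ((hfil _ _).2 (hdiff j))
    rw [M.fil_hodge] at h5
    have h6 := h5 i (by omega)
    rw [map_sub, Pi.sub_apply, Matrix.mulVecLin_apply, Matrix.mulVecLin_apply, hv2 j,
      sub_eq_zero] at h6
    rw [hu, hqcol, ← h6, Pi.single_apply]
  obtain ⟨u', huu, hu'⟩ := exists_filt_inv M.idx u hu1
  have huu' : u' * u = 1 := mul_eq_one_comm.mp huu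
  have hq'q : (u' * M.comp) * q = 1 := by
    rw [Matrix.mul_assoc]
    exact huu'
  have hqq' : q * (u' * M.comp) = 1 := mul_eq_one_comm.mp hq'q
  have hqw : ∀ i j, M.wt i ≠ M.wt j → q i j = 0 := by
    intro i j hij
    exact M.hodge_wt _ _ _ (hyH j) i (by rw [add_sub_cancel]; exact hij)
  refine ⟨q, u' * M.comp, u, u', ⟨hqq', huu, rfl, ?_, hu', hqw, ?_, ?_⟩⟩
  · intro i j hij
    rw [hu1 i j hij.le, if_neg]
    rintro rfl
    exact lt_irrefl _ hij
  · exact block_inv M.wt q (u' * M.comp) hqq' hqw
  · intro i j hij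
    set F := M.frob.map (algebraMap E R) with hF
    set z : n → R := F.mulVec (y j) with hz
    have hzH : z ∈ M.hodge (M.wt j - M.idx j) (M.idx j) := by
      rw [← M.frob_hodge]
      exact Submodule.mem_map_of_mem (f := F.mulVecLin) (hyH j)
    set c : n → R := (u' * M.comp).mulVec z with hc
    have hqc : q.mulVec c = z := by
      rw [hc, Matrix.mulVec_mulVec, hqq', Matrix.one_mulVec]
    have hqsum : ∀ d : n → R, q.mulVec d = ∑ k, d k • y k := by
      intro d
      funext i
      rw [Finset.sum_apply]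
      refine Finset.sum_congr rfl fun k _ => ?_
      rw [Pi.smul_apply, smul_eq_mul, mul_comm]
      rfl
    set c' : n → R := fun k => if (M.idx k, M.wt k - M.idx k) = (M.wt j - M.idx j, M.idx j) then
      c k else 0 with hc'
    have hqc' : q.mulVec c' = z := by
      have h5 := h2 (M.wt j - M.idx j, M.idx j) z hzH
      rw [← h5, ← hqc, hqsum, hqsum, map_sum]
      refine Finset.sum_congr rfl fun k _ => ?_
      rw [map_smul]
      by_cases h6 : (M.idx k, M.wt k - M.idx k) = (M.wt j - M.idx j, M.idx j)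
      · have h7 := h2 (M.idx k, M.wt k - M.idx k) (y k) (hyH k)
        rw [h6] at h7
        rw [h7]
        show (if (M.idx k, M.wt k - M.idx k) = (M.wt j - M.idx j, M.idx j) then c k else 0) •
          y k = c k • y k
        rw [if_pos h6]
      · rw [hyπ k _ h6]
        show (if (M.idx k, M.wt k - M.idx k) = (M.wt j - M.idx j, M.idx j) then c k else 0) •
          y k = c k • 0
        rw [if_neg h6, zero_smul, smul_zero]
    have hinj : ∀ d : n → R, (u' * M.comp).mulVec (q.mulVec d) = d := by
      intro d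
      rw [Matrix.mulVec_mulVec, hq'q, Matrix.one_mulVec]
    have hcc2 : c = c' := by
      rw [← hinj c, ← hinj c', hqc, hqc']
    have h8 : ((u' * M.comp) * F * q) i j = c i := by
      rw [hqcol, ← Matrix.mulVec_mulVec]
    rw [h8, hcc2, hc']
    refine if_neg fun h9 => ?_
    have h10 := congrArg Prod.fst h9
    have h11 := congrArg Prod.snd h9
    simp only at h10 h11
    rcases hij with h12 | h12 <;> omega

end Pool.Agent.MP100fe7G
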