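import Pool.Agent.Lib.MP_100fe7_nt.GDefs

/-!
Parts of a matrix for the grading by `h i - h j`.
-/

namespace Pool.Agent.MP100fe7G

open Matrix

/-- The part of a matrix made of the entries `(i, j)` with `C (h i - h j)`. -/
def part {ι S : Type*} [CommRing S] (h : ι → ℤ) (C : ℤ → Prop) [DecidablePred C]
    (X : Matrix ι ι S) : Matrix ι ι S :=
  Matrix.of fun i j => if C (h i - h j) then X i j else 0

section basic

variable {ι S : Type*} [CommRing S] (h : ι → ℤ) (C : ℤ → Prop) [DecidablePred C]

theorem part_apply (X : Matrix ι ι S) (i j : ι) :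
    part h C X i j = if C (h i - h j) then X i j else 0 := rfl

theorem part_add_not (X : Matrix ι ι S) : part h C X + part h (fun r => ¬ C r) X = X := by
  ext i j
  simp only [Matrix.add_apply, part_apply]
  by_cases hc : C (h i - h j) <;> simp [hc]

/-- Multiplication on the right by a matrix of degree zero. -/
theorem part_mul_zero [Fintype ι] (X Y : Matrix ι ι S) (hY : ∀ i j, h i ≠ h j → Y i j = 0) :
    part h C (X * Y) = part h C X * Y := by
  ext i j
  simp only [part_apply, Matrix.mul_apply]
  split_ifs with hc
  · refine Finset.sum_congr rfl fun k _ => ?_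
    by_cases hk : h k = h j
    · rw [if_pos (by rwa [hk])]
    · rw [hY k j hk, mul_zero, mul_zero]
  · symm
    refine Finset.sum_eq_zero fun k _ => ?_
    by_cases hk : h k = h j
    · rw [if_neg (by rwa [hk]), zero_mul]
    · rw [hY k j hk, mul_zero]

/-- Multiplication on the left by a matrix of degree zero. -/
theorem part_zero_mul [Fintype ι] (X Y : Matrix ι ι S) (hY : ∀ i j, h i ≠ h j → Y i j = 0) :
    part h C (Y * X) = Y * part h C X := by
  ext i j
  simp only [part_apply, Matrix.mul_apply]
  split_ifs with hc
  · refine Finset.sum_congr rfl fun k _ => ?_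
    by_cases hk : h i = h k
    · rw [if_pos (by rwa [← hk])]
    · rw [hY i k hk, zero_mul, zero_mul]
  · symm
    refine Finset.sum_eq_zero fun k _ => ?_
    by_cases hk : h i = h k
    · rw [if_neg (by rwa [← hk]), mul_zero]
    · rw [hY i k hk, zero_mul]

end basic

section lie

variable {n J : Type} [Fintype n] [DecidableEq n] [Fintype J] [DecidableEq J] {a b : J → ℕ}

theorem lie_single_int (h : n → ℤ) (i j : n) (s t : TIdx n a b)
    (hst : wsum h s - wsum h t ≠ h i - h j) : lie a b (single i j (1 : ℤ)) s t = 0 := by
  have h0 := lie_diag (S := ℤ) (a := a) (b := b) h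
  simp only [Int.cast_id] at h0
  have h1 : (diagonal h) * single i j (1 : ℤ) - single i j (1 : ℤ) * (diagonal h) =
      (h i - h j) • single i j (1 : ℤ) := by
    ext k l
    simp only [Matrix.sub_apply, diagonal_mul, mul_diagonal, single_apply, Matrix.smul_apply,
      smul_eq_mul]
    by_cases hkl : i = k ∧ j = l
    · obtain ⟨rfl, rfl⟩ := hkl
      simp
    · simp [hkl]
  have h2 := lie_bracket (a := a) (b := b) (diagonal h) (single i j (1 : ℤ))
  rw [h1, lie_smul, h0] at h2
  have h3 := congrFun (congrFun h2 s) t
  simp only [Matrix.smul_apply, Matrix.sub_apply, diagonal_mul, mul_diagonal, smul_eq_mul] at h3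
  have h4 : (wsum h s - wsum h t - (h i - h j)) * lie a b (single i j (1 : ℤ)) s t = 0 := by
    linear_combination -h3
  rcases mul_eq_zero.mp h4 with h5 | h5
  · omega
  · exact h5

/-- The differential of the tensor construction respects the grading. -/
theorem lie_part {S : Type*} [CommRing S] (h : n → ℤ) (C : ℤ → Prop) [DecidablePred C]
    (X : Matrix n n S) : lie a b (part h C X) = part (wsum h) C (lie a b X) := by
  have h1 : ∀ i j : n, lie a b (single i j (1 : S)) =
      (lie a b (single i j (1 : ℤ))).map (Int.castRingHom S) := by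
    intro i j
    rw [← lie_map]
    congr 1
    ext k l
    simp [single_apply, apply_ite (Int.cast : ℤ → S)]
  rw [lie_eq_sum, lie_eq_sum X]
  refine Matrix.ext fun s t => ?_
  rw [part_apply, Matrix.sum_apply, Matrix.sum_apply]
  simp only [Matrix.sum_apply, Matrix.smul_apply, part_apply, smul_eq_mul]
  have h2 : ∀ i j, (if C (h i - h j) then X i j else 0) * lie a b (single i j (1 : S)) s t =
      if C (wsum h s - wsum h t) then X i j * lie a b (single i j (1 : S)) s t else 0 := by
    intro i j
    by_cases h3 : wsum h s - wsum h t = h i - h j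
    · rw [h3]
      split_ifs <;> simp
    · rw [h1 i j, map_apply, lie_single_int h i j s t h3]
      simp
  split_ifs with hc
  · refine Finset.sum_congr rfl fun i _ => Finset.sum_congr rfl fun j _ => ?_
    rw [h2, if_pos hc]
  · refine Finset.sum_eq_zero fun i _ => Finset.sum_eq_zero fun j _ => ?_
    rw [h2, if_neg hc]

end lie

end Pool.Agent.MP100fe7G
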