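import Pool.Agent.Lib.MP_100fe7_nt.GDer

/-!
Logarithmic derivatives of products of periods, and base change of the criterion.
-/

set_option linter.unusedSectionVars false

namespace Pool.Agent.MP100fe7G

open Matrix

/-- The matrices `A` and `B` of a period, with the projections `A * C` and `C' * B`. -/
structure PerBasis {E : Type} [Field E] {n J : Type} [Fintype n] [DecidableEq n] [Fintype J]
    [DecidableEq J] {a b : J → ℕ} (idx : n → ℤ) (frob : Matrix n n E) (e f : TMat n a b E)
    (ε r : ℤ) {d : ℕ} (A : Matrix (TIdx n a b) (Fin d) E) (B : Matrix (Fin d) (TIdx n a b) E)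
    (C : Matrix (Fin d) (TIdx n a b) E) (C' : Matrix (TIdx n a b) (Fin d) E) : Prop where
  CA : C * A = 1
  AC : (2 : E) • (A * C) = e * (((2 - ε ^ 2 : ℤ) : E) • (1 : TMat n a b E) +
      ((ε : ℤ) : E) • tens a b frob frob)
  BC : B * C' = 1
  CB : C' * B = diagonal (fun s => if wsum idx s < r then (1 : E) else 0) * f
  Bf : B * f = B
  BD : B * diagonal (fun s => if wsum idx s < r then (1 : E) else 0) = B

/-- The value of a period at a point `x` of the torsor, in given bases. -/
def perVal {E L : Type} [Field E] [CommRing L] [Algebra E L] {n J : Type} [Fintype n]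
    [DecidableEq n] [Fintype J] [DecidableEq J] {a b : J → ℕ} {d : ℕ}
    (A : Matrix (TIdx n a b) (Fin d) E) (B : Matrix (Fin d) (TIdx n a b) E)
    (x y : Matrix n n L) : L :=
  (B.map (algebraMap E L) * tens a b x y * A.map (algebraMap E L)).det

section per

variable {E : Type} [Field E] [CharZero E] {n J : Type} [Fintype n] [DecidableEq n] [Fintype J]
  [DecidableEq J] {a b : J → ℕ} {d : ℕ} {wt idx : n → ℤ} {frob : Matrix n n E}
  {S : Set (TMat n a b E × TMat n a b E)}

theorem perVal_map {L P : Type} [CommRing L] [Algebra E L] [CommRing P] [Algebra E P]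
    (φ : L →ₐ[E] P) (A : Matrix (TIdx n a b) (Fin d) E) (B : Matrix (Fin d) (TIdx n a b) E)
    (x y : Matrix n n L) : perVal A B (x.map φ) (y.map φ) = φ (perVal A B x y) := by
  have h1 : ∀ {ι κ : Type} (s : Matrix ι κ E), s.map (algebraMap E P) =
      (s.map (algebraMap E L)).map φ := by
    intro ι κ s
    ext i j
    simp
  have h2 : tens a b (x.map φ) (y.map φ) = (tens a b x y).map φ :=
    (tens_map (a := a) (b := b) φ.toRingHom x y).symm
  unfold perVal
  rw [h1 A, h1 B, h2]
  have h3 := (AlgHom.map_det φ (B.map (algebraMap E L) * tens a b x y *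
    A.map (algebraMap E L)))
  rw [h3]
  congr 1
  simp [AlgHom.mapMatrix_apply, Matrix.map_mul]

/-- The bases of a period. -/
theorem exists_perBasis {e f : TMat n a b E} {ε r : ℤ} (hε : ε = 0 ∨ ε = 1 ∨ ε = -1)
    (he : e * e = e) (hf : f * f = f) (hF : frob * frob = 1)
    (hTe : tens a b frob frob * e = e * tens a b frob frob)
    (hfil : ∀ i j, wsum idx i < wsum idx j → f i j = 0)
    (A : Matrix (TIdx n a b) (Fin d) E) (B : Matrix (Fin d) (TIdx n a b) E)
    (hA : Function.Injective A.mulVec)
    (hA' : ∀ v, v ∈ Set.range A.mulVec ↔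
      e.mulVec v = v ∧ (ε = 0 ∨ (tens a b frob frob).mulVec v = ((ε : ℤ) : E) • v))
    (hB : Function.Surjective B.mulVec)
    (hB' : ∀ v, B.mulVec v = 0 ↔ ∀ s, wsum idx s < r → f.mulVec v s = 0) :
    ∃ C C', PerBasis idx frob e f ε r A B C C' := by
  obtain ⟨C, h1, h2⟩ := per_left hε he (tens_inv hF) hTe A hA hA'
  obtain ⟨C', h3, h4, h5, h6⟩ := per_right hf hfil B hB hB'
  exact ⟨C, C', ⟨h1, h2, h3, h4, h5, h6⟩⟩

variable {L P : Type} [CommRing L] [Algebra E L] [CommRing P] [Algebra E P] [Algebra L P]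
  [IsScalarTower E L P] {x y : Matrix n n L}

/-- The derivative of a period. -/
theorem period_der (hx : IsPt wt S x y) (hF : frob * frob = 1) (D : Derivation E L P)
    {N : TMat n a b E × TMat n a b E} (hN : N ∈ S) {ε r : ℤ}
    {A : Matrix (TIdx n a b) (Fin d) E} {B : Matrix (Fin d) (TIdx n a b) E}
    {C : Matrix (Fin d) (TIdx n a b) E} {C' : Matrix (TIdx n a b) (Fin d) E}
    (hP : PerBasis idx frob N.1 N.2 ε r A B C C') {Y Z : Matrix n n P}
    (hY : InK wt frob S Y) (hZ : InP wt idx S Z)
    (hX : y.map (algebraMap L P) * x.map D =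
      Y + y.map (algebraMap L P) * Z * x.map (algebraMap L P)) :
    2 * D (perVal A B x y) = algebraMap L P (perVal A B x y) *
      (traceK frob N.1 ε Y + 2 * traceP idx N.2 r Z) := by
  set φ := algebraMap L P with hφ
  obtain ⟨h1, h2⟩ := per_K hP.CA hP.AC hF hY ⟨N, hN, rfl⟩
  obtain ⟨h3, h4⟩ := per_P hP.CB hP.Bf hP.BD hZ ⟨N, hN, rfl⟩
  set A' := A.map (algebraMap E P) with hA'
  set B' := B.map (algebraMap E P) with hB'
  set U := C.map (algebraMap E P) * lie a b Y * A' with hU
  set V := B' * lie a b Z * C'.map (algebraMap E P) with hV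
  have hxP : IsPt wt S (x.map φ) (y.map φ) := hx.map
  have hT : (tens a b x y).map φ = tens a b (x.map φ) (y.map φ) := tens_map φ x y
  have h5 : tens a b (x.map φ) (y.map φ) * lie a b (y.map φ * Z * x.map φ) =
      lie a b Z * tens a b (x.map φ) (y.map φ) := by
    rw [← lie_conj hxP.yx, ← Matrix.mul_assoc, ← Matrix.mul_assoc, tens_inv hxP.1,
      Matrix.one_mul]
  have h6 : (B.map (algebraMap E L) * tens a b x y * A.map (algebraMap E L)).map D =
      (B.map (algebraMap E L) * tens a b x y * A.map (algebraMap E L)).map φ * U +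
        V * (B.map (algebraMap E L) * tens a b x y * A.map (algebraMap E L)).map φ := by
    rw [mul_map_der, mul_map_der, map_map_der, map_map_der, Matrix.mul_zero, zero_add,
      Matrix.zero_mul, add_zero, tens_der D hx.1, hX, lie_add, Matrix.mul_add, hT, h5,
      Matrix.map_mul, Matrix.map_mul, hT, map_map_alg, map_map_alg]
    rw [Matrix.mul_add, Matrix.add_mul]
    congr 1
    · calc B' * (tens a b (x.map φ) (y.map φ) * lie a b Y) * A'
          = B' * tens a b (x.map φ) (y.map φ) * (lie a b Y * A') := by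
            simp only [Matrix.mul_assoc]
        _ = B' * tens a b (x.map φ) (y.map φ) * (A' * U) := by rw [h1]
        _ = _ := by
          rw [hA', hB']
          simp only [Matrix.mul_assoc]
    · calc B' * (lie a b Z * tens a b (x.map φ) (y.map φ)) * A'
          = (B' * lie a b Z) * tens a b (x.map φ) (y.map φ) * A' := by
            simp only [Matrix.mul_assoc]
        _ = (V * B') * tens a b (x.map φ) (y.map φ) * A' := by rw [h3]
        _ = _ := by
          rw [hA', hB']
          simp only [Matrix.mul_assoc]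
  have h7 := det_der D _ U V h6
  unfold perVal
  rw [h7, ← h2, ← h4]
  ring

/-- The logarithmic derivative of units. -/
noncomputable def ld (D : Derivation E L P) : Lˣ →* Multiplicative P where
  toFun u := Multiplicative.ofAdd (algebraMap L P ((u⁻¹ : Lˣ) : L) * D (u : L))
  map_one' := by simp
  map_mul' u v := by
    rw [← ofAdd_add]
    congr 1
    have h1 : D ((u : L) * v) = algebraMap L P u * D v + algebraMap L P v * D u := by
      rw [Derivation.leibniz, Algebra.smul_def, Algebra.smul_def]
    have h2 : algebraMap L P ((u⁻¹ : Lˣ) : L) * algebraMap L P (u : L) = 1 := by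
      rw [← map_mul, Units.inv_mul, map_one]
    have h3 : algebraMap L P ((v⁻¹ : Lˣ) : L) * algebraMap L P (v : L) = 1 := by
      rw [← map_mul, Units.inv_mul, map_one]
    rw [Units.val_mul, h1, mul_inv, Units.val_mul, map_mul]
    linear_combination (algebraMap L P ((v⁻¹ : Lˣ) : L) * D v) * h2 +
      (algebraMap L P ((u⁻¹ : Lˣ) : L) * D u) * h3

theorem der_prod (D : Derivation E L P) {I : Type} [Fintype I] (u : I → Lˣ) (m : I → ℤ)
    (t : I → P) (ht : ∀ i, 2 * D (u i : L) = algebraMap L P (u i : L) * t i) :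
    2 * D ((∏ i, u i ^ m i : Lˣ) : L) =
      algebraMap L P ((∏ i, u i ^ m i : Lˣ) : L) * ∑ i, (m i : P) * t i := by
  have h1 : ∀ i, 2 * (Multiplicative.toAdd (ld D (u i))) = t i := by
    intro i
    have h2 : algebraMap L P (((u i)⁻¹ : Lˣ) : L) * algebraMap L P (u i : L) = 1 := by
      rw [← map_mul, Units.inv_mul, map_one]
    show 2 * (algebraMap L P (((u i)⁻¹ : Lˣ) : L) * D (u i : L)) = t i
    linear_combination (algebraMap L P (((u i)⁻¹ : Lˣ) : L)) * ht i + t i * h2
  have h3 : Multiplicative.toAdd (ld D (∏ i, u i ^ m i)) =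
      ∑ i, m i • Multiplicative.toAdd (ld D (u i)) := by
    rw [map_prod, toAdd_prod]
    refine Finset.sum_congr rfl fun i _ => ?_
    rw [map_zpow, toAdd_zpow]
  set v := ∏ i, u i ^ m i with hv
  have h4 : algebraMap L P (v : L) * algebraMap L P ((v⁻¹ : Lˣ) : L) = 1 := by
    rw [← map_mul, Units.mul_inv, map_one]
  have h5 : algebraMap L P ((v⁻¹ : Lˣ) : L) * D (v : L) =
      ∑ i, m i • Multiplicative.toAdd (ld D (u i)) := h3
  have h6 : 2 * ∑ i, m i • Multiplicative.toAdd (ld D (u i)) = ∑ i, (m i : P) * t i := by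
    rw [Finset.mul_sum]
    refine Finset.sum_congr rfl fun i _ => ?_
    rw [← h1 i, zsmul_eq_mul]
    ring
  rw [← h6, ← h5]
  linear_combination (-2 * D (v : L)) * h4

end per

section base

variable {E : Type} [Field E] {n J : Type} [Fintype n] [DecidableEq n] [Fintype J]
  [DecidableEq J] {a b : J → ℕ} {wt idx : n → ℤ} {frob : Matrix n n E}
  {S : Set (TMat n a b E × TMat n a b E)} {P : Type} [CommRing P] [Algebra E P]

theorem map_functional_mul {ι κ μ : Type*} [Fintype κ] (c : P →ₗ[E] E) (X : Matrix ι κ P)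
    (s : Matrix κ μ E) : (X * s.map (algebraMap E P)).map c = X.map c * s := by
  ext i j
  simp only [map_apply, Matrix.mul_apply, map_sum]
  refine Finset.sum_congr rfl fun k _ => ?_
  rw [mul_comm, ← Algebra.smul_def, map_smul, smul_eq_mul, mul_comm]

theorem map_functional_mul' {ι κ μ : Type*} [Fintype κ] (c : P →ₗ[E] E) (X : Matrix κ μ P)
    (s : Matrix ι κ E) : (s.map (algebraMap E P) * X).map c = s * X.map c := by
  ext i j
  simp only [map_apply, Matrix.mul_apply, map_sum]
  refine Finset.sum_congr rfl fun k _ => ?_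
  rw [← Algebra.smul_def, map_smul, smul_eq_mul]

theorem map_id_alg {ι κ : Type*} (s : Matrix ι κ E) : s.map (algebraMap E E) = s := by
  ext i j
  simp

theorem InLie.functional {S : Set (TMat n a b E)} {X : Matrix n n P} (hX : InLie wt S X)
    (c : P →ₗ[E] E) : InLie wt S (X.map c) := by
  refine ⟨fun i j hij => by rw [map_apply, hX.1 i j hij, map_zero], fun s hs => ?_⟩
  rw [lie_linmap, map_id_alg, ← map_functional_mul, hX.2 s hs, map_functional_mul']

theorem InK.functional {Y : Matrix n n P} (hY : InK wt frob S Y) (c : P →ₗ[E] E) :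
    InK wt frob S (Y.map c) := by
  refine ⟨hY.1.functional c, ?_⟩
  rw [map_id_alg, ← map_functional_mul, hY.2, map_functional_mul']

theorem InP.functional {Z : Matrix n n P} (hZ : InP wt idx S Z) (c : P →ₗ[E] E) :
    InP wt idx S (Z.map c) :=
  ⟨hZ.1.functional c, fun i j hij => by rw [map_apply, hZ.2 i j hij, map_zero]⟩

theorem traceK_functional (e : TMat n a b E) (ε : ℤ) (c : P →ₗ[E] E) (Y : Matrix n n P) :
    traceK frob e ε (Y.map c) = c (traceK frob e ε Y) := by
  unfold traceK
  rw [lie_linmap, map_id_alg, ← map_functional_mul]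
  simp [Matrix.trace, map_sum]

theorem traceP_functional (f : TMat n a b E) (r : ℤ) (c : P →ₗ[E] E) (Z : Matrix n n P) :
    traceP idx f r (Z.map c) = c (traceP idx f r Z) := by
  unfold traceP
  rw [lie_linmap, map_id_alg, ← map_functional_mul, map_sum]
  rfl

theorem base_K {I : Type} [Fintype I] {N : I → TMat n a b E × TMat n a b E} {ε m : I → ℤ}
    (h : ∀ Y : Matrix n n E, InK wt frob S Y → ∑ i, (m i : E) * traceK frob (N i).1 (ε i) Y = 0)
    {Y : Matrix n n P} (hY : InK wt frob S Y) :
    ∑ i, (m i : P) * traceK frob (N i).1 (ε i) Y = 0 := by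
  rw [← Module.forall_dual_apply_eq_zero_iff E]
  intro c
  have h1 := h (Y.map c) (hY.functional c)
  rw [← h1, map_sum]
  refine Finset.sum_congr rfl fun i _ => ?_
  rw [traceK_functional, ← zsmul_eq_mul, ← zsmul_eq_mul, map_zsmul]

theorem base_P {I : Type} [Fintype I] {N : I → TMat n a b E × TMat n a b E} {r m : I → ℤ}
    (h : ∀ Z : Matrix n n E, InP wt idx S Z → ∑ i, (m i : E) * traceP idx (N i).2 (r i) Z = 0)
    {Z : Matrix n n P} (hZ : InP wt idx S Z) :
    ∑ i, (m i : P) * traceP idx (N i).2 (r i) Z = 0 := by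
  rw [← Module.forall_dual_apply_eq_zero_iff E]
  intro c
  have h1 := h (Z.map c) (hZ.functional c)
  rw [← h1, map_sum]
  refine Finset.sum_congr rfl fun i _ => ?_
  rw [traceP_functional, ← zsmul_eq_mul, ← zsmul_eq_mul, map_zsmul]

end base

end Pool.Agent.MP100fe7G
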