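import Pool.Agent.Lib.MP_100fe7_nt.GEqs

/-!
The decomposition property is inherited by generizations of a point of the torsor.
-/

set_option linter.unusedSectionVars false

namespace Pool.Agent.MP100fe7G

open Matrix MvPolynomial

/-- The decomposition property `𝔤 = 𝔨 + x⁻¹ 𝔭 x` at a point `(x, y)` of the torsor. -/
def Dec {E : Type} [Field E] {n J : Type} [Fintype n] [DecidableEq n] [Fintype J] [DecidableEq J]
    {a b : J → ℕ} (wt idx : n → ℤ) (frob : Matrix n n E)
    (S : Set (TMat n a b E × TMat n a b E)) {P : Type} [CommRing P] [Algebra E P]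
    (x y : Matrix n n P) : Prop :=
  ∀ X : Matrix n n P, InLie wt (Prod.fst '' S) X →
    ∃ Y Z : Matrix n n P, InK wt frob S Y ∧ InP wt idx S Z ∧ X = Y + y * Z * x

/-- Base change of a subspace of matrices: fix linear functionals `c i` on `Matrix n n E` which
give the coordinates on `W` in the basis `bW` (extend the coordinate functionals of `W`). If all
images of `X` under linear functionals `φ : P → E` are in `W`, then `X` is the combination of the
basis of `W` with coefficients `∑ k l, X k l * c i k l` (apply all `φ` to the difference;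
`Module.forall_dual_apply_eq_zero_iff`). -/
theorem exists_coords {E : Type} [Field E] {n : Type} [Fintype n] [DecidableEq n]
    (W : Submodule E (Matrix n n E)) {m : ℕ} (bW : Module.Basis (Fin m) E W) :
    ∃ c : Fin m → Matrix n n E, ∀ (P : Type) [CommRing P] [Algebra E P] (X : Matrix n n P),
      (∀ φ : P →ₗ[E] E, X.map φ ∈ W) →
        X = ∑ i, (∑ k, ∑ l, X k l * algebraMap E P (c i k l)) •
          (bW i : Matrix n n E).map (algebraMap E P) := by
  classical
  -- extend the coordinate functionals
  have hext : ∀ i : Fin m, ∃ g : Matrix n n E →ₗ[E] E, g.comp W.subtype = bW.coord i := fun i =>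
    LinearMap.exists_extend _
  choose g hg using hext
  have hgW : ∀ M : Matrix n n E, M ∈ W → M = ∑ i, g i M • (bW i : Matrix n n E) := by
    intro M hM
    have h1 := bW.sum_repr ⟨M, hM⟩
    have h2 := congrArg (fun z : W => (z : Matrix n n E)) h1
    simp only [Submodule.coe_sum, Submodule.coe_smul] at h2
    rw [← h2]
    refine Finset.sum_congr rfl fun i _ => ?_
    have h3 := LinearMap.congr_fun (hg i) ⟨M, hM⟩
    simp only [LinearMap.comp_apply, Submodule.subtype_apply, Module.Basis.coord_apply] at h3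
    rw [h2, h3]
  have hgs : ∀ (i : Fin m) (M : Matrix n n E),
      g i M = ∑ k, ∑ l, M k l * g i (Matrix.single k l 1) := by
    intro i M
    conv_lhs => rw [Matrix.matrix_eq_sum_single M]
    rw [map_sum]
    refine Finset.sum_congr rfl fun k _ => ?_
    rw [map_sum]
    refine Finset.sum_congr rfl fun l _ => ?_
    have h1 : Matrix.single k l (M k l) = M k l • Matrix.single k l (1 : E) := by
      rw [Matrix.smul_single, smul_eq_mul, mul_one]
    rw [h1, map_smul, smul_eq_mul]
  refine ⟨fun i => Matrix.of fun k l => g i (Matrix.single k l 1), ?_⟩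
  intro P _ _ X hX
  refine Matrix.ext fun k' l' => ?_
  rw [← sub_eq_zero, ← Module.forall_dual_apply_eq_zero_iff E]
  intro φ
  rw [map_sub, sub_eq_zero]
  have h1 := congrFun (congrFun (hgW (X.map φ) (hX φ)) k') l'
  rw [Matrix.map_apply, Matrix.sum_apply] at h1
  rw [h1, Matrix.sum_apply, map_sum]
  refine Finset.sum_congr rfl fun i _ => ?_
  rw [Matrix.smul_apply, Matrix.smul_apply, Matrix.map_apply, smul_eq_mul, smul_eq_mul, hgs,
    mul_comm _ (algebraMap E P _), ← Algebra.smul_def, map_smul, smul_eq_mul, mul_comm, map_sum]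
  congr 1
  refine Finset.sum_congr rfl fun k _ => ?_
  rw [map_sum]
  refine Finset.sum_congr rfl fun l _ => ?_
  have h4 : φ (X k l * algebraMap E P (g i (Matrix.single k l 1))) =
      g i (Matrix.single k l 1) * φ (X k l) := by
    rw [mul_comm (X k l), ← Algebra.smul_def, map_smul, smul_eq_mul]
  refine Eq.trans ?_ h4.symm
  rw [Matrix.map_apply, mul_comm]

/-- If `A * C₀ = 1` over `Ω`, some `A * C₁` with `C₁` over the infinite subfield `E` has nonzero
determinant: the polynomial `det (A * C)` in the entries of `C` is not zero, so it has a nonzero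
value at a point over `E`. -/
theorem exists_minor {E Ω κ : Type} [Field E] [Infinite E] [Field Ω] [Algebra E Ω] [Fintype κ]
    {m : ℕ} (A : Matrix (Fin m) κ Ω) (C₀ : Matrix κ (Fin m) Ω) (h : A * C₀ = 1) :
    ∃ C₁ : Matrix κ (Fin m) E, (A * C₁.map (algebraMap E Ω)).det ≠ 0 := by
  classical
  set XX : Matrix κ (Fin m) (MvPolynomial (κ × Fin m) Ω) :=
    Matrix.of fun k l => MvPolynomial.X (k, l) with hXX
  set MM : Matrix (Fin m) (Fin m) (MvPolynomial (κ × Fin m) Ω) :=
    A.map (MvPolynomial.C : Ω →+* MvPolynomial (κ × Fin m) Ω) * XX with hMM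
  set p : MvPolynomial (κ × Fin m) Ω := MM.det with hp
  have hev : ∀ t : κ × Fin m → Ω, eval t p = (A * Matrix.of fun k l => t (k, l)).det := by
    intro t
    rw [hp, RingHom.map_det]
    congr 1
    rw [RingHom.mapMatrix_apply, hMM, Matrix.map_mul]
    congr 1
    · ext i j
      simp
    · ext i j
      simp [hXX]
  have hp0 : p ≠ 0 := by
    intro h0
    have h1 := hev fun i => C₀ i.1 i.2
    rw [h0, map_zero] at h1
    have h2 : (Matrix.of fun k l => C₀ k l) = C₀ := rfl
    rw [h2, h, Matrix.det_one] at h1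
    exact zero_ne_one h1
  have hinf : (Set.range (algebraMap E Ω)).Infinite :=
    Set.infinite_range_of_injective (algebraMap E Ω).injective
  by_contra hcon
  push Not at hcon
  refine hp0 (MvPolynomial.funext_set (fun _ => Set.range (algebraMap E Ω)) (fun _ => hinf) ?_)
  intro t ht
  rw [hev, map_zero]
  have h1 : ∀ i, ∃ e : E, algebraMap E Ω e = t i := fun i => ht i (Set.mem_univ i)
  choose e he using h1
  have h2 := hcon (Matrix.of fun k l => e (k, l))
  have h3 : (Matrix.of fun k l => e (k, l)).map (algebraMap E Ω) =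
      Matrix.of fun k l => t (k, l) := by
    ext k l
    rw [Matrix.map_apply, Matrix.of_apply, Matrix.of_apply, he]
  rw [h3] at h2
  exact h2

section aux

variable {E : Type} [Field E] {n J : Type} [Fintype n] [DecidableEq n] [Fintype J]
  [DecidableEq J] {a b : J → ℕ} {wt idx : n → ℤ} {frob : Matrix n n E}
  {S : Set (TMat n a b E × TMat n a b E)} {P : Type} [CommRing P] [Algebra E P]

private theorem gspec_map_mul {ι : Type*} [Fintype ι] (X Y : Matrix ι ι E) :
    (X * Y).map (algebraMap E P) = X.map (algebraMap E P) * Y.map (algebraMap E P) :=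
  Matrix.map_mul

private theorem gspec_lie_base {T : Set (TMat n a b E)} {X : Matrix n n E} (hX : InLie wt T X) :
    InLie wt T (X.map (algebraMap E P)) := by
  refine ⟨fun i j hij => by rw [map_apply, hX.1 i j hij, map_zero], fun s hs => ?_⟩
  have h1 := hX.2 s hs
  rw [map_id_alg] at h1
  rw [lie_map, ← gspec_map_mul, h1, gspec_map_mul]

private theorem gspec_lie_smul {T : Set (TMat n a b E)} {X : Matrix n n P} (hX : InLie wt T X)
    (c : P) : InLie wt T (c • X) :=
  ⟨fun i j h => by rw [Matrix.smul_apply, hX.1 i j h, smul_zero],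
    fun s hs => by rw [lie_smul, Matrix.smul_mul, Matrix.mul_smul, hX.2 s hs]⟩

private theorem gspec_lie_zero {T : Set (TMat n a b E)} : InLie wt T (0 : Matrix n n P) :=
  ⟨fun _ _ _ => rfl, fun s _ => by rw [lie_zero, Matrix.zero_mul, Matrix.mul_zero]⟩

private theorem gspec_lie_sum {T : Set (TMat n a b E)} {ι : Type*} (s : Finset ι)
    (X : ι → Matrix n n P) (hX : ∀ i ∈ s, InLie wt T (X i)) : InLie wt T (∑ i ∈ s, X i) :=
  Finset.sum_induction X (fun Y => InLie wt T Y) (fun _ _ h1 h2 => h1.add h2) gspec_lie_zero hX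

private theorem gspec_K_base {Y : Matrix n n E} (hY : InK wt frob S Y) :
    InK wt frob S (Y.map (algebraMap E P)) := by
  refine ⟨gspec_lie_base hY.1, ?_⟩
  have h1 := hY.2
  rw [map_id_alg] at h1
  rw [← gspec_map_mul, h1, gspec_map_mul]

private theorem gspec_K_sum {ι : Type*} (s : Finset ι) (c : ι → P)
    (X : ι → Matrix n n P) (hX : ∀ i ∈ s, InK wt frob S (X i)) :
    InK wt frob S (∑ i ∈ s, c i • X i) := by
  refine ⟨gspec_lie_sum s _ fun i hi => gspec_lie_smul (hX i hi).1 _, ?_⟩
  rw [Finset.sum_mul, Finset.mul_sum]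
  refine Finset.sum_congr rfl fun i hi => ?_
  rw [Matrix.smul_mul, Matrix.mul_smul, (hX i hi).2]

private theorem gspec_P_base {Z : Matrix n n E} (hZ : InP wt idx S Z) :
    InP wt idx S (Z.map (algebraMap E P)) :=
  ⟨gspec_lie_base hZ.1, fun i j hij => by rw [map_apply, hZ.2 i j hij, map_zero]⟩

private theorem gspec_P_sum {ι : Type*} (s : Finset ι) (c : ι → P)
    (X : ι → Matrix n n P) (hX : ∀ i ∈ s, InP wt idx S (X i)) :
    InP wt idx S (∑ i ∈ s, c i • X i) := by
  refine ⟨gspec_lie_sum s _ fun i hi => gspec_lie_smul (hX i hi).1 _, fun k l hkl => ?_⟩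
  rw [Matrix.sum_apply]
  refine Finset.sum_eq_zero fun i hi => ?_
  rw [Matrix.smul_apply, (hX i hi).2 k l hkl, smul_zero]

private def gspecWK (wt : n → ℤ) (frob : Matrix n n E) (S : Set (TMat n a b E × TMat n a b E)) :
    Submodule E (Matrix n n E) where
  carrier := {Y | InK wt frob S Y}
  zero_mem' := ⟨gspec_lie_zero, by rw [Matrix.zero_mul, Matrix.mul_zero]⟩
  add_mem' := fun {X Y} hX hY => ⟨hX.1.add hY.1, by
    rw [Matrix.add_mul, Matrix.mul_add, hX.2, hY.2]⟩
  smul_mem' := fun c X hX => ⟨gspec_lie_smul hX.1 c, by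
    rw [Matrix.smul_mul, Matrix.mul_smul, hX.2]⟩

private def gspecWP (wt idx : n → ℤ) (S : Set (TMat n a b E × TMat n a b E)) :
    Submodule E (Matrix n n E) where
  carrier := {Z | InP wt idx S Z}
  zero_mem' := ⟨gspec_lie_zero, fun _ _ _ => rfl⟩
  add_mem' := fun {X Y} hX hY => ⟨hX.1.add hY.1, fun i j h => by
    rw [Matrix.add_apply, hX.2 i j h, hY.2 i j h, add_zero]⟩
  smul_mem' := fun c X hX => ⟨gspec_lie_smul hX.1 c, fun i j h => by
    rw [Matrix.smul_apply, hX.2 i j h, smul_zero]⟩

/-- the coordinates -/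
private def gspecCo {m : ℕ} (c : Fin m → Matrix n n E) (X : Matrix n n P) (i : Fin m) : P :=
  ∑ k, ∑ l, X k l * algebraMap E P (c i k l)

private theorem gspecCo_sum {m : ℕ} (c : Fin m → Matrix n n E) {ι : Type*} (s : Finset ι)
    (w : ι → P) (X : ι → Matrix n n P) (i : Fin m) :
    gspecCo c (∑ j ∈ s, w j • X j) i = ∑ j ∈ s, gspecCo c (X j) i * w j := by
  unfold gspecCo
  calc ∑ k, ∑ l, (∑ j ∈ s, w j • X j) k l * algebraMap E P (c i k l)
      = ∑ k, ∑ l, ∑ j ∈ s, X j k l * algebraMap E P (c i k l) * w j := by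
        refine Finset.sum_congr rfl fun k _ => Finset.sum_congr rfl fun l _ => ?_
        rw [Matrix.sum_apply, Finset.sum_mul]
        refine Finset.sum_congr rfl fun j _ => ?_
        rw [Matrix.smul_apply, smul_eq_mul]
        ring
    _ = ∑ k, ∑ j ∈ s, ∑ l, X j k l * algebraMap E P (c i k l) * w j := by
        refine Finset.sum_congr rfl fun k _ => Finset.sum_comm
    _ = ∑ j ∈ s, ∑ k, ∑ l, X j k l * algebraMap E P (c i k l) * w j := Finset.sum_comm
    _ = _ := by
        refine Finset.sum_congr rfl fun j _ => ?_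
        rw [Finset.sum_mul]
        refine Finset.sum_congr rfl fun k _ => ?_
        rw [Finset.sum_mul]

private theorem gspecCo_map {P' : Type} [CommRing P'] [Algebra E P'] {m : ℕ}
    (c : Fin m → Matrix n n E) (X : Matrix n n P) (φ : P →ₐ[E] P') (i : Fin m) :
    gspecCo c (X.map φ) i = φ (gspecCo c X i) := by
  unfold gspecCo
  rw [map_sum]
  refine Finset.sum_congr rfl fun k _ => ?_
  rw [map_sum]
  refine Finset.sum_congr rfl fun l _ => ?_
  rw [map_mul, map_apply, AlgHom.commutes]

/-- the columns -/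
private def gspecCol {mK mP : ℕ} (bK : Fin mK → Matrix n n E) (bP : Fin mP → Matrix n n E)
    (x y : Matrix n n P) : Fin mK ⊕ Fin mP → Matrix n n P :=
  Sum.elim (fun j => (bK j).map (algebraMap E P)) fun j => y * (bP j).map (algebraMap E P) * x

/-- the matrix of the coordinates of the columns -/
private def gspecM {m mK mP : ℕ} (c : Fin m → Matrix n n E) (bK : Fin mK → Matrix n n E)
    (bP : Fin mP → Matrix n n E) (x y : Matrix n n P) : Matrix (Fin m) (Fin mK ⊕ Fin mP) P :=
  Matrix.of fun i j => gspecCo c (gspecCol bK bP x y j) i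

private theorem gspecCol_map {P' : Type} [CommRing P'] [Algebra E P'] {mK mP : ℕ}
    (bK : Fin mK → Matrix n n E) (bP : Fin mP → Matrix n n E) (x y : Matrix n n P)
    (φ : P →ₐ[E] P') (j : Fin mK ⊕ Fin mP) :
    gspecCol bK bP (x.map φ) (y.map φ) j = (gspecCol bK bP x y j).map φ := by
  have h1 : ∀ s : Matrix n n E, (s.map (algebraMap E P)).map φ = s.map (algebraMap E P') := by
    intro s
    ext k l
    simp
  rcases j with j | j
  · exact (h1 _).symm
  · show y.map φ * (bP j).map (algebraMap E P') * x.map φ =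
      (y * (bP j).map (algebraMap E P) * x).map φ
    rw [Matrix.map_mul, Matrix.map_mul, h1]

private theorem gspecM_map {P' : Type} [CommRing P'] [Algebra E P'] {m mK mP : ℕ}
    (c : Fin m → Matrix n n E) (bK : Fin mK → Matrix n n E) (bP : Fin mP → Matrix n n E)
    (x y : Matrix n n P) (φ : P →ₐ[E] P') :
    (gspecM c bK bP x y).map φ = gspecM c bK bP (x.map φ) (y.map φ) := by
  ext i j
  rw [map_apply]
  show φ (gspecCo c (gspecCol bK bP x y j) i) = gspecCo c (gspecCol bK bP (x.map φ) (y.map φ) j) i
  rw [gspecCol_map, gspecCo_map]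

/-- the coordinates of the elements of the basis -/
private theorem gspecCo_basis (W : Submodule E (Matrix n n E)) {m : ℕ}
    (bW : Module.Basis (Fin m) E W) (c : Fin m → Matrix n n E)
    (hc : ∀ (P : Type) [CommRing P] [Algebra E P] (X : Matrix n n P),
      (∀ φ : P →ₗ[E] E, X.map φ ∈ W) →
        X = ∑ i, gspecCo c X i • (bW i : Matrix n n E).map (algebraMap E P)) (i j : Fin m) :
    gspecCo c ((bW j : Matrix n n E).map (algebraMap E P)) i = if i = j then 1 else 0 := by
  have h1 : gspecCo c (bW j : Matrix n n E) i = if i = j then 1 else 0 := by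
    have h2 := hc E (bW j : Matrix n n E) (fun φ => by
      have h3 : (bW j : Matrix n n E).map φ = φ 1 • (bW j : Matrix n n E) := by
        ext k l
        rw [map_apply, Matrix.smul_apply, smul_eq_mul]
        have h4 : φ ((bW j : Matrix n n E) k l) = φ ((bW j : Matrix n n E) k l • (1 : E)) := by
          rw [smul_eq_mul, mul_one]
        rw [h4, map_smul, smul_eq_mul, mul_comm]
      rw [h3]
      exact W.smul_mem _ (bW j).2)
    have h3 : bW j = ∑ i, gspecCo c (bW j : Matrix n n E) i • bW i := by
      apply Subtype.ext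
      rw [Submodule.coe_sum]
      refine h2.trans (Finset.sum_congr rfl fun i _ => ?_)
      rw [map_id_alg]
      rfl
    have h4 := congrArg (fun w => bW.repr w i) h3
    simp only [map_sum, map_smul, Finsupp.coe_finsetSum, Finset.sum_apply, Finsupp.coe_smul,
      Pi.smul_apply, Module.Basis.repr_self, Finsupp.single_apply, smul_eq_mul, mul_ite, mul_one,
      mul_zero, Finset.sum_ite_eq', Finset.mem_univ, if_true] at h4
    rw [← h4]
    by_cases hij : i = j
    · rw [if_pos hij, if_pos hij.symm]
    · rw [if_neg hij, if_neg (Ne.symm hij)]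
  have h5 := gspecCo_map (P := E) (P' := P) c (bW j : Matrix n n E) (Algebra.ofId E P) i
  have h6 : (bW j : Matrix n n E).map (Algebra.ofId E P) =
      (bW j : Matrix n n E).map (algebraMap E P) := rfl
  rw [h6, h1] at h5
  rw [h5]
  split_ifs
  · exact map_one _
  · exact map_zero _

end aux

/-- Let the point `(x, y)` over the field `L` specialise to the point `(x₀, y₀)` over the field `Ω`
(every polynomial over `E` vanishing at `(x, y)` vanishes at `(x₀, y₀)`). If `Dec` holds at
`(x₀, y₀)`, it holds at `(x, y)`.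
Proof: let `bG`, `bK`, `bP` be bases of the `E`-spaces `{X | InLie wt (Prod.fst '' S) X}`,
`{Y | InK wt frob S Y}`, `{Z | InP wt idx S Z}` of matrices over `E` and `c` the functionals of
`exists_coords` for `bG`. For a point `(x, y)` over `P` let `𝓜 (x, y)` be the matrix over `P` with
columns indexed by the elements of `bK` and of `bP`, the entries of the column `j` being the
`c i`-coordinates of `(bK j).map`, resp. of `y * (bP j).map * x` (in the Lie algebra over `P` by
`InLie.conj`). Its entries are values at `(x, y)` of polynomials over `E`. `Dec` at `(x₀, y₀)`,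
applied to the elements of `bG`, with `InK.functional`, `InP.functional` and `exists_coords` for
`bK`, `bP`, gives `C₀` with `𝓜 (x₀, y₀) * C₀ = 1`; take `C₁` from `exists_minor`; the polynomial
`det (𝓜 * C₁)` does not vanish at `(x₀, y₀)`, so not at `(x, y)`. For `X` in the Lie algebra over
`L`, solve `𝓜 (x, y) * C₁ * w = (coordinates of X)`, and let `Y`, `Z` be the combinations of `bK`,
`bP` with coefficients `C₁ * w`: `Y + y * Z * x` has the same coordinates as `X`. -/
theorem dec_specialize {E : Type} [Field E] [CharZero E] {n J : Type} [Fintype n] [DecidableEq n]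
    [Fintype J] [DecidableEq J] {a b : J → ℕ} {wt idx : n → ℤ} {frob : Matrix n n E}
    {S : Set (TMat n a b E × TMat n a b E)} {L Ω : Type} [Field L] [Algebra E L] [Field Ω]
    [Algebra E Ω] {x y : Matrix n n L} {x₀ y₀ : Matrix n n Ω} (hx : IsPt wt S x y)
    (hx₀ : IsPt wt S x₀ y₀)
    (hspec : ∀ p : MvPolynomial (Var n) E, aeval (coord x y) p = 0 → aeval (coord x₀ y₀) p = 0)
    (h : Dec wt idx frob S x₀ y₀) : Dec wt idx frob S x y := by
  classical
  set WG := lieB wt S with hWG
  set bG := Module.finBasis E WG with hbG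
  set WK := gspecWK wt frob S with hWK
  set bK := Module.finBasis E WK with hbK
  set WP := gspecWP wt idx S with hWP
  set bP := Module.finBasis E WP with hbP
  obtain ⟨cG, hcG⟩ := exists_coords WG bG
  obtain ⟨cK, hcK⟩ := exists_coords WK bK
  obtain ⟨cP, hcP⟩ := exists_coords WP bP
  set vK : Fin (Module.finrank E WK) → Matrix n n E := fun j => (bK j : Matrix n n E) with hvK
  set vP : Fin (Module.finrank E WP) → Matrix n n E := fun j => (bP j : Matrix n n E) with hvP
  -- the right inverse at the special point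
  have hC₀ : ∃ C₀ : Matrix (Fin (Module.finrank E WK) ⊕ Fin (Module.finrank E WP))
      (Fin (Module.finrank E WG)) Ω, gspecM cG vK vP x₀ y₀ * C₀ = 1 := by
    have h1 : ∀ j, ∃ w : Fin (Module.finrank E WK) ⊕ Fin (Module.finrank E WP) → Ω,
        ∀ i, ∑ k, gspecM cG vK vP x₀ y₀ i k * w k = if i = j then 1 else 0 := by
      intro j
      obtain ⟨Y, Z, hY, hZ, hYZ⟩ := h ((bG j : Matrix n n E).map (algebraMap E Ω))
        (gspec_lie_base (bG j).2)
      have hY' := hcK Ω Y fun φ => hY.functional φ
      have hZ' := hcP Ω Z fun φ => hZ.functional φ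
      refine ⟨Sum.elim (gspecCo cK Y) (gspecCo cP Z), fun i => ?_⟩
      rw [← gspecCo_basis (P := Ω) WG bG cG (fun P _ _ X => hcG P X) i j, hYZ]
      have h2 : Y + y₀ * Z * x₀ = ∑ k, Sum.elim (gspecCo cK Y) (gspecCo cP Z) k •
          gspecCol vK vP x₀ y₀ k := by
        rw [Fintype.sum_sum_type]
        simp only [Sum.elim_inl, Sum.elim_inr]
        congr 1
        conv_lhs => rw [hZ']
        rw [Finset.mul_sum, Finset.sum_mul]
        refine Finset.sum_congr rfl fun k _ => ?_
        rw [Matrix.mul_smul, Matrix.smul_mul]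
        rfl
      rw [h2, gspecCo_sum]
      rfl
    choose w hw using h1
    refine ⟨Matrix.of fun k j => w j k, ?_⟩
    ext i j
    rw [Matrix.mul_apply, Matrix.one_apply]
    exact hw j i
  obtain ⟨C₀, hC₀⟩ := hC₀
  obtain ⟨C₁, hC₁⟩ := exists_minor (E := E) _ C₀ hC₀
  -- the determinant as a polynomial
  set R := MvPolynomial (Var n) E with hR
  set p : R := (gspecM cG vK vP (gx E n) (gy E n) * C₁.map (algebraMap E R)).det with hp
  have hev : ∀ {F : Type} [Field F] [Algebra E F] (u v : Matrix n n F),
      aeval (coord u v) p = (gspecM cG vK vP u v * C₁.map (algebraMap E F)).det := by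
    intro F _ _ u v
    have h1 := AlgHom.map_det (aeval (coord u v) : R →ₐ[E] F)
      (gspecM cG vK vP (gx E n) (gy E n) * C₁.map (algebraMap E R))
    rw [hp]
    refine h1.trans ?_
    congr 1
    rw [AlgHom.mapMatrix_apply, Matrix.map_mul, gspecM_map, gx_map, gy_map]
    congr 1
    ext k l
    exact AlgHom.commutes (aeval (coord u v) : R →ₐ[E] F) (C₁ k l)
  have hdet : (gspecM cG vK vP x y * C₁.map (algebraMap E L)).det ≠ 0 := by
    rw [← hev]
    intro h0
    have h1 := hspec p h0
    rw [hev] at h1
    exact hC₁ h1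
  intro X hX
  set MC := gspecM cG vK vP x y * C₁.map (algebraMap E L) with hMC
  set ξ : Fin (Module.finrank E WG) → L := gspecCo cG X with hξ
  set u := (C₁.map (algebraMap E L)).mulVec (MC⁻¹.mulVec ξ) with hu
  have hsolve : (gspecM cG vK vP x y).mulVec u = ξ := by
    rw [hu, Matrix.mulVec_mulVec, ← hMC, Matrix.mulVec_mulVec,
      Matrix.mul_nonsing_inv _ (isUnit_iff_ne_zero.2 hdet), Matrix.one_mulVec]
  refine ⟨∑ j, u (Sum.inl j) • (vK j).map (algebraMap E L),
    ∑ j, u (Sum.inr j) • (vP j).map (algebraMap E L), ?_, ?_, ?_⟩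
  · exact gspec_K_sum _ _ _ fun j _ => gspec_K_base (bK j).2
  · exact gspec_P_sum _ _ _ fun j _ => gspec_P_base (bP j).2
  · set Y := ∑ j, u (Sum.inl j) • (vK j).map (algebraMap E L) with hY
    set Z := ∑ j, u (Sum.inr j) • (vP j).map (algebraMap E L) with hZ
    have hYK : InK wt frob S Y := gspec_K_sum _ _ _ fun j _ => gspec_K_base (bK j).2
    have hZP : InP wt idx S Z := gspec_P_sum _ _ _ fun j _ => gspec_P_base (bP j).2
    have h2 : Y + y * Z * x = ∑ k, u k • gspecCol vK vP x y k := by
      rw [Fintype.sum_sum_type, hZ, Finset.mul_sum, Finset.sum_mul]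
      congr 1
      refine Finset.sum_congr rfl fun k _ => ?_
      rw [Matrix.mul_smul, Matrix.smul_mul]
      rfl
    have h3 : gspecCo cG (Y + y * Z * x) = ξ := by
      rw [h2]
      funext i
      rw [gspecCo_sum, ← hsolve]
      rfl
    have hsum : InLie wt (Prod.fst '' S) (Y + y * Z * x) := hYK.1.add (InLie.conj hx hZP.1)
    have h4 := hcG L X fun φ => hX.functional φ
    have h5 := hcG L (Y + y * Z * x) fun φ => hsum.functional φ
    rw [h4, h5]
    refine Finset.sum_congr rfl fun i _ => ?_
    congr 1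
    exact (congrFun h3 i).symm

end Pool.Agent.MP100fe7G
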