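import Mathlib

/-!
Tensor constructions `⊕_j M^{⊗ a j} ⊗ (M^∨)^{⊗ b j}` in matrix form, and their differential.
-/

set_option linter.unusedSectionVars false

namespace Pool.Agent.MP100fe7G

open Matrix

variable {n J : Type} [Fintype n] [DecidableEq n] [Fintype J] [DecidableEq J]

/-- The index set of the standard basis of `⊕_j V^{⊗ a j} ⊗ (V^∨)^{⊗ b j}`, where `V` has a basis
indexed by `n`: for each `j` a word of length `a j` and a word of length `b j` in `n`. -/
abbrev TIdx (n : Type) {J : Type} (a b : J → ℕ) : Type :=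
  Σ j, (Fin (a j) → n) × (Fin (b j) → n)

/-- The matrix by which an invertible matrix `x` with inverse `y` acts on the tensor construction
`⊕_j V^{⊗ a j} ⊗ (V^∨)^{⊗ b j}`. -/
def tens {S : Type*} [CommRing S] (a b : J → ℕ) (x y : Matrix n n S) :
    Matrix (TIdx n a b) (TIdx n a b) S :=
  blockDiagonal' fun j => Matrix.of fun (u v : (Fin (a j) → n) × (Fin (b j) → n)) =>
    (∏ i, x (u.1 i) (v.1 i)) * ∏ i, y (v.2 i) (u.2 i)

/-- The sum of the values of `h` over the letters of a word, counted negatively on the dual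
factors. -/
def wsum {a b : J → ℕ} (h : n → ℤ) (s : TIdx n a b) : ℤ :=
  ∑ i, h (s.2.1 i) - ∑ i, h (s.2.2 i)

/-- The matrix `A + t X` over the dual numbers `S[t]/(t ^ 2)`. -/
def dual {S ι κ : Type*} [CommRing S] (A X : Matrix ι κ S) : Matrix ι κ (DualNumber S) :=
  Matrix.of fun i j => TrivSqZeroExt.inl (A i j) + TrivSqZeroExt.inr (X i j)

/-- The differential of the tensor construction: `1 + t X` acts on it by `1 + t lie X` over the dual
numbers `S[t]/(t ^ 2)`. -/
def lie {S : Type*} [CommRing S] (a b : J → ℕ) (X : Matrix n n S) :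
    Matrix (TIdx n a b) (TIdx n a b) S :=
  (tens a b (dual 1 X) (dual 1 (-X))).map TrivSqZeroExt.snd

section tens

variable {S : Type*} [CommRing S] {a b : J → ℕ}

theorem tens_same (x y : Matrix n n S) (j : J) (u v : (Fin (a j) → n) × (Fin (b j) → n)) :
    tens a b x y ⟨j, u⟩ ⟨j, v⟩ = (∏ i, x (u.1 i) (v.1 i)) * ∏ i, y (v.2 i) (u.2 i) := by
  unfold tens
  rw [blockDiagonal'_apply_eq]
  rfl

theorem tens_ne (x y : Matrix n n S) {j k : J} (h : j ≠ k) (u : (Fin (a j) → n) × (Fin (b j) → n))
    (v : (Fin (a k) → n) × (Fin (b k) → n)) : tens a b x y ⟨j, u⟩ ⟨k, v⟩ = 0 := by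
  unfold tens
  rw [blockDiagonal'_apply_ne _ _ _ h]

theorem tens_mul (x x' y y' : Matrix n n S) :
    tens a b (x * x') (y' * y) = tens a b x y * tens a b x' y' := by
  unfold tens
  rw [← blockDiagonal'_mul]
  congr 1
  funext j
  ext u v
  simp only [of_apply, mul_apply, Fintype.sum_prod_type, Finset.prod_univ_sum,
    Fintype.piFinset_univ, Finset.sum_mul_sum, Finset.prod_mul_distrib]
  refine Finset.sum_congr rfl fun w _ => Finset.sum_congr rfl fun w' _ => ?_
  ring

theorem tens_one : tens a b (1 : Matrix n n S) 1 = 1 := by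
  unfold tens
  rw [← blockDiagonal'_one]
  congr 1
  funext j
  ext u v
  rcases u with ⟨u, u'⟩
  rcases v with ⟨v, v'⟩
  rw [Pi.one_apply]
  simp only [of_apply, one_apply, Finset.prod_ite_zero, Finset.prod_const_one, Finset.mem_univ,
    true_imp_iff, Prod.mk.injEq, funext_iff]
  by_cases h1 : ∀ i, u i = v i <;> by_cases h2 : ∀ i, u' i = v' i
  · simp [h1, h2]
  · have h3 : ¬ ∀ i, v' i = u' i := fun h => h2 fun i => (h i).symm
    simp [h1, h2, h3]
  · simp [h1]
  · simp [h1]

theorem tens_map {S' : Type*} [CommRing S'] (φ : S →+* S') (x y : Matrix n n S) :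
    (tens a b x y).map φ = tens a b (x.map φ) (y.map φ) := by
  unfold tens
  rw [blockDiagonal'_map _ _ (map_zero φ)]
  congr 1
  funext j
  ext u v
  simp [map_prod]

theorem tens_inv {x y : Matrix n n S} (h : x * y = 1) : tens a b x y * tens a b y x = 1 := by
  have h' : y * x = 1 := mul_eq_one_comm.mp h
  rw [← tens_mul, h, tens_one]

end tens

section dual

variable {S ι κ μ : Type*} [CommRing S]

theorem dual_fst (A X : Matrix ι κ S) : (dual A X).map TrivSqZeroExt.fst = A := by
  ext i j
  simp [dual]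

theorem dual_snd (A X : Matrix ι κ S) : (dual A X).map TrivSqZeroExt.snd = X := by
  ext i j
  simp [dual]

theorem dual_ext {P Q : Matrix ι κ (DualNumber S)}
    (h1 : P.map TrivSqZeroExt.fst = Q.map TrivSqZeroExt.fst)
    (h2 : P.map TrivSqZeroExt.snd = Q.map TrivSqZeroExt.snd) : P = Q :=
  Matrix.ext fun i j =>
    TrivSqZeroExt.ext (congrFun (congrFun h1 i) j) (congrFun (congrFun h2 i) j)

theorem dual_mul [Fintype κ] (A X : Matrix ι κ S) (B Y : Matrix κ μ S) :
    dual A X * dual B Y = dual (A * B) (A * Y + X * B) := by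
  apply dual_ext
  · ext i j
    simp only [map_apply, mul_apply, dual, of_apply]
    rw [show (TrivSqZeroExt.fst (∑ k, (TrivSqZeroExt.inl (A i k) + TrivSqZeroExt.inr (X i k)) *
      (TrivSqZeroExt.inl (B k j) + TrivSqZeroExt.inr (Y k j)) : DualNumber S)) =
      ∑ k, TrivSqZeroExt.fst ((TrivSqZeroExt.inl (A i k) + TrivSqZeroExt.inr (X i k)) *
      (TrivSqZeroExt.inl (B k j) + TrivSqZeroExt.inr (Y k j)) : DualNumber S) from
        map_sum (TrivSqZeroExt.fstHom S S S) _ _]
    simp
  · ext i j
    simp only [map_apply, mul_apply, dual, of_apply, Matrix.add_apply]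
    rw [show (TrivSqZeroExt.snd (∑ k, (TrivSqZeroExt.inl (A i k) + TrivSqZeroExt.inr (X i k)) *
      (TrivSqZeroExt.inl (B k j) + TrivSqZeroExt.inr (Y k j)) : DualNumber S)) =
      ∑ k, TrivSqZeroExt.snd ((TrivSqZeroExt.inl (A i k) + TrivSqZeroExt.inr (X i k)) *
      (TrivSqZeroExt.inl (B k j) + TrivSqZeroExt.inr (Y k j)) : DualNumber S) from
        map_sum (TrivSqZeroExt.sndHom S S) _ _]
    simp [Finset.sum_add_distrib]

theorem dual_one [DecidableEq ι] : dual (1 : Matrix ι ι S) 0 = 1 := by
  refine Matrix.ext fun i j => ?_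
  by_cases h : i = j
  · subst h
    simp [dual]
  · simp [dual, h]

theorem map_dual_fst (A X : Matrix ι κ S) :
    (dual A X).map (TrivSqZeroExt.fstHom S S S).toRingHom = A := dual_fst A X

/-- The ring homomorphism `x + t y ↦ φ x + t ψ y` of dual numbers, if `ψ` satisfies
`ψ (x y) = φ x ψ y`. -/
def dlift {S' : Type*} [CommRing S'] (φ : S →+* S') (ψ : S →+ S')
    (h : ∀ x y, ψ (x * y) = φ x * ψ y) : DualNumber S →+* DualNumber S' where
  toFun z := TrivSqZeroExt.inl (φ z.fst) + TrivSqZeroExt.inr (ψ z.snd)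
  map_one' := by
    ext <;> simp
  map_zero' := by
    ext <;> simp
  map_mul' x y := by
    ext
    · simp
    · have h1 : ψ (x.snd * y.fst) = φ y.fst * ψ x.snd := by
        rw [mul_comm, h]
      simp only [TrivSqZeroExt.fst_mul, map_mul, TrivSqZeroExt.snd_mul, smul_eq_mul, map_add,
        TrivSqZeroExt.snd_add, TrivSqZeroExt.snd_inl, TrivSqZeroExt.snd_inr,
        TrivSqZeroExt.fst_add, TrivSqZeroExt.fst_inl, TrivSqZeroExt.fst_inr,
        MulOpposite.smul_eq_mul_unop, MulOpposite.unop_op, h1]
      rw [h]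
      ring
  map_add' x y := by
    ext <;> simp

theorem map_dlift {S' : Type*} [CommRing S'] (φ : S →+* S') (ψ : S →+ S')
    (h : ∀ x y, ψ (x * y) = φ x * ψ y) (A X : Matrix ι κ S) :
    (dual A X).map (dlift φ ψ h) = dual (A.map φ) (X.map ψ) := by
  refine Matrix.ext fun i j => ?_
  simp [dual, dlift]

end dual

section lie

variable {S : Type*} [CommRing S] {a b : J → ℕ}

theorem tens_dual (X : Matrix n n S) :
    tens a b (dual 1 X) (dual 1 (-X)) = dual 1 (lie a b X) := by
  apply dual_ext
  · have h := tens_map (a := a) (b := b) (TrivSqZeroExt.fstHom S S S).toRingHom (dual 1 X)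
      (dual 1 (-X))
    rw [map_dual_fst, map_dual_fst, tens_one] at h
    rw [dual_fst]
    exact h
  · rw [dual_snd]
    rfl

theorem dual_one_mul (X Y : Matrix n n S) : dual 1 X * dual 1 Y = dual 1 (X + Y) := by
  rw [dual_mul, one_mul, one_mul, mul_one, add_comm]

theorem lie_map_of {S' : Type*} [CommRing S'] (φ : S →+* S') (ψ : S →+ S')
    (h : ∀ x y, ψ (x * y) = φ x * ψ y) (X : Matrix n n S) :
    lie a b (X.map ψ) = (lie a b X).map ψ := by
  have h1 := tens_map (a := a) (b := b) (dlift φ ψ h) (dual 1 X) (dual 1 (-X))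
  have h2 : (-X).map ψ = -(X.map ψ) := by
    ext i j
    simp
  have h3 : (1 : Matrix n n S).map φ = 1 := Matrix.map_one φ (map_zero φ) (map_one φ)
  rw [map_dlift, map_dlift, tens_dual, map_dlift, h2, h3, tens_dual] at h1
  have h4 := congrArg (fun P => P.map TrivSqZeroExt.snd) h1
  simp only [dual_snd] at h4
  exact h4.symm

theorem lie_map {S' : Type*} [CommRing S'] (φ : S →+* S') (X : Matrix n n S) :
    lie a b (X.map φ) = (lie a b X).map φ :=
  lie_map_of φ φ.toAddMonoidHom (fun x y => map_mul φ x y) X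

theorem lie_add (X Y : Matrix n n S) : lie a b (X + Y) = lie a b X + lie a b Y := by
  have h1 : tens a b (dual 1 (X + Y)) (dual 1 (-(X + Y))) =
      tens a b (dual 1 X) (dual 1 (-X)) * tens a b (dual 1 Y) (dual 1 (-Y)) := by
    rw [← tens_mul, dual_one_mul, dual_one_mul, neg_add, add_comm (-X)]
  rw [tens_dual, tens_dual, tens_dual, dual_mul, one_mul, one_mul, mul_one] at h1
  have h4 := congrArg (fun P => P.map TrivSqZeroExt.snd) h1
  simp only [dual_snd] at h4
  rw [h4, add_comm]

theorem lie_smul (c : S) (X : Matrix n n S) : lie a b (c • X) = c • lie a b X := by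
  have h := lie_map_of (a := a) (b := b) (RingHom.id S) (AddMonoidHom.mulLeft c)
    (fun x y => by
      simp only [AddMonoidHom.coe_mulLeft, RingHom.id_apply]
      ring) X
  exact h

theorem lie_zero : lie a b (0 : Matrix n n S) = 0 := by
  have h := lie_smul (a := a) (b := b) (0 : S) (0 : Matrix n n S)
  rwa [zero_smul, zero_smul] at h

theorem lie_neg (X : Matrix n n S) : lie a b (-X) = -lie a b X := by
  have h := lie_smul (a := a) (b := b) (-1 : S) X
  rwa [neg_one_smul, neg_one_smul] at h

theorem lie_sub (X Y : Matrix n n S) : lie a b (X - Y) = lie a b X - lie a b Y := by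
  rw [sub_eq_add_neg, lie_add, lie_neg, ← sub_eq_add_neg]

theorem lie_sum {ι : Type*} (s : Finset ι) (X : ι → Matrix n n S) :
    lie a b (∑ i ∈ s, X i) = ∑ i ∈ s, lie a b (X i) := by
  classical
  induction s using Finset.induction_on with
  | empty => simp [lie_zero]
  | insert i s hi ih => rw [Finset.sum_insert hi, Finset.sum_insert hi, lie_add, ih]

/-- `1 + t X` conjugated by `g`. -/
theorem lie_conj {g g' : Matrix n n S} (h : g * g' = 1) (X : Matrix n n S) :
    tens a b g g' * lie a b X * tens a b g' g = lie a b (g * X * g') := by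
  have h' : g' * g = 1 := mul_eq_one_comm.mp h
  have hd : ∀ Y : Matrix n n S, dual g 0 * dual 1 Y * dual g' 0 = dual 1 (g * Y * g') := by
    intro Y
    rw [dual_mul, dual_mul]
    simp [h]
  have h1 : tens a b (dual 1 (g * X * g')) (dual 1 (-(g * X * g'))) =
      tens a b (dual g 0) (dual g' 0) * tens a b (dual 1 X) (dual 1 (-X)) *
        tens a b (dual g' 0) (dual g 0) := by
    rw [← tens_mul, ← tens_mul, hd, ← Matrix.mul_assoc, hd]
    congr 2
    simp
  have hi : ∀ (x y : Matrix n n S), tens a b (dual x 0) (dual y 0) = dual (tens a b x y) 0 := by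
    intro x y
    have := tens_map (a := a) (b := b) (TrivSqZeroExt.inlHom S S) x y
    have e : ∀ (ι κ : Type _) (z : Matrix ι κ S), z.map (TrivSqZeroExt.inlHom S S) = dual z 0 := by
      intro ι κ z
      refine Matrix.ext fun i j => ?_
      simp [dual]
    rw [e, e, e] at this
    exact this.symm
  rw [tens_dual, tens_dual, hi, hi, dual_mul, dual_mul] at h1
  have h4 := congrArg (fun P => P.map TrivSqZeroExt.snd) h1
  simp only [dual_snd] at h4
  rw [h4]
  simp

/-- `lie` is a homomorphism of Lie algebras. -/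
theorem lie_bracket (X Y : Matrix n n S) :
    lie a b (X * Y - Y * X) = lie a b X * lie a b Y - lie a b Y * lie a b X := by
  have hinv : dual 1 X * dual 1 (-X) = (1 : Matrix n n (DualNumber S)) := by
    rw [dual_one_mul, add_neg_cancel, dual_one]
  have h1 := lie_conj (a := a) (b := b) hinv (dual Y 0)
  rw [tens_dual, show tens a b (dual 1 (-X)) (dual 1 X) = dual 1 (lie a b (-X)) by
    have := tens_dual (a := a) (b := b) (-X)
    rwa [neg_neg] at this] at h1
  have h2 : dual 1 X * dual Y 0 * dual 1 (-X) = dual Y 0 + dual 0 (X * Y - Y * X) := by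
    rw [dual_mul, dual_mul]
    refine Matrix.ext fun i j => ?_
    simp [dual, sub_eq_add_neg, add_comm]
  have h3 : ∀ Z : Matrix n n S, lie a b (dual Z 0) = dual (lie a b Z) 0 := by
    intro Z
    have := lie_map (a := a) (b := b) (TrivSqZeroExt.inlHom S S) Z
    have e : ∀ (ι κ : Type _) (z : Matrix ι κ S), z.map (TrivSqZeroExt.inlHom S S) = dual z 0 := by
      intro ι κ z
      refine Matrix.ext fun i j => ?_
      simp [dual]
    rw [e, e] at this
    exact this
  have h5 : ∀ Z : Matrix n n S, lie a b (dual 0 Z) = dual 0 (lie a b Z) := by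
    intro Z
    have e : ∀ (ι κ : Type _) (z : Matrix ι κ S),
        (DualNumber.eps : DualNumber S) • dual z 0 = dual 0 z := by
      intro ι κ z
      refine Matrix.ext fun i j => ?_
      rw [Matrix.smul_apply]
      apply TrivSqZeroExt.ext <;> simp [dual]
    rw [← e, lie_smul, h3, e]
  rw [h2, lie_add, h3, h5, dual_mul, dual_mul] at h1
  have h4 := congrArg (fun P => P.map TrivSqZeroExt.snd) h1
  have h6 : ∀ (P Q : Matrix (TIdx n a b) (TIdx n a b) (DualNumber S)),
      (P + Q).map TrivSqZeroExt.snd = P.map TrivSqZeroExt.snd + Q.map TrivSqZeroExt.snd := by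
    intro P Q
    ext i j
    simp
  simp only [h6, dual_snd] at h4
  rw [lie_neg] at h4
  simp only [one_mul, mul_zero, zero_add, mul_one, Matrix.mul_neg] at h4
  rw [← h4]
  abel

theorem lie_eq_sum (X : Matrix n n S) :
    lie a b X = ∑ i, ∑ j, X i j • lie a b (single i j (1 : S)) := by
  conv_lhs => rw [matrix_eq_sum_single X]
  rw [lie_sum]
  refine Finset.sum_congr rfl fun i _ => ?_
  rw [lie_sum]
  refine Finset.sum_congr rfl fun j _ => ?_
  rw [← lie_smul, smul_single, smul_eq_mul, mul_one]

theorem lie_linmap {E P P' : Type*} [CommRing E] [CommRing P] [Algebra E P] [CommRing P']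
    [Algebra E P'] (c : P →ₗ[E] P') (X : Matrix n n P) :
    lie a b (X.map c) = (lie a b X).map c := by
  have h1 : ∀ i j : n,
      lie a b (single i j (1 : P)) = (lie a b (single i j (1 : E))).map (algebraMap E P) := by
    intro i j
    rw [← lie_map]
    congr 1
    ext k l
    simp [single_apply, apply_ite (algebraMap E P)]
  have h2 : ∀ i j : n,
      lie a b (single i j (1 : P')) = (lie a b (single i j (1 : E))).map (algebraMap E P') := by
    intro i j
    rw [← lie_map]
    congr 1
    ext k l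
    simp [single_apply, apply_ite (algebraMap E P')]
  rw [lie_eq_sum, lie_eq_sum X]
  refine Matrix.ext fun s t => ?_
  rw [map_apply, Matrix.sum_apply, Matrix.sum_apply, map_sum]
  refine Finset.sum_congr rfl fun i _ => ?_
  rw [Matrix.sum_apply, Matrix.sum_apply, map_sum]
  refine Finset.sum_congr rfl fun j _ => ?_
  rw [Matrix.smul_apply, Matrix.smul_apply, h1, h2, map_apply, map_apply, map_apply, smul_eq_mul,
    smul_eq_mul, mul_comm, mul_comm (X i j), ← Algebra.smul_def, ← Algebra.smul_def, map_smul]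

end lie

section filt

variable {S : Type*} [CommRing S] {a b : J → ℕ}

theorem tens_filt (h : n → ℤ) {x y : Matrix n n S} (hx : ∀ i j, h i < h j → x i j = 0)
    (hy : ∀ i j, h i < h j → y i j = 0) (s t : TIdx n a b) (hst : wsum h s < wsum h t) :
    tens a b x y s t = 0 := by
  obtain ⟨j, u, u'⟩ := s
  obtain ⟨k, v, v'⟩ := t
  rcases eq_or_ne j k with hjk | hjk
  · subst hjk
    rw [tens_same]
    dsimp only
    by_cases h1 : ∃ i, h (u i) < h (v i)
    · obtain ⟨i, hi⟩ := h1
      rw [Finset.prod_eq_zero (Finset.mem_univ i) (hx _ _ hi), zero_mul]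
    · by_cases h2 : ∃ i, h (v' i) < h (u' i)
      · obtain ⟨i, hi⟩ := h2
        rw [Finset.prod_eq_zero (f := fun i => y (v' i) (u' i)) (Finset.mem_univ i) (hy _ _ hi),
          mul_zero]
      · exfalso
        push Not at h1 h2
        have h3 : ∑ i, h (v i) ≤ ∑ i, h (u i) := Finset.sum_le_sum fun i _ => h1 i
        have h4 : ∑ i, h (u' i) ≤ ∑ i, h (v' i) := Finset.sum_le_sum fun i _ => h2 i
        simp only [wsum] at hst
        omega
  · exact tens_ne x y hjk _ _

theorem lie_filt (h : n → ℤ) {X : Matrix n n S} (hX : ∀ i j, h i < h j → X i j = 0)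
    (s t : TIdx n a b) (hst : wsum h s < wsum h t) : lie a b X s t = 0 := by
  have h1 : ∀ (Z : Matrix n n S), (∀ i j, h i < h j → Z i j = 0) →
      ∀ i j, h i < h j → dual 1 Z i j = 0 := by
    intro Z hZ i j hij
    have hne : i ≠ j := by
      rintro rfl
      omega
    simp [dual, hZ i j hij, hne]
  have h2 := tens_filt (a := a) (b := b) h (h1 X hX)
    (h1 (-X) fun i j hij => by rw [Matrix.neg_apply, hX i j hij, neg_zero]) s t hst
  show TrivSqZeroExt.snd (tens a b (dual 1 X) (dual 1 (-X)) s t) = 0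
  rw [h2, TrivSqZeroExt.snd_zero]

theorem wsum_neg (h : n → ℤ) (s : TIdx n a b) : wsum (fun j => -h j) s = -wsum h s := by
  simp only [wsum, Finset.sum_neg_distrib]
  ring

theorem wsum_sub (h h' : n → ℤ) (s : TIdx n a b) :
    wsum (fun j => h j - h' j) s = wsum h s - wsum h' s := by
  simp only [wsum, Finset.sum_sub_distrib]
  ring

theorem tens_block (h : n → ℤ) {x y : Matrix n n S} (hx : ∀ i j, h i ≠ h j → x i j = 0)
    (hy : ∀ i j, h i ≠ h j → y i j = 0) (s t : TIdx n a b) (hst : wsum h s ≠ wsum h t) :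
    tens a b x y s t = 0 := by
  rcases lt_or_gt_of_ne hst with h1 | h1
  · exact tens_filt h (fun i j hij => hx i j hij.ne) (fun i j hij => hy i j hij.ne) s t h1
  · refine tens_filt (fun j => -h j) (fun i j hij => hx i j (by omega))
      (fun i j hij => hy i j (by omega)) s t ?_
    rw [wsum_neg, wsum_neg]
    omega

theorem lie_block (h : n → ℤ) {X : Matrix n n S} (hX : ∀ i j, h i ≠ h j → X i j = 0)
    (s t : TIdx n a b) (hst : wsum h s ≠ wsum h t) : lie a b X s t = 0 := by
  rcases lt_or_gt_of_ne hst with h1 | h1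
  · exact lie_filt h (fun i j hij => hX i j hij.ne) s t h1
  · refine lie_filt (fun j => -h j) (fun i j hij => hX i j (by omega)) s t ?_
    rw [wsum_neg, wsum_neg]
    omega

theorem prod_dual {ι : Type*} (s : Finset ι) (f : ι → S) :
    ∏ i ∈ s, (TrivSqZeroExt.inl 1 + TrivSqZeroExt.inr (f i) : DualNumber S) =
      TrivSqZeroExt.inl 1 + TrivSqZeroExt.inr (∑ i ∈ s, f i) := by
  classical
  induction s using Finset.induction_on with
  | empty => simp
  | insert i s hi ih =>
    rw [Finset.prod_insert hi, Finset.sum_insert hi, ih]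
    apply TrivSqZeroExt.ext
    · simp
    · simp [add_comm]

theorem lie_diag (h : n → ℤ) : lie a b (diagonal fun j => ((h j : ℤ) : S)) =
    diagonal fun s => ((wsum h s : ℤ) : S) := by
  refine Matrix.ext fun s t => ?_
  obtain ⟨j, u, u'⟩ := s
  obtain ⟨k, v, v'⟩ := t
  show TrivSqZeroExt.snd (tens a b _ _ _ _) = _
  have hoff : ∀ (f : n → S) (i j : n), i ≠ j → dual 1 (diagonal f) i j = 0 := by
    intro f i j hij
    simp [dual, hij]
  have hdia : ∀ (f : n → S) (i : n), dual 1 (diagonal f) i i =
      (TrivSqZeroExt.inl 1 + TrivSqZeroExt.inr (f i) : DualNumber S) := by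
    intro f i
    simp [dual]
  have hneg : -(diagonal fun j => ((h j : ℤ) : S)) = diagonal fun j => ((-h j : ℤ) : S) := by
    refine Matrix.ext fun i j => ?_
    by_cases hij : i = j
    · subst hij
      simp
    · simp [hij]
  rw [hneg]
  rcases eq_or_ne j k with hjk | hjk
  · subst hjk
    rw [tens_same]
    dsimp only
    by_cases h1 : u = v
    · subst h1
      by_cases h2 : u' = v'
      · subst h2
        rw [diagonal_apply_eq]
        simp only [hdia, prod_dual]
        simp [wsum, sub_eq_add_neg, add_comm]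
      · obtain ⟨i, hi⟩ := Function.ne_iff.mp h2
        rw [Finset.prod_eq_zero (f := fun i =>
          dual 1 (diagonal fun j => ((-h j : ℤ) : S)) (v' i) (u' i)) (Finset.mem_univ i)
          (hoff _ _ _ (Ne.symm hi)), mul_zero, diagonal_apply_ne]
        · rfl
        · intro e
          simp only [Sigma.mk.injEq, heq_eq_eq, Prod.mk.injEq, true_and] at e
          exact h2 e
    · obtain ⟨i, hi⟩ := Function.ne_iff.mp h1
      rw [Finset.prod_eq_zero (Finset.mem_univ i) (hoff _ _ _ hi), zero_mul, diagonal_apply_ne]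
      · rfl
      · intro e
        simp only [Sigma.mk.injEq, heq_eq_eq, Prod.mk.injEq, true_and] at e
        exact h1 e.1
  · rw [tens_ne _ _ hjk, diagonal_apply_ne]
    · rfl
    · intro e
      simp only [Sigma.mk.injEq] at e
      exact hjk e.1

end filt

end Pool.Agent.MP100fe7G
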