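import Pool.Agent.Lib.MP_100fe7_nt.GNF

/-!
The comparison matrix as a point of the torsor; injectivity of `N^ε ⊗ ℂ → (N_DR / F^r N_DR) ⊗ ℂ`.
-/

namespace Pool.Agent.MP100fe7G

open Matrix

/-- the inverse of a block diagonal matrix is block diagonal -/
private theorem gunit_block_inv {ι P : Type*} [Fintype ι] [DecidableEq ι] [CommRing P] (h : ι → ℤ)
    (X Y : Matrix ι ι P) (hXY : X * Y = 1) (hX : ∀ i j, h i ≠ h j → X i j = 0) (i j : ι)
    (hij : h i ≠ h j) : Y i j = 0 := by
  have hYX : Y * X = 1 := mul_eq_one_comm.mp hXY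
  set D : Matrix ι ι P := diagonal (fun k => if h k = h j then 1 else 0) with hD
  have h1 : X * D = D * X := by
    ext a b
    rw [hD, mul_diagonal, diagonal_mul]
    by_cases hab : h a = h b
    · rw [hab, mul_comm]
    · rw [hX a b hab, zero_mul, mul_zero]
  have h2 : Y * D = D * Y := by
    calc Y * D = Y * D * (X * Y) := by rw [hXY, Matrix.mul_one]
      _ = Y * (D * X) * Y := by simp only [Matrix.mul_assoc]
      _ = Y * (X * D) * Y := by rw [h1]
      _ = (Y * X) * D * Y := by simp only [Matrix.mul_assoc]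
      _ = D * Y := by rw [hYX, Matrix.one_mul]
  have h3 := congrFun (congrFun h2 i) j
  rw [hD, mul_diagonal, diagonal_mul, if_pos rfl, mul_one, if_neg hij, zero_mul] at h3
  exact h3

section

variable {E R : Type} [Field E] [CharZero E] [CommRing R] [Nontrivial R] [Algebra E R]
  {n J : Type} [Fintype n] [DecidableEq n] [Fintype J] [DecidableEq J] {a b : J → ℕ}
  (M : Datum E R n) {e f : TMat n a b E}

/-- The comparison matrix is a point of the torsor. -/
theorem isPt_comp {S : Set (TMat n a b E × TMat n a b E)} (hS : ∀ s ∈ S, M.IsMor s.1 s.2) :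
    IsPt M.wt S M.comp M.comp⁻¹ := by
  have hcc : M.comp * M.comp⁻¹ = 1 := Matrix.mul_nonsing_inv _ M.comp_unit
  exact ⟨hcc, M.comp_wt, gunit_block_inv M.wt M.comp M.comp⁻¹ hcc M.comp_wt,
    fun s hs => (hS s hs).1⟩

/-- The de Rham component of an idempotent morphism is idempotent. -/
theorem idem_dR (hm : M.IsMor e f) (he : e * e = e) : f * f = f := by
  have hcc : M.comp * M.comp⁻¹ = 1 := Matrix.mul_nonsing_inv _ M.comp_unit
  have hT : tens a b M.comp M.comp⁻¹ * tens a b M.comp⁻¹ M.comp = 1 := tens_inv hcc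
  have hT' : tens a b M.comp⁻¹ M.comp * tens a b M.comp M.comp⁻¹ = 1 := mul_eq_one_comm.mp hT
  set T := tens a b M.comp M.comp⁻¹ with hTdef
  set T' := tens a b M.comp⁻¹ M.comp with hT'def
  have h1 : T * e.map (algebraMap E R) = f.map (algebraMap E R) * T := hm.1
  have h2 : f.map (algebraMap E R) = T * e.map (algebraMap E R) * T' := by
    rw [h1, Matrix.mul_assoc, hT, Matrix.mul_one]
  have h3 : (f * f).map (algebraMap E R) = f.map (algebraMap E R) := by
    rw [Matrix.map_mul, h2]
    calc T * e.map (algebraMap E R) * T' * (T * e.map (algebraMap E R) * T')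
        = T * e.map (algebraMap E R) * (T' * T) * e.map (algebraMap E R) * T' := by
          simp only [Matrix.mul_assoc]
      _ = T * (e.map (algebraMap E R) * e.map (algebraMap E R)) * T' := by
          rw [hT', Matrix.mul_one]
          simp only [Matrix.mul_assoc]
      _ = T * e.map (algebraMap E R) * T' := by
          rw [← Matrix.map_mul, he]
  refine Matrix.ext fun i j => ?_
  have h4 := congrFun (congrFun h3 i) j
  rw [map_apply, map_apply] at h4
  exact (algebraMap E R).injective h4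

/-- Injectivity of `N^ε ⊗ ℂ → (N_DR / F^r N_DR) ⊗ ℂ`, `r = ⌊(k + 1) / 2⌋`.
Proof: let `𝓣 = tens comp comp⁻¹`, `z = 𝓣 v`, so `f z = z`, and `z s = 0` if `2 * wsum idx s < k`;
apply `NoMiddle` to the images of `z` under all linear functionals `R → E`
(`Module.forall_dual_apply_eq_zero_iff`): `z s = 0` if `2 * wsum idx s ≤ k`. Let
`(q, q', u, u')` be a frame (`exists_frame`), `w = tens q' q v`; `w = tens u' u z` (as
`u' = q' comp⁻¹`), so `w s = 0` if `2 * wsum idx s ≤ k` (`tens_filt`). With
`Φ = tens (q' F q) (q' F q)`, `Φ w = ε w`, so by `tens_swap` (and as `w s = 0` if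
`wsum wt s ≠ k`), `w s = ε * ∑ t, Φ s t * w t` with `wsum idx t = k - wsum idx s`, so `w = 0`. -/
theorem period_inj (hm : M.IsMor e f) (he : e * e = e) {k : ℤ} (hk : M.IsPure e k)
    (hmid : M.NoMiddle f k) {ε : ℤ} (hε : ε = 1 ∨ ε = -1) (v : TIdx n a b → R)
    (h1 : (e.map (algebraMap E R)).mulVec v = v)
    (h2 : ((tens a b M.frob M.frob).map (algebraMap E R)).mulVec v = ((ε : ℤ) : R) • v)
    (h3 : ∀ s, wsum M.idx s < (k + 1) / 2 → (tens a b M.comp M.comp⁻¹).mulVec v s = 0) :
    v = 0 := by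
  have hcc : M.comp * M.comp⁻¹ = 1 := Matrix.mul_nonsing_inv _ M.comp_unit
  have hcc' : M.comp⁻¹ * M.comp = 1 := Matrix.nonsing_inv_mul _ M.comp_unit
  have hT : tens a b M.comp M.comp⁻¹ * tens a b M.comp⁻¹ M.comp = 1 := tens_inv hcc
  have hT' : tens a b M.comp⁻¹ M.comp * tens a b M.comp M.comp⁻¹ = 1 := mul_eq_one_comm.mp hT
  set T := tens a b M.comp M.comp⁻¹ with hTdef
  set T' := tens a b M.comp⁻¹ M.comp with hT'def
  set z := T.mulVec v with hz
  -- `f z = z`
  have hfz : (f.map (algebraMap E R)).mulVec z = z := by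
    have h4 : T * e.map (algebraMap E R) = f.map (algebraMap E R) * T := hm.1
    rw [hz, Matrix.mulVec_mulVec, ← h4, ← Matrix.mulVec_mulVec, h1]
  have hz1 : ∀ s, 2 * wsum M.idx s < k → z s = 0 := fun s hs => h3 s (by omega)
  have hz2 : ∀ s, 2 * wsum M.idx s ≤ k → z s = 0 := by
    intro s hs
    rw [← Module.forall_dual_apply_eq_zero_iff E]
    intro φ
    refine hmid (fun t => φ (z t)) ?_ ?_ s hs
    · funext t
      have h5 := congrArg φ (congrFun hfz t)
      rw [← h5]
      simp only [Matrix.mulVec, dotProduct, map_apply, map_sum]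
      refine Finset.sum_congr rfl fun l _ => ?_
      rw [← Algebra.smul_def, map_smul, smul_eq_mul]
    · intro t ht
      show φ (z t) = 0
      rw [hz1 t ht, map_zero]
  obtain ⟨q, q', u, u', hf⟩ := exists_frame M
  have hqq' : q' * q = 1 := mul_eq_one_comm.mp hf.qq
  have hu' : u' = q' * M.comp⁻¹ := by
    have e1 : u * (q' * M.comp⁻¹) = 1 := by
      rw [hf.u_eq, Matrix.mul_assoc, ← Matrix.mul_assoc q, hf.qq, Matrix.one_mul, hcc]
    have e2 : u' * u = 1 := mul_eq_one_comm.mp hf.uu
    calc u' = u' * (u * (q' * M.comp⁻¹)) := by rw [e1, Matrix.mul_one]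
      _ = q' * M.comp⁻¹ := by rw [← Matrix.mul_assoc, e2, Matrix.one_mul]
  set w := (tens a b q' q).mulVec v with hw
  have hwz : w = (tens a b u' u).mulVec z := by
    rw [hu', hf.u_eq, tens_mul, hz, Matrix.mulVec_mulVec, Matrix.mul_assoc, hT', Matrix.mul_one]
  have hw1 : ∀ s, 2 * wsum M.idx s ≤ k → w s = 0 := by
    intro s hs
    rw [hwz]
    show ∑ t, tens a b u' u s t * z t = 0
    refine Finset.sum_eq_zero fun t _ => ?_
    by_cases h4 : wsum M.idx s < wsum M.idx t
    · rw [tens_filt M.idx hf.u_filt' hf.u_filt s t h4, zero_mul]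
    · rw [hz2 t (by omega), mul_zero]
  have hv1 : ∀ s, wsum M.wt s ≠ k → v s = 0 := by
    intro s hs
    rw [← h1]
    show ∑ t, (e.map (algebraMap E R)) s t * v t = 0
    refine Finset.sum_eq_zero fun t _ => ?_
    rw [map_apply, hk s t (Or.inl hs), map_zero, zero_mul]
  have hw2 : ∀ s, wsum M.wt s ≠ k → w s = 0 := by
    intro s hs
    rw [hw]
    show ∑ t, tens a b q' q s t * v t = 0
    refine Finset.sum_eq_zero fun t _ => ?_
    by_cases h4 : wsum M.wt s = wsum M.wt t
    · rw [hv1 t (by omega), mul_zero]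
    · rw [tens_block M.wt hf.q_wt' hf.q_wt s t h4, zero_mul]
  set F := M.frob.map (algebraMap E R) with hF
  set Φ := tens a b (q' * F * q) (q' * F * q) with hΦ
  have hΦ1 : Φ = tens a b q' q * tens a b F F * tens a b q q' := by
    rw [hΦ, ← tens_mul, ← tens_mul]
    simp only [Matrix.mul_assoc]
  have hTq : tens a b q q' * tens a b q' q = 1 := tens_inv hf.qq
  have hFv : (tens a b F F).mulVec v = ((ε : ℤ) : R) • v := by
    have h4 : tens a b F F = (tens a b M.frob M.frob).map (algebraMap E R) := by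
      rw [tens_map]
    rw [h4]
    exact h2
  have hΦw : Φ.mulVec w = ((ε : ℤ) : R) • w := by
    rw [hΦ1, hw, Matrix.mulVec_mulVec, Matrix.mul_assoc (tens a b q' q * tens a b F F), hTq,
      Matrix.mul_one, ← Matrix.mulVec_mulVec, hFv, Matrix.mulVec_smul]
  have hw0 : w = 0 := by
    funext s
    by_cases h4 : 2 * wsum M.idx s ≤ k
    · exact hw1 s h4
    by_cases h5 : wsum M.wt s = k
    · have h6 : ((ε : ℤ) : R) * w s = 0 := by
        have h7 := congrFun hΦw s
        rw [Pi.smul_apply, smul_eq_mul] at h7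
        rw [← h7]
        show ∑ t, Φ s t * w t = 0
        refine Finset.sum_eq_zero fun t _ => ?_
        by_cases h8 : wsum M.idx s + wsum M.idx t ≠ wsum M.wt s ∨ wsum M.wt s ≠ wsum M.wt t
        · rw [hΦ, tens_swap hf.swap hf.swap s t h8, zero_mul]
        · rw [not_or, not_not, not_not] at h8
          rw [hw1 t (by omega), mul_zero]
      rcases hε with rfl | rfl
      · simpa using h6
      · simpa using h6
    · exact hw2 s h5
  have hvw : v = (tens a b q q').mulVec w := by
    rw [hw, Matrix.mulVec_mulVec, hTq, Matrix.one_mulVec]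
  rw [hvw, hw0, Matrix.mulVec_zero]

end

end Pool.Agent.MP100fe7G
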