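import Pool.Agent.Lib.MP_100fe7_nt.GUnit

/-!
Surjectivity of `N^ε ⊗ ℂ → (N_DR / F^r N_DR) ⊗ ℂ`.
-/

namespace Pool.Agent.MP100fe7G

open Matrix

section

variable {E R : Type} [Field E] [CharZero E] [CommRing R] [Nontrivial R] [Algebra E R]
  {n J : Type} [Fintype n] [DecidableEq n] [Fintype J] [DecidableEq J] {a b : J → ℕ}
  (M : Datum E R n) {e f : TMat n a b E}

/-- Surjectivity of `N^ε ⊗ ℂ → (N_DR / F^r N_DR) ⊗ ℂ`.
Proof: with the notations of `period_inj`, `w = tens u' u z` has `σ w = w` for
`σ = tens q' q * e * tens q q'`, which has degree zero (`mor_degree`). Let `w₁` be the part of `w`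
with `2 * wsum idx s < k`, `w₂ = w₁ + ε Φ w₁` and `v = tens q q' w₂`. Then `σ w₂ = w₂`
(`σ` commutes with `Φ`), `Φ w₂ = ε w₂`, and `𝓣 v - z = tens u u' (w₂ - w)`, where
`w₂ - w = (w₁ - w) + ε Φ w₁` is zero at the `s` with `2 * wsum idx s < k`. -/
theorem period_surj (hm : M.IsMor e f) (he : e * e = e) {k : ℤ} (hk : M.IsPure e k)
    {ε : ℤ} (hε : ε = 1 ∨ ε = -1) (z : TIdx n a b → R)
    (hz : (f.map (algebraMap E R)).mulVec z = z) :
    ∃ v : TIdx n a b → R, (e.map (algebraMap E R)).mulVec v = v ∧
      ((tens a b M.frob M.frob).map (algebraMap E R)).mulVec v = ((ε : ℤ) : R) • v ∧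
      ∀ s, wsum M.idx s < (k + 1) / 2 →
        ((tens a b M.comp M.comp⁻¹).mulVec v - z) s = 0 := by
  obtain ⟨q, q', u, u', hf⟩ := exists_frame M
  have hmem : (e, f) ∈ ({(e, f)} : Set (TMat n a b E × TMat n a b E)) := Set.mem_singleton _
  have hx : IsPt M.wt ({(e, f)} : Set (TMat n a b E × TMat n a b E)) M.comp M.comp⁻¹ := by
    refine isPt_comp M ?_
    intro s hs
    rw [Set.mem_singleton_iff] at hs
    rw [hs]
    exact hm
  have hdeg := mor_degree hx hf M.frob_sq hmem hm.2.1 hm.2.2.1 hm.2.2.2
  have hqq' : q' * q = 1 := mul_eq_one_comm.mp hf.qq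
  have hu' : u' = q' * M.comp⁻¹ := by
    have e1 : u * (q' * M.comp⁻¹) = 1 := by
      rw [hf.u_eq, Matrix.mul_assoc, ← Matrix.mul_assoc q, hf.qq, Matrix.one_mul, hx.1]
    have e2 : u' * u = 1 := mul_eq_one_comm.mp hf.uu
    calc u' = u' * (u * (q' * M.comp⁻¹)) := by rw [e1, Matrix.mul_one]
      _ = q' * M.comp⁻¹ := by rw [← Matrix.mul_assoc, e2, Matrix.one_mul]
  set F := M.frob.map (algebraMap E R) with hFdef
  set eR := e.map (algebraMap E R) with heR
  set fR := f.map (algebraMap E R) with hfR
  set σ := tens a b q' q * eR * tens a b q q' with hσ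
  have c1 : tens a b q q' * tens a b q' q = 1 := tens_inv hf.qq
  have c2 : tens a b q' q * tens a b q q' = 1 := tens_inv hqq'
  have c3 : tens a b u u' * tens a b u' u = 1 := tens_inv hf.uu
  have c4 : tens a b M.comp M.comp⁻¹ * tens a b q q' = tens a b u u' := by
    rw [hu', hf.u_eq, tens_mul]
  have hFF : F * F = 1 := by
    rw [hFdef, ← Matrix.map_mul, M.frob_sq, Matrix.map_one _ (map_zero _) (map_one _)]
  have c5 : tens a b F F * tens a b F F = 1 := tens_inv hFF
  have hTF : tens a b F F * eR = eR * tens a b F F := by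
    have := congrArg (fun X => X.map (algebraMap E R)) hm.2.1
    simpa only [Matrix.map_mul, tens_map] using this
  have hTFm : (tens a b M.frob M.frob).map (algebraMap E R) = tens a b F F := by
    rw [← tens_map]
  -- σ in terms of the de Rham component
  have hσ2 : σ = tens a b u' u * fR * tens a b u u' := by
    rw [hu', hf.u_eq, tens_mul, tens_mul, hσ]
    rw [show tens a b q' q * tens a b M.comp⁻¹ M.comp * fR *
      (tens a b M.comp M.comp⁻¹ * tens a b q q') =
        tens a b q' q * (tens a b M.comp⁻¹ M.comp * fR *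
        tens a b M.comp M.comp⁻¹) * tens a b q q' by simp only [Matrix.mul_assoc]]
    rw [hx.tens_y hmem, Matrix.mul_assoc (eR), tens_inv hx.yx, Matrix.mul_one]
  set Φ := tens a b (q' * F * q) (q' * F * q) with hΦ
  have hΦ1 : Φ = tens a b q' q * tens a b F F * tens a b q q' := by
    rw [hΦ, ← tens_mul, ← tens_mul]
    simp only [Matrix.mul_assoc]
  have hΦΦ : Φ * Φ = 1 := by
    rw [hΦ1]
    calc tens a b q' q * tens a b F F * tens a b q q' *
          (tens a b q' q * tens a b F F * tens a b q q')
        = tens a b q' q * tens a b F F * (tens a b q q' * tens a b q' q) * tens a b F F *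
            tens a b q q' := by simp only [Matrix.mul_assoc]
      _ = tens a b q' q * (tens a b F F * tens a b F F) * tens a b q q' := by
          rw [c1, Matrix.mul_one]
          simp only [Matrix.mul_assoc]
      _ = 1 := by rw [c5, Matrix.mul_one, c2]
  have hσΦ : σ * Φ = Φ * σ := by
    rw [hΦ1, hσ]
    calc tens a b q' q * eR * tens a b q q' * (tens a b q' q * tens a b F F * tens a b q q')
        = tens a b q' q * eR * (tens a b q q' * tens a b q' q) * tens a b F F *
            tens a b q q' := by simp only [Matrix.mul_assoc]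
      _ = tens a b q' q * (eR * tens a b F F) * tens a b q q' := by
          rw [c1, Matrix.mul_one]
          simp only [Matrix.mul_assoc]
      _ = tens a b q' q * (tens a b F F * eR) * tens a b q q' := by rw [hTF]
      _ = tens a b q' q * tens a b F F * (tens a b q q' * tens a b q' q) * eR *
            tens a b q q' := by
          rw [c1, Matrix.mul_one]
          simp only [Matrix.mul_assoc]
      _ = _ := by simp only [Matrix.mul_assoc]
  -- purity of σ
  have hpure : ∀ s t, wsum M.wt s ≠ k → σ s t = 0 := by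
    intro s t hs
    rw [hσ, Matrix.mul_assoc, Matrix.mul_apply]
    refine Finset.sum_eq_zero fun l _ => ?_
    by_cases h1 : wsum M.wt s = wsum M.wt l
    · rw [Matrix.mul_apply, Finset.sum_eq_zero fun m _ => ?_, mul_zero]
      rw [heR, Matrix.map_apply, hk l m (Or.inl (by rwa [← h1])), map_zero, zero_mul]
    · rw [tens_block M.wt hf.q_wt' hf.q_wt s l h1, zero_mul]
  set w : TIdx n a b → R := (tens a b u' u).mulVec z with hw
  have hσw : σ.mulVec w = w := by
    rw [hσ2, hw, Matrix.mulVec_mulVec, Matrix.mul_assoc, c3, Matrix.mul_one,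
      ← Matrix.mulVec_mulVec, hz]
  set w₁ : TIdx n a b → R := fun s => if 2 * wsum M.idx s < k then w s else 0 with hw₁
  have hσw₁ : σ.mulVec w₁ = w₁ := by
    funext s
    by_cases hs : 2 * wsum M.idx s < k
    · have e1 : w₁ s = w s := if_pos hs
      rw [e1]
      conv_rhs => rw [← hσw]
      rw [Matrix.mulVec, Matrix.mulVec, dotProduct, dotProduct]
      refine Finset.sum_congr rfl fun t _ => ?_
      by_cases hst : wsum M.idx s = wsum M.idx t
      · have e2 : w₁ t = w t := if_pos (by rwa [← hst])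
        rw [e2]
      · rw [hdeg s t hst, zero_mul, zero_mul]
    · have e1 : w₁ s = 0 := if_neg hs
      rw [e1, Matrix.mulVec, dotProduct]
      refine Finset.sum_eq_zero fun t _ => ?_
      by_cases hst : wsum M.idx s = wsum M.idx t
      · have e2 : w₁ t = 0 := if_neg (by rwa [← hst])
        rw [e2, mul_zero]
      · rw [hdeg s t hst, zero_mul]
  have hw₁k : ∀ t, wsum M.wt t ≠ k → w₁ t = 0 := by
    intro t ht
    rw [← hσw₁, Matrix.mulVec, dotProduct]
    refine Finset.sum_eq_zero fun l _ => ?_
    rw [hpure t l ht, zero_mul]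
  have hεε : ((ε : ℤ) : R) * ((ε : ℤ) : R) = 1 := by
    rcases hε with h | h <;> rw [h] <;> simp
  set w₂ : TIdx n a b → R := w₁ + ((ε : ℤ) : R) • Φ.mulVec w₁ with hw₂
  have hσw₂ : σ.mulVec w₂ = w₂ := by
    have h0 : (Φ * σ).mulVec w₁ = Φ.mulVec w₁ := by
      rw [← Matrix.mulVec_mulVec, hσw₁]
    rw [hw₂, Matrix.mulVec_add, Matrix.mulVec_smul, Matrix.mulVec_mulVec, hσΦ, h0, hσw₁]
  have hΦw₂ : Φ.mulVec w₂ = ((ε : ℤ) : R) • w₂ := by
    rw [hw₂, Matrix.mulVec_add, Matrix.mulVec_smul, Matrix.mulVec_mulVec, hΦΦ,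
      Matrix.one_mulVec, smul_add, smul_smul, hεε, one_smul, add_comm]
  refine ⟨(tens a b q q').mulVec w₂, ?_, ?_, ?_⟩
  · have h1 : eR * tens a b q q' = tens a b q q' * σ := by
      rw [hσ]
      calc eR * tens a b q q' = (tens a b q q' * tens a b q' q) * eR * tens a b q q' := by
            rw [c1, Matrix.one_mul]
        _ = _ := by simp only [Matrix.mul_assoc]
    rw [Matrix.mulVec_mulVec, h1, ← Matrix.mulVec_mulVec, hσw₂]
  · have h1 : tens a b F F * tens a b q q' = tens a b q q' * Φ := by
      rw [hΦ1]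
      calc tens a b F F * tens a b q q'
          = (tens a b q q' * tens a b q' q) * tens a b F F * tens a b q q' := by
            rw [c1, Matrix.one_mul]
        _ = _ := by simp only [Matrix.mul_assoc]
    rw [hTFm, Matrix.mulVec_mulVec, h1, ← Matrix.mulVec_mulVec, hΦw₂, Matrix.mulVec_smul]
  · intro s hs
    have h1 : (tens a b M.comp M.comp⁻¹).mulVec ((tens a b q q').mulVec w₂) - z =
        (tens a b u u').mulVec (w₂ - w) := by
      rw [Matrix.mulVec_mulVec, c4, Matrix.mulVec_sub, hw, Matrix.mulVec_mulVec _ _ (tens a b u' u),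
        c3, Matrix.one_mulVec]
    rw [h1, Matrix.mulVec, dotProduct]
    refine Finset.sum_eq_zero fun t _ => ?_
    by_cases hst : wsum M.idx s < wsum M.idx t
    · rw [tens_filt M.idx hf.u_filt hf.u_filt' s t hst, zero_mul]
    · have ht : 2 * wsum M.idx t < k := by omega
      have e1 : w₁ t = w t := if_pos ht
      have e2 : Φ.mulVec w₁ t = 0 := by
        rw [Matrix.mulVec, dotProduct]
        refine Finset.sum_eq_zero fun l _ => ?_
        by_cases h2 : wsum M.wt l = k
        · by_cases h3 : 2 * wsum M.idx l < k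
          · rw [hΦ, tens_swap hf.swap hf.swap t l, zero_mul]
            by_contra hcon
            rw [not_or, not_not, not_not] at hcon
            omega
          · have e3 : w₁ l = 0 := if_neg h3
            rw [e3, mul_zero]
        · rw [hw₁k l h2, mul_zero]
      have e4 : (w₂ - w) t = 0 := by
        rw [Pi.sub_apply, hw₂, Pi.add_apply, Pi.smul_apply, e1, e2, smul_zero, add_zero, sub_self]
      rw [e4, mul_zero]

end

end Pool.Agent.MP100fe7G
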