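import Pool.Agent.Lib.MP_100fe7_nt.TEmb

/-!
Algebraic representations of a product of general linear groups (general index sets), in a basis of
weight vectors.
-/

set_option linter.unusedSectionVars false

namespace Pool.Agent.MP100fe7L

open Matrix

/-- A family of square matrices. -/
abbrev Fam {Q : Type} (J : Q → Type) (S : Type) : Type := ∀ q, Matrix (J q) (J q) S

/-- The union of the index sets. -/
abbrev Tot {Q : Type} (J : Q → Type) : Type := Σ q, J q

/-- The value at a family `A` of matrices over an `E`-algebra `S` of a matrix of polynomials over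
`E` in the entries of such a family. -/
noncomputable def evalMat {E : Type} [Field E] {Q : Type} {J : Q → Type} {κ : Type}
    (mat : Matrix κ κ (MvPolynomial (Σ q, J q × J q) E)) (S : Type) [CommRing S]
    [Algebra E S] (A : Fam J S) : Matrix κ κ S :=
  mat.map (MvPolynomial.aeval fun t => A t.1 t.2.1 t.2.2)

/-- A polynomial representation over `E` of the product of the groups `GL(J q)`, homogeneous of
degree `tdeg`, in a basis of weight vectors. -/
structure PolRep (E : Type) [Field E] {Q : Type} [Fintype Q] (J : Q → Type) [∀ q, Fintype (J q)]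
    [∀ q, DecidableEq (J q)] (κ : Type) [Fintype κ] [DecidableEq κ] where
  /-- the polynomial matrix -/
  mat : Matrix κ κ (MvPolynomial (Σ q, J q × J q) E)
  /-- the weights of the basis vectors -/
  wt : κ → Tot J → ℕ
  /-- the total degree -/
  tdeg : ℕ
  sum_wt : ∀ s, ∑ t : Tot J, wt s t = tdeg
  map_mul : ∀ (S : Type) [CommRing S] [Algebra E S] (A B : Fam J S),
    evalMat mat S (A * B) = evalMat mat S A * evalMat mat S B
  map_diagonal : ∀ (S : Type) [CommRing S] [Algebra E S] (x : Tot J → S),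
    evalMat mat S (fun q => diagonal fun j => x ⟨q, j⟩) = diagonal fun s => ∏ t, x t ^ wt s t

variable {E : Type} [Field E] {Q : Type} [Fintype Q] [DecidableEq Q] {J : Q → Type}
  [∀ q, Fintype (J q)] [∀ q, DecidableEq (J q)] {κ : Type} [Fintype κ] [DecidableEq κ]

/-- apply a map to all entries of a family -/
def Fam.map' {S S' : Type} (A : Fam J S) (f : S → S') : Fam J S' := fun i => (A i).map f

/-- family of diagonal matrices -/
def fdiag {S : Type} [CommRing S] (x : Tot J → S) : Fam J S := fun i => diagonal fun j => x ⟨i, j⟩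

theorem fdiag_mul {S : Type} [CommRing S] (x y : Tot J → S) :
    fdiag x * fdiag y = fdiag (fun q => x q * y q) := by
  funext i
  simp only [fdiag, Pi.mul_apply, diagonal_mul_diagonal]

namespace PolRep

variable (ρ : PolRep E J κ)

/-- the polynomial part of the representation -/
noncomputable def pol (S : Type) [CommRing S] [Algebra E S] (A : Fam J S) : Matrix κ κ S :=
  evalMat ρ.mat S A

theorem pol_mul (S : Type) [CommRing S] [Algebra E S] (A B : Fam J S) :
    ρ.pol S (A * B) = ρ.pol S A * ρ.pol S B := ρ.map_mul S A B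

theorem pol_diag (S : Type) [CommRing S] [Algebra E S] (x : Tot J → S) :
    ρ.pol S (fdiag x) = diagonal fun s => ∏ q, x q ^ ρ.wt s q := ρ.map_diagonal S x

theorem pol_one (S : Type) [CommRing S] [Algebra E S] : ρ.pol S 1 = 1 := by
  have h := ρ.pol_diag S 1
  have h1 : (fdiag (1 : Tot J → S) : Fam J S) = 1 := by
    funext i
    simp only [fdiag, Pi.one_apply]
    exact diagonal_one
  rw [h1] at h
  rw [h]
  simp

theorem pol_map {S S' : Type} [CommRing S] [Algebra E S] [CommRing S'] [Algebra E S']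
    (φ : S →ₐ[E] S') (A : Fam J S) :
    (ρ.pol S A).map φ = ρ.pol S' (A.map' φ) := by
  ext s t
  simp only [pol, evalMat, Matrix.map_apply]
  rw [← AlgHom.comp_apply, MvPolynomial.comp_aeval]
  rfl

theorem pol_inv_mul {S : Type} [CommRing S] [Algebra E S] {A B : Fam J S}
    (h : A * B = 1) : ρ.pol S A * ρ.pol S B = 1 := by
  rw [← ρ.pol_mul, h, ρ.pol_one]

/-- natural-number Hodge height -/
theorem pol_parabolic_nat {R : Type} [CommRing R] [Algebra E R] (m : Tot J → ℕ)
    (b : Fam J R) (hb : ∀ i j j', m ⟨i, j⟩ < m ⟨i, j'⟩ → b i j j' = 0) (s t : κ)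
    (hst : ∑ q, m q * ρ.wt s q < ∑ q, m q * ρ.wt t q) : ρ.pol R b s t = 0 := by
  let φ : R →ₐ[E] Polynomial R := IsScalarTower.toAlgHom E R (Polynomial R)
  have hφ : ∀ r, φ r = Polynomial.C r := fun r => rfl
  have h1 : fdiag (fun q => (Polynomial.X : Polynomial R) ^ m q) * Fam.map' b φ =
      (fun i => Matrix.of fun j j' => Polynomial.C (b i j j') *
        Polynomial.X ^ (m ⟨i, j⟩ - m ⟨i, j'⟩)) *
        fdiag (fun q => (Polynomial.X : Polynomial R) ^ m q) := by
    funext i
    ext1 j j'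
    simp only [Pi.mul_apply, fdiag, Fam.map']
    rw [Matrix.diagonal_mul, Matrix.mul_diagonal, Matrix.map_apply, hφ, Matrix.of_apply]
    by_cases hij : m ⟨i, j⟩ < m ⟨i, j'⟩
    · rw [hb i j j' hij]
      simp
    · rw [mul_assoc, ← pow_add, Nat.sub_add_cancel (by omega), mul_comm]
  have h2 := congrArg (ρ.pol (Polynomial R)) h1
  rw [ρ.pol_mul, ρ.pol_mul, ← ρ.pol_map, ρ.pol_diag] at h2
  have h3 := congrFun (congrFun h2 s) t
  rw [Matrix.diagonal_mul, Matrix.mul_diagonal, Matrix.map_apply, hφ] at h3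
  simp only [← pow_mul, Finset.prod_pow_eq_pow_sum] at h3
  have h4 := congrArg (fun f => Polynomial.coeff f (∑ q, m q * ρ.wt s q)) h3
  simp only [Polynomial.coeff_X_pow_mul', Polynomial.coeff_mul_X_pow'] at h4
  rw [if_pos le_rfl, if_neg (by omega)] at h4
  simpa using h4

theorem exists_shift (idx : Tot J → ℤ) : ∃ c : ℤ, ∀ q, 0 ≤ idx q + c := by
  refine ⟨∑ q, |idx q|, fun q => ?_⟩
  have h1 : |idx q| ≤ ∑ q, |idx q| :=
    Finset.single_le_sum (f := fun q => |idx q|) (fun i _ => abs_nonneg _) (Finset.mem_univ q)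
  have h2 := neg_abs_le (idx q)
  linarith

theorem height_shift (idx : Tot J → ℤ) (c : ℤ) (m : Tot J → ℕ) (hm : ∀ q, (m q : ℤ) = idx q + c)
    (u : κ) : ((∑ q, m q * ρ.wt u q : ℕ) : ℤ) = (∑ q, (ρ.wt u q : ℤ) * idx q) +
      (ρ.tdeg : ℤ) * c := by
  have h1 : ((∑ q, ρ.wt u q : ℕ) : ℤ) = ρ.tdeg := by exact_mod_cast ρ.sum_wt u
  push_cast at h1 ⊢
  simp only [hm]
  rw [← h1, Finset.sum_mul, ← Finset.sum_add_distrib]
  apply Finset.sum_congr rfl
  intro q _
  ring

/-- A family preserving the filtration by Hodge indices is mapped to such a matrix. -/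
theorem pol_parabolic {R : Type} [CommRing R] [Algebra E R] (idx : Tot J → ℤ)
    (b : Fam J R) (hb : ∀ i j j', idx ⟨i, j⟩ < idx ⟨i, j'⟩ → b i j j' = 0) (s t : κ)
    (hst : ∑ q, (ρ.wt s q : ℤ) * idx q < ∑ q, (ρ.wt t q : ℤ) * idx q) : ρ.pol R b s t = 0 := by
  obtain ⟨c, hc⟩ := exists_shift idx
  let m : Tot J → ℕ := fun q => (idx q + c).toNat
  have hm : ∀ q, (m q : ℤ) = idx q + c := fun q => Int.toNat_of_nonneg (hc q)
  have hH := ρ.height_shift idx c m hm
  apply ρ.pol_parabolic_nat m b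
  · intro i j j' hij
    apply hb
    have h1 := hm ⟨i, j⟩
    have h2 := hm ⟨i, j'⟩
    omega
  · have h1 := hH s
    have h2 := hH t
    omega

/-- On the blocks of equal Hodge index, `ρ(b)` only depends on the diagonal blocks of `b`. -/
theorem pol_diagBlocks_nat {R : Type} [CommRing R] [Algebra E R] (m : Tot J → ℕ) (b b' : Fam J R)
    (hb : ∀ i j j', m ⟨i, j⟩ < m ⟨i, j'⟩ → b i j j' = 0)
    (hb' : ∀ i j j', b' i j j' = if m ⟨i, j⟩ = m ⟨i, j'⟩ then b i j j' else 0) (s t : κ)
    (hst : ∑ q, m q * ρ.wt s q = ∑ q, m q * ρ.wt t q) : ρ.pol R b s t = ρ.pol R b' s t := by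
  let φ : R →ₐ[E] Polynomial R := IsScalarTower.toAlgHom E R (Polynomial R)
  have hφ : ∀ r, φ r = Polynomial.C r := fun r => rfl
  let bX : Fam J (Polynomial R) :=
    fun i => Matrix.of fun j j' => Polynomial.C (b i j j') *
      Polynomial.X ^ (m ⟨i, j⟩ - m ⟨i, j'⟩)
  have h1 : fdiag (fun q => (Polynomial.X : Polynomial R) ^ m q) * Fam.map' b φ =
      bX * fdiag (fun q => (Polynomial.X : Polynomial R) ^ m q) := by
    funext i
    ext1 j j'
    simp only [Pi.mul_apply, fdiag, Fam.map', bX]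
    rw [Matrix.diagonal_mul, Matrix.mul_diagonal, Matrix.map_apply, hφ, Matrix.of_apply]
    by_cases hij : m ⟨i, j⟩ < m ⟨i, j'⟩
    · rw [hb i j j' hij]
      simp
    · rw [mul_assoc, ← pow_add, Nat.sub_add_cancel (by omega), mul_comm]
  have h2 := congrArg (ρ.pol (Polynomial R)) h1
  rw [ρ.pol_mul, ρ.pol_mul, ← ρ.pol_map, ρ.pol_diag] at h2
  have h3 := congrFun (congrFun h2 s) t
  rw [Matrix.diagonal_mul, Matrix.mul_diagonal, Matrix.map_apply, hφ] at h3
  simp only [← pow_mul, Finset.prod_pow_eq_pow_sum] at h3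
  rw [hst, mul_comm] at h3
  have h4 : Polynomial.C (ρ.pol R b s t) = ρ.pol (Polynomial R) bX s t :=
    (Polynomial.isRegular_X_pow (R := R) _).right h3
  let φ₀ : Polynomial R →ₐ[E] R := (Polynomial.aeval (0 : R)).restrictScalars E
  have hφ₀ : ∀ p, φ₀ p = Polynomial.eval 0 p := by
    intro p
    exact congrFun (Polynomial.coe_aeval_eq_eval (0 : R)) p
  have h5 := congrArg φ₀ h4
  rw [hφ₀, Polynomial.eval_C] at h5
  have h6 := congrFun (congrFun (ρ.pol_map φ₀ bX) s) t
  rw [Matrix.map_apply] at h6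
  rw [h5, h6]
  congr 1
  funext i
  ext1 j j'
  simp only [Fam.map', bX]
  rw [Matrix.map_apply, hφ₀, hb', Matrix.of_apply]
  rw [Polynomial.eval_mul, Polynomial.eval_C, Polynomial.eval_pow, Polynomial.eval_X]
  rcases lt_trichotomy (m ⟨i, j⟩) (m ⟨i, j'⟩) with h | h | h
  · rw [hb i j j' h, zero_mul, if_neg (by omega)]
  · rw [if_pos h, h, Nat.sub_self, pow_zero, mul_one]
  · rw [if_neg (by omega), zero_pow (by omega), mul_zero]

/-- On the blocks of equal Hodge index, `ρ(b)` only depends on the diagonal blocks of `b`. -/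
theorem pol_diagBlocks {R : Type} [CommRing R] [Algebra E R] (idx : Tot J → ℤ) (b b' : Fam J R)
    (hb : ∀ i j j', idx ⟨i, j⟩ < idx ⟨i, j'⟩ → b i j j' = 0)
    (hb' : ∀ i j j', b' i j j' = if idx ⟨i, j⟩ = idx ⟨i, j'⟩ then b i j j' else 0) (s t : κ)
    (hst : ∑ q, (ρ.wt s q : ℤ) * idx q = ∑ q, (ρ.wt t q : ℤ) * idx q) :
    ρ.pol R b s t = ρ.pol R b' s t := by
  obtain ⟨c, hc⟩ := exists_shift idx
  let m : Tot J → ℕ := fun q => (idx q + c).toNat
  have hm : ∀ q, (m q : ℤ) = idx q + c := fun q => Int.toNat_of_nonneg (hc q)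
  have hH := ρ.height_shift idx c m hm
  apply pol_diagBlocks_nat ρ m b b'
  · intro i j j' hij
    apply hb
    have h1 := hm ⟨i, j⟩
    have h2 := hm ⟨i, j'⟩
    omega
  · intro i j j'
    rw [hb']
    have h1 := hm ⟨i, j⟩
    have h2 := hm ⟨i, j'⟩
    by_cases h : idx ⟨i, j⟩ = idx ⟨i, j'⟩
    · rw [if_pos h, if_pos (by omega)]
    · rw [if_neg h, if_neg (by omega)]
  · have h1 := hH s
    have h2 := hH t
    omega


end PolRep

end Pool.Agent.MP100fe7L
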