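import Pool.Agent.Lib.MP_100fe7_nt.Exist
import Pool.Agent.Lib.MP_100fe7_nt.Defs2

/-!
The determinant of a parabolic element on the lower quotient of `ρ`.
-/

set_option linter.unusedSectionVars false

namespace Pool.Agent.MP100fe7

open Matrix

variable {E : Type} [Field E] [CharZero E] {R : Type} [CommRing R] [Algebra E R] {n k : ℕ} {w : ℤ}
  {κ : Type} [Fintype κ] [DecidableEq κ] (ρ : PolyRep E n κ k) (M : Datum R n w)

/-- the determinant of the block of the lower part -/
noncomputable def detLo {S : Type} [CommRing S] (X : Matrix κ κ S) : S :=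
  (X.submatrix (fun s : {s // lo ρ M s} => s.1) (fun s : {s // lo ρ M s} => s.1)).det

theorem kerCond_coord {m : ℕ} (ψ : Fin m ≃ {s // lo ρ M s}) :
    KerCond ρ M ((1 : Matrix κ κ E).submatrix (fun j => (ψ j).1) id) := by
  intro v
  constructor
  · intro h s hs
    have h1 := congrFun h (ψ.symm ⟨s, hs⟩)
    simp only [mulVec, dotProduct, submatrix_apply, id_eq, Matrix.one_apply,
      Equiv.apply_symm_apply, Pi.zero_apply] at h1
    rw [Finset.sum_eq_single s] at h1
    · simpa using h1
    · intro t _ ht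
      rw [if_neg (Ne.symm ht), zero_mul]
    · simp
  · intro h
    funext j
    simp only [mulVec, dotProduct, submatrix_apply, id_eq, Matrix.one_apply, Pi.zero_apply]
    apply Finset.sum_eq_zero
    intro s _
    by_cases hs : (ψ j).1 = s
    · rw [h s (by rw [← hs]; exact (ψ j).2), mul_zero]
    · rw [if_neg hs, zero_mul]

theorem det_quot_eq_detLo [Nontrivial R] {m : ℕ} {B : Matrix (Fin m) κ E} (hB : KerCond ρ M B)
    {B' : Matrix κ (Fin m) E} (e : B * B' = 1)
    (X : Matrix κ κ R) (hX : ∀ s t, ρ.hodgeIdx M s < ρ.hodgeIdx M t → X s t = 0) :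
    (B.map (algebraMap E R) * X * B'.map (algebraMap E R)).det = detLo ρ M X := by
  have hcoord : ∀ {m' : ℕ} (ψ : Fin m' ≃ {s // lo ρ M s}),
      ((1 : Matrix κ κ E).submatrix (fun j => (ψ j).1) id) *
        ((1 : Matrix κ κ E).submatrix id (fun j => (ψ j).1)) = 1 := by
    intro m' ψ
    rw [← Matrix.submatrix_mul _ _ _ _ _ Function.bijective_id, Matrix.one_mul]
    ext i j
    rw [submatrix_apply, Matrix.one_apply, Matrix.one_apply]
    by_cases h : i = j
    · simp [h]
    · rw [if_neg h, if_neg]
      intro h'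
      exact h (ψ.injective (Subtype.ext h'))
  let ψ₀ : Fin (Fintype.card {s // lo ρ M s}) ≃ {s // lo ρ M s} := (Fintype.equivFin _).symm
  have hm : m = Fintype.card {s // lo ρ M s} := by
    have hsz := size_eq ρ M hB (kerCond_coord ρ M ψ₀) e (hcoord ψ₀)
    have := Matrix.square_of_invertible _ _ hsz.2 hsz.1
    simpa using this
  subst hm
  rw [det_quot_eq ρ M hB (kerCond_coord ρ M ψ₀) e (hcoord ψ₀) X hX]
  have h1 : ((1 : Matrix κ κ E).submatrix (fun j => (ψ₀ j).1) id).map (algebraMap E R) * X *
      ((1 : Matrix κ κ E).submatrix id (fun j => (ψ₀ j).1)).map (algebraMap E R) =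
      (X.submatrix (fun s : {s // lo ρ M s} => s.1) (fun s : {s // lo ρ M s} => s.1)).submatrix
        ψ₀ ψ₀ := by
    have h2 : ((1 : Matrix κ κ E).submatrix (fun j => (ψ₀ j).1) id).map (algebraMap E R) =
        (1 : Matrix κ κ R).submatrix (fun j => (ψ₀ j).1) id := by
      ext i j
      simp [Matrix.one_apply]
    have h3 : ((1 : Matrix κ κ E).submatrix id (fun j => (ψ₀ j).1)).map (algebraMap E R) =
        (1 : Matrix κ κ R).submatrix id (fun j => (ψ₀ j).1) := by
      ext i j
      simp [Matrix.one_apply]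
    rw [h2, h3]
    have h4 : X = X.submatrix id id := by simp
    conv_lhs => rw [h4]
    rw [← Matrix.submatrix_mul _ _ _ _ _ Function.bijective_id, Matrix.one_mul,
      ← Matrix.submatrix_mul _ _ _ _ _ Function.bijective_id, Matrix.mul_one]
    rfl
  rw [h1, det_submatrix_equiv_self]
  rfl

theorem detLo_mul {S : Type} [CommRing S] (X Y : Matrix κ κ S)
    (hX : ∀ s t, ρ.hodgeIdx M s < ρ.hodgeIdx M t → X s t = 0) :
    detLo ρ M (X * Y) = detLo ρ M X * detLo ρ M Y := by
  unfold detLo
  rw [← det_mul]
  congr 1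
  ext s t
  rw [submatrix_apply, Matrix.mul_apply, Matrix.mul_apply]
  rw [← Fintype.sum_subtype_add_sum_subtype (lo ρ M)]
  rw [add_eq_left.mpr]
  · rfl
  · apply Finset.sum_eq_zero
    intro u _
    have h1 := s.2
    have h2 := u.2
    unfold lo at h1 h2
    rw [hX s.1 u.1 (by omega), zero_mul]

theorem detLo_map {S S' : Type} [CommRing S] [Algebra E S] [CommRing S'] [Algebra E S']
    (φ : S →ₐ[E] S') (X : Matrix κ κ S) : detLo ρ M (X.map φ) = φ (detLo ρ M X) := by
  unfold detLo
  rw [AlgHom.map_det]
  rfl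

theorem detLo_one {S : Type} [CommRing S] : detLo ρ M (1 : Matrix κ κ S) = 1 := by
  unfold detLo
  have : ((1 : Matrix κ κ S).submatrix (fun s : {s // lo ρ M s} => s.1)
      (fun s : {s // lo ρ M s} => s.1)) = 1 := by
    ext s t
    rw [submatrix_apply, Matrix.one_apply, Matrix.one_apply]
    by_cases h : s = t
    · simp [h]
    · rw [if_neg h, if_neg (fun h' => h (Subtype.ext h'))]
  rw [this, det_one]

/-- matrices with the same diagonal blocks -/
theorem detLo_congr {S : Type} [CommRing S] (X Y : Matrix κ κ S)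
    (hX : ∀ s t, ρ.hodgeIdx M s < ρ.hodgeIdx M t → X s t = 0)
    (hY : ∀ s t, ρ.hodgeIdx M s < ρ.hodgeIdx M t → Y s t = 0)
    (hXY : ∀ s t, ρ.hodgeIdx M s = ρ.hodgeIdx M t → X s t = Y s t) :
    detLo ρ M X = detLo ρ M Y := by
  unfold detLo
  have bt : ∀ Z : Matrix κ κ S, (∀ s t, ρ.hodgeIdx M s < ρ.hodgeIdx M t → Z s t = 0) →
      BlockTriangular (Z.submatrix (fun s : {s // lo ρ M s} => s.1)
        (fun s : {s // lo ρ M s} => s.1)) (fun s => - ρ.hodgeIdx M s.1) := by
    intro Z hZ s t hst
    simp only [neg_lt_neg_iff] at hst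
    exact hZ s.1 t.1 hst
  rw [(bt X hX).det, (bt Y hY).det]
  apply Finset.prod_congr rfl
  intro a _
  congr 1
  ext s t
  simp only [toSquareBlock_def, of_apply, submatrix_apply]
  apply hXY
  have h1 := s.2
  have h2 := t.2
  omega

/-- On the blocks of equal Hodge index, `ρ(b)` only depends on the diagonal blocks of `b`. -/
theorem ev_diagBlocks_nat (m : Idx n → ℕ) (b b' : Matrix (Idx n) (Idx n) R)
    (hb : ∀ i j, m i < m j → b i j = 0)
    (hb' : ∀ i j, b' i j = if m i = m j then b i j else 0) (s t : κ)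
    (hst : ∑ j, m j * ρ.wt s j = ∑ j, m j * ρ.wt t j) : ρ.ev R b s t = ρ.ev R b' s t := by
  let φ : R →ₐ[E] Polynomial R := IsScalarTower.toAlgHom E R (Polynomial R)
  have hφ : ∀ r, φ r = Polynomial.C r := fun r => rfl
  let bX : Matrix (Idx n) (Idx n) (Polynomial R) :=
    Matrix.of fun i j => Polynomial.C (b i j) * Polynomial.X ^ (m i - m j)
  have h1 : (diagonal fun j => (Polynomial.X : Polynomial R) ^ m j) * b.map φ =
      bX * (diagonal fun j => (Polynomial.X : Polynomial R) ^ m j) := by
    ext1 i j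
    rw [Matrix.diagonal_mul, Matrix.mul_diagonal, Matrix.map_apply, hφ]
    change _ = Polynomial.C (b i j) * Polynomial.X ^ (m i - m j) * _
    by_cases hij : m i < m j
    · rw [hb i j hij]
      simp
    · rw [mul_assoc, ← pow_add, Nat.sub_add_cancel (by omega), mul_comm]
  have h2 := congrArg (ρ.ev (Polynomial R)) h1
  rw [ρ.ev_mul, ρ.ev_mul, ← ρ.ev_map, ρ.ev_diagonal] at h2
  have h3 := congrFun (congrFun h2 s) t
  rw [Matrix.diagonal_mul, Matrix.mul_diagonal, Matrix.map_apply, hφ] at h3
  simp only [← pow_mul, Finset.prod_pow_eq_pow_sum] at h3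
  rw [hst, mul_comm] at h3
  have h4 : Polynomial.C (ρ.ev R b s t) = ρ.ev (Polynomial R) bX s t :=
    (Polynomial.isRegular_X_pow (R := R) _).right h3
  let φ₀ : Polynomial R →ₐ[E] R := (Polynomial.aeval (0 : R)).restrictScalars E
  have hφ₀ : ∀ p, φ₀ p = Polynomial.eval 0 p := by
    intro p
    exact congrFun (Polynomial.coe_aeval_eq_eval (0 : R)) p
  have h5 := congrArg φ₀ h4
  rw [hφ₀, Polynomial.eval_C] at h5
  have h6 := congrFun (congrFun (ρ.ev_map φ₀ bX) s) t
  rw [Matrix.map_apply] at h6
  rw [h5, h6]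
  congr 1
  ext1 i j
  rw [Matrix.map_apply, hφ₀, hb']
  change Polynomial.eval 0 (Polynomial.C (b i j) * Polynomial.X ^ (m i - m j)) = _
  rw [Polynomial.eval_mul, Polynomial.eval_C, Polynomial.eval_pow, Polynomial.eval_X]
  rcases lt_trichotomy (m i) (m j) with h | h | h
  · rw [hb i j h, zero_mul, if_neg (by omega)]
  · rw [if_pos h, h, Nat.sub_self, pow_zero, mul_one]
  · rw [if_neg (by omega), zero_pow (by omega), mul_zero]

/-- On the blocks of equal Hodge index, `ρ(b)` only depends on the diagonal blocks of `b`. -/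
theorem ev_diagBlocks (idx : Idx n → ℤ) (b b' : Matrix (Idx n) (Idx n) R)
    (hb : ∀ i j, idx i < idx j → b i j = 0)
    (hb' : ∀ i j, b' i j = if idx i = idx j then b i j else 0) (s t : κ)
    (hst : ∑ j, (ρ.wt s j : ℤ) * idx j = ∑ j, (ρ.wt t j : ℤ) * idx j) :
    ρ.ev R b s t = ρ.ev R b' s t := by
  obtain ⟨c, hc⟩ : ∃ c : ℤ, ∀ j, 0 ≤ idx j + c := by
    refine ⟨∑ j, |idx j|, fun j => ?_⟩
    have h1 : |idx j| ≤ ∑ j, |idx j| :=
      Finset.single_le_sum (f := fun j => |idx j|) (fun i _ => abs_nonneg _) (Finset.mem_univ j)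
    have h2 := neg_abs_le (idx j)
    linarith
  let m : Idx n → ℕ := fun j => (idx j + c).toNat
  have hm : ∀ j, (m j : ℤ) = idx j + c := fun j => Int.toNat_of_nonneg (hc j)
  have hH : ∀ u : κ, ((∑ j, m j * ρ.wt u j : ℕ) : ℤ) = (∑ j, (ρ.wt u j : ℤ) * idx j) + k * c := by
    intro u
    push_cast
    simp only [hm]
    have h1 : (k : ℤ) = ∑ j, (ρ.wt u j : ℤ) := by
      exact_mod_cast (ρ.deg u).symm
    rw [h1, Finset.sum_mul, ← Finset.sum_add_distrib]
    apply Finset.sum_congr rfl
    intro j _
    ring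
  apply ev_diagBlocks_nat ρ m b b'
  · intro i j hij
    apply hb
    have h1 := hm i
    have h2 := hm j
    omega
  · intro i j
    rw [hb']
    have h1 := hm i
    have h2 := hm j
    by_cases h : idx i = idx j
    · rw [if_pos h, if_pos (by omega)]
    · rw [if_neg h, if_neg (by omega)]
  · have h1 := hH s
    have h2 := hH t
    omega

section emb

variable (a : ℤ)

/-- a matrix on the block `a`, extended by the identity -/
def emb' {S : Type} [CommRing S] (A : Matrix (Block M a) (Block M a) S) :
    Matrix (Fin n) (Fin n) S :=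
  (fromBlocks A 0 0 1).submatrix (Equiv.sumCompl fun i : Fin n => w - M.p i = a).symm
    (Equiv.sumCompl fun i : Fin n => w - M.p i = a).symm

/-- the same in the second half -/
def emb {S : Type} [CommRing S] (A : Matrix (Block M a) (Block M a) S) :
    Matrix (Idx n) (Idx n) S :=
  fromBlocks 1 0 0 (emb' M a A)

theorem emb'_mul {S : Type} [CommRing S] (A B : Matrix (Block M a) (Block M a) S) :
    emb' M a (A * B) = emb' M a A * emb' M a B := by
  unfold emb'
  rw [Matrix.submatrix_mul_equiv, fromBlocks_multiply]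
  simp

theorem emb'_one {S : Type} [CommRing S] : emb' M a (1 : Matrix (Block M a) (Block M a) S) = 1 := by
  unfold emb'
  rw [fromBlocks_one, submatrix_one_equiv]

theorem emb_mul {S : Type} [CommRing S] (A B : Matrix (Block M a) (Block M a) S) :
    emb M a (A * B) = emb M a A * emb M a B := by
  unfold emb
  rw [fromBlocks_multiply, emb'_mul]
  simp

theorem emb_one {S : Type} [CommRing S] : emb M a (1 : Matrix (Block M a) (Block M a) S) = 1 := by
  unfold emb
  rw [emb'_one, fromBlocks_one]

theorem emb'_apply {S : Type} [CommRing S] (A : Matrix (Block M a) (Block M a) S) (i j : Fin n) :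
    emb' M a A i j = if hi : w - M.p i = a then (if hj : w - M.p j = a then A ⟨i, hi⟩ ⟨j, hj⟩ else 0)
      else if i = j then 1 else 0 := by
  unfold emb'
  rw [submatrix_apply]
  by_cases hi : w - M.p i = a
  · rw [dif_pos hi, Equiv.sumCompl_symm_apply_of_pos (p := fun i : Fin n => w - M.p i = a) hi]
    by_cases hj : w - M.p j = a
    · rw [dif_pos hj, Equiv.sumCompl_symm_apply_of_pos (p := fun i : Fin n => w - M.p i = a) hj]
      rfl
    · rw [dif_neg hj, Equiv.sumCompl_symm_apply_of_neg (p := fun i : Fin n => w - M.p i = a) hj]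
      rfl
  · rw [dif_neg hi, Equiv.sumCompl_symm_apply_of_neg (p := fun i : Fin n => w - M.p i = a) hi]
    by_cases hj : w - M.p j = a
    · rw [Equiv.sumCompl_symm_apply_of_pos (p := fun i : Fin n => w - M.p i = a) hj]
      rw [if_neg]
      · rfl
      · rintro rfl
        exact hi hj
    · rw [Equiv.sumCompl_symm_apply_of_neg (p := fun i : Fin n => w - M.p i = a) hj]
      rw [fromBlocks_apply₂₂, Matrix.one_apply]
      by_cases hij : i = j
      · subst hij
        simp
      · rw [if_neg hij, if_neg]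
        intro h
        exact hij (congrArg Subtype.val h)

theorem emb_map {S S' : Type} [CommRing S] [Algebra E S] [CommRing S'] [Algebra E S']
    (φ : S →ₐ[E] S') (A : Matrix (Block M a) (Block M a) S) :
    (emb M a A).map φ = emb M a (A.map φ) := by
  unfold emb
  rw [fromBlocks_map]
  congr 1
  · exact Matrix.map_one _ (map_zero _) (map_one _)
  · ext i j
    simp
  · ext i j
    simp
  · ext i j
    rw [Matrix.map_apply, emb'_apply, emb'_apply]
    by_cases hi : w - M.p i = a
    · by_cases hj : w - M.p j = a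
      · simp [hi, hj]
      · simp [hi, hj]
    · by_cases hij : i = j
      · subst hij
        simp [hi]
      · simp [hi, hij]

theorem emb_levi {S : Type} [CommRing S] (A : Matrix (Block M a) (Block M a) S) (i j : Idx n)
    (hij : M.hodgeIdx i ≠ M.hodgeIdx j) : emb M a A i j = 0 := by
  unfold emb
  rcases i with i | i <;> rcases j with j | j
  · rw [fromBlocks_apply₁₁, Matrix.one_apply_ne]
    rintro rfl
    exact hij rfl
  · rfl
  · rfl
  · rw [fromBlocks_apply₂₂, emb'_apply]
    by_cases hi : w - M.p i = a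
    · rw [dif_pos hi, dif_neg]
      intro hj
      apply hij
      simp only [Datum.hodgeIdx, Sum.elim_inr]
      rw [hi, hj]
    · rw [dif_neg hi, if_neg]
      rintro rfl
      exact hij rfl

theorem ev_emb_levi {S : Type} [CommRing S] [Algebra E S]
    (A : Matrix (Block M a) (Block M a) S) (s t : κ)
    (hst : ρ.hodgeIdx M s < ρ.hodgeIdx M t) : ρ.ev S (emb M a A) s t = 0 := by
  apply ρ.ev_parabolic M.hodgeIdx _ _ s t hst
  intro i j hij
  exact emb_levi M a A i j (ne_of_lt hij)

/-- the action of the block `a` on the lower quotient -/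
noncomputable def famB : MulFam E (Block M a) where
  D := fun S _ _ A => detLo ρ M (ρ.ev S (emb M a A))
  nat := by
    intro S S' _ _ _ _ φ A
    rw [← detLo_map, ρ.ev_map, emb_map]
  mul := by
    intro S _ _ A B
    rw [emb_mul, ρ.ev_mul, detLo_mul ρ M _ _ (ev_emb_levi ρ M a A)]
  one := by
    intro S _ _
    rw [emb_one, ρ.ev_one, detLo_one]

/-- the degree of the basis vector `s` in the block `a` -/
def degB (s : κ) : ℕ := ∑ i : Block M a, ρ.wt s (Sum.inr i.1)

theorem detLo_emb : ∃ e : ℕ, (∀ (S : Type) [CommRing S] [Algebra E S]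
    (A : Matrix (Block M a) (Block M a) S), detLo ρ M (ρ.ev S (emb M a A)) = A.det ^ e) ∧
    Fintype.card (Block M a) * e = ∑ s : {s // lo ρ M s}, degB ρ M a s.1 := by
  obtain ⟨e, he⟩ := (famB ρ M a).eq_det_pow
  refine ⟨e, he, ?_⟩
  have h1 := he (Polynomial E) ((Polynomial.X : Polynomial E) • 1)
  change detLo ρ M (ρ.ev (Polynomial E) (emb M a ((Polynomial.X : Polynomial E) •
    (1 : Matrix (Block M a) (Block M a) (Polynomial E))))) = _ at h1
  have h2 : emb M a ((Polynomial.X : Polynomial E) •
      (1 : Matrix (Block M a) (Block M a) (Polynomial E))) =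
      diagonal (Sum.elim (fun _ => 1) (fun i => if w - M.p i = a then Polynomial.X else 1)) := by
    unfold emb
    rw [← fromBlocks_diagonal]
    congr 1
    ext1 i j
    rw [emb'_apply, diagonal_apply]
    by_cases hi : w - M.p i = a
    · rw [dif_pos hi]
      by_cases hij : i = j
      · subst hij
        rw [dif_pos hi, if_pos rfl, if_pos hi]
        simp
      · rw [if_neg hij]
        by_cases hj : w - M.p j = a
        · rw [dif_pos hj, Matrix.smul_apply, Matrix.one_apply_ne, smul_zero]
          intro h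
          exact hij (congrArg Subtype.val h)
        · rw [dif_neg hj]
    · rw [dif_neg hi]
      by_cases hij : i = j
      · subst hij
        rw [if_pos rfl, if_pos rfl, if_neg hi]
      · rw [if_neg hij, if_neg hij]
  rw [h2, ρ.ev_diagonal, det_smul, det_one, mul_one, ← pow_mul] at h1
  have h3 : ∀ s, ∏ j, (Sum.elim (fun _ => (1 : Polynomial E))
      (fun i : Fin n => if w - M.p i = a then Polynomial.X else 1) j) ^ ρ.wt s j =
      Polynomial.X ^ degB ρ M a s := by
    intro s
    rw [Fintype.prod_sum_type]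
    simp only [Sum.elim_inl, one_pow, Finset.prod_const_one, one_mul, Sum.elim_inr]
    unfold degB
    rw [← Finset.prod_pow_eq_pow_sum, ← Fintype.prod_subtype_mul_prod_subtype
      (fun i : Fin n => w - M.p i = a)]
    have e1 : ∀ i : {i : Fin n // w - M.p i = a},
        (if w - M.p i.1 = a then (Polynomial.X : Polynomial E) else 1) ^ ρ.wt s (Sum.inr i.1) =
        Polynomial.X ^ ρ.wt s (Sum.inr i.1) := by
      intro i
      rw [if_pos i.2]
    have e2 : ∀ i : {i : Fin n // ¬ w - M.p i = a},
        (if w - M.p i.1 = a then (Polynomial.X : Polynomial E) else 1) ^ ρ.wt s (Sum.inr i.1) =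
        1 := by
      intro i
      rw [if_neg i.2, one_pow]
    rw [Finset.prod_congr rfl (fun i _ => e1 i), Finset.prod_congr rfl (fun i _ => e2 i)]
    simp
  simp only [h3] at h1
  have h4 : detLo ρ M (diagonal fun s => (Polynomial.X : Polynomial E) ^ degB ρ M a s) =
      Polynomial.X ^ (∑ s : {s // lo ρ M s}, degB ρ M a s.1) := by
    unfold detLo
    have : (diagonal fun s => (Polynomial.X : Polynomial E) ^ degB ρ M a s).submatrix
        (fun s : {s // lo ρ M s} => s.1) (fun s : {s // lo ρ M s} => s.1) =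
        diagonal fun s : {s // lo ρ M s} => (Polynomial.X : Polynomial E) ^ degB ρ M a s.1 := by
      ext1 s t
      rw [submatrix_apply, diagonal_apply, diagonal_apply]
      by_cases h : s = t
      · simp [h]
      · rw [if_neg h, if_neg (fun h' => h (Subtype.ext h'))]
    rw [this, det_diagonal, Finset.prod_pow_eq_pow_sum]
  rw [h4] at h1
  have h5 := congrArg Polynomial.natDegree h1
  rw [Polynomial.natDegree_X_pow, Polynomial.natDegree_X_pow] at h5
  exact h5.symm

end emb

end Pool.Agent.MP100fe7
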