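import Pool.Agent.Lib.MP_100fe7_nt.Period

/-!
The ratio of the two periods of `ρ(M)`.
-/

set_option linter.unusedSectionVars false

namespace Pool.Agent.MP100fe7

open Matrix

variable {E : Type} [Field E] [CharZero E] {R : Type} [CommRing R] [Algebra E R] {n k : ℕ} {w : ℤ}
  {κ : Type} [Fintype κ] [DecidableEq κ] (ρ : PolyRep E n κ k) (M : Datum R n w)

/-- the kernel condition in the definition of a period -/
def KerCond {m : ℕ} (B : Matrix (Fin m) κ E) : Prop :=
  ∀ v : κ → E, B.mulVec v = 0 ↔ ∀ s, ρ.hodgeIdx M s < (k * w + 1) / 2 → v s = 0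

section quot

variable {m : ℕ} {B B₁ B₂ : Matrix (Fin m) κ E}

theorem col_eq_zero {m : ℕ} {B : Matrix (Fin m) κ E} (hB : KerCond ρ M B) (s : κ)
    (hs : (k * w + 1) / 2 ≤ ρ.hodgeIdx M s) (i : Fin m) : B i s = 0 := by
  have h1 := (hB (Pi.single s 1)).mpr (by
    intro t ht
    apply Pi.single_eq_of_ne
    rintro rfl
    omega)
  have h2 := congrFun h1 i
  simpa using h2

theorem row_eq_zero {m : ℕ} {B : Matrix (Fin m) κ E} {γ : Type} (hB : KerCond ρ M B)
    (N : Matrix κ γ E) (hN : B * N = 0) (s : κ) (hs : ρ.hodgeIdx M s < (k * w + 1) / 2) (t : γ) :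
    N s t = 0 := by
  have h1 : B.mulVec (fun u => N u t) = 0 := by
    funext i
    have h2 := congrFun (congrFun hN i) t
    simpa [Matrix.mul_apply, mulVec, dotProduct] using h2
  exact (hB _).mp h1 s hs

theorem quot_mul {m m' : ℕ} {B : Matrix (Fin m) κ E} {B₁ : Matrix (Fin m') κ E}
    {B' : Matrix κ (Fin m') E} (hB : KerCond ρ M B) (hB₁ : KerCond ρ M B₁) (hB' : B₁ * B' = 1)
    (X : Matrix κ κ R) (hX : ∀ s t, ρ.hodgeIdx M s < ρ.hodgeIdx M t → X s t = 0) :
    B.map (algebraMap E R) * X = (B.map (algebraMap E R) * X * B'.map (algebraMap E R)) *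
      B₁.map (algebraMap E R) := by
  have hN : B₁ * (1 - B' * B₁) = 0 := by
    rw [Matrix.mul_sub, Matrix.mul_one, ← Matrix.mul_assoc, hB', Matrix.one_mul, sub_self]
  have h0 : B.map (algebraMap E R) * X * (1 - B' * B₁).map (algebraMap E R) = 0 := by
    rw [Matrix.mul_assoc]
    ext i t
    rw [Matrix.mul_apply]
    apply Finset.sum_eq_zero
    intro s _
    by_cases hs : ρ.hodgeIdx M s < (k * w + 1) / 2
    · rw [Matrix.mul_apply]
      have : ∑ u, X s u * (1 - B' * B₁).map (algebraMap E R) u t = 0 := by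
        apply Finset.sum_eq_zero
        intro u _
        by_cases hu : ρ.hodgeIdx M u < (k * w + 1) / 2
        · rw [Matrix.map_apply, row_eq_zero ρ M hB₁ _ hN u hu t, map_zero, mul_zero]
        · rw [hX s u (by omega), zero_mul]
      rw [this, mul_zero]
    · rw [Matrix.map_apply, col_eq_zero ρ M hB s (by omega) i, map_zero, zero_mul]
  have h1 : (1 - B' * B₁).map (algebraMap E R) =
      1 - B'.map (algebraMap E R) * B₁.map (algebraMap E R) := by
    rw [Matrix.map_sub _ (by intro a b; exact map_sub _ a b), map_mul_map,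
      Matrix.map_one _ (map_zero _) (map_one _)]
  rw [h1, Matrix.mul_sub, Matrix.mul_one, ← Matrix.mul_assoc, sub_eq_zero] at h0
  exact h0

/-- all quotient projections have the same size -/
theorem size_eq {m₁ m₂ : ℕ} {B₁ : Matrix (Fin m₁) κ E} {B₂ : Matrix (Fin m₂) κ E}
    (h₁ : KerCond ρ M B₁) (h₂ : KerCond ρ M B₂) {B₁' : Matrix κ (Fin m₁) E}
    {B₂' : Matrix κ (Fin m₂) E} (e₁ : B₁ * B₁' = 1) (e₂ : B₂ * B₂' = 1) :
    (B₂ * B₁') * (B₁ * B₂') = 1 ∧ (B₁ * B₂') * (B₂ * B₁') = 1 := by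
  have aux : ∀ {m m' : ℕ} {B : Matrix (Fin m) κ E} {C : Matrix (Fin m') κ E}
      {C' : Matrix κ (Fin m') E}, KerCond ρ M B → KerCond ρ M C → C * C' = 1 →
      B * C' * C = B := by
    intro m m' B C C' hB hC hC'
    have hN : C * (1 - C' * C) = 0 := by
      rw [Matrix.mul_sub, Matrix.mul_one, ← Matrix.mul_assoc, hC', Matrix.one_mul, sub_self]
    have h0 : B * (1 - C' * C) = 0 := by
      ext i t
      rw [Matrix.mul_apply]
      apply Finset.sum_eq_zero
      intro s _
      by_cases hs : ρ.hodgeIdx M s < (k * w + 1) / 2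
      · rw [row_eq_zero ρ M hC _ hN s hs t, mul_zero]
      · rw [col_eq_zero ρ M hB s (by omega) i, zero_mul]
    rw [Matrix.mul_sub, Matrix.mul_one, sub_eq_zero, ← Matrix.mul_assoc] at h0
    exact h0.symm
  constructor
  · rw [← Matrix.mul_assoc, aux h₂ h₁ e₁, e₂]
  · rw [← Matrix.mul_assoc, aux h₁ h₂ e₂, e₁]

/-- the determinant on the quotient does not depend on the basis -/
theorem det_quot_eq {m : ℕ} {B₁ B₂ : Matrix (Fin m) κ E}
    (h₁ : KerCond ρ M B₁) (h₂ : KerCond ρ M B₂) {B₁' B₂' : Matrix κ (Fin m) E}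
    (e₁ : B₁ * B₁' = 1) (e₂ : B₂ * B₂' = 1)
    (X : Matrix κ κ R) (hX : ∀ s t, ρ.hodgeIdx M s < ρ.hodgeIdx M t → X s t = 0) :
    (B₁.map (algebraMap E R) * X * B₁'.map (algebraMap E R)).det =
      (B₂.map (algebraMap E R) * X * B₂'.map (algebraMap E R)).det := by
  have hs := (size_eq ρ M h₁ h₂ e₁ e₂).1
  have hs' : (B₂.map (algebraMap E R) * B₁'.map (algebraMap E R)) *
      (B₁.map (algebraMap E R) * B₂'.map (algebraMap E R)) = 1 := by
    rw [← map_mul_map, ← map_mul_map, ← map_mul_map, hs, Matrix.map_one _ (map_zero _) (map_one _)]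
  have q1 := quot_mul ρ M h₂ h₁ e₁ (1 : Matrix κ κ R) (by
    intro s t hst
    apply Matrix.one_apply_ne
    rintro rfl
    omega)
  rw [Matrix.mul_one] at q1
  have q2 := quot_mul ρ M h₁ h₁ e₁ X hX
  have h3 : B₂.map (algebraMap E R) * X * B₂'.map (algebraMap E R) =
      (B₂.map (algebraMap E R) * B₁'.map (algebraMap E R)) *
      (B₁.map (algebraMap E R) * X * B₁'.map (algebraMap E R)) *
      (B₁.map (algebraMap E R) * B₂'.map (algebraMap E R)) := by
    conv_lhs => rw [q1, Matrix.mul_assoc _ (B₁.map (algebraMap E R)) X, q2]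
    simp only [Matrix.mul_assoc]
  rw [h3, det_mul, det_mul]
  have h4 := congrArg Matrix.det hs'
  rw [det_mul, det_one] at h4
  linear_combination
    -(B₁.map (algebraMap E R) * X * B₁'.map (algebraMap E R)).det * h4

theorem isUnit_quot {m : ℕ} {B : Matrix (Fin m) κ E}
    (hB : KerCond ρ M B) {B' : Matrix κ (Fin m) E} (e : B * B' = 1)
    (X Y : Matrix κ κ R) (hX : ∀ s t, ρ.hodgeIdx M s < ρ.hodgeIdx M t → X s t = 0)
    (hXY : X * Y = 1) :
    IsUnit (B.map (algebraMap E R) * X * B'.map (algebraMap E R)).det := by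
  apply isUnit_det_of_right_inverse
    (B := B.map (algebraMap E R) * Y * B'.map (algebraMap E R))
  have q := quot_mul ρ M hB hB e X hX
  calc (B.map (algebraMap E R) * X * B'.map (algebraMap E R)) *
        (B.map (algebraMap E R) * Y * B'.map (algebraMap E R))
      = ((B.map (algebraMap E R) * X * B'.map (algebraMap E R)) * B.map (algebraMap E R)) *
          (Y * B'.map (algebraMap E R)) := by simp only [Matrix.mul_assoc]
    _ = B.map (algebraMap E R) * X * (Y * B'.map (algebraMap E R)) := by rw [← q]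
    _ = B.map (algebraMap E R) * (X * Y) * B'.map (algebraMap E R) := by
        simp only [Matrix.mul_assoc]
    _ = 1 := by
        rw [hXY, Matrix.mul_one, ← map_mul_map, e, Matrix.map_one _ (map_zero _) (map_one _)]

end quot

/-- vectors in the upper part which are eigenvectors of the exchange vanish -/
theorem eq_zero_of_swap (hmid : NoMiddle ρ M) {ε : E} (hε : ε * ε = 1) (y : κ → E)
    (hy : ∀ s, ρ.hodgeIdx M s < (k * w + 1) / 2 → y s = 0)
    (hs : (ρ.ev E (swapM E n)).mulVec y = ε • y) : y = 0 := by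
  by_contra hne
  obtain ⟨s, hs0⟩ := Function.ne_iff.mp hne
  have hε0 : ε ≠ 0 := by
    rintro rfl
    simp at hε
  have h1 : (ρ.ev E (swapM E n)).mulVec y s ≠ 0 := by
    rw [hs]
    simp only [Pi.smul_apply, smul_eq_mul]
    exact mul_ne_zero hε0 hs0
  simp only [mulVec, dotProduct] at h1
  obtain ⟨t, _, ht⟩ := Finset.exists_ne_zero_of_sum_ne_zero h1
  have ht1 : ρ.ev E (swapM E n) s t ≠ 0 := left_ne_zero_of_mul ht
  have ht2 : y t ≠ 0 := right_ne_zero_of_mul ht
  have h2 := ρ.ev_swap M.hodgeIdx w (by intro i; simp [Datum.hodgeIdx]) s t ht1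
  have h3 : ¬ ρ.hodgeIdx M s < (k * w + 1) / 2 := fun h => hs0 (hy s h)
  have h4 : ¬ ρ.hodgeIdx M t < (k * w + 1) / 2 := fun h => ht2 (hy t h)
  have h5 := hmid s
  unfold PolyRep.hodgeIdx at h3 h4 h5
  omega

theorem det_split_ne_zero (hmid : NoMiddle ρ M) {ε : E} (hε : ε * ε = 1) {m : ℕ}
    {A : Matrix κ (Fin m) E} {A' : Matrix (Fin m) κ E} (hl : A' * A = 1)
    (hr : A * A' = proj ρ ε) {B : Matrix (Fin m) κ E} (hB : KerCond ρ M B) :
    (B * ρ.ev E (gz E n) * A).det ≠ 0 := by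
  intro hdet
  obtain ⟨x, hx0, hx⟩ := Matrix.exists_mulVec_eq_zero_iff.mpr hdet
  let y : κ → E := (ρ.ev E (gz E n)).mulVec (A.mulVec x)
  have hBy : B.mulVec y = 0 := by
    simp only [y]
    rw [mulVec_mulVec, mulVec_mulVec]
    exact hx
  have hFA := frob_mul_A ρ hε hl hr
  have hswap : (ρ.ev E (swapM E n)).mulVec y = ε • y := by
    simp only [y]
    rw [mulVec_mulVec, ← ρ.ev_mul, swapM_mul_gz, ρ.ev_mul, ← mulVec_mulVec, mulVec_mulVec x, hFA,
      smul_mulVec, mulVec_smul]
  have hy0 := eq_zero_of_swap ρ M hmid hε y ((hB y).mp hBy) hswap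
  -- `ρ(g)` is invertible
  have h2 : IsUnit (2 : E) := (two_ne_zero).isUnit
  have hg := isUnit_det_gz (n := n) h2
  have h3 : (ρ.ev E (gz E n)⁻¹) * ρ.ev E (gz E n) = 1 :=
    ρ.ev_inv_mul (nonsing_inv_mul _ hg)
  have hAx : A.mulVec x = 0 := by
    have h4 : (ρ.ev E (gz E n)⁻¹).mulVec y = A.mulVec x := by
      simp only [y]
      rw [mulVec_mulVec, h3, one_mulVec]
    rw [← h4, hy0, mulVec_zero]
  apply hx0
  have h5 : A'.mulVec (A.mulVec x) = x := by
    rw [mulVec_mulVec, hl, one_mulVec]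
  rw [← h5, hAx, mulVec_zero]

/-- the factorisation of a period -/
theorem period_factor {ε : E} (hε : ε * ε = 1) {m : ℕ}
    {A : Matrix κ (Fin m) E} {A' : Matrix (Fin m) κ E} (hl : A' * A = 1)
    (hr : A * A' = proj ρ ε) {B : Matrix (Fin m) κ E} (hB : KerCond ρ M B)
    {B' : Matrix κ (Fin m) E} (e : B * B' = 1)
    {b : Matrix (Idx n) (Idx n) R} {h₁ h₂ : Matrix (Fin n) (Fin n) R}
    (hb : ∀ i j, M.hodgeIdx i < M.hodgeIdx j → b i j = 0)
    (hM : M.comp = b * gz R n * fromBlocks h₁ 0 0 h₂) :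
    (B.map (algebraMap E R) * ρ.ev R M.comp * A.map (algebraMap E R)).det =
      (B.map (algebraMap E R) * ρ.ev R b * B'.map (algebraMap E R)).det *
      algebraMap E R (B * ρ.ev E (gz E n) * A).det *
      (eta ρ A A' R (fromBlocks h₁ 0 0 h₂)).det := by
  have hX : ∀ s t, ρ.hodgeIdx M s < ρ.hodgeIdx M t → ρ.ev R b s t = 0 := by
    intro s t hst
    exact ρ.ev_parabolic M.hodgeIdx b hb s t hst
  have q := quot_mul ρ M hB hB e (ρ.ev R b) hX
  have hA := ev_mul_A ρ hε hl hr (frob_comm_fromBlocks ρ hε hl hr h₁ h₂)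
  have hg : ρ.ev R (gz R n) = (ρ.ev E (gz E n)).map (algebraMap E R) := by
    have h1 := ρ.ev_map (Algebra.ofId E R) (gz E n)
    have h2 : (gz E n).map (Algebra.ofId E R) = gz R n := by
      unfold gz
      rw [fromBlocks_map]
      congr 1
      · exact Matrix.map_one _ (map_zero _) (map_one _)
      · exact Matrix.map_one _ (map_zero _) (map_one _)
      · exact Matrix.map_one _ (map_zero _) (map_one _)
      · ext i j
        simp [Matrix.one_apply]
    rw [h2] at h1
    exact h1.symm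
  rw [hM, ρ.ev_mul, ρ.ev_mul]
  have h3 : B.map (algebraMap E R) * (ρ.ev R b * ρ.ev R (gz R n) *
      ρ.ev R (fromBlocks h₁ 0 0 h₂)) * A.map (algebraMap E R) =
      (B.map (algebraMap E R) * ρ.ev R b * B'.map (algebraMap E R)) *
      ((B * ρ.ev E (gz E n) * A).map (algebraMap E R)) *
      (eta ρ A A' R (fromBlocks h₁ 0 0 h₂)) := by
    rw [map_mul_map, map_mul_map, ← hg]
    calc _ = (B.map (algebraMap E R) * ρ.ev R b) * ρ.ev R (gz R n) *
          (ρ.ev R (fromBlocks h₁ 0 0 h₂) * A.map (algebraMap E R)) := by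
            simp only [Matrix.mul_assoc]
      _ = _ := by
            conv_lhs => rw [hA, q]
            simp only [Matrix.mul_assoc]
  rw [h3, det_mul, det_mul]
  congr 2
  exact (RingHom.map_det (algebraMap E R) _).symm

end Pool.Agent.MP100fe7
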