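import Mathlib

/-!
Multiplicative natural functions on square matrices over algebras over a field of characteristic
zero are powers of the determinant.
-/

set_option linter.unusedSectionVars false

namespace Pool.Agent.MP100fe7

open Matrix

/-- A polynomial over an infinite field which is multiplicative and takes the value `1` at `1` is a
monomial `X ^ a`. -/
theorem eq_X_pow_of_mul {E : Type} [Field E] [Infinite E] (q : Polynomial E)
    (h1 : q.eval 1 = 1) (hm : ∀ s t, q.eval (s * t) = q.eval s * q.eval t) :
    ∃ a : ℕ, q = Polynomial.X ^ a := by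
  have hq : q ≠ 0 := by
    rintro rfl
    simp at h1
  refine ⟨q.natDegree, ?_⟩
  have key : ∀ s : E, q.comp (Polynomial.C s * Polynomial.X) = Polynomial.C (q.eval s) * q := by
    intro s
    apply Polynomial.funext
    intro t
    simp [hm]
  have h2 : ∀ s : E, q.eval s = s ^ q.natDegree := by
    intro s
    have h3 := congrArg (fun f => Polynomial.coeff f q.natDegree) (key s)
    simp only [Polynomial.coeff_C_mul] at h3
    rw [Polynomial.comp_C_mul_X_coeff] at h3
    have h4 : q.coeff q.natDegree ≠ 0 := by
      simpa using hq
    have h5 : q.coeff q.natDegree * (s ^ q.natDegree) = q.coeff q.natDegree * q.eval s := by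
      rw [h3, mul_comm]
    exact (mul_left_cancel₀ h4 h5).symm
  apply Polynomial.funext
  intro s
  simp [h2 s]

section

variable {E : Type} [Field E] [CharZero E] {α : Type} [Fintype α] [DecidableEq α]

/-- A family of functions on square matrices over all `E`-algebras, natural, multiplicative and
unital. -/
structure MulFam (E : Type) [Field E] (α : Type) [Fintype α] [DecidableEq α] where
  /-- the value -/
  D : ∀ (S : Type) [CommRing S] [Algebra E S], Matrix α α S → S
  nat : ∀ (S S' : Type) [CommRing S] [Algebra E S] [CommRing S'] [Algebra E S']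
    (φ : S →ₐ[E] S') (A : Matrix α α S), D S' (A.map φ) = φ (D S A)
  mul : ∀ (S : Type) [CommRing S] [Algebra E S] (A B : Matrix α α S),
    D S (A * B) = D S A * D S B
  one : ∀ (S : Type) [CommRing S] [Algebra E S], D S 1 = 1

namespace MulFam

variable (F : MulFam E α)

theorem isUnit_of_mul_eq_one {S : Type} [CommRing S] [Algebra E S] {A B : Matrix α α S}
    (h : A * B = 1) : IsUnit (F.D S A) := by
  have h1 : F.D S A * F.D S B = 1 := by rw [← F.mul, h, F.one]
  exact IsUnit.of_mul_eq_one _ h1

theorem transvection {S : Type} [CommRing S] [Algebra E S] (i j : α) (hij : i ≠ j) (c : S) :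
    F.D S (Matrix.transvection i j c) = 1 := by
  have hu : IsUnit (F.D S (Matrix.transvection i j c)) := by
    apply F.isUnit_of_mul_eq_one (B := Matrix.transvection i j (-c))
    rw [transvection_mul_transvection_same i j hij]
    simp
  have h1 : F.D S (Matrix.transvection i j (c + c)) =
      F.D S (Matrix.transvection i j c) * F.D S (Matrix.transvection i j c) := by
    rw [← F.mul, transvection_mul_transvection_same i j hij]
  -- conjugation
  let d : Matrix α α S := diagonal (fun k => if k = i then 2 else 1)
  let d' : Matrix α α S := diagonal (fun k => if k = i then algebraMap E S (2⁻¹) else 1)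
  have hdd : d * d' = 1 := by
    simp only [d, d', diagonal_mul_diagonal]
    rw [← diagonal_one]
    congr 1
    funext k
    by_cases hk : k = i
    · simp only [hk, if_true]
      rw [← map_ofNat (algebraMap E S) 2, ← map_mul]
      simp
    · simp [hk]
  have hdu : IsUnit (F.D S d) := F.isUnit_of_mul_eq_one hdd
  have hcomm : d * Matrix.transvection i j c = Matrix.transvection i j (c + c) * d := by
    ext a b
    simp only [d, Matrix.diagonal_mul, Matrix.mul_diagonal, Matrix.transvection, Matrix.add_apply,
      Matrix.one_apply, Matrix.single_apply]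
    by_cases ha : a = i
    · subst ha
      by_cases hb : b = a
      · subst hb
        simp [hij.symm]
      · have hab : ¬ a = b := fun h => hb h.symm
        simp only [if_true, hab, if_false, zero_add, hb, true_and]
        by_cases hj : j = b
        · simp [hj]
          ring
        · simp [hj]
    · simp [ha, Ne.symm (Ne.intro ha)]
      by_cases hb : b = i
      · subst hb
        simp [ha]
      · simp [hb]
  have h2 : F.D S d * F.D S (Matrix.transvection i j c) =
      F.D S d * F.D S (Matrix.transvection i j (c + c)) := by
    rw [← F.mul, hcomm, F.mul, mul_comm]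
  have h3 := hdu.mul_left_cancel h2
  rw [h1] at h3
  have h4 : F.D S (Matrix.transvection i j c) * 1 =
      F.D S (Matrix.transvection i j c) * F.D S (Matrix.transvection i j c) := by
    rw [mul_one]
    exact h3
  exact (hu.mul_left_cancel h4).symm

/-- the matrix with `x` in position `(i,i)` and `1` elsewhere on the diagonal -/
def one_at {S : Type} [CommRing S] (i : α) (x : S) : Matrix α α S :=
  diagonal (Function.update 1 i x)

theorem exists_exp (i : α) : ∃ a : ℕ, ∀ (S : Type) [CommRing S] [Algebra E S] (x : S),
    F.D S (one_at i x) = x ^ a := by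
  let q : Polynomial E := F.D (Polynomial E) (one_at i Polynomial.X)
  have hmap : ∀ (S : Type) [CommRing S] [Algebra E S] (x : S),
      F.D S (one_at i x) = Polynomial.aeval x q := by
    intro S _ _ x
    rw [← F.nat (Polynomial E) S (Polynomial.aeval x) (one_at i Polynomial.X)]
    congr 1
    ext a b
    simp only [one_at, Matrix.map_apply, diagonal_apply]
    by_cases hab : a = b
    · subst hab
      by_cases ha : a = i
      · subst ha
        simp
      · simp [Function.update_of_ne ha]
    · simp [hab]
  have h1 : q.eval 1 = 1 := by
    have h2 := hmap E 1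
    rw [Polynomial.coe_aeval_eq_eval] at h2
    rw [← h2]
    have : (one_at i (1 : E) : Matrix α α E) = 1 := by
      simp only [one_at]
      rw [← diagonal_one]
      congr 1
      funext k
      by_cases hk : k = i
      · subst hk
        simp
      · simp [Function.update_of_ne hk]
    rw [this, F.one]
  have hm : ∀ s t, q.eval (s * t) = q.eval s * q.eval t := by
    intro s t
    have e1 := hmap E (s * t)
    have e2 := hmap E s
    have e3 := hmap E t
    rw [Polynomial.coe_aeval_eq_eval] at e1 e2 e3
    rw [← e1, ← e2, ← e3, ← F.mul]
    congr 1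
    simp only [one_at, diagonal_mul_diagonal]
    congr 1
    funext k
    by_cases hk : k = i
    · subst hk
      simp
    · simp [Function.update_of_ne hk]
  obtain ⟨a, ha⟩ := eq_X_pow_of_mul q h1 hm
  refine ⟨a, ?_⟩
  intro S _ _ x
  rw [hmap, ha]
  simp

/-- the common exponent -/
theorem exists_exp_all : ∃ a : ℕ, ∀ (i : α) (S : Type) [CommRing S] [Algebra E S] (x : S),
    F.D S (one_at i x) = x ^ a := by
  rcases isEmpty_or_nonempty α with hα | ⟨⟨i₀⟩⟩
  · exact ⟨0, fun i => (hα.false i).elim⟩
  obtain ⟨a, ha⟩ := F.exists_exp i₀
  refine ⟨a, ?_⟩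
  intro i S _ _ x
  rw [← ha S x]
  let σ : Equiv.Perm α := Equiv.swap i i₀
  let P : Matrix α α S := (1 : Matrix α α S).submatrix σ id
  let Q : Matrix α α S := (1 : Matrix α α S).submatrix id σ
  have hQP : Q * P = 1 := by
    simp only [P, Q]
    rw [← Matrix.submatrix_mul _ _ _ _ _ σ.bijective]
    simp
  have hconj : P * one_at i x * Q = one_at i₀ x := by
    have h1 : P * one_at i x * Q = (one_at i x : Matrix α α S).submatrix σ σ := by
      have h2 : (one_at i x : Matrix α α S) = 1 * one_at i x * 1 := by simp
      conv_rhs => rw [h2]
      rw [Matrix.submatrix_mul _ _ σ id σ Function.bijective_id,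
        Matrix.submatrix_mul _ _ σ id id Function.bijective_id, Matrix.submatrix_id_id]
    rw [h1]
    ext a b
    simp only [one_at, submatrix_apply, diagonal_apply]
    by_cases hab : a = b
    · subst hab
      simp only [if_true]
      by_cases h : a = i₀
      · subst h
        have : σ a = i := by simp [σ]
        rw [this]
        simp
      · rw [Function.update_of_ne h, Function.update_of_ne]
        · simp
        intro h'
        apply h
        have h3 : σ (σ a) = σ i := by rw [h']
        rw [show σ (σ a) = a by simp [σ]] at h3
        rw [h3]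
        simp [σ]
    · simp [hab]
  rw [← hconj, F.mul, F.mul, mul_comm (F.D S P), mul_assoc, mul_comm (F.D S P), ← F.mul, hQP,
    F.one, mul_one]

theorem diagonal_prod {S : Type} [CommRing S] (x : α → S) (s : Finset α) :
    diagonal (fun i => if i ∈ s then x i else 1) =
      diagonal (fun i => ∏ j ∈ s, (Function.update (1 : α → S) j (x j)) i) := by
  congr 1
  funext i
  by_cases hi : i ∈ s
  · rw [Finset.prod_eq_single i]
    · simp [hi]
    · intro j _ hj
      rw [Function.update_of_ne hj.symm]
      rfl
    · intro h
      exact absurd hi h
  · rw [if_neg hi]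
    symm
    apply Finset.prod_eq_one
    intro j hj
    rw [Function.update_of_ne]
    · rfl
    · rintro rfl
      exact hi hj

theorem D_diagonal_prod {S : Type} [CommRing S] [Algebra E S] (x : α → S) (a : ℕ)
    (ha : ∀ (i : α) (x : S), F.D S (one_at i x) = x ^ a) (s : Finset α) :
    F.D S (diagonal (fun i => ∏ j ∈ s, (Function.update (1 : α → S) j (x j)) i)) =
      (∏ j ∈ s, x j) ^ a := by
  induction s using Finset.induction_on with
  | empty =>
    simp only [Finset.prod_empty, one_pow]
    have : (diagonal (fun _ : α => (1 : S))) = 1 := diagonal_one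
    rw [this, F.one]
  | insert b s hb ih =>
    have : (diagonal (fun i => ∏ j ∈ insert b s, (Function.update (1 : α → S) j (x j)) i)) =
        one_at b (x b) * diagonal (fun i => ∏ j ∈ s, (Function.update (1 : α → S) j (x j)) i) := by
      simp only [one_at, diagonal_mul_diagonal]
      congr 1
      funext i
      rw [Finset.prod_insert hb]
    rw [this, F.mul, ha, ih, Finset.prod_insert hb, mul_pow]

/-- over a field -/
theorem field_eq {K : Type} [Field K] [Algebra E K] (a : ℕ)
    (ha : ∀ (i : α) (x : K), F.D K (one_at i x) = x ^ a) (M : Matrix α α K) :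
    F.D K M = M.det ^ a := by
  apply diagonal_transvection_induction (fun M => F.D K M = M.det ^ a) M
  · intro x _
    have h1 := F.D_diagonal_prod x a ha Finset.univ
    have h2 := diagonal_prod x (Finset.univ : Finset α)
    simp only [Finset.mem_univ, if_true] at h2
    rw [← h2] at h1
    rw [h1, det_diagonal]
  · intro t
    have h1 : t.toMatrix = Matrix.transvection t.i t.j t.c := rfl
    rw [h1, F.transvection t.i t.j t.hij t.c, det_transvection_of_ne _ _ t.hij, one_pow]
  · intro A B hA hB
    rw [F.mul, hA, hB, det_mul, mul_pow]

/-- A natural multiplicative function on square matrices is a power of the determinant. -/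
theorem eq_det_pow : ∃ a : ℕ, ∀ (S : Type) [CommRing S] [Algebra E S] (A : Matrix α α S),
    F.D S A = A.det ^ a := by
  obtain ⟨a, ha⟩ := F.exists_exp_all
  refine ⟨a, ?_⟩
  have hgen : F.D (MvPolynomial (α × α) E) (mvPolynomialX α α E) =
      (mvPolynomialX α α E).det ^ a := by
    let K := FractionRing (MvPolynomial (α × α) E)
    have hinj : Function.Injective (algebraMap (MvPolynomial (α × α) E) K) :=
      IsFractionRing.injective _ _
    apply hinj
    let φ : MvPolynomial (α × α) E →ₐ[E] K := IsScalarTower.toAlgHom E _ K
    have h1 := F.nat _ K φ (mvPolynomialX α α E)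
    have h2 := F.field_eq (K := K) a (fun i x => ha i K x) ((mvPolynomialX α α E).map φ)
    change φ _ = φ _
    rw [← h1, h2, map_pow]
    congr 1
    exact (AlgHom.map_det φ _).symm
  intro S _ _ A
  let ψ : MvPolynomial (α × α) E →ₐ[E] S := MvPolynomial.aeval (fun q : α × α => A q.1 q.2)
  have hA : (mvPolynomialX α α E).map ψ = A := by
    ext i j
    simp [ψ, mvPolynomialX_apply]
  have h1 := F.nat _ S ψ (mvPolynomialX α α E)
  rw [hA, hgen, map_pow] at h1
  rw [h1]
  congr 1
  rw [AlgHom.map_det]
  congr 1

end MulFam

end

end Pool.Agent.MP100fe7
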