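import Pool.Agent.Lib.MP_100fe7_nt.MulPoly

/-!
Natural functions on square matrices which are multiplicative on invertible matrices are powers of
the determinant.
-/

set_option linter.unusedSectionVars false

namespace Pool.Agent.MP100fe7

open Matrix

/-- A polynomial over an infinite field which is multiplicative on nonzero elements and takes the
value `1` at `1` is a monomial `X ^ a`. -/
theorem eq_X_pow_of_mul' {E : Type} [Field E] [Infinite E] (q : Polynomial E)
    (h1 : q.eval 1 = 1) (hm : ∀ s t, s ≠ 0 → t ≠ 0 → q.eval (s * t) = q.eval s * q.eval t) :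
    ∃ a : ℕ, q = Polynomial.X ^ a := by
  have hinf : Set.Infinite {x : E | x ≠ 0} := by
    have h2 : Set.Infinite ({0}ᶜ : Set E) := (Set.finite_singleton (0 : E)).infinite_compl
    exact h2
  have hfun : ∀ p r : Polynomial E, (∀ x, x ≠ 0 → p.eval x = r.eval x) → p = r := by
    intro p r hpr
    apply Polynomial.eq_of_infinite_eval_eq
    exact hinf.mono fun x hx => hpr x hx
  have hq : q ≠ 0 := by
    rintro rfl
    simp at h1
  refine ⟨q.natDegree, ?_⟩
  have key : ∀ s : E, s ≠ 0 →
      q.comp (Polynomial.C s * Polynomial.X) = Polynomial.C (q.eval s) * q := by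
    intro s hs
    apply hfun
    intro t ht
    simp [hm s t hs ht]
  have h2 : ∀ s : E, s ≠ 0 → q.eval s = s ^ q.natDegree := by
    intro s hs
    have h3 := congrArg (fun f => Polynomial.coeff f q.natDegree) (key s hs)
    simp only [Polynomial.coeff_C_mul] at h3
    rw [Polynomial.comp_C_mul_X_coeff] at h3
    have h4 : q.coeff q.natDegree ≠ 0 := by
      simpa using hq
    have h5 : q.coeff q.natDegree * (s ^ q.natDegree) = q.coeff q.natDegree * q.eval s := by
      rw [h3, mul_comm]
    exact (mul_left_cancel₀ h4 h5).symm
  apply hfun
  intro s hs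
  simp [h2 s hs]

section

variable {E : Type} [Field E] [CharZero E] {α : Type} [Fintype α] [DecidableEq α]

/-- A family of functions on square matrices over all `E`-algebras, natural, unital, and
multiplicative on invertible matrices. -/
structure GLFam (E : Type) [Field E] (α : Type) [Fintype α] [DecidableEq α] where
  /-- the value -/
  D : ∀ (S : Type) [CommRing S] [Algebra E S], Matrix α α S → S
  nat : ∀ (S S' : Type) [CommRing S] [Algebra E S] [CommRing S'] [Algebra E S']
    (φ : S →ₐ[E] S') (A : Matrix α α S), D S' (A.map φ) = φ (D S A)
  mul : ∀ (S : Type) [CommRing S] [Algebra E S] (A B : Matrix α α S), IsUnit A.det → IsUnit B.det →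
    D S (A * B) = D S A * D S B
  one : ∀ (S : Type) [CommRing S] [Algebra E S], D S 1 = 1

namespace GLFam

variable (F : GLFam E α)

theorem isUnit_of_mul_eq_one {S : Type} [CommRing S] [Algebra E S] {A B : Matrix α α S}
    (h : A * B = 1) : IsUnit (F.D S A) := by
  have hA : IsUnit A.det := isUnit_det_of_right_inverse h
  have hB : IsUnit B.det := isUnit_det_of_left_inverse h
  have h1 : F.D S A * F.D S B = 1 := by rw [← F.mul S A B hA hB, h, F.one]
  exact IsUnit.of_mul_eq_one _ h1

theorem transvection {S : Type} [CommRing S] [Algebra E S] (i j : α) (hij : i ≠ j) (c : S) :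
    F.D S (Matrix.transvection i j c) = 1 := by
  have hdet : ∀ c : S, IsUnit (Matrix.transvection i j c).det := by
    intro c
    rw [det_transvection_of_ne _ _ hij]
    exact isUnit_one
  have hu : IsUnit (F.D S (Matrix.transvection i j c)) := by
    apply F.isUnit_of_mul_eq_one (B := Matrix.transvection i j (-c))
    rw [transvection_mul_transvection_same i j hij]
    simp
  have h1 : F.D S (Matrix.transvection i j (c + c)) =
      F.D S (Matrix.transvection i j c) * F.D S (Matrix.transvection i j c) := by
    rw [← F.mul _ _ _ (hdet _) (hdet _), transvection_mul_transvection_same i j hij]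
  -- conjugation
  let d : Matrix α α S := diagonal (fun k => if k = i then 2 else 1)
  let d' : Matrix α α S := diagonal (fun k => if k = i then algebraMap E S (2⁻¹) else 1)
  have hdd : d * d' = 1 := by
    simp only [d, d', diagonal_mul_diagonal]
    rw [← diagonal_one]
    congr 1
    funext k
    by_cases hk : k = i
    · simp only [hk, if_true]
      rw [← map_ofNat (algebraMap E S) 2, ← map_mul]
      simp
    · simp [hk]
  have hdu : IsUnit (F.D S d) := F.isUnit_of_mul_eq_one hdd
  have hddet : IsUnit d.det := isUnit_det_of_right_inverse hdd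
  have hcomm : d * Matrix.transvection i j c = Matrix.transvection i j (c + c) * d := by
    ext a b
    simp only [d, Matrix.diagonal_mul, Matrix.mul_diagonal, Matrix.transvection, Matrix.add_apply,
      Matrix.one_apply, Matrix.single_apply]
    by_cases ha : a = i
    · subst ha
      by_cases hb : b = a
      · subst hb
        simp [hij.symm]
      · have hab : ¬ a = b := fun h => hb h.symm
        simp only [if_true, hab, if_false, zero_add, hb, true_and]
        by_cases hj : j = b
        · simp [hj]
          ring
        · simp [hj]
    · simp [ha, Ne.symm (Ne.intro ha)]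
      by_cases hb : b = i
      · subst hb
        simp [ha]
      · simp [hb]
  have h2 : F.D S d * F.D S (Matrix.transvection i j c) =
      F.D S d * F.D S (Matrix.transvection i j (c + c)) := by
    rw [← F.mul _ _ _ hddet (hdet _), hcomm, F.mul _ _ _ (hdet _) hddet, mul_comm]
  have h3 := hdu.mul_left_cancel h2
  rw [h1] at h3
  have h4 : F.D S (Matrix.transvection i j c) * 1 =
      F.D S (Matrix.transvection i j c) * F.D S (Matrix.transvection i j c) := by
    rw [mul_one]
    exact h3
  exact (hu.mul_left_cancel h4).symm

/-- the matrix with `x` in position `(i,i)` and `1` elsewhere on the diagonal -/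
def one_at {S : Type} [CommRing S] (i : α) (x : S) : Matrix α α S :=
  diagonal (Function.update 1 i x)

theorem det_one_at {S : Type} [CommRing S] (i : α) (x : S) :
    (one_at i x : Matrix α α S).det = x := by
  simp only [one_at, det_diagonal]
  rw [Finset.prod_update_of_mem (Finset.mem_univ i)]
  simp

theorem exists_exp (i : α) : ∃ a : ℕ, ∀ (S : Type) [CommRing S] [Algebra E S] (x : S),
    F.D S (one_at i x) = x ^ a := by
  let q : Polynomial E := F.D (Polynomial E) (one_at i Polynomial.X)
  have hmap : ∀ (S : Type) [CommRing S] [Algebra E S] (x : S),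
      F.D S (one_at i x) = Polynomial.aeval x q := by
    intro S _ _ x
    rw [← F.nat (Polynomial E) S (Polynomial.aeval x) (one_at i Polynomial.X)]
    congr 1
    ext a b
    simp only [one_at, Matrix.map_apply, diagonal_apply]
    by_cases hab : a = b
    · subst hab
      by_cases ha : a = i
      · subst ha
        simp
      · simp [Function.update_of_ne ha]
    · simp [hab]
  have h1 : q.eval 1 = 1 := by
    have h2 := hmap E 1
    rw [Polynomial.coe_aeval_eq_eval] at h2
    rw [← h2]
    have : (one_at i (1 : E) : Matrix α α E) = 1 := by
      simp only [one_at]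
      rw [← diagonal_one]
      congr 1
      funext k
      by_cases hk : k = i
      · subst hk
        simp
      · simp [Function.update_of_ne hk]
    rw [this, F.one]
  have hm : ∀ s t, s ≠ 0 → t ≠ 0 → q.eval (s * t) = q.eval s * q.eval t := by
    intro s t hs ht
    have e1 := hmap E (s * t)
    have e2 := hmap E s
    have e3 := hmap E t
    rw [Polynomial.coe_aeval_eq_eval] at e1 e2 e3
    rw [← e1, ← e2, ← e3, ← F.mul]
    · congr 1
      simp only [one_at, diagonal_mul_diagonal]
      congr 1
      funext k
      by_cases hk : k = i
      · subst hk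
        simp
      · simp [Function.update_of_ne hk]
    · rw [det_one_at]
      exact hs.isUnit
    · rw [det_one_at]
      exact ht.isUnit
  obtain ⟨a, ha⟩ := eq_X_pow_of_mul' q h1 hm
  refine ⟨a, ?_⟩
  intro S _ _ x
  rw [hmap, ha]
  simp

/-- the common exponent -/
theorem exists_exp_all : ∃ a : ℕ, ∀ (i : α) (S : Type) [CommRing S] [Algebra E S] (x : S),
    F.D S (one_at i x) = x ^ a := by
  rcases isEmpty_or_nonempty α with hα | ⟨⟨i₀⟩⟩
  · exact ⟨0, fun i => (hα.false i).elim⟩
  choose e he using F.exists_exp
  have hee : ∀ i, e i = e i₀ := by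
    intro i
    let x : E := 2
    let σ : Equiv.Perm α := Equiv.swap i i₀
    let P : Matrix α α E := (1 : Matrix α α E).submatrix σ id
    let Q : Matrix α α E := (1 : Matrix α α E).submatrix id σ
    have hQP : Q * P = 1 := by
      simp only [P, Q]
      rw [← Matrix.submatrix_mul _ _ _ _ _ σ.bijective]
      simp
    have hPdet : IsUnit P.det := isUnit_det_of_left_inverse hQP
    have hQdet : IsUnit Q.det := isUnit_det_of_right_inverse hQP
    have hx : IsUnit (one_at i x : Matrix α α E).det := by
      rw [det_one_at]
      exact (two_ne_zero).isUnit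
    have hconj : P * one_at i x * Q = one_at i₀ x := by
      have h1 : P * one_at i x * Q = (one_at i x : Matrix α α E).submatrix σ σ := by
        have h2 : (one_at i x : Matrix α α E) = 1 * one_at i x * 1 := by simp
        conv_rhs => rw [h2]
        rw [Matrix.submatrix_mul _ _ σ id σ Function.bijective_id,
          Matrix.submatrix_mul _ _ σ id id Function.bijective_id, Matrix.submatrix_id_id]
      rw [h1]
      ext a b
      simp only [one_at, submatrix_apply, diagonal_apply]
      by_cases hab : a = b
      · subst hab
        simp only [if_true]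
        by_cases h : a = i₀
        · subst h
          have : σ a = i := by simp [σ]
          rw [this]
          simp
        · rw [Function.update_of_ne h, Function.update_of_ne]
          · simp
          intro h'
          apply h
          have h3 : σ (σ a) = σ i := by rw [h']
          rw [show σ (σ a) = a by simp [σ]] at h3
          rw [h3]
          simp [σ]
      · simp [hab]
    have h5 : F.D E (one_at i x) = F.D E (one_at i₀ x) := by
      rw [← hconj, F.mul _ _ _ (by rw [det_mul]; exact hPdet.mul hx) hQdet,
        F.mul _ _ _ hPdet hx, mul_comm (F.D E P), mul_assoc, mul_comm (F.D E P),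
        ← F.mul _ _ _ hQdet hPdet, hQP, F.one, mul_one]
    rw [he i E x, he i₀ E x] at h5
    have h6 : ((2 ^ e i : ℕ) : E) = ((2 ^ e i₀ : ℕ) : E) := by
      push_cast
      exact h5
    have h7 : 2 ^ e i = 2 ^ e i₀ := by exact_mod_cast h6
    exact Nat.pow_right_injective le_rfl h7
  refine ⟨e i₀, ?_⟩
  intro i S _ _ x
  rw [he i S x, hee i]

theorem D_diagonal_prod {S : Type} [CommRing S] [Algebra E S] (x : α → S) (a : ℕ)
    (hx : ∀ i, IsUnit (x i))
    (ha : ∀ (i : α) (x : S), F.D S (one_at i x) = x ^ a) (s : Finset α) :
    F.D S (diagonal (fun i => ∏ j ∈ s, (Function.update (1 : α → S) j (x j)) i)) =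
      (∏ j ∈ s, x j) ^ a := by
  induction s using Finset.induction_on with
  | empty =>
    simp only [Finset.prod_empty, one_pow]
    have : (diagonal (fun _ : α => (1 : S))) = 1 := diagonal_one
    rw [this, F.one]
  | insert b s hb ih =>
    have : (diagonal (fun i => ∏ j ∈ insert b s, (Function.update (1 : α → S) j (x j)) i)) =
        one_at b (x b) * diagonal (fun i => ∏ j ∈ s, (Function.update (1 : α → S) j (x j)) i) := by
      simp only [one_at, diagonal_mul_diagonal]
      congr 1
      funext i
      rw [Finset.prod_insert hb]
    rw [this, F.mul, ha, ih, Finset.prod_insert hb, mul_pow]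
    · rw [det_one_at]
      exact hx b
    · rw [det_diagonal]
      apply IsUnit.prod_univ_iff.mpr
      intro i
      apply IsUnit.prod_iff.mpr
      intro j _
      by_cases hij : i = j
      · subst hij
        simpa using hx i
      · rw [Function.update_of_ne hij]
        exact isUnit_one

/-- over a field -/
theorem field_eq {K : Type} [Field K] [Algebra E K] (a : ℕ)
    (ha : ∀ (i : α) (x : K), F.D K (one_at i x) = x ^ a) (M : Matrix α α K) (hM : M.det ≠ 0) :
    F.D K M = M.det ^ a := by
  apply diagonal_transvection_induction_of_det_ne_zero (fun M => F.D K M = M.det ^ a) M hM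
  · intro x hx
    have hx' : ∀ i, IsUnit (x i) := by
      intro i
      rw [det_diagonal] at hx
      exact (Finset.prod_ne_zero_iff.mp hx i (Finset.mem_univ i)).isUnit
    have h1 := F.D_diagonal_prod x a hx' ha Finset.univ
    have h2 := MulFam.diagonal_prod x (Finset.univ : Finset α)
    simp only [Finset.mem_univ, if_true] at h2
    rw [← h2] at h1
    rw [h1, det_diagonal]
  · intro t
    have h1 : t.toMatrix = Matrix.transvection t.i t.j t.c := rfl
    rw [h1, F.transvection t.i t.j t.hij t.c, det_transvection_of_ne _ _ t.hij, one_pow]
  · intro A B hA0 hB0 hA hB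
    rw [F.mul _ _ _ hA0.isUnit hB0.isUnit, hA, hB, det_mul, mul_pow]

/-- A natural function on square matrices, multiplicative on invertible matrices, is a power of
the determinant. -/
theorem eq_det_pow : ∃ a : ℕ, ∀ (S : Type) [CommRing S] [Algebra E S] (A : Matrix α α S),
    F.D S A = A.det ^ a := by
  obtain ⟨a, ha⟩ := F.exists_exp_all
  refine ⟨a, ?_⟩
  have hgen : F.D (MvPolynomial (α × α) E) (mvPolynomialX α α E) =
      (mvPolynomialX α α E).det ^ a := by
    let K := FractionRing (MvPolynomial (α × α) E)
    have hinj : Function.Injective (algebraMap (MvPolynomial (α × α) E) K) :=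
      IsFractionRing.injective _ _
    apply hinj
    let φ : MvPolynomial (α × α) E →ₐ[E] K := IsScalarTower.toAlgHom E _ K
    have h1 := F.nat _ K φ (mvPolynomialX α α E)
    have hne : ((mvPolynomialX α α E).map φ).det ≠ 0 := by
      have h0 : ((mvPolynomialX α α E).map φ).det = φ (mvPolynomialX α α E).det :=
        (AlgHom.map_det φ _).symm
      rw [h0]
      intro h
      apply det_mvPolynomialX_ne_zero α E
      apply hinj
      rw [map_zero]
      exact h
    have h2 := F.field_eq (K := K) a (fun i x => ha i K x) ((mvPolynomialX α α E).map φ) hne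
    change φ _ = φ _
    rw [← h1, h2, map_pow]
    congr 1
    exact (AlgHom.map_det φ _).symm
  intro S _ _ A
  let ψ : MvPolynomial (α × α) E →ₐ[E] S := MvPolynomial.aeval (fun q : α × α => A q.1 q.2)
  have hA : (mvPolynomialX α α E).map ψ = A := by
    ext i j
    simp [ψ, mvPolynomialX_apply]
  have h1 := F.nat _ S ψ (mvPolynomialX α α E)
  rw [hA, hgen, map_pow] at h1
  rw [h1]
  congr 1
  rw [AlgHom.map_det]
  congr 1

end GLFam

end

end Pool.Agent.MP100fe7
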