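import Pool.Agent.Lib.MP_100fe7_nt.Rep
import Pool.Agent.Lib.MP_100fe7_nt.MulPoly

/-!
The structure of the periods of `ρ(M)`.
-/

set_option linter.unusedSectionVars false

namespace Pool.Agent.MP100fe7

open Matrix

theorem map_mul_map {E S : Type} [Field E] [CommRing S] [Algebra E S] {α β γ : Type} [Fintype β]
    (X : Matrix α β E) (Y : Matrix β γ E) :
    (X * Y).map (algebraMap E S) = X.map (algebraMap E S) * Y.map (algebraMap E S) := by
  rw [Matrix.map_mul]

theorem algHom_map_mul {E S S' : Type} [Field E] [CommRing S] [Algebra E S] [CommRing S']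
    [Algebra E S'] (φ : S →ₐ[E] S') {α β γ : Type} [Fintype β]
    (X : Matrix α β S) (Y : Matrix β γ S) : (X * Y).map φ = X.map φ * Y.map φ := by
  ext i j
  simp [Matrix.mul_apply]

theorem one_add_eps_pow (E : Type) [Field E] (d : ℕ) :
    (1 + DualNumber.eps : DualNumber E) ^ d = 1 + (d : DualNumber E) * DualNumber.eps := by
  induction d with
  | zero => simp
  | succ d ih =>
    rw [pow_succ, ih]
    have h : (DualNumber.eps : DualNumber E) * DualNumber.eps = 0 := DualNumber.eps_mul_eps
    push_cast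
    linear_combination (d : DualNumber E) * h

section eig

variable {E : Type} [Field E] [CharZero E] {n k m : ℕ} {κ : Type} [Fintype κ] [DecidableEq κ]
  (ρ : PolyRep E n κ k)

/-- the projector onto the `ε`-eigenspace of `ρ(F_∞)` -/
noncomputable def proj (ε : E) : Matrix κ κ E :=
  diagonal fun s => (1 + ε * ((ρ.sgn s : ℤ) : E)) / 2

theorem frob_mul_proj {ε : E} (hε : ε * ε = 1) :
    ρ.ev E (frob E n) * proj ρ ε = ε • proj ρ ε := by
  rw [ρ.ev_frob, proj, diagonal_mul_diagonal, ← diagonal_smul]
  congr 1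
  funext s
  have h1 : ((ρ.sgn s : ℤ) : E) * ((ρ.sgn s : ℤ) : E) = 1 := by
    exact_mod_cast congrArg (fun z : ℤ => (z : E)) (ρ.sgn_mul_self s)
  simp only [Pi.smul_apply, smul_eq_mul]
  linear_combination (ε * (1 / 2)) * h1 - (1 / 2) * ((ρ.sgn s : ℤ) : E) * hε

theorem proj_mul_of_eig {ε : E} (hε : ε * ε = 1) {S : Type} [CommRing S] [Algebra E S] {γ : Type}
    (X : Matrix κ γ S)
    (hX : (ρ.ev E (frob E n)).map (algebraMap E S) * X = (algebraMap E S ε) • X) :
    (proj ρ ε).map (algebraMap E S) * X = X := by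
  ext s j
  have h1 := congrFun (congrFun hX s) j
  rw [ρ.ev_frob, diagonal_map (map_zero _), diagonal_mul] at h1
  rw [proj, diagonal_map (map_zero _), diagonal_mul]
  simp only [Matrix.smul_apply, smul_eq_mul] at h1
  have h2 : algebraMap E S ((1 + ε * ((ρ.sgn s : ℤ) : E)) / 2) * X s j =
      algebraMap E S (1 / 2) * X s j + algebraMap E S (1 / 2) * algebraMap E S ε *
        (algebraMap E S ((ρ.sgn s : ℤ) : E) * X s j) := by
    rw [show (1 + ε * ((ρ.sgn s : ℤ) : E)) / 2 = 1 / 2 + 1 / 2 * ε * ((ρ.sgn s : ℤ) : E) by ring]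
    simp only [map_add, map_mul]
    ring
  rw [h2, h1]
  have h3 : algebraMap E S ε * algebraMap E S ε = 1 := by rw [← map_mul, hε, map_one]
  have h4 : algebraMap E S (1 / 2) + algebraMap E S (1 / 2) = 1 := by
    rw [← map_add]
    norm_num
  linear_combination (algebraMap E S (1 / 2) * X s j) * h3 + X s j * h4

/-- an adapted left inverse of `A` -/
theorem exists_left {ε : E} (hε : ε * ε = 1) (A : Matrix κ (Fin m) E)
    (hinj : Function.Injective A.mulVec)
    (hran : ∀ v : κ → E, v ∈ Set.range A.mulVec ↔ (ρ.ev E (frob E n)).mulVec v = ε • v) :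
    ∃ A' : Matrix (Fin m) κ E, A' * A = 1 ∧ A * A' = proj ρ ε := by
  have hFA : ρ.ev E (frob E n) * A = ε • A := by
    ext s j
    have h1 : A.mulVec (Pi.single j 1) ∈ Set.range A.mulVec := ⟨_, rfl⟩
    rw [hran] at h1
    have h2 := congrFun h1 s
    rw [mulVec_mulVec] at h2
    simpa using h2
  have hπA : proj ρ ε * A = A := by
    have h1 := proj_mul_of_eig ρ hε (S := E) A (by simpa using hFA)
    simpa using h1
  obtain ⟨g, hg⟩ := LinearMap.exists_leftInverse_of_injective A.mulVecLin
    (LinearMap.ker_eq_bot.mpr hinj)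
  let A'' : Matrix (Fin m) κ E := LinearMap.toMatrix' g
  have hA'' : A'' * A = 1 := by
    have h1 : (A'' * A) = LinearMap.toMatrix' (g ∘ₗ A.mulVecLin) := by
      have h2 : A.mulVecLin = Matrix.toLin' A := rfl
      rw [LinearMap.toMatrix'_comp, h2, LinearMap.toMatrix'_toLin']
    rw [h1, hg, LinearMap.toMatrix'_id]
  have hC : ∃ C : Matrix (Fin m) κ E, proj ρ ε = A * C := by
    have h1 : ∀ s : κ, (fun i => proj ρ ε i s) ∈ Set.range A.mulVec := by
      intro s
      rw [hran]
      have h2 := frob_mul_proj ρ hε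
      funext i
      have h3 := congrFun (congrFun h2 i) s
      simpa [Matrix.mul_apply, mulVec, dotProduct] using h3
    choose C hC using h1
    refine ⟨(Matrix.of C)ᵀ, ?_⟩
    ext i s
    have h4 := congrFun (hC s) i
    simp only [mulVec, dotProduct] at h4
    rw [Matrix.mul_apply]
    simp only [transpose_apply, of_apply]
    exact h4.symm
  obtain ⟨C, hC⟩ := hC
  refine ⟨A'' * proj ρ ε, ?_, ?_⟩
  · rw [Matrix.mul_assoc, hπA, hA'']
  · rw [hC, ← Matrix.mul_assoc A'', hA'', Matrix.one_mul]

variable (A : Matrix κ (Fin m) E) (A' : Matrix (Fin m) κ E)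

/-- the action of `ρ(h)` on the eigenspace -/
noncomputable def eta (S : Type) [CommRing S] [Algebra E S] (h : Matrix (Idx n) (Idx n) S) :
    Matrix (Fin m) (Fin m) S :=
  A'.map (algebraMap E S) * ρ.ev S h * A.map (algebraMap E S)

variable {A A'} {ε : E} (hε : ε * ε = 1) (hl : A' * A = 1) (hr : A * A' = proj ρ ε)

include hε hl hr

theorem proj_mul_A : proj ρ ε * A = A := by
  rw [← hr, Matrix.mul_assoc, hl, Matrix.mul_one]

theorem frob_mul_A : ρ.ev E (frob E n) * A = ε • A := by
  rw [← proj_mul_A ρ hε hl hr, ← Matrix.mul_assoc, frob_mul_proj ρ hε, smul_mul]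

theorem ev_mul_A {S : Type} [CommRing S] [Algebra E S] {h : Matrix (Idx n) (Idx n) S}
    (hc : frob S n * h = h * frob S n) :
    ρ.ev S h * A.map (algebraMap E S) = A.map (algebraMap E S) * eta ρ A A' S h := by
  have hF : (ρ.ev E (frob E n)).map (algebraMap E S) = ρ.ev S (frob S n) := by
    rw [ρ.ev_frob, ρ.ev_frob, diagonal_map (map_zero _)]
    congr 1
    funext s
    simp
  have h1 : (ρ.ev E (frob E n)).map (algebraMap E S) * (ρ.ev S h * A.map (algebraMap E S)) =
      (algebraMap E S ε) • (ρ.ev S h * A.map (algebraMap E S)) := by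
    rw [hF, ← Matrix.mul_assoc, ρ.ev_frob_comm hc, Matrix.mul_assoc, ← hF, ← map_mul_map,
      frob_mul_A ρ hε hl hr]
    rw [← Matrix.mul_smul]
    congr 1
    ext i j
    simp
  have h2 := proj_mul_of_eig ρ hε _ h1
  rw [← hr, map_mul_map] at h2
  unfold eta
  rw [← Matrix.mul_assoc, ← Matrix.mul_assoc, Matrix.mul_assoc (A.map _ * A'.map _)]
  exact h2.symm

theorem eta_mul {S : Type} [CommRing S] [Algebra E S] {h h' : Matrix (Idx n) (Idx n) S}
    (hc : frob S n * h' = h' * frob S n) :
    eta ρ A A' S (h * h') = eta ρ A A' S h * eta ρ A A' S h' := by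
  have h1 := ev_mul_A ρ hε hl hr hc
  unfold eta at h1 ⊢
  rw [ρ.ev_mul, Matrix.mul_assoc, Matrix.mul_assoc (ρ.ev S h), h1]
  simp only [Matrix.mul_assoc]

theorem eta_one {S : Type} [CommRing S] [Algebra E S] : eta ρ A A' S 1 = 1 := by
  unfold eta
  rw [ρ.ev_one, Matrix.mul_one, ← map_mul_map, hl]
  simp

omit hε hl hr in
theorem eta_map {S S' : Type} [CommRing S] [Algebra E S] [CommRing S'] [Algebra E S']
    (φ : S →ₐ[E] S') (h : Matrix (Idx n) (Idx n) S) :
    (eta ρ A A' S h).map φ = eta ρ A A' S' (h.map φ) := by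
  unfold eta
  rw [algHom_map_mul, algHom_map_mul, ρ.ev_map φ]
  congr 1
  · congr 1
    ext i j
    simp
  · ext i j
    simp

theorem frob_comm_fromBlocks {S : Type} [CommRing S] (h₁ h₂ : Matrix (Fin n) (Fin n) S) :
    frob S n * fromBlocks h₁ 0 0 h₂ = fromBlocks h₁ 0 0 h₂ * frob S n := by
  rw [frob_eq, fromBlocks_multiply, fromBlocks_multiply]
  simp

/-- the action on the eigenspace of the first block -/
noncomputable def fam₁ : MulFam E (Fin n) where
  D := fun S _ _ h => (eta ρ A A' S (fromBlocks h 0 0 1)).det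
  nat := by
    intro S S' _ _ _ _ φ h
    rw [AlgHom.map_det]
    congr 1
    have h1 := eta_map ρ (A := A) (A' := A') φ (fromBlocks h 0 0 1)
    rw [AlgHom.mapMatrix_apply, h1]
    congr 1
    rw [fromBlocks_map]
    congr 1
    · ext i j
      simp
    · ext i j
      simp
    · ext i j
      simp [Matrix.one_apply]
  mul := by
    intro S _ _ h h'
    rw [← det_mul, ← eta_mul ρ hε hl hr (frob_comm_fromBlocks ρ hε hl hr _ _)]
    congr 2
    rw [fromBlocks_multiply]
    simp
  one := by
    intro S _ _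
    rw [fromBlocks_one, eta_one ρ hε hl hr, det_one]

/-- the action on the eigenspace of the second block -/
noncomputable def fam₂ : MulFam E (Fin n) where
  D := fun S _ _ h => (eta ρ A A' S (fromBlocks 1 0 0 h)).det
  nat := by
    intro S S' _ _ _ _ φ h
    rw [AlgHom.map_det]
    congr 1
    have h1 := eta_map ρ (A := A) (A' := A') φ (fromBlocks 1 0 0 h)
    rw [AlgHom.mapMatrix_apply, h1]
    congr 1
    rw [fromBlocks_map]
    congr 1
    · ext i j
      simp [Matrix.one_apply]
    · ext i j
      simp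
    · ext i j
      simp
  mul := by
    intro S _ _ h h'
    rw [← det_mul, ← eta_mul ρ hε hl hr (frob_comm_fromBlocks ρ hε hl hr _ _)]
    congr 2
    rw [fromBlocks_multiply]
    simp
  one := by
    intro S _ _
    rw [fromBlocks_one, eta_one ρ hε hl hr, det_one]

/-- the degree in the first half -/
def degL (ρ : PolyRep E n κ k) (s : κ) : ℕ := ∑ i, ρ.wt s (Sum.inl i)

theorem eta_det : ∃ a b : ℕ,
    (∀ (S : Type) [CommRing S] [Algebra E S] (h₁ h₂ : Matrix (Fin n) (Fin n) S),
      (eta ρ A A' S (fromBlocks h₁ 0 0 h₂)).det = h₁.det ^ a * h₂.det ^ b) ∧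
    ((n : E) * a = ∑ s, (degL ρ s : E) * ((1 + ε * ((ρ.sgn s : ℤ) : E)) / 2)) ∧
    n * a + n * b = k * m := by
  obtain ⟨a, ha⟩ := (fam₁ ρ hε hl hr).eq_det_pow
  obtain ⟨b, hb⟩ := (fam₂ ρ hε hl hr).eq_det_pow
  have hab : ∀ (S : Type) [CommRing S] [Algebra E S] (h₁ h₂ : Matrix (Fin n) (Fin n) S),
      (eta ρ A A' S (fromBlocks h₁ 0 0 h₂)).det = h₁.det ^ a * h₂.det ^ b := by
    intro S _ _ h₁ h₂
    rw [← ha S h₁, ← hb S h₂]
    change _ = (eta ρ A A' S (fromBlocks h₁ 0 0 1)).det * (eta ρ A A' S (fromBlocks 1 0 0 h₂)).det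
    rw [← det_mul, ← eta_mul ρ hε hl hr (frob_comm_fromBlocks ρ hε hl hr _ _)]
    congr 2
    rw [fromBlocks_multiply]
    simp
  refine ⟨a, b, hab, ?_, ?_⟩
  · -- dual numbers
    have h1 := hab (DualNumber E) ((1 + DualNumber.eps : DualNumber E) • 1) 1
    rw [det_smul, det_one, one_pow, mul_one, mul_one, Fintype.card_fin, ← pow_mul,
      one_add_eps_pow] at h1
    have h2 : (fromBlocks ((1 + DualNumber.eps : DualNumber E) • 1) 0 0 1 :
        Matrix (Idx n) (Idx n) (DualNumber E)) =
        diagonal (Sum.elim (fun _ => 1 + DualNumber.eps) (fun _ => 1)) := by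
      rw [← fromBlocks_diagonal, Matrix.smul_one_eq_diagonal]
      congr 1
    have h3 : ρ.ev (DualNumber E) (fromBlocks ((1 + DualNumber.eps : DualNumber E) • 1) 0 0 1) =
        1 + (DualNumber.eps : DualNumber E) •
          (diagonal fun s => (degL ρ s : E)).map (algebraMap E (DualNumber E)) := by
      rw [h2, ρ.ev_diagonal, diagonal_map (map_zero _), ← diagonal_smul, ← diagonal_one,
        diagonal_add]
      congr 1
      funext s
      rw [Fintype.prod_sum_type]
      simp only [Sum.elim_inl, Sum.elim_inr, one_pow, Finset.prod_const_one, mul_one,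
        Pi.smul_apply, smul_eq_mul]
      rw [Finset.prod_pow_eq_pow_sum, one_add_eps_pow]
      simp only [degL]
      rw [mul_comm]
      simp
    have h4 : eta ρ A A' (DualNumber E)
        (fromBlocks ((1 + DualNumber.eps : DualNumber E) • 1) 0 0 1) =
        1 + (DualNumber.eps : DualNumber E) •
          (A' * (diagonal fun s => (degL ρ s : E)) * A).map (algebraMap E (DualNumber E)) := by
      unfold eta
      rw [h3, Matrix.mul_add, Matrix.add_mul, Matrix.mul_one, ← map_mul_map, hl, Matrix.mul_smul,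
        Matrix.smul_mul, map_mul_map, map_mul_map]
      congr 1
      exact Matrix.map_one _ (map_zero _) (map_one _)
    rw [h4, det_one_add_smul] at h1
    have h5 : (DualNumber.eps : DualNumber E) ^ 2 = 0 := by
      rw [pow_two]
      exact DualNumber.eps_mul_eps
    rw [h5, mul_zero, add_zero] at h1
    have h6 := congrArg TrivSqZeroExt.snd h1
    have h7 : (A' * (diagonal fun s => (degL ρ s : E)) * A).trace = (n : E) * a := by
      have e1 : trace ((A' * (diagonal fun s => (degL ρ s : E)) * A).map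
          (algebraMap E (DualNumber E))) =
          algebraMap E (DualNumber E) (A' * (diagonal fun s => (degL ρ s : E)) * A).trace := by
        rw [Matrix.trace, Matrix.trace, map_sum]
        rfl
      rw [e1] at h6
      have e2 : TrivSqZeroExt.fst (algebraMap E (DualNumber E)
          (A' * (diagonal fun s => (degL ρ s : E)) * A).trace) =
          (A' * (diagonal fun s => (degL ρ s : E)) * A).trace := rfl
      rw [← e2]
      simpa using h6
    rw [← h7, Matrix.trace_mul_cycle, hr, proj, diagonal_mul_diagonal, trace_diagonal]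
    apply Finset.sum_congr rfl
    intro s _
    ring
  · -- scalars
    have h1 := hab (Polynomial E) ((Polynomial.X : Polynomial E) • 1)
      ((Polynomial.X : Polynomial E) • 1)
    have h2 : (fromBlocks ((Polynomial.X : Polynomial E) • 1) 0 0
        ((Polynomial.X : Polynomial E) • 1) :
        Matrix (Idx n) (Idx n) (Polynomial E)) = (Polynomial.X : Polynomial E) • 1 := by
      rw [← fromBlocks_one, fromBlocks_smul]
      simp
    rw [h2] at h1
    unfold eta at h1
    rw [ρ.ev_smul, ρ.ev_one, Matrix.mul_smul, Matrix.smul_mul, Matrix.mul_one, ← map_mul_map, hl,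
      det_smul, det_smul, det_one, mul_one] at h1
    have h3 : ((1 : Matrix (Fin m) (Fin m) E).map (algebraMap E (Polynomial E))).det = 1 := by
      rw [Matrix.map_one _ (map_zero _) (map_one _), det_one]
    rw [h3, mul_one, Fintype.card_fin, Fintype.card_fin, ← pow_mul, ← pow_mul, ← pow_mul,
      ← pow_add] at h1
    have h4 := congrArg Polynomial.natDegree h1
    rw [Polynomial.natDegree_X_pow, Polynomial.natDegree_X_pow] at h4
    exact h4.symm

end eig

end Pool.Agent.MP100fe7
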