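import Pool.Agent.Lib.MP_100fe7_nt.Main

/-!
The ratio of the two periods of `ρ(M)`, in terms of the ratio of the two periods of `M`.
-/

set_option linter.unusedSectionVars false

namespace Pool.Agent.MP100fe7

open Matrix

variable {E : Type} [Field E] [CharZero E] {R : Type} [CommRing R] [Nontrivial R] [Algebra E R]
  {n k : ℕ} {w : ℤ}
  {κ : Type} [Fintype κ] [DecidableEq κ] (ρ : PolyRep E n κ k) (M : Datum R n w)

/-- the signed degree `∑_s sgn(s) deg_+(s)`, the derivative at `t = 1` of the character at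
`(t, …, t, -1, …, -1)` -/
def signedDeg (ρ : PolyRep E n κ k) : ℤ := ∑ s, (degL ρ s : ℤ) * ρ.sgn s

theorem zpow_rearrange {G : Type} [CommGroup G] (x y : G) (c a b : ℤ) :
    x ^ (c + a) * y ^ (b - c) = (x / y) ^ c * (x ^ a * y ^ b) := by
  rw [_root_.zpow_add, _root_.zpow_sub, div_zpow, div_eq_mul_inv (x ^ c), mul_comm (y ^ b),
    mul_mul_mul_comm]

theorem ratio_aux (hmid : NoMiddle ρ M)
    {b : Matrix (Idx n) (Idx n) R} {h₁ h₂ : Matrix (Fin n) (Fin n) R} (hbu : IsUnit b.det)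
    (hb : ∀ i j, M.hodgeIdx i < M.hodgeIdx j → b i j = 0)
    (hM : M.comp = b * gz R n * fromBlocks h₁ 0 0 h₂) (δ₁ δ₂ : Rˣ) (hδ₁ : (δ₁ : R) = h₁.det)
    (hδ₂ : (δ₂ : R) = h₂.det) {x y : R} (hx : IsPeriod ρ M 1 x) (hy : IsPeriod ρ M (-1) y) :
    ∃ (K : ℤ) (u v : Rˣ) (e : Eˣ), (n : ℤ) * K = signedDeg ρ ∧ (u : R) = x ∧ (v : R) = y ∧
      u / v = Units.map (algebraMap E R).toMonoidHom e * (δ₁ / δ₂) ^ K := by
  obtain ⟨m₁, A₁, B₁, hA₁, hAr₁, hB₁, hK₁, rfl⟩ := hx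
  obtain ⟨m₂, A₂, B₂, hA₂, hAr₂, hB₂, hK₂, rfl⟩ := hy
  obtain ⟨B₁', e₁⟩ := mulVec_surjective_iff_exists_right_inverse.mp hB₁
  obtain ⟨B₂', e₂⟩ := mulVec_surjective_iff_exists_right_inverse.mp hB₂
  have hsz := size_eq ρ M hK₁ hK₂ e₁ e₂
  have hm : m₁ = m₂ := by
    have := Matrix.square_of_invertible _ _ hsz.1 hsz.2
    simpa using this.symm
  subst hm
  have hε₁ : (1 : E) * 1 = 1 := by norm_num
  have hε₂ : (-1 : E) * (-1) = 1 := by norm_num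
  obtain ⟨A₁', hl₁, hr₁⟩ := exists_left ρ hε₁ A₁ hA₁ hAr₁
  obtain ⟨A₂', hl₂, hr₂⟩ := exists_left ρ hε₂ A₂ hA₂ hAr₂
  obtain ⟨a₁, b₁, hd₁, hn₁, hs₁⟩ := eta_det ρ hε₁ hl₁ hr₁
  obtain ⟨a₂, b₂, hd₂, hn₂, hs₂⟩ := eta_det ρ hε₂ hl₂ hr₂
  have hX : ∀ s t, ρ.hodgeIdx M s < ρ.hodgeIdx M t → ρ.ev R b s t = 0 := by
    intro s t hst
    exact ρ.ev_parabolic M.hodgeIdx b hb s t hst
  have hXY : ρ.ev R b * ρ.ev R b⁻¹ = 1 := ρ.ev_inv_mul (mul_nonsing_inv _ hbu)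
  have hβ := isUnit_quot ρ M hK₁ e₁ (ρ.ev R b) (ρ.ev R b⁻¹) hX hXY
  have hββ := det_quot_eq ρ M hK₁ hK₂ e₁ e₂ (ρ.ev R b) hX
  have p₁ := period_factor ρ M hε₁ hl₁ hr₁ hK₁ e₁ hb hM
  have p₂ := period_factor ρ M hε₂ hl₂ hr₂ hK₂ e₂ hb hM
  rw [hd₁ R h₁ h₂, ← hδ₁, ← hδ₂] at p₁
  rw [hd₂ R h₁ h₂, ← hδ₁, ← hδ₂, ← hββ] at p₂
  obtain ⟨β, hβ'⟩ := hβ
  rw [← hβ'] at p₁ p₂
  have n₁ := det_split_ne_zero ρ M hmid hε₁ hl₁ hr₁ hK₁
  have n₂ := det_split_ne_zero ρ M hmid hε₂ hl₂ hr₂ hK₂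
  let d₁ : Eˣ := Units.mk0 _ n₁
  let d₂ : Eˣ := Units.mk0 _ n₂
  have hcast : (n : E) * a₁ - (n : E) * a₂ = ((signedDeg ρ : ℤ) : E) := by
    rw [hn₁, hn₂, ← Finset.sum_sub_distrib]
    unfold signedDeg
    push_cast
    apply Finset.sum_congr rfl
    intro s _
    ring
  have hK : (n : ℤ) * ((a₁ : ℤ) - a₂) = signedDeg ρ := by
    have : (((n : ℤ) * ((a₁ : ℤ) - a₂) : ℤ) : E) = ((signedDeg ρ : ℤ) : E) := by
      rw [← hcast]
      push_cast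
      ring
    exact_mod_cast this
  refine ⟨(a₁ : ℤ) - a₂,
    β * Units.map (algebraMap E R).toMonoidHom d₁ * δ₁ ^ a₁ * δ₂ ^ b₁,
    β * Units.map (algebraMap E R).toMonoidHom d₂ * δ₁ ^ a₂ * δ₂ ^ b₂, d₁ / d₂, hK, ?_, ?_, ?_⟩
  · change _ = (B₁.map (algebraMap E R) * ρ.ev R M.comp * A₁.map (algebraMap E R)).det
    rw [p₁]
    simp only [Units.val_mul, Units.val_pow_eq_pow_val]
    change (β : R) * algebraMap E R _ * _ * _ = _
    simp only [d₁, Units.val_mk0]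
    ring
  · change _ = (B₂.map (algebraMap E R) * ρ.ev R M.comp * A₂.map (algebraMap E R)).det
    rw [p₂]
    simp only [Units.val_mul, Units.val_pow_eq_pow_val]
    change (β : R) * algebraMap E R _ * _ * _ = _
    simp only [d₂, Units.val_mk0]
    ring
  · rw [map_div]
    have key : δ₁ ^ a₁ * δ₂ ^ b₁ = (δ₁ / δ₂) ^ ((a₁ : ℤ) - a₂) * (δ₁ ^ a₂ * δ₂ ^ b₂) := by
      rcases Nat.eq_zero_or_pos n with h0 | hpos
      · subst h0
        have t₁ : δ₁ = 1 := by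
          ext
          rw [hδ₁]
          simp
        have t₂ : δ₂ = 1 := by
          ext
          rw [hδ₂]
          simp
        rw [t₁, t₂]
        simp
      · have h3 : a₁ + b₁ = a₂ + b₂ := by
          have h4 : n * (a₁ + b₁) = n * (a₂ + b₂) := by
            rw [mul_add, mul_add, hs₁, hs₂]
          exact Nat.eq_of_mul_eq_mul_left hpos h4
        have h5 : (b₁ : ℤ) = b₂ - ((a₁ : ℤ) - a₂) := by omega
        have h6 : (a₁ : ℤ) = ((a₁ : ℤ) - a₂) + a₂ := by omega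
        rw [← zpow_natCast, ← zpow_natCast, ← zpow_natCast, ← zpow_natCast, h5]
        rw [← zpow_rearrange, ← h6]
    calc _ = (Units.map (algebraMap E R).toMonoidHom d₁ / Units.map (algebraMap E R).toMonoidHom d₂) *
          ((δ₁ ^ a₁ * δ₂ ^ b₁) / (δ₁ ^ a₂ * δ₂ ^ b₂)) := by
          rw [mul_assoc (β * _), mul_assoc (β * _), mul_div_mul_comm, mul_div_mul_left_eq_div]
      _ = _ := by
          rw [key, mul_div_assoc, div_self', mul_one]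

end Pool.Agent.MP100fe7
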