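import Pool.Agent.Lib.MP_100fe7_nt.Factor

/-!
Basic facts on polynomial representations.
-/

set_option linter.unusedSectionVars false

namespace Pool.Agent.MP100fe7

open Matrix

variable {E : Type} [Field E] {n k : ℕ} {κ : Type} [Fintype κ] [DecidableEq κ]

namespace PolyRep

variable (ρ : PolyRep E n κ k)

/-- the representing matrix at `A` -/
noncomputable def ev (S : Type) [CommRing S] [Algebra E S] (A : Matrix (Idx n) (Idx n) S) :
    Matrix κ κ S :=
  evalMat ρ.mat S A

theorem ev_mul (S : Type) [CommRing S] [Algebra E S] (A B : Matrix (Idx n) (Idx n) S) :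
    ρ.ev S (A * B) = ρ.ev S A * ρ.ev S B := ρ.map_mul S A B

theorem ev_diagonal (S : Type) [CommRing S] [Algebra E S] (x : Idx n → S) :
    ρ.ev S (diagonal x) = diagonal fun s => ∏ j, x j ^ ρ.wt s j := ρ.map_diagonal S x

theorem ev_one (S : Type) [CommRing S] [Algebra E S] : ρ.ev S 1 = 1 := by
  have h := ρ.ev_diagonal S 1
  rw [diagonal_one'] at h
  rw [h]
  simp

theorem ev_map {S S' : Type} [CommRing S] [Algebra E S] [CommRing S'] [Algebra E S']
    (φ : S →ₐ[E] S') (A : Matrix (Idx n) (Idx n) S) :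
    (ρ.ev S A).map φ = ρ.ev S' (A.map φ) := by
  ext s t
  simp only [ev, evalMat, Matrix.map_apply]
  rw [← AlgHom.comp_apply, MvPolynomial.comp_aeval]

theorem ev_smul (S : Type) [CommRing S] [Algebra E S] (c : S) (A : Matrix (Idx n) (Idx n) S) :
    ρ.ev S (c • A) = c ^ k • ρ.ev S A := by
  have h1 : c • A = diagonal (fun _ => c) * A := by
    rw [Matrix.smul_eq_diagonal_mul]
  have h2 : (fun s => ∏ j, c ^ ρ.wt s j) = fun _ : κ => c ^ k := by
    funext s
    rw [Finset.prod_pow_eq_pow_sum, ρ.deg]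
  rw [h1, ρ.ev_mul, ρ.ev_diagonal, h2, Matrix.smul_eq_diagonal_mul]

theorem ev_inv_mul {S : Type} [CommRing S] [Algebra E S] {A B : Matrix (Idx n) (Idx n) S}
    (h : A * B = 1) : ρ.ev S A * ρ.ev S B = 1 := by
  rw [← ρ.ev_mul, h, ρ.ev_one]

/-- the sign by which `F_∞` acts on the basis vector `s` -/
def sgn (s : κ) : ℤ := ∏ i, (-1) ^ ρ.wt s (Sum.inr i)

theorem sgn_mul_self (s : κ) : ρ.sgn s * ρ.sgn s = 1 := by
  unfold sgn
  rw [← Finset.prod_mul_distrib]
  apply Finset.prod_eq_one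
  intro i _
  rw [← mul_pow]
  simp

theorem sgn_eq (s : κ) : ρ.sgn s = 1 ∨ ρ.sgn s = -1 := by
  have h := ρ.sgn_mul_self s
  have h2 : (ρ.sgn s - 1) * (ρ.sgn s + 1) = 0 := by linear_combination h
  rcases mul_eq_zero.mp h2 with h3 | h3
  · left; linarith
  · right; linarith

theorem ev_frob (S : Type) [CommRing S] [Algebra E S] :
    ρ.ev S (frob S n) = diagonal fun s => ((ρ.sgn s : ℤ) : S) := by
  unfold frob
  rw [ρ.ev_diagonal]
  congr 1
  funext s
  rw [Fintype.prod_sum_type]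
  simp [sgn]

theorem ev_frob_comm {S : Type} [CommRing S] [Algebra E S] {h : Matrix (Idx n) (Idx n) S}
    (hc : frob S n * h = h * frob S n) :
    ρ.ev S (frob S n) * ρ.ev S h = ρ.ev S h * ρ.ev S (frob S n) := by
  rw [← ρ.ev_mul, ← ρ.ev_mul, hc]

/-- natural-number Hodge height -/
theorem ev_parabolic_nat {R : Type} [CommRing R] [Algebra E R] (m : Idx n → ℕ)
    (b : Matrix (Idx n) (Idx n) R) (hb : ∀ i j, m i < m j → b i j = 0) (s t : κ)
    (hst : ∑ j, m j * ρ.wt s j < ∑ j, m j * ρ.wt t j) : ρ.ev R b s t = 0 := by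
  let φ : R →ₐ[E] Polynomial R := IsScalarTower.toAlgHom E R (Polynomial R)
  have hφ : ∀ r, φ r = Polynomial.C r := fun r => rfl
  have h1 : (diagonal fun j => (Polynomial.X : Polynomial R) ^ m j) * b.map φ =
      (Matrix.of fun i j => Polynomial.C (b i j) * Polynomial.X ^ (m i - m j)) *
        (diagonal fun j => (Polynomial.X : Polynomial R) ^ m j) := by
    ext1 i j
    rw [Matrix.diagonal_mul, Matrix.mul_diagonal, Matrix.map_apply, hφ, Matrix.of_apply]
    by_cases hij : m i < m j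
    · rw [hb i j hij]
      simp
    · rw [mul_assoc, ← pow_add, Nat.sub_add_cancel (by omega), mul_comm]
  have h2 := congrArg (ρ.ev (Polynomial R)) h1
  rw [ρ.ev_mul, ρ.ev_mul, ← ρ.ev_map, ρ.ev_diagonal] at h2
  have h3 := congrFun (congrFun h2 s) t
  rw [Matrix.diagonal_mul, Matrix.mul_diagonal, Matrix.map_apply, hφ] at h3
  simp only [← pow_mul, Finset.prod_pow_eq_pow_sum] at h3
  have h4 := congrArg (fun f => Polynomial.coeff f (∑ j, m j * ρ.wt s j)) h3
  simp only [Polynomial.coeff_X_pow_mul', Polynomial.coeff_mul_X_pow'] at h4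
  rw [if_pos le_rfl, if_neg (by omega)] at h4
  simpa using h4

/-- A matrix preserving the filtration by Hodge indices is mapped to such a matrix. -/
theorem ev_parabolic {R : Type} [CommRing R] [Algebra E R] (idx : Idx n → ℤ)
    (b : Matrix (Idx n) (Idx n) R) (hb : ∀ i j, idx i < idx j → b i j = 0) (s t : κ)
    (hst : ∑ j, (ρ.wt s j : ℤ) * idx j < ∑ j, (ρ.wt t j : ℤ) * idx j) : ρ.ev R b s t = 0 := by
  obtain ⟨c, hc⟩ : ∃ c : ℤ, ∀ j, 0 ≤ idx j + c := by
    refine ⟨∑ j, |idx j|, fun j => ?_⟩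
    have h1 : |idx j| ≤ ∑ j, |idx j| :=
      Finset.single_le_sum (f := fun j => |idx j|) (fun i _ => abs_nonneg _) (Finset.mem_univ j)
    have h2 := neg_abs_le (idx j)
    linarith
  let m : Idx n → ℕ := fun j => (idx j + c).toNat
  have hm : ∀ j, (m j : ℤ) = idx j + c := fun j => Int.toNat_of_nonneg (hc j)
  have hH : ∀ u : κ, ((∑ j, m j * ρ.wt u j : ℕ) : ℤ) = (∑ j, (ρ.wt u j : ℤ) * idx j) + k * c := by
    intro u
    push_cast
    simp only [hm]
    have h1 : (k : ℤ) = ∑ j, (ρ.wt u j : ℤ) := by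
      exact_mod_cast (ρ.deg u).symm
    rw [h1, Finset.sum_mul, ← Finset.sum_add_distrib]
    apply Finset.sum_congr rfl
    intro j _
    ring
  apply ρ.ev_parabolic_nat m b
  · intro i j hij
    apply hb
    have h1 := hm i
    have h2 := hm j
    omega
  · have h1 := hH s
    have h2 := hH t
    omega

/-- The exchange of the two halves maps weight height `a` to `kw - a`. -/
theorem ev_swap {S₀ : Type} [CommRing S₀] [Algebra E S₀] (idx : Idx n → ℤ) (w : ℤ)
    (hidx : ∀ i : Fin n, idx (Sum.inr i) = w - idx (Sum.inl i)) (s t : κ)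
    (hst : ρ.ev S₀ (swapM S₀ n) s t ≠ 0) :
    (∑ j, (ρ.wt s j : ℤ) * idx j) + (∑ j, (ρ.wt t j : ℤ) * idx j) = k * w := by
  obtain ⟨c, hc, hc2⟩ : ∃ c : ℤ, (∀ j, 0 ≤ idx j + c) ∧ 0 ≤ w + 2 * c := by
    refine ⟨|w| + ∑ j, |idx j|, fun j => ?_, ?_⟩
    · have h1 : |idx j| ≤ ∑ j, |idx j| :=
        Finset.single_le_sum (f := fun j => |idx j|) (fun i _ => abs_nonneg _) (Finset.mem_univ j)
      have h2 := neg_abs_le (idx j)
      have h3 := abs_nonneg w
      linarith
    · have h1 : 0 ≤ ∑ j, |idx j| := Finset.sum_nonneg fun i _ => abs_nonneg _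
      have h2 := neg_abs_le w
      have h3 := abs_nonneg w
      linarith
  let m : Idx n → ℕ := fun j => (idx j + c).toNat
  have hm : ∀ j, (m j : ℤ) = idx j + c := fun j => Int.toNat_of_nonneg (hc j)
  let W : ℕ := (w + 2 * c).toNat
  have hW : (W : ℤ) = w + 2 * c := Int.toNat_of_nonneg hc2
  have hmW : ∀ i : Fin n, m (Sum.inl i) + m (Sum.inr i) = W := by
    intro i
    have h1 := hm (Sum.inl i)
    have h2 := hm (Sum.inr i)
    rw [hidx] at h2
    omega
  have hH : ∀ u : κ, ((∑ j, m j * ρ.wt u j : ℕ) : ℤ) = (∑ j, (ρ.wt u j : ℤ) * idx j) + k * c := by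
    intro u
    push_cast
    simp only [hm]
    have h1 : (k : ℤ) = ∑ j, (ρ.wt u j : ℤ) := by
      exact_mod_cast (ρ.deg u).symm
    rw [h1, Finset.sum_mul, ← Finset.sum_add_distrib]
    apply Finset.sum_congr rfl
    intro j _
    ring
  let φ : S₀ →ₐ[E] Polynomial S₀ := IsScalarTower.toAlgHom E S₀ (Polynomial S₀)
  have hφ : ∀ r, φ r = Polynomial.C r := fun r => rfl
  have h1 : (diagonal fun j => (Polynomial.X : Polynomial S₀) ^ m j) * (swapM S₀ n).map φ *
      (diagonal fun j => (Polynomial.X : Polynomial S₀) ^ m j) =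
      (Polynomial.X ^ W : Polynomial S₀) • (swapM S₀ n).map φ := by
    ext1 i j
    rw [Matrix.mul_diagonal, Matrix.diagonal_mul, Matrix.smul_apply, Matrix.map_apply, hφ,
      smul_eq_mul]
    rcases i with i | i <;> rcases j with j | j
    · simp [swapM]
    · by_cases hij : i = j
      · subst hij
        simp only [swapM, fromBlocks_apply₁₂, Matrix.one_apply_eq, Polynomial.C_1, mul_one]
        rw [← pow_add, hmW]
      · simp [swapM, hij]
    · by_cases hij : i = j
      · subst hij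
        simp only [swapM, fromBlocks_apply₂₁, Matrix.one_apply_eq, Polynomial.C_1, mul_one]
        rw [← pow_add, add_comm, hmW]
      · simp [swapM, hij]
    · simp [swapM]
  have h2 := congrArg (ρ.ev (Polynomial S₀)) h1
  rw [ρ.ev_mul, ρ.ev_mul, ρ.ev_smul, ← ρ.ev_map, ρ.ev_diagonal] at h2
  have h3 := congrFun (congrFun h2 s) t
  rw [Matrix.mul_diagonal, Matrix.diagonal_mul, Matrix.smul_apply, Matrix.map_apply, hφ,
    smul_eq_mul] at h3
  simp only [← pow_mul, Finset.prod_pow_eq_pow_sum] at h3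
  rw [mul_comm (Polynomial.X ^ _), mul_assoc, ← pow_add, mul_comm] at h3
  have h4 : (∑ j, m j * ρ.wt s j) + (∑ j, m j * ρ.wt t j) = W * k := by
    have h5 := congrArg (fun f => Polynomial.coeff f ((∑ j, m j * ρ.wt s j) +
      (∑ j, m j * ρ.wt t j))) h3
    simp only [Polynomial.coeff_X_pow_mul'] at h5
    rw [if_pos le_rfl] at h5
    by_contra hne
    split_ifs at h5 with h6
    · rw [Nat.sub_self, Polynomial.coeff_C_zero, Polynomial.coeff_C_of_ne_zero] at h5
      · exact hst h5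
      · omega
    · rw [Nat.sub_self, Polynomial.coeff_C_zero] at h5
      exact hst h5
  have h5 := hH s
  have h6 := hH t
  have h7 : ((∑ j, m j * ρ.wt s j : ℕ) : ℤ) + ((∑ j, m j * ρ.wt t j : ℕ) : ℤ) = W * k := by
    exact_mod_cast h4
  rw [h5, h6, hW] at h7
  linarith

end PolyRep

end Pool.Agent.MP100fe7
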