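import Pool.Agent.Lib.MP_100fe7_nt.SRatio

/-!
The ratio of the two periods of `ρ(M)`, `ρ` a representation of `GSp_{2n}` of odd degree, in terms
of the ratio for `M`.
-/

set_option linter.unusedSectionVars false

namespace Pool.Agent.MP100fe7.GSp

open Matrix Pool.Agent.MP100fe7 TensorProduct

variable {E : Type} [Field E] [CharZero E] {R : Type} [CommRing R] [Nontrivial R] [Algebra E R]
  {n k : ℕ} {w : ℤ} {κ : Type} [Fintype κ] [DecidableEq κ]

/-- `R` is detected by homomorphisms to `ℂ` -/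
def Detected (R : Type) [CommRing R] : Prop :=
  ∃ (I : Type) (φ : I → R →+* ℂ), (∀ x y, (∀ i, φ i x = φ i y) → x = y) ∧
      (∀ x, (∀ i, φ i x ≠ 0) → IsUnit x)

theorem ratio_symp_aux (hR : Detected R) (ρ : SympRep E n κ k) (M : Datum R n w)
    (hM : IsSymp M.comp) (hk : Odd k) (hw : Odd w)
    {b : Matrix (Idx n) (Idx n) R} {h₁ h₂ : Matrix (Fin n) (Fin n) R} (hbu : IsUnit b.det)
    (hb : ∀ i j, M.hodgeIdx i < M.hodgeIdx j → b i j = 0)
    (hX : M.comp = b * gz R n * fromBlocks h₁ 0 0 h₂) (δ₁ δ₂ : Rˣ) (hδ₁ : (δ₁ : R) = h₁.det)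
    (hδ₂ : (δ₂ : R) = h₂.det) {x y : R} (hx : IsSympPeriod ρ M 1 x) (hy : IsSympPeriod ρ M (-1) y) :
    ∃ (K : ℤ) (u v : Rˣ) (e : Eˣ), (∀ i, 2 * K = moment ρ i) ∧ (u : R) = x ∧ (v : R) = y ∧
      u / v = Units.map (algebraMap E R).toMonoidHom e * (δ₁ / δ₂) ^ K := by
  obtain ⟨m₁, A₁, B₁, hA₁, hAr₁, hB₁, hK₁, rfl⟩ := hx
  obtain ⟨m₂, A₂, B₂, hA₂, hAr₂, hB₂, hK₂, rfl⟩ := hy
  obtain ⟨K, e, hKm, hcore⟩ := ratio_core ρ M.p w hk hw hA₁ hAr₁ hB₁ hK₁ hA₂ hAr₂ hB₂ hK₂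
  obtain ⟨I, φ, hinj, hunit⟩ := hR
  set x := (B₁.map (algebraMap E R) * evalMat ρ.mat R M.comp * A₁.map (algebraMap E R)).det
    with hxdef
  set y := (B₂.map (algebraMap E R) * evalMat ρ.mat R M.comp * A₂.map (algebraMap E R)).det
    with hydef
  -- componentwise statement
  have hcomp : ∀ i, ∃ u v : ℂˣ, (u : ℂ) = φ i x ∧ (v : ℂ) = φ i y ∧
      u / v = Units.map (φ i).toMonoidHom
        (Units.map (algebraMap E R).toMonoidHom e * (δ₁ / δ₂) ^ K) := by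
    intro i
    let _ : Algebra E ℂ := ((φ i).comp (algebraMap E R)).toAlgebra
    let ψ : R →ₐ[E] ℂ := { (φ i) with commutes' := fun _ => rfl }
    have hψ : ∀ r, ψ r = φ i r := fun _ => rfl
    have hψm : ∀ {α β : Type} (Y : Matrix α β R), Y.map ψ = Y.map (φ i) := by
      intro α β Y
      rfl
    -- the mapped factorisation
    have hX' : M.comp.map (φ i) =
        b.map (φ i) * gz ℂ n * fromBlocks (h₁.map (φ i)) 0 0 (h₂.map (φ i)) := by
      rw [hX, Matrix.map_mul, Matrix.map_mul]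
      congr 1
      · congr 1
        unfold gz
        rw [fromBlocks_map]
        congr 1
        · exact Matrix.map_one _ (map_zero _) (map_one _)
        · exact Matrix.map_one _ (map_zero _) (map_one _)
        · exact Matrix.map_one _ (map_zero _) (map_one _)
        · ext a b
          simp [Matrix.one_apply]
      · rw [fromBlocks_map]
        congr 1
        · ext a b
          simp
        · ext a b
          simp
    have hdet : ∀ {α : Type} [Fintype α] [DecidableEq α] (Y : Matrix α α R),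
        (Y.map (φ i)).det = φ i Y.det := by
      intro α _ _ Y
      exact (RingHom.map_det (φ i) Y).symm
    have hδ₁' : IsUnit (h₁.map (φ i)).det := by
      rw [hdet, ← hδ₁]
      exact δ₁.isUnit.map _
    have hδ₂' : IsUnit (h₂.map (φ i)).det := by
      rw [hdet, ← hδ₂]
      exact δ₂.isUnit.map _
    obtain ⟨b', t, hb's, hb'p, htu, hhs, hX''⟩ := factor_symp M.p w M.two_p (hM.map (φ i))
      (b := b.map (φ i)) (by rw [hdet]; exact hbu.map _)
      (by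
        intro a c hac
        rw [Matrix.map_apply, hb a c hac, map_zero]) hδ₁' hδ₂' hX'
    obtain ⟨τ, hτ⟩ := htu
    let ε₁ : ℂˣ := Units.map (φ i).toMonoidHom δ₁
    let ε₂ : ℂˣ := Units.map (φ i).toMonoidHom δ₂
    obtain ⟨u, v, hu, hv, huv⟩ := hcore ℂ (M.comp.map (φ i)) b' (t * h₁.map (φ i))
      (t * h₂.map (φ i)) (τ * ε₁) (τ * ε₂) hb's hb'p hhs hX''
      (by
        rw [det_mul, ← hτ, hdet, ← hδ₁]
        rfl)
      (by
        rw [det_mul, ← hτ, hdet, ← hδ₂]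
        rfl)
    have hmapE : ∀ {α β : Type} (Y : Matrix α β E), (Y.map (algebraMap E R)).map (φ i) =
        Y.map (algebraMap E ℂ) := by
      intro α β Y
      rfl
    have hper : ∀ {m : ℕ} (B : Matrix (Fin m) κ E) (A : Matrix κ (Fin m) E),
        φ i (B.map (algebraMap E R) * evalMat ρ.mat R M.comp * A.map (algebraMap E R)).det =
        (B.map (algebraMap E ℂ) * ρ.ev ℂ (M.comp.map (φ i)) * A.map (algebraMap E ℂ)).det := by
      intro m B A
      rw [← hdet, Matrix.map_mul, Matrix.map_mul, hmapE, hmapE]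
      have h5 := ρ.ev_map ψ M.comp
      rw [hψm, hψm] at h5
      rw [← h5]
      rfl
    refine ⟨u, v, ?_, ?_, ?_⟩
    · rw [hu, hxdef, hper]
    · rw [hv, hydef, hper]
    · rw [huv, map_mul, map_zpow, map_div, mul_div_mul_left_eq_div]
      rfl
  have hxu : IsUnit x := by
    apply hunit
    intro i
    obtain ⟨u, v, hu, -, -⟩ := hcomp i
    rw [← hu]
    exact u.ne_zero
  have hyu : IsUnit y := by
    apply hunit
    intro i
    obtain ⟨u, v, -, hv, -⟩ := hcomp i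
    rw [← hv]
    exact v.ne_zero
  obtain ⟨x', hx'⟩ := hxu
  obtain ⟨y', hy'⟩ := hyu
  refine ⟨K, x', y', e, hKm, hx', hy', ?_⟩
  ext
  apply hinj
  intro i
  obtain ⟨u, v, hu, hv, huv⟩ := hcomp i
  have e1 : Units.map (φ i).toMonoidHom x' = u := by
    ext
    rw [hu, ← hx']
    rfl
  have e2 : Units.map (φ i).toMonoidHom y' = v := by
    ext
    rw [hv, ← hy']
    rfl
  have e3 : Units.map (φ i).toMonoidHom (x' / y') = Units.map (φ i).toMonoidHom
      (Units.map (algebraMap E R).toMonoidHom e * (δ₁ / δ₂) ^ K) := by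
    rw [map_div, e1, e2, huv]
  exact congrArg (fun z : ℂˣ => (z : ℂ)) e3

/-- The ratio formula. -/
theorem ratio_symp (hR : Detected R) (ρ : SympRep E n κ k) (M : Datum R n w)
    (hM : IsSymp M.comp) (hk : Odd k) (hw : Odd w) (K : ℤ) (hK : ∀ i, 2 * K = moment ρ i)
    {x y c d : R} (hx : IsSympPeriod ρ M (1 : E) x) (hy : IsSympPeriod ρ M (-1 : E) y)
    (hc : IsPeriod (std E n) M (1 : E) c) (hd : IsPeriod (std E n) M (-1 : E) d) :
    ∃ (x' y' c' d' : Rˣ) (e : Eˣ), (x' : R) = x ∧ (y' : R) = y ∧ (c' : R) = c ∧ (d' : R) = d ∧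
      x' / y' = Units.map (algebraMap E R).toMonoidHom e * (c' / d') ^ K := by
  have h2 : IsUnit (2 : R) := by
    have h : IsUnit (2 : E) := (two_ne_zero).isUnit
    have h' := h.map (algebraMap E R)
    rwa [map_ofNat] at h'
  obtain ⟨b, h₁, h₂, hbu, hb, hu₁, hu₂, hX⟩ := M.exists_factor h2
  obtain ⟨δ₁, hδ₁⟩ := hu₁
  obtain ⟨δ₂, hδ₂⟩ := hu₂
  obtain ⟨K₁, u₁, v₁, e₁, hK₁, hu₁, hv₁, hr₁⟩ :=
    ratio_symp_aux hR ρ M hM hk hw hbu hb hX δ₁ δ₂ hδ₁ hδ₂ hx hy
  obtain ⟨K₂, u₂, v₂, e₂, hK₂, hu₂, hv₂, hr₂⟩ :=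
    ratio_aux (std E n) M (noMiddle_std M) hbu hb hX δ₁ δ₂ hδ₁ hδ₂ hc hd
  rw [signedDeg_std] at hK₂
  refine ⟨u₁, v₁, u₂, v₂, e₁ * (e₂ ^ K)⁻¹, hu₁, hv₁, hu₂, hv₂, ?_⟩
  rcases Nat.eq_zero_or_pos n with h0 | hpos
  · subst h0
    have t₁ : δ₁ = 1 := by
      ext
      rw [hδ₁]
      simp
    have t₂ : δ₂ = 1 := by
      ext
      rw [hδ₂]
      simp
    rw [hr₁, hr₂, t₁, t₂]
    simp only [div_self', _root_.one_zpow, mul_one]
    rw [map_mul, map_inv, map_zpow, mul_assoc, inv_mul_cancel, mul_one]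
  · have hn : (n : ℤ) ≠ 0 := by exact_mod_cast hpos.ne'
    have q₁ : K₁ = K := by
      have h3 := hK₁ ⟨0, hpos⟩
      have h4 := hK ⟨0, hpos⟩
      omega
    have q₂ : K₂ = 1 := by
      have : (n : ℤ) * K₂ = n * 1 := by rw [hK₂, mul_one]
      exact mul_left_cancel₀ hn this
    rw [q₁] at hr₁
    rw [q₂, zpow_one] at hr₂
    rw [hr₁, hr₂, mul_zpow, map_mul, map_inv, map_zpow]
    rw [mul_assoc, inv_mul_cancel_left]

/-- The periods `c^+` and `c^-` of `ρ(M)` exist. -/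
theorem exists_symp_period (ρ : SympRep E n κ k) (M : Datum R n w) (hk : Odd k) (hw : Odd w) :
    (∃ x : R, IsSympPeriod ρ M (1 : E) x) ∧ (∃ x : R, IsSympPeriod ρ M (-1 : E) x) :=
  exists_period ρ M hk hw

/-- existence of the exponent -/
theorem exists_exponent (hR : Detected R) (ρ : SympRep E n κ k) (M : Datum R n w)
    (hM : IsSymp M.comp) (hk : Odd k) (hw : Odd w) : ∃ K : ℤ, ∀ i, 2 * K = moment ρ i := by
  obtain ⟨⟨x, hx⟩, ⟨y, hy⟩⟩ := exists_symp_period (R := R) ρ M hk hw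
  have h2 : IsUnit (2 : R) := by
    have h : IsUnit (2 : E) := (two_ne_zero).isUnit
    have h' := h.map (algebraMap E R)
    rwa [map_ofNat] at h'
  obtain ⟨b, h₁, h₂, hbu, hb, hu₁, hu₂, hX⟩ := M.exists_factor h2
  obtain ⟨δ₁, hδ₁⟩ := hu₁
  obtain ⟨δ₂, hδ₂⟩ := hu₂
  obtain ⟨K, -, -, -, hK, -⟩ := ratio_symp_aux hR ρ M hM hk hw hbu hb hX δ₁ δ₂ hδ₁ hδ₂ hx hy
  exact ⟨K, hK⟩

end Pool.Agent.MP100fe7.GSp
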