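import Pool.Agent.Lib.MP_100fe7_nt.SExp
import Pool.Agent.Lib.MP_100fe7_nt.SRatio2

/-!
The closed formula for the Deligne periods of `ρ(M)`, `M` polarised of odd weight, `ρ` a
representation of `GSp_{2n}` of odd degree.
-/

set_option linter.unusedSectionVars false

namespace Pool.Agent.MP100fe7.GSp

open Matrix Pool.Agent.MP100fe7

theorem add_identity2 {A : Type} [AddCommGroup A] (p t d₀ δ ec h ν : A) (K b : ℤ) :
    p + K • t + d₀ + (K • (t + δ) + b • (ν + h)) =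
      (d₀ + (-K) • ec + b • h) + K • (ec + (2 : ℤ) • t + δ) + b • ν + p := by
  module

theorem mul_identity2 {G : Type} [CommGroup G] (p t d₀ δ ec h ν : G) (K b : ℤ) :
    p * t ^ K * d₀ * ((t * δ) ^ K * (ν * h) ^ b) =
      (d₀ * ec ^ (-K) * h ^ b) * (ec * t ^ (2 : ℤ) * δ) ^ K * ν ^ b * p :=
  congrArg Additive.toMul
    (add_identity2 (A := Additive G) (Additive.ofMul p) (Additive.ofMul t) (Additive.ofMul d₀)
      (Additive.ofMul δ) (Additive.ofMul ec) (Additive.ofMul h) (Additive.ofMul ν) K b)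

theorem add_identity3 {A : Type} [AddCommGroup A] (x y ν : A) (K b n : ℤ)
    (hxy : x + y = n • ν) : (-K) • x + (b + n * K) • ν = K • y + b • ν := by
  have h1 : (b + n * K) • ν = b • ν + K • (n • ν) := by module
  rw [h1, ← hxy]
  module

theorem mul_identity3 {G : Type} [CommGroup G] (x y ν : G) (K b n : ℤ)
    (hxy : x * y = ν ^ n) : x ^ (-K) * ν ^ (b + n * K) = y ^ K * ν ^ b :=
  congrArg Additive.toMul
    (add_identity3 (A := Additive G) (Additive.ofMul x) (Additive.ofMul y) (Additive.ofMul ν)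
      K b n (congrArg Additive.ofMul hxy))

theorem pow_div_pow {G : Type} [CommGroup G] (x ν : G) (a b : ℕ) :
    x ^ a * (ν / x) ^ b = x ^ ((a : ℤ) - b) * ν ^ (b : ℤ) := by
  rw [_root_.zpow_sub, zpow_natCast, zpow_natCast, zpow_natCast, div_pow, div_eq_mul_inv]
  simp only [mul_left_comm, mul_comm]

theorem prod_identity {G : Type} [CommGroup G] (T : Finset ℤ) (τ Q : ℤ → G)
    (hQ : ∀ a ∈ T, Q a = τ a ^ 2) (D : ℤ → ℤ) (K : ℤ) :
    ∏ a ∈ T, τ a ^ (2 * D a + K) = (∏ a ∈ T, Q a ^ D a) * (∏ a ∈ T, τ a) ^ K := by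
  rw [← Finset.prod_zpow, ← Finset.prod_mul_distrib]
  apply Finset.prod_congr rfl
  intro a ha
  rw [hQ a ha, _root_.zpow_add, _root_.zpow_mul]
  norm_cast

variable {E : Type} [Field E] [CharZero E] {R : Type} [CommRing R] [Nontrivial R] [Algebra E R]
  {n k : ℕ} {w : ℤ} {κ : Type} [Fintype κ] [DecidableEq κ]

theorem symp_closed_pos (hR : Detected R) (ρ : SympRep E n κ k) (M : Datum R n w) (ν : Rˣ)
    (hν : M.compᵀ * symJ R n * M.comp = (ν : R) • symJ R n) (hk : Odd k) (hw : Odd w)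
    (hn : 0 < n) :
    ∃ (K b : ℤ) (D : ℤ → ℤ), (∀ i, 2 * K = moment ρ i) ∧
      2 * (n * K) + 4 * b = k * Fintype.card κ ∧
      (∀ i, 2 * D (w - M.p i) + K = lowWt ρ M i) ∧
      ∀ (ε : ℤ), (ε = 1 ∨ ε = -1) → ∀ (x c : R) (q : ℤ → R), IsSympPeriod ρ M (ε : E) x →
        IsPeriod (std E n) M (ε : E) c → (∀ a ∈ lowIndices M, IsHodgePeriod M a (q a)) →
        ∃ (x' c' : Rˣ) (q' : ℤ → Rˣ) (e : Eˣ), (x' : R) = x ∧ (c' : R) = c ∧
          (∀ a ∈ lowIndices M, (q' a : R) = q a) ∧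
          x' = Units.map (algebraMap E R).toMonoidHom e * c' ^ K * ν ^ b *
            ∏ a ∈ lowIndices M, q' a ^ D a := by
  classical
  obtain ⟨K, b, hKm, hKb, hpar, hexp⟩ := exponents ρ M hk hw hn
  -- the exponents `D`
  choose r hr using hpar
  obtain ⟨D, hD⟩ : ∃ D : ℤ → ℤ, ∀ i, 2 * D (w - M.p i) + K = lowWt ρ M i := by
    refine ⟨fun a => if h : ∃ i, w - M.p i = a then r h.choose else 0, ?_⟩
    intro i
    have h1 : ∃ j, w - M.p j = w - M.p i := ⟨i, rfl⟩
    have h2 : M.p h1.choose = M.p i := by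
      have := h1.choose_spec
      omega
    simp only
    rw [dif_pos h1]
    have h3 := hr h1.choose
    have h4 := lowWt_congr ρ M _ _ h2
    omega
  refine ⟨K, b, D, hKm, hKb, hD, ?_⟩
  intro ε hε x c q hx hc hq
  have hεε : (ε : E) * ε = 1 := by
    rcases hε with rfl | rfl <;> norm_num
  have h2 : IsUnit (2 : R) := by
    have h : IsUnit (2 : E) := (two_ne_zero).isUnit
    have h' := h.map (algebraMap E R)
    rwa [map_ofNat] at h'
  obtain ⟨h₁, h₂, hu₁, hu₂, hM⟩ := exists_factor' M h2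
  have hu₁' := hu₁
  have hu₂' := hu₂
  obtain ⟨δ₁, hδ₁⟩ := hu₁
  obtain ⟨δ₂, hδ₂⟩ := hu₂
  let Q : ℤ → Rˣ := fun a => if ha : a ∈ lowIndices M then (isUnit_hodgePeriod E M a ha).unit else 1
  have hQ : ∀ a ∈ lowIndices M, (Q a : R) = (blockOf M (cBlock M) a).det := by
    intro a ha
    simp only [Q, dif_pos ha, IsUnit.unit_spec]
  obtain ⟨ec, c', hcc, hcc'⟩ := std_formula M hε hM δ₁ δ₂ hδ₁ hδ₂ Q hQ hc
  obtain ⟨m, A, B, hA, hAr, hB, hKer, rfl⟩ := hx
  obtain ⟨B', e₁⟩ := mulVec_surjective_iff_exists_right_inverse.mp hB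
  obtain ⟨A', hl, hr'⟩ := exists_left ρ hεε A hA hAr
  obtain ⟨a₀, b₀, hd⟩ := eta_char ρ hεε hl hr'
  have cc : IsChar ρ A A' a₀ b₀ := hd
  obtain ⟨hab, hb₀⟩ := hexp ε hε m A A' a₀ b₀ hl hr' cc
  have hne := det_split_ne_zero ρ M.p w hk hw hεε hl hr' hKer
  let d₀ : Eˣ := Units.mk0 _ hne
  let hlf : Eˣ := Units.mk0 (-1 / 2) (by norm_num)
  obtain ⟨I, φ, hinj, hunit⟩ := hR
  set x := (B.map (algebraMap E R) * evalMat ρ.mat R M.comp * A.map (algebraMap E R)).det
    with hxdef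
  let e : Eˣ := d₀ * ec ^ (-K) * hlf ^ b
  let rhs : Rˣ := Units.map (algebraMap E R).toMonoidHom e * c' ^ K * ν ^ b *
    ∏ a ∈ lowIndices M, Q a ^ D a
  have hcomp : ∀ i, φ i x = φ i (rhs : R) := by
    intro i
    let _ : Algebra E ℂ := ((φ i).comp (algebraMap E R)).toAlgebra
    let ψ : R →ₐ[E] ℂ := { (φ i) with commutes' := fun _ => rfl }
    have hψm : ∀ {α β : Type} (Y : Matrix α β R), Y.map ψ = Y.map (φ i) := by
      intro α β Y
      rfl
    have hdet : ∀ {α : Type} [Fintype α] [DecidableEq α] (Y : Matrix α α R),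
        (Y.map (φ i)).det = φ i Y.det := by
      intro α _ _ Y
      exact (RingHom.map_det (φ i) Y).symm
    obtain ⟨b', t, τ, hb's, hb'p, htdet, hτQ, hmult, hX', hdR⟩ :=
      comp_data M (φ i) ν hν hu₁' hu₂' hM
    have hmapE : ∀ {α β : Type} (Y : Matrix α β E), (Y.map (algebraMap E R)).map (φ i) =
        Y.map (algebraMap E ℂ) := by
      intro α β Y
      rfl
    have hper : φ i x =
        (B.map (algebraMap E ℂ) * ρ.ev ℂ (M.comp.map (φ i)) * A.map (algebraMap E ℂ)).det := by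
      rw [hxdef, ← hdet, Matrix.map_mul, Matrix.map_mul, hmapE, hmapE]
      have h5 := ρ.ev_map ψ M.comp
      rw [hψm, hψm] at h5
      rw [← h5]
      rfl
    -- units
    let F : Rˣ →* ℂˣ := Units.map (φ i).toMonoidHom
    let G : Eˣ →* ℂˣ := Units.map (algebraMap E ℂ).toMonoidHom
    have hG : ∀ u : Eˣ, F (Units.map (algebraMap E R).toMonoidHom u) = G u := by
      intro u
      rfl
    let ν' : ℂˣ := F ν * G hlf
    have hν' : (ν' : ℂ) = -(φ i ν) / 2 := by
      have e1 : (ν' : ℂ) = φ i ν * algebraMap E ℂ (-1 / 2) := rfl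
      rw [e1]
      simp only [map_div₀, map_neg, map_one, map_ofNat]
      ring
    have hmult' : (t * h₁.map (φ i))ᵀ * (t * h₂.map (φ i)) = (ν' : ℂ) • 1 := by
      rw [hν', hmult]
    have hhs : IsSymp (fromBlocks (t * h₁.map (φ i)) 0 0 (t * h₂.map (φ i))) :=
      isSymp_fromBlocks ν' hmult'
    have p := period_factor ρ M.p w hεε hl hr' hKer e₁ hb's hb'p hhs hX'
    rw [det_quot_eq_dLo (hI ρ M.p w) ((k * w + 1) / 2) hKer e₁ (ρ.ev ℂ b') (by
      intro s u hsu
      exact ρ.ev_parabolic (idx M.p w) w (idx_add M.p w) hb's hb'p s u hsu)] at p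
    have hdR' := hdR E k κ ρ (fun a => 2 * D a + K) hD
    unfold dR at hdR'
    let P : ℂˣ := ∏ a ∈ lowIndices M, τ a
    have hδ' : ((P * F δ₁ : ℂˣ) : ℂ) = (t * h₁.map (φ i)).det := by
      rw [det_mul, htdet, hdet, ← hδ₁]
      rfl
    have hδ'' : ((P * F δ₂ : ℂˣ) : ℂ) = (t * h₂.map (φ i)).det := by
      rw [det_mul, htdet, hdet, ← hδ₂]
      rfl
    rw [hdR', cc ℂ _ _ ν' (P * F δ₁) hmult' hδ'] at p
    have hrel : (P * F δ₁) * (P * F δ₂) = ν' ^ (n : ℤ) := by
      ext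
      have h3 := congrArg Matrix.det hmult'
      rw [det_mul, det_transpose, det_smul, det_one, mul_one, Fintype.card_fin, ← hδ', ← hδ''] at h3
      rw [zpow_natCast]
      simpa using h3
    have hchar : (P * F δ₁) ^ a₀ * (ν' / (P * F δ₁)) ^ b₀ =
        (P * F (if ε = 1 then δ₁ else δ₂)) ^ K * ν' ^ b := by
      rw [pow_div_pow, hab, hb₀]
      rcases hε with rfl | rfl
      · rw [if_pos rfl, if_pos rfl, one_mul]
      · rw [if_neg (by norm_num), if_neg (by norm_num), neg_one_mul]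
        exact mul_identity3 _ _ _ _ _ _ hrel
    have hQτ : ∀ a ∈ lowIndices M, F (Q a) = τ a ^ 2 := by
      intro a ha
      ext
      have h3 : ((F (Q a) : ℂˣ) : ℂ) = φ i (Q a : R) := rfl
      rw [h3, hQ a ha, ← hτQ a ha]
      simp
    have hPQ : ∏ a ∈ lowIndices M, F (Q a) = P ^ (2 : ℤ) := by
      rw [Finset.prod_congr rfl hQτ, Finset.prod_pow]
      rfl
    have hLHS : ((∏ a ∈ lowIndices M, τ a ^ (2 * D a + K)) * G d₀ *
        ((P * F (if ε = 1 then δ₁ else δ₂)) ^ K * ν' ^ b) : ℂˣ) = F rhs := by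
      have h3 : F rhs = G e * F c' ^ K * F ν ^ b * ∏ a ∈ lowIndices M, F (Q a) ^ D a := by
        simp only [rhs, map_mul, map_zpow, map_prod, hG]
      have h4 : F c' = G ec * P ^ (2 : ℤ) * F (if ε = 1 then δ₁ else δ₂) := by
        rw [hcc', map_mul, map_mul, map_prod, hPQ, hG]
      have h5 : G e = G d₀ * G ec ^ (-K) * G hlf ^ b := by
        simp only [e, map_mul, map_zpow]
      rw [h3, h4, h5, prod_identity (lowIndices M) τ (fun a => F (Q a)) hQτ D K]
      exact mul_identity2 _ _ _ _ _ _ _ _ _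
    have hfin : φ i x = ((F rhs : ℂˣ) : ℂ) := by
      rw [hper, p, ← hLHS, hchar]
      simp only [Units.val_mul]
      rfl
    exact hfin
  have hxr : x = (rhs : R) := hinj _ _ hcomp
  refine ⟨rhs, c', Q, e, hxr.symm, hcc, ?_, rfl⟩
  intro a ha
  rw [hQ a ha, hodgePeriod_eq M a (q a) (hq a ha)]

theorem det_eq_one_of_isEmpty {κ : Type} [Fintype κ] [DecidableEq κ] [IsEmpty κ] {m : ℕ}
    {A : Matrix κ (Fin m) E} (hA : Function.Injective A.mulVec) (X : Matrix (Fin m) (Fin m) R) :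
    X.det = 1 := by
  have hm : m = 0 := by
    by_contra hne
    have h1 : (Pi.single ⟨0, Nat.pos_of_ne_zero hne⟩ 1 : Fin m → E) = 0 := by
      apply hA
      funext s
      exact isEmptyElim s
    have h2 := congrFun h1 ⟨0, Nat.pos_of_ne_zero hne⟩
    simp at h2
  subst hm
  exact det_isEmpty

/-- The closed formula. -/
theorem symp_closed (hR : Detected R) (ρ : SympRep E n κ k) (M : Datum R n w) (ν : Rˣ)
    (hν : M.compᵀ * symJ R n * M.comp = (ν : R) • symJ R n) (hk : Odd k) (hw : Odd w) :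
    ∃ (K b : ℤ) (D : ℤ → ℤ), (∀ i, 2 * K = moment ρ i) ∧
      2 * (n * K) + 4 * b = k * Fintype.card κ ∧
      (∀ i, 2 * D (w - M.p i) + K = lowWt ρ M i) ∧
      ∀ (ε : ℤ), (ε = 1 ∨ ε = -1) → ∀ (x c : R) (q : ℤ → R), IsSympPeriod ρ M (ε : E) x →
        IsPeriod (std E n) M (ε : E) c → (∀ a ∈ lowIndices M, IsHodgePeriod M a (q a)) →
        ∃ (x' c' : Rˣ) (q' : ℤ → Rˣ) (e : Eˣ), (x' : R) = x ∧ (c' : R) = c ∧
          (∀ a ∈ lowIndices M, (q' a : R) = q a) ∧
          x' = Units.map (algebraMap E R).toMonoidHom e * c' ^ K * ν ^ b *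
            ∏ a ∈ lowIndices M, q' a ^ D a := by
  rcases Nat.eq_zero_or_pos n with h0 | hpos
  · subst h0
    have hκ : IsEmpty κ := by
      constructor
      intro s
      have h1 := ρ.deg s
      have h2 : ∑ j : Idx 0, ρ.wt s j = 0 := Fintype.sum_empty _
      rw [h2] at h1
      rw [← h1] at hk
      exact absurd hk (by decide)
    have hlow : lowIndices M = ∅ := by
      unfold lowIndices
      simp
    refine ⟨0, 0, 0, fun i => i.elim0, by simp, fun i => i.elim0, ?_⟩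
    intro ε _ x c q hx hc _
    obtain ⟨m, A, B, hA, -, -, -, rfl⟩ := hx
    obtain ⟨m', A', B', hA', -, -, -, rfl⟩ := hc
    refine ⟨1, 1, fun _ => 1, 1, ?_, ?_, ?_, ?_⟩
    · rw [det_eq_one_of_isEmpty hA]
      rfl
    · rw [det_eq_one_of_isEmpty hA']
      rfl
    · intro a ha
      rw [hlow] at ha
      exact absurd ha (Finset.notMem_empty a)
    · rw [hlow]
      simp
  · exact symp_closed_pos hR ρ M ν hν hk hw hpos

theorem lowWt_eq (hk : Odd k) (hw : Odd w) (ρ : SympRep E n κ k) (M : Datum R n w) (i : Fin n) :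
    lowWt ρ M i = ∑ s with 2 * ρ.hodgeIdx M s < k * w,
      ((ρ.wt s (Sum.inr i) : ℤ) - ρ.wt s (Sum.inl i)) := by
  unfold lowWt
  have h1 : ∀ s : κ, hI ρ M.p w s < (k * w + 1) / 2 ↔ 2 * ρ.hodgeIdx M s < k * w := by
    intro s
    have h2 : hI ρ M.p w s = ρ.hodgeIdx M s := rfl
    rw [h2]
    obtain ⟨r, hr⟩ := odd_mul (k := k) (w := w) hk hw
    rw [hr]
    omega
  symm
  apply Finset.sum_subtype
  intro s
  rw [Finset.mem_filter, h1]
  simp

end Pool.Agent.MP100fe7.GSp
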