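import Pool.Agent.Lib.MP_100fe7_nt.SFactor2

/-!
The components of the comparison matrix of a polarised motive of odd weight.
-/

set_option linter.unusedSectionVars false

namespace Pool.Agent.MP100fe7.GSp

open Matrix Pool.Agent.MP100fe7

variable {R : Type} [CommRing R] {n : ℕ} {w : ℤ} (M : Datum R n w)

theorem cutT_apply_low {S : Type} [CommRing S] (C : Matrix (Fin n) (Fin n) S) (i j : Fin n) :
    cutT M C (lowIndices M) i j = if M.p i = M.p j then C i j else 0 := by
  simp only [cutT, Matrix.of_apply]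
  have h1 : w - M.p i ∈ lowIndices M := Finset.mem_image_of_mem _ (Finset.mem_univ i)
  rw [if_pos h1]

theorem b_entry_inl (i j : Fin n) (hij : M.p i = M.p j) :
    M.b (Sum.inl i) (Sum.inl j) = if i = j then 1 else 0 := by
  have h1 := congrFun (congrFun (levi_b M) (Sum.inl i)) (Sum.inl j)
  rw [Matrix.of_apply, fromBlocks_apply₁₁, Matrix.one_apply] at h1
  rw [← h1, if_pos]
  simp only [Datum.hodgeIdx, Sum.elim_inl]
  exact hij

theorem gram_apply (φ : R →+* ℂ) (i j : Fin n) (hij : M.p i = M.p j) :
    (((M.b.map φ).toBlocks₁₁)ᵀ * (M.b.map φ).toBlocks₂₂) i j = φ (cBlock M i j) := by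
  rw [Matrix.mul_apply, Finset.sum_eq_single i]
  · rw [transpose_apply]
    simp only [toBlocks₁₁, toBlocks₂₂, Matrix.of_apply, Matrix.map_apply]
    rw [b_entry_inl M i i rfl, if_pos rfl, map_one, one_mul]
    rfl
  · intro l _ hl
    rw [transpose_apply]
    simp only [toBlocks₁₁, toBlocks₂₂, Matrix.of_apply, Matrix.map_apply]
    rcases lt_trichotomy (M.p l) (M.p i) with h | h | h
    · rw [M.b_parabolic (Sum.inl l) (Sum.inl i) (by simpa [Datum.hodgeIdx] using h), map_zero,
        zero_mul]
    · rw [b_entry_inl M l i h, if_neg hl, map_zero, zero_mul]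
    · rw [M.b_parabolic (Sum.inr l) (Sum.inr j) (by
        simp only [Datum.hodgeIdx, Sum.elim_inr]
        omega), map_zero, mul_zero]
  · simp

theorem comp_data (φ : R →+* ℂ) (ν : Rˣ)
    (hν : M.compᵀ * symJ R n * M.comp = (ν : R) • symJ R n)
    {h₁ h₂ : Matrix (Fin n) (Fin n) R} (hu₁ : IsUnit h₁.det) (hu₂ : IsUnit h₂.det)
    (hX : M.comp = M.b * gz R n * fromBlocks h₁ 0 0 h₂) :
    ∃ (b' : Matrix (Idx n) (Idx n) ℂ) (t : Matrix (Fin n) (Fin n) ℂ) (τ : ℤ → ℂˣ),
      IsSymp b' ∧ IsLevi M b' ∧ t.det = ((∏ a ∈ lowIndices M, τ a : ℂˣ) : ℂ) ∧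
      (∀ a ∈ lowIndices M, (τ a : ℂ) ^ 2 = φ (blockOf M (cBlock M) a).det) ∧
      (t * h₁.map φ)ᵀ * (t * h₂.map φ) = (-(φ ν) / 2) • 1 ∧
      M.comp.map φ = b' * gz ℂ n * fromBlocks (t * h₁.map φ) 0 0 (t * h₂.map φ) ∧
      ∀ (E : Type) [Field E] [CharZero E] [Algebra E ℂ] (k : ℕ) (κ : Type) [Fintype κ]
        [DecidableEq κ] (ρ : SympRep E n κ k) (L : ℤ → ℤ),
        (∀ i, L (w - M.p i) = lowWt ρ M i) →
        dR ρ M ℂ b' = ((∏ a ∈ lowIndices M, τ a ^ L a : ℂˣ) : ℂ) := by
  have hdet : ∀ {α : Type} [Fintype α] [DecidableEq α] (Y : Matrix α α R),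
      (Y.map φ).det = φ Y.det := by
    intro α _ _ Y
    exact (RingHom.map_det φ Y).symm
  have hX' : M.comp.map φ =
      M.b.map φ * gz ℂ n * fromBlocks (h₁.map φ) 0 0 (h₂.map φ) := by
    rw [hX, Matrix.map_mul, Matrix.map_mul]
    congr 1
    · congr 1
      unfold gz
      rw [fromBlocks_map]
      congr 1
      · exact Matrix.map_one _ (map_zero _) (map_one _)
      · exact Matrix.map_one _ (map_zero _) (map_one _)
      · exact Matrix.map_one _ (map_zero _) (map_one _)
      · ext a b
        simp [Matrix.one_apply]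
    · rw [fromBlocks_map]
      congr 1
      · ext a b
        simp
      · ext a b
        simp
  have hν' : (M.comp.map φ)ᵀ * symJ ℂ n * (M.comp.map φ) =
      ((Units.map φ.toMonoidHom ν : ℂˣ) : ℂ) • symJ ℂ n := by
    have h1 := congrArg (fun X : Matrix (Idx n) (Idx n) R => X.map φ) hν
    simp only [Matrix.map_mul] at h1
    rw [symJ_map, transpose_map] at h1
    rw [h1]
    ext i j
    simp only [Matrix.map_apply, Matrix.smul_apply, smul_eq_mul, map_mul]
    rw [← symJ_map φ]
    simp
  have hbu : IsUnit (M.b.map φ).det := by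
    rw [hdet]
    exact (isUnit_b M).map _
  obtain ⟨t, htu, htt, htp, htinv, hb's, hb'p, hmult, hX''⟩ := factor_symp2 M.p w M.two_p
    (Units.map φ.toMonoidHom ν) hν' hbu
    (by
      intro i j hij
      rw [Matrix.map_apply, M.b_parabolic i j hij, map_zero])
    (by rw [hdet]; exact hu₁.map _) (by rw [hdet]; exact hu₂.map _) hX'
  -- the Gram matrix
  have hgram : tᵀ * t = (cutT M (cBlock M) (lowIndices M)).map φ := by
    ext i j
    rw [Matrix.map_apply, cutT_apply_low]
    by_cases hij : M.p i = M.p j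
    · rw [htt, gram_apply M φ i j hij, if_pos hij]
    · rw [if_neg hij, map_zero, Matrix.mul_apply]
      apply Finset.sum_eq_zero
      intro l _
      rw [transpose_apply]
      by_cases hl : M.p l = M.p i
      · rw [htp l j (by rw [hl]; exact hij), mul_zero]
      · rw [htp l i hl, zero_mul]
  have htT : ∀ i j, M.p i ≠ M.p j → tᵀ i j = 0 := by
    intro i j hij
    rw [transpose_apply]
    exact htp j i (Ne.symm hij)
  have hτ : ∀ a, IsUnit (blockOf M t a).det := by
    intro a
    have h1 : blockOf M t a * blockOf M t⁻¹ a = 1 := by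
      rw [← blockOf_mul M t t⁻¹ a htinv, mul_nonsing_inv _ htu]
      ext i j
      simp only [blockOf, Matrix.of_apply, Matrix.one_apply]
      by_cases hij : i = j
      · subst hij
        simp
      · rw [if_neg hij, if_neg (fun h => hij (Subtype.ext h))]
    exact isUnit_det_of_right_inverse h1
  let τ : ℤ → ℂˣ := fun a => (hτ a).unit
  have hτ' : ∀ a, (τ a : ℂ) = (blockOf M t a).det := fun a => (hτ a).unit_spec
  have hbT : ∀ a, blockOf M tᵀ a = (blockOf M t a)ᵀ := by
    intro a
    ext i j
    rfl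
  refine ⟨M.b.map φ * fromBlocks t⁻¹ 0 0 t⁻¹, t, τ, hb's, hb'p, ?_, ?_, hmult, hX'', ?_⟩
  · conv_lhs => rw [← cutT_low M t htp]
    rw [det_cutT, Units.coe_prod]
    exact Finset.prod_congr rfl (fun a _ => (hτ' a).symm)
  · intro a _
    rw [hτ', pow_two]
    have h1 : (blockOf M t a).det * (blockOf M t a).det = (blockOf M (tᵀ * t) a).det := by
      rw [blockOf_mul M tᵀ t a htp, det_mul, hbT, det_transpose]
    rw [h1, hgram, ← hdet]
    congr 1
    ext i j
    simp only [blockOf, Matrix.of_apply, Matrix.map_apply]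
    rw [cutT_apply_low, if_pos]
    have h2 := i.2
    have h3 := j.2
    omega
  · intro E _ _ _ k κ _ _ ρ L hL
    -- diagonal blocks
    have hdiag : ∀ i j, (fromBlocks t⁻¹ 0 0 tᵀ : Matrix (Idx n) (Idx n) ℂ) i j =
        if idx M.p w i = idx M.p w j then (M.b.map φ * fromBlocks t⁻¹ 0 0 t⁻¹) i j else 0 := by
      intro i j
      rcases i with i | i <;> rcases j with j | j
      · rw [fromBlocks_apply₁₁]
        by_cases hij : M.p i = M.p j
        · rw [if_pos (by simpa [idx] using hij), Matrix.mul_apply, Fintype.sum_sum_type]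
          simp only [fromBlocks_apply₁₁, fromBlocks_apply₂₁, Matrix.zero_apply, mul_zero,
            Finset.sum_const_zero, add_zero]
          rw [Finset.sum_eq_single i]
          · rw [Matrix.map_apply, b_entry_inl M i i rfl, if_pos rfl, map_one, one_mul]
          · intro l _ hl
            by_cases hlj : M.p l = M.p j
            · rw [Matrix.map_apply, b_entry_inl M i l (hij.trans hlj.symm), if_neg (Ne.symm hl),
                map_zero, zero_mul]
            · rw [htinv l j hlj, mul_zero]
          · simp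
        · rw [if_neg (by simpa [idx] using hij), htinv i j hij]
      · rw [if_neg]
        · rfl
        · have h1 := M.two_p i
          have h2 := M.two_p j
          simp only [idx, Sum.elim_inl, Sum.elim_inr]
          omega
      · rw [if_neg]
        · rfl
        · have h1 := M.two_p i
          have h2 := M.two_p j
          simp only [idx, Sum.elim_inl, Sum.elim_inr]
          omega
      · rw [fromBlocks_apply₂₂]
        by_cases hij : M.p i = M.p j
        · rw [if_pos (by simpa [idx] using hij), Matrix.mul_apply, Fintype.sum_sum_type]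
          simp only [fromBlocks_apply₂₂, fromBlocks_apply₁₂, Matrix.zero_apply, mul_zero,
            Finset.sum_const_zero, zero_add]
          have h1 : tᵀ = (cutT M (cBlock M) (lowIndices M)).map φ * t⁻¹ := by
            rw [← hgram, Matrix.mul_assoc, mul_nonsing_inv _ htu, Matrix.mul_one]
          conv_lhs => rw [h1]
          rw [Matrix.mul_apply]
          apply Finset.sum_congr rfl
          intro l _
          by_cases hlj : M.p l = M.p j
          · rw [Matrix.map_apply, Matrix.map_apply, cutT_apply_low, if_pos (hij.trans hlj.symm)]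
            rfl
          · rw [htinv l j hlj, mul_zero, mul_zero]
        · rw [if_neg (by simpa [idx] using hij), htT i j hij]
    have hlevi : IsSymp (fromBlocks t⁻¹ 0 0 tᵀ : Matrix (Idx n) (Idx n) ℂ) := by
      apply isSymp_fromBlocks 1
      rw [← transpose_mul, mul_nonsing_inv _ htu]
      simp
    have h1 : dR ρ M ℂ (M.b.map φ * fromBlocks t⁻¹ 0 0 t⁻¹) =
        dR ρ M ℂ (fromBlocks t⁻¹ 0 0 tᵀ) := by
      unfold dR
      apply dLo_congr
      · intro s u hsu
        exact ρ.ev_parabolic (idx M.p w) w (idx_add M.p w) hb's hb'p s u hsu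
      · intro s u hsu
        apply ρ.ev_parabolic (idx M.p w) w (idx_add M.p w) hlevi _ s u hsu
        intro i j hij
        rw [hdiag, if_neg (ne_of_lt hij)]
      · intro s u hsu
        exact ev_diagBlocks ρ (idx M.p w) w (idx_add M.p w) hb's hb'p hdiag s u hsu
    have hUV : ∀ a, (blockOf M t⁻¹ a)ᵀ * blockOf M tᵀ a = 1 := by
      intro a
      have h2 : (blockOf M t⁻¹ a)ᵀ = blockOf M (t⁻¹)ᵀ a := by
        ext i j
        rfl
      rw [h2, ← blockOf_mul M (t⁻¹)ᵀ tᵀ a htT, ← transpose_mul, mul_nonsing_inv _ htu,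
        transpose_one]
      ext i j
      simp only [blockOf, Matrix.of_apply, Matrix.one_apply]
      by_cases hij : i = j
      · subst hij
        simp
      · rw [if_neg hij, if_neg (fun h => hij (Subtype.ext h))]
    have h2 := (dR_cutT ρ M t⁻¹ tᵀ hUV (lowIndices M)).2
    rw [cutT_low M t⁻¹ htinv, cutT_low M tᵀ htT] at h2
    rw [h1, h2, Units.coe_prod]
    apply Finset.prod_congr rfl
    intro a ha
    obtain ⟨i, _, hi⟩ := Finset.mem_image.mp ha
    have hi' : w - M.p i = a := hi
    rw [dR_embS ρ M a ⟨i, hi'⟩ _ _ (hUV a), hbT, det_transpose, Units.val_zpow_eq_zpow_val, hτ']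
    have h3 : L a = lowWt ρ M i := by rw [← hi', hL i]
    rw [h3]

end Pool.Agent.MP100fe7.GSp
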