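import Mathlib

/-!
The ring `E ⊗ ℂ` is detected by its homomorphisms to `ℂ`.
-/

namespace Pool.Agent.MP100fe7.GSp

open TensorProduct

theorem exists_homs (R : Type) [CommRing R] [Algebra ℂ R] [Module.Finite ℂ R] [IsReduced R] :
    ∃ (I : Type) (φ : I → R →+* ℂ), (∀ x y, (∀ i, φ i x = φ i y) → x = y) ∧
      (∀ x, (∀ i, φ i x ≠ 0) → IsUnit x) := by
  have hart : IsArtinianRing R := IsArtinianRing.of_finite ℂ R
  have hlift : ∀ m : MaximalSpectrum R, ∃ f : R →+* ℂ, ∀ x, f x = 0 ↔ x ∈ m.asIdeal := by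
    intro m
    have hm : m.asIdeal.IsMaximal := m.isMaximal
    let _ : Field (R ⧸ m.asIdeal) := Ideal.Quotient.field m.asIdeal
    have hfin : Module.Finite ℂ (R ⧸ m.asIdeal) := inferInstance
    have halg : Algebra.IsAlgebraic ℂ (R ⧸ m.asIdeal) := Algebra.IsAlgebraic.of_finite ℂ _
    let g : (R ⧸ m.asIdeal) →ₐ[ℂ] ℂ := IsAlgClosed.lift
    refine ⟨g.toRingHom.comp (Ideal.Quotient.mk m.asIdeal), ?_⟩
    intro x
    rw [← Ideal.Quotient.eq_zero_iff_mem]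
    simp
  choose f hf using hlift
  refine ⟨MaximalSpectrum R, f, ?_, ?_⟩
  · intro x y hxy
    rw [← sub_eq_zero]
    have h1 : x - y ∈ nilradical R := by
      rw [← Ring.jacobson_eq_nilradical_of_krullDimLE_zero, Ring.jacobson_eq_sInf_isMaximal,
        Submodule.mem_sInf]
      intro m hm
      have := (hf ⟨m, hm⟩ (x - y)).mp (by rw [map_sub, hxy, sub_self])
      exact this
    rw [nilradical_eq_zero] at h1
    exact h1
  · intro x hx
    by_contra h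
    obtain ⟨m, hm, hxm⟩ := exists_max_ideal_of_mem_nonunits h
    exact hx ⟨m, hm⟩ ((hf ⟨m, hm⟩ x).mpr hxm)

theorem exists_homs_tensor (E : Type) [Field E] [NumberField E] :
    ∃ (I : Type) (φ : I → (E ⊗[ℚ] ℂ) →+* ℂ), (∀ x y, (∀ i, φ i x = φ i y) → x = y) ∧
      (∀ x, (∀ i, φ i x ≠ 0) → IsUnit x) := by
  have h0 : Algebra.FormallyUnramified ℚ E := Algebra.FormallyUnramified.of_isSeparable ℚ E
  have h1 : IsReduced (ℂ ⊗[ℚ] E) :=
    Algebra.FormallyUnramified.isReduced_of_field ℂ (ℂ ⊗[ℚ] E)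
  obtain ⟨I, φ, h2, h3⟩ := exists_homs (ℂ ⊗[ℚ] E)
  let e : E ⊗[ℚ] ℂ ≃ₐ[ℚ] ℂ ⊗[ℚ] E := Algebra.TensorProduct.comm ℚ E ℂ
  refine ⟨I, fun i => (φ i).comp e.toRingEquiv.toRingHom, ?_, ?_⟩
  · intro x y hxy
    apply e.injective
    apply h2
    exact hxy
  · intro x hx
    have h4 := h3 (e x) hx
    have h5 := h4.map e.symm
    simpa using h5

end Pool.Agent.MP100fe7.GSp
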