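import Pool.Agent.Lib.MP_100fe7_nt.SMain
import Pool.Agent.Lib.MP_100fe7_nt.Exist

/-!
Existence of the periods of `ρ(M)` for representations of `GSp_{2n}`.
-/

set_option linter.unusedSectionVars false

namespace Pool.Agent.MP100fe7.GSp

open Matrix Pool.Agent.MP100fe7

variable {E : Type} [Field E] [CharZero E] {R : Type} [CommRing R] [Algebra E R]
  {n k : ℕ} {w : ℤ}
  {κ : Type} [Fintype κ] [DecidableEq κ] (ρ : SympRep E n κ k) (M : Datum R n w)

theorem hI_eq (s : κ) : hI ρ M.p w s = ρ.hodgeIdx M s := rfl

/-- the lower part of the de Rham basis of `ρ(M)` -/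
def lo (s : κ) : Prop := ρ.hodgeIdx M s < (k * w + 1) / 2

instance : DecidablePred (lo ρ M) := fun s => by
  unfold lo
  infer_instance

theorem odd_mul (hk : Odd k) (hw : Odd w) : ∃ r : ℤ, (k : ℤ) * w = 2 * r + 1 := by
  have : Odd (k : ℤ) := by exact_mod_cast hk
  exact this.mul hw

theorem idxM_add (i : Fin n) : M.hodgeIdx (Sum.inl i) + M.hodgeIdx (Sum.inr i) = w := by
  simp [Datum.hodgeIdx]

theorem card_hi_le (hk : Odd k) (hw : Odd w) :
    Fintype.card {s // ¬ lo ρ M s} ≤ Fintype.card {s // lo ρ M s} := by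
  apply card_le_aux (fun s => ¬ lo ρ M s) (lo ρ M) (ρ.ev E (swapM E n)) (ρ.ev E (swapM E n))
    (ρ.ev_inv_mul isSymp_swapM swapM_mul_swapM)
  intro x hx
  funext s
  by_cases hs : lo ρ M s
  · exact hx s hs
  · simp only [mulVec, dotProduct, Pi.zero_apply]
    apply Finset.sum_eq_zero
    intro t _
    by_contra hne
    have h1 := left_ne_zero_of_mul hne
    have h2 := right_ne_zero_of_mul hne
    have h3 : ¬ lo ρ M t := by
      intro h
      apply h2
      simp [ext0, h]
    have h4 := ρ.ev_swap M.hodgeIdx w (idxM_add M) s t h1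
    obtain ⟨r, hr⟩ := odd_mul hk hw
    unfold lo at hs h3
    unfold SympRep.hodgeIdx at hs h3
    rw [hr] at h4 hs h3
    omega

theorem card_lo_le :
    Fintype.card {s // lo ρ M s} ≤ Fintype.card {s // ¬ lo ρ M s} := by
  apply card_le_aux (lo ρ M) (fun s => ¬ lo ρ M s) (ρ.ev E (swapM E n)) (ρ.ev E (swapM E n))
    (ρ.ev_inv_mul isSymp_swapM swapM_mul_swapM)
  intro x hx
  funext s
  by_cases hs : lo ρ M s
  · simp only [mulVec, dotProduct, Pi.zero_apply]
    apply Finset.sum_eq_zero
    intro t _
    by_contra hne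
    have h1 := left_ne_zero_of_mul hne
    have h2 := right_ne_zero_of_mul hne
    have h3 : lo ρ M t := by
      by_contra h
      apply h2
      simp [ext0, h]
    have h4 := ρ.ev_swap M.hodgeIdx w (idxM_add M) s t h1
    unfold lo at hs h3
    unfold SympRep.hodgeIdx at hs h3
    omega
  · exact hx s hs

theorem card_sgn_le (hk : Odd k) (hw : Odd w) (z : ℤ) (hz : z * z = 1) :
    Fintype.card {s // ρ.sgn s = z} ≤ Fintype.card {s // lo ρ M s} := by
  have h2 : IsUnit (2 : E) := (two_ne_zero).isUnit
  have hgs : IsSymp (gz E n) := isSymp_gz h2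
  apply card_le_aux (fun s => ρ.sgn s = z) (lo ρ M) (ρ.ev E (gz E n)) (ρ.ev E (gz E n)⁻¹)
    (ρ.ev_inv_mul hgs.inv (nonsing_inv_mul _ hgs.isUnit_det))
  intro x hx
  have hε : (z : E) * (z : E) = 1 := by exact_mod_cast congrArg (fun y : ℤ => (y : E)) hz
  apply eq_zero_of_swap ρ M.p w hk hw hε
  · exact hx
  · rw [mulVec_mulVec, ← ρ.ev_mul _ isSymp_swapM hgs, swapM_mul_gz, ρ.ev_mul _ hgs isSymp_frob,
      ← mulVec_mulVec, ← mulVec_smul]
    congr 1
    rw [ρ.ev_frob]
    funext s
    rw [mulVec_diagonal]
    simp only [Pi.smul_apply, smul_eq_mul]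
    by_cases hs : ρ.sgn s = z
    · rw [hs]
    · simp [ext0, hs]

theorem card_sgn_eq (hk : Odd k) (hw : Odd w) :
    Fintype.card {s // ρ.sgn s = 1} = Fintype.card {s // lo ρ M s} ∧
    Fintype.card {s // ρ.sgn s = -1} = Fintype.card {s // lo ρ M s} := by
  have h1 := card_sgn_le ρ M hk hw 1 (by norm_num)
  have h2 := card_sgn_le ρ M hk hw (-1) (by norm_num)
  have h3 := card_hi_le ρ M hk hw
  have h4 := card_lo_le ρ M
  have h5 : Fintype.card {s // ρ.sgn s = 1} + Fintype.card {s // ρ.sgn s = -1} =
      Fintype.card κ := by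
    have e1 := Fintype.card_congr (Equiv.sumCompl (fun s => ρ.sgn s = 1))
    rw [Fintype.card_sum] at e1
    rw [← e1]
    congr 1
    apply Fintype.card_congr
    apply Equiv.subtypeEquivRight
    intro s
    rcases ρ.sgn_eq s with h | h
    · rw [h]
      norm_num
    · rw [h]
      norm_num
  have h6 : Fintype.card {s // lo ρ M s} + Fintype.card {s // ¬ lo ρ M s} = Fintype.card κ := by
    have e1 := Fintype.card_congr (Equiv.sumCompl (lo ρ M))
    rw [Fintype.card_sum] at e1
    exact e1
  omega

theorem exists_period_aux (hk : Odd k) (hw : Odd w) (z : ℤ) (hz : z = 1 ∨ z = -1) :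
    ∃ x : R, IsSympPeriod ρ M (z : E) x := by
  have hc : Fintype.card {s // ρ.sgn s = z} = Fintype.card {s // lo ρ M s} := by
    rcases hz with rfl | rfl
    · exact (card_sgn_eq ρ M hk hw).1
    · exact (card_sgn_eq ρ M hk hw).2
  let φ : Fin (Fintype.card {s // lo ρ M s}) ≃ {s // ρ.sgn s = z} :=
    (finCongr hc.symm).trans (Fintype.equivFin _).symm
  let ψ : Fin (Fintype.card {s // lo ρ M s}) ≃ {s // lo ρ M s} := (Fintype.equivFin _).symm
  refine ⟨_, Fintype.card {s // lo ρ M s},
    (1 : Matrix κ κ E).submatrix id (fun j => (φ j).1),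
    (1 : Matrix κ κ E).submatrix (fun j => (ψ j).1) id, ?_, ?_, ?_, ?_, rfl⟩
  · -- injective
    intro x y hxy
    funext j
    have h1 := congrFun hxy (φ j).1
    simp only [mulVec, dotProduct, submatrix_apply, id_eq, Matrix.one_apply] at h1
    have h2 : ∀ (x : Fin (Fintype.card {s // lo ρ M s}) → E),
        ∑ i, (if (φ j).1 = (φ i).1 then (1 : E) else 0) * x i = x j := by
      intro x
      rw [Finset.sum_eq_single j]
      · simp
      · intro i _ hi
        rw [if_neg, zero_mul]
        intro h
        exact hi (φ.injective (Subtype.ext h)).symm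
      · simp
    rw [h2, h2] at h1
    exact h1
  · -- range
    intro v
    have hfrob : evalMat ρ.mat E (frob E n) = diagonal fun s => ((ρ.sgn s : ℤ) : E) :=
      ρ.ev_frob E
    rw [hfrob]
    constructor
    · rintro ⟨x, rfl⟩
      funext s
      rw [mulVec_diagonal]
      simp only [mulVec, dotProduct, submatrix_apply, id_eq, Matrix.one_apply, Pi.smul_apply,
        smul_eq_mul]
      by_cases hs : ρ.sgn s = z
      · rw [hs]
      · have h0 : ∑ i, (if s = (φ i).1 then (1 : E) else 0) * x i = 0 := by
          apply Finset.sum_eq_zero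
          intro i _
          rw [if_neg, zero_mul]
          rintro rfl
          exact hs (φ i).2
        rw [h0, mul_zero, mul_zero]
    · intro hv
      refine ⟨fun i => v (φ i).1, ?_⟩
      funext s
      simp only [mulVec, dotProduct, submatrix_apply, id_eq, Matrix.one_apply]
      by_cases hs : ρ.sgn s = z
      · rw [Finset.sum_eq_single (φ.symm ⟨s, hs⟩)]
        · simp
        · intro i _ hi
          rw [if_neg, zero_mul]
          intro h
          apply hi
          rw [Equiv.eq_symm_apply]
          exact Subtype.ext h.symm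
        · simp
      · have h0 : ∑ i, (if s = (φ i).1 then (1 : E) else 0) * v (φ i).1 = 0 := by
          apply Finset.sum_eq_zero
          intro i _
          rw [if_neg, zero_mul]
          rintro rfl
          exact hs (φ i).2
        rw [h0]
        have h1 := congrFun hv s
        rw [mulVec_diagonal] at h1
        simp only [Pi.smul_apply, smul_eq_mul] at h1
        have h2 : (((ρ.sgn s : ℤ) : E) - z) * v s = 0 := by
          rw [sub_mul, h1, sub_self]
        rcases mul_eq_zero.mp h2 with h3 | h3
        · exfalso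
          apply hs
          rw [sub_eq_zero] at h3
          exact_mod_cast h3
        · exact h3.symm
  · -- surjective
    intro y
    refine ⟨ext0 (lo ρ M) (fun s => y (ψ.symm s)), ?_⟩
    funext j
    simp only [mulVec, dotProduct, submatrix_apply, id_eq, Matrix.one_apply]
    rw [Finset.sum_eq_single (ψ j).1]
    · rw [if_pos rfl, one_mul, ext0_apply]
      simp
    · intro s _ hs
      rw [if_neg (Ne.symm hs), zero_mul]
    · simp
  · -- kernel
    intro v
    constructor
    · intro h s hs
      have h1 := congrFun h (ψ.symm ⟨s, hs⟩)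
      simp only [mulVec, dotProduct, submatrix_apply, id_eq, Matrix.one_apply,
        Equiv.apply_symm_apply, Pi.zero_apply] at h1
      rw [Finset.sum_eq_single s] at h1
      · simpa using h1
      · intro t _ ht
        rw [if_neg (Ne.symm ht), zero_mul]
      · simp
    · intro h
      funext j
      simp only [mulVec, dotProduct, submatrix_apply, id_eq, Matrix.one_apply, Pi.zero_apply]
      apply Finset.sum_eq_zero
      intro s _
      by_cases hs : (ψ j).1 = s
      · rw [h s (by rw [← hs]; exact (ψ j).2), mul_zero]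
      · rw [if_neg hs, zero_mul]

/-- The periods `c^+` and `c^-` of `ρ(M)` exist. -/
theorem exists_period (hk : Odd k) (hw : Odd w) :
    (∃ x : R, IsSympPeriod ρ M (1 : E) x) ∧ (∃ x : R, IsSympPeriod ρ M (-1 : E) x) := by
  constructor
  · have := exists_period_aux (R := R) ρ M hk hw 1 (Or.inl rfl)
    simpa using this
  · have := exists_period_aux (R := R) ρ M hk hw (-1) (Or.inr rfl)
    simpa using this

end Pool.Agent.MP100fe7.GSp
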