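import Pool.Agent.Lib.MP_100fe7_nt.Factor
import Pool.Agent.Lib.MP_100fe7_nt.Defs3

/-!
Basic facts on symplectic similitudes and on representations of `GSp_{2n}`.
-/

set_option linter.unusedSectionVars false

namespace Pool.Agent.MP100fe7

open Matrix

section symp

variable {S : Type} [CommRing S] {n : ℕ}

theorem symJ_mul_symJ : symJ S n * symJ S n = -1 := by
  unfold symJ
  rw [fromBlocks_multiply]
  simp only [Matrix.mul_neg, Matrix.mul_one, Matrix.mul_zero, zero_add, add_zero]
  rw [← fromBlocks_one, fromBlocks_neg]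
  simp

theorem isUnit_det_symJ : IsUnit (symJ S n).det := by
  apply isUnit_det_of_right_inverse (B := -symJ S n)
  rw [Matrix.mul_neg, symJ_mul_symJ, neg_neg]

theorem IsSymp.mul {A B : Matrix (Idx n) (Idx n) S} (hA : IsSymp A) (hB : IsSymp B) :
    IsSymp (A * B) := by
  obtain ⟨a, ha⟩ := hA
  obtain ⟨b, hb⟩ := hB
  refine ⟨a * b, ?_⟩
  rw [transpose_mul]
  calc Bᵀ * Aᵀ * symJ S n * (A * B) = Bᵀ * (Aᵀ * symJ S n * A) * B := by
        simp only [Matrix.mul_assoc]
    _ = _ := by
        rw [ha, Matrix.mul_smul, Matrix.smul_mul, hb, smul_smul]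
        simp

theorem isSymp_one : IsSymp (1 : Matrix (Idx n) (Idx n) S) :=
  ⟨1, by simp⟩

theorem IsSymp.isUnit_det {A : Matrix (Idx n) (Idx n) S} (hA : IsSymp A) : IsUnit A.det := by
  obtain ⟨a, ha⟩ := hA
  have h1 := congrArg Matrix.det ha
  rw [det_mul, det_mul, det_smul] at h1
  have h2 : IsUnit (Aᵀ.det * (symJ S n).det * A.det) := by
    rw [h1]
    exact (a.isUnit.pow _).mul isUnit_det_symJ
  exact isUnit_of_mul_isUnit_right h2

theorem IsSymp.of_mul_eq_one {A B : Matrix (Idx n) (Idx n) S} (hA : IsSymp A) (h : A * B = 1) :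
    IsSymp B := by
  obtain ⟨a, ha⟩ := hA
  refine ⟨a⁻¹, ?_⟩
  have h1 : Bᵀ * (Aᵀ * symJ S n * A) * B = symJ S n := by
    have h2 : Bᵀ * Aᵀ = 1 := by rw [← transpose_mul, h, transpose_one]
    calc Bᵀ * (Aᵀ * symJ S n * A) * B = (Bᵀ * Aᵀ) * symJ S n * (A * B) := by
          simp only [Matrix.mul_assoc]
      _ = _ := by rw [h2, h, Matrix.one_mul, Matrix.mul_one]
  rw [ha, Matrix.mul_smul, Matrix.smul_mul] at h1
  have h3 := congrArg (fun X => ((a⁻¹ : Sˣ) : S) • X) h1
  simp only [smul_smul, Units.inv_mul, one_smul] at h3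
  exact h3

theorem IsSymp.inv {A : Matrix (Idx n) (Idx n) S} (hA : IsSymp A) : IsSymp A⁻¹ :=
  hA.of_mul_eq_one (mul_nonsing_inv _ hA.isUnit_det)

theorem IsSymp.of_mul_right {A B : Matrix (Idx n) (Idx n) S} (hAB : IsSymp (A * B))
    (hB : IsSymp B) : IsSymp A := by
  have h1 : A = A * B * B⁻¹ := by
    rw [Matrix.mul_assoc, mul_nonsing_inv _ hB.isUnit_det, Matrix.mul_one]
  rw [h1]
  exact hAB.mul hB.inv

theorem IsSymp.of_mul_left {A B : Matrix (Idx n) (Idx n) S} (hAB : IsSymp (A * B))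
    (hA : IsSymp A) : IsSymp B := by
  have h1 : B = A⁻¹ * (A * B) := by
    rw [← Matrix.mul_assoc, nonsing_inv_mul _ hA.isUnit_det, Matrix.one_mul]
  rw [h1]
  exact hA.inv.mul hAB

theorem symJ_map {S' : Type} [CommRing S'] (f : S →+* S') :
    (symJ S n).map f = symJ S' n := by
  unfold symJ
  rw [fromBlocks_map]
  congr 1
  · ext i j
    simp
  · exact Matrix.map_one _ (map_zero _) (map_one _)
  · ext i j
    simp [Matrix.one_apply]
  · ext i j
    simp

theorem IsSymp.map {S' : Type} [CommRing S'] (f : S →+* S') {A : Matrix (Idx n) (Idx n) S}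
    (hA : IsSymp A) : IsSymp (A.map f) := by
  obtain ⟨a, ha⟩ := hA
  refine ⟨Units.map f a, ?_⟩
  have h1 := congrArg (fun X : Matrix (Idx n) (Idx n) S => X.map f) ha
  simp only [Matrix.map_mul] at h1
  rw [symJ_map, transpose_map] at h1
  rw [h1]
  ext i j
  simp only [Matrix.map_apply, Matrix.smul_apply, smul_eq_mul, map_mul]
  rw [← symJ_map f]
  simp

theorem isSymp_fromBlocks {h₁ h₂ : Matrix (Fin n) (Fin n) S} (ν : Sˣ)
    (h : h₁ᵀ * h₂ = (ν : S) • 1) : IsSymp (fromBlocks h₁ 0 0 h₂) := by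
  refine ⟨ν, ?_⟩
  have h' : h₂ᵀ * h₁ = (ν : S) • 1 := by
    have h3 := congrArg Matrix.transpose h
    rw [transpose_mul, transpose_transpose, transpose_smul, transpose_one] at h3
    exact h3
  unfold symJ
  rw [fromBlocks_transpose, fromBlocks_multiply, fromBlocks_multiply, fromBlocks_smul]
  simp only [Matrix.mul_neg, Matrix.mul_one, Matrix.zero_mul, Matrix.mul_zero, zero_add, add_zero,
    transpose_zero, neg_zero, Matrix.neg_mul, h, h', smul_zero, smul_neg]

theorem isSymp_diagonal {x : Idx n → S} (ν : Sˣ)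
    (h : ∀ i, x (Sum.inl i) * x (Sum.inr i) = ν) : IsSymp (diagonal x) := by
  have h1 : (diagonal x : Matrix (Idx n) (Idx n) S) =
      fromBlocks (diagonal fun i => x (Sum.inl i)) 0 0 (diagonal fun i => x (Sum.inr i)) := by
    ext i j
    rcases i with i | i <;> rcases j with j | j <;> simp [diagonal_apply]
  rw [h1]
  apply isSymp_fromBlocks ν
  rw [diagonal_transpose, diagonal_mul_diagonal, ← diagonal_one, ← diagonal_smul]
  congr 1
  funext i
  simp [h i]

theorem isSymp_frob : IsSymp (frob S n) := by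
  unfold frob
  apply isSymp_diagonal (-1)
  intro i
  simp

theorem isSymp_swapM : IsSymp (swapM S n) := by
  refine ⟨-1, ?_⟩
  unfold swapM symJ
  rw [fromBlocks_transpose, fromBlocks_multiply, fromBlocks_multiply, fromBlocks_smul]
  simp

theorem isSymp_gz (h2 : IsUnit (2 : S)) : IsSymp (gz S n) := by
  obtain ⟨u, hu⟩ := h2
  refine ⟨-u, ?_⟩
  unfold gz symJ
  rw [fromBlocks_transpose, fromBlocks_multiply, fromBlocks_multiply, fromBlocks_smul]
  simp only [Matrix.mul_neg, Matrix.mul_one, Matrix.mul_zero, zero_add, add_zero,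
    transpose_one, Matrix.transpose_neg, neg_neg, Units.val_neg, hu,
    smul_zero, smul_neg, neg_smul]
  congr 1
  · simp
  · rw [two_smul]
    simp
  · rw [two_smul]
  · simp

end symp

variable {E : Type} [Field E] {n k : ℕ} {κ : Type} [Fintype κ] [DecidableEq κ]

namespace SympRep

variable (ρ : SympRep E n κ k)

/-- the representing matrix at `A` -/
noncomputable def ev (S : Type) [CommRing S] [Algebra E S] (A : Matrix (Idx n) (Idx n) S) :
    Matrix κ κ S :=
  evalMat ρ.mat S A

theorem ev_mul (S : Type) [CommRing S] [Algebra E S] {A B : Matrix (Idx n) (Idx n) S}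
    (hA : IsSymp A) (hB : IsSymp B) :
    ρ.ev S (A * B) = ρ.ev S A * ρ.ev S B := ρ.map_mul S A B hA hB

theorem ev_diagonal (S : Type) [CommRing S] [Algebra E S] (x : Idx n → S)
    (hx : IsSymp (diagonal x)) :
    ρ.ev S (diagonal x) = diagonal fun s => ∏ j, x j ^ ρ.wt s j := ρ.map_diagonal S x hx

theorem ev_one (S : Type) [CommRing S] [Algebra E S] : ρ.ev S 1 = 1 := by
  have h := ρ.ev_diagonal S 1 (by rw [diagonal_one']; exact isSymp_one)
  rw [diagonal_one'] at h
  rw [h]
  simp

theorem ev_map {S S' : Type} [CommRing S] [Algebra E S] [CommRing S'] [Algebra E S']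
    (φ : S →ₐ[E] S') (A : Matrix (Idx n) (Idx n) S) :
    (ρ.ev S A).map φ = ρ.ev S' (A.map φ) := by
  ext s t
  simp only [ev, evalMat, Matrix.map_apply]
  rw [← AlgHom.comp_apply, MvPolynomial.comp_aeval]

theorem ev_smul (S : Type) [CommRing S] [Algebra E S] (c : Sˣ) {A : Matrix (Idx n) (Idx n) S}
    (hA : IsSymp A) : ρ.ev S ((c : S) • A) = (c : S) ^ k • ρ.ev S A := by
  have h1 : (c : S) • A = diagonal (fun _ => (c : S)) * A := by
    rw [Matrix.smul_eq_diagonal_mul]
  have h2 : (fun s => ∏ j, (c : S) ^ ρ.wt s j) = fun _ : κ => (c : S) ^ k := by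
    funext s
    rw [Finset.prod_pow_eq_pow_sum, ρ.deg]
  have h3 : IsSymp (diagonal (fun _ : Idx n => (c : S))) := by
    apply isSymp_diagonal (c * c)
    intro i
    simp
  rw [h1, ρ.ev_mul _ h3 hA, ρ.ev_diagonal _ _ h3, h2, Matrix.smul_eq_diagonal_mul]

theorem ev_inv_mul {S : Type} [CommRing S] [Algebra E S] {A B : Matrix (Idx n) (Idx n) S}
    (hA : IsSymp A) (h : A * B = 1) : ρ.ev S A * ρ.ev S B = 1 := by
  rw [← ρ.ev_mul _ hA (hA.of_mul_eq_one h), h, ρ.ev_one]

/-- the sign by which `F_∞` acts on the basis vector `s` -/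
def sgn (s : κ) : ℤ := ∏ i, (-1) ^ ρ.wt s (Sum.inr i)

theorem sgn_mul_self (s : κ) : ρ.sgn s * ρ.sgn s = 1 := by
  unfold sgn
  rw [← Finset.prod_mul_distrib]
  apply Finset.prod_eq_one
  intro i _
  rw [← mul_pow]
  simp

theorem sgn_eq (s : κ) : ρ.sgn s = 1 ∨ ρ.sgn s = -1 := by
  have h := ρ.sgn_mul_self s
  have h2 : (ρ.sgn s - 1) * (ρ.sgn s + 1) = 0 := by linear_combination h
  rcases mul_eq_zero.mp h2 with h3 | h3
  · left; linarith
  · right; linarith

theorem ev_frob (S : Type) [CommRing S] [Algebra E S] :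
    ρ.ev S (frob S n) = diagonal fun s => ((ρ.sgn s : ℤ) : S) := by
  have h0 : IsSymp (frob S n) := isSymp_frob
  unfold frob at h0 ⊢
  rw [ρ.ev_diagonal _ _ h0]
  congr 1
  funext s
  rw [Fintype.prod_sum_type]
  simp [sgn]

theorem ev_frob_comm {S : Type} [CommRing S] [Algebra E S] {h : Matrix (Idx n) (Idx n) S}
    (hs : IsSymp h) (hc : frob S n * h = h * frob S n) :
    ρ.ev S (frob S n) * ρ.ev S h = ρ.ev S h * ρ.ev S (frob S n) := by
  rw [← ρ.ev_mul _ isSymp_frob hs, ← ρ.ev_mul _ hs isSymp_frob, hc]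

/-- the torus element with entries `T ^ (idx j)` -/
noncomputable def tor (R : Type) [CommRing R] (idx : Idx n → ℤ) :
    Matrix (Idx n) (Idx n) (LaurentPolynomial R) :=
  diagonal fun j => LaurentPolynomial.T (idx j)

theorem isSymp_tor {R : Type} [CommRing R] (idx : Idx n → ℤ) (w : ℤ)
    (hidx : ∀ i : Fin n, idx (Sum.inl i) + idx (Sum.inr i) = w) :
    IsSymp (tor R idx) := by
  have hu : LaurentPolynomial.T w * LaurentPolynomial.T (-w) = (1 : LaurentPolynomial R) := by
    rw [← LaurentPolynomial.T_add]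
    simp
  have hu' : LaurentPolynomial.T (-w) * LaurentPolynomial.T w = (1 : LaurentPolynomial R) := by
    rw [← LaurentPolynomial.T_add]
    simp
  apply isSymp_diagonal (⟨LaurentPolynomial.T w, LaurentPolynomial.T (-w), hu, hu'⟩)
  intro i
  change LaurentPolynomial.T (idx (Sum.inl i)) * LaurentPolynomial.T (idx (Sum.inr i)) =
    LaurentPolynomial.T w
  rw [← LaurentPolynomial.T_add, hidx]

theorem T_pow_prod {R : Type} [CommRing R] (idx : Idx n → ℤ) (v : Idx n → ℕ) :
    ∏ j, (LaurentPolynomial.T (idx j) : LaurentPolynomial R) ^ v j =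
      LaurentPolynomial.T (∑ j, (v j : ℤ) * idx j) := by
  have h1 : ∀ s : Finset (Idx n), ∏ j ∈ s, (LaurentPolynomial.T (idx j) :
      LaurentPolynomial R) ^ v j = LaurentPolynomial.T (∑ j ∈ s, (v j : ℤ) * idx j) := by
    intro s
    induction s using Finset.induction_on with
    | empty => simp
    | insert a s ha ih =>
      rw [Finset.prod_insert ha, Finset.sum_insert ha, ih, LaurentPolynomial.T_pow,
        ← LaurentPolynomial.T_add]
  exact h1 _

theorem ev_tor {R : Type} [CommRing R] [Algebra E R] (idx : Idx n → ℤ) (w : ℤ)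
    (hidx : ∀ i : Fin n, idx (Sum.inl i) + idx (Sum.inr i) = w) :
    ρ.ev (LaurentPolynomial R) (tor R idx) =
      diagonal fun s => LaurentPolynomial.T (∑ j, (ρ.wt s j : ℤ) * idx j) := by
  have h0 : IsSymp (tor R idx) := isSymp_tor idx w hidx
  unfold tor at h0 ⊢
  rw [ρ.ev_diagonal _ _ h0]
  congr 1
  funext s
  exact T_pow_prod idx _

/-- A matrix preserving the filtration by Hodge indices is mapped to such a matrix. -/
theorem ev_parabolic {R : Type} [CommRing R] [Algebra E R] (idx : Idx n → ℤ) (w : ℤ)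
    (hidx : ∀ i : Fin n, idx (Sum.inl i) + idx (Sum.inr i) = w)
    {b : Matrix (Idx n) (Idx n) R} (hbs : IsSymp b)
    (hb : ∀ i j, idx i < idx j → b i j = 0) (s t : κ)
    (hst : ∑ j, (ρ.wt s j : ℤ) * idx j < ∑ j, (ρ.wt t j : ℤ) * idx j) : ρ.ev R b s t = 0 := by
  let φ : R →ₐ[E] LaurentPolynomial R := IsScalarTower.toAlgHom E R (LaurentPolynomial R)
  have hφ : ∀ r, φ r = LaurentPolynomial.C r := fun r => rfl
  let ι : Polynomial R →ₐ[E] LaurentPolynomial R := Polynomial.toLaurentAlg.restrictScalars E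
  let b₀ : Matrix (Idx n) (Idx n) (Polynomial R) :=
    Matrix.of fun i j => Polynomial.C (b i j) * Polynomial.X ^ (idx i - idx j).toNat
  have hι : ∀ i j, ι (b₀ i j) = LaurentPolynomial.C (b i j) *
      LaurentPolynomial.T (idx i - idx j) := by
    intro i j
    simp only [b₀, of_apply]
    by_cases hij : idx i < idx j
    · rw [hb i j hij]
      simp
    · have h1 : ι (Polynomial.C (b i j)) = LaurentPolynomial.C (b i j) :=
        Polynomial.toLaurent_C _
      have h2 : ι (Polynomial.X ^ (idx i - idx j).toNat) =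
          LaurentPolynomial.T ((idx i - idx j).toNat : ℤ) := Polynomial.toLaurent_X_pow _
      have h3 : ι (Polynomial.C (b i j) * Polynomial.X ^ (idx i - idx j).toNat) =
          ι (Polynomial.C (b i j)) * ι (Polynomial.X ^ (idx i - idx j).toNat) := _root_.map_mul ι _ _
      rw [h3, h1, h2, Int.toNat_of_nonneg (by omega)]
  have h1 : tor R idx * b.map φ = (b₀.map ι) * tor R idx := by
    ext1 i j
    unfold tor
    rw [Matrix.diagonal_mul, Matrix.mul_diagonal, Matrix.map_apply, Matrix.map_apply, hφ, hι,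
      mul_assoc, ← LaurentPolynomial.T_add, mul_comm]
    congr 2
    ring
  have hts : IsSymp (tor R idx) := isSymp_tor idx w hidx
  have hbφ : IsSymp (b.map φ) := hbs.map (φ : R →+* LaurentPolynomial R)
  have hb₀ : IsSymp (b₀.map ι) := by
    apply IsSymp.of_mul_right (B := tor R idx) _ hts
    rw [← h1]
    exact hts.mul hbφ
  have h2 := congrArg (ρ.ev (LaurentPolynomial R)) h1
  rw [ρ.ev_mul _ hts hbφ, ρ.ev_mul _ hb₀ hts, ← ρ.ev_map, ← ρ.ev_map, ρ.ev_tor idx w hidx] at h2
  have h3 := congrFun (congrFun h2 s) t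
  rw [Matrix.diagonal_mul, Matrix.mul_diagonal, Matrix.map_apply, Matrix.map_apply, hφ] at h3
  -- multiply by `T (- height t)`
  set a := ∑ j, (ρ.wt s j : ℤ) * idx j with ha
  set c := ∑ j, (ρ.wt t j : ℤ) * idx j with hc
  obtain ⟨m, hm⟩ : ∃ m : ℕ, c = a + (m + 1) := ⟨(c - a - 1).toNat, by omega⟩
  have h4 : Polynomial.toLaurent (Polynomial.C (ρ.ev R b s t)) =
      Polynomial.toLaurent (ρ.ev (Polynomial R) b₀ s t * Polynomial.X ^ (m + 1)) := by
    have h5 : ι (ρ.ev (Polynomial R) b₀ s t) =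
        Polynomial.toLaurent (ρ.ev (Polynomial R) b₀ s t) := rfl
    rw [h5] at h3
    rw [Polynomial.toLaurent_C, _root_.map_mul, Polynomial.toLaurent_X_pow]
    have h6 : LaurentPolynomial.T (-a) * (LaurentPolynomial.T a *
        LaurentPolynomial.C (ρ.ev R b s t)) = LaurentPolynomial.T (-a) *
        (Polynomial.toLaurent (ρ.ev (Polynomial R) b₀ s t) * LaurentPolynomial.T c) := by
      rw [h3]
    rw [← mul_assoc, ← LaurentPolynomial.T_add, neg_add_cancel, LaurentPolynomial.T_zero,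
      one_mul] at h6
    rw [h6, hm, mul_left_comm, ← LaurentPolynomial.T_add]
    congr 2
    push_cast
    ring
  have h5 := Polynomial.toLaurent_injective h4
  have h6 := congrArg (fun f => Polynomial.coeff f 0) h5
  simpa [Polynomial.coeff_mul_X_pow'] using h6

/-- The exchange of the two halves maps weight height `a` to `kw - a`. -/
theorem ev_swap {S₀ : Type} [CommRing S₀] [Algebra E S₀] (idx : Idx n → ℤ) (w : ℤ)
    (hidx : ∀ i : Fin n, idx (Sum.inl i) + idx (Sum.inr i) = w) (s t : κ)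
    (hst : ρ.ev S₀ (swapM S₀ n) s t ≠ 0) :
    (∑ j, (ρ.wt s j : ℤ) * idx j) + (∑ j, (ρ.wt t j : ℤ) * idx j) = k * w := by
  let φ : S₀ →ₐ[E] LaurentPolynomial S₀ := IsScalarTower.toAlgHom E S₀ (LaurentPolynomial S₀)
  have hφ : ∀ r, φ r = LaurentPolynomial.C r := fun r => rfl
  have hu : LaurentPolynomial.T w * LaurentPolynomial.T (-w) = (1 : LaurentPolynomial S₀) := by
    rw [← LaurentPolynomial.T_add]
    simp
  have hu' : LaurentPolynomial.T (-w) * LaurentPolynomial.T w = (1 : LaurentPolynomial S₀) := by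
    rw [← LaurentPolynomial.T_add]
    simp
  let W : (LaurentPolynomial S₀)ˣ := ⟨LaurentPolynomial.T w, LaurentPolynomial.T (-w), hu, hu'⟩
  have hsw : IsSymp ((swapM S₀ n).map φ) := isSymp_swapM.map (φ : S₀ →+* LaurentPolynomial S₀)
  have hts : IsSymp (tor S₀ idx) := isSymp_tor idx w hidx
  have h1 : tor S₀ idx * (swapM S₀ n).map φ * tor S₀ idx =
      ((W : (LaurentPolynomial S₀)ˣ) : LaurentPolynomial S₀) • (swapM S₀ n).map φ := by
    have hW : ((W : (LaurentPolynomial S₀)ˣ) : LaurentPolynomial S₀) = LaurentPolynomial.T w := rfl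
    unfold tor
    ext1 i j
    rw [Matrix.mul_diagonal, Matrix.diagonal_mul, Matrix.smul_apply, Matrix.map_apply, hφ,
      smul_eq_mul, hW]
    rcases i with i | i <;> rcases j with j | j
    · simp [swapM]
    · by_cases hij : i = j
      · subst hij
        simp only [swapM, fromBlocks_apply₁₂, Matrix.one_apply_eq, map_one, mul_one]
        rw [← LaurentPolynomial.T_add, hidx]
      · simp [swapM, hij]
    · by_cases hij : i = j
      · subst hij
        simp only [swapM, fromBlocks_apply₂₁, Matrix.one_apply_eq, map_one, mul_one]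
        rw [← LaurentPolynomial.T_add, add_comm, hidx]
      · simp [swapM, hij]
    · simp [swapM]
  have h2 := congrArg (ρ.ev (LaurentPolynomial S₀)) h1
  rw [ρ.ev_mul _ (hts.mul hsw) hts, ρ.ev_mul _ hts hsw, ρ.ev_smul _ _ hsw, ← ρ.ev_map,
    ρ.ev_tor idx w hidx] at h2
  have h3 := congrFun (congrFun h2 s) t
  rw [Matrix.mul_diagonal, Matrix.diagonal_mul, Matrix.smul_apply, Matrix.map_apply, hφ,
    smul_eq_mul] at h3
  have hW : ((W : (LaurentPolynomial S₀)ˣ) : LaurentPolynomial S₀) = LaurentPolynomial.T w := rfl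
  rw [hW, LaurentPolynomial.T_pow] at h3
  by_contra hne
  set a := ∑ j, (ρ.wt s j : ℤ) * idx j with ha
  set c := ∑ j, (ρ.wt t j : ℤ) * idx j with hc
  have h4 : LaurentPolynomial.C (ρ.ev S₀ (swapM S₀ n) s t) * LaurentPolynomial.T (a + c) =
      LaurentPolynomial.C (ρ.ev S₀ (swapM S₀ n) s t) * LaurentPolynomial.T (k * w) := by
    rw [LaurentPolynomial.T_add]
    calc _ = LaurentPolynomial.T a * LaurentPolynomial.C (ρ.ev S₀ (swapM S₀ n) s t) *
          LaurentPolynomial.T c := by ring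
      _ = _ := by
        rw [h3]
        ring
  rw [← LaurentPolynomial.single_eq_C_mul_T, ← LaurentPolynomial.single_eq_C_mul_T] at h4
  have h5 := congrArg (fun f : LaurentPolynomial S₀ => f.coeff (a + c)) h4
  apply hst
  simpa [hne, Ne.symm hne, -LaurentPolynomial.single_eq_C_mul_T, AddMonoidAlgebra.coeff_single]
    using h5

end SympRep

end Pool.Agent.MP100fe7
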