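import Pool.Agent.Lib.MP_100fe7_nt.SExist
import Pool.Agent.Lib.MP_100fe7_nt.SFactor
import Pool.Agent.Lib.MP_100fe7_nt.SDescent

/-!
The ratio of the two periods of `ρ(M)`, `ρ` a representation of `GSp_{2n}` of odd degree.
-/

set_option linter.unusedSectionVars false

namespace Pool.Agent.MP100fe7.GSp

open Matrix Pool.Agent.MP100fe7 TensorProduct

/-- `∑_s sgn(s) (wt_i - wt_{i'})` -/
def moment {E : Type} [Field E] {n k : ℕ} {κ : Type} [Fintype κ] [DecidableEq κ]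
    (ρ : SympRep E n κ k) (i : Fin n) : ℤ :=
  ∑ s, ρ.sgn s * ((ρ.wt s (Sum.inl i) : ℤ) - ρ.wt s (Sum.inr i))

theorem add_identity {A : Type} [AddCommGroup A] (x y : A) (K b n : ℤ) :
    (b + K) • x + b • (y - x) =
      K • (x - (n • y - x)) + ((b + n * K - K) • x + (b + n * K) • (y - x)) := by
  module

theorem mul_identity {G : Type} [CommGroup G] (x y : G) (K b n : ℤ) :
    x ^ (b + K) * (y / x) ^ b =
      (x / (y ^ n / x)) ^ K * (x ^ (b + n * K - K) * (y / x) ^ (b + n * K)) :=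
  congrArg Additive.toMul
    (add_identity (A := Additive G) (Additive.ofMul x) (Additive.ofMul y) K b n)

theorem ratio_core {E : Type} [Field E] [CharZero E] {n k : ℕ} {κ : Type} [Fintype κ]
    [DecidableEq κ] (ρ : SympRep E n κ k) (p : Fin n → ℤ) (w : ℤ) (hk : Odd k) (hw : Odd w)
    {m₁ m₂ : ℕ} {A₁ : Matrix κ (Fin m₁) E} {B₁ : Matrix (Fin m₁) κ E}
    {A₂ : Matrix κ (Fin m₂) E} {B₂ : Matrix (Fin m₂) κ E}
    (hA₁ : Function.Injective A₁.mulVec)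
    (hAr₁ : ∀ v : κ → E, v ∈ Set.range A₁.mulVec ↔
      (ρ.ev E (frob E n)).mulVec v = (1 : E) • v)
    (hB₁ : Function.Surjective B₁.mulVec)
    (hK₁ : KerCond (hI ρ p w) ((k * w + 1) / 2) B₁)
    (hA₂ : Function.Injective A₂.mulVec)
    (hAr₂ : ∀ v : κ → E, v ∈ Set.range A₂.mulVec ↔
      (ρ.ev E (frob E n)).mulVec v = (-1 : E) • v)
    (hB₂ : Function.Surjective B₂.mulVec)
    (hK₂ : KerCond (hI ρ p w) ((k * w + 1) / 2) B₂) :
    ∃ (K : ℤ) (e : Eˣ), (∀ i, 2 * K = moment ρ i) ∧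
      ∀ (S : Type) [CommRing S] [Algebra E S] (X b : Matrix (Idx n) (Idx n) S)
        (h₁ h₂ : Matrix (Fin n) (Fin n) S) (δ₁ δ₂ : Sˣ), IsSymp b →
        (∀ i j, idx p w i < idx p w j → b i j = 0) → IsSymp (fromBlocks h₁ 0 0 h₂) →
        X = b * gz S n * fromBlocks h₁ 0 0 h₂ → (δ₁ : S) = h₁.det → (δ₂ : S) = h₂.det →
        ∃ u v : Sˣ,
          (u : S) = (B₁.map (algebraMap E S) * ρ.ev S X * A₁.map (algebraMap E S)).det ∧
          (v : S) = (B₂.map (algebraMap E S) * ρ.ev S X * A₂.map (algebraMap E S)).det ∧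
          u / v = Units.map (algebraMap E S).toMonoidHom e * (δ₁ / δ₂) ^ K := by
  obtain ⟨B₁', e₁⟩ := mulVec_surjective_iff_exists_right_inverse.mp hB₁
  obtain ⟨B₂', e₂⟩ := mulVec_surjective_iff_exists_right_inverse.mp hB₂
  have hsz := size_eq (hI ρ p w) ((k * w + 1) / 2) hK₁ hK₂ e₁ e₂
  have hm : m₁ = m₂ := by
    have := Matrix.square_of_invertible _ _ hsz.1 hsz.2
    simpa using this.symm
  subst hm
  have hε₁ : (1 : E) * 1 = 1 := by norm_num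
  have hε₂ : (-1 : E) * (-1) = 1 := by norm_num
  obtain ⟨A₁', hl₁, hr₁⟩ := exists_left ρ hε₁ A₁ hA₁ hAr₁
  obtain ⟨A₂', hl₂, hr₂⟩ := exists_left ρ hε₂ A₂ hA₂ hAr₂
  obtain ⟨a₁, b₁, hd₁⟩ := eta_char ρ hε₁ hl₁ hr₁
  obtain ⟨a₂, b₂, hd₂⟩ := eta_char ρ hε₂ hl₂ hr₂
  have c₁ : IsChar ρ A₁ A₁' a₁ b₁ := hd₁
  have c₂ : IsChar ρ A₂ A₂' a₂ b₂ := hd₂
  have s₁ := char_scalar ρ hl₁ c₁
  have s₂ := char_scalar ρ hl₂ c₂
  have s₃ := char_swap ρ hk hl₁ hr₁ hl₂ hr₂ c₁ c₂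
  have n₁ := det_split_ne_zero ρ p w hk hw hε₁ hl₁ hr₁ hK₁
  have n₂ := det_split_ne_zero ρ p w hk hw hε₂ hl₂ hr₂ hK₂
  let d₁ : Eˣ := Units.mk0 _ n₁
  let d₂ : Eˣ := Units.mk0 _ n₂
  refine ⟨(a₁ : ℤ) - b₁, d₁ / d₂, ?_, ?_⟩
  · intro i
    have hpos : 0 < n := i.pos
    have s₄ : a₁ + a₂ = b₁ + b₂ := Nat.eq_of_mul_eq_mul_left hpos s₃
    have w₁ := char_weight ρ hl₁ hr₁ c₁ i
    have w₂ := char_weight ρ hl₂ hr₂ c₂ i
    have w₃ : (a₁ : E) - b₁ - ((a₂ : E) - b₂) = ((moment ρ i : ℤ) : E) := by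
      rw [w₁, w₂, ← Finset.sum_sub_distrib]
      unfold moment
      push_cast
      apply Finset.sum_congr rfl
      intro s _
      ring
    have w₄ : ((2 * ((a₁ : ℤ) - b₁) : ℤ) : E) = ((moment ρ i : ℤ) : E) := by
      rw [← w₃]
      have w₅ : (a₂ : E) = b₁ + b₂ - a₁ := by
        have := congrArg (fun z : ℕ => (z : E)) s₄
        push_cast at this
        linear_combination this
      rw [w₅]
      push_cast
      ring
    exact_mod_cast w₄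
  · intro S _ _ X b h₁ h₂ δ₁ δ₂ hbs hb hhs hX hδ₁ hδ₂
    have hXp : ∀ s t, hI ρ p w s < hI ρ p w t → ρ.ev S b s t = 0 := by
      intro s t hst
      exact ρ.ev_parabolic (idx p w) w (idx_add p w) hbs hb s t hst
    have hXY : ρ.ev S b * ρ.ev S b⁻¹ = 1 :=
      ρ.ev_inv_mul hbs (mul_nonsing_inv _ hbs.isUnit_det)
    have hβ := isUnit_quot (hI ρ p w) ((k * w + 1) / 2) hK₁ e₁ (ρ.ev S b) (ρ.ev S b⁻¹) hXp hXY
    have hββ := det_quot_eq (hI ρ p w) ((k * w + 1) / 2) hK₁ hK₂ e₁ e₂ (ρ.ev S b) hXp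
    have p₁ := period_factor ρ p w hε₁ hl₁ hr₁ hK₁ e₁ hbs hb hhs hX
    have p₂ := period_factor ρ p w hε₂ hl₂ hr₂ hK₂ e₂ hbs hb hhs hX
    -- the multiplier, normalised when `n = 0`
    obtain ⟨ν, hν, hνn⟩ : ∃ ν : Sˣ, h₁ᵀ * h₂ = (ν : S) • 1 ∧ (n = 0 → ν = 1) := by
      rcases Nat.eq_zero_or_pos n with h0 | hpos
      · subst h0
        refine ⟨1, ?_, fun _ => rfl⟩
        ext i j
        exact i.elim0
      · obtain ⟨ν, hν⟩ := symp_blocks hhs
        exact ⟨ν, hν, fun h => absurd h hpos.ne'⟩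
    have hδδ : δ₁ * δ₂ = ν ^ n := by
      ext
      have h3 := congrArg Matrix.det hν
      rw [det_mul, det_transpose, det_smul, det_one, mul_one, Fintype.card_fin, ← hδ₁, ← hδ₂] at h3
      simpa using h3
    rw [hd₁ S h₁ h₂ ν δ₁ hν hδ₁] at p₁
    rw [hd₂ S h₁ h₂ ν δ₁ hν hδ₁, ← hββ] at p₂
    obtain ⟨β, hβ'⟩ := hβ
    rw [← hβ'] at p₁ p₂
    refine ⟨β * Units.map (algebraMap E S).toMonoidHom d₁ * (δ₁ ^ a₁ * (ν / δ₁) ^ b₁),
      β * Units.map (algebraMap E S).toMonoidHom d₂ * (δ₁ ^ a₂ * (ν / δ₁) ^ b₂), ?_, ?_, ?_⟩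
    · rw [p₁]
      rfl
    · rw [p₂]
      rfl
    · rw [map_div]
      have key : δ₁ ^ a₁ * (ν / δ₁) ^ b₁ =
          (δ₁ / δ₂) ^ ((a₁ : ℤ) - b₁) * (δ₁ ^ a₂ * (ν / δ₁) ^ b₂) := by
        rcases Nat.eq_zero_or_pos n with h0 | hpos
        · have t₃ := hνn h0
          subst h0
          have t₁ : δ₁ = 1 := by
            ext
            rw [hδ₁]
            simp
          have t₂ : δ₂ = 1 := by
            ext
            rw [hδ₂]
            simp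
          rw [t₁, t₂, t₃]
          simp
        · have s₄ : a₁ + a₂ = b₁ + b₂ := Nat.eq_of_mul_eq_mul_left hpos s₃
          obtain ⟨K, hK⟩ : ∃ K : ℤ, (a₁ : ℤ) = b₁ + K := ⟨a₁ - b₁, by ring⟩
          have hK2 : (a₂ : ℤ) = b₂ - K := by omega
          have hb12 : (b₂ : ℤ) = b₁ + n * K := by
            have e3 : (n : ℤ) * a₁ + 2 * b₁ = k * m₁ + n * b₁ := by exact_mod_cast s₁
            have e4 : (n : ℤ) * a₂ + 2 * b₂ = k * m₁ + n * b₂ := by exact_mod_cast s₂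
            rw [hK] at e3
            rw [hK2] at e4
            linarith
          have hδ₂' : δ₂ = ν ^ n / δ₁ := by
            rw [← hδδ, mul_div_cancel_left]
          have hKK : (a₁ : ℤ) - b₁ = K := by omega
          rw [hKK, hδ₂', ← zpow_natCast δ₁ a₁, ← zpow_natCast δ₁ a₂, ← zpow_natCast (ν / δ₁) b₁,
            ← zpow_natCast (ν / δ₁) b₂, hK, hK2, hb12, ← zpow_natCast ν n]
          exact mul_identity δ₁ ν K b₁ n
      rw [key]
      have comm : ∀ (x y z t u : Sˣ), x * y * (z * t) / (x * u * t) = y / u * z := by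
        intro x y z t u
        rw [mul_assoc x y, mul_assoc x u, mul_div_mul_left_eq_div, ← mul_assoc y z t,
          mul_div_mul_right_eq_div, mul_div_right_comm]
      exact comm _ _ _ _ _

end Pool.Agent.MP100fe7.GSp
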