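import Pool.Agent.Lib.MP_100fe7_nt.SComp
import Pool.Agent.Lib.MP_100fe7_nt.SRatio

/-!
The exponents in the closed formula for representations of `GSp_{2n}`.
-/

set_option linter.unusedSectionVars false

namespace Pool.Agent.MP100fe7.GSp

open Matrix Pool.Agent.MP100fe7

variable {E : Type} [Field E] [CharZero E] {R : Type} [CommRing R] [Algebra E R] {n k : ℕ} {w : ℤ}
  {κ : Type} [Fintype κ] [DecidableEq κ] (ρ : SympRep E n κ k) (M : Datum R n w)

theorem size_trace {m : ℕ} {A : Matrix κ (Fin m) E} {A' : Matrix (Fin m) κ E} {ε : E}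
    (hl : A' * A = 1) (hr : A * A' = proj ρ ε) : (m : E) = (proj ρ ε).trace := by
  rw [← hr, Matrix.trace_mul_comm, hl, Matrix.trace_one, Fintype.card_fin]

theorem card_lo_eq (hk : Odd k) (hw : Odd w) :
    Fintype.card κ = 2 * Fintype.card {s // hI ρ M.p w s < (k * w + 1) / 2} := by
  have h1 := card_hi_le ρ M hk hw
  have h2 := card_lo_le ρ M
  have e1 := Fintype.card_congr (Equiv.sumCompl (fun s => lo ρ M s))
  rw [Fintype.card_sum] at e1
  have e2 : Fintype.card {s // hI ρ M.p w s < (k * w + 1) / 2} =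
      Fintype.card {s // lo ρ M s} := Fintype.card_congr (Equiv.refl _)
  omega

theorem parity_aux (hk : Odd k) (hw : Odd w) {ε : E} (hε : ε * ε = 1) {m : ℕ}
    {A : Matrix κ (Fin m) E} {A' : Matrix (Fin m) κ E} (hl : A' * A = 1)
    (hr : A * A' = proj ρ ε) {B : Matrix (Fin m) κ E}
    (hB : KerCond (hI ρ M.p w) ((k * w + 1) / 2) B)
    {B' : Matrix κ (Fin m) E} (e : B * B' = 1) {a b : ℕ} (c : IsChar ρ A A' a b) (i : Fin n) :
    Even (lowWt ρ M i - ((a : ℤ) - b)) := by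
  let r : Matrix (Fin n) (Fin n) E := diagonal (Function.update 1 i (-1))
  have hrr : r * r = 1 := by
    simp only [r, diagonal_mul_diagonal]
    rw [← diagonal_one]
    congr 1
    funext j
    by_cases hj : j = i
    · subst hj
      simp
    · simp [Function.update_of_ne hj]
  have hrT : rᵀ = r := by
    simp only [r, diagonal_transpose]
  have hrdet : r.det = -1 := by
    simp only [r, det_diagonal]
    rw [Finset.prod_update_of_mem (Finset.mem_univ i)]
    simp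
  have hd : (fromBlocks r 0 0 r : Matrix (Idx n) (Idx n) E) =
      diagonal (Sum.elim (Function.update 1 i (-1)) (Function.update 1 i (-1))) := by
    simp only [r]
    ext j l
    rcases j with j | j <;> rcases l with l | l <;> simp [diagonal_apply]
  have hs : IsSymp (fromBlocks r 0 0 r : Matrix (Idx n) (Idx n) E) := by
    apply isSymp_fromBlocks 1
    rw [hrT, hrr]
    simp
  have hlev : ∀ j l, idx M.p w j < idx M.p w l →
      (fromBlocks r 0 0 r : Matrix (Idx n) (Idx n) E) j l = 0 := by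
    intro j l hjl
    rw [hd, diagonal_apply_ne]
    rintro rfl
    exact lt_irrefl _ hjl
  have hX : gz E n = fromBlocks r 0 0 r * gz E n * fromBlocks r 0 0 r := by
    unfold gz
    rw [fromBlocks_multiply, fromBlocks_multiply]
    simp [hrr]
  have p := period_factor ρ M.p w hε hl hr hB e hs hlev hs hX
  have hne := det_split_ne_zero ρ M.p w hk hw hε hl hr hB
  rw [det_quot_eq_dLo (hI ρ M.p w) ((k * w + 1) / 2) hB e (ρ.ev E (fromBlocks r 0 0 r)) (by
    intro s t hst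
    exact ρ.ev_parabolic (idx M.p w) w (idx_add M.p w) hs hlev s t hst)] at p
  rw [c E r r 1 (-1) (by rw [hrT, hrr]; simp) (by rw [hrdet]; simp)] at p
  simp only [Algebra.algebraMap_self, RingHom.coe_id, Matrix.map_id, RingHom.id_apply] at p
  have h1 : dLo (hI ρ M.p w) ((k * w + 1) / 2) (ρ.ev E (fromBlocks r 0 0 r)) =
      (-1) ^ (∑ s : {s // hI ρ M.p w s < (k * w + 1) / 2},
        (ρ.wt s.1 (Sum.inl i) + ρ.wt s.1 (Sum.inr i))) := by
    have hs' := hs
    rw [hd] at hs' ⊢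
    rw [ρ.ev_diagonal _ _ hs', dLo_diagonal, ← Finset.prod_pow_eq_pow_sum]
    apply Finset.prod_congr rfl
    intro s _
    rw [Fintype.prod_sum_type]
    simp only [Sum.elim_inl, Sum.elim_inr]
    rw [Finset.prod_eq_single i, Finset.prod_eq_single i]
    · rw [Function.update_self, pow_add]
    · intro j _ hj
      rw [Function.update_of_ne hj]
      simp
    · simp
    · intro j _ hj
      rw [Function.update_of_ne hj]
      simp
    · simp
  set T := ∑ s : {s // hI ρ M.p w s < (k * w + 1) / 2},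
        (ρ.wt s.1 (Sum.inl i) + ρ.wt s.1 (Sum.inr i)) with hT
  have h2 : (-1 : E) ^ (T + a + b) = 1 := by
    rw [h1] at p
    have h3 : (((-1 : Eˣ) ^ a * (1 / -1) ^ b : Eˣ) : E) = (-1) ^ a * (-1) ^ b := by
      simp
    rw [h3] at p
    have h4 : (B * ρ.ev E (gz E n) * A).det * 1 =
        (B * ρ.ev E (gz E n) * A).det * (-1) ^ (T + a + b) := by
      rw [mul_one]
      conv_lhs => rw [p]
      rw [pow_add, pow_add]
      ring
    exact (mul_left_cancel₀ hne h4).symm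
  have h3 : Even (T + a + b) := by
    rcases Nat.even_or_odd (T + a + b) with h | h
    · exact h
    · exfalso
      rw [h.neg_one_pow] at h2
      have : (-1 : E) ≠ 1 := by
        intro h5
        have h6 : (2 : E) = 0 := by linear_combination -h5
        exact two_ne_zero h6
      exact this h2
  obtain ⟨q, hq⟩ := h3
  have h4 : (T : ℤ) = lowWt ρ M i + 2 * ∑ s : {s // hI ρ M.p w s < (k * w + 1) / 2},
      (ρ.wt s.1 (Sum.inl i) : ℤ) := by
    rw [hT]
    unfold lowWt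
    push_cast
    rw [Finset.mul_sum, ← Finset.sum_add_distrib]
    apply Finset.sum_congr rfl
    intro s _
    ring
  refine ⟨q - a - ∑ s : {s // hI ρ M.p w s < (k * w + 1) / 2}, (ρ.wt s.1 (Sum.inl i) : ℤ), ?_⟩
  have h5 : (T : ℤ) + a + b = q + q := by exact_mod_cast hq
  linarith

/-- the exponents -/
theorem exponents (hk : Odd k) (hw : Odd w) (hn : 0 < n) : ∃ K b : ℤ,
    (∀ i, 2 * K = moment ρ i) ∧ 2 * (n * K) + 4 * b = k * Fintype.card κ ∧
    (∀ i, Even (lowWt ρ M i - K)) ∧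
    ∀ (ε : ℤ), (ε = 1 ∨ ε = -1) → ∀ (m : ℕ) (A : Matrix κ (Fin m) E) (A' : Matrix (Fin m) κ E)
      (a₀ b₀ : ℕ), A' * A = 1 → A * A' = proj ρ (ε : E) → IsChar ρ A A' a₀ b₀ →
      (a₀ : ℤ) - b₀ = ε * K ∧ (b₀ : ℤ) = if ε = 1 then b else b + n * K := by
  obtain ⟨⟨x, hx⟩, ⟨y, hy⟩⟩ := exists_period (R := R) ρ M hk hw
  obtain ⟨m₁, A₁, B₁, hA₁, hAr₁, hB₁, hK₁, -⟩ := hx
  obtain ⟨m₂, A₂, B₂, hA₂, hAr₂, hB₂, hK₂, -⟩ := hy
  obtain ⟨B₁', e₁⟩ := mulVec_surjective_iff_exists_right_inverse.mp hB₁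
  obtain ⟨B₂', e₂⟩ := mulVec_surjective_iff_exists_right_inverse.mp hB₂
  have hm₁ := size_lo (hI ρ M.p w) ((k * w + 1) / 2) hK₁ e₁
  have hm₂ := size_lo (hI ρ M.p w) ((k * w + 1) / 2) hK₂ e₂
  have hcard := card_lo_eq ρ M hk hw
  have hε₁ : (1 : E) * 1 = 1 := by norm_num
  have hε₂ : (-1 : E) * (-1) = 1 := by norm_num
  obtain ⟨A₁', hl₁, hr₁⟩ := exists_left ρ hε₁ A₁ hA₁ hAr₁
  obtain ⟨A₂', hl₂, hr₂⟩ := exists_left ρ hε₂ A₂ hA₂ hAr₂
  obtain ⟨a₁, b₁, hd₁⟩ := eta_char ρ hε₁ hl₁ hr₁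
  obtain ⟨a₂, b₂, hd₂⟩ := eta_char ρ hε₂ hl₂ hr₂
  have c₁ : IsChar ρ A₁ A₁' a₁ b₁ := hd₁
  have c₂ : IsChar ρ A₂ A₂' a₂ b₂ := hd₂
  have s₁ := char_scalar ρ hl₁ c₁
  have s₂ := char_scalar ρ hl₂ c₂
  have s₃ := char_swap ρ hk hl₁ hr₁ hl₂ hr₂ c₁ c₂
  have s₄ : a₁ + a₂ = b₁ + b₂ := Nat.eq_of_mul_eq_mul_left hn s₃
  refine ⟨(a₁ : ℤ) - b₁, b₁, ?_, ?_, ?_, ?_⟩
  · intro i
    have w₁ := char_weight ρ hl₁ hr₁ c₁ i
    have w₂ := char_weight ρ hl₂ hr₂ c₂ i
    have w₃ : (a₁ : E) - b₁ - ((a₂ : E) - b₂) = ((moment ρ i : ℤ) : E) := by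
      rw [w₁, w₂, ← Finset.sum_sub_distrib]
      unfold moment
      push_cast
      apply Finset.sum_congr rfl
      intro s _
      ring
    have w₄ : ((2 * ((a₁ : ℤ) - b₁) : ℤ) : E) = ((moment ρ i : ℤ) : E) := by
      rw [← w₃]
      have w₅ : (a₂ : E) = b₁ + b₂ - a₁ := by
        have := congrArg (fun z : ℕ => (z : E)) s₄
        push_cast at this
        linear_combination this
      rw [w₅]
      push_cast
      ring
    exact_mod_cast w₄
  · rw [hcard, ← hm₁]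
    have h1 : (n : ℤ) * a₁ + 2 * b₁ = k * m₁ + n * b₁ := by exact_mod_cast s₁
    push_cast
    linarith
  · intro i
    exact parity_aux ρ M hk hw hε₁ hl₁ hr₁ hK₁ e₁ c₁ i
  · intro ε hε m A A' a₀ b₀ hl hr c
    have w₀ := char_weight ρ hl hr c ⟨0, hn⟩
    have s₀ := char_scalar ρ hl c
    have t₀ := size_trace ρ hl hr
    have hz₁ : (n : ℤ) * a₁ + 2 * b₁ = k * m₁ + n * b₁ := by exact_mod_cast s₁
    have hz₂ : (n : ℤ) * a₂ + 2 * b₂ = k * m₂ + n * b₂ := by exact_mod_cast s₂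
    have hz₀ : (n : ℤ) * a₀ + 2 * b₀ = k * m + n * b₀ := by exact_mod_cast s₀
    have hz₄ : (a₁ : ℤ) + a₂ = b₁ + b₂ := by exact_mod_cast s₄
    rcases hε with rfl | rfl
    · have w₁ := char_weight ρ hl₁ hr₁ c₁ ⟨0, hn⟩
      have t₁ := size_trace ρ hl₁ hr₁
      rw [Int.cast_one] at w₀ t₀
      have hm : m = m₁ := by
        have : (m : E) = m₁ := by rw [t₀, t₁]
        exact_mod_cast this
      have hab : (a₀ : ℤ) - b₀ = (a₁ : ℤ) - b₁ := by
        have : (((a₀ : ℤ) - b₀ : ℤ) : E) = (((a₁ : ℤ) - b₁ : ℤ) : E) := by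
          push_cast
          rw [w₀, w₁]
        exact_mod_cast this
      refine ⟨by rw [one_mul]; exact hab, ?_⟩
      rw [if_pos rfl]
      rw [hm] at hz₀
      have h1 : (n : ℤ) * (a₀ - b₀) = n * (a₁ - b₁) := by rw [hab]
      linarith
    · have w₂ := char_weight ρ hl₂ hr₂ c₂ ⟨0, hn⟩
      have t₂ := size_trace ρ hl₂ hr₂
      rw [Int.cast_neg, Int.cast_one] at w₀ t₀
      have hm : m = m₂ := by
        have : (m : E) = m₂ := by rw [t₀, t₂]
        exact_mod_cast this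
      have hab : (a₀ : ℤ) - b₀ = (a₂ : ℤ) - b₂ := by
        have : (((a₀ : ℤ) - b₀ : ℤ) : E) = (((a₂ : ℤ) - b₂ : ℤ) : E) := by
          push_cast
          rw [w₀, w₂]
        exact_mod_cast this
      refine ⟨by rw [hab]; linarith, ?_⟩
      rw [if_neg (by norm_num)]
      have hm' : m = m₁ := by rw [hm, hm₂, hm₁]
      rw [hm'] at hz₀
      have h1 : (n : ℤ) * (a₀ - b₀) = - (n * (a₁ - b₁)) := by
        rw [hab]
        have : (a₂ : ℤ) - b₂ = -(a₁ - b₁) := by linarith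
        rw [this]
        ring
      linarith

end Pool.Agent.MP100fe7.GSp
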