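import Pool.Agent.Lib.MP_100fe7_nt.SLevi

/-!
The action of the Levi subgroup of `Sp_{2n}` on the lower quotient of `ρ`, over a field.
-/

set_option linter.unusedSectionVars false

namespace Pool.Agent.MP100fe7.GSp

open Matrix Pool.Agent.MP100fe7

variable {E : Type} [Field E] [CharZero E] {R : Type} [CommRing R] {n k : ℕ} {w : ℤ}
  {κ : Type} [Fintype κ] [DecidableEq κ] (ρ : SympRep E n κ k) (M : Datum R n w)
  {K : Type} [Field K] [CharZero K] [Algebra E K]

/-- the determinant of `ρ(X)` on the lower quotient -/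
noncomputable def dR (S : Type) [CommRing S] [Algebra E S] (X : Matrix (Idx n) (Idx n) S) : S :=
  dLo (hI ρ M.p w) ((k * w + 1) / 2) (ρ.ev S X)

/-- `X` commutes with the Hodge grading -/
def IsLevi {S : Type} [CommRing S] (X : Matrix (Idx n) (Idx n) S) : Prop :=
  ∀ i j, idx M.p w i < idx M.p w j → X i j = 0

theorem dR_mul {S : Type} [CommRing S] [Algebra E S] {X Y : Matrix (Idx n) (Idx n) S}
    (hX : IsSymp X) (hY : IsSymp Y) (hXl : IsLevi M X) :
    dR ρ M S (X * Y) = dR ρ M S X * dR ρ M S Y := by
  unfold dR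
  rw [ρ.ev_mul _ hX hY, dLo_mul]
  intro s t hst
  exact ρ.ev_parabolic (idx M.p w) w (idx_add M.p w) hX hXl s t hst

theorem dR_one {S : Type} [CommRing S] [Algebra E S] : dR ρ M S 1 = 1 := by
  unfold dR
  rw [ρ.ev_one, dLo_one]

theorem emb'_transpose (a : ℤ) {S : Type} [CommRing S] (A : Matrix (Block M a) (Block M a) S) :
    (emb' M a A)ᵀ = emb' M a Aᵀ := by
  unfold emb'
  rw [transpose_submatrix, fromBlocks_transpose]
  simp

theorem det_emb' (a : ℤ) {S : Type} [CommRing S] (A : Matrix (Block M a) (Block M a) S) :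
    (emb' M a A).det = A.det := by
  unfold emb'
  rw [det_submatrix_equiv_self, det_fromBlocks_zero₂₁, det_one, mul_one]

/-- the element of the Levi subgroup with blocks `U`, `V` in position `a` -/
noncomputable def embS (a : ℤ) {S : Type} [CommRing S] (U V : Matrix (Block M a) (Block M a) S) :
    Matrix (Idx n) (Idx n) S :=
  fromBlocks (emb' M a U) 0 0 (emb' M a V)

theorem isSymp_embS (a : ℤ) {S : Type} [CommRing S] {U V : Matrix (Block M a) (Block M a) S}
    (h : Uᵀ * V = 1) : IsSymp (embS M a U V) := by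
  apply isSymp_fromBlocks 1
  rw [emb'_transpose, ← emb'_mul, h, emb'_one]
  simp

theorem isLevi_embS (a : ℤ) {S : Type} [CommRing S] (U V : Matrix (Block M a) (Block M a) S) :
    IsLevi M (embS M a U V) := by
  intro i j hij
  unfold embS
  rcases i with i | i <;> rcases j with j | j
  · rw [fromBlocks_apply₁₁, emb'_apply]
    simp only [idx, Sum.elim_inl] at hij
    by_cases hi : w - M.p i = a
    · rw [dif_pos hi, dif_neg (by omega)]
    · rw [dif_neg hi, if_neg]
      rintro rfl
      exact lt_irrefl _ hij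
  · rfl
  · rfl
  · rw [fromBlocks_apply₂₂, emb'_apply]
    simp only [idx, Sum.elim_inr] at hij
    by_cases hi : w - M.p i = a
    · rw [dif_pos hi, dif_neg (by omega)]
    · rw [dif_neg hi, if_neg]
      rintro rfl
      exact lt_irrefl _ hij

theorem embS_mul (a : ℤ) {S : Type} [CommRing S] (U V U' V' : Matrix (Block M a) (Block M a) S) :
    embS M a (U * U') (V * V') = embS M a U V * embS M a U' V' := by
  unfold embS
  rw [fromBlocks_multiply, emb'_mul, emb'_mul]
  simp

theorem embS_one (a : ℤ) {S : Type} [CommRing S] :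
    embS M a (1 : Matrix (Block M a) (Block M a) S) 1 = 1 := by
  unfold embS
  rw [emb'_one, fromBlocks_one]

/-- the weight of the lower part at `i` -/
def lowWt (i : Fin n) : ℤ :=
  ∑ s : {s // hI ρ M.p w s < (k * w + 1) / 2}, ((ρ.wt s.1 (Sum.inr i) : ℤ) - ρ.wt s.1 (Sum.inl i))

theorem emb'_one_at (a : ℤ) {S : Type} [CommRing S] (i : Block M a) (x : S) :
    emb' M a (GLFam.one_at i x) = diagonal (Function.update 1 i.1 x) := by
  ext j l
  rw [emb'_apply, diagonal_apply]
  by_cases hj : w - M.p j = a
  · rw [dif_pos hj]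
    by_cases hl : w - M.p l = a
    · rw [dif_pos hl]
      simp only [GLFam.one_at, diagonal_apply]
      by_cases hjl : j = l
      · subst hjl
        simp only [if_true]
        by_cases hji : j = i.1
        · subst hji
          simp
        · rw [Function.update_of_ne hji, Function.update_of_ne]
          · simp
          intro h
          exact hji (congrArg Subtype.val h)
      · rw [if_neg hjl, if_neg]
        intro h
        exact hjl (congrArg Subtype.val h)
    · rw [dif_neg hl, if_neg]
      rintro rfl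
      exact hl hj
  · rw [dif_neg hj]
    by_cases hjl : j = l
    · subst hjl
      rw [if_pos rfl, if_pos rfl, Function.update_of_ne]
      · simp
      rintro rfl
      exact hj i.2
    · rw [if_neg hjl, if_neg hjl]

theorem dR_one_at (a : ℤ) (i : Block M a) (x : K) (hx : x ≠ 0) :
    dR ρ M K (embS M a (GLFam.one_at i x⁻¹) (GLFam.one_at i x)) = x ^ lowWt ρ M i.1 := by
  have h1 : embS M a (GLFam.one_at i x⁻¹) (GLFam.one_at i x) =
      diagonal (Sum.elim (Function.update 1 i.1 x⁻¹) (Function.update 1 i.1 x)) := by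
    unfold embS
    rw [emb'_one_at, emb'_one_at]
    ext j l
    rcases j with j | j <;> rcases l with l | l <;> simp [diagonal_apply]
  have hs : IsSymp (embS M a (GLFam.one_at i x⁻¹) (GLFam.one_at i x)) := by
    rw [h1]
    apply isSymp_diagonal 1
    intro j
    simp only [Sum.elim_inl, Sum.elim_inr]
    by_cases hj : j = i.1
    · subst hj
      simp [hx]
    · simp [Function.update_of_ne hj]
  unfold dR
  rw [h1] at hs ⊢
  rw [ρ.ev_diagonal _ _ hs, dLo_diagonal]
  unfold lowWt
  have h2 : ∀ s : κ, ∏ j, (Sum.elim (Function.update (1 : Fin n → K) i.1 x⁻¹)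
      (Function.update 1 i.1 x) j) ^ ρ.wt s j =
      x ^ ((ρ.wt s (Sum.inr i.1) : ℤ) - ρ.wt s (Sum.inl i.1)) := by
    intro s
    rw [Fintype.prod_sum_type]
    simp only [Sum.elim_inl, Sum.elim_inr]
    rw [Finset.prod_eq_single i.1, Finset.prod_eq_single i.1]
    · rw [Function.update_self, Function.update_self, zpow_sub₀ hx, zpow_natCast, zpow_natCast,
        inv_pow, mul_comm, div_eq_mul_inv]
    · intro j _ hj
      rw [Function.update_of_ne hj]
      simp
    · simp
    · intro j _ hj
      rw [Function.update_of_ne hj]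
      simp
    · simp
  rw [Finset.prod_congr rfl (fun s _ => h2 s.1)]
  have h3 : ∀ (T : Finset {s // hI ρ M.p w s < (k * w + 1) / 2}),
      ∏ s ∈ T, x ^ ((ρ.wt s.1 (Sum.inr i.1) : ℤ) - ρ.wt s.1 (Sum.inl i.1)) =
      x ^ (∑ s ∈ T, ((ρ.wt s.1 (Sum.inr i.1) : ℤ) - ρ.wt s.1 (Sum.inl i.1))) := by
    intro T
    induction T using Finset.induction_on with
    | empty => simp
    | insert b T hb ih => rw [Finset.prod_insert hb, Finset.sum_insert hb, ih, zpow_add₀ hx]
  exact h3 _

/-- the action of a block of the Levi subgroup -/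
theorem dR_embS (a : ℤ) (i : Block M a) (U V : Matrix (Block M a) (Block M a) K)
    (h : Uᵀ * V = 1) : dR ρ M K (embS M a U V) = V.det ^ lowWt ρ M i.1 := by
  let D : Matrix (Block M a) (Block M a) K → K := fun A => dR ρ M K (embS M a (A⁻¹)ᵀ A)
  have hinv : ∀ A : Matrix (Block M a) (Block M a) K, A.det ≠ 0 → ((A⁻¹)ᵀ)ᵀ * A = 1 := by
    intro A hA
    rw [transpose_transpose, nonsing_inv_mul _ (isUnit_iff_ne_zero.mpr hA)]
  have hmul : ∀ A B : Matrix (Block M a) (Block M a) K, A.det ≠ 0 → B.det ≠ 0 →
      D (A * B) = D A * D B := by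
    intro A B hA hB
    simp only [D]
    rw [Matrix.mul_inv_rev, transpose_mul, embS_mul, dR_mul ρ M (isSymp_embS M a (hinv A hA))
      (isSymp_embS M a (hinv B hB)) (isLevi_embS M a _ _)]
  have hone : D 1 = 1 := by
    simp only [D]
    rw [inv_one, transpose_one, embS_one, dR_one]
  have hV : V.det ≠ 0 := (isUnit_det_of_left_inverse h).ne_zero
  have hU : U = (V⁻¹)ᵀ := by
    have h1 : V⁻¹ = Uᵀ := Matrix.inv_eq_left_inv h
    rw [h1, transpose_transpose]
  have h1 := hom_eq D hmul hone i V hV
  have h2 : ((GLFam.one_at i V.det : Matrix (Block M a) (Block M a) K)⁻¹)ᵀ =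
      GLFam.one_at i (V.det)⁻¹ := by
    have h3 : (GLFam.one_at i V.det : Matrix (Block M a) (Block M a) K)⁻¹ =
        GLFam.one_at i (V.det)⁻¹ := by
      apply Matrix.inv_eq_left_inv
      simp only [GLFam.one_at, diagonal_mul_diagonal]
      rw [← diagonal_one]
      congr 1
      funext j
      by_cases hj : j = i
      · subst hj
        simp [hV]
      · simp [Function.update_of_ne hj]
    rw [h3]
    simp only [GLFam.one_at, diagonal_transpose]
  simp only [D] at h1
  rw [h2, dR_one_at ρ M a i _ hV] at h1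
  rw [hU, h1]

/-- the exponent only depends on the block -/
theorem lowWt_congr (i j : Fin n) (hij : M.p i = M.p j) : lowWt ρ M i = lowWt ρ M j := by
  have h1 := dR_one_at (K := E) ρ M (w - M.p i) ⟨i, rfl⟩ 2 two_ne_zero
  have h2 := dR_embS (K := E) ρ M (w - M.p i) ⟨j, by rw [hij]⟩
    (GLFam.one_at ⟨i, rfl⟩ (2 : E)⁻¹) (GLFam.one_at ⟨i, rfl⟩ (2 : E)) (by
      simp only [GLFam.one_at, diagonal_transpose, diagonal_mul_diagonal]
      rw [← diagonal_one]
      congr 1
      funext l
      by_cases hl : l = ⟨i, rfl⟩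
      · subst hl
        simp
      · simp [Function.update_of_ne hl])
  rw [h1, GLFam.det_one_at] at h2
  simp only at h2
  have h3 : ∀ r s : ℤ, (2 : E) ^ r = 2 ^ s → r = s := by
    intro r s hrs
    have h4 : ((2 : ℚ) ^ r : ℚ) = 2 ^ s := by
      have h5 : (((2 : ℚ) ^ r : ℚ) : E) = (((2 : ℚ) ^ s : ℚ) : E) := by
        push_cast
        exact hrs
      exact_mod_cast h5
    exact zpow_right_injective₀ (by norm_num) (by norm_num) h4
  exact h3 _ _ h2

/-- the action of the Levi subgroup -/
theorem dR_cutT (U V : Matrix (Fin n) (Fin n) K) (hUV : ∀ a, (blockOf M U a)ᵀ * blockOf M V a = 1)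
    (T : Finset ℤ) :
    (cutT M U T)ᵀ * cutT M V T = 1 ∧
    dR ρ M K (fromBlocks (cutT M U T) 0 0 (cutT M V T)) =
      ∏ a ∈ T, dR ρ M K (embS M a (blockOf M U a) (blockOf M V a)) := by
  induction T using Finset.induction_on with
  | empty =>
    rw [cutT_empty, cutT_empty, fromBlocks_one, dR_one, Finset.prod_empty]
    simp
  | insert a T ha ih =>
    obtain ⟨ih1, ih2⟩ := ih
    rw [Finset.prod_insert ha, ← ih2, cutT_insert M U a T ha, cutT_insert M V a T ha]
    constructor
    · rw [transpose_mul, emb'_transpose]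
      calc (cutT M U T)ᵀ * emb' M a (blockOf M U a)ᵀ * (emb' M a (blockOf M V a) * cutT M V T)
          = (cutT M U T)ᵀ * (emb' M a (blockOf M U a)ᵀ * emb' M a (blockOf M V a)) *
            cutT M V T := by simp only [Matrix.mul_assoc]
        _ = 1 := by rw [← emb'_mul, hUV, emb'_one, Matrix.mul_one, ih1]
    · have h1 : (fromBlocks (emb' M a (blockOf M U a) * cutT M U T) 0 0
          (emb' M a (blockOf M V a) * cutT M V T) : Matrix (Idx n) (Idx n) K) =
          embS M a (blockOf M U a) (blockOf M V a) *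
            fromBlocks (cutT M U T) 0 0 (cutT M V T) := by
        unfold embS
        rw [fromBlocks_multiply]
        simp
      rw [h1, dR_mul ρ M (isSymp_embS M a (hUV a)) _ (isLevi_embS M a _ _)]
      apply isSymp_fromBlocks 1
      rw [ih1]
      simp

theorem det_cutT {S : Type} [CommRing S] (V : Matrix (Fin n) (Fin n) S) (T : Finset ℤ) :
    (cutT M V T).det = ∏ a ∈ T, (blockOf M V a).det := by
  induction T using Finset.induction_on with
  | empty => rw [cutT_empty, det_one, Finset.prod_empty]
  | insert a T ha ih =>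
    rw [Finset.prod_insert ha, ← ih, cutT_insert M V a T ha, det_mul, det_emb']

theorem cutT_low {S : Type} [CommRing S] (V : Matrix (Fin n) (Fin n) S)
    (hV : ∀ i j, M.p i ≠ M.p j → V i j = 0) : cutT M V (lowIndices M) = V := by
  ext i j
  simp only [cutT, Matrix.of_apply]
  have h1 : w - M.p i ∈ lowIndices M := Finset.mem_image_of_mem _ (Finset.mem_univ i)
  rw [if_pos h1]
  by_cases h : M.p i = M.p j
  · rw [if_pos h]
  · rw [if_neg h, hV i j h]

theorem blockOf_mul {S : Type} [CommRing S] (U V : Matrix (Fin n) (Fin n) S) (a : ℤ)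
    (hV : ∀ i j, M.p i ≠ M.p j → V i j = 0) :
    blockOf M (U * V) a = blockOf M U a * blockOf M V a := by
  ext i j
  simp only [blockOf, Matrix.of_apply, Matrix.mul_apply]
  rw [← Fintype.sum_subtype_add_sum_subtype (fun l : Fin n => w - M.p l = a)]
  rw [add_eq_left.mpr]
  apply Finset.sum_eq_zero
  intro l _
  rw [hV l.1 j.1, mul_zero]
  have h1 := l.2
  have h2 := j.2
  omega

end Pool.Agent.MP100fe7.GSp
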