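import Pool.Agent.Lib.MP_100fe7_nt.SFactor
import Pool.Agent.Lib.MP_100fe7_nt.SLevi2

/-!
Precise form of the factorisation of a symplectic comparison matrix over `ℂ`.
-/

set_option linter.unusedSectionVars false

namespace Pool.Agent.MP100fe7.GSp

open Matrix Pool.Agent.MP100fe7

/-- A symplectic matrix which is parabolic times split times block diagonal: precise form of the
symplectic factorisation. -/
theorem factor_symp2 {n : ℕ} (p : Fin n → ℤ) (w : ℤ) (hp : ∀ j, w < 2 * p j)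
    {X b : Matrix (Idx n) (Idx n) ℂ} {h₁ h₂ : Matrix (Fin n) (Fin n) ℂ} (ν : ℂˣ)
    (hν : Xᵀ * symJ ℂ n * X = (ν : ℂ) • symJ ℂ n)
    (hbu : IsUnit b.det)
    (hb : ∀ i j, Sum.elim p (fun i => w - p i) i < Sum.elim p (fun i => w - p i) j → b i j = 0)
    (hu₁ : IsUnit h₁.det) (hu₂ : IsUnit h₂.det)
    (hM : X = b * gz ℂ n * fromBlocks h₁ 0 0 h₂) :
    ∃ (t : Matrix (Fin n) (Fin n) ℂ), IsUnit t.det ∧ tᵀ * t = b.toBlocks₁₁ᵀ * b.toBlocks₂₂ ∧
      (∀ i j, p i ≠ p j → t i j = 0) ∧ (∀ i j, p i ≠ p j → t⁻¹ i j = 0) ∧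
      IsSymp (b * fromBlocks t⁻¹ 0 0 t⁻¹) ∧
      (∀ i j, Sum.elim p (fun i => w - p i) i < Sum.elim p (fun i => w - p i) j →
        (b * fromBlocks t⁻¹ 0 0 t⁻¹) i j = 0) ∧
      (t * h₁)ᵀ * (t * h₂) = (-(ν : ℂ) / 2) • 1 ∧
      X = b * fromBlocks t⁻¹ 0 0 t⁻¹ * gz ℂ n * fromBlocks (t * h₁) 0 0 (t * h₂) := by
  -- blocks of b
  set b₁₁ := b.toBlocks₁₁ with hb₁₁
  set b₁₂ := b.toBlocks₁₂ with hb₁₂
  set b₂₂ := b.toBlocks₂₂ with hb₂₂
  have hb21 : b.toBlocks₂₁ = 0 := by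
    ext i j
    simp only [toBlocks₂₁, of_apply, Matrix.zero_apply]
    apply hb
    simp only [Sum.elim_inl, Sum.elim_inr]
    have h1 := hp i
    have h2 := hp j
    omega
  have hbb : b = fromBlocks b₁₁ b₁₂ 0 b₂₂ := by
    rw [← hb21]
    exact (fromBlocks_toBlocks b).symm
  -- X⁻¹ b
  let k₁ := h₁⁻¹
  let k₂ := h₂⁻¹
  have hk₁ : h₁ * k₁ = 1 := mul_nonsing_inv _ hu₁
  have hk₂ : h₂ * k₂ = 1 := mul_nonsing_inv _ hu₂
  have h2u : IsUnit (2 : ℂ) := (two_ne_zero).isUnit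
  let Z : Matrix (Idx n) (Idx n) ℂ := fromBlocks k₁ k₁ k₂ (-k₂)
  have hXZ : X * Z = (2 : ℂ) • b := by
    have h3 : fromBlocks h₁ 0 0 h₂ * Z = gz ℂ n := by
      simp only [Z]
      rw [fromBlocks_multiply]
      simp only [Matrix.zero_mul, add_zero, zero_add, Matrix.mul_neg, hk₁, hk₂]
      simp [gz]
    rw [hM, Matrix.mul_assoc, h3, Matrix.mul_assoc, gz_mul_gz, Matrix.mul_smul, Matrix.mul_one]
  have hZ : (4 : ℂ) • (bᵀ * symJ ℂ n * b) = (ν : ℂ) • (Zᵀ * symJ ℂ n * Z) := by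
    have h3 : (X * Z)ᵀ * symJ ℂ n * (X * Z) = (ν : ℂ) • (Zᵀ * symJ ℂ n * Z) := by
      rw [transpose_mul]
      calc Zᵀ * Xᵀ * symJ ℂ n * (X * Z) = Zᵀ * (Xᵀ * symJ ℂ n * X) * Z := by
            simp only [Matrix.mul_assoc]
        _ = _ := by rw [hν, Matrix.mul_smul, Matrix.smul_mul]
    rw [← h3, hXZ, transpose_smul, Matrix.smul_mul, Matrix.smul_mul, Matrix.mul_smul, smul_smul]
    norm_num
  have hZ' : Zᵀ * symJ ℂ n * Z = fromBlocks (k₁ᵀ * k₂ - k₂ᵀ * k₁) (-(k₁ᵀ * k₂) - k₂ᵀ * k₁)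
      (k₁ᵀ * k₂ + k₂ᵀ * k₁) (-(k₁ᵀ * k₂) + k₂ᵀ * k₁) := by
    simp only [Z, symJ]
    rw [fromBlocks_transpose, fromBlocks_multiply, fromBlocks_multiply]
    congr 1
    · simp [sub_eq_add_neg, add_comm]
    · simp [sub_eq_add_neg, add_comm]
    · simp [add_comm]
    · simp [add_comm]
  have hb' : bᵀ * symJ ℂ n * b = fromBlocks 0 (b₁₁ᵀ * b₂₂) (-(b₂₂ᵀ * b₁₁))
      (b₁₂ᵀ * b₂₂ - b₂₂ᵀ * b₁₂) := by
    rw [hbb]
    simp only [symJ]
    rw [fromBlocks_transpose, fromBlocks_multiply, fromBlocks_multiply]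
    congr 1
    · simp
    · simp
    · simp
    · simp [sub_eq_add_neg, add_comm]
  rw [hZ', hb', fromBlocks_smul, fromBlocks_smul, fromBlocks_inj] at hZ
  obtain ⟨e11, e12, e21, e22⟩ := hZ
  have hν0 : (ν : ℂ) ≠ 0 := ν.ne_zero
  have hsymk : k₁ᵀ * k₂ = k₂ᵀ * k₁ := by
    rw [smul_zero] at e11
    have h3 := (smul_eq_zero.mp e11.symm).resolve_left hν0
    exact sub_eq_zero.mp h3
  have hS : (4 : ℂ) • (b₁₁ᵀ * b₂₂) = (ν : ℂ) • (-(k₁ᵀ * k₂) - k₂ᵀ * k₁) := e12
  have hSsymm : (b₁₁ᵀ * b₂₂)ᵀ = b₁₁ᵀ * b₂₂ := by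
    have h3 : (4 : ℂ) • (b₁₁ᵀ * b₂₂)ᵀ = (4 : ℂ) • (b₁₁ᵀ * b₂₂) := by
      rw [← transpose_smul, hS, transpose_smul, transpose_sub, transpose_neg, transpose_mul,
        transpose_mul, transpose_transpose, transpose_transpose, hsymk]
    have h4 : (4 : ℂ) ≠ 0 := by norm_num
    exact smul_right_injective _ h4 h3
  have hupper : ∀ i j, p j < p i → (b₁₁ᵀ * b₂₂) i j = 0 := by
    intro i j hij
    rw [Matrix.mul_apply]
    apply Finset.sum_eq_zero
    intro k _
    rw [transpose_apply]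
    by_cases h3 : p k < p i
    · have h4 : b₁₁ k i = 0 := by
        simp only [hb₁₁, toBlocks₁₁, of_apply]
        apply hb
        simpa using h3
      rw [h4, zero_mul]
    · have h4 : b₂₂ k j = 0 := by
        simp only [hb₂₂, toBlocks₂₂, of_apply]
        apply hb
        simp only [Sum.elim_inr]
        omega
      rw [h4, mul_zero]
  have hblock : ∀ i j, p i ≠ p j → (b₁₁ᵀ * b₂₂) i j = 0 := by
    intro i j hij
    rcases lt_or_gt_of_ne hij with h3 | h3
    · rw [← hSsymm, transpose_apply]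
      exact hupper j i h3
    · exact hupper i j h3
  obtain ⟨t, ht, htp⟩ := exists_sqrt_block p (b₁₁ᵀ * b₂₂) hSsymm hblock
  have hudet : IsUnit (b₁₁ᵀ * b₂₂).det := by
    rw [hbb, det_fromBlocks_zero₂₁] at hbu
    rw [det_mul, det_transpose]
    exact hbu
  have htu : IsUnit t.det := by
    rw [← ht, det_mul] at hudet
    exact isUnit_of_mul_isUnit_right hudet
  -- the inverse of `t` has the same block structure
  have htinv : ∀ i j, p i ≠ p j → t⁻¹ i j = 0 := by
    let d : Fin n → ℂ := fun i => (p i : ℂ)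
    have hcomm : t * diagonal d = diagonal d * t := by
      ext i j
      rw [mul_diagonal, diagonal_mul]
      by_cases hij : p i = p j
      · simp only [d]
        rw [hij, mul_comm]
      · rw [htp i j hij, zero_mul, mul_zero]
    have hcomm' : diagonal d * t⁻¹ = t⁻¹ * diagonal d := by
      calc diagonal d * t⁻¹ = (t⁻¹ * t) * (diagonal d * t⁻¹) := by
            rw [nonsing_inv_mul _ htu, Matrix.one_mul]
        _ = t⁻¹ * (t * diagonal d) * t⁻¹ := by simp only [Matrix.mul_assoc]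
        _ = t⁻¹ * diagonal d * (t * t⁻¹) := by
            rw [hcomm]
            simp only [Matrix.mul_assoc]
        _ = _ := by rw [mul_nonsing_inv _ htu, Matrix.mul_one]
    intro i j hij
    have h3 := congrFun (congrFun hcomm' i) j
    rw [mul_diagonal, diagonal_mul] at h3
    have h4 : ((p i : ℂ) - p j) * t⁻¹ i j = 0 := by
      simp only [d] at h3
      linear_combination h3
    rcases mul_eq_zero.mp h4 with h5 | h5
    · exfalso
      apply hij
      rw [sub_eq_zero] at h5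
      exact_mod_cast h5
    · exact h5
  let D : Matrix (Idx n) (Idx n) ℂ := fromBlocks t 0 0 t
  let D' : Matrix (Idx n) (Idx n) ℂ := fromBlocks t⁻¹ 0 0 t⁻¹
  have hDD : D' * D = 1 := by
    simp only [D, D']
    rw [fromBlocks_multiply, nonsing_inv_mul _ htu]
    simp [fromBlocks_one]
  have hDg : D * gz ℂ n = gz ℂ n * D := by
    simp only [D, gz]
    rw [fromBlocks_multiply, fromBlocks_multiply]
    simp
  have hX2 : X = (b * D') * gz ℂ n * fromBlocks (t * h₁) 0 0 (t * h₂) := by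
    have h3 : fromBlocks (t * h₁) 0 0 (t * h₂) = D * fromBlocks h₁ 0 0 h₂ := by
      simp only [D]
      rw [fromBlocks_multiply]
      simp
    rw [h3, hM]
    calc b * gz ℂ n * fromBlocks h₁ 0 0 h₂ = b * (D' * D) * gz ℂ n * fromBlocks h₁ 0 0 h₂ := by
          rw [hDD, Matrix.mul_one]
      _ = b * D' * (D * gz ℂ n) * fromBlocks h₁ 0 0 h₂ := by simp only [Matrix.mul_assoc]
      _ = _ := by
          rw [hDg]
          simp only [Matrix.mul_assoc]
  have hb's : IsSymp (b * D') := by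
    refine ⟨1, ?_⟩
    have h22 : b₁₂ᵀ * b₂₂ - b₂₂ᵀ * b₁₂ = 0 := by
      have h3 : (4 : ℂ) • (b₁₂ᵀ * b₂₂ - b₂₂ᵀ * b₁₂) = 0 := by
        rw [e22, hsymk]
        simp
      exact (smul_eq_zero.mp h3).resolve_left (by norm_num)
    have h21 : b₂₂ᵀ * b₁₁ = b₁₁ᵀ * b₂₂ := by
      rw [← hSsymm, transpose_mul, transpose_transpose]
    have h4 : (t⁻¹)ᵀ * (b₁₁ᵀ * b₂₂) * t⁻¹ = 1 := by
      rw [← ht]
      calc (t⁻¹)ᵀ * (tᵀ * t) * t⁻¹ = ((t⁻¹)ᵀ * tᵀ) * (t * t⁻¹) := by
            simp only [Matrix.mul_assoc]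
        _ = 1 := by
            rw [← transpose_mul, mul_nonsing_inv _ htu, transpose_one, Matrix.one_mul]
    rw [transpose_mul]
    calc D'ᵀ * bᵀ * symJ ℂ n * (b * D') = D'ᵀ * (bᵀ * symJ ℂ n * b) * D' := by
          simp only [Matrix.mul_assoc]
      _ = _ := by
          rw [hb', h22, h21]
          simp only [D', symJ]
          rw [fromBlocks_transpose, fromBlocks_multiply, fromBlocks_multiply, fromBlocks_smul]
          congr 1
          · simp
          · simp only [Matrix.mul_zero, Matrix.zero_mul, add_zero, zero_add, transpose_zero, h4]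
            simp
          · simp only [Matrix.mul_zero, Matrix.zero_mul, add_zero, zero_add, transpose_zero,
              Matrix.mul_neg, Matrix.neg_mul, h4]
            simp
          · simp
  have hgs : IsSymp (gz ℂ n) := isSymp_gz h2u
  refine ⟨t, htu, ht, htp, htinv, hb's, ?_, ?_, hX2⟩
  · intro i j hij
    rw [Matrix.mul_apply]
    apply Finset.sum_eq_zero
    intro k _
    by_cases h3 : Sum.elim p (fun i => w - p i) k = Sum.elim p (fun i => w - p i) j
    · rw [hb i k (by rw [h3]; exact hij), zero_mul]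
    · have h4 : D' k j = 0 := by
        simp only [D']
        rcases k with k | k <;> rcases j with j | j
        · simp only [fromBlocks_apply₁₁]
          apply htinv
          simpa using h3
        · simp
        · simp
        · simp only [fromBlocks_apply₂₂]
          apply htinv
          intro h5
          apply h3
          simp [h5]
      change b i k * D' k j = 0
      rw [h4, mul_zero]
  · have h5 : k₁ᵀ * k₂ = (-(2 : ℂ) / ν) • (b₁₁ᵀ * b₂₂) := by
      have h6 : (4 : ℂ) • (b₁₁ᵀ * b₂₂) = (-(2 : ℂ) * ν) • (k₁ᵀ * k₂) := by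
        rw [hS, ← hsymk, ← neg_add', ← two_smul ℂ, smul_neg, smul_smul, ← neg_smul]
        congr 1
        ring
      have h7 := congrArg (fun Y : Matrix (Fin n) (Fin n) ℂ => (-(1 : ℂ) / (2 * ν)) • Y) h6
      simp only [smul_smul] at h7
      have h8 : -(1 : ℂ) / (2 * ν) * (-2 * ν) = 1 := by
        field_simp
      rw [h8, one_smul] at h7
      rw [← h7]
      congr 1
      field_simp
      ring
    have h9 : b₁₁ᵀ * b₂₂ = (-(ν : ℂ) / 2) • (k₁ᵀ * k₂) := by
      rw [h5, smul_smul]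
      have h10 : -(ν : ℂ) / 2 * (-2 / ν) = 1 := by
        field_simp
      rw [h10, one_smul]
    have hk₁' : h₁ᵀ * k₁ᵀ = 1 := by
      rw [← transpose_mul, nonsing_inv_mul _ hu₁, transpose_one]
    have hk₂' : k₂ * h₂ = 1 := nonsing_inv_mul _ hu₂
    rw [transpose_mul]
    calc h₁ᵀ * tᵀ * (t * h₂) = h₁ᵀ * (tᵀ * t) * h₂ := by simp only [Matrix.mul_assoc]
      _ = (-(ν : ℂ) / 2) • ((h₁ᵀ * k₁ᵀ) * (k₂ * h₂)) := by
        rw [ht, h9, Matrix.mul_smul, Matrix.smul_mul]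
        simp only [Matrix.mul_assoc]
      _ = _ := by rw [hk₁', hk₂', Matrix.one_mul]

end Pool.Agent.MP100fe7.GSp
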