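import Pool.Agent.Lib.MP_100fe7_nt.SWeyl4

/-!
The ratio of the two periods for the irreducible representations of `GSp_{2n}` of odd degree.
-/

set_option linter.unusedSectionVars false

namespace Pool.Agent.MP100fe7.GSp

open Matrix Finset Filter Topology Pool.Agent.MP100fe7 Complex TensorProduct

variable {E : Type} [Field E] {n k : ℕ} {κ : Type} [Fintype κ] [DecidableEq κ]

/-- the slope of the basis vector `s` -/
def slope (ρ : SympRep E n κ k) (s : κ) : ℤ :=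
  ∑ i : Fin n, cI i * ((ρ.wt s (Sum.inl i) : ℤ) - ρ.wt s (Sum.inr i))

/-- the signed character along the curve -/
noncomputable def charG (ρ : SympRep E n κ k) (t : ℝ) : ℂ :=
  ∑ s, (ρ.sgn s : ℂ) * Complex.exp ((slope ρ s : ℂ) * t)

theorem char_eval (ρ : SympRep E n κ k) (t : ℝ) :
    (∑ s, ∏ i, ((xt n t i ^ ((ρ.wt s (Sum.inl i) : ℤ) - ρ.wt s (Sum.inr i)) : ℂˣ) : ℂ)) =
      (-I) ^ k * charG ρ t := by
  unfold charG
  rw [Finset.mul_sum]
  apply Finset.sum_congr rfl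
  intro s _
  have h1 : ∏ i, ((xt n t i ^ ((ρ.wt s (Sum.inl i) : ℤ) - ρ.wt s (Sum.inr i)) : ℂˣ) : ℂ) =
      ((zt t ^ slope ρ s : ℂˣ) : ℂ) := by
    rw [← Units.coe_prod]
    congr 1
    unfold slope
    have h2 : ∀ u : Finset (Fin n), ∏ i ∈ u, xt n t i ^
        ((ρ.wt s (Sum.inl i) : ℤ) - ρ.wt s (Sum.inr i)) =
        zt t ^ (∑ i ∈ u, cI i * ((ρ.wt s (Sum.inl i) : ℤ) - ρ.wt s (Sum.inr i))) := by
      intro u
      induction u using Finset.induction_on with
      | empty => simp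
      | insert a u ha ih =>
        rw [Finset.prod_insert ha, Finset.sum_insert ha, ih, _root_.zpow_add, _root_.zpow_mul]
        rfl
    exact h2 _
  rw [h1, Units.val_zpow_eq_zpow_val, zt_val, mul_zpow]
  have h3 : Complex.exp (t : ℂ) ^ slope ρ s = Complex.exp ((slope ρ s : ℂ) * t) := by
    rw [← Complex.exp_int_mul]
  have hI : (-I : ℂ) ≠ 0 := by simp [I_ne_zero]
  have h4 : (-I : ℂ) ^ slope ρ s = (-I) ^ k * (ρ.sgn s : ℂ) := by
    obtain ⟨Q, hQ⟩ : ∃ Q : ℤ, slope ρ s =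
        k + 2 * (-((∑ i, ρ.wt s (Sum.inr i) : ℕ) : ℤ)) + 4 * Q := by
      choose q hq using cI_mod
      refine ⟨∑ i : Fin n, q i * ((ρ.wt s (Sum.inl i) : ℤ) - ρ.wt s (Sum.inr i)), ?_⟩
      unfold slope
      have h5 : (k : ℤ) = (∑ i, (ρ.wt s (Sum.inl i) : ℤ)) + ∑ i, (ρ.wt s (Sum.inr i) : ℤ) := by
        have h := ρ.deg s
        rw [Fintype.sum_sum_type] at h
        exact_mod_cast h.symm
      push_cast
      have h6 : ∀ i : Fin n, cI i * ((ρ.wt s (Sum.inl i) : ℤ) - ρ.wt s (Sum.inr i)) =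
          (ρ.wt s (Sum.inl i) : ℤ) - ρ.wt s (Sum.inr i) +
            4 * (q i * ((ρ.wt s (Sum.inl i) : ℤ) - ρ.wt s (Sum.inr i))) := by
        intro i
        rw [hq]
        ring
      rw [Finset.sum_congr rfl (fun i _ => h6 i), Finset.sum_add_distrib,
        Finset.sum_sub_distrib, ← Finset.mul_sum]
      linear_combination -h5
    have hsgn : (ρ.sgn s : ℂ) = (-1) ^ (∑ i, ρ.wt s (Sum.inr i)) := by
      unfold SympRep.sgn
      push_cast
      rw [Finset.prod_pow_eq_pow_sum]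
    rw [hQ, zpow_add₀ hI, zpow_add₀ hI, _root_.zpow_mul, _root_.zpow_mul, hsgn]
    have h7 : ((-I : ℂ) ^ (2 : ℤ)) = -1 := by
      rw [zpow_ofNat]
      simp
    have h8 : ((-I : ℂ) ^ (4 : ℤ)) = 1 := by
      have : ((-I : ℂ) ^ (4 : ℤ)) = ((-I) ^ (2 : ℕ)) ^ (2 : ℕ) := by
        rw [zpow_ofNat, ← pow_mul]
      rw [this]
      simp
    rw [h7, h8, _root_.one_zpow, mul_one, zpow_natCast, _root_.zpow_neg, zpow_natCast]
    congr 1
    rw [← inv_pow]
    norm_num
  rw [h3, h4]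
  ring

theorem charG_deriv (ρ : SympRep E n κ k) :
    HasDerivAt (charG ρ) ((∑ s, ρ.sgn s * slope ρ s : ℤ) : ℂ) 0 := by
  have h1 : HasDerivAt (fun t : ℝ => ∑ s, (ρ.sgn s : ℂ) * Complex.exp ((slope ρ s : ℂ) * t))
      (∑ s, (ρ.sgn s : ℂ) * (slope ρ s : ℂ)) 0 := by
    apply HasDerivAt.fun_sum
    intro s _
    exact (hasDerivAt_exp (slope ρ s : ℂ)).const_mul _
  push_cast
  exact h1

theorem sum_slope (ρ : SympRep E n κ k) (K : ℤ) (hK : ∀ i, 2 * K = moment ρ i) :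
    ∑ s, ρ.sgn s * slope ρ s = -(-1) ^ n * n * (2 * K) := by
  rw [← sum_cI n, Finset.sum_mul]
  unfold slope
  simp only [Finset.mul_sum]
  rw [Finset.sum_comm]
  apply Finset.sum_congr rfl
  intro i _
  rw [hK i]
  unfold moment
  rw [Finset.mul_sum]
  apply Finset.sum_congr rfl
  intro s _
  ring

theorem weyl_exponent (ρ : SympRep E n κ k) (lam : Fin n → ℕ) (hlam : Antitone lam)
    (hρ : IsSympIrr ρ lam) (j : ℕ) (hj : ∑ i, lam i + 2 * j = k) (hzero : ∑ s, ρ.sgn s = 0)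
    (K : ℤ) (hK : ∀ i, 2 * K = moment ρ i) :
    ((oddC lam = evenC lam + 2 ∨ evenC lam = oddC lam + 1) →
      K * (n * halfProdC (n := n) 0) =
        (-1) ^ (n + 1 + j + ∑ i, lam i * (n - 1 - i)) * halfProdC lam) ∧
    (¬ (oddC lam = evenC lam + 2 ∨ evenC lam = oddC lam + 1) → n * K = 0) := by
  have hI : (-I : ℂ) ≠ 0 := by simp [I_ne_zero]
  have hrel : ∀ t : ℝ, charG ρ t * prodS (betaC (n := n) 0) t =
      ((-I) ^ k)⁻¹ * prodS (betaC lam) t := by
    intro t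
    have h1 := hρ ℂ (xt n t)
    rw [char_eval, alternantC_xt _ (betaC_strictAnti (n := n) (lam := 0) (fun _ _ _ => le_rfl)),
      alternantC_xt _ (betaC_strictAnti hlam)] at h1
    have h2 := sgC_ne n
    have h3 : ((-I : ℂ) ^ k) ≠ 0 := pow_ne_zero _ hI
    have h4 : (-I) ^ k * (charG ρ t * prodS (betaC (n := n) 0) t) = prodS (betaC lam) t := by
      apply mul_left_cancel₀ h2
      linear_combination h1
    rw [← h4, ← mul_assoc, inv_mul_cancel₀ h3, one_mul]
  have h0 : charG ρ 0 = 0 := by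
    unfold charG
    simp only [Complex.ofReal_zero, mul_zero, Complex.exp_zero, mul_one]
    rw [← Int.cast_sum, hzero, Int.cast_zero]
  obtain ⟨hlt, hA, hB⟩ := limit_compare (charG_deriv ρ) h0 (betaC_strictAnti hlam) (betaC_pos lam)
    hrel (inv_ne_zero (pow_ne_zero _ hI))
  have hlead₀ : lead (betaC (n := n) 0) ≠ 0 :=
    lead_ne (betaC_strictAnti (n := n) (lam := 0) (fun _ _ _ => le_rfl)) (betaC_pos 0)
  obtain ⟨oA, oB⟩ := ord_cases hlam
  constructor
  · intro h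
    have h1 := oA h
    have h2 := hA h1
    rw [lead_eq hlam, lead_eq (n := n) (lam := 0) (fun _ _ _ => le_rfl), h1, sum_slope ρ K hK,
      pow_succ (2 : ℂ)] at h2
    simp only [Pi.zero_apply, Finset.sum_const_zero, pow_zero, zero_mul, one_mul] at h2
    set P : ℂ := (∏ i : Fin n, ((-I) ^ (n - (i : ℕ)) * ((-1) ^ (n - (i : ℕ))) ^ (n - 1 - (i : ℕ))))
      with hP
    set T : ℂ := (∏ i : Fin n, ((2 : ℂ) * ∏ _j ∈ Ioi i, 4)) with hT
    have hP0 : P ≠ 0 := by
      apply Finset.prod_ne_zero_iff.mpr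
      intro i _
      exact mul_ne_zero (pow_ne_zero _ hI) (pow_ne_zero _ (pow_ne_zero _ (by norm_num)))
    have hT0 : T ≠ 0 := by
      apply Finset.prod_ne_zero_iff.mpr
      intro i _
      apply mul_ne_zero two_ne_zero
      apply Finset.prod_ne_zero_iff.mpr
      intro j _
      norm_num
    have h2p : ((2 : ℂ) ^ ordS (betaC (n := n) 0)) ≠ 0 := pow_ne_zero _ two_ne_zero
    have hk : ((-I : ℂ) ^ k) = (-I) ^ (∑ i, lam i) * (-1) ^ j := by
      rw [← hj, pow_add, pow_mul]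
      simp
    rw [hk] at h2
    have hL : ((-I : ℂ) ^ (∑ i, lam i)) ≠ 0 := pow_ne_zero _ hI
    have hj1 : ((-1 : ℂ) ^ j) * (-1) ^ j = 1 := by
      rw [← mul_pow]
      simp
    have hj0 : ((-1 : ℂ) ^ j) ≠ 0 := pow_ne_zero _ (by norm_num)
    have h3 : ((-(-1 : ℂ) ^ n * n * (2 * K)) * halfProdC (n := n) 0) =
        (-1) ^ j * (-1) ^ (∑ i, lam i * (n - 1 - i)) * 2 * halfProdC lam := by
      have h4 : ((-I : ℂ) ^ (∑ i, lam i) * (-1) ^ j)⁻¹ * ((-I) ^ (∑ i, lam i)) = (-1) ^ j := by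
        rw [mul_inv, mul_comm ((-I : ℂ) ^ (∑ i, lam i))⁻¹, mul_assoc, inv_mul_cancel₀ hL, mul_one]
        exact inv_eq_of_mul_eq_one_left hj1
      have h5 : P * T * 2 ^ ordS (betaC (n := n) 0) *
          ((-(-1 : ℂ) ^ n * n * (2 * K)) * halfProdC (n := n) 0) =
          P * T * 2 ^ ordS (betaC (n := n) 0) *
          ((-1) ^ j * (-1) ^ (∑ i, lam i * (n - 1 - i)) * 2 * halfProdC lam) := by
        rw [← h4]
        push_cast at h2
        linear_combination h2
      exact mul_left_cancel₀ (mul_ne_zero (mul_ne_zero hP0 hT0) h2p) h5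
    have h6 : ((K * (n * halfProdC (n := n) 0) : ℤ) : ℂ) =
        (((-1) ^ (n + 1 + j + ∑ i, lam i * (n - 1 - i)) * halfProdC lam : ℤ) : ℂ) := by
      push_cast
      rw [pow_add, pow_add, pow_add, pow_one]
      have h7 : ((-1 : ℂ) ^ n) * (-1) ^ n = 1 := by
        rw [← mul_pow]
        simp
      linear_combination (-(-1 : ℂ) ^ n / 2) * h3 - (K * (n * halfProdC (n := n) 0) : ℂ) * h7
    exact_mod_cast h6
  · intro h
    have h1 := oB h hlt
    have h2 := hB h1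
    have h3 := (mul_eq_zero.mp h2).resolve_right hlead₀
    have h4 : ∑ s, ρ.sgn s * slope ρ s = 0 := by exact_mod_cast h3
    rw [sum_slope ρ K hK] at h4
    have h5 : ((-1 : ℤ) ^ n) ≠ 0 := pow_ne_zero _ (by norm_num)
    have h6 : (-1 : ℤ) ^ n * (n * K) = 0 := by linarith
    exact (mul_eq_zero.mp h6).resolve_left h5

theorem sum_sgn_zero [CharZero E] {R : Type} [CommRing R] [Algebra E R] {w : ℤ}
    (ρ : SympRep E n κ k) (M : Datum R n w) (hk : Odd k) (hw : Odd w) : ∑ s, ρ.sgn s = 0 := by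
  have h := card_sgn_eq ρ M hk hw
  have h1 : ∀ s, ρ.sgn s = (if ρ.sgn s = 1 then 1 else 0) - (if ρ.sgn s = -1 then 1 else 0) := by
    intro s
    rcases ρ.sgn_eq s with h2 | h2
    · rw [h2]
      norm_num
    · rw [h2]
      norm_num
  rw [Finset.sum_congr rfl (fun s _ => h1 s), Finset.sum_sub_distrib]
  simp only [Finset.sum_boole]
  rw [← Fintype.card_subtype, ← Fintype.card_subtype, h.1, h.2, sub_self]

/-- Final form. -/
theorem symp_period_ratio [CharZero E] {R : Type} [CommRing R] [Nontrivial R] [Algebra E R]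
    (hR : Detected R) {w : ℤ} (hw : Odd w) (M : Datum R n w) (hM : IsSymp M.comp) (hk : Odd k)
    (ρ : SympRep E n κ k) (lam : Fin n → ℕ) (hlam : Antitone lam) (hρ : IsSympIrr ρ lam) (j : ℕ)
    (hj : ∑ i, lam i + 2 * j = k) :
    ((∃ x : R, IsSympPeriod ρ M (1 : E) x) ∧ (∃ y : R, IsSympPeriod ρ M (-1 : E) y)) ∧
    ∃ K : ℤ,
      ((oddC lam = evenC lam + 2 ∨ evenC lam = oddC lam + 1) →
        K * (n * halfProdC (n := n) 0) =
          (-1) ^ (n + 1 + j + ∑ i, lam i * (n - 1 - i)) * halfProdC lam) ∧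
      (¬ (oddC lam = evenC lam + 2 ∨ evenC lam = oddC lam + 1) → K = 0) ∧
      ∀ x y c d : R, IsSympPeriod ρ M (1 : E) x → IsSympPeriod ρ M (-1 : E) y →
        IsPeriod (std E n) M (1 : E) c → IsPeriod (std E n) M (-1 : E) d →
        ∃ (x' y' c' d' : Rˣ) (e : Eˣ), (x' : R) = x ∧ (y' : R) = y ∧ (c' : R) = c ∧
          (d' : R) = d ∧ x' / y' = Units.map (algebraMap E R).toMonoidHom e * (c' / d') ^ K := by
  refine ⟨exists_symp_period ρ M hk hw, ?_⟩
  rcases Nat.eq_zero_or_pos n with h0 | hpos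
  · subst h0
    refine ⟨0, ?_, fun _ => rfl, ?_⟩
    · intro h
      exfalso
      have := oddC_add_evenC lam
      omega
    · intro x y c d hx hy hc hd
      exact ratio_symp hR ρ M hM hk hw 0 (fun i => i.elim0) hx hy hc hd
  · obtain ⟨K, hK⟩ := exists_exponent hR ρ M hM hk hw
    obtain ⟨w1, w2⟩ := weyl_exponent ρ lam hlam hρ j hj (sum_sgn_zero ρ M hk hw) K hK
    refine ⟨K, w1, ?_, ?_⟩
    · intro h
      have h1 := w2 h
      have hn : (n : ℤ) ≠ 0 := by exact_mod_cast hpos.ne'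
      exact (mul_eq_zero.mp h1).resolve_left hn
    · intro x y c d hx hy hc hd
      exact ratio_symp hR ρ M hM hk hw K hK hx hy hc hd

end Pool.Agent.MP100fe7.GSp
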