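import Pool.Agent.Lib.MP_100fe7_nt.SMain
import Pool.Agent.Lib.MP_100fe7_nt.Closed2

/-!
The determinant of a parabolic element of `GSp_{2n}` on the lower quotient of `ρ`.
-/

set_option linter.unusedSectionVars false

namespace Pool.Agent.MP100fe7.GSp

open Matrix Pool.Agent.MP100fe7

section generic

variable {E : Type} [Field E] [CharZero E] {R : Type} [CommRing R] [Algebra E R]
  {κ : Type} [Fintype κ] [DecidableEq κ] (H : κ → ℤ) (c : ℤ)

/-- the determinant of the block of the lower part -/
noncomputable def dLo {S : Type} [CommRing S] (X : Matrix κ κ S) : S :=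
  (X.submatrix (fun s : {s // H s < c} => s.1) (fun s : {s // H s < c} => s.1)).det

theorem kerCond_coord {m : ℕ} (ψ : Fin m ≃ {s // H s < c}) :
    KerCond H c ((1 : Matrix κ κ E).submatrix (fun j => (ψ j).1) id) := by
  intro v
  constructor
  · intro h s hs
    have h1 := congrFun h (ψ.symm ⟨s, hs⟩)
    simp only [mulVec, dotProduct, submatrix_apply, id_eq, Matrix.one_apply,
      Equiv.apply_symm_apply, Pi.zero_apply] at h1
    rw [Finset.sum_eq_single s] at h1
    · simpa using h1
    · intro t _ ht
      rw [if_neg (Ne.symm ht), zero_mul]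
    · simp
  · intro h
    funext j
    simp only [mulVec, dotProduct, submatrix_apply, id_eq, Matrix.one_apply, Pi.zero_apply]
    apply Finset.sum_eq_zero
    intro s _
    by_cases hs : (ψ j).1 = s
    · rw [h s (by rw [← hs]; exact (ψ j).2), mul_zero]
    · rw [if_neg hs, zero_mul]

theorem coord_mul {m : ℕ} (ψ : Fin m ≃ {s // H s < c}) :
    ((1 : Matrix κ κ E).submatrix (fun j => (ψ j).1) id) *
      ((1 : Matrix κ κ E).submatrix id (fun j => (ψ j).1)) = 1 := by
  rw [← Matrix.submatrix_mul _ _ _ _ _ Function.bijective_id, Matrix.one_mul]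
  ext i j
  rw [submatrix_apply, Matrix.one_apply, Matrix.one_apply]
  by_cases h : i = j
  · simp [h]
  · rw [if_neg h, if_neg]
    intro h'
    exact h (ψ.injective (Subtype.ext h'))

theorem size_lo {m : ℕ} {B : Matrix (Fin m) κ E} (hB : KerCond H c B)
    {B' : Matrix κ (Fin m) E} (e : B * B' = 1) : m = Fintype.card {s // H s < c} := by
  let ψ₀ : Fin (Fintype.card {s // H s < c}) ≃ {s // H s < c} := (Fintype.equivFin _).symm
  have hsz := size_eq H c hB (kerCond_coord H c ψ₀) e (coord_mul H c ψ₀)
  have := Matrix.square_of_invertible _ _ hsz.2 hsz.1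
  simpa using this

theorem det_quot_eq_dLo {m : ℕ} {B : Matrix (Fin m) κ E} (hB : KerCond H c B)
    {B' : Matrix κ (Fin m) E} (e : B * B' = 1)
    (X : Matrix κ κ R) (hX : ∀ s t, H s < H t → X s t = 0) :
    (B.map (algebraMap E R) * X * B'.map (algebraMap E R)).det = dLo H c X := by
  have hm := size_lo H c hB e
  let ψ₀ : Fin (Fintype.card {s // H s < c}) ≃ {s // H s < c} := (Fintype.equivFin _).symm
  subst hm
  rw [det_quot_eq H c hB (kerCond_coord H c ψ₀) e (coord_mul H c ψ₀) X hX]
  have h1 : ((1 : Matrix κ κ E).submatrix (fun j => (ψ₀ j).1) id).map (algebraMap E R) * X *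
      ((1 : Matrix κ κ E).submatrix id (fun j => (ψ₀ j).1)).map (algebraMap E R) =
      (X.submatrix (fun s : {s // H s < c} => s.1) (fun s : {s // H s < c} => s.1)).submatrix
        ψ₀ ψ₀ := by
    have h2 : ((1 : Matrix κ κ E).submatrix (fun j => (ψ₀ j).1) id).map (algebraMap E R) =
        (1 : Matrix κ κ R).submatrix (fun j => (ψ₀ j).1) id := by
      ext i j
      simp [Matrix.one_apply]
    have h3 : ((1 : Matrix κ κ E).submatrix id (fun j => (ψ₀ j).1)).map (algebraMap E R) =
        (1 : Matrix κ κ R).submatrix id (fun j => (ψ₀ j).1) := by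
      ext i j
      simp [Matrix.one_apply]
    rw [h2, h3]
    have h4 : X = X.submatrix id id := by simp
    conv_lhs => rw [h4]
    rw [← Matrix.submatrix_mul _ _ _ _ _ Function.bijective_id, Matrix.one_mul,
      ← Matrix.submatrix_mul _ _ _ _ _ Function.bijective_id, Matrix.mul_one]
    rfl
  rw [h1, det_submatrix_equiv_self]
  rfl

theorem dLo_mul {S : Type} [CommRing S] (X Y : Matrix κ κ S)
    (hX : ∀ s t, H s < H t → X s t = 0) :
    dLo H c (X * Y) = dLo H c X * dLo H c Y := by
  unfold dLo
  rw [← det_mul]
  congr 1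
  ext s t
  rw [submatrix_apply, Matrix.mul_apply, Matrix.mul_apply]
  rw [← Fintype.sum_subtype_add_sum_subtype (fun s => H s < c)]
  rw [add_eq_left.mpr]
  · rfl
  · apply Finset.sum_eq_zero
    intro u _
    have h1 := s.2
    have h2 := u.2
    rw [hX s.1 u.1 (by omega), zero_mul]

theorem dLo_one {S : Type} [CommRing S] : dLo H c (1 : Matrix κ κ S) = 1 := by
  unfold dLo
  have : ((1 : Matrix κ κ S).submatrix (fun s : {s // H s < c} => s.1)
      (fun s : {s // H s < c} => s.1)) = 1 := by
    ext s t
    rw [submatrix_apply, Matrix.one_apply, Matrix.one_apply]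
    by_cases h : s = t
    · simp [h]
    · rw [if_neg h, if_neg (fun h' => h (Subtype.ext h'))]
  rw [this, det_one]

theorem dLo_diagonal {S : Type} [CommRing S] (x : κ → S) :
    dLo H c (diagonal x) = ∏ s : {s // H s < c}, x s.1 := by
  unfold dLo
  have : (diagonal x).submatrix (fun s : {s // H s < c} => s.1)
      (fun s : {s // H s < c} => s.1) = diagonal fun s : {s // H s < c} => x s.1 := by
    ext1 s t
    rw [submatrix_apply, diagonal_apply, diagonal_apply]
    by_cases h : s = t
    · simp [h]
    · rw [if_neg h, if_neg (fun h' => h (Subtype.ext h'))]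
  rw [this, det_diagonal]

/-- matrices with the same diagonal blocks -/
theorem dLo_congr {S : Type} [CommRing S] (X Y : Matrix κ κ S)
    (hX : ∀ s t, H s < H t → X s t = 0)
    (hY : ∀ s t, H s < H t → Y s t = 0)
    (hXY : ∀ s t, H s = H t → X s t = Y s t) :
    dLo H c X = dLo H c Y := by
  unfold dLo
  have bt : ∀ Z : Matrix κ κ S, (∀ s t, H s < H t → Z s t = 0) →
      BlockTriangular (Z.submatrix (fun s : {s // H s < c} => s.1)
        (fun s : {s // H s < c} => s.1)) (fun s => - H s.1) := by
    intro Z hZ s t hst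
    simp only [neg_lt_neg_iff] at hst
    exact hZ s.1 t.1 hst
  rw [(bt X hX).det, (bt Y hY).det]
  apply Finset.prod_congr rfl
  intro a _
  congr 1
  ext s t
  simp only [toSquareBlock_def, of_apply, submatrix_apply]
  apply hXY
  have h1 := s.2
  have h2 := t.2
  omega

end generic

/-- On the blocks of equal height, `ρ(b)` only depends on the diagonal blocks of `b`. -/
theorem ev_diagBlocks {E : Type} [Field E] {n k : ℕ} {κ : Type} [Fintype κ] [DecidableEq κ]
    (ρ : SympRep E n κ k) {R : Type} [CommRing R] [Algebra E R] (idx : Idx n → ℤ) (w : ℤ)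
    (hidx : ∀ i : Fin n, idx (Sum.inl i) + idx (Sum.inr i) = w)
    {b b' : Matrix (Idx n) (Idx n) R} (hbs : IsSymp b)
    (hb : ∀ i j, idx i < idx j → b i j = 0)
    (hb' : ∀ i j, b' i j = if idx i = idx j then b i j else 0) (s t : κ)
    (hst : ∑ j, (ρ.wt s j : ℤ) * idx j = ∑ j, (ρ.wt t j : ℤ) * idx j) :
    ρ.ev R b s t = ρ.ev R b' s t := by
  let φ : R →ₐ[E] LaurentPolynomial R := IsScalarTower.toAlgHom E R (LaurentPolynomial R)
  have hφ : ∀ r, φ r = LaurentPolynomial.C r := fun r => rfl
  let ι : Polynomial R →ₐ[E] LaurentPolynomial R := Polynomial.toLaurentAlg.restrictScalars E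
  let b₀ : Matrix (Idx n) (Idx n) (Polynomial R) :=
    Matrix.of fun i j => Polynomial.C (b i j) * Polynomial.X ^ (idx i - idx j).toNat
  have hι : ∀ i j, ι (b₀ i j) = LaurentPolynomial.C (b i j) *
      LaurentPolynomial.T (idx i - idx j) := by
    intro i j
    simp only [b₀, of_apply]
    by_cases hij : idx i < idx j
    · rw [hb i j hij]
      simp
    · have h1 : ι (Polynomial.C (b i j)) = LaurentPolynomial.C (b i j) :=
        Polynomial.toLaurent_C _
      have h2 : ι (Polynomial.X ^ (idx i - idx j).toNat) =
          LaurentPolynomial.T ((idx i - idx j).toNat : ℤ) := Polynomial.toLaurent_X_pow _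
      have h3 : ι (Polynomial.C (b i j) * Polynomial.X ^ (idx i - idx j).toNat) =
          ι (Polynomial.C (b i j)) * ι (Polynomial.X ^ (idx i - idx j).toNat) := _root_.map_mul ι _ _
      rw [h3, h1, h2, Int.toNat_of_nonneg (by omega)]
  have h1 : SympRep.tor R idx * b.map φ = (b₀.map ι) * SympRep.tor R idx := by
    ext1 i j
    unfold SympRep.tor
    rw [Matrix.diagonal_mul, Matrix.mul_diagonal, Matrix.map_apply, Matrix.map_apply, hφ, hι,
      mul_assoc, ← LaurentPolynomial.T_add, mul_comm]
    congr 2
    ring
  have hts : IsSymp (SympRep.tor R idx) := SympRep.isSymp_tor idx w hidx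
  have hbφ : IsSymp (b.map φ) := hbs.map (φ : R →+* LaurentPolynomial R)
  have hb₀ : IsSymp (b₀.map ι) := by
    apply IsSymp.of_mul_right (B := SympRep.tor R idx) _ hts
    rw [← h1]
    exact hts.mul hbφ
  have h2 := congrArg (ρ.ev (LaurentPolynomial R)) h1
  rw [ρ.ev_mul _ hts hbφ, ρ.ev_mul _ hb₀ hts, ← ρ.ev_map, ← ρ.ev_map, ρ.ev_tor idx w hidx] at h2
  have h3 := congrFun (congrFun h2 s) t
  rw [Matrix.diagonal_mul, Matrix.mul_diagonal, Matrix.map_apply, Matrix.map_apply, hφ, hst] at h3
  set a := ∑ j, (ρ.wt t j : ℤ) * idx j with ha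
  have h4 : Polynomial.toLaurent (Polynomial.C (ρ.ev R b s t)) =
      Polynomial.toLaurent (ρ.ev (Polynomial R) b₀ s t) := by
    have h5 : ι (ρ.ev (Polynomial R) b₀ s t) =
        Polynomial.toLaurent (ρ.ev (Polynomial R) b₀ s t) := rfl
    rw [h5] at h3
    rw [Polynomial.toLaurent_C]
    have h6 : LaurentPolynomial.T (-a) * (LaurentPolynomial.T a *
        LaurentPolynomial.C (ρ.ev R b s t)) = LaurentPolynomial.T (-a) *
        (Polynomial.toLaurent (ρ.ev (Polynomial R) b₀ s t) * LaurentPolynomial.T a) := by
      rw [h3]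
    rw [← mul_assoc, ← LaurentPolynomial.T_add, neg_add_cancel, LaurentPolynomial.T_zero,
      one_mul] at h6
    rw [h6, mul_left_comm, ← LaurentPolynomial.T_add, neg_add_cancel, LaurentPolynomial.T_zero,
      mul_one]
  have h5 := Polynomial.toLaurent_injective h4
  let φ₀ : Polynomial R →ₐ[E] R := (Polynomial.aeval (0 : R)).restrictScalars E
  have hφ₀ : ∀ p, φ₀ p = Polynomial.eval 0 p := by
    intro p
    exact congrFun (Polynomial.coe_aeval_eq_eval (0 : R)) p
  have h6 := congrArg φ₀ h5
  rw [hφ₀, Polynomial.eval_C] at h6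
  have h7 := congrFun (congrFun (ρ.ev_map φ₀ b₀) s) t
  rw [Matrix.map_apply] at h7
  rw [h6, h7]
  congr 1
  ext1 i j
  rw [Matrix.map_apply, hφ₀, hb']
  change Polynomial.eval 0 (Polynomial.C (b i j) * Polynomial.X ^ (idx i - idx j).toNat) = _
  rw [Polynomial.eval_mul, Polynomial.eval_C, Polynomial.eval_pow, Polynomial.eval_X]
  rcases lt_trichotomy (idx i) (idx j) with h | h | h
  · rw [hb i j h, zero_mul, if_neg (by omega)]
  · rw [if_pos h, h, sub_self, Int.toNat_zero, pow_zero, mul_one]
  · rw [if_neg (by omega), zero_pow (by omega), mul_zero]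

section hom

variable {K : Type} [Field K] [CharZero K] {α : Type} [Fintype α] [DecidableEq α]
  (D : Matrix α α K → K)
  (hmul : ∀ A B : Matrix α α K, A.det ≠ 0 → B.det ≠ 0 → D (A * B) = D A * D B)
  (hone : D 1 = 1)

include hmul hone

theorem hom_ne_zero {A : Matrix α α K} (hA : A.det ≠ 0) : D A ≠ 0 := by
  intro h
  have h1 : A * A⁻¹ = 1 := mul_nonsing_inv _ (isUnit_iff_ne_zero.mpr hA)
  have h2 : (A⁻¹).det ≠ 0 := (isUnit_nonsing_inv_det _ (isUnit_iff_ne_zero.mpr hA)).ne_zero
  have h3 := hmul A A⁻¹ hA h2
  rw [h1, hone, h, zero_mul] at h3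
  exact one_ne_zero h3

theorem hom_transvection (i j : α) (hij : i ≠ j) (c : K) : D (Matrix.transvection i j c) = 1 := by
  have hdet : ∀ c : K, (Matrix.transvection i j c).det ≠ 0 := by
    intro c
    rw [det_transvection_of_ne _ _ hij]
    exact one_ne_zero
  have h1 : D (Matrix.transvection i j (c + c)) =
      D (Matrix.transvection i j c) * D (Matrix.transvection i j c) := by
    rw [← hmul _ _ (hdet _) (hdet _), transvection_mul_transvection_same i j hij]
  let d : Matrix α α K := diagonal (fun k => if k = i then 2 else 1)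
  have hd : d.det ≠ 0 := by
    simp only [d, det_diagonal]
    apply Finset.prod_ne_zero_iff.mpr
    intro k _
    split_ifs
    · exact two_ne_zero
    · exact one_ne_zero
  have hcomm : d * Matrix.transvection i j c = Matrix.transvection i j (c + c) * d := by
    ext a b
    simp only [d, Matrix.diagonal_mul, Matrix.mul_diagonal, Matrix.transvection, Matrix.add_apply,
      Matrix.one_apply, Matrix.single_apply]
    by_cases ha : a = i
    · subst ha
      by_cases hb : b = a
      · subst hb
        simp [hij.symm]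
      · have hab : ¬ a = b := fun h => hb h.symm
        simp only [if_true, hab, if_false, zero_add, hb, true_and]
        by_cases hj : j = b
        · simp [hj]
          ring
        · simp [hj]
    · simp [ha, Ne.symm (Ne.intro ha)]
      by_cases hb : b = i
      · subst hb
        simp [ha]
      · simp [hb]
  have h2 : D d * D (Matrix.transvection i j c) = D d * D (Matrix.transvection i j (c + c)) := by
    rw [← hmul _ _ hd (hdet _), hcomm, hmul _ _ (hdet _) hd, mul_comm]
  have h3 := mul_left_cancel₀ (hom_ne_zero D hmul hone hd) h2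
  rw [h1] at h3
  have h4 : D (Matrix.transvection i j c) * 1 =
      D (Matrix.transvection i j c) * D (Matrix.transvection i j c) := by
    rw [mul_one]
    exact h3
  exact (mul_left_cancel₀ (hom_ne_zero D hmul hone (hdet c)) h4).symm

theorem hom_swap (i i₀ : α) (x : K) (hx : x ≠ 0) :
    D (GLFam.one_at i x) = D (GLFam.one_at i₀ x) := by
  let σ : Equiv.Perm α := Equiv.swap i i₀
  let P : Matrix α α K := (1 : Matrix α α K).submatrix σ id
  let Q : Matrix α α K := (1 : Matrix α α K).submatrix id σ
  have hQP : Q * P = 1 := by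
    simp only [P, Q]
    rw [← Matrix.submatrix_mul _ _ _ _ _ σ.bijective]
    simp
  have hPdet : P.det ≠ 0 := (isUnit_det_of_left_inverse hQP).ne_zero
  have hQdet : Q.det ≠ 0 := (isUnit_det_of_right_inverse hQP).ne_zero
  have hx' : (GLFam.one_at i x : Matrix α α K).det ≠ 0 := by
    rw [GLFam.det_one_at]
    exact hx
  have hconj : P * GLFam.one_at i x * Q = GLFam.one_at i₀ x := by
    have h1 : P * GLFam.one_at i x * Q = (GLFam.one_at i x : Matrix α α K).submatrix σ σ := by
      have h2 : (GLFam.one_at i x : Matrix α α K) = 1 * GLFam.one_at i x * 1 := by simp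
      conv_rhs => rw [h2]
      rw [Matrix.submatrix_mul _ _ σ id σ Function.bijective_id,
        Matrix.submatrix_mul _ _ σ id id Function.bijective_id, Matrix.submatrix_id_id]
    rw [h1]
    ext a b
    simp only [GLFam.one_at, submatrix_apply, diagonal_apply]
    by_cases hab : a = b
    · subst hab
      simp only [if_true]
      by_cases h : a = i₀
      · subst h
        have : σ a = i := by simp [σ]
        rw [this]
        simp
      · rw [Function.update_of_ne h, Function.update_of_ne]
        · simp
        intro h'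
        apply h
        have h3 : σ (σ a) = σ i := by rw [h']
        rw [show σ (σ a) = a by simp [σ]] at h3
        rw [h3]
        simp [σ]
    · simp [hab]
  have hPx : (P * GLFam.one_at i x).det ≠ 0 := by
    rw [det_mul]
    exact mul_ne_zero hPdet hx'
  rw [← hconj, hmul _ _ hPx hQdet, hmul _ _ hPdet hx', mul_comm (D P), mul_assoc, mul_comm (D P),
    ← hmul _ _ hQdet hPdet, hQP, hone, mul_one]

theorem hom_one_at_mul (i : α) (x y : K) (hx : x ≠ 0) (hy : y ≠ 0) :
    D (GLFam.one_at i (x * y)) = D (GLFam.one_at i x) * D (GLFam.one_at i y) := by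
  rw [← hmul]
  · congr 1
    simp only [GLFam.one_at, diagonal_mul_diagonal]
    congr 1
    funext k
    by_cases hk : k = i
    · subst hk
      simp
    · simp [Function.update_of_ne hk]
  · rw [GLFam.det_one_at]
    exact hx
  · rw [GLFam.det_one_at]
    exact hy

omit hmul in
theorem hom_one_at_one (i : α) : D (GLFam.one_at i 1) = 1 := by
  have : (GLFam.one_at i (1 : K) : Matrix α α K) = 1 := by
    simp only [GLFam.one_at]
    rw [← diagonal_one]
    congr 1
    funext k
    by_cases hk : k = i
    · subst hk
      simp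
    · simp [Function.update_of_ne hk]
  rw [this, hone]

theorem hom_diagonal_prod (x : α → K) (hx : ∀ i, x i ≠ 0) (i₀ : α) (s : Finset α) :
    D (diagonal (fun i => ∏ j ∈ s, (Function.update (1 : α → K) j (x j)) i)) =
      D (GLFam.one_at i₀ (∏ j ∈ s, x j)) := by
  induction s using Finset.induction_on with
  | empty =>
    simp only [Finset.prod_empty]
    have : (diagonal (fun _ : α => (1 : K))) = 1 := diagonal_one
    rw [this, hone, hom_one_at_one D hone]
  | insert b s hb ih =>
    have : (diagonal (fun i => ∏ j ∈ insert b s, (Function.update (1 : α → K) j (x j)) i)) =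
        GLFam.one_at b (x b) *
          diagonal (fun i => ∏ j ∈ s, (Function.update (1 : α → K) j (x j)) i) := by
      simp only [GLFam.one_at, diagonal_mul_diagonal]
      congr 1
      funext i
      rw [Finset.prod_insert hb]
    rw [this, hmul, ih, Finset.prod_insert hb, hom_swap D hmul hone b i₀ _ (hx b),
      hom_one_at_mul D hmul hone i₀ _ _ (hx b) (Finset.prod_ne_zero_iff.mpr fun j _ => hx j)]
    · rw [GLFam.det_one_at]
      exact hx b
    · rw [det_diagonal]
      apply Finset.prod_ne_zero_iff.mpr
      intro i _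
      apply Finset.prod_ne_zero_iff.mpr
      intro j _
      by_cases hij : i = j
      · subst hij
        simpa using hx i
      · rw [Function.update_of_ne hij]
        exact one_ne_zero

/-- A multiplicative function on invertible matrices over a field depends only on the
determinant. -/
theorem hom_eq (i₀ : α) (M : Matrix α α K) (hM : M.det ≠ 0) :
    D M = D (GLFam.one_at i₀ M.det) := by
  apply diagonal_transvection_induction_of_det_ne_zero
    (fun M => D M = D (GLFam.one_at i₀ M.det)) M hM
  · intro x hx
    have hx' : ∀ i, x i ≠ 0 := by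
      intro i
      rw [det_diagonal] at hx
      exact Finset.prod_ne_zero_iff.mp hx i (Finset.mem_univ i)
    have h1 := hom_diagonal_prod D hmul hone x hx' i₀ Finset.univ
    have h2 := MulFam.diagonal_prod x (Finset.univ : Finset α)
    simp only [Finset.mem_univ, if_true] at h2
    rw [← h2] at h1
    rw [h1, det_diagonal]
  · intro t
    have h1 : t.toMatrix = Matrix.transvection t.i t.j t.c := rfl
    rw [h1, hom_transvection D hmul hone t.i t.j t.hij t.c, det_transvection_of_ne _ _ t.hij,
      hom_one_at_one D hone]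
  · intro A B hA0 hB0 hA hB
    rw [hmul _ _ hA0 hB0, hA, hB, det_mul, hom_one_at_mul D hmul hone i₀ _ _ hA0 hB0]

end hom

end Pool.Agent.MP100fe7.GSp
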