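import Pool.Agent.Lib.MP_100fe7_nt.SSwap

/-!
The structure of the periods of `ρ(M)` for representations of `GSp_{2n}`.
-/

set_option linter.unusedSectionVars false

namespace Pool.Agent.MP100fe7.GSp

open Matrix Pool.Agent.MP100fe7

section quot

variable {E : Type} [Field E] [CharZero E] {R : Type} [CommRing R] [Algebra E R]
  {κ : Type} [Fintype κ] [DecidableEq κ] (H : κ → ℤ) (c : ℤ)

/-- the kernel condition in the definition of a period -/
def KerCond {m : ℕ} (B : Matrix (Fin m) κ E) : Prop :=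
  ∀ v : κ → E, B.mulVec v = 0 ↔ ∀ s, H s < c → v s = 0

variable {m : ℕ} {B B₁ B₂ : Matrix (Fin m) κ E}

theorem col_eq_zero {m : ℕ} {B : Matrix (Fin m) κ E} (hB : KerCond H c B) (s : κ)
    (hs : c ≤ H s) (i : Fin m) : B i s = 0 := by
  have h1 := (hB (Pi.single s 1)).mpr (by
    intro t ht
    apply Pi.single_eq_of_ne
    rintro rfl
    omega)
  have h2 := congrFun h1 i
  simpa using h2

theorem row_eq_zero {m : ℕ} {B : Matrix (Fin m) κ E} {γ : Type} (hB : KerCond H c B)
    (N : Matrix κ γ E) (hN : B * N = 0) (s : κ) (hs : H s < c) (t : γ) :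
    N s t = 0 := by
  have h1 : B.mulVec (fun u => N u t) = 0 := by
    funext i
    have h2 := congrFun (congrFun hN i) t
    simpa [Matrix.mul_apply, mulVec, dotProduct] using h2
  exact (hB _).mp h1 s hs

theorem quot_mul {m m' : ℕ} {B : Matrix (Fin m) κ E} {B₁ : Matrix (Fin m') κ E}
    {B' : Matrix κ (Fin m') E} (hB : KerCond H c B) (hB₁ : KerCond H c B₁) (hB' : B₁ * B' = 1)
    (X : Matrix κ κ R) (hX : ∀ s t, H s < H t → X s t = 0) :
    B.map (algebraMap E R) * X = (B.map (algebraMap E R) * X * B'.map (algebraMap E R)) *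
      B₁.map (algebraMap E R) := by
  have hN : B₁ * (1 - B' * B₁) = 0 := by
    rw [Matrix.mul_sub, Matrix.mul_one, ← Matrix.mul_assoc, hB', Matrix.one_mul, sub_self]
  have h0 : B.map (algebraMap E R) * X * (1 - B' * B₁).map (algebraMap E R) = 0 := by
    rw [Matrix.mul_assoc]
    ext i t
    rw [Matrix.mul_apply]
    apply Finset.sum_eq_zero
    intro s _
    by_cases hs : H s < c
    · rw [Matrix.mul_apply]
      have : ∑ u, X s u * (1 - B' * B₁).map (algebraMap E R) u t = 0 := by
        apply Finset.sum_eq_zero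
        intro u _
        by_cases hu : H u < c
        · rw [Matrix.map_apply, row_eq_zero H c hB₁ _ hN u hu t, map_zero, mul_zero]
        · rw [hX s u (by omega), zero_mul]
      rw [this, mul_zero]
    · rw [Matrix.map_apply, col_eq_zero H c hB s (by omega) i, map_zero, zero_mul]
  have h1 : (1 - B' * B₁).map (algebraMap E R) =
      1 - B'.map (algebraMap E R) * B₁.map (algebraMap E R) := by
    rw [Matrix.map_sub _ (by intro a b; exact map_sub _ a b), map_mul_map,
      Matrix.map_one _ (map_zero _) (map_one _)]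
  rw [h1, Matrix.mul_sub, Matrix.mul_one, ← Matrix.mul_assoc, sub_eq_zero] at h0
  exact h0

/-- all quotient projections have the same size -/
theorem size_eq {m₁ m₂ : ℕ} {B₁ : Matrix (Fin m₁) κ E} {B₂ : Matrix (Fin m₂) κ E}
    (h₁ : KerCond H c B₁) (h₂ : KerCond H c B₂) {B₁' : Matrix κ (Fin m₁) E}
    {B₂' : Matrix κ (Fin m₂) E} (e₁ : B₁ * B₁' = 1) (e₂ : B₂ * B₂' = 1) :
    (B₂ * B₁') * (B₁ * B₂') = 1 ∧ (B₁ * B₂') * (B₂ * B₁') = 1 := by
  have aux : ∀ {m m' : ℕ} {B : Matrix (Fin m) κ E} {C : Matrix (Fin m') κ E}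
      {C' : Matrix κ (Fin m') E}, KerCond H c B → KerCond H c C → C * C' = 1 →
      B * C' * C = B := by
    intro m m' B C C' hB hC hC'
    have hN : C * (1 - C' * C) = 0 := by
      rw [Matrix.mul_sub, Matrix.mul_one, ← Matrix.mul_assoc, hC', Matrix.one_mul, sub_self]
    have h0 : B * (1 - C' * C) = 0 := by
      ext i t
      rw [Matrix.mul_apply]
      apply Finset.sum_eq_zero
      intro s _
      by_cases hs : H s < c
      · rw [row_eq_zero H c hC _ hN s hs t, mul_zero]
      · rw [col_eq_zero H c hB s (by omega) i, zero_mul]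
    rw [Matrix.mul_sub, Matrix.mul_one, sub_eq_zero, ← Matrix.mul_assoc] at h0
    exact h0.symm
  constructor
  · rw [← Matrix.mul_assoc, aux h₂ h₁ e₁, e₂]
  · rw [← Matrix.mul_assoc, aux h₁ h₂ e₂, e₁]

/-- the determinant on the quotient does not depend on the basis -/
theorem det_quot_eq {m : ℕ} {B₁ B₂ : Matrix (Fin m) κ E}
    (h₁ : KerCond H c B₁) (h₂ : KerCond H c B₂) {B₁' B₂' : Matrix κ (Fin m) E}
    (e₁ : B₁ * B₁' = 1) (e₂ : B₂ * B₂' = 1)
    (X : Matrix κ κ R) (hX : ∀ s t, H s < H t → X s t = 0) :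
    (B₁.map (algebraMap E R) * X * B₁'.map (algebraMap E R)).det =
      (B₂.map (algebraMap E R) * X * B₂'.map (algebraMap E R)).det := by
  have hs := (size_eq H c h₁ h₂ e₁ e₂).1
  have hs' : (B₂.map (algebraMap E R) * B₁'.map (algebraMap E R)) *
      (B₁.map (algebraMap E R) * B₂'.map (algebraMap E R)) = 1 := by
    rw [← map_mul_map, ← map_mul_map, ← map_mul_map, hs, Matrix.map_one _ (map_zero _) (map_one _)]
  have q1 := quot_mul H c h₂ h₁ e₁ (1 : Matrix κ κ R) (by
    intro s t hst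
    apply Matrix.one_apply_ne
    rintro rfl
    omega)
  rw [Matrix.mul_one] at q1
  have q2 := quot_mul H c h₁ h₁ e₁ X hX
  have h3 : B₂.map (algebraMap E R) * X * B₂'.map (algebraMap E R) =
      (B₂.map (algebraMap E R) * B₁'.map (algebraMap E R)) *
      (B₁.map (algebraMap E R) * X * B₁'.map (algebraMap E R)) *
      (B₁.map (algebraMap E R) * B₂'.map (algebraMap E R)) := by
    conv_lhs => rw [q1, Matrix.mul_assoc _ (B₁.map (algebraMap E R)) X, q2]
    simp only [Matrix.mul_assoc]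
  rw [h3, det_mul, det_mul]
  have h4 := congrArg Matrix.det hs'
  rw [det_mul, det_one] at h4
  linear_combination
    -(B₁.map (algebraMap E R) * X * B₁'.map (algebraMap E R)).det * h4

theorem isUnit_quot {m : ℕ} {B : Matrix (Fin m) κ E}
    (hB : KerCond H c B) {B' : Matrix κ (Fin m) E} (e : B * B' = 1)
    (X Y : Matrix κ κ R) (hX : ∀ s t, H s < H t → X s t = 0)
    (hXY : X * Y = 1) :
    IsUnit (B.map (algebraMap E R) * X * B'.map (algebraMap E R)).det := by
  apply isUnit_det_of_right_inverse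
    (B := B.map (algebraMap E R) * Y * B'.map (algebraMap E R))
  have q := quot_mul H c hB hB e X hX
  calc (B.map (algebraMap E R) * X * B'.map (algebraMap E R)) *
        (B.map (algebraMap E R) * Y * B'.map (algebraMap E R))
      = ((B.map (algebraMap E R) * X * B'.map (algebraMap E R)) * B.map (algebraMap E R)) *
          (Y * B'.map (algebraMap E R)) := by simp only [Matrix.mul_assoc]
    _ = B.map (algebraMap E R) * X * (Y * B'.map (algebraMap E R)) := by rw [← q]
    _ = B.map (algebraMap E R) * (X * Y) * B'.map (algebraMap E R) := by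
        simp only [Matrix.mul_assoc]
    _ = 1 := by
        rw [hXY, Matrix.mul_one, ← map_mul_map, e, Matrix.map_one _ (map_zero _) (map_one _)]

end quot

variable {E : Type} [Field E] [CharZero E] {R : Type} [CommRing R] [Algebra E R] {n k : ℕ} {w : ℤ}
  {κ : Type} [Fintype κ] [DecidableEq κ] (ρ : SympRep E n κ k) (p : Fin n → ℤ) (w : ℤ)

/-- the Hodge indices of the adapted basis -/
def idx (i : Idx n) : ℤ := Sum.elim p (fun i => w - p i) i

/-- the Hodge index of the basis vector `s` of `ρ(M)` -/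
def hI (s : κ) : ℤ := ∑ j, (ρ.wt s j : ℤ) * idx p w j

theorem idx_add (i : Fin n) : idx p w (Sum.inl i) + idx p w (Sum.inr i) = w := by
  simp [idx]

/-- vectors in the upper part which are eigenvectors of the exchange vanish -/
theorem eq_zero_of_swap (hk : Odd k) (hw : Odd w) {ε : E} (hε : ε * ε = 1) (y : κ → E)
    (hy : ∀ s, hI ρ p w s < (k * w + 1) / 2 → y s = 0)
    (hs : (ρ.ev E (swapM E n)).mulVec y = ε • y) : y = 0 := by
  by_contra hne
  obtain ⟨s, hs0⟩ := Function.ne_iff.mp hne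
  have hε0 : ε ≠ 0 := by
    rintro rfl
    simp at hε
  have h1 : (ρ.ev E (swapM E n)).mulVec y s ≠ 0 := by
    rw [hs]
    simp only [Pi.smul_apply, smul_eq_mul]
    exact mul_ne_zero hε0 hs0
  simp only [mulVec, dotProduct] at h1
  obtain ⟨t, _, ht⟩ := Finset.exists_ne_zero_of_sum_ne_zero h1
  have ht1 : ρ.ev E (swapM E n) s t ≠ 0 := left_ne_zero_of_mul ht
  have ht2 : y t ≠ 0 := right_ne_zero_of_mul ht
  have h2 := ρ.ev_swap (idx p w) w (idx_add p w) s t ht1
  have h3 : ¬ hI ρ p w s < (k * w + 1) / 2 := fun h => hs0 (hy s h)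
  have h4 : ¬ hI ρ p w t < (k * w + 1) / 2 := fun h => ht2 (hy t h)
  have h5 : Odd ((k : ℤ) * w) := by
    have : Odd (k : ℤ) := by exact_mod_cast hk
    exact this.mul hw
  obtain ⟨r, hr⟩ := h5
  unfold hI at h3 h4
  rw [hr] at h2 h3 h4
  omega

theorem det_split_ne_zero (hk : Odd k) (hw : Odd w) {ε : E} (hε : ε * ε = 1) {m : ℕ}
    {A : Matrix κ (Fin m) E} {A' : Matrix (Fin m) κ E} (hl : A' * A = 1)
    (hr : A * A' = proj ρ ε) {B : Matrix (Fin m) κ E}
    (hB : KerCond (hI ρ p w) ((k * w + 1) / 2) B) :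
    (B * ρ.ev E (gz E n) * A).det ≠ 0 := by
  intro hdet
  obtain ⟨x, hx0, hx⟩ := Matrix.exists_mulVec_eq_zero_iff.mpr hdet
  let y : κ → E := (ρ.ev E (gz E n)).mulVec (A.mulVec x)
  have hBy : B.mulVec y = 0 := by
    simp only [y]
    rw [mulVec_mulVec, mulVec_mulVec]
    exact hx
  have h2 : IsUnit (2 : E) := (two_ne_zero).isUnit
  have hgs : IsSymp (gz E n) := isSymp_gz h2
  have hFA := frob_mul_A ρ hε hl hr
  have hswap : (ρ.ev E (swapM E n)).mulVec y = ε • y := by
    simp only [y]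
    rw [mulVec_mulVec, ← ρ.ev_mul _ isSymp_swapM hgs, swapM_mul_gz, ρ.ev_mul _ hgs isSymp_frob,
      ← mulVec_mulVec, mulVec_mulVec x, hFA, smul_mulVec, mulVec_smul]
  have hy0 := eq_zero_of_swap ρ p w hk hw hε y ((hB y).mp hBy) hswap
  -- `ρ(g)` is invertible
  have h3 : (ρ.ev E (gz E n)⁻¹) * ρ.ev E (gz E n) = 1 :=
    ρ.ev_inv_mul hgs.inv (nonsing_inv_mul _ hgs.isUnit_det)
  have hAx : A.mulVec x = 0 := by
    have h4 : (ρ.ev E (gz E n)⁻¹).mulVec y = A.mulVec x := by
      simp only [y]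
      rw [mulVec_mulVec, h3, one_mulVec]
    rw [← h4, hy0, mulVec_zero]
  apply hx0
  have h5 : A'.mulVec (A.mulVec x) = x := by
    rw [mulVec_mulVec, hl, one_mulVec]
  rw [← h5, hAx, mulVec_zero]

theorem ev_gz_map : ρ.ev R (gz R n) = (ρ.ev E (gz E n)).map (algebraMap E R) := by
  have h1 := ρ.ev_map (Algebra.ofId E R) (gz E n)
  have h2 : (gz E n).map (Algebra.ofId E R) = gz R n := by
    unfold gz
    rw [fromBlocks_map]
    congr 1
    · exact Matrix.map_one _ (map_zero _) (map_one _)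
    · exact Matrix.map_one _ (map_zero _) (map_one _)
    · exact Matrix.map_one _ (map_zero _) (map_one _)
    · ext i j
      simp [Matrix.one_apply]
  rw [h2] at h1
  exact h1.symm

/-- the factorisation of a period -/
theorem period_factor {ε : E} (hε : ε * ε = 1) {m : ℕ}
    {A : Matrix κ (Fin m) E} {A' : Matrix (Fin m) κ E} (hl : A' * A = 1)
    (hr : A * A' = proj ρ ε) {B : Matrix (Fin m) κ E}
    (hB : KerCond (hI ρ p w) ((k * w + 1) / 2) B)
    {B' : Matrix κ (Fin m) E} (e : B * B' = 1)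
    {X b : Matrix (Idx n) (Idx n) R} {h₁ h₂ : Matrix (Fin n) (Fin n) R}
    (hbs : IsSymp b) (hb : ∀ i j, idx p w i < idx p w j → b i j = 0)
    (hhs : IsSymp (fromBlocks h₁ 0 0 h₂))
    (hM : X = b * gz R n * fromBlocks h₁ 0 0 h₂) :
    (B.map (algebraMap E R) * ρ.ev R X * A.map (algebraMap E R)).det =
      (B.map (algebraMap E R) * ρ.ev R b * B'.map (algebraMap E R)).det *
      algebraMap E R (B * ρ.ev E (gz E n) * A).det *
      (eta ρ A A' R (fromBlocks h₁ 0 0 h₂)).det := by
  have hX : ∀ s t, hI ρ p w s < hI ρ p w t → ρ.ev R b s t = 0 := by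
    intro s t hst
    exact ρ.ev_parabolic (idx p w) w (idx_add p w) hbs hb s t hst
  have q := quot_mul (hI ρ p w) ((k * w + 1) / 2) hB hB e (ρ.ev R b) hX
  have hA := ev_mul_A ρ hε hl hr hhs (frob_comm_fromBlocks h₁ h₂)
  have hg : ρ.ev R (gz R n) = (ρ.ev E (gz E n)).map (algebraMap E R) := ev_gz_map ρ
  have h2 : IsUnit (2 : R) := by
    have h : IsUnit (2 : E) := (two_ne_zero).isUnit
    have h' := h.map (algebraMap E R)
    rwa [map_ofNat] at h'
  have hgs : IsSymp (gz R n) := isSymp_gz h2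
  rw [hM, ρ.ev_mul _ (hbs.mul hgs) hhs, ρ.ev_mul _ hbs hgs]
  have h3 : B.map (algebraMap E R) * (ρ.ev R b * ρ.ev R (gz R n) *
      ρ.ev R (fromBlocks h₁ 0 0 h₂)) * A.map (algebraMap E R) =
      (B.map (algebraMap E R) * ρ.ev R b * B'.map (algebraMap E R)) *
      ((B * ρ.ev E (gz E n) * A).map (algebraMap E R)) *
      (eta ρ A A' R (fromBlocks h₁ 0 0 h₂)) := by
    rw [map_mul_map, map_mul_map, ← hg]
    calc _ = (B.map (algebraMap E R) * ρ.ev R b) * ρ.ev R (gz R n) *
          (ρ.ev R (fromBlocks h₁ 0 0 h₂) * A.map (algebraMap E R)) := by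
            simp only [Matrix.mul_assoc]
      _ = _ := by
            conv_lhs => rw [hA, q]
            simp only [Matrix.mul_assoc]
  rw [h3, det_mul, det_mul]
  congr 2
  exact (RingHom.map_det (algebraMap E R) _).symm

end Pool.Agent.MP100fe7.GSp
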