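import Pool.Agent.Lib.MP_100fe7_nt.Period
import Pool.Agent.Lib.MP_100fe7_nt.MulPoly2
import Pool.Agent.Lib.MP_100fe7_nt.SRep

/-!
The action of the centraliser of `F_∞` in `GSp_{2n}` on the eigenspaces of `F_∞` in `ρ(M)`.
-/

set_option linter.unusedSectionVars false

namespace Pool.Agent.MP100fe7.GSp

open Matrix Pool.Agent.MP100fe7

variable {E : Type} [Field E] [CharZero E] {n k m : ℕ} {κ : Type} [Fintype κ] [DecidableEq κ]
  (ρ : SympRep E n κ k)

/-- the projector onto the `ε`-eigenspace of `ρ(F_∞)` -/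
noncomputable def proj (ε : E) : Matrix κ κ E :=
  diagonal fun s => (1 + ε * ((ρ.sgn s : ℤ) : E)) / 2

theorem frob_mul_proj {ε : E} (hε : ε * ε = 1) :
    ρ.ev E (frob E n) * proj ρ ε = ε • proj ρ ε := by
  rw [ρ.ev_frob, proj, diagonal_mul_diagonal, ← diagonal_smul]
  congr 1
  funext s
  have h1 : ((ρ.sgn s : ℤ) : E) * ((ρ.sgn s : ℤ) : E) = 1 := by
    exact_mod_cast congrArg (fun z : ℤ => (z : E)) (ρ.sgn_mul_self s)
  simp only [Pi.smul_apply, smul_eq_mul]
  linear_combination (ε * (1 / 2)) * h1 - (1 / 2) * ((ρ.sgn s : ℤ) : E) * hε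

theorem proj_mul_of_eig {ε : E} (hε : ε * ε = 1) {S : Type} [CommRing S] [Algebra E S] {γ : Type}
    (X : Matrix κ γ S)
    (hX : (ρ.ev E (frob E n)).map (algebraMap E S) * X = (algebraMap E S ε) • X) :
    (proj ρ ε).map (algebraMap E S) * X = X := by
  ext s j
  have h1 := congrFun (congrFun hX s) j
  rw [ρ.ev_frob, diagonal_map (map_zero _), diagonal_mul] at h1
  rw [proj, diagonal_map (map_zero _), diagonal_mul]
  simp only [Matrix.smul_apply, smul_eq_mul] at h1
  have h2 : algebraMap E S ((1 + ε * ((ρ.sgn s : ℤ) : E)) / 2) * X s j =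
      algebraMap E S (1 / 2) * X s j + algebraMap E S (1 / 2) * algebraMap E S ε *
        (algebraMap E S ((ρ.sgn s : ℤ) : E) * X s j) := by
    rw [show (1 + ε * ((ρ.sgn s : ℤ) : E)) / 2 = 1 / 2 + 1 / 2 * ε * ((ρ.sgn s : ℤ) : E) by ring]
    simp only [map_add, map_mul]
    ring
  rw [h2, h1]
  have h3 : algebraMap E S ε * algebraMap E S ε = 1 := by rw [← map_mul, hε, map_one]
  have h4 : algebraMap E S (1 / 2) + algebraMap E S (1 / 2) = 1 := by
    rw [← map_add]
    norm_num
  linear_combination (algebraMap E S (1 / 2) * X s j) * h3 + X s j * h4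

/-- an adapted left inverse of `A` -/
theorem exists_left {ε : E} (hε : ε * ε = 1) (A : Matrix κ (Fin m) E)
    (hinj : Function.Injective A.mulVec)
    (hran : ∀ v : κ → E, v ∈ Set.range A.mulVec ↔ (ρ.ev E (frob E n)).mulVec v = ε • v) :
    ∃ A' : Matrix (Fin m) κ E, A' * A = 1 ∧ A * A' = proj ρ ε := by
  have hFA : ρ.ev E (frob E n) * A = ε • A := by
    ext s j
    have h1 : A.mulVec (Pi.single j 1) ∈ Set.range A.mulVec := ⟨_, rfl⟩
    rw [hran] at h1
    have h2 := congrFun h1 s
    rw [mulVec_mulVec] at h2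
    simpa using h2
  have hπA : proj ρ ε * A = A := by
    have h1 := proj_mul_of_eig ρ hε (S := E) A (by simpa using hFA)
    simpa using h1
  obtain ⟨g, hg⟩ := LinearMap.exists_leftInverse_of_injective A.mulVecLin
    (LinearMap.ker_eq_bot.mpr hinj)
  let A'' : Matrix (Fin m) κ E := LinearMap.toMatrix' g
  have hA'' : A'' * A = 1 := by
    have h1 : (A'' * A) = LinearMap.toMatrix' (g ∘ₗ A.mulVecLin) := by
      have h2 : A.mulVecLin = Matrix.toLin' A := rfl
      rw [LinearMap.toMatrix'_comp, h2, LinearMap.toMatrix'_toLin']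
    rw [h1, hg, LinearMap.toMatrix'_id]
  have hC : ∃ C : Matrix (Fin m) κ E, proj ρ ε = A * C := by
    have h1 : ∀ s : κ, (fun i => proj ρ ε i s) ∈ Set.range A.mulVec := by
      intro s
      rw [hran]
      have h2 := frob_mul_proj ρ hε
      funext i
      have h3 := congrFun (congrFun h2 i) s
      simpa [Matrix.mul_apply, mulVec, dotProduct] using h3
    choose C hC using h1
    refine ⟨(Matrix.of C)ᵀ, ?_⟩
    ext i s
    have h4 := congrFun (hC s) i
    simp only [mulVec, dotProduct] at h4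
    rw [Matrix.mul_apply]
    simp only [transpose_apply, of_apply]
    exact h4.symm
  obtain ⟨C, hC⟩ := hC
  refine ⟨A'' * proj ρ ε, ?_, ?_⟩
  · rw [Matrix.mul_assoc, hπA, hA'']
  · rw [hC, ← Matrix.mul_assoc A'', hA'', Matrix.one_mul]

variable (A : Matrix κ (Fin m) E) (A' : Matrix (Fin m) κ E)

/-- the action of `ρ(h)` on the eigenspace -/
noncomputable def eta (S : Type) [CommRing S] [Algebra E S] (h : Matrix (Idx n) (Idx n) S) :
    Matrix (Fin m) (Fin m) S :=
  A'.map (algebraMap E S) * ρ.ev S h * A.map (algebraMap E S)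

variable {A A'} {ε : E} (hε : ε * ε = 1) (hl : A' * A = 1) (hr : A * A' = proj ρ ε)

include hε hl hr

theorem proj_mul_A : proj ρ ε * A = A := by
  rw [← hr, Matrix.mul_assoc, hl, Matrix.mul_one]

theorem A'_mul_proj : A' * proj ρ ε = A' := by
  rw [← hr, ← Matrix.mul_assoc, hl, Matrix.one_mul]

theorem frob_mul_A : ρ.ev E (frob E n) * A = ε • A := by
  rw [← proj_mul_A ρ hε hl hr, ← Matrix.mul_assoc, frob_mul_proj ρ hε, smul_mul]

theorem ev_mul_A {S : Type} [CommRing S] [Algebra E S] {h : Matrix (Idx n) (Idx n) S}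
    (hs : IsSymp h) (hc : frob S n * h = h * frob S n) :
    ρ.ev S h * A.map (algebraMap E S) = A.map (algebraMap E S) * eta ρ A A' S h := by
  have hF : (ρ.ev E (frob E n)).map (algebraMap E S) = ρ.ev S (frob S n) := by
    rw [ρ.ev_frob, ρ.ev_frob, diagonal_map (map_zero _)]
    congr 1
    funext s
    simp
  have h1 : (ρ.ev E (frob E n)).map (algebraMap E S) * (ρ.ev S h * A.map (algebraMap E S)) =
      (algebraMap E S ε) • (ρ.ev S h * A.map (algebraMap E S)) := by
    rw [hF, ← Matrix.mul_assoc, ρ.ev_frob_comm hs hc, Matrix.mul_assoc, ← hF, ← map_mul_map,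
      frob_mul_A ρ hε hl hr]
    rw [← Matrix.mul_smul]
    congr 1
    ext i j
    simp
  have h2 := proj_mul_of_eig ρ hε _ h1
  rw [← hr, map_mul_map] at h2
  unfold eta
  rw [← Matrix.mul_assoc, ← Matrix.mul_assoc, Matrix.mul_assoc (A.map _ * A'.map _)]
  exact h2.symm

theorem eta_mul {S : Type} [CommRing S] [Algebra E S] {h h' : Matrix (Idx n) (Idx n) S}
    (hs : IsSymp h) (hs' : IsSymp h') (hc : frob S n * h' = h' * frob S n) :
    eta ρ A A' S (h * h') = eta ρ A A' S h * eta ρ A A' S h' := by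
  have h1 := ev_mul_A ρ hε hl hr hs' hc
  unfold eta at h1 ⊢
  rw [ρ.ev_mul _ hs hs', Matrix.mul_assoc, Matrix.mul_assoc (ρ.ev S h), h1]
  simp only [Matrix.mul_assoc]

theorem eta_one {S : Type} [CommRing S] [Algebra E S] : eta ρ A A' S 1 = 1 := by
  unfold eta
  rw [ρ.ev_one, Matrix.mul_one, ← map_mul_map, hl]
  simp

omit hε hl hr in
theorem eta_map {S S' : Type} [CommRing S] [Algebra E S] [CommRing S'] [Algebra E S']
    (φ : S →ₐ[E] S') (h : Matrix (Idx n) (Idx n) S) :
    (eta ρ A A' S h).map φ = eta ρ A A' S' (h.map φ) := by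
  unfold eta
  rw [algHom_map_mul, algHom_map_mul, ρ.ev_map φ]
  congr 1
  · congr 1
    ext i j
    simp
  · ext i j
    simp

omit [CharZero E] hε hl hr in
theorem frob_comm_fromBlocks {S : Type} [CommRing S] (h₁ h₂ : Matrix (Fin n) (Fin n) S) :
    frob S n * fromBlocks h₁ 0 0 h₂ = fromBlocks h₁ 0 0 h₂ * frob S n := by
  rw [frob_eq, fromBlocks_multiply, fromBlocks_multiply]
  simp

omit [CharZero E] hε hl hr in
theorem isSymp_adj {S : Type} [CommRing S] (h : Matrix (Fin n) (Fin n) S) (hh : IsUnit h.det) :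
    IsSymp (fromBlocks h 0 0 (adjugate h)ᵀ) := by
  obtain ⟨u, hu⟩ := hh
  apply isSymp_fromBlocks u
  rw [← transpose_mul, adjugate_mul, transpose_smul, transpose_one, hu]

/-- the action on the eigenspace of `(h, adj(h)ᵀ)` -/
noncomputable def fam₁ : GLFam E (Fin n) where
  D := fun S _ _ h => (eta ρ A A' S (fromBlocks h 0 0 (adjugate h)ᵀ)).det
  nat := by
    intro S S' _ _ _ _ φ h
    rw [AlgHom.map_det]
    congr 1
    have h1 := eta_map ρ (A := A) (A' := A') φ (fromBlocks h 0 0 (adjugate h)ᵀ)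
    rw [AlgHom.mapMatrix_apply, h1]
    congr 1
    rw [fromBlocks_map]
    congr 1
    · ext i j
      simp
    · ext i j
      simp
    · have h2 := (AlgHom.map_adjugate φ h).symm
      rw [AlgHom.mapMatrix_apply, AlgHom.mapMatrix_apply] at h2
      rw [h2]
      rfl
  mul := by
    intro S _ _ h h' hh hh'
    rw [← det_mul, ← eta_mul ρ hε hl hr (isSymp_adj h hh)
      (isSymp_adj h' hh') (frob_comm_fromBlocks _ _)]
    congr 2
    rw [fromBlocks_multiply, adjugate_mul_distrib, transpose_mul]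
    simp
  one := by
    intro S _ _
    rw [adjugate_one, transpose_one, fromBlocks_one, eta_one ρ hε hl hr, det_one]

/-- the action of `(1, μ)` -/
theorem exists_mu : ∃ b : ℕ, ∀ (S : Type) [CommRing S] [Algebra E S] (μ : S),
    (eta ρ A A' S (fromBlocks 1 0 0 (μ • 1))).det = μ ^ b := by
  let q : Polynomial E := (eta ρ A A' (Polynomial E)
    (fromBlocks 1 0 0 ((Polynomial.X : Polynomial E) • 1))).det
  have hmap : ∀ (S : Type) [CommRing S] [Algebra E S] (μ : S),
      (eta ρ A A' S (fromBlocks 1 0 0 (μ • 1))).det = Polynomial.aeval μ q := by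
    intro S _ _ μ
    simp only [q]
    rw [AlgHom.map_det, AlgHom.mapMatrix_apply, eta_map ρ]
    congr 2
    rw [fromBlocks_map]
    congr 1
    · ext i j
      simp [Matrix.one_apply]
    · ext i j
      simp
    · ext i j
      simp
    · ext i j
      simp only [Matrix.smul_apply, Matrix.one_apply, smul_eq_mul, mul_ite, mul_one, mul_zero,
        Matrix.map_apply]
      split_ifs <;> simp
  have hsymp : ∀ s : E, s ≠ 0 → IsSymp (fromBlocks 1 0 0 (s • 1) : Matrix (Idx n) (Idx n) E) := by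
    intro s hs
    apply isSymp_fromBlocks (Units.mk0 s hs)
    simp
  obtain ⟨b, hb⟩ := eq_X_pow_of_mul' q
    (by
      have h1 := hmap E 1
      rw [Polynomial.coe_aeval_eq_eval] at h1
      rw [← h1, one_smul, fromBlocks_one, eta_one ρ hε hl hr, det_one])
    (by
      intro s t hs ht
      have e1 := hmap E (s * t)
      have e2 := hmap E s
      have e3 := hmap E t
      rw [Polynomial.coe_aeval_eq_eval] at e1 e2 e3
      rw [← e1, ← e2, ← e3, ← det_mul, ← eta_mul ρ hε hl hr (hsymp s hs) (hsymp t ht)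
        (frob_comm_fromBlocks _ _)]
      congr 2
      rw [fromBlocks_multiply]
      simp [smul_smul, mul_comm t s])
  refine ⟨b, ?_⟩
  intro S _ _ μ
  rw [hmap, hb]
  simp

/-- the character of the centraliser of `F_∞` on the eigenspace -/
theorem eta_char : ∃ a b : ℕ, ∀ (S : Type) [CommRing S] [Algebra E S]
    (h₁ h₂ : Matrix (Fin n) (Fin n) S) (ν δ : Sˣ), h₁ᵀ * h₂ = (ν : S) • 1 → (δ : S) = h₁.det →
    (eta ρ A A' S (fromBlocks h₁ 0 0 h₂)).det = ((δ ^ a * (ν / δ) ^ b : Sˣ) : S) := by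
  obtain ⟨a, ha⟩ := (fam₁ ρ hε hl hr).eq_det_pow
  obtain ⟨b, hb⟩ := exists_mu ρ hε hl hr
  refine ⟨a, b, ?_⟩
  intro S _ _ h₁ h₂ ν δ h hδ
  have hdet : IsUnit h₁.det := by
    rw [← hδ]
    exact δ.isUnit
  have h3 : h₂ = ((ν / δ : Sˣ) : S) • (adjugate h₁)ᵀ := by
    have h4 : (adjugate h₁)ᵀ * (h₁ᵀ * h₂) = (adjugate h₁)ᵀ * ((ν : S) • 1) := by rw [h]
    rw [← Matrix.mul_assoc, ← transpose_mul, mul_adjugate, transpose_smul, transpose_one,
      Matrix.smul_mul, Matrix.one_mul, Matrix.mul_smul, Matrix.mul_one, ← hδ] at h4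
    have h5 := congrArg (fun X => ((δ⁻¹ : Sˣ) : S) • X) h4
    simp only [smul_smul, Units.inv_mul, one_smul] at h5
    rw [h5]
    congr 1
    rw [div_eq_mul_inv, Units.val_mul, mul_comm]
  have h6 : fromBlocks h₁ 0 0 h₂ = (fromBlocks h₁ 0 0 (adjugate h₁)ᵀ : Matrix (Idx n) (Idx n) S) *
      fromBlocks 1 0 0 (((ν / δ : Sˣ) : S) • 1) := by
    rw [fromBlocks_multiply, h3]
    simp
  have hs1 := isSymp_adj h₁ hdet
  have hs2 : IsSymp (fromBlocks 1 0 0 (((ν / δ : Sˣ) : S) • 1) : Matrix (Idx n) (Idx n) S) := by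
    apply isSymp_fromBlocks (ν / δ)
    simp
  rw [h6, eta_mul ρ hε hl hr hs1 hs2 (frob_comm_fromBlocks _ _), det_mul]
  have h7 : (eta ρ A A' S (fromBlocks h₁ 0 0 (adjugate h₁)ᵀ)).det = h₁.det ^ a := ha S h₁
  rw [h7, hb, ← hδ]
  simp

/-- the determinants of a character of the centraliser of `F_∞` -/
def IsChar (A : Matrix κ (Fin m) E) (A' : Matrix (Fin m) κ E) (a b : ℕ) : Prop :=
  ∀ (S : Type) [CommRing S] [Algebra E S]
    (h₁ h₂ : Matrix (Fin n) (Fin n) S) (ν δ : Sˣ), h₁ᵀ * h₂ = (ν : S) • 1 → (δ : S) = h₁.det →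
    (eta ρ A A' S (fromBlocks h₁ 0 0 h₂)).det = ((δ ^ a * (ν / δ) ^ b : Sˣ) : S)

omit hε hr in
theorem char_scalar {a b : ℕ} (h : IsChar ρ A A' a b) : n * a + 2 * b = k * m + n * b := by
  let two : Eˣ := Units.mk0 2 two_ne_zero
  have h1 := h E ((2 : E) • 1) ((2 : E) • 1) (two * two) (two ^ n)
    (by
      rw [transpose_smul, transpose_one, Matrix.smul_mul, Matrix.one_mul, smul_smul]
      rfl)
    (by
      rw [det_smul, det_one, mul_one, Fintype.card_fin]
      rfl)
  have h2 : (fromBlocks ((2 : E) • 1) 0 0 ((2 : E) • 1) : Matrix (Idx n) (Idx n) E) =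
      ((two : Eˣ) : E) • 1 := by
    rw [← fromBlocks_one, fromBlocks_smul]
    simp [two]
  rw [h2] at h1
  unfold eta at h1
  rw [ρ.ev_smul _ _ isSymp_one, ρ.ev_one, Matrix.mul_smul, Matrix.smul_mul, Matrix.mul_one,
    ← map_mul_map, hl, Matrix.map_one _ (map_zero _) (map_one _), det_smul, det_one, mul_one,
    Fintype.card_fin] at h1
  have h3 : ((two ^ k) ^ m : Eˣ) = (two ^ n) ^ a * (two * two / two ^ n) ^ b := by
    ext
    rw [← h1]
    simp
  have h4 : ((two ^ k) ^ m * (two ^ n) ^ b : Eˣ) = (two ^ n) ^ a * (two * two) ^ b := by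
    rw [h3, div_pow, mul_assoc, div_mul_cancel]
  rw [← pow_mul, ← pow_mul, ← pow_mul, ← pow_two, ← pow_mul, ← pow_add, ← pow_add] at h4
  have h5 := congrArg (fun u : Eˣ => (u : E)) h4
  simp only [Units.val_pow_eq_pow_val, two, Units.val_mk0] at h5
  have h6 : ((2 ^ (k * m + n * b) : ℕ) : E) = ((2 ^ (n * a + 2 * b) : ℕ) : E) := by
    push_cast
    exact h5
  have h7 : 2 ^ (k * m + n * b) = 2 ^ (n * a + 2 * b) := by exact_mod_cast h6
  exact (Nat.pow_right_injective le_rfl h7).symm

omit hε in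
theorem char_weight {a b : ℕ} (h : IsChar ρ A A' a b) (i : Fin n) :
    (a : E) - b = ∑ s, ((ρ.wt s (Sum.inl i) : E) - ρ.wt s (Sum.inr i)) *
      ((1 + ε * ((ρ.sgn s : ℤ) : E)) / 2) := by
  let e : DualNumber E := DualNumber.eps
  have hee : e * e = 0 := DualNumber.eps_mul_eps
  have hpos : ∀ d : ℕ, (1 + e) ^ d = 1 + (d : DualNumber E) * e := one_add_eps_pow E
  have hneg : ∀ d : ℕ, (1 - e) ^ d = 1 - (d : DualNumber E) * e := by
    intro d
    induction d with
    | zero => simp
    | succ d ih =>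
      rw [pow_succ, ih]
      push_cast
      linear_combination (d : DualNumber E) * hee
  have hu1 : (1 + e) * (1 - e) = 1 := by linear_combination -hee
  have hu2 : (1 - e) * (1 + e) = 1 := by linear_combination -hee
  let u : (DualNumber E)ˣ := ⟨1 + e, 1 - e, hu1, hu2⟩
  let x : Fin n → DualNumber E := Function.update 1 i (1 + e)
  let y : Fin n → DualNumber E := Function.update 1 i (1 - e)
  have hxy : ∀ j, x j * y j = 1 := by
    intro j
    by_cases hj : j = i
    · subst hj
      simp [x, y, hu1]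
    · simp [x, y, Function.update_of_ne hj]
  have h1 := h (DualNumber E) (diagonal x) (diagonal y) 1 u
    (by
      rw [diagonal_transpose, diagonal_mul_diagonal]
      simp [hxy])
    (by
      rw [det_diagonal]
      simp only [x]
      rw [Finset.prod_update_of_mem (Finset.mem_univ i)]
      simp [u])
  have hblock : (fromBlocks (diagonal x) 0 0 (diagonal y) : Matrix (Idx n) (Idx n) _) =
      diagonal (Sum.elim x y) := by
    apply Matrix.ext
    intro i j
    rcases i with i | i <;> rcases j with j | j <;> simp [diagonal_apply]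
  have hs : IsSymp (diagonal (Sum.elim x y) : Matrix (Idx n) (Idx n) (DualNumber E)) := by
    apply isSymp_diagonal 1
    intro j
    simpa using hxy j
  have h3 : ρ.ev (DualNumber E) (diagonal (Sum.elim x y)) = 1 + e •
      (diagonal fun s => (ρ.wt s (Sum.inl i) : E) - ρ.wt s (Sum.inr i)).map
        (algebraMap E (DualNumber E)) := by
    rw [ρ.ev_diagonal _ _ hs, diagonal_map (map_zero _), ← diagonal_smul, ← diagonal_one,
      diagonal_add]
    congr 1
    funext s
    rw [Fintype.prod_sum_type]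
    simp only [Sum.elim_inl, Sum.elim_inr, Pi.smul_apply, smul_eq_mul, x, y]
    rw [Finset.prod_eq_single i, Finset.prod_eq_single i]
    · rw [Function.update_self, Function.update_self, hpos, hneg]
      simp only [map_sub, map_natCast]
      linear_combination -(((ρ.wt s (Sum.inl i) : ℕ) : DualNumber E) *
        ((ρ.wt s (Sum.inr i) : ℕ) : DualNumber E)) * hee
    · intro j _ hj
      rw [Function.update_of_ne hj]
      simp
    · simp
    · intro j _ hj
      rw [Function.update_of_ne hj]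
      simp
    · simp
  have h4 : eta ρ A A' (DualNumber E) (diagonal (Sum.elim x y)) =
      1 + e • (A' * (diagonal fun s => (ρ.wt s (Sum.inl i) : E) - ρ.wt s (Sum.inr i)) *
        A).map (algebraMap E (DualNumber E)) := by
    unfold eta
    rw [h3, Matrix.mul_add, Matrix.add_mul, Matrix.mul_one, ← map_mul_map, hl, Matrix.mul_smul,
      Matrix.smul_mul, map_mul_map, map_mul_map]
    congr 1
    exact Matrix.map_one _ (map_zero _) (map_one _)
  rw [hblock, h4, det_one_add_smul] at h1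
  have h5 : e ^ 2 = 0 := by
    rw [pow_two]
    exact hee
  rw [h5, mul_zero, add_zero] at h1
  have h8 : (((u ^ a * (1 / u) ^ b : (DualNumber E)ˣ)) : DualNumber E) =
      1 + ((a : DualNumber E) - b) * e := by
    have h9 : (((1 / u : (DualNumber E)ˣ)) : DualNumber E) = 1 - e := by
      rw [one_div]
      rfl
    rw [Units.val_mul, Units.val_pow_eq_pow_val, Units.val_pow_eq_pow_val, h9]
    change (1 + e) ^ a * (1 - e) ^ b = _
    rw [hpos, hneg]
    linear_combination -((a : DualNumber E) * (b : DualNumber E)) * hee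
  rw [h8] at h1
  have h6 := congrArg TrivSqZeroExt.snd h1
  have e1 : trace ((A' * (diagonal fun s => (ρ.wt s (Sum.inl i) : E) - ρ.wt s (Sum.inr i)) *
      A).map (algebraMap E (DualNumber E))) =
      algebraMap E (DualNumber E)
        (A' * (diagonal fun s => (ρ.wt s (Sum.inl i) : E) - ρ.wt s (Sum.inr i)) * A).trace := by
    rw [Matrix.trace, Matrix.trace, map_sum]
    rfl
  rw [e1] at h6
  have h7 : (A' * (diagonal fun s => (ρ.wt s (Sum.inl i) : E) - ρ.wt s (Sum.inr i)) * A).trace =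
      (a : E) - b := by
    have e2 : TrivSqZeroExt.fst (algebraMap E (DualNumber E)
        (A' * (diagonal fun s => (ρ.wt s (Sum.inl i) : E) - ρ.wt s (Sum.inr i)) * A).trace) =
        (A' * (diagonal fun s => (ρ.wt s (Sum.inl i) : E) - ρ.wt s (Sum.inr i)) * A).trace := rfl
    rw [← e2]
    have e3 : TrivSqZeroExt.snd e = (1 : E) := rfl
    have e4 : TrivSqZeroExt.fst e = (0 : E) := rfl
    simpa [e3, e4] using h6
  rw [← h7, Matrix.trace_mul_cycle, hr, proj, diagonal_mul_diagonal, trace_diagonal]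
  apply Finset.sum_congr rfl
  intro s _
  ring

end Pool.Agent.MP100fe7.GSp
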