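import Mathlib

/-!
Symmetric complex matrices are of the form `Tᵀ T`, also with a block structure.
-/

namespace Pool.Agent.MP100fe7.GSp

open Matrix

theorem exists_sqrt {ι : Type} [Fintype ι] [DecidableEq ι] (S : Matrix ι ι ℂ) (hS : Sᵀ = S) :
    ∃ T : Matrix ι ι ℂ, Tᵀ * T = S := by
  let B : LinearMap.BilinForm ℂ (ι → ℂ) := Matrix.toBilin' S
  have hB : ∀ x y, B x y = x ⬝ᵥ S *ᵥ y := fun x y => Matrix.toBilin'_apply' S x y
  have hsymm : LinearMap.IsSymm B := by
    constructor
    intro x y
    rw [RingHom.id_apply, hB, hB, Matrix.dotProduct_mulVec, dotProduct_comm, ← Matrix.mulVec_transpose, hS]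
  let _ : Invertible (2 : ℂ) := invertibleOfNonzero two_ne_zero
  obtain ⟨v, hv⟩ := LinearMap.BilinForm.exists_orthogonal_basis hsymm
  have hcard : Module.finrank ℂ (ι → ℂ) = Fintype.card ι := by simp
  let e : Fin (Module.finrank ℂ (ι → ℂ)) ≃ ι := (finCongr hcard).trans (Fintype.equivFin ι).symm
  let v' : Module.Basis ι ℂ (ι → ℂ) := v.reindex e
  have hv' : ∀ i j, i ≠ j → B (v' i) (v' j) = 0 := by
    intro i j hij
    simp only [v', Module.Basis.reindex_apply]
    exact hv (fun h => hij (e.symm.injective h))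
  let P : Matrix ι ι ℂ := (Matrix.of fun i => v' i)ᵀ
  have hPcol : ∀ i, (fun k => P k i) = v' i := by
    intro i
    funext k
    simp [P]
  have hPB : Pᵀ * S * P = diagonal fun i => B (v' i) (v' i) := by
    ext i j
    have h1 : (Pᵀ * S * P) i j = B (v' i) (v' j) := by
      rw [hB, ← hPcol i, ← hPcol j, Matrix.mul_assoc]
      simp only [Matrix.mul_apply, dotProduct, mulVec, transpose_apply]
    rw [h1, diagonal_apply]
    by_cases hij : i = j
    · subst hij
      simp
    · rw [hv' i j hij, if_neg hij]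
  have hPu : IsUnit P.det := by
    have h1 := v'.isUnit_det (Pi.basisFun ℂ ι)
    have h2 : v'.toMatrix (Pi.basisFun ℂ ι) * P = 1 := by
      have h3 : P = (Pi.basisFun ℂ ι).toMatrix v' := by
        ext i j
        simp [P, Module.Basis.toMatrix_apply]
      rw [h3, Module.Basis.toMatrix_mul_toMatrix_flip]
    exact isUnit_det_of_left_inverse h2
  choose c hc using fun i => IsAlgClosed.exists_pow_nat_eq (B (v' i) (v' i)) (n := 2) two_pos
  refine ⟨diagonal c * P⁻¹, ?_⟩
  rw [transpose_mul, diagonal_transpose]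
  calc (P⁻¹)ᵀ * diagonal c * (diagonal c * P⁻¹) = (P⁻¹)ᵀ * (diagonal c * diagonal c) * P⁻¹ := by
        simp only [Matrix.mul_assoc]
    _ = (P⁻¹)ᵀ * (Pᵀ * S * P) * P⁻¹ := by
        rw [diagonal_mul_diagonal, hPB]
        congr 3
        funext i
        rw [← hc i, pow_two]
    _ = ((P⁻¹)ᵀ * Pᵀ) * S * (P * P⁻¹) := by simp only [Matrix.mul_assoc]
    _ = S := by
        rw [← transpose_mul, mul_nonsing_inv _ hPu, transpose_one, Matrix.one_mul, Matrix.mul_one]

theorem exists_sqrt_block {n : ℕ} (p : Fin n → ℤ) (S : Matrix (Fin n) (Fin n) ℂ) (hS : Sᵀ = S)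
    (hp : ∀ i j, p i ≠ p j → S i j = 0) :
    ∃ T : Matrix (Fin n) (Fin n) ℂ, Tᵀ * T = S ∧ ∀ i j, p i ≠ p j → T i j = 0 := by
  have h1 : ∀ a : ℤ, ∃ T : Matrix {i // p i = a} {i // p i = a} ℂ,
      Tᵀ * T = S.submatrix Subtype.val Subtype.val := by
    intro a
    apply exists_sqrt
    rw [transpose_submatrix, hS]
  choose T hT using h1
  refine ⟨Matrix.of fun i j => if h : p j = p i then T (p i) ⟨i, rfl⟩ ⟨j, h⟩ else 0, ?_, ?_⟩
  · ext i j
    rw [Matrix.mul_apply]
    simp only [transpose_apply, of_apply]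
    by_cases hij : p i = p j
    · have h2 := congrFun (congrFun (hT (p i)) ⟨i, rfl⟩) ⟨j, hij.symm⟩
      rw [Matrix.mul_apply] at h2
      simp only [transpose_apply, submatrix_apply] at h2
      rw [← h2]
      have tr : ∀ (k l : Fin n) (a : ℤ) (hk : p k = a) (hl : p l = p k) (hl' : p l = a),
          T (p k) ⟨k, rfl⟩ ⟨l, hl⟩ = T a ⟨k, hk⟩ ⟨l, hl'⟩ := by
        intro k l a hk hl hl'
        subst hk
        rfl
      rw [← Finset.sum_filter_of_ne (p := fun k => p k = p i)]
      · rw [Finset.sum_subtype (Finset.univ.filter fun k => p k = p i) (p := fun k => p k = p i)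
          (by intro x; simp)]
        apply Finset.sum_congr rfl
        intro k _
        rw [dif_pos k.2.symm, dif_pos (hij.symm.trans k.2.symm), tr k.1 i (p i) k.2 k.2.symm rfl,
          tr k.1 j (p i) k.2 (hij.symm.trans k.2.symm) hij.symm]
      · intro k _ hk
        by_contra h3
        apply hk
        have h4 : ¬ p i = p k := fun h => h3 h.symm
        rw [dif_neg h4, zero_mul]
    · rw [hp i j hij]
      apply Finset.sum_eq_zero
      intro k _
      by_cases h3 : p i = p k
      · have h4 : ¬ p j = p k := fun h => hij (h3.trans h.symm)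
        rw [dif_neg h4, mul_zero]
      · rw [dif_neg h3, zero_mul]
  · intro i j hij
    simp only [of_apply]
    rw [dif_neg (Ne.symm hij)]

end Pool.Agent.MP100fe7.GSp
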