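import Pool.Agent.Lib.MP_100fe7_nt.SPeriod

/-!
The exchange of the eigenspaces of `F_∞` for representations of `GSp_{2n}` of odd degree.
-/

set_option linter.unusedSectionVars false

namespace Pool.Agent.MP100fe7.GSp

open Matrix Pool.Agent.MP100fe7

variable {E : Type} [Field E] [CharZero E] {n k : ℕ} {κ : Type} [Fintype κ] [DecidableEq κ]
  (ρ : SympRep E n κ k)

theorem proj_eq (ε : E) : proj ρ ε = (1 / 2 : E) • (1 + ε • ρ.ev E (frob E n)) := by
  rw [ρ.ev_frob, proj, ← diagonal_one, ← diagonal_smul, diagonal_add, ← diagonal_smul]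
  congr 1
  funext s
  simp only [Pi.smul_apply, smul_eq_mul]
  ring

theorem swapM_frob (S : Type) [CommRing S] :
    swapM S n * frob S n = (-1 : S) • (frob S n * swapM S n) := by
  rw [frob_eq]
  unfold swapM
  rw [fromBlocks_multiply, fromBlocks_multiply, fromBlocks_smul]
  simp

theorem ev_swap_frob (hk : Odd k) :
    ρ.ev E (swapM E n) * ρ.ev E (frob E n) = -(ρ.ev E (frob E n) * ρ.ev E (swapM E n)) := by
  rw [← ρ.ev_mul _ isSymp_swapM isSymp_frob, swapM_frob]
  have h1 : ((-1 : Eˣ) : E) = -1 := by simp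
  rw [← h1, ρ.ev_smul _ _ (isSymp_frob.mul isSymp_swapM), ρ.ev_mul _ isSymp_frob isSymp_swapM, h1,
    hk.neg_one_pow, neg_one_smul]

theorem ev_swap_proj (hk : Odd k) (ε : E) :
    ρ.ev E (swapM E n) * proj ρ ε = proj ρ (-ε) * ρ.ev E (swapM E n) := by
  rw [proj_eq, proj_eq, Matrix.mul_smul, Matrix.smul_mul, Matrix.mul_add, Matrix.add_mul,
    Matrix.mul_smul, Matrix.smul_mul, ev_swap_frob ρ hk]
  simp

variable {m m' : ℕ} {A : Matrix κ (Fin m) E} {A' : Matrix (Fin m) κ E}
  {B : Matrix κ (Fin m') E} {B' : Matrix (Fin m') κ E}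

theorem swapM_conj {S : Type} [CommRing S] (h₁ h₂ : Matrix (Fin n) (Fin n) S) :
    swapM S n * fromBlocks h₁ 0 0 h₂ * swapM S n = fromBlocks h₂ 0 0 h₁ := by
  unfold swapM
  rw [fromBlocks_multiply, fromBlocks_multiply]
  simp

theorem ev_swap_sq : ρ.ev E (swapM E n) * ρ.ev E (swapM E n) = 1 :=
  ρ.ev_inv_mul isSymp_swapM swapM_mul_swapM

/-- the two eigenspaces have the same dimension and conjugate actions -/
theorem eta_swap (hk : Odd k) (hl : A' * A = 1) (hr : A * A' = proj ρ 1)
    (hl' : B' * B = 1) (hr' : B * B' = proj ρ (-1)) :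
    m = m' ∧ ∀ (h₁ h₂ : Matrix (Fin n) (Fin n) E) (ν : Eˣ), h₁ᵀ * h₂ = (ν : E) • 1 →
      (eta ρ B B' E (fromBlocks h₂ 0 0 h₁)).det = (eta ρ A A' E (fromBlocks h₁ 0 0 h₂)).det := by
  have h1 : (1 : E) * 1 = 1 := by norm_num
  have h1' : (-1 : E) * (-1) = 1 := by norm_num
  have hPA := proj_mul_A ρ h1 hl hr
  have hPB := proj_mul_A ρ h1' hl' hr'
  have hAP := A'_mul_proj ρ h1 hl hr
  have hBP := A'_mul_proj ρ h1' hl' hr'
  have hw := ev_swap_proj ρ hk
  have hww := ev_swap_sq ρ
  set W := ρ.ev E (swapM E n) with hW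
  have hUV : (B' * W * A) * (A' * W * B) = 1 := by
    calc (B' * W * A) * (A' * W * B) = B' * W * (A * A') * W * B := by
          simp only [Matrix.mul_assoc]
      _ = (B' * proj ρ (-1)) * (W * W) * B := by
          rw [hr, Matrix.mul_assoc B', hw]
          simp only [Matrix.mul_assoc]
      _ = 1 := by rw [hww, hBP, Matrix.mul_one, hl']
  have hVU : (A' * W * B) * (B' * W * A) = 1 := by
    calc (A' * W * B) * (B' * W * A) = A' * W * (B * B') * W * A := by
          simp only [Matrix.mul_assoc]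
      _ = (A' * proj ρ 1) * (W * W) * A := by
          rw [hr', Matrix.mul_assoc A', hw, neg_neg]
          simp only [Matrix.mul_assoc]
      _ = 1 := by rw [hww, hAP, Matrix.mul_one, hl]
  refine ⟨?_, ?_⟩
  · have := Matrix.square_of_invertible _ _ hUV hVU
    simpa using this.symm
  · intro h₁ h₂ ν hν
    have hs : IsSymp (fromBlocks h₁ 0 0 h₂) := isSymp_fromBlocks ν hν
    have hF := ρ.ev_frob_comm hs (frob_comm_fromBlocks h₁ h₂)
    have hcomm : ∀ ε : E, proj ρ ε * ρ.ev E (fromBlocks h₁ 0 0 h₂) =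
        ρ.ev E (fromBlocks h₁ 0 0 h₂) * proj ρ ε := by
      intro ε
      rw [proj_eq, Matrix.smul_mul, Matrix.mul_smul, Matrix.add_mul, Matrix.mul_add,
        Matrix.smul_mul, Matrix.mul_smul, hF]
      simp
    have hsw : eta ρ B B' E (fromBlocks h₂ 0 0 h₁) =
        (B' * W * A) * eta ρ A A' E (fromBlocks h₁ 0 0 h₂) * (A' * W * B) := by
      unfold eta
      simp only [Algebra.algebraMap_self, RingHom.coe_id, Matrix.map_id]
      rw [← swapM_conj h₁ h₂, ρ.ev_mul _ (isSymp_swapM.mul hs) isSymp_swapM,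
        ρ.ev_mul _ isSymp_swapM hs, ← hW]
      set H := ρ.ev E (fromBlocks h₁ 0 0 h₂) with hH
      symm
      calc (B' * W * A) * (A' * H * A) * (A' * W * B)
          = B' * W * (A * A') * H * (A * A') * W * B := by simp only [Matrix.mul_assoc]
        _ = B' * W * (proj ρ 1 * H) * (proj ρ 1 * W) * B := by
            rw [hr]
            simp only [Matrix.mul_assoc]
        _ = B' * (W * H * (proj ρ 1 * (proj ρ 1 * W))) * B := by
            rw [hcomm]
            simp only [Matrix.mul_assoc]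
        _ = B' * (W * H * W) * (proj ρ (-1) * (proj ρ (-1) * B)) := by
            have h3 : ∀ ε : E, proj ρ ε * W = W * proj ρ (-ε) := by
              intro ε
              rw [hw, neg_neg]
            rw [h3, ← Matrix.mul_assoc (proj ρ 1), h3]
            simp only [Matrix.mul_assoc]
        _ = B' * (W * H * W) * B := by rw [hPB, hPB]
    rw [hsw]
    exact det_conj_of_mul_eq_one hUV hVU

/-- the exponents of the characters on the two eigenspaces -/
theorem char_swap (hk : Odd k) (hl : A' * A = 1) (hr : A * A' = proj ρ 1)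
    (hl' : B' * B = 1) (hr' : B * B' = proj ρ (-1)) {a b a' b' : ℕ} (h : IsChar ρ A A' a b)
    (h' : IsChar ρ B B' a' b') : n * (a + a') = n * (b + b') := by
  let two : Eˣ := Units.mk0 2 two_ne_zero
  have h1 := (eta_swap ρ hk hl hr hl' hr').2 ((two : E) • 1) (((two⁻¹ : Eˣ) : E) • 1) 1 (by
    rw [transpose_smul, transpose_one, Matrix.smul_mul, Matrix.one_mul, smul_smul]
    simp)
  rw [h E _ _ 1 (two ^ n) (by
      rw [transpose_smul, transpose_one, Matrix.smul_mul, Matrix.one_mul, smul_smul]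
      simp) (by
      rw [det_smul, det_one, mul_one, Fintype.card_fin]
      simp),
    h' E _ _ 1 (two⁻¹ ^ n) (by
      rw [transpose_smul, transpose_one, Matrix.smul_mul, Matrix.one_mul, smul_smul]
      simp) (by
      rw [det_smul, det_one, mul_one, Fintype.card_fin]
      simp)] at h1
  have h2 := Units.ext h1
  have h3 : (two ^ (n * (b + b')) : Eˣ) = two ^ (n * (a + a')) := by
    rw [mul_add, mul_add, pow_add, pow_add, pow_mul, pow_mul, pow_mul, pow_mul]
    simp only [inv_pow, one_div, inv_inv] at h2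
    have h4 : (two ^ n) ^ b' = (two ^ n) ^ a * ((two ^ n) ^ b)⁻¹ * (two ^ n) ^ a' := by
      rw [← h2]
      rw [mul_comm, ← mul_assoc, mul_inv_cancel, one_mul]
    rw [h4]
    rw [mul_assoc, ← mul_assoc (((two ^ n) ^ b)), mul_comm (((two ^ n) ^ b)), mul_assoc,
      mul_inv_cancel_left]
  have h5 := congrArg (fun u : Eˣ => (u : E)) h3
  simp only [Units.val_pow_eq_pow_val, two, Units.val_mk0] at h5
  have h6 : ((2 ^ (n * (b + b')) : ℕ) : E) = ((2 ^ (n * (a + a')) : ℕ) : E) := by
    push_cast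
    exact h5
  have h7 : 2 ^ (n * (b + b')) = 2 ^ (n * (a + a')) := by exact_mod_cast h6
  exact (Nat.pow_right_injective le_rfl h7).symm

end Pool.Agent.MP100fe7.GSp
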