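import Pool.Agent.Lib.MP_100fe7_nt.Schur
import Pool.Agent.Lib.MP_100fe7_nt.Defs3

/-!
The first moment of an irreducible character of `Sp_{2n}` at the point `(-i, …, -i)`.
-/

set_option linter.unusedSectionVars false

namespace Pool.Agent.MP100fe7.GSp

open Matrix Finset Filter Topology Pool.Agent.MP100fe7

section sine

variable {K : Type} [Field K]

/-- the polynomials `(y^(2i+1) - y^(-2i-1)) / (y - y⁻¹)` in `y^2 + y^(-2)` -/
noncomputable def sinePoly (K : Type) [Field K] : ℕ → Polynomial K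
  | 0 => 1
  | 1 => Polynomial.X + 1
  | (i + 2) => Polynomial.X * sinePoly K (i + 1) - sinePoly K i

theorem sinePoly_monic (i : ℕ) : (sinePoly K i).Monic ∧ (sinePoly K i).natDegree = i := by
  induction i using Nat.strong_induction_on with
  | _ i ih =>
    match i with
    | 0 => simp [sinePoly]
    | 1 =>
      have h : (Polynomial.X + 1 : Polynomial K) = Polynomial.X + Polynomial.C 1 := by simp
      simp only [sinePoly]
      rw [h]
      exact ⟨Polynomial.monic_X_add_C 1, Polynomial.natDegree_X_add_C 1⟩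
    | (i + 2) =>
      obtain ⟨m1, d1⟩ := ih (i + 1) (by omega)
      obtain ⟨m0, d0⟩ := ih i (by omega)
      have hm : (Polynomial.X * sinePoly K (i + 1)).Monic := Polynomial.monic_X.mul m1
      have hd : (Polynomial.X * sinePoly K (i + 1)).natDegree = i + 2 := by
        rw [Polynomial.natDegree_X_mul m1.ne_zero, d1]
      have hlt : (sinePoly K i).degree < (Polynomial.X * sinePoly K (i + 1)).degree := by
        rw [Polynomial.degree_eq_natDegree m0.ne_zero, Polynomial.degree_eq_natDegree hm.ne_zero,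
          d0, hd]
        exact_mod_cast (by omega : i < i + 2)
      simp only [sinePoly]
      refine ⟨hm.sub_of_left hlt, ?_⟩
      rw [Polynomial.natDegree_sub_eq_left_of_natDegree_lt, hd]
      rw [d0, hd]
      omega

theorem sinePoly_eval (y : K) (hy : y ≠ 0) (i : ℕ) :
    y ^ (2 * i + 1) - y⁻¹ ^ (2 * i + 1) =
      (y - y⁻¹) * (sinePoly K i).eval (y ^ 2 + y⁻¹ ^ 2) := by
  induction i using Nat.strong_induction_on with
  | _ i ih =>
    have h1 : y * y⁻¹ = 1 := mul_inv_cancel₀ hy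
    generalize y⁻¹ = x at h1 ih ⊢
    match i with
    | 0 => simp [sinePoly]
    | 1 =>
      simp only [sinePoly, Polynomial.eval_add, Polynomial.eval_X, Polynomial.eval_one]
      linear_combination (y - x) * h1
    | (i + 2) =>
      have e1 := ih (i + 1) (by omega)
      have e0 := ih i (by omega)
      simp only [sinePoly, Polynomial.eval_sub, Polynomial.eval_mul, Polynomial.eval_X]
      have h2 : (y - x) * ((y ^ 2 + x ^ 2) * (sinePoly K (i + 1)).eval (y ^ 2 + x ^ 2) -
          (sinePoly K i).eval (y ^ 2 + x ^ 2)) =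
          (y ^ 2 + x ^ 2) * (y ^ (2 * (i + 1) + 1) - x ^ (2 * (i + 1) + 1)) -
            (y ^ (2 * i + 1) - x ^ (2 * i + 1)) := by
        rw [e1, e0]
        ring
      rw [h2]
      have h3 : y ^ 2 * x ^ 2 = 1 := by
        rw [← mul_pow, h1, one_pow]
      have p1 : y ^ (2 * (i + 2) + 1) = y ^ 2 * y ^ (2 * (i + 1) + 1) := by ring
      have p2 : x ^ (2 * (i + 2) + 1) = x ^ 2 * x ^ (2 * (i + 1) + 1) := by ring
      have p3 : y ^ (2 * (i + 1) + 1) = y ^ 2 * y ^ (2 * i + 1) := by ring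
      have p4 : x ^ (2 * (i + 1) + 1) = x ^ 2 * x ^ (2 * i + 1) := by ring
      rw [p1, p2, p3, p4]
      linear_combination (y ^ (2 * i + 1) - x ^ (2 * i + 1)) * (-h3)

theorem det_sine {n : ℕ} (y : Fin n → K) (hy : ∀ j, y j ≠ 0) :
    (Matrix.of fun i j : Fin n => y j ^ (2 * (i : ℕ) + 1) - (y j)⁻¹ ^ (2 * (i : ℕ) + 1)).det =
      (∏ j, (y j - (y j)⁻¹)) *
        ∏ i, ∏ j ∈ Ioi i, ((y j ^ 2 + (y j)⁻¹ ^ 2) - (y i ^ 2 + (y i)⁻¹ ^ 2)) := by
  have h1 : (Matrix.of fun i j : Fin n => y j ^ (2 * (i : ℕ) + 1) - (y j)⁻¹ ^ (2 * (i : ℕ) + 1)) =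
      Matrix.of fun i j : Fin n => (y j - (y j)⁻¹) *
        (Matrix.of fun (i j : Fin n) => (sinePoly K i).eval (y j ^ 2 + (y j)⁻¹ ^ 2)) i j := by
    ext i j
    simp only [of_apply]
    exact sinePoly_eval (y j) (hy j) i
  rw [h1, det_mul_row]
  congr 1
  have h2 := Matrix.det_eval_matrixOfPolynomials_eq_det_vandermonde
    (fun j => y j ^ 2 + (y j)⁻¹ ^ 2) (fun i : Fin n => sinePoly K i)
    (fun i => (sinePoly_monic (i : ℕ)).2) (fun i => (sinePoly_monic (i : ℕ)).1)
  rw [← det_vandermonde, h2, ← det_transpose]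
  rfl

end sine

end Pool.Agent.MP100fe7.GSp
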