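import Pool.Agent.Lib.MP_100fe7_nt.SWeyl

/-!
The alternant of type `C_n` along a curve through the point `(-i, …, -i)`.
-/

set_option linter.unusedSectionVars false

namespace Pool.Agent.MP100fe7.GSp

open Matrix Finset Filter Topology Pool.Agent.MP100fe7 Complex

/-- `-i e^t` -/
noncomputable def zt (t : ℝ) : ℂˣ := Units.mk0 (-I * Complex.exp t) (by
  apply mul_ne_zero
  · simp [I_ne_zero]
  · exact Complex.exp_ne_zero _)

theorem zt_val (t : ℝ) : (zt t : ℂ) = -I * Complex.exp t := rfl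

/-- the exponents `1, -3, 5, -7, …` -/
def cI (i : ℕ) : ℤ := (-1) ^ i * (2 * i + 1)

theorem cI_mod (i : ℕ) : ∃ q : ℤ, cI i = 1 + 4 * q := by
  rcases Nat.even_or_odd' i with ⟨c, rfl | rfl⟩
  · refine ⟨c, ?_⟩
    unfold cI
    rw [pow_mul]
    simp
    ring
  · refine ⟨-c - 1, ?_⟩
    unfold cI
    rw [pow_add, pow_mul]
    simp
    ring

theorem sum_cI (n : ℕ) : ∑ i : Fin n, cI i = -(-1) ^ n * n := by
  induction n with
  | zero => simp
  | succ n ih =>
    rw [Fin.sum_univ_castSucc]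
    simp only [Fin.val_castSucc, Fin.val_last]
    rw [ih]
    unfold cI
    rw [pow_succ]
    push_cast
    ring

/-- the evaluation point -/
noncomputable def xt (n : ℕ) (t : ℝ) : Fin n → ℂˣ := fun i => zt t ^ cI i

/-- `z^m - z^(-m)` -/
noncomputable def sm (t : ℝ) (m : ℕ) : ℂ := (zt t : ℂ) ^ m - (zt t : ℂ)⁻¹ ^ m

theorem zt_ne (t : ℝ) : (zt t : ℂ) ≠ 0 := (zt t).ne_zero

/-- the product formula for the alternant -/
noncomputable def prodS {n : ℕ} (l : Fin n → ℕ) (t : ℝ) : ℂ :=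
  ∏ i, (sm t (l i) * ∏ j ∈ Ioi i, (sm t (l i + l j) * sm t (l i - l j)))

/-- a sign -/
noncomputable def sgC (n : ℕ) : ℂ :=
  (∏ i : Fin n, (-1) ^ (i : ℕ)) * ∏ i : Fin n, ∏ _j ∈ Ioi i, (-1)

theorem sgC_ne (n : ℕ) : sgC n ≠ 0 := by
  unfold sgC
  apply mul_ne_zero
  · apply Finset.prod_ne_zero_iff.mpr
    intro i _
    exact pow_ne_zero _ (by norm_num)
  · apply Finset.prod_ne_zero_iff.mpr
    intro i _
    apply Finset.prod_ne_zero_iff.mpr
    intro j _
    norm_num

theorem alternantC_xt {n : ℕ} (l : Fin n → ℕ) (hl : StrictAnti l) (t : ℝ) :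
    alternantC l (xt n t) = sgC n * prodS l t := by
  have hz := zt_ne t
  set z : ℂ := (zt t : ℂ) with hzdef
  have key : ∀ a m : ℕ, (z ^ a) ^ m - ((z ^ a) ^ m)⁻¹ = (z ^ m) ^ a - (z ^ m)⁻¹ ^ a := by
    intro a m
    rw [inv_pow, ← pow_mul, ← pow_mul, mul_comm]
  have h1 : alternantC l (xt n t) = (Matrix.of fun i j : Fin n => (-1) ^ (i : ℕ) *
      (Matrix.of fun i j : Fin n => (z ^ l j) ^ (2 * (i : ℕ) + 1) -
        (z ^ l j)⁻¹ ^ (2 * (i : ℕ) + 1)) i j).det := by
    unfold alternantC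
    congr 1
    ext i j
    simp only [of_apply, xt, Units.val_pow_eq_pow_val, Units.val_zpow_eq_zpow_val]
    rw [← hzdef]
    rcases Nat.even_or_odd' (i : ℕ) with ⟨c, hc | hc⟩
    · have e1 : cI (i : ℕ) = ((2 * (i : ℕ) + 1 : ℕ) : ℤ) := by
        unfold cI
        rw [hc, pow_mul]
        push_cast
        simp
      have e2 : (-1 : ℂ) ^ (i : ℕ) = 1 := by
        rw [hc, pow_mul]
        simp
      rw [e1, e2, one_mul, zpow_natCast, _root_.zpow_neg, zpow_natCast, key]
    · have e1 : cI (i : ℕ) = -((2 * (i : ℕ) + 1 : ℕ) : ℤ) := by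
        unfold cI
        rw [hc, pow_add, pow_mul]
        push_cast
        simp
      have e2 : (-1 : ℂ) ^ (i : ℕ) = -1 := by
        rw [hc, pow_add, pow_mul]
        simp
      rw [e1, e2, _root_.zpow_neg, zpow_natCast, _root_.zpow_neg, zpow_natCast, inv_pow, inv_inv,
        neg_one_mul, ← key]
      ring
  rw [h1, det_mul_column, det_sine _ (fun j => pow_ne_zero _ hz)]
  unfold sgC prodS
  rw [mul_assoc]
  congr 1
  rw [Finset.prod_mul_distrib, mul_left_comm]
  congr 1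
  · apply Finset.prod_congr rfl
    intro j _
    unfold sm
    rw [inv_pow]
  · rw [← Finset.prod_mul_distrib]
    apply Finset.prod_congr rfl
    intro i _
    rw [← Finset.prod_mul_distrib]
    apply Finset.prod_congr rfl
    intro j hj
    have hij : l j < l i := hl (mem_Ioi.mp hj)
    unfold sm
    rw [← hzdef]
    obtain ⟨r, hr⟩ : ∃ r, l i = l j + r := ⟨l i - l j, by omega⟩
    have e3 : l i - l j = r := by omega
    rw [e3, hr]
    have h2 : z * z⁻¹ = 1 := mul_inv_cancel₀ hz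
    generalize hx : z⁻¹ = x at h2 ⊢
    have h3 : (z ^ l j) * (x ^ l j) = 1 := by rw [← mul_pow, h2, one_pow]
    have h4 : (z ^ r) * (x ^ r) = 1 := by rw [← mul_pow, h2, one_pow]
    have e5 : (z ^ l j)⁻¹ = x ^ l j := by rw [← hx, inv_pow]
    have e6 : (z ^ (l j + r))⁻¹ = x ^ (l j + r) := by rw [← hx, inv_pow]
    rw [e5, e6]
    have p1 : z ^ (l j + r + l j) = z ^ l j * z ^ l j * z ^ r := by ring
    have p2 : x ^ (l j + r + l j) = x ^ l j * x ^ l j * x ^ r := by ring
    have p3 : z ^ (l j + r) = z ^ l j * z ^ r := by ring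
    have p4 : x ^ (l j + r) = x ^ l j * x ^ r := by ring
    rw [p1, p2, p3, p4]
    generalize z ^ l j = a at *
    generalize z ^ r = b at *
    generalize x ^ l j = c at *
    generalize x ^ r = d at *
    linear_combination -(a ^ 2 + c ^ 2) * h4

end Pool.Agent.MP100fe7.GSp
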