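import Pool.Agent.Lib.MP_100fe7_nt.SWeyl2

/-!
Leading terms of the alternants of type `C_n` at the point `(-i, …, -i)`.
-/

set_option linter.unusedSectionVars false

namespace Pool.Agent.MP100fe7.GSp

open Matrix Finset Filter Topology Pool.Agent.MP100fe7 Complex

theorem sm_eq (t : ℝ) (m : ℕ) : sm t m =
    (-I) ^ m * (Complex.exp (m * t) - (-1) ^ m * Complex.exp (-(m * t))) := by
  unfold sm
  have h1 : (zt t : ℂ)⁻¹ = (-I) * (-1) * Complex.exp (-t) := by
    rw [zt_val, mul_inv, ← Complex.exp_neg, inv_neg, inv_I]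
    ring
  rw [h1, zt_val, mul_pow, mul_pow, mul_pow, ← Complex.exp_nat_mul, ← Complex.exp_nat_mul,
    mul_neg]
  ring

/-- the parity exponent -/
def ev01 (m : ℕ) : ℕ := if Even m then 1 else 0

/-- `m` for even `m`, `1` for odd `m` -/
def evm (m : ℕ) : ℕ := if Even m then m else 1

/-- the normalised factor -/
noncomputable def rm (m : ℕ) (t : ℝ) : ℂ := if Even m then (t : ℂ)⁻¹ * sm t m else sm t m

theorem sm_rm {t : ℝ} (ht : t ≠ 0) (m : ℕ) : sm t m = (t : ℂ) ^ ev01 m * rm m t := by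
  unfold ev01 rm
  have h : (t : ℂ) ≠ 0 := by exact_mod_cast ht
  split_ifs
  · rw [pow_one, ← mul_assoc, mul_inv_cancel₀ h, one_mul]
  · simp

theorem hasDerivAt_exp (c : ℂ) : HasDerivAt (fun t : ℝ => Complex.exp (c * t)) c 0 := by
  have h1 : HasDerivAt (fun z : ℂ => Complex.exp (c * z)) c ((0 : ℝ) : ℂ) := by
    have h2 : HasDerivAt (fun z : ℂ => c * z) c ((0 : ℝ) : ℂ) := by
      simpa using (hasDerivAt_id ((0 : ℝ) : ℂ)).const_mul c
    have h3 := h2.cexp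
    simpa using h3
  exact h1.comp_ofReal

theorem tendsto_rm (m : ℕ) : Tendsto (rm m) (𝓝[≠] 0) (𝓝 ((-I) ^ m * 2 * evm m)) := by
  have hd : HasDerivAt (fun t : ℝ => sm t m)
      ((-I) ^ m * ((m : ℂ) - (-1) ^ m * (-(m : ℂ)))) 0 := by
    have e1 := hasDerivAt_exp (m : ℂ)
    have e2 := hasDerivAt_exp (-(m : ℂ))
    have e3 := (e1.sub (e2.const_mul ((-1 : ℂ) ^ m))).const_mul ((-I) ^ m)
    have e4 : (fun t : ℝ => sm t m) = fun t : ℝ => (-I) ^ m *
        (Complex.exp ((m : ℂ) * t) - (-1) ^ m * Complex.exp (-(m : ℂ) * t)) := by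
      funext t
      rw [sm_eq]
      congr 3
      ring_nf
    rw [e4]
    exact e3
  unfold rm evm
  by_cases hm : Even m
  · simp only [if_pos hm]
    have h1 := hd.tendsto_slope_zero
    have h0 : sm 0 m = 0 := by
      rw [sm_eq, hm.neg_one_pow]
      simp
    rw [hm.neg_one_pow] at h1
    have h2 : (-I) ^ m * ((m : ℂ) - 1 * (-(m : ℂ))) = (-I) ^ m * 2 * m := by ring
    rw [h2] at h1
    refine h1.congr ?_
    intro t
    rw [zero_add, h0, sub_zero, Complex.real_smul]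
    push_cast
    rfl
  · simp only [if_neg hm]
    have h1 : Tendsto (fun t : ℝ => sm t m) (𝓝[≠] 0) (𝓝 (sm 0 m)) :=
      hd.continuousAt.tendsto.mono_left nhdsWithin_le_nhds
    have h0 : sm 0 m = (-I) ^ m * 2 * ((1 : ℕ) : ℂ) := by
      have hm' : Odd m := Nat.not_even_iff_odd.mp hm
      rw [sm_eq, hm'.neg_one_pow]
      simp
      ring
    rw [← h0]
    exact h1

variable {n : ℕ}

/-- the order of vanishing -/
def ordS (l : Fin n → ℕ) : ℕ :=
  ∑ i, (ev01 (l i) + ∑ j ∈ Ioi i, (ev01 (l i + l j) + ev01 (l i - l j)))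

/-- the normalised product -/
noncomputable def prodR (l : Fin n → ℕ) (t : ℝ) : ℂ :=
  ∏ i, (rm (l i) t * ∏ j ∈ Ioi i, (rm (l i + l j) t * rm (l i - l j) t))

/-- the leading coefficient -/
noncomputable def lead (l : Fin n → ℕ) : ℂ :=
  ∏ i, ((-I) ^ (l i) * 2 * evm (l i) * ∏ j ∈ Ioi i,
    (((-I) ^ (l i + l j) * 2 * evm (l i + l j)) * ((-I) ^ (l i - l j) * 2 * evm (l i - l j))))

theorem prodS_eq (l : Fin n → ℕ) {t : ℝ} (ht : t ≠ 0) :
    prodS l t = (t : ℂ) ^ ordS l * prodR l t := by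
  unfold prodS ordS prodR
  rw [← Finset.prod_pow_eq_pow_sum, ← Finset.prod_mul_distrib]
  apply Finset.prod_congr rfl
  intro i _
  rw [pow_add, ← Finset.prod_pow_eq_pow_sum, sm_rm ht (l i)]
  have h1 : ∏ j ∈ Ioi i, (sm t (l i + l j) * sm t (l i - l j)) =
      (∏ j ∈ Ioi i, (t : ℂ) ^ (ev01 (l i + l j) + ev01 (l i - l j))) *
      ∏ j ∈ Ioi i, (rm (l i + l j) t * rm (l i - l j) t) := by
    rw [← Finset.prod_mul_distrib]
    apply Finset.prod_congr rfl
    intro j _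
    rw [sm_rm ht (l i + l j), sm_rm ht (l i - l j), pow_add]
    ring
  rw [h1]
  ring

theorem tendsto_prodR (l : Fin n → ℕ) : Tendsto (prodR l) (𝓝[≠] 0) (𝓝 (lead l)) := by
  unfold lead
  apply tendsto_finsetProd
  intro i _
  apply Tendsto.mul (tendsto_rm _)
  apply tendsto_finsetProd
  intro j _
  exact (tendsto_rm _).mul (tendsto_rm _)

theorem evm_pos {m : ℕ} (h : 0 < m) : 0 < evm m := by
  unfold evm
  split_ifs
  · exact h
  · norm_num

theorem lead_ne {l : Fin n → ℕ} (hl : StrictAnti l) (hpos : ∀ i, 0 < l i) : lead l ≠ 0 := by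
  have hI : ∀ m : ℕ, ((-I) ^ m : ℂ) ≠ 0 := fun m => pow_ne_zero _ (by simp [I_ne_zero])
  have hf : ∀ m : ℕ, 0 < m → ((-I) ^ m * 2 * (evm m : ℂ)) ≠ 0 := by
    intro m hm
    apply mul_ne_zero (mul_ne_zero (hI m) two_ne_zero)
    have := evm_pos hm
    exact_mod_cast this.ne'
  unfold lead
  apply Finset.prod_ne_zero_iff.mpr
  intro i _
  apply mul_ne_zero (hf _ (hpos i))
  apply Finset.prod_ne_zero_iff.mpr
  intro j hj
  have h1 := hl (mem_Ioi.mp hj)
  exact mul_ne_zero (hf _ (by have := hpos i; omega)) (hf _ (by omega))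

/-- comparison of the orders of vanishing -/
theorem limit_compare {f : ℝ → ℂ} {f' C : ℂ} (hf : HasDerivAt f f' 0) (hf0 : f 0 = 0)
    {l l₀ : Fin n → ℕ} (hl : StrictAnti l) (hpos : ∀ i, 0 < l i)
    (hrel : ∀ t : ℝ, f t * prodS l₀ t = C * prodS l t) (hC : C ≠ 0) :
    ordS l₀ < ordS l ∧ (ordS l = ordS l₀ + 1 → f' * lead l₀ = C * lead l) ∧
      (ordS l₀ + 1 < ordS l → f' * lead l₀ = 0) := by
  have hR := tendsto_prodR l
  have hR₀ := tendsto_prodR l₀
  have hcont : Tendsto f (𝓝[≠] 0) (𝓝 0) := by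
    have := hf.continuousAt.tendsto.mono_left (nhdsWithin_le_nhds (s := {0}ᶜ))
    rwa [hf0] at this
  have hslope : Tendsto (fun t : ℝ => (t : ℂ)⁻¹ * f t) (𝓝[≠] 0) (𝓝 f') := by
    have h1 := hf.tendsto_slope_zero
    refine h1.congr ?_
    intro t
    rw [zero_add, hf0, sub_zero, Complex.real_smul]
    push_cast
    rfl
  have hne : ∀ᶠ t : ℝ in 𝓝[≠] 0, t ≠ 0 := eventually_mem_nhdsWithin
  have hpow : ∀ r : ℕ, r ≠ 0 → Tendsto (fun t : ℝ => (t : ℂ) ^ r) (𝓝[≠] 0) (𝓝 0) := by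
    intro r hr
    have h1 : Tendsto (fun t : ℝ => (t : ℂ) ^ r) (𝓝 0) (𝓝 (((0 : ℝ) : ℂ) ^ r)) := by
      apply Tendsto.pow
      exact Complex.continuous_ofReal.tendsto 0
    rw [Complex.ofReal_zero, zero_pow hr] at h1
    exact h1.mono_left nhdsWithin_le_nhds
  have hlt : ordS l₀ < ordS l := by
    by_contra hle
    obtain ⟨r, hr⟩ : ∃ r, ordS l₀ = ordS l + r := ⟨ordS l₀ - ordS l, by omega⟩
    have h1 : Tendsto (fun t : ℝ => f t * ((t : ℂ) ^ r * prodR l₀ t)) (𝓝[≠] 0)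
        (𝓝 (C * lead l)) := by
      have h2 : Tendsto (fun t : ℝ => C * prodR l t) (𝓝[≠] 0) (𝓝 (C * lead l)) :=
        hR.const_mul C
      refine h2.congr' ?_
      filter_upwards [hne] with t ht
      have h3 := hrel t
      rw [prodS_eq l₀ ht, prodS_eq l ht, hr, pow_add] at h3
      have h4 : ((t : ℂ) ^ ordS l) ≠ 0 := pow_ne_zero _ (by exact_mod_cast ht)
      apply mul_left_cancel₀ h4
      linear_combination -h3
    have h5 : Tendsto (fun t : ℝ => (t : ℂ) ^ r) (𝓝[≠] 0) (𝓝 (((0 : ℝ) : ℂ) ^ r)) := by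
      have h6 : Tendsto (fun t : ℝ => (t : ℂ) ^ r) (𝓝 0) (𝓝 (((0 : ℝ) : ℂ) ^ r)) := by
        apply Tendsto.pow
        exact Complex.continuous_ofReal.tendsto 0
      exact h6.mono_left nhdsWithin_le_nhds
    have h7 := hcont.mul (h5.mul hR₀)
    rw [zero_mul] at h7
    have h8 := tendsto_nhds_unique h1 h7
    exact mul_ne_zero hC (lead_ne hl hpos) h8
  refine ⟨hlt, ?_, ?_⟩
  · intro h1
    have h2 : Tendsto (fun t : ℝ => (t : ℂ)⁻¹ * f t * prodR l₀ t) (𝓝[≠] 0) (𝓝 (C * lead l)) := by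
      refine (hR.const_mul C).congr' ?_
      filter_upwards [hne] with t ht
      have h3 := hrel t
      rw [prodS_eq l₀ ht, prodS_eq l ht, h1, pow_add, pow_one] at h3
      have h0 : (t : ℂ) ≠ 0 := by exact_mod_cast ht
      have h4 : ((t : ℂ) ^ ordS l₀) ≠ 0 := pow_ne_zero _ h0
      apply mul_left_cancel₀ h4
      apply mul_left_cancel₀ h0
      have h5 : (t : ℂ) * (t : ℂ)⁻¹ = 1 := mul_inv_cancel₀ h0
      linear_combination -h3 - (t : ℂ) ^ ordS l₀ * f t * prodR l₀ t * h5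
    exact tendsto_nhds_unique (hslope.mul hR₀) h2
  · intro h1
    obtain ⟨r, hr⟩ : ∃ r, ordS l = ordS l₀ + 1 + (r + 1) := ⟨ordS l - ordS l₀ - 2, by omega⟩
    have h2 : Tendsto (fun t : ℝ => (t : ℂ)⁻¹ * f t * prodR l₀ t) (𝓝[≠] 0) (𝓝 0) := by
      have h9 := ((hpow (r + 1) (by omega)).mul hR).const_mul C
      rw [zero_mul, mul_zero] at h9
      refine h9.congr' ?_
      filter_upwards [hne] with t ht
      have h3 := hrel t
      rw [prodS_eq l₀ ht, prodS_eq l ht, hr, pow_add, pow_add _ (ordS l₀), pow_one] at h3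
      have h0 : (t : ℂ) ≠ 0 := by exact_mod_cast ht
      have h4 : ((t : ℂ) ^ ordS l₀) ≠ 0 := pow_ne_zero _ h0
      apply mul_left_cancel₀ h4
      apply mul_left_cancel₀ h0
      have h5 : (t : ℂ) * (t : ℂ)⁻¹ = 1 := mul_inv_cancel₀ h0
      linear_combination -h3 - (t : ℂ) ^ ordS l₀ * f t * prodR l₀ t * h5
    exact tendsto_nhds_unique (hslope.mul hR₀) h2

end Pool.Agent.MP100fe7.GSp
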