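import Pool.Agent.Lib.MP_100fe7_nt.SWeyl3
import Pool.Agent.Lib.MP_100fe7_nt.SRatio2

/-!
The exponent for the irreducible representations of `GSp_{2n}`.
-/

set_option linter.unusedSectionVars false

namespace Pool.Agent.MP100fe7.GSp

open Matrix Finset Filter Topology Pool.Agent.MP100fe7 Complex

section count

variable {n : ℕ}

theorem betaC_strictAnti {lam : Fin n → ℕ} (h : Antitone lam) : StrictAnti (betaC lam) := by
  intro i j hij
  have h1 := h hij.le
  have h2 : (i : ℕ) < j := hij
  have h3 := j.2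
  simp only [betaC]
  omega

theorem betaC_pos (lam : Fin n → ℕ) (i : Fin n) : 0 < betaC lam i := by
  have h3 := i.2
  simp only [betaC]
  omega

theorem ordS_eq {l : Fin n → ℕ} (hl : StrictAnti l) (e : ℕ)
    (he : (univ.filter fun j => Even (l j)).card = e) :
    ordS l + n = e + (e * e + (n - e) * (n - e)) := by
  rw [← samePairs_eq l e he]
  have h1 : ordS l = e + 2 * samePairs l := by
    unfold ordS samePairs
    rw [Finset.sum_add_distrib, Finset.mul_sum]
    congr 1
    · rw [← he, Finset.card_filter]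
      rfl
    · apply Finset.sum_congr rfl
      intro i _
      rw [Finset.mul_sum]
      apply Finset.sum_congr rfl
      intro j hj
      have h2 := hl (mem_Ioi.mp hj)
      unfold ev01
      simp only [Nat.even_iff]
      split_ifs <;> omega
  omega

theorem card_even_succ (n : ℕ) : (univ.filter fun j : Fin n => Even ((j : ℕ) + 1)).card = n / 2 := by
  induction n with
  | zero => simp
  | succ n ih =>
    rw [Finset.card_filter] at ih ⊢
    rw [Fin.sum_univ_castSucc]
    simp only [Fin.val_castSucc, Fin.val_last]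
    rw [ih]
    simp only [Nat.even_iff]
    split_ifs <;> omega

theorem evenC_zero : evenC (n := n) 0 = n / 2 := by
  rw [← card_even_succ n]
  unfold evenC
  apply Finset.card_bij (fun j _ => Fin.rev j)
  · intro j hj
    simp only [mem_filter, mem_univ, true_and, betaC, Pi.zero_apply, zero_add,
      Nat.even_iff] at hj ⊢
    have h3 := j.2
    rw [Fin.val_rev]
    omega
  · intro a _ b _ hab
    exact Fin.rev_injective hab
  · intro j hj
    refine ⟨Fin.rev j, ?_, Fin.rev_rev j⟩
    simp only [mem_filter, mem_univ, true_and, betaC, Pi.zero_apply, zero_add,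
      Nat.even_iff] at hj ⊢
    have h3 := j.2
    rw [Fin.val_rev]
    omega

theorem oddC_add_evenC (lam : Fin n → ℕ) : evenC lam + oddC lam = n := by
  have h1 := Finset.card_filter_add_card_filter_not (s := (univ : Finset (Fin n)))
    (fun j => Even (betaC lam j))
  rw [Finset.card_univ, Fintype.card_fin] at h1
  simp only [Nat.not_even_iff_odd] at h1
  exact h1

/-- the orders of vanishing of the two alternants -/
theorem ord_cases {lam : Fin n → ℕ} (hlam : Antitone lam) :
    ((oddC lam = evenC lam + 2 ∨ evenC lam = oddC lam + 1) →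
      ordS (betaC lam) = ordS (betaC (n := n) 0) + 1) ∧
    (¬ (oddC lam = evenC lam + 2 ∨ evenC lam = oddC lam + 1) →
      ordS (betaC (n := n) 0) < ordS (betaC lam) →
      ordS (betaC (n := n) 0) + 1 < ordS (betaC lam)) := by
  have c1 := ordS_eq (betaC_strictAnti hlam) (evenC lam) rfl
  have c2 := ordS_eq (betaC_strictAnti (n := n) (lam := 0) (fun _ _ _ => le_rfl)) (n / 2)
    evenC_zero
  have h1 := oddC_add_evenC lam
  set e := evenC lam
  set o := oddC lam
  have h2 : n - e = o := by omega
  rw [h2] at c1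
  obtain ⟨q, hq⟩ : ∃ q, q = n / 2 := ⟨_, rfl⟩
  rw [← hq] at c2
  have hq2 : n = 2 * q ∨ n = 2 * q + 1 := by omega
  have c2' : 2 * (ordS (betaC (n := n) 0) : ℤ) + 2 * n = n * n + n := by
    rcases hq2 with h3 | h3
    · have h4 : n - q = q := by omega
      rw [h4] at c2
      have c3 := congrArg (fun z : ℕ => (z : ℤ)) c2
      have h5 : (n : ℤ) = 2 * q := by exact_mod_cast h3
      push_cast at c3
      rw [h5] at c3 ⊢
      linear_combination 2 * c3
    · have h4 : n - q = q + 1 := by omega
      rw [h4] at c2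
      have c3 := congrArg (fun z : ℕ => (z : ℤ)) c2
      have h5 : (n : ℤ) = 2 * q + 1 := by exact_mod_cast h3
      push_cast at c3
      rw [h5] at c3 ⊢
      linear_combination 2 * c3
  obtain ⟨d, hd⟩ : ∃ d : ℤ, (o : ℤ) = e + d := ⟨o - e, by ring⟩
  have hn : (n : ℤ) = 2 * e + d := by
    have : (n : ℤ) = e + o := by exact_mod_cast h1.symm
    rw [this, hd]
    ring
  have c1' : 2 * (ordS (betaC lam) : ℤ) + 2 * n = n * n + n + (d * d - d) := by
    have c3 := congrArg (fun z : ℕ => (z : ℤ)) c1
    push_cast at c3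
    rw [hd] at c3
    rw [hn] at c3 ⊢
    linear_combination 2 * c3
  have hdiff : 2 * (ordS (betaC lam) : ℤ) = 2 * ordS (betaC (n := n) 0) + (d * d - d) := by
    linarith
  constructor
  · intro h
    have h5 : d = 2 ∨ d = -1 := by omega
    have h6 : d * d - d = 2 := by
      rcases h5 with h5 | h5 <;> rw [h5] <;> norm_num
    rw [h6] at hdiff
    omega
  · intro h hlt
    have h5 : d ≠ 2 := by
      intro h6
      apply h
      left
      omega
    have h7 : d ≠ -1 := by
      intro h6
      apply h
      right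
      omega
    by_contra hle
    have h8 : ordS (betaC lam) = ordS (betaC (n := n) 0) + 1 := by omega
    rw [h8] at hdiff
    push_cast at hdiff
    have h9 : (d - 2) * (d + 1) = 0 := by linear_combination -hdiff
    rcases mul_eq_zero.mp h9 with h10 | h10
    · apply h5
      linarith
    · apply h7
      linarith

/-- half of `m` if `m` is even, `1` otherwise -/
def hv (m : ℕ) : ℕ := if Even m then m / 2 else 1

theorem evm_eq (m : ℕ) : evm m = 2 ^ ev01 m * hv m := by
  unfold evm ev01 hv
  split_ifs with h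
  · obtain ⟨c, hc⟩ := h
    omega
  · simp

theorem halfProdC_eq {lam : Fin n → ℕ} (hlam : Antitone lam) :
    halfProdC lam = ∏ i, (hv (betaC lam i) * ∏ j ∈ Ioi i,
      (hv (betaC lam i + betaC lam j) * hv (betaC lam i - betaC lam j))) := by
  unfold halfProdC
  apply Finset.prod_congr rfl
  intro i _
  congr 1
  apply Finset.prod_congr rfl
  intro j hj
  have h2 := betaC_strictAnti hlam (mem_Ioi.mp hj)
  unfold hv
  simp only [Nat.even_iff]
  split_ifs <;> first | rfl | omega

theorem lead_eq {lam : Fin n → ℕ} (hlam : Antitone lam) :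
    lead (betaC lam) = (-I) ^ (∑ i, lam i) * (-1) ^ (∑ i, lam i * (n - 1 - i)) *
      (∏ i : Fin n, ((-I) ^ (n - (i : ℕ)) * ((-1) ^ (n - (i : ℕ))) ^ (n - 1 - i))) *
      (∏ i : Fin n, ((2 : ℂ) * ∏ _j ∈ Ioi i, 4)) * 2 ^ ordS (betaC lam) * halfProdC lam := by
  rw [halfProdC_eq hlam]
  unfold lead ordS
  rw [← Finset.prod_pow_eq_pow_sum, ← Finset.prod_pow_eq_pow_sum, ← Finset.prod_pow_eq_pow_sum]
  push_cast
  rw [← Finset.prod_mul_distrib, ← Finset.prod_mul_distrib, ← Finset.prod_mul_distrib,
    ← Finset.prod_mul_distrib, ← Finset.prod_mul_distrib]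
  apply Finset.prod_congr rfl
  intro i _
  have hbl : betaC lam i = lam i + (n - i) := rfl
  -- the inner product
  have h1 : ∏ j ∈ Ioi i, (((-I) ^ (betaC lam i + betaC lam j) * 2 *
      (evm (betaC lam i + betaC lam j) : ℂ)) * ((-I) ^ (betaC lam i - betaC lam j) * 2 *
      (evm (betaC lam i - betaC lam j) : ℂ))) =
      ((-1) ^ betaC lam i) ^ (n - 1 - i) * (∏ _j ∈ Ioi i, 4) *
      (2 ^ (∑ j ∈ Ioi i, (ev01 (betaC lam i + betaC lam j) +
        ev01 (betaC lam i - betaC lam j)))) *
      ∏ j ∈ Ioi i, ((hv (betaC lam i + betaC lam j) : ℂ) * hv (betaC lam i - betaC lam j)) := by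
    have hc : ((-1 : ℂ) ^ betaC lam i) ^ (n - 1 - (i : ℕ)) =
        ∏ _j ∈ Ioi i, ((-1 : ℂ) ^ betaC lam i) := by
      rw [Finset.prod_const, Fin.card_Ioi]
    rw [hc, ← Finset.prod_pow_eq_pow_sum, ← Finset.prod_mul_distrib, ← Finset.prod_mul_distrib,
      ← Finset.prod_mul_distrib]
    apply Finset.prod_congr rfl
    intro j hj
    have h2 := betaC_strictAnti hlam (mem_Ioi.mp hj)
    rw [evm_eq, evm_eq, pow_add]
    push_cast
    have h3 : (-I) ^ (betaC lam i + betaC lam j) * (-I) ^ (betaC lam i - betaC lam j) =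
        (-1) ^ betaC lam i := by
      rw [← pow_add]
      have : betaC lam i + betaC lam j + (betaC lam i - betaC lam j) = 2 * betaC lam i := by omega
      rw [this, pow_mul]
      simp
    rw [← h3]
    ring
  rw [h1, evm_eq, hbl]
  push_cast
  have h4 : ((-1 : ℂ) ^ (lam i + (n - (i : ℕ)))) ^ (n - 1 - (i : ℕ)) =
      (-1) ^ (lam i * (n - 1 - i)) * ((-1) ^ (n - (i : ℕ))) ^ (n - 1 - (i : ℕ)) := by
    rw [pow_add, mul_pow, ← pow_mul]
  rw [h4, pow_add (-I), pow_add 2]
  ring

end count

end Pool.Agent.MP100fe7.GSp
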