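import Pool.Agent.Lib.MP_100fe7_nt.Schur

/-!
The signed sum of the weights of a Schur polynomial, i.e. the trace of `F_∞`.
-/

set_option linter.unusedSectionVars false

namespace Pool.Agent.MP100fe7

open Matrix Finset

variable {n : ℕ} {κ : Type} [Fintype κ]

/-- The signed sum of a Schur polynomial. -/
theorem schur_sum (wt : κ → Idx n → ℕ) (lam : Fin (n + n) → ℕ) (hlam : Antitone lam)
    (hchar : chi wt * alternant n (betaNumber 0) = alternant n (betaNumber lam)) :
    (evenCount lam = n → (∑ s, sgW (wt s)) * halfProd (n := n) 0 =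
        (-1) ^ (∑ i, lam i * (n + n - 1 - i)) * halfProd lam) ∧
    (evenCount lam ≠ n → ∑ s, sgW (wt s) = 0) := by
  have hl := betaNumber_strictAnti hlam
  have hδ : StrictAnti (betaNumber (n := n) 0) := betaNumber_strictAnti (fun _ _ _ => le_rfl)
  obtain ⟨f0, -⟩ := chi_zz wt
  -- the identity between one variable polynomials
  have h1 := congrArg (MvPolynomial.aeval (zz n)) hchar
  rw [map_mul, aeval_alternant, aeval_alternant] at h1
  set f := MvPolynomial.aeval (zz n) (chi wt) with hf
  obtain ⟨G, hG, hG1⟩ := vandermonde_factor _ hl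
  obtain ⟨D, hD, hD1⟩ := vandermonde_factor _ hδ
  rw [hG, hD] at h1
  have h2 : f * ((Polynomial.X - 1) ^ samePairs (betaNumber (n := n) 0) * D) =
      (Polynomial.X - 1) ^ samePairs (betaNumber lam) * G := by
    rcases Int.units_eq_one_or (Equiv.Perm.sign (perm n)) with h3 | h3
    · rw [h3] at h1
      simpa using h1
    · rw [h3] at h1
      simp only [Units.val_neg, Units.val_one, Int.cast_neg, Int.cast_one, neg_mul, one_mul,
        mul_neg, neg_inj] at h1
      exact h1
  have c1 := samePairs_eq (betaNumber lam) (evenCount lam) rfl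
  have c2 := samePairs_eq (betaNumber (n := n) 0) n evenCount_zero
  have hX : (Polynomial.X - 1 : Polynomial ℤ) ≠ 0 := by
    have := Polynomial.X_sub_C_ne_zero (1 : ℤ)
    simpa using this
  -- common factor
  let sgl : (Fin (n + n) → ℕ) → ℤ := fun l => ∏ i : Fin (n + n), ∏ _j ∈ Ioi i, (-2 * (-1) ^ l i : ℤ)
  have hsgl : ∀ l, sgl l ≠ 0 := by
    intro l
    apply Finset.prod_ne_zero_iff.mpr
    intro i _
    apply Finset.prod_ne_zero_iff.mpr
    intro j _
    exact mul_ne_zero (by norm_num) (pow_ne_zero _ (by norm_num))
  have hhalf : ∀ {m : Fin (n + n) → ℕ}, StrictAnti (betaNumber m) → halfProd m ≠ 0 := by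
    intro m hm
    apply Finset.prod_ne_zero_iff.mpr
    intro i _
    apply Finset.prod_ne_zero_iff.mpr
    intro j hj
    have h9 := hm (mem_Ioi.mp hj)
    split_ifs with h10
    · omega
    · norm_num
  have hD1' : D.eval 1 = sgl (betaNumber 0) * (halfProd (n := n) 0 : ℤ) := hD1
  have hG1' : G.eval 1 = sgl (betaNumber lam) * (halfProd lam : ℤ) := hG1
  have hD0 : D.eval 1 ≠ 0 := by
    rw [hD1']
    exact mul_ne_zero (hsgl _) (by exact_mod_cast hhalf hδ)
  have hsg : sgl (betaNumber lam) = (-1) ^ (∑ i, lam i * (n + n - 1 - i)) *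
      sgl (betaNumber (n := n) 0) := by
    simp only [sgl]
    rw [← Finset.prod_pow_eq_pow_sum, ← Finset.prod_mul_distrib]
    apply Finset.prod_congr rfl
    intro i _
    rw [Finset.prod_const, Finset.prod_const, Fin.card_Ioi, pow_mul, ← mul_pow]
    have : betaNumber lam i = lam i + betaNumber (n := n) 0 i := by
      simp [betaNumber]
    rw [this, pow_add]
    congr 1
    · ring
  have hle := evenCount_le lam
  -- orders of vanishing
  obtain ⟨c, hc⟩ : ∃ c : ℤ, (evenCount lam : ℤ) = n + c := ⟨evenCount lam - n, by ring⟩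
  have c1' : 2 * (samePairs (betaNumber lam) : ℤ) + 2 * n = 2 * n * n + 2 * c * c := by
    have e2 := congrArg (fun x : ℕ => (x : ℤ)) c1
    push_cast at e2
    rw [Nat.cast_sub hle] at e2
    push_cast at e2
    rw [hc] at e2
    linear_combination e2
  have c2' : 2 * (samePairs (betaNumber (n := n) 0) : ℤ) + 2 * n = 2 * n * n := by
    have e2 := congrArg (fun x : ℕ => (x : ℤ)) c2
    simp only [Nat.add_sub_cancel] at e2
    push_cast at e2
    linear_combination e2
  have hdiff : (samePairs (betaNumber lam) : ℤ) = samePairs (betaNumber (n := n) 0) + c * c := by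
    linarith
  have hcancel : ∀ r : ℕ, samePairs (betaNumber lam) = samePairs (betaNumber (n := n) 0) + r →
      f * D = (Polynomial.X - 1) ^ r * G := by
    intro r hr
    have h3 : (Polynomial.X - 1) ^ samePairs (betaNumber (n := n) 0) * (f * D) =
        (Polynomial.X - 1) ^ samePairs (betaNumber (n := n) 0) * ((Polynomial.X - 1) ^ r * G) := by
      rw [hr, pow_add] at h2
      linear_combination h2
    exact mul_left_cancel₀ (pow_ne_zero _ hX) h3
  constructor
  · intro hcase
    have hc0 : c = 0 := by omega
    rw [hc0] at hdiff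
    have h4 := hcancel 0 (by
      have : (samePairs (betaNumber lam) : ℤ) = samePairs (betaNumber (n := n) 0) := by
        linarith
      have h5 : samePairs (betaNumber lam) = samePairs (betaNumber (n := n) 0) := by
        exact_mod_cast this
      omega)
    rw [pow_zero, one_mul] at h4
    have h5 := congrArg (Polynomial.eval 1) h4
    rw [Polynomial.eval_mul, f0, hD1', hG1', hsg] at h5
    apply mul_left_cancel₀ (hsgl (betaNumber (n := n) 0))
    linear_combination h5
  · intro hcase
    have hc0 : c ≠ 0 := by
      intro h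
      apply hcase
      omega
    have hpos : 1 ≤ c * c := by
      rcases lt_trichotomy c 0 with h | h | h
      · nlinarith
      · exact absurd h hc0
      · nlinarith
    obtain ⟨r, hr⟩ : ∃ r : ℕ, samePairs (betaNumber lam) =
        samePairs (betaNumber (n := n) 0) + (1 + r) := by
      refine ⟨samePairs (betaNumber lam) - samePairs (betaNumber (n := n) 0) - 1, ?_⟩
      have : (samePairs (betaNumber (n := n) 0) : ℤ) + 1 ≤ samePairs (betaNumber lam) := by
        linarith
      have h7 : samePairs (betaNumber (n := n) 0) + 1 ≤ samePairs (betaNumber lam) := by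
        exact_mod_cast this
      omega
    have h4 := hcancel (1 + r) hr
    rw [pow_add, pow_one] at h4
    have h5 := congrArg (Polynomial.eval 1) h4
    simp only [Polynomial.eval_mul, Polynomial.eval_sub, Polynomial.eval_X, Polynomial.eval_one,
      sub_self, zero_mul] at h5
    rw [f0] at h5
    rcases mul_eq_zero.mp h5 with h8 | h8
    · exact h8
    · exact absurd h8 hD0

end Pool.Agent.MP100fe7
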