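import Pool.Agent.Lib.MP_100fe7_nt.TMain
import Pool.Agent.Lib.MP_100fe7_nt.TSchur

/-!
Characters of representations of a product of general linear groups.
-/

set_option linter.unusedSectionVars false

namespace Pool.Agent.MP100fe7T

open Matrix Pool.Agent.MP100fe7

/-- The polynomial part of `ρ` has the character `∏ i, χ i`, where `χ i` is the character, in the
variables of the `i`-th motive, with the weights `wt' i`, homogeneous of degree `deg i`. -/
def HasCharacter {E : Type} [Field E] {ι : Type} [Fintype ι] {σ : ι → Shape} {κ : Type}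
    [Fintype κ] [DecidableEq κ] (ρ : Rep E σ κ) {κ' : ι → Type} [∀ i, Fintype (κ' i)]
    (wt' : ∀ i, κ' i → (σ i).Idx → ℕ) : Prop :=
  (∀ i t, ∑ j, wt' i t j = ρ.deg i) ∧
  (∑ s, ∏ q : Tot σ, (MvPolynomial.X q : MvPolynomial (Tot σ) ℤ) ^ ρ.wt s q) =
    ∏ i, ∑ t, ∏ j, MvPolynomial.X (⟨i, j⟩ : Tot σ) ^ wt' i t j

/-- For a motive of rank `2n` without middle part: the character with the weights `wt` is the Schur
polynomial `s_λ` in `2n` variables. -/
def IsSchurChar {σ : Shape} {κ' : Type} [Fintype κ'] (wt : κ' → σ.Idx → ℕ)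
    (lam : Fin (σ.n + σ.n) → ℕ) : Prop :=
  (∑ t, ∏ j : Fin σ.n ⊕ Fin σ.n, (MvPolynomial.X j : MvPolynomial (Fin σ.n ⊕ Fin σ.n) ℤ) ^
    wt t (Sum.inl j)) * alternant σ.n (betaNumber 0) = alternant σ.n (betaNumber lam)

/-- The trace of `F_∞` on the representation with the weights `wt`. -/
def signTrace {σ : Shape} {κ' : Type} [Fintype κ'] (wt : κ' → σ.Idx → ℕ) : ℤ :=
  ∑ t, ∏ j, σ.sgn j ^ wt t j

/-- the signed first moments -/
def signMom {σ : Shape} {κ' : Type} [Fintype κ'] (wt : κ' → σ.Idx → ℕ) (j : σ.Idx) : ℤ :=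
  ∑ t, (∏ j, σ.sgn j ^ wt t j) * wt t j

section dual

variable {J : Type} [Fintype J] [DecidableEq J]

theorem prod_one_add' (v : J → ℕ) (c : J → ℤ) (t : Finset J) :
    ∏ j ∈ t, (1 + (c j : DualNumber ℤ) * DualNumber.eps) ^ v j =
      1 + ((∑ j ∈ t, v j * c j : ℤ) : DualNumber ℤ) * DualNumber.eps := by
  induction t using Finset.induction_on with
  | empty => simp
  | insert a t ha ih =>
    rw [Finset.prod_insert ha, Finset.sum_insert ha, ih, one_add_pow]
    have h : (DualNumber.eps : DualNumber ℤ) * DualNumber.eps = 0 := DualNumber.eps_mul_eps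
    push_cast
    linear_combination ((v a : DualNumber ℤ) * c a * ∑ j ∈ t, (v j : DualNumber ℤ) * c j) * h

theorem prod_point (v : J → ℕ) (c sg : J → ℤ) :
    ∏ j, ((sg j : DualNumber ℤ) * (1 + (c j : DualNumber ℤ) * DualNumber.eps)) ^ v j =
      ((∏ j, sg j ^ v j : ℤ) : DualNumber ℤ) +
        (((∏ j, sg j ^ v j) * ∑ j, v j * c j : ℤ) : DualNumber ℤ) * DualNumber.eps := by
  simp only [mul_pow]
  rw [Finset.prod_mul_distrib, prod_one_add']
  push_cast
  ring

end dual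

variable {E : Type} [Field E] {ι : Type} [Fintype ι] [DecidableEq ι]
  {σ : ι → Shape} {κ : Type} [Fintype κ] [DecidableEq κ] (ρ : Rep E σ κ)
  {κ' : ι → Type} [∀ i, Fintype (κ' i)] (wt' : ∀ i, κ' i → (σ i).Idx → ℕ)

theorem tensor_moments (h : HasCharacter ρ wt') (i₀ : ι) (j₀ : (σ i₀).Idx) :
    (∑ s, ρ.sgP s = ∏ i, signTrace (wt' i)) ∧
    ∑ s, ρ.sgP s * ρ.wt s ⟨i₀, j₀⟩ =
      signMom (wt' i₀) j₀ * ∏ i ∈ Finset.univ.erase i₀, signTrace (wt' i) := by
  let q₀ : Tot σ := ⟨i₀, j₀⟩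
  let c : Tot σ → ℤ := Pi.single q₀ 1
  let pt : Tot σ → DualNumber ℤ := fun q => (sgnT σ q : DualNumber ℤ) *
    (1 + (c q : DualNumber ℤ) * DualNumber.eps)
  have h1 := congrArg (MvPolynomial.aeval pt) h.2
  rw [map_sum, map_prod] at h1
  have hL : ∀ s, MvPolynomial.aeval pt (∏ q : Tot σ,
      (MvPolynomial.X q : MvPolynomial (Tot σ) ℤ) ^ ρ.wt s q) =
      ((ρ.sgP s : ℤ) : DualNumber ℤ) +
        ((ρ.sgP s * ρ.wt s q₀ : ℤ) : DualNumber ℤ) * DualNumber.eps := by
    intro s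
    rw [map_prod]
    simp only [map_pow, MvPolynomial.aeval_X, pt]
    rw [prod_point]
    have h2 : ∑ q, (ρ.wt s q : ℤ) * c q = ρ.wt s q₀ := by
      rw [Finset.sum_eq_single q₀]
      · simp [c]
      · intro q _ hq
        simp only [c]
        rw [Pi.single_eq_of_ne hq, mul_zero]
      · simp
    rw [h2]
    rfl
  have hR : ∀ i, MvPolynomial.aeval pt (∑ t, ∏ j,
      (MvPolynomial.X (⟨i, j⟩ : Tot σ) : MvPolynomial (Tot σ) ℤ) ^ wt' i t j) =
      ((signTrace (wt' i) : ℤ) : DualNumber ℤ) +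
        ((∑ j, c ⟨i, j⟩ * signMom (wt' i) j : ℤ) : DualNumber ℤ) * DualNumber.eps := by
    intro i
    rw [map_sum]
    have h3 : ∀ t, MvPolynomial.aeval pt (∏ j,
        (MvPolynomial.X (⟨i, j⟩ : Tot σ) : MvPolynomial (Tot σ) ℤ) ^ wt' i t j) =
        ((∏ j, (σ i).sgn j ^ wt' i t j : ℤ) : DualNumber ℤ) +
        (((∏ j, (σ i).sgn j ^ wt' i t j) * ∑ j, wt' i t j * c ⟨i, j⟩ : ℤ) : DualNumber ℤ) *
          DualNumber.eps := by
      intro t
      rw [map_prod]
      simp only [map_pow, MvPolynomial.aeval_X, pt]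
      exact prod_point (wt' i t) (fun j => c ⟨i, j⟩) (fun j => sgnT σ ⟨i, j⟩)
    rw [Finset.sum_congr rfl (fun t _ => h3 t), Finset.sum_add_distrib, ← Finset.sum_mul]
    unfold signTrace signMom
    congr 1
    · push_cast
      rfl
    · congr 1
      rw [← Int.cast_sum]
      congr 1
      simp only [Finset.mul_sum]
      rw [Finset.sum_comm]
      apply Finset.sum_congr rfl
      intro j _
      apply Finset.sum_congr rfl
      intro t _
      ring
  rw [Finset.sum_congr rfl (fun s _ => hL s), Finset.prod_congr rfl (fun i _ => hR i),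
    Finset.sum_add_distrib, ← Finset.sum_mul, ← Finset.mul_prod_erase _ _ (Finset.mem_univ i₀)] at h1
  have hc0 : ∑ j, c ⟨i₀, j⟩ * signMom (wt' i₀) j = signMom (wt' i₀) j₀ := by
    rw [Finset.sum_eq_single j₀]
    · simp [c, q₀]
    · intro j _ hj
      have : (⟨i₀, j⟩ : Tot σ) ≠ q₀ := by
        intro h
        apply hj
        simpa [q₀] using h
      simp only [c]
      rw [Pi.single_eq_of_ne this, zero_mul]
    · simp
  have hc1 : ∀ i ∈ Finset.univ.erase i₀, ((signTrace (wt' i) : ℤ) : DualNumber ℤ) +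
        ((∑ j, c ⟨i, j⟩ * signMom (wt' i) j : ℤ) : DualNumber ℤ) * DualNumber.eps =
        ((signTrace (wt' i) : ℤ) : DualNumber ℤ) := by
    intro i hi
    have h4 : ∑ j, c ⟨i, j⟩ * signMom (wt' i) j = 0 := by
      apply Finset.sum_eq_zero
      intro j _
      have : (⟨i, j⟩ : Tot σ) ≠ q₀ := by
        intro h
        apply (Finset.mem_erase.mp hi).1
        exact congrArg Sigma.fst h
      simp only [c]
      rw [Pi.single_eq_of_ne this, zero_mul]
    rw [h4]
    simp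
  rw [hc0, Finset.prod_congr rfl hc1] at h1
  have h5 : ((∑ s, ρ.sgP s : ℤ) : DualNumber ℤ) +
      ((∑ s, ρ.sgP s * ρ.wt s q₀ : ℤ) : DualNumber ℤ) * DualNumber.eps =
      ((signTrace (wt' i₀) * ∏ i ∈ Finset.univ.erase i₀, signTrace (wt' i) : ℤ) : DualNumber ℤ) +
      ((signMom (wt' i₀) j₀ * ∏ i ∈ Finset.univ.erase i₀, signTrace (wt' i) : ℤ) :
        DualNumber ℤ) * DualNumber.eps := by
    push_cast
    push_cast at h1
    rw [h1]
    ring
  have h6 := dual_ext h5
  refine ⟨?_, h6.2⟩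
  rw [h6.1]
  exact Finset.mul_prod_erase Finset.univ (fun i => signTrace (wt' i)) (Finset.mem_univ i₀)

/-- values for a motive without middle part -/
theorem schur_values {σ : Shape} (hm : σ.m = 0) (hr : σ.r = 0) {κ' : Type} [Fintype κ']
    (wt : κ' → σ.Idx → ℕ) (k : ℕ) (hdeg : ∀ t, ∑ j, wt t j = k) (lam : Fin (σ.n + σ.n) → ℕ)
    (hlam : Antitone lam) (hS : IsSchurChar wt lam) :
    (evenCount lam = σ.n → signTrace wt * halfProd (n := σ.n) 0 =
      (-1) ^ (∑ i, lam i * (σ.n + σ.n - 1 - i)) * halfProd lam) ∧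
    (evenCount lam ≠ σ.n → signTrace wt = 0) ∧
    ((evenCount lam + 1 = σ.n ∨ evenCount lam = σ.n + 1) →
      (∑ i, signMom wt (Sum.inl (Sum.inl i))) * halfProd (n := σ.n) 0 =
        -(-1) ^ (∑ i, lam i * (σ.n + σ.n - 1 - i)) * halfProd lam) ∧
    (evenCount lam ≠ σ.n → ¬ (evenCount lam + 1 = σ.n ∨ evenCount lam = σ.n + 1) →
      ∑ i, signMom wt (Sum.inl (Sum.inl i)) = 0) := by
  haveI he : IsEmpty (Fin σ.m ⊕ Fin σ.r) := by
    refine ⟨?_⟩
    rintro (j | j)
    · exact absurd j.2 (by omega)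
    · exact absurd j.2 (by omega)
  let wt0 : κ' → Idx σ.n → ℕ := fun t j => wt t (Sum.inl j)
  have hsg : ∀ t, ∏ j, σ.sgn j ^ wt t j = sgW (wt0 t) := by
    intro t
    rw [Fintype.prod_sum_type, Finset.univ_eq_empty (α := Fin σ.m ⊕ Fin σ.r), Finset.prod_empty,
      mul_one]
    rfl
  have hdeg0 : ∀ t, ∑ j, wt0 t j = k := by
    intro t
    rw [← hdeg t, Fintype.sum_sum_type (f := fun j => wt t j),
      Finset.univ_eq_empty (α := Fin σ.m ⊕ Fin σ.r), Finset.sum_empty, add_zero]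
  have hT : signTrace wt = ∑ t, sgW (wt0 t) := by
    unfold signTrace
    apply Finset.sum_congr rfl
    intro t _
    exact hsg t
  have hMo : ∀ i, signMom wt (Sum.inl i) = mom wt0 i := by
    intro i
    unfold signMom mom
    apply Finset.sum_congr rfl
    intro t _
    rw [hsg t]
  have h1 := schur_sum wt0 lam hlam hS
  rw [hT]
  refine ⟨h1.1, h1.2, ?_, ?_⟩
  · intro hc
    have hz : ∑ t, sgW (wt0 t) = 0 := h1.2 (by omega)
    have h2 := (schur_moment wt0 k hdeg0 lam hlam hS hz).1 hc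
    rw [← h2]
    congr 1
    apply Finset.sum_congr rfl
    intro i _
    exact hMo _
  · intro hne hc
    have hz : ∑ t, sgW (wt0 t) = 0 := h1.2 hne
    have h2 := (schur_moment wt0 k hdeg0 lam hlam hS hz).2 hc
    rw [← h2]
    apply Finset.sum_congr rfl
    intro i _
    exact hMo _

end Pool.Agent.MP100fe7T
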