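import Pool.Agent.Lib.MP_100fe7_nt.TBlocks

/-!
The Deligne periods of one motive, with scalar `F_∞` on the middle part, in terms of the factors of
the comparison matrix.
-/

set_option linter.unusedSectionVars false

namespace Pool.Agent.MP100fe7T

open Matrix

section split

variable {σ : Shape} {E : Type} [Field E]

theorem swapM_mulVec_lo (y : σ.Idx → E) (j : Fin σ.n) :
    (swapM E σ).mulVec y (Sum.inl (Sum.inr j)) = y (Sum.inl (Sum.inl j)) := by
  simp [swapM, fromBlocks_mulVec]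

theorem swapM_mulVec_mid (y : σ.Idx → E) (j : Fin σ.m ⊕ Fin σ.r) :
    (swapM E σ).mulVec y (Sum.inr j) = ((σ.sgn (Sum.inr j) : ℤ) : E) * y (Sum.inr j) := by
  rcases j with j | j <;> simp [swapM, fromBlocks_mulVec, mulVec_diagonal, Shape.sgn]

variable [CharZero E]

theorem cut_datum (lo : σ.Idx → Prop) (ε : ℤ) (h1 : ∀ j, lo (Sum.inl (Sum.inr j)))
    (h2 : ∀ j, ¬ lo (Sum.inr j) → σ.sgn (Sum.inr j) ≠ ε) (y : σ.Idx → E)
    (hy : ∀ s, lo s → y s = 0) (hN : (swapM E σ).mulVec y = (ε : E) • y) : y = 0 := by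
  funext s
  rcases s with (j | j) | j
  · have e1 := congrFun hN (Sum.inl (Sum.inr j))
    rw [swapM_mulVec_lo, Pi.smul_apply, smul_eq_mul, hy _ (h1 j), mul_zero] at e1
    exact e1
  · exact hy _ (h1 j)
  · by_cases h : lo (Sum.inr j)
    · exact hy _ h
    · have e1 := congrFun hN (Sum.inr j)
      rw [swapM_mulVec_mid, Pi.smul_apply, smul_eq_mul] at e1
      have h3 : ((σ.sgn (Sum.inr j) - ε : ℤ) : E) * y (Sum.inr j) = 0 := by
        push_cast
        linear_combination e1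
      rcases mul_eq_zero.mp h3 with h4 | h4
      · exact absurd (sub_eq_zero.mp (Int.cast_eq_zero.mp h4)) (h2 j h)
      · exact h4

theorem frob_eigen (ε : ℤ) (v : σ.Idx → E) :
    (frob E σ).mulVec v = (ε : E) • v ↔ ∀ s, ¬ σ.sgn s = ε → v s = 0 := by
  constructor
  · intro h s hs
    have h1 := congrFun h s
    rw [frob, mulVec_diagonal, Pi.smul_apply, smul_eq_mul] at h1
    have h2 : ((σ.sgn s - ε : ℤ) : E) * v s = 0 := by
      push_cast
      linear_combination h1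
    rcases mul_eq_zero.mp h2 with h3 | h3
    · exfalso
      apply hs
      have := Int.cast_eq_zero.mp h3
      omega
    · exact h3
  · intro h
    funext s
    rw [frob, mulVec_diagonal, Pi.smul_apply, smul_eq_mul]
    by_cases hs : σ.sgn s = ε
    · rw [hs]
    · rw [h s hs, mul_zero, mul_zero]

theorem gz_map {R : Type} [CommRing R] [Algebra E R] :
    (gz E σ).map (algebraMap E R) = gz R σ :=
  congrFun (fgz_map (E := E) (S := E) (σ := fun _ : Unit => σ) (Algebra.ofId E R)) ()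

end split

section card

variable {σ : Shape}

theorem card_sgn (ε : ℤ) (hε : ε = 1 ∨ ε = -1) :
    Fintype.card {s : σ.Idx // σ.sgn s = ε} =
      σ.n + ∑ j : Fin σ.m ⊕ Fin σ.r, if σ.sgn (Sum.inr j) = ε then 1 else 0 := by
  rw [Fintype.card_subtype, Finset.card_filter, Fintype.sum_sum_type, Fintype.sum_sum_type]
  congr 1
  rcases hε with rfl | rfl <;> simp [Shape.sgn]

variable {R : Type} [CommRing R] {w : ℤ} (M : Datum R σ w)

theorem card_low : Fintype.card {s // M.hodgeIdx s < (w + 1) / 2} = σ.n := by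
  rw [Fintype.card_subtype, Finset.card_filter, Fintype.sum_sum_type, Fintype.sum_sum_type]
  have h1 : ∀ j, ¬ M.hodgeIdx (Sum.inl (Sum.inl j)) < (w + 1) / 2 := by
    intro j
    rw [M.hodgeIdx_hi]
    have := M.two_p j
    omega
  have h2 : ∀ j, M.hodgeIdx (Sum.inl (Sum.inr j)) < (w + 1) / 2 := by
    intro j
    rw [M.hodgeIdx_lo]
    have := M.two_p j
    omega
  have h3 : ∀ j, ¬ M.hodgeIdx (Sum.inr j) < (w + 1) / 2 := by
    intro j
    rw [M.hodgeIdx_mid]
    have := M.two_mid j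
    omega
  simp only [h1, h2, h3, if_true, if_false]
  simp

theorem card_lowmid : Fintype.card {s // M.hodgeIdx s < w / 2 + 1} =
    σ.n + Fintype.card (Fin σ.m ⊕ Fin σ.r) := by
  rw [Fintype.card_subtype, Finset.card_filter, Fintype.sum_sum_type, Fintype.sum_sum_type]
  have h1 : ∀ j, ¬ M.hodgeIdx (Sum.inl (Sum.inl j)) < w / 2 + 1 := by
    intro j
    rw [M.hodgeIdx_hi]
    have := M.two_p j
    omega
  have h2 : ∀ j, M.hodgeIdx (Sum.inl (Sum.inr j)) < w / 2 + 1 := by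
    intro j
    rw [M.hodgeIdx_lo]
    have := M.two_p j
    omega
  have h3 : ∀ j, M.hodgeIdx (Sum.inr j) < w / 2 + 1 := by
    intro j
    rw [M.hodgeIdx_mid]
    omega
  simp only [h1, h2, h3, if_true, if_false]
  simp

end card

namespace Datum

variable {R : Type} [CommRing R] {σ : Shape} {w : ℤ} (M : Datum R σ w)
  {E : Type} [Field E] [CharZero E] [Algebra E R]

theorem isPeriod_iff (ε : ℤ) (x : R) : M.IsPeriod (ε : E) x ↔
    ∃ a : ℤ, IsPer E (fun j => M.hodgeIdx j < a) (fun j => σ.sgn j = ε) M.comp x := by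
  unfold IsPeriod IsPer
  constructor
  · rintro ⟨a, d, A, B, h1, h2, h3, h4, h5⟩
    refine ⟨a, d, A, B, h1, ?_, h3, h4, h5⟩
    intro v
    rw [h2, frob_eigen]
  · rintro ⟨a, d, A, B, h1, h2, h3, h4, h5⟩
    refine ⟨a, d, A, B, h1, ?_, h3, h4, h5⟩
    intro v
    rw [h2, frob_eigen]

theorem period_core (lo : σ.Idx → Prop) [DecidablePred lo] (ε : ℤ)
    (hpar : ∀ i j, lo i → ¬ lo j → M.b i j = 0)
    (h1 : ∀ j, lo (Sum.inl (Sum.inr j))) (h2 : ∀ j, ¬ lo (Sum.inr j) → σ.sgn (Sum.inr j) ≠ ε)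
    (h : Matrix σ.Idx σ.Idx R) (hh : ∀ i j, σ.sgn i ≠ σ.sgn j → h i j = 0)
    (hM : M.comp = M.b * gz R σ * h) {x : R}
    (hx : IsPer E lo (fun j => σ.sgn j = ε) M.comp x) :
    ∃ e : Eˣ, x = algebraMap E R e * detP lo M.b * detP (fun j => σ.sgn j = ε) h := by
  obtain ⟨d, ψ, φ, e, rfl⟩ := hx.coords
  rw [hM, det_three ψ φ _ _ _ hpar (by
    intro s t hs ht
    apply hh
    rw [ht]
    exact hs)]
  have hne : ((gz E σ).submatrix (fun i => (ψ i).1) (fun i => (φ i).1)).det ≠ 0 := by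
    apply det_split_ne_zero ψ φ (gz E σ) (gz E σ)⁻¹ (swapM E σ) (fun s => ((σ.sgn s : ℤ) : E))
      (ε : E)
    · exact nonsing_inv_mul _ (isUnit_det_gz (Rep.isUnit_two (E := E) E))
    · exact swapM_mul_gz
    · intro s hs
      rw [hs]
    · exact cut_datum lo ε h1 h2
  have hg : ((gz R σ).submatrix (fun i => (ψ i).1) (fun i => (φ i).1)).det =
      algebraMap E R (((gz E σ).submatrix (fun i => (ψ i).1) (fun i => (φ i).1)).det) := by
    rw [← gz_map (E := E)]
    have := RingHom.map_det (algebraMap E R)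
      ((gz E σ).submatrix (fun i => (ψ i).1) (fun i => (φ i).1))
    rw [this]
    rfl
  refine ⟨e * Units.mk0 _ hne, ?_⟩
  rw [hg, Units.val_mul, map_mul, Units.val_mk0]
  ring

theorem card_coords {ε : ℤ} {a : ℤ} {x : R}
    (hx : IsPer E (fun j => M.hodgeIdx j < a) (fun j => σ.sgn j = ε) M.comp x) :
    Fintype.card {s // M.hodgeIdx s < a} = Fintype.card {s : σ.Idx // σ.sgn s = ε} := by
  obtain ⟨d, ψ, φ, -, -⟩ := hx.coords
  rw [← Fintype.card_congr ψ, ← Fintype.card_congr φ]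

theorem period_of_ne {ε : ℤ} (hε : ε = 1 ∨ ε = -1)
    (hmid : ∀ j, σ.sgn (Sum.inr j) ≠ ε)
    (h : Matrix σ.Idx σ.Idx R) (hh : ∀ i j, σ.sgn i ≠ σ.sgn j → h i j = 0)
    (hM : M.comp = M.b * gz R σ * h) {x : R} (hx : M.IsPeriod (ε : E) x) :
    ∃ e : Eˣ, x = algebraMap E R e * M.dlow * detP (fun j => σ.sgn j = ε) h := by
  rw [isPeriod_iff] at hx
  obtain ⟨a, hx⟩ := hx
  have hc := M.card_coords hx
  rw [card_sgn ε hε, Finset.sum_eq_zero (fun j _ => if_neg (hmid j)), add_zero] at hc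
  replace hc := hc.trans (card_low M).symm
  have hlo : ∀ s, M.hodgeIdx s < a ↔ 2 * M.hodgeIdx s < w := by
    intro s
    rw [lo_unique _ _ _ hc s]
    omega
  obtain ⟨e, he⟩ := M.period_core (E := E) (fun j => M.hodgeIdx j < a) ε
    (fun i j hi hj => M.b_parabolic i j (by omega))
    (fun j => (hlo _).mpr (by
      rw [M.hodgeIdx_lo]
      have := M.two_p j
      omega))
    (fun j _ => hmid j) h hh hM hx
  refine ⟨e, ?_⟩
  rw [he, detP_congr hlo, M.detP_low]

theorem period_of_eq {ε : ℤ} (hε : ε = 1 ∨ ε = -1)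
    (hmid : ∀ j, σ.sgn (Sum.inr j) = ε)
    (h : Matrix σ.Idx σ.Idx R) (hh : ∀ i j, σ.sgn i ≠ σ.sgn j → h i j = 0)
    (hM : M.comp = M.b * gz R σ * h) {x : R} (hx : M.IsPeriod (ε : E) x) :
    ∃ e : Eˣ, x = algebraMap E R e * (M.dlow * M.beta) * detP (fun j => σ.sgn j = ε) h := by
  rw [isPeriod_iff] at hx
  obtain ⟨a, hx⟩ := hx
  have hc := M.card_coords hx
  rw [card_sgn ε hε, Finset.sum_congr rfl (fun j _ => if_pos (hmid j))] at hc
  simp only [Finset.sum_const, Finset.card_univ, smul_eq_mul, mul_one] at hc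
  replace hc := hc.trans (card_lowmid M).symm
  have hlo : ∀ s, M.hodgeIdx s < a ↔ 2 * M.hodgeIdx s ≤ w := by
    intro s
    rw [lo_unique _ _ _ hc s]
    omega
  obtain ⟨e, he⟩ := M.period_core (E := E) (fun j => M.hodgeIdx j < a) ε
    (fun i j hi hj => M.b_parabolic i j (by omega))
    (fun j => (hlo _).mpr (by
      rw [M.hodgeIdx_lo]
      have := M.two_p j
      omega))
    (fun j hj => by
      exfalso
      apply hj
      rw [hlo, M.hodgeIdx_mid]
      omega) h hh hM hx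
  refine ⟨e, ?_⟩
  rw [he, detP_congr hlo, M.detP_lowmid]

theorem exists_period {ε : ℤ} (hε : ε = 1 ∨ ε = -1)
    (hmid : (∀ j, σ.sgn (Sum.inr j) ≠ ε) ∨ ∀ j, σ.sgn (Sum.inr j) = ε) :
    ∃ x : R, M.IsPeriod (ε : E) x := by
  obtain ⟨a, ha⟩ : ∃ a : ℤ, Fintype.card {s // M.hodgeIdx s < a} =
      Fintype.card {s : σ.Idx // σ.sgn s = ε} := by
    rcases hmid with hmid | hmid
    · refine ⟨(w + 1) / 2, ?_⟩
      rw [card_sgn ε hε, Finset.sum_eq_zero (fun j _ => if_neg (hmid j)), add_zero, card_low M]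
    · refine ⟨w / 2 + 1, ?_⟩
      rw [card_sgn ε hε, Finset.sum_congr rfl (fun j _ => if_pos (hmid j)), card_lowmid M]
      simp
  let ψ : Fin (Fintype.card {s // M.hodgeIdx s < a}) ≃ {s // M.hodgeIdx s < a} :=
    (Fintype.equivFin _).symm
  let φ : Fin (Fintype.card {s // M.hodgeIdx s < a}) ≃ {s : σ.Idx // σ.sgn s = ε} :=
    (finCongr ha).trans (Fintype.equivFin _).symm
  refine ⟨_, (M.isPeriod_iff ε _).mpr ⟨a, isPer_of_coords _ _ M.comp ψ φ⟩⟩

end Datum

end Pool.Agent.MP100fe7T
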