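import Mathlib

/-!
Betti - de Rham data of several motives, algebraic representations of a product of general linear
groups, and Deligne periods. Middle Hodge classes are allowed in the given motives.
-/

namespace Pool.Agent.MP100fe7T

open Matrix

/-- The shape of a motive, pure of weight `w`: `n` pairs of Hodge indices `p > w/2 > w - p`, and
a part of type `(w/2, w/2)` of rank `m + r`, on which `F_∞` has the eigenvalue `1` with
multiplicity `m` and `-1` with multiplicity `r`. -/
structure Shape where
  /-- number of pairs of Hodge indices -/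
  n : ℕ
  /-- multiplicity of the eigenvalue `1` of `F_∞` on the middle part -/
  m : ℕ
  /-- multiplicity of the eigenvalue `-1` of `F_∞` on the middle part -/
  r : ℕ

/-- Index set of a basis of a motive of shape `σ`: two halves, and the middle part. -/
abbrev Shape.Idx (σ : Shape) : Type := (Fin σ.n ⊕ Fin σ.n) ⊕ (Fin σ.m ⊕ Fin σ.r)

/-- The eigenvalue of `F_∞` on the basis vectors of `M_B`. -/
def Shape.sgn (σ : Shape) : σ.Idx → ℤ :=
  Sum.elim (Sum.elim (fun _ => 1) (fun _ => -1)) (Sum.elim (fun _ => 1) (fun _ => -1))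

/-- The matrix of `F_∞` in a basis of `M_B` made of bases of `M^+` and `M^-`. -/
def frob (S : Type) [CommRing S] (σ : Shape) : Matrix σ.Idx σ.Idx S :=
  diagonal fun j => ((σ.sgn j : ℤ) : S)

/-- The Hodge indices of an adapted basis of `M_DR`. -/
def hodgeIndex {σ : Shape} (w : ℤ) (p : Fin σ.n → ℤ) : σ.Idx → ℤ :=
  Sum.elim (Sum.elim p (fun j => w - p j)) (fun _ => w / 2)

/-- The Betti - de Rham data of a motive `M`, pure of weight `w`, where `R` is the ring `E ⊗ ℂ`.
The `E`-space `M_B` has a basis indexed by `σ.Idx`, and `F_∞` multiplies the vector `j` by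
`σ.sgn j`. The `E`-space `M_DR` has a basis, with the same index set, adapted to the Hodge
filtration: `F^a M_DR` is spanned by the vectors `j` with `hodgeIndex w p j ≥ a`; this Hodge index is
`p j > w/2` in the first half, `w - p j` in the second half, and `w/2` in the middle part. `comp`
is the matrix of the comparison isomorphism, and `hodge a` is `M^{a, w-a} ⊆ M_B ⊗ ℂ`; the space
`M^{w/2, w/2}` is spanned by eigenvectors of `F_∞`, `m` with eigenvalue `1` and `r` with
eigenvalue `-1`. -/
structure Datum (R : Type) [CommRing R] (σ : Shape) (w : ℤ) where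
  /-- the Hodge indices `> w/2` of the adapted basis of `M_DR` -/
  p : Fin σ.n → ℤ
  two_p : ∀ j, w < 2 * p j
  even_w : ∀ _ : Fin σ.m ⊕ Fin σ.r, Even w
  /-- the matrix of the comparison isomorphism -/
  comp : Matrix σ.Idx σ.Idx R
  comp_unit : IsUnit comp.det
  /-- the Hodge decomposition `M_B ⊗ ℂ = ⊕ M^{a, w-a}` -/
  hodge : ℤ → Submodule R (σ.Idx → R)
  internal : DirectSum.IsInternal hodge
  frob_hodge : ∀ a, (hodge a).map (frob R σ).mulVecLin = hodge (w - a)
  middle : ∀ a, 2 * a = w → ∃ y : Fin σ.m ⊕ Fin σ.r → σ.Idx → R,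
    (∀ j, (frob R σ).mulVec (y j) = ((σ.sgn (Sum.inr j) : ℤ) : R) • y j) ∧
    Submodule.span R (Set.range y) = hodge a
  fil_hodge : ∀ (a : ℤ) (y : σ.Idx → R),
    y ∈ (⨆ b, ⨆ (_ : a ≤ b), hodge b).map comp.mulVecLin ↔ ∀ j, hodgeIndex w p j < a → y j = 0

namespace Datum

variable {R : Type} [CommRing R] {σ : Shape} {w : ℤ} (M : Datum R σ w)

/-- The Hodge index of the `j`-th vector of the adapted basis of `M_DR`. -/
def hodgeIdx : σ.Idx → ℤ := hodgeIndex w M.p

/-- `x` is a Deligne period `c^+(M)` (for `ε = 1`) or `c^-(M)` (for `ε = -1`): the columns of `A`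
are an `E`-basis of `M^ε`, the matrix `B` is the projection of `M_DR` onto `M_DR / F^ε M` in an
`E`-basis of the quotient, where `F^ε M` is the step of the Hodge filtration with
`dim M_DR / F^ε M = dim M^ε`, and `x` is the determinant of
`M^ε ⊗ ℂ → (M_DR / F^ε M) ⊗ ℂ` in these `E`-bases. -/
def IsPeriod {E : Type} [Field E] [Algebra E R] (ε : E) (x : R) : Prop :=
  ∃ (a : ℤ) (d : ℕ) (A : Matrix σ.Idx (Fin d) E) (B : Matrix (Fin d) σ.Idx E),
    Function.Injective A.mulVec ∧
    (∀ v : σ.Idx → E, v ∈ Set.range A.mulVec ↔ (frob E σ).mulVec v = ε • v) ∧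
    Function.Surjective B.mulVec ∧
    (∀ v : σ.Idx → E, B.mulVec v = 0 ↔ ∀ j, M.hodgeIdx j < a → v j = 0) ∧
    x = (B.map (algebraMap E R) * M.comp * A.map (algebraMap E R)).det

/-- The basis vectors of `M_DR` in the second half with Hodge index `a`, i.e. (the index set of)
an `E`-basis of `Gr_F^a M_DR` for `2a < w`. -/
abbrev Block (a : ℤ) : Type := {i : Fin σ.n // w - M.p i = a}

/-- `q` is the determinant of `F_∞ : M^{w-a, a} → M^{a, w-a}` for `2a < w`, in the `E`-bases of
`Gr_F^{w-a} M_DR` and `Gr_F^a M_DR` given by the adapted basis of `M_DR`, where `M^{b, w-b}` is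
identified with `Gr_F^b M_DR ⊗ ℂ` by the comparison isomorphism: `z i ∈ M^{w-a, a}` is the vector
whose class in `Gr_F^{w-a}` is that of the basis vector `i` of the first half, and `q` is the
determinant of the coordinates of `F_∞ (z j)` in `Gr_F^a`. -/
def IsHodgePeriod (a : ℤ) (q : R) : Prop :=
  ∃ z : M.Block a → σ.Idx → R,
    (∀ i, z i ∈ M.hodge (w - a)) ∧
    (∀ (i : M.Block a) (j : σ.Idx), M.hodgeIdx j ≤ w - a →
      M.comp.mulVec (z i) j = if j = Sum.inl (Sum.inl i.1) then 1 else 0) ∧
    q = (Matrix.of fun i j : M.Block a =>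
      M.comp.mulVec ((frob R σ).mulVec (z j)) (Sum.inl (Sum.inr i.1))).det

/-- The Hodge indices `a < w/2` of `M`. -/
def lowIndices : Finset ℤ := Finset.univ.image fun i : Fin σ.n => w - M.p i

end Datum

/-- A family of square matrices, one for each motive. -/
abbrev Fam {ι : Type} (σ : ι → Shape) (S : Type) : Type := ∀ i, Matrix (σ i).Idx (σ i).Idx S

/-- The union of the index sets of the bases of the motives. -/
abbrev Tot {ι : Type} (σ : ι → Shape) : Type := Σ i, (σ i).Idx

/-- The value at a family `A` of matrices over an `E`-algebra `S` of a matrix of polynomials over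
`E` in the entries of such a family. -/
noncomputable def evalMat {E : Type} [Field E] {ι : Type} {σ : ι → Shape} {κ : Type}
    (mat : Matrix κ κ (MvPolynomial (Σ i, (σ i).Idx × (σ i).Idx) E)) (S : Type) [CommRing S]
    [Algebra E S] (A : Fam σ S) : Matrix κ κ S :=
  mat.map (MvPolynomial.aeval fun q => A q.1 q.2.1 q.2.2)

/-- An algebraic representation over `E` of the product of the groups `GL(σ i)`, written in a basis
of weight vectors. The family `A` acts by the matrix `∏ i, det (A i) ^ (-(twist i))` times the value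
at `A` of the polynomial matrix `mat`; the family of diagonal matrices `diag (x_q)` acts by `mat` on
the basis vector `s` as `∏ q, x_q ^ (wt s q)`, and `mat` is homogeneous of degree `deg i` in the
`i`-th matrix. -/
structure Rep (E : Type) [Field E] {ι : Type} [Fintype ι] (σ : ι → Shape) (κ : Type) [Fintype κ]
    [DecidableEq κ] where
  /-- the polynomial matrix -/
  mat : Matrix κ κ (MvPolynomial (Σ i, (σ i).Idx × (σ i).Idx) E)
  /-- exponents of the inverse determinants -/
  twist : ι → ℕ
  /-- the weights of the basis vectors for the polynomial part -/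
  wt : κ → Tot σ → ℕ
  /-- the degrees of the polynomial part -/
  deg : ι → ℕ
  sum_wt : ∀ s i, ∑ j, wt s ⟨i, j⟩ = deg i
  map_mul : ∀ (S : Type) [CommRing S] [Algebra E S] (A B : Fam σ S),
    evalMat mat S (A * B) = evalMat mat S A * evalMat mat S B
  map_diagonal : ∀ (S : Type) [CommRing S] [Algebra E S] (x : Tot σ → S),
    evalMat mat S (fun i => diagonal fun j => x ⟨i, j⟩) = diagonal fun s => ∏ q, x q ^ wt s q

namespace Rep

variable {E : Type} [Field E] {ι : Type} [Fintype ι] {σ : ι → Shape} {κ : Type} [Fintype κ]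
  [DecidableEq κ] (ρ : Rep E σ κ)

/-- The matrix by which a family of invertible matrices acts. -/
noncomputable def ev (S : Type) [CommRing S] [Algebra E S] (A : Fam σ S) : Matrix κ κ S :=
  Ring.inverse (∏ i, (A i).det ^ ρ.twist i) • evalMat ρ.mat S A

/-- The weight of the basis vector `s`. -/
def weight (s : κ) (q : Tot σ) : ℤ := (ρ.wt s q : ℤ) - ρ.twist q.1

variable {R : Type} [CommRing R] {w : ι → ℤ} (M : ∀ i, Datum R (σ i) (w i))

/-- The Hodge index of the `s`-th basis vector of the de Rham realisation of `N = ρ(M)`. -/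
def hodgeIdx (s : κ) : ℤ := ∑ q : Tot σ, ρ.weight s q * (M q.1).hodgeIdx q.2

/-- The weight of the motive `N = ρ(M)`. -/
def motWeight (w : ι → ℤ) : ℤ :=
  ∑ i, ((ρ.deg i : ℤ) - ρ.twist i * Fintype.card (σ i).Idx) * w i

/-- `N = ρ(M)` has no classes of type `(k/2, k/2)`, `k` the weight of `N`. -/
def NoMiddle : Prop := ∀ s, 2 * ρ.hodgeIdx M s ≠ ρ.motWeight w

/-- `x` is a Deligne period `c^+(N)` (for `ε = 1`) or `c^-(N)` (for `ε = -1`): the motive
`N = ρ(M)` has `N_B = E^κ` with `F_∞ = ρ(F_∞)`, `N_DR = E^κ`, comparison isomorphism `ρ(comp)`, and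
`F^a N_DR` is spanned by the basis vectors `s` with `hodgeIdx s ≥ a`. The columns of `A` are an
`E`-basis of `N^ε`, the matrix `B` is the projection of `N_DR` onto `N_DR / F^ε N` written in an
`E`-basis of the quotient, where `F^ε N` is the step of the Hodge filtration with
`dim N_DR / F^ε N = dim N^ε`, and `x` is the determinant of `N^ε ⊗ ℂ → (N_DR / F^ε N) ⊗ ℂ` in these
`E`-bases. -/
def IsPeriod [Algebra E R] (ε : E) (x : R) : Prop :=
  ∃ (a : ℤ) (d : ℕ) (A : Matrix κ (Fin d) E) (B : Matrix (Fin d) κ E),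
    Function.Injective A.mulVec ∧
    (∀ v : κ → E, v ∈ Set.range A.mulVec ↔
      (ρ.ev E fun i => frob E (σ i)).mulVec v = ε • v) ∧
    Function.Surjective B.mulVec ∧
    (∀ v : κ → E, B.mulVec v = 0 ↔ ∀ s, ρ.hodgeIdx M s < a → v s = 0) ∧
    x = (B.map (algebraMap E R) * ρ.ev R (fun i => (M i).comp) * A.map (algebraMap E R)).det

/-- The eigenvalue of `F_∞` on the basis vector `s` of `N_B`, `N = ρ(M)`: the product of the
`(σ q.1).sgn q.2 = ±1` to the powers `weight s q = wt s q - twist q.1`, which have the parity of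
`wt s q + twist q.1`. -/
def sgn (s : κ) : ℤ := ∏ q : Tot σ, (σ q.1).sgn q.2 ^ (ρ.wt s q + ρ.twist q.1)

/-- The basis vectors of `N_B` on which `F_∞` acts by `ε = ±1`. -/
def signPart (ε : ℤ) : Finset κ := Finset.univ.filter fun s => ρ.sgn s = ε

/-- The basis vectors of `N_DR` with Hodge index `< a`, a basis of `N_DR / F^a N_DR`. -/
def lowPart (a : ℤ) : Finset κ := Finset.univ.filter fun s => ρ.hodgeIdx M s < a

/-- `F^a N_DR` is the step `F^ε N` of the Hodge filtration, `ε = ±1`: the dimension of
`N_DR / F^a N_DR` is that of `N^ε`. -/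
def IsStep (ε : ℤ) (a : ℤ) : Prop := (ρ.lowPart M a).card = (ρ.signPart ε).card

end Rep

end Pool.Agent.MP100fe7T
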