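import Pool.Agent.Lib.MP_100fe7_nt.TDefs
import Pool.Agent.Lib.MP_100fe7_nt.MulPoly

/-!
Block embeddings, determinants of blocks, and characters of Levi subgroups.
-/

set_option linter.unusedSectionVars false

namespace Pool.Agent.MP100fe7T

open Matrix

section emb

variable {J : Type} [Fintype J] [DecidableEq J] (P : J → Prop) [DecidablePred P]

/-- a matrix on the subset `P`, extended by the identity -/
def emb {S : Type} [CommRing S] (A : Matrix {j // P j} {j // P j} S) : Matrix J J S :=
  Matrix.of fun i j => if hi : P i then (if hj : P j then A ⟨i, hi⟩ ⟨j, hj⟩ else 0)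
    else if i = j then 1 else 0

variable {S : Type} [CommRing S]

theorem emb_pos (A : Matrix {j // P j} {j // P j} S) {i j : J} (hi : P i) (hj : P j) :
    emb P A i j = A ⟨i, hi⟩ ⟨j, hj⟩ := by
  simp [emb, hi, hj]

theorem emb_pos_neg (A : Matrix {j // P j} {j // P j} S) {i j : J} (hi : P i) (hj : ¬ P j) :
    emb P A i j = 0 := by
  simp [emb, hi, hj]

theorem emb_neg (A : Matrix {j // P j} {j // P j} S) {i j : J} (hi : ¬ P i) :
    emb P A i j = if i = j then 1 else 0 := by
  simp [emb, hi]

theorem emb_one : emb P (1 : Matrix {j // P j} {j // P j} S) = 1 := by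
  ext i j
  by_cases hi : P i
  · by_cases hj : P j
    · rw [emb_pos P _ hi hj, Matrix.one_apply, Matrix.one_apply]
      simp
    · rw [emb_pos_neg P _ hi hj, Matrix.one_apply_ne]
      rintro rfl
      exact hj hi
  · rw [emb_neg P _ hi, Matrix.one_apply]

theorem emb_mul (A B : Matrix {j // P j} {j // P j} S) : emb P (A * B) = emb P A * emb P B := by
  ext i k
  rw [Matrix.mul_apply]
  by_cases hi : P i
  · rw [← Fintype.sum_subtype_add_sum_subtype P]
    have h2 : ∑ j : {j // ¬ P j}, emb P A i j.1 * emb P B j.1 k = 0 := by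
      apply Finset.sum_eq_zero
      intro j _
      rw [emb_pos_neg P _ hi j.2, zero_mul]
    rw [h2, add_zero]
    by_cases hk : P k
    · rw [emb_pos P _ hi hk, Matrix.mul_apply]
      apply Finset.sum_congr rfl
      intro j _
      rw [emb_pos P _ hi j.2, emb_pos P _ j.2 hk]
    · rw [emb_pos_neg P _ hi hk]
      symm
      apply Finset.sum_eq_zero
      intro j _
      rw [emb_pos_neg P _ j.2 hk, mul_zero]
  · rw [emb_neg P _ hi, Finset.sum_eq_single i]
    · rw [emb_neg P _ hi, emb_neg P _ hi]
      simp
    · intro j _ hj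
      rw [emb_neg P _ hi, if_neg (Ne.symm hj), zero_mul]
    · simp

theorem emb_map {S' : Type} [CommRing S'] {E : Type} [Field E] [Algebra E S] [Algebra E S']
    (φ : S →ₐ[E] S') (A : Matrix {j // P j} {j // P j} S) :
    (emb P A).map φ = emb P (A.map φ) := by
  ext i j
  rw [Matrix.map_apply]
  by_cases hi : P i
  · by_cases hj : P j
    · rw [emb_pos P _ hi hj, emb_pos P _ hi hj, Matrix.map_apply]
    · rw [emb_pos_neg P _ hi hj, emb_pos_neg P _ hi hj, map_zero]
  · rw [emb_neg P _ hi, emb_neg P _ hi]
    split_ifs <;> simp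

theorem emb_diagonal (x : J → S) :
    emb P (diagonal fun j : {j // P j} => x j.1) = diagonal fun j => if P j then x j else 1 := by
  ext i j
  by_cases hi : P i
  · by_cases hj : P j
    · rw [emb_pos P _ hi hj, diagonal_apply, diagonal_apply]
      by_cases hij : i = j
      · subst hij
        simp [hi]
      · rw [if_neg hij, if_neg]
        intro h
        exact hij (congrArg Subtype.val h)
    · rw [emb_pos_neg P _ hi hj, diagonal_apply_ne]
      rintro rfl
      exact hj hi
  · rw [emb_neg P _ hi, diagonal_apply, if_neg hi]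

end emb

section detP

variable {κ : Type} [Fintype κ] [DecidableEq κ] (L : κ → Prop) [DecidablePred L]

/-- the determinant of the block with rows and columns in `L` -/
noncomputable def detP {S : Type} [CommRing S] (X : Matrix κ κ S) : S :=
  (X.submatrix (fun s : {s // L s} => s.1) (fun s : {s // L s} => s.1)).det

variable {S : Type} [CommRing S]

theorem detP_mul (X Y : Matrix κ κ S) (hX : ∀ s t, L s → ¬ L t → X s t = 0) :
    detP L (X * Y) = detP L X * detP L Y := by
  unfold detP
  rw [← det_mul]
  congr 1
  ext s t
  rw [submatrix_apply, Matrix.mul_apply, Matrix.mul_apply]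
  rw [← Fintype.sum_subtype_add_sum_subtype L]
  rw [add_eq_left.mpr]
  · rfl
  · apply Finset.sum_eq_zero
    intro u _
    rw [hX s.1 u.1 s.2 u.2, zero_mul]

theorem detP_map {S' : Type} [CommRing S'] {E : Type} [Field E] [Algebra E S] [Algebra E S']
    (φ : S →ₐ[E] S') (X : Matrix κ κ S) : detP L (X.map φ) = φ (detP L X) := by
  unfold detP
  rw [AlgHom.map_det]
  rfl

theorem detP_one : detP L (1 : Matrix κ κ S) = 1 := by
  unfold detP
  rw [Matrix.submatrix_one _ Subtype.val_injective, det_one]

theorem detP_diagonal (x : κ → S) : detP L (diagonal x) = ∏ s with L s, x s := by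
  unfold detP
  have : (diagonal x).submatrix (fun s : {s // L s} => s.1) (fun s : {s // L s} => s.1) =
      diagonal fun s : {s // L s} => x s.1 := by
    ext s t
    rw [submatrix_apply, diagonal_apply, diagonal_apply]
    by_cases h : s = t
    · subst h
      simp
    · rw [if_neg h, if_neg (fun h' => h (Subtype.ext h'))]
  rw [this, det_diagonal]
  rw [Finset.prod_subtype (Finset.univ.filter L) (p := L) (by intro s; simp)]

end detP

end Pool.Agent.MP100fe7T
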