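import Pool.Agent.Lib.MP_100fe7_nt.TDefs

/-!
Factorisation of the comparison matrix of one motive.
-/

set_option linter.unusedSectionVars false

namespace Pool.Agent.MP100fe7T

open Matrix

/-- `F_∞` in the split basis of `M_DR` -/
def swapM (S : Type) [CommRing S] (σ : Shape) : Matrix σ.Idx σ.Idx S :=
  fromBlocks (fromBlocks 0 1 1 0) 0 0 (diagonal (Sum.elim (fun _ => 1) (fun _ => -1)))

/-- the comparison matrix of the split datum -/
def gz (S : Type) [CommRing S] (σ : Shape) : Matrix σ.Idx σ.Idx S :=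
  fromBlocks (fromBlocks 1 1 1 (-1)) 0 0 1

section basic

variable {S : Type} [CommRing S] {σ : Shape}

theorem sgn_sq (j : σ.Idx) : σ.sgn j * σ.sgn j = 1 := by
  rcases j with (j | j) | (j | j) <;> simp [Shape.sgn]

theorem sgn_cases (j : σ.Idx) : σ.sgn j = 1 ∨ σ.sgn j = -1 := by
  rcases j with (j | j) | (j | j) <;> simp [Shape.sgn]

theorem frob_eq : frob S σ = fromBlocks (fromBlocks 1 0 0 (-1)) 0 0
    (diagonal (Sum.elim (fun _ => 1) (fun _ => -1))) := by
  ext i j
  unfold frob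
  rw [diagonal_apply]
  rcases i with (i | i) | (i | i) <;> rcases j with (j | j) | (j | j) <;>
    simp [Shape.sgn, Matrix.one_apply, diagonal_apply, neg_apply] <;>
    split_ifs <;> simp

theorem frob_mul_frob : frob S σ * frob S σ = 1 := by
  unfold frob
  rw [diagonal_mul_diagonal, ← diagonal_one]
  congr 1
  funext j
  exact_mod_cast congrArg (fun z : ℤ => (z : S)) (sgn_sq j)

theorem swapM_mul_gz : swapM S σ * gz S σ = gz S σ * frob S σ := by
  rw [frob_eq]
  unfold swapM gz
  rw [fromBlocks_multiply, fromBlocks_multiply, fromBlocks_multiply, fromBlocks_multiply]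
  simp

theorem swapM_mul_swapM : swapM S σ * swapM S σ = 1 := by
  unfold swapM
  rw [fromBlocks_multiply, fromBlocks_multiply, diagonal_mul_diagonal]
  have h1 : (fun i : Fin σ.m ⊕ Fin σ.r => Sum.elim (fun _ => (1 : S)) (fun _ => -1) i *
      Sum.elim (fun _ => (1 : S)) (fun _ => -1) i) = fun _ => 1 := by
    funext i
    rcases i with i | i <;> simp
  rw [h1]
  simp

theorem gz_mul_gz : gz S σ * gz S σ =
    diagonal (Sum.elim (fun _ => 2) (fun _ => 1) : σ.Idx → S) := by
  unfold gz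
  rw [fromBlocks_multiply, fromBlocks_multiply]
  ext i j
  rw [diagonal_apply]
  rcases i with (i | i) | i <;> rcases j with (j | j) | j <;>
    simp [Matrix.one_apply, Matrix.add_apply, neg_apply]
  · split_ifs
    · norm_num
    · norm_num
  · split_ifs
    · norm_num
    · norm_num

theorem isUnit_det_gz (h2 : IsUnit (2 : S)) : IsUnit (gz S σ).det := by
  have h1 := congrArg Matrix.det (gz_mul_gz (S := S) (σ := σ))
  rw [det_mul, det_diagonal] at h1
  have h3 : IsUnit ((gz S σ).det * (gz S σ).det) := by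
    rw [h1]
    apply IsUnit.prod_univ_iff.mpr
    intro i
    rcases i with i | i
    · exact h2
    · exact isUnit_one
  exact isUnit_of_mul_isUnit_left h3

theorem frob_mulVec_frob_mulVec (v : σ.Idx → S) :
    (frob S σ).mulVec ((frob S σ).mulVec v) = v := by
  rw [mulVec_mulVec, frob_mul_frob, one_mulVec]

/-- a matrix commuting with `F_∞` is block diagonal -/
theorem block_of_commute (h2 : IsUnit (2 : S)) (h : Matrix σ.Idx σ.Idx S)
    (hc : frob S σ * h = h * frob S σ) (i j : σ.Idx) (hij : σ.sgn i ≠ σ.sgn j) : h i j = 0 := by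
  have e := congrFun (congrFun hc i) j
  unfold frob at e
  rw [diagonal_mul, mul_diagonal] at e
  have e2 : 2 * h i j = 2 * 0 := by
    rcases sgn_cases i with hi | hi <;> rcases sgn_cases j with hj | hj
    · exact absurd (hi.trans hj.symm) hij
    · rw [hi, hj] at e
      push_cast at e
      linear_combination e
    · rw [hi, hj] at e
      push_cast at e
      linear_combination -e
    · exact absurd (hi.trans hj.symm) hij
  exact h2.mul_left_cancel e2

theorem commute_of_block (h : Matrix σ.Idx σ.Idx S)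
    (hh : ∀ i j, σ.sgn i ≠ σ.sgn j → h i j = 0) : frob S σ * h = h * frob S σ := by
  ext i j
  unfold frob
  rw [diagonal_mul, mul_diagonal]
  by_cases hij : σ.sgn i = σ.sgn j
  · rw [hij, mul_comm]
  · rw [hh i j hij]
    simp

end basic

namespace Datum

variable {R : Type} [CommRing R] {σ : Shape} {w : ℤ} (M : Datum R σ w)

theorem hodgeIdx_hi (j : Fin σ.n) : M.hodgeIdx (Sum.inl (Sum.inl j)) = M.p j := rfl

theorem hodgeIdx_lo (j : Fin σ.n) : M.hodgeIdx (Sum.inl (Sum.inr j)) = w - M.p j := rfl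

theorem hodgeIdx_mid (j : Fin σ.m ⊕ Fin σ.r) : M.hodgeIdx (Sum.inr j) = w / 2 := rfl

include M in
theorem two_mid (j : Fin σ.m ⊕ Fin σ.r) : 2 * (w / 2) = w := by
  have h := M.even_w j
  obtain ⟨a, ha⟩ := h
  omega

/-- `⨁_{b ≥ a} M^{b, w-b}` -/
def up (a : ℤ) : Submodule R (σ.Idx → R) := ⨆ b, ⨆ (_ : a ≤ b), M.hodge b

theorem comp_injective : Function.Injective M.comp.mulVec := by
  intro x y hxy
  have h1 : M.comp⁻¹ *ᵥ (M.comp *ᵥ x) = M.comp⁻¹ *ᵥ (M.comp *ᵥ y) := by rw [hxy]
  rwa [mulVec_mulVec, mulVec_mulVec, nonsing_inv_mul _ M.comp_unit, one_mulVec, one_mulVec] at h1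

theorem mem_up_iff (a : ℤ) (x : σ.Idx → R) :
    x ∈ M.up a ↔ ∀ j, M.hodgeIdx j < a → (M.comp *ᵥ x) j = 0 := by
  have h := M.fil_hodge a (M.comp *ᵥ x)
  unfold up hodgeIdx
  rw [← h]
  constructor
  · intro hx
    exact ⟨x, hx, rfl⟩
  · rintro ⟨x', hx', he⟩
    have : x' = x := M.comp_injective he
    rwa [← this]

theorem hodge_le_up {a b : ℤ} (h : a ≤ b) : M.hodge b ≤ M.up a := by
  unfold up
  exact le_iSup₂_of_le b h le_rfl

theorem up_le (a : ℤ) : M.up a ≤ M.hodge a ⊔ M.up (a + 1) := by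
  unfold up
  apply iSup₂_le
  intro b hb
  rcases eq_or_lt_of_le hb with h | h
  · subst h
    exact le_sup_left
  · apply le_sup_of_le_right
    exact le_iSup₂_of_le b (by omega) le_rfl

theorem exists_z (j : Fin σ.n) : ∃ z ∈ M.hodge (M.p j), ∀ i, M.hodgeIdx i < M.p j + 1 →
    (M.comp *ᵥ z) i = (Pi.single (Sum.inl (Sum.inl j)) 1 : σ.Idx → R) i := by
  let x : σ.Idx → R := M.comp⁻¹ *ᵥ Pi.single (Sum.inl (Sum.inl j)) 1
  have hx : M.comp *ᵥ x = Pi.single (Sum.inl (Sum.inl j)) 1 := by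
    simp only [x]
    rw [mulVec_mulVec, mul_nonsing_inv _ M.comp_unit, one_mulVec]
  have hmem : x ∈ M.up (M.p j) := by
    rw [mem_up_iff]
    intro i hi
    rw [hx]
    apply Pi.single_eq_of_ne
    rintro rfl
    rw [M.hodgeIdx_hi] at hi
    exact lt_irrefl _ hi
  obtain ⟨z, hz, x', hx', hsum⟩ := Submodule.mem_sup.mp (M.up_le _ hmem)
  refine ⟨z, hz, ?_⟩
  intro i hi
  rw [mem_up_iff] at hx'
  have h1 := hx' i hi
  rw [← hx, ← hsum, mulVec_add]
  simp [h1]

/-- the vectors `z_j` -/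
noncomputable def z (j : Fin σ.n) : σ.Idx → R := (M.exists_z j).choose

theorem z_mem (j : Fin σ.n) : M.z j ∈ M.hodge (M.p j) := (M.exists_z j).choose_spec.1

theorem z_spec (j : Fin σ.n) (i : σ.Idx) (hi : M.hodgeIdx i < M.p j + 1) :
    (M.comp *ᵥ M.z j) i = (Pi.single (Sum.inl (Sum.inl j)) 1 : σ.Idx → R) i :=
  (M.exists_z j).choose_spec.2 i hi

theorem exists_y : ∃ y : Fin σ.m ⊕ Fin σ.r → σ.Idx → R,
    (∀ j, (frob R σ).mulVec (y j) = ((σ.sgn (Sum.inr j) : ℤ) : R) • y j) ∧
    ∀ a, 2 * a = w → Submodule.span R (Set.range y) = M.hodge a := by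
  by_cases h : ∃ a, 2 * a = w
  · obtain ⟨a, ha⟩ := h
    obtain ⟨y, h1, h2⟩ := M.middle a ha
    refine ⟨y, h1, ?_⟩
    intro a' ha'
    have : a' = a := by omega
    rw [this, h2]
  · refine ⟨0, ?_, ?_⟩
    · intro j
      simp
    · intro a ha
      exact absurd ⟨a, ha⟩ h

/-- the middle vectors `y_j` -/
noncomputable def y : Fin σ.m ⊕ Fin σ.r → σ.Idx → R := M.exists_y.choose

theorem frob_y (j : Fin σ.m ⊕ Fin σ.r) :
    (frob R σ).mulVec (M.y j) = ((σ.sgn (Sum.inr j) : ℤ) : R) • M.y j :=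
  M.exists_y.choose_spec.1 j

theorem span_y (a : ℤ) (ha : 2 * a = w) : Submodule.span R (Set.range M.y) = M.hodge a :=
  M.exists_y.choose_spec.2 a ha

theorem y_mem (j : Fin σ.m ⊕ Fin σ.r) : M.y j ∈ M.hodge (w / 2) := by
  rw [← M.span_y (w / 2) (M.two_mid j)]
  exact Submodule.subset_span ⟨j, rfl⟩

/-- the matrix with columns `z_j`, `F z_j`, `y_j` -/
noncomputable def Z : Matrix σ.Idx σ.Idx R :=
  (Matrix.of (Sum.elim (Sum.elim M.z (fun j => (frob R σ) *ᵥ M.z j)) M.y))ᵀ

/-- the columns of `Z` -/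
theorem Z_col (j : σ.Idx) : (fun k => M.Z k j) =
    Sum.elim (Sum.elim M.z (fun j => (frob R σ) *ᵥ M.z j)) M.y j := rfl

theorem frob_mul_Z : frob R σ * M.Z = M.Z * swapM R σ := by
  have hcol : ∀ (A : Matrix σ.Idx σ.Idx R) (i j : σ.Idx), (A * M.Z) i j =
      (A *ᵥ (fun k => M.Z k j)) i := by
    intro A i j
    rfl
  ext i j
  rw [hcol, M.Z_col]
  rcases j with (j | j) | j
  · simp only [Matrix.mul_apply, Fintype.sum_sum_type, swapM, fromBlocks_apply₁₁,
      fromBlocks_apply₂₁, Matrix.zero_apply, mul_zero, Finset.sum_const_zero, zero_add, add_zero,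
      Matrix.one_apply, mul_ite, mul_one, Sum.elim_inl]
    rw [Finset.sum_ite_eq' Finset.univ j]
    simp [Z]
  · simp only [Sum.elim_inl, Sum.elim_inr]
    rw [frob_mulVec_frob_mulVec]
    simp only [Matrix.mul_apply, Fintype.sum_sum_type, swapM, fromBlocks_apply₁₁,
      fromBlocks_apply₂₁, fromBlocks_apply₁₂, fromBlocks_apply₂₂,
      Matrix.zero_apply, mul_zero, Finset.sum_const_zero, zero_add, add_zero,
      Matrix.one_apply, mul_ite, mul_one]
    rw [Finset.sum_ite_eq' Finset.univ j]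
    simp [Z]
  · simp only [Sum.elim_inr]
    rw [M.frob_y]
    simp only [Matrix.mul_apply, Pi.smul_apply, smul_eq_mul]
    rw [Finset.sum_eq_single (Sum.inr j)]
    · simp only [swapM, fromBlocks_apply₂₂, diagonal_apply_eq]
      have h1 : M.Z i (Sum.inr j) = M.y j i := rfl
      rw [h1]
      rcases j with j | j <;> simp [Shape.sgn]
    · intro k _ hk
      rcases k with k | k
      · simp [swapM]
      · have : k ≠ j := by
          rintro rfl
          exact hk rfl
        simp [swapM, diagonal_apply_ne _ this]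
    · simp

/-- the parabolic factor -/
noncomputable def b : Matrix σ.Idx σ.Idx R := M.comp * M.Z

theorem b_col (i j : σ.Idx) : M.b i j = (M.comp *ᵥ
    Sum.elim (Sum.elim M.z (fun j => (frob R σ) *ᵥ M.z j)) M.y j) i := by
  rw [← M.Z_col]
  rfl

theorem frob_z_mem (j : Fin σ.n) : frob R σ *ᵥ M.z j ∈ M.hodge (w - M.p j) := by
  rw [← M.frob_hodge]
  exact ⟨M.z j, M.z_mem j, rfl⟩

theorem b_parabolic (i j : σ.Idx) (hij : M.hodgeIdx i < M.hodgeIdx j) : M.b i j = 0 := by
  have key : ∀ x : σ.Idx → R, x ∈ M.hodge (M.hodgeIdx j) → (M.comp *ᵥ x) i = 0 := by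
    intro x hx
    have h1 : x ∈ M.up (M.hodgeIdx j) := M.hodge_le_up le_rfl hx
    rw [mem_up_iff] at h1
    exact h1 i hij
  rw [b_col]
  apply key
  rcases j with (j | j) | j
  · exact M.z_mem j
  · exact M.frob_z_mem j
  · exact M.y_mem j

/-- the range of `Z` -/
noncomputable def V : Submodule R (σ.Idx → R) := LinearMap.range M.Z.mulVecLin

theorem frob_mem_V {x : σ.Idx → R} (hx : x ∈ M.V) : frob R σ *ᵥ x ∈ M.V := by
  obtain ⟨y, rfl⟩ := hx
  refine ⟨swapM R σ *ᵥ y, ?_⟩
  simp only [mulVecLin_apply, mulVec_mulVec]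
  rw [frob_mul_Z]

theorem col_mem_V (j : σ.Idx) : (fun k => M.Z k j) ∈ M.V := by
  refine ⟨Pi.single j 1, ?_⟩
  ext k
  simp

theorem z_mem_V (j : Fin σ.n) : M.z j ∈ M.V := M.col_mem_V (Sum.inl (Sum.inl j))

theorem y_mem_V (j : Fin σ.m ⊕ Fin σ.r) : M.y j ∈ M.V := M.col_mem_V (Sum.inr j)

theorem single_mem_aux (B : ℤ) (hB : ∀ j, M.p j ≤ B) : ∀ N : ℕ, ∀ j : Fin σ.n,
    B - M.p j ≤ N → M.comp⁻¹ *ᵥ (Pi.single (Sum.inl (Sum.inl j)) 1 : σ.Idx → R) ∈ M.V := by
  intro N
  induction N using Nat.strong_induction_on with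
  | _ N ih =>
    intro j hj
    let y : σ.Idx → R := Pi.single (Sum.inl (Sum.inl j)) 1 - M.comp *ᵥ M.z j
    have hy : ∀ i, M.hodgeIdx i < M.p j + 1 → y i = 0 := by
      intro i hi
      simp only [y, Pi.sub_apply]
      rw [M.z_spec j i hi, sub_self]
    have hyV : M.comp⁻¹ *ᵥ y ∈ M.V := by
      have hdec : y = ∑ i, y i • (Pi.single i 1 : σ.Idx → R) := by
        exact pi_eq_sum_univ' y
      rw [hdec, mulVec_sum]
      apply Submodule.sum_mem
      intro i _
      rw [mulVec_smul]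
      by_cases hi : M.hodgeIdx i < M.p j + 1
      · rw [hy i hi, zero_smul]
        exact Submodule.zero_mem _
      · apply Submodule.smul_mem
        rcases i with (i | i) | i
        · have hi' : M.p j + 1 ≤ M.p i := by
            rw [M.hodgeIdx_hi] at hi
            omega
          have h1 := hB i
          have h2 := hB j
          apply ih (B - M.p i).toNat
          · omega
          · omega
        · exfalso
          rw [M.hodgeIdx_lo] at hi
          have h2 := M.two_p i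
          have h3 := M.two_p j
          omega
        · exfalso
          rw [M.hodgeIdx_mid] at hi
          have h2 := M.two_mid i
          have h3 := M.two_p j
          omega
    have hfin : (Pi.single (Sum.inl (Sum.inl j)) 1 : σ.Idx → R) = M.comp *ᵥ M.z j + y := by
      simp [y]
    rw [hfin, mulVec_add, mulVec_mulVec, nonsing_inv_mul _ M.comp_unit, one_mulVec]
    exact Submodule.add_mem _ (M.z_mem_V j) hyV

theorem up_le_V {a : ℤ} (ha : w < 2 * a) : M.up a ≤ M.V := by
  intro x hx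
  rw [mem_up_iff] at hx
  obtain ⟨B, hB⟩ : ∃ B : ℤ, ∀ j, M.p j ≤ B := by
    rcases isEmpty_or_nonempty (Fin σ.n) with h | h
    · exact ⟨0, fun j => (h.false j).elim⟩
    · exact ⟨Finset.univ.sup' Finset.univ_nonempty M.p,
        fun j => Finset.le_sup' M.p (Finset.mem_univ j)⟩
  have h1 : x = M.comp⁻¹ *ᵥ (M.comp *ᵥ x) := by
    rw [mulVec_mulVec, nonsing_inv_mul _ M.comp_unit, one_mulVec]
  rw [h1]
  have hdec : M.comp *ᵥ x = ∑ i, (M.comp *ᵥ x) i • (Pi.single i 1 : σ.Idx → R) :=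
    pi_eq_sum_univ' _
  rw [hdec, mulVec_sum]
  apply Submodule.sum_mem
  intro i _
  rw [mulVec_smul]
  rcases i with (i | i) | i
  · apply Submodule.smul_mem
    exact M.single_mem_aux B hB (B - M.p i).toNat i (by have := hB i; omega)
  · rw [hx (Sum.inl (Sum.inr i)), zero_smul]
    · exact Submodule.zero_mem _
    · have := M.two_p i
      rw [M.hodgeIdx_lo]
      omega
  · rw [hx (Sum.inr i), zero_smul]
    · exact Submodule.zero_mem _
    · have := M.two_mid i
      rw [M.hodgeIdx_mid]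
      omega

theorem hodge_le_V (a : ℤ) : M.hodge a ≤ M.V := by
  rcases lt_trichotomy w (2 * a) with h | h | h
  · exact le_trans (M.hodge_le_up le_rfl) (M.up_le_V h)
  · rw [← M.span_y a h.symm]
    apply Submodule.span_le.mpr
    rintro _ ⟨j, rfl⟩
    exact M.y_mem_V j
  · intro x hx
    have h1 : frob R σ *ᵥ x ∈ M.hodge (w - a) := by
      rw [← M.frob_hodge]
      exact ⟨x, hx, rfl⟩
    have h2 : frob R σ *ᵥ x ∈ M.V :=
      M.up_le_V (a := w - a) (by omega) (M.hodge_le_up le_rfl h1)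
    have h3 := M.frob_mem_V h2
    rwa [frob_mulVec_frob_mulVec] at h3

theorem V_eq_top : M.V = ⊤ := by
  rw [eq_top_iff, ← M.internal.submodule_iSup_eq_top]
  exact iSup_le M.hodge_le_V

theorem isUnit_det_Z : IsUnit M.Z.det := by
  rw [← isUnit_iff_isUnit_det, ← mulVec_surjective_iff_isUnit]
  intro y
  have h1 : y ∈ M.V := by
    rw [V_eq_top]
    trivial
  exact h1

theorem isUnit_det_b : IsUnit M.b.det := by
  unfold b
  rw [det_mul]
  exact M.comp_unit.mul M.isUnit_det_Z

/-- Factorisation of the comparison matrix: parabolic times split times block diagonal. -/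
theorem exists_factor (h2 : IsUnit (2 : R)) : ∃ h : Matrix σ.Idx σ.Idx R, IsUnit h.det ∧
    (∀ i j, σ.sgn i ≠ σ.sgn j → h i j = 0) ∧ M.comp = M.b * gz R σ * h := by
  have hZ := M.isUnit_det_Z
  have hg := isUnit_det_gz (σ := σ) h2
  have hZg : IsUnit (M.Z * gz R σ).det := by
    rw [det_mul]
    exact hZ.mul hg
  have hcomm : frob R σ * (M.Z * gz R σ) = (M.Z * gz R σ) * frob R σ := by
    rw [← Matrix.mul_assoc, frob_mul_Z, Matrix.mul_assoc, swapM_mul_gz, ← Matrix.mul_assoc]
  let h := (M.Z * gz R σ)⁻¹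
  have hcomm' : frob R σ * h = h * frob R σ := by
    have e1 : h * (frob R σ * (M.Z * gz R σ)) * h = h * ((M.Z * gz R σ) * frob R σ) * h := by
      rw [hcomm]
    rw [Matrix.mul_assoc, Matrix.mul_assoc (frob R σ), mul_nonsing_inv _ hZg, Matrix.mul_one,
      ← Matrix.mul_assoc h, nonsing_inv_mul _ hZg, Matrix.one_mul] at e1
    exact e1.symm
  have hdet : IsUnit h.det := by
    simp only [h]
    rw [det_nonsing_inv]
    exact hZg.ringInverse
  refine ⟨h, hdet, block_of_commute h2 h hcomm', ?_⟩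
  unfold b
  rw [Matrix.mul_assoc M.comp, Matrix.mul_assoc, mul_nonsing_inv _ hZg, Matrix.mul_one]

theorem z_unique (a : ℤ) (i : M.Block a) (z : σ.Idx → R) (h1 : z ∈ M.hodge (w - a))
    (h2 : ∀ j : σ.Idx, M.hodgeIdx j ≤ w - a →
      M.comp.mulVec z j = if j = Sum.inl (Sum.inl i.1) then 1 else 0) :
    z = M.z i.1 := by
  have hp : M.p i.1 = w - a := by
    have := i.2
    omega
  have h3 : z - M.z i.1 ∈ M.hodge (w - a) := by
    apply Submodule.sub_mem _ h1
    rw [← hp]
    exact M.z_mem i.1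
  have h4 : z - M.z i.1 ∈ M.up (w - a + 1) := by
    rw [M.mem_up_iff]
    intro j hj
    rw [mulVec_sub, Pi.sub_apply, h2 j (by omega), M.z_spec i.1 j (by omega)]
    by_cases h : j = Sum.inl (Sum.inl i.1)
    · subst h
      simp
    · rw [if_neg h, Pi.single_eq_of_ne h, sub_self]
  have h5 := (M.internal.submodule_iSupIndep) (w - a)
  have h6 : M.up (w - a + 1) ≤ ⨆ j, ⨆ (_ : j ≠ w - a), M.hodge j := by
    unfold Datum.up
    apply iSup₂_le
    intro b hb
    exact le_iSup₂_of_le b (by omega) le_rfl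
  have h7 := Submodule.disjoint_def.mp h5 _ h3 (h6 h4)
  exact sub_eq_zero.mp h7

/-- the block of Hodge index `a < w/2` of `b` -/
noncomputable def lowBlock (a : ℤ) : Matrix (M.Block a) (M.Block a) R :=
  Matrix.of fun i j => M.b (Sum.inl (Sum.inr i.1)) (Sum.inl (Sum.inr j.1))

theorem hodgePeriod_eq (a : ℤ) (q : R) (h : M.IsHodgePeriod a q) : q = (M.lowBlock a).det := by
  obtain ⟨z, h1, h2, rfl⟩ := h
  congr 1
  ext1 i j
  simp only [Matrix.of_apply, lowBlock]
  rw [M.b_col, M.z_unique a j (z j) (h1 j) (h2 j)]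
  rfl

theorem isHodgePeriod_block (a : ℤ) : M.IsHodgePeriod a (M.lowBlock a).det := by
  refine ⟨fun i => M.z i.1, ?_, ?_, ?_⟩
  · intro i
    have hp : M.p i.1 = w - a := by
      have := i.2
      omega
    rw [← hp]
    exact M.z_mem i.1
  · intro i j hj
    have hp : M.p i.1 = w - a := by
      have := i.2
      omega
    rw [M.z_spec i.1 j (by omega), Pi.single_apply]
  · congr 1

end Datum

end Pool.Agent.MP100fe7T
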