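import Pool.Agent.Lib.MP_100fe7_nt.TCut

/-!
The closed formula for the Deligne periods of `ρ(M)`.
-/

set_option linter.unusedSectionVars false

namespace Pool.Agent.MP100fe7T

open Matrix

variable {E : Type} [Field E] {ι : Type} [Fintype ι] [DecidableEq ι]
  {σ : ι → Shape} {κ : Type} [Fintype κ] [DecidableEq κ] (ρ : Rep E σ κ)

namespace Rep

/-- the sign of the twist -/
def tau : ℤ := ∏ q : Tot σ, sgnT σ q ^ ρ.twist q.1

theorem sgn_eq_tau (s : κ) : ρ.sgn s = ρ.tau * ρ.sgP s := by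
  unfold sgn tau sgP sgnT
  rw [← Finset.prod_mul_distrib]
  apply Finset.prod_congr rfl
  intro q _
  rw [pow_add, mul_comm]

theorem tau_sq : ρ.tau * ρ.tau = 1 := by
  unfold tau
  rw [← Finset.prod_mul_distrib]
  apply Finset.prod_eq_one
  intro q _
  rw [← mul_pow]
  unfold sgnT
  rw [sgn_sq, one_pow]

theorem tau_cases : ρ.tau = 1 ∨ ρ.tau = -1 := by
  have h := ρ.tau_sq
  have h2 : (ρ.tau - 1) * (ρ.tau + 1) = 0 := by linear_combination h
  rcases mul_eq_zero.mp h2 with h3 | h3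
  · left
    linarith
  · right
    linarith

theorem sgn_eq_iff (ε : ℤ) (s : κ) : ρ.sgn s = ε ↔ ρ.sgP s = ρ.tau * ε := by
  rw [sgn_eq_tau]
  constructor
  · intro h
    rw [← h, ← mul_assoc, tau_sq, one_mul]
  · intro h
    rw [h, ← mul_assoc, tau_sq, one_mul]

theorem tau_mul_cases {ε : ℤ} (hε : ε = 1 ∨ ε = -1) : ρ.tau * ε = 1 ∨ ρ.tau * ε = -1 := by
  rcases ρ.tau_cases with h | h <;> rcases hε with rfl | rfl <;> rw [h] <;> norm_num

theorem prod_det_frob (S : Type) [CommRing S] :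
    ∏ i, (frob S (σ i)).det ^ ρ.twist i = ((ρ.tau : ℤ) : S) := by
  unfold tau
  rw [Fintype.prod_sigma]
  push_cast
  apply Finset.prod_congr rfl
  intro i _
  unfold frob
  rw [det_diagonal, ← Finset.prod_pow]
  rfl

theorem ev_frob : ρ.ev E (fun i => frob E (σ i)) = diagonal fun s => ((ρ.sgn s : ℤ) : E) := by
  unfold ev
  rw [prod_det_frob, Ring.inverse_eq_inv']
  have h1 : evalMat ρ.mat E (fun i => frob E (σ i)) =
      diagonal fun s => ((ρ.sgP s : ℤ) : E) := ρ.pol_ffrob E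
  rw [h1, ← diagonal_smul]
  congr 1
  funext s
  rw [Pi.smul_apply, smul_eq_mul, sgn_eq_tau]
  push_cast
  congr 1
  rcases ρ.tau_cases with h | h <;> rw [h] <;> simp

theorem frob_eigen [CharZero E] (ε : ℤ) (v : κ → E) :
    (ρ.ev E fun i => frob E (σ i)).mulVec v = (ε : E) • v ↔
      ∀ s, ¬ ρ.sgn s = ε → v s = 0 := by
  rw [ev_frob]
  constructor
  · intro h s hs
    have h1 := congrFun h s
    rw [mulVec_diagonal, Pi.smul_apply, smul_eq_mul] at h1
    have h2 : ((ρ.sgn s - ε : ℤ) : E) * v s = 0 := by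
      push_cast
      linear_combination h1
    rcases mul_eq_zero.mp h2 with h3 | h3
    · exfalso
      apply hs
      have := Int.cast_eq_zero.mp h3
      omega
    · exact h3
  · intro h
    funext s
    rw [mulVec_diagonal, Pi.smul_apply, smul_eq_mul]
    by_cases hs : ρ.sgn s = ε
    · rw [hs]
    · rw [h s hs, mul_zero, mul_zero]

variable {R : Type} [CommRing R] {w : ι → ℤ} (M : ∀ i, Datum R (σ i) (w i))

/-- the shift of the heights by the twist -/
def shift : ℤ := ∑ q : Tot σ, (ρ.twist q.1 : ℤ) * hiT M q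

theorem hodgeIdx_eq (s : κ) : ρ.hodgeIdx M s = ρ.height (hiT M) s - ρ.shift M := by
  unfold hodgeIdx height shift weight hiT
  rw [← Finset.sum_sub_distrib]
  apply Finset.sum_congr rfl
  intro q _
  ring

theorem two_shift : 2 * ρ.shift M = ∑ i, (ρ.twist i : ℤ) * Fintype.card (σ i).Idx * w i := by
  unfold shift
  rw [Fintype.sum_sigma, Finset.mul_sum]
  apply Finset.sum_congr rfl
  intro i _
  simp only
  rw [← Finset.mul_sum]
  have h1 : 2 * ∑ j, hiT M ⟨i, j⟩ = Fintype.card (σ i).Idx * w i := by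
    rw [Fintype.sum_sum_type, Fintype.sum_sum_type]
    have h2 : ∀ j, hiT M ⟨i, Sum.inl (Sum.inl j)⟩ = (M i).p j := fun j => rfl
    have h3 : ∀ j, hiT M ⟨i, Sum.inl (Sum.inr j)⟩ = w i - (M i).p j := fun j => rfl
    have h4 : ∀ j, 2 * hiT M ⟨i, Sum.inr j⟩ = w i := fun j => (M i).two_mid j
    simp only [h2, h3]
    rw [Finset.sum_sub_distrib, mul_add, Finset.mul_sum (f := fun j => hiT M ⟨i, Sum.inr j⟩)]
    simp only [h4]
    simp only [Finset.sum_const, Finset.card_univ, Fintype.card_sum, Fintype.card_fin,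
      nsmul_eq_mul]
    push_cast
    ring
  linear_combination (ρ.twist i : ℤ) * h1

theorem motWeight_eq : ρ.motWeight w = (∑ i, (ρ.deg i : ℤ) * w i) - 2 * ρ.shift M := by
  rw [two_shift]
  unfold motWeight
  rw [← Finset.sum_sub_distrib]
  apply Finset.sum_congr rfl
  intro i _
  ring

/-- the twisting factor -/
noncomputable def lam : R := Ring.inverse (∏ i, (M i).comp.det ^ ρ.twist i)

variable [CharZero E] [Algebra E R]

theorem isPeriod_iff (ε : ℤ) (x : R) : ρ.IsPeriod M (ε : E) x ↔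
    ∃ a : ℤ, IsPer E (fun s => ρ.hodgeIdx M s < a) (fun s => ρ.sgn s = ε)
      (ρ.lam M • ρ.pol R fun i => (M i).comp) x := by
  unfold IsPeriod IsPer
  constructor
  · rintro ⟨a, d, A, B, h1, h2, h3, h4, h5⟩
    refine ⟨a, d, A, B, h1, ?_, h3, h4, h5⟩
    intro v
    rw [h2, frob_eigen]
  · rintro ⟨a, d, A, B, h1, h2, h3, h4, h5⟩
    refine ⟨a, d, A, B, h1, ?_, h3, h4, h5⟩
    intro v
    rw [h2, frob_eigen]

theorem card_signPart (ε : ℤ) :
    (ρ.signPart ε).card = Fintype.card {s // ρ.sgP s = ρ.tau * ε} := by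
  rw [Fintype.card_subtype]
  unfold signPart
  congr 1
  apply Finset.filter_congr
  intro s _
  exact ρ.sgn_eq_iff ε s

theorem card_lowPart (a : ℤ) :
    (ρ.lowPart M a).card = Fintype.card {s // ρ.height (hiT M) s < a + ρ.shift M} := by
  rw [Fintype.card_subtype]
  unfold lowPart
  congr 1
  apply Finset.filter_congr
  intro s _
  rw [ρ.hodgeIdx_eq M]
  omega

/-- without middle classes, the step of the filtration is the one of the problem -/
theorem isStep_of_noMiddle (hmid : ρ.NoMiddle M) {ε : ℤ} (hε : ε = 1 ∨ ε = -1) :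
    ρ.IsStep M ε ((ρ.motWeight w + 1) / 2) := by
  unfold IsStep
  rw [card_signPart, card_lowPart, card_sgP_eq ρ M _ _ (ρ.tau_mul_cases hε)]
  · apply Fintype.card_congr
    apply Equiv.subtypeEquivRight
    intro s
    have h1 := ρ.motWeight_eq M
    omega
  · intro s
    have h1 := ρ.motWeight_eq M
    have h2 := hmid s
    have h3 := ρ.hodgeIdx_eq M s
    omega

theorem exists_period (a : ℤ) (ε : ℤ) (hst : ρ.IsStep M ε a) :
    ∃ x : R, ρ.IsPeriod M (ε : E) x := by
  have ha : Fintype.card {s // ρ.hodgeIdx M s < a} = Fintype.card {s // ρ.sgn s = ε} := by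
    rw [Fintype.card_subtype, Fintype.card_subtype]
    exact hst
  let ψ : Fin (Fintype.card {s // ρ.hodgeIdx M s < a}) ≃ {s // ρ.hodgeIdx M s < a} :=
    (Fintype.equivFin _).symm
  let φ : Fin (Fintype.card {s // ρ.hodgeIdx M s < a}) ≃ {s // ρ.sgn s = ε} :=
    (finCongr ha).trans (Fintype.equivFin _).symm
  exact ⟨_, (ρ.isPeriod_iff M ε _).mpr ⟨a, isPer_of_coords _ _ _ ψ φ⟩⟩

/-- reduction to the polynomial part -/
theorem period_pol (a : ℤ) (ε : ℤ) (hst : ρ.IsStep M ε a) {x : R}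
    (hx : ρ.IsPeriod M (ε : E) x) : ∃ (e : Eˣ) (x₀ : R),
      IsPer E (fun s => ρ.height (hiT M) s < a + ρ.shift M) (fun s => ρ.sgP s = ρ.tau * ε)
        (ρ.pol R fun i => (M i).comp) x₀ ∧
      x = algebraMap E R e * ρ.lam M ^ (ρ.signPart ε).card * x₀ := by
  rw [isPeriod_iff] at hx
  obtain ⟨a', hx⟩ := hx
  obtain ⟨d, ψ, φ, e, rfl⟩ := hx.coords
  have hd : d = (ρ.signPart ε).card := by
    rw [card_signPart]
    have h1 := Fintype.card_congr φ
    rw [Fintype.card_fin] at h1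
    rw [h1]
    apply Fintype.card_congr
    apply Equiv.subtypeEquivRight
    intro s
    exact ρ.sgn_eq_iff ε s
  have hc : Fintype.card {s // ρ.hodgeIdx M s < a'} = Fintype.card {s // ρ.hodgeIdx M s < a} := by
    have h1 := Fintype.card_congr ψ
    rw [Fintype.card_fin, hd] at h1
    rw [← h1, Fintype.card_subtype]
    exact hst.symm
  have hlo : ∀ s, ρ.hodgeIdx M s < a' ↔ ρ.height (hiT M) s < a + ρ.shift M := by
    intro s
    rw [lo_unique _ _ _ hc s, ρ.hodgeIdx_eq M]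
    omega
  let ψ' : Fin d ≃ {s // ρ.height (hiT M) s < a + ρ.shift M} :=
    ψ.trans (Equiv.subtypeEquivRight hlo)
  let φ' : Fin d ≃ {s // ρ.sgP s = ρ.tau * ε} :=
    φ.trans (Equiv.subtypeEquivRight (ρ.sgn_eq_iff ε))
  refine ⟨e, _, isPer_of_coords _ _ (ρ.pol R fun i => (M i).comp) ψ' φ', ?_⟩
  rw [Matrix.submatrix_smul, Pi.smul_apply, Pi.smul_apply, det_smul, Fintype.card_fin, ← hd,
    mul_assoc]
  rfl

end Rep

end Pool.Agent.MP100fe7T
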