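import Pool.Agent.Lib.MP_100fe7_nt.TRep

/-!
Characters of Levi subgroups: the determinant of `ρ(l)` on a stable coordinate subspace, for `l` in
a product of block diagonal groups, is a product of powers of the determinants of the blocks.
-/

set_option linter.unusedSectionVars false

namespace Pool.Agent.MP100fe7T

open Matrix

variable {E : Type} [Field E] {ι : Type} [Fintype ι] [DecidableEq ι] {σ : ι → Shape} {κ : Type}
  [Fintype κ] [DecidableEq κ]

/-- block diagonal families with respect to the colouring `cl` -/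
def IsLevi {S : Type} [CommRing S] (cl : Tot σ → ℤ) (l : Fam σ S) : Prop :=
  ∀ i j j', cl ⟨i, j⟩ ≠ cl ⟨i, j'⟩ → l i j j' = 0

/-- the block of colour `c` of the `i`-th matrix -/
def blk {S : Type} (cl : Tot σ → ℤ) (l : Fam σ S) (i : ι) (c : ℤ) :
    Matrix {j : (σ i).Idx // cl ⟨i, j⟩ = c} {j : (σ i).Idx // cl ⟨i, j⟩ = c} S :=
  (l i).submatrix Subtype.val Subtype.val

/-- the colours of the `i`-th index set -/
def colors (cl : Tot σ → ℤ) (i : ι) : Finset ℤ := Finset.univ.image fun j => cl ⟨i, j⟩

/-- one block, extended by the identity -/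
def single {S : Type} [CommRing S] (cl : Tot σ → ℤ) (i : ι) (c : ℤ)
    (A : Matrix {j : (σ i).Idx // cl ⟨i, j⟩ = c} {j : (σ i).Idx // cl ⟨i, j⟩ = c} S) : Fam σ S :=
  Pi.mulSingle i (emb (fun j => cl ⟨i, j⟩ = c) A)

section single

variable {S : Type} [CommRing S] (cl : Tot σ → ℤ) (i : ι) (c : ℤ)

theorem single_mul (A B : Matrix {j : (σ i).Idx // cl ⟨i, j⟩ = c} {j : (σ i).Idx // cl ⟨i, j⟩ = c} S) :
    single cl i c (A * B) = single cl i c A * single cl i c B := by
  unfold single
  rw [emb_mul, Pi.mulSingle_mul]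

theorem single_one : single cl i c
    (1 : Matrix {j : (σ i).Idx // cl ⟨i, j⟩ = c} {j : (σ i).Idx // cl ⟨i, j⟩ = c} S) = 1 := by
  unfold single
  rw [emb_one, Pi.mulSingle_one]

theorem single_map [Algebra E S] {S' : Type} [CommRing S'] [Algebra E S'] (φ : S →ₐ[E] S')
    (A : Matrix {j : (σ i).Idx // cl ⟨i, j⟩ = c} {j : (σ i).Idx // cl ⟨i, j⟩ = c} S) :
    Fam.map' (single cl i c A) φ = single cl i c (A.map φ) := by
  funext i'
  by_cases h : i' = i
  · subst h
    simp only [Fam.map', single, Pi.mulSingle_eq_same]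
    rw [emb_map]
  · simp only [Fam.map', single, Pi.mulSingle_eq_of_ne h]
    exact Matrix.map_one _ (map_zero _) (map_one _)

theorem single_levi (A : Matrix {j : (σ i).Idx // cl ⟨i, j⟩ = c} {j : (σ i).Idx // cl ⟨i, j⟩ = c} S) :
    IsLevi cl (single cl i c A) := by
  intro i' j j' hne
  by_cases h : i' = i
  · subst h
    simp only [single, Pi.mulSingle_eq_same]
    by_cases hj : cl ⟨i', j⟩ = c
    · apply emb_pos_neg (fun j => cl ⟨i', j⟩ = c) _ hj
      intro hj'
      exact hne (hj.trans hj'.symm)
    · rw [emb_neg (fun j => cl ⟨i', j⟩ = c) _ hj, if_neg]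
      rintro rfl
      exact hne rfl
  · simp only [single, Pi.mulSingle_eq_of_ne h]
    apply Matrix.one_apply_ne
    rintro rfl
    exact hne rfl

theorem single_diag (x : (σ i).Idx → S) :
    single cl i c (diagonal fun j => x j.1) =
      fdiag (fun q => if h : q.1 = i then (if cl q = c then x (h ▸ q.2) else 1) else 1) := by
  funext i'
  by_cases h : i' = i
  · subst h
    simp only [single, Pi.mulSingle_eq_same, fdiag]
    rw [emb_diagonal (fun j => cl ⟨i', j⟩ = c) x]
    simp
  · simp only [single, Pi.mulSingle_eq_of_ne h, fdiag, dif_neg h]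
    exact diagonal_one.symm

end single

variable (ρ : Rep E σ κ) (L : κ → Prop) [DecidablePred L]

section char

variable [CharZero E] (cl : Tot σ → ℤ)
  (hL : ∀ (S : Type) [CommRing S] [Algebra E S] (l : Fam σ S), IsLevi cl l →
    ∀ s t, L s → ¬ L t → ρ.pol S l s t = 0)

/-- the action of one block -/
noncomputable def famOf (i : ι) (c : ℤ) :
    MP100fe7.MulFam E {j : (σ i).Idx // cl ⟨i, j⟩ = c} where
  D := fun S _ _ A => detP L (ρ.pol S (single cl i c A))
  nat := by
    intro S S' _ _ _ _ φ A
    rw [← detP_map, ρ.pol_map, single_map]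
  mul := by
    intro S _ _ A B
    rw [single_mul, ρ.pol_mul, detP_mul L _ _ (hL S _ (single_levi cl i c A))]
  one := by
    intro S _ _
    rw [single_one, ρ.pol_one, detP_one]

include hL in
theorem exists_exp (i : ι) (c : ℤ) : ∃ e : ℕ, (∀ (S : Type) [CommRing S] [Algebra E S]
    (A : Matrix {j : (σ i).Idx // cl ⟨i, j⟩ = c} {j : (σ i).Idx // cl ⟨i, j⟩ = c} S),
      detP L (ρ.pol S (single cl i c A)) = A.det ^ e) ∧
    ∀ j, cl ⟨i, j⟩ = c → e = ∑ s with L s, ρ.wt s ⟨i, j⟩ := by
  obtain ⟨e, he⟩ := (famOf ρ L cl hL i c).eq_det_pow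
  refine ⟨e, he, ?_⟩
  intro j hj
  let X : Polynomial E := Polynomial.X
  have h1 := he (Polynomial E) (diagonal fun j' : {j : (σ i).Idx // cl ⟨i, j⟩ = c} =>
    (Function.update (1 : (σ i).Idx → Polynomial E) j X) j'.1)
  change detP L (ρ.pol (Polynomial E) (single cl i c (diagonal fun j' =>
    (Function.update (1 : (σ i).Idx → Polynomial E) j X) j'.1))) = _ at h1
  rw [single_diag, ρ.pol_diag, detP_diagonal, det_diagonal] at h1
  have h2 : ∏ j' : {j : (σ i).Idx // cl ⟨i, j⟩ = c},
      (Function.update (1 : (σ i).Idx → Polynomial E) j X) j'.1 = X := by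
    rw [Finset.prod_eq_single (⟨j, hj⟩ : {j : (σ i).Idx // cl ⟨i, j⟩ = c})]
    · simp
    · intro j' _ hj'
      rw [Function.update_of_ne]
      · rfl
      · intro h
        exact hj' (Subtype.ext h)
    · simp
  rw [h2] at h1
  have h3 : ∀ s, ∏ q : Tot σ, (if h : q.1 = i then (if cl q = c then
      (Function.update (1 : (σ i).Idx → Polynomial E) j X) (h ▸ q.2) else 1) else 1) ^ ρ.wt s q =
      X ^ ρ.wt s ⟨i, j⟩ := by
    intro s
    rw [Finset.prod_eq_single (⟨i, j⟩ : Tot σ)]
    · simp [hj]
    · rintro ⟨i', j'⟩ _ hne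
      by_cases h : i' = i
      · subst h
        simp only [dite_true]
        have : j' ≠ j := by
          rintro rfl
          exact hne rfl
        rw [Function.update_of_ne this]
        simp
      · simp [h]
    · simp
  rw [Finset.prod_congr rfl (fun s _ => h3 s), Finset.prod_pow_eq_pow_sum] at h1
  have h4 := congrArg Polynomial.natDegree h1
  simp only [X, Polynomial.natDegree_X_pow] at h4
  exact h4.symm

/-- part of a block diagonal family -/
def partL {S : Type} [CommRing S] (cl : Tot σ → ℤ) (l : Fam σ S) (T : Finset (Σ _ : ι, ℤ)) :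
    Fam σ S :=
  fun i => Matrix.of fun j j' => if (⟨i, cl ⟨i, j⟩⟩ : Σ _ : ι, ℤ) ∈ T then l i j j'
    else if j = j' then 1 else 0

theorem partL_levi {S : Type} [CommRing S] (cl : Tot σ → ℤ) (l : Fam σ S) (hl : IsLevi cl l)
    (T : Finset (Σ _ : ι, ℤ)) : IsLevi cl (partL cl l T) := by
  intro i j j' hne
  simp only [partL, of_apply]
  split_ifs with h1 h2
  · exact hl i j j' hne
  · subst h2
    exact absurd rfl hne
  · rfl

theorem partL_insert {S : Type} [CommRing S] (cl : Tot σ → ℤ) (l : Fam σ S) (hl : IsLevi cl l)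
    (T : Finset (Σ _ : ι, ℤ)) (i : ι) (c : ℤ) (hic : (⟨i, c⟩ : Σ _ : ι, ℤ) ∉ T) :
    partL cl l (insert ⟨i, c⟩ T) = partL cl l T * single cl i c (blk cl l i c) := by
  funext i'
  by_cases h : i' = i
  · subst h
    simp only [Pi.mul_apply, single, Pi.mulSingle_eq_same]
    ext j j'
    rw [Matrix.mul_apply]
    by_cases hj : cl ⟨i', j⟩ = c
    · rw [Finset.sum_eq_single j]
      · simp only [partL, of_apply]
        rw [if_pos (by rw [hj]; exact Finset.mem_insert_self _ _), if_neg (by rw [hj]; exact hic)]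
        simp only [if_true, one_mul]
        by_cases hj' : cl ⟨i', j'⟩ = c
        · rw [emb_pos (fun j => cl ⟨i', j⟩ = c) _ hj hj']
          rfl
        · rw [emb_pos_neg (fun j => cl ⟨i', j⟩ = c) _ hj hj']
          apply hl
          rw [hj]
          exact Ne.symm hj'
      · intro k _ hk
        simp only [partL, of_apply]
        rw [if_neg (by rw [hj]; exact hic), if_neg (Ne.symm hk), zero_mul]
      · simp
    · rw [Finset.sum_eq_single j']
      · have hmem : ((⟨i', cl ⟨i', j⟩⟩ : Σ _ : ι, ℤ) ∈ insert ⟨i', c⟩ T) ↔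
            ((⟨i', cl ⟨i', j⟩⟩ : Σ _ : ι, ℤ) ∈ T) := by
          rw [Finset.mem_insert]
          constructor
          · rintro (h | h)
            · exfalso
              apply hj
              simpa using h
            · exact h
          · exact Or.inr
        simp only [partL, of_apply, hmem]
        by_cases hj' : cl ⟨i', j'⟩ = c
        · have hne : cl ⟨i', j⟩ ≠ cl ⟨i', j'⟩ := by
            rw [hj']
            exact hj
          have hne' : j ≠ j' := by
            rintro rfl
            exact hne rfl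
          rw [hl i' j j' hne, if_neg hne']
          simp
        · rw [emb_neg (fun j => cl ⟨i', j⟩ = c) _ hj', if_pos rfl, mul_one]
      · intro k _ hk
        by_cases hck : cl ⟨i', k⟩ = c
        · have hne : cl ⟨i', j⟩ ≠ cl ⟨i', k⟩ := by
            rw [hck]
            exact hj
          rw [partL_levi cl l hl T i' j k hne, zero_mul]
        · rw [emb_neg (fun j => cl ⟨i', j⟩ = c) _ hck, if_neg hk, mul_zero]
      · simp
  · simp only [Pi.mul_apply, single, Pi.mulSingle_eq_of_ne h, mul_one]
    ext j j'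
    simp only [partL, of_apply]
    have hmem : ((⟨i', cl ⟨i', j⟩⟩ : Σ _ : ι, ℤ) ∈ insert ⟨i, c⟩ T) ↔
        ((⟨i', cl ⟨i', j⟩⟩ : Σ _ : ι, ℤ) ∈ T) := by
      rw [Finset.mem_insert]
      constructor
      · rintro (h' | h')
        · exfalso
          apply h
          exact congrArg Sigma.fst h'
        · exact h'
      · exact Or.inr
    simp only [hmem]

include hL in
/-- The determinant of `ρ(l)` on the coordinate subspace `L`, for `l` block diagonal. -/
theorem levi_char : ∃ e : ι → ℤ → ℕ,
    (∀ i j, e i (cl ⟨i, j⟩) = ∑ s with L s, ρ.wt s ⟨i, j⟩) ∧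
    ∀ (S : Type) [CommRing S] [Algebra E S] (l : Fam σ S), IsLevi cl l →
      detP L (ρ.pol S l) = ∏ i, ∏ c ∈ colors cl i, (blk cl l i c).det ^ e i c := by
  choose e he1 he2 using exists_exp ρ L cl hL
  refine ⟨e, fun i j => he2 i _ j rfl, ?_⟩
  intro S _ _ l hl
  have key : ∀ T : Finset (Σ _ : ι, ℤ), detP L (ρ.pol S (partL cl l T)) =
      ∏ t ∈ T, (blk cl l t.1 t.2).det ^ e t.1 t.2 := by
    intro T
    induction T using Finset.induction_on with
    | empty =>
      rw [Finset.prod_empty]
      have : partL cl l ∅ = 1 := by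
        funext i
        ext j j'
        simp [partL, Matrix.one_apply]
      rw [this, ρ.pol_one, detP_one]
    | insert t T ht ih =>
      obtain ⟨i, c⟩ := t
      rw [partL_insert cl l hl T i c ht, ρ.pol_mul,
        detP_mul L _ _ (hL S _ (partL_levi cl l hl T)), ih, he1, Finset.prod_insert ht, mul_comm]
  have h1 := key (Finset.univ.sigma fun i => colors cl i)
  have h2 : partL cl l (Finset.univ.sigma fun i => colors cl i) = l := by
    funext i
    ext j j'
    simp only [partL, of_apply]
    rw [if_pos]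
    simp [colors]
  rw [h2, Finset.prod_sigma] at h1
  exact h1

end char

end Pool.Agent.MP100fe7T
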