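import Pool.Agent.Lib.MP_100fe7_nt.TFinal

/-!
The closed formula for the Deligne periods of `ρ(M)`.
-/

set_option linter.unusedSectionVars false

namespace Pool.Agent.MP100fe7T

open Matrix

section cls

variable (E : Type) [Field E] (R : Type) [CommRing R] [Algebra E R]

/-- the subgroup `E^×` of the units -/
def scalars : Subgroup Rˣ := (Units.map (algebraMap E R).toMonoidHom).range

/-- the units modulo `E^×` -/
def Cl : Type := Rˣ ⧸ scalars E R

instance : CommGroup (Cl E R) := inferInstanceAs (CommGroup (Rˣ ⧸ scalars E R))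

variable {R}

/-- classes modulo `E^×` -/
def cls : Rˣ →* Cl E R where
  toFun := fun u => (QuotientGroup.mk u : Rˣ ⧸ scalars E R)
  map_one' := rfl
  map_mul' := fun _ _ => rfl

theorem exists_of_cls_eq {u v : Rˣ} (h : cls E u = cls E v) :
    ∃ e : Eˣ, u = Units.map (algebraMap E R).toMonoidHom e * v := by
  have h0 : (QuotientGroup.mk v : Rˣ ⧸ scalars E R) = QuotientGroup.mk u := h.symm
  have h1 := QuotientGroup.eq.mp h0
  obtain ⟨e, he⟩ := h1
  refine ⟨e, ?_⟩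
  rw [he]
  rw [mul_comm v⁻¹ u, inv_mul_cancel_right]

theorem cls_eq_of_val {u v : Rˣ} (e : Eˣ) (h : (u : R) = algebraMap E R e * v) :
    cls E u = cls E v := by
  have h0 : (QuotientGroup.mk v : Rˣ ⧸ scalars E R) = QuotientGroup.mk u := by
    apply QuotientGroup.eq.mpr
    refine ⟨e, ?_⟩
    have h1 : u = Units.map (algebraMap E R).toMonoidHom e * v := by
      ext
      rw [h]
      rfl
    rw [h1, mul_comm (Units.map _ e) v, inv_mul_cancel_left]
  exact h0.symm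

end cls

section alg

theorem algAdd {G : Type} [AddCommGroup G] (P Q b1 b2 p m : G) (k1 km tw n : ℤ) :
    n • (-(tw • (Q + (b1 + b2) + (p + m)))) + (P + (k1 • b1 + km • b2)) + (k1 • p + km • m) =
      (k1 - tw * n) • (Q + b1 + p) + (km - tw * n) • (Q + b2 + m) +
        (P - (tw * n) • Q - (k1 - tw * n) • Q - (km - tw * n) • Q) := by
  module

theorem algAdd2 {G : Type} [AddCommGroup G] (P Q b p m : G) (k tw n : ℤ) :
    n • (-(tw • (Q + b + (p + m)))) + (P + k • b) + (k • p + k • m) =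
      (k - tw * n) • (Q + b + (p + m)) + (P - (tw * n) • Q - (k - tw * n) • Q) := by
  module

variable {G : Type} [CommGroup G] (L : Finset ℤ) (q : ℤ → G) (b b1 b2 p m D c d : G) (a : ℤ → ℕ)
  (α k1 km tw n : ℕ)

theorem alg_scalar (hD : D = (∏ x ∈ L, q x) * b * (p * m)) (hb : b = b1 * b2)
    (hα : b ^ α = b1 ^ k1 * b2 ^ km) (hc : c = (∏ x ∈ L, q x) * b1 * p)
    (hd : d = (∏ x ∈ L, q x) * b2 * m) :
    ((D ^ tw)⁻¹) ^ n * ((∏ x ∈ L, q x ^ a x) * b ^ α) * (p ^ k1 * m ^ km) =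
      c ^ ((k1 : ℤ) - tw * n) * d ^ ((km : ℤ) - tw * n) *
        ∏ x ∈ L, q x ^ (((a x : ℤ) - tw * n) - ((k1 : ℤ) - tw * n) - ((km : ℤ) - tw * n)) := by
  have h1 : ∏ x ∈ L, q x ^ (((a x : ℤ) - tw * n) - ((k1 : ℤ) - tw * n) - ((km : ℤ) - tw * n)) =
      (∏ x ∈ L, q x ^ a x) / (∏ x ∈ L, q x) ^ ((tw : ℤ) * n) /
        (∏ x ∈ L, q x) ^ ((k1 : ℤ) - tw * n) / (∏ x ∈ L, q x) ^ ((km : ℤ) - tw * n) := by
    rw [← Finset.prod_zpow, ← Finset.prod_zpow, ← Finset.prod_zpow, ← Finset.prod_div_distrib,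
      ← Finset.prod_div_distrib, ← Finset.prod_div_distrib]
    apply Finset.prod_congr rfl
    intro x _
    rw [_root_.zpow_sub, _root_.zpow_sub, _root_.zpow_sub, _root_.zpow_natCast]
    simp only [div_eq_mul_inv]
  rw [h1, hα, hD, hb, hc, hd]
  simp only [← _root_.zpow_natCast ((∏ x ∈ L, q x) * (b1 * b2) * (p * m)) tw,
    ← _root_.zpow_natCast (((∏ x ∈ L, q x) * (b1 * b2) * (p * m)) ^ (tw : ℤ))⁻¹ n,
    ← _root_.zpow_natCast p, ← _root_.zpow_natCast m, ← _root_.zpow_natCast b1, ← _root_.zpow_natCast b2]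
  exact algAdd (G := Additive G) _ _ _ _ _ _ _ _ _ _

theorem alg_nonscalar (hD : D = (∏ x ∈ L, q x) * b * (p * m)) (hα : α = k1) (hk : km = k1) :
    ((D ^ tw)⁻¹) ^ n * ((∏ x ∈ L, q x ^ a x) * b ^ α) * (p ^ k1 * m ^ km) =
      D ^ ((k1 : ℤ) - tw * n) *
        ∏ x ∈ L, q x ^ (((a x : ℤ) - tw * n) - ((k1 : ℤ) - tw * n)) := by
  have h1 : ∏ x ∈ L, q x ^ (((a x : ℤ) - tw * n) - ((k1 : ℤ) - tw * n)) =
      (∏ x ∈ L, q x ^ a x) / (∏ x ∈ L, q x) ^ ((tw : ℤ) * n) /
        (∏ x ∈ L, q x) ^ ((k1 : ℤ) - tw * n) := by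
    rw [← Finset.prod_zpow, ← Finset.prod_zpow, ← Finset.prod_div_distrib,
      ← Finset.prod_div_distrib]
    apply Finset.prod_congr rfl
    intro x _
    rw [_root_.zpow_sub, _root_.zpow_sub, _root_.zpow_natCast]
    simp only [div_eq_mul_inv]
  subst hα hk
  rw [h1, hD]
  simp only [← _root_.zpow_natCast]
  exact algAdd2 (G := Additive G) _ _ _ _ _ _ _ _

end alg

section main

variable {E : Type} [Field E] [CharZero E] {ι : Type} [Fintype ι] [DecidableEq ι]
  {σ : ι → Shape} {κ : Type} [Fintype κ] [DecidableEq κ] (ρ : Rep E σ κ)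
  {R : Type} [CommRing R] [Algebra E R] {w : ι → ℤ} (M : ∀ i, Datum R (σ i) (w i))

theorem det_gz_ne (σ : Shape) : (gz E σ).det ≠ 0 :=
  (isUnit_det_gz (Rep.isUnit_two (E := E) E)).ne_zero

/-- the classes of the periods of one motive with scalar middle part -/
theorem scalar_periods {σ : Shape} {w : ℤ} (M : Datum R σ w) (h : Matrix σ.Idx σ.Idx R)
    (hh : ∀ i j, σ.sgn i ≠ σ.sgn j → h i j = 0) (hM : M.comp = M.b * gz R σ * h)
    (Q b p m : Rˣ) (hQ : (Q : R) = M.dlow) (hb : (b : R) = M.beta)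
    (hp : (p : R) = detP (fun j => σ.sgn j = 1) h) (hm : (m : R) = detP (fun j => σ.sgn j = -1) h)
    (hsc : σ.m = 0 ∨ σ.r = 0) (k1 km α : ℕ) (h1 : σ.m ≠ 0 → α = k1) (h2 : σ.r ≠ 0 → α = km)
    {c d : R} (hc : M.IsPeriod (1 : E) c) (hd : M.IsPeriod (-1 : E) d) :
    ∃ (c' d' : Rˣ) (b1 b2 : Cl E R), (c' : R) = c ∧ (d' : R) = d ∧
      cls E b = b1 * b2 ∧ (cls E b) ^ α = b1 ^ k1 * b2 ^ km ∧
      cls E c' = cls E Q * b1 * cls E p ∧ cls E d' = cls E Q * b2 * cls E m := by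
  have hc' : M.IsPeriod (((1 : ℤ) : E)) c := by simpa using hc
  have hd' : M.IsPeriod (((-1 : ℤ) : E)) d := by simpa using hd
  rcases Nat.eq_zero_or_pos σ.m with hm0 | hm0
  · -- no eigenvalue `1` on the middle part
    have hmid1 : ∀ j, σ.sgn (Sum.inr j) ≠ 1 := by
      rintro (j | j)
      · exact absurd j.2 (by omega)
      · simp [Shape.sgn]
    have hmid2 : ∀ j, σ.sgn (Sum.inr j) = -1 := by
      rintro (j | j)
      · exact absurd j.2 (by omega)
      · simp [Shape.sgn]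
    obtain ⟨e1, he1⟩ := M.period_of_ne (Or.inl rfl) hmid1 h hh hM hc'
    obtain ⟨e2, he2⟩ := M.period_of_eq (Or.inr rfl) hmid2 h hh hM hd'
    have v1 : c = ((Units.map (algebraMap E R).toMonoidHom e1 * (Q * p) : Rˣ) : R) := by
      rw [he1, Units.val_mul, Units.val_mul, hQ, hp, mul_assoc]
      rfl
    have v2 : d = ((Units.map (algebraMap E R).toMonoidHom e2 * (Q * b * m) : Rˣ) : R) := by
      rw [he2, Units.val_mul, Units.val_mul, Units.val_mul, hQ, hm, hb, mul_assoc]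
      rfl
    refine ⟨_, _, 1, cls E b, v1.symm, v2.symm, (one_mul _).symm, ?_, ?_, ?_⟩
    · rw [one_pow, one_mul]
      rcases Nat.eq_zero_or_pos σ.r with hr0 | hr0
      · have : b = 1 := by
          ext
          rw [hb, M.beta_eq_one hm0 hr0]
          rfl
        rw [this, map_one, one_pow, one_pow]
      · rw [h2 hr0.ne']
    · rw [cls_eq_of_val E (v := Q * p) e1 rfl, map_mul, mul_one]
    · rw [cls_eq_of_val E (v := Q * b * m) e2 rfl, map_mul, map_mul]
  · have hr0 : σ.r = 0 := by omega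
    have hmid1 : ∀ j, σ.sgn (Sum.inr j) = 1 := by
      rintro (j | j)
      · simp [Shape.sgn]
      · exact absurd j.2 (by omega)
    have hmid2 : ∀ j, σ.sgn (Sum.inr j) ≠ -1 := by
      rintro (j | j)
      · simp [Shape.sgn]
      · exact absurd j.2 (by omega)
    obtain ⟨e1, he1⟩ := M.period_of_eq (Or.inl rfl) hmid1 h hh hM hc'
    obtain ⟨e2, he2⟩ := M.period_of_ne (Or.inr rfl) hmid2 h hh hM hd'
    have v1 : c = ((Units.map (algebraMap E R).toMonoidHom e1 * (Q * b * p) : Rˣ) : R) := by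
      rw [he1, Units.val_mul, Units.val_mul, Units.val_mul, hQ, hp, hb, mul_assoc]
      rfl
    have v2 : d = ((Units.map (algebraMap E R).toMonoidHom e2 * (Q * m) : Rˣ) : R) := by
      rw [he2, Units.val_mul, Units.val_mul, hQ, hm, mul_assoc]
      rfl
    refine ⟨_, _, cls E b, 1, v1.symm, v2.symm, (mul_one _).symm, ?_, ?_, ?_⟩
    · rw [one_pow, mul_one, h1 hm0.ne']
    · rw [cls_eq_of_val E (v := Q * b * p) e1 rfl, map_mul, map_mul]
    · rw [cls_eq_of_val E (v := Q * m) e2 rfl, map_mul, mul_one]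

/-- The closed formula. -/
theorem closed_formula (ε : ℤ) (hε : ε = 1 ∨ ε = -1) (a₀ : ℤ) (hst : ρ.IsStep M ε a₀) :
    ∃ (A B : ι → ℤ) (S : ι → ℤ → ℤ),
      (∀ i j, (σ i).sgn j = 1 → A i = ∑ s ∈ ρ.signPart ε, ρ.weight s ⟨i, j⟩) ∧
      (∀ i j, (σ i).sgn j = -1 → B i = ∑ s ∈ ρ.signPart ε, ρ.weight s ⟨i, j⟩) ∧
      (∀ i j, S i (w i - (M i).p j) =
        ∑ s ∈ ρ.lowPart M a₀, ρ.weight s ⟨i, Sum.inl (Sum.inr j)⟩) ∧
      (∀ i, (σ i).m ≠ 0 → (σ i).r ≠ 0 → A i = B i) ∧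
      ∀ (x : R) (c d : ι → R) (q : ι → ℤ → R), ρ.IsPeriod M (ε : E) x →
        (∀ i, (σ i).m = 0 ∨ (σ i).r = 0 →
          (M i).IsPeriod (1 : E) (c i) ∧ (M i).IsPeriod (-1 : E) (d i)) →
        (∀ i, ∀ a ∈ (M i).lowIndices, (M i).IsHodgePeriod a (q i a)) →
        ∃ (x' : Rˣ) (c' d' D' : ι → Rˣ) (q' : ι → ℤ → Rˣ) (e : Eˣ),
          (x' : R) = x ∧
          (∀ i, (σ i).m = 0 ∨ (σ i).r = 0 → (c' i : R) = c i ∧ (d' i : R) = d i) ∧
          (∀ i, (D' i : R) = (M i).comp.det) ∧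
          (∀ i, ∀ a ∈ (M i).lowIndices, (q' i a : R) = q i a) ∧
          x' = Units.map (algebraMap E R).toMonoidHom e * ∏ i,
            if (σ i).m = 0 ∨ (σ i).r = 0 then
              c' i ^ A i * d' i ^ B i * ∏ a ∈ (M i).lowIndices, q' i a ^ (S i a - A i - B i)
            else D' i ^ A i * ∏ a ∈ (M i).lowIndices, q' i a ^ (S i a - A i) := by
  have h2 : IsUnit (2 : R) := Rep.isUnit_two (E := E) R
  choose h hhu hh hM using fun i => (M i).exists_factor h2
  have hcard : Fintype.card {s // ρ.height (hiT M) s < a₀ + ρ.shift M} =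
      Fintype.card {s // ρ.sgP s = ρ.tau * ε} := by
    rw [← ρ.card_signPart, ← ρ.card_lowPart]
    exact hst
  have hcut := cut_of_card ρ M (a₀ + ρ.shift M) (ρ.tau * ε) (ρ.tau_mul_cases hε) hcard
  obtain ⟨a, k, ha, hk, hform⟩ := pol_formula ρ M
    (fun s => ρ.height (hiT M) s < a₀ + ρ.shift M) (ρ.tau * ε)
    (fun s t hs ht => by omega) hcut h (fun i j j' hne => hh i j j' hne) hM
  set n := (ρ.signPart ε).card with hn
  -- the sums of the weights
  have hsum : ∀ q : Tot σ, ∑ s ∈ ρ.signPart ε, ρ.weight s q =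
      ((∑ s with ρ.sgP s = ρ.tau * ε, ρ.wt s q : ℕ) : ℤ) - ρ.twist q.1 * n := by
    intro q
    unfold Rep.weight
    rw [Finset.sum_sub_distrib, Finset.sum_const, ← hn, nsmul_eq_mul, mul_comm]
    push_cast
    congr 1
    apply Finset.sum_congr _ (fun _ _ => rfl)
    unfold Rep.signPart
    apply Finset.filter_congr
    intro s _
    exact ρ.sgn_eq_iff ε s
  have hsum2 : ∀ q : Tot σ, ∑ s ∈ ρ.lowPart M a₀, ρ.weight s q =
      ((∑ s with ρ.height (hiT M) s < a₀ + ρ.shift M, ρ.wt s q : ℕ) : ℤ) -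
        ρ.twist q.1 * n := by
    intro q
    unfold Rep.weight
    have hc : (ρ.lowPart M a₀).card = n := hst
    rw [Finset.sum_sub_distrib, Finset.sum_const, hc, nsmul_eq_mul, mul_comm]
    push_cast
    congr 1
    apply Finset.sum_congr _ (fun _ _ => rfl)
    unfold Rep.lowPart
    apply Finset.filter_congr
    intro s _
    rw [ρ.hodgeIdx_eq M]
    omega
  -- the middle exponents
  have hmidk : ∀ i (j : Fin (σ i).m ⊕ Fin (σ i).r), a i (w i / 2) = k i ((σ i).sgn (Sum.inr j)) := by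
    intro i j
    have e1 := ha i (Sum.inr j)
    have e2 := hk i (Sum.inr j)
    have e3 := stab_mid ρ (fun s => ρ.height (hiT M) s < a₀ + ρ.shift M) (ρ.tau * ε) hcut
      (d := Fintype.card {s // ρ.height (hiT M) s < a₀ + ρ.shift M})
      (Fintype.equivFin _).symm ((finCongr hcard).trans (Fintype.equivFin _).symm) i j
    rw [e2, ← e3, ← e1]
    rfl
  have hmk1 : ∀ i, (σ i).m ≠ 0 → a i (w i / 2) = k i 1 := by
    intro i hi
    exact hmidk i (Sum.inl ⟨0, Nat.pos_of_ne_zero hi⟩)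
  have hmk2 : ∀ i, (σ i).r ≠ 0 → a i (w i / 2) = k i (-1) := by
    intro i hi
    exact hmidk i (Sum.inr ⟨0, Nat.pos_of_ne_zero hi⟩)
  refine ⟨fun i => (k i 1 : ℤ) - ρ.twist i * n, fun i => (k i (-1) : ℤ) - ρ.twist i * n,
    fun i x => (a i x : ℤ) - ρ.twist i * n, ?_, ?_, ?_, ?_, ?_⟩
  · intro i j hj
    have e1 := hk i j
    rw [hj] at e1
    beta_reduce
    rw [hsum, e1]
  · intro i j hj
    have e1 := hk i j
    rw [hj] at e1
    beta_reduce
    rw [hsum, e1]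
  · intro i j
    have e1 := ha i (Sum.inl (Sum.inr j))
    rw [hsum2, ← e1]
    rfl
  · intro i hm hr
    have e1 := hmk1 i hm
    have e2 := hmk2 i hr
    simp only
    rw [← e1, ← e2]
  intro x c d q hx hcd hq
  -- units
  have hDu : ∀ i, ∃ u : Rˣ, (u : R) = (M i).comp.det := fun i => (M i).comp_unit
  choose Du hDu using hDu
  have hbu : ∀ i, ∃ u : Rˣ, (u : R) = (M i).beta := fun i => (M i).isUnit_beta
  choose bu hbu using hbu
  have hpm : ∀ i, IsUnit (detP (fun j => (σ i).sgn j = 1) (h i) *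
      detP (fun j => (σ i).sgn j = -1) (h i)) := by
    intro i
    rw [← det_sgn (h i) (hh i)]
    exact hhu i
  have hpu : ∀ i, ∃ u : Rˣ, (u : R) = detP (fun j => (σ i).sgn j = 1) (h i) :=
    fun i => isUnit_of_mul_isUnit_left (hpm i)
  choose pu hpu using hpu
  have hmu : ∀ i, ∃ u : Rˣ, (u : R) = detP (fun j => (σ i).sgn j = -1) (h i) :=
    fun i => isUnit_of_mul_isUnit_right (hpm i)
  choose mu hmu using hmu
  have hqu : ∀ i y, ∃ u : Rˣ, y ∈ (M i).lowIndices → (u : R) = ((M i).lowBlock y).det := by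
    intro i y
    by_cases hy : y ∈ (M i).lowIndices
    · obtain ⟨u, hu⟩ := (M i).isUnit_lowBlock y hy
      exact ⟨u, fun _ => hu⟩
    · exact ⟨1, fun h => absurd h hy⟩
  choose qu hqu using hqu
  have hQ : ∀ i, ((∏ y ∈ (M i).lowIndices, qu i y : Rˣ) : R) = (M i).dlow := by
    intro i
    rw [Units.coe_prod]
    unfold Datum.dlow
    apply Finset.prod_congr rfl
    intro y hy
    exact hqu i y hy
  -- the class of the determinant of the comparison matrix
  have hDcls : ∀ i, cls E (Du i) = (∏ y ∈ (M i).lowIndices, cls E (qu i y)) * cls E (bu i) *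
      (cls E (pu i) * cls E (mu i)) := by
    intro i
    have e0 : (gz R (σ i)).det = algebraMap E R (gz E (σ i)).det := by
      rw [← gz_map (E := E)]
      exact (RingHom.map_det (algebraMap E R) _).symm
    have e1 : (Du i : R) = algebraMap E R (Units.mk0 _ (det_gz_ne (E := E) (σ i)) : Eˣ) *
        (((∏ y ∈ (M i).lowIndices, qu i y) * bu i * (pu i * mu i) : Rˣ) : R) := by
      rw [hDu, hM, det_mul, det_mul, (M i).det_b, det_sgn (h i) (hh i), e0, Units.val_mul,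
        Units.val_mul, Units.val_mul, hQ, hbu, hpu, hmu, Units.val_mk0]
      ring
    rw [cls_eq_of_val E _ e1, map_mul, map_mul, map_mul, map_prod]
  -- the period
  obtain ⟨e1, x₀, hx₀, hxx⟩ := ρ.period_pol M a₀ ε hst hx
  obtain ⟨e2, he2⟩ := hform x₀ hx₀
  have hprod1 : ∀ i, ∏ y ∈ colors (hiT M) i, (blk (hiT M) (fb M) i y).det ^ a i y =
      (∏ y ∈ (M i).lowIndices, ((M i).lowBlock y).det ^ a i y) * (M i).beta ^ a i (w i / 2) :=
    fun i => (M i).prod_colors (a i)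
  have hprod2 : ∀ i, ∏ y ∈ colors (sgnT σ) i, (blk (sgnT σ) h i y).det ^ k i y =
      detP (fun j => (σ i).sgn j = 1) (h i) ^ k i 1 *
        detP (fun j => (σ i).sgn j = -1) (h i) ^ k i (-1) :=
    fun i => prod_sgn_colors (h i) (k i)
  have hlam : ρ.lam M = (((∏ i, Du i ^ ρ.twist i)⁻¹ : Rˣ) : R) := by
    unfold Rep.lam
    rw [← Ring.inverse_unit]
    congr 1
    rw [Units.coe_prod]
    apply Finset.prod_congr rfl
    intro i _
    rw [Units.val_pow_eq_pow_val, hDu]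
  let X : Rˣ := ((∏ i, Du i ^ ρ.twist i)⁻¹) ^ n *
    ((∏ i, ((∏ y ∈ (M i).lowIndices, qu i y ^ a i y) * bu i ^ a i (w i / 2))) *
      ∏ i, (pu i ^ k i 1 * mu i ^ k i (-1)))
  have hX : x = algebraMap E R (e1 * e2 : Eˣ) * (X : R) := by
    have t1 : ((∏ i, ((∏ y ∈ (M i).lowIndices, qu i y ^ a i y) * bu i ^ a i (w i / 2)) : Rˣ) : R) =
        ∏ i, ∏ y ∈ colors (hiT M) i, (blk (hiT M) (fb M) i y).det ^ a i y := by
      rw [Units.coe_prod]
      apply Finset.prod_congr rfl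
      intro i _
      rw [hprod1, Units.val_mul, Units.coe_prod, Units.val_pow_eq_pow_val, hbu]
      congr 1
      apply Finset.prod_congr rfl
      intro y hy
      rw [Units.val_pow_eq_pow_val, hqu i y hy]
    have t2 : ((∏ i, (pu i ^ k i 1 * mu i ^ k i (-1)) : Rˣ) : R) =
        ∏ i, ∏ y ∈ colors (sgnT σ) i, (blk (sgnT σ) h i y).det ^ k i y := by
      rw [Units.coe_prod]
      apply Finset.prod_congr rfl
      intro i _
      rw [hprod2, Units.val_mul, Units.val_pow_eq_pow_val, Units.val_pow_eq_pow_val, hpu, hmu]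
    have t3 : (X : R) = (((∏ i, Du i ^ ρ.twist i)⁻¹ : Rˣ) : R) ^ n *
        ((∏ i, ∏ y ∈ colors (hiT M) i, (blk (hiT M) (fb M) i y).det ^ a i y) *
          ∏ i, ∏ y ∈ colors (sgnT σ) i, (blk (sgnT σ) h i y).det ^ k i y) := by
      simp only [X]
      rw [Units.val_mul, Units.val_mul, Units.val_pow_eq_pow_val, t1, t2]
    rw [hxx, he2, hlam, t3, Units.val_mul, map_mul]
    ring
  let x' : Rˣ := Units.map (algebraMap E R).toMonoidHom (e1 * e2) * X
  have hx' : (x' : R) = x := by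
    rw [hX]
    rfl
  have hclsx : cls E x' = cls E X := cls_eq_of_val E (e1 * e2) rfl
  -- one motive
  have key : ∀ i, ∃ c' d' : Rˣ, ((σ i).m = 0 ∨ (σ i).r = 0 → (c' : R) = c i ∧ (d' : R) = d i) ∧
      ((cls E (Du i) ^ ρ.twist i)⁻¹) ^ n *
        ((∏ y ∈ (M i).lowIndices, cls E (qu i y) ^ a i y) * cls E (bu i) ^ a i (w i / 2)) *
        (cls E (pu i) ^ k i 1 * cls E (mu i) ^ k i (-1)) =
      cls E (if (σ i).m = 0 ∨ (σ i).r = 0 then
        c' ^ ((k i 1 : ℤ) - ρ.twist i * n) * d' ^ ((k i (-1) : ℤ) - ρ.twist i * n) *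
          ∏ y ∈ (M i).lowIndices, qu i y ^ (((a i y : ℤ) - ρ.twist i * n) -
            ((k i 1 : ℤ) - ρ.twist i * n) - ((k i (-1) : ℤ) - ρ.twist i * n))
        else Du i ^ ((k i 1 : ℤ) - ρ.twist i * n) *
          ∏ y ∈ (M i).lowIndices, qu i y ^ (((a i y : ℤ) - ρ.twist i * n) -
            ((k i 1 : ℤ) - ρ.twist i * n))) := by
    intro i
    by_cases hsc : (σ i).m = 0 ∨ (σ i).r = 0
    · obtain ⟨hc, hd⟩ := hcd i hsc
      obtain ⟨c', d', b1, b2, hc', hd', u1, u2, u3, u4⟩ := scalar_periods (M i) (h i) (hh i) (hM i)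
        (∏ y ∈ (M i).lowIndices, qu i y) (bu i) (pu i) (mu i) (hQ i) (hbu i) (hpu i) (hmu i) hsc
        (k i 1) (k i (-1)) (a i (w i / 2)) (hmk1 i) (hmk2 i) hc hd
      refine ⟨c', d', fun _ => ⟨hc', hd'⟩, ?_⟩
      rw [if_pos hsc, map_mul, map_mul, map_zpow, map_zpow, map_prod]
      simp only [map_zpow]
      rw [map_prod] at u3 u4
      exact alg_scalar _ _ _ b1 b2 _ _ _ _ _ _ _ _ _ _ _ (hDcls i) u1 u2 u3 u4
    · refine ⟨1, 1, fun h => absurd h hsc, ?_⟩
      rw [if_neg hsc, map_mul, map_zpow, map_prod]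
      simp only [map_zpow]
      push Not at hsc
      apply alg_nonscalar _ _ _ _ _ _ _ _ _ _ _ _ (hDcls i) (hmk1 i hsc.1)
      rw [← hmk1 i hsc.1, hmk2 i hsc.2]
  choose c' d' hcd' hkey using key
  have hfin : cls E x' = cls E (∏ i, if (σ i).m = 0 ∨ (σ i).r = 0 then
        c' i ^ ((k i 1 : ℤ) - ρ.twist i * n) * d' i ^ ((k i (-1) : ℤ) - ρ.twist i * n) *
          ∏ y ∈ (M i).lowIndices, qu i y ^ (((a i y : ℤ) - ρ.twist i * n) -
            ((k i 1 : ℤ) - ρ.twist i * n) - ((k i (-1) : ℤ) - ρ.twist i * n))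
        else Du i ^ ((k i 1 : ℤ) - ρ.twist i * n) *
          ∏ y ∈ (M i).lowIndices, qu i y ^ (((a i y : ℤ) - ρ.twist i * n) -
            ((k i 1 : ℤ) - ρ.twist i * n))) := by
    rw [hclsx, map_prod]
    simp only [← hkey, X]
    rw [map_mul, map_mul, map_pow, map_inv, map_prod, map_prod, map_prod,
      ← Finset.prod_inv_distrib, ← Finset.prod_pow, ← Finset.prod_mul_distrib,
      ← Finset.prod_mul_distrib]
    apply Finset.prod_congr rfl
    intro i _
    rw [map_mul, map_mul, map_prod, map_pow, map_pow, map_pow, map_pow]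
    simp only [map_pow, mul_assoc]
  obtain ⟨e, he⟩ := exists_of_cls_eq E hfin
  refine ⟨x', c', d', Du, qu, e, hx', hcd', hDu, ?_, he⟩
  intro i y hy
  rw [hqu i y hy, (M i).hodgePeriod_eq y _ (hq i y hy)]

end main

end Pool.Agent.MP100fe7T
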