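import Pool.Agent.Lib.MP_100fe7_nt.TLevi
import Pool.Agent.Lib.MP_100fe7_nt.TFactor
import Pool.Agent.Lib.MP_100fe7_nt.TCoord

/-!
The period of the polynomial part of `ρ(M)` in terms of the blocks of the factors.
-/

set_option linter.unusedSectionVars false

namespace Pool.Agent.MP100fe7T

open Matrix

variable {E : Type} [Field E] {ι : Type} [Fintype ι] [DecidableEq ι] {σ : ι → Shape} {κ : Type}
  [Fintype κ] [DecidableEq κ] (ρ : Rep E σ κ)

/-- the family of the `gz` -/
def fgz (S : Type) [CommRing S] (σ : ι → Shape) : Fam σ S := fun i => gz S (σ i)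

/-- the family of the `swapM` -/
def fswap (S : Type) [CommRing S] (σ : ι → Shape) : Fam σ S := fun i => swapM S (σ i)

/-- the family of the `F_∞` -/
def ffrob (S : Type) [CommRing S] (σ : ι → Shape) : Fam σ S := fun i => frob S (σ i)

/-- the sign colouring -/
def sgnT (σ : ι → Shape) (q : Tot σ) : ℤ := (σ q.1).sgn q.2

theorem fswap_mul_fgz (S : Type) [CommRing S] :
    fswap S σ * fgz S σ = fgz S σ * ffrob S σ := by
  funext i
  exact swapM_mul_gz

theorem fswap_mul_fswap (S : Type) [CommRing S] : fswap S σ * fswap S σ = 1 := by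
  funext i
  exact swapM_mul_swapM

theorem ffrob_eq (S : Type) [CommRing S] :
    ffrob S σ = fdiag fun q => ((sgnT σ q : ℤ) : S) := rfl

theorem fgz_map {S S' : Type} [CommRing S] [Algebra E S] [CommRing S'] [Algebra E S']
    (φ : S →ₐ[E] S') : Fam.map' (fgz S σ) φ = fgz S' σ := by
  funext i
  simp only [Fam.map', fgz, gz]
  rw [fromBlocks_map, fromBlocks_map]
  congr 1
  · congr 1
    · exact Matrix.map_one _ (map_zero _) (map_one _)
    · exact Matrix.map_one _ (map_zero _) (map_one _)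
    · exact Matrix.map_one _ (map_zero _) (map_one _)
    · ext i j
      simp [Matrix.one_apply]
  · ext i j
    simp
  · ext i j
    simp
  · exact Matrix.map_one _ (map_zero _) (map_one _)

namespace Rep

/-- the sign of `F_∞` on the polynomial part -/
def sgP (s : κ) : ℤ := ∏ q : Tot σ, sgnT σ q ^ ρ.wt s q

theorem sgP_sq (s : κ) : ρ.sgP s * ρ.sgP s = 1 := by
  unfold sgP
  rw [← Finset.prod_mul_distrib]
  apply Finset.prod_eq_one
  intro q _
  rw [← mul_pow]
  unfold sgnT
  rw [sgn_sq, one_pow]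

theorem sgP_cases (s : κ) : ρ.sgP s = 1 ∨ ρ.sgP s = -1 := by
  have h := ρ.sgP_sq s
  have h2 : (ρ.sgP s - 1) * (ρ.sgP s + 1) = 0 := by linear_combination h
  rcases mul_eq_zero.mp h2 with h3 | h3
  · left; linarith
  · right; linarith

theorem pol_ffrob (S : Type) [CommRing S] [Algebra E S] :
    ρ.pol S (ffrob S σ) = diagonal fun s => ((ρ.sgP s : ℤ) : S) := by
  rw [ffrob_eq, ρ.pol_diag]
  congr 1
  funext s
  unfold sgP
  push_cast
  rfl

theorem pol_fgz (R : Type) [CommRing R] [Algebra E R] :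
    ρ.pol R (fgz R σ) = (ρ.pol E (fgz E σ)).map (algebraMap E R) := by
  have h1 := ρ.pol_map (Algebra.ofId E R) (fgz E σ)
  rw [fgz_map] at h1
  exact h1.symm

theorem isUnit_two [CharZero E] (S : Type) [CommRing S] [Algebra E S] : IsUnit (2 : S) := by
  have h : IsUnit (2 : E) := (two_ne_zero).isUnit
  have h' := h.map (algebraMap E S)
  rwa [map_ofNat] at h'

theorem pol_levi_sgn [CharZero E] (S : Type) [CommRing S] [Algebra E S] (h : Fam σ S)
    (hh : IsLevi (sgnT σ) h) (s t : κ) (hst : ρ.sgP s ≠ ρ.sgP t) : ρ.pol S h s t = 0 := by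
  have hc : ffrob S σ * h = h * ffrob S σ := by
    funext i
    exact commute_of_block (h i) (fun j j' hne => hh i j j' hne)
  have h1 := congrArg (ρ.pol S) hc
  rw [ρ.pol_mul, ρ.pol_mul, ρ.pol_ffrob] at h1
  have e := congrFun (congrFun h1 s) t
  rw [diagonal_mul, mul_diagonal] at e
  have e2 : 2 * ρ.pol S h s t = 2 * 0 := by
    rcases ρ.sgP_cases s with hi | hi <;> rcases ρ.sgP_cases t with hj | hj
    · exact absurd (hi.trans hj.symm) hst
    · rw [hi, hj] at e
      push_cast at e
      linear_combination e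
    · rw [hi, hj] at e
      push_cast at e
      linear_combination -e
    · exact absurd (hi.trans hj.symm) hst
  exact (isUnit_two (E := E) S).mul_left_cancel e2

/-- the height of the basis vector `s` -/
def height (idx : Tot σ → ℤ) (s : κ) : ℤ := ∑ q, (ρ.wt s q : ℤ) * idx q

end Rep

section period

variable [CharZero E] {R : Type} [CommRing R] [Algebra E R] {w : ι → ℤ}
  (M : ∀ i, Datum R (σ i) (w i))

/-- Hodge indices of all basis vectors -/
def hiT (q : Tot σ) : ℤ := (M q.1).hodgeIdx q.2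

/-- the family of the parabolic factors -/
noncomputable def fb : Fam σ R := fun i => (M i).b

variable {M}

theorem exists_inv_gz (i : ι) : ∃ g' : Matrix (σ i).Idx (σ i).Idx E, g' * gz E (σ i) = 1 :=
  ⟨(gz E (σ i))⁻¹, nonsing_inv_mul _ (isUnit_det_gz (Rep.isUnit_two (E := E) E))⟩

theorem exists_inv_pol_gz : ∃ Y' : Matrix κ κ E, Y' * ρ.pol E (fgz E σ) = 1 := by
  choose g' hg' using exists_inv_gz (E := E) (σ := σ)
  refine ⟨ρ.pol E g', ?_⟩
  apply ρ.pol_inv_mul
  funext i
  exact hg' i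

variable (lo : κ → Prop) [DecidablePred lo] (ε : ℤ)

/-- the condition that makes the period nonzero -/
def Cut : Prop := ∀ y : κ → E, (∀ s, lo s → y s = 0) →
  (ρ.pol E (fswap E σ)).mulVec y = (ε : E) • y → y = 0

theorem split_ne_zero (hcut : Cut ρ lo ε) {d : ℕ} (ψ : Fin d ≃ {s // lo s})
    (φ : Fin d ≃ {s // ρ.sgP s = ε}) :
    ((ρ.pol E (fgz E σ)).submatrix (fun i => (ψ i).1) (fun i => (φ i).1)).det ≠ 0 := by
  obtain ⟨Y', hY'⟩ := exists_inv_pol_gz ρ
  apply det_split_ne_zero ψ φ (ρ.pol E (fgz E σ)) Y' (ρ.pol E (fswap E σ))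
    (fun s => ((ρ.sgP s : ℤ) : E)) (ε : E) hY'
  · rw [← ρ.pol_mul, fswap_mul_fgz, ρ.pol_mul, ρ.pol_ffrob]
  · intro s hs
    rw [hs]
  · exact hcut

/-- The stabiliser of the split point acts trivially: the weights of a middle basis vector have
the same sum over `lo` and over the sign part. -/
theorem stab_mid (hcut : Cut ρ lo ε) {d : ℕ} (ψ : Fin d ≃ {s // lo s})
    (φ : Fin d ≃ {s // ρ.sgP s = ε}) (i : ι) (j : Fin (σ i).m ⊕ Fin (σ i).r) :
    ∑ s with lo s, ρ.wt s ⟨i, Sum.inr j⟩ = ∑ s with ρ.sgP s = ε, ρ.wt s ⟨i, Sum.inr j⟩ := by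
  let P := Polynomial E
  let q₀ : Tot σ := ⟨i, Sum.inr j⟩
  let t : Fam σ P := fdiag (Function.update (1 : Tot σ → P) q₀ Polynomial.X)
  have hcomm : t * fgz P σ = fgz P σ * t := by
    funext i'
    ext k l
    simp only [Pi.mul_apply, t, fdiag]
    rw [diagonal_mul, mul_diagonal]
    by_cases hk : (⟨i', k⟩ : Tot σ) = q₀
    · by_cases hl : (⟨i', l⟩ : Tot σ) = q₀
      · rw [hk, hl, mul_comm]
      · have h1 : fgz P σ i' k l = 0 := by
          simp only [q₀] at hk hl
          obtain ⟨rfl, hk2⟩ := Sigma.mk.inj_iff.mp hk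
          have hk3 := eq_of_heq hk2
          subst hk3
          rcases l with l | l
          · rfl
          · simp only [fgz, gz, fromBlocks_apply₂₂]
            apply Matrix.one_apply_ne
            rintro rfl
            exact hl rfl
        rw [h1, mul_zero, zero_mul]
    · by_cases hl : (⟨i', l⟩ : Tot σ) = q₀
      · have h1 : fgz P σ i' k l = 0 := by
          simp only [q₀] at hk hl
          obtain ⟨rfl, hl2⟩ := Sigma.mk.inj_iff.mp hl
          have hl3 := eq_of_heq hl2
          subst hl3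
          rcases k with k | k
          · rfl
          · simp only [fgz, gz, fromBlocks_apply₂₂]
            apply Matrix.one_apply_ne
            rintro rfl
            exact hk rfl
        rw [h1, mul_zero, zero_mul]
      · rw [Function.update_of_ne hk, Function.update_of_ne hl]
        simp
  have h1 := congrArg (ρ.pol P) hcomm
  rw [ρ.pol_mul, ρ.pol_mul, ρ.pol_diag] at h1
  have h2 : (fun s => ∏ q, (Function.update (1 : Tot σ → P) q₀ Polynomial.X) q ^ ρ.wt s q) =
      fun s => (Polynomial.X : P) ^ ρ.wt s q₀ := by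
    funext s
    rw [Finset.prod_eq_single q₀]
    · simp
    · intro q _ hq
      rw [Function.update_of_ne hq]
      simp
    · simp
  rw [h2] at h1
  have h3 := congrArg (fun X : Matrix κ κ P =>
    (X.submatrix (fun i => (ψ i).1) (fun i => (φ i).1)).det) h1
  rw [submatrix_mul_left ψ φ _ _ (by
      intro s t hs ht
      apply diagonal_apply_ne
      rintro rfl
      exact ht hs),
    submatrix_mul_right ψ φ _ _ (by
      intro s t hs ht
      apply diagonal_apply_ne
      rintro rfl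
      exact hs ht), det_mul, det_mul, det_submatrix_self ψ, det_submatrix_self φ, detP_diagonal,
    detP_diagonal, Finset.prod_pow_eq_pow_sum, Finset.prod_pow_eq_pow_sum] at h3
  have h4 : ((ρ.pol P (fgz P σ)).submatrix (fun i => (ψ i).1) (fun i => (φ i).1)).det =
      Polynomial.C ((ρ.pol E (fgz E σ)).submatrix (fun i => (ψ i).1) (fun i => (φ i).1)).det := by
    rw [ρ.pol_fgz P]
    have := RingHom.map_det (Polynomial.C : E →+* Polynomial E)
      ((ρ.pol E (fgz E σ)).submatrix (fun i => (ψ i).1) (fun i => (φ i).1))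
    rw [this]
    rfl
  rw [h4, mul_comm] at h3
  have hne := split_ne_zero ρ lo ε hcut ψ φ
  have h5 := (mul_right_injective₀ (Polynomial.C_ne_zero.mpr hne)) h3
  have h6 := congrArg Polynomial.natDegree h5
  have h7 : ∀ n, Polynomial.natDegree ((Polynomial.X : Polynomial E) ^ n) = n :=
    fun n => Polynomial.natDegree_X_pow n
  exact (h7 _).symm.trans (h6.trans (h7 _))

variable (M)

/-- The period of the polynomial part as a product of determinants of blocks. -/
theorem pol_formula (hlo : ∀ s t, lo s → ¬ lo t → ρ.height (hiT M) s < ρ.height (hiT M) t)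
    (hcut : Cut ρ lo ε) (h : Fam σ R) (hh : IsLevi (sgnT σ) h)
    (hM : ∀ i, (M i).comp = (M i).b * gz R (σ i) * h i) :
    ∃ a k : ι → ℤ → ℕ,
      (∀ i j, a i (hiT M ⟨i, j⟩) = ∑ s with lo s, ρ.wt s ⟨i, j⟩) ∧
      (∀ i j, k i ((σ i).sgn j) = ∑ s with ρ.sgP s = ε, ρ.wt s ⟨i, j⟩) ∧
      ∀ x, IsPer E lo (fun s => ρ.sgP s = ε) (ρ.pol R fun i => (M i).comp) x →
        ∃ e : Eˣ, x = algebraMap E R e *
          (∏ i, ∏ c ∈ colors (hiT M) i, (blk (hiT M) (fb M) i c).det ^ a i c) *
          ∏ i, ∏ c ∈ colors (sgnT σ) i, (blk (sgnT σ) h i c).det ^ k i c := by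
  have hhi : ∀ (S : Type) [CommRing S] [Algebra E S] (l : Fam σ S), IsLevi (hiT M) l →
      ∀ s t, lo s → ¬ lo t → ρ.pol S l s t = 0 := by
    intro S _ _ l hl s t hs ht
    apply ρ.pol_parabolic (hiT M) l _ s t (hlo s t hs ht)
    intro i j j' hjj
    exact hl i j j' (ne_of_lt hjj)
  have hsg : ∀ (S : Type) [CommRing S] [Algebra E S] (l : Fam σ S), IsLevi (sgnT σ) l →
      ∀ s t, ρ.sgP s = ε → ¬ ρ.sgP t = ε → ρ.pol S l s t = 0 := by
    intro S _ _ l hl s t hs ht
    apply ρ.pol_levi_sgn S l hl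
    rw [hs]
    exact Ne.symm ht
  obtain ⟨a, ha1, ha2⟩ := levi_char ρ lo (hiT M) hhi
  obtain ⟨k, hk1, hk2⟩ := levi_char ρ (fun s => ρ.sgP s = ε) (sgnT σ) hsg
  refine ⟨a, k, ha1, hk1, ?_⟩
  intro x hx
  obtain ⟨d, ψ, φ, e, rfl⟩ := hx.coords
  have hbpar : ∀ i j j', hiT M ⟨i, j⟩ < hiT M ⟨i, j'⟩ → fb M i j j' = 0 :=
    fun i j j' hjj => (M i).b_parabolic j j' hjj
  have hcomp : (fun i => (M i).comp) = fb M * fgz R σ * h := by
    funext i
    exact hM i
  rw [hcomp, ρ.pol_mul, ρ.pol_mul]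
  have hXlo : ∀ s t, lo s → ¬ lo t → ρ.pol R (fb M) s t = 0 := by
    intro s t hs ht
    exact ρ.pol_parabolic (hiT M) (fb M) hbpar s t (hlo s t hs ht)
  have hZsg : ∀ s t, ¬ ρ.sgP s = ε → ρ.sgP t = ε → ρ.pol R h s t = 0 := by
    intro s t hs ht
    apply ρ.pol_levi_sgn R h hh
    rw [ht]
    exact hs
  rw [det_three ψ φ _ _ _ hXlo hZsg, hk2 R h hh]
  -- the parabolic factor
  let b' : Fam σ R := fun i => Matrix.of fun j j' =>
    if hiT M ⟨i, j⟩ = hiT M ⟨i, j'⟩ then fb M i j j' else 0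
  have hb'L : IsLevi (hiT M) b' := by
    intro i j j' hne
    simp only [b', of_apply]
    rw [if_neg hne]
  have hb1 : detP lo (ρ.pol R (fb M)) = detP lo (ρ.pol R b') := by
    unfold detP
    have bt : ∀ Z : Matrix κ κ R, (∀ s t, ρ.height (hiT M) s < ρ.height (hiT M) t → Z s t = 0) →
        BlockTriangular (Z.submatrix (fun s : {s // lo s} => s.1)
          (fun s : {s // lo s} => s.1)) (fun s => - ρ.height (hiT M) s.1) := by
      intro Z hZ s t hst
      simp only [neg_lt_neg_iff] at hst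
      exact hZ s.1 t.1 hst
    rw [(bt _ (fun s t hst => ρ.pol_parabolic (hiT M) (fb M) hbpar s t hst)).det,
      (bt _ (fun s t hst => ρ.pol_parabolic (hiT M) b' (fun i j j' hjj =>
        hb'L i j j' (ne_of_lt hjj)) s t hst)).det]
    apply Finset.prod_congr rfl
    intro c _
    congr 1
    ext s t
    simp only [toSquareBlock_def, of_apply, submatrix_apply]
    apply ρ.pol_diagBlocks (hiT M) (fb M) b' hbpar (fun i j j' => rfl)
    have h1 := s.2
    have h2 := t.2
    unfold Rep.height at h1 h2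
    omega
  have hb2 : ∀ i c, blk (hiT M) b' i c = blk (hiT M) (fb M) i c := by
    intro i c
    ext s t
    simp only [blk, submatrix_apply, b', of_apply]
    rw [if_pos (s.2.trans t.2.symm)]
  rw [hb1, ha2 R b' hb'L]
  simp only [hb2]
  have hne := split_ne_zero ρ lo ε hcut ψ φ
  have hg : ((ρ.pol R (fgz R σ)).submatrix (fun i => (ψ i).1) (fun i => (φ i).1)).det =
      algebraMap E R ((ρ.pol E (fgz E σ)).submatrix (fun i => (ψ i).1) (fun i => (φ i).1)).det := by
    rw [ρ.pol_fgz R]
    have := RingHom.map_det (algebraMap E R)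
      ((ρ.pol E (fgz E σ)).submatrix (fun i => (ψ i).1) (fun i => (φ i).1))
    rw [this]
    rfl
  refine ⟨e * Units.mk0 _ hne, ?_⟩
  rw [hg, Units.val_mul, map_mul, Units.val_mk0]
  ring

end period

end Pool.Agent.MP100fe7T
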