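import Pool.Agent.Lib.MP_100fe7_nt.TChar

/-!
The ratio of the two Deligne periods of `ρ(M)`.
-/

set_option linter.unusedSectionVars false

namespace Pool.Agent.MP100fe7T

open Matrix

variable {E : Type} [Field E] [CharZero E] {ι : Type} [Fintype ι] [DecidableEq ι]
  {σ : ι → Shape} {κ : Type} [Fintype κ] [DecidableEq κ] (ρ : Rep E σ κ)
  {R : Type} [CommRing R] [Algebra E R] {w : ι → ℤ} (M : ∀ i, Datum R (σ i) (w i))

/-- the class of the period, for given factors of the comparison matrices -/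
theorem class_formula (ε : ℤ) (hε : ε = 1 ∨ ε = -1) (a₀ : ℤ) (hst : ρ.IsStep M ε a₀)
    (h : ∀ i, Matrix (σ i).Idx (σ i).Idx R)
    (hh : ∀ i j j', (σ i).sgn j ≠ (σ i).sgn j' → h i j j' = 0)
    (hM : ∀ i, (M i).comp = (M i).b * gz R (σ i) * h i)
    (Du bu pu mu : ι → Rˣ) (qu : ι → ℤ → Rˣ) (hDu : ∀ i, (Du i : R) = (M i).comp.det)
    (hbu : ∀ i, (bu i : R) = (M i).beta)
    (hpu : ∀ i, (pu i : R) = detP (fun j => (σ i).sgn j = 1) (h i))
    (hmu : ∀ i, (mu i : R) = detP (fun j => (σ i).sgn j = -1) (h i))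
    (hqu : ∀ i y, y ∈ (M i).lowIndices → (qu i y : R) = ((M i).lowBlock y).det) :
    ∃ (a k : ι → ℤ → ℕ),
      (∀ i j, a i (hiT M ⟨i, j⟩) =
        ∑ s with ρ.height (hiT M) s < a₀ + ρ.shift M, ρ.wt s ⟨i, j⟩) ∧
      (∀ i j, k i ((σ i).sgn j) = ∑ s with ρ.sgP s = ρ.tau * ε, ρ.wt s ⟨i, j⟩) ∧
      (∀ i (j : Fin (σ i).m ⊕ Fin (σ i).r), a i (w i / 2) = k i ((σ i).sgn (Sum.inr j))) ∧
      ∀ x, ρ.IsPeriod M (ε : E) x → ∃ x' : Rˣ, (x' : R) = x ∧
        cls E x' = ∏ i, ((cls E (Du i) ^ ρ.twist i)⁻¹) ^ (ρ.signPart ε).card *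
          ((∏ y ∈ (M i).lowIndices, cls E (qu i y) ^ a i y) * cls E (bu i) ^ a i (w i / 2)) *
          (cls E (pu i) ^ k i 1 * cls E (mu i) ^ k i (-1)) := by
  have hcard : Fintype.card {s // ρ.height (hiT M) s < a₀ + ρ.shift M} =
      Fintype.card {s // ρ.sgP s = ρ.tau * ε} := by
    rw [← ρ.card_signPart, ← ρ.card_lowPart]
    exact hst
  have hcut := cut_of_card ρ M (a₀ + ρ.shift M) (ρ.tau * ε) (ρ.tau_mul_cases hε) hcard
  obtain ⟨a, k, ha, hk, hform⟩ := pol_formula ρ M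
    (fun s => ρ.height (hiT M) s < a₀ + ρ.shift M) (ρ.tau * ε)
    (fun s t hs ht => by omega) hcut h (fun i j j' hne => hh i j j' hne) hM
  set n := (ρ.signPart ε).card with hn
  have hmidk : ∀ i (j : Fin (σ i).m ⊕ Fin (σ i).r), a i (w i / 2) = k i ((σ i).sgn (Sum.inr j)) := by
    intro i j
    have e1 := ha i (Sum.inr j)
    have e2 := hk i (Sum.inr j)
    have e3 := stab_mid ρ (fun s => ρ.height (hiT M) s < a₀ + ρ.shift M) (ρ.tau * ε) hcut
      (d := Fintype.card {s // ρ.height (hiT M) s < a₀ + ρ.shift M})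
      (Fintype.equivFin _).symm ((finCongr hcard).trans (Fintype.equivFin _).symm) i j
    rw [e2, ← e3, ← e1]
    rfl
  refine ⟨a, k, ha, hk, hmidk, ?_⟩
  intro x hx
  obtain ⟨e1, x₀, hx₀, hxx⟩ := ρ.period_pol M a₀ ε hst hx
  obtain ⟨e2, he2⟩ := hform x₀ hx₀
  have hprod1 : ∀ i, ∏ y ∈ colors (hiT M) i, (blk (hiT M) (fb M) i y).det ^ a i y =
      (∏ y ∈ (M i).lowIndices, ((M i).lowBlock y).det ^ a i y) * (M i).beta ^ a i (w i / 2) :=
    fun i => (M i).prod_colors (a i)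
  have hprod2 : ∀ i, ∏ y ∈ colors (sgnT σ) i, (blk (sgnT σ) h i y).det ^ k i y =
      detP (fun j => (σ i).sgn j = 1) (h i) ^ k i 1 *
        detP (fun j => (σ i).sgn j = -1) (h i) ^ k i (-1) :=
    fun i => prod_sgn_colors (h i) (k i)
  have hlam : ρ.lam M = (((∏ i, Du i ^ ρ.twist i)⁻¹ : Rˣ) : R) := by
    unfold Rep.lam
    rw [← Ring.inverse_unit]
    congr 1
    rw [Units.coe_prod]
    apply Finset.prod_congr rfl
    intro i _
    rw [Units.val_pow_eq_pow_val, hDu]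
  let X : Rˣ := ((∏ i, Du i ^ ρ.twist i)⁻¹) ^ n *
    ((∏ i, ((∏ y ∈ (M i).lowIndices, qu i y ^ a i y) * bu i ^ a i (w i / 2))) *
      ∏ i, (pu i ^ k i 1 * mu i ^ k i (-1)))
  have hX : x = algebraMap E R (e1 * e2 : Eˣ) * (X : R) := by
    have t1 : ((∏ i, ((∏ y ∈ (M i).lowIndices, qu i y ^ a i y) * bu i ^ a i (w i / 2)) : Rˣ) : R) =
        ∏ i, ∏ y ∈ colors (hiT M) i, (blk (hiT M) (fb M) i y).det ^ a i y := by
      rw [Units.coe_prod]
      apply Finset.prod_congr rfl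
      intro i _
      rw [hprod1, Units.val_mul, Units.coe_prod, Units.val_pow_eq_pow_val, hbu]
      congr 1
      apply Finset.prod_congr rfl
      intro y hy
      rw [Units.val_pow_eq_pow_val, hqu i y hy]
    have t2 : ((∏ i, (pu i ^ k i 1 * mu i ^ k i (-1)) : Rˣ) : R) =
        ∏ i, ∏ y ∈ colors (sgnT σ) i, (blk (sgnT σ) h i y).det ^ k i y := by
      rw [Units.coe_prod]
      apply Finset.prod_congr rfl
      intro i _
      rw [hprod2, Units.val_mul, Units.val_pow_eq_pow_val, Units.val_pow_eq_pow_val, hpu, hmu]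
    have t3 : (X : R) = (((∏ i, Du i ^ ρ.twist i)⁻¹ : Rˣ) : R) ^ n *
        ((∏ i, ∏ y ∈ colors (hiT M) i, (blk (hiT M) (fb M) i y).det ^ a i y) *
          ∏ i, ∏ y ∈ colors (sgnT σ) i, (blk (sgnT σ) h i y).det ^ k i y) := by
      simp only [X]
      rw [Units.val_mul, Units.val_mul, Units.val_pow_eq_pow_val, t1, t2]
    rw [hxx, he2, hlam, t3, Units.val_mul, map_mul]
    ring
  refine ⟨Units.map (algebraMap E R).toMonoidHom (e1 * e2) * X, ?_, ?_⟩
  · rw [hX]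
    rfl
  · rw [cls_eq_of_val E (v := X) (e1 * e2) rfl]
    simp only [X]
    rw [map_mul, map_mul, map_pow, map_inv, map_prod, map_prod, map_prod,
      ← Finset.prod_inv_distrib, ← Finset.prod_pow, ← Finset.prod_mul_distrib,
      ← Finset.prod_mul_distrib]
    apply Finset.prod_congr rfl
    intro i _
    rw [map_mul, map_mul, map_prod, map_pow, map_pow, map_pow, map_pow]
    simp only [map_pow, mul_assoc]

/-- the periods of a motive without middle part -/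
theorem free_periods {σ : Shape} {w : ℤ} (M : Datum R σ w) (h : Matrix σ.Idx σ.Idx R)
    (hh : ∀ i j, σ.sgn i ≠ σ.sgn j → h i j = 0) (hM : M.comp = M.b * gz R σ * h)
    (Q p m : Rˣ) (hQ : (Q : R) = M.dlow)
    (hp : (p : R) = detP (fun j => σ.sgn j = 1) h) (hm : (m : R) = detP (fun j => σ.sgn j = -1) h)
    (hm0 : σ.m = 0) (hr0 : σ.r = 0)
    {c d : R} (hc : M.IsPeriod (1 : E) c) (hd : M.IsPeriod (-1 : E) d) :
    ∃ (c' d' : Rˣ), (c' : R) = c ∧ (d' : R) = d ∧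
      cls E c' = cls E Q * cls E p ∧ cls E d' = cls E Q * cls E m := by
  have hc' : M.IsPeriod (((1 : ℤ) : E)) c := by simpa using hc
  have hd' : M.IsPeriod (((-1 : ℤ) : E)) d := by simpa using hd
  have hmid : ∀ (ε : ℤ) (j : Fin σ.m ⊕ Fin σ.r), σ.sgn (Sum.inr j) ≠ ε := by
    rintro ε (j | j)
    · exact absurd j.2 (by omega)
    · exact absurd j.2 (by omega)
  obtain ⟨e1, he1⟩ := M.period_of_ne (Or.inl rfl) (hmid 1) h hh hM hc'
  obtain ⟨e2, he2⟩ := M.period_of_ne (Or.inr rfl) (hmid (-1)) h hh hM hd'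
  have v1 : c = ((Units.map (algebraMap E R).toMonoidHom e1 * (Q * p) : Rˣ) : R) := by
    rw [he1, Units.val_mul, Units.val_mul, hQ, hp, mul_assoc]
    rfl
  have v2 : d = ((Units.map (algebraMap E R).toMonoidHom e2 * (Q * m) : Rˣ) : R) := by
    rw [he2, Units.val_mul, Units.val_mul, hQ, hm, mul_assoc]
    rfl
  refine ⟨_, _, v1.symm, v2.symm, ?_, ?_⟩
  · rw [cls_eq_of_val E (v := Q * p) e1 rfl, map_mul]
  · rw [cls_eq_of_val E (v := Q * m) e2 rfl, map_mul]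

end Pool.Agent.MP100fe7T
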