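import Pool.Agent.Lib.MP_100fe7_nt.TRatio

/-!
The ratio of the two Deligne periods of `ρ(M)`.
-/

set_option linter.unusedSectionVars false

namespace Pool.Agent.MP100fe7T

open Matrix Pool.Agent.MP100fe7

section signs

variable {E : Type} [Field E] {ι : Type} [Fintype ι] [DecidableEq ι]
  {σ : ι → Shape} {κ : Type} [Fintype κ] [DecidableEq κ] (ρ : Rep E σ κ)

theorem tau_eq : ρ.tau = (-1) ^ (∑ i, ((σ i).n + (σ i).r) * ρ.twist i) := by
  unfold Rep.tau
  rw [Fintype.prod_sigma, ← Finset.prod_pow_eq_pow_sum]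
  apply Finset.prod_congr rfl
  intro i _
  simp only
  rw [Finset.prod_pow, pow_mul]
  congr 1
  unfold sgnT
  rw [Fintype.prod_sum_type, Fintype.prod_sum_type, Fintype.prod_sum_type]
  simp [Shape.sgn, pow_add]

theorem signed_sum (f : κ → ℤ) : ρ.tau * ∑ s, ρ.sgP s * f s =
    (∑ s with ρ.sgP s = ρ.tau * 1, f s) - ∑ s with ρ.sgP s = ρ.tau * -1, f s := by
  rw [Finset.sum_filter, Finset.sum_filter, ← Finset.sum_sub_distrib, Finset.mul_sum]
  apply Finset.sum_congr rfl
  intro s _
  rcases ρ.tau_cases with h | h <;> rcases ρ.sgP_cases s with h' | h' <;> rw [h, h'] <;> norm_num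

theorem halfProd_ne_zero {n : ℕ} {lam : Fin (n + n) → ℕ} (h : Antitone lam) : halfProd lam ≠ 0 := by
  have hl := betaNumber_strictAnti h
  apply Finset.prod_ne_zero_iff.mpr
  intro i _
  apply Finset.prod_ne_zero_iff.mpr
  intro j hj
  have h9 := hl (Finset.mem_Ioi.mp hj)
  split_ifs with h10
  · omega
  · norm_num

end signs

section group

variable {G : Type} [CommGroup G]

theorem ratio_alg (p m : G) (a b a' b' : ℕ) :
    p ^ a * m ^ b / (p ^ a' * m ^ b') = p ^ ((a : ℤ) - a') * m ^ ((b : ℤ) - b') := by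
  rw [_root_.zpow_sub, _root_.zpow_sub, _root_.zpow_natCast, _root_.zpow_natCast,
    _root_.zpow_natCast, _root_.zpow_natCast, div_eq_mul_inv, mul_inv]
  exact mul_mul_mul_comm _ _ _ _

theorem ratio_alg2 (Q p m : G) (k : ℤ) : p ^ k * m ^ (-k) = ((Q * p) / (Q * m)) ^ k := by
  rw [mul_div_mul_left_eq_div, div_zpow, _root_.zpow_neg, div_eq_mul_inv]

end group

variable {E : Type} [Field E] [CharZero E] {ι : Type} [Fintype ι] [DecidableEq ι]
  {σ : ι → Shape} {κ : Type} [Fintype κ] [DecidableEq κ] (ρ : Rep E σ κ)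
  {R : Type} [CommRing R] [Algebra E R] {w : ι → ℤ} (M : ∀ i, Datum R (σ i) (w i))

theorem sum_sgP (hmid : ρ.NoMiddle M) : ∑ s, ρ.sgP s = 0 := by
  have hm : ∀ s, 2 * ρ.height (hiT M) s ≠ ∑ i, (ρ.deg i : ℤ) * w i := by
    intro s
    have h1 := ρ.motWeight_eq M
    have h2 := hmid s
    have h3 := ρ.hodgeIdx_eq M s
    omega
  have h1 := card_sgP_eq ρ M hm 1 (Or.inl rfl)
  have h2 := card_sgP_eq ρ M hm (-1) (Or.inr rfl)
  have h3 : ∀ s, ρ.sgP s = (if ρ.sgP s = 1 then 1 else 0) - (if ρ.sgP s = -1 then 1 else 0) := by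
    intro s
    rcases ρ.sgP_cases s with h | h <;> rw [h] <;> norm_num
  rw [Finset.sum_congr rfl (fun s _ => h3 s), Finset.sum_sub_distrib]
  simp only [Finset.sum_boole]
  rw [← Fintype.card_subtype, ← Fintype.card_subtype, h1, h2, sub_self]

/-- The ratio of the periods. -/
theorem several_ratio (hmid : ρ.NoMiddle M) {κ' : ι → Type} [∀ i, Fintype (κ' i)]
    (wt' : ∀ i, κ' i → (σ i).Idx → ℕ) (hchar : HasCharacter ρ wt')
    (lam : ∀ i, Fin ((σ i).n + (σ i).n) → ℕ) (hlam : ∀ i, Antitone (lam i))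
    (hS : ∀ i, (σ i).m = 0 → (σ i).r = 0 → IsSchurChar (wt' i) (lam i)) :
    ∃ K : ι → ℤ,
      (∀ i, (σ i).m = 0 → (σ i).r = 0 →
        (evenCount (lam i) + 1 = (σ i).n ∨ evenCount (lam i) = (σ i).n + 1) →
        K i * ((σ i).n * halfProd (n := (σ i).n) 0) =
          -(-1) ^ (∑ j, lam i j * ((σ i).n + (σ i).n - 1 - j)) * halfProd (lam i) *
            (-1) ^ (∑ k, ((σ k).n + (σ k).r) * ρ.twist k) *
            ∏ k ∈ Finset.univ.erase i, signTrace (wt' k)) ∧
      (∀ i, ¬ ((σ i).m = 0 ∧ (σ i).r = 0 ∧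
        (evenCount (lam i) + 1 = (σ i).n ∨ evenCount (lam i) = (σ i).n + 1)) → K i = 0) ∧
      ∀ (x y : R) (c d : ι → R), ρ.IsPeriod M (1 : E) x → ρ.IsPeriod M (-1 : E) y →
        (∀ i, (σ i).m = 0 → (σ i).r = 0 →
          (M i).IsPeriod (1 : E) (c i) ∧ (M i).IsPeriod (-1 : E) (d i)) →
        ∃ (x' y' : Rˣ) (c' d' : ι → Rˣ) (e : Eˣ), (x' : R) = x ∧ (y' : R) = y ∧
          (∀ i, (σ i).m = 0 → (σ i).r = 0 → (c' i : R) = c i ∧ (d' i : R) = d i) ∧
          x' / y' = Units.map (algebraMap E R).toMonoidHom e * ∏ i, (c' i / d' i) ^ K i := by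
  have h2 : IsUnit (2 : R) := Rep.isUnit_two (E := E) R
  choose h hhu hh hM using fun i => (M i).exists_factor h2
  have hst1 := ρ.isStep_of_noMiddle M hmid (ε := 1) (Or.inl rfl)
  have hst2 := ρ.isStep_of_noMiddle M hmid (ε := -1) (Or.inr rfl)
  -- units
  have hDu : ∀ i, ∃ u : Rˣ, (u : R) = (M i).comp.det := fun i => (M i).comp_unit
  choose Du hDu using hDu
  have hbu : ∀ i, ∃ u : Rˣ, (u : R) = (M i).beta := fun i => (M i).isUnit_beta
  choose bu hbu using hbu
  have hpm : ∀ i, IsUnit (detP (fun j => (σ i).sgn j = 1) (h i) *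
      detP (fun j => (σ i).sgn j = -1) (h i)) := by
    intro i
    rw [← det_sgn (h i) (hh i)]
    exact hhu i
  have hpu : ∀ i, ∃ u : Rˣ, (u : R) = detP (fun j => (σ i).sgn j = 1) (h i) :=
    fun i => isUnit_of_mul_isUnit_left (hpm i)
  choose pu hpu using hpu
  have hmu : ∀ i, ∃ u : Rˣ, (u : R) = detP (fun j => (σ i).sgn j = -1) (h i) :=
    fun i => isUnit_of_mul_isUnit_right (hpm i)
  choose mu hmu using hmu
  have hqu : ∀ i y, ∃ u : Rˣ, y ∈ (M i).lowIndices → (u : R) = ((M i).lowBlock y).det := by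
    intro i y
    by_cases hy : y ∈ (M i).lowIndices
    · obtain ⟨u, hu⟩ := (M i).isUnit_lowBlock y hy
      exact ⟨u, fun _ => hu⟩
    · exact ⟨1, fun h => absurd h hy⟩
  choose qu hqu using hqu
  have hQ : ∀ i, ((∏ y ∈ (M i).lowIndices, qu i y : Rˣ) : R) = (M i).dlow := by
    intro i
    rw [Units.coe_prod]
    unfold Datum.dlow
    apply Finset.prod_congr rfl
    intro y hy
    exact hqu i y hy
  obtain ⟨a, k, ha, hk, hmk, hf⟩ := class_formula ρ M 1 (Or.inl rfl) _ hst1 h hh hM Du bu pu mu qu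
    hDu hbu hpu hmu hqu
  obtain ⟨a', k', ha', hk', hmk', hf'⟩ := class_formula ρ M (-1) (Or.inr rfl) _ hst2 h hh hM
    Du bu pu mu qu hDu hbu hpu hmu hqu
  -- the exponents
  have hΔ : ∀ i j, (k i ((σ i).sgn j) : ℤ) - k' i ((σ i).sgn j) =
      ρ.tau * ∑ s, ρ.sgP s * ρ.wt s ⟨i, j⟩ := by
    intro i j
    rw [signed_sum, hk, hk']
    push_cast
    rfl
  have hs0 := sum_sgP ρ M hmid
  have hF2 : ∀ i, (((σ i).n : ℤ) + (σ i).m) * ((k i 1 : ℤ) - k' i 1) +
      (((σ i).n : ℤ) + (σ i).r) * ((k i (-1) : ℤ) - k' i (-1)) = 0 := by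
    intro i
    have e1 : ∑ j, ((k i ((σ i).sgn j) : ℤ) - k' i ((σ i).sgn j)) = 0 := by
      rw [Finset.sum_congr rfl (fun j _ => hΔ i j), ← Finset.mul_sum, Finset.sum_comm]
      have e2 : ∀ s, ∑ j, ρ.sgP s * (ρ.wt s ⟨i, j⟩ : ℤ) = ρ.sgP s * ρ.deg i := by
        intro s
        rw [← Finset.mul_sum, ← ρ.sum_wt s i]
        push_cast
        rfl
      rw [Finset.sum_congr rfl (fun s _ => e2 s), ← Finset.sum_mul, hs0, zero_mul, mul_zero]
    rw [Fintype.sum_sum_type, Fintype.sum_sum_type, Fintype.sum_sum_type] at e1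
    simp only [Shape.sgn, Sum.elim_inl, Sum.elim_inr, Finset.sum_const, Finset.card_univ,
      Fintype.card_fin, nsmul_eq_mul] at e1
    linear_combination e1
  have haa : ∀ i j, a i (hiT M ⟨i, j⟩) = a' i (hiT M ⟨i, j⟩) := by
    intro i j
    rw [ha, ha']
  have hF3 : ∀ i, (σ i).m ≠ 0 → (k i 1 : ℤ) - k' i 1 = 0 := by
    intro i hi
    let j : Fin (σ i).m ⊕ Fin (σ i).r := Sum.inl ⟨0, Nat.pos_of_ne_zero hi⟩
    have e1 : a i (w i / 2) = a' i (w i / 2) := haa i (Sum.inr j)
    have e2 : a i (w i / 2) = k i 1 := hmk i j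
    have e3 : a' i (w i / 2) = k' i 1 := hmk' i j
    rw [← e2, ← e3, e1, sub_self]
  have hF3' : ∀ i, (σ i).r ≠ 0 → (k i (-1) : ℤ) - k' i (-1) = 0 := by
    intro i hi
    let j : Fin (σ i).m ⊕ Fin (σ i).r := Sum.inr ⟨0, Nat.pos_of_ne_zero hi⟩
    have e1 : a i (w i / 2) = a' i (w i / 2) := haa i (Sum.inr j)
    have e2 : a i (w i / 2) = k i (-1) := hmk i j
    have e3 : a' i (w i / 2) = k' i (-1) := hmk' i j
    rw [← e2, ← e3, e1, sub_self]
  have hnK : ∀ i, ((σ i).n : ℤ) * ((k i 1 : ℤ) - k' i 1) =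
      ρ.tau * (∑ j, signMom (wt' i) (Sum.inl (Sum.inl j))) *
        ∏ k ∈ Finset.univ.erase i, signTrace (wt' k) := by
    intro i
    have e1 : ∀ j : Fin (σ i).n, ((k i 1 : ℤ) - k' i 1) =
        ρ.tau * (signMom (wt' i) (Sum.inl (Sum.inl j)) *
          ∏ k ∈ Finset.univ.erase i, signTrace (wt' k)) := by
      intro j
      rw [← (tensor_moments ρ wt' hchar i (Sum.inl (Sum.inl j))).2, ← hΔ]
      rfl
    have e2 : ∑ j : Fin (σ i).n, ((k i 1 : ℤ) - k' i 1) =
        ((σ i).n : ℤ) * ((k i 1 : ℤ) - k' i 1) := by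
      rw [Finset.sum_const, Finset.card_univ, Fintype.card_fin, nsmul_eq_mul]
    rw [← e2, Finset.sum_congr rfl (fun j _ => e1 j), ← Finset.mul_sum, ← Finset.sum_mul, mul_assoc]
  let K : ι → ℤ := fun i => if (σ i).m = 0 ∧ (σ i).r = 0 ∧ (σ i).n ≠ 0 then (k i 1 : ℤ) - k' i 1
    else 0
  refine ⟨K, ?_, ?_, ?_⟩
  · intro i hm0 hr0 he
    have hle := evenCount_le (lam i)
    have hn : (σ i).n ≠ 0 := by omega
    have hK : K i = (k i 1 : ℤ) - k' i 1 := if_pos ⟨hm0, hr0, hn⟩
    have hv := (schur_values hm0 hr0 (wt' i) (ρ.deg i) (hchar.1 i) (lam i) (hlam i)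
      (hS i hm0 hr0)).2.2.1 he
    rw [hK, ← tau_eq ρ]
    linear_combination (halfProd (n := (σ i).n) 0 : ℤ) * hnK i +
      ρ.tau * (∏ k ∈ Finset.univ.erase i, signTrace (wt' k)) * hv
  · intro i hne
    by_cases hc : (σ i).m = 0 ∧ (σ i).r = 0 ∧ (σ i).n ≠ 0
    · obtain ⟨hm0, hr0, hn⟩ := hc
      have hK : K i = (k i 1 : ℤ) - k' i 1 := if_pos ⟨hm0, hr0, hn⟩
      have hv := schur_values hm0 hr0 (wt' i) (ρ.deg i) (hchar.1 i) (lam i) (hlam i) (hS i hm0 hr0)
      have hne' : ¬ (evenCount (lam i) + 1 = (σ i).n ∨ evenCount (lam i) = (σ i).n + 1) :=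
        fun h => hne ⟨hm0, hr0, h⟩
      have hz : ((σ i).n : ℤ) * K i = 0 := by
        rw [hK, hnK i]
        by_cases he : evenCount (lam i) = (σ i).n
        · have h1 := hv.1 he
          have hT : signTrace (wt' i) ≠ 0 := by
            intro h0
            rw [h0, zero_mul] at h1
            have h3 : ((-1 : ℤ) ^ (∑ j, lam i j * ((σ i).n + (σ i).n - 1 - j))) ≠ 0 :=
              pow_ne_zero _ (by norm_num)
            have h4 : (halfProd (lam i) : ℤ) ≠ 0 := by
              exact_mod_cast halfProd_ne_zero (hlam i)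
            exact mul_ne_zero h3 h4 h1.symm
          have hj : 0 < (σ i).n := Nat.pos_of_ne_zero hn
          have h5 := (tensor_moments ρ wt' hchar i (Sum.inl (Sum.inl ⟨0, hj⟩))).1
          rw [hs0, ← Finset.mul_prod_erase _ _ (Finset.mem_univ i)] at h5
          rcases mul_eq_zero.mp h5.symm with h6 | h6
          · exact absurd h6 hT
          · rw [h6, mul_zero]
        · rw [hv.2.2.2 he hne', mul_zero, zero_mul]
      rcases mul_eq_zero.mp hz with h1 | h1
      · exfalso
        apply hn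
        exact_mod_cast h1
      · exact h1
    · exact if_neg hc
  · intro x y c d hx hy hcd
    obtain ⟨x', hx', hxc⟩ := hf x (by simpa using hx)
    obtain ⟨y', hy', hyc⟩ := hf' y (by simpa using hy)
    have hcard : (ρ.signPart 1).card = (ρ.signPart (-1)).card := by
      have e1 : (ρ.lowPart M ((ρ.motWeight w + 1) / 2)).card = (ρ.signPart 1).card := hst1
      have e2 : (ρ.lowPart M ((ρ.motWeight w + 1) / 2)).card = (ρ.signPart (-1)).card := hst2
      rw [← e1, e2]
    -- one motive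
    have key : ∀ i, ∃ c' d' : Rˣ, ((σ i).m = 0 → (σ i).r = 0 → (c' : R) = c i ∧ (d' : R) = d i) ∧
        cls E (pu i) ^ ((k i 1 : ℤ) - k' i 1) * cls E (mu i) ^ ((k i (-1) : ℤ) - k' i (-1)) =
          cls E ((c' / d') ^ K i) := by
      intro i
      have hpu1 : (σ i).n = 0 → (σ i).m = 0 → pu i = 1 := by
        intro hn hm
        ext
        rw [hpu i, detP_empty, Units.val_one]
        rintro ((j | j) | (j | j))
        · exact absurd j.2 (by omega)
        · exact absurd j.2 (by omega)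
        · exact absurd j.2 (by omega)
        · simp [Shape.sgn]
      have hmu1 : (σ i).n = 0 → (σ i).r = 0 → mu i = 1 := by
        intro hn hm
        ext
        rw [hmu i, detP_empty, Units.val_one]
        rintro ((j | j) | (j | j))
        · exact absurd j.2 (by omega)
        · exact absurd j.2 (by omega)
        · simp [Shape.sgn]
        · exact absurd j.2 (by omega)
      by_cases hc : (σ i).m = 0 ∧ (σ i).r = 0
      · obtain ⟨hm0, hr0⟩ := hc
        obtain ⟨hci, hdi⟩ := hcd i hm0 hr0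
        obtain ⟨c', d', hc', hd', u3, u4⟩ := free_periods (M i) (h i) (hh i) (hM i)
          (∏ y ∈ (M i).lowIndices, qu i y) (pu i) (mu i) (hQ i) (hpu i) (hmu i) hm0 hr0 hci hdi
        refine ⟨c', d', fun _ _ => ⟨hc', hd'⟩, ?_⟩
        by_cases hn : (σ i).n = 0
        · have hK : K i = 0 := if_neg (fun h => h.2.2 hn)
          rw [hK, hpu1 hn hm0, hmu1 hn hr0]
          simp
        · have hK : K i = (k i 1 : ℤ) - k' i 1 := if_pos ⟨hm0, hr0, hn⟩
          have hn' : ((σ i).n : ℤ) ≠ 0 := by exact_mod_cast hn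
          have e1 : (k i (-1) : ℤ) - k' i (-1) = -((k i 1 : ℤ) - k' i 1) := by
            have e2 := hF2 i
            rw [hm0, hr0] at e2
            have e3 : ((σ i).n : ℤ) * (((k i (-1) : ℤ) - k' i (-1)) + ((k i 1 : ℤ) - k' i 1)) = 0 := by
              push_cast at e2
              linear_combination e2
            rcases mul_eq_zero.mp e3 with e4 | e4
            · exact absurd e4 hn'
            · linarith
          rw [e1, hK, map_zpow, map_div, u3, u4]
          exact ratio_alg2 _ _ _ _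
      · have hK : K i = 0 := if_neg (fun h => hc ⟨h.1, h.2.1⟩)
        refine ⟨1, 1, fun h1 h2 => absurd ⟨h1, h2⟩ hc, ?_⟩
        rw [hK, _root_.zpow_zero, map_one]
        by_cases hm0 : (σ i).m = 0
        · have hr0 : (σ i).r ≠ 0 := fun h => hc ⟨hm0, h⟩
          have e2 := hF2 i
          rw [hF3' i hr0, hm0] at e2
          rw [hF3' i hr0]
          by_cases hn : (σ i).n = 0
          · rw [hpu1 hn hm0]
            simp
          · have hn' : ((σ i).n : ℤ) ≠ 0 := by exact_mod_cast hn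
            have e3 : ((σ i).n : ℤ) * ((k i 1 : ℤ) - k' i 1) = 0 := by
              push_cast at e2
              linear_combination e2
            rcases mul_eq_zero.mp e3 with e4 | e4
            · exact absurd e4 hn'
            · rw [e4]
              simp
        · have e2 := hF2 i
          rw [hF3 i hm0] at e2
          rw [hF3 i hm0]
          have e3 : (((σ i).n : ℤ) + (σ i).r) * ((k i (-1) : ℤ) - k' i (-1)) = 0 := by
            linear_combination e2
          rcases mul_eq_zero.mp e3 with e4 | e4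
          · have hn : (σ i).n = 0 := by omega
            have hr : (σ i).r = 0 := by omega
            rw [hmu1 hn hr]
            simp
          · rw [e4]
            simp
    choose c' d' hcd' hkey using key
    have hfin : cls E (x' / y') = cls E (∏ i, (c' i / d' i) ^ K i) := by
      rw [map_div, hxc, hyc, map_prod, ← Finset.prod_div_distrib]
      apply Finset.prod_congr rfl
      intro i _
      have t1 : ∏ y ∈ (M i).lowIndices, cls E (qu i y) ^ a i y =
          ∏ y ∈ (M i).lowIndices, cls E (qu i y) ^ a' i y := by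
        apply Finset.prod_congr rfl
        intro y hy
        simp only [Datum.lowIndices, Finset.mem_image, Finset.mem_univ, true_and] at hy
        obtain ⟨j, rfl⟩ := hy
        have : a i (w i - (M i).p j) = a' i (w i - (M i).p j) := haa i (Sum.inl (Sum.inr j))
        rw [this]
      have t2 : cls E (bu i) ^ a i (w i / 2) = cls E (bu i) ^ a' i (w i / 2) := by
        by_cases hc : (σ i).m = 0 ∧ (σ i).r = 0
        · have : bu i = 1 := by
            ext
            rw [hbu, (M i).beta_eq_one hc.1 hc.2]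
            rfl
          rw [this, map_one, one_pow, one_pow]
        · have : ∃ j : Fin (σ i).m ⊕ Fin (σ i).r, True := by
            by_cases hm0 : (σ i).m = 0
            · have hr0 : (σ i).r ≠ 0 := fun h => hc ⟨hm0, h⟩
              exact ⟨Sum.inr ⟨0, Nat.pos_of_ne_zero hr0⟩, trivial⟩
            · exact ⟨Sum.inl ⟨0, Nat.pos_of_ne_zero hm0⟩, trivial⟩
          obtain ⟨j, -⟩ := this
          have e1 : a i (w i / 2) = a' i (w i / 2) := haa i (Sum.inr j)
          rw [e1]
      rw [t1, t2, hcard, mul_div_mul_left_eq_div, ratio_alg, hkey]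
    obtain ⟨e, he⟩ := exists_of_cls_eq E hfin
    exact ⟨x', y', c', d', e, hx', hy', hcd', he⟩

/-- The periods of a motive without middle part exist. -/
theorem free_exists {σ : Shape} {w : ℤ} (M : MP100fe7T.Datum R σ w) (hm : σ.m = 0)
    (hr : σ.r = 0) : (∃ c : R, M.IsPeriod (1 : E) c) ∧ ∃ d : R, M.IsPeriod (-1 : E) d := by
  have hmid : ∀ (ε : ℤ) (j : Fin σ.m ⊕ Fin σ.r), σ.sgn (Sum.inr j) ≠ ε := by
    rintro ε (j | j)
    · exact absurd j.2 (by omega)
    · exact absurd j.2 (by omega)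
  constructor
  · have h := M.exists_period (E := E) (ε := 1) (Or.inl rfl) (Or.inl (hmid 1))
    rwa [Int.cast_one] at h
  · have h := M.exists_period (E := E) (ε := -1) (Or.inr rfl) (Or.inl (hmid (-1)))
    rwa [Int.cast_neg, Int.cast_one] at h

end Pool.Agent.MP100fe7T
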