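import Pool.Agent.Lib.MP_100fe7_nt.TEmb

/-!
Basic facts on algebraic representations of a product of general linear groups.
-/

set_option linter.unusedSectionVars false

namespace Pool.Agent.MP100fe7T

open Matrix

variable {E : Type} [Field E] {ι : Type} [Fintype ι] [DecidableEq ι] {σ : ι → Shape} {κ : Type}
  [Fintype κ] [DecidableEq κ]

/-- apply a map to all entries of a family -/
def Fam.map' {S S' : Type} (A : Fam σ S) (f : S → S') : Fam σ S' := fun i => (A i).map f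

/-- family of diagonal matrices -/
def fdiag {S : Type} [CommRing S] (x : Tot σ → S) : Fam σ S := fun i => diagonal fun j => x ⟨i, j⟩

theorem fdiag_mul {S : Type} [CommRing S] (x y : Tot σ → S) :
    fdiag x * fdiag y = fdiag (fun q => x q * y q) := by
  funext i
  simp only [fdiag, Pi.mul_apply, diagonal_mul_diagonal]

namespace Rep

variable (ρ : Rep E σ κ)

/-- the polynomial part of the representation -/
noncomputable def pol (S : Type) [CommRing S] [Algebra E S] (A : Fam σ S) : Matrix κ κ S :=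
  evalMat ρ.mat S A

theorem pol_mul (S : Type) [CommRing S] [Algebra E S] (A B : Fam σ S) :
    ρ.pol S (A * B) = ρ.pol S A * ρ.pol S B := ρ.map_mul S A B

theorem pol_diag (S : Type) [CommRing S] [Algebra E S] (x : Tot σ → S) :
    ρ.pol S (fdiag x) = diagonal fun s => ∏ q, x q ^ ρ.wt s q := ρ.map_diagonal S x

theorem pol_one (S : Type) [CommRing S] [Algebra E S] : ρ.pol S 1 = 1 := by
  have h := ρ.pol_diag S 1
  have h1 : (fdiag (1 : Tot σ → S) : Fam σ S) = 1 := by
    funext i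
    simp only [fdiag, Pi.one_apply]
    exact diagonal_one
  rw [h1] at h
  rw [h]
  simp

theorem pol_map {S S' : Type} [CommRing S] [Algebra E S] [CommRing S'] [Algebra E S']
    (φ : S →ₐ[E] S') (A : Fam σ S) :
    (ρ.pol S A).map φ = ρ.pol S' (A.map' φ) := by
  ext s t
  simp only [pol, evalMat, Matrix.map_apply]
  rw [← AlgHom.comp_apply, MvPolynomial.comp_aeval]
  rfl

theorem pol_inv_mul {S : Type} [CommRing S] [Algebra E S] {A B : Fam σ S}
    (h : A * B = 1) : ρ.pol S A * ρ.pol S B = 1 := by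
  rw [← ρ.pol_mul, h, ρ.pol_one]

/-- the total degree -/
def tdeg : ℕ := ∑ i, ρ.deg i

theorem sum_wt_tot (s : κ) (c : ι → ℤ) :
    ∑ q : Tot σ, (ρ.wt s q : ℤ) * c q.1 = ∑ i, (ρ.deg i : ℤ) * c i := by
  rw [Fintype.sum_sigma]
  apply Finset.sum_congr rfl
  intro i _
  simp only
  rw [← Finset.sum_mul]
  congr 1
  exact_mod_cast ρ.sum_wt s i

/-- natural-number Hodge height -/
theorem pol_parabolic_nat {R : Type} [CommRing R] [Algebra E R] (m : Tot σ → ℕ)
    (b : Fam σ R) (hb : ∀ i j j', m ⟨i, j⟩ < m ⟨i, j'⟩ → b i j j' = 0) (s t : κ)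
    (hst : ∑ q, m q * ρ.wt s q < ∑ q, m q * ρ.wt t q) : ρ.pol R b s t = 0 := by
  let φ : R →ₐ[E] Polynomial R := IsScalarTower.toAlgHom E R (Polynomial R)
  have hφ : ∀ r, φ r = Polynomial.C r := fun r => rfl
  have h1 : fdiag (fun q => (Polynomial.X : Polynomial R) ^ m q) * Fam.map' b φ =
      (fun i => Matrix.of fun j j' => Polynomial.C (b i j j') *
        Polynomial.X ^ (m ⟨i, j⟩ - m ⟨i, j'⟩)) *
        fdiag (fun q => (Polynomial.X : Polynomial R) ^ m q) := by
    funext i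
    ext1 j j'
    simp only [Pi.mul_apply, fdiag, Fam.map']
    rw [Matrix.diagonal_mul, Matrix.mul_diagonal, Matrix.map_apply, hφ, Matrix.of_apply]
    by_cases hij : m ⟨i, j⟩ < m ⟨i, j'⟩
    · rw [hb i j j' hij]
      simp
    · rw [mul_assoc, ← pow_add, Nat.sub_add_cancel (by omega), mul_comm]
  have h2 := congrArg (ρ.pol (Polynomial R)) h1
  rw [ρ.pol_mul, ρ.pol_mul, ← ρ.pol_map, ρ.pol_diag] at h2
  have h3 := congrFun (congrFun h2 s) t
  rw [Matrix.diagonal_mul, Matrix.mul_diagonal, Matrix.map_apply, hφ] at h3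
  simp only [← pow_mul, Finset.prod_pow_eq_pow_sum] at h3
  have h4 := congrArg (fun f => Polynomial.coeff f (∑ q, m q * ρ.wt s q)) h3
  simp only [Polynomial.coeff_X_pow_mul', Polynomial.coeff_mul_X_pow'] at h4
  rw [if_pos le_rfl, if_neg (by omega)] at h4
  simpa using h4

theorem exists_shift (idx : Tot σ → ℤ) : ∃ c : ℤ, ∀ q, 0 ≤ idx q + c := by
  refine ⟨∑ q, |idx q|, fun q => ?_⟩
  have h1 : |idx q| ≤ ∑ q, |idx q| :=
    Finset.single_le_sum (f := fun q => |idx q|) (fun i _ => abs_nonneg _) (Finset.mem_univ q)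
  have h2 := neg_abs_le (idx q)
  linarith

theorem height_shift (idx : Tot σ → ℤ) (c : ℤ) (m : Tot σ → ℕ) (hm : ∀ q, (m q : ℤ) = idx q + c)
    (u : κ) : ((∑ q, m q * ρ.wt u q : ℕ) : ℤ) = (∑ q, (ρ.wt u q : ℤ) * idx q) +
      (∑ i, (ρ.deg i : ℤ)) * c := by
  push_cast
  simp only [hm]
  have h1 := ρ.sum_wt_tot u (fun _ => c)
  rw [Finset.sum_mul, ← h1, ← Finset.sum_add_distrib]
  apply Finset.sum_congr rfl
  intro q _
  ring

/-- A family preserving the filtration by Hodge indices is mapped to such a matrix. -/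
theorem pol_parabolic {R : Type} [CommRing R] [Algebra E R] (idx : Tot σ → ℤ)
    (b : Fam σ R) (hb : ∀ i j j', idx ⟨i, j⟩ < idx ⟨i, j'⟩ → b i j j' = 0) (s t : κ)
    (hst : ∑ q, (ρ.wt s q : ℤ) * idx q < ∑ q, (ρ.wt t q : ℤ) * idx q) : ρ.pol R b s t = 0 := by
  obtain ⟨c, hc⟩ := exists_shift idx
  let m : Tot σ → ℕ := fun q => (idx q + c).toNat
  have hm : ∀ q, (m q : ℤ) = idx q + c := fun q => Int.toNat_of_nonneg (hc q)
  have hH := ρ.height_shift idx c m hm
  apply ρ.pol_parabolic_nat m b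
  · intro i j j' hij
    apply hb
    have h1 := hm ⟨i, j⟩
    have h2 := hm ⟨i, j'⟩
    omega
  · have h1 := hH s
    have h2 := hH t
    omega

/-- On the blocks of equal Hodge index, `ρ(b)` only depends on the diagonal blocks of `b`. -/
theorem pol_diagBlocks_nat {R : Type} [CommRing R] [Algebra E R] (m : Tot σ → ℕ) (b b' : Fam σ R)
    (hb : ∀ i j j', m ⟨i, j⟩ < m ⟨i, j'⟩ → b i j j' = 0)
    (hb' : ∀ i j j', b' i j j' = if m ⟨i, j⟩ = m ⟨i, j'⟩ then b i j j' else 0) (s t : κ)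
    (hst : ∑ q, m q * ρ.wt s q = ∑ q, m q * ρ.wt t q) : ρ.pol R b s t = ρ.pol R b' s t := by
  let φ : R →ₐ[E] Polynomial R := IsScalarTower.toAlgHom E R (Polynomial R)
  have hφ : ∀ r, φ r = Polynomial.C r := fun r => rfl
  let bX : Fam σ (Polynomial R) :=
    fun i => Matrix.of fun j j' => Polynomial.C (b i j j') *
      Polynomial.X ^ (m ⟨i, j⟩ - m ⟨i, j'⟩)
  have h1 : fdiag (fun q => (Polynomial.X : Polynomial R) ^ m q) * Fam.map' b φ =
      bX * fdiag (fun q => (Polynomial.X : Polynomial R) ^ m q) := by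
    funext i
    ext1 j j'
    simp only [Pi.mul_apply, fdiag, Fam.map', bX]
    rw [Matrix.diagonal_mul, Matrix.mul_diagonal, Matrix.map_apply, hφ, Matrix.of_apply]
    by_cases hij : m ⟨i, j⟩ < m ⟨i, j'⟩
    · rw [hb i j j' hij]
      simp
    · rw [mul_assoc, ← pow_add, Nat.sub_add_cancel (by omega), mul_comm]
  have h2 := congrArg (ρ.pol (Polynomial R)) h1
  rw [ρ.pol_mul, ρ.pol_mul, ← ρ.pol_map, ρ.pol_diag] at h2
  have h3 := congrFun (congrFun h2 s) t
  rw [Matrix.diagonal_mul, Matrix.mul_diagonal, Matrix.map_apply, hφ] at h3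
  simp only [← pow_mul, Finset.prod_pow_eq_pow_sum] at h3
  rw [hst, mul_comm] at h3
  have h4 : Polynomial.C (ρ.pol R b s t) = ρ.pol (Polynomial R) bX s t :=
    (Polynomial.isRegular_X_pow (R := R) _).right h3
  let φ₀ : Polynomial R →ₐ[E] R := (Polynomial.aeval (0 : R)).restrictScalars E
  have hφ₀ : ∀ p, φ₀ p = Polynomial.eval 0 p := by
    intro p
    exact congrFun (Polynomial.coe_aeval_eq_eval (0 : R)) p
  have h5 := congrArg φ₀ h4
  rw [hφ₀, Polynomial.eval_C] at h5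
  have h6 := congrFun (congrFun (ρ.pol_map φ₀ bX) s) t
  rw [Matrix.map_apply] at h6
  rw [h5, h6]
  congr 1
  funext i
  ext1 j j'
  simp only [Fam.map', bX]
  rw [Matrix.map_apply, hφ₀, hb', Matrix.of_apply]
  rw [Polynomial.eval_mul, Polynomial.eval_C, Polynomial.eval_pow, Polynomial.eval_X]
  rcases lt_trichotomy (m ⟨i, j⟩) (m ⟨i, j'⟩) with h | h | h
  · rw [hb i j j' h, zero_mul, if_neg (by omega)]
  · rw [if_pos h, h, Nat.sub_self, pow_zero, mul_one]
  · rw [if_neg (by omega), zero_pow (by omega), mul_zero]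

/-- On the blocks of equal Hodge index, `ρ(b)` only depends on the diagonal blocks of `b`. -/
theorem pol_diagBlocks {R : Type} [CommRing R] [Algebra E R] (idx : Tot σ → ℤ) (b b' : Fam σ R)
    (hb : ∀ i j j', idx ⟨i, j⟩ < idx ⟨i, j'⟩ → b i j j' = 0)
    (hb' : ∀ i j j', b' i j j' = if idx ⟨i, j⟩ = idx ⟨i, j'⟩ then b i j j' else 0) (s t : κ)
    (hst : ∑ q, (ρ.wt s q : ℤ) * idx q = ∑ q, (ρ.wt t q : ℤ) * idx q) :
    ρ.pol R b s t = ρ.pol R b' s t := by
  obtain ⟨c, hc⟩ := exists_shift idx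
  let m : Tot σ → ℕ := fun q => (idx q + c).toNat
  have hm : ∀ q, (m q : ℤ) = idx q + c := fun q => Int.toNat_of_nonneg (hc q)
  have hH := ρ.height_shift idx c m hm
  apply pol_diagBlocks_nat ρ m b b'
  · intro i j j' hij
    apply hb
    have h1 := hm ⟨i, j⟩
    have h2 := hm ⟨i, j'⟩
    omega
  · intro i j j'
    rw [hb']
    have h1 := hm ⟨i, j⟩
    have h2 := hm ⟨i, j'⟩
    by_cases h : idx ⟨i, j⟩ = idx ⟨i, j'⟩
    · rw [if_pos h, if_pos (by omega)]
    · rw [if_neg h, if_neg (by omega)]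
  · have h1 := hH s
    have h2 := hH t
    omega

/-- If a family `S` satisfies `diag(x) S diag(x) = (c_i) S`, then so does `ρ(S)`: this gives the
exchange of the weight heights. -/
theorem pol_exchange {S₀ : Type} [CommRing S₀] [Algebra E S₀] (idx : Tot σ → ℤ) (w : ι → ℤ)
    (B : Fam σ S₀) (hB : ∀ i j j', B i j j' ≠ 0 → idx ⟨i, j⟩ + idx ⟨i, j'⟩ = w i) (s t : κ)
    (hst : ρ.pol S₀ B s t ≠ 0) :
    (∑ q, (ρ.wt s q : ℤ) * idx q) + (∑ q, (ρ.wt t q : ℤ) * idx q) = ∑ i, (ρ.deg i : ℤ) * w i := by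
  obtain ⟨c, hc, hc2⟩ : ∃ c : ℤ, (∀ q, 0 ≤ idx q + c) ∧ ∀ i, 0 ≤ w i + 2 * c := by
    obtain ⟨c₁, hc₁⟩ := exists_shift idx
    refine ⟨|c₁| + ∑ i, |w i|, fun q => ?_, fun i => ?_⟩
    · have h1 := hc₁ q
      have h2 := le_abs_self c₁
      have h3 : 0 ≤ ∑ i, |w i| := Finset.sum_nonneg fun i _ => abs_nonneg _
      linarith
    · have h1 : |w i| ≤ ∑ i, |w i| :=
        Finset.single_le_sum (f := fun i => |w i|) (fun i _ => abs_nonneg _) (Finset.mem_univ i)
      have h2 := neg_abs_le (w i)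
      have h3 := abs_nonneg c₁
      have h4 := abs_nonneg (w i)
      linarith
  let m : Tot σ → ℕ := fun q => (idx q + c).toNat
  have hm : ∀ q, (m q : ℤ) = idx q + c := fun q => Int.toNat_of_nonneg (hc q)
  let W : ι → ℕ := fun i => (w i + 2 * c).toNat
  have hW : ∀ i, (W i : ℤ) = w i + 2 * c := fun i => Int.toNat_of_nonneg (hc2 i)
  have hH := ρ.height_shift idx c m hm
  let φ : S₀ →ₐ[E] Polynomial S₀ := IsScalarTower.toAlgHom E S₀ (Polynomial S₀)
  have hφ : ∀ r, φ r = Polynomial.C r := fun r => rfl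
  have h1 : fdiag (fun q => (Polynomial.X : Polynomial S₀) ^ m q) * Fam.map' B φ *
      fdiag (fun q => (Polynomial.X : Polynomial S₀) ^ m q) =
      fdiag (fun q => (Polynomial.X : Polynomial S₀) ^ W q.1) * Fam.map' B φ := by
    funext i
    ext1 j j'
    simp only [Pi.mul_apply, fdiag, Fam.map']
    rw [Matrix.mul_diagonal, Matrix.diagonal_mul, Matrix.diagonal_mul, Matrix.map_apply, hφ]
    by_cases h0 : B i j j' = 0
    · rw [h0]
      simp
    · have h2 := hB i j j' h0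
      have h3 := hm ⟨i, j⟩
      have h4 := hm ⟨i, j'⟩
      have h5 := hW i
      have h6 : m ⟨i, j⟩ + m ⟨i, j'⟩ = W i := by omega
      rw [← h6, pow_add]
      ring
  have h2 := congrArg (ρ.pol (Polynomial S₀)) h1
  rw [ρ.pol_mul, ρ.pol_mul, ρ.pol_mul, ← ρ.pol_map, ρ.pol_diag, ρ.pol_diag] at h2
  have h3 := congrFun (congrFun h2 s) t
  rw [Matrix.mul_diagonal, Matrix.diagonal_mul, Matrix.diagonal_mul, Matrix.map_apply, hφ] at h3
  simp only [← pow_mul, Finset.prod_pow_eq_pow_sum] at h3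
  rw [mul_comm (Polynomial.X ^ _), mul_assoc, ← pow_add, mul_comm] at h3
  have h4 : (∑ q, m q * ρ.wt s q) + (∑ q, m q * ρ.wt t q) = ∑ q : Tot σ, W q.1 * ρ.wt s q := by
    have h5 := congrArg (fun f => Polynomial.coeff f ((∑ q, m q * ρ.wt s q) +
      (∑ q, m q * ρ.wt t q))) h3
    simp only [Polynomial.coeff_X_pow_mul'] at h5
    rw [if_pos le_rfl] at h5
    by_contra hne
    split_ifs at h5 with h6
    · rw [Nat.sub_self, Polynomial.coeff_C_zero, Polynomial.coeff_C_of_ne_zero] at h5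
      · exact hst h5
      · omega
    · rw [Nat.sub_self, Polynomial.coeff_C_zero] at h5
      exact hst h5
  have h5 := hH s
  have h6 := hH t
  have h7 : ((∑ q, m q * ρ.wt s q : ℕ) : ℤ) + ((∑ q, m q * ρ.wt t q : ℕ) : ℤ) =
      ∑ q : Tot σ, (ρ.wt s q : ℤ) * (w q.1 + 2 * c) := by
    have h8 : ((∑ q : Tot σ, W q.1 * ρ.wt s q : ℕ) : ℤ) =
        ∑ q : Tot σ, (ρ.wt s q : ℤ) * (w q.1 + 2 * c) := by
      push_cast
      apply Finset.sum_congr rfl
      intro q _
      rw [hW, mul_comm]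
    rw [← h8]
    exact_mod_cast h4
  rw [ρ.sum_wt_tot s (fun i => w i + 2 * c), h5, h6] at h7
  simp only [mul_add, Finset.sum_add_distrib] at h7
  rw [← Finset.sum_mul] at h7
  linarith

end Rep

end Pool.Agent.MP100fe7T
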