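import Pool.Agent.Lib.MP_100fe7_nt.TDefs
import Pool.Agent.Lib.MP_100fe7_nt.CmDefs

/-!
Motives over a totally real field `F` with coefficients in `E`, algebraic representations of the
`L`-group of `Res_{F/ℚ} ∏ GL(n i)`, and the Deligne periods of the motives over `ℚ` obtained from
them.

A motive `M` over `F` of shape `σ`, pure of weight `w`, is given by a family
`M φ : Datum (CE E) σ w`, one for each embedding `φ : F → E`, where `CE E = ℂ^{Hom(E, ℂ)} = E ⊗ ℂ`:
at `τ : E → ℂ`, with `τ ∘ φ = s : F → ℝ`, `(M φ).comp` is the matrix of the comparison isomorphism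
`M_s ⊗_{E, τ} ℂ → M_{DR, φ} ⊗_{E, τ} ℂ` between the Betti realisation at the real embedding `s` and
the `φ`-part of the `F ⊗ E`-module `M_DR`, in an `E`-basis of `M_s` made of bases of `M_s^+` and
`M_s^-` and an `E`-basis of `M_{DR, φ}` adapted to the Hodge filtration.
-/

namespace Pool.Agent.MP100fe7Tr

open Matrix NumberField
open MP100fe7Cm (Split Gal galElt)
open MP100fe7T (Shape frob Datum)

/-- The ring `E ⊗ ℂ = ℂ^{Hom(E, ℂ)}`. -/
def CE (E : Type) [Field E] : Type := (E →+* ℂ) → ℂ

noncomputable instance (E : Type) [Field E] : CommRing (CE E) :=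
  inferInstanceAs (CommRing ((E →+* ℂ) → ℂ))

/-- `E` is embedded in `E ⊗ ℂ` by all the embeddings `τ : E → ℂ`. -/
noncomputable instance (E : Type) [Field E] : Algebra E (CE E) :=
  RingHom.toAlgebra (RingHom.pi fun τ : E →+* ℂ => τ : E →+* ((E →+* ℂ) → ℂ))

variable (F : Type) [Field F] [NumberField F] (E : Type) [Field E] [NumberField E]

/-- A family of square matrices `A (i, φ)`, one for each `i : ι` and each embedding `φ : F → E`. -/
abbrev Fam (F E : Type) [Field F] [Field E] {ι : Type} (σ : ι → Shape) (S : Type) : Type :=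
  ∀ q : ι × (F →+* E), Matrix (σ q.1).Idx (σ q.1).Idx S

/-- The basis vectors of all the spaces. -/
abbrev Tot (F E : Type) [Field F] [Field E] {ι : Type} (σ : ι → Shape) : Type :=
  Σ q : ι × (F →+* E), (σ q.1).Idx

/-- The value at a family `A` of matrices over an `E`-algebra `S` of a matrix of polynomials over
`E` in the entries of such a family. -/
noncomputable def evalMat {F E : Type} [Field F] [Field E] {ι : Type} {σ : ι → Shape} {κ : Type}
    (mat : Matrix κ κ (MvPolynomial (Σ q : ι × (F →+* E), (σ q.1).Idx × (σ q.1).Idx) E))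
    (S : Type) [CommRing S] [Algebra E S] (A : Fam F E σ S) : Matrix κ κ S :=
  mat.map (MvPolynomial.aeval fun t => A t.1 t.2.1 t.2.2)

/-- An algebraic representation over `E` of `(∏ i, GL(n i)^{Hom(F, E)}) ⋊ Gal F E`, written in a
basis of weight vectors of the first factor. The family `A` acts by `∏ q, det (A q) ^ (-(twist i))`
(`q = (i, φ)`) times the value at `A` of the polynomial matrix `mat`; the family of diagonal
matrices `diag (x_t)` acts by `mat` on the basis vector `s` as `∏ t, x_t ^ (wt s t)`, and `mat` is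
homogeneous of degree `deg i` in the matrices with first index `i`. The element `g` of the Galois
group acts by the matrix `perm g`, and it maps the `φ`-factor to the `g φ`-factor. -/
structure Rep {ι : Type} [Fintype ι] (σ : ι → Shape) (κ : Type) [Fintype κ] [DecidableEq κ] where
  /-- the polynomial matrix -/
  mat : Matrix κ κ (MvPolynomial (Σ q : ι × (F →+* E), (σ q.1).Idx × (σ q.1).Idx) E)
  /-- exponents of the inverse determinants -/
  twist : ι → ℕ
  /-- the weights of the basis vectors for the polynomial part -/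
  wt : κ → Tot F E σ → ℕ
  /-- the degrees of the polynomial part -/
  deg : ι → ℕ
  sum_wt : ∀ s i, ∑ φ : F →+* E, ∑ j, wt s ⟨(i, φ), j⟩ = deg i
  map_mul : ∀ (S : Type) [CommRing S] [Algebra E S] (A B : Fam F E σ S),
    evalMat mat S (A * B) = evalMat mat S A * evalMat mat S B
  map_diagonal : ∀ (S : Type) [CommRing S] [Algebra E S] (x : Tot F E σ → S),
    evalMat mat S (fun q => diagonal fun j => x ⟨q, j⟩) = diagonal fun s => ∏ t, x t ^ wt s t
  /-- the action of the Galois group -/
  perm : Gal F E →* Matrix κ κ E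
  perm_mul : ∀ (g : Gal F E) (S : Type) [CommRing S] [Algebra E S] (A : Fam F E σ S),
    (perm g).map (algebraMap E S) * evalMat mat S (fun q => A (q.1, g.1 q.2)) =
      evalMat mat S A * (perm g).map (algebraMap E S)

namespace Rep

variable {F E} {ι : Type} [Fintype ι] {σ : ι → Shape} {κ : Type} [Fintype κ] [DecidableEq κ]
  (ρ : Rep F E σ κ)

/-- The matrix by which a family of invertible matrices acts. -/
noncomputable def ev (S : Type) [CommRing S] [Algebra E S] (A : Fam F E σ S) : Matrix κ κ S :=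
  Ring.inverse (∏ q, (A q).det ^ ρ.twist q.1) • evalMat ρ.mat S A

/-- The weight of the basis vector `s`. -/
def weight (s : κ) (t : Tot F E σ) : ℤ := (ρ.wt s t : ℤ) - ρ.twist t.1.1

variable {w : ι → ℤ} (M : ∀ i, (F →+* E) → Datum (CE E) (σ i) (w i))

/-- The Hodge index of the `s`-th basis vector of the de Rham realisation of `N = ρ(M)`. -/
noncomputable def hodgeIdx (s : κ) : ℤ :=
  ∑ t : Tot F E σ, ρ.weight s t * (M t.1.1 t.1.2).hodgeIdx t.2

/-- The weight of the motive `N = ρ(M)`. -/
noncomputable def motWeight (w : ι → ℤ) : ℤ :=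
  ∑ i, ((ρ.deg i : ℤ) - ρ.twist i * Fintype.card (σ i).Idx * Fintype.card (F →+* E)) * w i

/-- `N = ρ(M)` has no classes of type `(k/2, k/2)`, `k` the weight of `N`. -/
def NoMiddle : Prop := ∀ s, 2 * ρ.hodgeIdx M s ≠ ρ.motWeight w

/-- The matrix of `F_∞` on `N_B`: the `F_∞` of the `M i` act, and the complex conjugation of `ℂ`,
which gives the element `c` of the Galois group with `τ₀ ∘ c φ = conj ∘ τ₀ ∘ φ`. -/
noncomputable def frobN (hE : Split F E) (τ₀ : E →+* ℂ) : Matrix κ κ E :=
  ρ.ev E (fun q => frob E (σ q.1)) * ρ.perm (galElt hE τ₀ ((starRingEnd ℂ).comp τ₀))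

/-- At `τ : E → ℂ`, the matrix of the element `g` of the Galois group with `τ ∘ g φ = τ₀ ∘ φ`. -/
noncomputable def galMat (hE : Split F E) (τ₀ : E →+* ℂ) : Matrix κ κ (CE E) :=
  Matrix.of fun s t => (fun τ : E →+* ℂ => τ (ρ.perm (galElt hE τ τ₀) s t) : (E →+* ℂ) → ℂ)

/-- The comparison matrix of `N = ρ(M)`. At `τ : E → ℂ`, the Betti realisation `M_s` at the
embedding `s = τ₀ ∘ φ₀` of `F` is the `φ₀`-factor of the Betti side, and it is compared with the
`φ`-factor of the de Rham side, `τ ∘ φ = s`, so first the element `g` of the Galois group with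
`τ ∘ g φ₀ = τ₀ ∘ φ₀` acts, and then the family of the comparison matrices of the `M i φ`. -/
noncomputable def compN (hE : Split F E) (τ₀ : E →+* ℂ) : Matrix κ κ (CE E) :=
  ρ.ev (CE E) (fun q => (M q.1 q.2).comp) * ρ.galMat hE τ₀

/-- `x` is a Deligne period `c^+(N)` (for `ε = 1`) or `c^-(N)` (for `ε = -1`) in
`E ⊗ ℂ = ℂ^{Hom(E, ℂ)}`. The motive `N = ρ(M)` over `ℚ` has `N_B = E^κ`, where `M_s`, `s = τ₀ ∘ φ`,
is the `φ`-factor of the family, `N_DR = E^κ`, and `F^a N_DR` is spanned by the basis vectors `s`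
with `hodgeIdx s ≥ a`. The columns of `A` are an `E`-basis of `N_B^ε`, the matrix `B` is the
projection of `N_DR` onto `N_DR / F^ε N`, written in an `E`-basis of the quotient, where `F^ε N` is
the step of the Hodge filtration with `dim N_DR / F^ε N = dim N_B^ε`, and `x` is the determinant of
`N_B^ε ⊗ ℂ → (N_DR / F^ε N) ⊗ ℂ` in these `E`-bases. -/
def IsPeriod (hE : Split F E) (τ₀ : E →+* ℂ) (ε : E) (x : CE E) : Prop :=
  ∃ (a : ℤ) (d : ℕ) (A : Matrix κ (Fin d) E) (B : Matrix (Fin d) κ E),
    Function.Injective A.mulVec ∧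
    (∀ v : κ → E, v ∈ Set.range A.mulVec ↔ (ρ.frobN hE τ₀).mulVec v = ε • v) ∧
    Function.Surjective B.mulVec ∧
    (∀ v : κ → E, B.mulVec v = 0 ↔ ∀ s, ρ.hodgeIdx M s < a → v s = 0) ∧
    x = (B.map (algebraMap E (CE E)) * ρ.compN M hE τ₀ * A.map (algebraMap E (CE E))).det

/-- `u` is the determinant of the element `g` of the Galois group on `N_B^ε`. -/
def IsGalDet (hE : Split F E) (τ₀ : E →+* ℂ) (ε : E) (g : Gal F E) (u : E) : Prop :=
  ∃ (d : ℕ) (A : Matrix κ (Fin d) E) (V : Matrix (Fin d) (Fin d) E),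
    Function.Injective A.mulVec ∧
    (∀ v : κ → E, v ∈ Set.range A.mulVec ↔ (ρ.frobN hE τ₀).mulVec v = ε • v) ∧
    ρ.perm g * A = A * V ∧ u = V.det

/-- The eigenvalue of `F_∞` on the basis vector `s` of `N_B`, `N = ρ(M)`: the product of the signs
`±1` of the basis vectors of the `M_s` to the powers `weight s t = wt s t - twist`, which have the
parity of `wt s t + twist`. -/
noncomputable def sgn (s : κ) : ℤ :=
  ∏ t : Tot F E σ, (σ t.1.1).sgn t.2 ^ (ρ.wt s t + ρ.twist t.1.1)

/-- The basis vectors of `N_B` on which `F_∞` acts by `ε = ±1`. -/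
noncomputable def signPart (ε : ℤ) : Finset κ := Finset.univ.filter fun s => ρ.sgn s = ε

/-- The basis vectors of `N_DR` with Hodge index `< a`, a basis of `N_DR / F^a N_DR`. -/
noncomputable def lowPart (a : ℤ) : Finset κ := Finset.univ.filter fun s => ρ.hodgeIdx M s < a

/-- `F^a N_DR` is the step `F^ε N` of the Hodge filtration, `ε = ±1`: the dimension of
`N_DR / F^a N_DR` is that of `N_B^ε`. -/
def IsStep (ε : ℤ) (a : ℤ) : Prop := (ρ.lowPart M a).card = (ρ.signPart ε).card

end Rep

end Pool.Agent.MP100fe7Tr
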