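import Pool.Agent.Lib.MP_100fe7_nt.TrGal
import Pool.Agent.Lib.MP_100fe7_nt.TFinal

/-!
Reduction of the Deligne periods of `ρ(M)` to the polynomial part (totally real fields).
-/

set_option linter.unusedSectionVars false

namespace Pool.Agent.MP100fe7Tr

open Matrix NumberField
open MP100fe7Cm (Split Gal galElt galElt_spec comp_injective exists_gal det_unique)
open MP100fe7T (Shape frob Datum sgnT sgn_sq IsPer isPer_of_coords lo_unique)
open MP100fe7L (PolRep hiT)

variable {F : Type} [Field F] [NumberField F] {E : Type} [Field E] [NumberField E]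
  {ι : Type} [Fintype ι] [DecidableEq ι] {σ : ι → Shape} {κ : Type} [Fintype κ]
  [DecidableEq κ] (ρ : Rep F E σ κ)

/-- the value at an embedding -/
def evT (τ : E →+* ℂ) : CE E →+* ℂ := Pi.evalRingHom (fun _ : E →+* ℂ => ℂ) τ

theorem evT_apply (τ : E →+* ℂ) (x : CE E) : evT τ x = x τ := rfl

theorem evT_algebraMap (τ : E →+* ℂ) (e : E) : evT τ (algebraMap E (CE E) e) = τ e := rfl

theorem CE_ext {x y : CE E} (h : ∀ τ, evT τ x = evT τ y) : x = y := funext h

namespace Rep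

/-- the sign of the twist -/
noncomputable def tau : ℤ := ∏ t : Tot F E σ, (σ t.1.1).sgn t.2 ^ ρ.twist t.1.1

theorem sgn_eq_tau (s : κ) : ρ.sgn s = ρ.tau * ρ.sgQ s := by
  unfold sgn tau sgQ PolRep.sgP
  rw [← Finset.prod_mul_distrib]
  apply Finset.prod_congr rfl
  intro q _
  rw [pow_add, mul_comm]
  rfl

theorem tau_sq : ρ.tau * ρ.tau = 1 := by
  unfold tau
  rw [← Finset.prod_mul_distrib]
  apply Finset.prod_eq_one
  intro q _
  rw [← mul_pow, sgn_sq, one_pow]

theorem tau_cases : ρ.tau = 1 ∨ ρ.tau = -1 := by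
  have h := ρ.tau_sq
  have h2 : (ρ.tau - 1) * (ρ.tau + 1) = 0 := by linear_combination h
  rcases mul_eq_zero.mp h2 with h3 | h3
  · left
    linarith
  · right
    linarith

theorem sgn_eq_iff (ε : ℤ) (s : κ) : ρ.sgn s = ε ↔ ρ.sgQ s = ρ.tau * ε := by
  rw [sgn_eq_tau]
  constructor
  · intro h
    rw [← h, ← mul_assoc, tau_sq, one_mul]
  · intro h
    rw [h, ← mul_assoc, tau_sq, one_mul]

theorem tau_mul_cases {ε : ℤ} (hε : ε = 1 ∨ ε = -1) : ρ.tau * ε = 1 ∨ ρ.tau * ε = -1 := by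
  rcases ρ.tau_cases with h | h <;> rcases hε with rfl | rfl <;> rw [h] <;> norm_num

theorem prod_det_frob (S : Type) [CommRing S] :
    ∏ q : ι × (F →+* E), (frob S (σ q.1)).det ^ ρ.twist q.1 = ((ρ.tau : ℤ) : S) := by
  unfold tau
  rw [Fintype.prod_sigma]
  push_cast
  apply Finset.prod_congr rfl
  intro i _
  unfold frob
  rw [det_diagonal, ← Finset.prod_pow]

theorem ev_frob : ρ.ev E (fun q => frob E (σ q.1)) =
    diagonal fun s => ((ρ.sgn s : ℤ) : E) := by
  unfold ev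
  rw [prod_det_frob, Ring.inverse_eq_inv']
  have h1 : evalMat ρ.mat E (fun q => frob E (σ q.1)) =
      diagonal fun s => ((ρ.sgQ s : ℤ) : E) :=
    PolRep.pol_ffrob (σ := fun q : ι × (F →+* E) => σ q.1) ρ.toPol E
  rw [h1, ← diagonal_smul]
  congr 1
  funext s
  rw [Pi.smul_apply, smul_eq_mul, sgn_eq_tau]
  push_cast
  congr 1
  rcases ρ.tau_cases with h | h <;> rw [h] <;> simp

variable (hE : Split F E) (τ₀ : E →+* ℂ)

theorem frobN_eq [IsTotallyReal F] : ρ.frobN hE τ₀ = diagonal fun s => ((ρ.sgn s : ℤ) : E) := by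
  unfold frobN
  rw [galElt_conj, map_one, Matrix.mul_one, ev_frob]

theorem frob_eigen [IsTotallyReal F] (ε : ℤ) (v : κ → E) :
    (ρ.frobN hE τ₀).mulVec v = (ε : E) • v ↔ ∀ s, ¬ ρ.sgn s = ε → v s = 0 := by
  rw [frobN_eq]
  constructor
  · intro h s hs
    have h1 := congrFun h s
    rw [mulVec_diagonal, Pi.smul_apply, smul_eq_mul] at h1
    have h2 : ((ρ.sgn s - ε : ℤ) : E) * v s = 0 := by
      push_cast
      linear_combination h1
    rcases mul_eq_zero.mp h2 with h3 | h3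
    · exfalso
      apply hs
      have := Int.cast_eq_zero.mp h3
      omega
    · exact h3
  · intro h
    funext s
    rw [mulVec_diagonal, Pi.smul_apply, smul_eq_mul]
    by_cases hs : ρ.sgn s = ε
    · rw [hs]
    · rw [h s hs, mul_zero, mul_zero]

/-- Galois elements preserve the signs. -/
theorem sgn_perm (g : Gal F E) (s t : κ) (h : ρ.perm g s t ≠ 0) : ρ.sgn s = ρ.sgn t := by
  rw [sgn_eq_tau, sgn_eq_tau, ρ.sgQ_perm g s t h]

section galdet

variable [IsTotallyReal F] {d : ℕ} {A : Matrix κ (Fin d) E} {L : Matrix (Fin d) κ E}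
  (hL : L * A = 1) {ε : ℤ}
  (hr : ∀ v : κ → E, v ∈ Set.range A.mulVec ↔ (ρ.frobN hE τ₀).mulVec v = (ε : E) • v)

include hL hr in
/-- the Galois elements act on the eigenspace -/
theorem perm_act (g : Gal F E) : ρ.perm g * A = A * (L * ρ.perm g * A) := by
  have h1 : ∀ x : Fin d → E, (ρ.perm g * A).mulVec x = (A * (L * ρ.perm g * A)).mulVec x := by
    intro x
    have h2 : (ρ.perm g).mulVec (A.mulVec x) ∈ Set.range A.mulVec := by
      rw [hr, frob_eigen]
      intro s hs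
      simp only [mulVec, dotProduct]
      apply Finset.sum_eq_zero
      intro t _
      by_cases hst : ρ.perm g s t = 0
      · rw [hst, zero_mul]
      · have h3 : A.mulVec x t = 0 := by
          have h4 : A.mulVec x ∈ Set.range A.mulVec := ⟨x, rfl⟩
          rw [hr, frob_eigen] at h4
          apply h4
          rwa [← ρ.sgn_perm g s t hst]
        have h4 : ∑ i, A t i * x i = 0 := h3
        rw [h4, mul_zero]
    obtain ⟨y, hy⟩ := h2
    rw [← mulVec_mulVec, ← hy, ← mulVec_mulVec, Matrix.mul_assoc, ← mulVec_mulVec,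
      ← mulVec_mulVec, ← hy, mulVec_mulVec y, hL, one_mulVec]
  ext s j
  have h5 := congrFun (h1 (Pi.single j 1)) s
  simpa using h5

include hL hr in
theorem perm_act_mul (g g' : Gal F E) : L * ρ.perm (g * g') * A =
    (L * ρ.perm g * A) * (L * ρ.perm g' * A) := by
  rw [_root_.map_mul, ← Matrix.mul_assoc, Matrix.mul_assoc _ (ρ.perm g') A,
    perm_act ρ hE τ₀ hL hr g', ← Matrix.mul_assoc]

include hL in
theorem perm_act_one : L * ρ.perm 1 * A = 1 := by
  rw [map_one, Matrix.mul_one, hL]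

/-- the action of the Galois group on the eigenspace -/
noncomputable def galAct : Gal F E →* Matrix (Fin d) (Fin d) E where
  toFun g := L * ρ.perm g * A
  map_one' := perm_act_one ρ hL
  map_mul' := perm_act_mul ρ hE τ₀ hL hr

include hL hr in
theorem galDet_pow (g : Gal F E) : (L * ρ.perm g * A).det ^ Nat.card (Gal F E) = 1 := by
  have h1 : (L * ρ.perm g * A).det = (galAct ρ hE τ₀ hL hr g).det := rfl
  rw [h1, ← det_pow, ← map_pow, pow_card_eq_one', map_one, det_one]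

/-- the matrix by which `galMat` acts on the eigenspace -/
noncomputable def galW (L : Matrix (Fin d) κ E) (A : Matrix κ (Fin d) E) :
    Matrix (Fin d) (Fin d) (CE E) :=
  Matrix.of fun i j => (fun τ : E →+* ℂ => τ ((L * ρ.perm (galElt hE τ τ₀) * A) i j) :
    (E →+* ℂ) → ℂ)

theorem evT_galMat (τ : E →+* ℂ) :
    (ρ.galMat hE τ₀).map (evT τ) = (ρ.perm (galElt hE τ τ₀)).map τ := rfl

theorem evT_galW (τ : E →+* ℂ) :
    (ρ.galW hE τ₀ L A).map (evT τ) = (L * ρ.perm (galElt hE τ τ₀) * A).map τ := rfl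

theorem evT_map {m n : Type} (A : Matrix m n E) (τ : E →+* ℂ) :
    (A.map (algebraMap E (CE E))).map (evT τ) = A.map τ := rfl

include hL hr in
theorem galMat_mul : ρ.galMat hE τ₀ * A.map (algebraMap E (CE E)) =
    A.map (algebraMap E (CE E)) * ρ.galW hE τ₀ L A := by
  ext s j
  apply CE_ext
  intro τ
  have h1 : (ρ.galMat hE τ₀ * A.map (algebraMap E (CE E))).map (evT τ) =
      (A.map (algebraMap E (CE E)) * ρ.galW hE τ₀ L A).map (evT τ) := by
    rw [Matrix.map_mul, Matrix.map_mul, evT_galMat, evT_map, evT_galW, ← Matrix.map_mul,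
      ← Matrix.map_mul, ρ.perm_act hE τ₀ hL hr]
  exact congrFun (congrFun h1 s) j

theorem evT_det_galW (τ : E →+* ℂ) :
    evT τ (ρ.galW hE τ₀ L A).det = τ (L * ρ.perm (galElt hE τ τ₀) * A).det := by
  have h1 := RingHom.map_det (evT τ) (ρ.galW hE τ₀ L A)
  have h2 := RingHom.map_det τ (L * ρ.perm (galElt hE τ τ₀) * A)
  rw [h1, h2]
  rfl

end galdet

/-- The determinant of a Galois element on `N_B^ε` is well defined. -/
theorem isGalDet_unique {ε : E} {g : Gal F E} {u u' : E} (h : ρ.IsGalDet hE τ₀ ε g u)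
    (h' : ρ.IsGalDet hE τ₀ ε g u') : u = u' := by
  obtain ⟨d, A, V, hA, hr, hV, rfl⟩ := h
  obtain ⟨d', A', V', hA', hr', hV', rfl⟩ := h'
  exact det_unique hA hA' (fun v => by rw [hr, hr']) _ hV hV'

variable {w : ι → ℤ} (M : ∀ i, (F →+* E) → Datum (CE E) (σ i) (w i))

/-- the family of the data -/
def fam : ∀ q : ι × (F →+* E), Datum (CE E) (σ q.1) (w q.1) := fun q => M q.1 q.2

/-- the shift of the heights by the twist -/
noncomputable def shift : ℤ :=
  ∑ t : Tot F E σ, (ρ.twist t.1.1 : ℤ) * (M t.1.1 t.1.2).hodgeIdx t.2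

/-- the height of a basis vector: Hodge index for the polynomial part -/
noncomputable def hgt (s : κ) : ℤ :=
  ρ.toPol.height (hiT (σ := fun q : ι × (F →+* E) => σ q.1) (w := fun q => w q.1) (fam M)) s

theorem hodgeIdx_eq (s : κ) : ρ.hodgeIdx M s = ρ.hgt M s - ρ.shift M := by
  unfold hodgeIdx hgt PolRep.height shift weight hiT
  rw [← Finset.sum_sub_distrib]
  apply Finset.sum_congr rfl
  intro q _
  rw [sub_mul]
  rfl

theorem two_shift : 2 * ρ.shift M =
    ∑ i, (ρ.twist i : ℤ) * Fintype.card (σ i).Idx * Fintype.card (F →+* E) * w i := by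
  unfold shift
  rw [Fintype.sum_sigma, Fintype.sum_prod_type, Finset.mul_sum]
  apply Finset.sum_congr rfl
  intro i _
  rw [Finset.mul_sum]
  have h0 : ∀ φ : F →+* E, 2 * ∑ j, (ρ.twist i : ℤ) * (M i φ).hodgeIdx j =
      (ρ.twist i : ℤ) * Fintype.card (σ i).Idx * w i := by
    intro φ
    rw [← Finset.mul_sum]
    have h1 : 2 * ∑ j, (M i φ).hodgeIdx j = Fintype.card (σ i).Idx * w i := by
      rw [Fintype.sum_sum_type, Fintype.sum_sum_type]
      have h2 : ∀ j, (M i φ).hodgeIdx (Sum.inl (Sum.inl j)) = (M i φ).p j := fun j => rfl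
      have h3 : ∀ j, (M i φ).hodgeIdx (Sum.inl (Sum.inr j)) = w i - (M i φ).p j := fun j => rfl
      have h4 : ∀ j, 2 * (M i φ).hodgeIdx (Sum.inr j) = w i := fun j => (M i φ).two_mid j
      simp only [h2, h3]
      rw [Finset.sum_sub_distrib, mul_add,
        Finset.mul_sum (f := fun j => (M i φ).hodgeIdx (Sum.inr j))]
      simp only [h4]
      simp only [Finset.sum_const, Finset.card_univ, Fintype.card_sum, Fintype.card_fin,
        nsmul_eq_mul]
      push_cast
      ring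
    linear_combination (ρ.twist i : ℤ) * h1
  rw [Finset.sum_congr rfl (fun φ _ => h0 φ), Finset.sum_const, Finset.card_univ, nsmul_eq_mul]
  ring

/-- the weight of the polynomial part -/
noncomputable def W₀ (w : ι → ℤ) : ℤ := ∑ i, (ρ.deg i : ℤ) * w i

theorem sum_wt_w (w : ι → ℤ) (s : κ) : ∑ t : Tot F E σ, (ρ.toPol.wt s t : ℤ) * w t.1.1 = ρ.W₀ w := by
  rw [Fintype.sum_sigma, Fintype.sum_prod_type]
  unfold W₀
  apply Finset.sum_congr rfl
  intro i _
  have h1 := ρ.sum_wt s i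
  rw [← h1]
  push_cast
  rw [Finset.sum_mul]
  apply Finset.sum_congr rfl
  intro φ _
  rw [Finset.sum_mul]
  rfl

theorem motWeight_eq : ρ.motWeight w = ρ.W₀ w - 2 * ρ.shift M := by
  rw [two_shift]
  unfold motWeight W₀
  rw [← Finset.sum_sub_distrib]
  apply Finset.sum_congr rfl
  intro i _
  ring

/-- the twisting factor -/
noncomputable def lam : CE E := Ring.inverse (∏ q : ι × (F →+* E), (M q.1 q.2).comp.det ^ ρ.twist q.1)

/-- the polynomial part of the comparison matrix -/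
noncomputable def polC : Matrix κ κ (CE E) :=
  ρ.toPol.pol (CE E) fun q : ι × (F →+* E) => (M q.1 q.2).comp

theorem compN_eq : ρ.compN M hE τ₀ = (ρ.lam M • ρ.polC M) * ρ.galMat hE τ₀ := rfl

variable [IsTotallyReal F]

theorem card_signPart (ε : ℤ) :
    (ρ.signPart ε).card = Fintype.card {s // ρ.sgQ s = ρ.tau * ε} := by
  rw [Fintype.card_subtype]
  unfold signPart
  congr 1
  apply Finset.filter_congr
  intro s _
  exact ρ.sgn_eq_iff ε s

theorem card_lowPart (a : ℤ) :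
    (ρ.lowPart M a).card = Fintype.card {s // ρ.hgt M s < a + ρ.shift M} := by
  rw [Fintype.card_subtype]
  unfold lowPart
  congr 1
  apply Finset.filter_congr
  intro s _
  rw [ρ.hodgeIdx_eq M]
  omega

/-- without middle classes, the step of the filtration is the one of the problem -/
theorem isStep_of_noMiddle (hmid : ρ.NoMiddle M) {ε : ℤ} (hε : ε = 1 ∨ ε = -1) :
    ρ.IsStep M ε ((ρ.motWeight w + 1) / 2) := by
  unfold IsStep
  have h0 : ∀ s, 2 * ρ.hgt M s ≠ ρ.W₀ w := by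
    intro s
    have h1 := ρ.motWeight_eq M
    have h2 := hmid s
    have h3 := ρ.hodgeIdx_eq M s
    omega
  have h1 := MP100fe7L.card_sgP_eq (σ := fun q : ι × (F →+* E) => σ q.1) ρ.toPol
    (w := fun q => w q.1) (fam M) (ρ.W₀ w) (ρ.sum_wt_w w) h0 (ρ.tau * ε) (ρ.tau_mul_cases hε)
  rw [card_signPart, card_lowPart]
  have h2 : Fintype.card {s // ρ.sgQ s = ρ.tau * ε} =
      Fintype.card {s // 2 * ρ.hgt M s < ρ.W₀ w} := h1
  rw [h2]
  apply Fintype.card_congr
  apply Equiv.subtypeEquivRight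
  intro s
  have h1 := ρ.motWeight_eq M
  omega

/-- the basis vectors of `N_DR / F^a` span it -/
theorem exists_period (a : ℤ) (ε : ℤ) (hst : ρ.IsStep M ε a) :
    ∃ x : CE E, ρ.IsPeriod M hE τ₀ (ε : E) x := by
  have ha : Fintype.card {s // ρ.hodgeIdx M s < a} = Fintype.card {s // ρ.sgn s = ε} := by
    rw [Fintype.card_subtype, Fintype.card_subtype]
    exact hst
  let ψ : Fin (Fintype.card {s // ρ.hodgeIdx M s < a}) ≃ {s // ρ.hodgeIdx M s < a} :=
    (Fintype.equivFin _).symm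
  let φ : Fin (Fintype.card {s // ρ.hodgeIdx M s < a}) ≃ {s // ρ.sgn s = ε} :=
    (finCongr ha).trans (Fintype.equivFin _).symm
  obtain ⟨d, A, B, h1, h2, h3, h4, h5⟩ := isPer_of_coords (E := E) _ _ (ρ.compN M hE τ₀) ψ φ
  refine ⟨_, a, d, A, B, h1, ?_, h3, h4, rfl⟩
  intro v
  rw [h2, frob_eigen]

theorem exists_galDet (ε : ℤ) (g : Gal F E) :
    ∃ u, ρ.IsGalDet hE τ₀ (ε : E) g u ∧ u ^ Nat.card (Gal F E) = 1 := by
  let φ : Fin (Fintype.card {s // ρ.sgn s = ε}) ≃ {s // ρ.sgn s = ε} :=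
    (Fintype.equivFin _).symm
  obtain ⟨d, A, B, h1, h2, -, -, -⟩ := isPer_of_coords (E := E) _ _ (1 : Matrix κ κ E) φ φ
  obtain ⟨L, hL⟩ := MP100fe7L.exists_left A h1
  have hr : ∀ v : κ → E, v ∈ Set.range A.mulVec ↔ (ρ.frobN hE τ₀).mulVec v = (ε : E) • v := by
    intro v
    rw [h2, frob_eigen]
  exact ⟨_, ⟨_, A, _, h1, hr, perm_act ρ hE τ₀ hL hr g, rfl⟩, galDet_pow ρ hE τ₀ hL hr g⟩

/-- reduction to the polynomial part -/
theorem period_pol (a : ℤ) (ε : ℤ) (hst : ρ.IsStep M ε a) {x : CE E}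
    (hx : ρ.IsPeriod M hE τ₀ (ε : E) x) : ∃ (e : Eˣ) (x₀ U : CE E),
      IsPer E (fun s => ρ.hgt M s < a + ρ.shift M) (fun s => ρ.sgQ s = ρ.tau * ε)
        (ρ.polC M) x₀ ∧
      (∀ τ u, ρ.IsGalDet hE τ₀ (ε : E) (galElt hE τ τ₀) u → evT τ U = τ u) ∧
      x = algebraMap E (CE E) e * ρ.lam M ^ (ρ.signPart ε).card * x₀ * U := by
  obtain ⟨a', d, A, B, h1, h2, h3, h4, rfl⟩ := hx
  obtain ⟨L, hL⟩ := MP100fe7L.exists_left A h1
  have hP : IsPer E (fun s => ρ.hodgeIdx M s < a') (fun s => ρ.sgn s = ε)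
      (ρ.lam M • ρ.polC M) (B.map (algebraMap E (CE E)) * (ρ.lam M • ρ.polC M) *
        A.map (algebraMap E (CE E))).det := by
    refine ⟨d, A, B, h1, ?_, h3, h4, rfl⟩
    intro v
    rw [h2, frob_eigen]
  have hU : ∀ τ u, ρ.IsGalDet hE τ₀ (ε : E) (galElt hE τ τ₀) u →
      evT τ (ρ.galW hE τ₀ L A).det = τ u := by
    intro τ u hu
    rw [evT_det_galW]
    congr 1
    exact ρ.isGalDet_unique hE τ₀ ⟨_, A, _, h1, h2, perm_act ρ hE τ₀ hL h2 _, rfl⟩ hu
  have hx : (B.map (algebraMap E (CE E)) * ρ.compN M hE τ₀ * A.map (algebraMap E (CE E))).det =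
      (B.map (algebraMap E (CE E)) * (ρ.lam M • ρ.polC M) * A.map (algebraMap E (CE E))).det *
        (ρ.galW hE τ₀ L A).det := by
    rw [compN_eq, ← Matrix.mul_assoc, Matrix.mul_assoc _ (ρ.galMat hE τ₀),
      galMat_mul ρ hE τ₀ hL h2, ← Matrix.mul_assoc, det_mul]
  rw [hx]
  obtain ⟨d, ψ, φ, e, hcoord⟩ := hP.coords
  have hd : d = (ρ.signPart ε).card := by
    rw [card_signPart]
    have h1 := Fintype.card_congr φ
    rw [Fintype.card_fin] at h1
    rw [h1]
    apply Fintype.card_congr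
    apply Equiv.subtypeEquivRight
    intro s
    exact ρ.sgn_eq_iff ε s
  have hc : Fintype.card {s // ρ.hodgeIdx M s < a'} = Fintype.card {s // ρ.hodgeIdx M s < a} := by
    have h1 := Fintype.card_congr ψ
    rw [Fintype.card_fin, hd] at h1
    rw [← h1, Fintype.card_subtype]
    exact hst.symm
  have hlo : ∀ s, ρ.hodgeIdx M s < a' ↔ ρ.hgt M s < a + ρ.shift M := by
    intro s
    rw [lo_unique _ _ _ hc s, ρ.hodgeIdx_eq M]
    omega
  let ψ' : Fin d ≃ {s // ρ.hgt M s < a + ρ.shift M} :=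
    ψ.trans (Equiv.subtypeEquivRight hlo)
  let φ' : Fin d ≃ {s // ρ.sgQ s = ρ.tau * ε} :=
    φ.trans (Equiv.subtypeEquivRight (ρ.sgn_eq_iff ε))
  refine ⟨e, _, _, isPer_of_coords _ _ (ρ.polC M) ψ' φ', hU, ?_⟩
  rw [hcoord, Matrix.submatrix_smul, Pi.smul_apply, Pi.smul_apply, det_smul, Fintype.card_fin,
    ← hd]
  simp only [mul_assoc]
  rfl

end Rep

end Pool.Agent.MP100fe7Tr
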