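import Pool.Agent.Lib.MP_100fe7_nt.UCut
import Pool.Agent.Lib.MP_100fe7_nt.TrDefs
import Pool.Agent.Lib.MP_100fe7_nt.CmExist

/-!
The Galois group and the weights of a representation of the `L`-group (totally real fields).
-/

set_option linter.unusedSectionVars false

namespace Pool.Agent.MP100fe7Tr

open Matrix NumberField
open MP100fe7Cm (Split Gal galElt galElt_spec comp_injective exists_gal det_unique)
open MP100fe7T (Shape frob Datum sgnT sgn_sq)
open MP100fe7L (PolRep)

variable {F : Type} [Field F] [NumberField F] {E : Type} [Field E] [NumberField E]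

/-- complex conjugation acts trivially on the embeddings of a totally real field -/
theorem galElt_conj [IsTotallyReal F] (hE : Split F E) (τ₀ : E →+* ℂ) :
    galElt hE τ₀ ((starRingEnd ℂ).comp τ₀) = 1 := by
  apply Subtype.ext
  apply Equiv.ext
  intro φ
  apply comp_injective τ₀
  rw [galElt_spec]
  have h1 : ComplexEmbedding.IsReal (τ₀.comp φ) := by
    have h2 := IsTotallyReal.isReal (InfinitePlace.mk (τ₀.comp φ))
    exact InfinitePlace.isReal_mk_iff.mp h2
  exact h1

namespace Rep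

variable {ι : Type} [Fintype ι] [DecidableEq ι] {σ : ι → Shape} {κ : Type} [Fintype κ]
  [DecidableEq κ] (ρ : Rep F E σ κ)

/-- the polynomial part -/
noncomputable def toPol : PolRep E (fun q : ι × (F →+* E) => (σ q.1).Idx) κ where
  mat := ρ.mat
  wt := ρ.wt
  tdeg := ∑ i, ρ.deg i
  sum_wt s := by
    rw [Fintype.sum_sigma, Fintype.sum_prod_type]
    apply Finset.sum_congr rfl
    intro i _
    exact ρ.sum_wt s i
  map_mul := ρ.map_mul
  map_diagonal := ρ.map_diagonal

theorem perm_pol (g : Gal F E) (S : Type) [CommRing S] [Algebra E S] (A : Fam F E σ S) :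
    (ρ.perm g).map (algebraMap E S) * ρ.toPol.pol S (fun q => A (q.1, g.1 q.2)) =
      ρ.toPol.pol S A * (ρ.perm g).map (algebraMap E S) := ρ.perm_mul g S A

theorem perm_mul_inv (g : Gal F E) : ρ.perm g * ρ.perm g⁻¹ = 1 := by
  rw [← _root_.map_mul, mul_inv_cancel, map_one]

/-- The matrix of a Galois element relates the weight spaces. -/
theorem wt_perm (g : Gal F E) (s t : κ) (h : ρ.perm g s t ≠ 0) (i : ι) (φ : F →+* E)
    (j : (σ i).Idx) : ρ.wt s ⟨(i, g.1 φ), j⟩ = ρ.wt t ⟨(i, φ), j⟩ := by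
  let P := Polynomial E
  let t₀ : Tot F E σ := ⟨(i, g.1 φ), j⟩
  let x : Tot F E σ → P := Function.update (1 : Tot F E σ → P) t₀ Polynomial.X
  have h1 := ρ.perm_pol g P (MP100fe7L.fdiag (J := fun q : ι × (F →+* E) => (σ q.1).Idx) x)
  have h2 : (fun q : ι × (F →+* E) => (MP100fe7L.fdiag x : Fam F E σ P) (q.1, g.1 q.2)) =
      MP100fe7L.fdiag (J := fun q : ι × (F →+* E) => (σ q.1).Idx)
        (fun t : Tot F E σ => x ⟨(t.1.1, g.1 t.1.2), t.2⟩) := rfl
  rw [h2, ρ.toPol.pol_diag, ρ.toPol.pol_diag] at h1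
  have h3 := congrFun (congrFun h1 s) t
  rw [mul_diagonal, diagonal_mul, Matrix.map_apply] at h3
  have h4 : ∏ q : Tot F E σ, x q ^ ρ.toPol.wt s q = Polynomial.X ^ ρ.wt s t₀ := by
    rw [Finset.prod_eq_single t₀]
    · simp only [x, Function.update_self]
      rfl
    · intro q _ hq
      simp only [x]
      rw [Function.update_of_ne hq]
      simp
    · simp
  have h5 : ∏ q : Tot F E σ, x ⟨(q.1.1, g.1 q.1.2), q.2⟩ ^ ρ.toPol.wt t q =
      Polynomial.X ^ ρ.wt t ⟨(i, φ), j⟩ := by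
    rw [Finset.prod_eq_single (⟨(i, φ), j⟩ : Tot F E σ)]
    · have : (⟨(i, g.1 φ), j⟩ : Tot F E σ) = t₀ := rfl
      simp only [x]
      rw [this, Function.update_self]
      rfl
    · rintro ⟨⟨i', φ'⟩, j'⟩ _ hq
      simp only [x]
      rw [Function.update_of_ne]
      · simp
      · intro h'
        apply hq
        simp only [t₀, Sigma.mk.injEq, Prod.mk.injEq] at h'
        obtain ⟨⟨rfl, h6⟩, h7⟩ := h'
        have h8 := g.1.injective h6
        subst h8
        rw [eq_of_heq h7]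
    · simp
  rw [h4, h5] at h3
  have h6 : (Polynomial.C (ρ.perm g s t) : P) ≠ 0 := Polynomial.C_ne_zero.mpr h
  have h7 : (algebraMap E P) (ρ.perm g s t) = Polynomial.C (ρ.perm g s t) := rfl
  rw [h7, mul_comm] at h3
  have h8 := mul_right_cancel₀ h6 h3
  have h9 := congrArg Polynomial.natDegree h8
  simpa using h9.symm

theorem exists_perm (g : Gal F E) : ∃ r : Equiv.Perm κ, ∀ t, ρ.perm g (r t) t ≠ 0 := by
  have h1 : (ρ.perm g).det ≠ 0 := by
    have h2 := congrArg Matrix.det (ρ.perm_mul_inv g)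
    rw [det_mul, det_one] at h2
    exact left_ne_zero_of_mul_eq_one h2
  rw [det_apply] at h1
  obtain ⟨r, -, hr⟩ := Finset.exists_ne_zero_of_sum_ne_zero h1
  refine ⟨r, ?_⟩
  intro t ht
  apply hr
  have h3 : ∏ i, ρ.perm g (r i) i = 0 := Finset.prod_eq_zero (Finset.mem_univ t) ht
  rw [h3, smul_zero]

/-- The sign of `F_∞` on the basis vector `s`, polynomial part. -/
noncomputable def sgQ (s : κ) : ℤ := ρ.toPol.sgP (σ := fun q : ι × (F →+* E) => σ q.1) s

/-- Galois elements preserve the signs. -/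
theorem sgQ_perm (g : Gal F E) (s t : κ) (h : ρ.perm g s t ≠ 0) : ρ.sgQ s = ρ.sgQ t := by
  unfold sgQ PolRep.sgP
  rw [Fintype.prod_sigma, Fintype.prod_sigma, Fintype.prod_prod_type, Fintype.prod_prod_type]
  apply Finset.prod_congr rfl
  intro i _
  rw [← Equiv.prod_comp g.1]
  apply Finset.prod_congr rfl
  intro φ _
  apply Finset.prod_congr rfl
  intro j _
  have h1 := ρ.wt_perm g s t h i φ j
  have h2 : ρ.toPol.wt s ⟨(i, g.1 φ), j⟩ = ρ.toPol.wt t ⟨(i, φ), j⟩ := h1
  rw [h2]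
  rfl

/-- The sum over a sign part of the weights at a basis vector does not depend on the embedding. -/
theorem sum_wt_sg (hE : Split F E) (ε : ℤ) (i : ι) (φ φ' : F →+* E) (j : (σ i).Idx) :
    ∑ s with ρ.sgQ s = ε, ρ.wt s ⟨(i, φ), j⟩ = ∑ s with ρ.sgQ s = ε, ρ.wt s ⟨(i, φ'), j⟩ := by
  obtain ⟨g, rfl⟩ := exists_gal hE φ φ'
  obtain ⟨r, hr⟩ := ρ.exists_perm g
  rw [Finset.sum_filter, Finset.sum_filter,
    ← Equiv.sum_comp r (fun s => if ρ.sgQ s = ε then ρ.wt s ⟨(i, g.1 φ), j⟩ else 0)]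
  apply Finset.sum_congr rfl
  intro s _
  rw [ρ.sgQ_perm g _ _ (hr s), ρ.wt_perm g _ _ (hr s) i φ j]

end Rep

end Pool.Agent.MP100fe7Tr
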