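import Pool.Agent.Lib.MP_100fe7_nt.TrFinal
import Pool.Agent.Lib.MP_100fe7_nt.TMain

/-!
The closed formula for the Deligne periods of `ρ(M)` (totally real fields).
-/

set_option linter.unusedSectionVars false

namespace Pool.Agent.MP100fe7Tr

open Matrix NumberField
open MP100fe7Cm (Split Gal galElt)
open MP100fe7T (Shape frob Datum sgnT sgn_sq IsPer isPer_of_coords lo_unique gz gz_map detP det_sgn
  prod_sgn_colors scalar_periods cls Cl cls_eq_of_val exists_of_cls_eq alg_scalar alg_nonscalar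
  det_gz_ne)
open MP100fe7L (PolRep hiT fb blk colors)
open Rep (fam)

section exp

variable {F : Type} [Field F] [NumberField F] {E : Type} [Field E]
  [NumberField E] {ι : Type} [Fintype ι] [DecidableEq ι] {σ : ι → Shape} {κ : Type} [Fintype κ]
  [DecidableEq κ] (ρ : Rep F E σ κ)

/-- The sum over the sign part of the weights at a basis vector, as a function of its sign. -/
theorem exists_exp (hE : Split F E) (ε : ℤ)
    (k : ι × (F →+* E) → ℤ → ℕ)
    (hk : ∀ (q : ι × (F →+* E)) (j : (σ q.1).Idx),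
      k q ((σ q.1).sgn j) = ∑ s with ρ.sgQ s = ε, ρ.wt s ⟨q, j⟩) :
    ∃ k' : ι → ℤ → ℕ, ∀ (q : ι × (F →+* E)) (j : (σ q.1).Idx),
      k' q.1 ((σ q.1).sgn j) = k q ((σ q.1).sgn j) := by
  classical
  obtain ⟨φ₀⟩ : Nonempty (F →+* E) := by
    obtain ⟨τ⟩ : Nonempty (E →+* ℂ) := inferInstance
    obtain ⟨s⟩ : Nonempty (F →+* ℂ) := inferInstance
    obtain ⟨φ, -⟩ := hE τ s
    exact ⟨φ⟩
  refine ⟨fun i c => k (i, φ₀) c, ?_⟩
  rintro ⟨i, φ⟩ j
  rw [hk]
  have h1 := hk (i, φ₀) j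
  dsimp only at h1 ⊢
  rw [h1]
  exact ρ.sum_wt_sg hE ε i φ₀ φ j

end exp

variable {F : Type} [Field F] [NumberField F] [IsTotallyReal F] {E : Type} [Field E]
  [NumberField E] {ι : Type} [Fintype ι] [DecidableEq ι] {σ : ι → Shape} {κ : Type} [Fintype κ]
  [DecidableEq κ] (ρ : Rep F E σ κ) (hE : Split F E) (τ₀ : E →+* ℂ)
  {w : ι → ℤ} (M : ∀ i, (F →+* E) → Datum (CE E) (σ i) (w i))

/-- The closed formula. -/
theorem closed_formula (ε : ℤ) (hε : ε = 1 ∨ ε = -1) (a₀ : ℤ) (hst : ρ.IsStep M ε a₀) :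
    ∃ (A B : ι → ℤ) (S : ι → (F →+* E) → ℤ → ℤ),
      (∀ i φ j, (σ i).sgn j = 1 → A i = ∑ s ∈ ρ.signPart ε, ρ.weight s ⟨(i, φ), j⟩) ∧
      (∀ i φ j, (σ i).sgn j = -1 → B i = ∑ s ∈ ρ.signPart ε, ρ.weight s ⟨(i, φ), j⟩) ∧
      (∀ i φ j, S i φ (w i - (M i φ).p j) =
        ∑ s ∈ ρ.lowPart M a₀, ρ.weight s ⟨(i, φ), Sum.inl (Sum.inr j)⟩) ∧
      (∀ i, (σ i).m ≠ 0 → (σ i).r ≠ 0 → A i = B i) ∧
      ∀ (x : CE E) (c d : ι × (F →+* E) → CE E) (q : ι × (F →+* E) → ℤ → CE E),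
        ρ.IsPeriod M hE τ₀ (ε : E) x →
        (∀ t : ι × (F →+* E), (σ t.1).m = 0 ∨ (σ t.1).r = 0 →
          (M t.1 t.2).IsPeriod (1 : E) (c t) ∧ (M t.1 t.2).IsPeriod (-1 : E) (d t)) →
        (∀ t : ι × (F →+* E), ∀ a ∈ (M t.1 t.2).lowIndices, (M t.1 t.2).IsHodgePeriod a (q t a)) →
        ∃ (x' : (CE E)ˣ) (c' d' D' : ι × (F →+* E) → (CE E)ˣ)
          (q' : ι × (F →+* E) → ℤ → (CE E)ˣ) (e : Eˣ) (U : CE E),
          x = x' * U ∧
          (∀ τ u, ρ.IsGalDet hE τ₀ (ε : E) (galElt hE τ τ₀) u → evT τ U = τ u) ∧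
          (∀ t, (σ t.1).m = 0 ∨ (σ t.1).r = 0 → (c' t : CE E) = c t ∧ (d' t : CE E) = d t) ∧
          (∀ t, (D' t : CE E) = (M t.1 t.2).comp.det) ∧
          (∀ t, ∀ a ∈ (M t.1 t.2).lowIndices, (q' t a : CE E) = q t a) ∧
          x' = Units.map (algebraMap E (CE E)).toMonoidHom e * ∏ t : ι × (F →+* E),
            if (σ t.1).m = 0 ∨ (σ t.1).r = 0 then
              c' t ^ A t.1 * d' t ^ B t.1 *
                ∏ a ∈ (M t.1 t.2).lowIndices, q' t a ^ (S t.1 t.2 a - A t.1 - B t.1)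
            else D' t ^ A t.1 *
              ∏ a ∈ (M t.1 t.2).lowIndices, q' t a ^ (S t.1 t.2 a - A t.1) := by
  have h2 : IsUnit (2 : CE E) := MP100fe7T.Rep.isUnit_two (E := E) (CE E)
  choose h hhu hh hM using fun t : ι × (F →+* E) => (fam M t).exists_factor h2
  have hcard : Fintype.card {s // ρ.hgt M s < a₀ + ρ.shift M} =
      Fintype.card {s // ρ.sgQ s = ρ.tau * ε} := by
    rw [← ρ.card_signPart, ← ρ.card_lowPart]
    exact hst
  have hcut := MP100fe7L.cut_of_card (σ := fun q : ι × (F →+* E) => σ q.1) ρ.toPol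
    (w := fun q => w q.1) (fam M) (ρ.W₀ w) (ρ.sum_wt_w w) (a₀ + ρ.shift M) (ρ.tau * ε)
    (ρ.tau_mul_cases hε) hcard
  obtain ⟨a, k₀, ha, hk₀, hform⟩ := MP100fe7L.pol_formula
    (σ := fun q : ι × (F →+* E) => σ q.1) ρ.toPol (w := fun q => w q.1) (fam M)
    (fun s => ρ.hgt M s < a₀ + ρ.shift M) (ρ.tau * ε)
    (fun s t hs ht => by
      have h1 : ρ.hgt M s < ρ.hgt M t := by omega
      exact h1) hcut h (fun i j j' hne => hh i j j' hne) hM
  obtain ⟨k, hkk⟩ := exists_exp ρ hE (ρ.tau * ε) k₀ hk₀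
  have hk : ∀ (q : ι × (F →+* E)) (j : (σ q.1).Idx),
      k q.1 ((σ q.1).sgn j) = ∑ s with ρ.sgQ s = ρ.tau * ε, ρ.wt s ⟨q, j⟩ := by
    intro q j
    rw [hkk]
    exact hk₀ q j
  set n := (ρ.signPart ε).card with hn
  -- the sums of the weights
  have hsum : ∀ q : Tot F E σ, ∑ s ∈ ρ.signPart ε, ρ.weight s q =
      ((∑ s with ρ.sgQ s = ρ.tau * ε, ρ.wt s q : ℕ) : ℤ) - ρ.twist q.1.1 * n := by
    intro q
    unfold Rep.weight
    rw [Finset.sum_sub_distrib, Finset.sum_const, ← hn, nsmul_eq_mul, mul_comm]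
    push_cast
    congr 1
    apply Finset.sum_congr _ (fun _ _ => rfl)
    unfold Rep.signPart
    apply Finset.filter_congr
    intro s _
    exact ρ.sgn_eq_iff ε s
  have hsum2 : ∀ q : Tot F E σ, ∑ s ∈ ρ.lowPart M a₀, ρ.weight s q =
      ((∑ s with ρ.hgt M s < a₀ + ρ.shift M, ρ.wt s q : ℕ) : ℤ) -
        ρ.twist q.1.1 * n := by
    intro q
    unfold Rep.weight
    have hc : (ρ.lowPart M a₀).card = n := hst
    rw [Finset.sum_sub_distrib, Finset.sum_const, hc, nsmul_eq_mul, mul_comm]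
    push_cast
    congr 1
    apply Finset.sum_congr _ (fun _ _ => rfl)
    unfold Rep.lowPart
    apply Finset.filter_congr
    intro s _
    rw [ρ.hodgeIdx_eq M]
    omega
  -- the middle exponents
  have hmidk : ∀ (t : ι × (F →+* E)) (j : Fin (σ t.1).m ⊕ Fin (σ t.1).r),
      a t (w t.1 / 2) = k t.1 ((σ t.1).sgn (Sum.inr j)) := by
    intro t j
    have e1 := ha t (Sum.inr j)
    have e2 := hk t (Sum.inr j)
    have e3 := MP100fe7L.stab_mid (σ := fun q : ι × (F →+* E) => σ q.1) ρ.toPol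
      (fun s => ρ.hgt M s < a₀ + ρ.shift M) (ρ.tau * ε) hcut
      (d := Fintype.card {s // ρ.hgt M s < a₀ + ρ.shift M})
      (Fintype.equivFin _).symm ((finCongr hcard).trans (Fintype.equivFin _).symm) t j
    rw [e2]
    exact (e1.trans e3)
  have hmk1 : ∀ t : ι × (F →+* E), (σ t.1).m ≠ 0 → a t (w t.1 / 2) = k t.1 1 := by
    intro t hi
    exact hmidk t (Sum.inl ⟨0, Nat.pos_of_ne_zero hi⟩)
  have hmk2 : ∀ t : ι × (F →+* E), (σ t.1).r ≠ 0 → a t (w t.1 / 2) = k t.1 (-1) := by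
    intro t hi
    exact hmidk t (Sum.inr ⟨0, Nat.pos_of_ne_zero hi⟩)
  obtain ⟨φ₀⟩ : Nonempty (F →+* E) := by
    obtain ⟨s⟩ : Nonempty (F →+* ℂ) := inferInstance
    obtain ⟨φ, -⟩ := hE τ₀ s
    exact ⟨φ⟩
  refine ⟨fun i => (k i 1 : ℤ) - ρ.twist i * n, fun i => (k i (-1) : ℤ) - ρ.twist i * n,
    fun i φ x => (a (i, φ) x : ℤ) - ρ.twist i * n, ?_, ?_, ?_, ?_, ?_⟩
  · intro i φ j hj
    have e1 := hk (i, φ) j
    dsimp only at e1
    rw [hj] at e1
    beta_reduce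
    rw [hsum, e1]
  · intro i φ j hj
    have e1 := hk (i, φ) j
    dsimp only at e1
    rw [hj] at e1
    beta_reduce
    rw [hsum, e1]
  · intro i φ j
    have e1 := ha (i, φ) (Sum.inl (Sum.inr j))
    rw [hsum2]
    have e2 : a (i, φ) (w i - (M i φ).p j) =
        ∑ s with ρ.hgt M s < a₀ + ρ.shift M, ρ.wt s ⟨(i, φ), Sum.inl (Sum.inr j)⟩ := e1
    rw [← e2]
  · intro i hm hr
    have e1 := hmk1 (i, φ₀) hm
    have e2 := hmk2 (i, φ₀) hr
    simp only at e1 e2 ⊢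
    rw [← e1, ← e2]
  intro x c d q hx hcd hq
  -- units
  have hDu : ∀ t : ι × (F →+* E), ∃ u : (CE E)ˣ, (u : CE E) = (M t.1 t.2).comp.det :=
    fun t => (M t.1 t.2).comp_unit
  choose Du hDu using hDu
  have hbu : ∀ t : ι × (F →+* E), ∃ u : (CE E)ˣ, (u : CE E) = (M t.1 t.2).beta :=
    fun t => (M t.1 t.2).isUnit_beta
  choose bu hbu using hbu
  have hpm : ∀ t : ι × (F →+* E), IsUnit (detP (fun j => (σ t.1).sgn j = 1) (h t) *
      detP (fun j => (σ t.1).sgn j = -1) (h t)) := by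
    intro t
    rw [← det_sgn (h t) (hh t)]
    exact hhu t
  have hpu : ∀ t : ι × (F →+* E), ∃ u : (CE E)ˣ,
      (u : CE E) = detP (fun j => (σ t.1).sgn j = 1) (h t) :=
    fun t => isUnit_of_mul_isUnit_left (hpm t)
  choose pu hpu using hpu
  have hmu : ∀ t : ι × (F →+* E), ∃ u : (CE E)ˣ,
      (u : CE E) = detP (fun j => (σ t.1).sgn j = -1) (h t) :=
    fun t => isUnit_of_mul_isUnit_right (hpm t)
  choose mu hmu using hmu
  have hqu : ∀ (t : ι × (F →+* E)) (y : ℤ), ∃ u : (CE E)ˣ,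
      y ∈ (M t.1 t.2).lowIndices → (u : CE E) = ((M t.1 t.2).lowBlock y).det := by
    intro t y
    by_cases hy : y ∈ (M t.1 t.2).lowIndices
    · obtain ⟨u, hu⟩ := (M t.1 t.2).isUnit_lowBlock y hy
      exact ⟨u, fun _ => hu⟩
    · exact ⟨1, fun h => absurd h hy⟩
  choose qu hqu using hqu
  have hQ : ∀ t : ι × (F →+* E), ((∏ y ∈ (M t.1 t.2).lowIndices, qu t y : (CE E)ˣ) : CE E) =
      (M t.1 t.2).dlow := by
    intro t
    rw [Units.coe_prod]
    unfold MP100fe7T.Datum.dlow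
    apply Finset.prod_congr rfl
    intro y hy
    exact hqu t y hy
  -- the class of the determinant of the comparison matrix
  have hM' : ∀ t : ι × (F →+* E), (M t.1 t.2).comp =
      (M t.1 t.2).b * gz (CE E) (σ t.1) * h t := hM
  have hDcls : ∀ t : ι × (F →+* E), cls E (Du t) =
      (∏ y ∈ (M t.1 t.2).lowIndices, cls E (qu t y)) * cls E (bu t) *
      (cls E (pu t) * cls E (mu t)) := by
    intro t
    have e0 : (gz (CE E) (σ t.1)).det = algebraMap E (CE E) (gz E (σ t.1)).det := by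
      rw [← gz_map (E := E)]
      exact (RingHom.map_det (algebraMap E (CE E)) _).symm
    have e1 : (Du t : CE E) =
        algebraMap E (CE E) (Units.mk0 _ (det_gz_ne (E := E) (σ t.1)) : Eˣ) *
        (((∏ y ∈ (M t.1 t.2).lowIndices, qu t y) * bu t * (pu t * mu t) : (CE E)ˣ) : CE E) := by
      rw [hDu, hM', det_mul, det_mul, (M t.1 t.2).det_b, det_sgn (h t) (hh t), e0, Units.val_mul,
        Units.val_mul, Units.val_mul, hQ, hbu, hpu, hmu, Units.val_mk0]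
      ring
    rw [cls_eq_of_val E _ e1, map_mul, map_mul, map_mul, map_prod]
  -- the period
  obtain ⟨e1, x₀, U, hx₀, hU, hxx⟩ := ρ.period_pol hE τ₀ M a₀ ε hst hx
  obtain ⟨e2, he2⟩ := hform x₀ hx₀
  have hprod1 : ∀ t : ι × (F →+* E),
      ∏ y ∈ colors (hiT (fam M)) t, (blk (hiT (fam M)) (fb (fam M)) t y).det ^ a t y =
      (∏ y ∈ (M t.1 t.2).lowIndices, ((M t.1 t.2).lowBlock y).det ^ a t y) *
        (M t.1 t.2).beta ^ a t (w t.1 / 2) :=
    fun t => (M t.1 t.2).prod_colors (a t)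
  have hprod2 : ∀ t : ι × (F →+* E),
      ∏ y ∈ colors (sgnT fun q : ι × (F →+* E) => σ q.1) t,
        (blk (sgnT fun q : ι × (F →+* E) => σ q.1) h t y).det ^ k₀ t y =
      detP (fun j => (σ t.1).sgn j = 1) (h t) ^ k t.1 1 *
        detP (fun j => (σ t.1).sgn j = -1) (h t) ^ k t.1 (-1) := by
    intro t
    rw [← prod_sgn_colors (h t) (k t.1)]
    apply Finset.prod_congr rfl
    intro y hy
    unfold colors at hy
    rw [Finset.mem_image] at hy
    obtain ⟨j, -, rfl⟩ := hy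
    have e3 := hkk t j
    have e4 : k₀ t (sgnT (fun q : ι × (F →+* E) => σ q.1) ⟨t, j⟩) = k₀ t ((σ t.1).sgn j) := rfl
    rw [e4, ← e3]
    rfl
  have hlam : ρ.lam M = (((∏ t, Du t ^ ρ.twist t.1)⁻¹ : (CE E)ˣ) : CE E) := by
    unfold Rep.lam
    rw [← Ring.inverse_unit]
    congr 1
    rw [Units.coe_prod]
    apply Finset.prod_congr rfl
    intro i _
    rw [Units.val_pow_eq_pow_val, hDu]
  let X : (CE E)ˣ := ((∏ t, Du t ^ ρ.twist t.1)⁻¹) ^ n *
    ((∏ t : ι × (F →+* E), ((∏ y ∈ (M t.1 t.2).lowIndices, qu t y ^ a t y) *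
      bu t ^ a t (w t.1 / 2))) *
      ∏ t, (pu t ^ k t.1 1 * mu t ^ k t.1 (-1)))
  have hX : x = algebraMap E (CE E) (e1 * e2 : Eˣ) * (X : CE E) * U := by
    have t1 : ((∏ t : ι × (F →+* E), ((∏ y ∈ (M t.1 t.2).lowIndices, qu t y ^ a t y) *
        bu t ^ a t (w t.1 / 2)) : (CE E)ˣ) : CE E) =
        ∏ t, ∏ y ∈ colors (hiT (fam M)) t, (blk (hiT (fam M)) (fb (fam M)) t y).det ^ a t y := by
      rw [Units.coe_prod]
      apply Finset.prod_congr rfl
      intro i _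
      rw [hprod1, Units.val_mul, Units.coe_prod, Units.val_pow_eq_pow_val, hbu]
      congr 1
      apply Finset.prod_congr rfl
      intro y hy
      rw [Units.val_pow_eq_pow_val, hqu i y hy]
    have t2 : ((∏ t : ι × (F →+* E), (pu t ^ k t.1 1 * mu t ^ k t.1 (-1)) : (CE E)ˣ) : CE E) =
        ∏ t, ∏ y ∈ colors (sgnT fun q : ι × (F →+* E) => σ q.1) t,
          (blk (sgnT fun q : ι × (F →+* E) => σ q.1) h t y).det ^ k₀ t y := by
      rw [Units.coe_prod]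
      apply Finset.prod_congr rfl
      intro i _
      rw [hprod2, Units.val_mul, Units.val_pow_eq_pow_val, Units.val_pow_eq_pow_val, hpu, hmu]
    have t3 : (X : CE E) = (((∏ t, Du t ^ ρ.twist t.1)⁻¹ : (CE E)ˣ) : CE E) ^ n *
        ((∏ t, ∏ y ∈ colors (hiT (fam M)) t, (blk (hiT (fam M)) (fb (fam M)) t y).det ^ a t y) *
          ∏ t, ∏ y ∈ colors (sgnT fun q : ι × (F →+* E) => σ q.1) t,
            (blk (sgnT fun q : ι × (F →+* E) => σ q.1) h t y).det ^ k₀ t y) := by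
      simp only [X]
      rw [Units.val_mul, Units.val_mul, Units.val_pow_eq_pow_val, t1, t2]
    rw [hxx, he2, hlam, t3, Units.val_mul, map_mul]
    ring
  let x' : (CE E)ˣ := Units.map (algebraMap E (CE E)).toMonoidHom (e1 * e2) * X
  have hx' : x = (x' : CE E) * U := by
    rw [hX]
    rfl
  have hclsx : cls E x' = cls E X := cls_eq_of_val E (e1 * e2) rfl
  -- one motive
  have key : ∀ t : ι × (F →+* E), ∃ c' d' : (CE E)ˣ,
      ((σ t.1).m = 0 ∨ (σ t.1).r = 0 → (c' : CE E) = c t ∧ (d' : CE E) = d t) ∧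
      ((cls E (Du t) ^ ρ.twist t.1)⁻¹) ^ n *
        ((∏ y ∈ (M t.1 t.2).lowIndices, cls E (qu t y) ^ a t y) *
          cls E (bu t) ^ a t (w t.1 / 2)) *
        (cls E (pu t) ^ k t.1 1 * cls E (mu t) ^ k t.1 (-1)) =
      cls E (if (σ t.1).m = 0 ∨ (σ t.1).r = 0 then
        c' ^ ((k t.1 1 : ℤ) - ρ.twist t.1 * n) * d' ^ ((k t.1 (-1) : ℤ) - ρ.twist t.1 * n) *
          ∏ y ∈ (M t.1 t.2).lowIndices, qu t y ^ (((a t y : ℤ) - ρ.twist t.1 * n) -
            ((k t.1 1 : ℤ) - ρ.twist t.1 * n) - ((k t.1 (-1) : ℤ) - ρ.twist t.1 * n))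
        else Du t ^ ((k t.1 1 : ℤ) - ρ.twist t.1 * n) *
          ∏ y ∈ (M t.1 t.2).lowIndices, qu t y ^ (((a t y : ℤ) - ρ.twist t.1 * n) -
            ((k t.1 1 : ℤ) - ρ.twist t.1 * n))) := by
    intro t
    by_cases hsc : (σ t.1).m = 0 ∨ (σ t.1).r = 0
    · obtain ⟨hc, hd⟩ := hcd t hsc
      obtain ⟨c', d', b1, b2, hc', hd', u1, u2, u3, u4⟩ := scalar_periods (M t.1 t.2) (h t) (hh t)
        (hM t) (∏ y ∈ (M t.1 t.2).lowIndices, qu t y) (bu t) (pu t) (mu t) (hQ t) (hbu t) (hpu t)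
        (hmu t) hsc (k t.1 1) (k t.1 (-1)) (a t (w t.1 / 2)) (hmk1 t) (hmk2 t) hc hd
      refine ⟨c', d', fun _ => ⟨hc', hd'⟩, ?_⟩
      rw [if_pos hsc, map_mul, map_mul, map_zpow, map_zpow, map_prod]
      simp only [map_zpow]
      rw [map_prod] at u3 u4
      exact alg_scalar _ _ _ b1 b2 _ _ _ _ _ _ _ _ _ _ _ (hDcls t) u1 u2 u3 u4
    · refine ⟨1, 1, fun h => absurd h hsc, ?_⟩
      rw [if_neg hsc, map_mul, map_zpow, map_prod]
      simp only [map_zpow]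
      push Not at hsc
      apply alg_nonscalar _ _ _ _ _ _ _ _ _ _ _ _ (hDcls t) (hmk1 t hsc.1)
      rw [← hmk1 t hsc.1, hmk2 t hsc.2]
  choose c' d' hcd' hkey using key
  have hfin : cls E x' = cls E (∏ t : ι × (F →+* E), if (σ t.1).m = 0 ∨ (σ t.1).r = 0 then
        c' t ^ ((k t.1 1 : ℤ) - ρ.twist t.1 * n) * d' t ^ ((k t.1 (-1) : ℤ) - ρ.twist t.1 * n) *
          ∏ y ∈ (M t.1 t.2).lowIndices, qu t y ^ (((a t y : ℤ) - ρ.twist t.1 * n) -
            ((k t.1 1 : ℤ) - ρ.twist t.1 * n) - ((k t.1 (-1) : ℤ) - ρ.twist t.1 * n))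
        else Du t ^ ((k t.1 1 : ℤ) - ρ.twist t.1 * n) *
          ∏ y ∈ (M t.1 t.2).lowIndices, qu t y ^ (((a t y : ℤ) - ρ.twist t.1 * n) -
            ((k t.1 1 : ℤ) - ρ.twist t.1 * n))) := by
    rw [hclsx, map_prod]
    simp only [← hkey, X]
    rw [map_mul, map_mul, map_pow, map_inv, map_prod, map_prod, map_prod,
      ← Finset.prod_inv_distrib, ← Finset.prod_pow, ← Finset.prod_mul_distrib,
      ← Finset.prod_mul_distrib]
    apply Finset.prod_congr rfl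
    intro i _
    rw [map_mul, map_mul, map_prod, map_pow, map_pow, map_pow, map_pow]
    simp only [map_pow, mul_assoc]
  obtain ⟨e, he⟩ := exists_of_cls_eq E hfin
  refine ⟨x', c', d', Du, qu, e, U, hx', hU, hcd', hDu, ?_, he⟩
  intro i y hy
  rw [hqu i y hy, (M i.1 i.2).hodgePeriod_eq y _ (hq i y hy)]

end Pool.Agent.MP100fe7Tr
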