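import Pool.Agent.Lib.MP_100fe7_nt.TrMain

/-!
The closed formula for the Deligne periods (totally real fields): final form.
-/

set_option linter.unusedSectionVars false

namespace Pool.Agent.MP100fe7Tr

open Matrix NumberField
open MP100fe7Cm (Split Gal galElt)
open MP100fe7T (Shape frob Datum)

section values

variable {E : Type} [Field E]

/-- the value of a unit at an embedding is not zero -/
theorem evT_ne (τ : E →+* ℂ) (u : (CE E)ˣ) : (u : CE E) τ ≠ 0 := by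
  have h1 : IsUnit (evT τ (u : CE E)) := u.isUnit.map (evT τ)
  exact h1.ne_zero

theorem evT_zpow (τ : E →+* ℂ) (u : (CE E)ˣ) (k : ℤ) :
    ((u ^ k : (CE E)ˣ) : CE E) τ = (u : CE E) τ ^ k := by
  have h1 : Units.map (evT τ).toMonoidHom (u ^ k) = Units.map (evT τ).toMonoidHom u ^ k :=
    map_zpow _ _ _
  have h2 := congrArg (fun v : ℂˣ => (v : ℂ)) h1
  simp only [Units.val_zpow_eq_zpow_val] at h2
  exact h2

theorem evT_mul (τ : E →+* ℂ) (x y : CE E) : (x * y) τ = x τ * y τ := rfl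

theorem evT_prod {α : Type} (τ : E →+* ℂ) (s : Finset α) (f : α → (CE E)ˣ) :
    ((∏ a ∈ s, f a : (CE E)ˣ) : CE E) τ = ∏ a ∈ s, (f a : CE E) τ := by
  rw [Units.coe_prod]
  exact map_prod (evT τ) _ _

end values

section datum

variable {E : Type} [Field E] [NumberField E] {σ : Shape} {w : ℤ} (M : Datum (CE E) σ w)

/-- the periods of a datum with scalar `F_∞` on the middle part exist -/
theorem exists_c (hi : σ.m = 0 ∨ σ.r = 0) : ∃ c : CE E, M.IsPeriod (1 : E) c := by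
  have h1 : ∃ c : CE E, M.IsPeriod (((1 : ℤ) : E)) c := by
    apply M.exists_period (Or.inl rfl)
    rcases hi with hi | hi
    · left
      rintro (j | j)
      · exact absurd j.2 (by omega)
      · simp [Shape.sgn]
    · right
      rintro (j | j)
      · simp [Shape.sgn]
      · exact absurd j.2 (by omega)
  rwa [Int.cast_one] at h1

theorem exists_d (hi : σ.m = 0 ∨ σ.r = 0) : ∃ c : CE E, M.IsPeriod (-1 : E) c := by
  have h1 : ∃ c : CE E, M.IsPeriod (((-1 : ℤ) : E)) c := by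
    apply M.exists_period (Or.inr rfl)
    rcases hi with hi | hi
    · right
      rintro (j | j)
      · exact absurd j.2 (by omega)
      · simp [Shape.sgn]
    · left
      rintro (j | j)
      · simp [Shape.sgn]
      · exact absurd j.2 (by omega)
  rwa [Int.cast_neg, Int.cast_one] at h1

theorem hodgePeriod_iff (a : ℤ) (q : CE E) : M.IsHodgePeriod a q ↔ q = (M.lowBlock a).det := by
  constructor
  · exact M.hodgePeriod_eq a q
  · rintro rfl
    exact M.isHodgePeriod_block a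

theorem hodgePeriod_ne (a : ℤ) (τ : E →+* ℂ) : (M.lowBlock a).det τ ≠ 0 := by
  by_cases h : a ∈ M.lowIndices
  · obtain ⟨u, hu⟩ := M.isUnit_lowBlock a h
    rw [← hu]
    exact evT_ne τ u
  · have h1 : IsEmpty {i : Fin σ.n // w - M.p i = a} := by
      constructor
      rintro ⟨i, hi⟩
      apply h
      unfold MP100fe7T.Datum.lowIndices
      rw [Finset.mem_image]
      exact ⟨i, Finset.mem_univ _, hi⟩
    have h2 : (M.lowBlock a).det = 1 := det_isEmpty
    rw [h2]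
    exact one_ne_zero

end datum

variable {F : Type} [Field F] [NumberField F] [IsTotallyReal F] {E : Type} [Field E]
  [NumberField E] {ι : Type} [Fintype ι] [DecidableEq ι] {σ : ι → Shape} {κ : Type} [Fintype κ]
  [DecidableEq κ] (ρ : Rep F E σ κ) (hE : Split F E) (τ₀ : E →+* ℂ)
  {w : ι → ℤ} (M : ∀ i, (F →+* E) → Datum (CE E) (σ i) (w i))

/-- The closed formula for the Deligne periods of the motives `N = ρ(M)`. -/
theorem tr_periods :
    (∀ i φ a, ∃ q : CE E, (∀ τ, q τ ≠ 0) ∧ ∀ q', (M i φ).IsHodgePeriod a q' ↔ q' = q) ∧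
    (∀ i φ, (σ i).m = 0 ∨ (σ i).r = 0 → (∃ c : CE E, (M i φ).IsPeriod (1 : E) c) ∧
      (∃ d : CE E, (M i φ).IsPeriod (-1 : E) d)) ∧
    (ρ.NoMiddle M → ∀ ε : ℤ, ε = 1 ∨ ε = -1 → ρ.IsStep M ε ((ρ.motWeight w + 1) / 2)) ∧
    ∀ (ε a₀ : ℤ), ε = 1 ∨ ε = -1 → ρ.IsStep M ε a₀ →
      (∃ x, ρ.IsPeriod M hE τ₀ (ε : E) x) ∧
      ∃ (A B : ι → ℤ) (S : ι → (F →+* E) → ℤ → ℤ) (u : (E →+* ℂ) → E),
        (∀ i φ j, (σ i).sgn j = 1 → A i = ∑ s ∈ ρ.signPart ε, ρ.weight s ⟨(i, φ), j⟩) ∧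
        (∀ i φ j, (σ i).sgn j = -1 → B i = ∑ s ∈ ρ.signPart ε, ρ.weight s ⟨(i, φ), j⟩) ∧
        (∀ i φ j, S i φ (w i - (M i φ).p j) =
          ∑ s ∈ ρ.lowPart M a₀, ρ.weight s ⟨(i, φ), Sum.inl (Sum.inr j)⟩) ∧
        (∀ i, (σ i).m ≠ 0 → (σ i).r ≠ 0 → A i = B i) ∧
        (∀ τ v, ρ.IsGalDet hE τ₀ (ε : E) (galElt hE τ τ₀) v ↔ v = u τ) ∧
        (∀ τ, u τ ^ Nat.card (Gal F E) = 1) ∧
        ∀ x, ρ.IsPeriod M hE τ₀ (ε : E) x → (∀ τ, x τ ≠ 0) ∧
          ∀ (c d : ι → (F →+* E) → CE E) (q : ι → (F →+* E) → ℤ → CE E),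
            (∀ i φ, (σ i).m = 0 ∨ (σ i).r = 0 →
              (M i φ).IsPeriod (1 : E) (c i φ) ∧ (M i φ).IsPeriod (-1 : E) (d i φ)) →
            (∀ i φ, ∀ a ∈ (M i φ).lowIndices, (M i φ).IsHodgePeriod a (q i φ a)) →
            (∀ i φ τ, (σ i).m = 0 ∨ (σ i).r = 0 → c i φ τ ≠ 0 ∧ d i φ τ ≠ 0) ∧
            ∃ e : E, e ≠ 0 ∧ ∀ τ : E →+* ℂ,
              x τ = τ e * τ (u τ) * ∏ i, ∏ φ : F →+* E,
                if (σ i).m = 0 ∨ (σ i).r = 0 then
                  c i φ τ ^ A i * d i φ τ ^ B i *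
                    ∏ a ∈ (M i φ).lowIndices, q i φ a τ ^ (S i φ a - A i - B i)
                else (M i φ).comp.det τ ^ A i *
                  ∏ a ∈ (M i φ).lowIndices, q i φ a τ ^ (S i φ a - A i) := by
  refine ⟨fun i φ a => ⟨_, hodgePeriod_ne (M i φ) a, hodgePeriod_iff (M i φ) a⟩,
    fun i φ hi => ⟨exists_c (M i φ) hi, exists_d (M i φ) hi⟩,
    fun h ε hε => ρ.isStep_of_noMiddle M h hε, ?_⟩
  intro ε a₀ hε hst
  refine ⟨ρ.exists_period hE τ₀ M a₀ ε hst, ?_⟩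
  obtain ⟨A, B, S, h1, h2, h3, h4, h5⟩ := closed_formula ρ hE τ₀ M ε hε a₀ hst
  choose u hu1 hu2 using fun τ => ρ.exists_galDet hE τ₀ ε (galElt hE τ τ₀)
  refine ⟨A, B, S, u, h1, h2, h3, h4, ?_, hu2, ?_⟩
  · intro τ v
    constructor
    · intro h
      exact ρ.isGalDet_unique hE τ₀ h (hu1 τ)
    · rintro rfl
      exact hu1 τ
  intro x hx
  have hune : ∀ τ : E →+* ℂ, τ (u τ) ≠ 0 := by
    intro τ
    rw [map_ne_zero τ]
    intro h
    have h6 := hu2 τ
    rw [h, zero_pow Nat.card_pos.ne'] at h6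
    exact zero_ne_one h6
  -- the formula
  have main : ∀ (c d : ι → (F →+* E) → CE E) (q : ι → (F →+* E) → ℤ → CE E),
      (∀ i φ, (σ i).m = 0 ∨ (σ i).r = 0 →
        (M i φ).IsPeriod (1 : E) (c i φ) ∧ (M i φ).IsPeriod (-1 : E) (d i φ)) →
      (∀ i φ, ∀ a ∈ (M i φ).lowIndices, (M i φ).IsHodgePeriod a (q i φ a)) →
      (∀ τ, x τ ≠ 0) ∧ (∀ i φ τ, (σ i).m = 0 ∨ (σ i).r = 0 → c i φ τ ≠ 0 ∧ d i φ τ ≠ 0) ∧
      ∃ e : E, e ≠ 0 ∧ ∀ τ : E →+* ℂ,
        x τ = τ e * τ (u τ) * ∏ i, ∏ φ : F →+* E,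
          if (σ i).m = 0 ∨ (σ i).r = 0 then
            c i φ τ ^ A i * d i φ τ ^ B i *
              ∏ a ∈ (M i φ).lowIndices, q i φ a τ ^ (S i φ a - A i - B i)
          else (M i φ).comp.det τ ^ A i *
            ∏ a ∈ (M i φ).lowIndices, q i φ a τ ^ (S i φ a - A i) := by
    intro c d q hcd hq
    obtain ⟨x', c', d', D', q', e, U, hx', hU, hcd', hD', hq', he⟩ := h5 x (fun t => c t.1 t.2)
      (fun t => d t.1 t.2) (fun t => q t.1 t.2) hx (fun t ht => hcd t.1 t.2 ht)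
      (fun t a ha => hq t.1 t.2 a ha)
    have hUτ : ∀ τ : E →+* ℂ, U τ = τ (u τ) := fun τ => hU τ _ (hu1 τ)
    refine ⟨?_, ?_, e, e.ne_zero, ?_⟩
    · intro τ
      rw [hx', evT_mul, hUτ]
      exact mul_ne_zero (evT_ne τ x') (hune τ)
    · intro i φ τ hi
      obtain ⟨e1, e2⟩ := hcd' (i, φ) hi
      dsimp only at e1 e2
      rw [← e1, ← e2]
      exact ⟨evT_ne τ _, evT_ne τ _⟩
    · intro τ
      rw [hx', evT_mul, hUτ, he, Units.val_mul, evT_mul, evT_prod]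
      have e0 : ((Units.map (algebraMap E (CE E)).toMonoidHom e : (CE E)ˣ) : CE E) τ = τ e := rfl
      rw [e0, ← Fintype.prod_prod_type'
        (f := fun i (φ : F →+* E) => if (σ i).m = 0 ∨ (σ i).r = 0 then
          c i φ τ ^ A i * d i φ τ ^ B i *
            ∏ a ∈ (M i φ).lowIndices, q i φ a τ ^ (S i φ a - A i - B i)
          else (M i φ).comp.det τ ^ A i *
            ∏ a ∈ (M i φ).lowIndices, q i φ a τ ^ (S i φ a - A i))]
      have e1 : ∀ t : ι × (F →+* E), (((if (σ t.1).m = 0 ∨ (σ t.1).r = 0 then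
            c' t ^ A t.1 * d' t ^ B t.1 *
              ∏ a ∈ (M t.1 t.2).lowIndices, q' t a ^ (S t.1 t.2 a - A t.1 - B t.1)
            else D' t ^ A t.1 *
              ∏ a ∈ (M t.1 t.2).lowIndices, q' t a ^ (S t.1 t.2 a - A t.1) : (CE E)ˣ) :
                CE E) τ) =
          if (σ t.1).m = 0 ∨ (σ t.1).r = 0 then
            c t.1 t.2 τ ^ A t.1 * d t.1 t.2 τ ^ B t.1 *
              ∏ a ∈ (M t.1 t.2).lowIndices, q t.1 t.2 a τ ^ (S t.1 t.2 a - A t.1 - B t.1)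
            else (M t.1 t.2).comp.det τ ^ A t.1 *
              ∏ a ∈ (M t.1 t.2).lowIndices, q t.1 t.2 a τ ^ (S t.1 t.2 a - A t.1) := by
        intro t
        by_cases ht : (σ t.1).m = 0 ∨ (σ t.1).r = 0
        · obtain ⟨e1, e2⟩ := hcd' t ht
          rw [if_pos ht, if_pos ht, Units.val_mul, Units.val_mul, evT_mul, evT_mul, evT_prod,
            evT_zpow, evT_zpow, e1, e2]
          congr 1
          apply Finset.prod_congr rfl
          intro a ha
          rw [evT_zpow, hq' t a ha]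
        · rw [if_neg ht, if_neg ht, Units.val_mul, evT_mul, evT_prod, evT_zpow, hD']
          congr 1
          apply Finset.prod_congr rfl
          intro a ha
          rw [evT_zpow, hq' t a ha]
      rw [Finset.prod_congr rfl (fun t _ => e1 t)]
      ring
  refine ⟨?_, fun c d q hcd hq => (main c d q hcd hq).2⟩
  -- the periods exist, so the first part of `main` applies
  have hc : ∀ i φ, ∃ c : CE E, (σ i).m = 0 ∨ (σ i).r = 0 → (M i φ).IsPeriod (1 : E) c := by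
    intro i φ
    by_cases hi : (σ i).m = 0 ∨ (σ i).r = 0
    · obtain ⟨c, hc⟩ := exists_c (M i φ) hi
      exact ⟨c, fun _ => hc⟩
    · exact ⟨0, fun h => absurd h hi⟩
  have hd : ∀ i φ, ∃ c : CE E, (σ i).m = 0 ∨ (σ i).r = 0 → (M i φ).IsPeriod (-1 : E) c := by
    intro i φ
    by_cases hi : (σ i).m = 0 ∨ (σ i).r = 0
    · obtain ⟨c, hc⟩ := exists_d (M i φ) hi
      exact ⟨c, fun _ => hc⟩
    · exact ⟨0, fun h => absurd h hi⟩
  choose c hc using hc
  choose d hd using hd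
  exact (main c d (fun i φ a => ((M i φ).lowBlock a).det) (fun i φ hi => ⟨hc i φ hi, hd i φ hi⟩)
    (fun i φ a _ => (M i φ).isHodgePeriod_block a)).1

end Pool.Agent.MP100fe7Tr
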