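import Pool.Agent.Lib.MP_100fe7_nt.UPer
import Pool.Agent.Lib.MP_100fe7_nt.TCut

/-!
The split datum: the step of the Hodge filtration with the dimension of a sign part is a
complement of the other sign part.
-/

set_option linter.unusedSectionVars false

namespace Pool.Agent.MP100fe7L

open Matrix
open MP100fe7T hiding Fam Fam.map' Tot evalMat fdiag fdiag_mul IsLevi blk colors single levi_char
  Rep det_blocks hiT fb Cut split_ne_zero stab_mid pol_formula exists_inv_pol_gz pol_swap_ne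
  pol_swap_sq cut_up mulVec_low exists_two_inv_pol_gz eigen_sgP card_low_le_aux surj_sg cut_down
  cut_of_card card_sgP_le card_low_le card_sgP_eq

variable {E : Type} [Field E] [CharZero E] {Q : Type} [Fintype Q] [DecidableEq Q]
  {σ : Q → Shape} {κ : Type} [Fintype κ] [DecidableEq κ] (ρ : PolRep E (fun q => (σ q).Idx) κ)

theorem pol_swap_sq : ρ.pol E (fswap E σ) * ρ.pol E (fswap E σ) = 1 :=
  ρ.pol_inv_mul (fswap_mul_fswap E)

theorem exists_two_inv_pol_gz : ∃ Y' : Matrix κ κ E, Y' * ρ.pol E (fgz E σ) = 1 ∧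
    ρ.pol E (fgz E σ) * Y' = 1 := by
  obtain ⟨Y', hY'⟩ := exists_inv_pol_gz ρ
  exact ⟨Y', hY', mul_eq_one_comm.mp hY'⟩

/-- an eigenvector of `F_∞` on the split datum is the image of a vector of the sign part -/
theorem eigen_sgP (Y' : Matrix κ κ E) (h1 : Y' * ρ.pol E (fgz E σ) = 1)
    (h2 : ρ.pol E (fgz E σ) * Y' = 1) (ε : ℤ) (y : κ → E)
    (hy : (ρ.pol E (fswap E σ)).mulVec y = (ε : E) • y) (s : κ) (hs : ¬ ρ.sgP s = ε) :
    Y'.mulVec y s = 0 := by
  have h3 : (ρ.pol E (ffrob E σ)).mulVec (Y'.mulVec y) = (ε : E) • Y'.mulVec y := by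
    have e1 : ρ.pol E (fswap E σ) * ρ.pol E (fgz E σ) =
        ρ.pol E (fgz E σ) * ρ.pol E (ffrob E σ) := by
      rw [← ρ.pol_mul, fswap_mul_fgz, ρ.pol_mul]
    have e2 : ρ.pol E (ffrob E σ) = Y' * (ρ.pol E (fswap E σ) * ρ.pol E (fgz E σ)) := by
      rw [e1, ← Matrix.mul_assoc, h1, Matrix.one_mul]
    rw [e2, mulVec_mulVec, Matrix.mul_assoc, Matrix.mul_assoc, h2, Matrix.mul_one,
      ← mulVec_mulVec, hy, mulVec_smul]
  rw [ρ.pol_ffrob] at h3
  have h4 := congrFun h3 s
  rw [mulVec_diagonal, Pi.smul_apply, smul_eq_mul] at h4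
  have h5 : ((ρ.sgP s - ε : ℤ) : E) * Y'.mulVec y s = 0 := by
    push_cast
    linear_combination h4
  rcases mul_eq_zero.mp h5 with h6 | h6
  · exfalso
    apply hs
    have := Int.cast_eq_zero.mp h6
    omega
  · exact h6

variable {R : Type} [CommRing R] {w : Q → ℤ} (M : ∀ q, Datum R (σ q) (w q)) (W₀ : ℤ)
  (hW : ∀ s, ∑ t : Tot (fun q => (σ q).Idx), (ρ.wt s t : ℤ) * w t.1 = W₀)

include hW

theorem pol_swap_ne (s t : κ) (h : ρ.pol E (fswap E σ) s t ≠ 0) :
    ρ.height (hiT M) s + ρ.height (hiT M) t = W₀ := by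
  refine ρ.pol_exchange (hiT M) w W₀ hW (fswap E σ) ?_ s t h
  intro i j j' hjj
  simp only [fswap, swapM] at hjj
  unfold hiT
  simp only
  rcases j with (j | j) | j <;> rcases j' with (j' | j') | j'
  · simp at hjj
  · simp only [fromBlocks_apply₁₁, fromBlocks_apply₁₂] at hjj
    have : j = j' := by
      by_contra hne
      exact hjj (Matrix.one_apply_ne hne)
    subst this
    rw [Datum.hodgeIdx_hi, Datum.hodgeIdx_lo]
    ring
  · simp at hjj
  · simp only [fromBlocks_apply₁₁, fromBlocks_apply₂₁] at hjj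
    have : j = j' := by
      by_contra hne
      exact hjj (Matrix.one_apply_ne hne)
    subst this
    rw [Datum.hodgeIdx_hi, Datum.hodgeIdx_lo]
    ring
  · simp at hjj
  · simp at hjj
  · simp at hjj
  · simp at hjj
  · rw [Datum.hodgeIdx_mid, Datum.hodgeIdx_mid]
    have := (M i).two_mid j
    omega

theorem cut_up (a : ℤ) (ha : W₀ < 2 * a) (ε : ℤ) (hε : ε = 1 ∨ ε = -1) :
    Cut ρ (fun s => ρ.height (hiT M) s < a) ε := by
  intro y hy hN
  funext s
  by_cases hs : ρ.height (hiT M) s < a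
  · exact hy s hs
  · have h1 := congrFun hN s
    rw [Pi.smul_apply, smul_eq_mul] at h1
    have h2 : (ρ.pol E (fswap E σ)).mulVec y s = 0 := by
      simp only [mulVec, dotProduct]
      apply Finset.sum_eq_zero
      intro t _
      by_contra hne
      have h3 := left_ne_zero_of_mul hne
      have h4 := right_ne_zero_of_mul hne
      have h5 := pol_swap_ne ρ M W₀ hW s t h3
      have h6 : ¬ ρ.height (hiT M) t < a := fun h => h4 (hy t h)
      omega
    rw [h2] at h1
    rcases hε with rfl | rfl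
    · simpa using h1.symm
    · simpa using h1.symm

theorem mulVec_low (u : κ → E) (hu : ∀ t, ¬ 2 * ρ.height (hiT M) t < W₀ →
    u t = 0) (s : κ) (hs : 2 * ρ.height (hiT M) s < W₀) :
    (ρ.pol E (fswap E σ)).mulVec u s = 0 := by
  simp only [mulVec, dotProduct]
  apply Finset.sum_eq_zero
  intro t _
  by_contra hne
  have h3 := left_ne_zero_of_mul hne
  have h4 := right_ne_zero_of_mul hne
  have h5 := pol_swap_ne ρ M W₀ hW s t h3
  have h6 : 2 * ρ.height (hiT M) t < W₀ := by
    by_contra h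
    exact h4 (hu t h)
  omega

theorem card_low_le_aux (a : ℤ) (ha : 2 * a ≤ W₀) :
    Fintype.card {s // ρ.height (hiT M) s < a} ≤
      Fintype.card {s // 2 * ρ.height (hiT M) s < W₀} := by
  apply Fintype.card_subtype_mono
  intro s hs
  have hs' : ρ.height (hiT M) s < a := hs
  change 2 * ρ.height (hiT M) s < _
  omega

theorem surj_sg (ε : ℤ) (hε : ε = 1 ∨ ε = -1) :
    Function.Surjective (resMap (E := E) (fun s => ρ.sgP s = ε)
      (fun s => 2 * ρ.height (hiT M) s < W₀) (ρ.pol E (fgz E σ))) := by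
  obtain ⟨Y', h1, h2⟩ := exists_two_inv_pol_gz ρ
  intro u
  let lw : κ → Prop := fun s => 2 * ρ.height (hiT M) s < W₀
  let U : κ → E := ext0 lw u
  let y : κ → E := U + (ε : E) • (ρ.pol E (fswap E σ)).mulVec U
  have hεε : (ε : E) * ε = 1 := by
    rcases hε with rfl | rfl <;> simp
  have hy : (ρ.pol E (fswap E σ)).mulVec y = (ε : E) • y := by
    simp only [y]
    rw [mulVec_add, mulVec_smul, mulVec_mulVec, pol_swap_sq, one_mulVec, smul_add, smul_smul, hεε,
      one_smul, add_comm]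
  have hx0 : ∀ s, ¬ ρ.sgP s = ε → Y'.mulVec y s = 0 := fun s hs =>
    eigen_sgP ρ Y' h1 h2 ε y hy s hs
  refine ⟨fun s => Y'.mulVec y s.1, ?_⟩
  have hext : ext0 (fun s => ρ.sgP s = ε) (fun s => Y'.mulVec y s.1) = Y'.mulVec y := by
    funext s
    by_cases hs : ρ.sgP s = ε
    · simp [ext0, hs]
    · rw [ext0_neg (fun s => ρ.sgP s = ε) _ hs, hx0 s hs]
  funext s
  change ((ρ.pol E (fgz E σ)).mulVec (ext0 (fun s => ρ.sgP s = ε)
    (fun s => Y'.mulVec y s.1))) s.1 = u s
  rw [hext, mulVec_mulVec, h2, one_mulVec]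
  simp only [y, Pi.add_apply, Pi.smul_apply]
  rw [mulVec_low ρ M W₀ hW U (fun t ht => ext0_neg lw u ht) s.1 s.2, smul_zero, add_zero]
  exact ext0_apply lw u s

theorem cut_down (a : ℤ) (ha : 2 * a ≤ W₀) (ε : ℤ)
    (hε : ε = 1 ∨ ε = -1) (hcard : Fintype.card {s // ρ.height (hiT M) s < a} =
      Fintype.card {s // ρ.sgP s = ε}) :
    Cut ρ (fun s => ρ.height (hiT M) s < a) ε := by
  obtain ⟨Y', h1, h2⟩ := exists_two_inv_pol_gz ρ
  let g := resMap (E := E) (fun s => ρ.sgP s = ε)
      (fun s => 2 * ρ.height (hiT M) s < W₀) (ρ.pol E (fgz E σ))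
  have hsurj : Function.Surjective g := surj_sg ρ M W₀ hW ε hε
  have hle : Fintype.card {s // 2 * ρ.height (hiT M) s < W₀} ≤
      Fintype.card {s // ρ.sgP s = ε} := by
    have h3 := LinearMap.finrank_range_add_finrank_ker g
    rw [LinearMap.range_eq_top.mpr hsurj, finrank_top] at h3
    simp only [Module.finrank_fintype_fun_eq_card] at h3
    omega
  have hle2 := card_low_le_aux ρ M W₀ hW a ha
  have heq : Fintype.card {s // ρ.height (hiT M) s < a} =
      Fintype.card {s // 2 * ρ.height (hiT M) s < W₀} := by omega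
  have hinj : Function.Injective g := by
    refine (LinearMap.injective_iff_surjective_of_finrank_eq_finrank ?_).mpr hsurj
    simp only [Module.finrank_fintype_fun_eq_card]
    omega
  have hlo : ∀ s, ρ.height (hiT M) s < a ↔
      2 * ρ.height (hiT M) s < W₀ := by
    intro s
    have heq' : Fintype.card {s // ρ.height (hiT M) s < a} =
        Fintype.card {s // ρ.height (hiT M) s < (W₀ + 1) / 2} := by
      rw [heq]
      apply Fintype.card_congr
      apply Equiv.subtypeEquivRight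
      intro t
      omega
    rw [lo_unique _ _ _ heq' s]
    omega
  intro y hy hN
  have hx0 : ∀ s, ¬ ρ.sgP s = ε → Y'.mulVec y s = 0 := fun s hs =>
    eigen_sgP ρ Y' h1 h2 ε y hN s hs
  have hext : ext0 (fun s => ρ.sgP s = ε) (fun s => Y'.mulVec y s.1) = Y'.mulVec y := by
    funext s
    by_cases hs : ρ.sgP s = ε
    · simp [ext0, hs]
    · rw [ext0_neg (fun s => ρ.sgP s = ε) _ hs, hx0 s hs]
  have hg : g (fun s => Y'.mulVec y s.1) = 0 := by
    funext s
    change ((ρ.pol E (fgz E σ)).mulVec (ext0 (fun s => ρ.sgP s = ε)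
      (fun s => Y'.mulVec y s.1))) s.1 = 0
    rw [hext, mulVec_mulVec, h2, one_mulVec]
    exact hy s.1 ((hlo s.1).mpr s.2)
  have hz := (injective_iff_map_eq_zero g).mp hinj _ hg
  have hY : Y'.mulVec y = 0 := by
    rw [← hext, hz]
    funext s
    simp [ext0]
  have : y = (ρ.pol E (fgz E σ)).mulVec (Y'.mulVec y) := by
    rw [mulVec_mulVec, h2, one_mulVec]
  rw [this, hY, mulVec_zero]

theorem cut_of_card (a : ℤ) (ε : ℤ) (hε : ε = 1 ∨ ε = -1)
    (hcard : Fintype.card {s // ρ.height (hiT M) s < a} = Fintype.card {s // ρ.sgP s = ε}) :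
    Cut ρ (fun s => ρ.height (hiT M) s < a) ε := by
  rcases le_or_gt (2 * a) W₀ with h | h
  · exact cut_down ρ M W₀ hW a h ε hε hcard
  · exact cut_up ρ M W₀ hW a h ε hε

/-! ### Dimensions without middle part -/

theorem card_sgP_le (a : ℤ) (ε : ℤ) (hcut : Cut ρ (fun s => ρ.height (hiT M) s < a) ε) :
    Fintype.card {s // ρ.sgP s = ε} ≤ Fintype.card {s // ρ.height (hiT M) s < a} := by
  obtain ⟨Y', h1, h2⟩ := exists_two_inv_pol_gz ρ
  apply card_le_aux (fun s => ρ.sgP s = ε) (fun s => ρ.height (hiT M) s < a)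
    (ρ.pol E (fgz E σ)) Y' h1
  intro x hx
  apply hcut
  · exact hx
  · rw [mulVec_mulVec, ← ρ.pol_mul, fswap_mul_fgz, ρ.pol_mul, ← mulVec_mulVec, ← mulVec_smul]
    congr 1
    rw [ρ.pol_ffrob]
    funext s
    rw [mulVec_diagonal]
    simp only [Pi.smul_apply, smul_eq_mul]
    by_cases hs : ρ.sgP s = ε
    · rw [hs]
    · rw [ext0_neg (fun s => ρ.sgP s = ε) _ hs, mul_zero, mul_zero]

theorem card_low_le : Fintype.card {s // 2 * ρ.height (hiT M) s < W₀} ≤
    Fintype.card {s // ¬ 2 * ρ.height (hiT M) s < W₀} := by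
  apply card_le_aux (fun s => 2 * ρ.height (hiT M) s < W₀)
    (fun s => ¬ 2 * ρ.height (hiT M) s < W₀) (ρ.pol E (fswap E σ))
    (ρ.pol E (fswap E σ)) (pol_swap_sq ρ)
  intro x hx
  funext s
  by_cases hs : 2 * ρ.height (hiT M) s < W₀
  · exact mulVec_low ρ M W₀ hW _ (fun t ht => ext0_neg
      (fun s => 2 * ρ.height (hiT M) s < W₀) x ht) s hs
  · exact hx s hs

theorem card_sgP_eq (hmid : ∀ s, 2 * ρ.height (hiT M) s ≠ W₀) (ε : ℤ)
    (hε : ε = 1 ∨ ε = -1) : Fintype.card {s // ρ.sgP s = ε} =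
      Fintype.card {s // 2 * ρ.height (hiT M) s < W₀} := by
  have h0 : ∀ z : ℤ, z = 1 ∨ z = -1 → Fintype.card {s // ρ.sgP s = z} ≤
      Fintype.card {s // 2 * ρ.height (hiT M) s < W₀} := by
    intro z hz
    have h1 := card_sgP_le ρ M W₀ hW _ z (cut_up ρ M W₀ hW (W₀ / 2 + 1)
      (by omega) z hz)
    refine h1.trans (le_of_eq ?_)
    apply Fintype.card_congr
    apply Equiv.subtypeEquivRight
    intro s
    have := hmid s
    omega
  have h1 := h0 1 (Or.inl rfl)
  have h2 := h0 (-1) (Or.inr rfl)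
  have h3 := card_low_le ρ M W₀ hW
  have h5 : Fintype.card {s // ρ.sgP s = 1} + Fintype.card {s // ρ.sgP s = -1} =
      Fintype.card κ := by
    have e1 := Fintype.card_congr (Equiv.sumCompl (fun s => ρ.sgP s = 1))
    rw [Fintype.card_sum] at e1
    rw [← e1]
    congr 1
    apply Fintype.card_congr
    apply Equiv.subtypeEquivRight
    intro s
    rcases ρ.sgP_cases s with h | h
    · rw [h]
      norm_num
    · rw [h]
      norm_num
  have h6 : Fintype.card {s // 2 * ρ.height (hiT M) s < W₀} +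
      Fintype.card {s // ¬ 2 * ρ.height (hiT M) s < W₀} =
      Fintype.card κ := by
    have e1 := Fintype.card_congr (Equiv.sumCompl
      (fun s => 2 * ρ.height (hiT M) s < W₀))
    rw [Fintype.card_sum] at e1
    exact e1
  rcases hε with rfl | rfl <;> omega

end Pool.Agent.MP100fe7L
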