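import Pool.Agent.Lib.MP_100fe7_nt.LPer
import Pool.Agent.Lib.MP_100fe7_nt.TBlocks

/-!
The exchange of the weight heights for a representation which is homogeneous only as a whole.
-/

set_option linter.unusedSectionVars false

namespace Pool.Agent.MP100fe7L

open Matrix

variable {E : Type} [Field E] {Q : Type} [Fintype Q] [DecidableEq Q] {J : Q → Type}
  [∀ q, Fintype (J q)] [∀ q, DecidableEq (J q)] {κ : Type} [Fintype κ] [DecidableEq κ]

namespace PolRep

variable (ρ : PolRep E J κ)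

/-- If a family `S` satisfies `diag(x) S diag(x) = (c_i) S`, then so does `ρ(S)`: this gives the
exchange of the weight heights. -/
theorem pol_exchange {S₀ : Type} [CommRing S₀] [Algebra E S₀] (idx : Tot J → ℤ) (w : Q → ℤ) (W₀ : ℤ)
    (hWt : ∀ s, ∑ t : Tot J, (ρ.wt s t : ℤ) * w t.1 = W₀)
    (B : Fam J S₀) (hB : ∀ i j j', B i j j' ≠ 0 → idx ⟨i, j⟩ + idx ⟨i, j'⟩ = w i) (s t : κ)
    (hst : ρ.pol S₀ B s t ≠ 0) :
    (∑ q, (ρ.wt s q : ℤ) * idx q) + (∑ q, (ρ.wt t q : ℤ) * idx q) = W₀ := by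
  obtain ⟨c, hc, hc2⟩ : ∃ c : ℤ, (∀ q, 0 ≤ idx q + c) ∧ ∀ i, 0 ≤ w i + 2 * c := by
    obtain ⟨c₁, hc₁⟩ := exists_shift idx
    refine ⟨|c₁| + ∑ i, |w i|, fun q => ?_, fun i => ?_⟩
    · have h1 := hc₁ q
      have h2 := le_abs_self c₁
      have h3 : 0 ≤ ∑ i, |w i| := Finset.sum_nonneg fun i _ => abs_nonneg _
      linarith
    · have h1 : |w i| ≤ ∑ i, |w i| :=
        Finset.single_le_sum (f := fun i => |w i|) (fun i _ => abs_nonneg _) (Finset.mem_univ i)
      have h2 := neg_abs_le (w i)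
      have h3 := abs_nonneg c₁
      have h4 := abs_nonneg (w i)
      linarith
  let m : Tot J → ℕ := fun q => (idx q + c).toNat
  have hm : ∀ q, (m q : ℤ) = idx q + c := fun q => Int.toNat_of_nonneg (hc q)
  let W : Q → ℕ := fun i => (w i + 2 * c).toNat
  have hW : ∀ i, (W i : ℤ) = w i + 2 * c := fun i => Int.toNat_of_nonneg (hc2 i)
  have hH := ρ.height_shift idx c m hm
  let φ : S₀ →ₐ[E] Polynomial S₀ := IsScalarTower.toAlgHom E S₀ (Polynomial S₀)
  have hφ : ∀ r, φ r = Polynomial.C r := fun r => rfl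
  have h1 : fdiag (fun q => (Polynomial.X : Polynomial S₀) ^ m q) * Fam.map' B φ *
      fdiag (fun q => (Polynomial.X : Polynomial S₀) ^ m q) =
      fdiag (fun q => (Polynomial.X : Polynomial S₀) ^ W q.1) * Fam.map' B φ := by
    funext i
    ext1 j j'
    simp only [Pi.mul_apply, fdiag, Fam.map']
    rw [Matrix.mul_diagonal, Matrix.diagonal_mul, Matrix.diagonal_mul, Matrix.map_apply, hφ]
    by_cases h0 : B i j j' = 0
    · rw [h0]
      simp
    · have h2 := hB i j j' h0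
      have h3 := hm ⟨i, j⟩
      have h4 := hm ⟨i, j'⟩
      have h5 := hW i
      have h6 : m ⟨i, j⟩ + m ⟨i, j'⟩ = W i := by omega
      rw [← h6, pow_add]
      ring
  have h2 := congrArg (ρ.pol (Polynomial S₀)) h1
  rw [ρ.pol_mul, ρ.pol_mul, ρ.pol_mul, ← ρ.pol_map, ρ.pol_diag, ρ.pol_diag] at h2
  have h3 := congrFun (congrFun h2 s) t
  rw [Matrix.mul_diagonal, Matrix.diagonal_mul, Matrix.diagonal_mul, Matrix.map_apply, hφ] at h3
  simp only [← pow_mul, Finset.prod_pow_eq_pow_sum] at h3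
  rw [mul_comm (Polynomial.X ^ _), mul_assoc, ← pow_add, mul_comm] at h3
  have h4 : (∑ q, m q * ρ.wt s q) + (∑ q, m q * ρ.wt t q) = ∑ q : Tot J, W q.1 * ρ.wt s q := by
    have h5 := congrArg (fun f => Polynomial.coeff f ((∑ q, m q * ρ.wt s q) +
      (∑ q, m q * ρ.wt t q))) h3
    simp only [Polynomial.coeff_X_pow_mul'] at h5
    rw [if_pos le_rfl] at h5
    by_contra hne
    split_ifs at h5 with h6
    · rw [Nat.sub_self, Polynomial.coeff_C_zero, Polynomial.coeff_C_of_ne_zero] at h5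
      · exact hst h5
      · omega
    · rw [Nat.sub_self, Polynomial.coeff_C_zero] at h5
      exact hst h5
  have h5 := hH s
  have h6 := hH t
  have h7 : ((∑ q, m q * ρ.wt s q : ℕ) : ℤ) + ((∑ q, m q * ρ.wt t q : ℕ) : ℤ) =
      ∑ q : Tot J, (ρ.wt s q : ℤ) * (w q.1 + 2 * c) := by
    have h8 : ((∑ q : Tot J, W q.1 * ρ.wt s q : ℕ) : ℤ) =
        ∑ q : Tot J, (ρ.wt s q : ℤ) * (w q.1 + 2 * c) := by
      push_cast
      apply Finset.sum_congr rfl
      intro q _
      rw [hW, mul_comm]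
    rw [← h8]
    exact_mod_cast h4
  have h9 : ∑ q : Tot J, (ρ.wt s q : ℤ) * (w q.1 + 2 * c) = W₀ + (ρ.tdeg : ℤ) * (2 * c) := by
    have h10 : ((∑ q, ρ.wt s q : ℕ) : ℤ) = ρ.tdeg := by exact_mod_cast ρ.sum_wt s
    push_cast at h10
    simp only [mul_add, Finset.sum_add_distrib]
    rw [hWt, ← Finset.sum_mul, h10]
  rw [h9, h5, h6] at h7
  linarith

end PolRep

end Pool.Agent.MP100fe7L
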